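import Mathlib

set_option autoImplicit false

namespace Run7.h256

open MvPolynomial Topology Metric

/-- bounded by a multiple of a power of the size -/
def BO {V : Type*} (ρ : V → ℝ) (n : ℕ) (f : V → ℝ) : Prop :=
  ∃ K, 0 ≤ K ∧ ∀ v, 0 < ρ v → ρ v ≤ 1 → |f v| ≤ K * ρ v ^ n

namespace BO

variable {V : Type*} {ρ : V → ℝ} {n m : ℕ} {f g : V → ℝ}

lemma add (hf : BO ρ n f) (hg : BO ρ n g) : BO ρ n (fun v => f v + g v) := by
  obtain ⟨K, hK, h1⟩ := hf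
  obtain ⟨L, hL, h2⟩ := hg
  refine ⟨K + L, by positivity, ?_⟩
  intro v h0 h1'
  refine (abs_add_le _ _).trans ?_
  rw [add_mul]
  exact add_le_add (h1 v h0 h1') (h2 v h0 h1')

lemma sub (hf : BO ρ n f) (hg : BO ρ n g) : BO ρ n (fun v => f v - g v) := by
  obtain ⟨K, hK, h1⟩ := hf
  obtain ⟨L, hL, h2⟩ := hg
  refine ⟨K + L, by positivity, ?_⟩
  intro v h0 h1'
  refine (abs_sub _ _).trans ?_
  rw [add_mul]
  exact add_le_add (h1 v h0 h1') (h2 v h0 h1')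

lemma mul {k : ℕ} (hf : BO ρ n f) (hg : BO ρ m g) (h : k = n + m) : BO ρ k (fun v => f v * g v) := by
  obtain ⟨K, hK, h1⟩ := hf
  obtain ⟨L, hL, h2⟩ := hg
  refine ⟨K * L, by positivity, ?_⟩
  intro v h0 h1'
  rw [abs_mul, h, pow_add]
  calc |f v| * |g v| ≤ (K * ρ v ^ n) * (L * ρ v ^ m) :=
        mul_le_mul (h1 v h0 h1') (h2 v h0 h1') (abs_nonneg _) (by positivity)
    _ = _ := by ring

lemma const (c : ℝ) : BO ρ 0 (fun _ => c) := ⟨|c|, abs_nonneg _, fun v _ _ => by simp⟩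

lemma cmul (c : ℝ) (hf : BO ρ n f) : BO ρ n (fun v => c * f v) :=
  (const c).mul hf (by omega)

lemma congr (hf : BO ρ n f) (h : ∀ v, 0 < ρ v → g v = f v) : BO ρ n g := by
  obtain ⟨K, hK, h1⟩ := hf
  refine ⟨K, hK, ?_⟩
  intro v h0 h1'
  rw [h v h0]
  exact h1 v h0 h1'

end BO

/-- lower bound for the main part -/
lemma main_low {X Y a b c ω2 N D ε : ℝ} (hX : 0 ≤ X) (hc : 0 < c) (hω : 0 < ω2) (hω2 : ω2 = -a / 2 - b ^ 2 / 16)
    (hN : N = Y ^ 2 - b / 2 * X * Y - a / 2 * X ^ 2) (hD : D = 2 + (1 + b ^ 2 / 8) / ω2)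
    (hε : ε = c / (4 * D * (|b| + 2 * |a| + 1))) :
    ε / 4 * (X + |Y|) ^ 3 ≤ c * X * N + ε * |Y| * (Y ^ 2 + b * X * Y + 2 * a * X ^ 2) := by
  have hDp : 0 < D := by rw [hD]; positivity
  have hB : 0 < |b| + 2 * |a| + 1 := by positivity
  have hεp : 0 < ε := by rw [hε]; positivity
  have hDN : X ^ 2 + Y ^ 2 ≤ D * N := by
    have e1 : N = (Y - b / 4 * X) ^ 2 + ω2 * X ^ 2 := by rw [hN, hω2]; ring
    have e2 : D * N = 2 * (Y - b / 4 * X) ^ 2 + (1 + b ^ 2 / 8) * X ^ 2 +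
        ((1 + b ^ 2 / 8) / ω2 * (Y - b / 4 * X) ^ 2 + 2 * ω2 * X ^ 2) := by
      rw [e1, hD]; field_simp; ring
    have e3 : 0 ≤ (1 + b ^ 2 / 8) / ω2 * (Y - b / 4 * X) ^ 2 + 2 * ω2 * X ^ 2 := by positivity
    nlinarith [sq_nonneg (Y - b / 2 * X)]
  have hcε : 4 * D * (|b| + 2 * |a| + 1) * ε = c := by rw [hε]; field_simp
  -- estimate of the small terms
  have hYY : Y ^ 2 = |Y| ^ 2 := (sq_abs Y).symm
  obtain ⟨y, hy⟩ : ∃ y, y = |Y| := ⟨_, rfl⟩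
  have hy0 : 0 ≤ y := by rw [hy]; exact abs_nonneg _
  have h1 : -(|b| * X * y ^ 2) ≤ b * X * Y * y := by
    have : |b * X * Y * y| = |b| * X * y ^ 2 := by
      rw [abs_mul, abs_mul, abs_mul, abs_of_nonneg hX, abs_of_nonneg hy0, ← hy]; ring
    rw [← this]; exact neg_abs_le _
  have h2 : -(2 * |a| * X ^ 2 * y) ≤ 2 * a * X ^ 2 * y := by
    have : -|a| ≤ a := neg_abs_le a
    have h3 : 0 ≤ X ^ 2 * y := by positivity
    nlinarith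
  have h3 : c * X * (X ^ 2 + Y ^ 2) ≤ D * (c * X * N) := by
    have : 0 ≤ c * X := by positivity
    nlinarith
  rw [hYY, ← hy] at h3 ⊢
  have hXy : X ^ 2 * y ≤ X * (X ^ 2 + y ^ 2) := by
    have : X * y ≤ X ^ 2 + y ^ 2 := by nlinarith [sq_nonneg (X - y)]
    nlinarith
  have hXy2 : X * y ^ 2 ≤ X * (X ^ 2 + y ^ 2) := by
    have : 0 ≤ X * X ^ 2 := by positivity
    nlinarith
  obtain ⟨S, hS⟩ : ∃ S, S = X * (X ^ 2 + y ^ 2) := ⟨_, rfl⟩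
  have hS0 : 0 ≤ S := by rw [hS]; positivity
  rw [← hS] at hXy hXy2
  have h4 : c * X * (X ^ 2 + y ^ 2) = c * S := by rw [hS]; ring
  rw [h4] at h3
  -- ε times the small terms
  have h5 : -(ε * ((|b| + 2 * |a|) * S)) ≤ ε * (b * X * Y * y + 2 * a * X ^ 2 * y) := by
    have : -((|b| + 2 * |a|) * S) ≤ b * X * Y * y + 2 * a * X ^ 2 * y := by
      have k1 : |b| * (X * y ^ 2) ≤ |b| * S := mul_le_mul_of_nonneg_left hXy2 (abs_nonneg _)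
      have k2 : |a| * (X ^ 2 * y) ≤ |a| * S := mul_le_mul_of_nonneg_left hXy (abs_nonneg _)
      nlinarith
    nlinarith
  -- lower bound for the first term
  have h6 : 4 * (|b| + 2 * |a| + 1) * ε * S ≤ c * X * N := by
    have : D * (4 * (|b| + 2 * |a| + 1) * ε * S) ≤ D * (c * X * N) := by
      calc D * (4 * (|b| + 2 * |a| + 1) * ε * S) = (4 * D * (|b| + 2 * |a| + 1) * ε) * S := by ring
        _ = c * S := by rw [hcε]
        _ ≤ _ := h3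
    exact le_of_mul_le_mul_left this hDp
  have h7 : ε * X ^ 3 ≤ ε * S := by
    apply mul_le_mul_of_nonneg_left _ hεp.le
    rw [hS]
    have : 0 ≤ X * y ^ 2 := by positivity
    nlinarith
  have h8 : (X + y) ^ 3 ≤ 4 * (X ^ 3 + y ^ 3) := by
    nlinarith [mul_nonneg (add_nonneg hX hy0) (sq_nonneg (X - y))]
  have h9 : 0 ≤ (|b| + 2 * |a|) * ε * S := by positivity
  have h10 : 0 ≤ ε * S := by positivity
  have h11 : ε / 4 * (X + y) ^ 3 ≤ ε * X ^ 3 + ε * y ^ 3 := by nlinarith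
  nlinarith

lemma sq_den {X Y a b ω2 N D : ℝ} (hω : 0 < ω2) (hω2 : ω2 = -a / 2 - b ^ 2 / 16)
    (hN : N = Y ^ 2 - b / 2 * X * Y - a / 2 * X ^ 2) (hD : D = 2 + (1 + b ^ 2 / 8) / ω2) :
    X ^ 2 + Y ^ 2 ≤ D * N := by
  have e1 : N = (Y - b / 4 * X) ^ 2 + ω2 * X ^ 2 := by rw [hN, hω2]; ring
  have e2 : D * N = 2 * (Y - b / 4 * X) ^ 2 + (1 + b ^ 2 / 8) * X ^ 2 +
      ((1 + b ^ 2 / 8) / ω2 * (Y - b / 4 * X) ^ 2 + 2 * ω2 * X ^ 2) := by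
    rw [e1, hD]; field_simp; ring
  have e3 : 0 ≤ (1 + b ^ 2 / 8) / ω2 * (Y - b / 4 * X) ^ 2 + 2 * ω2 * X ^ 2 := by positivity
  nlinarith [sq_nonneg (Y - b / 2 * X)]

/-- the algebraic identity -/
lemma T_id {x Y A P Yd K1 X N G Gd a b c ε r0 r1 r2 q02 B2 B3 α1 α2 : ℝ} (hX : X = x ^ 2)
    (hN : N = Y ^ 2 - b / 2 * X * Y - a / 2 * X ^ 2)
    (hG : G = r0 * Y ^ 2 + r1 * X * Y + r2 * X ^ 2 + ε * Y * A)
    (hGd : Gd = 2 * r0 * Y * Yd + r1 * (2 * x * P * Y + X * Yd) + 4 * r2 * x * X * P + 2 * ε * A * Yd)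
    (h0 : 2 * q02 + r0 = 0) (h1 : 2 * (B2 - b * α1) + b * r0 + 3 * r1 = c)
    (h2 : 2 * (B3 - b * α2 - a * α1) + 2 * a * r0 + 5 * r2 = -c * b / 2)
    (h3 : 2 * (-a * α2) - b * r2 + a * r1 = -c * a / 2) :
    (2 * (Y * Yd - (b * Y + a * X) * x * P) + K1 * x * G + P * G + x * Gd) -
      (c * X * N + ε * A * (Y ^ 2 + b * X * Y + 2 * a * X ^ 2)) =
    2 * (Y * (Yd - x * (b * Y + a * X) - q02 * Y ^ 2 - B2 * X * Y - B3 * X ^ 2)) -
      2 * ((b * Y + a * X) * (x * (P - Y - α1 * x * Y - α2 * x ^ 3))) +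
      (K1 + b * x) * (x * G) + (P - Y) * G +
      x * (2 * r0 * (Y * (Yd - x * (b * Y + a * X))) + r1 * (2 * (x * (Y * (P - Y))) + X * (Yd - x * (b * Y + a * X))) +
        4 * r2 * (x * (X * (P - Y))) + 2 * ε * (A * (Yd - x * (b * Y + a * X)))) := by
  rw [hGd, hG, hN, hX]
  linear_combination Y ^ 3 * h0 + x ^ 2 * Y ^ 2 * h1 + x ^ 4 * Y * h2 + x ^ 6 * h3

end Run7.h256
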