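import Mathlib

set_option autoImplicit false

namespace Run7.h256

open MvPolynomial

variable {k : Type*} [Field k]

/-- order of vanishing at the origin at least `n` -/
def Og (n : ℕ) (F : MvPolynomial (Fin 2) k) : Prop := F ∈ idealOfVars (Fin 2) k ^ n

lemma Og_iff {n : ℕ} {F : MvPolynomial (Fin 2) k} :
    Og n F ↔ ∀ d : Fin 2 →₀ ℕ, d 0 + d 1 < n → coeff d F = 0 := by
  unfold Og
  rw [mem_pow_idealOfVars_iff']
  have : ∀ x : Fin 2 →₀ ℕ, Finsupp.degree x = x 0 + x 1 := by
    intro x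
    rw [Finsupp.degree_eq_sum, Fin.sum_univ_two]
  simp only [this]

lemma Og.mono {m n : ℕ} {F : MvPolynomial (Fin 2) k} (h : Og n F) (hmn : m ≤ n) : Og m F :=
  Ideal.pow_le_pow_right hmn h

lemma Og.add {n : ℕ} {F G : MvPolynomial (Fin 2) k} (hF : Og n F) (hG : Og n G) : Og n (F + G) :=
  Ideal.add_mem _ hF hG

lemma Og.sub {n : ℕ} {F G : MvPolynomial (Fin 2) k} (hF : Og n F) (hG : Og n G) : Og n (F - G) :=
  Ideal.sub_mem _ hF hG

lemma Og.neg {n : ℕ} {F : MvPolynomial (Fin 2) k} (hF : Og n F) : Og n (-F) :=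
  (Ideal.neg_mem_iff _).2 hF

lemma Og.zero {n : ℕ} : Og n (0 : MvPolynomial (Fin 2) k) := Ideal.zero_mem _

lemma Og.mul {a b n : ℕ} {F G : MvPolynomial (Fin 2) k} (hF : Og a F) (hG : Og b G)
    (h : n ≤ a + b) : Og n (F * G) := by
  have h1 : F * G ∈ idealOfVars (Fin 2) k ^ (a + b) := by
    rw [pow_add]; exact Ideal.mul_mem_mul hF hG
  exact Og.mono h1 h

lemma Og.all (F : MvPolynomial (Fin 2) k) : Og 0 F := by
  unfold Og; rw [pow_zero, Ideal.one_eq_top]; exact Submodule.mem_top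

lemma Og.mul_left {n : ℕ} {F : MvPolynomial (Fin 2) k} (G : MvPolynomial (Fin 2) k) (hF : Og n F) :
    Og n (G * F) := (Og.all G).mul hF (by omega)

lemma Og.mul_right {n : ℕ} {F : MvPolynomial (Fin 2) k} (hF : Og n F) (G : MvPolynomial (Fin 2) k) :
    Og n (F * G) := hF.mul (Og.all G) (by omega)

lemma Og.X (i : Fin 2) : Og 1 (MvPolynomial.X i : MvPolynomial (Fin 2) k) := by
  unfold Og; rw [pow_one]; exact Ideal.subset_span ⟨i, rfl⟩

lemma Og_one_iff {F : MvPolynomial (Fin 2) k} : Og 1 F ↔ eval 0 F = 0 := by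
  rw [Og_iff]
  have h : eval 0 F = coeff 0 F := by
    rw [eval_zero]; rfl
  rw [h]
  constructor
  · intro h; exact h 0 (by simp)
  · intro h d hd
    have : d = 0 := by
      ext i; fin_cases i
      · simp; omega
      · simp; omega
    rw [this]; exact h

lemma Og.eval {n : ℕ} (hn : 1 ≤ n) {F : MvPolynomial (Fin 2) k} (h : Og n F) :
    MvPolynomial.eval 0 F = 0 := Og_one_iff.1 (h.mono hn)

lemma Og.pderiv {n : ℕ} {F : MvPolynomial (Fin 2) k} (hF : Og (n + 1) F) (i : Fin 2) :
    Og n (MvPolynomial.pderiv i F) := by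
  rw [Og_iff] at hF ⊢
  intro d hd
  rw [coeff_pderiv, hF, zero_mul]
  fin_cases i
  · simp; omega
  · simp; omega

/-- homogeneous component -/
noncomputable def hc (n : ℕ) (F : MvPolynomial (Fin 2) k) : MvPolynomial (Fin 2) k :=
  homogeneousComponent n F

lemma hc_homog (n : ℕ) (F : MvPolynomial (Fin 2) k) : (hc n F).IsHomogeneous n :=
  homogeneousComponent_isHomogeneous n F

lemma coeff_hc (n : ℕ) (F : MvPolynomial (Fin 2) k) (d : Fin 2 →₀ ℕ) :
    coeff d (hc n F) = if d 0 + d 1 = n then coeff d F else 0 := by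
  unfold hc
  rw [coeff_homogeneousComponent, Finsupp.degree_eq_sum, Fin.sum_univ_two]

lemma Og.sub_hc {n : ℕ} {F : MvPolynomial (Fin 2) k} (h : Og n F) : Og (n + 1) (F - hc n F) := by
  rw [Og_iff] at h ⊢
  intro d hd
  rw [coeff_sub, coeff_hc]
  by_cases h1 : d 0 + d 1 = n
  · rw [if_pos h1, sub_self]
  · rw [if_neg h1, sub_zero]; exact h d (by omega)

lemma Og_of_homog {n : ℕ} {F : MvPolynomial (Fin 2) k} (h : F.IsHomogeneous n) : Og n F := by
  rw [Og_iff]
  intro d hd
  apply h.coeff_eq_zero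
  rw [Finsupp.degree_eq_sum, Fin.sum_univ_two]
  omega

lemma homog_zero {n : ℕ} {F : MvPolynomial (Fin 2) k} (h : F.IsHomogeneous n) (h' : Og (n + 1) F) :
    F = 0 := by
  ext d
  rw [coeff_zero]
  by_cases h1 : d 0 + d 1 = n
  · exact (Og_iff.1 h') d (by omega)
  · apply h.coeff_eq_zero
    rw [Finsupp.degree_eq_sum, Fin.sum_univ_two]
    exact h1

lemma Og_of_mul_homog {n m : ℕ} {L F : MvPolynomial (Fin 2) k} (hL : L.IsHomogeneous m) (hL0 : L ≠ 0)
    (h : Og (n + m) (L * F)) : Og n F := by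
  induction n with
  | zero => exact Og.all F
  | succ n ih =>
    have h1 : Og n F := ih (h.mono (by omega))
    have h2 := h1.sub_hc
    have h3 : Og (n + m + 1) (L * hc n F) := by
      have e : L * hc n F = L * F - L * (F - hc n F) := by ring
      rw [e]
      exact (h.mono (by omega)).sub ((Og_of_homog hL).mul h2 (by omega))
    have h4 : L * hc n F = 0 := by
      apply homog_zero (n := n + m) _ h3
      have := hL.mul (hc_homog n F)
      rw [add_comm] at this
      exact this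
    have h5 : hc n F = 0 := by
      rcases mul_eq_zero.1 h4 with h' | h'
      · exact absurd h' hL0
      · exact h'
    rw [h5, sub_zero] at h2
    exact h2

end Run7.h256
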