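import Mathlib
import Pool.Agent.Run7.h256.Ord

set_option autoImplicit false

namespace Run7.h256

open MvPolynomial

variable {k : Type*} [Field k]

lemma hc_one {F : MvPolynomial (Fin 2) k} :
    hc 1 F = C (eval 0 (pderiv 0 F)) * X 0 + C (eval 0 (pderiv 1 F)) * X 1 := by
  have h : ∀ G : MvPolynomial (Fin 2) k, eval 0 G = coeff 0 G := by
    intro G; rw [eval_zero]; rfl
  ext d
  rw [coeff_hc, h, h, coeff_pderiv, coeff_pderiv, coeff_add, coeff_C_mul, coeff_C_mul, coeff_X,
    coeff_X]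
  by_cases h1 : d 0 + d 1 = 1
  · rw [if_pos h1]
    by_cases h0 : d 0 = 0
    · have e : d = Finsupp.single 1 1 := by
        ext i; fin_cases i
        · simp [h0]
        · simp; omega
      subst e
      have ne : ¬ (Finsupp.single (0 : Fin 2) 1 = (Finsupp.single 1 1 : Fin 2 →₀ ℕ)) := by
        intro h'
        have := DFunLike.congr_fun h' 0
        simp at this
      rw [if_neg ne]
      simp
    · have e : d = Finsupp.single 0 1 := by
        ext i; fin_cases i
        · simp; omega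
        · simp; omega
      subst e
      have ne : ¬ (Finsupp.single (1 : Fin 2) 1 = (Finsupp.single 0 1 : Fin 2 →₀ ℕ)) := by
        intro h'
        have := DFunLike.congr_fun h' 0
        simp at this
      rw [if_neg ne]
      simp
  · rw [if_neg h1]
    have n0 : ¬ (Finsupp.single (0 : Fin 2) 1 = d) := by
      rintro rfl
      apply h1; simp
    have n1 : ¬ (Finsupp.single (1 : Fin 2) 1 = d) := by
      rintro rfl
      apply h1; simp
    rw [if_neg n0, if_neg n1]
    simp

/-- a nondegenerate zero at the origin with zero divergence -/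
structure Loc0 (P Q : MvPolynomial (Fin 2) k) : Prop where
  hP : eval 0 P = 0
  hQ : eval 0 Q = 0
  hJ : eval 0 (pderiv 0 P) * eval 0 (pderiv 1 Q) - eval 0 (pderiv 1 P) * eval 0 (pderiv 0 Q) ≠ 0
  hD : eval 0 (pderiv 0 P) + eval 0 (pderiv 1 Q) = 0

lemma relPrime_X01 : IsRelPrime (X 0 : MvPolynomial (Fin 2) k) (X 1) := by
  rw [(X_prime (R := k) (i := (0 : Fin 2))).irreducible.isRelPrime_iff_not_dvd]
  rintro ⟨c, hc⟩
  have := congrArg (eval ![0, 1]) hc
  simp at this

lemma split_prop' {a b u v : MvPolynomial (Fin 2) k} (hab : IsRelPrime a b) (h : a * v = b * u) :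
    ∃ c : MvPolynomial (Fin 2) k, u = a * c ∧ v = b * c := by
  by_cases ha : a = 0
  · subst ha
    have hb : IsUnit b := hab (dvd_zero b) dvd_rfl
    rw [zero_mul] at h
    obtain ⟨c, hc⟩ := hb.exists_right_inv
    refine ⟨c * v, ?_, ?_⟩
    · rw [zero_mul]
      linear_combination (-c) * h - u * hc
    · linear_combination (-v) * hc
  · obtain ⟨c, hk⟩ := hab.dvd_of_dvd_mul_left (show a ∣ b * u from ⟨v, h.symm⟩)
    refine ⟨c, hk, ?_⟩
    apply mul_left_cancel₀ ha
    rw [h, hk]; ring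

namespace Loc0

variable {P Q : MvPolynomial (Fin 2) k}

lemma relPrime (h : Loc0 P Q) : IsRelPrime (hc 1 P) (hc 1 Q) := by
  rw [hc_one, hc_one]
  set p0 := eval 0 (pderiv 0 P)
  set p1 := eval 0 (pderiv 1 P)
  set q0 := eval 0 (pderiv 0 Q)
  set q1 := eval 0 (pderiv 1 Q)
  have hJ : p0 * q1 - p1 * q0 ≠ 0 := h.hJ
  have e : C (p0 * q1 - p1 * q0)⁻¹ * (C p0 * C q1 - C p1 * C q0) = (1 : MvPolynomial (Fin 2) k) := by
    rw [← C_mul, ← C_mul, ← C_sub, ← C_mul, inv_mul_cancel₀ hJ, C_1]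
  intro d hd1 hd2
  apply relPrime_X01 (k := k)
  · obtain ⟨c1, hc1⟩ := hd1
    obtain ⟨c2, hc2⟩ := hd2
    refine ⟨C (p0 * q1 - p1 * q0)⁻¹ * (C q1 * c1 - C p1 * c2), ?_⟩
    linear_combination (-(X 0)) * e + C (p0 * q1 - p1 * q0)⁻¹ * (C q1 * hc1 - C p1 * hc2)
  · obtain ⟨c1, hc1⟩ := hd1
    obtain ⟨c2, hc2⟩ := hd2
    refine ⟨C (p0 * q1 - p1 * q0)⁻¹ * (C p0 * c2 - C q0 * c1), ?_⟩
    linear_combination (-(X 1)) * e + C (p0 * q1 - p1 * q0)⁻¹ * (C p0 * hc2 - C q0 * hc1)

lemma hc_ne (h : Loc0 P Q) : hc 1 Q ≠ 0 := by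
  intro h0
  rw [hc_one] at h0
  have e0 := congrArg (eval ![1, 0]) h0
  have e1 := congrArg (eval ![0, 1]) h0
  simp only [map_add, map_mul, eval_C, eval_X, map_zero, Matrix.cons_val_zero, Matrix.cons_val_one,
    mul_one, mul_zero, add_zero, zero_add] at e0 e1
  apply h.hJ
  rw [e0, e1]; ring

/-- Koszul lemma with orders -/
lemma koszul (h : Loc0 P Q) (n : ℕ) : ∀ a b : MvPolynomial (Fin 2) k, Og (n + 1) (a * P + b * Q) →
    ∃ ρ : MvPolynomial (Fin 2) k, Og n (a + ρ * Q) ∧ Og n (b - ρ * P) := by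
  have hP1 : Og 1 P := Og_one_iff.2 h.hP
  have hQ1 : Og 1 Q := Og_one_iff.2 h.hQ
  induction n with
  | zero => intro a b _; exact ⟨0, Og.all _, Og.all _⟩
  | succ n ih =>
    intro a b hab
    obtain ⟨ρ, h1, h2⟩ := ih a b (hab.mono (by omega))
    set a' := a + ρ * Q with ha'
    set b' := b - ρ * P with hb'
    have h3 : Og (n + 1 + 1) (a' * P + b' * Q) := by
      have : a' * P + b' * Q = a * P + b * Q := by rw [ha', hb']; ring
      rw [this]; exact hab
    have h4 : Og (n + 1 + 1) (hc n a' * hc 1 P + hc n b' * hc 1 Q) := by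
      have e : hc n a' * hc 1 P + hc n b' * hc 1 Q = (a' * P + b' * Q) - ((a' - hc n a') * P +
        hc n a' * (P - hc 1 P) + ((b' - hc n b') * Q + hc n b' * (Q - hc 1 Q))) := by ring
      rw [e]
      refine h3.sub (Og.add (Og.add ?_ ?_) (Og.add ?_ ?_))
      · exact h1.sub_hc.mul hP1 (by omega)
      · exact (Og_of_homog (hc_homog n a')).mul hP1.sub_hc (by omega)
      · exact h2.sub_hc.mul hQ1 (by omega)
      · exact (Og_of_homog (hc_homog n b')).mul hQ1.sub_hc (by omega)
    have h5 : hc n a' * hc 1 P + hc n b' * hc 1 Q = 0 := by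
      apply homog_zero (n := n + 1) _ h4
      exact ((hc_homog n a').mul (hc_homog 1 P)).add ((hc_homog n b').mul (hc_homog 1 Q))
    obtain ⟨c, hc1, hc2⟩ := split_prop' h.relPrime (u := - hc n b') (v := hc n a')
      (by linear_combination h5)
    have hcn : Og n (hc 1 Q * c) := by rw [← hc2]; exact Og_of_homog (hc_homog n a')
    refine ⟨ρ - c, ?_, ?_⟩
    · have e : a + (ρ - c) * Q = (a' - hc n a') - c * (Q - hc 1 Q) := by
        rw [ha']; linear_combination hc2
      rw [e]
      refine h1.sub_hc.sub ?_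
      rcases Nat.eq_zero_or_pos n with hn | hn
      · subst hn
        exact (Og.all c).mul hQ1.sub_hc (by omega)
      · obtain ⟨m, rfl⟩ := Nat.exists_eq_add_of_le' hn
        have : Og m c := Og_of_mul_homog (hc_homog 1 Q) h.hc_ne hcn
        exact this.mul hQ1.sub_hc (by omega)
    · have e : b - (ρ - c) * P = (b' - hc n b') + c * (P - hc 1 P) := by
        rw [hb']; linear_combination (-1 : MvPolynomial (Fin 2) k) * hc1
      rw [e]
      refine h2.sub_hc.add ?_
      rcases Nat.eq_zero_or_pos n with hn | hn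
      · subst hn
        exact (Og.all c).mul hP1.sub_hc (by omega)
      · obtain ⟨m, rfl⟩ := Nat.exists_eq_add_of_le' hn
        have : Og m c := Og_of_mul_homog (hc_homog 1 Q) h.hc_ne hcn
        exact this.mul hP1.sub_hc (by omega)

/-- second order consequences -/
lemma K2 (h : Loc0 P Q) {a b : MvPolynomial (Fin 2) k} (hab : Og 3 (a * P + b * Q)) :
    eval 0 a = 0 ∧ eval 0 b = 0 ∧ eval 0 (pderiv 0 b) = eval 0 (pderiv 1 a) := by
  obtain ⟨ρ, h1, h2⟩ := h.koszul 2 a b hab
  have e1 := h1.eval (by norm_num)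
  have e2 := h2.eval (by norm_num)
  have e3 := (h1.pderiv 1).eval (le_refl 1)
  have e4 := (h2.pderiv 0).eval (le_refl 1)
  simp only [map_add, map_sub, map_mul, Derivation.leibniz, smul_eq_mul, h.hP, h.hQ] at e1 e2 e3 e4
  refine ⟨by linear_combination e1, by linear_combination e2, ?_⟩
  linear_combination e4 - e3 + eval 0 ρ * h.hD

end Loc0

end Run7.h256
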