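import Mathlib
import Pool.Agent.Run7.h256.Loc

set_option autoImplicit false

namespace Run7.h256

open MvPolynomial

variable {k : Type*} [Field k]

lemma pd_comm (F : MvPolynomial (Fin 2) k) : pderiv 1 (pderiv 0 F) = pderiv 0 (pderiv 1 F) := by
  ext d
  rw [coeff_pderiv, coeff_pderiv, coeff_pderiv, coeff_pderiv]
  have e : d + Finsupp.single 1 1 + Finsupp.single 0 1 = d + Finsupp.single 0 1 + Finsupp.single 1 1 := by
    abel
  rw [e]
  simp
  ring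

/-- `h dθ - dh ∧ θ` -/
noncomputable def EE (h α β : MvPolynomial (Fin 2) k) : MvPolynomial (Fin 2) k :=
  h * (pderiv 0 β - pderiv 1 α) - (pderiv 0 h * β - pderiv 1 h * α)

/-- the cubic quantity -/
noncomputable def UU (h α β L ψ1 ψ2 : MvPolynomial (Fin 2) k) : MvPolynomial (Fin 2) k :=
  2 * (pderiv 0 h * ψ2 - pderiv 1 h * ψ1) - h * (pderiv 0 ψ2 - pderiv 1 ψ1) -
    (pderiv 0 L * β - pderiv 1 L * α) + (ψ1 * β - ψ2 * α) + 2 * L * (pderiv 0 β - pderiv 1 α)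

/-- first order condition -/
def KC (P Q : MvPolynomial (Fin 2) k) (s : Fin 2 → k) : Prop :=
  ∀ h α β : MvPolynomial (Fin 2) k, h * (pderiv 0 P + pderiv 1 Q) = α * P + β * Q →
    eval s (EE h α β) = 0

/-- second order condition -/
def LC (P Q : MvPolynomial (Fin 2) k) (s : Fin 2 → k) : Prop :=
  ∀ h α β L ψ1 ψ2 : MvPolynomial (Fin 2) k, h * (pderiv 0 P + pderiv 1 Q) = α * P + β * Q →
    EE h α β = L * (pderiv 0 P + pderiv 1 Q) + ψ1 * P + ψ2 * Q → eval s h ≠ 0 →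
    eval s (UU h α β L ψ1 ψ2) = 0

namespace Loc0

variable {P Q M : MvPolynomial (Fin 2) k}

lemma KC0 (hl : Loc0 P Q) (hM : eval 0 M ≠ 0)
    (hN : Og 3 (P * pderiv 0 M + Q * pderiv 1 M + M * (pderiv 0 P + pderiv 1 Q))) : KC P Q 0 := by
  intro h α β he
  have h1 : Og 3 ((h * pderiv 0 M + M * α) * P + (h * pderiv 1 M + M * β) * Q) := by
    have : (h * pderiv 0 M + M * α) * P + (h * pderiv 1 M + M * β) * Q =
        h * (P * pderiv 0 M + Q * pderiv 1 M + M * (pderiv 0 P + pderiv 1 Q)) := by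
      linear_combination (-M) * he
    rw [this]
    exact hN.mul_left h
  obtain ⟨k1, k2, k3⟩ := hl.K2 h1
  simp only [map_add, map_mul, Derivation.leibniz, smul_eq_mul] at k1 k2 k3
  rw [pd_comm] at k3
  simp only [EE, map_add, map_sub, map_mul]
  apply mul_left_cancel₀ hM
  rw [mul_zero]
  linear_combination (eval 0 h) * k3 - eval 0 (pderiv 0 h) * k2 + eval 0 (pderiv 1 h) * k1 -
    eval 0 β * k1 + eval 0 α * k2

lemma LC0 (hl : Loc0 P Q) (hM : eval 0 M ≠ 0)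
    (hN : Og 5 (P * pderiv 0 M + Q * pderiv 1 M + M * (pderiv 0 P + pderiv 1 Q))) : LC P Q 0 := by
  intro h α β L ψ1 ψ2 he hE hh
  set N := P * pderiv 0 M + Q * pderiv 1 M + M * (pderiv 0 P + pderiv 1 Q) with hNdef
  obtain ⟨a, ha⟩ : ∃ a, a = h * pderiv 0 M + M * α := ⟨_, rfl⟩
  obtain ⟨b, hb⟩ : ∃ b, b = h * pderiv 1 M + M * β := ⟨_, rfl⟩
  have h1 : a * P + b * Q = h * N := by
    rw [ha, hb, hNdef]; linear_combination (-M) * he
  obtain ⟨ρ, ho1, ho2⟩ := hl.koszul 4 a b (by rw [h1]; exact hN.mul_left h)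
  obtain ⟨a4, ha4⟩ : ∃ a4, a4 = a + ρ * Q := ⟨_, rfl⟩
  obtain ⟨b4, hb4⟩ : ∃ b4, b4 = b - ρ * P := ⟨_, rfl⟩
  rw [← ha4] at ho1
  rw [← hb4] at ho2
  have hax : pderiv 1 a4 = pderiv 1 a + ρ * pderiv 1 Q + Q * pderiv 1 ρ := by
    rw [ha4]; simp only [map_add, Derivation.leibniz, smul_eq_mul]; ring
  have hbx : pderiv 0 b4 = pderiv 0 b - ρ * pderiv 0 P - P * pderiv 0 ρ := by
    rw [hb4]; simp only [map_sub, Derivation.leibniz, smul_eq_mul]; ring
  have hay : pderiv 1 a = pderiv 1 h * pderiv 0 M + h * pderiv 0 (pderiv 1 M) + pderiv 1 M * α +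
      M * pderiv 1 α := by
    rw [ha]; simp only [map_add, Derivation.leibniz, smul_eq_mul]; rw [pd_comm]; ring
  have hby : pderiv 0 b = pderiv 0 h * pderiv 1 M + h * pderiv 0 (pderiv 1 M) + pderiv 0 M * β +
      M * pderiv 0 β := by
    rw [hb]; simp only [map_add, Derivation.leibniz, smul_eq_mul]; ring
  obtain ⟨e3, he3⟩ : ∃ e3, e3 = h * (pderiv 0 b4 - pderiv 1 a4) - pderiv 0 h * b4 + pderiv 1 h * a4 -
    a4 * β + b4 * α := ⟨_, rfl⟩
  have ho3 : Og 3 e3 := by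
    rw [he3]
    refine ((((Og.mul_left h ((ho2.pderiv 0).sub (ho1.pderiv 1))).sub
      ((ho2.mono (by norm_num)).mul_left _)).add ((ho1.mono (by norm_num)).mul_left _)).sub
      ((ho1.mono (by norm_num)).mul_right _)).add ((ho2.mono (by norm_num)).mul_right _)
  -- the formula for M * E
  have hME : M * EE h α β = h * (P * pderiv 0 ρ + Q * pderiv 1 ρ) +
      2 * h * ρ * (pderiv 0 P + pderiv 1 Q) - ρ * (P * pderiv 0 h + Q * pderiv 1 h) + e3 := by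
    rw [he3, hax, hbx, hay, hby, EE]
    linear_combination (pderiv 0 h - α) * (hb + hb4) + (β - pderiv 1 h) * (ha + ha4) - ρ * he
  obtain ⟨ζ1, hζ1⟩ : ∃ ζ1, ζ1 = (M * L - 2 * h * ρ) * α + h * M * ψ1 - h * h * pderiv 0 ρ +
    h * ρ * pderiv 0 h := ⟨_, rfl⟩
  obtain ⟨ζ2, hζ2⟩ : ∃ ζ2, ζ2 = (M * L - 2 * h * ρ) * β + h * M * ψ2 - h * h * pderiv 1 ρ +
    h * ρ * pderiv 1 h := ⟨_, rfl⟩
  have hζ : ζ1 * P + ζ2 * Q = h * e3 := by
    rw [hζ1, hζ2]
    rw [hE] at hME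
    linear_combination h * hME - (M * L - 2 * h * ρ) * he
  obtain ⟨z1, z2, z3⟩ := hl.K2 (a := ζ1) (b := ζ2) (by rw [hζ]; exact ho3.mul_left h)
  obtain ⟨k1, k2, k3⟩ := hl.K2 (a := a) (b := b)
    (by rw [h1]; exact (hN.mono (by norm_num)).mul_left h)
  have hK := hl.KC0 hM (hN.mono (by norm_num)) h α β he
  have hzx : pderiv 1 ζ1 = (pderiv 1 M * L + M * pderiv 1 L - 2 * pderiv 1 h * ρ - 2 * h * pderiv 1 ρ) * α
      + (M * L - 2 * h * ρ) * pderiv 1 α + pderiv 1 h * M * ψ1 + h * pderiv 1 M * ψ1 +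
      h * M * pderiv 1 ψ1 - 2 * h * pderiv 1 h * pderiv 0 ρ - h * h * pderiv 0 (pderiv 1 ρ) +
      pderiv 1 h * ρ * pderiv 0 h + h * pderiv 1 ρ * pderiv 0 h + h * ρ * pderiv 0 (pderiv 1 h) := by
    rw [hζ1]
    simp only [map_add, map_sub, Derivation.leibniz, smul_eq_mul]
    rw [pd_comm, pd_comm]
    have : pderiv 1 (2 : MvPolynomial (Fin 2) k) = 0 := by
      rw [show (2 : MvPolynomial (Fin 2) k) = C 2 from (map_ofNat C 2).symm, pderiv_C]
    rw [this]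
    ring
  have hzy : pderiv 0 ζ2 = (pderiv 0 M * L + M * pderiv 0 L - 2 * pderiv 0 h * ρ - 2 * h * pderiv 0 ρ) * β
      + (M * L - 2 * h * ρ) * pderiv 0 β + pderiv 0 h * M * ψ2 + h * pderiv 0 M * ψ2 +
      h * M * pderiv 0 ψ2 - 2 * h * pderiv 0 h * pderiv 1 ρ - h * h * pderiv 0 (pderiv 1 ρ) +
      pderiv 0 h * ρ * pderiv 1 h + h * pderiv 0 ρ * pderiv 1 h + h * ρ * pderiv 0 (pderiv 1 h) := by
    rw [hζ2]
    simp only [map_add, map_sub, Derivation.leibniz, smul_eq_mul]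
    have : pderiv 0 (2 : MvPolynomial (Fin 2) k) = 0 := by
      rw [show (2 : MvPolynomial (Fin 2) k) = C 2 from (map_ofNat C 2).symm, pderiv_C]
    rw [this]
    ring
  have v2 : eval (0 : Fin 2 → k) (2 : MvPolynomial (Fin 2) k) = 2 := by
    rw [show (2 : MvPolynomial (Fin 2) k) = C 2 from (map_ofNat C 2).symm, eval_C]
  rw [hzx, hzy] at z3
  rw [hζ1] at z1
  rw [hζ2] at z2
  rw [ha] at k1
  rw [hb] at k2
  simp only [EE, UU, map_add, map_sub, map_mul, v2] at z1 z2 z3 k1 k2 hK ⊢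
  apply mul_left_cancel₀ hM
  apply mul_left_cancel₀ hh
  rw [mul_zero, mul_zero]
  linear_combination (-eval 0 h) * z3 + eval 0 L * (k1 * eval 0 β - k2 * eval 0 α) +
    2 * (z1 * eval 0 β - z2 * eval 0 α) + eval 0 h * (k1 * eval 0 ψ2 - k2 * eval 0 ψ1) +
    3 * (eval 0 (pderiv 0 h) * z2 - eval 0 (pderiv 1 h) * z1) +
    (3 * (eval 0 M * eval 0 L - 2 * eval 0 h * eval 0 ρ) + 4 * eval 0 ρ * eval 0 h) * hK

end Loc0

end Run7.h256
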