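import Mathlib

set_option autoImplicit false

namespace Run7.h256

open MvPolynomial

variable {k : Type*} [Field k]

/-- polynomials in two variables of total degree at most `d` -/
noncomputable abbrev Pl (k : Type*) [Field k] (d : ℕ) : Submodule k (MvPolynomial (Fin 2) k) :=
  restrictTotalDegree (Fin 2) k d

lemma mem_Pl {d : ℕ} {F : MvPolynomial (Fin 2) k} : F ∈ Pl k d ↔ F.totalDegree ≤ d :=
  mem_restrictTotalDegree _ _ _

lemma fs_sum (n : Fin 2 →₀ ℕ) : (n.sum fun _ e => e) = n 0 + n 1 := by
  rw [Finsupp.sum_fintype _ _ (fun _ => rfl), Fin.sum_univ_two]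

/-- indices -/
noncomputable def exEquiv (d : ℕ) :
    {n : Fin 2 →₀ ℕ | (n.sum fun _ e => e) ≤ d} ≃
      ((Finset.range (d + 1)).sigma (fun i => Finset.range (i + 1)) : Finset (Σ _ : ℕ, ℕ)) where
  toFun n := ⟨⟨n.1 0 + n.1 1, n.1 0⟩, by
    have := n.2
    simp only [Set.mem_ofPred_eq, fs_sum] at this
    simp only [Finset.mem_sigma, Finset.mem_range]
    omega⟩
  invFun x := ⟨Finsupp.equivFunOnFinite.symm ![x.1.2, x.1.1 - x.1.2], by
    have h1 := x.2
    simp only [Finset.mem_sigma, Finset.mem_range] at h1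
    simp only [Set.mem_ofPred_eq, fs_sum]
    simp
    omega⟩
  left_inv n := by
    apply Subtype.ext
    ext i
    fin_cases i
    · simp
    · simp
  right_inv x := by
    obtain ⟨⟨a, b⟩, h⟩ := x
    simp only [Finset.mem_sigma, Finset.mem_range] at h
    have e : b + (a - b) = a := by omega
    apply Subtype.ext
    simp [e]

lemma two_mul_card (d : ℕ) :
    2 * ((Finset.range (d + 1)).sigma (fun i => Finset.range (i + 1))).card = (d + 1) * (d + 2) := by
  rw [Finset.card_sigma]
  simp only [Finset.card_range]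
  have h := Finset.sum_range_id_mul_two (d + 2)
  rw [Finset.sum_range_succ', add_zero] at h
  have : d + 2 - 1 = d + 1 := by omega
  rw [this] at h
  linarith

lemma finrank_Pl (d : ℕ) : 2 * Module.finrank k (Pl k d) = (d + 1) * (d + 2) := by
  rw [← two_mul_card]
  congr 1
  have b : Module.Basis {n : Fin 2 →₀ ℕ | (n.sum fun _ e => e) ≤ d} k (Pl k d) :=
    basisRestrictSupport k _
  have b' := b.reindex (exEquiv d)
  rw [Module.finrank_eq_card_basis b', Fintype.card_coe]

/-! ### degree bookkeeping -/

/-- total degree at most `n` -/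
def Dle (n : ℕ) (F : MvPolynomial (Fin 2) k) : Prop := F.totalDegree ≤ n

lemma Dle.mono {m n : ℕ} {F : MvPolynomial (Fin 2) k} (h : Dle m F) (hmn : m ≤ n) : Dle n F :=
  le_trans h hmn

lemma Dle.add {n : ℕ} {F G : MvPolynomial (Fin 2) k} (hF : Dle n F) (hG : Dle n G) :
    Dle n (F + G) := le_trans (totalDegree_add _ _) (max_le hF hG)

lemma Dle.sub {n : ℕ} {F G : MvPolynomial (Fin 2) k} (hF : Dle n F) (hG : Dle n G) :
    Dle n (F - G) := le_trans (totalDegree_sub _ _) (max_le hF hG)

lemma Dle.neg {n : ℕ} {F : MvPolynomial (Fin 2) k} (hF : Dle n F) : Dle n (-F) := by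
  unfold Dle; rw [totalDegree_neg]; exact hF

lemma Dle.mul {a b n : ℕ} {F G : MvPolynomial (Fin 2) k} (hF : Dle a F) (hG : Dle b G)
    (h : a + b ≤ n) : Dle n (F * G) :=
  le_trans (totalDegree_mul _ _) (le_trans (Nat.add_le_add hF hG) h)

lemma Dle.C {n : ℕ} (a : k) : Dle n (MvPolynomial.C a : MvPolynomial (Fin 2) k) := by
  unfold Dle; rw [totalDegree_C]; exact Nat.zero_le _

lemma Dle.zero {n : ℕ} : Dle n (0 : MvPolynomial (Fin 2) k) := by
  unfold Dle; rw [totalDegree_zero]; exact Nat.zero_le _

lemma Dle.one {n : ℕ} : Dle n (1 : MvPolynomial (Fin 2) k) := by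
  unfold Dle; rw [totalDegree_one]; exact Nat.zero_le _

lemma Dle.X {n : ℕ} (h : 1 ≤ n) (i : Fin 2) : Dle n (MvPolynomial.X i : MvPolynomial (Fin 2) k) := by
  unfold Dle; rw [totalDegree_X]; exact h

lemma Dle.pderiv {n : ℕ} {F : MvPolynomial (Fin 2) k} (hF : Dle (n + 1) F) (i : Fin 2) :
    Dle n (MvPolynomial.pderiv i F) := by
  unfold Dle
  rw [totalDegree, Finset.sup_le_iff]
  intro d hd
  rw [mem_support_iff] at hd
  rw [fs_sum]
  -- coefficient of the derivative
  by_contra hcon
  apply hd
  have key : ∀ G : MvPolynomial (Fin 2) k, ∀ d : Fin 2 →₀ ℕ,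
      coeff d (MvPolynomial.pderiv i G) = (d i + 1) * coeff (d + Finsupp.single i 1) G := by
    intro G d
    induction G using MvPolynomial.induction_on' with
    | monomial u a =>
      rw [pderiv_monomial, coeff_monomial, coeff_monomial]
      by_cases hu : u = d + Finsupp.single i 1
      · subst hu
        simp
        ring
      · rw [if_neg hu, mul_zero]
        by_cases h2 : u - Finsupp.single i 1 = d
        · rw [if_pos h2]
          by_cases h3 : u i = 0
          · rw [h3]; simp
          · exfalso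
            apply hu
            rw [← h2]
            ext j
            by_cases hj : j = i
            · subst hj; simp; omega
            · simp [Ne.symm hj]
        · rw [if_neg h2]
    | add p q hp hq =>
      rw [map_add, coeff_add, coeff_add, hp, hq]; ring
  rw [key]
  have h0 : coeff (d + Finsupp.single i 1) F = 0 := by
    apply coeff_eq_zero_of_totalDegree_lt
    have e2 := fs_sum (d + Finsupp.single i 1)
    rw [Finsupp.sum] at e2
    rw [e2]
    have h5 : F.totalDegree ≤ n + 1 := hF
    fin_cases i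
    · simp at hcon ⊢; omega
    · simp at hcon ⊢; omega
  rw [h0, mul_zero]

end Run7.h256
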