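import Mathlib
import Pool.Agent.Run7.h256.Base

set_option autoImplicit false

namespace Run7.h256

open MvPolynomial

variable {k : Type*} [Field k]

lemma totalDegree_mul_eq {F G : MvPolynomial (Fin 2) k} (hF : F ≠ 0) (hG : G ≠ 0) :
    (F * G).totalDegree = F.totalDegree + G.totalDegree := totalDegree_mul_of_isDomain hF hG

/-- the dimension count for a complete intersection -/
lemma ci_count {P Q : MvPolynomial (Fin 2) k} (hrel : IsRelPrime P Q) (hQ : Q ≠ 0)
    {a b N : ℕ} (ha : P.totalDegree = a) (hb : Q.totalDegree = b) {ι : Type*} [Fintype ι]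
    (L : Pl k (a + b + N) →ₗ[k] (ι → k)) (hL : Function.Surjective L)
    (hzero : ∀ F : Pl k (a + b + N), ∀ u v : MvPolynomial (Fin 2) k,
      F.1 = u * P + v * Q → L F = 0) :
    Fintype.card ι ≤ a * b := by
  let V := (Pl k (b + N)) × (Pl k (a + N))
  let M : V →ₗ[k] MvPolynomial (Fin 2) k :=
    LinearMap.coprod ((LinearMap.mulRight k P).comp (Pl k (b + N)).subtype)
      ((LinearMap.mulRight k Q).comp (Pl k (a + N)).subtype)
  have hM : ∀ x : V, M x = x.1.1 * P + x.2.1 * Q := fun x => rfl
  let M' : V →ₗ[k] Pl k (a + b + N) := LinearMap.codRestrict _ M (by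
    intro x
    rw [hM, mem_Pl]
    have h1 : Dle (b + N) x.1.1 := mem_Pl.1 x.1.2
    have h2 : Dle (a + N) x.2.1 := mem_Pl.1 x.2.2
    have h3 : Dle a P := le_of_eq ha
    have h4 : Dle b Q := le_of_eq hb
    exact (h1.mul h3 (by omega)).add (h2.mul h4 (by omega)))
  have hM' : ∀ x : V, (M' x : MvPolynomial (Fin 2) k) = x.1.1 * P + x.2.1 * Q := fun x => hM x
  let K : Pl k N →ₗ[k] V := LinearMap.prod
    (LinearMap.codRestrict (Pl k (b + N)) ((LinearMap.mulRight k Q).comp (Pl k N).subtype) (by
      intro x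
      have h1 : Dle N x.1 := mem_Pl.1 x.2
      have h4 : Dle b Q := le_of_eq hb
      exact mem_Pl.2 (h1.mul h4 (by omega))))
    (LinearMap.codRestrict (Pl k (a + N)) (-((LinearMap.mulRight k P).comp (Pl k N).subtype)) (by
      intro x
      have h1 : Dle N x.1 := mem_Pl.1 x.2
      have h4 : Dle a P := le_of_eq ha
      exact mem_Pl.2 ((h1.mul h4 (by omega)).neg)))
  have hkerM : LinearMap.ker M' ≤ LinearMap.range K := by
    intro x hx
    rw [LinearMap.mem_ker] at hx
    have h1 : x.1.1 * P + x.2.1 * Q = 0 := by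
      rw [← hM', hx]; rfl
    have h2 : Q ∣ x.1.1 * P := by
      have : x.1.1 * P = -x.2.1 * Q := by linear_combination h1
      rw [this]; exact Dvd.intro_left _ rfl
    have h3 : Q ∣ x.1.1 := (hrel.symm).dvd_of_dvd_mul_right h2
    obtain ⟨H, hH⟩ := h3
    have h4 : x.2.1 = - (H * P) := by
      have e1 : Q * (H * P + x.2.1) = 0 := by
        rw [hH] at h1
        linear_combination h1
      rcases mul_eq_zero.1 e1 with h | h
      · exact absurd h hQ
      · linear_combination h
    have h5 : Dle N H := by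
      by_cases hH0 : H = 0
      · rw [hH0]; exact Dle.zero
      · have h6 : Dle (b + N) x.1.1 := mem_Pl.1 x.1.2
        rw [hH] at h6
        unfold Dle at h6 ⊢
        rw [totalDegree_mul_eq hQ hH0] at h6
        omega
    refine ⟨⟨H, mem_Pl.2 h5⟩, ?_⟩
    apply Prod.ext
    · apply Subtype.ext
      show H * Q = x.1.1
      rw [hH, mul_comm]
    · apply Subtype.ext
      show -(H * P) = x.2.1
      rw [h4]
  have d1 : Module.finrank k (LinearMap.ker M') ≤ Module.finrank k (Pl k N) :=
    le_trans (Submodule.finrank_mono hkerM) (LinearMap.finrank_range_le K)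
  have d2 := LinearMap.finrank_range_add_finrank_ker M'
  have d3 : Module.finrank k (LinearMap.range M') ≤ Module.finrank k (LinearMap.ker L) := by
    apply Submodule.finrank_mono
    rintro _ ⟨x, rfl⟩
    rw [LinearMap.mem_ker]
    exact hzero _ _ _ (hM' x)
  have d4 := LinearMap.finrank_range_add_finrank_ker L
  rw [LinearMap.range_eq_top.2 hL, finrank_top, Module.finrank_fintype_fun_eq_card] at d4
  have d5 : Module.finrank k V = Module.finrank k (Pl k (b + N)) + Module.finrank k (Pl k (a + N)) :=
    Module.finrank_prod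
  have e1 := finrank_Pl (k := k) N
  have e2 := finrank_Pl (k := k) (b + N)
  have e3 := finrank_Pl (k := k) (a + N)
  have e4 := finrank_Pl (k := k) (a + b + N)
  have key : (b + N + 1) * (b + N + 2) + (a + N + 1) * (a + N + 2) + 2 * Fintype.card ι ≤
     (N + 1) * (N + 2) + (a + b + N + 1) * (a + b + N + 2) := by
    rw [← e1, ← e2, ← e3, ← e4]
    omega
  nlinarith

end Run7.h256
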