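import Mathlib
import Pool.Agent.Run7.h256.Ord

set_option autoImplicit false

namespace Run7.h256

open MvPolynomial

/-- real polynomials in two variables -/
abbrev RP := MvPolynomial (Fin 2) ℝ

/-- solution, defined on the whole line, of the planar system with right-hand side `P`, `Q` -/
def IsSol (P Q : RP) (γ : ℝ → Fin 2 → ℝ) : Prop :=
  ∀ t : ℝ, HasDerivAt (fun τ => γ τ 0) (eval (γ t) P) t ∧ HasDerivAt (fun τ => γ τ 1) (eval (γ t) Q) t

/-- the derivative along the vector field -/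
noncomputable def XF (P Q F : RP) : RP := P * pderiv 0 F + Q * pderiv 1 F

lemma IsSol.chain {P Q : RP} {γ : ℝ → Fin 2 → ℝ} (h : IsSol P Q γ) (F : RP) (t : ℝ) :
    HasDerivAt (fun τ => eval (γ τ) F) (eval (γ t) (XF P Q F)) t := by
  induction F using MvPolynomial.induction_on with
  | C a =>
    simp only [XF, eval_C, pderiv_C, mul_zero, add_zero, map_zero]
    exact hasDerivAt_const t a
  | add p q hp hq =>
    have e : (fun τ => eval (γ τ) (p + q)) = (fun τ => eval (γ τ) p) + (fun τ => eval (γ τ) q) := by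
      ext τ; simp
    rw [e]
    refine (hp.add hq).congr_deriv ?_
    simp only [XF, map_add, map_mul]
    ring
  | mul_X p i hp =>
    have hi : HasDerivAt (fun τ => γ τ i) (if i = 0 then eval (γ t) P else eval (γ t) Q) t := by
      fin_cases i
      · simpa using (h t).1
      · simpa using (h t).2
    have e : (fun τ => eval (γ τ) (p * X i)) = (fun τ => eval (γ τ) p) * (fun τ => γ τ i) := by
      ext τ; simp
    rw [e]
    refine (hp.mul hi).congr_deriv ?_
    fin_cases i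
    · have h1 : pderiv 0 (X 0 : RP) = 1 := pderiv_X_self 0
      have h2 : pderiv 1 (X 0 : RP) = 0 := pderiv_X_of_ne (by decide)
      simp [XF, h1, h2, Derivation.leibniz]
      ring
    · have h1 : pderiv 1 (X 1 : RP) = 1 := pderiv_X_self 1
      have h2 : pderiv 0 (X 1 : RP) = 0 := pderiv_X_of_ne (by decide)
      simp [XF, h1, h2, Derivation.leibniz]
      ring

/-- a strict Lyapunov function excludes periodic solutions -/
lemma lyap {P Q : RP} {γ : ℝ → Fin 2 → ℝ} (h : IsSol P Q γ) {T : ℝ} (hT : 0 < T)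
    (hper : ∀ t, γ (t + T) = γ t) (F : RP) (h0 : eval 0 (XF P Q F) = 0)
    (hpos : ∀ t, γ t ≠ 0 → 0 < eval (γ t) (XF P Q F)) : ∀ t, γ t = 0 := by
  set f : ℝ → ℝ := fun t => eval (γ t) F with hf
  have hd : ∀ t, HasDerivAt f (eval (γ t) (XF P Q F)) t := fun t => h.chain F t
  have hnn : ∀ t, 0 ≤ eval (γ t) (XF P Q F) := by
    intro t
    by_cases ht : γ t = 0
    · rw [ht, h0]
    · exact (hpos t ht).le
  have hmono : Monotone f := monotone_of_hasDerivAt_nonneg hd hnn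
  have hfper : ∀ t, f (t + T) = f t := by intro t; simp only [hf, hper]
  intro t
  by_contra ht
  have hp := hpos t ht
  -- f is constant on [t, t + T]
  have hconst : ∀ s ∈ Set.Icc t (t + T), f s = f t := by
    intro s hs
    apply le_antisymm
    · rw [← hfper t]; exact hmono hs.2
    · exact hmono hs.1
  have hder : HasDerivWithinAt f 0 (Set.Icc t (t + T)) t := by
    have h1 : HasDerivWithinAt (fun _ : ℝ => f t) 0 (Set.Icc t (t + T)) t :=
      hasDerivWithinAt_const t _ (f t)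
    exact h1.congr hconst rfl
  have huniq : UniqueDiffWithinAt ℝ (Set.Icc t (t + T)) t :=
    uniqueDiffOn_Icc (by linarith) t ⟨le_rfl, by linarith⟩
  have h2 := (hd t).hasDerivWithinAt (s := Set.Icc t (t + T))
  have h3 := huniq.eq_deriv _ h2 hder
  rw [h3] at hp
  exact lt_irrefl _ hp

/-- size of a polynomial of order `n` -/
lemma Og_bound {n : ℕ} {F : RP} (hF : Og n F) : ∃ K : ℝ, 0 ≤ K ∧ ∀ v : Fin 2 → ℝ, ‖v‖ ≤ 1 →
    |eval v F| ≤ K * ‖v‖ ^ n := by
  refine ⟨∑ d ∈ F.support, |coeff d F|, Finset.sum_nonneg (fun _ _ => abs_nonneg _), ?_⟩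
  intro v hv
  rw [eval_eq', Finset.sum_mul]
  refine le_trans (Finset.abs_sum_le_sum_abs _ _) (Finset.sum_le_sum ?_)
  intro d hd
  rw [abs_mul, Fin.prod_univ_two, abs_mul, abs_pow, abs_pow]
  apply mul_le_mul_of_nonneg_left _ (abs_nonneg _)
  have h0 : |v 0| ≤ ‖v‖ := norm_le_pi_norm v 0
  have h1 : |v 1| ≤ ‖v‖ := norm_le_pi_norm v 1
  have hn : n ≤ d 0 + d 1 := by
    by_contra hcon
    push Not at hcon
    rw [mem_support_iff] at hd
    exact hd (Og_iff.1 hF d hcon)
  calc |v 0| ^ d 0 * |v 1| ^ d 1 ≤ ‖v‖ ^ d 0 * ‖v‖ ^ d 1 := by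
        apply mul_le_mul (pow_le_pow_left₀ (abs_nonneg _) h0 _) (pow_le_pow_left₀ (abs_nonneg _) h1 _)
          (pow_nonneg (abs_nonneg _) _) (pow_nonneg (norm_nonneg _) _)
    _ = ‖v‖ ^ (d 0 + d 1) := by rw [pow_add]
    _ ≤ ‖v‖ ^ n := pow_le_pow_of_le_one (norm_nonneg _) hv hn

/-- positivity near the origin -/
lemma pos_near {n : ℕ} {G H : RP} {δ : ℝ} (hδ : 0 < δ) (hH : ∀ v : Fin 2 → ℝ, δ * ‖v‖ ^ n ≤ eval v H)
    (hG : Og (n + 1) (G - H)) : ∃ r : ℝ, 0 < r ∧ ∀ v : Fin 2 → ℝ, v ≠ 0 → ‖v‖ < r → 0 < eval v G := by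
  obtain ⟨K, hK0, hK⟩ := Og_bound hG
  refine ⟨min 1 (δ / (K + 1)), lt_min one_pos (by positivity), ?_⟩
  intro v hv0 hvr
  have h1 : ‖v‖ < 1 := lt_of_lt_of_le hvr (min_le_left _ _)
  have h2 : ‖v‖ < δ / (K + 1) := lt_of_lt_of_le hvr (min_le_right _ _)
  have h3 := hK v h1.le
  have h4 := hH v
  have hv : 0 < ‖v‖ := norm_pos_iff.2 hv0
  rw [map_sub, pow_succ] at h3
  have h5 := (abs_le.1 h3).1
  have h6 : K * ‖v‖ < δ := by
    rw [lt_div_iff₀ (by positivity)] at h2
    nlinarith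
  have h7 : 0 < ‖v‖ ^ n := pow_pos hv n
  nlinarith

end Run7.h256
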