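import Mathlib
import Pool.Agent.Run7.h256.CI
import Pool.Agent.Run7.h256.Dyn
import Pool.Agent.Run7.h256.Loc

set_option autoImplicit false

namespace Run7.h256

open MvPolynomial

lemma homog_of {n : ℕ} {F : RP} (h1 : Og n F) (h2 : Dle n F) : F.IsHomogeneous n := by
  rw [IsHomogeneous, IsWeightedHomogeneous]
  intro d hd
  have e : Finsupp.weight 1 d = d 0 + d 1 := by
    rw [show (1 : Fin 2 → ℕ) = fun _ => 1 from rfl, ← Finsupp.degree_eq_weight_one,
      Finsupp.degree_eq_sum, Fin.sum_univ_two]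
  rw [e]
  apply le_antisymm
  · by_contra hcon
    push Not at hcon
    apply hd
    apply coeff_eq_zero_of_totalDegree_lt
    have := fs_sum d
    rw [Finsupp.sum] at this
    rw [this]
    exact lt_of_le_of_lt h2 hcon
  · by_contra hcon
    push Not at hcon
    exact hd (Og_iff.1 h1 d hcon)

/-- linear forms -/
noncomputable def p1 (m11 m12 : ℝ) : RP := C m11 * X 0 + C m12 * X 1
noncomputable def q1 (m11 m21 : ℝ) : RP := C m21 * X 0 - C m11 * X 1

/-- the invariant quadratic form -/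
noncomputable def Dq (m11 m12 m21 : ℝ) : RP :=
  C m21 * X 0 * X 0 - 2 * C m11 * X 0 * X 1 - C m12 * X 1 * X 1

lemma p00 : pderiv 0 (X 0 : RP) = 1 := pderiv_X_self 0
lemma p11 : pderiv 1 (X 1 : RP) = 1 := pderiv_X_self 1
lemma p01 : pderiv 0 (X 1 : RP) = 0 := pderiv_X_of_ne (by decide)
lemma p10 : pderiv 1 (X 0 : RP) = 0 := pderiv_X_of_ne (by decide)

lemma pd2 (i : Fin 2) : pderiv i (2 : RP) = 0 := by
  rw [show (2 : RP) = C 2 from (map_ofNat C 2).symm, pderiv_C]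

lemma homog_p1 (m11 m12 : ℝ) : (p1 m11 m12).IsHomogeneous 1 :=
  (isHomogeneous_C_mul_X _ _).add (isHomogeneous_C_mul_X _ _)

lemma homog_q1 (m11 m21 : ℝ) : (q1 m11 m21).IsHomogeneous 1 :=
  (isHomogeneous_C_mul_X _ _).sub (isHomogeneous_C_mul_X _ _)

lemma Dq_eq (m11 m12 m21 : ℝ) : Dq m11 m12 m21 = X 0 * q1 m11 m21 - X 1 * p1 m11 m12 := by
  unfold Dq q1 p1; ring

lemma homog_Dq (m11 m12 m21 : ℝ) : (Dq m11 m12 m21).IsHomogeneous 2 := by
  rw [Dq_eq]
  exact ((isHomogeneous_X ℝ 0).mul (homog_q1 _ _)).sub ((isHomogeneous_X ℝ 1).mul (homog_p1 _ _))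

lemma T_Dq (m11 m12 m21 : ℝ) : XF (p1 m11 m12) (q1 m11 m21) (Dq m11 m12 m21) = 0 := by
  unfold XF p1 q1 Dq
  simp only [map_sub, Derivation.leibniz, smul_eq_mul, pderiv_C, p00, p01, p10, p11, pd2]
  ring

lemma XF_mul (P Q F G : RP) : XF P Q (F * G) = F * XF P Q G + G * XF P Q F := by
  unfold XF; simp only [Derivation.leibniz, smul_eq_mul]; ring

lemma XF_add (P Q F G : RP) : XF P Q (F + G) = XF P Q F + XF P Q G := by
  unfold XF; simp only [map_add]; ring

lemma XF_C (P Q : RP) (c : ℝ) : XF P Q (C c) = 0 := by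
  unfold XF; simp only [pderiv_C]; ring

lemma XF_Cmul (P Q F : RP) (c : ℝ) : XF P Q (C c * F) = C c * XF P Q F := by
  rw [XF_mul, XF_C]; ring

lemma Dq_ne {m11 m12 m21 : ℝ} (hJ : 0 < -m11 ^ 2 - m12 * m21) : Dq m11 m12 m21 ≠ 0 := by
  intro h0
  have h1 := congrArg (eval ![1, 0]) h0
  simp [Dq] at h1
  rw [h1] at hJ
  nlinarith [sq_nonneg m11]

lemma m21_ne {m11 m12 m21 : ℝ} (hJ : 0 < -m11 ^ 2 - m12 * m21) : m21 ≠ 0 := by
  rintro rfl
  nlinarith [sq_nonneg m11]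

lemma relPrime_pq {m11 m12 m21 : ℝ} (hJ : -m11 ^ 2 - m12 * m21 ≠ 0) :
    IsRelPrime (p1 m11 m12) (q1 m11 m21) := by
  have e : (C (-m11 ^ 2 - m12 * m21)⁻¹ : RP) * (-C m11 * C m11 - C m12 * C m21) = 1 := by
    rw [← C_mul, ← C_neg, ← C_mul, ← C_sub, ← C_mul, ← C_1]
    congr 1
    rw [show -m11 * m11 - m12 * m21 = -m11 ^ 2 - m12 * m21 by ring]
    exact inv_mul_cancel₀ hJ
  intro d hd1 hd2
  apply relPrime_X01 (k := ℝ)
  · obtain ⟨c1, hc1⟩ := hd1
    obtain ⟨c2, hc2⟩ := hd2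
    refine ⟨C (-m11 ^ 2 - m12 * m21)⁻¹ * (-C m11 * c1 - C m12 * c2), ?_⟩
    unfold p1 at hc1
    unfold q1 at hc2
    linear_combination (-(X 0)) * e + C (-m11 ^ 2 - m12 * m21)⁻¹ * (-C m11 * hc1 - C m12 * hc2)
  · obtain ⟨c1, hc1⟩ := hd1
    obtain ⟨c2, hc2⟩ := hd2
    refine ⟨C (-m11 ^ 2 - m12 * m21)⁻¹ * (C m11 * c2 - C m21 * c1), ?_⟩
    unfold p1 at hc1
    unfold q1 at hc2
    linear_combination (-(X 1)) * e + C (-m11 ^ 2 - m12 * m21)⁻¹ * (C m11 * hc2 - C m21 * hc1)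

/-- the kernel of the linear field on homogeneous polynomials -/
lemma ker_T {m11 m12 m21 : ℝ} (hJ : 0 < -m11 ^ 2 - m12 * m21) (n : ℕ) : ∀ G : RP, G.IsHomogeneous n →
    XF (p1 m11 m12) (q1 m11 m21) G = 0 → (∃ c : ℝ, G = C c * Dq m11 m12 m21 ^ (n / 2)) ∧
      (n % 2 = 1 → G = 0) := by
  induction n using Nat.strong_induction_on with
  | _ n ih =>
    intro G hG hT
    by_cases hG0 : G = 0
    · rw [hG0]; exact ⟨⟨0, by simp⟩, fun _ => rfl⟩
    rcases Nat.eq_zero_or_pos n with hn | hn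
    · subst hn
      refine ⟨⟨coeff 0 G, ?_⟩, by omega⟩
      have := (totalDegree_eq_zero_iff_eq_C (p := G)).1 (Nat.le_zero.1 hG.totalDegree_le)
      simpa using this
    have hEuler : X 0 * pderiv 0 G + X 1 * pderiv 1 G = (n : RP) * G := by
      have := hG.sum_X_mul_pderiv
      rw [Fin.sum_univ_two, nsmul_eq_mul] at this
      exact this
    unfold XF at hT
    obtain ⟨κ, hk1, hk2⟩ := split_prop' (relPrime_pq (ne_of_gt hJ)) (u := - pderiv 1 G)
      (v := pderiv 0 G) (by linear_combination hT)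
    have h3 : κ * Dq m11 m12 m21 = (n : RP) * G := by
      rw [← hEuler, Dq_eq]
      linear_combination (-(X 0)) * hk2 + X 1 * hk1
    have hn0 : (n : RP) ≠ 0 := by exact_mod_cast (Nat.pos_iff_ne_zero.1 hn)
    have hκ0 : κ ≠ 0 := by
      rintro rfl
      rw [zero_mul] at h3
      rcases mul_eq_zero.1 h3.symm with h4 | h4
      · exact hn0 h4
      · exact hG0 h4
    have hnG : ((n : RP) * G).IsHomogeneous n := by
      have : ((n : RP)) = C (n : ℝ) := (map_natCast C n).symm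
      rw [this]; exact hG.C_mul _
    have hdeg : κ.totalDegree + 2 = n := by
      have e1 := totalDegree_mul_eq hκ0 (Dq_ne hJ)
      rw [h3, (homog_Dq m11 m12 m21).totalDegree (Dq_ne hJ),
        hnG.totalDegree (mul_ne_zero hn0 hG0)] at e1
      exact e1.symm
    obtain ⟨m, rfl⟩ : ∃ m, n = m + 2 := ⟨κ.totalDegree, hdeg.symm⟩
    have hκh : κ.IsHomogeneous m := by
      apply homog_of
      · apply Og_of_mul_homog (homog_Dq m11 m12 m21) (Dq_ne hJ)
        rw [mul_comm, h3]; exact Og_of_homog hnG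
      · show κ.totalDegree ≤ m
        omega
    have hTκ : XF (p1 m11 m12) (q1 m11 m21) κ = 0 := by
      have h5 : XF (p1 m11 m12) (q1 m11 m21) (κ * Dq m11 m12 m21) = 0 := by
        rw [h3]
        have : (((m + 2 : ℕ)) : RP) = C ((m + 2 : ℕ) : ℝ) := (map_natCast C (m + 2)).symm
        rw [this, XF_Cmul]
        have : XF (p1 m11 m12) (q1 m11 m21) G = 0 := hT
        rw [this, mul_zero]
      rw [XF_mul, T_Dq, mul_zero, zero_add] at h5
      rcases mul_eq_zero.1 h5 with h6 | h6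
      · exact absurd h6 (Dq_ne hJ)
      · exact h6
    obtain ⟨⟨c, hc⟩, hodd⟩ := ih m (by omega) κ hκh hTκ
    refine ⟨⟨c / ((m + 2 : ℕ) : ℝ), ?_⟩, ?_⟩
    · apply mul_left_cancel₀ hn0
      rw [← h3, hc]
      have e1 : (m + 2) / 2 = m / 2 + 1 := by omega
      have e2 : (((m + 2 : ℕ)) : RP) = C ((m + 2 : ℕ) : ℝ) := (map_natCast C (m + 2)).symm
      rw [e1, e2, ← mul_assoc, ← C_mul, mul_div_cancel₀ _ (by positivity), pow_succ]
      ring
    · intro hm
      have := hodd (by omega)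
      exact absurd this hκ0

end Run7.h256
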