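import Mathlib
import Pool.Agent.Run7.h256.Lin

set_option autoImplicit false

namespace Run7.h256

open MvPolynomial

lemma norm_sq_le (v : Fin 2 → ℝ) : ‖v‖ ^ 2 ≤ v 0 ^ 2 + v 1 ^ 2 := by
  have h : ‖v‖ ≤ Real.sqrt (v 0 ^ 2 + v 1 ^ 2) := by
    rw [pi_norm_le_iff_of_nonneg (Real.sqrt_nonneg _)]
    intro i
    apply Real.le_sqrt_of_sq_le
    rw [Real.norm_eq_abs, sq_abs]
    fin_cases i
    · simp; positivity
    · simp; positivity
  calc ‖v‖ ^ 2 ≤ (Real.sqrt (v 0 ^ 2 + v 1 ^ 2)) ^ 2 := pow_le_pow_left₀ (norm_nonneg _) h 2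
    _ = v 0 ^ 2 + v 1 ^ 2 := Real.sq_sqrt (by positivity)

/-- positive definite invariant form -/
noncomputable def Dl (m11 m12 m21 : ℝ) : RP := C m21 * Dq m11 m12 m21

lemma eval_Dl (m11 m12 m21 : ℝ) (v : Fin 2 → ℝ) : eval v (Dl m11 m12 m21) =
    (m21 * v 0 - m11 * v 1) ^ 2 + (-m11 ^ 2 - m12 * m21) * v 1 ^ 2 := by
  have e2 : eval v (2 : RP) = 2 := by
    rw [show (2 : RP) = C 2 from (map_ofNat C 2).symm, eval_C]
  simp only [Dl, Dq, map_sub, map_mul, eval_C, eval_X, e2]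
  ring

lemma T_Dl (m11 m12 m21 : ℝ) : XF (p1 m11 m12) (q1 m11 m21) (Dl m11 m12 m21) = 0 := by
  unfold Dl; rw [XF_Cmul, T_Dq, mul_zero]

lemma homog_Dl (m11 m12 m21 : ℝ) : (Dl m11 m12 m21).IsHomogeneous 2 := (homog_Dq _ _ _).C_mul _

lemma Dl_lower {m11 m12 m21 : ℝ} (hJ : 0 < -m11 ^ 2 - m12 * m21) : ∃ δ : ℝ, 0 < δ ∧
    ∀ v : Fin 2 → ℝ, δ * ‖v‖ ^ 2 ≤ eval v (Dl m11 m12 m21) := by
  have h21 := m21_ne hJ
  have h21' : 0 < m21 ^ 2 := by positivity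
  set J := -m11 ^ 2 - m12 * m21 with hJdef
  set K := 1 / J + 2 / m21 ^ 2 * (1 + m11 ^ 2 / J) with hK
  have hKpos : 0 < K := by positivity
  refine ⟨1 / K, by positivity, ?_⟩
  intro v
  rw [eval_Dl]
  have h1 := norm_sq_le v
  rw [div_mul_eq_mul_div, one_mul, div_le_iff₀ hKpos]
  refine le_trans h1 ?_
  set a := m21 * v 0 - m11 * v 1 with ha
  have h2 : m21 ^ 2 * v 0 ^ 2 ≤ 2 * (a ^ 2 + m11 ^ 2 * v 1 ^ 2) := by
    have : m21 * v 0 = a + m11 * v 1 := by rw [ha]; ring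
    have h3 : m21 ^ 2 * v 0 ^ 2 = (a + m11 * v 1) ^ 2 := by rw [← this]; ring
    rw [h3]
    nlinarith [sq_nonneg (a - m11 * v 1)]
  have h3 : v 0 ^ 2 ≤ 2 / m21 ^ 2 * (a ^ 2 + m11 ^ 2 * v 1 ^ 2) := by
    rw [div_mul_eq_mul_div, le_div_iff₀ h21']
    linarith
  have h4 : (a ^ 2 + J * v 1 ^ 2) * K = v 1 ^ 2 + 2 / m21 ^ 2 * (a ^ 2 + m11 ^ 2 * v 1 ^ 2) +
      (a ^ 2 / J + 2 / m21 ^ 2 * (m11 ^ 2 / J * a ^ 2 + J * v 1 ^ 2)) := by
    rw [hK]
    have hJ' : J ≠ 0 := ne_of_gt hJ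
    field_simp
    ring
  rw [h4]
  have h5 : 0 ≤ a ^ 2 / J + 2 / m21 ^ 2 * (m11 ^ 2 / J * a ^ 2 + J * v 1 ^ 2) := by positivity
  linarith

lemma Dl_pos {m11 m12 m21 : ℝ} (hJ : 0 < -m11 ^ 2 - m12 * m21) {v : Fin 2 → ℝ} (hv : v ≠ 0) :
    0 < eval v (Dl m11 m12 m21) := by
  obtain ⟨δ, hδ, h⟩ := Dl_lower hJ
  exact lt_of_lt_of_le (mul_pos hδ (pow_pos (norm_pos_iff.2 hv) 2)) (h v)

/-- the linear centre -/
lemma lin_sol {m11 m12 m21 : ℝ} (hJ : 0 < -m11 ^ 2 - m12 * m21) : ∃ γ : ℝ → Fin 2 → ℝ, ∃ T : ℝ,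
    IsSol (p1 m11 m12) (q1 m11 m21) γ ∧ 0 < T ∧ (∀ t, γ (t + T) = γ t) ∧ γ 0 ≠ 0 := by
  set ω := Real.sqrt (-m11 ^ 2 - m12 * m21) with hω
  have hωpos : 0 < ω := Real.sqrt_pos.2 hJ
  have hω2 : ω * ω = -m11 ^ 2 - m12 * m21 := Real.mul_self_sqrt hJ.le
  refine ⟨fun t => ![Real.cos (ω * t) + m11 / ω * Real.sin (ω * t), m21 / ω * Real.sin (ω * t)],
    2 * Real.pi / ω, ?_, by positivity, ?_, ?_⟩
  · intro t
    have hl : HasDerivAt (fun τ : ℝ => ω * τ) ω t := by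
      simpa using (hasDerivAt_id t).const_mul ω
    have hc := (Real.hasDerivAt_cos (ω * t)).comp t hl
    have hs := (Real.hasDerivAt_sin (ω * t)).comp t hl
    constructor
    · have h1 := hc.add (hs.const_mul (m11 / ω))
      have e : (fun τ => (![Real.cos (ω * τ) + m11 / ω * Real.sin (ω * τ),
          m21 / ω * Real.sin (ω * τ)] : Fin 2 → ℝ) 0) =
          (Real.cos ∘ fun τ => ω * τ) + fun τ => m11 / ω * (Real.sin ∘ fun τ => ω * τ) τ := by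
        ext τ; simp
      rw [e]
      refine h1.congr_deriv ?_
      simp only [p1, map_add, map_mul, eval_C, eval_X, Matrix.cons_val_zero, Matrix.cons_val_one]
      field_simp
      linear_combination (-Real.sin (ω * t)) * hω2
    · have h1 := hs.const_mul (m21 / ω)
      have e : (fun τ => (![Real.cos (ω * τ) + m11 / ω * Real.sin (ω * τ),
          m21 / ω * Real.sin (ω * τ)] : Fin 2 → ℝ) 1) =
          fun τ => m21 / ω * (Real.sin ∘ fun τ => ω * τ) τ := by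
        ext τ; simp
      rw [e]
      refine h1.congr_deriv ?_
      simp only [q1, map_sub, map_mul, eval_C, eval_X, Matrix.cons_val_zero, Matrix.cons_val_one]
      field_simp
      ring
  · intro t
    have e : ω * (t + 2 * Real.pi / ω) = ω * t + 2 * Real.pi := by field_simp
    simp only [e, Real.cos_add_two_pi, Real.sin_add_two_pi]
  · intro h0
    have := congrFun h0 0
    simp at this

/-- the invariant power is not in the image -/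
lemma not_range {m11 m12 m21 : ℝ} (hJ : 0 < -m11 ^ 2 - m12 * m21) {φ : RP} {c : ℝ} {m : ℕ}
    (h : XF (p1 m11 m12) (q1 m11 m21) φ = C c * Dq m11 m12 m21 ^ m) : c = 0 := by
  by_contra hc
  obtain ⟨γ, T, hs, hT, hper, hne⟩ := lin_sol hJ
  have h1 : XF (p1 m11 m12) (q1 m11 m21) (C (m21 ^ m / c) * φ) = Dl m11 m12 m21 ^ m := by
    rw [XF_Cmul, h, Dl, mul_pow, ← mul_assoc, ← C_mul, div_mul_cancel₀ _ hc, C_pow]
  have h2 := lyap hs hT hper (C (m21 ^ m / c) * φ) (by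
      simp [XF, p1, q1]) (by
      intro t ht
      rw [h1, map_pow]
      exact pow_pos (Dl_pos hJ ht) m)
  exact hne (h2 0)

end Run7.h256
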