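import Mathlib
import Pool.Agent.Run7.h256.Lin2

set_option autoImplicit false

namespace Run7.h256

open MvPolynomial

/-- derivative along the linear field as a linear map -/
noncomputable def TX (m11 m12 m21 : ℝ) : RP →ₗ[ℝ] RP where
  toFun G := XF (p1 m11 m12) (q1 m11 m21) G
  map_add' F G := XF_add _ _ F G
  map_smul' c G := by
    rw [RingHom.id_apply, smul_eq_C_mul, smul_eq_C_mul, XF_Cmul]

lemma TX_homog {m11 m12 m21 : ℝ} {n : ℕ} {G : RP} (hG : G.IsHomogeneous n) :
    (XF (p1 m11 m12) (q1 m11 m21) G).IsHomogeneous n := by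
  rcases Nat.eq_zero_or_pos n with hn | hn
  · subst hn
    have := (totalDegree_eq_zero_iff_eq_C (p := G)).1 (Nat.le_zero.1 hG.totalDegree_le)
    rw [this, XF_C]
    exact isHomogeneous_zero _ _ _
  · unfold XF
    have e : n = 1 + (n - 1) := by omega
    have h1 := (homog_p1 m11 m12).mul (hG.pderiv (i := 0))
    have h2 := (homog_q1 m11 m21).mul (hG.pderiv (i := 1))
    rw [← e] at h1 h2
    exact h1.add h2

instance finHom (n : ℕ) : FiniteDimensional ℝ (homogeneousSubmodule (Fin 2) ℝ n) := by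
  have h : homogeneousSubmodule (Fin 2) ℝ n ≤ Pl ℝ n := by
    intro F hF
    rw [mem_Pl]
    exact ((mem_homogeneousSubmodule _ _).1 hF).totalDegree_le
  exact Submodule.finiteDimensional_of_le h

/-- solvability of the homological equation -/
theorem solve {m11 m12 m21 : ℝ} (hJ : 0 < -m11 ^ 2 - m12 * m21) {n : ℕ} {g : RP}
    (hg : g.IsHomogeneous n) : ∃ φ : RP, ∃ c : ℝ, φ.IsHomogeneous n ∧
      g = XF (p1 m11 m12) (q1 m11 m21) φ + C c * Dq m11 m12 m21 ^ (n / 2) ∧ (n % 2 = 1 → c = 0) := by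
  set V := homogeneousSubmodule (Fin 2) ℝ n with hV
  let Tn : V →ₗ[ℝ] V := (TX m11 m12 m21).restrict (fun x hx => by
    rw [hV, mem_homogeneousSubmodule] at hx ⊢
    exact TX_homog hx)
  have hTn : ∀ x : V, (Tn x).1 = XF (p1 m11 m12) (q1 m11 m21) x.1 := fun x => rfl
  have hrk := LinearMap.finrank_range_add_finrank_ker Tn
  rcases Nat.mod_two_eq_zero_or_one n with hn | hn
  · -- even
    have hDh : (Dq m11 m12 m21 ^ (n / 2)).IsHomogeneous n := by
      have := (homog_Dq m11 m12 m21).pow (n / 2)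
      rwa [Nat.mul_div_cancel' (Nat.dvd_of_mod_eq_zero hn)] at this
    let v : V := ⟨Dq m11 m12 m21 ^ (n / 2), hDh⟩
    have hv : v ≠ 0 := by
      intro h0
      exact pow_ne_zero _ (Dq_ne hJ) (congrArg Subtype.val h0)
    have hker : Module.finrank ℝ (LinearMap.ker Tn) ≤ 1 := by
      have hvk : v ∈ LinearMap.ker Tn := by
        rw [LinearMap.mem_ker]
        apply Subtype.ext
        rw [hTn]
        have : ∀ m : ℕ, XF (p1 m11 m12) (q1 m11 m21) (Dq m11 m12 m21 ^ m) = 0 := by
          intro m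
          induction m with
          | zero => rw [pow_zero, ← C_1, XF_C]
          | succ m ih => rw [pow_succ, XF_mul, ih, T_Dq]; ring
        exact this _
      apply finrank_le_one (⟨v, hvk⟩ : LinearMap.ker Tn)
      rintro ⟨w, hw⟩
      have hw1 : XF (p1 m11 m12) (q1 m11 m21) w.1 = 0 := by
        rw [← hTn, LinearMap.mem_ker.1 hw]; rfl
      obtain ⟨⟨c, hc⟩, _⟩ := ker_T hJ n w.1 ((mem_homogeneousSubmodule _ _).1 w.2) hw1
      refine ⟨c, ?_⟩
      apply Subtype.ext
      apply Subtype.ext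
      show c • (Dq m11 m12 m21 ^ (n / 2)) = w.1
      rw [hc, smul_eq_C_mul]
    have hdisj : LinearMap.range Tn ⊓ Submodule.span ℝ {v} = ⊥ := by
      rw [eq_bot_iff]
      rintro x ⟨⟨y, hy⟩, hx2⟩
      obtain ⟨c, hc⟩ := Submodule.mem_span_singleton.1 hx2
      have h1 : XF (p1 m11 m12) (q1 m11 m21) y.1 = C c * Dq m11 m12 m21 ^ (n / 2) := by
        rw [← hTn, hy, ← hc, ← smul_eq_C_mul]
        rfl
      have h2 := not_range hJ h1
      rw [Submodule.mem_bot, ← hc, h2, zero_smul]
    have hsum := Submodule.finrank_sup_add_finrank_inf_eq (LinearMap.range Tn) (Submodule.span ℝ {v})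
    rw [hdisj, finrank_bot, add_zero, finrank_span_singleton hv] at hsum
    have htop : LinearMap.range Tn ⊔ Submodule.span ℝ {v} = ⊤ := by
      apply Submodule.eq_top_of_finrank_eq
      have := Submodule.finrank_le (LinearMap.range Tn ⊔ Submodule.span ℝ {v})
      omega
    have hgm : (⟨g, hg⟩ : V) ∈ LinearMap.range Tn ⊔ Submodule.span ℝ {v} := by
      rw [htop]; exact Submodule.mem_top
    obtain ⟨a, ⟨y, hy⟩, b, hb, hab⟩ := Submodule.mem_sup.1 hgm
    obtain ⟨c, hc⟩ := Submodule.mem_span_singleton.1 hb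
    refine ⟨y.1, c, (mem_homogeneousSubmodule _ _).1 y.2, ?_, by omega⟩
    have h1 := congrArg Subtype.val hab
    rw [← hTn, hy, ← smul_eq_C_mul]
    rw [← hc] at h1
    exact h1.symm
  · -- odd
    have hinj : Function.Injective Tn := by
      rw [injective_iff_map_eq_zero]
      intro w hw
      have hw1 : XF (p1 m11 m12) (q1 m11 m21) w.1 = 0 := by
        rw [← hTn, hw]; rfl
      exact Subtype.ext ((ker_T hJ n w.1 ((mem_homogeneousSubmodule _ _).1 w.2) hw1).2 hn)
    obtain ⟨y, hy⟩ := (LinearMap.injective_iff_surjective.1 hinj) ⟨g, hg⟩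
    refine ⟨y.1, 0, (mem_homogeneousSubmodule _ _).1 y.2, ?_, fun _ => rfl⟩
    rw [← hTn, hy]; simp

end Run7.h256
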