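import Mathlib
import Pool.Agent.Run7.h256.KL
import Pool.Agent.Run7.h256.Lin3

set_option autoImplicit false

namespace Run7.h256

open MvPolynomial

/-- there are nonconstant periodic solutions in every ball around the origin -/
def SmallOrbits (P Q : RP) : Prop := ∀ ε : ℝ, 0 < ε → ∃ γ : ℝ → Fin 2 → ℝ, ∃ T : ℝ, IsSol P Q γ ∧ 0 < T ∧
  (∀ t, γ (t + T) = γ t) ∧ (∃ t, γ t ≠ 0) ∧ ∀ t, ‖γ t‖ < ε

lemma no_small {P Q : RP} (hP : eval 0 P = 0) (hQ : eval 0 Q = 0) (F : RP) {r : ℝ} (hr : 0 < r)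
    (hpos : ∀ v : Fin 2 → ℝ, v ≠ 0 → ‖v‖ < r → 0 < eval v (XF P Q F)) : ¬ SmallOrbits P Q := by
  intro h
  obtain ⟨γ, T, hs, hT, hper, ⟨t, ht⟩, hsm⟩ := h r hr
  apply ht
  refine lyap hs hT hper F ?_ (fun t ht => hpos _ ht (hsm t)) t
  simp only [XF, map_add, map_mul, hP, hQ]; ring

/-- the linear part -/
lemma lin_part {P : RP} (hP : eval 0 P = 0) :
    Og 2 (P - (C (eval 0 (pderiv 0 P)) * X 0 + C (eval 0 (pderiv 1 P)) * X 1)) := by
  rw [← hc_one]
  exact (Og_one_iff.2 hP).sub_hc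

lemma XF_split (P Q P' Q' F : RP) :
    XF P Q F = XF P' Q' F + ((P - P') * pderiv 0 F + (Q - Q') * pderiv 1 F) := by
  unfold XF; ring

lemma XF_near {P Q P' Q' F : RP} {n : ℕ} (h1 : Og 2 (P - P')) (h2 : Og 2 (Q - Q')) (hF : Og (n + 1) F) :
    Og (n + 2) (XF P Q F - XF P' Q' F) := by
  rw [XF_split P Q P' Q' F, add_sub_cancel_left]
  exact (h1.mul (hF.pderiv 0) (by omega)).add (h2.mul (hF.pderiv 1) (by omega))

/-- nondegenerate equilibria with negative Jacobian or nonzero divergence have no small orbits -/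
theorem no_small_hyp {P Q : RP} (hP : eval 0 P = 0) (hQ : eval 0 Q = 0)
    (hJD : eval 0 (pderiv 0 P) * eval 0 (pderiv 1 Q) - eval 0 (pderiv 1 P) * eval 0 (pderiv 0 Q) < 0 ∨
      (0 < eval 0 (pderiv 0 P) * eval 0 (pderiv 1 Q) - eval 0 (pderiv 1 P) * eval 0 (pderiv 0 Q) ∧
        eval 0 (pderiv 0 P) + eval 0 (pderiv 1 Q) ≠ 0)) : ¬ SmallOrbits P Q := by
  have hP1 := lin_part hP
  have hQ1 := lin_part hQ
  set m11 := eval 0 (pderiv 0 P)
  set m12 := eval 0 (pderiv 1 P)
  set m21 := eval 0 (pderiv 0 Q)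
  set m22 := eval 0 (pderiv 1 Q)
  set u : RP := C m11 * X 0 + C m12 * X 1 with hu
  set v : RP := C m21 * X 0 + C m22 * X 1 with hv
  have ux : pderiv 0 u = C m11 := by
    simp only [hu, map_add, Derivation.leibniz, smul_eq_mul, pderiv_C, p00, p01]; ring
  have uy : pderiv 1 u = C m12 := by
    simp only [hu, map_add, Derivation.leibniz, smul_eq_mul, pderiv_C, p10, p11]; ring
  have vx : pderiv 0 v = C m21 := by
    simp only [hv, map_add, Derivation.leibniz, smul_eq_mul, pderiv_C, p00, p01]; ring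
  have vy : pderiv 1 v = C m22 := by
    simp only [hv, map_add, Derivation.leibniz, smul_eq_mul, pderiv_C, p10, p11]; ring
  have Ou : Og 1 u := ((Og.X 0).mul_left _).add ((Og.X 1).mul_left _)
  have Ov : Og 1 v := ((Og.X 0).mul_left _).add ((Og.X 1).mul_left _)
  -- general quadratic
  have key : ∀ a b c : ℝ, Og 3 (XF P Q (C a * (X 0 * X 0 + X 1 * X 1) + C b * (X 0 * u + X 1 * v) +
      C c * (u * u + v * v)) - (C (2 * a) * (X 0 * u + X 1 * v) + C b * ((u * u + v * v) +
      C (m11 + m22) * (X 0 * u + X 1 * v) - C (m11 * m22 - m12 * m21) * (X 0 * X 0 + X 1 * X 1)) +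
      C (2 * c) * (C (m11 + m22) * (u * u + v * v) - C (m11 * m22 - m12 * m21) * (X 0 * u + X 1 * v)))) := by
    intro a b c
    have h1 : Og 2 (C a * (X 0 * X 0 + X 1 * X 1) + C b * (X 0 * u + X 1 * v) + C c * (u * u + v * v)) := by
      refine Og.add (Og.add ?_ ?_) ?_
      · exact (((Og.X 0).mul (Og.X 0) (by omega)).add ((Og.X 1).mul (Og.X 1) (by omega))).mul_left _
      · exact (((Og.X 0).mul Ou (by omega)).add ((Og.X 1).mul Ov (by omega))).mul_left _
      · exact ((Ou.mul Ou (by omega)).add (Ov.mul Ov (by omega))).mul_left _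
    have h2 := XF_near (n := 1) hP1 hQ1 h1
    convert h2 using 2
    simp only [XF, map_add, Derivation.leibniz, smul_eq_mul, pderiv_C, p00, p01, p10, p11, ux, uy, vx, vy]
    have c2 : (C 2 : RP) = 2 := map_ofNat C 2
    simp only [C_mul, C_add, C_sub, c2, hu, hv]
    ring
  have evu : ∀ w : Fin 2 → ℝ, eval w u = m11 * w 0 + m12 * w 1 := by
    intro w; simp [hu]
  have evv : ∀ w : Fin 2 → ℝ, eval w v = m21 * w 0 + m22 * w 1 := by
    intro w; simp [hv]
  set J := m11 * m22 - m12 * m21 with hJ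
  set D := m11 + m22 with hD
  rcases hJD with hneg | ⟨hpos, hDne⟩
  · have h1 := key (-(D / 2)) 1 0
    obtain ⟨r, hr, hr'⟩ := pos_near (n := 2) (δ := -J) (by linarith) (H := u * u + v * v - C J * (X 0 * X 0 + X 1 * X 1))
      (G := XF P Q (C (-(D / 2)) * (X 0 * X 0 + X 1 * X 1) + C 1 * (X 0 * u + X 1 * v) +
        C 0 * (u * u + v * v))) (by
        intro w
        simp only [map_sub, map_add, map_mul, eval_C, eval_X, evu, evv]
        have := norm_sq_le w
        nlinarith [sq_nonneg (m11 * w 0 + m12 * w 1), sq_nonneg (m21 * w 0 + m22 * w 1)]) (by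
        convert h1 using 2
        have e1 : (C (2 * -(D / 2)) : RP) = - C D := by rw [← C_neg]; congr 1; ring
        rw [e1]
        simp only [mul_zero, C_0, zero_mul, add_zero, C_1, one_mul]
        ring)
    exact no_small hP hQ _ hr hr'
  · have h1 := key ((2 * J / D + D) / 2) (-1) (1 / D)
    obtain ⟨r, hr, hr'⟩ := pos_near (n := 2) (δ := J) hpos (H := u * u + v * v + C J * (X 0 * X 0 + X 1 * X 1))
      (G := XF P Q (C ((2 * J / D + D) / 2) * (X 0 * X 0 + X 1 * X 1) + C (-1) * (X 0 * u + X 1 * v) +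
        C (1 / D) * (u * u + v * v))) (by
        intro w
        simp only [map_add, map_mul, eval_C, eval_X, evu, evv]
        have := norm_sq_le w
        nlinarith [sq_nonneg (m11 * w 0 + m12 * w 1), sq_nonneg (m21 * w 0 + m22 * w 1)]) (by
        convert h1 using 2
        have e1 : (C (2 * ((2 * J / D + D) / 2)) : RP) = 2 * C (1 / D) * C J + C D := by
          rw [show (2 : RP) = C 2 from (map_ofNat C 2).symm, ← C_mul, ← C_mul, ← C_add]; congr 1; field_simp
        have e2 : (C (2 * (1 / D)) : RP) = 2 * C (1 / D) := by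
          rw [C_mul]; congr 1
        have e3 : (C (1 / D) * C D : RP) = 1 := by
          rw [← C_mul, one_div_mul_cancel hDne, C_1]
        rw [e1, e2]
        simp only [C_neg, C_1]
        linear_combination (-2) * (u * u + v * v) * e3)
    exact no_small hP hQ _ hr hr'

/-- formal first integral up to any order at a centre with zero divergence -/
theorem formal_F {P Q : RP} (hP : eval 0 P = 0) (hQ : eval 0 Q = 0) {m11 m12 m21 : ℝ}
    (e11 : eval 0 (pderiv 0 P) = m11) (e12 : eval 0 (pderiv 1 P) = m12)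
    (e21 : eval 0 (pderiv 0 Q) = m21) (e22 : eval 0 (pderiv 1 Q) = -m11)
    (hJ : 0 < -m11 ^ 2 - m12 * m21) (hs : SmallOrbits P Q) (n : ℕ) :
    ∃ F : RP, Og 3 (F - Dl m11 m12 m21) ∧ Og (n + 3) (XF P Q F) := by
  have hP1 : Og 2 (P - p1 m11 m12) := by
    have := lin_part hP
    rw [e11, e12] at this
    exact this
  have hQ1 : Og 2 (Q - q1 m11 m21) := by
    have := lin_part hQ
    rw [e21, e22] at this
    have e : q1 m11 m21 = C m21 * X 0 + C (-m11) * X 1 := by unfold q1; rw [C_neg]; ring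
    rw [e]; exact this
  induction n with
  | zero =>
    refine ⟨Dl m11 m12 m21, by rw [sub_self]; exact Og.zero, ?_⟩
    have := XF_near (n := 1) hP1 hQ1 (Og_of_homog (homog_Dl m11 m12 m21))
    rw [T_Dl, sub_zero] at this
    exact this
  | succ n ih =>
    obtain ⟨F, hF1, hF2⟩ := ih
    obtain ⟨φ, c, hφ, hg, hodd⟩ := solve hJ (hc_homog (n + 3) (XF P Q F))
    have hφO : Og (n + 3) φ := Og_of_homog hφ
    have h1 := XF_near (n := n + 2) hP1 hQ1 hφO
    have h2 : Og (n + 1 + 3) (XF P Q (F - φ) - C c * Dq m11 m12 m21 ^ ((n + 3) / 2)) := by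
      have e : XF P Q (F - φ) - C c * Dq m11 m12 m21 ^ ((n + 3) / 2) =
          (XF P Q F - hc (n + 3) (XF P Q F)) - (XF P Q φ - XF (p1 m11 m12) (q1 m11 m21) φ) := by
        have e2 : XF P Q (F - φ) = XF P Q F - XF P Q φ := by unfold XF; simp only [map_sub]; ring
        rw [e2]
        linear_combination hg
      rw [e]
      exact hF2.sub_hc.sub (h1.mono (by omega))
    by_cases hc0 : c = 0
    · refine ⟨F - φ, ?_, ?_⟩
      · have e : F - φ - Dl m11 m12 m21 = (F - Dl m11 m12 m21) - φ := by ring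
        rw [e]
        exact hF1.sub (hφO.mono (by omega))
      · rw [hc0, C_0, zero_mul, sub_zero] at h2
        exact h2
    · exfalso
      have hev : (n + 3) % 2 = 0 := by
        rcases Nat.mod_two_eq_zero_or_one (n + 3) with h | h
        · exact h
        · exact absurd (hodd h) hc0
      obtain ⟨m, hm⟩ : ∃ m, n + 3 = 2 * m := ⟨(n + 3) / 2, by omega⟩
      have hm2 : (n + 3) / 2 = m := by omega
      rw [hm2] at h2
      obtain ⟨δ, hδ, hδ'⟩ := Dl_lower hJ
      have h21 := m21_ne hJ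
      have h3 : Og (2 * m + 1) (XF P Q (C (m21 ^ m / c) * (F - φ)) - Dl m11 m12 m21 ^ m) := by
        have e : XF P Q (C (m21 ^ m / c) * (F - φ)) - Dl m11 m12 m21 ^ m =
            C (m21 ^ m / c) * (XF P Q (F - φ) - C c * Dq m11 m12 m21 ^ m) := by
          have e3 : (C (m21 ^ m / c) * C c : RP) = C m21 ^ m := by
            rw [← C_mul, div_mul_cancel₀ _ hc0, C_pow]
          rw [XF_Cmul, Dl, mul_pow]
          linear_combination Dq m11 m12 m21 ^ m * e3
        rw [e]
        have : 2 * m + 1 = n + 1 + 3 := by omega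
        rw [this]
        exact h2.mul_left _
      obtain ⟨r, hr, hr'⟩ := pos_near (n := 2 * m) (δ := δ ^ m) (pow_pos hδ m) (H := Dl m11 m12 m21 ^ m)
        (by
          intro v
          rw [map_pow, pow_mul, ← mul_pow]
          exact pow_le_pow_left₀ (by positivity) (hδ' v) m) h3
      exact no_small hP hQ _ hr hr' hs

/-- consequences of being a centre -/
theorem center_M {P Q : RP} (hP : eval 0 P = 0) (hQ : eval 0 Q = 0)
    (hJ : eval 0 (pderiv 0 P) * eval 0 (pderiv 1 Q) - eval 0 (pderiv 1 P) * eval 0 (pderiv 0 Q) ≠ 0)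
    (hs : SmallOrbits P Q) :
    0 < eval 0 (pderiv 0 P) * eval 0 (pderiv 1 Q) - eval 0 (pderiv 1 P) * eval 0 (pderiv 0 Q) ∧
    eval 0 (pderiv 0 P) + eval 0 (pderiv 1 Q) = 0 ∧
    ∃ M : RP, eval 0 M ≠ 0 ∧ Og 5 (P * pderiv 0 M + Q * pderiv 1 M + M * (pderiv 0 P + pderiv 1 Q)) := by
  have hJpos : 0 < eval 0 (pderiv 0 P) * eval 0 (pderiv 1 Q) -
      eval 0 (pderiv 1 P) * eval 0 (pderiv 0 Q) := by
    by_contra hcon
    exact no_small_hyp hP hQ (Or.inl (lt_of_le_of_ne (not_lt.1 hcon) hJ)) hs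
  have hD : eval 0 (pderiv 0 P) + eval 0 (pderiv 1 Q) = 0 := by
    by_contra hcon
    exact no_small_hyp hP hQ (Or.inr ⟨hJpos, hcon⟩) hs
  refine ⟨hJpos, hD, ?_⟩
  have hloc : Loc0 P Q := ⟨hP, hQ, hJ, hD⟩
  obtain ⟨m11, e11⟩ : ∃ m, eval 0 (pderiv 0 P) = m := ⟨_, rfl⟩
  obtain ⟨m12, e12⟩ : ∃ m, eval 0 (pderiv 1 P) = m := ⟨_, rfl⟩
  obtain ⟨m21, e21⟩ : ∃ m, eval 0 (pderiv 0 Q) = m := ⟨_, rfl⟩
  have e22 : eval 0 (pderiv 1 Q) = -m11 := by linear_combination hD - e11
  rw [e11, e12, e21, e22] at hJpos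
  have hJ' : 0 < -m11 ^ 2 - m12 * m21 := by nlinarith
  obtain ⟨F, hF1, hF2⟩ := formal_F hP hQ e11 e12 e21 e22 hJ' hs 4
  obtain ⟨ρ, hρ1, hρ2⟩ := hloc.koszul 6 (pderiv 0 F) (pderiv 1 F) (by
    have : pderiv 0 F * P + pderiv 1 F * Q = XF P Q F := by unfold XF; ring
    rw [this]; exact hF2)
  refine ⟨ρ, ?_, ?_⟩
  · intro h0
    have o1 : Og 2 (ρ * P) := (Og_one_iff.2 h0).mul (Og_one_iff.2 hP) (by omega)
    have o2 : Og 2 (pderiv 1 F) := by
      have := (hρ2.mono (by norm_num : 2 ≤ 6)).add o1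
      rwa [sub_add_cancel] at this
    have o3 : Og 2 (pderiv 1 (Dl m11 m12 m21)) := by
      have := o2.sub (hF1.pderiv 1)
      rw [map_sub, sub_sub_cancel] at this
      exact this
    have o4 := (o3.pderiv 1).eval (le_refl 1)
    have d1 : pderiv 1 (Dl m11 m12 m21) = C m21 * (C (-2 * m11) * X 0 + C (-2 * m12) * X 1) := by
      unfold Dl Dq
      have c2 : ∀ a : ℝ, (C (-2 * a) : RP) = - 2 * C a := by
        intro a
        rw [C_mul, C_neg]; congr 2
      simp only [map_sub, Derivation.leibniz, smul_eq_mul, pderiv_C, p10, p11, pd2, c2]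
      ring
    have : eval 0 (pderiv 1 (pderiv 1 (Dl m11 m12 m21))) = - 2 * m12 * m21 := by
      rw [d1]
      simp only [map_add, map_mul, Derivation.leibniz, smul_eq_mul, pderiv_C, p10, p11, eval_C, eval_X,
        mul_zero, add_zero, zero_add, mul_one, Pi.zero_apply]
      ring
    rw [this] at o4
    nlinarith [sq_nonneg m11]
  · have e : P * pderiv 0 ρ + Q * pderiv 1 ρ + ρ * (pderiv 0 P + pderiv 1 Q) =
        pderiv 1 (pderiv 0 F + ρ * Q) - pderiv 0 (pderiv 1 F - ρ * P) := by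
      simp only [map_add, map_sub, Derivation.leibniz, smul_eq_mul]
      rw [pd_comm]
      ring
    rw [e]
    exact (hρ1.pderiv 1).sub (hρ2.pderiv 0)

end Run7.h256
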