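import Mathlib
import Pool.Agent.Run7.h256.CI

set_option autoImplicit false

namespace Run7.h256

open MvPolynomial

/-- a nonzero nonunit polynomial over an algebraically closed field has zeros outside any finite set -/
lemma exists_zero_off {k : Type*} [Field k] [IsAlgClosed k] {g : MvPolynomial (Fin 2) k} (hg : Irreducible g)
    (Z : Finset (Fin 2 → k)) : ∃ z, z ∉ Z ∧ eval z g = 0 := by
  classical
  by_contra hcon
  push Not at hcon
  have hprime : Prime g := hg.prime
  have key : ∀ i : Fin 2, ∃ w : Fin 2 → k, g ∣ X i - C (w i) := by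
    intro i
    have h1 : (∏ z ∈ Z, (X i - C (z i)) : MvPolynomial (Fin 2) k) ∈
        vanishingIdeal k (zeroLocus k (Ideal.span {g})) := by
      intro x hx
      rw [zeroLocus_span] at hx
      have hx' : eval x g = 0 := by
        have := hx g (Set.mem_singleton g)
        rwa [aeval_eq_eval] at this
      have hxZ : x ∈ Z := by
        by_contra h
        exact hcon x h hx'
      rw [aeval_eq_eval]
      show eval x _ = 0
      rw [map_prod]
      apply Finset.prod_eq_zero hxZ
      simp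
    rw [vanishingIdeal_zeroLocus_eq_radical] at h1
    obtain ⟨n, hn⟩ := h1
    rw [Ideal.mem_span_singleton] at hn
    have h2 := hprime.dvd_of_dvd_pow hn
    obtain ⟨w, _, hw⟩ := (hprime.dvd_finsetProd_iff _).1 h2
    exact ⟨w, hw⟩
  obtain ⟨w, hw⟩ := key 0
  obtain ⟨v, hv⟩ := key 1
  -- degrees
  obtain ⟨a, ha⟩ := hw
  obtain ⟨b, hb⟩ := hv
  have hl0 : (X 0 - C (w 0) : MvPolynomial (Fin 2) k) ≠ 0 := by
    intro h
    have := congrArg (eval (fun _ => w 0 + 1)) h
    simp at this
  have hl1 : (X 1 - C (v 1) : MvPolynomial (Fin 2) k) ≠ 0 := by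
    intro h
    have := congrArg (eval (fun _ => v 1 + 1)) h
    simp at this
  have hg0 : g ≠ 0 := hg.ne_zero
  have ha0 : a ≠ 0 := by rintro rfl; rw [mul_zero] at ha; exact hl0 ha
  have hb0 : b ≠ 0 := by rintro rfl; rw [mul_zero] at hb; exact hl1 hb
  have d0 : Dle 1 (X 0 - C (w 0) : MvPolynomial (Fin 2) k) := (Dle.X le_rfl 0).sub (Dle.C _)
  have d1 : Dle 1 (X 1 - C (v 1) : MvPolynomial (Fin 2) k) := (Dle.X le_rfl 1).sub (Dle.C _)
  have hgpos : g.totalDegree ≠ 0 := by
    intro h
    rw [totalDegree_eq_zero_iff_eq_C] at h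
    apply hg.not_isUnit
    rw [h]
    apply IsUnit.map
    rw [isUnit_iff_ne_zero]
    intro h0
    rw [h0, C_0] at h
    exact hg0 h
  unfold Dle at d0 d1
  rw [ha, totalDegree_mul_eq hg0 ha0] at d0
  rw [hb, totalDegree_mul_eq hg0 hb0] at d1
  have ha1 : a.totalDegree = 0 := by omega
  have hb1 : b.totalDegree = 0 := by omega
  rw [totalDegree_eq_zero_iff_eq_C] at ha1 hb1
  rw [ha1] at ha ha0
  rw [hb1] at hb hb0
  set a' := coeff 0 a
  set b' := coeff 0 b
  have ha' : a' ≠ 0 := by rintro h; rw [h, C_0] at ha0; exact ha0 rfl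
  have hb' : b' ≠ 0 := by rintro h; rw [h, C_0] at hb0; exact hb0 rfl
  -- evaluate at (w 0, v 1 + 1)
  have e1 := congrArg (eval ![w 0, v 1 + 1]) ha
  have e2 := congrArg (eval ![w 0, v 1 + 1]) hb
  simp at e1 e2
  rcases e1 with h | h
  · rw [h] at e2
    simp at e2
  · exact ha' h

variable {k : Type*} [Field k]

open Classical in
/-- separating polynomials -/
lemma exists_sep (Z : Finset (Fin 2 → k)) (w : Fin 2 → k) :
    ∃ A : MvPolynomial (Fin 2) k, Dle (Z.erase w).card A ∧ eval w A ≠ 0 ∧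
      ∀ z ∈ Z, z ≠ w → eval z A = 0 := by
  have hl : ∀ z : Fin 2 → k, ∃ l : MvPolynomial (Fin 2) k, Dle 1 l ∧ eval z l = 0 ∧
      (z ≠ w → eval w l ≠ 0) := by
    intro z
    by_cases h0 : z 0 = w 0
    · refine ⟨X 1 - C (z 1), (Dle.X le_rfl 1).sub (Dle.C _), by simp, ?_⟩
      intro hz h
      apply hz
      simp at h
      ext i; fin_cases i
      · exact h0
      · simp; linear_combination -h
    · refine ⟨X 0 - C (z 0), (Dle.X le_rfl 0).sub (Dle.C _), by simp, ?_⟩
      intro hz h
      apply h0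
      simp at h
      linear_combination -h
  choose l hl1 hl2 hl3 using hl
  refine ⟨∏ z ∈ Z.erase w, l z, ?_, ?_, ?_⟩
  · unfold Dle
    refine le_trans (totalDegree_finsetProd _ _) ?_
    calc ∑ z ∈ Z.erase w, (l z).totalDegree ≤ ∑ z ∈ Z.erase w, 1 := Finset.sum_le_sum (fun z _ => hl1 z)
      _ = _ := by simp
  · rw [map_prod]
    apply Finset.prod_ne_zero_iff.2
    intro z hz
    exact hl3 z (Finset.ne_of_mem_erase hz)
  · intro z hz hzw
    rw [map_prod]
    exact Finset.prod_eq_zero (Finset.mem_erase.2 ⟨hzw, hz⟩) (hl2 z)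

end Run7.h256
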