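import Mathlib
import Pool.Agent.Run7.h256.CI2

set_option autoImplicit false

namespace Run7.h256

open MvPolynomial

variable {k : Type*} [Field k]

/-- the Jacobian determinant -/
noncomputable def Jac (P Q : MvPolynomial (Fin 2) k) : MvPolynomial (Fin 2) k :=
  pderiv 0 P * pderiv 1 Q - pderiv 1 P * pderiv 0 Q

/-- two plane quartics with exactly 16 common zeros -/
structure CI16 (P Q : MvPolynomial (Fin 2) k) (Z : Finset (Fin 2 → k)) : Prop where
  hP : Dle 4 P
  hQ : Dle 4 Q
  hZ : ∀ z, z ∈ Z ↔ eval z P = 0 ∧ eval z Q = 0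
  card : Z.card = 16

namespace CI16

variable {P Q : MvPolynomial (Fin 2) k} {Z : Finset (Fin 2 → k)}

lemma relPrime [IsAlgClosed k] (h : CI16 P Q Z) : IsRelPrime P Q := by
  classical
  intro d hd1 hd2
  by_contra hu
  by_cases hd0 : d = 0
  · subst hd0
    rw [zero_dvd_iff] at hd1 hd2
    -- infinitely many zeros
    obtain ⟨z, hz, _⟩ := exists_zero_off (k := k) (g := X 0) (by
      exact (X_prime (R := k) (i := (0 : Fin 2))).irreducible) Z
    exact hz ((h.hZ z).2 (by rw [hd1, hd2]; simp))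
  · obtain ⟨g, hg, hgd⟩ := WfDvdMonoid.exists_irreducible_factor hu hd0
    obtain ⟨z, hz, hz0⟩ := exists_zero_off hg Z
    apply hz
    rw [h.hZ]
    constructor
    · obtain ⟨c, hc⟩ := hgd.trans hd1
      rw [hc, map_mul, hz0, zero_mul]
    · obtain ⟨c, hc⟩ := hgd.trans hd2
      rw [hc, map_mul, hz0, zero_mul]

lemma Q_ne_zero [IsAlgClosed k] (h : CI16 P Q Z) : Q ≠ 0 := by
  rintro rfl
  have h1 := h.relPrime
  have h2 : IsUnit P := h1 dvd_rfl (dvd_zero P)
  have h3 : Z.Nonempty := by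
    rw [← Finset.card_pos, h.card]; norm_num
  obtain ⟨z, hz⟩ := h3
  have h4 := ((h.hZ z).1 hz).1
  have h5 := h2.map (eval z)
  rw [h4] at h5
  exact not_isUnit_zero h5

lemma symm (h : CI16 P Q Z) : CI16 Q P Z :=
  ⟨h.hQ, h.hP, fun z => by rw [h.hZ z, and_comm], h.card⟩

lemma P_ne_zero [IsAlgClosed k] (h : CI16 P Q Z) : P ≠ 0 := h.symm.Q_ne_zero

/-- evaluation and a directional derivative -/
noncomputable def Lmap (Z : Finset (Fin 2 → k)) (w v : Fin 2 → k) (d : ℕ) :
    Pl k d →ₗ[k] (Option Z → k) :=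
  LinearMap.pi (fun o => match o with
    | none => (v 0 • ((aeval w : MvPolynomial (Fin 2) k →ₐ[k] k).toLinearMap.comp
          (pderiv 0 : Derivation k (MvPolynomial (Fin 2) k) _).toLinearMap) +
        v 1 • ((aeval w : MvPolynomial (Fin 2) k →ₐ[k] k).toLinearMap.comp
          (pderiv 1 : Derivation k (MvPolynomial (Fin 2) k) _).toLinearMap)).comp (Pl k d).subtype
    | some z => ((aeval z.1 : MvPolynomial (Fin 2) k →ₐ[k] k).toLinearMap).comp (Pl k d).subtype)

lemma Lmap_none (Z : Finset (Fin 2 → k)) (w v : Fin 2 → k) (d : ℕ) (F : Pl k d) :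
    Lmap Z w v d F none = v 0 * eval w (pderiv 0 F.1) + v 1 * eval w (pderiv 1 F.1) := by
  simp [Lmap, aeval_eq_eval]

lemma Lmap_some (Z : Finset (Fin 2 → k)) (w v : Fin 2 → k) (d : ℕ) (F : Pl k d) (z : Z) :
    Lmap Z w v d F (some z) = eval z.1 F.1 := by
  simp [Lmap, aeval_eq_eval]

lemma exists_interp (Z : Finset (Fin 2 → k)) (hZ : Z.card = 16) (c : Z → k) :
    ∃ F : MvPolynomial (Fin 2) k, Dle 15 F ∧ ∀ z : Z, eval z.1 F = c z := by
  classical
  choose A hA1 hA2 hA3 using exists_sep Z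
  refine ⟨∑ w : Z, C (c w / eval w.1 (A w.1)) * A w.1, ?_, ?_⟩
  · unfold Dle
    refine le_trans (totalDegree_finsetSum _ _) ?_
    apply Finset.sup_le
    intro w _
    have h1 : Dle 15 (A w.1) := by
      have := hA1 w.1
      rw [Finset.card_erase_of_mem w.2, hZ] at this
      exact this
    exact (Dle.C (n := 0) (c w / eval w.1 (A w.1))).mul h1 (by omega)
  · intro z
    rw [map_sum, Finset.sum_eq_single z]
    · rw [map_mul, eval_C, div_mul_cancel₀ _ (hA2 z.1)]
    · intro w _ hw
      rw [map_mul, hA3 w.1 z.1 z.2 (fun h => hw (Subtype.ext h.symm)), mul_zero]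
    · intro h; exact absurd (Finset.mem_univ _) h

lemma ev_surj16 (Z : Finset (Fin 2 → k)) (hZ : Z.card = 16) {w : Fin 2 → k} (hw : w ∈ Z)
    {v : Fin 2 → k} (hv : v ≠ 0) {d : ℕ} (hd : 16 ≤ d) : Function.Surjective (Lmap Z w v d) := by
  classical
  intro c
  obtain ⟨F, hF1, hF2⟩ := exists_interp Z hZ (fun z => c (some z))
  obtain ⟨A, hA1, hA2, hA3⟩ := exists_sep Z w
  obtain ⟨i, hi⟩ : ∃ i, v i ≠ 0 := by
    by_contra h
    push Not at h
    exact hv (funext h)
  rw [Finset.card_erase_of_mem hw, hZ] at hA1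
  set B : MvPolynomial (Fin 2) k := A * (X i - C (w i)) with hB
  have hBz : ∀ z ∈ Z, eval z B = 0 := by
    intro z hz
    rw [hB, map_mul]
    by_cases h : z = w
    · subst h; simp
    · rw [hA3 z hz h, zero_mul]
  have hBd : v 0 * eval w (pderiv 0 B) + v 1 * eval w (pderiv 1 B) = v i * eval w A := by
    rw [hB]
    fin_cases i
    · simp [pderiv_X, mul_comm]
    · simp [pderiv_X, mul_comm]
  set e := v 0 * eval w (pderiv 0 F) + v 1 * eval w (pderiv 1 F) with he
  refine ⟨⟨F + C ((c none - e) / (v i * eval w A)) * B, mem_Pl.2 ?_⟩, ?_⟩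
  · have h1 : Dle 16 B := Dle.mul (a := 15) (b := 1) hA1 ((Dle.X le_rfl i).sub (Dle.C _)) (by omega)
    have h2 : Dle 16 (F + C ((c none - e) / (v i * eval w A)) * B) :=
      (hF1.mono (by norm_num)).add ((Dle.C (n := 0) _).mul h1 (by omega))
    exact h2.mono hd
  · ext o
    rcases o with _ | z
    · rw [Lmap_none]
      simp only [map_add, Derivation.leibniz, pderiv_C, smul_zero, add_zero, smul_eq_mul, map_mul, eval_C]
      have : v i * eval w A ≠ 0 := mul_ne_zero hi hA2
      have h3 : v 0 * (eval w (pderiv 0 F) + (c none - e) / (v i * eval w A) * eval w (pderiv 0 B)) +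
          v 1 * (eval w (pderiv 1 F) + (c none - e) / (v i * eval w A) * eval w (pderiv 1 B)) =
          e + (c none - e) / (v i * eval w A) *
            (v 0 * eval w (pderiv 0 B) + v 1 * eval w (pderiv 1 B)) := by rw [he]; ring
      rw [hBd, div_mul_cancel₀ _ this] at h3
      simp at h3 ⊢
      exact h3
    · rw [Lmap_some]
      simp only [map_add, map_mul, hBz z.1 z.2, mul_zero, add_zero]
      exact hF2 z

lemma degs [IsAlgClosed k] (h : CI16 P Q Z) : P.totalDegree = 4 ∧ Q.totalDegree = 4 := by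
  classical
  have hP := h.hP
  have hQ := h.hQ
  unfold Dle at hP hQ
  let L : Pl k (P.totalDegree + Q.totalDegree + 16) →ₗ[k] (Z → k) :=
    LinearMap.pi (fun z => ((aeval z.1 : MvPolynomial (Fin 2) k →ₐ[k] k).toLinearMap).comp
      (Pl k _).subtype)
  have hL : ∀ F z, L F z = eval z.1 F.1 := fun F z => by simp [L, aeval_eq_eval]
  have h1 := ci_count h.relPrime h.Q_ne_zero rfl rfl L (by
    intro c
    obtain ⟨F, hF1, hF2⟩ := exists_interp Z h.card c
    refine ⟨⟨F, mem_Pl.2 (hF1.mono (by omega))⟩, ?_⟩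
    ext z
    rw [hL]; exact hF2 z) (by
    intro F u v hF
    ext z
    rw [hL, hF, map_add, map_mul, map_mul, ((h.hZ z.1).1 z.2).1, ((h.hZ z.1).1 z.2).2]
    simp)
  rw [Fintype.card_coe, h.card] at h1
  constructor
  · by_contra hne
    have : P.totalDegree ≤ 3 := by omega
    nlinarith
  · by_contra hne
    have : Q.totalDegree ≤ 3 := by omega
    nlinarith

lemma jac_ne_zero [IsAlgClosed k] (h : CI16 P Q Z) {w : Fin 2 → k} (hw : w ∈ Z) :
    eval w (Jac P Q) ≠ 0 := by
  classical
  intro hJ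
  -- a kernel vector
  obtain ⟨v, hv, hv1, hv2⟩ : ∃ v : Fin 2 → k, v ≠ 0 ∧
      v 0 * eval w (pderiv 0 P) + v 1 * eval w (pderiv 1 P) = 0 ∧
      v 0 * eval w (pderiv 0 Q) + v 1 * eval w (pderiv 1 Q) = 0 := by
    simp only [Jac, map_sub, map_mul] at hJ
    set a := eval w (pderiv 0 P)
    set b := eval w (pderiv 1 P)
    set c := eval w (pderiv 0 Q)
    set d := eval w (pderiv 1 Q)
    by_cases h1 : a = 0 ∧ b = 0
    · by_cases h2 : c = 0 ∧ d = 0
      · refine ⟨![1, 0], ?_, ?_, ?_⟩
        · intro h; have := congrFun h 0; simp at this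
        · simp [h1.1, h1.2]
        · simp [h2.1, h2.2]
      · refine ⟨![-d, c], ?_, ?_, ?_⟩
        · intro h
          apply h2
          have e0 := congrFun h 0
          have e1 := congrFun h 1
          simp at e0 e1
          exact ⟨e1, e0⟩
        · simp [h1.1, h1.2]
        · simp; ring
    · refine ⟨![-b, a], ?_, ?_, ?_⟩
      · intro h
        apply h1
        have e0 := congrFun h 0
        have e1 := congrFun h 1
        simp at e0 e1
        exact ⟨e1, e0⟩
      · simp; ring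
      · simp; linear_combination hJ
  obtain ⟨hd1, hd2⟩ := h.degs
  have h1 := ci_count h.relPrime h.Q_ne_zero hd1 hd2 (Lmap Z w v (4 + 4 + 8))
    (ev_surj16 Z h.card hw hv (by norm_num)) (by
    intro F u t hF
    ext o
    rcases o with _ | z
    · rw [Lmap_none, hF]
      have p0 := ((h.hZ w).1 hw).1
      have q0 := ((h.hZ w).1 hw).2
      simp only [map_add, Derivation.leibniz, smul_eq_mul, map_mul, p0, q0]
      simp only [mul_zero, zero_mul, add_zero, Pi.zero_apply]
      linear_combination (eval w u) * hv1 + (eval w t) * hv2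
    · rw [Lmap_some, hF, map_add, map_mul, map_mul, ((h.hZ z.1).1 z.2).1, ((h.hZ z.1).1 z.2).2]
      simp)
  rw [Fintype.card_option, Fintype.card_coe, h.card] at h1
  omega

end CI16

end Run7.h256
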