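import Mathlib
import Pool.Agent.Run7.h256.CI3

set_option autoImplicit false

namespace Run7.h256

open MvPolynomial

variable {k : Type*} [Field k]

lemma dec {d : ℕ} {F : MvPolynomial (Fin 2) k} (hF : Dle (d + 1) F) :
    ∃ A B : MvPolynomial (Fin 2) k, ∃ c : k, Dle d A ∧ Dle d B ∧ F = X 0 * A + X 1 * B + C c := by
  rw [F.as_sum]
  apply Finset.sum_induction _ (fun F : MvPolynomial (Fin 2) k => ∃ A B : MvPolynomial (Fin 2) k,
    ∃ c : k, Dle d A ∧ Dle d B ∧ F = X 0 * A + X 1 * B + C c)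
  · rintro a b ⟨A, B, c, h1, h2, h3⟩ ⟨A', B', c', h1', h2', h3'⟩
    refine ⟨A + A', B + B', c + c', h1.add h1', h2.add h2', ?_⟩
    rw [h3, h3', C_add]; ring
  · exact ⟨0, 0, 0, Dle.zero, Dle.zero, by simp⟩
  · intro m hm
    have hdeg : m 0 + m 1 ≤ d + 1 := by
      rw [← fs_sum]
      exact le_trans (le_totalDegree hm) hF
    have hmono : ∀ (n : Fin 2 →₀ ℕ) (a : k), n 0 + n 1 ≤ d → Dle d (monomial n a) := by
      intro n a hn
      unfold Dle
      refine le_trans (totalDegree_monomial_le _ _) ?_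
      rw [← fs_sum] at hn
      exact hn
    by_cases h0 : m 0 = 0
    · by_cases h1 : m 1 = 0
      · refine ⟨0, 0, coeff m F, Dle.zero, Dle.zero, ?_⟩
        have : m = 0 := by ext i; fin_cases i <;> simp [h0, h1]
        rw [this]; simp
      · refine ⟨0, monomial (m - Finsupp.single 1 1) (coeff m F), 0, Dle.zero, hmono _ _ ?_, ?_⟩
        · simp; omega
        · rw [mul_zero, zero_add, X, monomial_mul, one_mul]
          have : Finsupp.single 1 1 + (m - Finsupp.single 1 1) = m := by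
            ext i; fin_cases i
            · simp
            · simp; omega
          rw [this]; simp
    · refine ⟨monomial (m - Finsupp.single 0 1) (coeff m F), 0, 0, hmono _ _ ?_, Dle.zero, ?_⟩
      · simp; omega
      · rw [X, monomial_mul, one_mul]
        have : Finsupp.single 0 1 + (m - Finsupp.single 0 1) = m := by
          ext i; fin_cases i
          · simp; omega
          · simp
        rw [this]; simp

lemma dec_at (d : ℕ) : ∀ F : MvPolynomial (Fin 2) k, Dle (d + 1) F → ∀ w : Fin 2 → k,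
    ∃ A B : MvPolynomial (Fin 2) k, Dle d A ∧ Dle d B ∧
      F - C (eval w F) = (X 0 - C (w 0)) * A + (X 1 - C (w 1)) * B := by
  induction d with
  | zero =>
    intro F hF w
    obtain ⟨A, B, c, hA, hB, h⟩ := dec hF
    unfold Dle at hA hB
    rw [Nat.le_zero, totalDegree_eq_zero_iff_eq_C] at hA hB
    set a := coeff 0 A
    set b := coeff 0 B
    refine ⟨C a, C b, Dle.C _, Dle.C _, ?_⟩
    rw [h, hA, hB]
    simp
    ring
  | succ d ih =>
    intro F hF w
    obtain ⟨A, B, c, hA, hB, h⟩ := dec hF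
    obtain ⟨A', B', hA', hB', h'⟩ := ih (C (w 0) * A + C (w 1) * B + C c - C (eval w F))
      ((((Dle.C (n := 0) _).mul hA (by omega)).add ((Dle.C (n := 0) _).mul hB (by omega))).add
        (Dle.C _) |>.sub (Dle.C _)) w
    refine ⟨A + A', B + B', hA.add (hA'.mono (by omega)), hB.add (hB'.mono (by omega)), ?_⟩
    have e0 : eval w (C (w 0) * A + C (w 1) * B + C c - C (eval w F)) = 0 := by
      rw [h]
      simp
    rw [e0, C_0, sub_zero] at h'
    have h2 : F - C (eval w F) = X 0 * A + X 1 * B + C c - C (eval w F) := by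
      conv_lhs => rw [h]
      rw [← h]
    rw [h2]
    linear_combination h'

namespace CI16

variable {P Q : MvPolynomial (Fin 2) k} {Z : Finset (Fin 2 → k)}

lemma inj3 [IsAlgClosed k] (h : CI16 P Q Z) {u v : MvPolynomial (Fin 2) k} (hu : Dle 3 u)
    (he : u * P + v * Q = 0) : u = 0 ∧ v = 0 := by
  have h1 : Q ∣ u * P := ⟨-v, by linear_combination he⟩
  have h2 : Q ∣ u := (h.relPrime.symm).dvd_of_dvd_mul_right h1
  have hu0 : u = 0 := by
    by_contra h0
    obtain ⟨c, hc⟩ := h2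
    have hc0 : c ≠ 0 := by rintro rfl; rw [mul_zero] at hc; exact h0 hc
    unfold Dle at hu
    rw [hc, totalDegree_mul_eq h.Q_ne_zero hc0, h.degs.2] at hu
    omega
  refine ⟨hu0, ?_⟩
  rw [hu0, zero_mul, zero_add] at he
  rcases mul_eq_zero.1 he with h' | h'
  · exact h'
  · exact absurd h' h.Q_ne_zero

/-- the Bezoutians -/
lemma exists_bez (h : CI16 P Q Z) : ∃ Δ : (Fin 2 → k) → MvPolynomial (Fin 2) k,
    (∀ w, Dle 6 (Δ w)) ∧ (∀ w w', Dle 5 (Δ w - Δ w')) ∧
    (∀ w ∈ Z, eval w (Δ w) = eval w (Jac P Q)) ∧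
    (∀ w ∈ Z, ∀ z ∈ Z, z ≠ w → eval z (Δ w) = 0) := by
  have step : ∀ F : MvPolynomial (Fin 2) k, Dle 4 F → ∃ A B : MvPolynomial (Fin 2) k, Dle 3 A ∧ Dle 3 B ∧
      ∀ w : Fin 2 → k, ∃ A' B' : MvPolynomial (Fin 2) k, Dle 2 A' ∧ Dle 2 B' ∧
      F - C (eval w F) = (X 0 - C (w 0)) * (A + A') + (X 1 - C (w 1)) * (B + B') := by
    intro F hF
    obtain ⟨A, B, c, hA, hB, hc⟩ := dec (d := 3) hF
    refine ⟨A, B, hA, hB, fun w => ?_⟩
    obtain ⟨A', B', hA', hB', h'⟩ := dec_at 2 (C (w 0) * A + C (w 1) * B + C c - C (eval w F))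
      ((((Dle.C (n := 0) _).mul hA (by omega)).add ((Dle.C (n := 0) _).mul hB (by omega))).add
        (Dle.C _) |>.sub (Dle.C _)) w
    refine ⟨A', B', hA', hB', ?_⟩
    have e0 : eval w (C (w 0) * A + C (w 1) * B + C c - C (eval w F)) = 0 := by
      rw [hc]
      simp
    rw [e0, C_0, sub_zero] at h'
    have h2 : F - C (eval w F) = X 0 * A + X 1 * B + C c - C (eval w F) := by
      conv_lhs => rw [hc]
      rw [← hc]
    rw [h2]
    linear_combination h'
  obtain ⟨A, B, hA, hB, hP⟩ := step P h.hP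
  obtain ⟨A₂, B₂, hA₂, hB₂, hQ⟩ := step Q h.hQ
  choose A' B' hA' hB' hP using hP
  choose A₂' B₂' hA₂' hB₂' hQ using hQ
  refine ⟨fun w => (A + A' w) * (B₂ + B₂' w) - (B + B' w) * (A₂ + A₂' w), ?_, ?_, ?_, ?_⟩
  · intro w
    have a1 := hA.add ((hA' w).mono (show 2 ≤ 3 by norm_num))
    have a2 := hB.add ((hB' w).mono (show 2 ≤ 3 by norm_num))
    have a3 := hA₂.add ((hA₂' w).mono (show 2 ≤ 3 by norm_num))
    have a4 := hB₂.add ((hB₂' w).mono (show 2 ≤ 3 by norm_num))
    exact (a1.mul a4 (by omega)).sub (a2.mul a3 (by omega))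
  · intro w w'
    have : ∀ w : Fin 2 → k, Dle 5 ((A + A' w) * (B₂ + B₂' w) - (B + B' w) * (A₂ + A₂' w) -
        (A * B₂ - B * A₂)) := by
      intro w
      have e : (A + A' w) * (B₂ + B₂' w) - (B + B' w) * (A₂ + A₂' w) - (A * B₂ - B * A₂) =
          A * B₂' w + A' w * (B₂ + B₂' w) - (B * A₂' w + B' w * (A₂ + A₂' w)) := by ring
      rw [e]
      have a3 := hA₂.add ((hA₂' w).mono (show 2 ≤ 3 by norm_num))
      have a4 := hB₂.add ((hB₂' w).mono (show 2 ≤ 3 by norm_num))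
      exact ((hA.mul (hB₂' w) (by omega)).add ((hA' w).mul a4 (by omega))).sub ((hB.mul (hA₂' w) (by omega)).add ((hB' w).mul a3 (by omega)))
    have e2 := (this w).sub (this w')
    convert e2 using 1
    ring
  · intro w hw
    obtain ⟨p0, q0⟩ := (h.hZ w).1 hw
    have hP' := hP w
    have hQ' := hQ w
    rw [p0, C_0, sub_zero] at hP'
    rw [q0, C_0, sub_zero] at hQ'
    simp only [Jac]
    rw [hP', hQ']
    simp [pderiv_X]
  · intro w hw z hz hzw
    have hP' := congrArg (eval z) (hP w)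
    have hQ' := congrArg (eval z) (hQ w)
    simp only [map_sub, map_add, map_mul, eval_C, eval_X, ((h.hZ w).1 hw).1, ((h.hZ w).1 hw).2,
      ((h.hZ z).1 hz).1, ((h.hZ z).1 hz).2] at hP' hQ' ⊢
    set a := eval z A + eval z (A' w)
    set b := eval z B + eval z (B' w)
    set c := eval z A₂ + eval z (A₂' w)
    set d := eval z B₂ + eval z (B₂' w)
    have h1 : (z 0 - w 0) * (a * d - b * c) = 0 := by linear_combination -d * hP' + b * hQ'
    have h2 : (z 1 - w 1) * (a * d - b * c) = 0 := by linear_combination c * hP' - a * hQ'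
    by_contra hne
    rcases mul_eq_zero.1 h1 with h3 | h3
    · rcases mul_eq_zero.1 h2 with h4 | h4
      · apply hzw
        ext i; fin_cases i
        · simp; linear_combination h3
        · simp; linear_combination h4
      · exact hne h4
    · exact hne h3

/-- evaluation on `Z` -/
noncomputable def ev (Z : Finset (Fin 2 → k)) (d : ℕ) : Pl k d →ₗ[k] (Z → k) :=
  LinearMap.pi (fun z => ((aeval z.1 : MvPolynomial (Fin 2) k →ₐ[k] k).toLinearMap).comp
      (Pl k _).subtype)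

lemma ev_apply (Z : Finset (Fin 2 → k)) (d : ℕ) (F : Pl k d) (z : Z) : ev Z d F z = eval z.1 F.1 := by
  simp [ev, aeval_eq_eval]

/-- pairs `(u, v)` to `u P + v Q` -/
noncomputable def pq (P Q : MvPolynomial (Fin 2) k) (hP : Dle 4 P) (hQ : Dle 4 Q) (d : ℕ) :
    (Pl k d × Pl k d) →ₗ[k] Pl k (d + 4) :=
  LinearMap.codRestrict _ (LinearMap.coprod ((LinearMap.mulRight k P).comp (Pl k d).subtype)
      ((LinearMap.mulRight k Q).comp (Pl k d).subtype)) (by
    intro x
    rw [mem_Pl]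
    have h1 : Dle d x.1.1 := mem_Pl.1 x.1.2
    have h2 : Dle d x.2.1 := mem_Pl.1 x.2.2
    exact (h1.mul hP (by omega)).add (h2.mul hQ (by omega)))

lemma pq_apply (P Q : MvPolynomial (Fin 2) k) (hP : Dle 4 P) (hQ : Dle 4 Q) (d : ℕ)
    (x : Pl k d × Pl k d) : (pq P Q hP hQ d x).1 = x.1.1 * P + x.2.1 * Q := rfl

lemma pq_inj [IsAlgClosed k] (h : CI16 P Q Z) {d : ℕ} (hd : d ≤ 3) :
    Function.Injective (pq P Q h.hP h.hQ d) := by
  rw [← LinearMap.ker_eq_bot, LinearMap.ker_eq_bot']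
  intro x hx
  have h1 : x.1.1 * P + x.2.1 * Q = 0 := by
    rw [← pq_apply P Q h.hP h.hQ, hx]; rfl
  have h2 : Dle d x.1.1 := mem_Pl.1 x.1.2
  obtain ⟨h3, h4⟩ := h.inj3 (h2.mono hd) h1
  exact Prod.ext (Subtype.ext h3) (Subtype.ext h4)

lemma range_pq_le (h : CI16 P Q Z) (d : ℕ) :
    LinearMap.range (pq P Q h.hP h.hQ d) ≤ LinearMap.ker (ev Z (d + 4)) := by
  rintro _ ⟨x, rfl⟩
  rw [LinearMap.mem_ker]
  ext z
  rw [ev_apply, pq_apply, map_add, map_mul, map_mul, ((h.hZ z.1).1 z.2).1, ((h.hZ z.1).1 z.2).2]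
  simp

/-- the Euler-Jacobi formula -/
theorem euler_jacobi [IsAlgClosed k] (h : CI16 P Q Z) {F : MvPolynomial (Fin 2) k} (hF : Dle 5 F) :
    ∑ z ∈ Z, eval z F / eval z (Jac P Q) = 0 := by
  classical
  obtain ⟨Δ, hΔ1, hΔ2, hΔ3, hΔ4⟩ := h.exists_bez
  -- the range is not everything
  have r1 : LinearMap.range (ev Z 5) < ⊤ := by
    rw [lt_top_iff_ne_top]
    intro htop
    have e1 := LinearMap.finrank_range_add_finrank_ker (ev Z 5)
    rw [htop, finrank_top, Module.finrank_fintype_fun_eq_card, Fintype.card_coe, h.card] at e1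
    have e2 := finrank_Pl (k := k) 5
    have e3 := finrank_Pl (k := k) 1
    have e4 := LinearMap.finrank_range_of_inj (h.pq_inj (d := 1) (by norm_num))
    have e5 : Module.finrank k (Pl k 1 × Pl k 1) = Module.finrank k (Pl k 1) + Module.finrank k (Pl k 1) :=
      Module.finrank_prod
    have e6 : Module.finrank k (LinearMap.range (pq P Q h.hP h.hQ 1)) ≤
        Module.finrank k (LinearMap.ker (ev Z 5)) := Submodule.finrank_mono (h.range_pq_le 1)
    omega
  obtain ⟨f, hf0, hf⟩ := Submodule.exists_le_ker_of_lt_top _ r1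
  set c : Z → k := fun z => f (Pi.single z 1) with hc
  have hfc : ∀ g : Z → k, f g = ∑ z, g z * c z := by
    intro g
    have : g = ∑ z, g z • (Pi.single z 1 : Z → k) := by
      ext w
      simp [Finset.sum_apply, Pi.single_apply]
    conv_lhs => rw [this]
    rw [map_sum]
    simp [hc]
  have hc5 : ∀ G : MvPolynomial (Fin 2) k, Dle 5 G → ∑ z : Z, eval z.1 G * c z = 0 := by
    intro G hG
    have h1 : ev Z 5 ⟨G, mem_Pl.2 hG⟩ ∈ LinearMap.ker f := hf ⟨_, rfl⟩
    rw [LinearMap.mem_ker, hfc] at h1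
    simpa only [ev_apply] using h1
  have hsum : ∀ w : Z, ∑ z : Z, eval z.1 (Δ w.1) * c z = eval w.1 (Jac P Q) * c w := by
    intro w
    rw [Finset.sum_eq_single w]
    · rw [hΔ3 w.1 w.2]
    · intro z _ hzw
      rw [hΔ4 w.1 w.2 z.1 z.2 (fun h => hzw (Subtype.ext h)), zero_mul]
    · intro h; exact absurd (Finset.mem_univ _) h
  have hconst : ∀ w w' : Z, eval w.1 (Jac P Q) * c w = eval w'.1 (Jac P Q) * c w' := by
    intro w w'
    have := hc5 _ (hΔ2 w.1 w'.1)
    simp only [map_sub, sub_mul, Finset.sum_sub_distrib] at this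
    rw [hsum, hsum] at this
    linear_combination this
  have hne : Z.Nonempty := by rw [← Finset.card_pos, h.card]; norm_num
  obtain ⟨w0, hw0⟩ := hne
  set κ := eval w0 (Jac P Q) * c ⟨w0, hw0⟩ with hκ
  have hck : ∀ z : Z, c z = κ / eval z.1 (Jac P Q) := by
    intro z
    rw [eq_div_iff (h.jac_ne_zero z.2), mul_comm]
    exact hconst z ⟨w0, hw0⟩
  have hκ0 : κ ≠ 0 := by
    intro h0
    apply hf0
    ext g
    simp only [LinearMap.coe_comp, Function.comp_apply, LinearMap.zero_apply]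
    rw [hfc]
    apply Finset.sum_eq_zero
    intro z _
    rw [hck, h0, zero_div, mul_zero]
  have h2 := hc5 F hF
  have h3 : ∑ z : Z, eval z.1 F * c z = κ * ∑ z : Z, eval z.1 F / eval z.1 (Jac P Q) := by
    rw [Finset.mul_sum]
    apply Finset.sum_congr rfl
    intro z _
    rw [hck]; ring
  rw [h3] at h2
  rcases mul_eq_zero.1 h2 with h4 | h4
  · exact absurd h4 hκ0
  · rw [← Finset.sum_coe_sort Z (fun z => eval z F / eval z (Jac P Q))]
    exact h4

lemma ev6_surj [IsAlgClosed k] (h : CI16 P Q Z) : Function.Surjective (ev Z 6) := by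
  classical
  obtain ⟨Δ, hΔ1, hΔ2, hΔ3, hΔ4⟩ := h.exists_bez
  intro c
  refine ⟨⟨∑ w : Z, C (c w / eval w.1 (Jac P Q)) * Δ w.1, mem_Pl.2 ?_⟩, ?_⟩
  · refine le_trans (totalDegree_finsetSum _ _) ?_
    apply Finset.sup_le
    intro w _
    exact (Dle.C (n := 0) _).mul (hΔ1 w.1) (by omega)
  · ext z
    rw [ev_apply, map_sum, Finset.sum_eq_single z]
    · rw [map_mul, eval_C, hΔ3 z.1 z.2, div_mul_cancel₀ _ (h.jac_ne_zero z.2)]
    · intro w _ hw
      rw [map_mul, hΔ4 w.1 w.2 z.1 z.2 (fun h => hw (Subtype.ext h.symm)), mul_zero]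
    · intro h; exact absurd (Finset.mem_univ _) h

/-- Noether's theorem in degree 6 -/
lemma noether6 [IsAlgClosed k] (h : CI16 P Q Z) {F : MvPolynomial (Fin 2) k} (hF : Dle 6 F)
    (hz : ∀ z ∈ Z, eval z F = 0) : ∃ u v : MvPolynomial (Fin 2) k, Dle 2 u ∧ Dle 2 v ∧
      F = u * P + v * Q := by
  have e1 := LinearMap.finrank_range_add_finrank_ker (ev Z 6)
  rw [LinearMap.range_eq_top.2 h.ev6_surj, finrank_top, Module.finrank_fintype_fun_eq_card,
    Fintype.card_coe, h.card] at e1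
  have e2 := finrank_Pl (k := k) 6
  have e3 := finrank_Pl (k := k) 2
  have e4 := LinearMap.finrank_range_of_inj (h.pq_inj (d := 2) (by norm_num))
  have e5 : Module.finrank k (Pl k 2 × Pl k 2) = Module.finrank k (Pl k 2) + Module.finrank k (Pl k 2) :=
    Module.finrank_prod
  have e6 : LinearMap.range (pq P Q h.hP h.hQ 2) = LinearMap.ker (ev Z 6) := by
    apply Submodule.eq_of_le_of_finrank_eq (h.range_pq_le 2)
    show Module.finrank k (LinearMap.range (pq P Q h.hP h.hQ 2)) =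
        Module.finrank k (LinearMap.ker (ev Z 6))
    omega
  have e7 : (⟨F, mem_Pl.2 hF⟩ : Pl k 6) ∈ LinearMap.ker (ev Z 6) := by
    rw [LinearMap.mem_ker]
    ext z
    rw [ev_apply]
    exact hz z.1 z.2
  rw [← e6] at e7
  obtain ⟨x, hx⟩ := e7
  refine ⟨x.1.1, x.2.1, mem_Pl.1 x.1.2, mem_Pl.1 x.2.2, ?_⟩
  have := congrArg Subtype.val hx
  rw [pq_apply] at this
  exact this.symm

lemma Dle_of_X_mul {n : ℕ} {u : MvPolynomial (Fin 2) k} (h : Dle (n + 1) (X 0 * u)) : Dle n u := by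
  by_cases hu : u = 0
  · rw [hu]; exact Dle.zero
  · unfold Dle at h ⊢
    rw [totalDegree_mul_eq (X_ne_zero 0) hu, totalDegree_X] at h
    omega

lemma noether5 [IsAlgClosed k] (h : CI16 P Q Z) {F : MvPolynomial (Fin 2) k} (hF : Dle 5 F)
    (hz : ∀ z ∈ Z, eval z F = 0) : ∃ u v : MvPolynomial (Fin 2) k, Dle 1 u ∧ Dle 1 v ∧
      F = u * P + v * Q := by
  obtain ⟨u, v, hu, hv, huv⟩ := h.noether6 (hF.mono (by norm_num)) hz
  obtain ⟨u', v', hu', hv', huv'⟩ := h.noether6 (F := X 0 * F) (((Dle.X le_rfl 0)).mul hF (by omega))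
    (fun z hz' => by rw [map_mul, hz z hz', mul_zero])
  have h1 : (X 0 * u - u') * P + (X 0 * v - v') * Q = 0 := by
    linear_combination (X 0) * (-huv) + huv'
  obtain ⟨h2, h3⟩ := h.inj3 (((Dle.X (k := k) le_rfl 0).mul hu (n := 3) (by omega)).sub (hu'.mono (by norm_num))) h1
  refine ⟨u, v, ?_, ?_, huv⟩
  · apply Dle_of_X_mul
    rw [sub_eq_zero.1 h2]; exact hu'
  · apply Dle_of_X_mul
    rw [sub_eq_zero.1 h3]; exact hv'

lemma noether4 [IsAlgClosed k] (h : CI16 P Q Z) {F : MvPolynomial (Fin 2) k} (hF : Dle 4 F)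
    (hz : ∀ z ∈ Z, eval z F = 0) : ∃ u v : MvPolynomial (Fin 2) k, Dle 0 u ∧ Dle 0 v ∧
      F = u * P + v * Q := by
  obtain ⟨u, v, hu, hv, huv⟩ := h.noether5 (hF.mono (by norm_num)) hz
  obtain ⟨u', v', hu', hv', huv'⟩ := h.noether5 (F := X 0 * F) (((Dle.X le_rfl 0)).mul hF (by omega))
    (fun z hz' => by rw [map_mul, hz z hz', mul_zero])
  have h1 : (X 0 * u - u') * P + (X 0 * v - v') * Q = 0 := by
    linear_combination (X 0) * (-huv) + huv'
  obtain ⟨h2, h3⟩ := h.inj3 (((Dle.X (k := k) le_rfl 0).mul hu (n := 3) (by omega)).sub (hu'.mono (by norm_num))) h1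
  refine ⟨u, v, ?_, ?_, huv⟩
  · apply Dle_of_X_mul
    rw [sub_eq_zero.1 h2]; exact hu'
  · apply Dle_of_X_mul
    rw [sub_eq_zero.1 h3]; exact hv'

lemma eq_zero3 [IsAlgClosed k] (h : CI16 P Q Z) {F : MvPolynomial (Fin 2) k} (hF : Dle 3 F)
    (hz : ∀ z ∈ Z, eval z F = 0) : F = 0 := by
  obtain ⟨u, v, hu, hv, huv⟩ := h.noether4 (hF.mono (by norm_num)) hz
  obtain ⟨u', v', hu', hv', huv'⟩ := h.noether4 (F := X 0 * F) (((Dle.X le_rfl 0)).mul hF (by omega))
    (fun z hz' => by rw [map_mul, hz z hz', mul_zero])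
  have h1 : (X 0 * u - u') * P + (X 0 * v - v') * Q = 0 := by
    linear_combination (X 0) * (-huv) + huv'
  obtain ⟨h2, h3⟩ := h.inj3 (((Dle.X (k := k) le_rfl 0).mul hu (n := 3) (by omega)).sub (hu'.mono (by norm_num))) h1
  have key : ∀ a b : MvPolynomial (Fin 2) k, Dle 0 b → X 0 * a = b → a = 0 := by
    intro a b hb hab
    by_contra ha
    unfold Dle at hb
    rw [← hab, totalDegree_mul_eq (X_ne_zero 0) ha, totalDegree_X] at hb
    omega
  rw [huv, key u u' hu' (sub_eq_zero.1 h2), key v v' hv' (sub_eq_zero.1 h3)]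
  simp

end CI16

end Run7.h256
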