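import Mathlib
import Pool.Agent.Run7.h256.CI4

set_option autoImplicit false

namespace Run7.h256

open MvPolynomial ComplexConjugate

/-- nine real common zeros with positive Jacobian -/
structure Nine (P Q : MvPolynomial (Fin 2) ℂ) (Z S : Finset (Fin 2 → ℂ)) : Prop where
  ci : CI16 P Q Z
  sub : S ⊆ Z
  card : S.card = 9
  real : ∀ s ∈ S, ∀ i, conj (s i) = s i
  pos : ∀ s ∈ S, ∃ r : ℝ, 0 < r ∧ eval s (Jac P Q) = r

/-- conjugate polynomial -/
noncomputable def cj (F : MvPolynomial (Fin 2) ℂ) : MvPolynomial (Fin 2) ℂ := map (starRingEnd ℂ) F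

lemma Dle_cj {n : ℕ} {F : MvPolynomial (Fin 2) ℂ} (hF : Dle n F) : Dle n (cj F) :=
  le_trans (Finset.sup_mono (support_map_subset _ _)) hF

lemma eval_cj (F : MvPolynomial (Fin 2) ℂ) (s : Fin 2 → ℂ) (hs : ∀ i, conj (s i) = s i) :
    eval s (cj F) = conj (eval s F) := by
  have h1 : (⇑(starRingEnd ℂ) ∘ s) = s := funext hs
  rw [cj, eval_map]
  have h2 := eval₂_comp_left (starRingEnd ℂ) (RingHom.id ℂ) s F
  rw [h1] at h2
  rw [show eval s F = eval₂ (RingHom.id ℂ) s F from rfl, h2]
  rfl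

namespace Nine

variable {P Q : MvPolynomial (Fin 2) ℂ} {Z S : Finset (Fin 2 → ℂ)}

open Classical in
/-- a polynomial of degree at most 2 vanishing off `S` is zero, with slack: nonpositive contributions allowed -/
lemma eq_zero_of_vanish (h : Nine P Q Z S) {f : MvPolynomial (Fin 2) ℂ} (hf : Dle 2 f)
    (hT : ∀ t ∈ Z \ S, eval t f = 0) : f = 0 := by
  have h1 := h.ci.euler_jacobi (F := f * cj f) (hf.mul (Dle_cj hf) (by omega))
  rw [← Finset.sum_sdiff h.sub] at h1
  have h2 : ∑ x ∈ Z \ S, eval x (f * cj f) / eval x (Jac P Q) = 0 := by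
    apply Finset.sum_eq_zero
    intro t ht
    rw [map_mul, hT t ht]; simp
  rw [h2, zero_add] at h1
  choose! r hr0 hr using h.pos
  have h3 : ∀ s ∈ S, eval s (f * cj f) / eval s (Jac P Q) =
      ((Complex.normSq (eval s f) / r s : ℝ) : ℂ) := by
    intro s hs
    rw [map_mul, eval_cj f s (h.real s hs), Complex.mul_conj, hr s hs]
    push_cast
    rfl
  rw [Finset.sum_congr rfl h3, ← Complex.ofReal_sum] at h1
  have h4 : ∑ s ∈ S, Complex.normSq (eval s f) / r s = 0 := by exact_mod_cast h1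
  rw [Finset.sum_eq_zero_iff_of_nonneg (fun s hs => div_nonneg (Complex.normSq_nonneg _) (hr0 s hs).le)] at h4
  apply h.ci.eq_zero3 (hf.mono (by norm_num))
  intro z hz
  by_cases hzS : z ∈ S
  · have := h4 z hzS
    rw [div_eq_zero_iff] at this
    rcases this with h5 | h5
    · exact Complex.normSq_eq_zero.1 h5
    · exact absurd h5 (hr0 z hzS).ne'
  · exact hT z (Finset.mem_sdiff.2 ⟨hz, hzS⟩)

lemma cardT (h : Nine P Q Z S) : (Z \ S).card = 7 := by
  have := Finset.card_sdiff_add_card_eq_card h.sub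
  rw [h.card, h.ci.card] at this
  omega

open CI16 in
lemma finrank_ker3 (h : Nine P Q Z S) : Module.finrank ℂ (LinearMap.ker (ev S 3)) ≤ 1 := by
  classical
  obtain ⟨T, hT⟩ : ∃ T, T = Z \ S := ⟨_, rfl⟩
  have inj2 : Function.Injective (ev T 2) := by
    rw [← LinearMap.ker_eq_bot, LinearMap.ker_eq_bot']
    intro x hx
    apply Subtype.ext
    apply h.eq_zero_of_vanish (mem_Pl.1 x.2)
    intro t ht
    rw [← hT] at ht
    have := congrFun hx ⟨t, ht⟩
    rw [ev_apply] at this
    exact this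
  have e1 := LinearMap.finrank_range_of_inj inj2
  have e2 := finrank_Pl (k := ℂ) 2
  have e3 := Subspace.finrank_add_finrank_dualAnnihilator_eq (LinearMap.range (ev T 2))
  have hc7 : T.card = 7 := by rw [hT]; exact h.cardT
  rw [Module.finrank_fintype_fun_eq_card, Fintype.card_coe, hc7] at e3
  -- the map to the annihilator
  let B : (T → ℂ) →ₗ[ℂ] Module.Dual ℂ (T → ℂ) :=
    { toFun := fun F => ∑ t : T, (F t / eval t.1 (Jac P Q)) • LinearMap.proj t
      map_add' := by
        intro F G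
        rw [← Finset.sum_add_distrib]
        apply Finset.sum_congr rfl
        intro t _
        rw [← add_smul, Pi.add_apply, add_div]
      map_smul' := by
        intro c F
        rw [RingHom.id_apply, Finset.smul_sum]
        apply Finset.sum_congr rfl
        intro t _
        rw [smul_smul, Pi.smul_apply, smul_eq_mul, mul_div_assoc] }
  have hB : ∀ F G, B F G = ∑ t : T, F t / eval t.1 (Jac P Q) * G t := by
    intro F G
    simp [B]
  let Ψ : LinearMap.ker (ev S 3) →ₗ[ℂ] (LinearMap.range (ev T 2)).dualAnnihilator :=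
    LinearMap.codRestrict _ ((B.comp (ev T 3)).comp (LinearMap.ker (ev S 3)).subtype) (by
      intro x
      rw [Submodule.mem_dualAnnihilator]
      rintro _ ⟨g, rfl⟩
      show B (ev T 3 x.1) (ev T 2 g) = 0
      rw [hB]
      simp only [ev_apply]
      have h1 := h.ci.euler_jacobi (F := x.1.1 * g.1)
        (Dle.mul (a := 3) (b := 2) (mem_Pl.1 x.1.2) (mem_Pl.1 g.2) (by omega))
      rw [← Finset.sum_sdiff h.sub] at h1
      have h2 : ∑ z ∈ S, eval z (x.1.1 * g.1) / eval z (Jac P Q) = 0 := by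
        apply Finset.sum_eq_zero
        intro s hs
        have h3 := congrFun (LinearMap.mem_ker.1 x.2) ⟨s, hs⟩
        rw [ev_apply] at h3
        rw [map_mul]
        simp only [Pi.zero_apply] at h3
        rw [h3]; simp
      rw [h2, add_zero, ← hT] at h1
      rw [← Finset.sum_coe_sort T (fun z => eval z (x.1.1 * g.1) / eval z (Jac P Q))] at h1
      rw [← h1]
      apply Finset.sum_congr rfl
      intro t _
      rw [map_mul]; ring)
  have hΨ : Function.Injective Ψ := by
    intro x1 x2 hx12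
    rw [← sub_eq_zero]
    rw [← sub_eq_zero, ← map_sub] at hx12
    generalize x1 - x2 = x at hx12
    have hx := hx12
    have h1 : B (ev T 3 x.1) = 0 := congrArg Subtype.val hx
    apply Subtype.ext
    apply Subtype.ext
    apply h.ci.eq_zero3 (mem_Pl.1 x.1.2)
    intro z hz
    by_cases hzS : z ∈ S
    · have h3 := congrFun (LinearMap.mem_ker.1 x.2) ⟨z, hzS⟩
      rw [ev_apply] at h3
      exact h3
    · have hzT : z ∈ T := by rw [hT]; exact Finset.mem_sdiff.2 ⟨hz, hzS⟩
      have h4 := congrArg (fun f => f (Pi.single (⟨z, hzT⟩ : T) 1)) h1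
      simp only [LinearMap.zero_apply] at h4
      rw [hB, Finset.sum_eq_single (⟨z, hzT⟩ : T)] at h4
      · rw [ev_apply, Pi.single_eq_same, mul_one, div_eq_zero_iff] at h4
        rcases h4 with h5 | h5
        · exact h5
        · exact absurd h5 (h.ci.jac_ne_zero hz)
      · intro t _ ht
        rw [Pi.single_eq_of_ne ht, mul_zero]
      · intro h5; exact absurd (Finset.mem_univ _) h5
  have e4 := LinearMap.finrank_le_finrank_of_injective hΨ
  omega

open CI16 in
lemma ev3_surj (h : Nine P Q Z S) : Function.Surjective (ev S 3) ∧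
    Module.finrank ℂ (LinearMap.ker (ev S 3)) = 1 := by
  have e1 := LinearMap.finrank_range_add_finrank_ker (ev S 3)
  have e2 := h.finrank_ker3
  have e3 := finrank_Pl (k := ℂ) 3
  have e4 : Module.finrank ℂ (LinearMap.range (ev S 3)) ≤ 9 := by
    refine le_trans (Submodule.finrank_le _) ?_
    rw [Module.finrank_fintype_fun_eq_card, Fintype.card_coe, h.card]
  have e5 : Module.finrank ℂ (LinearMap.range (ev S 3)) = 9 := by omega
  refine ⟨?_, by omega⟩
  rw [← LinearMap.range_eq_top]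
  apply Submodule.eq_top_of_finrank_eq
  rw [e5, Module.finrank_fintype_fun_eq_card, Fintype.card_coe, h.card]

open CI16 in
lemma ev_surj (h : Nine P Q Z S) {d : ℕ} (hd : 3 ≤ d) : Function.Surjective (ev S d) := by
  intro c
  obtain ⟨F, hF⟩ := h.ev3_surj.1 c
  refine ⟨⟨F.1, mem_Pl.2 ((mem_Pl.1 F.2).trans hd)⟩, ?_⟩
  rw [← hF]
  ext z
  rw [ev_apply, ev_apply]

open CI16 in
lemma finrank_ker (h : Nine P Q Z S) {d : ℕ} (hd : 3 ≤ d) :
    2 * (Module.finrank ℂ (LinearMap.ker (ev S d)) + 9) = (d + 1) * (d + 2) := by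
  have e1 := LinearMap.finrank_range_add_finrank_ker (ev S d)
  rw [LinearMap.range_eq_top.2 (h.ev_surj hd), finrank_top, Module.finrank_fintype_fun_eq_card,
    Fintype.card_coe, h.card] at e1
  rw [← finrank_Pl (k := ℂ) d]
  omega

open CI16 in
/-- cubics through `S` are multiples of any nonzero one -/
lemma cubic_eq (h : Nine P Q Z S) {D F : MvPolynomial (Fin 2) ℂ} (hD : Dle 3 D) (hD0 : D ≠ 0)
    (hDS : ∀ s ∈ S, eval s D = 0) (hF : Dle 3 F) (hFS : ∀ s ∈ S, eval s F = 0) :
    ∃ c : ℂ, F = C c * D := by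
  have hmem : ∀ G : MvPolynomial (Fin 2) ℂ, ∀ hG : Dle 3 G, (∀ s ∈ S, eval s G = 0) →
      (⟨G, mem_Pl.2 hG⟩ : Pl ℂ 3) ∈ LinearMap.ker (ev S 3) := by
    intro G hG hGS
    rw [LinearMap.mem_ker]
    ext s
    rw [ev_apply]; exact hGS s.1 s.2
  have h1 := h.ev3_surj.2
  have hv : (⟨⟨D, mem_Pl.2 hD⟩, hmem D hD hDS⟩ : LinearMap.ker (ev S 3)) ≠ 0 := by
    intro h0
    apply hD0
    exact congrArg (fun x => x.1.1) h0
  obtain ⟨c, hc⟩ := (finrank_eq_one_iff_of_nonzero' (K := ℂ) (V := LinearMap.ker (ev S 3)) _ hv).1 h1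
    ⟨⟨F, mem_Pl.2 hF⟩, hmem F hF hFS⟩
  refine ⟨c, ?_⟩
  have := congrArg (fun x => x.1.1) hc
  simp only [SetLike.val_smul] at this
  rw [← this, smul_eq_C_mul]

/-- no conic contains `S` -/
lemma conic_eq_zero (h : Nine P Q Z S) {F : MvPolynomial (Fin 2) ℂ} (hF : Dle 2 F)
    (hFS : ∀ s ∈ S, eval s F = 0) : F = 0 := by
  by_contra h0
  obtain ⟨c, hc⟩ := h.cubic_eq (hF.mono (by norm_num)) h0 hFS (F := X 0 * F)
    ((Dle.X le_rfl 0).mul hF (by omega)) (fun s hs => by rw [map_mul, hFS s hs, mul_zero])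
  have h1 : (X 0 - C c) * F = 0 := by linear_combination hc
  rcases mul_eq_zero.1 h1 with h2 | h2
  · have := congrArg (eval (fun _ => c + 1)) h2
    simp at this
  · exact h0 h2

end Nine

end Run7.h256
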