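import Mathlib
import Pool.Agent.Run7.h256.ST

set_option autoImplicit false

namespace Run7.h256

open MvPolynomial

/-- the polynomial ring -/
abbrev RR := MvPolynomial (Fin 2) ℂ

/-- divergence -/
noncomputable def Dv (P Q : RR) : RR := pderiv 0 P + pderiv 1 Q

/-- nine real common zeros with positive Jacobian and zero divergence, the divergence does not vanish at the
other zeros -/
structure ND (P Q : RR) (Z S : Finset (Fin 2 → ℂ)) : Prop where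
  n : Nine P Q Z S
  dS : ∀ s ∈ S, eval s (Dv P Q) = 0
  dT : ∀ t ∈ Z \ S, eval t (Dv P Q) ≠ 0

/-- polynomials of degree at most `d` vanishing on `S` -/
noncomputable def IS (S : Finset (Fin 2 → ℂ)) (d : ℕ) : Submodule ℂ RR :=
  (LinearMap.ker (CI16.ev S d)).map (Pl ℂ d).subtype

lemma mem_IS {S : Finset (Fin 2 → ℂ)} {d : ℕ} {F : RR} :
    F ∈ IS S d ↔ Dle d F ∧ ∀ s ∈ S, eval s F = 0 := by
  unfold IS
  rw [Submodule.mem_map]
  constructor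
  · rintro ⟨x, hx, rfl⟩
    refine ⟨mem_Pl.1 x.2, fun s hs => ?_⟩
    have h3 := congrFun (LinearMap.mem_ker.1 hx) ⟨s, hs⟩
    rw [CI16.ev_apply] at h3
    exact h3
  · rintro ⟨h1, h2⟩
    refine ⟨⟨F, mem_Pl.2 h1⟩, ?_, rfl⟩
    rw [LinearMap.mem_ker]
    ext s
    rw [CI16.ev_apply]; exact h2 s.1 s.2

lemma finrank_IS (S : Finset (Fin 2 → ℂ)) (d : ℕ) :
    Module.finrank ℂ (IS S d) = Module.finrank ℂ (LinearMap.ker (CI16.ev S d)) :=
  Submodule.finrank_map_subtype_eq _ _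

instance (S : Finset (Fin 2 → ℂ)) (d : ℕ) : FiniteDimensional ℂ (IS S d) := by
  unfold IS; infer_instance

/-- the parametrization with three summands -/
noncomputable def Th3 (D P Q : RR) : (Pl ℂ 1 × Pl ℂ 0 × Pl ℂ 0) →ₗ[ℂ] RR where
  toFun x := x.1.1 * D + x.2.1.1 * P + x.2.2.1 * Q
  map_add' x y := by simp; ring
  map_smul' c x := by simp

/-- the parametrization with four summands -/
noncomputable def Th4 (D P Q R : RR) (i j : ℕ) : (Pl ℂ i × Pl ℂ j × Pl ℂ j × Pl ℂ j) →ₗ[ℂ] RR where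
  toFun x := x.1.1 * D + x.2.1.1 * P + x.2.2.1.1 * Q + x.2.2.2.1 * R
  map_add' x y := by simp; ring
  map_smul' c x := by simp

lemma exists_const {F : RR} (h : Dle 0 F) : ∃ c : ℂ, F = C c := by
  refine ⟨coeff 0 F, ?_⟩
  exact (totalDegree_eq_zero_iff_eq_C).1 (Nat.le_zero.1 h)

namespace ND

variable {P Q : RR} {Z S : Finset (Fin 2 → ℂ)}

lemma PS (h : ND P Q Z S) {s : Fin 2 → ℂ} (hs : s ∈ S) : eval s P = 0 :=
  ((h.n.ci.hZ s).1 (h.n.sub hs)).1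

lemma QS (h : ND P Q Z S) {s : Fin 2 → ℂ} (hs : s ∈ S) : eval s Q = 0 :=
  ((h.n.ci.hZ s).1 (h.n.sub hs)).2

lemma dD (h : ND P Q Z S) : Dle 3 (Dv P Q) :=
  (Dle.pderiv h.n.ci.hP 0).add (Dle.pderiv h.n.ci.hQ 1)

lemma f_zero (h : ND P Q Z S) {f u v : RR} (hf : Dle 2 f) (he : f * Dv P Q + u * P + v * Q = 0) :
    f = 0 := by
  apply h.n.eq_zero_of_vanish hf
  intro t ht
  have hz := (h.n.ci.hZ t).1 (Finset.mem_sdiff.1 ht).1
  have h1 := congrArg (eval t) he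
  rw [map_add, map_add, map_mul, map_mul, map_mul, hz.1, hz.2, map_zero, mul_zero, mul_zero,
    add_zero, add_zero] at h1
  rcases mul_eq_zero.1 h1 with h2 | h2
  · exact h2
  · exact absurd h2 (h.dT t ht)

lemma all_zero (h : ND P Q Z S) {f u v : RR} (hf : Dle 2 f) (hu : Dle 3 u)
    (he : f * Dv P Q + u * P + v * Q = 0) : f = 0 ∧ u = 0 ∧ v = 0 := by
  have h1 := h.f_zero hf he
  rw [h1, zero_mul, zero_add] at he
  exact ⟨h1, h.n.ci.inj3 hu he⟩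

lemma D_ne (h : ND P Q Z S) : Dv P Q ≠ 0 := by
  have h1 := h.n.cardT
  have h2 : (Z \ S).Nonempty := by rw [← Finset.card_pos, h1]; norm_num
  obtain ⟨t, ht⟩ := h2
  intro h0
  apply h.dT t ht
  rw [h0, map_zero]

lemma finIS4 (h : ND P Q Z S) : Module.finrank ℂ (IS S 4) = 6 := by
  have := h.n.finrank_ker (d := 4) (by norm_num)
  rw [finrank_IS]; omega

lemma finIS5 (h : ND P Q Z S) : Module.finrank ℂ (IS S 5) = 12 := by
  have := h.n.finrank_ker (d := 5) (by norm_num)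
  rw [finrank_IS]; omega

/-- there is an extra quartic -/
lemma exists_R (h : ND P Q Z S) : ∃ R : RR, Dle 4 R ∧ (∀ s ∈ S, eval s R = 0) ∧
    ∀ l u v : RR, Dle 1 l → Dle 0 u → Dle 0 v → l * Dv P Q + u * P + v * Q ≠ R := by
  by_contra hcon
  push Not at hcon
  have h1 : IS S 4 ≤ LinearMap.range (Th3 (Dv P Q) P Q) := by
    intro F hF
    obtain ⟨h2, h3⟩ := mem_IS.1 hF
    obtain ⟨l, u, v, hl, hu, hv, he⟩ := hcon F h2 h3
    exact ⟨(⟨l, mem_Pl.2 hl⟩, ⟨u, mem_Pl.2 hu⟩, ⟨v, mem_Pl.2 hv⟩), he⟩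
  have h2 := Submodule.finrank_mono h1
  have h3 := LinearMap.finrank_range_le (Th3 (Dv P Q) P Q)
  rw [Module.finrank_prod, Module.finrank_prod] at h3
  have e1 := finrank_Pl (k := ℂ) 1
  have e0 := finrank_Pl (k := ℂ) 0
  rw [h.finIS4] at h2
  omega

lemma eval_comb (h : ND P Q Z S) {R : RR} (hR : ∀ s ∈ S, eval s R = 0) (l u v w : RR) {s : Fin 2 → ℂ}
    (hs : s ∈ S) : eval s (l * Dv P Q + u * P + v * Q + w * R) = 0 := by
  simp [h.dS s hs, h.PS hs, h.QS hs, hR s hs]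

/-- quartics through `S` -/
lemma span4 (h : ND P Q Z S) {R : RR} (hR4 : Dle 4 R) (hRS : ∀ s ∈ S, eval s R = 0)
    (hR : ∀ l u v : RR, Dle 1 l → Dle 0 u → Dle 0 v → l * Dv P Q + u * P + v * Q ≠ R) {F : RR}
    (hF : Dle 4 F) (hFS : ∀ s ∈ S, eval s F = 0) :
    ∃ l : RR, ∃ u v w : ℂ, Dle 1 l ∧ F = l * Dv P Q + C u * P + C v * Q + C w * R := by
  have inj : Function.Injective (Th4 (Dv P Q) P Q R 1 0) := by
    rw [injective_iff_map_eq_zero]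
    rintro ⟨⟨l, hl⟩, ⟨u, hu⟩, ⟨v, hv⟩, ⟨w, hw⟩⟩ he
    have he' : l * Dv P Q + u * P + v * Q + w * R = 0 := he
    obtain ⟨c, rfl⟩ := exists_const (mem_Pl.1 hw)
    by_cases hc : c = 0
    · subst hc
      rw [C_0, zero_mul, add_zero] at he'
      obtain ⟨h1, h2, h3⟩ := h.all_zero ((mem_Pl.1 hl).trans (by norm_num))
        ((mem_Pl.1 hu).trans (by norm_num)) he'
      subst h1 h2 h3
      simp
    · exfalso
      apply hR (C (-c⁻¹) * l) (C (-c⁻¹) * u) (C (-c⁻¹) * v) ((Dle.C (n := 0) _).mul (mem_Pl.1 hl) (by omega))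
        ((Dle.C (n := 0) _).mul (mem_Pl.1 hu) (by omega)) ((Dle.C (n := 0) _).mul (mem_Pl.1 hv) (by omega))
      have h4 : C (c⁻¹) * C c = (1 : RR) := by rw [← C_mul, inv_mul_cancel₀ hc, C_1]
      rw [C_neg]
      linear_combination (-C c⁻¹) * he' + R * h4
  have h1 : LinearMap.range (Th4 (Dv P Q) P Q R 1 0) ≤ IS S 4 := by
    rintro _ ⟨⟨⟨l, hl⟩, ⟨u, hu⟩, ⟨v, hv⟩, ⟨w, hw⟩⟩, rfl⟩
    rw [mem_IS]
    refine ⟨?_, fun s hs => h.eval_comb hRS l u v w hs⟩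
    exact (((Dle.mul (mem_Pl.1 hl) h.dD (by omega)).add (Dle.mul (mem_Pl.1 hu) h.n.ci.hP (by omega))).add
      (Dle.mul (mem_Pl.1 hv) h.n.ci.hQ (by omega))).add (Dle.mul (mem_Pl.1 hw) hR4 (by omega))
  have h2 : LinearMap.range (Th4 (Dv P Q) P Q R 1 0) = IS S 4 := by
    apply Submodule.eq_of_le_of_finrank_eq h1
    rw [LinearMap.finrank_range_of_inj inj, h.finIS4, Module.finrank_prod, Module.finrank_prod,
      Module.finrank_prod]
    have e1 := finrank_Pl (k := ℂ) 1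
    have e0 := finrank_Pl (k := ℂ) 0
    omega
  have h3 : F ∈ LinearMap.range (Th4 (Dv P Q) P Q R 1 0) := by
    rw [h2, mem_IS]; exact ⟨hF, hFS⟩
  obtain ⟨⟨⟨l, hl⟩, ⟨u, hu⟩, ⟨v, hv⟩, ⟨w, hw⟩⟩, he⟩ := h3
  obtain ⟨c1, rfl⟩ := exists_const (mem_Pl.1 hu)
  obtain ⟨c2, rfl⟩ := exists_const (mem_Pl.1 hv)
  obtain ⟨c3, rfl⟩ := exists_const (mem_Pl.1 hw)
  exact ⟨l, c1, c2, c3, mem_Pl.1 hl, he.symm⟩

/-- syzygies -/
lemma exists_syz (h : ND P Q Z S) {R : RR} (hR4 : Dle 4 R) (hRS : ∀ s ∈ S, eval s R = 0) {w : RR}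
    (hw : Dle 1 w) :
    ∃ a b q : RR, Dle 1 a ∧ Dle 1 b ∧ Dle 2 q ∧ Q * a - P * b + R * w + Dv P Q * q = 0 := by
  set Φ := Th4 (Dv P Q) P Q R 2 1 with hΦ
  have h1 : LinearMap.range Φ ≤ IS S 5 := by
    rintro _ ⟨⟨⟨l, hl⟩, ⟨u, hu⟩, ⟨v, hv⟩, ⟨w, hw⟩⟩, rfl⟩
    rw [mem_IS]
    refine ⟨?_, fun s hs => h.eval_comb hRS l u v w hs⟩
    exact (((Dle.mul (mem_Pl.1 hl) h.dD (by omega)).add (Dle.mul (mem_Pl.1 hu) h.n.ci.hP (by omega))).add
      (Dle.mul (mem_Pl.1 hv) h.n.ci.hQ (by omega))).add (Dle.mul (mem_Pl.1 hw) hR4 (by omega))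
  have h2 := Submodule.finrank_mono h1
  rw [h.finIS5] at h2
  have h3 := LinearMap.finrank_range_add_finrank_ker Φ
  rw [Module.finrank_prod, Module.finrank_prod, Module.finrank_prod] at h3
  have e1 := finrank_Pl (k := ℂ) 1
  have e2 := finrank_Pl (k := ℂ) 2
  have h4 : 3 ≤ Module.finrank ℂ (LinearMap.ker Φ) := by omega
  let π : LinearMap.ker Φ →ₗ[ℂ] Pl ℂ 1 :=
    ((LinearMap.snd ℂ _ _).comp ((LinearMap.snd ℂ _ _).comp (LinearMap.snd ℂ _ _))).comp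
      (LinearMap.ker Φ).subtype
  have inj : Function.Injective π := by
    rw [injective_iff_map_eq_zero]
    rintro ⟨⟨⟨l, hl⟩, ⟨u, hu⟩, ⟨v, hv⟩, ⟨w, hw⟩⟩, hk⟩ he
    have he' : w = 0 := congrArg Subtype.val he
    subst he'
    have hk' : l * Dv P Q + u * P + v * Q + 0 * R = 0 := hk
    rw [zero_mul, add_zero] at hk'
    obtain ⟨h1, h2, h3⟩ := h.all_zero (mem_Pl.1 hl) ((mem_Pl.1 hu).trans (by norm_num)) hk'
    subst h1 h2 h3
    rfl
  have surj : Function.Surjective π := by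
    rw [← LinearMap.range_eq_top]
    apply Submodule.eq_top_of_finrank_eq
    rw [LinearMap.finrank_range_of_inj inj]
    have h5 := LinearMap.finrank_range_of_inj inj
    have h6 := Submodule.finrank_le (LinearMap.range π)
    omega
  obtain ⟨⟨⟨⟨l, hl⟩, ⟨u, hu⟩, ⟨v, hv⟩, ⟨w', hw'⟩⟩, hk⟩, he⟩ := surj ⟨w, mem_Pl.2 hw⟩
  have he' : w' = w := congrArg Subtype.val he
  subst he'
  have hk' : l * Dv P Q + u * P + v * Q + w' * R = 0 := hk
  refine ⟨v, -u, l, mem_Pl.1 hv, (Dle.neg (mem_Pl.1 hu)), mem_Pl.1 hl, ?_⟩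
  linear_combination hk'

end ND

end Run7.h256
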