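import Mathlib
import Pool.Agent.Run7.h256.Cen
import Pool.Agent.Run7.h256.HB

set_option autoImplicit false

namespace Run7.h256

open MvPolynomial

variable {k : Type*} [Field k]

/-- translation by `s` -/
noncomputable def tau (s : Fin 2 → k) : MvPolynomial (Fin 2) k →ₐ[k] MvPolynomial (Fin 2) k :=
  aeval (fun i => X i + C (s i))

lemma eval_tau (s v : Fin 2 → k) (F : MvPolynomial (Fin 2) k) :
    eval v (tau s F) = eval (v + s) F := by
  induction F using MvPolynomial.induction_on with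
  | C a => simp [tau]
  | add p q hp hq => rw [map_add, map_add, hp, hq, map_add]
  | mul_X p i hp =>
    rw [map_mul, map_mul, hp, map_mul, eval_X]
    congr 1
    simp [tau]

lemma eval_tau_zero (s : Fin 2 → k) (F : MvPolynomial (Fin 2) k) : eval 0 (tau s F) = eval s F := by
  rw [eval_tau, zero_add]

lemma tau_pderiv (s : Fin 2 → k) (i : Fin 2) (F : MvPolynomial (Fin 2) k) :
    pderiv i (tau s F) = tau s (pderiv i F) := by
  induction F using MvPolynomial.induction_on with
  | C a => simp [tau]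
  | add p q hp hq => rw [map_add, map_add, hp, hq, map_add, map_add]
  | mul_X p j hp =>
    have h1 : tau s (X j : MvPolynomial (Fin 2) k) = X j + C (s j) := by simp [tau]
    rw [map_mul, Derivation.leibniz, Derivation.leibniz, hp, h1]
    simp only [smul_eq_mul, map_add, map_mul, h1, pderiv_C, add_zero]
    rcases eq_or_ne j i with h | h
    · subst h; rw [pderiv_X_self]; simp
    · rw [pderiv_X_of_ne h]; simp

lemma tau_EE (s : Fin 2 → k) (h α β : MvPolynomial (Fin 2) k) :
    EE (tau s h) (tau s α) (tau s β) = tau s (EE h α β) := by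
  unfold EE; simp only [tau_pderiv, map_sub, map_mul]

lemma tau_two (s : Fin 2 → k) : tau s (2 : MvPolynomial (Fin 2) k) = 2 := map_ofNat (tau s) 2

lemma tau_UU (s : Fin 2 → k) (h α β L ψ1 ψ2 : MvPolynomial (Fin 2) k) :
    UU (tau s h) (tau s α) (tau s β) (tau s L) (tau s ψ1) (tau s ψ2) = tau s (UU h α β L ψ1 ψ2) := by
  unfold UU; simp only [tau_pderiv, map_sub, map_mul, map_add, tau_two]

lemma KC_of_tau {P Q : MvPolynomial (Fin 2) k} {s : Fin 2 → k} (h : KC (tau s P) (tau s Q) 0) :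
    KC P Q s := by
  intro g α β he
  have := h (tau s g) (tau s α) (tau s β) (by
    rw [tau_pderiv, tau_pderiv, ← map_add, ← map_mul, he, map_add, map_mul, map_mul])
  rw [tau_EE, eval_tau_zero] at this
  exact this

lemma LC_of_tau {P Q : MvPolynomial (Fin 2) k} {s : Fin 2 → k} (h : LC (tau s P) (tau s Q) 0) :
    LC P Q s := by
  intro g α β L ψ1 ψ2 he hE hg
  have := h (tau s g) (tau s α) (tau s β) (tau s L) (tau s ψ1) (tau s ψ2) (by
    rw [tau_pderiv, tau_pderiv, ← map_add, ← map_mul, he, map_add, map_mul, map_mul]) (by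
    rw [tau_EE, hE, tau_pderiv, tau_pderiv]; simp only [map_add, map_mul]) (by
    rw [eval_tau_zero]; exact hg)
  rw [tau_UU, eval_tau_zero] at this
  exact this

/-- complexification -/
noncomputable def cx (F : RP) : RR := map (algebraMap ℝ ℂ) F

/-- the complex point -/
noncomputable def cp (p : Fin 2 → ℝ) : Fin 2 → ℂ := fun i => (p i : ℂ)

lemma eval_cx (F : RP) (p : Fin 2 → ℝ) : eval (cp p) (cx F) = ((eval p F : ℝ) : ℂ) := by
  unfold cx cp
  rw [eval_map]
  have := eval₂_comp_left (algebraMap ℝ ℂ) (RingHom.id ℝ) p F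
  exact this.symm

lemma cx_pderiv (F : RP) (i : Fin 2) : pderiv i (cx F) = cx (pderiv i F) := pderiv_map

lemma cx_tau (F : RP) (p : Fin 2 → ℝ) : tau (cp p) (cx F) = cx (tau p F) := by
  induction F using MvPolynomial.induction_on with
  | C a => simp [tau, cx]
  | add a b ha hb =>
    have e : ∀ x y : RP, cx (x + y) = cx x + cx y := fun x y => by simp [cx]
    rw [e, map_add, map_add, e, ha, hb]
  | mul_X a i ha =>
    have e : ∀ x y : RP, cx (x * y) = cx x * cx y := fun x y => by simp [cx]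
    rw [e, map_mul, map_mul, e, ha]
    congr 1
    simp [tau, cx, cp]

lemma Og_cx {n : ℕ} {F : RP} (h : Og n F) : Og n (cx F) := by
  rw [Og_iff] at h ⊢
  intro d hd
  unfold cx
  rw [coeff_map, h d hd, map_zero]

lemma Dle_cx {n : ℕ} {F : RP} (h : Dle n F) : Dle n (cx F) :=
  le_trans (Finset.sup_mono (support_map_subset _ _)) h

/-- the vector field near an equilibrium `p` has periodic orbits in every punctured ball around `p` -/
def SmallAt (P Q : RP) (p : Fin 2 → ℝ) : Prop := ∀ ε : ℝ, 0 < ε → ∃ γ : ℝ → Fin 2 → ℝ, ∃ T : ℝ,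
  IsSol P Q γ ∧ 0 < T ∧ (∀ t, γ (t + T) = γ t) ∧ (∃ t, γ t ≠ p) ∧ ∀ t, ‖γ t - p‖ < ε

lemma SmallAt.tau {P Q : RP} {p : Fin 2 → ℝ} (h : SmallAt P Q p) : SmallOrbits (tau p P) (tau p Q) := by
  intro ε hε
  obtain ⟨γ, T, hs, hT, hper, ⟨t, ht⟩, hsm⟩ := h ε hε
  refine ⟨fun τ => γ τ - p, T, ?_, hT, ?_, ⟨t, ?_⟩, hsm⟩
  · intro t
    constructor
    · rw [eval_tau, sub_add_cancel]
      exact (hs t).1.sub_const (p 0)
    · rw [eval_tau, sub_add_cancel]
      exact (hs t).2.sub_const (p 1)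
  · intro t; simp only [hper]
  · intro h0; exact ht (sub_eq_zero.1 h0)

/-- consequences at a centre, in terms of the complexified field -/
theorem center_cx {P Q : RP} {p : Fin 2 → ℝ} (hP : eval p P = 0) (hQ : eval p Q = 0)
    (hJ : eval p (Jac P Q) ≠ 0) (hs : SmallAt P Q p) :
    0 < eval p (Jac P Q) ∧ eval p (pderiv 0 P + pderiv 1 Q) = 0 ∧
    KC (cx P) (cx Q) (cp p) ∧ LC (cx P) (cx Q) (cp p) := by
  have hJe : eval 0 (pderiv 0 (tau p P)) * eval 0 (pderiv 1 (tau p Q)) -
      eval 0 (pderiv 1 (tau p P)) * eval 0 (pderiv 0 (tau p Q)) = eval p (Jac P Q) := by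
    simp only [tau_pderiv, eval_tau_zero, Jac, map_sub, map_mul]
  obtain ⟨c1, c2, M, hM, hN⟩ := center_M (P := tau p P) (Q := tau p Q) (by rw [eval_tau_zero, hP])
    (by rw [eval_tau_zero, hQ]) (by rw [hJe]; exact hJ) hs.tau
  rw [hJe] at c1
  have c2' : eval p (pderiv 0 P + pderiv 1 Q) = 0 := by
    simp only [tau_pderiv, eval_tau_zero] at c2
    rw [map_add]; exact c2
  refine ⟨c1, c2', ?_⟩
  have cp0 : (0 : Fin 2 → ℂ) = cp 0 := by ext i; simp [cp]
  have hloc : Loc0 (cx (tau p P)) (cx (tau p Q)) := by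
    refine ⟨?_, ?_, ?_, ?_⟩
    · rw [cp0, eval_cx, eval_tau_zero, hP]; simp
    · rw [cp0, eval_cx, eval_tau_zero, hQ]; simp
    · simp only [cx_pderiv]
      rw [cp0, eval_cx, eval_cx, eval_cx, eval_cx, ← Complex.ofReal_mul, ← Complex.ofReal_mul,
        ← Complex.ofReal_sub, hJe]
      exact_mod_cast hJ
    · simp only [cx_pderiv]
      rw [cp0, eval_cx, eval_cx, ← Complex.ofReal_add, c2]; simp
  have hMc : eval 0 (cx M) ≠ 0 := by
    rw [cp0, eval_cx]; exact_mod_cast hM
  have hNc : Og 5 (cx (tau p P) * pderiv 0 (cx M) + cx (tau p Q) * pderiv 1 (cx M) +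
      cx M * (pderiv 0 (cx (tau p P)) + pderiv 1 (cx (tau p Q)))) := by
    have := Og_cx hN
    simpa [cx, pderiv_map] using this
  constructor
  · apply KC_of_tau
    rw [cx_tau, cx_tau]
    exact hloc.KC0 hMc (hNc.mono (by norm_num))
  · apply LC_of_tau
    rw [cx_tau, cx_tau]
    exact hloc.LC0 hMc hNc

end Run7.h256
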