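import Mathlib
import Pool.Agent.Run7.h256.Trans

set_option autoImplicit false

namespace Run7.h256

open MvPolynomial Topology Metric

/-- `O` is a periodic orbit (the image of a nonconstant periodic solution) -/
def IsPeriodicOrbit (P Q : MvPolynomial (Fin 2) ℝ) (O : Set (Fin 2 → ℝ)) : Prop :=
  ∃ γ : ℝ → Fin 2 → ℝ, ∃ T : ℝ, IsSol P Q γ ∧ 0 < T ∧ (∀ t, γ (t + T) = γ t) ∧ (∃ t, γ t ≠ γ 0) ∧
    O = Set.range γ

/-- `O` surrounds `p`: the point `p` is not on `O` and lies in a bounded component of the complement -/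
def Surrounds (O : Set (Fin 2 → ℝ)) (p : Fin 2 → ℝ) : Prop :=
  p ∉ O ∧ Bornology.IsBounded (connectedComponentIn Oᶜ p)

/-- `p` is a centre: an equilibrium with a punctured neighbourhood entirely filled by periodic orbits
surrounding `p` -/
def IsCenter (P Q : MvPolynomial (Fin 2) ℝ) (p : Fin 2 → ℝ) : Prop :=
  eval p P = 0 ∧ eval p Q = 0 ∧ ∃ U ∈ 𝓝 p, ∀ q ∈ U, q ≠ p →
    ∃ O : Set (Fin 2 → ℝ), IsPeriodicOrbit P Q O ∧ q ∈ O ∧ Surrounds O p

lemma IsSol.hasDerivAt {P Q : RP} {γ : ℝ → Fin 2 → ℝ} (h : IsSol P Q γ) (t : ℝ) :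
    HasDerivAt γ (![eval (γ t) P, eval (γ t) Q]) t := by
  rw [hasDerivAt_pi]
  intro i
  fin_cases i
  · simpa using (h t).1
  · simpa using (h t).2

lemma IsSol.continuous {P Q : RP} {γ : ℝ → Fin 2 → ℝ} (h : IsSol P Q γ) : Continuous γ :=
  continuous_iff_continuousAt.2 (fun t => (h.hasDerivAt t).continuousAt)

lemma contDiff_eval (F : RP) : ContDiff ℝ 1 (fun x : Fin 2 → ℝ => eval x F) := by
  induction F using MvPolynomial.induction_on with
  | C a => simpa using contDiff_const
  | add p q hp hq => simpa using hp.add hq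
  | mul_X p i hp => simpa using hp.mul (contDiff_apply ℝ ℝ i)

lemma periodic_range_compact {P Q : RP} {γ : ℝ → Fin 2 → ℝ} {T : ℝ} (h : IsSol P Q γ) (hT : 0 < T)
    (hper : ∀ t, γ (t + T) = γ t) : IsCompact (Set.range γ) := by
  have hp : Function.Periodic γ T := hper
  have : Set.range γ = γ '' Set.Icc 0 T := by
    apply Set.Subset.antisymm
    · rintro _ ⟨t, rfl⟩
      obtain ⟨y, hy, hy'⟩ := hp.exists_mem_Ico₀ hT t
      exact ⟨y, ⟨hy.1, hy.2.le⟩, hy'.symm⟩
    · exact Set.image_subset_range _ _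
  rw [this]
  exact isCompact_Icc.image h.continuous

lemma IsPeriodicOrbit.isCompact {P Q : RP} {O : Set (Fin 2 → ℝ)} (h : IsPeriodicOrbit P Q O) :
    IsCompact O := by
  obtain ⟨γ, T, h1, h2, h3, _, rfl⟩ := h
  exact periodic_range_compact h1 h2 h3

lemma IsPeriodicOrbit.isPreconnected {P Q : RP} {O : Set (Fin 2 → ℝ)} (h : IsPeriodicOrbit P Q O) :
    IsPreconnected O := by
  obtain ⟨γ, T, h1, h2, h3, _, rfl⟩ := h
  exact isPreconnected_range h1.continuous

/-- two periodic orbits are equal or disjoint -/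
lemma orbit_eq_of_mem {P Q : RP} {O O' : Set (Fin 2 → ℝ)} (h : IsPeriodicOrbit P Q O)
    (h' : IsPeriodicOrbit P Q O') {x : Fin 2 → ℝ} (hx : x ∈ O) (hx' : x ∈ O') : O = O' := by
  have hc := h.isCompact
  have hc' := h'.isCompact
  obtain ⟨γ, T, h1, h2, h3, _, rfl⟩ := h
  obtain ⟨δ, T', h1', h2', h3', _, rfl⟩ := h'
  obtain ⟨a, ha⟩ := hx
  obtain ⟨b, hb⟩ := hx'
  obtain ⟨R, hR⟩ := (hc.isBounded.union hc'.isBounded).subset_closedBall (0 : Fin 2 → ℝ)
  have hcd : ContDiffOn ℝ 1 (fun x : Fin 2 → ℝ => (![eval x P, eval x Q] : Fin 2 → ℝ))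
      (closedBall (0 : Fin 2 → ℝ) R) := by
    apply ContDiff.contDiffOn
    rw [contDiff_pi]
    intro i
    fin_cases i
    · simpa using contDiff_eval P
    · simpa using contDiff_eval Q
  obtain ⟨K, hK⟩ := hcd.exists_lipschitzOnWith (by norm_num) (convex_closedBall _ _)
    (isCompact_closedBall _ _)
  have key : (fun t => γ (t + a)) = (fun t => δ (t + b)) := by
    apply ODE_solution_unique_univ (v := fun _ x => (![eval x P, eval x Q] : Fin 2 → ℝ))
      (s := fun _ => closedBall (0 : Fin 2 → ℝ) R) (K := K) (t₀ := 0) (fun _ => hK)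
    · intro t
      refine ⟨?_, hR (Or.inl ⟨_, rfl⟩)⟩
      exact (h1.hasDerivAt (t + a)).comp_add_const t a
    · intro t
      refine ⟨?_, hR (Or.inr ⟨_, rfl⟩)⟩
      exact (h1'.hasDerivAt (t + b)).comp_add_const t b
    · simp [ha, hb]
  apply Set.Subset.antisymm
  · rintro _ ⟨t, rfl⟩
    have := congrFun key (t - a)
    simp only [sub_add_cancel] at this
    rw [this]; exact ⟨_, rfl⟩
  · rintro _ ⟨t, rfl⟩
    have := congrFun key (t - b)
    simp only [sub_add_cancel] at this
    rw [← this]; exact ⟨_, rfl⟩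

/-- closure of a component -/
lemma closure_component {O : Set (Fin 2 → ℝ)} {p : Fin 2 → ℝ} (hp : p ∉ O) :
    closure (connectedComponentIn Oᶜ p) ⊆ connectedComponentIn Oᶜ p ∪ O := by
  intro z hz
  by_cases hzO : z ∈ O
  · exact Or.inr hzO
  · left
    have h1 : IsPreconnected (connectedComponentIn Oᶜ p ∪ {z}) := by
      apply isPreconnected_connectedComponentIn.subset_closure Set.subset_union_left
      apply Set.union_subset subset_closure
      rintro _ rfl; exact hz
    have h2 : connectedComponentIn Oᶜ p ∪ {z} ⊆ connectedComponentIn Oᶜ p := by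
      apply h1.subset_connectedComponentIn
      · exact Or.inl (mem_connectedComponentIn hp)
      · apply Set.union_subset (connectedComponentIn_subset _ _)
        rintro _ rfl; exact hzO
    exact h2 (Or.inr rfl)

/-- nested components -/
lemma nested {O O' : Set (Fin 2 → ℝ)} {p : Fin 2 → ℝ} (hO : IsCompact O) (hO' : IsCompact O')
    (hc' : IsPreconnected O') (hp : p ∉ O) (hp' : p ∉ O')
    (hb : Bornology.IsBounded (connectedComponentIn Oᶜ p))
    (hb' : Bornology.IsBounded (connectedComponentIn O'ᶜ p)) (hdis : Disjoint O O')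
    (hsub : O ⊆ connectedComponentIn O'ᶜ p) :
    closure (connectedComponentIn Oᶜ p) ⊆ connectedComponentIn O'ᶜ p := by
  have hopen : IsOpen (connectedComponentIn Oᶜ p) := hO.isClosed.isOpen_compl.connectedComponentIn
  have hopen' : IsOpen (connectedComponentIn O'ᶜ p) := hO'.isClosed.isOpen_compl.connectedComponentIn
  have hemp : ∀ y ∈ connectedComponentIn Oᶜ p, y ∉ O' := by
    intro y hy hyO'
    have h1 : O' ⊆ connectedComponentIn Oᶜ p := by
      rw [connectedComponentIn_eq hy]
      exact hc'.subset_connectedComponentIn hyO' (fun x hx hxO => hdis.le_bot ⟨hxO, hx⟩)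
    set W := connectedComponentIn Oᶜ p ∪ connectedComponentIn O'ᶜ p with hW
    have hWo : IsOpen W := hopen.union hopen'
    have hWc : IsClosed W := by
      rw [← closure_subset_iff_isClosed, hW, closure_union]
      apply Set.union_subset
      · refine (closure_component hp).trans ?_
        exact Set.union_subset Set.subset_union_left (hsub.trans Set.subset_union_right)
      · refine (closure_component hp').trans ?_
        exact Set.union_subset Set.subset_union_right (h1.trans Set.subset_union_left)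
    have hWu : W = Set.univ := IsClopen.eq_univ ⟨hWc, hWo⟩ ⟨y, Or.inl hy⟩
    have hbd : Bornology.IsBounded W := hb.union hb'
    rw [hWu] at hbd
    exact NoncompactSpace.noncompact_univ (X := Fin 2 → ℝ) ((isCompact_iff_isClosed_bounded).2 ⟨isClosed_univ, hbd⟩)
  have h2 : connectedComponentIn Oᶜ p ⊆ connectedComponentIn O'ᶜ p :=
    isPreconnected_connectedComponentIn.subset_connectedComponentIn (mem_connectedComponentIn hp) hemp
  exact (closure_component hp).trans (Set.union_subset h2 hsub)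

/-- a centre has arbitrarily small periodic orbits -/
theorem IsCenter.smallAt {P Q : RP} {p : Fin 2 → ℝ} (h : IsCenter P Q p) : SmallAt P Q p := by
  obtain ⟨_, _, U, hU, hUo⟩ := h
  choose! O hO1 hO2 hO3 using hUo
  intro ε hε
  obtain ⟨R, hR, hball⟩ := Metric.nhds_basis_closedBall.mem_iff.1 hU
  set ρ := min R (ε / 2) with hρ
  have hρ0 : 0 < ρ := lt_min hR (by linarith)
  have hρR : ρ ≤ R := min_le_left _ _
  set Co : (Fin 2 → ℝ) → Set (Fin 2 → ℝ) := fun q => connectedComponentIn (O q)ᶜ p with hCo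
  have hopen : ∀ q ∈ U, q ≠ p → IsOpen (Co q) := fun q hq hqp =>
    (hO1 q hq hqp).isCompact.isClosed.isOpen_compl.connectedComponentIn
  have hmem : ∀ q ∈ U, q ≠ p → p ∈ Co q := fun q hq hqp => mem_connectedComponentIn (hO3 q hq hqp).1
  have hdisj : ∀ q ∈ U, q ≠ p → ∀ q' ∈ U, q' ≠ p → O q ≠ O q' → Disjoint (O q) (O q') := by
    intro q hq hqp q' hq' hqp' hne
    rw [Set.disjoint_left]
    intro x hx hx'
    exact hne (orbit_eq_of_mem (hO1 q hq hqp) (hO1 q' hq' hqp') hx hx')
  -- an orbit meeting a component lies in it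
  have hin : ∀ q ∈ U, q ≠ p → ∀ q' ∈ U, q' ≠ p → O q ≠ O q' → ∀ z, z ∈ O q → z ∈ Co q' →
      O q ⊆ Co q' := by
    intro q hq hqp q' hq' hqp' hne z hz hz'
    simp only [hCo]
    rw [connectedComponentIn_eq hz']
    exact (hO1 q hq hqp).isPreconnected.subset_connectedComponentIn hz
      (fun x hx hxO => (hdisj q hq hqp q' hq' hqp' hne).le_bot ⟨hx, hxO⟩)
  have hnest : ∀ q ∈ U, q ≠ p → ∀ q' ∈ U, q' ≠ p → O q ≠ O q' → O q ⊆ Co q' →
      closure (Co q) ⊆ Co q' := by
    intro q hq hqp q' hq' hqp' hne hsub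
    exact nested (hO1 q hq hqp).isCompact (hO1 q' hq' hqp').isCompact
      (hO1 q' hq' hqp').isPreconnected (hO3 q hq hqp).1 (hO3 q' hq' hqp').1 (hO3 q hq hqp).2
      (hO3 q' hq' hqp').2 (hdisj q hq hqp q' hq' hqp' hne) hsub
  -- points near p inside an open set
  have hnear : ∀ W : Set (Fin 2 → ℝ), IsOpen W → p ∈ W → ∃ q ∈ W, q ∈ U ∧ q ≠ p ∧ q ∈ closedBall p R := by
    intro W hW hpW
    obtain ⟨r, hr, hrW⟩ := Metric.isOpen_iff.1 hW p hpW
    obtain ⟨q, hq⟩ := (NormedSpace.sphere_nonempty (x := p) (r := min (r / 2) R)).2 (by positivity)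
    rw [mem_sphere] at hq
    have h1 : q ∈ closedBall p R := by rw [mem_closedBall, hq]; exact min_le_right _ _
    refine ⟨q, hrW ?_, hball h1, ?_, h1⟩
    · rw [mem_ball, hq]
      exact lt_of_le_of_lt (min_le_left _ _) (by linarith)
    · rintro rfl
      rw [dist_self] at hq
      have : 0 < min (r / 2) R := lt_min (by linarith) hR
      linarith
  have claim : ∃ q, q ∈ closedBall p R ∧ q ≠ p ∧ Co q ∩ sphere p ρ = ∅ := by
    by_contra hcon
    push Not at hcon
    obtain ⟨q0, hq0⟩ := (NormedSpace.sphere_nonempty (x := p) (r := ρ)).2 hρ0.le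
    have hq0p : q0 ≠ p := by
      rintro rfl
      rw [mem_sphere, dist_self] at hq0
      linarith
    have hq0R : q0 ∈ closedBall p R := by
      rw [mem_closedBall, mem_sphere.1 hq0]; exact hρR
    have : Nonempty {q // q ∈ closedBall p R ∧ q ≠ p} := ⟨⟨q0, hq0R, hq0p⟩⟩
    have hne := IsCompact.nonempty_iInter_of_directed_nonempty_isCompact_isClosed
      (fun q : {q // q ∈ closedBall p R ∧ q ≠ p} => closure (Co q.1) ∩ sphere p ρ) (by
        rintro ⟨q, hqR, hqp⟩ ⟨q', hqR', hqp'⟩
        have hq := hball hqR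
        have hq' := hball hqR'
        have htot : closure (Co q) ⊆ closure (Co q') ∨ closure (Co q') ⊆ closure (Co q) := by
          by_cases he : O q = O q'
          · left; simp only [hCo, he]; exact subset_rfl
          · by_cases hz : ∃ z, z ∈ O q ∧ z ∈ Co q'
            · obtain ⟨z, hz1, hz2⟩ := hz
              left
              exact (hnest q hq hqp q' hq' hqp' he
                (hin q hq hqp q' hq' hqp' he z hz1 hz2)).trans subset_closure
            · right
              push Not at hz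
              apply closure_mono
              exact isPreconnected_connectedComponentIn.subset_connectedComponentIn
                (hmem q' hq' hqp') (fun x hx hxO => hz x hxO hx)
        rcases htot with h1 | h1
        · exact ⟨⟨q, hqR, hqp⟩, subset_rfl, Set.inter_subset_inter_left _ h1⟩
        · exact ⟨⟨q', hqR', hqp'⟩, Set.inter_subset_inter_left _ h1, subset_rfl⟩) (by
        rintro ⟨q, hqR, hqp⟩
        obtain ⟨z, hz⟩ := hcon q hqR hqp
        exact ⟨z, subset_closure hz.1, hz.2⟩) (by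
        rintro ⟨q, hqR, hqp⟩
        exact (isCompact_sphere p ρ).inter_left isClosed_closure) (by
        rintro ⟨q, hqR, hqp⟩
        exact isClosed_closure.inter isClosed_sphere)
    obtain ⟨y, hy⟩ := hne
    rw [Set.mem_iInter] at hy
    have hys : y ∈ sphere p ρ := (hy ⟨q0, hq0R, hq0p⟩).2
    have hyp : y ≠ p := by
      rintro rfl
      rw [mem_sphere, dist_self] at hys
      linarith
    have hyR : y ∈ closedBall p R := by
      rw [mem_closedBall, mem_sphere.1 hys]; exact hρR
    have hyU := hball hyR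
    obtain ⟨q, hqC, hqU, hqp, hqR⟩ := hnear (Co y) (hopen y hyU hyp) (hmem y hyU hyp)
    have hne : O q ≠ O y := by
      intro he
      have h1 : q ∈ (O y)ᶜ := connectedComponentIn_subset _ _ hqC
      exact h1 (he ▸ hO2 q hqU hqp)
    have h2 := hnest q hqU hqp y hyU hyp hne (hin q hqU hqp y hyU hyp hne q (hO2 q hqU hqp) hqC)
    have h3 : y ∈ Co y := h2 (hy ⟨q, hqR, hqp⟩).1
    exact connectedComponentIn_subset _ _ h3 (hO2 y hyU hyp)
  obtain ⟨q, hqR, hqp, hqs⟩ := claim
  have hqU := hball hqR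
  have hsub : Co q ⊆ ball p ρ := by
    apply IsPreconnected.subset_left_of_subset_union isOpen_ball isClosed_closedBall.isOpen_compl
      (v := (closedBall p ρ)ᶜ) _ _ ⟨p, hmem q hqU hqp, mem_ball_self hρ0⟩
      isPreconnected_connectedComponentIn
    · rw [Set.disjoint_left]
      intro x hx hx'
      exact hx' (ball_subset_closedBall hx)
    · intro x hx
      by_cases hx1 : x ∈ closedBall p ρ
      · left
        rw [mem_ball]
        rw [mem_closedBall] at hx1
        refine lt_of_le_of_ne hx1 ?_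
        intro he
        have : x ∈ Co q ∩ sphere p ρ := ⟨hx, mem_sphere.2 he⟩
        rw [hqs] at this
        exact this
      · right; exact hx1
  obtain ⟨q', hq'C, hq'U, hq'p, _⟩ := hnear (Co q) (hopen q hqU hqp) (hmem q hqU hqp)
  have hne : O q' ≠ O q := by
    intro he
    have h1 : q' ∈ (O q)ᶜ := connectedComponentIn_subset _ _ hq'C
    exact h1 (he ▸ hO2 q' hq'U hq'p)
  have h2 := hin q' hq'U hq'p q hqU hqp hne q' (hO2 q' hq'U hq'p) hq'C
  obtain ⟨γ, T, g1, g2, g3, g4, g5⟩ := hO1 q' hq'U hq'p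
  refine ⟨γ, T, g1, g2, g3, ⟨0, ?_⟩, ?_⟩
  · intro h0
    apply (hO3 q' hq'U hq'p).1
    rw [g5]; exact ⟨0, h0⟩
  · intro t
    have h3 : γ t ∈ ball p ρ := hsub (h2 (by rw [g5]; exact ⟨t, rfl⟩))
    rw [mem_ball, dist_eq_norm] at h3
    refine lt_of_lt_of_le h3 ?_
    exact (min_le_right _ _).trans (by linarith)

end Run7.h256
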