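import Mathlib
import Pool.Agent.Run7.h256.Top

set_option autoImplicit false

namespace Run7.h256

open MvPolynomial Topology Metric

/-- arbitrarily small periodic orbits which meet all unbounded connected sets containing the point -/
def SurrAt (P Q : RP) (p : Fin 2 → ℝ) : Prop := ∀ ε : ℝ, 0 < ε → ∃ γ : ℝ → Fin 2 → ℝ, ∃ T : ℝ,
  IsSol P Q γ ∧ 0 < T ∧ (∀ t, γ (t + T) = γ t) ∧ (∀ t, γ t ≠ p) ∧ (∀ t, ‖γ t - p‖ < ε) ∧ (∃ t, γ t ≠ γ 0) ∧
  ∀ Cs : Set (Fin 2 → ℝ), IsPreconnected Cs → p ∈ Cs → ¬ Bornology.IsBounded Cs → ∃ t, γ t ∈ Cs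

lemma SurrAt.small {P Q : RP} {p : Fin 2 → ℝ} (h : SurrAt P Q p) : SmallAt P Q p := by
  intro ε hε
  obtain ⟨γ, T, h1, h2, h3, h4, h5, _, _⟩ := h ε hε
  exact ⟨γ, T, h1, h2, h3, ⟨0, h4 0⟩, h5⟩

/-- a solution which is not constant does not meet equilibria -/
lemma IsSol.ne_eq {P Q : RP} {γ : ℝ → Fin 2 → ℝ} (h : IsSol P Q γ) {T : ℝ} (hT : 0 < T)
    (hper : ∀ t, γ (t + T) = γ t) (hnc : ∃ t, γ t ≠ γ 0) {q : Fin 2 → ℝ} (hP : eval q P = 0)
    (hQ : eval q Q = 0) (t : ℝ) : γ t ≠ q := by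
  intro hq
  have hc := periodic_range_compact h hT hper
  obtain ⟨R, hR⟩ := hc.isBounded.subset_closedBall (0 : Fin 2 → ℝ)
  have hcd : ContDiffOn ℝ 1 (fun x : Fin 2 → ℝ => (![eval x P, eval x Q] : Fin 2 → ℝ))
      (closedBall (0 : Fin 2 → ℝ) R) := by
    apply ContDiff.contDiffOn
    rw [contDiff_pi]
    intro i
    fin_cases i
    · simpa using contDiff_eval P
    · simpa using contDiff_eval Q
  obtain ⟨K, hK⟩ := hcd.exists_lipschitzOnWith (by norm_num) (convex_closedBall _ _)
    (isCompact_closedBall _ _)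
  have key : (fun τ => γ (τ + t)) = (fun _ => q) := by
    apply ODE_solution_unique_univ (v := fun _ x => (![eval x P, eval x Q] : Fin 2 → ℝ))
      (s := fun _ => closedBall (0 : Fin 2 → ℝ) R) (K := K) (t₀ := 0) (fun _ => hK)
    · intro τ
      refine ⟨?_, hR ⟨_, rfl⟩⟩
      exact (h.hasDerivAt (τ + t)).comp_add_const τ t
    · intro τ
      refine ⟨?_, hR ⟨t, hq⟩⟩
      have : (![eval q P, eval q Q] : Fin 2 → ℝ) = 0 := by
        rw [hP, hQ]; ext i; fin_cases i <;> rfl
      rw [this]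
      exact hasDerivAt_const τ q
    · simp [hq]
  obtain ⟨t1, ht1⟩ := hnc
  apply ht1
  have a1 := congrFun key (t1 - t)
  have a2 := congrFun key (0 - t)
  simp only [sub_add_cancel] at a1 a2
  rw [a1, a2]

/-- a centre has arbitrarily small periodic orbits surrounding it -/
theorem IsCenter.surrAt {P Q : RP} {p : Fin 2 → ℝ} (h : IsCenter P Q p) : SurrAt P Q p := by
  obtain ⟨_, _, U, hU, hUo⟩ := h
  choose! O hO1 hO2 hO3 using hUo
  intro ε hε
  obtain ⟨R, hR, hball⟩ := Metric.nhds_basis_closedBall.mem_iff.1 hU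
  set ρ := min R (ε / 2) with hρ
  have hρ0 : 0 < ρ := lt_min hR (by linarith)
  have hρR : ρ ≤ R := min_le_left _ _
  set Co : (Fin 2 → ℝ) → Set (Fin 2 → ℝ) := fun q => connectedComponentIn (O q)ᶜ p with hCo
  have hopen : ∀ q ∈ U, q ≠ p → IsOpen (Co q) := fun q hq hqp =>
    (hO1 q hq hqp).isCompact.isClosed.isOpen_compl.connectedComponentIn
  have hmem : ∀ q ∈ U, q ≠ p → p ∈ Co q := fun q hq hqp => mem_connectedComponentIn (hO3 q hq hqp).1
  have hdisj : ∀ q ∈ U, q ≠ p → ∀ q' ∈ U, q' ≠ p → O q ≠ O q' → Disjoint (O q) (O q') := by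
    intro q hq hqp q' hq' hqp' hne
    rw [Set.disjoint_left]
    intro x hx hx'
    exact hne (orbit_eq_of_mem (hO1 q hq hqp) (hO1 q' hq' hqp') hx hx')
  -- an orbit meeting a component lies in it
  have hin : ∀ q ∈ U, q ≠ p → ∀ q' ∈ U, q' ≠ p → O q ≠ O q' → ∀ z, z ∈ O q → z ∈ Co q' →
      O q ⊆ Co q' := by
    intro q hq hqp q' hq' hqp' hne z hz hz'
    simp only [hCo]
    rw [connectedComponentIn_eq hz']
    exact (hO1 q hq hqp).isPreconnected.subset_connectedComponentIn hz
      (fun x hx hxO => (hdisj q hq hqp q' hq' hqp' hne).le_bot ⟨hx, hxO⟩)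
  have hnest : ∀ q ∈ U, q ≠ p → ∀ q' ∈ U, q' ≠ p → O q ≠ O q' → O q ⊆ Co q' →
      closure (Co q) ⊆ Co q' := by
    intro q hq hqp q' hq' hqp' hne hsub
    exact nested (hO1 q hq hqp).isCompact (hO1 q' hq' hqp').isCompact
      (hO1 q' hq' hqp').isPreconnected (hO3 q hq hqp).1 (hO3 q' hq' hqp').1 (hO3 q hq hqp).2
      (hO3 q' hq' hqp').2 (hdisj q hq hqp q' hq' hqp' hne) hsub
  -- points near p inside an open set
  have hnear : ∀ W : Set (Fin 2 → ℝ), IsOpen W → p ∈ W → ∃ q ∈ W, q ∈ U ∧ q ≠ p ∧ q ∈ closedBall p R := by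
    intro W hW hpW
    obtain ⟨r, hr, hrW⟩ := Metric.isOpen_iff.1 hW p hpW
    obtain ⟨q, hq⟩ := (NormedSpace.sphere_nonempty (x := p) (r := min (r / 2) R)).2 (by positivity)
    rw [mem_sphere] at hq
    have h1 : q ∈ closedBall p R := by rw [mem_closedBall, hq]; exact min_le_right _ _
    refine ⟨q, hrW ?_, hball h1, ?_, h1⟩
    · rw [mem_ball, hq]
      exact lt_of_le_of_lt (min_le_left _ _) (by linarith)
    · rintro rfl
      rw [dist_self] at hq
      have : 0 < min (r / 2) R := lt_min (by linarith) hR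
      linarith
  have claim : ∃ q, q ∈ closedBall p R ∧ q ≠ p ∧ Co q ∩ sphere p ρ = ∅ := by
    by_contra hcon
    push Not at hcon
    obtain ⟨q0, hq0⟩ := (NormedSpace.sphere_nonempty (x := p) (r := ρ)).2 hρ0.le
    have hq0p : q0 ≠ p := by
      rintro rfl
      rw [mem_sphere, dist_self] at hq0
      linarith
    have hq0R : q0 ∈ closedBall p R := by
      rw [mem_closedBall, mem_sphere.1 hq0]; exact hρR
    have : Nonempty {q // q ∈ closedBall p R ∧ q ≠ p} := ⟨⟨q0, hq0R, hq0p⟩⟩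
    have hne := IsCompact.nonempty_iInter_of_directed_nonempty_isCompact_isClosed
      (fun q : {q // q ∈ closedBall p R ∧ q ≠ p} => closure (Co q.1) ∩ sphere p ρ) (by
        rintro ⟨q, hqR, hqp⟩ ⟨q', hqR', hqp'⟩
        have hq := hball hqR
        have hq' := hball hqR'
        have htot : closure (Co q) ⊆ closure (Co q') ∨ closure (Co q') ⊆ closure (Co q) := by
          by_cases he : O q = O q'
          · left; simp only [hCo, he]; exact subset_rfl
          · by_cases hz : ∃ z, z ∈ O q ∧ z ∈ Co q'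
            · obtain ⟨z, hz1, hz2⟩ := hz
              left
              exact (hnest q hq hqp q' hq' hqp' he
                (hin q hq hqp q' hq' hqp' he z hz1 hz2)).trans subset_closure
            · right
              push Not at hz
              apply closure_mono
              exact isPreconnected_connectedComponentIn.subset_connectedComponentIn
                (hmem q' hq' hqp') (fun x hx hxO => hz x hxO hx)
        rcases htot with h1 | h1
        · exact ⟨⟨q, hqR, hqp⟩, subset_rfl, Set.inter_subset_inter_left _ h1⟩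
        · exact ⟨⟨q', hqR', hqp'⟩, Set.inter_subset_inter_left _ h1, subset_rfl⟩) (by
        rintro ⟨q, hqR, hqp⟩
        obtain ⟨z, hz⟩ := hcon q hqR hqp
        exact ⟨z, subset_closure hz.1, hz.2⟩) (by
        rintro ⟨q, hqR, hqp⟩
        exact (isCompact_sphere p ρ).inter_left isClosed_closure) (by
        rintro ⟨q, hqR, hqp⟩
        exact isClosed_closure.inter isClosed_sphere)
    obtain ⟨y, hy⟩ := hne
    rw [Set.mem_iInter] at hy
    have hys : y ∈ sphere p ρ := (hy ⟨q0, hq0R, hq0p⟩).2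
    have hyp : y ≠ p := by
      rintro rfl
      rw [mem_sphere, dist_self] at hys
      linarith
    have hyR : y ∈ closedBall p R := by
      rw [mem_closedBall, mem_sphere.1 hys]; exact hρR
    have hyU := hball hyR
    obtain ⟨q, hqC, hqU, hqp, hqR⟩ := hnear (Co y) (hopen y hyU hyp) (hmem y hyU hyp)
    have hne : O q ≠ O y := by
      intro he
      have h1 : q ∈ (O y)ᶜ := connectedComponentIn_subset _ _ hqC
      exact h1 (he ▸ hO2 q hqU hqp)
    have h2 := hnest q hqU hqp y hyU hyp hne (hin q hqU hqp y hyU hyp hne q (hO2 q hqU hqp) hqC)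
    have h3 : y ∈ Co y := h2 (hy ⟨q, hqR, hqp⟩).1
    exact connectedComponentIn_subset _ _ h3 (hO2 y hyU hyp)
  obtain ⟨q, hqR, hqp, hqs⟩ := claim
  have hqU := hball hqR
  have hsub : Co q ⊆ ball p ρ := by
    apply IsPreconnected.subset_left_of_subset_union isOpen_ball isClosed_closedBall.isOpen_compl
      (v := (closedBall p ρ)ᶜ) _ _ ⟨p, hmem q hqU hqp, mem_ball_self hρ0⟩
      isPreconnected_connectedComponentIn
    · rw [Set.disjoint_left]
      intro x hx hx'
      exact hx' (ball_subset_closedBall hx)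
    · intro x hx
      by_cases hx1 : x ∈ closedBall p ρ
      · left
        rw [mem_ball]
        rw [mem_closedBall] at hx1
        refine lt_of_le_of_ne hx1 ?_
        intro he
        have : x ∈ Co q ∩ sphere p ρ := ⟨hx, mem_sphere.2 he⟩
        rw [hqs] at this
        exact this
      · right; exact hx1
  obtain ⟨q', hq'C, hq'U, hq'p, _⟩ := hnear (Co q) (hopen q hqU hqp) (hmem q hqU hqp)
  have hne : O q' ≠ O q := by
    intro he
    have h1 : q' ∈ (O q)ᶜ := connectedComponentIn_subset _ _ hq'C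
    exact h1 (he ▸ hO2 q' hq'U hq'p)
  have h2 := hin q' hq'U hq'p q hqU hqp hne q' (hO2 q' hq'U hq'p) hq'C
  obtain ⟨γ, T, g1, g2, g3, g4, g5⟩ := hO1 q' hq'U hq'p
  have h4 := hO3 q' hq'U hq'p
  refine ⟨γ, T, g1, g2, g3, ?_, ?_, g4, ?_⟩
  · intro t h0
    apply h4.1
    rw [g5]; exact ⟨t, h0⟩
  · intro t
    have h3 : γ t ∈ ball p ρ := hsub (h2 (by rw [g5]; exact ⟨t, rfl⟩))
    rw [mem_ball, dist_eq_norm] at h3
    refine lt_of_lt_of_le h3 ?_
    exact (min_le_right _ _).trans (by linarith)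
  · intro Cs hC hpC hnb
    by_contra hcon
    push Not at hcon
    apply hnb
    apply h4.2.subset
    apply hC.subset_connectedComponentIn hpC
    intro x hx hxO
    rw [g5] at hxO
    obtain ⟨t, rfl⟩ := hxO
    exact hcon t hx

end Run7.h256
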