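import Mathlib

set_option autoImplicit false

namespace Run7.h256

open MvPolynomial Topology Metric

/-! ### calculus on periodic orbits -/

/-- a function positive to the right -/
lemma pos_right {f : ℝ → ℝ} {f' t : ℝ} (h : HasDerivAt f f' t) (h0 : f t = 0) (hp : 0 < f') :
    ∀ᶠ s in 𝓝[>] t, 0 < f s := by
  have h1 := h.hasDerivWithinAt (s := Set.Ioi t)
  rw [hasDerivWithinAt_iff_tendsto_slope' (by simp)] at h1
  have h2 := h1.eventually (lt_mem_nhds hp)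
  filter_upwards [h2, self_mem_nhdsWithin] with s hs hst
  rw [slope_def_field, h0, sub_zero] at hs
  have h3 : 0 < s - t := sub_pos.2 hst
  exact (div_pos_iff_of_pos_right h3).1 hs

lemma nonneg_right {f : ℝ → ℝ} {f' t : ℝ} (h : HasDerivAt f f' t) (h0 : 0 ≤ f t) (hp : f t = 0 → 0 < f') :
    ∀ᶠ s in 𝓝[>] t, 0 ≤ f s := by
  rcases h0.lt_or_eq with h1 | h1
  · have h2 : ∀ᶠ s in 𝓝 t, 0 < f s := h.continuousAt.eventually (lt_mem_nhds h1)
    exact (h2.filter_mono nhdsWithin_le_nhds).mono (fun _ hs => hs.le)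
  · exact (pos_right h h1.symm (hp h1.symm)).mono (fun _ hs => hs.le)

/-- the trap -/
lemma trap {x u v x' u' v' : ℝ → ℝ} (hx : ∀ t, HasDerivAt x (x' t) t) (hu : ∀ t, HasDerivAt u (u' t) t)
    (hv : ∀ t, HasDerivAt v (v' t) t) {T : ℝ} (hT : 0 < T) (hper : ∀ t, x (t + T) = x t) {t0 : ℝ}
    (h0 : 0 ≤ x t0 ∧ 0 ≤ u t0 ∧ 0 ≤ v t0)
    (H1 : ∀ t, 0 ≤ x t → 0 ≤ u t → 0 ≤ v t → 0 < x t ∧ x' t ≠ 0)
    (H2 : ∀ t, 0 < x t → u t = 0 → 0 ≤ v t → 0 < u' t)
    (H3 : ∀ t, 0 < x t → v t = 0 → 0 ≤ u t → 0 < v' t) : False := by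
  have hxc : Continuous x := continuous_iff_continuousAt.2 (fun t => (hx t).continuousAt)
  have huc : Continuous u := continuous_iff_continuousAt.2 (fun t => (hu t).continuousAt)
  have hvc : Continuous v := continuous_iff_continuousAt.2 (fun t => (hv t).continuousAt)
  have hsub : Set.Icc t0 (t0 + T) ⊆ {t | 0 ≤ x t ∧ 0 ≤ u t ∧ 0 ≤ v t} := by
    apply IsClosed.Icc_subset_of_forall_exists_gt
    · have : IsClosed {t | 0 ≤ x t ∧ 0 ≤ u t ∧ 0 ≤ v t} :=
        (isClosed_le continuous_const hxc).inter ((isClosed_le continuous_const huc).inter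
          (isClosed_le continuous_const hvc))
      exact this.inter isClosed_Icc
    · exact h0
    · rintro t ⟨⟨h1, h2, h3⟩, _⟩ y hy
      obtain ⟨hxp, _⟩ := H1 t h1 h2 h3
      have e1 : ∀ᶠ s in 𝓝[>] t, 0 ≤ x s := nonneg_right (hx t) h1 (fun h => absurd h hxp.ne')
      have e2 : ∀ᶠ s in 𝓝[>] t, 0 ≤ u s := nonneg_right (hu t) h2 (fun h => H2 t hxp h h3)
      have e3 : ∀ᶠ s in 𝓝[>] t, 0 ≤ v s := nonneg_right (hv t) h3 (fun h => H3 t hxp h h2)
      have e4 : ∀ᶠ s in 𝓝[>] t, s ∈ Set.Ioc t y := Ioc_mem_nhdsGT hy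
      obtain ⟨s, hs⟩ := (e1.and (e2.and (e3.and e4))).exists
      exact ⟨s, ⟨hs.1, hs.2.1, hs.2.2.1⟩, hs.2.2.2⟩
  obtain ⟨c, hc, hc'⟩ := exists_hasDerivAt_eq_zero (f := x) (f' := x') (show t0 < t0 + T by linarith)
    hxc.continuousOn (hper t0).symm (fun t _ => hx t)
  have := hsub ⟨hc.1.le, hc.2.le⟩
  exact (H1 c this.1 this.2.1 this.2.2).2 hc'

/-- the trap, backwards in time -/
lemma trap' {x u v x' u' v' : ℝ → ℝ} (hx : ∀ t, HasDerivAt x (x' t) t) (hu : ∀ t, HasDerivAt u (u' t) t)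
    (hv : ∀ t, HasDerivAt v (v' t) t) {T : ℝ} (hT : 0 < T) (hper : ∀ t, x (t + T) = x t) {t0 : ℝ}
    (h0 : 0 ≤ x t0 ∧ 0 ≤ u t0 ∧ 0 ≤ v t0)
    (H1 : ∀ t, 0 ≤ x t → 0 ≤ u t → 0 ≤ v t → 0 < x t ∧ x' t ≠ 0)
    (H2 : ∀ t, 0 < x t → u t = 0 → 0 ≤ v t → u' t < 0)
    (H3 : ∀ t, 0 < x t → v t = 0 → 0 ≤ u t → v' t < 0) : False := by
  have hd : ∀ {f f' : ℝ → ℝ}, (∀ t, HasDerivAt f (f' t) t) → ∀ t, HasDerivAt (fun s => f (-s)) (-f' (-t)) t := by
    intro f f' hf t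
    have := (hf (-t)).comp t (hasDerivAt_neg t)
    refine this.congr_deriv ?_
    ring
  apply trap (hd hx) (hd hu) (hd hv) hT (t0 := -t0)
  · intro t
    have := hper (-(t + T))
    rw [← this]
    congr 1; ring
  · simpa using h0
  · intro t h1 h2 h3
    obtain ⟨a, b⟩ := H1 (-t) h1 h2 h3
    exact ⟨a, neg_ne_zero.2 b⟩
  · intro t h1 h2 h3
    have := H2 (-t) h1 h2 h3
    linarith
  · intro t h1 h2 h3
    have := H3 (-t) h1 h2 h3
    linarith

/-- extreme points of a periodic function -/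
lemma exists_max {f f' : ℝ → ℝ} (hf : ∀ t, HasDerivAt f (f' t) t) {T : ℝ} (hT : 0 < T)
    (hper : ∀ t, f (t + T) = f t) : ∃ t0, f' t0 = 0 ∧ ∀ t, f t ≤ f t0 := by
  have hfc : Continuous f := continuous_iff_continuousAt.2 (fun t => (hf t).continuousAt)
  obtain ⟨t0, _, h0⟩ := isCompact_Icc.exists_isMaxOn (s := Set.Icc 0 T) (Set.nonempty_Icc.2 hT.le)
    hfc.continuousOn
  have hp : Function.Periodic f T := hper
  have hmax : ∀ t, f t ≤ f t0 := by
    intro t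
    obtain ⟨y, hy, hy'⟩ := hp.exists_mem_Ico₀ hT t
    rw [hy']
    exact h0 ⟨hy.1, hy.2.le⟩
  refine ⟨t0, ?_, hmax⟩
  have hl : IsLocalMax f t0 := Filter.Eventually.of_forall hmax
  exact hl.hasDerivAt_eq_zero (hf t0)

/-- a periodic function cannot be increasing at all its zeros -/
lemma sign_lemma {f f' : ℝ → ℝ} (hf : ∀ t, HasDerivAt f (f' t) t) {T : ℝ} (hT : 0 < T)
    (hper : ∀ t, f (t + T) = f t) {t0 : ℝ} (h0 : f t0 = 0) (hpos : ∀ t, f t = 0 → 0 < f' t) : False := by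
  have hfc : Continuous f := continuous_iff_continuousAt.2 (fun t => (hf t).continuousAt)
  -- nonnegative for all later times
  have hsub : ∀ L, Set.Icc t0 L ⊆ {t | 0 ≤ f t} := by
    intro L
    rcases lt_or_ge L t0 with hL | hL
    · rw [Set.Icc_eq_empty (not_le.2 hL)]; exact Set.empty_subset _
    · apply IsClosed.Icc_subset_of_forall_exists_gt
      · have : IsClosed {t | 0 ≤ f t} := isClosed_le continuous_const hfc
        exact this.inter isClosed_Icc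
      · exact h0.ge
      · rintro t ⟨h1, _⟩ y hy
        have e2 : ∀ᶠ s in 𝓝[>] t, 0 ≤ f s := nonneg_right (hf t) h1 (fun h => hpos t h)
        have e4 : ∀ᶠ s in 𝓝[>] t, s ∈ Set.Ioc t y := Ioc_mem_nhdsGT hy
        obtain ⟨s, hs⟩ := (e2.and e4).exists
        exact ⟨s, hs.1, hs.2⟩
  have hnn : ∀ t, t0 ≤ t → 0 ≤ f t := fun t ht => hsub t ⟨ht, le_rfl⟩
  have hT0 : f (t0 + T) = 0 := by rw [hper, h0]
  -- local minimum there
  have hmin : IsLocalMin f (t0 + T) := by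
    have : ∀ᶠ s in 𝓝 (t0 + T), t0 ≤ s := by
      have : t0 < t0 + T := by linarith
      exact (lt_mem_nhds this).mono (fun _ h => h.le)
    filter_upwards [this] with s hs
    rw [hT0]
    exact hnn s hs
  have := hpos _ hT0
  rw [hmin.hasDerivAt_eq_zero (hf _)] at this
  exact lt_irrefl _ this

end Run7.h256
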