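import Mathlib
import Pool.Agent.Run7.h256.Z1
import Pool.Agent.Run7.h256.Z3

set_option autoImplicit false

namespace Run7.h256

open MvPolynomial Topology Metric

/-! ### coefficients -/

/-- exponents -/
noncomputable def fs (i j : ℕ) : Fin 2 →₀ ℕ := Finsupp.single 0 i + Finsupp.single 1 j

/-- monomials -/
noncomputable def mo (i j : ℕ) (c : ℝ) : RP := monomial (fs i j) c

/-- coefficients -/
noncomputable def cf (i j : ℕ) (F : RP) : ℝ := coeff (fs i j) F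

lemma fs_0 (i j : ℕ) : fs i j 0 = i := by simp [fs]
lemma fs_1 (i j : ℕ) : fs i j 1 = j := by simp [fs]

lemma fs_inj {i j a b : ℕ} : fs a b = fs i j ↔ a = i ∧ b = j := by
  constructor
  · intro h
    have h0 := DFunLike.congr_fun h 0
    have h1 := DFunLike.congr_fun h 1
    rw [fs_0, fs_0] at h0
    rw [fs_1, fs_1] at h1
    exact ⟨h0, h1⟩
  · rintro ⟨rfl, rfl⟩; rfl

lemma fs_eta (d : Fin 2 →₀ ℕ) : fs (d 0) (d 1) = d := by
  ext i; fin_cases i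
  · exact fs_0 _ _
  · exact fs_1 _ _

lemma cf_mo (i j a b : ℕ) (c : ℝ) : cf i j (mo a b c) = if a = i ∧ b = j then c else 0 := by
  unfold cf mo
  rw [coeff_monomial]
  simp only [fs_inj]

lemma cf_add (i j : ℕ) (F G : RP) : cf i j (F + G) = cf i j F + cf i j G := coeff_add _ _ _
lemma cf_sub (i j : ℕ) (F G : RP) : cf i j (F - G) = cf i j F - cf i j G := by
  unfold cf; exact MvPolynomial.coeff_sub (Fin 2) _ _ _
lemma cf_Cmul (i j : ℕ) (c : ℝ) (F : RP) : cf i j (C c * F) = c * cf i j F := coeff_C_mul _ _ _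

lemma eval_mo (i j : ℕ) (c : ℝ) (v : Fin 2 → ℝ) : eval v (mo i j c) = c * v 0 ^ i * v 1 ^ j := by
  unfold mo
  rw [eval_monomial, Finsupp.prod_fintype _ _ (fun _ => pow_zero _), Fin.prod_univ_two, fs_0, fs_1]
  ring

lemma eval0_cf (F : RP) : eval 0 F = cf 0 0 F := by
  rw [eval_zero]
  unfold cf
  have : fs 0 0 = 0 := by simp [fs]
  rw [this]; rfl

lemma cf_p0 (i j : ℕ) (F : RP) : cf i j (pderiv 0 F) = (i + 1) * cf (i + 1) j F := by
  unfold cf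
  rw [coeff_pderiv, fs_0]
  have : fs i j + Finsupp.single 0 1 = fs (i + 1) j := by
    ext k; fin_cases k
    · simp [fs_0, fs]
    · simp [fs_1, fs]
  rw [this]; ring

lemma cf_p1 (i j : ℕ) (F : RP) : cf i j (pderiv 1 F) = (j + 1) * cf i (j + 1) F := by
  unfold cf
  rw [coeff_pderiv, fs_1]
  have : fs i j + Finsupp.single 1 1 = fs i (j + 1) := by
    ext k; fin_cases k
    · simp [fs_0, fs]
    · simp [fs_1, fs]
  rw [this]; ring

/-- weighted order at least `n` with weights `1` and `w` -/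
def Wt (w n : ℕ) (F : RP) : Prop := ∀ i j : ℕ, i + w * j < n → cf i j F = 0

lemma Wt.Og {n : ℕ} {F : RP} (h : Wt 1 n F) : Og n F := by
  rw [Og_iff]
  intro d hd
  have := h (d 0) (d 1) (by omega)
  unfold cf at this
  rwa [fs_eta] at this

lemma Wt_bound {w n : ℕ} {F : RP} (hF : Wt w n F) (A : ℝ) (hA : 1 ≤ A) : ∃ K : ℝ, 0 ≤ K ∧
    ∀ (v : Fin 2 → ℝ) (ρ : ℝ), 0 ≤ ρ → ρ ≤ 1 → |v 0| ≤ ρ → |v 1| ≤ A * ρ ^ w → |eval v F| ≤ K * ρ ^ n := by
  refine ⟨∑ d ∈ F.support, |coeff d F| * A ^ d 1, Finset.sum_nonneg (fun _ _ => by positivity), ?_⟩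
  intro v ρ hρ0 hρ1 h0 h1
  rw [eval_eq', Finset.sum_mul]
  refine le_trans (Finset.abs_sum_le_sum_abs _ _) (Finset.sum_le_sum ?_)
  intro d hd
  rw [abs_mul, Fin.prod_univ_two, abs_mul, abs_pow, abs_pow, mul_assoc]
  apply mul_le_mul_of_nonneg_left _ (abs_nonneg _)
  have hn : n ≤ d 0 + w * d 1 := by
    by_contra hcon
    push Not at hcon
    rw [mem_support_iff] at hd
    have := hF (d 0) (d 1) hcon
    unfold cf at this
    rw [fs_eta] at this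
    exact hd this
  calc |v 0| ^ d 0 * |v 1| ^ d 1 ≤ ρ ^ d 0 * (A * ρ ^ w) ^ d 1 := by
        apply mul_le_mul (pow_le_pow_left₀ (abs_nonneg _) h0 _) (pow_le_pow_left₀ (abs_nonneg _) h1 _)
          (pow_nonneg (abs_nonneg _) _) (pow_nonneg hρ0 _)
    _ = A ^ d 1 * ρ ^ (d 0 + w * d 1) := by rw [mul_pow, ← pow_mul, pow_add]; ring
    _ ≤ A ^ d 1 * ρ ^ n := by
        apply mul_le_mul_of_nonneg_left _ (by positivity)
        exact pow_le_pow_of_le_one hρ0 hρ1 hn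

/-! ### curves met by surrounding orbits -/

lemma unb {g : ℝ → Fin 2 → ℝ} {i : Fin 2} {e : ℝ} (he : |e| = 1) (hg : ∀ x, 0 ≤ x → g x i = e * x) :
    ¬ Bornology.IsBounded (g '' Set.Ici 0) := by
  intro hb
  obtain ⟨R, hR⟩ := hb.subset_closedBall (0 : Fin 2 → ℝ)
  have h1 : g (|R| + 1) ∈ closedBall (0 : Fin 2 → ℝ) R := hR ⟨|R| + 1, by simp; positivity, rfl⟩
  rw [mem_closedBall, dist_zero_right] at h1
  have h2 := norm_le_pi_norm (g (|R| + 1)) i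
  rw [hg _ (by positivity), Real.norm_eq_abs, abs_mul, he, one_mul, abs_of_nonneg (by positivity)] at h2
  have := le_abs_self R
  linarith

/-- the sets of the form curve -/
def Meets (γ : ℝ → Fin 2 → ℝ) : Prop := ∀ Cs : Set (Fin 2 → ℝ), IsPreconnected Cs → 0 ∈ Cs →
  ¬ Bornology.IsBounded Cs → ∃ t, γ t ∈ Cs

lemma Meets.curve {γ : ℝ → Fin 2 → ℝ} (h : Meets γ) {g : ℝ → Fin 2 → ℝ} (hc : Continuous g) (h0 : g 0 = 0)
    {i : Fin 2} {e : ℝ} (he : |e| = 1) (hg : ∀ x, 0 ≤ x → g x i = e * x) : ∃ t x, 0 ≤ x ∧ γ t = g x := by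
  obtain ⟨t, x, hx, hxt⟩ := h (g '' Set.Ici 0) (isPreconnected_Ici.image _ hc.continuousOn)
    ⟨0, by simp, h0⟩ (unb he hg)
  exact ⟨t, x, hx, hxt.symm⟩

/-- small surrounding orbits at the origin -/
lemma SurrAt.at0 {P Q : RP} (h : SurrAt P Q 0) {ε : ℝ} (hε : 0 < ε) : ∃ γ : ℝ → Fin 2 → ℝ, ∃ T : ℝ,
    IsSol P Q γ ∧ 0 < T ∧ (∀ t, γ (t + T) = γ t) ∧ (∀ t, γ t ≠ 0) ∧ (∀ t, ‖γ t‖ < ε) ∧ (∃ t, γ t ≠ γ 0) ∧
    Meets γ := by
  obtain ⟨γ, T, h1, h2, h3, h4, h5, h6, h7⟩ := h ε hε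
  exact ⟨γ, T, h1, h2, h3, h4, fun t => by simpa using h5 t, h6, h7⟩

lemma ne0_iff {v : Fin 2 → ℝ} : v ≠ 0 ↔ ¬ (v 0 = 0 ∧ v 1 = 0) := by
  constructor
  · rintro h ⟨h0, h1⟩
    apply h
    ext i; fin_cases i
    · exact h0
    · exact h1
  · rintro h rfl
    exact h ⟨rfl, rfl⟩

lemma abs0_le (v : Fin 2 → ℝ) : |v 0| ≤ ‖v‖ := norm_le_pi_norm v 0
lemma abs1_le (v : Fin 2 → ℝ) : |v 1| ≤ ‖v‖ := norm_le_pi_norm v 1

/-- the second derivative at a maximum -/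
lemma second_max {f f' : ℝ → ℝ} (hf : ∀ t, HasDerivAt f (f' t) t) {t0 f'' : ℝ} (hmax : ∀ t, f t ≤ f t0)
    (h0 : f' t0 = 0) (h2 : HasDerivAt f' f'' t0) : f'' ≤ 0 := by
  by_contra hcon
  push Not at hcon
  have h1 := pos_right h2 h0 hcon
  obtain ⟨b, hb, hsub⟩ := (mem_nhdsGT_iff_exists_Ioo_subset).1 h1
  have hb' : t0 < b := hb
  obtain ⟨m, hm1, hm2⟩ := exists_between hb'
  have hfc : Continuous f := continuous_iff_continuousAt.2 (fun t => (hf t).continuousAt)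
  obtain ⟨c, hc, hc'⟩ := exists_hasDerivAt_eq_slope f f' hm1 hfc.continuousOn (fun x _ => hf x)
  have h3 : 0 < f' c := hsub ⟨hc.1, hc.2.trans hm2⟩
  rw [hc'] at h3
  have h4 : 0 < m - t0 := sub_pos.2 hm1
  have h5 := (div_pos_iff_of_pos_right h4).1 h3
  have := hmax m
  linarith

/-! ### the hyperbolic direction -/

lemma trace_ineq {x y p q r B K τ : ℝ} (hKp : 0 < K) (hBp : 0 < B) (hBK : 8 * K ≤ B * |τ|) (r0 : 0 ≤ r)
    (rB : B * r ≤ 1 / 4) (hxr : |x| ≤ r) (hyr : |y| ≤ r) (hr2 : r ^ 2 ≤ x ^ 2 + y ^ 2)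
    (c1 : |p| ≤ K * r ^ 2) (c2 : |q - τ * y| ≤ K * r ^ 2) (hder : 2 * y * q - 4 * B ^ 2 * x ^ 3 * p = 0)
    (hpos : 0 < y ^ 2 - B ^ 2 * x ^ 4) : False := by
  have hyB : B * x ^ 2 < |y| := by
    apply lt_of_pow_lt_pow_left₀ 2 (abs_nonneg y)
    rw [sq_abs]; nlinarith
  have hy0 : 0 < |y| := lt_of_le_of_lt (by positivity) hyB
  have hr3 : B * r ^ 2 ≤ 5 / 4 * |y| := by
    have h1 : B * y ^ 2 ≤ 1 / 4 * |y| := by
      rw [← sq_abs y]
      have : B * |y| ≤ 1 / 4 := le_trans (by gcongr) rB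
      nlinarith
    nlinarith
  have hxx : B * |x| ≤ 1 / 4 := le_trans (by gcongr) rB
  have h1 : 2 * τ * y ^ 2 = 4 * B ^ 2 * x ^ 3 * p - 2 * y * (q - τ * y) := by linear_combination hder
  have h2 : 2 * |τ| * y ^ 2 ≤ 4 * B ^ 2 * |x| ^ 3 * (K * r ^ 2) + 2 * |y| * (K * r ^ 2) := by
    calc 2 * |τ| * y ^ 2 = |2 * τ * y ^ 2| := by
          rw [abs_mul, abs_mul, abs_of_nonneg (sq_nonneg y), abs_of_pos (by norm_num : (0 : ℝ) < 2)]
      _ = |4 * B ^ 2 * x ^ 3 * p - 2 * y * (q - τ * y)| := by rw [h1]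
      _ ≤ |4 * B ^ 2 * x ^ 3 * p| + |2 * y * (q - τ * y)| := abs_sub _ _
      _ = 4 * B ^ 2 * |x| ^ 3 * |p| + 2 * |y| * |q - τ * y| := by
          rw [abs_mul, abs_mul, abs_mul, abs_mul, abs_mul, abs_pow, abs_pow, abs_of_pos hBp,
            abs_of_pos (by norm_num : (0 : ℝ) < 2), abs_of_pos (by norm_num : (0 : ℝ) < 4)]
      _ ≤ _ := by gcongr
  have h3 : B * (4 * B ^ 2 * |x| ^ 3 * (K * r ^ 2)) ≤ 5 / 4 * K * y ^ 2 := by
    have k1 : |x| ^ 3 = |x| * x ^ 2 := by rw [← sq_abs x]; ring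
    rw [k1]
    have k2 : B * (4 * B ^ 2 * (|x| * x ^ 2) * (K * r ^ 2)) = 4 * K * (B * |x|) * (B * x ^ 2) * (B * r ^ 2) := by ring
    rw [k2]
    calc 4 * K * (B * |x|) * (B * x ^ 2) * (B * r ^ 2) ≤ 4 * K * (1 / 4) * |y| * (5 / 4 * |y|) := by
          gcongr
      _ = 5 / 4 * K * |y| ^ 2 := by ring
      _ = _ := by rw [sq_abs]
  have h4 : B * (2 * |y| * (K * r ^ 2)) ≤ 5 / 2 * K * y ^ 2 := by
    have k2 : B * (2 * |y| * (K * r ^ 2)) = 2 * K * |y| * (B * r ^ 2) := by ring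
    rw [k2]
    calc 2 * K * |y| * (B * r ^ 2) ≤ 2 * K * |y| * (5 / 4 * |y|) := by gcongr
      _ = 5 / 2 * K * |y| ^ 2 := by ring
      _ = _ := by rw [sq_abs]
  have hy2 : 0 < y ^ 2 := by rw [← sq_abs]; positivity
  have h5 : B * (2 * |τ| * y ^ 2) ≤ 5 / 4 * K * y ^ 2 + 5 / 2 * K * y ^ 2 := by
    calc B * (2 * |τ| * y ^ 2) ≤ B * (4 * B ^ 2 * |x| ^ 3 * (K * r ^ 2) + 2 * |y| * (K * r ^ 2)) := by gcongr
      _ = B * (4 * B ^ 2 * |x| ^ 3 * (K * r ^ 2)) + B * (2 * |y| * (K * r ^ 2)) := by ring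
      _ ≤ _ := add_le_add h3 h4
  have h6 : 16 * K * y ^ 2 ≤ B * (2 * |τ| * y ^ 2) := by
    have : B * (2 * |τ| * y ^ 2) = 2 * (B * |τ|) * y ^ 2 := by ring
    rw [this]
    nlinarith
  have h7 : 0 < K * y ^ 2 := by positivity
  linarith

/-- zero determinant with nonzero trace is impossible -/
theorem no_trace {P Q : RP} (h : SurrAt P Q 0) {τ : ℝ} (hτ : τ ≠ 0) (p0 : cf 0 0 P = 0) (px : cf 1 0 P = 0)
    (py : cf 0 1 P = 0) (q0 : cf 0 0 Q = 0) (qx : cf 1 0 Q = 0) (qy : cf 0 1 Q = τ) : False := by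
  have wP : Wt 1 2 P := by
    intro i j hij
    have hi : i ≤ 1 := by omega
    have hj : j ≤ 1 := by omega
    interval_cases i <;> interval_cases j <;> first | omega | assumption
  have wQ : Wt 1 2 (Q - mo 0 1 τ) := by
    intro i j hij
    have hi : i ≤ 1 := by omega
    have hj : j ≤ 1 := by omega
    rw [cf_sub, cf_mo]
    interval_cases i <;> interval_cases j
    · simp [q0]
    · simp [qy]
    · simp [qx]
    · omega
  obtain ⟨K1, hK1, b1⟩ := Wt_bound wP 1 le_rfl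
  obtain ⟨K2, hK2, b2⟩ := Wt_bound wQ 1 le_rfl
  obtain ⟨K, hK⟩ : ∃ K, K = K1 + K2 + 1 := ⟨_, rfl⟩
  have hKp : 0 < K := by rw [hK]; positivity
  obtain ⟨B, hB⟩ : ∃ B, B = 8 * K / |τ| + 1 := ⟨_, rfl⟩
  have hτ0 : 0 < |τ| := abs_pos.2 hτ
  have hBp : 0 < B := by rw [hB]; positivity
  have hBK : 8 * K ≤ B * |τ| := by
    rw [hB, add_mul, div_mul_cancel₀ _ hτ0.ne']; linarith
  obtain ⟨γ, T, g1, g2, g3, g4, g5, g6, g7⟩ := h.at0 (ε := min 1 (1 / (4 * B))) (by positivity)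
  have e1 : ∀ t, ‖γ t‖ ≤ 1 := fun t => (g5 t).le.trans (min_le_left _ _)
  have e2 : ∀ t, B * ‖γ t‖ ≤ 1 / 4 := by
    intro t
    have := (g5 t).le.trans (min_le_right _ _)
    rw [le_div_iff₀ (by positivity)] at this
    linarith
  have hd := fun t => g1.chain (X 1 ^ 2 - C (B ^ 2) * X 0 ^ 4) t
  obtain ⟨t0, ht0, hmax⟩ := exists_max hd g2 (fun t => by rw [g3])
  obtain ⟨t1, y1, _, hy1⟩ := g7.curve (g := fun y => ![0, y]) (by fun_prop) (by ext i; fin_cases i <;> rfl)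
    (i := 1) (e := 1) (by simp) (fun x _ => by simp)
  have hpos : 0 < eval (γ t0) (X 1 ^ 2 - C (B ^ 2) * X 0 ^ 4) := by
    refine lt_of_lt_of_le ?_ (hmax t1)
    have hne := g4 t1
    rw [hy1] at hne ⊢
    simp only [map_sub, map_mul, map_pow, eval_X, eval_C, Matrix.cons_val_zero, Matrix.cons_val_one]
    have h0 : y1 ≠ 0 := by
      rintro rfl
      apply hne
      ext i; fin_cases i <;> rfl
    have e : y1 ^ 2 - B ^ 2 * 0 ^ 4 = y1 ^ 2 := by ring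
    rw [e]; positivity
  obtain ⟨v, hv⟩ : ∃ v, v = γ t0 := ⟨_, rfl⟩
  have r1 := e1 t0
  have rB := e2 t0
  rw [← hv] at ht0 hpos r1 rB
  have c1 := b1 v ‖v‖ (norm_nonneg _) r1 (abs0_le v) (by simpa using abs1_le v)
  have c2 := b2 v ‖v‖ (norm_nonneg _) r1 (abs0_le v) (by simpa using abs1_le v)
  rw [map_sub, eval_mo] at c2
  simp only [pow_zero, mul_one, pow_one] at c2
  have hn2 := sq_nonneg ‖v‖
  refine trace_ineq hKp hBp hBK (norm_nonneg v) rB (abs0_le v) (abs1_le v) (norm_sq_le v)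
    (c1.trans (by rw [hK]; nlinarith)) (c2.trans (by rw [hK]; nlinarith)) ?_ ?_
  · rw [← ht0]
    have e2' : eval v (2 : RP) = 2 := by rw [show (2 : RP) = C 2 from (map_ofNat C 2).symm, eval_C]
    have e4' : eval v (4 : RP) = 4 := by rw [show (4 : RP) = C 4 from (map_ofNat C 4).symm, eval_C]
    simp only [XF, map_sub, map_add, map_mul, Derivation.leibniz, Derivation.leibniz_pow, smul_eq_mul, pderiv_C,
      p00, p10, p01, p11, map_pow, eval_X, eval_C, nsmul_eq_mul, Nat.cast_ofNat, map_zero, map_one, e2', e4']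
    ring
  · simpa only [map_sub, map_mul, map_pow, eval_X, eval_C] using hpos

end Run7.h256
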