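import Mathlib
import Pool.Agent.Run7.h256.F1
import Pool.Agent.Run7.h256.Z4

set_option autoImplicit false

namespace Run7.h256

open MvPolynomial Topology Metric

lemma BO.mono {V : Type*} {ρ : V → ℝ} {n m : ℕ} {f : V → ℝ} (hf : BO ρ m f) (h : n ≤ m) : BO ρ n f := by
  obtain ⟨K, hK, h1⟩ := hf
  refine ⟨K, hK, ?_⟩
  intro v h0 h1'
  refine (h1 v h0 h1').trans ?_
  exact mul_le_mul_of_nonneg_left (pow_le_pow_of_le_one h0.le h1' h) hK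

/-- the second coordinate -/
def Yf (p20 : ℝ) (v : Fin 2 → ℝ) : ℝ := v 1 + p20 * v 0 ^ 2

/-- the size -/
noncomputable def rf (p20 : ℝ) (v : Fin 2 → ℝ) : ℝ := Real.sqrt (v 0 ^ 2 + |Yf p20 v|)

lemma rf_sq (p20 : ℝ) (v : Fin 2 → ℝ) : rf p20 v ^ 2 = v 0 ^ 2 + |Yf p20 v| := by
  unfold rf; exact Real.sq_sqrt (by positivity)

lemma rf_nonneg (p20 : ℝ) (v : Fin 2 → ℝ) : 0 ≤ rf p20 v := Real.sqrt_nonneg _

lemma x_le (p20 : ℝ) (v : Fin 2 → ℝ) : |v 0| ≤ rf p20 v := by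
  unfold rf
  apply Real.le_sqrt_of_sq_le
  rw [sq_abs]
  linarith [abs_nonneg (Yf p20 v)]

lemma Y_le (p20 : ℝ) (v : Fin 2 → ℝ) : |Yf p20 v| ≤ rf p20 v ^ 2 := by
  rw [rf_sq]; linarith [sq_nonneg (v 0)]

lemma y_le (p20 : ℝ) (v : Fin 2 → ℝ) : |v 1| ≤ (1 + |p20|) * rf p20 v ^ 2 := by
  have h1 : v 1 = Yf p20 v - p20 * v 0 ^ 2 := by unfold Yf; ring
  have h2 := Y_le p20 v
  have h3 : v 0 ^ 2 ≤ rf p20 v ^ 2 := by rw [rf_sq]; linarith [abs_nonneg (Yf p20 v)]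
  calc |v 1| ≤ |Yf p20 v| + |p20 * v 0 ^ 2| := by rw [h1]; exact abs_sub _ _
    _ = |Yf p20 v| + |p20| * v 0 ^ 2 := by rw [abs_mul, abs_of_nonneg (sq_nonneg (v 0))]
    _ ≤ rf p20 v ^ 2 + |p20| * rf p20 v ^ 2 := by gcongr
    _ = _ := by ring

lemma BO_x (p20 : ℝ) : BO (rf p20) 1 (fun v => v 0) := ⟨1, zero_le_one, fun v _ _ => by
  rw [pow_one, one_mul]; exact x_le p20 v⟩
lemma BO_X (p20 : ℝ) : BO (rf p20) 2 (fun v => v 0 ^ 2) := ⟨1, zero_le_one, fun v _ _ => by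
  rw [one_mul, abs_of_nonneg (sq_nonneg _), rf_sq]; linarith [abs_nonneg (Yf p20 v)]⟩
lemma BO_Y (p20 : ℝ) : BO (rf p20) 2 (fun v => Yf p20 v) := ⟨1, zero_le_one, fun v _ _ => by
  rw [one_mul]; exact Y_le p20 v⟩
lemma BO_A (p20 : ℝ) : BO (rf p20) 2 (fun v => |Yf p20 v|) := ⟨1, zero_le_one, fun v _ _ => by
  rw [one_mul, abs_abs]; exact Y_le p20 v⟩

lemma BO_Wt (p20 : ℝ) {n : ℕ} {F : RP} (h : Wt 2 n F) : BO (rf p20) n (fun v => eval v F) := by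
  obtain ⟨K, hK, b⟩ := Wt_bound h (1 + |p20|) (by linarith [abs_nonneg p20])
  refine ⟨K, hK, ?_⟩
  intro v h0 h1
  exact b v (rf p20 v) h0.le h1 (x_le p20 v) (y_le p20 v)

/-- the derivative of the Lyapunov function divided by the exponential factor -/
noncomputable def Tf (a b r0 r1 r2 ε : ℝ) (x Y P Yd : ℝ) : ℝ :=
  2 * (Y * Yd - (b * Y + a * x ^ 2) * x * P) +
    (b / 2 * (x ^ 2 * Yd - 2 * x * Y * P) / (Y ^ 2 - b / 2 * x ^ 2 * Y - a / 2 * (x ^ 2) ^ 2)) * x *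
      (r0 * Y ^ 2 + r1 * x ^ 2 * Y + r2 * (x ^ 2) ^ 2 + ε * Y * |Y|) +
    P * (r0 * Y ^ 2 + r1 * x ^ 2 * Y + r2 * (x ^ 2) ^ 2 + ε * Y * |Y|) +
    x * (2 * r0 * Y * Yd + r1 * (2 * x * P * Y + x ^ 2 * Yd) + 4 * r2 * x * x ^ 2 * P + 2 * ε * |Y| * Yd)

theorem T_BO {P Q : RP} {p20 p11 p30 q11 q02 q30 q21 q40 : ℝ}
    (wP : Wt 2 4 (P - mo 0 1 1 - mo 2 0 p20 - mo 1 1 p11 - mo 3 0 p30))
    (wQ : Wt 2 5 (Q - mo 1 1 q11 - mo 3 0 q30 - mo 0 2 q02 - mo 2 1 q21 - mo 4 0 q40))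
    {a b ω2 : ℝ} (ha : a = q30 - q11 * p20) (hb : b = 2 * p20 + q11) (hω : 0 < ω2)
    (hω2 : ω2 = -a / 2 - b ^ 2 / 16) {c r0 r1 r2 ε α1 α2 B2 B3 : ℝ}
    (hα1 : α1 = p11) (hα2 : α2 = p30 - p11 * p20) (hB2 : B2 = q21 - 2 * p20 * q02 + 2 * p20 * p11)
    (hB3 : B3 = q40 - p20 * q21 + p20 ^ 2 * q02 + 2 * p20 * (p30 - p11 * p20))
    (h0 : 2 * q02 + r0 = 0) (h1 : 2 * (B2 - b * α1) + b * r0 + 3 * r1 = c)
    (h2 : 2 * (B3 - b * α2 - a * α1) + 2 * a * r0 + 5 * r2 = -c * b / 2)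
    (h3 : 2 * (-a * α2) - b * r2 + a * r1 = -c * a / 2) :
    BO (rf p20) 7 (fun v => Tf a b r0 r1 r2 ε (v 0) (Yf p20 v) (eval v P) (eval v Q + 2 * p20 * v 0 * eval v P) -
      (c * v 0 ^ 2 * (Yf p20 v ^ 2 - b / 2 * v 0 ^ 2 * Yf p20 v - a / 2 * (v 0 ^ 2) ^ 2) +
        ε * |Yf p20 v| * (Yf p20 v ^ 2 + b * v 0 ^ 2 * Yf p20 v + 2 * a * (v 0 ^ 2) ^ 2))) := by
  have bx := BO_x p20
  have bX := BO_X p20
  have bY := BO_Y p20
  have bA := BO_A p20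
  -- remainders
  have e1' : BO (rf p20) 4 (fun v => eval v P - Yf p20 v - α1 * v 0 * Yf p20 v - α2 * v 0 ^ 3) := by
    refine (BO_Wt p20 wP).congr ?_
    intro v _
    simp only [map_sub, eval_mo, Yf, hα1, hα2]
    ring
  have e2' : BO (rf p20) 5 (fun v => (eval v Q + 2 * p20 * v 0 * eval v P) -
      v 0 * (b * Yf p20 v + a * v 0 ^ 2) - q02 * Yf p20 v ^ 2 - B2 * v 0 ^ 2 * Yf p20 v - B3 * (v 0 ^ 2) ^ 2) := by
    refine ((BO_Wt p20 wQ).add ((BO.cmul (2 * p20) bx).mul (BO_Wt p20 wP) (by omega))).congr ?_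
    intro v _
    simp only [map_sub, eval_mo, Yf, ha, hb, hB2, hB3]
    ring
  have e1 : BO (rf p20) 3 (fun v => eval v P - Yf p20 v) := by
    have h := (e1'.mono (n := 3) (by norm_num)).add (((BO.cmul α1 bx).mul bY (k := 3) (by omega)).add
      (BO.cmul α2 (bX.mul bx (k := 3) (by omega))))
    refine h.congr ?_
    intro v _
    ring
  have e2 : BO (rf p20) 4 (fun v => (eval v Q + 2 * p20 * v 0 * eval v P) -
      v 0 * (b * Yf p20 v + a * v 0 ^ 2)) := by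
    have h := (e2'.mono (n := 4) (by norm_num)).add (((BO.cmul q02 (bY.mul bY (k := 4) (by omega))).add
      (BO.cmul B2 (bX.mul bY (k := 4) (by omega)))).add (BO.cmul B3 (bX.mul bX (k := 4) (by omega))))
    refine h.congr ?_
    intro v _
    ring
  have eY : BO (rf p20) 2 (fun v => b * Yf p20 v + a * v 0 ^ 2) := (BO.cmul b bY).add (BO.cmul a bX)
  have eG : BO (rf p20) 4 (fun v => r0 * Yf p20 v ^ 2 + r1 * v 0 ^ 2 * Yf p20 v + r2 * (v 0 ^ 2) ^ 2 +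
      ε * Yf p20 v * |Yf p20 v|) := by
    have h := (((BO.cmul r0 (bY.mul bY (k := 4) (by omega))).add (BO.cmul r1 (bX.mul bY (k := 4) (by omega)))).add
      (BO.cmul r2 (bX.mul bX (k := 4) (by omega)))).add (BO.cmul ε (bY.mul bA (k := 4) (by omega)))
    refine h.congr ?_
    intro v _
    ring
  -- the angular speed
  have hk : BO (rf p20) 2 (fun v => b / 2 * (v 0 ^ 2 * (eval v Q + 2 * p20 * v 0 * eval v P) -
      2 * v 0 * Yf p20 v * eval v P) / (Yf p20 v ^ 2 - b / 2 * v 0 ^ 2 * Yf p20 v - a / 2 * (v 0 ^ 2) ^ 2) +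
      b * v 0) := by
    have hn : BO (rf p20) 6 (fun v => v 0 ^ 2 * ((eval v Q + 2 * p20 * v 0 * eval v P) -
        v 0 * (b * Yf p20 v + a * v 0 ^ 2)) - 2 * (v 0 * (Yf p20 v * (eval v P - Yf p20 v)))) :=
      (bX.mul e2 (by omega)).sub (BO.cmul 2 (bx.mul (bY.mul e1 (k := 5) (by omega)) (by omega)))
    obtain ⟨K, hK, hb1⟩ := hn
    obtain ⟨D, hD⟩ : ∃ D, D = 2 + (1 + b ^ 2 / 8) / ω2 := ⟨_, rfl⟩
    have hDp : 0 < D := by rw [hD]; positivity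
    refine ⟨|b| * D * K, by positivity, ?_⟩
    intro v hv0 hv1
    obtain ⟨N, hN⟩ : ∃ N, N = Yf p20 v ^ 2 - b / 2 * v 0 ^ 2 * Yf p20 v - a / 2 * (v 0 ^ 2) ^ 2 := ⟨_, rfl⟩
    have hDN := sq_den (X := v 0 ^ 2) (Y := Yf p20 v) hω hω2 hN hD
    have hρ : rf p20 v ^ 4 ≤ 2 * D * N := by
      have h4 : rf p20 v ^ 4 = (v 0 ^ 2 + |Yf p20 v|) ^ 2 := by rw [← rf_sq]; ring
      have h5 : Yf p20 v ^ 2 = |Yf p20 v| ^ 2 := (sq_abs _).symm
      rw [h4]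
      rw [h5] at hDN
      nlinarith [sq_nonneg (v 0 ^ 2 - |Yf p20 v|)]
    have hρ4 : 0 < rf p20 v ^ 4 := by positivity
    have hN0 : 0 < N := by
      by_contra hcon
      push Not at hcon
      have : 2 * D * N ≤ 0 := mul_nonpos_of_nonneg_of_nonpos (by positivity) hcon
      linarith
    have hid : b / 2 * (v 0 ^ 2 * (eval v Q + 2 * p20 * v 0 * eval v P) - 2 * v 0 * Yf p20 v * eval v P) / N +
        b * v 0 = b / 2 * (v 0 ^ 2 * ((eval v Q + 2 * p20 * v 0 * eval v P) -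
        v 0 * (b * Yf p20 v + a * v 0 ^ 2)) - 2 * (v 0 * (Yf p20 v * (eval v P - Yf p20 v)))) / N := by
      have hN0' := hN0.ne'
      rw [div_add' _ _ _ hN0']
      congr 1
      rw [hN]; ring
    beta_reduce
    rw [← hN, hid, abs_div, abs_mul, abs_of_pos hN0, div_le_iff₀ hN0]
    have h6 := hb1 v hv0 hv1
    have h7 : |b / 2| = |b| / 2 := by rw [abs_div, abs_of_pos (by norm_num : (0 : ℝ) < 2)]
    rw [h7]
    have h8 : |b| * D * K * rf p20 v ^ 2 * N = |b| / 2 * K * rf p20 v ^ 2 * (2 * D * N) := by ring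
    rw [h8]
    calc |b| / 2 * |v 0 ^ 2 * ((eval v Q + 2 * p20 * v 0 * eval v P) - v 0 * (b * Yf p20 v + a * v 0 ^ 2)) -
          2 * (v 0 * (Yf p20 v * (eval v P - Yf p20 v)))| ≤ |b| / 2 * (K * rf p20 v ^ 6) :=
          mul_le_mul_of_nonneg_left h6 (by positivity)
      _ = |b| / 2 * K * rf p20 v ^ 2 * rf p20 v ^ 4 := by ring
      _ ≤ _ := mul_le_mul_of_nonneg_left hρ (by positivity)
  -- assemble
  have t1 := BO.cmul 2 (bY.mul e2' (k := 7) (by omega))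
  have t2 := BO.cmul 2 (eY.mul (bx.mul e1' (k := 5) (by omega)) (k := 7) (by omega))
  have t3 := hk.mul (bx.mul eG (k := 5) (by omega)) (k := 7) (by omega)
  have t4 := e1.mul eG (k := 7) (by omega)
  have s1 := BO.cmul (2 * r0) (bY.mul e2 (k := 6) (by omega))
  have s2 := BO.cmul r1 ((BO.cmul 2 (bx.mul (bY.mul e1 (k := 5) (by omega)) (k := 6) (by omega))).add
    (bX.mul e2 (k := 6) (by omega)))
  have s3 := BO.cmul (4 * r2) (bx.mul (bX.mul e1 (k := 5) (by omega)) (k := 6) (by omega))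
  have s4 := BO.cmul (2 * ε) (bA.mul e2 (k := 6) (by omega))
  have t5 := bx.mul (((s1.add s2).add s3).add s4) (k := 7) (by omega)
  refine ((((t1.sub t2).add t3).add t4).add t5).congr ?_
  intro v _
  exact T_id (x := v 0) (Y := Yf p20 v) (A := |Yf p20 v|) (P := eval v P)
    (Yd := eval v Q + 2 * p20 * v 0 * eval v P)
    (K1 := b / 2 * (v 0 ^ 2 * (eval v Q + 2 * p20 * v 0 * eval v P) -
      2 * v 0 * Yf p20 v * eval v P) / (Yf p20 v ^ 2 - b / 2 * v 0 ^ 2 * Yf p20 v - a / 2 * (v 0 ^ 2) ^ 2))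
    (α1 := α1) (α2 := α2) (B2 := B2) (B3 := B3) rfl rfl rfl rfl h0 h1 h2 h3

end Run7.h256
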