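import Mathlib
import Pool.Agent.Run7.h256.F2

set_option autoImplicit false

namespace Run7.h256

open MvPolynomial Topology Metric

lemma main_low' {a b c ω2 : ℝ} (hc : c ≠ 0) (hω : 0 < ω2) (hω2 : ω2 = -a / 2 - b ^ 2 / 16) :
    ∃ ε δ : ℝ, 0 < δ ∧ ∀ X Y : ℝ, 0 ≤ X → δ * (X + |Y|) ^ 3 ≤
      |c * X * (Y ^ 2 - b / 2 * X * Y - a / 2 * X ^ 2) + ε * |Y| * (Y ^ 2 + b * X * Y + 2 * a * X ^ 2)| := by
  obtain ⟨D, hD⟩ : ∃ D, D = 2 + (1 + b ^ 2 / 8) / ω2 := ⟨_, rfl⟩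
  have hDp : 0 < D := by rw [hD]; positivity
  rcases lt_or_gt_of_ne hc with h | h
  · refine ⟨-(-c / (4 * D * (|b| + 2 * |a| + 1))), (-c / (4 * D * (|b| + 2 * |a| + 1))) / 4, ?_, ?_⟩
    · have : 0 < -c := by linarith
      positivity
    · intro X Y hX
      have := main_low (Y := Y) hX (show 0 < -c by linarith) hω hω2 rfl hD rfl
      refine this.trans ((le_of_eq ?_).trans (neg_le_abs _))
      ring
  · refine ⟨c / (4 * D * (|b| + 2 * |a| + 1)), (c / (4 * D * (|b| + 2 * |a| + 1))) / 4, by positivity, ?_⟩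
    intro X Y hX
    have := main_low (Y := Y) hX h hω hω2 rfl hD rfl
    exact this.trans (le_abs_self _)

theorem T_ne {P Q : RP} {p20 p11 p30 q11 q02 q30 q21 q40 : ℝ}
    (wP : Wt 2 4 (P - mo 0 1 1 - mo 2 0 p20 - mo 1 1 p11 - mo 3 0 p30))
    (wQ : Wt 2 5 (Q - mo 1 1 q11 - mo 3 0 q30 - mo 0 2 q02 - mo 2 1 q21 - mo 4 0 q40))
    {a b ω2 : ℝ} (ha : a = q30 - q11 * p20) (hb : b = 2 * p20 + q11) (hω : 0 < ω2)
    (hω2 : ω2 = -a / 2 - b ^ 2 / 16) {w0 w1 w2 w3 : ℝ} (hw0 : w0 = q02)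
    (hw1 : w1 = (q21 - 2 * p20 * q02 + 2 * p20 * p11) - b * p11)
    (hw2 : w2 = (q40 - p20 * q21 + p20 ^ 2 * q02 + 2 * p20 * (p30 - p11 * p20)) - b * (p30 - p11 * p20) - a * p11)
    (hw3 : w3 = -a * (p30 - p11 * p20))
    (hκ : -a * b * w0 - 5 * a * w1 + 3 * b * w2 + 15 * w3 ≠ 0) :
    ∃ r0 r1 r2 ε r : ℝ, 0 < r ∧ ∀ v : Fin 2 → ℝ, v ≠ 0 → ‖v‖ < r →
      Tf a b r0 r1 r2 ε (v 0) (Yf p20 v) (eval v P) (eval v Q + 2 * p20 * v 0 * eval v P) ≠ 0 := by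
  have hd : 25 * a + 3 * b ^ 2 < 0 := by nlinarith
  obtain ⟨c, hc⟩ : ∃ c, c = -4 * (-a * b * w0 - 5 * a * w1 + 3 * b * w2 + 15 * w3) / (25 * a + 3 * b ^ 2) := ⟨_, rfl⟩
  have hc1 : c * (25 * a + 3 * b ^ 2) = -4 * (-a * b * w0 - 5 * a * w1 + 3 * b * w2 + 15 * w3) := by
    rw [hc]; exact div_mul_cancel₀ _ hd.ne
  have hc0 : c ≠ 0 := by
    rintro rfl
    apply hκ
    linarith
  obtain ⟨ε, δ, hδ, hlow⟩ := main_low' (a := a) (b := b) hc0 hω hω2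
  obtain ⟨r0, hr0⟩ : ∃ r0, r0 = -2 * w0 := ⟨_, rfl⟩
  obtain ⟨r1, hr1⟩ : ∃ r1, r1 = (c - 2 * w1 - b * r0) / 3 := ⟨_, rfl⟩
  obtain ⟨r2, hr2⟩ : ∃ r2, r2 = (-c * b / 2 - 2 * w2 - 2 * a * r0) / 5 := ⟨_, rfl⟩
  obtain ⟨K, hK, hB⟩ := T_BO wP wQ ha hb hω hω2 (c := c) (r0 := r0) (r1 := r1) (r2 := r2) (ε := ε) rfl rfl rfl rfl
    (by rw [hr0, hw0]; ring) (by rw [hr1, hw1]; ring) (by rw [hr2, hw2]; ring) (by
      rw [hr2, hr1, hr0]
      rw [hw3] at hc1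
      linear_combination (1 / 30 : ℝ) * hc1)
  obtain ⟨m, hm⟩ : ∃ m, m = min 1 (δ / (K + 1)) := ⟨_, rfl⟩
  have hm0 : 0 < m := by rw [hm]; positivity
  have hp : 0 < 2 + |p20| := by positivity
  refine ⟨r0, r1, r2, ε, min 1 (m ^ 2 / (2 + |p20|)), by positivity, ?_⟩
  intro v hv hvr hT
  have n1 : ‖v‖ ≤ 1 := hvr.le.trans (min_le_left _ _)
  have n2 := lt_of_lt_of_le hvr (min_le_right _ _)
  rw [lt_div_iff₀ hp] at n2
  have hn := norm_nonneg v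
  have hρ2 : rf p20 v ^ 2 ≤ (2 + |p20|) * ‖v‖ := by
    rw [rf_sq]
    have h1 : v 0 ^ 2 ≤ ‖v‖ ^ 2 := by rw [← sq_abs]; gcongr; exact abs0_le v
    have h2 : |Yf p20 v| ≤ ‖v‖ + |p20| * ‖v‖ ^ 2 := by
      unfold Yf
      refine (abs_add_le _ _).trans ?_
      rw [abs_mul, abs_of_nonneg (sq_nonneg (v 0))]
      have := abs1_le v
      have h3 : |p20| * v 0 ^ 2 ≤ |p20| * ‖v‖ ^ 2 := mul_le_mul_of_nonneg_left h1 (abs_nonneg _)
      linarith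
    have h3 : ‖v‖ ^ 2 ≤ ‖v‖ := by nlinarith
    have h4 : |p20| * ‖v‖ ^ 2 ≤ |p20| * ‖v‖ := mul_le_mul_of_nonneg_left h3 (abs_nonneg _)
    nlinarith
  have hρm : rf p20 v < m := by
    apply lt_of_pow_lt_pow_left₀ 2 hm0.le
    linarith
  have hρ1 : rf p20 v ≤ 1 := hρm.le.trans (by rw [hm]; exact min_le_left _ _)
  have hρK : (K + 1) * rf p20 v < δ := by
    have h' : m ≤ δ / (K + 1) := by rw [hm]; exact min_le_right _ _
    have := lt_of_lt_of_le hρm h'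
    rw [lt_div_iff₀ (by positivity)] at this
    linarith
  have hρ0 : 0 < rf p20 v := by
    rcases (rf_nonneg p20 v).lt_or_eq with h | h
    · exact h
    · exfalso
      have h1 := rf_sq p20 v
      rw [← h] at h1
      have h2 : v 0 ^ 2 = 0 := by nlinarith [sq_nonneg (v 0), abs_nonneg (Yf p20 v)]
      have h3 : |Yf p20 v| = 0 := by nlinarith [sq_nonneg (v 0), abs_nonneg (Yf p20 v)]
      have h4 : v 0 = 0 := by exact pow_eq_zero_iff (by norm_num) |>.1 h2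
      have h5 := abs_eq_zero.1 h3
      unfold Yf at h5
      rw [h4] at h5
      exact (ne0_iff.1 hv) ⟨h4, by simpa using h5⟩
  have h1 := hB v hρ0 hρ1
  beta_reduce at h1
  rw [hT, zero_sub, abs_neg] at h1
  have h2 := hlow (v 0 ^ 2) (Yf p20 v) (sq_nonneg _)
  have h3 := h2.trans h1
  rw [← rf_sq] at h3
  have h4 : (rf p20 v ^ 2) ^ 3 = rf p20 v ^ 6 := by ring
  have h5 : K * rf p20 v ^ 7 = K * rf p20 v * rf p20 v ^ 6 := by ring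
  rw [h4, h5] at h3
  have h6 : 0 < rf p20 v ^ 6 := by positivity
  have h7 := le_of_mul_le_mul_right h3 h6
  linarith

end Run7.h256
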