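import Mathlib
import Pool.Agent.Run7.h256.F3

set_option autoImplicit false

namespace Run7.h256

open MvPolynomial Topology Metric

lemma hasDerivAt_mul_abs (y : ℝ) : HasDerivAt (fun y : ℝ => y * |y|) (2 * |y|) y := by
  rcases lt_trichotomy y 0 with h | h | h
  · have h1 := (hasDerivAt_pow 2 y).const_mul (-1)
    rw [abs_of_neg h]
    have h2 : HasDerivAt (fun y : ℝ => y * |y|) (-1 * (((2 : ℕ) : ℝ) * y ^ (2 - 1))) y := by
      apply h1.congr_of_eventuallyEq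
      filter_upwards [gt_mem_nhds h] with z hz
      rw [abs_of_neg hz]; ring
    refine h2.congr_deriv ?_
    norm_num
  · subst h
    rw [abs_zero, mul_zero, hasDerivAt_iff_isLittleO]
    simp only [abs_zero, mul_zero, sub_zero, smul_zero]
    rw [Asymptotics.isLittleO_iff]
    intro c hc
    have : ∀ᶠ z : ℝ in 𝓝 0, |z| < c := by
      have := (continuous_abs.tendsto (0 : ℝ))
      rw [abs_zero] at this
      exact this.eventually (gt_mem_nhds hc)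
    filter_upwards [this] with z hz
    rw [Real.norm_eq_abs, Real.norm_eq_abs, abs_mul, abs_abs]
    exact mul_le_mul_of_nonneg_right hz.le (abs_nonneg _) |>.trans_eq (by ring) |>.trans (le_refl _)
  · have h1 : HasDerivAt (fun y : ℝ => y ^ 2) (2 * y) y := by
      simpa using hasDerivAt_pow 2 y
    rw [abs_of_pos h]
    apply h1.congr_of_eventuallyEq
    filter_upwards [lt_mem_nhds h] with z hz
    rw [abs_of_pos hz]; ring

/-- derivative of the argument -/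
lemma arg_deriv {U V : ℝ → ℝ} {U' V' t : ℝ} (hU : HasDerivAt U U' t) (hV : HasDerivAt V V' t)
    (h : 0 < U t ∨ V t ≠ 0) :
    HasDerivAt (fun s => (Complex.log ((U s : ℂ) + (V s : ℂ) * Complex.I)).im)
      ((U t * V' - V t * U') / (U t ^ 2 + V t ^ 2)) t := by
  have h1 : HasDerivAt (fun s => (U s : ℂ) + (V s : ℂ) * Complex.I) ((U' : ℂ) + (V' : ℂ) * Complex.I) t :=
    hU.ofReal_comp.add (hV.ofReal_comp.mul_const _)
  have hz : (U t : ℂ) + (V t : ℂ) * Complex.I ∈ Complex.slitPlane := by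
    rw [Complex.mem_slitPlane_iff]
    simpa using h
  have h2 := h1.clog_real hz
  have h3 := Complex.imCLM.hasFDerivAt.comp_hasDerivAt t h2
  refine h3.congr_deriv ?_
  rw [Complex.imCLM_apply, Complex.div_im]
  have e1 : Complex.normSq ((U t : ℂ) + (V t : ℂ) * Complex.I) = U t ^ 2 + V t ^ 2 := by
    rw [Complex.normSq_apply]; simp; ring
  rw [e1]
  simp
  ring

theorem focal {P Q : RP} (h : SurrAt P Q 0) {p20 p11 p30 q11 q02 q30 q21 q40 : ℝ}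
    (wP : Wt 2 4 (P - mo 0 1 1 - mo 2 0 p20 - mo 1 1 p11 - mo 3 0 p30))
    (wQ : Wt 2 5 (Q - mo 1 1 q11 - mo 3 0 q30 - mo 0 2 q02 - mo 2 1 q21 - mo 4 0 q40))
    {a b : ℝ} (ha : a = q30 - q11 * p20) (hb : b = 2 * p20 + q11) (hab : b ^ 2 + 8 * a < 0)
    {w0 w1 w2 w3 : ℝ} (hw0 : w0 = q02)
    (hw1 : w1 = (q21 - 2 * p20 * q02 + 2 * p20 * p11) - b * p11)
    (hw2 : w2 = (q40 - p20 * q21 + p20 ^ 2 * q02 + 2 * p20 * (p30 - p11 * p20)) - b * (p30 - p11 * p20) - a * p11)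
    (hw3 : w3 = -a * (p30 - p11 * p20)) : -a * b * w0 - 5 * a * w1 + 3 * b * w2 + 15 * w3 = 0 := by
  by_contra hκ
  obtain ⟨ω2, hω2⟩ : ∃ ω2, ω2 = -a / 2 - b ^ 2 / 16 := ⟨_, rfl⟩
  have hω : 0 < ω2 := by rw [hω2]; linarith
  obtain ⟨r0, r1, r2, ε, r, hr, hT⟩ := T_ne wP wQ ha hb hω hω2 hw0 hw1 hw2 hw3 hκ
  obtain ⟨ω, hωd⟩ : ∃ ω, ω = Real.sqrt ω2 := ⟨_, rfl⟩
  have hωp : 0 < ω := by rw [hωd]; exact Real.sqrt_pos.2 hω
  have hωs : ω ^ 2 = -a / 2 - b ^ 2 / 16 := by rw [hωd, Real.sq_sqrt hω.le, hω2]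
  obtain ⟨γ, T, g1, g2, g3, g4, g5, g6, g7⟩ := h.at0 hr
  have hx : ∀ t, HasDerivAt (fun τ => γ τ 0) (eval (γ t) P) t := fun t => (g1 t).1
  have hX : ∀ t, HasDerivAt (fun τ => γ τ 0 ^ 2) (2 * γ t 0 * eval (γ t) P) t := by
    intro t
    refine ((hx t).pow 2).congr_deriv ?_
    push_cast; ring
  have hY : ∀ t, HasDerivAt (fun τ => Yf p20 (γ τ)) (eval (γ t) Q + 2 * p20 * γ t 0 * eval (γ t) P) t := by
    intro t
    have h1 := (g1 t).2.add ((hX t).const_mul p20)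
    refine h1.congr_deriv ?_
    ring
  have hYA : ∀ t, HasDerivAt (fun τ => Yf p20 (γ τ) * |Yf p20 (γ τ)|)
      (2 * |Yf p20 (γ t)| * (eval (γ t) Q + 2 * p20 * γ t 0 * eval (γ t) P)) t := by
    intro t
    exact (hasDerivAt_mul_abs (Yf p20 (γ t))).comp t (hY t)
  have hU : ∀ t, HasDerivAt (fun τ => ω * γ τ 0 ^ 2) (ω * (2 * γ t 0 * eval (γ t) P)) t :=
    fun t => (hX t).const_mul ω
  have hV : ∀ t, HasDerivAt (fun τ => Yf p20 (γ τ) - b / 4 * γ τ 0 ^ 2)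
      (eval (γ t) Q + 2 * p20 * γ t 0 * eval (γ t) P - b / 4 * (2 * γ t 0 * eval (γ t) P)) t :=
    fun t => (hY t).sub ((hX t).const_mul (b / 4))
  have hUV : ∀ t, 0 < ω * γ t 0 ^ 2 ∨ Yf p20 (γ t) - b / 4 * γ t 0 ^ 2 ≠ 0 := by
    intro t
    by_cases h0 : γ t 0 = 0
    · right
      rw [h0]
      intro h1
      apply ne0_iff.1 (g4 t)
      refine ⟨h0, ?_⟩
      unfold Yf at h1
      rw [h0] at h1
      linarith
    · left
      positivity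
  have harg := fun t => arg_deriv (hU t) (hV t) (hUV t)
  -- the Lyapunov function
  have hΦ : ∀ t, HasDerivAt (fun τ => Real.exp (b / (2 * ω) *
      (Complex.log (((ω * γ τ 0 ^ 2 : ℝ) : ℂ) + ((Yf p20 (γ τ) - b / 4 * γ τ 0 ^ 2 : ℝ) : ℂ) * Complex.I)).im) *
      ((Yf p20 (γ τ) ^ 2 - b / 2 * (γ τ 0 ^ 2 * Yf p20 (γ τ)) - a / 2 * (γ τ 0 ^ 2) ^ 2) +
        γ τ 0 * (r0 * Yf p20 (γ τ) ^ 2 + r1 * (γ τ 0 ^ 2 * Yf p20 (γ τ)) + r2 * (γ τ 0 ^ 2) ^ 2 +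
          ε * (Yf p20 (γ τ) * |Yf p20 (γ τ)|))))
      (Real.exp (b / (2 * ω) *
      (Complex.log (((ω * γ t 0 ^ 2 : ℝ) : ℂ) + ((Yf p20 (γ t) - b / 4 * γ t 0 ^ 2 : ℝ) : ℂ) * Complex.I)).im) *
        Tf a b r0 r1 r2 ε (γ t 0) (Yf p20 (γ t)) (eval (γ t) P) (eval (γ t) Q + 2 * p20 * γ t 0 * eval (γ t) P)) t := by
    intro t
    have hE := ((harg t).const_mul (b / (2 * ω))).exp
    have hN := (((hY t).pow 2).sub (((hX t).mul (hY t)).const_mul (b / 2))).sub (((hX t).pow 2).const_mul (a / 2))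
    have hG := ((((hY t).pow 2).const_mul r0).add (((hX t).mul (hY t)).const_mul r1)).add
      (((hX t).pow 2).const_mul r2) |>.add ((hYA t).const_mul ε)
    have hxG := (hx t).mul hG
    have hall := hE.mul (hN.add hxG)
    refine hall.congr_deriv ?_
    unfold Tf
    obtain ⟨x, hx'⟩ : ∃ x, x = γ t 0 := ⟨_, rfl⟩
    obtain ⟨Y, hY'⟩ : ∃ Y, Y = Yf p20 (γ t) := ⟨_, rfl⟩
    obtain ⟨p, hp⟩ : ∃ p, p = eval (γ t) P := ⟨_, rfl⟩
    obtain ⟨q, hq⟩ : ∃ q, q = eval (γ t) Q + 2 * p20 * γ t 0 * eval (γ t) P := ⟨_, rfl⟩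
    obtain ⟨E, hE'⟩ : ∃ E, E = Real.exp (b / (2 * ω) * (Complex.log (((ω * γ t 0 ^ 2 : ℝ) : ℂ) +
      ((Yf p20 (γ t) - b / 4 * γ t 0 ^ 2 : ℝ) : ℂ) * Complex.I)).im) := ⟨_, rfl⟩
    have hUV' := hUV t
    rw [← hE', ← hq, ← hp, ← hY', ← hx']
    rw [← hY', ← hx'] at hUV'
    have hN0 : (ω * x ^ 2) ^ 2 + (Y - b / 4 * x ^ 2) ^ 2 = Y ^ 2 - b / 2 * x ^ 2 * Y - a / 2 * (x ^ 2) ^ 2 := by
      linear_combination (x ^ 2) ^ 2 * hωs
    have hNp : 0 < (ω * x ^ 2) ^ 2 + (Y - b / 4 * x ^ 2) ^ 2 := by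
      rcases hUV' with h1 | h1
      · positivity
      · have : 0 < (Y - b / 4 * x ^ 2) ^ 2 := by positivity
        positivity
    rw [hN0] at hNp ⊢
    obtain ⟨N, hN'⟩ : ∃ N, N = Y ^ 2 - b / 2 * x ^ 2 * Y - a / 2 * (x ^ 2) ^ 2 := ⟨_, rfl⟩
    rw [← hN'] at hNp ⊢
    have hN0' := hNp.ne'
    have e1 : b / (2 * ω) * ((ω * x ^ 2 * (q - b / 4 * (2 * x * p)) - (Y - b / 4 * x ^ 2) * (ω * (2 * x * p))) / N) =
        b / 2 * (x ^ 2 * q - 2 * x * Y * p) / N := by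
      field_simp
      ring
    simp only [Pi.add_apply, Pi.mul_apply, Pi.sub_apply, Pi.pow_apply]
    rw [← hY', ← hx', e1]
    obtain ⟨k, hk⟩ : ∃ k, k = b / 2 * (x ^ 2 * q - 2 * x * Y * p) / N := ⟨_, rfl⟩
    have hkN : k * N = b / 2 * (x ^ 2 * q - 2 * x * Y * p) := by rw [hk]; exact div_mul_cancel₀ _ hN0'
    rw [← hk]
    norm_num
    linear_combination E * hkN + (-E * k) * hN'
  obtain ⟨t0, h0, _⟩ := exists_max hΦ g2 (fun t => by rw [g3])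
  rcases mul_eq_zero.1 h0 with h1 | h1
  · exact (Real.exp_pos _).ne' h1
  · exact hT (γ t0) (g4 t0) (g5 t0) h1

end Run7.h256
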