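import Mathlib
import Pool.Agent.Run7.h256.KL

set_option autoImplicit false

namespace Run7.h256

open MvPolynomial

/-- the scalar identity behind the second order condition at a nilpotent centre -/
lemma scal {k : Type*} [Field k] {p20 p11 p30 q11 q02 q30 q21 q40 b d d20 a : k}
    (hb : b ≠ 0) (eb : b = 2 * p20 + q11) (ed : d = p11 + 2 * q02) (ed20 : d20 = 3 * p30 + q21)
    (ea : a = q30 - q11 * p20)
    {η β0 β10 g11 α10 α01 g20 α20 g30 L0 ψ1 E20 L10 : k}
    (r1 : η * b = α10 + β0 * q11) (r2 : η * d = α01 + β0 * q02) (r3 : g20 * b = α10 * p20 + β0 * q30)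
    (r4 : η * d20 + g11 * b + g20 * d = α10 * p11 + α01 * p20 + α20 + β0 * q21 + β10 * q11)
    (r5 : g20 * d20 + g30 * b = α10 * p30 + α20 * p20 + β0 * q40 + β10 * q30)
    (s1 : L0 * b = η * α10 - 2 * g20 * β0) (s2 : ψ1 = η * β10 - g11 * β0 - L0 * d)
    (s3 : E20 = g20 * (β10 - α01) - 2 * g20 * β10 - 3 * g30 * β0 + η * α20 + g11 * α10)
    (s4 : L0 * d20 + L10 * b + ψ1 * p20 = E20)
    (κ : k) (hκ : κ = -a * b * q02 - 5 * a * (q21 - 2 * p20 * q02 + 2 * p20 * p11 - b * p11) +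
      3 * b * (q40 - p20 * q21 + p20 * p20 * q02 + 2 * p20 * (p30 - p11 * p20) - b * (p30 - p11 * p20) - a * p11) +
      15 * (-a * (p30 - p11 * p20))) :
    ((β0 - 2 * η) * ψ1 - β0 * L10 + 2 * L0 * (β10 - α01)) * b ^ 3 = β0 ^ 3 * κ := by
  have h1 : α10 = η * b - β0 * q11 := by linear_combination -r1
  have h2 : α01 = η * d - β0 * q02 := by linear_combination -r2
  have h3 : g20 = (α10 * p20 + β0 * q30) / b := by field_simp; linear_combination r3
  have h4 : α20 = η * d20 + g11 * b + g20 * d - α10 * p11 - α01 * p20 - β0 * q21 - β10 * q11 := by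
    linear_combination -r4
  have h5 : g30 = (α10 * p30 + α20 * p20 + β0 * q40 + β10 * q30 - g20 * d20) / b := by
    field_simp; linear_combination r5
  have h6 : L0 = (η * α10 - 2 * g20 * β0) / b := by field_simp; linear_combination s1
  have h7 : L10 = (E20 - L0 * d20 - ψ1 * p20) / b := by field_simp; linear_combination s4
  rw [h7, s3, s2, h5, h4, h6, h3, h2, h1, hκ, ed, ed20, ea]
  have hq : q11 = b - 2 * p20 := by linear_combination -eb
  rw [hq]
  field_simp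
  ring

/-- Taylor data of a nilpotent singular point in normal position -/
structure Np {k : Type*} [Field k] (P Q : MvPolynomial (Fin 2) k) (p20 p11 p30 q11 q02 q30 q21 q40 : k) :
    Prop where
  P0 : eval 0 P = 0
  Px : eval 0 (pderiv 0 P) = 0
  Py : eval 0 (pderiv 1 P) = 1
  Pxx : eval 0 (pderiv 0 (pderiv 0 P)) = 2 * p20
  Pxy : eval 0 (pderiv 0 (pderiv 1 P)) = p11
  Pxxx : eval 0 (pderiv 0 (pderiv 0 (pderiv 0 P))) = 6 * p30
  Q0 : eval 0 Q = 0
  Qx : eval 0 (pderiv 0 Q) = 0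
  Qy : eval 0 (pderiv 1 Q) = 0
  Qxx : eval 0 (pderiv 0 (pderiv 0 Q)) = 0
  Qxy : eval 0 (pderiv 0 (pderiv 1 Q)) = q11
  Qyy : eval 0 (pderiv 1 (pderiv 1 Q)) = 2 * q02
  Qxxx : eval 0 (pderiv 0 (pderiv 0 (pderiv 0 Q))) = 6 * q30
  Qxxy : eval 0 (pderiv 0 (pderiv 0 (pderiv 1 Q))) = 2 * q21
  Qxxxx : eval 0 (pderiv 0 (pderiv 0 (pderiv 0 (pderiv 0 Q)))) = 24 * q40

namespace Np

variable {k : Type*} [Field k] [CharZero k] {P Q : MvPolynomial (Fin 2) k}
  {p20 p11 p30 q11 q02 q30 q21 q40 : k}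

lemma low (h : Np P Q p20 p11 p30 q11 q02 q30 q21 q40) (hb : 2 * p20 + q11 ≠ 0)
    {g α β : MvPolynomial (Fin 2) k} (he : g * (pderiv 0 P + pderiv 1 Q) = α * P + β * Q) :
    eval 0 g = 0 ∧ eval 0 α = 0 ∧ eval 0 (pderiv 0 g) = 0 := by
  have e1 := congrArg (fun F => eval 0 (pderiv 0 F)) he
  have e2 := congrArg (fun F => eval 0 (pderiv 1 F)) he
  have e3 := congrArg (fun F => eval 0 (pderiv 0 (pderiv 0 F))) he
  simp only [map_add, Derivation.leibniz, smul_eq_mul, map_mul, pd_comm, h.P0, h.Px, h.Py, h.Pxx, h.Pxy,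
    h.Q0, h.Qx, h.Qy, h.Qxx, h.Qxy, h.Qyy, mul_zero, add_zero, zero_add, mul_one] at e1 e2 e3
  have g0 : eval 0 g = 0 := by
    have : eval 0 g * (2 * p20 + q11) = 0 := by linear_combination e1
    exact (mul_eq_zero.1 this).resolve_right hb
  have a0 : eval 0 α = 0 := by
    rw [g0] at e2
    linear_combination -e2
  refine ⟨g0, a0, ?_⟩
  rw [g0, a0] at e3
  have : eval 0 (pderiv 0 g) * (2 * p20 + q11) = 0 := by linear_combination (1 / 2) * e3
  exact (mul_eq_zero.1 this).resolve_right hb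

lemma KC9 (h : Np P Q p20 p11 p30 q11 q02 q30 q21 q40) (hb : 2 * p20 + q11 ≠ 0) : KC P Q 0 := by
  intro g α β he
  obtain ⟨h1, h2, h3⟩ := h.low hb he
  simp only [EE, map_sub, map_mul, h1, h2, h3]
  ring

lemma UU9 (h : Np P Q p20 p11 p30 q11 q02 q30 q21 q40) (hb : 2 * p20 + q11 ≠ 0)
    (hκ : -(q30 - q11 * p20) * (2 * p20 + q11) * q02 -
      5 * (q30 - q11 * p20) * (q21 - 2 * p20 * q02 + 2 * p20 * p11 - (2 * p20 + q11) * p11) +
      3 * (2 * p20 + q11) * (q40 - p20 * q21 + p20 * p20 * q02 + 2 * p20 * (p30 - p11 * p20) -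
        (2 * p20 + q11) * (p30 - p11 * p20) - (q30 - q11 * p20) * p11) +
      15 * (-(q30 - q11 * p20) * (p30 - p11 * p20)) = 0)
    {g α β L ψ1 ψ2 : MvPolynomial (Fin 2) k} (he : g * (pderiv 0 P + pderiv 1 Q) = α * P + β * Q)
    (hE : EE g α β = L * (pderiv 0 P + pderiv 1 Q) + ψ1 * P + ψ2 * Q) :
    eval 0 (UU g α β L ψ1 ψ2) = 0 := by
  obtain ⟨g0, a0, gx⟩ := h.low hb he
  have e1 := congrArg (fun F => eval 0 (pderiv 0 (pderiv 1 F))) he
  have e2 := congrArg (fun F => eval 0 (pderiv 1 (pderiv 1 F))) he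
  have e3 := congrArg (fun F => eval 0 (pderiv 0 (pderiv 0 (pderiv 0 F)))) he
  have e4 := congrArg (fun F => eval 0 (pderiv 0 (pderiv 0 (pderiv 1 F)))) he
  have e5 := congrArg (fun F => eval 0 (pderiv 0 (pderiv 0 (pderiv 0 (pderiv 0 F))))) he
  unfold EE at hE
  have f1 := congrArg (fun F => eval 0 (pderiv 0 F)) hE
  have f2 := congrArg (fun F => eval 0 (pderiv 1 F)) hE
  have f3 := congrArg (fun F => eval 0 (pderiv 0 (pderiv 0 F))) hE
  simp only [map_add, map_sub, Derivation.leibniz, smul_eq_mul, map_mul, pd_comm, h.P0, h.Px, h.Py, h.Pxx,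
    h.Pxy, h.Pxxx, h.Q0, h.Qx, h.Qy, h.Qxx, h.Qxy, h.Qyy, h.Qxxx, h.Qxxy, h.Qxxxx, g0, a0, gx, mul_zero,
    add_zero, zero_add, mul_one, zero_mul, sub_zero, zero_sub] at e1 e2 e3 e4 e5 f1 f2 f3
  have v2 : eval 0 (2 : MvPolynomial (Fin 2) k) = 2 := by
    rw [show (2 : MvPolynomial (Fin 2) k) = C 2 from (map_ofNat C 2).symm, eval_C]
  simp only [UU, map_add, map_sub, map_mul, g0, a0, gx, v2, zero_mul, mul_zero, zero_sub, sub_zero]
  have key := scal (p20 := p20) (p11 := p11) (p30 := p30) (q11 := q11) (q02 := q02) (q30 := q30)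
    (q21 := q21) (q40 := q40) (b := 2 * p20 + q11) (d := p11 + 2 * q02) (d20 := 3 * p30 + q21)
    (a := q30 - q11 * p20) (η := eval 0 (pderiv 1 g)) (β0 := eval 0 β) (β10 := eval 0 (pderiv 0 β))
    (g11 := eval 0 (pderiv 0 (pderiv 1 g))) (α10 := eval 0 (pderiv 0 α)) (α01 := eval 0 (pderiv 1 α))
    (g20 := eval 0 (pderiv 0 (pderiv 0 g)) / 2) (α20 := eval 0 (pderiv 0 (pderiv 0 α)) / 2)
    (g30 := eval 0 (pderiv 0 (pderiv 0 (pderiv 0 g))) / 6) (L0 := eval 0 L) (ψ1 := eval 0 ψ1)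
    (L10 := eval 0 (pderiv 0 L)) hb rfl rfl rfl rfl
    (by linear_combination e1) (by linear_combination (1 / 2) * e2) (by linear_combination (1 / 6) * e3)
    (by linear_combination (1 / 2) * e4) (by linear_combination (1 / 24) * e5)
    (by linear_combination -f1) (by linear_combination -f2) rfl
    (by linear_combination (-1 / 2) * f3) _ rfl
  rw [hκ, mul_zero] at key
  have := (mul_eq_zero.1 key).resolve_right (pow_ne_zero 3 hb)
  linear_combination this

end Np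

end Run7.h256
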