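import Mathlib
import Pool.Agent.Run7.h256.HB
import Pool.Agent.Run7.h256.KL

set_option autoImplicit false

namespace Run7.h256

open MvPolynomial

/-- a cubic form vanishing off a plane vanishes -/
lemma cubic_form_zero {t1 t2 t3 t4 t5 t6 t7 t8 t9 t0 H1 H2 H3 : ℂ} (hH : H1 ≠ 0 ∨ H2 ≠ 0)
    (hc : ∀ e1 e2 e3 : ℂ, H1 * e1 + H2 * e2 + H3 * e3 ≠ 0 →
      t1 * e1 ^ 3 + t2 * e1 ^ 2 * e2 + t3 * e1 ^ 2 * e3 + t4 * e1 * e2 ^ 2 + t5 * e2 ^ 3 +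
      t6 * e2 ^ 2 * e3 + t7 * e1 * e3 ^ 2 + t8 * e2 * e3 ^ 2 + t9 * e3 ^ 3 + t0 * e1 * e2 * e3 = 0) :
    t1 = 0 ∧ t2 = 0 ∧ t3 = 0 ∧ t4 = 0 ∧ t5 = 0 ∧ t6 = 0 ∧ t7 = 0 ∧ t8 = 0 ∧ t9 = 0 ∧ t0 = 0 := by
  have key : ∀ e1 e2 e3 : ℂ,
      t1 * e1 ^ 3 + t2 * e1 ^ 2 * e2 + t3 * e1 ^ 2 * e3 + t4 * e1 * e2 ^ 2 + t5 * e2 ^ 3 +
      t6 * e2 ^ 2 * e3 + t7 * e1 * e3 ^ 2 + t8 * e2 * e3 ^ 2 + t9 * e3 ^ 3 + t0 * e1 * e2 * e3 = 0 := by
    intro e1 e2 e3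
    by_cases h0 : H1 * e1 + H2 * e2 + H3 * e3 = 0
    · obtain ⟨d1, d2, hd⟩ : ∃ d1 d2 : ℂ, H1 * d1 + H2 * d2 ≠ 0 := by
        rcases hH with h | h
        · exact ⟨1, 0, by simpa using h⟩
        · exact ⟨0, 1, by simpa using h⟩
      have k : ∀ t : ℂ, t ≠ 0 → H1 * (e1 + t * d1) + H2 * (e2 + t * d2) + H3 * e3 ≠ 0 := by
        intro t ht h1
        apply mul_ne_zero ht hd
        linear_combination h1 - h0
      have p1 := hc _ _ _ (k 1 one_ne_zero)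
      have p2 := hc _ _ _ (k (-1) (by norm_num))
      have p3 := hc _ _ _ (k 2 (by norm_num))
      have p4 := hc _ _ _ (k (-2) (by norm_num))
      linear_combination (4 / 6) * (p1 + p2) - (1 / 6) * (p3 + p4)
    · exact hc e1 e2 e3 h0
  have k1 := key 1 0 0
  have k2 := key 0 1 0
  have k3 := key 0 0 1
  have k4 := key 1 1 0
  have k5 := key 1 (-1) 0
  have k6 := key 1 0 1
  have k7 := key 1 0 (-1)
  have k8 := key 0 1 1
  have k9 := key 0 1 (-1)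
  have k0 := key 1 1 1
  have h1 : t1 = 0 := by linear_combination k1
  have h5 : t5 = 0 := by linear_combination k2
  have h9 : t9 = 0 := by linear_combination k3
  have h2 : t2 = 0 := by linear_combination (k4 - k5) / 2 - h5
  have h4 : t4 = 0 := by linear_combination (k4 + k5) / 2 - h1
  have h3 : t3 = 0 := by linear_combination (k6 - k7) / 2 - h9
  have h7 : t7 = 0 := by linear_combination (k6 + k7) / 2 - h1
  have h6 : t6 = 0 := by linear_combination (k8 - k9) / 2 - h9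
  have h8 : t8 = 0 := by linear_combination (k8 + k9) / 2 - h5
  have h0 : t0 = 0 := by
    linear_combination k0 - h1 - h2 - h3 - h4 - h5 - h6 - h7 - h8 - h9
  exact ⟨h1, h2, h3, h4, h5, h6, h7, h8, h9, h0⟩

lemma Dle_two {n : ℕ} : Dle n (2 : RR) := by
  rw [show (2 : RR) = C 2 from (map_ofNat C 2).symm]; exact Dle.C _

lemma pd_two (i : Fin 2) : pderiv i (2 : RR) = 0 := by
  rw [show (2 : RR) = C 2 from (map_ofNat C 2).symm, pderiv_C]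

lemma Dle_UU {h α β L ψ1 ψ2 : RR} (dh : Dle 3 h) (dα : Dle 2 α) (dβ : Dle 2 β) (dL : Dle 2 L)
    (d1 : Dle 1 ψ1) (d2 : Dle 1 ψ2) : Dle 3 (UU h α β L ψ1 ψ2) := by
  unfold UU
  have e1 := (dh.pderiv (n := 2) 0).mul d2 (n := 3) (by omega)
  have e2 := (dh.pderiv (n := 2) 1).mul d1 (n := 3) (by omega)
  have e3 := dh.mul ((d2.pderiv (n := 0) 0).sub (d1.pderiv (n := 0) 1)) (n := 3) (by omega)
  have e4 := (dL.pderiv (n := 1) 0).mul dβ (n := 3) (by omega)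
  have e5 := (dL.pderiv (n := 1) 1).mul dα (n := 3) (by omega)
  have e6 := d1.mul dβ (n := 3) (by omega)
  have e7 := d2.mul dα (n := 3) (by omega)
  have e8 := (Dle_two.mul dL (a := 0) (n := 2) (by omega)).mul ((dβ.pderiv (n := 1) 0).sub (dα.pderiv (n := 1) 1)) (n := 3) (by omega)
  exact ((((Dle_two.mul (a := 0) (e1.sub e2) (by omega)).sub e3).sub (e4.sub e5)).add (e6.sub e7)).add e8

lemma Dle_EE {h α β : RR} (dh : Dle 3 h) (dα : Dle 2 α) (dβ : Dle 2 β) : Dle 4 (EE h α β) := by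
  unfold EE
  have e3 := dh.mul ((dβ.pderiv (n := 1) 0).sub (dα.pderiv (n := 1) 1)) (n := 4) (by omega)
  have e4 := (dh.pderiv (n := 2) 0).mul dβ (n := 4) (by omega)
  have e5 := (dh.pderiv (n := 2) 1).mul dα (n := 4) (by omega)
  exact e3.sub (e4.sub e5)

/-- polarization -/
noncomputable def FF (h α β h' α' β' : RR) : RR :=
  h * (pderiv 0 β' - pderiv 1 α') + h' * (pderiv 0 β - pderiv 1 α) -
    (pderiv 0 h * β' - pderiv 1 h * α') - (pderiv 0 h' * β - pderiv 1 h' * α)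

lemma FF_eq (h α β h' α' β' : RR) :
    FF h α β h' α' β' = EE (h + h') (α + α') (β + β') - EE h α β - EE h' α' β' := by
  unfold FF EE
  simp only [map_add]
  ring

lemma EE_comb (e1 e2 e3 : ℂ) (h1 α1 β1 h2 α2 β2 h3 α3 β3 : RR) :
    EE (C e1 * h1 + C e2 * h2 + C e3 * h3) (C e1 * α1 + C e2 * α2 + C e3 * α3)
      (C e1 * β1 + C e2 * β2 + C e3 * β3) =
    C e1 * C e1 * EE h1 α1 β1 + C e2 * C e2 * EE h2 α2 β2 + C e3 * C e3 * EE h3 α3 β3 +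
      C e1 * C e2 * FF h1 α1 β1 h2 α2 β2 + C e1 * C e3 * FF h1 α1 β1 h3 α3 β3 +
      C e2 * C e3 * FF h2 α2 β2 h3 α3 β3 := by
  unfold FF EE
  simp only [map_add, Derivation.leibniz, pderiv_C, smul_eq_mul, mul_zero, add_zero]
  ring

lemma UU_left (e1 e2 e3 : ℂ) (h1 α1 β1 h2 α2 β2 h3 α3 β3 L ψ1 ψ2 : RR) :
    UU (C e1 * h1 + C e2 * h2 + C e3 * h3) (C e1 * α1 + C e2 * α2 + C e3 * α3)
      (C e1 * β1 + C e2 * β2 + C e3 * β3) L ψ1 ψ2 =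
    C e1 * UU h1 α1 β1 L ψ1 ψ2 + C e2 * UU h2 α2 β2 L ψ1 ψ2 + C e3 * UU h3 α3 β3 L ψ1 ψ2 := by
  unfold UU
  simp only [map_add, Derivation.leibniz, pderiv_C, smul_eq_mul, mul_zero, add_zero]
  ring

lemma UU_right (c1 c2 c3 c4 c5 c6 : ℂ) (h α β L1 p1 q1 L2 p2 q2 L3 p3 q3 L4 p4 q4 L5 p5 q5 L6 p6 q6 : RR) :
    UU h α β (C c1 * L1 + C c2 * L2 + C c3 * L3 + C c4 * L4 + C c5 * L5 + C c6 * L6)
      (C c1 * p1 + C c2 * p2 + C c3 * p3 + C c4 * p4 + C c5 * p5 + C c6 * p6)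
      (C c1 * q1 + C c2 * q2 + C c3 * q3 + C c4 * q4 + C c5 * q5 + C c6 * q6) =
    C c1 * UU h α β L1 p1 q1 + C c2 * UU h α β L2 p2 q2 + C c3 * UU h α β L3 p3 q3 +
      C c4 * UU h α β L4 p4 q4 + C c5 * UU h α β L5 p5 q5 + C c6 * UU h α β L6 p6 q6 := by
  unfold UU
  simp only [map_add, Derivation.leibniz, pderiv_C, smul_eq_mul, mul_zero, add_zero]
  ring

end Run7.h256
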