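import Mathlib
import Pool.Agent.Run7.h256.Alg

set_option autoImplicit false

namespace Run7.h256

open MvPolynomial

lemma Dle_Cmul {n : ℕ} (c : ℂ) {F : RR} (hF : Dle n F) : Dle n (C c * F) :=
  (Dle.C (n := 0) c).mul hF (by omega)

/-- the ten coefficients vanish -/
lemma ten_vanish {P Q : RR} {s : Fin 2 → ℂ} (hLC : LC P Q s)
    {h1 h2 h3 α1 α2 α3 β1 β2 β3 : RR}
    (c1 : h1 * Dv P Q = α1 * P + β1 * Q) (c2 : h2 * Dv P Q = α2 * P + β2 * Q)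
    (c3 : h3 * Dv P Q = α3 * P + β3 * Q)
    (hne : eval s h1 ≠ 0 ∨ eval s h2 ≠ 0)
    {L11 L22 L33 L12 L13 L23 p11 p22 p33 p12 p13 p23 q11 q22 q33 q12 q13 q23 : RR}
    (e11 : EE h1 α1 β1 = L11 * Dv P Q + p11 * P + q11 * Q)
    (e22 : EE h2 α2 β2 = L22 * Dv P Q + p22 * P + q22 * Q)
    (e33 : EE h3 α3 β3 = L33 * Dv P Q + p33 * P + q33 * Q)
    (e12 : FF h1 α1 β1 h2 α2 β2 = L12 * Dv P Q + p12 * P + q12 * Q)
    (e13 : FF h1 α1 β1 h3 α3 β3 = L13 * Dv P Q + p13 * P + q13 * Q)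
    (e23 : FF h2 α2 β2 h3 α3 β3 = L23 * Dv P Q + p23 * P + q23 * Q) :
    eval s (UU h1 α1 β1 L11 p11 q11) = 0 ∧
    eval s (UU h2 α2 β2 L11 p11 q11 + UU h1 α1 β1 L12 p12 q12) = 0 ∧
    eval s (UU h3 α3 β3 L11 p11 q11 + UU h1 α1 β1 L13 p13 q13) = 0 ∧
    eval s (UU h1 α1 β1 L22 p22 q22 + UU h2 α2 β2 L12 p12 q12) = 0 ∧
    eval s (UU h2 α2 β2 L22 p22 q22) = 0 ∧
    eval s (UU h3 α3 β3 L22 p22 q22 + UU h2 α2 β2 L23 p23 q23) = 0 ∧
    eval s (UU h1 α1 β1 L33 p33 q33 + UU h3 α3 β3 L13 p13 q13) = 0 ∧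
    eval s (UU h2 α2 β2 L33 p33 q33 + UU h3 α3 β3 L23 p23 q23) = 0 ∧
    eval s (UU h3 α3 β3 L33 p33 q33) = 0 ∧
    eval s (UU h1 α1 β1 L23 p23 q23 + UU h2 α2 β2 L13 p13 q13 + UU h3 α3 β3 L12 p12 q12) = 0 := by
  apply cubic_form_zero hne (H3 := eval s h3)
  intro e1 e2 e3 hne'
  have k := hLC (C e1 * h1 + C e2 * h2 + C e3 * h3) (C e1 * α1 + C e2 * α2 + C e3 * α3)
      (C e1 * β1 + C e2 * β2 + C e3 * β3)
      (C (e1 * e1) * L11 + C (e2 * e2) * L22 + C (e3 * e3) * L33 + C (e1 * e2) * L12 +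
        C (e1 * e3) * L13 + C (e2 * e3) * L23)
      (C (e1 * e1) * p11 + C (e2 * e2) * p22 + C (e3 * e3) * p33 + C (e1 * e2) * p12 +
        C (e1 * e3) * p13 + C (e2 * e3) * p23)
      (C (e1 * e1) * q11 + C (e2 * e2) * q22 + C (e3 * e3) * q33 + C (e1 * e2) * q12 +
        C (e1 * e3) * q13 + C (e2 * e3) * q23)
      (by
        show _ * Dv P Q = _
        linear_combination C e1 * c1 + C e2 * c2 + C e3 * c3)
      (by
        show _ = _ * Dv P Q + _ + _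
        rw [EE_comb, e11, e22, e33, e12, e13, e23]
        simp only [C_mul]
        ring)
      (by
        intro h0
        apply hne'
        rw [← h0]
        simp only [map_add, map_mul, eval_C]
        ring)
  rw [UU_left, UU_right, UU_right, UU_right] at k
  simp only [map_add, map_mul, eval_C] at k ⊢
  linear_combination k

/-- the formal identity -/
lemma formal_T {h1 h2 h3 α1 α2 α3 β1 β2 β3 : RR} (rh : X 0 * h1 + X 1 * h2 + h3 = 0)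
    (rα : X 0 * α1 + X 1 * α2 + α3 = 0) (rβ : X 0 * β1 + X 1 * β2 + β3 = 0) (L ψ1 ψ2 : RR) :
    X 0 * UU h1 α1 β1 L ψ1 ψ2 + X 1 * UU h2 α2 β2 L ψ1 ψ2 + UU h3 α3 β3 L ψ1 ψ2 =
    - 2 * (h1 * ψ2 - h2 * ψ1) + 2 * L * (α2 - β1) := by
  have x0 : h3 = -(X 0 * h1 + X 1 * h2) := by linear_combination rh
  have x1 : α3 = -(X 0 * α1 + X 1 * α2) := by linear_combination rα
  have x2 : β3 = -(X 0 * β1 + X 1 * β2) := by linear_combination rβ
  subst x0 x1 x2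
  have p00 : pderiv 0 (X 0 : RR) = 1 := pderiv_X_self 0
  have p11 : pderiv 1 (X 1 : RR) = 1 := pderiv_X_self 1
  have p01 : pderiv 0 (X 1 : RR) = 0 := pderiv_X_of_ne (by decide)
  have p10 : pderiv 1 (X 0 : RR) = 0 := pderiv_X_of_ne (by decide)
  simp only [UU, map_add, map_neg, Derivation.leibniz, smul_eq_mul, p00, p11, p01, p10]
  ring

end Run7.h256
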