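import Mathlib
import Pool.Agent.Run7.h256.Alg

set_option autoImplicit false

namespace Run7.h256

open MvPolynomial

lemma FF_self (h α β : RR) : FF h α β h α β = 2 * EE h α β := by
  unfold FF EE; ring

/-- the identity behind the final contradiction -/
lemma final_id {P Q a1 a2 a3 h1 h2 h3 α1 α2 α3 β1 β2 β3 : RR}
    (i : a1 * h1 + a2 * h2 + a3 * h3 = P)
    (ii : a1 * α1 + a2 * α2 + a3 * α3 = Dv P Q)
    (iii : a1 * β1 + a2 * β2 + a3 * β3 = 0)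
    (iv1 : h1 * β2 - h2 * β1 = - P) (iv2 : h1 * β3 - h3 * β1 = X 1 * P)
    (iv3 : h1 * α2 - h2 * α1 = Q) (iv4 : h1 * α3 - h3 * α1 = - X 1 * Q)
    (c1 : h1 * Dv P Q = α1 * P + β1 * Q) :
    2 * a1 * EE h1 α1 β1 + a2 * FF h1 α1 β1 h2 α2 β2 + a3 * FF h1 α1 β1 h3 α3 β3 =
      Dv P Q * (2 * pderiv 1 h1 - β1) + P * (pderiv 0 β1 - 2 * pderiv 1 α1 + pderiv 0 a2 - X 1 * pderiv 0 a3)
      + Q * (- pderiv 1 β1 + pderiv 1 a2 - X 1 * pderiv 1 a3) := by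
  have ix := congrArg (pderiv 0) i
  have iy := congrArg (pderiv 1) i
  have iiy := congrArg (pderiv 1) ii
  have iiix := congrArg (pderiv 0) iii
  have cy := congrArg (pderiv 1) c1
  simp only [map_add, Derivation.leibniz, smul_eq_mul, map_zero] at ix iy iiy iiix cy
  have hD : Dv P Q = pderiv 0 P + pderiv 1 Q := rfl
  have e : 2 * a1 * EE h1 α1 β1 = a1 * FF h1 α1 β1 h1 α1 β1 := by rw [FF_self]; ring
  rw [e]
  unfold FF
  linear_combination h1 * iiix - h1 * iiy + (pderiv 0 β1 - pderiv 1 α1) * i - pderiv 0 h1 * iii +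
    pderiv 1 h1 * ii - β1 * ix + α1 * iy - cy - pderiv 0 a2 * iv1 - pderiv 0 a3 * iv2 +
    pderiv 1 a2 * iv3 + pderiv 1 a3 * iv4 + β1 * hD

/-- the three contraction identities -/
lemma contr {P Q h1 h2 h3 α1 α2 α3 β1 β2 β3 : RR} (rh : X 0 * h1 + X 1 * h2 + h3 = 0)
    (rα : X 0 * α1 + X 1 * α2 + α3 = 0) (rβ : X 0 * β1 + X 1 * β2 + β3 = 0)
    (hP : h2 * β1 - h1 * β2 = P) (hQ : h1 * α2 - h2 * α1 = Q) :
    2 * X 0 * EE h1 α1 β1 + X 1 * FF h1 α1 β1 h2 α2 β2 + FF h1 α1 β1 h3 α3 β3 = Q ∧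
    X 0 * FF h1 α1 β1 h2 α2 β2 + 2 * X 1 * EE h2 α2 β2 + FF h2 α2 β2 h3 α3 β3 = - P ∧
    X 0 * FF h1 α1 β1 h3 α3 β3 + X 1 * FF h2 α2 β2 h3 α3 β3 + 2 * EE h3 α3 β3 = X 1 * P - X 0 * Q := by
  have x0 : h3 = -(X 0 * h1 + X 1 * h2) := by linear_combination rh
  have x1 : α3 = -(X 0 * α1 + X 1 * α2) := by linear_combination rα
  have x2 : β3 = -(X 0 * β1 + X 1 * β2) := by linear_combination rβ
  subst x0 x1 x2
  have p00 : pderiv 0 (X 0 : RR) = 1 := pderiv_X_self 0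
  have p11 : pderiv 1 (X 1 : RR) = 1 := pderiv_X_self 1
  have p01 : pderiv 0 (X 1 : RR) = 0 := pderiv_X_of_ne (by decide)
  have p10 : pderiv 1 (X 0 : RR) = 0 := pderiv_X_of_ne (by decide)
  simp only [EE, FF, map_add, map_neg, Derivation.leibniz, smul_eq_mul, p00, p11, p01, p10]
  refine ⟨?_, ?_, ?_⟩
  · linear_combination hQ
  · linear_combination (-1 : RR) * hP
  · linear_combination X 1 * hP - X 0 * hQ

lemma lin_zero {c1 c2 : ℂ} {F : RR} {c3 : ℂ} (hF : F = C c3) (h : C c1 * X 0 + C c2 * X 1 + F = 0) :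
    c1 = 0 ∧ c2 = 0 ∧ c3 = 0 := by
  subst hF
  have e0 := congrArg (eval ![0, 0]) h
  have e1 := congrArg (eval ![1, 0]) h
  have e2 := congrArg (eval ![0, 1]) h
  simp only [map_add, map_mul, eval_C, eval_X, map_zero, Matrix.cons_val_zero, Matrix.cons_val_one,
    mul_one, mul_zero, add_zero, zero_add] at e0 e1 e2
  rw [e0, add_zero] at e1 e2
  exact ⟨e1, e2, e0⟩

end Run7.h256
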