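import Mathlib
import Pool.Agent.Run7.h256.HB

set_option autoImplicit false

namespace Run7.h256

open MvPolynomial

/-- the Hilbert-Burch data -/
structure HBd (P Q : RR) where
  R : RR
  a1 : RR
  a2 : RR
  a3 : RR
  b1 : RR
  b2 : RR
  b3 : RR
  q1 : RR
  q2 : RR
  q3 : RR
  dR : Dle 4 R
  da1 : Dle 1 a1
  da2 : Dle 1 a2
  da3 : Dle 1 a3
  db1 : Dle 1 b1
  db2 : Dle 1 b2
  db3 : Dle 1 b3
  dq1 : Dle 2 q1
  dq2 : Dle 2 q2
  dq3 : Dle 2 q3
  r1 : Q * a1 - P * b1 + R * X 0 + Dv P Q * q1 = 0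
  r2 : Q * a2 - P * b2 + R * X 1 + Dv P Q * q2 = 0
  r3 : Q * a3 - P * b3 + R + Dv P Q * q3 = 0
  m1 : a1 * (X 1 * q3 - q2) + a2 * (q1 - X 0 * q3) + a3 * (X 0 * q2 - X 1 * q1) = P
  m2 : b1 * (X 1 * q3 - q2) + b2 * (q1 - X 0 * q3) + b3 * (X 0 * q2 - X 1 * q1) = Q
  m3 : X 0 * (a2 * b3 - a3 * b2) + X 1 * (a3 * b1 - a1 * b3) + (a1 * b2 - a2 * b1) = - Dv P Q

lemma exists_gcdsplit (a b : RR) : ∃ g a' b' : RR, IsRelPrime a' b' ∧ g * a' = a ∧ g * b' = b := by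
  by_cases ha : a = 0
  · by_cases hb : b = 0
    · exact ⟨0, 1, 1, isRelPrime_one_left, by simp [ha], by simp [hb]⟩
    · obtain ⟨b', a', g, h1, h2, h3⟩ := UniqueFactorizationMonoid.exists_reduced_factors b hb a
      exact ⟨g, a', b', h1.symm, h3, h2⟩
  · obtain ⟨a', b', g, h1, h2, h3⟩ := UniqueFactorizationMonoid.exists_reduced_factors a ha b
    exact ⟨g, a', b', h1, h2, h3⟩

lemma split_prop {a b u v : RR} (hab : IsRelPrime a b) (h : a * v = b * u) :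
    ∃ k : RR, u = a * k ∧ v = b * k := by
  by_cases ha : a = 0
  · subst ha
    have hb : IsUnit b := hab (dvd_zero b) dvd_rfl
    rw [zero_mul] at h
    obtain ⟨c, hc⟩ := hb.exists_right_inv
    refine ⟨c * v, ?_, ?_⟩
    · rw [zero_mul]
      linear_combination (-c) * h - u * hc
    · linear_combination (-v) * hc
  · obtain ⟨k, hk⟩ := hab.dvd_of_dvd_mul_left (show a ∣ b * u from ⟨v, h.symm⟩)
    refine ⟨k, hk, ?_⟩
    apply mul_left_cancel₀ ha
    rw [h, hk]; ring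

lemma Dle_of_mul {n m l : ℕ} {F G : RR} (h : Dle n (F * G)) (hG : G ≠ 0) (hm : ¬ Dle m G)
    (hl : n ≤ l + m + 1) : Dle l F := by
  by_cases hF : F = 0
  · rw [hF]; exact Dle.zero
  · unfold Dle at *
    rw [totalDegree_mul_eq hF hG] at h
    omega

namespace ND

variable {P Q : RR} {Z S : Finset (Fin 2 → ℂ)}

lemma exists_mu (h : ND P Q Z S) {R a1 a2 a3 b1 b2 b3 q1 q2 q3 : RR}
    (da1 : Dle 1 a1) (da2 : Dle 1 a2) (da3 : Dle 1 a3) (dq1 : Dle 2 q1) (dq2 : Dle 2 q2)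
    (dq3 : Dle 2 q3)
    (r1 : Q * a1 - P * b1 + R * X 0 + Dv P Q * q1 = 0)
    (r2 : Q * a2 - P * b2 + R * X 1 + Dv P Q * q2 = 0)
    (r3 : Q * a3 - P * b3 + R + Dv P Q * q3 = 0) :
    ∃ μ : ℂ,
      a1 * (X 1 * q3 - q2) + a2 * (q1 - X 0 * q3) + a3 * (X 0 * q2 - X 1 * q1) = C μ * P ∧
      b1 * (X 1 * q3 - q2) + b2 * (q1 - X 0 * q3) + b3 * (X 0 * q2 - X 1 * q1) = C μ * Q ∧
      X 0 * (a2 * b3 - a3 * b2) + X 1 * (a3 * b1 - a1 * b3) + (a1 * b2 - a2 * b1) =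
        - (C μ * Dv P Q) := by
  have e1 : Q * (a1 * (X 1 * q3 - q2) + a2 * (q1 - X 0 * q3) + a3 * (X 0 * q2 - X 1 * q1)) =
      P * (b1 * (X 1 * q3 - q2) + b2 * (q1 - X 0 * q3) + b3 * (X 0 * q2 - X 1 * q1)) := by
    linear_combination (X 1 * q3 - q2) * r1 + (q1 - X 0 * q3) * r2 + (X 0 * q2 - X 1 * q1) * r3
  obtain ⟨m, hm⟩ := (h.n.ci.relPrime).dvd_of_dvd_mul_left
    (show P ∣ Q * (a1 * (X 1 * q3 - q2) + a2 * (q1 - X 0 * q3) + a3 * (X 0 * q2 - X 1 * q1)) from ⟨_, e1⟩)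
  have dm : Dle 4 (P * m) := by
    rw [← hm]
    have hx : Dle 1 (X 0 : RR) := Dle.X le_rfl 0
    have hy : Dle 1 (X 1 : RR) := Dle.X le_rfl 1
    have k1 : Dle 3 (X 1 * q3 - q2) := (hy.mul dq3 (by omega)).sub (dq2.mono (by norm_num))
    have k2 : Dle 3 (q1 - X 0 * q3) := (dq1.mono (by norm_num)).sub (hx.mul dq3 (by omega))
    have k3 : Dle 3 (X 0 * q2 - X 1 * q1) := (hx.mul dq2 (by omega)).sub (hy.mul dq1 (by omega))
    exact ((da1.mul k1 (by omega)).add (da2.mul k2 (by omega))).add (da3.mul k3 (by omega))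
  have hm0 : Dle 0 m := by
    by_cases h0 : m = 0
    · rw [h0]; exact Dle.zero
    · unfold Dle at *
      rw [totalDegree_mul_eq h.n.ci.P_ne_zero h0, h.n.ci.degs.1] at dm
      omega
  obtain ⟨μ, rfl⟩ := exists_const hm0
  have e2 : b1 * (X 1 * q3 - q2) + b2 * (q1 - X 0 * q3) + b3 * (X 0 * q2 - X 1 * q1) = C μ * Q := by
    apply mul_left_cancel₀ h.n.ci.P_ne_zero
    rw [← e1, hm]; ring
  refine ⟨μ, by rw [hm]; ring, e2, ?_⟩
  apply mul_left_cancel₀ h.n.ci.Q_ne_zero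
  linear_combination (b2 - X 1 * b3) * r1 + (X 0 * b3 - b1) * r2 + (X 1 * b1 - X 0 * b2) * r3 - Dv P Q * e2

lemma mu_ne (h : ND P Q Z S) {R a1 a2 a3 b1 b2 b3 q1 q2 q3 : RR} (dR : Dle 4 R)
    (hR : ∀ l u v : RR, Dle 1 l → Dle 0 u → Dle 0 v → l * Dv P Q + u * P + v * Q ≠ R)
    (dq1 : Dle 2 q1) (dq2 : Dle 2 q2) (dq3 : Dle 2 q3) (db3 : Dle 1 b3)
    (r1 : Q * a1 - P * b1 + R * X 0 + Dv P Q * q1 = 0)
    (r2 : Q * a2 - P * b2 + R * X 1 + Dv P Q * q2 = 0)
    (r3 : Q * a3 - P * b3 + R + Dv P Q * q3 = 0)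
    (e1 : a1 * (X 1 * q3 - q2) + a2 * (q1 - X 0 * q3) + a3 * (X 0 * q2 - X 1 * q1) = 0)
    (e2 : b1 * (X 1 * q3 - q2) + b2 * (q1 - X 0 * q3) + b3 * (X 0 * q2 - X 1 * q1) = 0) : False := by
  have hx : Dle 1 (X 0 : RR) := Dle.X le_rfl 0
  have hy : Dle 1 (X 1 : RR) := Dle.X le_rfl 1
  have k1 : Dle 3 (X 1 * q3 - q2) := (hy.mul dq3 (by omega)).sub (dq2.mono (by norm_num))
  have k2 : Dle 3 (q1 - X 0 * q3) := (dq1.mono (by norm_num)).sub (hx.mul dq3 (by omega))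
  have k3 : Dle 3 (X 0 * q2 - X 1 * q1) := (hx.mul dq2 (by omega)).sub (hy.mul dq1 (by omega))
  obtain ⟨g, h1, h2, hrel, hg1, hg2⟩ := exists_gcdsplit (X 1 * q3 - q2) (q1 - X 0 * q3)
  by_cases hg : g = 0
  · -- all cross products vanish
    rw [hg, zero_mul] at hg1 hg2
    have d3 : Dle 1 q3 := by
      apply CI16.Dle_of_X_mul
      have : X 0 * q3 = q1 := by linear_combination hg2
      rw [this]; exact dq1
    obtain ⟨u, v, hu, hv, huv⟩ := h.n.ci.noether4 (F := P * b3 - Q * a3)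
      (by
        have : P * b3 - Q * a3 = R + Dv P Q * q3 := by linear_combination -r3
        rw [this]
        exact dR.add (Dle.mul h.dD d3 (by omega)))
      (by
        intro z hz
        have := (h.n.ci.hZ z).1 hz
        simp [this.1, this.2])
    obtain ⟨h4, h5⟩ := h.n.ci.inj3 (u := b3 - u) (v := - a3 - v)
      ((db3.mono (by norm_num)).sub (hu.mono (by norm_num))) (by linear_combination huv)
    apply hR (-q3) u v (Dle.neg d3) hu hv
    linear_combination (-1 : RR) * huv - r3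
  · have s1 : h1 * (X 0 * a3 - a1) = h2 * (a2 - X 1 * a3) := by
      apply mul_left_cancel₀ hg
      linear_combination (X 0 * a3 - a1) * hg1 - (a2 - X 1 * a3) * hg2 - e1
    have s2 : h1 * (b1 - X 0 * b3) = h2 * (X 1 * b3 - b2) := by
      apply mul_left_cancel₀ hg
      linear_combination (b1 - X 0 * b3) * hg1 - (X 1 * b3 - b2) * hg2 + e2
    obtain ⟨κ2, t1, t2⟩ := split_prop hrel s1
    obtain ⟨κ1, t3, t4⟩ := split_prop hrel s2
    have c1 : h1 * (g * Dv P Q + (-κ1) * P + (-κ2) * Q) = 0 := by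
      linear_combination (Dv P Q) * hg1 + X 1 * r3 - r2 + P * t3 + Q * t1
    have c2 : h2 * (g * Dv P Q + (-κ1) * P + (-κ2) * Q) = 0 := by
      linear_combination (Dv P Q) * hg2 - X 0 * r3 + r1 + P * t4 + Q * t2
    have c3 : g * Dv P Q + (-κ1) * P + (-κ2) * Q = 0 := by
      rcases mul_eq_zero.1 c1 with c4 | c4
      · rcases mul_eq_zero.1 c2 with c5 | c5
        · exfalso
          rw [c4, c5] at hrel
          have := hrel (dvd_refl 0) (dvd_refl 0)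
          exact not_isUnit_zero this
        · exact c5
      · exact c4
    apply hg
    refine h.f_zero ?_ c3
    by_cases hw : X 0 * h1 + X 1 * h2 = 0
    · -- then h1 is a multiple of y
      have h1n : h1 ≠ 0 := by
        intro h10
        rw [h10, mul_zero, zero_add] at hw
        have h20 : h2 = 0 := by
          rcases mul_eq_zero.1 hw with h' | h'
          · exact absurd h' (X_ne_zero 1)
          · exact h'
        rw [h10, h20] at hrel
        exact not_isUnit_zero (hrel (dvd_refl 0) (dvd_refl 0))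
      apply Dle_of_mul (n := 3) (m := 0) (G := h1) (by rw [hg1]; exact k1) h1n
      · intro h0
        obtain ⟨c, rfl⟩ := exists_const h0
        have h3 := congrArg (eval ![1, 0]) hw
        simp at h3
        apply h1n
        rw [h3, C_0]
      · norm_num
    · apply Dle_of_mul (n := 3) (m := 0) (G := X 0 * h1 + X 1 * h2) (F := g)
      · have : g * (X 0 * h1 + X 1 * h2) = - (X 0 * q2 - X 1 * q1) := by
          linear_combination X 0 * hg1 + X 1 * hg2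
        rw [this]; exact k3.neg
      · exact hw
      · intro h0
        obtain ⟨c, hc⟩ := exists_const h0
        have h3 := congrArg (eval ![0, 0]) hc
        simp at h3
        apply hw
        rw [hc, ← h3, C_0]
      · norm_num

theorem exists_HBd (h : ND P Q Z S) : ∃ H : HBd P Q, (∀ s ∈ S, eval s H.R = 0) ∧
    ∀ F : RR, Dle 4 F → (∀ s ∈ S, eval s F = 0) → ∃ l : RR, ∃ u v w : ℂ, Dle 1 l ∧
      F = l * Dv P Q + C u * P + C v * Q + C w * H.R := by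
  obtain ⟨R, dR, hRS, hR⟩ := h.exists_R
  obtain ⟨a1, b1, q1, da1, db1, dq1, r1⟩ := h.exists_syz dR hRS (w := X 0) (Dle.X le_rfl 0)
  obtain ⟨a2, b2, q2, da2, db2, dq2, r2⟩ := h.exists_syz dR hRS (w := X 1) (Dle.X le_rfl 1)
  obtain ⟨a3, b3, q3, da3, db3, dq3, r3⟩ := h.exists_syz dR hRS (w := 1) Dle.one
  rw [mul_one] at r3
  obtain ⟨μ, m1, m2, m3⟩ := h.exists_mu da1 da2 da3 dq1 dq2 dq3 r1 r2 r3
  have hμ : μ ≠ 0 := by
    rintro rfl
    rw [C_0, zero_mul] at m1 m2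
    exact h.mu_ne dR hR dq1 dq2 dq3 db3 r1 r2 r3 m1 m2
  obtain ⟨ν, hν⟩ := IsAlgClosed.exists_pow_nat_eq (μ⁻¹) (n := 2) (by norm_num)
  have hν0 : ν ≠ 0 := by
    rintro rfl
    apply inv_ne_zero hμ
    rw [← hν]; norm_num
  have hν2 : (C ν * C ν * C μ : RR) = 1 := by
    rw [← C_mul, ← C_mul, ← pow_two, hν, inv_mul_cancel₀ hμ, C_1]
  have hν3 : (C ν * C ν⁻¹ : RR) = 1 := by
    rw [← C_mul, mul_inv_cancel₀ hν0, C_1]
  refine ⟨⟨C ν * R, C ν * a1, C ν * a2, C ν * a3, C ν * b1, C ν * b2, C ν * b3, C ν * q1, C ν * q2,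
    C ν * q3, (Dle.C (n := 0) _).mul dR (by omega), (Dle.C (n := 0) _).mul da1 (by omega), (Dle.C (n := 0) _).mul da2 (by omega),
    (Dle.C (n := 0) _).mul da3 (by omega), (Dle.C (n := 0) _).mul db1 (by omega), (Dle.C (n := 0) _).mul db2 (by omega),
    (Dle.C (n := 0) _).mul db3 (by omega), (Dle.C (n := 0) _).mul dq1 (by omega), (Dle.C (n := 0) _).mul dq2 (by omega),
    (Dle.C (n := 0) _).mul dq3 (by omega), ?_, ?_, ?_, ?_, ?_, ?_⟩, ?_, ?_⟩
  · linear_combination C ν * r1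
  · linear_combination C ν * r2
  · linear_combination C ν * r3
  · linear_combination (C ν * C ν) * m1 + P * hν2
  · linear_combination (C ν * C ν) * m2 + Q * hν2
  · linear_combination (C ν * C ν) * m3 - Dv P Q * hν2
  · intro s hs
    show eval s (C ν * R) = 0
    rw [map_mul, hRS s hs, mul_zero]
  · intro F hF hFS
    obtain ⟨l, u, v, w, hl, he⟩ := h.span4 dR hRS hR hF hFS
    refine ⟨l, u, v, w * ν⁻¹, hl, ?_⟩
    rw [he]
    show _ = l * Dv P Q + C u * P + C v * Q + C (w * ν⁻¹) * (C ν * R)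
    rw [C_mul]
    linear_combination (- C w * R) * hν3

end ND

end Run7.h256
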