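import Mathlib
import Pool.Agent.Run7.h256.Alg2
import Pool.Agent.Run7.h256.Alg3
import Pool.Agent.Run7.h256.HB2

set_option autoImplicit false

namespace Run7.h256

open MvPolynomial

namespace ND

variable {P Q : RR} {Z S : Finset (Fin 2 → ℂ)}

/-- at a point of `S` not all `h` vanish -/
lemma h_ne (h : ND P Q Z S) {h1 h2 α1 α2 β1 β2 : RR} (hP : h2 * β1 - h1 * β2 = P)
    (hQ : h1 * α2 - h2 * α1 = Q) (hD : α2 * β1 - α1 * β2 = Dv P Q) {s : Fin 2 → ℂ} (hs : s ∈ S) :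
    eval s h1 ≠ 0 ∨ eval s h2 ≠ 0 := by
  by_contra hcon
  push Not at hcon
  obtain ⟨z1, z2⟩ := hcon
  apply h.n.ci.jac_ne_zero (h.n.sub hs)
  have hDs := h.dS s hs
  rw [← hD] at hDs
  have e1 := congrArg (fun F => eval s (pderiv 0 F)) hP
  have e2 := congrArg (fun F => eval s (pderiv 1 F)) hP
  have e3 := congrArg (fun F => eval s (pderiv 0 F)) hQ
  have e4 := congrArg (fun F => eval s (pderiv 1 F)) hQ
  simp only [map_sub, map_add, map_mul, Derivation.leibniz, smul_eq_mul, z1, z2, zero_mul,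
    zero_add] at e1 e2 e3 e4 hDs
  simp only [Jac, map_sub, map_mul]
  rw [← e1, ← e2, ← e3, ← e4]
  linear_combination (eval s (pderiv 0 h2) * eval s (pderiv 1 h1) -
    eval s (pderiv 0 h1) * eval s (pderiv 1 h2)) * hDs

theorem contradiction (h : ND P Q Z S) (hK : ∀ s ∈ S, KC P Q s) (hL : ∀ s ∈ S, LC P Q s) : False := by
  obtain ⟨H, hRS, hspan⟩ := h.exists_HBd
  obtain ⟨R, a1, a2, a3, b1, b2, b3, q1, q2, q3, dR, da1, da2, da3, db1, db2, db3, dq1, dq2, dq3,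
    r1, r2, r3, m1, m2, m3⟩ := H
  change ∀ s ∈ S, eval s R = 0 at hRS
  change ∀ F : RR, Dle 4 F → (∀ s ∈ S, eval s F = 0) → ∃ l : RR, ∃ u v w : ℂ, Dle 1 l ∧
      F = l * Dv P Q + C u * P + C v * Q + C w * R at hspan
  have hx : Dle 1 (X 0 : RR) := Dle.X le_rfl 0
  have hy : Dle 1 (X 1 : RR) := Dle.X le_rfl 1
  obtain ⟨h1, eh1⟩ : ∃ h1, h1 = X 1 * q3 - q2 := ⟨_, rfl⟩
  obtain ⟨h2, eh2⟩ : ∃ h2, h2 = q1 - X 0 * q3 := ⟨_, rfl⟩
  obtain ⟨h3, eh3⟩ : ∃ h3, h3 = X 0 * q2 - X 1 * q1 := ⟨_, rfl⟩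
  obtain ⟨α1, eα1⟩ : ∃ α1, α1 = X 1 * b3 - b2 := ⟨_, rfl⟩
  obtain ⟨α2, eα2⟩ : ∃ α2, α2 = b1 - X 0 * b3 := ⟨_, rfl⟩
  obtain ⟨α3, eα3⟩ : ∃ α3, α3 = X 0 * b2 - X 1 * b1 := ⟨_, rfl⟩
  obtain ⟨β1, eβ1⟩ : ∃ β1, β1 = a2 - X 1 * a3 := ⟨_, rfl⟩
  obtain ⟨β2, eβ2⟩ : ∃ β2, β2 = X 0 * a3 - a1 := ⟨_, rfl⟩
  obtain ⟨β3, eβ3⟩ : ∃ β3, β3 = X 1 * a1 - X 0 * a2 := ⟨_, rfl⟩
  have dh1 : Dle 3 h1 := by rw [eh1]; exact (hy.mul dq3 (by omega)).sub (dq2.mono (by norm_num))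
  have dh2 : Dle 3 h2 := by rw [eh2]; exact (dq1.mono (by norm_num)).sub (hx.mul dq3 (by omega))
  have dh3 : Dle 3 h3 := by rw [eh3]; exact (hx.mul dq2 (by omega)).sub (hy.mul dq1 (by omega))
  have dα1 : Dle 2 α1 := by rw [eα1]; exact (hy.mul db3 (by omega)).sub (db2.mono (by norm_num))
  have dα2 : Dle 2 α2 := by rw [eα2]; exact (db1.mono (by norm_num)).sub (hx.mul db3 (by omega))
  have dα3 : Dle 2 α3 := by rw [eα3]; exact (hx.mul db2 (by omega)).sub (hy.mul db1 (by omega))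
  have dβ1 : Dle 2 β1 := by rw [eβ1]; exact (da2.mono (by norm_num)).sub (hy.mul da3 (by omega))
  have dβ2 : Dle 2 β2 := by rw [eβ2]; exact (hx.mul da3 (by omega)).sub (da1.mono (by norm_num))
  have dβ3 : Dle 2 β3 := by rw [eβ3]; exact (hy.mul da1 (by omega)).sub (hx.mul da2 (by omega))
  have c1 : h1 * Dv P Q = α1 * P + β1 * Q := by
    rw [eh1, eα1, eβ1]; linear_combination X 1 * r3 - r2
  have c2 : h2 * Dv P Q = α2 * P + β2 * Q := by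
    rw [eh2, eα2, eβ2]; linear_combination r1 - X 0 * r3
  have c3 : h3 * Dv P Q = α3 * P + β3 * Q := by
    rw [eh3, eα3, eβ3]; linear_combination X 0 * r2 - X 1 * r1
  have rh : X 0 * h1 + X 1 * h2 + h3 = 0 := by rw [eh1, eh2, eh3]; ring
  have rα : X 0 * α1 + X 1 * α2 + α3 = 0 := by rw [eα1, eα2, eα3]; ring
  have rβ : X 0 * β1 + X 1 * β2 + β3 = 0 := by rw [eβ1, eβ2, eβ3]; ring
  have hP : h2 * β1 - h1 * β2 = P := by rw [← m1, eh1, eh2, eβ1, eβ2]; ring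
  have hQ : h1 * α2 - h2 * α1 = Q := by rw [← m2, eh1, eh2, eα1, eα2]; ring
  have hD : α2 * β1 - α1 * β2 = Dv P Q := by
    rw [← neg_eq_iff_eq_neg] at m3
    rw [← m3, eα1, eα2, eβ1, eβ2]; ring
  -- expansions
  have kE : ∀ s ∈ S, ∀ g α β : RR, g * Dv P Q = α * P + β * Q → eval s (EE g α β) = 0 :=
    fun s hs g α β he => hK s hs g α β he
  have kF : ∀ s ∈ S, ∀ g α β g' α' β' : RR, g * Dv P Q = α * P + β * Q →
      g' * Dv P Q = α' * P + β' * Q → eval s (FF g α β g' α' β') = 0 := by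
    intro s hs g α β g' α' β' he he'
    rw [FF_eq, map_sub, map_sub, kE s hs g α β he, kE s hs g' α' β' he',
      kE s hs (g + g') (α + α') (β + β') (by linear_combination he + he')]
    ring
  have dFF : ∀ g α β g' α' β' : RR, Dle 3 g → Dle 2 α → Dle 2 β → Dle 3 g' → Dle 2 α' → Dle 2 β' →
      Dle 4 (FF g α β g' α' β') := by
    intro g α β g' α' β' d1 d2 d3 d4 d5 d6
    rw [FF_eq]
    exact ((Dle_EE (d1.add d4) (d2.add d5) (d3.add d6)).sub (Dle_EE d1 d2 d3)).sub (Dle_EE d4 d5 d6)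
  obtain ⟨l11, u11, v11, w11, dl11, e11⟩ := hspan (EE h1 α1 β1) (Dle_EE dh1 dα1 dβ1)
    (fun s hs => kE s hs _ _ _ c1)
  obtain ⟨l22, u22, v22, w22, dl22, e22⟩ := hspan (EE h2 α2 β2) (Dle_EE dh2 dα2 dβ2)
    (fun s hs => kE s hs _ _ _ c2)
  obtain ⟨l33, u33, v33, w33, dl33, e33⟩ := hspan (EE h3 α3 β3) (Dle_EE dh3 dα3 dβ3)
    (fun s hs => kE s hs _ _ _ c3)
  obtain ⟨l12, u12, v12, w12, dl12, e12⟩ := hspan (FF h1 α1 β1 h2 α2 β2)
    (dFF _ _ _ _ _ _ dh1 dα1 dβ1 dh2 dα2 dβ2) (fun s hs => kF s hs _ _ _ _ _ _ c1 c2)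
  obtain ⟨l13, u13, v13, w13, dl13, e13⟩ := hspan (FF h1 α1 β1 h3 α3 β3)
    (dFF _ _ _ _ _ _ dh1 dα1 dβ1 dh3 dα3 dβ3) (fun s hs => kF s hs _ _ _ _ _ _ c1 c3)
  obtain ⟨l23, u23, v23, w23, dl23, e23⟩ := hspan (FF h2 α2 β2 h3 α3 β3)
    (dFF _ _ _ _ _ _ dh2 dα2 dβ2 dh3 dα3 dβ3) (fun s hs => kF s hs _ _ _ _ _ _ c2 c3)
  obtain ⟨t1, t2, t3⟩ := contr rh rα rβ hP hQ
  rw [e11, e12, e13] at t1
  rw [e12, e22, e23] at t2
  rw [e13, e23, e33] at t3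
  -- degree one constants
  have dC : ∀ (n : ℕ) (c : ℂ), Dle n (C c : RR) := fun n c => Dle.C c
  have d2l : ∀ {l l' l'' q q' q'' : RR}, ∀ {w w' w'' : ℂ}, Dle 1 l → Dle 1 l' → Dle 1 l'' → Dle 2 q →
      Dle 2 q' → Dle 2 q'' → ∀ (x y z : RR), Dle 1 x → Dle 1 y → Dle 1 z → Dle 2 (x * l + y * l' + z * l'' -
        (C w * q + C w' * q' + C w'' * q'')) := by
    intro l l' l'' q q' q'' w w' w'' g1 g2 g3 g4 g5 g6 x y z g7 g8 g9
    exact (((g7.mul g1 (by omega)).add (g8.mul g2 (by omega))).add (g9.mul g3 (by omega))).sub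
      (((Dle_Cmul _ g4).add (Dle_Cmul _ g5)).add (Dle_Cmul _ g6))
  have d2p : ∀ {u v w p q r : ℂ} {b b' b'' c : RR}, ∀ (x y z : RR), Dle 1 x → Dle 1 y → Dle 1 z → Dle 1 b →
      Dle 1 b' → Dle 1 b'' → Dle 1 c → Dle 3 (x * C u + y * C v + z * C w +
        (C p * b + C q * b' + C r * b'') + c) := by
    intro u v w p q r b b' b'' c x y z g1 g2 g3 g4 g5 g6 g7
    exact (((((g1.mul (dC 0 u) (by omega)).add (g2.mul (dC 0 v) (by omega) )).add (g3.mul (dC 0 w) (by omega))).add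
      (((Dle_Cmul _ g4).add (Dle_Cmul _ g5)).add (Dle_Cmul _ g6))).add g7).mono (by norm_num) (m := 1)
  have h2x : Dle 1 (2 * X 0 : RR) := Dle_two.mul hx (a := 0) (by omega)
  have h2y : Dle 1 (2 * X 1 : RR) := Dle_two.mul hy (a := 0) (by omega)
  have C2 : (C 2 : RR) = 2 := map_ofNat C 2
  obtain ⟨A1, B1, G1⟩ := h.all_zero
    (f := 2 * X 0 * l11 + X 1 * l12 + 1 * l13 - (C (2 * w11) * q1 + C w12 * q2 + C w13 * q3))
    (u := 2 * X 0 * C u11 + X 1 * C u12 + 1 * C u13 + (C (2 * w11) * b1 + C w12 * b2 + C w13 * b3) + 0)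
    (v := 2 * X 0 * C v11 + X 1 * C v12 + 1 * C v13 - (C (2 * w11) * a1 + C w12 * a2 + C w13 * a3) - 1)
    (d2l dl11 dl12 dl13 dq1 dq2 dq3 _ _ _ h2x hy Dle.one)
    (d2p _ _ _ h2x hy Dle.one db1 db2 db3 Dle.zero)
    (by
      rw [C_mul, C2]
      linear_combination t1 - 2 * C w11 * r1 - C w12 * r2 - C w13 * r3)
  obtain ⟨A2, B2, G2⟩ := h.all_zero
    (f := X 0 * l12 + 2 * X 1 * l22 + 1 * l23 - (C w12 * q1 + C (2 * w22) * q2 + C w23 * q3))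
    (u := X 0 * C u12 + 2 * X 1 * C u22 + 1 * C u23 + (C w12 * b1 + C (2 * w22) * b2 + C w23 * b3) + 1)
    (v := X 0 * C v12 + 2 * X 1 * C v22 + 1 * C v23 - (C w12 * a1 + C (2 * w22) * a2 + C w23 * a3))
    (d2l dl12 dl22 dl23 dq1 dq2 dq3 _ _ _ hx h2y Dle.one)
    (d2p _ _ _ hx h2y Dle.one db1 db2 db3 Dle.one)
    (by
      rw [C_mul, C2]
      linear_combination t2 - C w12 * r1 - 2 * C w22 * r2 - C w23 * r3)
  obtain ⟨A3, B3, G3⟩ := h.all_zero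
    (f := X 0 * l13 + X 1 * l23 + 2 * l33 - (C w13 * q1 + C w23 * q2 + C (2 * w33) * q3))
    (u := X 0 * C u13 + X 1 * C u23 + 2 * C u33 + (C w13 * b1 + C w23 * b2 + C (2 * w33) * b3) + - X 1)
    (v := X 0 * C v13 + X 1 * C v23 + 2 * C v33 - (C w13 * a1 + C w23 * a2 + C (2 * w33) * a3) + X 0)
    (d2l dl13 dl23 dl33 dq1 dq2 dq3 _ _ _ hx hy Dle_two)
    (d2p _ _ _ hx hy Dle_two db1 db2 db3 hy.neg)
    (by
      rw [C_mul, C2]
      linear_combination t3 - C w13 * r1 - C w23 * r2 - 2 * C w33 * r3)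
  -- exact forms
  have x11 : EE h1 α1 β1 = (l11 - C w11 * q3) * Dv P Q + (C u11 + C w11 * b3) * P +
      (C v11 - C w11 * a3) * Q := by rw [e11]; linear_combination C w11 * r3
  have x22 : EE h2 α2 β2 = (l22 - C w22 * q3) * Dv P Q + (C u22 + C w22 * b3) * P +
      (C v22 - C w22 * a3) * Q := by rw [e22]; linear_combination C w22 * r3
  have x33 : EE h3 α3 β3 = (l33 - C w33 * q3) * Dv P Q + (C u33 + C w33 * b3) * P +
      (C v33 - C w33 * a3) * Q := by rw [e33]; linear_combination C w33 * r3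
  have x12 : FF h1 α1 β1 h2 α2 β2 = (l12 - C w12 * q3) * Dv P Q + (C u12 + C w12 * b3) * P +
      (C v12 - C w12 * a3) * Q := by rw [e12]; linear_combination C w12 * r3
  have x13 : FF h1 α1 β1 h3 α3 β3 = (l13 - C w13 * q3) * Dv P Q + (C u13 + C w13 * b3) * P +
      (C v13 - C w13 * a3) * Q := by rw [e13]; linear_combination C w13 * r3
  have x23 : FF h2 α2 β2 h3 α3 β3 = (l23 - C w23 * q3) * Dv P Q + (C u23 + C w23 * b3) * P +
      (C v23 - C w23 * a3) * Q := by rw [e23]; linear_combination C w23 * r3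
  have dL : ∀ {l : RR} {w : ℂ}, Dle 1 l → Dle 2 (l - C w * q3) :=
    fun hl => (hl.mono (by norm_num)).sub (Dle_Cmul _ dq3)
  have dp : ∀ {u w : ℂ}, Dle 1 (C u + C w * b3) := (dC 1 _).add (Dle_Cmul _ db3)
  have dq : ∀ {u w : ℂ}, Dle 1 (C u - C w * a3) := (dC 1 _).sub (Dle_Cmul _ da3)
  have dU : ∀ {g α β l : RR} {u v w : ℂ}, Dle 3 g → Dle 2 α → Dle 2 β → Dle 1 l →
      Dle 3 (UU g α β (l - C w * q3) (C u + C w * b3) (C v - C w * a3)) :=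
    fun g1 g2 g3 g4 => Dle_UU g1 g2 g3 (dL g4) dp dq
  have ten := fun s (hs : s ∈ S) => ten_vanish (hL s hs) c1 c2 c3 (h.h_ne hP hQ hD hs) x11 x22 x33 x12
    x13 x23
  have ce : ∀ F : RR, Dle 3 F → (∀ s ∈ S, eval s F = 0) → ∃ c : ℂ, F = C c * Dv P Q :=
    fun F hF hFS => h.n.cubic_eq h.dD h.D_ne h.dS hF hFS
  obtain ⟨y1, T1⟩ := ce _ (dU dh1 dα1 dβ1 dl11) (fun s hs => (ten s hs).1)
  obtain ⟨y2, T2⟩ := ce _ ((dU dh2 dα2 dβ2 dl11).add (dU dh1 dα1 dβ1 dl12)) (fun s hs => (ten s hs).2.1)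
  obtain ⟨y3, T3⟩ := ce _ ((dU dh3 dα3 dβ3 dl11).add (dU dh1 dα1 dβ1 dl13)) (fun s hs => (ten s hs).2.2.1)
  obtain ⟨y4, T4⟩ := ce _ ((dU dh1 dα1 dβ1 dl22).add (dU dh2 dα2 dβ2 dl12)) (fun s hs => (ten s hs).2.2.2.1)
  obtain ⟨y5, T5⟩ := ce _ (dU dh2 dα2 dβ2 dl22) (fun s hs => (ten s hs).2.2.2.2.1)
  obtain ⟨y6, T6⟩ := ce _ ((dU dh3 dα3 dβ3 dl22).add (dU dh2 dα2 dβ2 dl23))
    (fun s hs => (ten s hs).2.2.2.2.2.1)
  obtain ⟨y7, T7⟩ := ce _ ((dU dh1 dα1 dβ1 dl33).add (dU dh3 dα3 dβ3 dl13))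
    (fun s hs => (ten s hs).2.2.2.2.2.2.1)
  obtain ⟨y8, T8⟩ := ce _ ((dU dh2 dα2 dβ2 dl33).add (dU dh3 dα3 dβ3 dl23))
    (fun s hs => (ten s hs).2.2.2.2.2.2.2.1)
  obtain ⟨y9, T9⟩ := ce _ (dU dh3 dα3 dβ3 dl33) (fun s hs => (ten s hs).2.2.2.2.2.2.2.2.1)
  obtain ⟨y0, T0⟩ := ce _ (((dU dh1 dα1 dβ1 dl23).add (dU dh2 dα2 dβ2 dl13)).add (dU dh3 dα3 dβ3 dl12))
    (fun s hs => (ten s hs).2.2.2.2.2.2.2.2.2)
  have f11 := formal_T rh rα rβ (l11 - C w11 * q3) (C u11 + C w11 * b3) (C v11 - C w11 * a3)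
  have f22 := formal_T rh rα rβ (l22 - C w22 * q3) (C u22 + C w22 * b3) (C v22 - C w22 * a3)
  have f33 := formal_T rh rα rβ (l33 - C w33 * q3) (C u33 + C w33 * b3) (C v33 - C w33 * a3)
  have f12 := formal_T rh rα rβ (l12 - C w12 * q3) (C u12 + C w12 * b3) (C v12 - C w12 * a3)
  have f13 := formal_T rh rα rβ (l13 - C w13 * q3) (C u13 + C w13 * b3) (C v13 - C w13 * a3)
  have f23 := formal_T rh rα rβ (l23 - C w23 * q3) (C u23 + C w23 * b3) (C v23 - C w23 * a3)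
  clear ten
  obtain ⟨ϑ, hϑ⟩ : ∃ ϑ : RR, ϑ = X 0 ^ 3 * C y1 + X 0 ^ 2 * X 1 * C y2 + X 0 ^ 2 * C y3 + X 0 * X 1 ^ 2 * C y4 +
    X 1 ^ 3 * C y5 + X 1 ^ 2 * C y6 + X 0 * C y7 + X 1 * C y8 + C y9 + X 0 * X 1 * C y0 := ⟨_, rfl⟩
  have s1 : ϑ * Dv P Q =
      X 0 ^ 2 * (- 2 * (h1 * (C v11 - C w11 * a3) - h2 * (C u11 + C w11 * b3)) + 2 * (l11 - C w11 * q3) * (α2 - β1)) +
      X 1 ^ 2 * (- 2 * (h1 * (C v22 - C w22 * a3) - h2 * (C u22 + C w22 * b3)) + 2 * (l22 - C w22 * q3) * (α2 - β1)) +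
      (- 2 * (h1 * (C v33 - C w33 * a3) - h2 * (C u33 + C w33 * b3)) + 2 * (l33 - C w33 * q3) * (α2 - β1)) +
      X 0 * X 1 * (- 2 * (h1 * (C v12 - C w12 * a3) - h2 * (C u12 + C w12 * b3)) + 2 * (l12 - C w12 * q3) * (α2 - β1)) +
      X 0 * (- 2 * (h1 * (C v13 - C w13 * a3) - h2 * (C u13 + C w13 * b3)) + 2 * (l13 - C w13 * q3) * (α2 - β1)) +
      X 1 * (- 2 * (h1 * (C v23 - C w23 * a3) - h2 * (C u23 + C w23 * b3)) + 2 * (l23 - C w23 * q3) * (α2 - β1)) := by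
    rw [hϑ]
    linear_combination X 0 ^ 2 * f11 + X 1 ^ 2 * f22 + f33 + X 0 * X 1 * f12 + X 0 * f13 + X 1 * f23 -
      X 0 ^ 3 * T1 - X 0 ^ 2 * X 1 * T2 - X 0 ^ 2 * T3 - X 0 * X 1 ^ 2 * T4 - X 1 ^ 3 * T5 -
      X 1 ^ 2 * T6 - X 0 * T7 - X 1 * T8 - T9 - X 0 * X 1 * T0
  clear T1 T2 T3 T4 T5 T6 T7 T8 T9 T0 f11 f22 f33 f12 f13 f23
  rw [C_mul, C2] at A1 B1 G1 A2 B2 G2 A3 B3 G3
  have A1' : 2 * X 0 * (l11 - C w11 * q3) + X 1 * (l12 - C w12 * q3) + (l13 - C w13 * q3) =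
      2 * C w11 * h2 - C w12 * h1 := by rw [eh1, eh2]; linear_combination A1
  have A2' : X 0 * (l12 - C w12 * q3) + 2 * X 1 * (l22 - C w22 * q3) + (l23 - C w23 * q3) =
      C w12 * h2 - 2 * C w22 * h1 := by rw [eh1, eh2]; linear_combination A2
  have A3' : X 0 * (l13 - C w13 * q3) + X 1 * (l23 - C w23 * q3) + 2 * (l33 - C w33 * q3) =
      C w13 * h2 - C w23 * h1 := by rw [eh1, eh2]; linear_combination A3
  have B1' : 2 * X 0 * (C u11 + C w11 * b3) + X 1 * (C u12 + C w12 * b3) + (C u13 + C w13 * b3) =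
      - 2 * C w11 * α2 + C w12 * α1 := by rw [eα1, eα2]; linear_combination B1
  have B2' : X 0 * (C u12 + C w12 * b3) + 2 * X 1 * (C u22 + C w22 * b3) + (C u23 + C w23 * b3) =
      - C w12 * α2 + 2 * C w22 * α1 - 1 := by rw [eα1, eα2]; linear_combination B2
  have B3' : X 0 * (C u13 + C w13 * b3) + X 1 * (C u23 + C w23 * b3) + 2 * (C u33 + C w33 * b3) =
      - C w13 * α2 + C w23 * α1 + X 1 := by rw [eα1, eα2]; linear_combination B3
  have G1' : 2 * X 0 * (C v11 - C w11 * a3) + X 1 * (C v12 - C w12 * a3) + (C v13 - C w13 * a3) =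
      - 2 * C w11 * β2 + C w12 * β1 + 1 := by rw [eβ1, eβ2]; linear_combination G1
  have G2' : X 0 * (C v12 - C w12 * a3) + 2 * X 1 * (C v22 - C w22 * a3) + (C v23 - C w23 * a3) =
      - C w12 * β2 + 2 * C w22 * β1 := by rw [eβ1, eβ2]; linear_combination G2
  have G3' : X 0 * (C v13 - C w13 * a3) + X 1 * (C v23 - C w23 * a3) + 2 * (C v33 - C w33 * a3) =
      - C w13 * β2 + C w23 * β1 - X 0 := by rw [eβ1, eβ2]; linear_combination G3
  have s2 : ϑ * Dv P Q + (2 * C w11 * X 0 + C w12 * X 1 + C w13) * P +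
      (C w12 * X 0 + 2 * C w22 * X 1 + C w23) * Q = 0 := by
    linear_combination s1 + (α2 - β1) * (X 0 * A1' + X 1 * A2' + A3') +
      h2 * (X 0 * B1' + X 1 * B2' + B3') - h1 * (X 0 * G1' + X 1 * G2' + G3') -
      (2 * C w11 * X 0 + C w12 * X 1 + C w13) * hP - (C w12 * X 0 + 2 * C w22 * X 1 + C w23) * hQ
  clear s1 A1' A2' A3' B1' B2' B3' G1' G2' G3'
  have dGx : Dle 1 (2 * C w11 * X 0 + C w12 * X 1 + C w13 : RR) :=
    (((Dle_two.mul (dC 0 w11) (a := 0) (n := 0) (by omega)).mul hx (by omega)).add (Dle_Cmul _ hy)).add (dC _ _)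
  have dGy : Dle 1 (C w12 * X 0 + 2 * C w22 * X 1 + C w23 : RR) :=
    ((Dle_Cmul _ hx).add ((Dle_two.mul (dC 0 w22) (a := 0) (n := 0) (by omega)).mul hy (by omega))).add (dC _ _)
  have hD2 : ¬ Dle 2 (Dv P Q) := by
    intro h'
    exact h.D_ne (h.n.conic_eq_zero h' h.dS)
  have dϑ : Dle 2 ϑ := by
    apply Dle_of_mul (n := 5) (m := 2) (G := Dv P Q) _ h.D_ne hD2 (by norm_num)
    have : ϑ * Dv P Q = - ((2 * C w11 * X 0 + C w12 * X 1 + C w13) * P +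
      (C w12 * X 0 + 2 * C w22 * X 1 + C w23) * Q) := by linear_combination s2
    rw [this]
    exact ((dGx.mul h.n.ci.hP (by omega)).add (dGy.mul h.n.ci.hQ (by omega))).neg
  obtain ⟨_, z1, z2⟩ := h.all_zero dϑ (dGx.mono (by norm_num)) s2
  obtain ⟨w11z, w12z, w13z⟩ := lin_zero (c1 := 2 * w11) (c2 := w12) (c3 := w13) rfl
    (by rw [C_mul, C2]; exact z1)
  obtain ⟨_, w22z, w23z⟩ := lin_zero (c1 := w12) (c2 := 2 * w22) (c3 := w23) rfl
    (by rw [C_mul, C2]; exact z2)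
  replace w11z : w11 = 0 := by linear_combination (1 / 2) * w11z
  replace w22z : w22 = 0 := by linear_combination (1 / 2) * w22z
  subst w11z w12z w13z w22z w23z
  simp only [C_0, mul_zero, zero_mul, add_zero, sub_zero, zero_add, one_mul] at B1 G1 B2 G2 B3 G3 e11 e12 e13
  obtain ⟨u11z, u12z, u13z⟩ := lin_zero (c1 := 2 * u11) (c2 := u12) (c3 := u13) rfl
    (by rw [C_mul, C2]; linear_combination B1)
  obtain ⟨v11z, v12z, v13z⟩ := lin_zero (c1 := 2 * v11) (c2 := v12) (c3 := v13 - 1) rfl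
    (by rw [C_mul, C2, C_sub, C_1]; linear_combination G1)
  obtain ⟨_, u22z, u23z⟩ := lin_zero (c1 := u12) (c2 := 2 * u22) (c3 := u23 + 1) rfl
    (by rw [C_mul, C2, C_add, C_1]; linear_combination B2)
  obtain ⟨_, v22z, v23z⟩ := lin_zero (c1 := v12) (c2 := 2 * v22) (c3 := v23) rfl
    (by rw [C_mul, C2]; linear_combination G2)
  replace u11z : u11 = 0 := by linear_combination (1 / 2) * u11z
  replace v11z : v11 = 0 := by linear_combination (1 / 2) * v11z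
  replace v13z : v13 = 1 := by linear_combination v13z
  replace u23z : u23 = -1 := by linear_combination u23z
  subst u11z u12z u13z v11z v12z v13z u23z v23z
  have C12 : (C (1 / 2) : RR) * 2 = 1 := by
    rw [← C2, ← C_mul]; norm_num
  -- the linear forms
  have Hb : C w33 * b3 = X 1 - C u33 := by
    rw [C_neg, C_1, C_0] at B3
    linear_combination C (1 / 2) * B3 + (X 1 - C u33 - C w33 * b3) * C12
  have Ha : C w33 * a3 = X 0 + C v33 := by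
    rw [C_1, C_0] at G3
    linear_combination (-C (1 / 2)) * G3 + (X 0 + C v33 - C w33 * a3) * C12
  -- final identity
  have fin := final_id (a1 := a1) (a2 := a2) (a3 := a3) (h1 := h1) (h2 := h2) (h3 := h3) (α1 := α1)
    (α2 := α2) (α3 := α3) (β1 := β1) (β2 := β2) (β3 := β3) (P := P) (Q := Q)
    (by rw [eh1, eh2, eh3]; exact m1)
    (by rw [eα1, eα2, eα3]; linear_combination (-1 : RR) * m3)
    (by rw [eβ1, eβ2, eβ3]; ring)
    (by linear_combination (-1 : RR) * hP)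
    (by rw [← m1, eh1, eh3, eβ1, eβ3]; ring)
    hQ
    (by rw [← m2, eh1, eh3, eα1, eα3]; ring)
    c1
  rw [e11, e12, e13] at fin
  simp only [C_0, C_1, mul_zero, zero_mul, add_zero, sub_zero, zero_add, one_mul] at fin
  obtain ⟨_, k2, _⟩ := h.all_zero
    (f := 2 * a1 * l11 + a2 * l12 + a3 * l13 - (2 * pderiv 1 h1 - β1))
    (u := - (pderiv 0 β1 - 2 * pderiv 1 α1 + pderiv 0 a2 - X 1 * pderiv 0 a3))
    (v := a3 - (- pderiv 1 β1 + pderiv 1 a2 - X 1 * pderiv 1 a3))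
    ((((Dle_two.mul da1 (a := 0) (n := 1) (by omega)).mul dl11 (by omega)).add (da2.mul dl12 (by omega))).add (da3.mul dl13 (by omega)) |>.sub
      ((Dle_two.mul (dh1.pderiv (n := 2) 1) (a := 0) (n := 2) (by omega)).sub dβ1))
    (Dle.neg ((((dβ1.pderiv (n := 1) 0).mono (by norm_num)).sub
      (Dle_two.mul (dα1.pderiv (n := 1) 1) (a := 0) (n := 3) (by omega))).add
      ((da2.pderiv (n := 0) 0).mono (by norm_num)) |>.sub (hy.mul (da3.pderiv (n := 0) 0) (n := 3) (by omega))))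
    (by linear_combination fin)
  have p11 : pderiv 1 (X 1 : RR) = 1 := pderiv_X_self 1
  have p01 : pderiv 0 (X 1 : RR) = 0 := pderiv_X_of_ne (by decide)
  have p10 : pderiv 1 (X 0 : RR) = 0 := pderiv_X_of_ne (by decide)
  have p00 : pderiv 0 (X 0 : RR) = 1 := pderiv_X_self 0
  rw [eβ1, eα1] at k2
  simp only [map_sub, Derivation.leibniz, smul_eq_mul, p01, p11] at k2
  have Hb1 := congrArg (pderiv 1) Hb
  have Ha0 := congrArg (pderiv 0) Ha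
  simp only [map_sub, map_add, Derivation.leibniz, smul_eq_mul, pderiv_C, p11, p00, mul_zero, add_zero,
    sub_zero] at Hb1 Ha0
  obtain ⟨g1, hg1⟩ := exists_const (da2.pderiv (n := 0) 0)
  obtain ⟨g2, hg2⟩ := exists_const (db2.pderiv (n := 0) 1)
  have last : (3 : RR) * X 1 = C w33 * C g1 + C w33 * C g2 + C u33 := by
    rw [hg1, hg2] at k2
    apply mul_left_cancel₀ (two_ne_zero (α := RR))
    linear_combination C w33 * k2 - 2 * X 1 * Ha0 - 2 * X 1 * Hb1 - 2 * Hb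
  have z0 := congrArg (eval ![0, 0]) last
  have z1 := congrArg (eval ![0, 1]) last
  have v3 : ∀ x : Fin 2 → ℂ, eval x (3 : RR) = 3 := by
    intro x
    rw [show (3 : RR) = C 3 from (map_ofNat C 3).symm, eval_C]
  simp only [map_add, map_mul, eval_C, eval_X, Matrix.cons_val_zero, Matrix.cons_val_one, v3] at z0 z1
  rw [← z0] at z1
  norm_num at z1

end ND

end Run7.h256
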