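import Mathlib
import Pool.Agent.Run7.h256.Trans

set_option autoImplicit false

namespace Run7.h256

open MvPolynomial ComplexConjugate

lemma cp_inj : Function.Injective cp := by
  intro p q h
  ext i
  have := congrFun h i
  simp only [cp] at this
  exact_mod_cast this

lemma cx_Jac (P Q : RP) : Jac (cx P) (cx Q) = cx (Jac P Q) := by
  unfold Jac
  simp only [cx_pderiv]
  simp [cx]

lemma cx_Dv (P Q : RP) : Dv (cx P) (cx Q) = cx (pderiv 0 P + pderiv 1 Q) := by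
  unfold Dv
  simp only [cx_pderiv]
  simp [cx]

/-- nine centres give the data -/
theorem nine_of_centers {P Q : RP} {Z : Finset (Fin 2 → ℂ)} (hci : CI16 (cx P) (cx Q) Z)
    {S : Finset (Fin 2 → ℝ)} (hS : S.card = 9)
    (hc : ∀ p ∈ S, eval p P = 0 ∧ eval p Q = 0 ∧ SmallAt P Q p) :
    Nine (cx P) (cx Q) Z (S.map ⟨cp, cp_inj⟩) ∧
    (∀ s ∈ S.map ⟨cp, cp_inj⟩, eval s (Dv (cx P) (cx Q)) = 0) ∧
    (∀ s ∈ S.map ⟨cp, cp_inj⟩, KC (cx P) (cx Q) s) ∧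
    (∀ s ∈ S.map ⟨cp, cp_inj⟩, LC (cx P) (cx Q) s) := by
  have hsub : ∀ p ∈ S, cp p ∈ Z := by
    intro p hp
    rw [hci.hZ, eval_cx, eval_cx, (hc p hp).1, (hc p hp).2.1]
    simp
  have hall : ∀ p ∈ S, 0 < eval p (Jac P Q) ∧ eval p (pderiv 0 P + pderiv 1 Q) = 0 ∧
    KC (cx P) (cx Q) (cp p) ∧ LC (cx P) (cx Q) (cp p) := by
    intro p hp
    obtain ⟨h1, h2, h3⟩ := hc p hp
    refine center_cx h1 h2 ?_ h3
    intro h0
    apply hci.jac_ne_zero (hsub p hp)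
    rw [cx_Jac, eval_cx, h0]; simp
  refine ⟨⟨hci, ?_, ?_, ?_, ?_⟩, ?_, ?_, ?_⟩
  · intro s hs
    obtain ⟨p, hp, rfl⟩ := Finset.mem_map.1 hs
    exact hsub p hp
  · rw [Finset.card_map, hS]
  · intro s hs i
    obtain ⟨p, hp, rfl⟩ := Finset.mem_map.1 hs
    simp [cp]
  · intro s hs
    obtain ⟨p, hp, rfl⟩ := Finset.mem_map.1 hs
    refine ⟨_, (hall p hp).1, ?_⟩
    rw [cx_Jac]; exact eval_cx _ _
  · intro s hs
    obtain ⟨p, hp, rfl⟩ := Finset.mem_map.1 hs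
    show eval (cp p) _ = 0
    rw [cx_Dv, eval_cx, (hall p hp).2.1]; simp
  · intro s hs
    obtain ⟨p, hp, rfl⟩ := Finset.mem_map.1 hs
    exact (hall p hp).2.2.1
  · intro s hs
    obtain ⟨p, hp, rfl⟩ := Finset.mem_map.1 hs
    exact (hall p hp).2.2.2

end Run7.h256
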