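import Mathlib
import Pool.Agent.Run7.h256.Trans

set_option autoImplicit false

namespace Run7.h256

open MvPolynomial ComplexConjugate

/-! ### real and imaginary parts of polynomials -/

/-- real part -/
noncomputable def rp (F : RR) : RP := ∑ d ∈ F.support, monomial d (coeff d F).re

/-- imaginary part -/
noncomputable def ip (F : RR) : RP := ∑ d ∈ F.support, monomial d (coeff d F).im

lemma coeff_rp (F : RR) (d : Fin 2 →₀ ℕ) : coeff d (rp F) = (coeff d F).re := by
  unfold rp
  rw [coeff_sum]
  simp only [coeff_monomial]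
  rw [Finset.sum_ite_eq' F.support d (fun x => (coeff x F).re)]
  split_ifs with h
  · rfl
  · rw [notMem_support_iff] at h; rw [h]; simp

lemma coeff_ip (F : RR) (d : Fin 2 →₀ ℕ) : coeff d (ip F) = (coeff d F).im := by
  unfold ip
  rw [coeff_sum]
  simp only [coeff_monomial]
  rw [Finset.sum_ite_eq' F.support d (fun x => (coeff x F).im)]
  split_ifs with h
  · rfl
  · rw [notMem_support_iff] at h; rw [h]; simp

lemma coeff_cx (F : RP) (d : Fin 2 →₀ ℕ) : coeff d (cx F) = ((coeff d F : ℝ) : ℂ) := by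
  unfold cx; rw [coeff_map]; rfl

lemma decomp (F : RR) : F = cx (rp F) + C Complex.I * cx (ip F) := by
  ext d
  rw [coeff_add, coeff_C_mul, coeff_cx, coeff_cx, coeff_rp, coeff_ip, mul_comm]
  exact (Complex.re_add_im _).symm

lemma Dle_iff {k : Type*} [Field k] {n : ℕ} {F : MvPolynomial (Fin 2) k} :
    Dle n F ↔ ∀ d : Fin 2 →₀ ℕ, n < d 0 + d 1 → coeff d F = 0 := by
  constructor
  · intro h d hd
    apply coeff_eq_zero_of_totalDegree_lt
    have e := fs_sum d
    rw [Finsupp.sum] at e
    rw [e]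
    exact lt_of_le_of_lt h hd
  · intro h
    unfold Dle
    rw [totalDegree, Finset.sup_le_iff]
    intro d hd
    rw [mem_support_iff] at hd
    rw [fs_sum]
    by_contra hcon
    exact hd (h d (not_le.1 hcon))

lemma Dle_rp {n : ℕ} {F : RR} (h : Dle n F) : Dle n (rp F) := by
  rw [Dle_iff] at h ⊢
  intro d hd
  rw [coeff_rp, h d hd]; simp

lemma Dle_ip {n : ℕ} {F : RR} (h : Dle n F) : Dle n (ip F) := by
  rw [Dle_iff] at h ⊢
  intro d hd
  rw [coeff_ip, h d hd]; simp

lemma Dle_cx_iff {n : ℕ} {F : RP} : Dle n (cx F) ↔ Dle n F := by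
  rw [Dle_iff, Dle_iff]
  simp only [coeff_cx]
  constructor
  · intro h d hd; exact_mod_cast h d hd
  · intro h d hd; exact_mod_cast h d hd

lemma cx_add (F G : RP) : cx (F + G) = cx F + cx G := by simp [cx]
lemma cx_sub (F G : RP) : cx (F - G) = cx F - cx G := by simp [cx]
lemma cx_mul (F G : RP) : cx (F * G) = cx F * cx G := by simp [cx]
lemma cx_C (c : ℝ) : cx (C c) = C (c : ℂ) := by simp [cx]
lemma cx_X (i : Fin 2) : cx (X i) = X i := by simp [cx]
lemma cx_zero : cx 0 = 0 := by simp [cx]
lemma cx_neg (F : RP) : cx (-F) = - cx F := by simp [cx]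

lemma cx_inj {F G : RP} (h : cx F = cx G) : F = G := by
  ext d
  have := congrArg (coeff d) h
  rw [coeff_cx, coeff_cx] at this
  exact_mod_cast this

lemma ri_zero {A B : RP} (h : cx A + C Complex.I * cx B = 0) : A = 0 ∧ B = 0 := by
  have key : ∀ d, coeff d A = 0 ∧ coeff d B = 0 := by
    intro d
    have := congrArg (coeff d) h
    rw [coeff_add, coeff_C_mul, coeff_cx, coeff_cx, coeff_zero] at this
    have h1 := congrArg Complex.re this
    have h2 := congrArg Complex.im this
    simp at h1 h2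
    exact ⟨h1, h2⟩
  constructor
  · ext d; rw [coeff_zero]; exact (key d).1
  · ext d; rw [coeff_zero]; exact (key d).2

lemma eval_cj' (F : RR) (z : Fin 2 → ℂ) :
    eval (fun i => conj (z i)) (cj F) = conj (eval z F) := by
  rw [cj, eval_map]
  have h2 := eval₂_comp_left (starRingEnd ℂ) (RingHom.id ℂ) z F
  rw [show eval z F = eval₂ (RingHom.id ℂ) z F from rfl, h2]
  rfl

lemma cj_cx (F : RP) : cj (cx F) = cx F := by
  ext d
  unfold cj
  rw [coeff_map, coeff_cx]
  exact Complex.conj_ofReal _

lemma eval_cx_conj (F : RP) (z : Fin 2 → ℂ) :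
    eval (fun i => conj (z i)) (cx F) = conj (eval z (cx F)) := by
  conv_lhs => rw [← cj_cx F]
  exact eval_cj' _ _

lemma cj_eq (F : RR) : cj F = cx (rp F) - C Complex.I * cx (ip F) := by
  ext d
  unfold cj
  rw [coeff_map, coeff_sub, coeff_C_mul, coeff_cx, coeff_cx, coeff_rp, coeff_ip]
  apply Complex.ext <;> simp

/-- vanishing of real and imaginary parts -/
lemma rp_ip_vanish {F : RR} {z : Fin 2 → ℂ} (h1 : eval z F = 0) (h2 : eval (fun i => conj (z i)) F = 0) :
    eval z (cx (rp F)) = 0 ∧ eval z (cx (ip F)) = 0 := by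
  have h3 : eval z (cj F) = 0 := by
    have := eval_cj' F (fun i => conj (z i))
    simp only [Complex.conj_conj] at this
    rw [this, h2, map_zero]
  have e1 := decomp F
  have e2 := cj_eq F
  rw [e1] at h1
  rw [e2] at h3
  rw [map_add, map_mul, eval_C] at h1
  rw [map_sub, map_mul, eval_C] at h3
  constructor
  · linear_combination (1 / 2) * (h1 + h3)
  · have h4 : Complex.I * eval z (cx (ip F)) = 0 := by linear_combination (1 / 2) * (h1 - h3)
    rcases mul_eq_zero.1 h4 with h5 | h5
    · exact absurd h5 Complex.I_ne_zero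
    · exact h5

end Run7.h256
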