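import Mathlib
import Pool.Agent.Run7.h256.Main1
import Pool.Agent.Run7.h256.RC

set_option autoImplicit false

namespace Run7.h256

open MvPolynomial ComplexConjugate

/-- real divergence -/
noncomputable def DD (P Q : RP) : RP := pderiv 0 P + pderiv 1 Q

/-- the configuration: nine centres of a field which is not divergence free -/
structure Cfg (P Q : RP) (Z : Finset (Fin 2 → ℂ)) (S : Finset (Fin 2 → ℝ)) : Prop where
  n : Nine (cx P) (cx Q) Z (S.map ⟨cp, cp_inj⟩)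
  dS : ∀ p ∈ S, eval p (DD P Q) = 0
  Jp : ∀ p ∈ S, 0 < eval p (Jac P Q)
  K : ∀ p ∈ S, KC (cx P) (cx Q) (cp p)
  D0 : DD P Q ≠ 0

open Classical in
/-- the other equilibria with nonzero divergence -/
noncomputable def T1 (P Q : RP) (Z : Finset (Fin 2 → ℂ)) (S : Finset (Fin 2 → ℝ)) : Finset (Fin 2 → ℂ) :=
  (Z \ S.map ⟨cp, cp_inj⟩).filter (fun t => eval t (cx (DD P Q)) ≠ 0)

open Classical in
/-- the other equilibria with zero divergence -/
noncomputable def T0 (P Q : RP) (Z : Finset (Fin 2 → ℂ)) (S : Finset (Fin 2 → ℝ)) : Finset (Fin 2 → ℂ) :=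
  (Z \ S.map ⟨cp, cp_inj⟩).filter (fun t => eval t (cx (DD P Q)) = 0)

lemma cx_EE (f α β : RP) : EE (cx f) (cx α) (cx β) = cx (EE f α β) := by
  unfold EE
  simp only [cx_pderiv, cx_sub, cx_mul]

lemma Dle_DD {P Q : RP} (hP : Dle 4 P) (hQ : Dle 4 Q) : Dle 3 (DD P Q) :=
  (Dle.pderiv hP 0).add (Dle.pderiv hQ 1)

namespace Cfg

variable {P Q : RP} {Z : Finset (Fin 2 → ℂ)} {S : Finset (Fin 2 → ℝ)}

lemma hP (h : Cfg P Q Z S) : Dle 4 P := Dle_cx_iff.1 h.n.ci.hP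
lemma hQ (h : Cfg P Q Z S) : Dle 4 Q := Dle_cx_iff.1 h.n.ci.hQ
lemma dD (h : Cfg P Q Z S) : Dle 3 (DD P Q) := Dle_DD h.hP h.hQ

lemma cxD0 (h : Cfg P Q Z S) : cx (DD P Q) ≠ 0 := by
  intro h0
  apply h.D0
  apply cx_inj
  rw [h0, cx_zero]

lemma memS (S : Finset (Fin 2 → ℝ)) {z : Fin 2 → ℂ} (hz : z ∈ S.map ⟨cp, cp_inj⟩) :
    ∃ p ∈ S, z = cp p := by
  obtain ⟨p, hp, rfl⟩ := Finset.mem_map.1 hz
  exact ⟨p, hp, rfl⟩

lemma mapS {p : Fin 2 → ℝ} (hp : p ∈ S) : cp p ∈ S.map ⟨cp, cp_inj⟩ := Finset.mem_map.2 ⟨p, hp, rfl⟩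

lemma PS (h : Cfg P Q Z S) {p : Fin 2 → ℝ} (hp : p ∈ S) : eval p P = 0 ∧ eval p Q = 0 := by
  have h1 := (h.n.ci.hZ _).1 (h.n.sub (mapS hp))
  rw [eval_cx, eval_cx] at h1
  exact_mod_cast h1

lemma dSc (h : Cfg P Q Z S) : ∀ s ∈ S.map ⟨cp, cp_inj⟩, eval s (cx (DD P Q)) = 0 := by
  intro s hs
  obtain ⟨p, hp, rfl⟩ := memS S hs
  rw [eval_cx, h.dS p hp]; simp

/-- no real conic through `S` -/
lemma conic (h : Cfg P Q Z S) {F : RP} (hF : Dle 2 F) (hFS : ∀ p ∈ S, eval p F = 0) : F = 0 := by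
  apply cx_inj
  rw [cx_zero]
  apply h.n.conic_eq_zero (Dle_cx_iff.2 hF)
  intro s hs
  obtain ⟨p, hp, rfl⟩ := memS S hs
  rw [eval_cx, hFS p hp]; simp

/-- real cubics through `S` -/
lemma cubic (h : Cfg P Q Z S) {F : RP} (hF : Dle 3 F) (hFS : ∀ p ∈ S, eval p F = 0) :
    ∃ c : ℝ, F = C c * DD P Q := by
  obtain ⟨c, hc⟩ := h.n.cubic_eq (D := cx (DD P Q)) (F := cx F) (Dle_cx_iff.2 h.dD) h.cxD0 h.dSc
    (Dle_cx_iff.2 hF) (by
      intro s hs
      obtain ⟨p, hp, rfl⟩ := memS S hs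
      rw [eval_cx, hFS p hp]; simp)
  obtain ⟨d, hd⟩ : ∃ d, coeff d (DD P Q) ≠ 0 := by
    by_contra hcon
    push Not at hcon
    apply h.D0
    ext d; rw [coeff_zero]; exact hcon d
  refine ⟨coeff d F / coeff d (DD P Q), ?_⟩
  apply cx_inj
  rw [hc, cx_mul, cx_C]
  congr 2
  have := congrArg (coeff d) hc
  rw [coeff_C_mul, coeff_cx, coeff_cx] at this
  have hd' : ((coeff d (DD P Q) : ℝ) : ℂ) ≠ 0 := by exact_mod_cast hd
  push_cast
  rw [this]
  field_simp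

lemma inj3 (h : Cfg P Q Z S) {u v : RP} (hu : Dle 3 u) (he : u * P + v * Q = 0) : u = 0 ∧ v = 0 := by
  obtain ⟨h1, h2⟩ := h.n.ci.inj3 (u := cx u) (v := cx v) (Dle_cx_iff.2 hu) (by
    rw [← cx_mul, ← cx_mul, ← cx_add, he, cx_zero])
  exact ⟨cx_inj (by rw [h1, cx_zero]), cx_inj (by rw [h2, cx_zero])⟩

lemma Kreal (h : Cfg P Q Z S) {f α β : RP} (he : f * DD P Q = α * P + β * Q) {p : Fin 2 → ℝ}
    (hp : p ∈ S) : eval p (EE f α β) = 0 := by
  have h1 := h.K p hp (cx f) (cx α) (cx β) (by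
    simp only [cx_pderiv]
    rw [← cx_add, ← cx_mul, ← cx_mul, ← cx_mul, ← cx_add]
    exact congrArg cx he)
  rw [cx_EE, eval_cx] at h1
  exact_mod_cast h1

lemma EE_zero (h : Cfg P Q Z S) {f α β : RP} (hf : Dle 2 f) (hα : Dle 1 α) (hβ : Dle 1 β)
    (he : f * DD P Q = α * P + β * Q) : EE f α β = 0 := by
  apply h.conic _ (fun p hp => h.Kreal he hp)
  unfold EE
  have e1 := hf.mul ((hβ.pderiv (n := 0) 0).sub (hα.pderiv (n := 0) 1)) (n := 2) (by omega)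
  have e2 := (hf.pderiv (n := 1) 0).mul hβ (n := 2) (by omega)
  have e3 := (hf.pderiv (n := 1) 1).mul hα (n := 2) (by omega)
  exact e1.sub (e2.sub e3)

/-! ### the set `T1` -/

lemma memT1 {t : Fin 2 → ℂ} : t ∈ T1 P Q Z S ↔ t ∈ Z ∧ t ∉ S.map ⟨cp, cp_inj⟩ ∧
    eval t (cx (DD P Q)) ≠ 0 := by
  classical
  unfold T1
  rw [Finset.mem_filter, Finset.mem_sdiff, and_assoc]

lemma memT0 {t : Fin 2 → ℂ} : t ∈ T0 P Q Z S ↔ t ∈ Z ∧ t ∉ S.map ⟨cp, cp_inj⟩ ∧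
    eval t (cx (DD P Q)) = 0 := by
  classical
  unfold T0
  rw [Finset.mem_filter, Finset.mem_sdiff, and_assoc]

lemma card_T (h : Cfg P Q Z S) : (T1 P Q Z S).card + (T0 P Q Z S).card = 7 := by
  classical
  have h1 := h.n.cardT
  unfold T1 T0
  have h2 := Finset.card_filter_add_card_filter_not (s := Z \ S.map ⟨cp, cp_inj⟩)
    (fun t => eval t (cx (DD P Q)) ≠ 0)
  simp only [not_not] at h2
  rw [h2]
  convert h1

/-- complex conjugation of points -/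
lemma conj_mem_Z (h : Cfg P Q Z S) {t : Fin 2 → ℂ} (ht : t ∈ Z) : (fun i => conj (t i)) ∈ Z := by
  rw [h.n.ci.hZ] at ht ⊢
  rw [eval_cx_conj, eval_cx_conj, ht.1, ht.2]
  simp

lemma conj_notMem_S {t : Fin 2 → ℂ} (ht : t ∉ S.map ⟨cp, cp_inj⟩) :
    (fun i => conj (t i)) ∉ S.map ⟨cp, cp_inj⟩ := by
  intro h1
  apply ht
  obtain ⟨p, hp, h2⟩ := memS S h1
  rw [Finset.mem_map]
  refine ⟨p, hp, ?_⟩
  show cp p = t
  ext i
  have := congrFun h2 i
  simp only [cp] at this ⊢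
  rw [← Complex.conj_conj (t i), this, Complex.conj_ofReal]

lemma conj_mem_T1 (h : Cfg P Q Z S) {t : Fin 2 → ℂ} (ht : t ∈ T1 P Q Z S) :
    (fun i => conj (t i)) ∈ T1 P Q Z S := by
  rw [memT1] at ht ⊢
  refine ⟨h.conj_mem_Z ht.1, conj_notMem_S ht.2.1, ?_⟩
  rw [eval_cx_conj]
  intro h0
  apply ht.2.2
  rw [← Complex.conj_conj (eval t (cx (DD P Q))), h0, map_zero]

lemma conj_mem_T0 (h : Cfg P Q Z S) {t : Fin 2 → ℂ} (ht : t ∈ T0 P Q Z S) :
    (fun i => conj (t i)) ∈ T0 P Q Z S := by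
  rw [memT0] at ht ⊢
  refine ⟨h.conj_mem_Z ht.1, conj_notMem_S ht.2.1, ?_⟩
  rw [eval_cx_conj, ht.2.2, map_zero]

/-- the relation on `T1` -/
lemma rel (h : Cfg P Q Z S) {u : RR} (hu : Dle 2 u) :
    ∑ t ∈ T1 P Q Z S, eval t (cx (DD P Q)) * eval t u / eval t (Jac (cx P) (cx Q)) = 0 := by
  classical
  have h1 := h.n.ci.euler_jacobi (F := cx (DD P Q) * u) ((Dle_cx_iff.2 h.dD).mul hu (by omega))
  rw [← h1]
  apply Finset.sum_subset_zero_on_sdiff
  · intro t ht; exact (memT1.1 ht).1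
  · intro t ht
    rw [Finset.mem_sdiff, memT1] at ht
    push Not at ht
    have : eval t (cx (DD P Q)) = 0 := by
      by_cases hts : t ∈ S.map ⟨cp, cp_inj⟩
      · exact h.dSc t hts
      · exact ht.2 ht.1 hts
    rw [map_mul, this]; simp
  · intro t ht
    rw [map_mul]

lemma sep_false (h : Cfg P Q Z S) {u : RR} (hu : Dle 2 u) {t0 : Fin 2 → ℂ} (ht0 : t0 ∈ T1 P Q Z S)
    (hut : ∀ t ∈ T1 P Q Z S, t ≠ t0 → eval t u = 0) : eval t0 u = 0 := by
  have h1 := h.rel hu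
  rw [Finset.sum_eq_single t0] at h1
  · have hJ := h.n.ci.jac_ne_zero (memT1.1 ht0).1
    rw [div_eq_zero_iff] at h1
    rcases h1 with h2 | h2
    · rcases mul_eq_zero.1 h2 with h3 | h3
      · exact absurd h3 (memT1.1 ht0).2.2
      · exact h3
    · exact absurd h2 hJ
  · intro t ht htt
    rw [hut t ht htt]; simp
  · intro h2; exact absurd ht0 h2

lemma T1_nonempty (h : Cfg P Q Z S) : (T1 P Q Z S).Nonempty := by
  by_contra hcon
  rw [Finset.not_nonempty_iff_eq_empty] at hcon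
  apply h.cxD0
  apply h.n.ci.eq_zero3 (Dle_cx_iff.2 h.dD)
  intro z hz
  by_cases hzs : z ∈ S.map ⟨cp, cp_inj⟩
  · exact h.dSc z hzs
  · by_contra h0
    have : z ∈ T1 P Q Z S := memT1.2 ⟨hz, hzs, h0⟩
    rw [hcon] at this
    exact absurd this (Finset.notMem_empty _)

open CI16 in
/-- size of the space of conics through `T1` -/
lemma ker_T1 (h : Cfg P Q Z S) :
    7 ≤ Module.finrank ℂ (LinearMap.ker (ev (T1 P Q Z S) 2)) + (T1 P Q Z S).card := by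
  classical
  have e1 := LinearMap.finrank_range_add_finrank_ker (ev (T1 P Q Z S) 2)
  have e2 := finrank_Pl (k := ℂ) 2
  have e3 : Module.finrank ℂ (LinearMap.range (ev (T1 P Q Z S) 2)) < (T1 P Q Z S).card := by
    have h1 := Submodule.finrank_le (LinearMap.range (ev (T1 P Q Z S) 2))
    rw [Module.finrank_fintype_fun_eq_card, Fintype.card_coe] at h1
    refine lt_of_le_of_ne h1 ?_
    intro h2
    have h3 : LinearMap.range (ev (T1 P Q Z S) 2) = ⊤ := by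
      apply Submodule.eq_top_of_finrank_eq
      rw [h2, Module.finrank_fintype_fun_eq_card, Fintype.card_coe]
    rw [LinearMap.range_eq_top] at h3
    obtain ⟨t0, ht0⟩ := h.T1_nonempty
    obtain ⟨u, hu⟩ := h3 (Pi.single ⟨t0, ht0⟩ 1)
    have h4 : eval t0 u.1 = 1 := by
      have := congrFun hu ⟨t0, ht0⟩
      rw [ev_apply, Pi.single_eq_same] at this
      exact this
    have h5 := h.sep_false (u := u.1) (mem_Pl.1 u.2) ht0 (by
      intro t ht htt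
      have := congrFun hu ⟨t, ht⟩
      rw [ev_apply, Pi.single_eq_of_ne (fun h6 => htt (congrArg Subtype.val h6))] at this
      exact this)
    rw [h4] at h5
    exact one_ne_zero h5
  omega

/-- real and imaginary parts of conics through `T1` -/
lemma parts_T1 (h : Cfg P Q Z S) {g : RR} (hg : ∀ t ∈ T1 P Q Z S, eval t g = 0) :
    (∀ t ∈ T1 P Q Z S, eval t (cx (rp g)) = 0) ∧ (∀ t ∈ T1 P Q Z S, eval t (cx (ip g)) = 0) :=
  ⟨fun t ht => (rp_ip_vanish (hg t ht) (hg _ (h.conj_mem_T1 ht))).1,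
    fun t ht => (rp_ip_vanish (hg t ht) (hg _ (h.conj_mem_T1 ht))).2⟩

/-- the real cofactors -/
lemma cof (h : Cfg P Q Z S) {f : RP} (hf : Dle 2 f) (hfT : ∀ t ∈ T1 P Q Z S, eval t (cx f) = 0) :
    ∃ α β : RP, Dle 1 α ∧ Dle 1 β ∧ f * DD P Q = α * P + β * Q := by
  obtain ⟨u, v, hu, hv, he⟩ := h.n.ci.noether5 (F := cx (f * DD P Q))
    (Dle_cx_iff.2 (hf.mul h.dD (by omega))) (by
      intro z hz
      rw [cx_mul, map_mul]
      by_cases hzs : z ∈ S.map ⟨cp, cp_inj⟩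
      · rw [h.dSc z hzs, mul_zero]
      · by_cases hd : eval z (cx (DD P Q)) = 0
        · rw [hd, mul_zero]
        · rw [hfT z (memT1.2 ⟨hz, hzs, hd⟩), zero_mul])
  refine ⟨rp u, rp v, Dle_rp hu, Dle_rp hv, ?_⟩
  have e1 := decomp u
  have e2 := decomp v
  obtain ⟨h1, _⟩ := ri_zero (A := f * DD P Q - (rp u * P + rp v * Q)) (B := -(ip u * P + ip v * Q)) (by
    rw [cx_sub, he, cx_neg, cx_add, cx_add, cx_mul, cx_mul, cx_mul, cx_mul]
    conv_lhs => rw [e1, e2]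
    rw [← e1, ← e2]
    linear_combination (cx P) * e1 + (cx Q) * e2)
  linear_combination h1

end Cfg

end Run7.h256
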