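import Mathlib
import Pool.Agent.Run7.h256.Cfg

set_option autoImplicit false

namespace Run7.h256

open MvPolynomial

/-- an invariant line whose cofactor is proportional to the divergence -/
def TypeI (P Q : RP) : Prop :=
  ∃ l : RP, ∃ c : ℝ, Dle 1 l ∧ ¬ Dle 0 l ∧ C c * XF P Q l = l * DD P Q

lemma aff_coords {g : RP} (hg : Dle 1 g) : ∃ a b c : ℝ, g = C a * X 0 + C b * X 1 + C c := by
  obtain ⟨A, B, c, hA, hB, h⟩ := dec (d := 0) hg
  unfold Dle at hA hB
  rw [Nat.le_zero, totalDegree_eq_zero_iff_eq_C] at hA hB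
  refine ⟨coeff 0 A, coeff 0 B, c, ?_⟩
  rw [← hA, ← hB, h]; ring

lemma quad_coords {f : RP} (hf : Dle 2 f) : ∃ A B Cc D E F : ℝ,
    f = C A * (X 0 * X 0) + C (2 * B) * (X 0 * X 1) + C Cc * (X 1 * X 1) + C (2 * D) * X 0 +
      C (2 * E) * X 1 + C F := by
  obtain ⟨G, H, c, hG, hH, h⟩ := dec (d := 1) hf
  obtain ⟨a, b, e, rfl⟩ := aff_coords hG
  obtain ⟨a', b', e', rfl⟩ := aff_coords hH
  refine ⟨a, (b + a') / 2, b', e / 2, e' / 2, c, ?_⟩
  rw [h]
  rw [show 2 * ((b + a') / 2) = b + a' by ring, show 2 * (e / 2) = e by ring,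
    show 2 * (e' / 2) = e' by ring, C_add]
  ring

lemma aff_zero {a b c : ℝ} (h : (C a * X 0 + C b * X 1 + C c : RP) = 0) : a = 0 ∧ b = 0 ∧ c = 0 := by
  have e0 := congrArg (eval ![0, 0]) h
  have e1 := congrArg (eval ![1, 0]) h
  have e2 := congrArg (eval ![0, 1]) h
  simp only [map_add, map_mul, eval_C, eval_X, map_zero, Matrix.cons_val_zero, Matrix.cons_val_one,
    mul_one, mul_zero, add_zero, zero_add] at e0 e1 e2
  rw [e0, add_zero] at e1 e2
  exact ⟨e1, e2, e0⟩

lemma quad_zero {A B Cc D E F : ℝ} (h : (C A * (X 0 * X 0) + C B * (X 0 * X 1) + C Cc * (X 1 * X 1) +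
      C D * X 0 + C E * X 1 + C F : RP) = 0) : A = 0 ∧ B = 0 ∧ Cc = 0 ∧ D = 0 ∧ E = 0 ∧ F = 0 := by
  have e0 := congrArg (eval ![0, 0]) h
  have e1 := congrArg (eval ![1, 0]) h
  have e2 := congrArg (eval ![-1, 0]) h
  have e3 := congrArg (eval ![0, 1]) h
  have e4 := congrArg (eval ![0, -1]) h
  have e5 := congrArg (eval ![1, 1]) h
  simp only [map_add, map_mul, eval_C, eval_X, map_zero, Matrix.cons_val_zero, Matrix.cons_val_one,
    mul_one, mul_zero, add_zero, zero_add] at e0 e1 e2 e3 e4 e5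
  refine ⟨?_, ?_, ?_, ?_, ?_, ?_⟩
  · linear_combination (e1 + e2) / 2 - e0
  · linear_combination e5 - e1 - e3 + e0
  · linear_combination (e3 + e4) / 2 - e0
  · linear_combination (e1 - e2) / 2
  · linear_combination (e3 - e4) / 2
  · linear_combination e0

lemma Dle_aff (a b c : ℝ) : Dle 1 (C a * X 0 + C b * X 1 + C c : RP) :=
  (((Dle.C (n := 0) a).mul (Dle.X le_rfl 0) (by omega)).add
    ((Dle.C (n := 0) b).mul (Dle.X le_rfl 1) (by omega))).add (Dle.C c)

lemma pd_aff0 (a b c : ℝ) : pderiv 0 (C a * X 0 + C b * X 1 + C c : RP) = C a := by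
  simp only [map_add, Derivation.leibniz, smul_eq_mul, pderiv_C, p00, p01]; ring

lemma pd_aff1 (a b c : ℝ) : pderiv 1 (C a * X 0 + C b * X 1 + C c : RP) = C b := by
  simp only [map_add, Derivation.leibniz, smul_eq_mul, pderiv_C, p10, p11]; ring

lemma aff_ne {a b c : ℝ} (h : ¬ Dle 0 (C a * X 0 + C b * X 1 + C c : RP)) : a ≠ 0 ∨ b ≠ 0 := by
  by_contra hcon
  push Not at hcon
  apply h
  rw [hcon.1, hcon.2, C_0, zero_mul, zero_mul, zero_add, zero_add]
  exact Dle.C c

lemma aff_prime {l : RP} (hl : Dle 1 l) (hl0 : ¬ Dle 0 l) : Prime l := by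
  apply Irreducible.prime
  apply irreducible_of_totalDegree_eq_one
  · unfold Dle at hl hl0; omega
  · intro x hx
    rw [isUnit_iff_ne_zero]
    rintro rfl
    apply hl0
    have : l = 0 := by
      ext d; rw [coeff_zero]; exact zero_dvd_iff.1 (hx d)
    rw [this]; exact Dle.zero

lemma dvd_Dle {n m : ℕ} {F G : RP} (h : Dle n (F * G)) (hF : F ≠ 0) (hd : ¬ Dle m F) : Dle (n - (m + 1)) G := by
  by_cases hG : G = 0
  · rw [hG]; exact Dle.zero
  · unfold Dle at *
    rw [totalDegree_mul_eq hF hG] at h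
    omega

namespace Cfg

variable {P Q : RP} {Z : Finset (Fin 2 → ℂ)} {S : Finset (Fin 2 → ℝ)}

/-- an invariant line is of type I -/
lemma typeI_of_inv (h : Cfg P Q Z S) {l : RP} (hl : Dle 1 l) (hl0 : ¬ Dle 0 l) (hd : l ∣ XF P Q l) :
    TypeI P Q := by
  obtain ⟨a, b, c, rfl⟩ := aff_coords hl
  have hab := aff_ne hl0
  obtain ⟨K, hK⟩ := hd
  have hX : XF P Q (C a * X 0 + C b * X 1 + C c) = C a * P + C b * Q := by
    unfold XF; rw [pd_aff0, pd_aff1]; ring
  rw [hX] at hK
  have hl0' : (C a * X 0 + C b * X 1 + C c : RP) ≠ 0 := by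
    intro h0; apply hl0; rw [h0]; exact Dle.zero
  have dK : Dle 3 K := by
    have h1 : Dle 4 ((C a * X 0 + C b * X 1 + C c : RP) * K) := by
      rw [← hK]
      exact ((Dle.C (n := 0) a).mul h.hP (by omega)).add ((Dle.C (n := 0) b).mul h.hQ (by omega))
    exact (dvd_Dle h1 hl0' hl0).mono (by norm_num)
  have hKS : ∀ p ∈ S, eval p K = 0 := by
    intro p hp
    obtain ⟨hPp, hQp⟩ := h.PS hp
    have e0 := congrArg (eval p) hK
    simp only [map_add, map_mul, eval_C, hPp, hQp, mul_zero, add_zero, eval_X] at e0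
    rcases mul_eq_zero.1 e0.symm with hz | hz
    · -- the line passes through p
      exfalso
      have e1 := congrArg (fun F => eval p (pderiv 0 F)) hK
      have e2 := congrArg (fun F => eval p (pderiv 1 F)) hK
      simp only [map_add, Derivation.leibniz, smul_eq_mul, map_mul, pderiv_C, p00, p01, p10, p11, eval_C,
        eval_X, mul_zero, add_zero, zero_add, mul_one, hPp, hQp] at e1 e2
      rw [hz] at e1 e2
      have hD := h.dS p hp
      have hJ := h.Jp p hp
      simp only [DD, Jac, map_add, map_sub, map_mul] at hD hJ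
      set px := eval p (pderiv 0 P)
      set py := eval p (pderiv 1 P)
      set qx := eval p (pderiv 0 Q)
      set qy := eval p (pderiv 1 Q)
      set k := eval p K
      have hq : qy = - px := by linarith
      rw [hq] at hJ e2
      have f1 : a * (k ^ 2 + (px * (-px) - py * qx)) = 0 := by
        linear_combination (-k - px) * e1 - qx * e2
      have f2 : b * (k ^ 2 + (px * (-px) - py * qx)) = 0 := by
        linear_combination (-k + px) * e2 - py * e1
      have hpos : 0 < k ^ 2 + (px * (-px) - py * qx) := by positivity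
      rcases hab with h1 | h1
      · exact (mul_ne_zero h1 hpos.ne') f1
      · exact (mul_ne_zero h1 hpos.ne') f2
    · exact hz
  obtain ⟨κ, hκ⟩ := h.cubic dK hKS
  have hκ0 : κ ≠ 0 := by
    rintro rfl
    rw [C_0, zero_mul] at hκ
    rw [hκ, mul_zero] at hK
    obtain ⟨h1, h2⟩ := h.inj3 (Dle.C a) hK
    rcases hab with h3 | h3
    · exact h3 (by simpa using h1)
    · exact h3 (by simpa using h2)
  refine ⟨_, κ⁻¹, hl, hl0, ?_⟩
  have e : (C κ⁻¹ * C κ : RP) = 1 := by rw [← C_mul, inv_mul_cancel₀ hκ0, C_1]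
  rw [hX, hK, hκ]
  linear_combination ((C a * X 0 + C b * X 1 + C c) * DD P Q) * e

/-- a conic with a real affine factor leads to type I -/
lemma typeI_of_factor (h : Cfg P Q Z S) {l l' α β : RP} (hl : Dle 1 l) (hl0 : ¬ Dle 0 l) (hl' : Dle 1 l')
    (hf0 : l * l' ≠ 0) (hα : Dle 1 α) (hβ : Dle 1 β) (he : l * l' * DD P Q = α * P + β * Q) :
    TypeI P Q := by
  have hE := h.EE_zero (hl.mul hl' (by omega)) hα hβ he
  have hprime := aff_prime hl hl0
  obtain ⟨a, b, c, hlc⟩ := aff_coords hl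
  have hab : a ≠ 0 ∨ b ≠ 0 := by rw [hlc] at hl0; exact aff_ne hl0
  have lx : pderiv 0 l = C a := by rw [hlc, pd_aff0]
  have ly : pderiv 1 l = C b := by rw [hlc, pd_aff1]
  unfold EE at hE
  simp only [Derivation.leibniz, smul_eq_mul, lx, ly] at hE
  have hdl : l ∣ C a * β - C b * α := by
    by_cases hll : l ∣ l'
    · obtain ⟨e, he'⟩ := hll
      have hl0' : l ≠ 0 := hprime.ne_zero
      have de : Dle 0 e := by
        have h1 : Dle 1 (l * e) := by rw [← he']; exact hl'
        exact dvd_Dle h1 hl0' hl0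
      obtain ⟨e0, rfl⟩ : ∃ e0 : ℝ, e = C e0 := by
        refine ⟨coeff 0 e, ?_⟩
        exact (totalDegree_eq_zero_iff_eq_C).1 (Nat.le_zero.1 de)
      have he0 : e0 ≠ 0 := by
        rintro rfl
        rw [C_0, mul_zero] at he'
        rw [he', mul_zero] at hf0
        exact hf0 rfl
      subst he'
      simp only [Derivation.leibniz, smul_eq_mul, lx, ly, pderiv_C, mul_zero, zero_add] at hE
      have h2 : l * C e0 * (l * (pderiv 0 β - pderiv 1 α) - 2 * (C a * β - C b * α)) = 0 := by
        linear_combination hE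
      rcases mul_eq_zero.1 h2 with h3 | h3
      · exfalso
        rcases mul_eq_zero.1 h3 with h4 | h4
        · exact hl0' h4
        · exact he0 (by simpa using h4)
      · refine ⟨C (1 / 2) * (pderiv 0 β - pderiv 1 α), ?_⟩
        have c2 : (C (1 / 2) * 2 : RP) = 1 := by
          rw [show (2 : RP) = C 2 from (map_ofNat C 2).symm, ← C_mul]; norm_num
        linear_combination (-(C a * β - C b * α)) * c2 - C (1 / 2) * h3
    · have h1 : l ∣ l' * (C a * β - C b * α) := by
        refine ⟨l' * (pderiv 0 β - pderiv 1 α) - pderiv 0 l' * β + pderiv 1 l' * α, ?_⟩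
        linear_combination (-1 : RP) * hE
      rcases hprime.dvd_or_dvd h1 with h2 | h2
      · exact absurd h2 hll
      · exact h2
  obtain ⟨κ, hκ⟩ := hdl
  have hX : XF P Q l = C a * P + C b * Q := by unfold XF; rw [lx, ly]; ring
  have d1 : l ∣ α * XF P Q l := by
    rw [hX]
    refine ⟨C a * l' * DD P Q - κ * Q, ?_⟩
    linear_combination (-C a) * he - Q * hκ
  have d2 : l ∣ β * XF P Q l := by
    rw [hX]
    refine ⟨C b * l' * DD P Q + κ * P, ?_⟩
    linear_combination (-C b) * he + P * hκ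
  by_cases hinv : l ∣ XF P Q l
  · exact h.typeI_of_inv hl hl0 hinv
  · have e1 : l ∣ α := (hprime.dvd_or_dvd d1).resolve_right hinv
    have e2 : l ∣ β := (hprime.dvd_or_dvd d2).resolve_right hinv
    obtain ⟨α', rfl⟩ := e1
    obtain ⟨β', rfl⟩ := e2
    have dα' : Dle 0 α' := dvd_Dle hα hprime.ne_zero hl0
    have dβ' : Dle 0 β' := dvd_Dle hβ hprime.ne_zero hl0
    have he2 : l' * DD P Q = α' * P + β' * Q := by
      apply mul_left_cancel₀ hprime.ne_zero
      linear_combination he
    have hE2 := h.EE_zero (hl'.mono (by norm_num)) (dα'.mono (by norm_num)) (dβ'.mono (by norm_num)) he2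
    obtain ⟨u, rfl⟩ : ∃ u : ℝ, α' = C u :=
      ⟨coeff 0 α', (totalDegree_eq_zero_iff_eq_C).1 (Nat.le_zero.1 dα')⟩
    obtain ⟨v, rfl⟩ : ∃ v : ℝ, β' = C v :=
      ⟨coeff 0 β', (totalDegree_eq_zero_iff_eq_C).1 (Nat.le_zero.1 dβ')⟩
    obtain ⟨a', b', c', hlc'⟩ := aff_coords hl'
    have lx' : pderiv 0 l' = C a' := by rw [hlc', pd_aff0]
    have ly' : pderiv 1 l' = C b' := by rw [hlc', pd_aff1]
    unfold EE at hE2
    rw [lx', ly', pderiv_C, pderiv_C, sub_zero, mul_zero, zero_sub, neg_eq_zero] at hE2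
    have hE3 : a' * v - b' * u = 0 := by
      have := congrArg (eval 0) hE2
      simpa using this
    have hl'0 : l' ≠ 0 := right_ne_zero_of_mul hf0
    by_cases hab' : a' = 0 ∧ b' = 0
    · exfalso
      rw [hab'.1, hab'.2, C_0, zero_mul, zero_mul, zero_add, zero_add] at hlc'
      -- constant times D is a combination of P and Q, hence zero
      have h3 : cx (l' * DD P Q) = 0 := by
        apply h.n.ci.eq_zero3
        · apply Dle_cx_iff.2
          rw [hlc']
          exact (Dle.C (n := 0) c').mul h.dD (by omega)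
        · intro z hz
          obtain ⟨z1, z2⟩ := (h.n.ci.hZ z).1 hz
          rw [he2, cx_add, cx_mul, cx_mul, map_add, map_mul, map_mul, z1, z2]; ring
      have h4 : l' * DD P Q = 0 := cx_inj (by rw [h3, cx_zero])
      rcases mul_eq_zero.1 h4 with h5 | h5
      · exact hl'0 h5
      · exact h.D0 h5
    · have hl'd : ¬ Dle 0 l' := by
        intro h0
        apply hab'
        have h1 : l' = C (coeff 0 l') := (totalDegree_eq_zero_iff_eq_C).1 (Nat.le_zero.1 h0)
        have h2 : pderiv 0 l' = 0 := by rw [h1, pderiv_C]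
        have h3 : pderiv 1 l' = 0 := by rw [h1, pderiv_C]
        rw [lx'] at h2
        rw [ly'] at h3
        exact ⟨by simpa using h2, by simpa using h3⟩
      -- (u, v) is a multiple of (a', b')
      obtain ⟨κ', hu', hv'⟩ : ∃ κ' : ℝ, u = κ' * a' ∧ v = κ' * b' := by
        by_cases ha' : a' = 0
        · have hb' : b' ≠ 0 := fun hb => hab' ⟨ha', hb⟩
          refine ⟨v / b', ?_, ?_⟩
          · rw [ha', zero_mul, zero_sub, neg_eq_zero] at hE3
            rcases mul_eq_zero.1 hE3 with h1 | h1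
            · exact absurd h1 hb'
            · rw [h1, ha']; ring
          · field_simp
        · refine ⟨u / a', ?_, ?_⟩
          · field_simp
          · field_simp
            linear_combination hE3
      refine ⟨l', κ', hl', hl'd, ?_⟩
      unfold XF
      rw [lx', ly', he2, hu', hv', C_mul, C_mul]
      ring

end Cfg

end Run7.h256
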