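import Mathlib
import Pool.Agent.Run7.h256.Cls

set_option autoImplicit false

namespace Run7.h256

open MvPolynomial

lemma unit_of {a : RP} (ha : a ≠ 0) (hd : Dle 0 a) : IsUnit a := by
  have h1 : a = C (coeff 0 a) := (totalDegree_eq_zero_iff_eq_C).1 (Nat.le_zero.1 hd)
  rw [h1]
  apply IsUnit.map
  rw [isUnit_iff_ne_zero]
  intro h0
  rw [h0, C_0] at h1
  exact ha h1

lemma not_unit {a : RP} (hd : ¬ Dle 0 a) : ¬ IsUnit a := by
  intro h
  apply hd
  unfold Dle
  rw [(MvPolynomial.isUnit_iff_totalDegree_of_isReduced.mp h).2]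

lemma notDle_aff {a b c : ℝ} (h : a ≠ 0 ∨ b ≠ 0) : ¬ Dle 0 (C a * X 0 + C b * X 1 + C c : RP) := by
  intro h0
  have h1 : (C a * X 0 + C b * X 1 + C c : RP) = C (coeff 0 (C a * X 0 + C b * X 1 + C c : RP)) :=
    (totalDegree_eq_zero_iff_eq_C).1 (Nat.le_zero.1 h0)
  have h2 : (C a * X 0 + C b * X 1 + C (c - coeff 0 (C a * X 0 + C b * X 1 + C c : RP)) : RP) = 0 := by
    rw [C_sub]; linear_combination h1
  obtain ⟨h3, h4, _⟩ := aff_zero h2
  rcases h with h5 | h5
  · exact h5 h3
  · exact h5 h4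

lemma Cn2 : (C (2 : ℝ) : RP) = 2 := map_ofNat C 2

/-- a quadratic form with nonnegative discriminant is reducible -/
lemma form_reducible {A B Cc c1 c2 : ℝ} (hd : 0 ≤ B ^ 2 - A * Cc) {f : RP}
    (hf : f = C A * ((X 0 - C c1) * (X 0 - C c1)) + C (2 * B) * ((X 0 - C c1) * (X 1 - C c2)) +
      C Cc * ((X 1 - C c2) * (X 1 - C c2))) : ¬ Irreducible f := by
  intro hirr
  by_cases hA : A = 0
  · have e : f = (C 0 * X 0 + C 1 * X 1 + C (-c2)) * (C (2 * B) * X 0 + C Cc * X 1 + C (-(2 * B * c1) - Cc * c2)) := by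
      rw [hf, hA]
      simp only [C_0, C_1, C_mul, C_neg, C_sub, Cn2]
      ring
    rcases hirr.isUnit_or_isUnit e with h1 | h1
    · exact not_unit (notDle_aff (Or.inr one_ne_zero)) h1
    · by_cases hBC : 2 * B = 0 ∧ Cc = 0
      · rw [hBC.1, hBC.2] at e
        have : f = 0 := by
          rw [hf, hA, hBC.1, hBC.2]; simp
        exact hirr.ne_zero this
      · apply not_unit (notDle_aff _) h1
        by_contra hcon
        push Not at hcon
        exact hBC hcon
  · set r := Real.sqrt (B ^ 2 - A * Cc) with hr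
    have hr2 : r * r = B ^ 2 - A * Cc := Real.mul_self_sqrt hd
    have e : f = (C A * X 0 + C (B - r) * X 1 + C (-(A * c1) - (B - r) * c2)) *
        (C 1 * X 0 + C ((B + r) / A) * X 1 + C (-c1 - (B + r) / A * c2)) := by
      have e1 : (C A * C ((B + r) / A) : RP) = C B + C r := by
        rw [← C_mul, ← C_add]; congr 1; field_simp
      have e2 : ((C B - C r) * (C ((B + r) / A)) : RP) = C Cc := by
        rw [← C_sub, ← C_mul]; congr 1; field_simp; linear_combination -hr2
      rw [hf]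
      simp only [C_1, C_mul, C_neg, C_sub, Cn2]
      linear_combination (-(X 0 - C c1) * (X 1 - C c2)) * e1 - (X 1 - C c2) * (X 1 - C c2) * e2
    rcases hirr.isUnit_or_isUnit e with h1 | h1
    · exact not_unit (notDle_aff (Or.inl hA)) h1
    · exact not_unit (notDle_aff (Or.inl one_ne_zero)) h1

namespace Cfg

variable {P Q : RP} {Z : Finset (Fin 2 → ℂ)} {S : Finset (Fin 2 → ℝ)}

/-- `D` does not divide both `P` and `Q` with affine quotients -/
lemma not_both (h : Cfg P Q Z S) {u v : RP} (_ : Dle 1 u) (hv : Dle 1 v) (h1 : P = u * DD P Q)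
    (h2 : Q = v * DD P Q) : False := by
  obtain ⟨h3, h4⟩ := h.inj3 (u := v) (v := -u) (hv.mono (by norm_num)) (by
    linear_combination v * h1 - u * h2)
  have h5 : u = 0 := by linear_combination -h4
  rw [h5, zero_mul] at h1
  have h6 := h.n.ci.P_ne_zero
  rw [h1] at h6
  exact h6 (by rw [cx_zero])

/-- the elliptic singular conic is impossible -/
lemma no_ell (h : Cfg P Q Z S) {A B Cc c1 c2 κ δ : ℝ} {f : RP}
    (hf : f = C A * ((X 0 - C c1) * (X 0 - C c1)) + C (2 * B) * ((X 0 - C c1) * (X 1 - C c2)) +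
      C Cc * ((X 1 - C c2) * (X 1 - C c2)))
    (hirr : Irreducible f) (hδ : δ ≠ 0)
    (he : f * DD P Q = C (κ / 2) * XF P Q f + C (δ / 2) * ((X 0 - C c1) * Q - (X 1 - C c2) * P)) : False := by
  have hdisc : 0 < A * Cc - B ^ 2 := by
    by_contra hcon
    exact form_reducible (by linarith) hf hirr
  have hA : A ≠ 0 := by
    rintro rfl
    nlinarith [sq_nonneg B]
  obtain ⟨ξ, hξ⟩ : ∃ ξ : RP, ξ = X 0 - C c1 := ⟨_, rfl⟩
  obtain ⟨η, hη⟩ : ∃ η : RP, η = X 1 - C c2 := ⟨_, rfl⟩
  rw [← hξ, ← hη] at hf he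
  obtain ⟨σ, hσ⟩ : ∃ σ : RP, σ = ξ * Q - η * P := ⟨_, rfl⟩
  rw [← hσ] at he
  have ξx : pderiv 0 ξ = 1 := by rw [hξ, map_sub, p00, pderiv_C, sub_zero]
  have ξy : pderiv 1 ξ = 0 := by rw [hξ, map_sub, p10, pderiv_C, sub_zero]
  have ηx : pderiv 0 η = 0 := by rw [hη, map_sub, p01, pderiv_C, sub_zero]
  have ηy : pderiv 1 η = 1 := by rw [hη, map_sub, p11, pderiv_C, sub_zero]
  have hX : XF P Q f = 2 * ((C A * ξ + C B * η) * P + (C B * ξ + C Cc * η) * Q) := by
    unfold XF
    rw [hf]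
    simp only [map_add, Derivation.leibniz, smul_eq_mul, pderiv_C, ξx, ξy, ηx, ηy, C_mul, Cn2, pd2]
    ring
  have hprime : Prime f := hirr.prime
  have hf2 : Dle 2 f := by
    have d1 : Dle 1 ξ := by rw [hξ]; exact (Dle.X le_rfl 0).sub (Dle.C c1)
    have d2 : Dle 1 η := by rw [hη]; exact (Dle.X le_rfl 1).sub (Dle.C c2)
    rw [hf]
    exact (((Dle.C (n := 0) _).mul (d1.mul d1 (n := 2) (by omega)) (by omega)).add
      ((Dle.C (n := 0) _).mul (d1.mul d2 (n := 2) (by omega)) (by omega))).add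
      ((Dle.C (n := 0) _).mul (d2.mul d2 (n := 2) (by omega)) (by omega))
  have hf1 : ¬ Dle 1 f := by
    intro h1
    obtain ⟨a, b, c, hc⟩ := aff_coords h1
    have h2 : (C A * (X 0 * X 0) + C (2 * B) * (X 0 * X 1) + C Cc * (X 1 * X 1) +
        C (-(2 * A * c1) - 2 * B * c2 - a) * X 0 + C (-(2 * B * c1) - 2 * Cc * c2 - b) * X 1 +
        C (A * c1 ^ 2 + 2 * B * c1 * c2 + Cc * c2 ^ 2 - c) : RP) = 0 := by
      rw [hξ, hη] at hf
      rw [hf] at hc
      simp only [C_mul, C_sub, C_neg, C_add, C_pow, Cn2] at hc ⊢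
      linear_combination hc
    exact hA (quad_zero h2).1
  -- divisibility
  have hid : f * (4 * (C A * P * P + 2 * C B * P * Q + C Cc * Q * Q)) =
      XF P Q f * XF P Q f + 4 * (C A * C Cc - C B * C B) * (σ * σ) := by
    rw [hX, hσ, hf, C_mul, Cn2]; ring
  have c2e : (C (κ / 2) * 2 : RP) = C κ := by rw [← Cn2, ← C_mul]; congr 1; ring
  have d2e : (C (δ / 2) * 2 : RP) = C δ := by rw [← Cn2, ← C_mul]; congr 1; ring
  have he2 : 2 * f * DD P Q = C κ * XF P Q f + C δ * σ := by
    rw [← c2e, ← d2e]; linear_combination 2 * he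
  have hσ2 : f ∣ C (δ ^ 2 + 4 * κ ^ 2 * (A * Cc - B ^ 2)) * (σ * σ) := by
    refine ⟨2 * DD P Q * (C δ * σ - C κ * XF P Q f) +
      C κ * C κ * (4 * (C A * P * P + 2 * C B * P * Q + C Cc * Q * Q)), ?_⟩
    have c4 : (C 4 : RP) = 4 := map_ofNat C 4
    simp only [C_add, C_mul, C_sub, C_pow, c4]
    linear_combination (-(C δ * σ - C κ * XF P Q f)) * he2 - C κ * C κ * hid
  have hcne : δ ^ 2 + 4 * κ ^ 2 * (A * Cc - B ^ 2) ≠ 0 := by
    have : 0 < δ ^ 2 := by positivity
    have : 0 ≤ 4 * κ ^ 2 * (A * Cc - B ^ 2) := by positivity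
    positivity
  have hfσ : f ∣ σ := by
    have h1 : f ∣ σ * σ := by
      have hu : IsUnit (C (δ ^ 2 + 4 * κ ^ 2 * (A * Cc - B ^ 2)) : RP) :=
        (isUnit_iff_ne_zero.2 hcne).map C
      exact (hu.dvd_mul_left).1 hσ2
    rcases hprime.dvd_or_dvd h1 with h2 | h2 <;> exact h2
  have hfX : f ∣ XF P Q f := by
    have h1 : f ∣ XF P Q f * XF P Q f := by
      obtain ⟨k, hk⟩ := hfσ
      refine ⟨4 * (C A * P * P + 2 * C B * P * Q + C Cc * Q * Q) - 4 * (C A * C Cc - C B * C B) * (k * σ), ?_⟩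
      linear_combination (-1 : RP) * hid - 4 * (C A * C Cc - C B * C B) * σ * hk
    rcases hprime.dvd_or_dvd h1 with h2 | h2 <;> exact h2
  obtain ⟨K1, hK1⟩ := hfX
  obtain ⟨K2, hK2⟩ := hfσ
  have dX : Dle 5 (XF P Q f) := by
    unfold XF
    exact (h.hP.mul (hf2.pderiv (n := 1) 0) (by omega)).add (h.hQ.mul (hf2.pderiv (n := 1) 1) (by omega))
  have dK1 : Dle 3 K1 := by
    rw [hK1] at dX
    exact (dvd_Dle dX hprime.ne_zero hf1)
  have dK2 : Dle 3 K2 := by
    have d1 : Dle 1 ξ := by rw [hξ]; exact (Dle.X le_rfl 0).sub (Dle.C c1)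
    have d2 : Dle 1 η := by rw [hη]; exact (Dle.X le_rfl 1).sub (Dle.C c2)
    have d3 : Dle 5 σ := by
      rw [hσ]; exact (d1.mul h.hQ (by omega)).sub (d2.mul h.hP (by omega))
    rw [hK2] at d3
    exact (dvd_Dle d3 hprime.ne_zero hf1)
  have hDK : 2 * DD P Q = C κ * K1 + C δ * K2 := by
    apply mul_left_cancel₀ hprime.ne_zero
    rw [hK1, hK2] at he2
    linear_combination he2
  have evf : ∀ p : Fin 2 → ℝ, A * eval p f = (A * (p 0 - c1) + B * (p 1 - c2)) ^ 2 +
      (A * Cc - B ^ 2) * (p 1 - c2) ^ 2 := by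
    intro p
    rw [hf, hξ, hη]
    simp only [map_add, map_mul, map_sub, eval_C, eval_X]
    ring
  -- values at the points of S
  have hS0 : ∀ p ∈ S, eval p K1 = 0 ∧ eval p K2 = 0 := by
    intro p hp
    obtain ⟨hPp, hQp⟩ := h.PS hp
    by_cases hfp : eval p f = 0
    · exfalso
      have h1 := evf p
      rw [hfp, mul_zero] at h1
      have h2 : p 1 - c2 = 0 := by
        by_contra hne
        have : 0 < (A * Cc - B ^ 2) * (p 1 - c2) ^ 2 := mul_pos hdisc (by positivity)
        nlinarith [sq_nonneg (A * (p 0 - c1) + B * (p 1 - c2))]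
      have h3 : p 0 - c1 = 0 := by
        rw [h2] at h1
        have : A * (p 0 - c1) = 0 := by nlinarith
        rcases mul_eq_zero.1 this with h4 | h4
        · exact absurd h4 hA
        · exact h4
      have eξ : eval p ξ = 0 := by rw [hξ, map_sub, eval_X, eval_C]; exact h3
      have eη : eval p η = 0 := by rw [hη, map_sub, eval_X, eval_C]; exact h2
      -- second derivatives
      have hJ := h.Jp p hp
      have hD := h.dS p hp
      have hDK' := congrArg (eval p) hDK
      rw [hK2] at hσ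
      rw [hK1] at hX
      rw [hf] at hσ hX
      have v2 : eval p (2 : RP) = 2 := by rw [← Cn2, eval_C]
      have s1 := congrArg (fun F => eval p (pderiv 0 (pderiv 0 F))) hσ
      have s2 := congrArg (fun F => eval p (pderiv 0 (pderiv 1 F))) hσ
      have s3 := congrArg (fun F => eval p (pderiv 1 (pderiv 1 F))) hσ
      have r1 := congrArg (fun F => eval p (pderiv 0 (pderiv 0 F))) hX
      simp only [map_add, map_sub, map_mul, Derivation.leibniz, smul_eq_mul, pderiv_C, ξx, ξy, ηx, ηy, C_mul,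
        Cn2, pd2, map_zero, map_one, mul_zero, zero_mul, add_zero, zero_add, mul_one, sub_zero, zero_sub, eξ,
        eη, hPp, hQp, eval_C, v2, Derivation.map_one_eq_zero] at s1 s2 s3 r1 hDK'
      simp only [DD, Jac, map_add, map_sub, map_mul] at hD hJ hDK'
      set px := eval p (pderiv 0 P)
      set py := eval p (pderiv 1 P)
      set qx := eval p (pderiv 0 Q)
      set qy := eval p (pderiv 1 Q)
      set k1 := eval p K1
      set k2 := eval p K2
      have t1 : qx = k2 * A := by linear_combination (-1 / 2) * s1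
      have t2 : qy - px = 2 * B * k2 := by linear_combination (-1 : ℝ) * s2
      have t3 : - py = Cc * k2 := by linear_combination (-1 / 2) * s3
      have t4 : 2 * (A * px + B * qx) = A * k1 := by linear_combination (-1 / 2) * r1
      have t5 : k1 = 0 := by
        have h6 : A * k1 = 0 := by
          rw [← t4, t1]
          linear_combination A * (hD - t2)
        rcases mul_eq_zero.1 h6 with h7 | h7
        · exact absurd h7 hA
        · exact h7
      have t6 : k2 = 0 := by
        rw [hD, t5] at hDK'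
        have h6 : δ * k2 = 0 := by linear_combination -hDK'
        rcases mul_eq_zero.1 h6 with h7 | h7
        · exact absurd h7 hδ
        · exact h7
      rw [t6] at t1 t2 t3
      have h8 : py = 0 := by linear_combination -t3
      have h9 : px = 0 := by linear_combination (hD - t2) / 2
      rw [h8, h9] at hJ
      linarith
    · constructor
      · have := congrArg (eval p) hK1
        unfold XF at this
        simp only [map_add, map_mul, hPp, hQp, zero_mul, add_zero] at this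
        rcases mul_eq_zero.1 this.symm with h1 | h1
        · exact absurd h1 hfp
        · exact h1
      · have := congrArg (eval p) hK2
        rw [hσ] at this
        simp only [map_sub, map_mul, hPp, hQp, mul_zero, sub_zero] at this
        rcases mul_eq_zero.1 this.symm with h1 | h1
        · exact absurd h1 hfp
        · exact h1
  obtain ⟨κ1, hκ1⟩ := h.cubic dK1 (fun p hp => (hS0 p hp).1)
  obtain ⟨κ2, hκ2⟩ := h.cubic dK2 (fun p hp => (hS0 p hp).2)
  have hhalf : (C (1 / 2) * 2 : RP) = 1 := by rw [← Cn2, ← C_mul]; norm_num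
  have hPe : P = (C (1 / 2) * (C κ1 * ξ - C κ2 * (2 * (C B * ξ + C Cc * η)))) * DD P Q := by
    apply mul_left_cancel₀ hprime.ne_zero
    have q1 : 2 * f * P = (C κ1 * ξ - C κ2 * (2 * (C B * ξ + C Cc * η))) * (f * DD P Q) := by
      have e1 : 2 * f * P = ξ * XF P Q f - (2 * (C B * ξ + C Cc * η)) * σ := by
        rw [hX, hσ, hf, C_mul, Cn2]; ring
      rw [e1, hK1, hK2, hκ1, hκ2]; ring
    linear_combination (-(f * P)) * hhalf + C (1 / 2) * q1
  have hQe : Q = (C (1 / 2) * (C κ1 * η + C κ2 * (2 * (C A * ξ + C B * η)))) * DD P Q := by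
    apply mul_left_cancel₀ hprime.ne_zero
    have q1 : 2 * f * Q = (C κ1 * η + C κ2 * (2 * (C A * ξ + C B * η))) * (f * DD P Q) := by
      have e1 : 2 * f * Q = η * XF P Q f + (2 * (C A * ξ + C B * η)) * σ := by
        rw [hX, hσ, hf, C_mul, Cn2]; ring
      rw [e1, hK1, hK2, hκ1, hκ2]; ring
    linear_combination (-(f * Q)) * hhalf + C (1 / 2) * q1
  have d1 : Dle 1 ξ := by rw [hξ]; exact (Dle.X le_rfl 0).sub (Dle.C c1)
  have d2 : Dle 1 η := by rw [hη]; exact (Dle.X le_rfl 1).sub (Dle.C c2)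
  have dcm : ∀ (c : ℝ) {F : RP}, Dle 1 F → Dle 1 (C c * F) := fun c F hF =>
    (Dle.C (n := 0) c).mul hF (by omega)
  have d2m : ∀ {F : RP}, Dle 1 F → Dle 1 (2 * F) := fun hF => by rw [← Cn2]; exact dcm _ hF
  exact h.not_both (dcm _ ((dcm _ d1).sub (dcm _ (d2m ((dcm _ d1).add (dcm _ d2))))))
    (dcm _ ((dcm _ d2).add (dcm _ (d2m ((dcm _ d1).add (dcm _ d2)))))) hPe hQe

end Cfg

end Run7.h256
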