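import Mathlib
import Pool.Agent.Run7.h256.Cls2

set_option autoImplicit false

namespace Run7.h256

open MvPolynomial

/-- quadratic polynomial with given coefficients -/
noncomputable def qd (A B Cc D E F : ℝ) : RP :=
  C A * (X 0 * X 0) + C (2 * B) * (X 0 * X 1) + C Cc * (X 1 * X 1) + C (2 * D) * X 0 +
      C (2 * E) * X 1 + C F

lemma qd_x (A B Cc D E F : ℝ) : pderiv 0 (qd A B Cc D E F) = 2 * (C A * X 0 + C B * X 1 + C D) := by
  unfold qd
  simp only [map_add, Derivation.leibniz, smul_eq_mul, pderiv_C, p00, p01, C_mul, Cn2, pd2]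
  ring

lemma qd_y (A B Cc D E F : ℝ) : pderiv 1 (qd A B Cc D E F) = 2 * (C B * X 0 + C Cc * X 1 + C E) := by
  unfold qd
  simp only [map_add, Derivation.leibniz, smul_eq_mul, pderiv_C, p10, p11, C_mul, Cn2, pd2]
  ring

/-- coefficient equations -/
lemma EE_coords {A B Cc D E F a0 a1 a2 b0 b1 b2 : ℝ}
    (hE : EE (qd A B Cc D E F) (C a1 * X 0 + C a2 * X 1 + C a0) (C b1 * X 0 + C b2 * X 1 + C b0) = 0) :
    A * (b1 - a2) - (2 * A * b1 - 2 * B * a1) = 0 ∧
    2 * B * (b1 - a2) - (2 * A * b2 + 2 * B * b1 - 2 * B * a2 - 2 * Cc * a1) = 0 ∧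
    Cc * (b1 - a2) - (2 * B * b2 - 2 * Cc * a2) = 0 ∧
    2 * D * (b1 - a2) - (2 * A * b0 + 2 * D * b1 - 2 * B * a0 - 2 * E * a1) = 0 ∧
    2 * E * (b1 - a2) - (2 * B * b0 + 2 * D * b2 - 2 * Cc * a0 - 2 * E * a2) = 0 ∧
    F * (b1 - a2) - (2 * D * b0 - 2 * E * a0) = 0 := by
  apply quad_zero
  rw [← hE]
  unfold EE
  rw [qd_x, qd_y, pd_aff0, pd_aff1]
  unfold qd
  simp only [C_mul, C_sub, C_add, Cn2]
  ring

namespace Cfg

variable {P Q : RP} {Z : Finset (Fin 2 → ℂ)} {S : Finset (Fin 2 → ℝ)}

/-- conics depending on one linear form are impossible -/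
lemma no_dir (h : Cfg P Q Z S) {τ τ' F κ u v : ℝ} {f : RP} (huv : u ≠ 0 ∨ v ≠ 0) (hf1 : ¬ Dle 1 f)
    (hf : f = C τ * ((C u * X 0 + C v * X 1) * (C u * X 0 + C v * X 1)) +
      C (2 * τ') * (C u * X 0 + C v * X 1) + C F)
    (hirr : Irreducible f)
    (he : f * DD P Q = (C κ * (C τ * (C u * X 0 + C v * X 1) + C τ') + 1) * (C u * P + C v * Q)) : False := by
  have hprime : Prime f := hirr.prime
  have hτ : τ ≠ 0 := by
    rintro rfl
    apply hf1
    rw [hf]
    have : (C 0 * ((C u * X 0 + C v * X 1) * (C u * X 0 + C v * X 1)) +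
      C (2 * τ') * (C u * X 0 + C v * X 1) + C F : RP) = C (2 * τ' * u) * X 0 + C (2 * τ' * v) * X 1 + C F := by
      simp only [C_mul, C_0]; ring
    rw [this]; exact Dle_aff _ _ _
  have hdvd : f ∣ (C κ * (C τ * (C u * X 0 + C v * X 1) + C τ') + 1) * (C u * P + C v * Q) := ⟨_, he.symm⟩
  have hne : (C κ * (C τ * (C u * X 0 + C v * X 1) + C τ') + 1 : RP) ≠ 0 := by
    intro h0
    rw [h0, zero_mul] at he
    rcases mul_eq_zero.1 he with h1 | h1
    · exact hirr.ne_zero h1
    · exact h.D0 h1
  have hd2 : f ∣ C u * P + C v * Q := by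
    rcases hprime.dvd_or_dvd hdvd with h1 | h1
    · exfalso
      obtain ⟨g, hg⟩ := h1
      have e1 : (C κ * (C τ * (C u * X 0 + C v * X 1) + C τ') + 1 : RP) =
          C (κ * τ * u) * X 0 + C (κ * τ * v) * X 1 + C (κ * τ' + 1) := by
        simp only [C_mul, C_add, C_1]; ring
      have hg0 : g ≠ 0 := by
        rintro rfl
        rw [mul_zero] at hg
        exact hne hg
      have h2 : Dle 1 (f * g) := by rw [← hg, e1]; exact Dle_aff _ _ _
      apply hf1
      unfold Dle at *
      rw [totalDegree_mul_eq hprime.ne_zero hg0] at h2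
      omega
    · exact h1
  obtain ⟨K, hK⟩ := hd2
  have dK : Dle 2 K := by
    have h1 : Dle 4 (f * K) := by
      rw [← hK]
      exact ((Dle.C (n := 0) u).mul h.hP (by omega)).add ((Dle.C (n := 0) v).mul h.hQ (by omega))
    exact dvd_Dle h1 hprime.ne_zero hf1
  have hKS : ∀ p ∈ S, eval p K = 0 := by
    intro p hp
    obtain ⟨hPp, hQp⟩ := h.PS hp
    have e0 := congrArg (eval p) hK
    simp only [map_add, map_mul, eval_C, hPp, hQp, mul_zero, add_zero] at e0
    rcases mul_eq_zero.1 e0.symm with hz | hz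
    · exfalso
      set lam := u * p 0 + v * p 1 with hlam
      have e1 : τ * lam * lam + 2 * τ' * lam + F = 0 := by
        rw [hf] at hz
        simp only [map_add, map_mul, eval_C, eval_X] at hz
        rw [hlam]; linear_combination hz
      have e2 : f = (C u * X 0 + C v * X 1 + C (-lam)) *
          (C (τ * u) * X 0 + C (τ * v) * X 1 + C (τ * lam + 2 * τ')) := by
        have e3 : (C F : RP) = - (C τ * C lam * C lam + 2 * C τ' * C lam) := by
          rw [← Cn2, ← C_mul, ← C_mul, ← C_mul, ← C_mul, ← C_add, ← C_neg]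
          congr 1; linear_combination e1
        rw [hf, e3]
        simp only [C_mul, C_neg, C_add, Cn2]
        ring
      rcases hirr.isUnit_or_isUnit e2 with h1 | h1
      · exact not_unit (notDle_aff huv) h1
      · apply not_unit (notDle_aff _) h1
        rcases huv with h2 | h2
        · exact Or.inl (mul_ne_zero hτ h2)
        · exact Or.inr (mul_ne_zero hτ h2)
    · exact hz
  have hK0 := h.conic dK hKS
  rw [hK0, mul_zero] at hK
  obtain ⟨h1, h2⟩ := h.inj3 (Dle.C u) hK
  rcases huv with h3 | h3
  · exact h3 (by simpa using h1)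
  · exact h3 (by simpa using h2)

/-- classification -/
theorem cls (h : Cfg P Q Z S) {f : RP} (hf : Dle 2 f) (hf0 : f ≠ 0)
    (hfT : ∀ t ∈ T1 P Q Z S, eval t (cx f) = 0) :
    TypeI P Q ∨ (Irreducible f ∧ ¬ Dle 1 f ∧ ∃ c : ℝ, C c * XF P Q f = f * DD P Q) := by
  obtain ⟨α, β, hα, hβ, he⟩ := h.cof hf hfT
  by_cases hf1 : Dle 1 f
  · left
    have hfd : ¬ Dle 0 f := by
      intro h0
      have h1 : f = C (coeff 0 f) := (totalDegree_eq_zero_iff_eq_C).1 (Nat.le_zero.1 h0)
      obtain ⟨t, ht⟩ := h.T1_nonempty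
      have h2 := hfT t ht
      rw [h1, cx_C, eval_C] at h2
      apply hf0
      rw [h1]
      have : coeff 0 f = 0 := by exact_mod_cast h2
      rw [this, C_0]
    exact h.typeI_of_factor hf1 hfd (l' := 1) Dle.one (by rwa [mul_one]) hα hβ (by rw [mul_one]; exact he)
  by_cases hirr : Irreducible f
  · have hE := h.EE_zero hf hα hβ he
    obtain ⟨A, B, Cc, D, E, F, hfc⟩ := quad_coords hf
    obtain ⟨a1, a2, a0, rfl⟩ := aff_coords hα
    obtain ⟨b1, b2, b0, rfl⟩ := aff_coords hβ
    have hfq : f = qd A B Cc D E F := hfc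
    rw [hfq] at hE
    obtain ⟨g1, g2, g3, g4, g5, g6⟩ := EE_coords hE
    have hABC : ¬ (A = 0 ∧ B = 0 ∧ Cc = 0) := by
      rintro ⟨rfl, rfl, rfl⟩
      apply hf1
      rw [hfc]
      simp only [C_0, mul_zero, zero_mul, zero_add]
      exact Dle_aff _ _ _
    obtain ⟨κ, k1, k2, k3⟩ : ∃ κ : ℝ, a1 = κ * A ∧ a2 + b1 = 2 * κ * B ∧ b2 = κ * Cc := by
      by_cases hA : A = 0
      · by_cases hC : Cc = 0
        · have hB : B ≠ 0 := fun hB => hABC ⟨hA, hB, hC⟩
          refine ⟨(a2 + b1) / (2 * B), ?_, ?_, ?_⟩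
          · rw [hA] at g1
            have h1 : B * a1 = 0 := by linear_combination g1 / 2
            rcases mul_eq_zero.1 h1 with h2 | h2
            · exact absurd h2 hB
            · rw [h2, hA]; ring
          · field_simp
          · rw [hC] at g3
            have h1 : B * b2 = 0 := by linear_combination -g3 / 2
            rcases mul_eq_zero.1 h1 with h2 | h2
            · exact absurd h2 hB
            · rw [h2, hC]; ring
        · refine ⟨b2 / Cc, ?_, ?_, ?_⟩
          · field_simp
            linear_combination g2 / 2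
          · field_simp
            linear_combination g3
          · field_simp
      · refine ⟨a1 / A, ?_, ?_, ?_⟩
        · field_simp
        · field_simp
          linear_combination -g1
        · field_simp
          linear_combination -g2 / 2
    obtain ⟨δ, hδ⟩ : ∃ δ, δ = b1 - a2 := ⟨_, rfl⟩
    obtain ⟨u, hu⟩ : ∃ u, u = a0 - κ * D := ⟨_, rfl⟩
    obtain ⟨v, hv⟩ : ∃ v, v = b0 - κ * E := ⟨_, rfl⟩
    have eb1 : b1 = κ * B + δ / 2 := by linear_combination hδ / (-2) + k2 / 2
    have ea2 : a2 = κ * B - δ / 2 := by linear_combination k2 / 2 + hδ / 2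
    have ea0 : a0 = u + κ * D := by linear_combination -hu
    have eb0 : b0 = v + κ * E := by linear_combination -hv
    subst k1 k3 eb1 ea2 ea0 eb0
    have q1 : D * δ = 2 * (A * v - B * u) := by linear_combination g4
    have q2 : E * δ = 2 * (B * v - Cc * u) := by linear_combination g5
    have q3 : F * δ = 2 * (D * v - E * u) := by linear_combination g6
    by_cases hδ0 : δ = 0
    · by_cases huv : u = 0 ∧ v = 0
      · right
        refine ⟨hirr, hf1, κ / 2, ?_⟩
        rw [he, huv.1, huv.2, hδ0]
        unfold XF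
        rw [hfq, qd_x, qd_y]
        have c2e : (C (κ / 2) * 2 : RP) = C κ := by rw [← Cn2, ← C_mul]; congr 1; ring
        simp only [C_mul, C_add, C_sub, C_0, zero_div, add_zero, sub_zero, zero_add]
        linear_combination ((C A * X 0 + C B * X 1 + C D) * P + (C B * X 0 + C Cc * X 1 + C E) * Q) * c2e
      · exfalso
        rw [hδ0] at q1 q2 q3
        have huv' : u ≠ 0 ∨ v ≠ 0 := by
          by_contra hcon
          push Not at hcon
          exact huv hcon
        obtain ⟨τ, τ', w1, w2, w3, w4, w5⟩ : ∃ τ τ' : ℝ, A = τ * u * u ∧ B = τ * u * v ∧ Cc = τ * v * v ∧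
            D = τ' * u ∧ E = τ' * v := by
          by_cases hu0 : u = 0
          · have hv0 : v ≠ 0 := fun hv0 => huv ⟨hu0, hv0⟩
            rw [hu0] at q1 q2 q3
            have hA : A = 0 := by
              have : A * v = 0 := by linear_combination -q1 / 2
              exact (mul_eq_zero.1 this).resolve_right hv0
            have hB : B = 0 := by
              have : B * v = 0 := by linear_combination -q2 / 2
              exact (mul_eq_zero.1 this).resolve_right hv0
            have hD : D = 0 := by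
              have : D * v = 0 := by linear_combination -q3 / 2
              exact (mul_eq_zero.1 this).resolve_right hv0
            refine ⟨Cc / (v * v), E / v, by rw [hA, hu0]; ring, by rw [hB, hu0]; ring, by field_simp,
              by rw [hD, hu0]; ring, by field_simp⟩
          · have r1 : B = A * v / u := by field_simp; linear_combination q1 / 2
            have r2 : Cc = B * v / u := by field_simp; linear_combination q2 / 2
            have r3 : E = D * v / u := by field_simp; linear_combination q3 / 2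
            refine ⟨A / (u * u), D / u, by field_simp, by rw [r1]; field_simp,
              by rw [r2, r1]; field_simp, by field_simp, by rw [r3]; field_simp⟩
        refine h.no_dir (τ := τ) (τ' := τ') (F := F) (κ := κ) huv' hf1 ?_ hirr ?_
        · rw [hfc, w1, w2, w3, w4, w5]
          simp only [C_mul, Cn2]
          ring
        · rw [he, hδ0, w1, w2, w3, w4, w5]
          simp only [C_mul, C_add, C_sub, C_0, zero_div, add_zero, sub_zero]
          ring
    · exfalso
      refine h.no_ell (A := A) (B := B) (Cc := Cc) (c1 := -(2 * v / δ)) (c2 := 2 * u / δ) (κ := κ) (δ := δ)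
        ?_ hirr hδ0 ?_
      · have y1 : D = A * (2 * v / δ) - B * (2 * u / δ) := by field_simp; linear_combination q1
        have y2 : E = B * (2 * v / δ) - Cc * (2 * u / δ) := by field_simp; linear_combination q2
        have y3 : F = D * (2 * v / δ) - E * (2 * u / δ) := by field_simp; linear_combination q3
        rw [hfc, y3, y1, y2]
        generalize 2 * v / δ = s1
        generalize 2 * u / δ = s2
        simp only [C_mul, C_add, C_sub, C_neg, Cn2]
        ring
      · rw [he]
        unfold XF
        rw [hfq, qd_x, qd_y]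
        have c2e : (C (κ / 2) * 2 : RP) = C κ := by rw [← Cn2, ← C_mul]; congr 1; ring
        have z1 : (C (δ / 2) * C (2 * u / δ) : RP) = C u := by rw [← C_mul]; congr 1; field_simp
        have z2 : (C (δ / 2) * C (2 * v / δ) : RP) = C v := by rw [← C_mul]; congr 1; field_simp
        simp only [C_mul, C_add, C_sub, C_neg] at z1 z2 ⊢
        linear_combination (-1 : RP) * ((C A * X 0 + C B * X 1 + C D) * P +
          (C B * X 0 + C Cc * X 1 + C E) * Q) * c2e - P * z1 - Q * z2
  · -- reducible
    left
    have hnu : ¬ IsUnit f := not_unit (fun h0 => hf1 (h0.mono (by norm_num)))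
    rw [irreducible_iff] at hirr
    push Not at hirr
    obtain ⟨a, b, hab, ha, hb⟩ := hirr hnu
    have ha0 : a ≠ 0 := by rintro rfl; rw [zero_mul] at hab; exact hf0 hab
    have hb0 : b ≠ 0 := by rintro rfl; rw [mul_zero] at hab; exact hf0 hab
    have ha1 : ¬ Dle 0 a := fun h0 => ha (unit_of ha0 h0)
    have hb1 : ¬ Dle 0 b := fun h0 => hb (unit_of hb0 h0)
    have hdeg := totalDegree_mul_eq ha0 hb0
    rw [← hab] at hdeg
    have hda : Dle 1 a := by unfold Dle at *; omega
    have hdb : Dle 1 b := by unfold Dle at *; omega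
    rw [hab] at he hf0
    exact h.typeI_of_factor hda ha1 hdb hf0 hα hβ he

end Cfg

end Run7.h256
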