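import Mathlib
import Pool.Agent.Run7.h256.Cls

set_option autoImplicit false

namespace Run7.h256

open MvPolynomial ComplexConjugate

lemma Dle_prod {ι : Type*} [DecidableEq ι] (s : Finset ι) (g : ι → RR) (hg : ∀ i ∈ s, Dle 1 (g i)) :
    Dle s.card (∏ i ∈ s, g i) := by
  induction s using Finset.induction_on with
  | empty => simp only [Finset.prod_empty]; exact Dle.one
  | insert a s ha ih =>
    rw [Finset.prod_insert ha, Finset.card_insert_of_notMem ha]
    exact (hg a (Finset.mem_insert_self a s)).mul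
      (ih (fun i hi => hg i (Finset.mem_insert_of_mem hi))) (by omega)

namespace Cfg

variable {P Q : RP} {Z : Finset (Fin 2 → ℂ)} {S : Finset (Fin 2 → ℝ)}

/-- at least four points carry nonzero divergence -/
lemma four_le (h : Cfg P Q Z S) : 4 ≤ (T1 P Q Z S).card := by
  classical
  by_contra hcon
  push Not at hcon
  obtain ⟨t0, ht0⟩ := h.T1_nonempty
  have hsep : ∀ t : Fin 2 → ℂ, t ≠ t0 → ∃ g : RR, Dle 1 g ∧ eval t g = 0 ∧ eval t0 g ≠ 0 := by
    intro t ht
    obtain ⟨i, hi⟩ : ∃ i, t i ≠ t0 i := by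
      by_contra hc
      push Not at hc
      exact ht (funext hc)
    refine ⟨X i - C (t i), (Dle.X le_rfl i).sub (Dle.C _), by simp, ?_⟩
    rw [map_sub, eval_X, eval_C, sub_ne_zero]
    exact Ne.symm hi
  choose! g hg1 hg2 hg3 using hsep
  have hd : Dle 2 (∏ t ∈ (T1 P Q Z S).erase t0, g t) := by
    refine (Dle_prod _ g (fun t ht => hg1 t (Finset.ne_of_mem_erase ht))).mono ?_
    rw [Finset.card_erase_of_mem ht0]; omega
  have h1 := h.sep_false hd ht0 (by
    intro t ht htt
    rw [map_prod]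
    exact Finset.prod_eq_zero (Finset.mem_erase.2 ⟨htt, ht⟩) (hg2 t htt))
  rw [map_prod, Finset.prod_eq_zero_iff] at h1
  obtain ⟨t, ht, h2⟩ := h1
  exact hg3 t (Finset.ne_of_mem_erase ht) h2

lemma ZT1 (h : Cfg P Q Z S) {t : Fin 2 → ℂ} (ht : t ∈ T1 P Q Z S) :
    eval t (cx P) = 0 ∧ eval t (cx Q) = 0 := (h.n.ci.hZ t).1 (memT1.1 ht).1

/-- invariant curves pass through `T1` -/
lemma inv_vanish (h : Cfg P Q Z S) {f : RP} {c : ℝ} (he : C c * XF P Q f = f * DD P Q) {t : Fin 2 → ℂ}
    (ht : t ∈ T1 P Q Z S) : eval t (cx f) = 0 := by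
  obtain ⟨h1, h2⟩ := h.ZT1 ht
  have e := congrArg (fun F => eval t (cx F)) he
  simp only [XF, cx_mul, cx_add, map_mul, map_add, h1, h2, zero_mul, add_zero, mul_zero] at e
  rcases mul_eq_zero.1 e.symm with h3 | h3
  · exact h3
  · exact absurd h3 (memT1.1 ht).2.2

/-- first derivatives of the invariance relation at a point of `T1` -/
lemma inv_deriv (h : Cfg P Q Z S) {f : RP} {c : ℝ} (he : C c * XF P Q f = f * DD P Q) {t : Fin 2 → ℂ}
    (ht : t ∈ T1 P Q Z S) :
    (c : ℂ) * (eval t (cx (pderiv 0 P)) * eval t (cx (pderiv 0 f)) +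
      eval t (cx (pderiv 0 Q)) * eval t (cx (pderiv 1 f))) =
        eval t (cx (pderiv 0 f)) * eval t (cx (DD P Q)) ∧
    (c : ℂ) * (eval t (cx (pderiv 1 P)) * eval t (cx (pderiv 0 f)) +
      eval t (cx (pderiv 1 Q)) * eval t (cx (pderiv 1 f))) =
        eval t (cx (pderiv 1 f)) * eval t (cx (DD P Q)) := by
  obtain ⟨h1, h2⟩ := h.ZT1 ht
  have h3 := h.inv_vanish he ht
  have e0 := congrArg (fun F => eval t (cx (pderiv 0 F))) he
  have e1 := congrArg (fun F => eval t (cx (pderiv 1 F))) he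
  simp only [XF, Derivation.leibniz, smul_eq_mul, pderiv_C, map_add, cx_mul, cx_add, cx_C, map_mul,
    h1, h2, h3, zero_mul, add_zero, mul_zero, zero_add, eval_C] at e0 e1
  constructor
  · linear_combination e0
  · linear_combination e1

/-- the Jacobian on `T1` -/
lemma J_formula (h : Cfg P Q Z S) {f : RP} {c : ℝ} (he : C c * XF P Q f = f * DD P Q) {t : Fin 2 → ℂ}
    (ht : t ∈ T1 P Q Z S) (hne : eval t (cx (pderiv 0 f)) ≠ 0 ∨ eval t (cx (pderiv 1 f)) ≠ 0) :
    (c : ℂ) ^ 2 * eval t (Jac (cx P) (cx Q)) = ((c : ℂ) - 1) * eval t (cx (DD P Q)) ^ 2 := by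
  obtain ⟨e0, e1⟩ := h.inv_deriv he ht
  rw [cx_Jac]
  have hD : eval t (cx (DD P Q)) = eval t (cx (pderiv 0 P)) + eval t (cx (pderiv 1 Q)) := by
    rw [DD, cx_add, map_add]
  simp only [Jac, cx_sub, cx_mul, map_sub, map_mul]
  rw [hD] at e0 e1 ⊢
  set px := eval t (cx (pderiv 0 P))
  set py := eval t (cx (pderiv 1 P))
  set qx := eval t (cx (pderiv 0 Q))
  set qy := eval t (cx (pderiv 1 Q))
  set a := eval t (cx (pderiv 0 f))
  set b := eval t (cx (pderiv 1 f))
  have f1 : a * ((c : ℂ) ^ 2 * (px * qy - py * qx) - ((c : ℂ) - 1) * (px + qy) ^ 2) = 0 := by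
    linear_combination (c * qy - (px + qy)) * e0 - c * qx * e1
  have f2 : b * ((c : ℂ) ^ 2 * (px * qy - py * qx) - ((c : ℂ) - 1) * (px + qy) ^ 2) = 0 := by
    linear_combination (c * px - (px + qy)) * e1 - c * py * e0
  rcases hne with h3 | h3
  · have := (mul_eq_zero.1 f1).resolve_left h3
    linear_combination this
  · have := (mul_eq_zero.1 f2).resolve_left h3
    linear_combination this

/-- positive nonreal points -/
def pos (t : Fin 2 → ℂ) : Prop := 0 < (t 0).im ∨ ((t 0).im = 0 ∧ 0 < (t 1).im)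

lemma not_pos_conj {t : Fin 2 → ℂ} (h : pos t) : ¬ pos (fun i => conj (t i)) := by
  unfold pos at *
  simp only [Complex.conj_im]
  rcases h with h | ⟨h1, h2⟩
  · rintro (h3 | ⟨h3, _⟩) <;> linarith
  · rintro (h3 | ⟨_, h3⟩) <;> linarith

lemma real_or_pos (t : Fin 2 → ℂ) : pos t ∨ pos (fun i => conj (t i)) ∨ ∀ i, conj (t i) = t i := by
  unfold pos
  simp only [Complex.conj_im]
  rcases lt_trichotomy (t 0).im 0 with h | h | h
  · right; left; left; linarith
  · rcases lt_trichotomy (t 1).im 0 with h' | h' | h'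
    · right; left; right; exact ⟨by linarith, by linarith⟩
    · right; right
      intro i
      rw [Complex.conj_eq_iff_im]
      fin_cases i
      · exact h
      · exact h'
    · left; right; exact ⟨h, h'⟩
  · left; left; exact h

open CI16 in
/-- the case `c > 1` is impossible -/
lemma no_gt1 (h : Cfg P Q Z S) {c : ℝ} (hc : 1 < c)
    (hJ : ∀ t ∈ T1 P Q Z S, (c : ℂ) ^ 2 * eval t (Jac (cx P) (cx Q)) =
      ((c : ℂ) - 1) * eval t (cx (DD P Q)) ^ 2) : False := by
  classical
  set T := T1 P Q Z S with hT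
  set B1 := T.filter pos with hB1
  have hcard : 2 * B1.card ≤ T.card := by
    have h1 : B1.card ≤ (T \ B1).card := by
      apply Finset.card_le_card_of_injOn (fun t : Fin 2 → ℂ => (fun i => conj (t i)))
      · intro t ht
        have ht' := Finset.mem_filter.1 (Finset.mem_coe.1 ht)
        rw [Finset.mem_coe, Finset.mem_sdiff]
        refine ⟨h.conj_mem_T1 ht'.1, ?_⟩
        intro h2
        exact not_pos_conj ht'.2 (Finset.mem_filter.1 h2).2
      · intro t _ t' _ htt
        ext i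
        have := congrFun htt i
        simp only at this
        rw [← Complex.conj_conj (t i), this, Complex.conj_conj]
    have h2 : (T \ B1).card + B1.card = T.card :=
      Finset.card_sdiff_add_card_eq_card (Finset.filter_subset pos T)
    omega
  have h4 : 4 ≤ T.card := h.four_le
  have h7 : T.card + (T0 P Q Z S).card = 7 := h.card_T
  set B := T0 P Q Z S ∪ B1 with hB
  have hBcard : B.card ≤ 5 := by
    have h8 : B.card ≤ (T0 P Q Z S).card + B1.card := Finset.card_union_le (T0 P Q Z S) B1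
    omega
  -- a conic through B
  obtain ⟨F, hF0, hF2, hFB⟩ : ∃ F : RR, F ≠ 0 ∧ Dle 2 F ∧ ∀ t ∈ B, eval t F = 0 := by
    have e1 := LinearMap.finrank_range_add_finrank_ker (ev B 2)
    have e2 := finrank_Pl (k := ℂ) 2
    have e3 := Submodule.finrank_le (LinearMap.range (ev B 2))
    rw [Module.finrank_fintype_fun_eq_card, Fintype.card_coe] at e3
    have e4 : LinearMap.ker (ev B 2) ≠ ⊥ := by
      intro h0
      rw [h0, finrank_bot] at e1
      omega
    obtain ⟨x0, hx0, hx0'⟩ := Submodule.exists_mem_ne_zero_of_ne_bot e4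
    obtain ⟨x, hx⟩ : ∃ x : LinearMap.ker (ev B 2), x ≠ 0 := ⟨⟨x0, hx0⟩, fun h0 => hx0' (congrArg Subtype.val h0)⟩
    refine ⟨x.1.1, ?_, mem_Pl.1 x.1.2, ?_⟩
    · intro h0; exact hx (Subtype.ext (Subtype.ext h0))
    · intro t ht
      have := congrFun (LinearMap.mem_ker.1 x.2) ⟨t, ht⟩
      rw [ev_apply] at this
      exact this
  have hEJ := h.n.ci.euler_jacobi (F := F * cj F) (hF2.mul (Dle_cj hF2) (by omega))
  -- every term is a nonnegative real
  have hterm : ∀ z ∈ Z, ∃ ρ : ℝ, 0 ≤ ρ ∧ eval z (F * cj F) / eval z (Jac (cx P) (cx Q)) = ρ ∧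
      (z ∈ S.map ⟨cp, cp_inj⟩ → ρ = 0 → eval z F = 0) := by
    intro z hz
    have hreal : ∀ r : ℝ, 0 < r → eval z (Jac (cx P) (cx Q)) = r → (∀ i, conj (z i) = z i) →
        eval z (F * cj F) / eval z (Jac (cx P) (cx Q)) = ((Complex.normSq (eval z F) / r : ℝ) : ℂ) := by
      intro r hr hr' hz'
      rw [map_mul, eval_cj F z hz', Complex.mul_conj, hr']
      push_cast; rfl
    by_cases hzs : z ∈ S.map ⟨cp, cp_inj⟩
    · obtain ⟨r, hr, hr'⟩ := h.n.pos z hzs
      refine ⟨Complex.normSq (eval z F) / r, div_nonneg (Complex.normSq_nonneg _) hr.le,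
        hreal r hr hr' (h.n.real z hzs), ?_⟩
      intro _ h0
      rw [div_eq_zero_iff] at h0
      rcases h0 with h1 | h1
      · exact Complex.normSq_eq_zero.1 h1
      · exact absurd h1 hr.ne'
    · by_cases hd : eval z (cx (DD P Q)) = 0
      · have hz0 : z ∈ B := Finset.mem_union_left _ (memT0.2 ⟨hz, hzs, hd⟩)
        refine ⟨0, le_rfl, ?_, fun h1 => absurd h1 hzs⟩
        rw [map_mul, hFB z hz0]; simp
      · have hzT : z ∈ T := memT1.2 ⟨hz, hzs, hd⟩
        rcases real_or_pos z with h1 | h1 | h1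
        · have hz0 : z ∈ B := Finset.mem_union_right _ (Finset.mem_filter.2 ⟨hzT, h1⟩)
          refine ⟨0, le_rfl, ?_, fun h1 => absurd h1 hzs⟩
          rw [map_mul, hFB z hz0]; simp
        · have hz0 : (fun i => conj (z i)) ∈ B :=
            Finset.mem_union_right _ (Finset.mem_filter.2 ⟨h.conj_mem_T1 hzT, h1⟩)
          refine ⟨0, le_rfl, ?_, fun h1 => absurd h1 hzs⟩
          have h2 := eval_cj' F (fun i => conj (z i))
          simp only [Complex.conj_conj] at h2
          rw [map_mul, h2, hFB _ hz0, map_zero]; simp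
        · -- real point of T1
          obtain ⟨d, hd'⟩ : ∃ d : ℝ, eval z (cx (DD P Q)) = d := by
            have h2 := eval_cx_conj (DD P Q) z
            rw [show (fun i => conj (z i)) = z from funext h1] at h2
            exact ⟨_, (Complex.conj_eq_iff_re.1 h2.symm).symm⟩
          have hd0 : d ≠ 0 := by
            rintro rfl
            apply hd
            rw [hd']; simp
          have hJz := hJ z hzT
          rw [hd'] at hJz
          have hcne : (c : ℂ) ≠ 0 := by
            have : c ≠ 0 := by linarith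
            exact_mod_cast this
          have hJz2 : eval z (Jac (cx P) (cx Q)) = (((c - 1) * d ^ 2 / c ^ 2 : ℝ) : ℂ) := by
            push_cast
            field_simp
            linear_combination hJz
          have hpos : 0 < (c - 1) * d ^ 2 / c ^ 2 := by
            have : 0 < c - 1 := by linarith
            positivity
          refine ⟨Complex.normSq (eval z F) / ((c - 1) * d ^ 2 / c ^ 2),
            div_nonneg (Complex.normSq_nonneg _) hpos.le, hreal _ hpos hJz2 h1, fun h1 => absurd h1 hzs⟩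
  choose! ρ hρ0 hρ1 hρ2 using hterm
  rw [Finset.sum_congr rfl hρ1, ← Complex.ofReal_sum] at hEJ
  have hsum : ∑ z ∈ Z, ρ z = 0 := by exact_mod_cast hEJ
  rw [Finset.sum_eq_zero_iff_of_nonneg hρ0] at hsum
  apply hF0
  apply h.n.conic_eq_zero hF2
  intro s hs
  exact hρ2 s (h.n.sub hs) hs (hsum s (h.n.sub hs))

/-- range of `c` -/
lemma c_lt (h : Cfg P Q Z S) {c : ℝ}
    (hJ : ∀ t ∈ T1 P Q Z S, (c : ℂ) ^ 2 * eval t (Jac (cx P) (cx Q)) =
      ((c : ℂ) - 1) * eval t (cx (DD P Q)) ^ 2) : c < 1 ∧ c ≠ 0 := by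
  obtain ⟨t, ht⟩ := h.T1_nonempty
  have hJt := hJ t ht
  have hD := (memT1.1 ht).2.2
  constructor
  · by_contra hcon
    push Not at hcon
    rcases eq_or_lt_of_le hcon with h1 | h1
    · rw [← h1] at hJt
      apply h.n.ci.jac_ne_zero (memT1.1 ht).1
      push_cast at hJt
      linear_combination hJt
    · exact h.no_gt1 h1 hJ
  · rintro rfl
    push_cast at hJt
    have : eval t (cx (DD P Q)) ^ 2 = 0 := by linear_combination hJt
    exact hD (pow_eq_zero_iff (two_ne_zero) |>.1 this)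

end Cfg

end Run7.h256
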