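import Mathlib
import Pool.Agent.Run7.h256.Cls3
import Pool.Agent.Run7.h256.TA

set_option autoImplicit false

namespace Run7.h256

open MvPolynomial ComplexConjugate

namespace Cfg

variable {P Q : RP} {Z : Finset (Fin 2 → ℂ)} {S : Finset (Fin 2 → ℝ)}

/-- second derivatives of the invariance relation at a singular point of the curve -/
lemma sing_rel (h : Cfg P Q Z S) {f : RP} {c A B Cc D E F : ℝ} (hfq : f = qd A B Cc D E F)
    (he : C c * XF P Q f = f * DD P Q) {t : Fin 2 → ℂ} (ht : t ∈ T1 P Q Z S)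
    (h0 : (A : ℂ) * t 0 + B * t 1 + D = 0) (h1 : (B : ℂ) * t 0 + Cc * t 1 + E = 0) :
    (c - 1) * (A * Cc - B ^ 2) = 0 := by
  have hft := h.inv_vanish he ht
  have fx : pderiv 0 f = C (2 * A) * X 0 + C (2 * B) * X 1 + C (2 * D) := by
    rw [hfq, qd_x]; simp only [C_mul, Cn2]; ring
  have fy : pderiv 1 f = C (2 * B) * X 0 + C (2 * Cc) * X 1 + C (2 * E) := by
    rw [hfq, qd_y]; simp only [C_mul, Cn2]; ring
  have gx : eval t (cx (pderiv 0 f)) = 0 := by
    rw [fx]
    simp only [cx_add, cx_mul, cx_C, cx_X, map_add, map_mul, eval_C, eval_X]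
    push_cast
    linear_combination 2 * h0
  have gy : eval t (cx (pderiv 1 f)) = 0 := by
    rw [fy]
    simp only [cx_add, cx_mul, cx_C, cx_X, map_add, map_mul, eval_C, eval_X]
    push_cast
    linear_combination 2 * h1
  have fxx : pderiv 0 (pderiv 0 f) = C (2 * A) := by rw [fx, pd_aff0]
  have fxy : pderiv 1 (pderiv 0 f) = C (2 * B) := by rw [fx, pd_aff1]
  have fyx : pderiv 0 (pderiv 1 f) = C (2 * B) := by rw [fy, pd_aff0]
  have fyy : pderiv 1 (pderiv 1 f) = C (2 * Cc) := by rw [fy, pd_aff1]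
  have e0 := congrArg (fun G => eval t (cx (pderiv 0 (pderiv 0 G)))) he
  have e1 := congrArg (fun G => eval t (cx (pderiv 1 (pderiv 0 G)))) he
  have e2 := congrArg (fun G => eval t (cx (pderiv 1 (pderiv 1 G)))) he
  simp only [XF, Derivation.leibniz, smul_eq_mul, pderiv_C, map_add, cx_mul, cx_add, cx_C,
    map_mul, fxx, fxy, fyx, fyy, hft, gx, gy, zero_mul, add_zero, mul_zero, zero_add, eval_C]
    at e0 e1 e2
  have hD := (memT1.1 ht).2.2
  have hDe : eval t (cx (DD P Q)) = eval t (cx (pderiv 0 P)) + eval t (cx (pderiv 1 Q)) := by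
    rw [DD, cx_add, map_add]
  have key : ((c : ℂ) - 1) * ((A : ℂ) * Cc - (B : ℂ) ^ 2) * eval t (cx (DD P Q)) = 0 := by
    push_cast at e0 e1 e2
    rw [hDe] at e0 e1 e2 ⊢
    linear_combination (Cc / 4 : ℂ) * e0 - (B / 2 : ℂ) * e1 + (A / 4 : ℂ) * e2
  have k2 := (mul_eq_zero.1 key).resolve_right hD
  exact_mod_cast k2

/-- singular degenerate conics are reducible -/
lemma sing_red {f : RP} {A B Cc D E F : ℝ} (hfq : f = qd A B Cc D E F) (hirr : Irreducible f)
    (hf1 : ¬ Dle 1 f) {t : Fin 2 → ℂ}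
    (h0 : (A : ℂ) * t 0 + B * t 1 + D = 0) (h1 : (B : ℂ) * t 0 + Cc * t 1 + E = 0)
    (ht : eval t (cx f) = 0) (hdet : A * Cc - B ^ 2 = 0) : False := by
  have h2 : (D : ℂ) * t 0 + E * t 1 + F = 0 := by
    rw [hfq] at ht
    unfold qd at ht
    simp only [cx_add, cx_mul, cx_C, cx_X, map_add, map_mul, eval_C, eval_X] at ht
    push_cast at ht
    linear_combination ht - t 0 * h0 - t 1 * h1
  have hdet' : (A : ℂ) * Cc - (B : ℂ) ^ 2 = 0 := by exact_mod_cast hdet
  have hno : ∀ u v w k : ℝ, k ≠ 0 → (u ≠ 0 ∨ v ≠ 0) →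
      C k * f = (C u * X 0 + C v * X 1 + C w) * (C u * X 0 + C v * X 1 + C w) → False := by
    intro u v w k hk huv hf
    have hf' : f = (C (k⁻¹ * u) * X 0 + C (k⁻¹ * v) * X 1 + C (k⁻¹ * w)) * (C u * X 0 + C v * X 1 + C w) := by
      have : (C k⁻¹ * C k : RP) = 1 := by rw [← C_mul, inv_mul_cancel₀ hk, C_1]
      simp only [C_mul]
      linear_combination (- f) * this + C k⁻¹ * hf
    rcases hirr.isUnit_or_isUnit hf' with h3 | h3
    · apply not_unit (notDle_aff _) h3
      rcases huv with h4 | h4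
      · exact Or.inl (mul_ne_zero (inv_ne_zero hk) h4)
      · exact Or.inr (mul_ne_zero (inv_ne_zero hk) h4)
    · exact not_unit (notDle_aff huv) h3
  by_cases hA : A = 0
  · have hB : B = 0 := by
      rw [hA] at hdet
      have : B ^ 2 = 0 := by linear_combination -hdet
      exact pow_eq_zero_iff (two_ne_zero) |>.1 this
    have hC : Cc ≠ 0 := by
      rintro rfl
      apply hf1
      rw [hfq, hA, hB]
      unfold qd
      simp only [C_0, mul_zero, zero_mul, zero_add]
      exact Dle_aff _ _ _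
    have hDz : D = 0 := by
      rw [hA, hB] at h0
      simp only [Complex.ofReal_zero, zero_mul, zero_add] at h0
      exact_mod_cast h0
    have hCF : Cc * F - E ^ 2 = 0 := by
      have : (Cc : ℂ) * F - (E : ℂ) ^ 2 = 0 := by
        rw [hB] at h1
        rw [hDz] at h2
        simp only [Complex.ofReal_zero, zero_mul, zero_add] at h1 h2
        linear_combination Cc * h2 - E * h1
      exact_mod_cast this
    apply hno 0 Cc E Cc hC (Or.inr hC)
    rw [hfq, hA, hB, hDz]
    unfold qd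
    have e : (C Cc * C F : RP) = C E * C E := by
      rw [← C_mul, ← C_mul]; congr 1; linear_combination hCF
    simp only [C_0, C_mul, Cn2, mul_zero]
    linear_combination e
  · have hAE : A * E - B * D = 0 := by
      have : (A : ℂ) * E - (B : ℂ) * D = 0 := by
        linear_combination A * h1 - B * h0 - t 1 * hdet'
      exact_mod_cast this
    have hAE' : (A : ℂ) * E - (B : ℂ) * D = 0 := by exact_mod_cast hAE
    have hAF : A * F - D ^ 2 = 0 := by
      have : (A : ℂ) * F - (D : ℂ) ^ 2 = 0 := by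
        linear_combination A * h2 - D * h0 - t 1 * hAE'
      exact_mod_cast this
    apply hno A B D A hA (Or.inl hA)
    rw [hfq]
    unfold qd
    have e1 : (C A * C F : RP) = C D * C D := by
      rw [← C_mul, ← C_mul]; congr 1; linear_combination hAF
    have e2 : (C A * C E : RP) = C B * C D := by
      rw [← C_mul, ← C_mul]; congr 1; linear_combination hAE
    have e3 : (C A * C Cc : RP) = C B * C B := by
      rw [← C_mul, ← C_mul]; congr 1; linear_combination hdet
    simp only [C_mul, Cn2]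
    linear_combination e1 + 2 * X 1 * e2 + X 1 * X 1 * e3

/-- irreducible invariant conics: the Jacobian formula on `T1` -/
lemma hJ_irr (h : Cfg P Q Z S) {f : RP} {c : ℝ} (hf : Dle 2 f) (hirr : Irreducible f)
    (hf1 : ¬ Dle 1 f) (he : C c * XF P Q f = f * DD P Q) :
    ∀ t ∈ T1 P Q Z S, (c : ℂ) ^ 2 * eval t (Jac (cx P) (cx Q)) =
      ((c : ℂ) - 1) * eval t (cx (DD P Q)) ^ 2 := by
  classical
  obtain ⟨A, B, Cc, D, E, F, hfc⟩ := quad_coords hf
  have hfq : f = qd A B Cc D E F := hfc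
  have gx : ∀ t : Fin 2 → ℂ, eval t (cx (pderiv 0 f)) = 2 * ((A : ℂ) * t 0 + B * t 1 + D) := by
    intro t
    rw [hfq, qd_x, ← Cn2]
    simp only [cx_add, cx_mul, cx_C, cx_X, map_add, map_mul, eval_C, eval_X]
    push_cast; ring
  have gy : ∀ t : Fin 2 → ℂ, eval t (cx (pderiv 1 f)) = 2 * ((B : ℂ) * t 0 + Cc * t 1 + E) := by
    intro t
    rw [hfq, qd_y, ← Cn2]
    simp only [cx_add, cx_mul, cx_C, cx_X, map_add, map_mul, eval_C, eval_X]
    push_cast; ring
  have hreg : ∀ t ∈ T1 P Q Z S, eval t (cx (pderiv 0 f)) ≠ 0 ∨ eval t (cx (pderiv 1 f)) ≠ 0 := by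
    by_contra hcon
    push Not at hcon
    obtain ⟨t, ht, h1, h2⟩ := hcon
    rw [gx] at h1
    rw [gy] at h2
    have h1' := (mul_eq_zero.1 h1).resolve_left two_ne_zero
    have h2' := (mul_eq_zero.1 h2).resolve_left two_ne_zero
    have h3 := h.sing_rel hfq he ht h1' h2'
    have hdet : A * Cc - B ^ 2 ≠ 0 := fun h0 => sing_red hfq hirr hf1 h1' h2' (h.inv_vanish he ht) h0
    have hc1 : c = 1 := by
      have := (mul_eq_zero.1 h3).resolve_right hdet
      linarith
    have hdet' : (A : ℂ) * Cc - (B : ℂ) ^ 2 ≠ 0 := by exact_mod_cast hdet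
    -- another point
    have hcard := h.four_le
    obtain ⟨t', ht', hne⟩ : ∃ t' ∈ T1 P Q Z S, t' ≠ t := by
      by_contra hc
      push Not at hc
      have : (T1 P Q Z S) ⊆ {t} := fun x hx => Finset.mem_singleton.2 (hc x hx)
      have := Finset.card_le_card this
      rw [Finset.card_singleton] at this
      omega
    have hr : eval t' (cx (pderiv 0 f)) ≠ 0 ∨ eval t' (cx (pderiv 1 f)) ≠ 0 := by
      by_contra hc
      push Not at hc
      obtain ⟨h4, h5⟩ := hc
      rw [gx] at h4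
      rw [gy] at h5
      have h4' := (mul_eq_zero.1 h4).resolve_left two_ne_zero
      have h5' := (mul_eq_zero.1 h5).resolve_left two_ne_zero
      apply hne
      ext i
      fin_cases i
      · show t' 0 = t 0
        have : ((A : ℂ) * Cc - (B : ℂ) ^ 2) * (t' 0 - t 0) = 0 := by
          linear_combination Cc * (h4' - h1') - B * (h5' - h2')
        have := (mul_eq_zero.1 this).resolve_left hdet'
        linear_combination this
      · show t' 1 = t 1
        have : ((A : ℂ) * Cc - (B : ℂ) ^ 2) * (t' 1 - t 1) = 0 := by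
          linear_combination A * (h5' - h2') - B * (h4' - h1')
        have := (mul_eq_zero.1 this).resolve_left hdet'
        linear_combination this
    have h6 := h.J_formula he ht' hr
    rw [hc1] at h6
    push_cast at h6
    apply h.n.ci.jac_ne_zero (memT1.1 ht').1
    linear_combination h6
  exact fun t ht => h.J_formula he ht (hreg t ht)

lemma Dle_pd2 {f : RP} (hf : Dle 2 f) (i : Fin 2) : Dle 1 (pderiv i f) := Dle.pderiv (n := 1) hf i

lemma pd_zero_Dle {f : RP} (h0 : pderiv 0 f = 0) (h1 : pderiv 1 f = 0) (hf : Dle 2 f) : Dle 1 f := by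
  obtain ⟨A, B, Cc, D, E, F, hfc⟩ := quad_coords hf
  have hfq : f = qd A B Cc D E F := hfc
  have e0 : (C (2 * A) * X 0 + C (2 * B) * X 1 + C (2 * D) : RP) = 0 := by
    rw [← h0, hfq, qd_x]; simp only [C_mul, Cn2]; ring
  have e1 : (C (2 * B) * X 0 + C (2 * Cc) * X 1 + C (2 * E) : RP) = 0 := by
    rw [← h1, hfq, qd_y]; simp only [C_mul, Cn2]; ring
  obtain ⟨a1, a2, a3⟩ := aff_zero e0
  obtain ⟨b1, b2, b3⟩ := aff_zero e1
  rw [hfc]
  have hA : A = 0 := by linarith
  have hB : B = 0 := by linarith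
  have hC : Cc = 0 := by linarith
  rw [hA, hB, hC]
  simp only [C_0, mul_zero, zero_mul, zero_add]
  exact Dle_aff _ _ _

/-- pencils of invariant conics are impossible outside type I -/
lemma pencil (h : Cfg P Q Z S) (hI : ¬ TypeI P Q) {f g : RP} (hf : Dle 2 f) (hf0 : f ≠ 0)
    (hfT : ∀ t ∈ T1 P Q Z S, eval t (cx f) = 0) (hg : Dle 2 g)
    (hgT : ∀ t ∈ T1 P Q Z S, eval t (cx g) = 0) : ∃ r : ℝ, g = C r * f := by
  by_contra hcon
  push Not at hcon
  have hg0 : g ≠ 0 := by
    intro h0; apply hcon 0; rw [h0, C_0, zero_mul]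
  obtain ⟨hirr, hf1, c, hc⟩ := (h.cls hf hf0 hfT).resolve_left hI
  obtain ⟨hirrg, hg1, d, hd⟩ := (h.cls hg hg0 hgT).resolve_left hI
  have hfg0 : f + g ≠ 0 := by
    intro h0
    apply hcon (-1)
    rw [C_neg, C_1]
    linear_combination h0
  obtain ⟨_, _, e, he⟩ := (h.cls (hf.add hg) hfg0 (by
    intro t ht
    rw [cx_add, map_add, hfT t ht, hgT t ht, add_zero])).resolve_left hI
  have hc0 : c ≠ 0 := by
    rintro rfl
    rw [C_0, zero_mul] at hc
    rcases mul_eq_zero.1 hc.symm with h1 | h1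
    · exact hf0 h1
    · exact h.D0 h1
  have hd0 : d ≠ 0 := by
    rintro rfl
    rw [C_0, zero_mul] at hd
    rcases mul_eq_zero.1 hd.symm with h1 | h1
    · exact hg0 h1
    · exact h.D0 h1
  -- equality of the constants
  have hX : XF P Q (f + g) = XF P Q f + XF P Q g := XF_add P Q f g
  rw [hX] at he
  have e1 : (C (c * d - e * d) * f + C (c * d - e * c) * g) * DD P Q = 0 := by
    simp only [C_sub, C_mul]
    linear_combination (-(C c * C d) : RP) * he + (C e * C d : RP) * hc + (C e * C c : RP) * hd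
  have e2 := (mul_eq_zero.1 e1).resolve_right h.D0
  have hce : c * d - e * c = 0 := by
    by_contra h1
    apply hcon (-(c * d - e * d) / (c * d - e * c))
    have h2 : (C (c * d - e * c) * C ((c * d - e * c)⁻¹) : RP) = 1 := by
      rw [← C_mul, mul_inv_cancel₀ h1, C_1]
    rw [div_eq_mul_inv, C_mul, C_neg]
    linear_combination C ((c * d - e * c)⁻¹) * e2 - g * h2
  have hde : c * d - e * d = 0 := by
    rw [hce, C_0, zero_mul, add_zero] at e2
    have := (mul_eq_zero.1 e2).resolve_right hf0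
    rwa [C_eq_zero] at this
  have hcd : c = d := by
    have h1 : (d - e) * c = 0 := by linear_combination hce
    have h2 : (c - e) * d = 0 := by linear_combination hde
    have h3 := (mul_eq_zero.1 h1).resolve_right hc0
    have h4 := (mul_eq_zero.1 h2).resolve_right hd0
    linarith
  subst hcd
  -- proportional gradients
  have e3 : C c * ((g * pderiv 0 f - f * pderiv 0 g) * P + (g * pderiv 1 f - f * pderiv 1 g) * Q) = 0 := by
    unfold XF at hc hd
    linear_combination g * hc - f * hd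
  have hcC : (C c : RP) ≠ 0 := by rwa [Ne, C_eq_zero]
  have e4 := (mul_eq_zero.1 e3).resolve_left hcC
  obtain ⟨h1, h2⟩ := h.inj3 ((hg.mul (Dle_pd2 hf 0) (by omega)).sub (hf.mul (Dle_pd2 hg 0) (by omega))) e4
  have hprime : Prime f := hirr.prime
  have hdiv : ∀ i, g * pderiv i f = f * pderiv i g → f ∣ g ∨ pderiv i f = 0 := by
    intro i hi
    rcases hprime.dvd_or_dvd (⟨_, hi⟩ : f ∣ g * pderiv i f) with h3 | h3
    · exact Or.inl h3
    · right
      by_contra h4
      obtain ⟨k, hk⟩ := h3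
      have hk0 : k ≠ 0 := by rintro rfl; exact h4 (by rw [hk, mul_zero])
      apply hf1
      have h5 := Dle_pd2 hf i
      rw [hk] at h5
      unfold Dle at *
      rw [totalDegree_mul_eq hf0 hk0] at h5
      omega
  have hfg : f ∣ g := by
    rcases hdiv 0 (by linear_combination h1) with h3 | h3
    · exact h3
    · rcases hdiv 1 (by linear_combination h2) with h4 | h4
      · exact h4
      · exact absurd (pd_zero_Dle h3 h4 hf) hf1
  obtain ⟨k, hk⟩ := hfg
  have hk0 : k ≠ 0 := by rintro rfl; exact hg0 (by rw [hk, mul_zero])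
  have hkd : Dle 0 k := by
    have h5 := hg
    rw [hk] at h5
    unfold Dle at *
    rw [totalDegree_mul_eq hf0 hk0] at h5
    omega
  have h6 : k = C (coeff 0 k) := (totalDegree_eq_zero_iff_eq_C).1 (Nat.le_zero.1 hkd)
  apply hcon (coeff 0 k)
  rw [← h6, hk, mul_comm]

open CI16 in
/-- a real conic through `T1` -/
lemma exists_conic (h : Cfg P Q Z S) (h6 : (T1 P Q Z S).card ≤ 6) : ∃ f : RP, Dle 2 f ∧ f ≠ 0 ∧
    ∀ t ∈ T1 P Q Z S, eval t (cx f) = 0 := by
  have e1 := h.ker_T1
  have e4 : LinearMap.ker (ev (T1 P Q Z S) 2) ≠ ⊥ := by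
    intro h0
    rw [h0, finrank_bot] at e1
    omega
  obtain ⟨x, hx, hx0⟩ := Submodule.exists_mem_ne_zero_of_ne_bot e4
  have hxT : ∀ t ∈ T1 P Q Z S, eval t x.1 = 0 := by
    intro t ht
    have := congrFun (LinearMap.mem_ker.1 hx) ⟨t, ht⟩
    rw [ev_apply] at this
    exact this
  have hx2 : Dle 2 x.1 := mem_Pl.1 x.2
  obtain ⟨h1, h2⟩ := h.parts_T1 hxT
  by_cases hr : rp x.1 = 0
  · refine ⟨ip x.1, Dle_ip hx2, ?_, h2⟩
    intro hi
    apply hx0
    apply Subtype.ext
    have := decomp x.1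
    rw [hr, hi, cx_zero, mul_zero, add_zero] at this
    exact this
  · exact ⟨rp x.1, Dle_rp hx2, hr, h1⟩

open CI16 in
/-- outside type I there are at least six points in `T1` -/
lemma six_le (h : Cfg P Q Z S) (hI : ¬ TypeI P Q) : 6 ≤ (T1 P Q Z S).card := by
  by_contra hcon
  push Not at hcon
  obtain ⟨f, hf, hf0, hfT⟩ := h.exists_conic (by omega)
  have e1 := h.ker_T1
  have hfm : cx f ∈ Pl ℂ 2 := mem_Pl.2 (Dle_cx_iff.2 hf)
  have hfk : (⟨cx f, hfm⟩ : Pl ℂ 2) ∈ LinearMap.ker (ev (T1 P Q Z S) 2) := by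
    rw [LinearMap.mem_ker]
    ext t
    rw [ev_apply]
    exact hfT t.1 t.2
  have h2 : Module.finrank ℂ (LinearMap.ker (ev (T1 P Q Z S) 2)) ≤ 1 := by
    apply finrank_le_one (⟨⟨cx f, hfm⟩, hfk⟩ : LinearMap.ker (ev (T1 P Q Z S) 2))
    rintro ⟨⟨g, hg⟩, hgk⟩
    have hgT : ∀ t ∈ T1 P Q Z S, eval t g = 0 := by
      intro t ht
      have := congrFun (LinearMap.mem_ker.1 hgk) ⟨t, ht⟩
      rw [ev_apply] at this
      exact this
    have hg2 : Dle 2 g := mem_Pl.1 hg
    obtain ⟨h3, h4⟩ := h.parts_T1 hgT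
    obtain ⟨r, hr⟩ := h.pencil hI hf hf0 hfT (Dle_rp hg2) h3
    obtain ⟨s, hs⟩ := h.pencil hI hf hf0 hfT (Dle_ip hg2) h4
    refine ⟨(r : ℂ) + Complex.I * s, ?_⟩
    apply Subtype.ext
    apply Subtype.ext
    simp only [SetLike.val_smul]
    rw [smul_eq_C_mul]
    have := decomp g
    rw [this, hr, hs, cx_mul, cx_mul, cx_C, cx_C, C_add, C_mul]
    ring
  omega

end Cfg

end Run7.h256
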