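import Mathlib
import Pool.Agent.Run7.h256.Cfg

set_option autoImplicit false

namespace Run7.h256

open MvPolynomial ComplexConjugate

/-- the real residue functional -/
noncomputable def Lam (P Q : RP) (Z : Finset (Fin 2 → ℂ)) : RP →ₗ[ℝ] ℝ where
  toFun F := (∑ z ∈ Z, eval z (cx F) / eval z (Jac (cx P) (cx Q))).re
  map_add' F G := by
    rw [← Complex.add_re, ← Finset.sum_add_distrib]
    congr 1
    apply Finset.sum_congr rfl
    intro z _
    rw [cx_add, map_add, add_div]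
  map_smul' c F := by
    rw [RingHom.id_apply, smul_eq_mul, ← Complex.re_ofReal_mul, Finset.mul_sum]
    congr 1
    apply Finset.sum_congr rfl
    intro z _
    rw [smul_eq_C_mul, cx_mul, cx_C, map_mul, eval_C, mul_div_assoc]

lemma Lam_def (P Q : RP) (Z : Finset (Fin 2 → ℂ)) (F : RP) :
    Lam P Q Z F = (∑ z ∈ Z, eval z (cx F) / eval z (Jac (cx P) (cx Q))).re := rfl

lemma L_C (L : RP →ₗ[ℝ] ℝ) (a : ℝ) (F : RP) : L (C a * F) = a * L F := by
  rw [← smul_eq_C_mul, map_smul, smul_eq_mul]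

/-- homogeneous forms of large degree are not of small degree -/
lemma homog_Dle_zero {n m : ℕ} {F : RP} (h : F.IsHomogeneous n) (hd : Dle m F) (hmn : m < n) : F = 0 := by
  by_contra h0
  have := h.totalDegree h0
  unfold Dle at hd
  omega

lemma sub_hc_Dle {n : ℕ} {F : RP} (h : Dle (n + 1) F) : Dle n (F - hc (n + 1) F) := by
  rw [Dle_iff] at h ⊢
  intro d hd
  rw [coeff_sub, coeff_hc]
  by_cases h1 : d 0 + d 1 = n + 1
  · rw [if_pos h1, sub_self]
  · rw [if_neg h1, sub_zero]; exact h d (by omega)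

lemma homog_Dle {n : ℕ} {F : RP} (h : F.IsHomogeneous n) : Dle n F := h.totalDegree_le

/-- a linear functional adapted to a pair of quartic forms -/
structure LF (p q : RP) (L : RP →ₗ[ℝ] ℝ) : Prop where
  hp : p.IsHomogeneous 4
  hq : q.IsHomogeneous 4
  Lp : ∀ F : RP, Dle 2 F → L (F * p) = 0
  Lq : ∀ F : RP, Dle 2 F → L (F * q) = 0
  LJ : L (Jac p q) = 16

namespace Cfg

variable {P Q : RP} {Z : Finset (Fin 2 → ℂ)} {S : Finset (Fin 2 → ℝ)}

lemma Lam_low (h : Cfg P Q Z S) {F : RP} (hF : Dle 5 F) : Lam P Q Z F = 0 := by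
  rw [Lam_def, h.n.ci.euler_jacobi (Dle_cx_iff.2 hF), Complex.zero_re]

lemma Lam_P (h : Cfg P Q Z S) (F : RP) : Lam P Q Z (F * P) = 0 := by
  rw [Lam_def, Finset.sum_eq_zero, Complex.zero_re]
  intro z hz
  rw [cx_mul, map_mul, ((h.n.ci.hZ z).1 hz).1]; simp

lemma Lam_Q (h : Cfg P Q Z S) (F : RP) : Lam P Q Z (F * Q) = 0 := by
  rw [Lam_def, Finset.sum_eq_zero, Complex.zero_re]
  intro z hz
  rw [cx_mul, map_mul, ((h.n.ci.hZ z).1 hz).2]; simp

lemma Lam_Jac (h : Cfg P Q Z S) : Lam P Q Z (Jac P Q) = 16 := by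
  rw [Lam_def, ← cx_Jac]
  have : ∑ z ∈ Z, eval z (Jac (cx P) (cx Q)) / eval z (Jac (cx P) (cx Q)) = ∑ z ∈ Z, (1 : ℂ) := by
    apply Finset.sum_congr rfl
    intro z hz
    exact div_self (h.n.ci.jac_ne_zero hz)
  rw [this, Finset.sum_const, h.n.ci.card]
  simp

/-- the functional on top forms -/
lemma lf (h : Cfg P Q Z S) : LF (hc 4 P) (hc 4 Q) (Lam P Q Z) := by
  have dP : Dle 3 (P - hc 4 P) := sub_hc_Dle h.hP
  have dQ : Dle 3 (Q - hc 4 Q) := sub_hc_Dle h.hQ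
  have d4 : Dle 4 (hc 4 P) := homog_Dle (hc_homog 4 P)
  have e4 : Dle 4 (hc 4 Q) := homog_Dle (hc_homog 4 Q)
  refine ⟨hc_homog 4 P, hc_homog 4 Q, ?_, ?_, ?_⟩
  · intro F hF
    have e : F * hc 4 P = F * P - F * (P - hc 4 P) := by ring
    rw [e, map_sub, h.Lam_P, h.Lam_low (hF.mul dP (by omega)), sub_zero]
  · intro F hF
    have e : F * hc 4 Q = F * Q - F * (Q - hc 4 Q) := by ring
    rw [e, map_sub, h.Lam_Q, h.Lam_low (hF.mul dQ (by omega)), sub_zero]
  · have e : Jac (hc 4 P) (hc 4 Q) = Jac P Q -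
        (pderiv 0 (P - hc 4 P) * pderiv 1 (hc 4 Q) + pderiv 0 (hc 4 P) * pderiv 1 (Q - hc 4 Q) +
          pderiv 0 (P - hc 4 P) * pderiv 1 (Q - hc 4 Q) -
          (pderiv 1 (P - hc 4 P) * pderiv 0 (hc 4 Q) + pderiv 1 (hc 4 P) * pderiv 0 (Q - hc 4 Q) +
          pderiv 1 (P - hc 4 P) * pderiv 0 (Q - hc 4 Q))) := by
      simp only [Jac, map_sub]
      ring
    rw [e, map_sub, h.Lam_Jac, h.Lam_low, sub_zero]
    have a1 : ∀ i, Dle 3 (pderiv i (hc 4 P)) := fun i => Dle.pderiv (n := 3) d4 i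
    have a2 : ∀ i, Dle 3 (pderiv i (hc 4 Q)) := fun i => Dle.pderiv (n := 3) e4 i
    have a3 : ∀ i, Dle 2 (pderiv i (P - hc 4 P)) := fun i => Dle.pderiv (n := 2) dP i
    have a4 : ∀ i, Dle 2 (pderiv i (Q - hc 4 Q)) := fun i => Dle.pderiv (n := 2) dQ i
    exact ((((a3 0).mul (a2 1) (by omega)).add ((a1 0).mul (a4 1) (by omega))).add
      ((a3 0).mul (a4 1) (by omega))).sub
      ((((a3 1).mul (a2 0) (by omega)).add ((a1 1).mul (a4 0) (by omega))).add
      ((a3 1).mul (a4 0) (by omega)))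

/-- nonnegativity of the functional -/
lemma Lam_nonneg (h : Cfg P Q Z S) {F : RP} {G : RR} (hF : Dle 3 F) (hG : Dle 2 (G - cx F))
    (hGT : ∀ t ∈ Z, t ∉ S.map ⟨cp, cp_inj⟩ → eval t G = 0) : 0 ≤ Lam P Q Z (F * F) := by
  have e1 : G * cj G = cx (F * F) + ((G - cx F) * cj G + cx F * cj (G - cx F)) := by
    have : cj (G - cx F) = cj G - cx F := by
      have h0 : cj (G - cx F) = cj G - cj (cx F) := by simp only [cj, map_sub]
      rw [h0, cj_cx F]
    rw [this, cx_mul]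
    ring
  have dF : Dle 3 (cx F) := Dle_cx_iff.2 hF
  have dG : Dle 3 G := by
    have := dF.add (hG.mono (show 2 ≤ 3 by norm_num))
    rwa [add_sub_cancel] at this
  have e2 : (∑ z ∈ Z, eval z (G * cj G) / eval z (Jac (cx P) (cx Q))).re = Lam P Q Z (F * F) := by
    rw [Lam_def, e1]
    have h1 := h.n.ci.euler_jacobi (F := (G - cx F) * cj G + cx F * cj (G - cx F))
      ((hG.mul (Dle_cj dG) (by omega)).add (dF.mul (Dle_cj hG) (by omega)))
    have h2 : ∑ z ∈ Z, eval z (cx (F * F) + ((G - cx F) * cj G + cx F * cj (G - cx F))) /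
        eval z (Jac (cx P) (cx Q)) = ∑ z ∈ Z, eval z (cx (F * F)) / eval z (Jac (cx P) (cx Q)) +
        ∑ z ∈ Z, eval z ((G - cx F) * cj G + cx F * cj (G - cx F)) / eval z (Jac (cx P) (cx Q)) := by
      rw [← Finset.sum_add_distrib]
      apply Finset.sum_congr rfl
      intro z _
      rw [map_add, add_div]
    rw [h2, h1, add_zero]
  rw [← e2]
  rw [Complex.re_sum]
  apply Finset.sum_nonneg
  intro z hz
  by_cases hzs : z ∈ S.map ⟨cp, cp_inj⟩
  · obtain ⟨r, hr, hr'⟩ := h.n.pos z hzs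
    rw [map_mul, eval_cj G z (h.n.real z hzs), Complex.mul_conj, hr']
    rw [← Complex.ofReal_div, Complex.ofReal_re]
    exact div_nonneg (Complex.normSq_nonneg _) hr.le
  · rw [map_mul, hGT z hz hzs]; simp

end Cfg

end Run7.h256
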