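import Mathlib
import Pool.Agent.Run7.h256.Cls
import Pool.Agent.Run7.h256.TC

set_option autoImplicit false

namespace Run7.h256

open MvPolynomial

lemma homog_pd {n : ℕ} {F : RP} (h : F.IsHomogeneous (n + 1)) (i : Fin 2) :
    (pderiv i F).IsHomogeneous n := by
  have := h.pderiv (i := i)
  simpa using this

lemma euler {n : ℕ} {F : RP} (h : F.IsHomogeneous n) :
    X 0 * pderiv 0 F + X 1 * pderiv 1 F = (n : RP) * F := by
  have := h.sum_X_mul_pderiv
  rw [Fin.sum_univ_two, nsmul_eq_mul] at this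
  exact this

lemma homog_dec {n : ℕ} {F : RP} (h : F.IsHomogeneous (n + 1)) :
    ∃ A B : RP, A.IsHomogeneous n ∧ B.IsHomogeneous n ∧ F = X 0 * A + X 1 * B := by
  refine ⟨C (((n + 1 : ℕ) : ℝ)⁻¹) * pderiv 0 F, C (((n + 1 : ℕ) : ℝ)⁻¹) * pderiv 1 F,
    (homog_pd h 0).C_mul _, (homog_pd h 1).C_mul _, ?_⟩
  have e := euler h
  have h1 : (C (((n + 1 : ℕ) : ℝ)⁻¹) * ((n + 1 : ℕ) : RP)) = 1 := by
    rw [← map_natCast (C : ℝ →+* RP), ← C_mul, inv_mul_cancel₀ (by positivity), C_1]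
  linear_combination (-F) * h1 - C (((n + 1 : ℕ) : ℝ)⁻¹) * e

lemma homog0 {F : RP} (h : F.IsHomogeneous 0) : ∃ a : ℝ, F = C a := by
  have h1 : Dle 0 F := homog_Dle h
  exact ⟨_, (totalDegree_eq_zero_iff_eq_C).1 (Nat.le_zero.1 h1)⟩

lemma homog1 {F : RP} (h : F.IsHomogeneous 1) : ∃ a b : ℝ, F = C a * X 0 + C b * X 1 := by
  obtain ⟨A, B, hA, hB, rfl⟩ := homog_dec h
  obtain ⟨a, rfl⟩ := homog0 hA
  obtain ⟨b, rfl⟩ := homog0 hB
  exact ⟨a, b, by ring⟩

lemma homog2 {F : RP} (h : F.IsHomogeneous 2) : ∃ a b c : ℝ,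
    F = C a * (X 0 * X 0) + C b * (X 0 * X 1) + C c * (X 1 * X 1) := by
  obtain ⟨A, B, hA, hB, rfl⟩ := homog_dec h
  obtain ⟨a, b, rfl⟩ := homog1 hA
  obtain ⟨c, d, rfl⟩ := homog1 hB
  exact ⟨a, b + c, d, by rw [C_add]; ring⟩

lemma homog3 {F : RP} (h : F.IsHomogeneous 3) : ∃ a b c d : ℝ,
    F = C a * (X 0 * X 0 * X 0) + C b * (X 0 * X 0 * X 1) + C c * (X 0 * X 1 * X 1) +
      C d * (X 1 * X 1 * X 1) := by
  obtain ⟨A, B, hA, hB, rfl⟩ := homog_dec h
  obtain ⟨a, b, c, rfl⟩ := homog2 hA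
  obtain ⟨a', b', c', rfl⟩ := homog2 hB
  exact ⟨a, b + a', c + b', c', by rw [C_add, C_add]; ring⟩

lemma homog4 {F : RP} (h : F.IsHomogeneous 4) : ∃ a b c d e : ℝ,
    F = C a * (X 0 * X 0 * X 0 * X 0) + C b * (X 0 * X 0 * X 0 * X 1) + C c * (X 0 * X 0 * X 1 * X 1) +
      C d * (X 0 * X 1 * X 1 * X 1) + C e * (X 1 * X 1 * X 1 * X 1) := by
  obtain ⟨A, B, hA, hB, rfl⟩ := homog_dec h
  obtain ⟨a, b, c, d, rfl⟩ := homog3 hA
  obtain ⟨a', b', c', d', rfl⟩ := homog3 hB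
  exact ⟨a, b + a', c + b', d + c', d', by rw [C_add, C_add, C_add]; ring⟩

/-- real quartic forms factor -/
lemma quartic_monic (b c d e : ℝ) : ∃ u v w z : ℝ, b = u + w ∧ c = v + u * w + z ∧
    d = u * z + v * w ∧ e = v * z := by
  open Polynomial in
  have hm : Polynomial.IsMonicOfDegree (Polynomial.X ^ 4 + (Polynomial.C b * Polynomial.X ^ 3 + Polynomial.C c * Polynomial.X ^ 2 + Polynomial.C d * Polynomial.X + Polynomial.C e) : ℝ[X]) 4 := by
    apply (Polynomial.isMonicOfDegree_X_pow ℝ 4).add_right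
    have : (Polynomial.C b * Polynomial.X ^ 3 + Polynomial.C c * Polynomial.X ^ 2 + Polynomial.C d * Polynomial.X + Polynomial.C e : ℝ[X]).natDegree ≤ 3 := by
      compute_degree
    omega
  obtain ⟨f1, f2, h1, h2, h3⟩ := hm.eq_isMonicOfDegree_two_mul_isMonicOfDegree
  obtain ⟨u, v, rfl⟩ := Polynomial.isMonicOfDegree_two_iff.1 h1
  obtain ⟨w, z, rfl⟩ := Polynomial.isMonicOfDegree_two_iff.1 h2
  refine ⟨u, v, w, z, ?_⟩
  have e0 := congrArg (Polynomial.eval (0 : ℝ)) h3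
  have e1 := congrArg (Polynomial.eval (1 : ℝ)) h3
  have e2 := congrArg (Polynomial.eval (-1 : ℝ)) h3
  have e3 := congrArg (Polynomial.eval (2 : ℝ)) h3
  simp only [Polynomial.eval_add, Polynomial.eval_mul, Polynomial.eval_pow, Polynomial.eval_X,
    Polynomial.eval_C] at e0 e1 e2 e3
  refine ⟨by linarith, by linarith, by linarith, by linarith⟩

lemma quartic_factor (g0 g1 g2 g3 g4 : ℝ) : ∃ a1 b1 c1 a2 b2 c2 : ℝ, g0 = a1 * a2 ∧
    g1 = a1 * b2 + b1 * a2 ∧ g2 = a1 * c2 + b1 * b2 + c1 * a2 ∧ g3 = b1 * c2 + c1 * b2 ∧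
      g4 = c1 * c2 := by
  by_cases h0 : g0 = 0
  · by_cases h4 : g4 = 0
    · exact ⟨0, 1, 0, g1, g2, g3, by rw [h0]; ring, by ring, by ring, by ring, by rw [h4]; ring⟩
    · obtain ⟨u, v, w, z, h1, h2, h3, h5⟩ := quartic_monic (g3 / g4) (g2 / g4) (g1 / g4) (g0 / g4)
      rw [div_eq_iff h4] at h1 h2 h3 h5
      exact ⟨g4 * v, g4 * u, g4, z, w, 1, by rw [h5]; ring, by rw [h3]; ring, by rw [h2]; ring,
        by rw [h1]; ring, by ring⟩
  · obtain ⟨u, v, w, z, h1, h2, h3, h5⟩ := quartic_monic (g1 / g0) (g2 / g0) (g3 / g0) (g4 / g0)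
    rw [div_eq_iff h0] at h1 h2 h3 h5
    exact ⟨g0, g0 * u, g0 * v, 1, w, z, by ring, by rw [h1]; ring, by rw [h2]; ring,
      by rw [h3]; ring, by rw [h5]; ring⟩

/-- Hessian determinant -/
noncomputable def Hs (g : RP) : RP :=
  pderiv 0 (pderiv 0 g) * pderiv 1 (pderiv 1 g) - pderiv 1 (pderiv 0 g) * pderiv 1 (pderiv 0 g)

/-- the main identity for invariant lines -/
lemma identI (a b lam g0 g1 g2 g3 g4 : ℝ) {g l p q h : RP}
    (hg : g = C g0 * (X 0 * X 0 * X 0 * X 0) + C g1 * (X 0 * X 0 * X 0 * X 1) + C g2 * (X 0 * X 0 * X 1 * X 1) +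
      C g3 * (X 0 * X 1 * X 1 * X 1) + C g4 * (X 1 * X 1 * X 1 * X 1))
    (hl : l = C a * X 0 + C b * X 1)
    (hp : p = l * pderiv 1 g + C lam * C b * g) (hq : q = -(l * pderiv 0 g + C lam * C a * g))
    (hh : h = C a * pderiv 1 g - C b * pderiv 0 g) :
    9 * Jac p q = 4 * (4 + C lam) * (l * l * Hs g) + 12 * (pderiv 0 h * p + pderiv 1 h * q) := by
  have n2 : ∀ i : Fin 2, pderiv i (2 : RP) = 0 := pd2
  have n3 : ∀ i : Fin 2, pderiv i (3 : RP) = 0 := fun i => by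
    rw [← map_ofNat (C : ℝ →+* RP) 3, pderiv_C]
  have n4 : ∀ i : Fin 2, pderiv i (4 : RP) = 0 := fun i => by
    rw [← map_ofNat (C : ℝ →+* RP) 4, pderiv_C]
  have gx : pderiv 0 g = 4 * C g0 * (X 0 * X 0 * X 0) + 3 * C g1 * (X 0 * X 0 * X 1) + 2 * C g2 * (X 0 * X 1 * X 1) +
      C g3 * (X 1 * X 1 * X 1) := by
    rw [hg]
    simp only [map_add, Derivation.leibniz, smul_eq_mul, pderiv_C, p00, p01]
    ring
  have gy : pderiv 1 g = C g1 * (X 0 * X 0 * X 0) + 2 * C g2 * (X 0 * X 0 * X 1) + 3 * C g3 * (X 0 * X 1 * X 1) +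
      4 * C g4 * (X 1 * X 1 * X 1) := by
    rw [hg]
    simp only [map_add, Derivation.leibniz, smul_eq_mul, pderiv_C, p10, p11]
    ring
  have gxx : pderiv 0 (pderiv 0 g) = 12 * C g0 * (X 0 * X 0) + 6 * C g1 * (X 0 * X 1) + 2 * C g2 * (X 1 * X 1) := by
    rw [gx]
    simp only [map_add, Derivation.leibniz, smul_eq_mul, pderiv_C, p00, p01, n2, n3, n4]
    ring
  have gxy : pderiv 1 (pderiv 0 g) = 3 * C g1 * (X 0 * X 0) + 4 * C g2 * (X 0 * X 1) + 3 * C g3 * (X 1 * X 1) := by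
    rw [gx]
    simp only [map_add, Derivation.leibniz, smul_eq_mul, pderiv_C, p10, p11, n2, n3, n4]
    ring
  have gyx : pderiv 0 (pderiv 1 g) = 3 * C g1 * (X 0 * X 0) + 4 * C g2 * (X 0 * X 1) + 3 * C g3 * (X 1 * X 1) := by
    rw [gy]
    simp only [map_add, Derivation.leibniz, smul_eq_mul, pderiv_C, p00, p01, n2, n3, n4]
    ring
  have gyy : pderiv 1 (pderiv 1 g) = 2 * C g2 * (X 0 * X 0) + 6 * C g3 * (X 0 * X 1) + 12 * C g4 * (X 1 * X 1) := by
    rw [gy]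
    simp only [map_add, Derivation.leibniz, smul_eq_mul, pderiv_C, p10, p11, n2, n3, n4]
    ring
  have lx : pderiv 0 l = C a := by
    rw [hl]; simp only [map_add, Derivation.leibniz, smul_eq_mul, pderiv_C, p00, p01]; ring
  have ly : pderiv 1 l = C b := by
    rw [hl]; simp only [map_add, Derivation.leibniz, smul_eq_mul, pderiv_C, p10, p11]; ring
  have hx : pderiv 0 h = C a * pderiv 0 (pderiv 1 g) - C b * pderiv 0 (pderiv 0 g) := by
    rw [hh]; simp only [map_sub, Derivation.leibniz, smul_eq_mul, pderiv_C]; ring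
  have hy : pderiv 1 h = C a * pderiv 1 (pderiv 1 g) - C b * pderiv 1 (pderiv 0 g) := by
    rw [hh]; simp only [map_sub, Derivation.leibniz, smul_eq_mul, pderiv_C]; ring
  have px : pderiv 0 p = C a * pderiv 1 g + l * pderiv 0 (pderiv 1 g) + C lam * C b * pderiv 0 g := by
    rw [hp]; simp only [map_add, Derivation.leibniz, smul_eq_mul, pderiv_C, lx]; ring
  have py : pderiv 1 p = C b * pderiv 1 g + l * pderiv 1 (pderiv 1 g) + C lam * C b * pderiv 1 g := by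
    rw [hp]; simp only [map_add, Derivation.leibniz, smul_eq_mul, pderiv_C, ly]; ring
  have qx : pderiv 0 q = -(C a * pderiv 0 g + l * pderiv 0 (pderiv 0 g) + C lam * C a * pderiv 0 g) := by
    rw [hq]; simp only [map_neg, map_add, Derivation.leibniz, smul_eq_mul, pderiv_C, lx]; ring
  have qy : pderiv 1 q = -(C b * pderiv 0 g + l * pderiv 1 (pderiv 0 g) + C lam * C a * pderiv 1 g) := by
    rw [hq]; simp only [map_neg, map_add, Derivation.leibniz, smul_eq_mul, pderiv_C, ly]; ring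
  unfold Jac Hs
  rw [px, py, qx, qy, hx, hy, hp, hq, gxx, gxy, gyx, gyy, gx, gy, hl, hg]
  ring

/-- Hessian of a product of two quadratic forms -/
lemma identH (a1 b1 c1 a2 b2 c2 : ℝ) {q1 q2 : RP}
    (h1 : q1 = C a1 * (X 0 * X 0) + C b1 * (X 0 * X 1) + C c1 * (X 1 * X 1))
    (h2 : q2 = C a2 * (X 0 * X 0) + C b2 * (X 0 * X 1) + C c2 * (X 1 * X 1)) :
    4 * Hs (q1 * q2) = -(9 * (Jac q1 q2 * Jac q1 q2)) +
      (96 * (C a1 * C c2 + C a2 * C c1) - 48 * (C b1 * C b2)) * (q1 * q2) := by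
  have n2 : ∀ i : Fin 2, pderiv i (2 : RP) = 0 := pd2
  have x1 : pderiv 0 q1 = 2 * C a1 * X 0 + C b1 * X 1 := by
    rw [h1]; simp only [map_add, Derivation.leibniz, smul_eq_mul, pderiv_C, p00, p01]; ring
  have y1 : pderiv 1 q1 = C b1 * X 0 + 2 * C c1 * X 1 := by
    rw [h1]; simp only [map_add, Derivation.leibniz, smul_eq_mul, pderiv_C, p10, p11]; ring
  have x2 : pderiv 0 q2 = 2 * C a2 * X 0 + C b2 * X 1 := by
    rw [h2]; simp only [map_add, Derivation.leibniz, smul_eq_mul, pderiv_C, p00, p01]; ring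
  have y2 : pderiv 1 q2 = C b2 * X 0 + 2 * C c2 * X 1 := by
    rw [h2]; simp only [map_add, Derivation.leibniz, smul_eq_mul, pderiv_C, p10, p11]; ring
  unfold Jac Hs
  simp only [Derivation.leibniz, smul_eq_mul, x1, x2, y1, y2, map_add, pderiv_C, p00, p01, p10, p11, n2]
  rw [h1, h2]
  ring

/-- cancellation -/
lemma lin_ne {a b : ℝ} (hab : a ≠ 0 ∨ b ≠ 0) : (C a * X 0 + C b * X 1 : RP) ≠ 0 := by
  intro h0
  obtain ⟨h1, h2, _⟩ := aff_zero (a := a) (b := b) (c := 0) (by rw [h0, C_0, add_zero])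
  rcases hab with h | h
  · exact h h1
  · exact h h2

/-- invariant lines: the contradiction on top forms -/
theorem pureI {p q : RP} {L : RP →ₗ[ℝ] ℝ} (h : LF p q L) {a b c : ℝ} (hab : a ≠ 0 ∨ b ≠ 0)
    (hc : c < 5) (hc0 : c ≠ 0) {l : RP} (hl : l = C a * X 0 + C b * X 1)
    (he : C c * (C a * p + C b * q) = l * (pderiv 0 p + pderiv 1 q))
    (hpos : ∀ F : RP, F.IsHomogeneous 2 → 0 ≤ L ((l * F) * (l * F))) : False := by
  have hl0 : l ≠ 0 := by rw [hl]; exact lin_ne hab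
  have lx : pderiv 0 l = C a := by
    rw [hl]; simp only [map_add, Derivation.leibniz, smul_eq_mul, pderiv_C, p00, p01]; ring
  have ly : pderiv 1 l = C b := by
    rw [hl]; simp only [map_add, Derivation.leibniz, smul_eq_mul, pderiv_C, p10, p11]; ring
  have l1 : Dle 1 l := by
    rw [hl]
    have := Dle_aff a b 0
    rwa [C_0, add_zero] at this
  have lh : l.IsHomogeneous 1 := by
    rw [hl]; exact ((isHomogeneous_X _ _).C_mul a).add ((isHomogeneous_X _ _).C_mul b)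
  obtain ⟨D, hD⟩ : ∃ D, D = pderiv 0 p + pderiv 1 q := ⟨_, rfl⟩
  have Dh : D.IsHomogeneous 3 := by rw [hD]; exact (homog_pd h.hp 0).add (homog_pd h.hq 1)
  rw [← hD] at he
  have cinv : (C c⁻¹ * C c : RP) = 1 := by rw [← C_mul, inv_mul_cancel₀ hc0, C_1]
  have ea : C a * (X 1 * p - X 0 * q) = l * (C c⁻¹ * X 1 * D - q) := by
    linear_combination (C c⁻¹ * X 1) * he - (C a * p + C b * q) * X 1 * cinv + q * hl
  have eb : C b * (X 1 * p - X 0 * q) = l * (p - C c⁻¹ * X 0 * D) := by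
    linear_combination (-(C c⁻¹ * X 0)) * he + (C a * p + C b * q) * X 0 * cinv - p * hl
  have XD : ∀ i, (C c⁻¹ * X i * D).IsHomogeneous 4 := fun i =>
    (((isHomogeneous_X _ i).C_mul c⁻¹).mul Dh)
  obtain ⟨g, hg4, hW⟩ : ∃ g : RP, g.IsHomogeneous 4 ∧ X 1 * p - X 0 * q = l * g := by
    rcases hab with ha | hb
    · have ainv : (C a⁻¹ * C a : RP) = 1 := by rw [← C_mul, inv_mul_cancel₀ ha, C_1]
      refine ⟨C a⁻¹ * (C c⁻¹ * X 1 * D - q), ((XD 1).sub h.hq).C_mul _, ?_⟩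
      linear_combination C a⁻¹ * ea - (X 1 * p - X 0 * q) * ainv
    · have binv : (C b⁻¹ * C b : RP) = 1 := by rw [← C_mul, inv_mul_cancel₀ hb, C_1]
      refine ⟨C b⁻¹ * (p - C c⁻¹ * X 0 * D), (h.hp.sub (XD 0)).C_mul _, ?_⟩
      linear_combination C b⁻¹ * eb - (X 1 * p - X 0 * q) * binv
  have ga : C a * g = C c⁻¹ * X 1 * D - q := by
    apply mul_left_cancel₀ hl0
    linear_combination ea - C a * hW
  have gb : C b * g = p - C c⁻¹ * X 0 * D := by
    apply mul_left_cancel₀ hl0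
    linear_combination eb - C b * hW
  have ep := euler h.hp
  have eq := euler h.hq
  have w0 := congrArg (pderiv 0) hW
  have w1 := congrArg (pderiv 1) hW
  simp only [map_sub, Derivation.leibniz, smul_eq_mul, p00, p01, p10, p11, lx, ly] at w0 w1
  push_cast at ep eq
  have Pp : C (5 - c) * p = l * pderiv 1 g + C (1 - c) * C b * g := by
    rw [C_sub, C_sub, C_1, show (C (5 : ℝ) : RP) = 5 from map_ofNat C 5]
    linear_combination w1 - ep - X 0 * hD + C c * gb - X 0 * D * cinv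
  have Pq : C (5 - c) * q = -(l * pderiv 0 g + C (1 - c) * C a * g) := by
    rw [C_sub, C_sub, C_1, show (C (5 : ℝ) : RP) = 5 from map_ofNat C 5]
    linear_combination -w0 - eq - X 1 * hD - C c * ga - X 1 * D * cinv
  -- coordinates
  obtain ⟨g0, g1, g2, g3, g4, hg⟩ := homog4 hg4
  obtain ⟨hh, hhd⟩ : ∃ hh, hh = C a * pderiv 1 g - C b * pderiv 0 g := ⟨_, rfl⟩
  have id1 := identI a b (1 - c) g0 g1 g2 g3 g4 hg hl Pp Pq hhd
  have hhh : hh.IsHomogeneous 3 := by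
    rw [hhd]; exact ((homog_pd hg4 1).C_mul a).sub ((homog_pd hg4 0).C_mul b)
  -- apply the functional
  have v1 : L (9 * Jac (C (5 - c) * p) (C (5 - c) * q)) = 9 * ((5 - c) * ((5 - c) * 16)) := by
    have e : (9 * Jac (C (5 - c) * p) (C (5 - c) * q) : RP) = C 9 * (C (5 - c) * (C (5 - c) * Jac p q)) := by
      unfold Jac
      simp only [Derivation.leibniz, smul_eq_mul, pderiv_C]
      rw [show (C (9 : ℝ) : RP) = 9 from map_ofNat C 9]
      ring
    rw [e, L_C, L_C, L_C, h.LJ]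
  have v2 : L (12 * (pderiv 0 hh * (C (5 - c) * p) + pderiv 1 hh * (C (5 - c) * q))) = 0 := by
    have e : (12 * (pderiv 0 hh * (C (5 - c) * p) + pderiv 1 hh * (C (5 - c) * q)) : RP) =
        C (12 * (5 - c)) * (pderiv 0 hh * p + pderiv 1 hh * q) := by
      rw [C_mul, show (C (12 : ℝ) : RP) = 12 from map_ofNat C 12]; ring
    rw [e, L_C, map_add, h.Lp _ (homog_Dle (homog_pd hhh 0)), h.Lq _ (homog_Dle (homog_pd hhh 1))]
    ring
  have v3 : L (4 * (4 + C (1 - c)) * (l * l * Hs g)) = 4 * (5 - c) * L (l * l * Hs g) := by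
    have e : (4 * (4 + C (1 - c)) * (l * l * Hs g) : RP) = C (4 * (5 - c)) * (l * l * Hs g) := by
      rw [C_mul, show (C (4 : ℝ) : RP) = 4 from map_ofNat C 4, C_sub, C_sub, C_1,
        show (C (5 : ℝ) : RP) = 5 from map_ofNat C 5]
      ring
    rw [e, L_C]
  have v4 := congrArg L id1
  rw [map_add, v1, v2, v3] at v4
  have hm : 0 < 5 - c := by linarith
  have v5 : L (l * l * Hs g) = 36 * (5 - c) := by
    have : (5 - c) * (L (l * l * Hs g) - 36 * (5 - c)) = 0 := by linear_combination -v4 / 4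
    have := (mul_eq_zero.1 this).resolve_left hm.ne'
    linarith
  -- factor g
  obtain ⟨a1, b1, c1, a2, b2, c2, f0, f1, f2, f3, f4⟩ := quartic_factor g0 g1 g2 g3 g4
  obtain ⟨q1, hq1⟩ : ∃ q1 : RP, q1 = C a1 * (X 0 * X 0) + C b1 * (X 0 * X 1) + C c1 * (X 1 * X 1) := ⟨_, rfl⟩
  obtain ⟨q2, hq2⟩ : ∃ q2 : RP, q2 = C a2 * (X 0 * X 0) + C b2 * (X 0 * X 1) + C c2 * (X 1 * X 1) := ⟨_, rfl⟩
  have hgq : g = q1 * q2 := by
    rw [hg, hq1, hq2, f0, f1, f2, f3, f4]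
    simp only [C_add, C_mul]
    ring
  have XX : ∀ i j : Fin 2, (X i * X j : RP).IsHomogeneous 2 := fun i j =>
    (isHomogeneous_X _ i).mul (isHomogeneous_X _ j)
  have hq1h : q1.IsHomogeneous 2 := by
    rw [hq1]; exact (((XX 0 0).C_mul _).add ((XX 0 1).C_mul _)).add ((XX 1 1).C_mul _)
  have hq2h : q2.IsHomogeneous 2 := by
    rw [hq2]; exact (((XX 0 0).C_mul _).add ((XX 0 1).C_mul _)).add ((XX 1 1).C_mul _)
  have hJh : (Jac q1 q2).IsHomogeneous 2 := by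
    unfold Jac
    exact ((homog_pd hq1h 0).mul (homog_pd hq2h 1)).sub ((homog_pd hq1h 1).mul (homog_pd hq2h 0))
  have id2 := identH a1 b1 c1 a2 b2 c2 hq1 hq2
  rw [← hgq] at id2
  have v6 : L (l * l * g) = 0 := by
    have e : l * l * g = l * X 1 * p - l * X 0 * q := by linear_combination -l * hW
    rw [e, map_sub, h.Lp _ (l1.mul (Dle.X le_rfl 1) (by omega)), h.Lq _ (l1.mul (Dle.X le_rfl 0) (by omega)),
      sub_zero]
  have v7 := hpos _ hJh
  have e8 : C 4 * (l * l * Hs g) = C (-9) * ((l * Jac q1 q2) * (l * Jac q1 q2)) +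
      C (96 * (a1 * c2 + a2 * c1) - 48 * (b1 * b2)) * (l * l * g) := by
    rw [C_sub, C_mul, C_mul, C_add, C_mul, C_mul, C_mul, C_neg, show (C (4 : ℝ) : RP) = 4 from map_ofNat C 4,
      show (C (9 : ℝ) : RP) = 9 from map_ofNat C 9, show (C (96 : ℝ) : RP) = 96 from map_ofNat C 96,
      show (C (48 : ℝ) : RP) = 48 from map_ofNat C 48]
    linear_combination l * l * id2
  have v8 := congrArg L e8
  rw [L_C, map_add, L_C, L_C, v6, v5, mul_zero, add_zero] at v8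
  nlinarith

end Run7.h256
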