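import Mathlib
import Pool.Agent.Run7.h256.Cls2
import Pool.Agent.Run7.h256.TD

set_option autoImplicit false

namespace Run7.h256

open MvPolynomial

/-- the main identity for invariant conics -/
lemma identII (A B Cc lam g0 g1 g2 g3 : ℝ) {g f p q h : RP}
    (hg : g = C g0 * (X 0 * X 0 * X 0) + C g1 * (X 0 * X 0 * X 1) + C g2 * (X 0 * X 1 * X 1) +
      C g3 * (X 1 * X 1 * X 1))
    (hf : f = C A * (X 0 * X 0) + 2 * C B * (X 0 * X 1) + C Cc * (X 1 * X 1))
    (hp : p = f * pderiv 1 g + C lam * pderiv 1 f * g) (hq : q = -(f * pderiv 0 g + C lam * pderiv 0 f * g))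
    (hh : h = pderiv 0 f * pderiv 1 g - pderiv 1 f * pderiv 0 g) :
    9 * Jac p q = 12 * (3 + 2 * C lam) * (f * f * Hs g) +
      4 * (3 + C lam) * (pderiv 0 h * p + pderiv 1 h * q) +
      2 * (3 + 2 * C lam) * (2 * C lam - 3) * (f * g * (pderiv 0 (pderiv 0 f) * pderiv 1 (pderiv 1 g) -
        2 * (pderiv 1 (pderiv 0 f) * pderiv 1 (pderiv 0 g)) + pderiv 1 (pderiv 1 f) * pderiv 0 (pderiv 0 g))) := by
  have n2 : ∀ i : Fin 2, pderiv i (2 : RP) = 0 := pd2
  have n3 : ∀ i : Fin 2, pderiv i (3 : RP) = 0 := fun i => by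
    rw [← map_ofNat (C : ℝ →+* RP) 3, pderiv_C]
  have gx : pderiv 0 g = 3 * C g0 * (X 0 * X 0) + 2 * C g1 * (X 0 * X 1) + C g2 * (X 1 * X 1) := by
    rw [hg]
    simp only [map_add, Derivation.leibniz, smul_eq_mul, pderiv_C, p00, p01]
    ring
  have gy : pderiv 1 g = C g1 * (X 0 * X 0) + 2 * C g2 * (X 0 * X 1) + 3 * C g3 * (X 1 * X 1) := by
    rw [hg]
    simp only [map_add, Derivation.leibniz, smul_eq_mul, pderiv_C, p10, p11]
    ring
  have gxx : pderiv 0 (pderiv 0 g) = 6 * C g0 * X 0 + 2 * C g1 * X 1 := by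
    rw [gx]
    simp only [map_add, Derivation.leibniz, smul_eq_mul, pderiv_C, p00, p01, n2, n3]
    ring
  have gxy : pderiv 1 (pderiv 0 g) = 2 * C g1 * X 0 + 2 * C g2 * X 1 := by
    rw [gx]
    simp only [map_add, Derivation.leibniz, smul_eq_mul, pderiv_C, p10, p11, n2, n3]
    ring
  have gyx : pderiv 0 (pderiv 1 g) = 2 * C g1 * X 0 + 2 * C g2 * X 1 := by
    rw [gy]
    simp only [map_add, Derivation.leibniz, smul_eq_mul, pderiv_C, p00, p01, n2, n3]
    ring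
  have gyy : pderiv 1 (pderiv 1 g) = 2 * C g2 * X 0 + 6 * C g3 * X 1 := by
    rw [gy]
    simp only [map_add, Derivation.leibniz, smul_eq_mul, pderiv_C, p10, p11, n2, n3]
    ring
  have fx : pderiv 0 f = 2 * C A * X 0 + 2 * C B * X 1 := by
    rw [hf]
    simp only [map_add, Derivation.leibniz, smul_eq_mul, pderiv_C, p00, p01, n2]
    ring
  have fy : pderiv 1 f = 2 * C B * X 0 + 2 * C Cc * X 1 := by
    rw [hf]
    simp only [map_add, Derivation.leibniz, smul_eq_mul, pderiv_C, p10, p11, n2]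
    ring
  have fxx : pderiv 0 (pderiv 0 f) = 2 * C A := by
    rw [fx]
    simp only [map_add, Derivation.leibniz, smul_eq_mul, pderiv_C, p00, p01, n2]
    ring
  have fxy : pderiv 1 (pderiv 0 f) = 2 * C B := by
    rw [fx]
    simp only [map_add, Derivation.leibniz, smul_eq_mul, pderiv_C, p10, p11, n2]
    ring
  have fyx : pderiv 0 (pderiv 1 f) = 2 * C B := by
    rw [fy]
    simp only [map_add, Derivation.leibniz, smul_eq_mul, pderiv_C, p00, p01, n2]
    ring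
  have fyy : pderiv 1 (pderiv 1 f) = 2 * C Cc := by
    rw [fy]
    simp only [map_add, Derivation.leibniz, smul_eq_mul, pderiv_C, p10, p11, n2]
    ring
  have hx : pderiv 0 h = pderiv 0 (pderiv 0 f) * pderiv 1 g + pderiv 0 f * pderiv 0 (pderiv 1 g) -
      (pderiv 0 (pderiv 1 f) * pderiv 0 g + pderiv 1 f * pderiv 0 (pderiv 0 g)) := by
    rw [hh]; simp only [map_sub, Derivation.leibniz, smul_eq_mul]; ring
  have hy : pderiv 1 h = pderiv 1 (pderiv 0 f) * pderiv 1 g + pderiv 0 f * pderiv 1 (pderiv 1 g) -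
      (pderiv 1 (pderiv 1 f) * pderiv 0 g + pderiv 1 f * pderiv 1 (pderiv 0 g)) := by
    rw [hh]; simp only [map_sub, Derivation.leibniz, smul_eq_mul]; ring
  have px : pderiv 0 p = pderiv 0 f * pderiv 1 g + f * pderiv 0 (pderiv 1 g) +
      C lam * (pderiv 0 (pderiv 1 f) * g + pderiv 1 f * pderiv 0 g) := by
    rw [hp]; simp only [map_add, Derivation.leibniz, smul_eq_mul, pderiv_C]; ring
  have py : pderiv 1 p = pderiv 1 f * pderiv 1 g + f * pderiv 1 (pderiv 1 g) +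
      C lam * (pderiv 1 (pderiv 1 f) * g + pderiv 1 f * pderiv 1 g) := by
    rw [hp]; simp only [map_add, Derivation.leibniz, smul_eq_mul, pderiv_C]; ring
  have qx : pderiv 0 q = -(pderiv 0 f * pderiv 0 g + f * pderiv 0 (pderiv 0 g) +
      C lam * (pderiv 0 (pderiv 0 f) * g + pderiv 0 f * pderiv 0 g)) := by
    rw [hq]; simp only [map_neg, map_add, Derivation.leibniz, smul_eq_mul, pderiv_C]; ring
  have qy : pderiv 1 q = -(pderiv 1 f * pderiv 0 g + f * pderiv 1 (pderiv 0 g) +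
      C lam * (pderiv 1 (pderiv 0 f) * g + pderiv 0 f * pderiv 1 g)) := by
    rw [hq]; simp only [map_neg, map_add, Derivation.leibniz, smul_eq_mul, pderiv_C]; ring
  unfold Jac Hs
  rw [px, py, qx, qy, hx, hy, hp, hq, gxx, gxy, gyx, gyy, fxx, fxy, fyx, fyy, gx, gy, fx, fy, hf, hg]
  ring

/-- homogeneous quotients -/
lemma homog_quot {n m : ℕ} {f g : RP} (hf : f.IsHomogeneous m) (hf0 : f ≠ 0)
    (h : (f * g).IsHomogeneous (n + m)) : g.IsHomogeneous n := by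
  by_cases hg : g = 0
  · rw [hg]; exact isHomogeneous_zero _ _ _
  · apply homog_of
    · exact Og_of_mul_homog hf hf0 (Og_of_homog h)
    · have h1 := h.totalDegree (mul_ne_zero hf0 hg)
      rw [totalDegree_mul_eq hf0 hg, hf.totalDegree hf0] at h1
      unfold Dle
      omega

/-- the final numerical contradiction -/
lemma num_II {A B Cc g0 g1 g2 g3 N : ℝ} (r1 : g0 * A + 2 * g1 * B + g2 * Cc = 0)
    (r2 : g1 * A + 2 * g2 * B + g3 * Cc = 0)
    (hN : N = (g0 * g2 - g1 ^ 2) * A + (g0 * g3 - g1 * g2) * B + (g1 * g3 - g2 ^ 2) * Cc)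
    (hpos : ∀ u v : ℝ, 0 ≤ u ^ 2 * A + 2 * u * v * B + v ^ 2 * Cc) : N ≤ 0 := by
  have hA : 0 ≤ A := by have := hpos 1 0; nlinarith
  have hC : 0 ≤ Cc := by have := hpos 0 1; nlinarith
  have hdet : 0 ≤ A * Cc - B ^ 2 := by
    rcases hC.eq_or_lt with h0 | h0
    · have hB : B = 0 := by
        by_contra hB
        have h1 := hpos 1 (-(A + 1) / (2 * B))
        rw [← h0] at h1
        have h2 : (-(A + 1) / (2 * B)) * B = -(A + 1) / 2 := by field_simp
        nlinarith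
      rw [hB, ← h0]; simp
    · have h1 := hpos Cc (-B)
      have h2 : Cc ^ 2 * A + 2 * Cc * (-B) * B + (-B) ^ 2 * Cc = Cc * (A * Cc - B ^ 2) := by ring
      rw [h2] at h1
      exact nonneg_of_mul_nonneg_right h1 h0
  rcases hC.eq_or_lt with h0 | h0
  · have hB : B = 0 := by
      rw [← h0] at hdet
      nlinarith
    rw [← h0, hB] at r1 r2
    rw [hN, ← h0, hB]
    have : (g0 * g2 - g1 ^ 2) * A + (g0 * g3 - g1 * g2) * 0 + (g1 * g3 - g2 ^ 2) * 0 = 0 := by
      linear_combination g2 * r1 - g1 * r2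
    rw [this]
  · have key : Cc ^ 2 * N = -2 * (A * Cc - B ^ 2) * (g0 ^ 2 * A + 2 * g0 * g1 * B + g1 ^ 2 * Cc) := by
      rw [hN]
      linear_combination Cc * (B * g0 + Cc * g1) * r2 +
        (-(Cc ^ 2 * g2) + 2 * A * Cc * g0 - B * Cc * g1 - 2 * B ^ 2 * g0) * r1
    have h1 := hpos g0 g1
    have h2 := mul_nonneg hdet h1
    by_contra hcon
    push Not at hcon
    have h3 : 0 < Cc ^ 2 * N := by positivity
    rw [key] at h3
    nlinarith

/-- invariant conics: the contradiction on top forms -/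
theorem pureII {p q : RP} {L : RP →ₗ[ℝ] ℝ} (h : LF p q L) {A B Cc c : ℝ} (hdet : A * Cc - B ^ 2 ≠ 0)
    (hc : 2 * c < 5) (hc0 : c ≠ 0) {f : RP}
    (hf : f = C A * (X 0 * X 0) + 2 * C B * (X 0 * X 1) + C Cc * (X 1 * X 1))
    (he : C c * (pderiv 0 f * p + pderiv 1 f * q) = f * (pderiv 0 p + pderiv 1 q))
    (hpos : ∀ F : RP, F.IsHomogeneous 1 → 0 ≤ L ((f * F) * (f * F))) : False := by
  have fx : pderiv 0 f = 2 * C A * X 0 + 2 * C B * X 1 := by
    rw [hf]
    simp only [map_add, Derivation.leibniz, smul_eq_mul, pderiv_C, p00, p01, pd2]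
    ring
  have fy : pderiv 1 f = 2 * C B * X 0 + 2 * C Cc * X 1 := by
    rw [hf]
    simp only [map_add, Derivation.leibniz, smul_eq_mul, pderiv_C, p10, p11, pd2]
    ring
  have XX : ∀ i j : Fin 2, (X i * X j : RP).IsHomogeneous 2 := fun i j =>
    (isHomogeneous_X _ i).mul (isHomogeneous_X _ j)
  have fh : f.IsHomogeneous 2 := by
    rw [hf, ← Cn2, ← C_mul]
    exact (((XX 0 0).C_mul _).add ((XX 0 1).C_mul _)).add ((XX 1 1).C_mul _)
  have hf0 : f ≠ 0 := by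
    intro h0
    have e : (C A * (X 0 * X 0) + C (2 * B) * (X 0 * X 1) + C Cc * (X 1 * X 1) + C 0 * X 0 + C 0 * X 1 + C 0 : RP) = 0 := by
      rw [← h0, hf, C_0, C_mul, Cn2]; ring
    obtain ⟨h1, h2, h3, _⟩ := quad_zero e
    apply hdet
    rw [h1, h3]
    have : B = 0 := by linarith
    rw [this]; ring
  have f2 : Dle 2 f := homog_Dle fh
  obtain ⟨D, hD⟩ : ∃ D, D = pderiv 0 p + pderiv 1 q := ⟨_, rfl⟩
  have Dh : D.IsHomogeneous 3 := by rw [hD]; exact (homog_pd h.hp 0).add (homog_pd h.hq 1)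
  rw [← hD] at he
  have ef := euler fh
  push_cast at ef
  have cinv : (C c⁻¹ * C c : RP) = 1 := by rw [← C_mul, inv_mul_cancel₀ hc0, C_1]
  have ea : pderiv 0 f * (X 1 * p - X 0 * q) = f * (C c⁻¹ * X 1 * D - 2 * q) := by
    linear_combination (C c⁻¹ * X 1) * he - (pderiv 0 f * p + pderiv 1 f * q) * X 1 * cinv - q * ef
  have eb : pderiv 1 f * (X 1 * p - X 0 * q) = f * (2 * p - C c⁻¹ * X 0 * D) := by
    linear_combination (-(C c⁻¹ * X 0)) * he + (pderiv 0 f * p + pderiv 1 f * q) * X 0 * cinv + p * ef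
  obtain ⟨W, hW⟩ : ∃ W, W = X 1 * p - X 0 * q := ⟨_, rfl⟩
  rw [← hW] at ea eb
  have Wh : W.IsHomogeneous 5 := by
    rw [hW]
    exact ((isHomogeneous_X _ 1).mul h.hp).sub ((isHomogeneous_X _ 0).mul h.hq)
  -- division by f
  obtain ⟨u, hu⟩ : ∃ u, u = C Cc * (C c⁻¹ * X 1 * D - 2 * q) - C B * (2 * p - C c⁻¹ * X 0 * D) := ⟨_, rfl⟩
  obtain ⟨v, hv⟩ : ∃ v, v = C A * (2 * p - C c⁻¹ * X 0 * D) - C B * (C c⁻¹ * X 1 * D - 2 * q) := ⟨_, rfl⟩
  have e1 : C (2 * (A * Cc - B ^ 2)) * X 0 * W = f * u := by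
    rw [hu]
    simp only [C_mul, C_sub, C_pow, Cn2]
    linear_combination C Cc * ea - C B * eb - C Cc * W * fx + C B * W * fy
  have e2 : C (2 * (A * Cc - B ^ 2)) * X 1 * W = f * v := by
    rw [hv]
    simp only [C_mul, C_sub, C_pow, Cn2]
    linear_combination C A * eb - C B * ea - C A * W * fy + C B * W * fx
  have e3 : X 0 * v = X 1 * u := by
    apply mul_left_cancel₀ hf0
    linear_combination X 1 * e1 - X 0 * e2
  obtain ⟨g', hu', hv'⟩ := split_prop' relPrime_X01 e3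
  have hδ : (2 * (A * Cc - B ^ 2)) ≠ 0 := mul_ne_zero two_ne_zero hdet
  have dinv : (C (2 * (A * Cc - B ^ 2))⁻¹ * C (2 * (A * Cc - B ^ 2)) : RP) = 1 := by
    rw [← C_mul, inv_mul_cancel₀ hδ, C_1]
  obtain ⟨g, hg⟩ : ∃ g, g = C (2 * (A * Cc - B ^ 2))⁻¹ * g' := ⟨_, rfl⟩
  have hWg : W = f * g := by
    apply mul_left_cancel₀ (X_ne_zero (R := ℝ) (0 : Fin 2))
    rw [hg]
    linear_combination (-(X 0 * W)) * dinv + C (2 * (A * Cc - B ^ 2))⁻¹ * (e1 + f * hu')
  have hg3 : g.IsHomogeneous 3 := homog_quot (n := 3) fh hf0 (by rw [← hWg]; exact Wh)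
  have ga : pderiv 0 f * g = C c⁻¹ * X 1 * D - 2 * q := by
    apply mul_left_cancel₀ hf0
    linear_combination ea - pderiv 0 f * hWg
  have gb : pderiv 1 f * g = 2 * p - C c⁻¹ * X 0 * D := by
    apply mul_left_cancel₀ hf0
    linear_combination eb - pderiv 1 f * hWg
  have ep := euler h.hp
  have eq := euler h.hq
  have hWg' := hWg
  rw [hW] at hWg'
  have w0 := congrArg (pderiv 0) hWg'
  have w1 := congrArg (pderiv 1) hWg'
  simp only [map_sub, Derivation.leibniz, smul_eq_mul, p00, p01, p10, p11] at w0 w1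
  push_cast at ep eq
  have C5 : (C (5 : ℝ) : RP) = 5 := map_ofNat C 5
  have Pp : C (5 - 2 * c) * p = f * pderiv 1 g + C (1 - c) * pderiv 1 f * g := by
    rw [C_sub, C_sub, C_1, C_mul, C5, Cn2]
    linear_combination w1 - ep - X 0 * hD + C c * gb - X 0 * D * cinv
  have Pq : C (5 - 2 * c) * q = -(f * pderiv 0 g + C (1 - c) * pderiv 0 f * g) := by
    rw [C_sub, C_sub, C_1, C_mul, C5, Cn2]
    linear_combination -w0 - eq - X 1 * hD - C c * ga - X 1 * D * cinv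
  -- coordinates
  obtain ⟨g0, b1, b2, g3, hgc⟩ := homog3 hg3
  obtain ⟨hh, hhd⟩ : ∃ hh, hh = pderiv 0 f * pderiv 1 g - pderiv 1 f * pderiv 0 g := ⟨_, rfl⟩
  have id1 := identII A B Cc (1 - c) g0 b1 b2 g3 hgc hf Pp Pq hhd
  have fdh : ∀ i, (pderiv i f).IsHomogeneous 1 := fun i => homog_pd fh i
  have gdh : ∀ i, (pderiv i g).IsHomogeneous 2 := fun i => homog_pd hg3 i
  have hhh : hh.IsHomogeneous 3 := by
    rw [hhd]; exact ((fdh 0).mul (gdh 1)).sub ((fdh 1).mul (gdh 0))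
  -- the functional on multiples of W
  have LW : ∀ F : RP, Dle 1 F → L (F * W) = 0 := by
    intro F hF
    have e : F * W = F * X 1 * p - F * X 0 * q := by rw [hW]; ring
    rw [e, map_sub, h.Lp _ (hF.mul (Dle.X le_rfl 1) (by omega)), h.Lq _ (hF.mul (Dle.X le_rfl 0) (by omega)),
      sub_zero]
  have hm : 0 < 5 - 2 * c := by linarith
  have v1 : L (9 * Jac (C (5 - 2 * c) * p) (C (5 - 2 * c) * q)) = 9 * ((5 - 2 * c) * ((5 - 2 * c) * 16)) := by
    have e : (9 * Jac (C (5 - 2 * c) * p) (C (5 - 2 * c) * q) : RP) =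
        C 9 * (C (5 - 2 * c) * (C (5 - 2 * c) * Jac p q)) := by
      unfold Jac
      simp only [Derivation.leibniz, smul_eq_mul, pderiv_C]
      rw [show (C (9 : ℝ) : RP) = 9 from map_ofNat C 9]
      ring
    rw [e, L_C, L_C, L_C, h.LJ]
  have v2 : L (4 * (3 + C (1 - c)) * (pderiv 0 hh * (C (5 - 2 * c) * p) + pderiv 1 hh * (C (5 - 2 * c) * q))) = 0 := by
    have e : (4 * (3 + C (1 - c)) * (pderiv 0 hh * (C (5 - 2 * c) * p) + pderiv 1 hh * (C (5 - 2 * c) * q)) : RP) =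
        C (4 * (3 + (1 - c)) * (5 - 2 * c)) * (pderiv 0 hh * p + pderiv 1 hh * q) := by
      rw [C_mul, C_mul, C_add, show (C (4 : ℝ) : RP) = 4 from map_ofNat C 4,
        show (C (3 : ℝ) : RP) = 3 from map_ofNat C 3]; ring
    rw [e, L_C, map_add, h.Lp _ (homog_Dle (homog_pd hhh 0)), h.Lq _ (homog_Dle (homog_pd hhh 1))]
    ring
  obtain ⟨Θ, hΘ⟩ : ∃ Θ, Θ = pderiv 0 (pderiv 0 f) * pderiv 1 (pderiv 1 g) -
        2 * (pderiv 1 (pderiv 0 f) * pderiv 1 (pderiv 0 g)) + pderiv 1 (pderiv 1 f) * pderiv 0 (pderiv 0 g) :=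
    ⟨_, rfl⟩
  rw [← hΘ] at id1
  have Θ1 : Dle 1 Θ := by
    have t0 : ∀ i j, Dle 0 (pderiv i (pderiv j f)) := fun i j => homog_Dle (homog_pd (fdh j) i)
    have t1 : ∀ i j, Dle 1 (pderiv i (pderiv j g)) := fun i j => homog_Dle (homog_pd (gdh j) i)
    rw [hΘ]
    have two : Dle 0 (2 : RP) := by rw [← Cn2]; exact Dle.C _
    exact (((t0 0 0).mul (t1 1 1) (by omega)).sub
      (two.mul ((t0 1 0).mul (t1 1 0) (show 0 + 1 ≤ 1 by omega)) (by omega))).add
      ((t0 1 1).mul (t1 0 0) (by omega))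
  have v3 : L (2 * (3 + 2 * C (1 - c)) * (2 * C (1 - c) - 3) * (f * g * Θ)) = 0 := by
    have e : (2 * (3 + 2 * C (1 - c)) * (2 * C (1 - c) - 3) * (f * g * Θ) : RP) =
        C (2 * (3 + 2 * (1 - c)) * (2 * (1 - c) - 3)) * (Θ * W) := by
      rw [hWg]
      simp only [C_mul, C_add, C_sub, C_1, Cn2, show (C (3 : ℝ) : RP) = 3 from map_ofNat C 3]
      ring
    rw [e, L_C, LW Θ Θ1, mul_zero]
  have v4 : L (12 * (3 + 2 * C (1 - c)) * (f * f * Hs g)) = 12 * (5 - 2 * c) * L (f * f * Hs g) := by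
    have e : (12 * (3 + 2 * C (1 - c)) * (f * f * Hs g) : RP) = C (12 * (5 - 2 * c)) * (f * f * Hs g) := by
      rw [C_mul, show (C (12 : ℝ) : RP) = 12 from map_ofNat C 12, C_sub, C_sub, C_1, C5, C_mul, Cn2]
      ring
    rw [e, L_C]
  have v5 := congrArg L id1
  rw [map_add, map_add, v1, v2, v3, v4] at v5
  have v6 : L (f * f * Hs g) = 12 * (5 - 2 * c) := by
    have : (5 - 2 * c) * (L (f * f * Hs g) - 12 * (5 - 2 * c)) = 0 := by linear_combination -v5 / 12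
    have := (mul_eq_zero.1 this).resolve_left hm.ne'
    linarith
  -- orthogonality
  have o0 : L (f * f * pderiv 0 g) = 0 := by
    have e : f * f * pderiv 0 g = C (-(5 - 2 * c)) * (f * q) - C (1 - c) * (pderiv 0 f * W) := by
      rw [C_neg, hWg]
      linear_combination f * Pq
    rw [e, map_sub, L_C, L_C, h.Lq f f2, LW _ (homog_Dle (fdh 0))]
    ring
  have o1 : L (f * f * pderiv 1 g) = 0 := by
    have e : f * f * pderiv 1 g = C (5 - 2 * c) * (f * p) - C (1 - c) * (pderiv 1 f * W) := by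
      rw [hWg]
      linear_combination (-f) * Pp
    rw [e, map_sub, L_C, L_C, h.Lp f f2, LW _ (homog_Dle (fdh 1))]
    ring
  obtain ⟨g1, hg1⟩ : ∃ g1 : ℝ, b1 = 3 * g1 := ⟨b1 / 3, by ring⟩
  obtain ⟨g2, hg2⟩ : ∃ g2 : ℝ, b2 = 3 * g2 := ⟨b2 / 3, by ring⟩
  have C3 : (C (3 : ℝ) : RP) = 3 := map_ofNat C 3
  have hgc' : g = C g0 * (X 0 * X 0 * X 0) + 3 * C g1 * (X 0 * X 0 * X 1) + 3 * C g2 * (X 0 * X 1 * X 1) +
      C g3 * (X 1 * X 1 * X 1) := by
    rw [hgc, hg1, hg2, C_mul, C_mul, C3]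
  have n3 : ∀ i : Fin 2, pderiv i (3 : RP) = 0 := fun i => by
    rw [← map_ofNat (C : ℝ →+* RP) 3, pderiv_C]
  have gx : pderiv 0 g = 3 * (C g0 * (X 0 * X 0) + 2 * C g1 * (X 0 * X 1) + C g2 * (X 1 * X 1)) := by
    rw [hgc']
    simp only [map_add, Derivation.leibniz, smul_eq_mul, pderiv_C, p00, p01, n3]
    ring
  have gy : pderiv 1 g = 3 * (C g1 * (X 0 * X 0) + 2 * C g2 * (X 0 * X 1) + C g3 * (X 1 * X 1)) := by
    rw [hgc']
    simp only [map_add, Derivation.leibniz, smul_eq_mul, pderiv_C, p10, p11, n3]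
    ring
  have gxx : pderiv 0 (pderiv 0 g) = 6 * (C g0 * X 0 + C g1 * X 1) := by
    rw [gx]
    simp only [map_add, Derivation.leibniz, smul_eq_mul, pderiv_C, p00, p01, n3, pd2]
    ring
  have gxy : pderiv 1 (pderiv 0 g) = 6 * (C g1 * X 0 + C g2 * X 1) := by
    rw [gx]
    simp only [map_add, Derivation.leibniz, smul_eq_mul, pderiv_C, p10, p11, n3, pd2]
    ring
  have gyy : pderiv 1 (pderiv 1 g) = 6 * (C g2 * X 0 + C g3 * X 1) := by
    rw [gy]
    simp only [map_add, Derivation.leibniz, smul_eq_mul, pderiv_C, p10, p11, n3, pd2]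
    ring
  obtain ⟨A', hA'⟩ : ∃ A', A' = L (f * f * (X 0 * X 0)) := ⟨_, rfl⟩
  obtain ⟨B', hB'⟩ : ∃ B', B' = L (f * f * (X 0 * X 1)) := ⟨_, rfl⟩
  obtain ⟨C', hC'⟩ : ∃ C', C' = L (f * f * (X 1 * X 1)) := ⟨_, rfl⟩
  have expand : ∀ a b c : ℝ, L (f * f * (C a * (X 0 * X 0) + C b * (X 0 * X 1) + C c * (X 1 * X 1))) =
      a * A' + b * B' + c * C' := by
    intro a b c
    have e : f * f * (C a * (X 0 * X 0) + C b * (X 0 * X 1) + C c * (X 1 * X 1)) =
        C a * (f * f * (X 0 * X 0)) + C b * (f * f * (X 0 * X 1)) + C c * (f * f * (X 1 * X 1)) := by ring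
    rw [e, map_add, map_add, L_C, L_C, L_C, hA', hB', hC']
  have r1 : g0 * A' + 2 * g1 * B' + g2 * C' = 0 := by
    have e : f * f * pderiv 0 g = f * f * (C (3 * g0) * (X 0 * X 0) + C (3 * (2 * g1)) * (X 0 * X 1) +
        C (3 * g2) * (X 1 * X 1)) := by
      rw [gx, C_mul, C_mul, C_mul, C_mul, C3, Cn2]; ring
    rw [e, expand] at o0
    linear_combination o0 / 3
  have r2 : g1 * A' + 2 * g2 * B' + g3 * C' = 0 := by
    have e : f * f * pderiv 1 g = f * f * (C (3 * g1) * (X 0 * X 0) + C (3 * (2 * g2)) * (X 0 * X 1) +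
        C (3 * g3) * (X 1 * X 1)) := by
      rw [gy, C_mul, C_mul, C_mul, C_mul, C3, Cn2]; ring
    rw [e, expand] at o1
    linear_combination o1 / 3
  have hH : L (f * f * Hs g) = 36 * ((g0 * g2 - g1 ^ 2) * A' + (g0 * g3 - g1 * g2) * B' + (g1 * g3 - g2 ^ 2) * C') := by
    have e : f * f * Hs g = f * f * (C (36 * (g0 * g2 - g1 ^ 2)) * (X 0 * X 0) +
        C (36 * (g0 * g3 - g1 * g2)) * (X 0 * X 1) + C (36 * (g1 * g3 - g2 ^ 2)) * (X 1 * X 1)) := by
      unfold Hs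
      rw [gxx, gxy, gyy]
      simp only [C_mul, C_sub, C_pow, show (C (36 : ℝ) : RP) = 36 from map_ofNat C 36]
      ring
    rw [e, expand]
    ring
  have hfin := num_II r1 r2 rfl (by
    intro u v
    have h1 := hpos (C u * X 0 + C v * X 1)
      (((isHomogeneous_X _ _).C_mul u).add ((isHomogeneous_X _ _).C_mul v))
    have e : f * (C u * X 0 + C v * X 1) * (f * (C u * X 0 + C v * X 1)) =
        f * f * (C (u ^ 2) * (X 0 * X 0) + C (2 * u * v) * (X 0 * X 1) + C (v ^ 2) * (X 1 * X 1)) := by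
      simp only [C_mul, C_pow, Cn2]
      ring
    rw [e, expand] at h1
    linarith)
  rw [v6] at hH
  nlinarith

end Run7.h256
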