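import Mathlib
import Pool.Agent.Run7.h256.Cls2
import Pool.Agent.Run7.h256.TA
import Pool.Agent.Run7.h256.TD

set_option autoImplicit false

namespace Run7.h256

open MvPolynomial ComplexConjugate

lemma Dle_lin (a b : ℝ) : Dle 1 (C a * X 0 + C b * X 1 : RP) := by
  have := Dle_aff a b 0
  rwa [C_0, add_zero] at this

lemma homog_lin (a b : ℝ) : (C a * X 0 + C b * X 1 : RP).IsHomogeneous 1 :=
  ((isHomogeneous_X _ _).C_mul a).add ((isHomogeneous_X _ _).C_mul b)

/-- forms modulo a line -/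
lemma mod_line {u v : ℝ} (huv : u ≠ 0 ∨ v ≠ 0) (n : ℕ) : ∀ F : RP, F.IsHomogeneous (n + 1) →
    ∃ κ : ℝ, ∃ G : RP, G.IsHomogeneous n ∧
      F = C κ * (C (-v) * X 0 + C u * X 1) ^ (n + 1) + (C u * X 0 + C v * X 1) * G := by
  have hN : u ^ 2 + v ^ 2 ≠ 0 := by
    rcases huv with h | h
    · have := sq_nonneg v; positivity
    · have := sq_nonneg u; positivity
  have inv : (C (u ^ 2 + v ^ 2)⁻¹ * (C u * C u + C v * C v) : RP) = 1 := by
    rw [← C_mul, ← C_mul, ← C_add, ← C_mul, show u * u + v * v = u ^ 2 + v ^ 2 by ring,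
      inv_mul_cancel₀ hN, C_1]
  have key : ∀ α β : ℝ, (C α * X 0 + C β * X 1 : RP) =
      C ((u ^ 2 + v ^ 2)⁻¹ * (-(α * v) + β * u)) * (C (-v) * X 0 + C u * X 1) +
      (C u * X 0 + C v * X 1) * C ((u ^ 2 + v ^ 2)⁻¹ * (α * u + β * v)) := by
    intro α β
    simp only [C_mul, C_add, C_neg]
    linear_combination (-(C α * X 0 + C β * X 1)) * inv
  induction n with
  | zero =>
    intro F hF
    obtain ⟨α, β, rfl⟩ := homog1 hF
    exact ⟨_, _, isHomogeneous_C _ _, by rw [zero_add, pow_one]; exact key α β⟩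
  | succ n ih =>
    intro F hF
    obtain ⟨A, B, hA, hB, rfl⟩ := homog_dec hF
    obtain ⟨α, A', hA', rfl⟩ := ih A hA
    obtain ⟨β, B', hB', rfl⟩ := ih B hB
    refine ⟨(u ^ 2 + v ^ 2)⁻¹ * (-(α * v) + β * u),
      C ((u ^ 2 + v ^ 2)⁻¹ * (α * u + β * v)) * (C (-v) * X 0 + C u * X 1) ^ (n + 1) +
        (X 0 * A' + X 1 * B'), ?_, ?_⟩
    · refine IsHomogeneous.add ?_ ?_
      · have := ((homog_lin (-v) u).pow (n + 1)).C_mul ((u ^ 2 + v ^ 2)⁻¹ * (α * u + β * v))
        rwa [one_mul] at this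
      · have h1 := (isHomogeneous_X ℝ (0 : Fin 2)).mul hA'
        have h2 := (isHomogeneous_X ℝ (1 : Fin 2)).mul hB'
        rw [add_comm 1 n] at h1 h2
        exact h1.add h2
    · have := key α β
      rw [pow_succ _ (n + 1)]
      linear_combination (C (-v) * X 0 + C u * X 1) ^ (n + 1) * this

lemma dvd_line {u v : ℝ} (huv : u ≠ 0 ∨ v ≠ 0) {n : ℕ} {F : RP} (hF : F.IsHomogeneous (n + 1))
    (hw : eval ![-v, u] F = 0) : ∃ G : RP, G.IsHomogeneous n ∧ F = (C u * X 0 + C v * X 1) * G := by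
  obtain ⟨κ, G, hG, h⟩ := mod_line huv n F hF
  have hN : u ^ 2 + v ^ 2 ≠ 0 := by
    rcases huv with h | h
    · have := sq_nonneg v; positivity
    · have := sq_nonneg u; positivity
  rw [h] at hw
  simp only [map_add, map_mul, eval_C, map_pow, eval_X, Matrix.cons_val_zero, Matrix.cons_val_one] at hw
  have h2 : κ * (u ^ 2 + v ^ 2) ^ (n + 1) = 0 := by
    have e : -v * -v + u * u = u ^ 2 + v ^ 2 := by ring
    rw [e] at hw
    linear_combination hw
  have h3 : κ = 0 := (mul_eq_zero.1 h2).resolve_right (pow_ne_zero _ hN)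
  refine ⟨G, hG, ?_⟩
  rw [h, h3, C_0, zero_mul, zero_add]

/-- no common zero at infinity -/
lemma LF.no_inf {p q : RP} {L : RP →ₗ[ℝ] ℝ} (h : LF p q L) {u v : ℝ} (huv : u ≠ 0 ∨ v ≠ 0)
    (hp : eval ![-v, u] p = 0) (hq : eval ![-v, u] q = 0) : False := by
  obtain ⟨p', hp', ep⟩ := dvd_line huv h.hp hp
  obtain ⟨q', hq', eq⟩ := dvd_line huv h.hq hq
  obtain ⟨l, hl⟩ : ∃ l : RP, l = C u * X 0 + C v * X 1 := ⟨_, rfl⟩
  rw [← hl] at ep eq
  have lx : pderiv 0 l = C u := by
    rw [hl]; simp only [map_add, Derivation.leibniz, smul_eq_mul, pderiv_C, p00, p01]; ring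
  have ly : pderiv 1 l = C v := by
    rw [hl]; simp only [map_add, Derivation.leibniz, smul_eq_mul, pderiv_C, p10, p11]; ring
  have e1 := euler hp'
  have e2 := euler hq'
  push_cast at e1 e2
  have hJ : Jac p q = 4 * (C u * pderiv 1 q' - C v * pderiv 0 q') * p +
      4 * (C v * pderiv 0 p' - C u * pderiv 1 p') * q := by
    have h1 : l * Jac p' q' = 3 * (C u * (p' * pderiv 1 q' - q' * pderiv 1 p') +
        C v * (q' * pderiv 0 p' - p' * pderiv 0 q')) := by
      unfold Jac
      rw [hl]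
      linear_combination (C u * pderiv 1 q' - C v * pderiv 0 q') * e1 +
        (C v * pderiv 0 p' - C u * pderiv 1 p') * e2
    rw [ep, eq]
    unfold Jac at h1 ⊢
    simp only [Derivation.leibniz, smul_eq_mul, lx, ly]
    linear_combination l * h1
  have hL := h.LJ
  have d1 : ∀ i, Dle 2 (pderiv i p') := fun i => homog_Dle (homog_pd hp' i)
  have d2 : ∀ i, Dle 2 (pderiv i q') := fun i => homog_Dle (homog_pd hq' i)
  have four : Dle 0 (4 : RP) := by
    rw [show (4 : RP) = C 4 from (map_ofNat C 4).symm]; exact Dle.C _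
  rw [hJ, map_add, h.Lp, h.Lq] at hL
  · norm_num at hL
  · exact four.mul ((((Dle.C (n := 0) v).mul (d1 0) (show 0 + 2 ≤ 2 by omega))).sub
      ((Dle.C (n := 0) u).mul (d1 1) (show 0 + 2 ≤ 2 by omega))) (by omega)
  · exact four.mul ((((Dle.C (n := 0) u).mul (d2 1) (show 0 + 2 ≤ 2 by omega))).sub
      ((Dle.C (n := 0) v).mul (d2 0) (show 0 + 2 ≤ 2 by omega))) (by omega)

namespace Cfg

variable {P Q : RP} {Z : Finset (Fin 2 → ℂ)} {S : Finset (Fin 2 → ℝ)}

/-- conics depending on one linear form are impossible -/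
lemma no_dirA (h : Cfg P Q Z S) {τ τ' F u v : ℝ} {f A : RP} (huv : u ≠ 0 ∨ v ≠ 0) (hf1 : ¬ Dle 1 f)
    (hf : f = C τ * ((C u * X 0 + C v * X 1) * (C u * X 0 + C v * X 1)) +
      C (2 * τ') * (C u * X 0 + C v * X 1) + C F)
    (hirr : Irreducible f) (hA : Dle 1 A) (he : f * DD P Q = A * (C u * P + C v * Q)) : False := by
  have hprime : Prime f := hirr.prime
  have hτ : τ ≠ 0 := by
    rintro rfl
    apply hf1
    rw [hf]
    have : (C 0 * ((C u * X 0 + C v * X 1) * (C u * X 0 + C v * X 1)) +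
      C (2 * τ') * (C u * X 0 + C v * X 1) + C F : RP) = C (2 * τ' * u) * X 0 + C (2 * τ' * v) * X 1 + C F := by
      simp only [C_mul, C_0]; ring
    rw [this]; exact Dle_aff _ _ _
  have hdvd : f ∣ A * (C u * P + C v * Q) := ⟨_, he.symm⟩
  have hne : A ≠ 0 := by
    intro h0
    rw [h0, zero_mul] at he
    rcases mul_eq_zero.1 he with h1 | h1
    · exact hirr.ne_zero h1
    · exact h.D0 h1
  have hd2 : f ∣ C u * P + C v * Q := by
    rcases hprime.dvd_or_dvd hdvd with h1 | h1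
    · exfalso
      obtain ⟨g, hg⟩ := h1
      have hg0 : g ≠ 0 := by
        rintro rfl
        rw [mul_zero] at hg
        exact hne hg
      have h2 : Dle 1 (f * g) := by rw [← hg]; exact hA
      apply hf1
      unfold Dle at *
      rw [totalDegree_mul_eq hprime.ne_zero hg0] at h2
      omega
    · exact h1
  obtain ⟨K, hK⟩ := hd2
  have dK : Dle 2 K := by
    have h1 : Dle 4 (f * K) := by
      rw [← hK]
      exact ((Dle.C (n := 0) u).mul h.hP (by omega)).add ((Dle.C (n := 0) v).mul h.hQ (by omega))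
    exact dvd_Dle h1 hprime.ne_zero hf1
  have hKS : ∀ p ∈ S, eval p K = 0 := by
    intro p hp
    obtain ⟨hPp, hQp⟩ := h.PS hp
    have e0 := congrArg (eval p) hK
    simp only [map_add, map_mul, eval_C, hPp, hQp, mul_zero, add_zero] at e0
    rcases mul_eq_zero.1 e0.symm with hz | hz
    · exfalso
      set lam := u * p 0 + v * p 1 with hlam
      have e1 : τ * lam * lam + 2 * τ' * lam + F = 0 := by
        rw [hf] at hz
        simp only [map_add, map_mul, eval_C, eval_X] at hz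
        rw [hlam]; linear_combination hz
      have e2 : f = (C u * X 0 + C v * X 1 + C (-lam)) *
          (C (τ * u) * X 0 + C (τ * v) * X 1 + C (τ * lam + 2 * τ')) := by
        have e3 : (C F : RP) = - (C τ * C lam * C lam + 2 * C τ' * C lam) := by
          rw [← Cn2, ← C_mul, ← C_mul, ← C_mul, ← C_mul, ← C_add, ← C_neg]
          congr 1; linear_combination e1
        rw [hf, e3]
        simp only [C_mul, C_neg, C_add, Cn2]
        ring
      rcases hirr.isUnit_or_isUnit e2 with h1 | h1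
      · exact not_unit (notDle_aff huv) h1
      · apply not_unit (notDle_aff _) h1
        rcases huv with h2 | h2
        · exact Or.inl (mul_ne_zero hτ h2)
        · exact Or.inr (mul_ne_zero hτ h2)
    · exact hz
  have hK0 := h.conic dK hKS
  rw [hK0, mul_zero] at hK
  obtain ⟨h1, h2⟩ := h.inj3 (Dle.C u) hK
  rcases huv with h3 | h3
  · exact h3 (by simpa using h1)
  · exact h3 (by simpa using h2)

/-- top degree relation for lines -/
lemma topI (h : Cfg P Q Z S) {a b e c : ℝ}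
    (he : C c * XF P Q (C a * X 0 + C b * X 1 + C e) = (C a * X 0 + C b * X 1 + C e) * DD P Q) :
    C c * (C a * hc 4 P + C b * hc 4 Q) =
      (C a * X 0 + C b * X 1) * (pderiv 0 (hc 4 P) + pderiv 1 (hc 4 Q)) := by
  have dP : Dle 3 (P - hc 4 P) := sub_hc_Dle h.hP
  have dQ : Dle 3 (Q - hc 4 Q) := sub_hc_Dle h.hQ
  have hp := hc_homog 4 P
  have hq := hc_homog 4 Q
  rw [← sub_eq_zero]
  apply homog_Dle_zero (n := 4) (m := 3)
  · refine IsHomogeneous.sub (((hp.C_mul a).add (hq.C_mul b)).C_mul c) ?_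
    have := (homog_lin a b).mul ((homog_pd hp 0).add (homog_pd hq 1))
    exact this
  · have e1 : C c * (C a * hc 4 P + C b * hc 4 Q) -
        (C a * X 0 + C b * X 1) * (pderiv 0 (hc 4 P) + pderiv 1 (hc 4 Q)) =
        -(C c * (C a * (P - hc 4 P) + C b * (Q - hc 4 Q)) -
          (C a * X 0 + C b * X 1) * (pderiv 0 (P - hc 4 P) + pderiv 1 (Q - hc 4 Q)) - C e * DD P Q) := by
      have hX : XF P Q (C a * X 0 + C b * X 1 + C e) = C a * P + C b * Q := by
        unfold XF; rw [pd_aff0, pd_aff1]; ring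
      rw [hX] at he
      unfold DD at he ⊢
      simp only [map_sub]
      linear_combination he
    rw [e1]
    refine Dle.neg ((Dle.sub ?_ ?_).sub ((Dle.C (n := 0) e).mul h.dD (by omega)))
    · exact (Dle.C (n := 0) c).mul (((Dle.C (n := 0) a).mul dP (show 0 + 3 ≤ 3 by omega)).add
        ((Dle.C (n := 0) b).mul dQ (show 0 + 3 ≤ 3 by omega))) (by omega)
    · exact (Dle_lin a b).mul ((Dle.pderiv (n := 2) dP 0).add (Dle.pderiv (n := 2) dQ 1)) (by omega)
  · norm_num

open CI16 in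
/-- affine interpolation on `T0` -/
lemma affine_T0 (h : Cfg P Q Z S) {l : RP} (hl : Dle 1 l) (hl0 : l ≠ 0)
    (hlT : ∀ t ∈ T1 P Q Z S, eval t (cx l) = 0) (φ : (Fin 2 → ℂ) → ℂ) :
    ∃ A : RR, Dle 1 A ∧ ∀ t ∈ T0 P Q Z S, eval t A = φ t := by
  classical
  have h4 := h.four_le
  have h7 := h.card_T
  by_cases h3 : (T0 P Q Z S).card = 3
  · have hinj : Function.Injective (ev (T0 P Q Z S) 1) := by
      rw [← LinearMap.ker_eq_bot, LinearMap.ker_eq_bot']
      intro x hx
      apply Subtype.ext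
      have h5 : cx l * x.1 = 0 := by
        apply h.n.eq_zero_of_vanish ((Dle_cx_iff.2 hl).mul (mem_Pl.1 x.2) (by omega))
        intro t ht
        rw [Finset.mem_sdiff] at ht
        rw [map_mul]
        by_cases hd : eval t (cx (DD P Q)) = 0
        · have := congrFun hx ⟨t, memT0.2 ⟨ht.1, ht.2, hd⟩⟩
          rw [ev_apply] at this
          rw [show eval t x.1 = 0 from this, mul_zero]
        · rw [hlT t (memT1.2 ⟨ht.1, ht.2, hd⟩), zero_mul]
      rcases mul_eq_zero.1 h5 with h6 | h6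
      · exact absurd (cx_inj (by rw [h6, cx_zero])) hl0
      · exact h6
    have hfr : Module.finrank ℂ (Pl ℂ 1) = Module.finrank ℂ (T0 P Q Z S → ℂ) := by
      have := finrank_Pl (k := ℂ) 1
      rw [Module.finrank_fintype_fun_eq_card, Fintype.card_coe, h3]
      omega
    have hsurj := (LinearMap.injective_iff_surjective_of_finrank_eq_finrank hfr).1 hinj
    obtain ⟨x, hx⟩ := hsurj (fun t => φ t.1)
    refine ⟨x.1, mem_Pl.1 x.2, ?_⟩
    intro t ht
    have := congrFun hx ⟨t, ht⟩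
    rw [ev_apply] at this
    exact this
  · have hle : (T0 P Q Z S).card ≤ 2 := by omega
    choose A hA1 hA2 hA3 using exists_sep (k := ℂ) (T0 P Q Z S)
    refine ⟨∑ w ∈ T0 P Q Z S, C (φ w / eval w (A w)) * A w, ?_, ?_⟩
    · unfold Dle
      refine le_trans (totalDegree_finsetSum _ _) ?_
      apply Finset.sup_le
      intro w hw
      have h1 : Dle 1 (A w) := by
        refine (hA1 w).mono ?_
        rw [Finset.card_erase_of_mem hw]; omega
      exact (Dle.C (n := 0) (φ w / eval w (A w))).mul h1 (by omega)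
    · intro t ht
      rw [map_sum, Finset.sum_eq_single t]
      · rw [map_mul, eval_C, div_mul_cancel₀ _ (hA2 t)]
      · intro w hw hwt
        rw [map_mul, hA3 w t ht (Ne.symm hwt), mul_zero]
      · intro h1; exact absurd ht h1

/-- type I is impossible -/
theorem typeI_false (h : Cfg P Q Z S) (hI : TypeI P Q) : False := by
  obtain ⟨l, c, hl, hl0, he⟩ := hI
  obtain ⟨a, b, e, rfl⟩ := aff_coords hl
  have hab := aff_ne hl0
  have hne : (C a * X 0 + C b * X 1 + C e : RP) ≠ 0 := by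
    intro h0; apply hl0; rw [h0]; exact Dle.zero
  have hJ : ∀ t ∈ T1 P Q Z S, (c : ℂ) ^ 2 * eval t (Jac (cx P) (cx Q)) =
      ((c : ℂ) - 1) * eval t (cx (DD P Q)) ^ 2 := by
    intro t ht
    apply h.J_formula he ht
    rw [pd_aff0, pd_aff1, cx_C, cx_C, eval_C, eval_C]
    rcases hab with h1 | h1
    · exact Or.inl (by exact_mod_cast h1)
    · exact Or.inr (by exact_mod_cast h1)
  obtain ⟨hc1, hc0⟩ := h.c_lt hJ
  have hlT : ∀ t ∈ T1 P Q Z S, eval t (cx (C a * X 0 + C b * X 1 + C e)) = 0 :=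
    fun t ht => h.inv_vanish he ht
  refine pureI h.lf hab (by linarith) hc0 rfl (h.topI he) ?_
  intro F hF
  obtain ⟨A, hA1, hA⟩ := h.affine_T0 hl hne hlT (fun t => - eval t (cx F))
  have dF : Dle 2 F := homog_Dle hF
  apply h.Lam_nonneg (F := (C a * X 0 + C b * X 1) * F)
    (G := cx (C a * X 0 + C b * X 1 + C e) * (cx F + A)) ((Dle_lin a b).mul dF (by omega))
  · have e1 : cx (C a * X 0 + C b * X 1 + C e) * (cx F + A) - cx ((C a * X 0 + C b * X 1) * F) =
        C (e : ℂ) * cx F + cx (C a * X 0 + C b * X 1 + C e) * A := by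
      rw [cx_mul, cx_add (C a * X 0 + C b * X 1), cx_C]
      ring
    rw [e1]
    exact ((Dle.C (n := 0) (e : ℂ)).mul (Dle_cx_iff.2 dF) (by omega)).add
      ((Dle_cx_iff.2 hl).mul hA1 (by omega))
  · intro t htZ htS
    rw [map_mul]
    by_cases hd : eval t (cx (DD P Q)) = 0
    · rw [map_add, hA t (memT0.2 ⟨htZ, htS, hd⟩), add_neg_cancel, mul_zero]
    · rw [hlT t (memT1.2 ⟨htZ, htS, hd⟩), zero_mul]

end Cfg

end Run7.h256
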