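import Mathlib
import Pool.Agent.Run7.h256.Alg4
import Pool.Agent.Run7.h256.TB
import Pool.Agent.Run7.h256.TE
import Pool.Agent.Run7.h256.TF

set_option autoImplicit false

namespace Run7.h256

open MvPolynomial ComplexConjugate

lemma rank_one {A B Cc : ℝ} (hdet : A * Cc - B ^ 2 = 0) (hne : A ≠ 0 ∨ Cc ≠ 0) :
    ∃ ε u v : ℝ, ε ≠ 0 ∧ (u ≠ 0 ∨ v ≠ 0) ∧ A = ε * u * u ∧ B = ε * u * v ∧ Cc = ε * v * v := by
  by_cases hA : A = 0
  · have hC : Cc ≠ 0 := hne.resolve_left (not_not.2 hA)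
    have hB : B = 0 := by
      rw [hA] at hdet
      have : B ^ 2 = 0 := by linear_combination -hdet
      exact pow_eq_zero_iff (two_ne_zero) |>.1 this
    exact ⟨Cc⁻¹, 0, Cc, inv_ne_zero hC, Or.inr hC, by rw [hA]; ring, by rw [hB]; ring, by field_simp⟩
  · refine ⟨A⁻¹, A, B, inv_ne_zero hA, Or.inl hA, by field_simp, by field_simp, ?_⟩
    field_simp
    linear_combination hdet

namespace Cfg

variable {P Q : RP} {Z : Finset (Fin 2 → ℂ)} {S : Finset (Fin 2 → ℝ)}

/-- top degree relation for conics -/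
lemma topII (h : Cfg P Q Z S) {f f2 f1 : RP} {c : ℝ} (hff : f = f2 + f1) (h2 : f2.IsHomogeneous 2)
    (h1 : Dle 1 f1) (he : C c * XF P Q f = f * DD P Q) :
    C c * (pderiv 0 f2 * hc 4 P + pderiv 1 f2 * hc 4 Q) =
      f2 * (pderiv 0 (hc 4 P) + pderiv 1 (hc 4 Q)) := by
  have dP : Dle 3 (P - hc 4 P) := sub_hc_Dle h.hP
  have dQ : Dle 3 (Q - hc 4 Q) := sub_hc_Dle h.hQ
  have hp := hc_homog 4 P
  have hq := hc_homog 4 Q
  rw [← sub_eq_zero]
  apply homog_Dle_zero (n := 5) (m := 4)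
  · refine IsHomogeneous.sub ?_ ?_
    · exact (((homog_pd h2 0).mul hp).add ((homog_pd h2 1).mul hq)).C_mul c
    · exact h2.mul ((homog_pd hp 0).add (homog_pd hq 1))
  · have e1 : C c * (pderiv 0 f2 * hc 4 P + pderiv 1 f2 * hc 4 Q) -
        f2 * (pderiv 0 (hc 4 P) + pderiv 1 (hc 4 Q)) =
        -(C c * (pderiv 0 f2 * (P - hc 4 P) + pderiv 1 f2 * (Q - hc 4 Q) + pderiv 0 f1 * P + pderiv 1 f1 * Q) -
          f2 * (pderiv 0 (P - hc 4 P) + pderiv 1 (Q - hc 4 Q)) - f1 * DD P Q) := by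
      rw [hff] at he
      unfold XF DD at he
      unfold DD
      simp only [map_sub, map_add] at he ⊢
      linear_combination he
    rw [e1]
    have d2 : Dle 2 f2 := homog_Dle h2
    have a0 : ∀ i, Dle 1 (pderiv i f2) := fun i => Dle.pderiv (n := 1) d2 i
    have a1 : ∀ i, Dle 0 (pderiv i f1) := fun i => Dle.pderiv (n := 0) h1 i
    refine Dle.neg ((Dle.sub ?_ ?_).sub (h1.mul h.dD (by omega)))
    · refine (Dle.C (n := 0) c).mul (b := 4) ((((((a0 0).mul dP ?_).add ((a0 1).mul dQ ?_)).add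
        ((a1 0).mul h.hP ?_)).add ((a1 1).mul h.hQ ?_))) (by omega) <;> omega
    · exact d2.mul ((Dle.pderiv (n := 2) dP 0).add (Dle.pderiv (n := 2) dQ 1)) (by omega)
  · norm_num

/-- second degree relation for conics -/
lemma secII (h : Cfg P Q Z S) {f f2 f1 : RP} {c F : ℝ} (hff : f = f2 + f1 + C F) (h2 : f2.IsHomogeneous 2)
    (h1 : f1.IsHomogeneous 1) (he : C c * XF P Q f = f * DD P Q) :
    C c * (pderiv 0 f2 * hc 3 P + pderiv 1 f2 * hc 3 Q + pderiv 0 f1 * hc 4 P + pderiv 1 f1 * hc 4 Q) =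
      f2 * (pderiv 0 (hc 3 P) + pderiv 1 (hc 3 Q)) + f1 * (pderiv 0 (hc 4 P) + pderiv 1 (hc 4 Q)) := by
  have dP : Dle 3 (P - hc 4 P) := sub_hc_Dle h.hP
  have dQ : Dle 3 (Q - hc 4 Q) := sub_hc_Dle h.hQ
  have hp := hc_homog 4 P
  have hq := hc_homog 4 Q
  have hp3 := hc_homog 3 P
  have hq3 := hc_homog 3 Q
  have dP2 : Dle 2 (P - hc 4 P - hc 3 P) := by
    have e : hc 3 (P - hc 4 P) = hc 3 P := by
      ext d
      rw [coeff_hc, coeff_sub, coeff_hc, coeff_hc]
      by_cases hd : d 0 + d 1 = 3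
      · rw [if_pos hd, if_neg (by omega), if_pos hd, sub_zero]
      · rw [if_neg hd, if_neg hd]
    have := sub_hc_Dle dP
    rwa [e] at this
  have dQ2 : Dle 2 (Q - hc 4 Q - hc 3 Q) := by
    have e : hc 3 (Q - hc 4 Q) = hc 3 Q := by
      ext d
      rw [coeff_hc, coeff_sub, coeff_hc, coeff_hc]
      by_cases hd : d 0 + d 1 = 3
      · rw [if_pos hd, if_neg (by omega), if_pos hd, sub_zero]
      · rw [if_neg hd, if_neg hd]
    have := sub_hc_Dle dQ
    rwa [e] at this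
  have htop := h.topII (f := f) (f2 := f2) (f1 := f1 + C F) (by rw [hff]; ring) h2
    ((homog_Dle h1).add (Dle.C F)) he
  rw [← sub_eq_zero]
  apply homog_Dle_zero (n := 4) (m := 3)
  · refine IsHomogeneous.sub ?_ ?_
    · refine IsHomogeneous.C_mul ?_ c
      have t1 := (homog_pd h2 0).mul hp3
      have t2 := (homog_pd h2 1).mul hq3
      have t3 := (homog_pd (n := 0) h1 0).mul hp
      have t4 := (homog_pd (n := 0) h1 1).mul hq
      rw [zero_add] at t3 t4
      exact ((t1.add t2).add t3).add t4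
    · exact (h2.mul ((homog_pd hp3 0).add (homog_pd hq3 1))).add
        (h1.mul ((homog_pd hp 0).add (homog_pd hq 1)))
  · have e1 : C c * (pderiv 0 f2 * hc 3 P + pderiv 1 f2 * hc 3 Q + pderiv 0 f1 * hc 4 P + pderiv 1 f1 * hc 4 Q) -
        (f2 * (pderiv 0 (hc 3 P) + pderiv 1 (hc 3 Q)) + f1 * (pderiv 0 (hc 4 P) + pderiv 1 (hc 4 Q))) =
        -(C c * (pderiv 0 f2 * (P - hc 4 P - hc 3 P) + pderiv 1 f2 * (Q - hc 4 Q - hc 3 Q) +
            pderiv 0 f1 * (P - hc 4 P) + pderiv 1 f1 * (Q - hc 4 Q)) -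
          f2 * (pderiv 0 (P - hc 4 P - hc 3 P) + pderiv 1 (Q - hc 4 Q - hc 3 Q)) -
          f1 * (pderiv 0 (P - hc 4 P) + pderiv 1 (Q - hc 4 Q)) - C F * DD P Q) := by
      rw [hff] at he
      unfold XF DD at he
      unfold DD
      simp only [map_sub, map_add, pderiv_C] at he ⊢
      linear_combination he - htop
    rw [e1]
    have d2 : Dle 2 f2 := homog_Dle h2
    have d1 : Dle 1 f1 := homog_Dle h1
    have a0 : ∀ i, Dle 1 (pderiv i f2) := fun i => Dle.pderiv (n := 1) d2 i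
    have a1 : ∀ i, Dle 0 (pderiv i f1) := fun i => Dle.pderiv (n := 0) d1 i
    refine Dle.neg (((Dle.sub ?_ ?_).sub ?_).sub ((Dle.C (n := 0) F).mul h.dD (by omega)))
    · refine (Dle.C (n := 0) c).mul (b := 3) ((((((a0 0).mul dP2 ?_).add ((a0 1).mul dQ2 ?_)).add
        ((a1 0).mul dP ?_)).add ((a1 1).mul dQ ?_))) (by omega) <;> omega
    · exact d2.mul ((Dle.pderiv (n := 1) dP2 0).add (Dle.pderiv (n := 1) dQ2 1)) (by omega)
    · exact d1.mul ((Dle.pderiv (n := 2) dP 0).add (Dle.pderiv (n := 2) dQ 1)) (by omega)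
  · norm_num

/-- parabolas are impossible -/
lemma no_parabola (h : Cfg P Q Z S) {f : RP} {A B Cc D E F c : ℝ} (hfq : f = qd A B Cc D E F)
    (hirr : Irreducible f) (hf1 : ¬ Dle 1 f) (he : C c * XF P Q f = f * DD P Q) (hc1 : c < 1) (hc0 : c ≠ 0)
    (hdet : A * Cc - B ^ 2 = 0) : False := by
  have hne : A ≠ 0 ∨ Cc ≠ 0 := by
    by_contra hcon
    push Not at hcon
    obtain ⟨hA, hC⟩ := hcon
    have hB : B = 0 := by
      rw [hA] at hdet
      have : B ^ 2 = 0 := by linear_combination -hdet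
      exact pow_eq_zero_iff (two_ne_zero) |>.1 this
    apply hf1
    rw [hfq, hA, hB, hC]
    unfold qd
    simp only [C_0, mul_zero, zero_mul, zero_add]
    exact Dle_aff _ _ _
  obtain ⟨ε, u, v, hε, huv, hA, hB, hC⟩ := rank_one hdet hne
  have hN : 0 < u ^ 2 + v ^ 2 := by
    rcases huv with h1 | h1
    · have := sq_nonneg v; positivity
    · have := sq_nonneg u; positivity
  obtain ⟨l, hl⟩ : ∃ l : RP, l = C u * X 0 + C v * X 1 := ⟨_, rfl⟩
  have lx : pderiv 0 l = C u := by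
    rw [hl]; simp only [map_add, Derivation.leibniz, smul_eq_mul, pderiv_C, p00, p01]; ring
  have ly : pderiv 1 l = C v := by
    rw [hl]; simp only [map_add, Derivation.leibniz, smul_eq_mul, pderiv_C, p10, p11]; ring
  obtain ⟨f2, hf2⟩ : ∃ f2 : RP, f2 = C ε * (l * l) := ⟨_, rfl⟩
  obtain ⟨g1, hg1⟩ : ∃ g1 : RP, g1 = C (2 * D) * X 0 + C (2 * E) * X 1 := ⟨_, rfl⟩
  have hff : f = f2 + g1 + C F := by
    rw [hfq, hf2, hg1, hl, hA, hB, hC]
    unfold qd
    simp only [C_mul, Cn2]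
    ring
  have lh : l.IsHomogeneous 1 := by rw [hl]; exact homog_lin u v
  have hf2h : f2.IsHomogeneous 2 := by rw [hf2]; exact (lh.mul lh).C_mul ε
  have hg1h : g1.IsHomogeneous 1 := by rw [hg1]; exact homog_lin _ _
  by_cases hk : -(D * v) + E * u = 0
  · -- two parallel complex lines
    obtain ⟨τ, hτ⟩ : ∃ τ, τ = (D * u + E * v) / (u ^ 2 + v ^ 2) := ⟨_, rfl⟩
    have hD : D = τ * u := by
      rw [hτ]; field_simp; linear_combination -v * hk
    have hE : E = τ * v := by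
      rw [hτ]; field_simp; linear_combination u * hk
    refine h.no_dirA (τ := ε) (τ' := τ) (F := F) (A := C (2 * c) * (C (ε * u) * X 0 + C (ε * v) * X 1 + C τ))
      huv hf1 ?_ hirr ?_ ?_
    · rw [hff, hf2, hg1, hl, hD, hE]
      simp only [C_mul, Cn2]
      ring
    · exact (Dle.C (n := 0) (2 * c)).mul (Dle_aff _ _ _) (by omega)
    · rw [← he, hff]
      unfold XF
      rw [hf2, hg1]
      simp only [map_add, Derivation.leibniz, smul_eq_mul, pderiv_C, lx, ly, p00, p01, p10, p11]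
      rw [hl, hD, hE]
      simp only [C_mul, Cn2]
      ring
  · -- a genuine parabola
    have htop := h.topII (f := f) (f2 := f2) (f1 := g1 + C F) (by rw [hff]; ring) hf2h
      ((homog_Dle hg1h).add (Dle.C F)) he
    have hsec := h.secII hff hf2h hg1h he
    obtain ⟨p, hp⟩ : ∃ p, p = hc 4 P := ⟨_, rfl⟩
    obtain ⟨q, hq⟩ : ∃ q, q = hc 4 Q := ⟨_, rfl⟩
    have hlf := h.lf
    rw [← hp, ← hq] at htop hsec hlf
    have fx : pderiv 0 f2 = C (2 * (ε * u)) * l := by
      rw [hf2]; simp only [Derivation.leibniz, smul_eq_mul, pderiv_C, lx, C_mul, Cn2]; ring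
    have fy : pderiv 1 f2 = C (2 * (ε * v)) * l := by
      rw [hf2]; simp only [Derivation.leibniz, smul_eq_mul, pderiv_C, ly, C_mul, Cn2]; ring
    have hlne : l ≠ 0 := by rw [hl]; exact lin_ne huv
    have hεne : (C ε : RP) ≠ 0 := by rwa [Ne, C_eq_zero]
    have htop' : C (2 * c) * (C u * p + C v * q) = l * (pderiv 0 p + pderiv 1 q) := by
      apply mul_left_cancel₀ hεne
      apply mul_left_cancel₀ hlne
      rw [fx, fy, hf2] at htop
      simp only [C_mul, Cn2] at htop ⊢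
      linear_combination htop
    -- evaluate at w
    obtain ⟨w, hw⟩ : ∃ w : Fin 2 → ℝ, w = ![-v, u] := ⟨_, rfl⟩
    have w0 : w 0 = -v := by rw [hw]; rfl
    have w1 : w 1 = u := by rw [hw]; rfl
    have elw : eval w l = 0 := by
      rw [hl]; simp only [map_add, map_mul, eval_C, eval_X, w0, w1]; ring
    have ef2 : eval w f2 = 0 := by rw [hf2]; simp only [map_mul, elw]; ring
    have eg1 : eval w g1 = 2 * (-(D * v) + E * u) := by
      rw [hg1]; simp only [map_add, map_mul, eval_C, eval_X, w0, w1]; ring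
    have gx : pderiv 0 g1 = C (2 * D) := by
      rw [hg1]; simp only [map_add, Derivation.leibniz, smul_eq_mul, pderiv_C, p00, p01]; ring
    have gy : pderiv 1 g1 = C (2 * E) := by
      rw [hg1]; simp only [map_add, Derivation.leibniz, smul_eq_mul, pderiv_C, p10, p11]; ring
    have s0 := congrArg (eval w) htop'
    have s1 := congrArg (eval w) hsec
    have t0 := congrArg (fun G => eval w (pderiv 0 G)) htop'
    have t1 := congrArg (fun G => eval w (pderiv 1 G)) htop'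
    have u0 := congrArg (eval w) (euler hlf.hp)
    have u1 := congrArg (eval w) (euler hlf.hq)
    rw [fx, fy, gx, gy] at s1
    simp only [map_add, map_mul, eval_C, elw, zero_mul, mul_zero, ef2, eg1, zero_add] at s0 s1
    simp only [Derivation.leibniz, smul_eq_mul, pderiv_C, map_add, map_mul, eval_C, elw, zero_mul, mul_zero,
      zero_add, add_zero, lx, ly] at t0 t1
    simp only [map_add, map_mul, eval_X, w0, w1, map_natCast] at u0 u1
    push_cast at u0 u1
    obtain ⟨D3, hD3⟩ : ∃ D3, D3 = eval w (pderiv 0 p) + eval w (pderiv 1 q) := ⟨_, rfl⟩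
    have s2 : u * eval w p + v * eval w q = 0 := by
      have h2 : (2 * c) ≠ 0 := mul_ne_zero two_ne_zero hc0
      exact (mul_eq_zero.1 s0).resolve_left h2
    -- the eigenvalue computation
    have k1 : 2 * c * ((u ^ 2 + v ^ 2) * D3) = (u ^ 2 + v ^ 2) * D3 +
        2 * c * (4 * (-v * eval w p + u * eval w q)) := by
      rw [hD3]
      linear_combination u * t0 + v * t1 + 2 * c * (-v * u0 + u * u1)
    have k2 : c * (-v * eval w p + u * eval w q) * (-(D * v) + E * u) = (u ^ 2 + v ^ 2) * D3 * (-(D * v) + E * u) := by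
      rw [hD3]
      linear_combination (u ^ 2 + v ^ 2) / 2 * s1 - c * (D * u + E * v) * s2
    have k3 : c * (-v * eval w p + u * eval w q) = (u ^ 2 + v ^ 2) * D3 := mul_right_cancel₀ hk k2
    have k4 : (2 * c - 9) * (-v * eval w p + u * eval w q) = 0 := by
      have : c * ((2 * c - 9) * (-v * eval w p + u * eval w q)) = 0 := by
        linear_combination k1 + (2 * c - 1) * k3
      exact (mul_eq_zero.1 this).resolve_left hc0
    have k5 : -v * eval w p + u * eval w q = 0 := by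
      rcases mul_eq_zero.1 k4 with h2 | h2
      · linarith
      · exact h2
    have hp0 : eval w p = 0 := by
      have : (u ^ 2 + v ^ 2) * eval w p = 0 := by linear_combination u * s2 - v * k5
      exact (mul_eq_zero.1 this).resolve_left hN.ne'
    have hq0 : eval w q = 0 := by
      have : (u ^ 2 + v ^ 2) * eval w q = 0 := by linear_combination v * s2 + u * k5
      exact (mul_eq_zero.1 this).resolve_left hN.ne'
    rw [hw] at hp0 hq0
    exact hlf.no_inf huv hp0 hq0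

/-- the case of a point of zero divergence outside `S` -/
theorem T0_empty (h : Cfg P Q Z S) : T0 P Q Z S = ∅ := by
  by_contra hT0
  have hI : ¬ TypeI P Q := fun hI => h.typeI_false hI
  have h6 := h.six_le hI
  have h7 := h.card_T
  have hpos : 0 < (T0 P Q Z S).card := Finset.card_pos.2 (Finset.nonempty_iff_ne_empty.2 hT0)
  have h1 : (T0 P Q Z S).card = 1 := by omega
  obtain ⟨t0, ht0⟩ := Finset.card_eq_one.1 h1
  obtain ⟨f, hf, hf0, hfT⟩ := h.exists_conic (by omega)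
  obtain ⟨hirr, hf1, c, he⟩ := (h.cls hf hf0 hfT).resolve_left hI
  obtain ⟨hc1, hc0⟩ := h.c_lt (h.hJ_irr hf hirr hf1 he)
  obtain ⟨A, B, Cc, D, E, F, hfc⟩ := quad_coords hf
  have hfq : f = qd A B Cc D E F := hfc
  by_cases hdet : A * Cc - B ^ 2 = 0
  · exact h.no_parabola hfq hirr hf1 he hc1 hc0 hdet
  obtain ⟨f2, hf2⟩ : ∃ f2 : RP, f2 = C A * (X 0 * X 0) + 2 * C B * (X 0 * X 1) + C Cc * (X 1 * X 1) := ⟨_, rfl⟩
  obtain ⟨g1, hg1⟩ : ∃ g1 : RP, g1 = C (2 * D) * X 0 + C (2 * E) * X 1 + C F := ⟨_, rfl⟩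
  have hff : f = f2 + g1 := by
    rw [hfc, hf2, hg1]
    simp only [C_mul, Cn2]
    ring
  have XX : ∀ i j : Fin 2, (X i * X j : RP).IsHomogeneous 2 := fun i j =>
    (isHomogeneous_X _ i).mul (isHomogeneous_X _ j)
  have f2h : f2.IsHomogeneous 2 := by
    rw [hf2, ← Cn2, ← C_mul]
    exact (((XX 0 0).C_mul _).add ((XX 0 1).C_mul _)).add ((XX 1 1).C_mul _)
  have d2 : Dle 2 f2 := homog_Dle f2h
  have d1 : Dle 1 g1 := by rw [hg1]; exact Dle_aff _ _ _
  refine pureII h.lf hdet (by linarith) hc0 hf2 (h.topII hff f2h d1 he) ?_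
  intro G hG
  have dG : Dle 1 G := homog_Dle hG
  apply h.Lam_nonneg (F := f2 * G) (G := cx f * (cx G + C (-(eval t0 (cx G))))) (d2.mul dG (by omega))
  · have e1 : cx f * (cx G + C (-(eval t0 (cx G)))) - cx (f2 * G) =
        cx g1 * cx G + cx f * C (-(eval t0 (cx G))) := by
      rw [hff, cx_mul, cx_add]
      ring
    rw [e1]
    exact ((Dle_cx_iff.2 d1).mul (Dle_cx_iff.2 dG) (by omega)).add
      ((Dle_cx_iff.2 hf).mul (Dle.C (n := 0) _) (by omega))
  · intro t htZ htS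
    rw [map_mul]
    by_cases hd : eval t (cx (DD P Q)) = 0
    · have : t ∈ T0 P Q Z S := memT0.2 ⟨htZ, htS, hd⟩
      rw [ht0, Finset.mem_singleton] at this
      rw [this, map_add, eval_C, add_neg_cancel, mul_zero]
    · rw [hfT t (memT1.2 ⟨htZ, htS, hd⟩), zero_mul]

/-- main algebraic theorem -/
theorem false (h : Cfg P Q Z S) (hL : ∀ s ∈ S.map ⟨cp, cp_inj⟩, LC (cx P) (cx Q) s) : False := by
  have hDv : Dv (cx P) (cx Q) = cx (DD P Q) := cx_Dv P Q
  refine ND.contradiction (P := cx P) (Q := cx Q) (Z := Z) (S := S.map ⟨cp, cp_inj⟩) ⟨h.n, ?_, ?_⟩ ?_ hL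
  · intro s hs
    rw [hDv]
    exact h.dSc s hs
  · intro t ht h0
    rw [hDv] at h0
    rw [Finset.mem_sdiff] at ht
    have : t ∈ T0 P Q Z S := memT0.2 ⟨ht.1, ht.2, h0⟩
    rw [h.T0_empty] at this
    exact absurd this (Finset.notMem_empty _)
  · intro s hs
    obtain ⟨p, hp, rfl⟩ := memS S hs
    exact h.K p hp

end Cfg

end Run7.h256
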