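import Mathlib
import Pool.Agent.Run7.h256.RC

set_option autoImplicit false

namespace Run7.h256

open MvPolynomial

variable {k : Type*} [Field k]

lemma sub_hcD {n : ℕ} {F : MvPolynomial (Fin 2) k} (h : Dle (n + 1) F) : Dle n (F - hc (n + 1) F) := by
  rw [Dle_iff] at h ⊢
  intro d hd
  rw [coeff_sub, coeff_hc]
  by_cases h1 : d 0 + d 1 = n + 1
  · rw [if_pos h1, sub_self]
  · rw [if_neg h1, sub_zero]; exact h d (by omega)

lemma hc_zero_eq {F : MvPolynomial (Fin 2) k} (h : Dle 0 F) : F = hc 0 F := by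
  rw [Dle_iff] at h
  ext d
  rw [coeff_hc]
  by_cases h1 : d 0 + d 1 = 0
  · rw [if_pos h1]
  · rw [if_neg h1]; exact h d (by omega)

lemma homog_DG {n : ℕ} {F : MvPolynomial (Fin 2) k} (h : F.IsHomogeneous n) : Dle n F := h.totalDegree_le

lemma homog_D0 {n m : ℕ} {F : MvPolynomial (Fin 2) k} (h : F.IsHomogeneous n) (hd : Dle m F) (hmn : m < n) :
    F = 0 := by
  by_contra h0
  have := h.totalDegree h0
  unfold Dle at hd
  omega

/-- the ideal generated by two polynomials -/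
noncomputable abbrev II (P Q : MvPolynomial (Fin 2) k) : Ideal (MvPolynomial (Fin 2) k) := Ideal.span {P, Q}

lemma mem_II {P Q F : MvPolynomial (Fin 2) k} : F ∈ II P Q ↔ ∃ u v, u * P + v * Q = F :=
  Ideal.mem_span_pair

lemma II_P (P Q F : MvPolynomial (Fin 2) k) : F * P ∈ II P Q := mem_II.2 ⟨F, 0, by ring⟩
lemma II_Q (P Q F : MvPolynomial (Fin 2) k) : F * Q ∈ II P Q := mem_II.2 ⟨0, F, by ring⟩

/-- coprime top forms of degree four -/
structure E0 (P Q : MvPolynomial (Fin 2) k) : Prop where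
  hP : Dle 4 P
  hQ : Dle 4 Q
  rel : IsRelPrime (hc 4 P) (hc 4 Q)

namespace E0

variable {P Q : MvPolynomial (Fin 2) k}

lemma symm (h : E0 P Q) : E0 Q P := ⟨h.hQ, h.hP, h.rel.symm⟩

lemma q_ne (h : E0 P Q) : hc 4 Q ≠ 0 := by
  intro h0
  have h1 : IsUnit (hc 4 P) := h.rel dvd_rfl (by rw [h0]; exact dvd_zero _)
  have h2 : (hc 4 P) ≠ 0 := h1.ne_zero
  have h3 := (hc_homog 4 P).totalDegree h2
  have h4 := (MvPolynomial.isUnit_iff_totalDegree_of_isReduced.mp h1).2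
  omega

lemma p_ne (h : E0 P Q) : hc 4 P ≠ 0 := h.symm.q_ne

lemma topsyz (h : E0 P Q) {n : ℕ} {a b : MvPolynomial (Fin 2) k} (ha : a.IsHomogeneous n)
    (he : a * hc 4 P + b * hc 4 Q = 0) :
    ∃ c, a = hc 4 Q * c ∧ b = -(hc 4 P * c) ∧ (c ≠ 0 → 4 + c.totalDegree = n) := by
  obtain ⟨c, h1, h2⟩ := split_prop' h.rel (u := -b) (v := a) (by linear_combination he)
  refine ⟨c, h2, by rw [← h1]; ring, ?_⟩
  intro hc0
  have h3 : a ≠ 0 := by rw [h2]; exact mul_ne_zero h.q_ne hc0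
  have h4 := ha.totalDegree h3
  rw [h2, totalDegree_mul_eq h.q_ne hc0, (hc_homog 4 Q).totalDegree h.q_ne] at h4
  exact h4

lemma subhc_mul {n : ℕ} {u P : MvPolynomial (Fin 2) k} (hu : Dle n u) (hP : Dle 4 P) :
    Dle (n + 3) ((u - hc n u) * P) := by
  rcases Nat.eq_zero_or_pos n with h0 | h0
  · subst h0
    rw [← hc_zero_eq hu, sub_self, zero_mul]; exact Dle.zero
  · obtain ⟨m, rfl⟩ := Nat.exists_eq_add_of_le' h0
    exact (sub_hcD hu).mul hP (by omega)

lemma top_zero (hP : Dle 4 P) (hQ : Dle 4 Q) {n : ℕ} {u v : MvPolynomial (Fin 2) k} (hu : Dle n u)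
    (hv : Dle n v) (hd : Dle (n + 3) (u * P + v * Q)) :
    hc n u * hc 4 P + hc n v * hc 4 Q = 0 := by
  apply homog_D0 (n := n + 4) (m := n + 3)
  · exact ((hc_homog n u).mul (hc_homog 4 P)).add ((hc_homog n v).mul (hc_homog 4 Q))
  · have e : hc n u * hc 4 P + hc n v * hc 4 Q = (u * P + v * Q) - (((u - hc n u) * P +
        hc n u * (P - hc 4 P)) + ((v - hc n v) * Q + hc n v * (Q - hc 4 Q))) := by ring
    rw [e]
    exact hd.sub (((subhc_mul hu hP).add ((homog_DG (hc_homog n u)).mul (sub_hcD hP) (by omega))).add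
      ((subhc_mul hv hQ).add ((homog_DG (hc_homog n v)).mul (sub_hcD hQ) (by omega))))
  · omega

lemma red1 (h : E0 P Q) {n : ℕ} {u v : MvPolynomial (Fin 2) k} (hu : Dle (n + 1) u)
    (hv : Dle (n + 1) v) (hd : Dle (n + 4) (u * P + v * Q)) :
    ∃ u' v', Dle n u' ∧ Dle n v' ∧ u' * P + v' * Q = u * P + v * Q := by
  have h1 := top_zero h.hP h.hQ hu hv hd
  obtain ⟨c, hc1, hc2, hc3⟩ := h.topsyz (hc_homog _ _) h1
  have hcd : ∀ R : MvPolynomial (Fin 2) k, Dle 3 R → Dle n (c * R) := by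
    intro R hR
    by_cases h0 : c = 0
    · rw [h0, zero_mul]; exact Dle.zero
    · have := hc3 h0
      have hc' : Dle c.totalDegree c := le_refl _
      exact hc'.mul hR (by omega)
  refine ⟨u - c * Q, v + c * P, ?_, ?_, by ring⟩
  · have e : u - c * Q = (u - hc (n + 1) u) - c * (Q - hc 4 Q) := by rw [hc1]; ring
    rw [e]
    exact (sub_hcD hu).sub (hcd _ (sub_hcD h.hQ))
  · have e : v + c * P = (v - hc (n + 1) v) + c * (P - hc 4 P) := by rw [hc2]; ring
    rw [e]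
    exact (sub_hcD hv).add (hcd _ (sub_hcD h.hP))

lemma red (h : E0 P Q) (n : ℕ) : ∀ d : ℕ, ∀ u v : MvPolynomial (Fin 2) k, Dle (n + d) u →
    Dle (n + d) v → Dle (n + 4) (u * P + v * Q) →
    ∃ u' v', Dle n u' ∧ Dle n v' ∧ u' * P + v' * Q = u * P + v * Q := by
  intro d
  induction d with
  | zero => intro u v hu hv _; exact ⟨u, v, hu, hv, rfl⟩
  | succ d ih =>
    intro u v hu hv hd
    obtain ⟨u', v', hu', hv', he⟩ := h.red1 (n := n + d) hu hv (hd.mono (by omega))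
    obtain ⟨u'', v'', h1, h2, h3⟩ := ih u' v' hu' hv' (by rw [he]; exact hd)
    exact ⟨u'', v'', h1, h2, h3.trans he⟩

lemma mem_red (h : E0 P Q) {n : ℕ} {F : MvPolynomial (Fin 2) k} (hF : F ∈ II P Q) (hd : Dle (n + 4) F) :
    ∃ u v, Dle n u ∧ Dle n v ∧ u * P + v * Q = F := by
  obtain ⟨u, v, rfl⟩ := mem_II.1 hF
  refine h.red n (u.totalDegree + v.totalDegree) u v ?_ ?_ hd
  · show u.totalDegree ≤ _; omega
  · show v.totalDegree ≤ _; omega

lemma inj3 (h : E0 P Q) (n : ℕ) : n ≤ 3 → ∀ u v : MvPolynomial (Fin 2) k, Dle n u → Dle n v →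
    Dle (3 : ℕ) (u * P + v * Q) → u = 0 ∧ v = 0 := by
  induction n with
  | zero =>
    intro _ u v hu hv he
    have h1 := top_zero h.hP h.hQ hu hv (by exact he)
    obtain ⟨c, hc1, hc2, hc3⟩ := h.topsyz (hc_homog _ _) h1
    have hc0 : c = 0 := by
      by_contra h0
      have := hc3 h0
      omega
    rw [hc0, mul_zero] at hc1
    rw [hc0, mul_zero, neg_zero] at hc2
    rw [hc_zero_eq hu, hc_zero_eq hv]
    exact ⟨hc1, hc2⟩
  | succ n ih =>
    intro hn u v hu hv he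
    have h1 := top_zero h.hP h.hQ hu hv (he.mono (by omega))
    obtain ⟨c, hc1, hc2, hc3⟩ := h.topsyz (hc_homog _ _) h1
    have hc0 : c = 0 := by
      by_contra h0
      have := hc3 h0
      omega
    rw [hc0, mul_zero] at hc1
    rw [hc0, mul_zero, neg_zero] at hc2
    have hu' := sub_hcD hu
    have hv' := sub_hcD hv
    rw [hc1, sub_zero] at hu'
    rw [hc2, sub_zero] at hv'
    exact ih (by omega) u v hu' hv' he

lemma eq_zero3 (h : E0 P Q) {F : MvPolynomial (Fin 2) k} (hF : F ∈ II P Q) (hd : Dle 3 F) : F = 0 := by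
  obtain ⟨u, v, hu, hv, he⟩ := h.mem_red (n := 0) hF (hd.mono (by norm_num))
  obtain ⟨h1, h2⟩ := h.inj3 0 (by norm_num) u v hu hv (by rw [he]; exact hd)
  rw [← he, h1, h2]; ring

/-- the space of combinations with cofactors of degree at most `d` -/
noncomputable def kk (P Q : MvPolynomial (Fin 2) k) (d : ℕ) : (Pl k d × Pl k d) →ₗ[k] MvPolynomial (Fin 2) k where
  toFun x := x.1.1 * P + x.2.1 * Q
  map_add' x y := by simp; ring
  map_smul' c x := by simp

lemma kk_apply (P Q : MvPolynomial (Fin 2) k) (d : ℕ) (x : Pl k d × Pl k d) :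
    kk P Q d x = x.1.1 * P + x.2.1 * Q := rfl

noncomputable abbrev KK (P Q : MvPolynomial (Fin 2) k) (d : ℕ) : Submodule k (MvPolynomial (Fin 2) k) :=
  LinearMap.range (kk P Q d)

lemma mem_KK {d : ℕ} {F : MvPolynomial (Fin 2) k} : F ∈ KK P Q d ↔ ∃ u v, Dle d u ∧ Dle d v ∧ u * P + v * Q = F := by
  constructor
  · rintro ⟨x, rfl⟩
    exact ⟨x.1.1, x.2.1, mem_Pl.1 x.1.2, mem_Pl.1 x.2.2, rfl⟩
  · rintro ⟨u, v, hu, hv, rfl⟩
    exact ⟨(⟨u, mem_Pl.2 hu⟩, ⟨v, mem_Pl.2 hv⟩), rfl⟩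

lemma finrank_KK (h : E0 P Q) {d : ℕ} (hd : d ≤ 3) :
    Module.finrank k (KK P Q d) = (d + 1) * (d + 2) := by
  have hinj : Function.Injective (kk P Q d) := by
    rw [injective_iff_map_eq_zero]
    rintro ⟨⟨u, hu⟩, ⟨v, hv⟩⟩ he
    have he' : u * P + v * Q = 0 := he
    obtain ⟨h1, h2⟩ := h.inj3 d hd u v (mem_Pl.1 hu) (mem_Pl.1 hv) (by rw [he']; exact Dle.zero)
    subst h1 h2
    rfl
  rw [LinearMap.finrank_range_of_inj hinj, Module.finrank_prod, ← finrank_Pl (k := k) d]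
  ring

lemma KK_le (h : E0 P Q) (d : ℕ) : KK P Q d ≤ Pl k (d + 4) := by
  intro F hF
  obtain ⟨u, v, hu, hv, rfl⟩ := mem_KK.1 hF
  exact mem_Pl.2 ((hu.mul h.hP (by omega)).add (hv.mul h.hQ (by omega)))

lemma KK_II {d : ℕ} {F : MvPolynomial (Fin 2) k} (hF : F ∈ KK P Q d) : F ∈ II P Q := by
  obtain ⟨u, v, _, _, rfl⟩ := mem_KK.1 hF
  exact mem_II.2 ⟨u, v, rfl⟩

lemma inf_eq (h : E0 P Q) (d : ℕ) : Pl k (d + 4) ⊓ KK P Q (d + 1) = KK P Q d := by
  apply le_antisymm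
  · rintro F ⟨h1, h2⟩
    obtain ⟨u, v, hu, hv, he⟩ := h.mem_red (KK_II h2) (mem_Pl.1 h1)
    exact mem_KK.2 ⟨u, v, hu, hv, he⟩
  · intro F hF
    refine ⟨h.KK_le d hF, ?_⟩
    obtain ⟨u, v, hu, hv, he⟩ := mem_KK.1 hF
    exact mem_KK.2 ⟨u, v, hu.mono (by omega), hv.mono (by omega), he⟩

instance (d : ℕ) : FiniteDimensional k (KK P Q d) := by unfold KK; infer_instance

lemma sup7 (h : E0 P Q) : Pl k 6 ⊔ KK P Q 3 = Pl k 7 := by
  apply Submodule.eq_of_le_of_finrank_eq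
  · apply sup_le
    · intro F hF
      exact mem_Pl.2 ((mem_Pl.1 hF).trans (by norm_num))
    · exact h.KK_le 3
  · have e1 := Submodule.finrank_sup_add_finrank_inf_eq (Pl k 6) (KK P Q 3)
    have e2 := h.inf_eq 2
    rw [e2, h.finrank_KK (by norm_num), h.finrank_KK (by norm_num)] at e1
    have e3 := finrank_Pl (k := k) 6
    have e4 := finrank_Pl (k := k) 7
    omega

lemma finrank_sup6 (h : E0 P Q) : Module.finrank k (Pl k 5 ⊔ KK P Q 2 : Submodule k (MvPolynomial (Fin 2) k)) = 27 := by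
  have e1 := Submodule.finrank_sup_add_finrank_inf_eq (Pl k 5) (KK P Q 2)
  have e2 := h.inf_eq 1
  rw [e2, h.finrank_KK (by norm_num), h.finrank_KK (by norm_num)] at e1
  have e3 := finrank_Pl (k := k) 5
  omega

/-- every polynomial is of degree at most six modulo the ideal -/
lemma rep6 (h : E0 P Q) (F : MvPolynomial (Fin 2) k) : ∃ G, Dle 6 G ∧ F - G ∈ II P Q := by
  induction F using MvPolynomial.induction_on with
  | C a => exact ⟨C a, Dle.C a, by rw [sub_self]; exact Ideal.zero_mem _⟩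
  | add p q hp hq =>
    obtain ⟨G1, h1, h2⟩ := hp
    obtain ⟨G2, h3, h4⟩ := hq
    refine ⟨G1 + G2, h1.add h3, ?_⟩
    have e : p + q - (G1 + G2) = (p - G1) + (q - G2) := by ring
    rw [e]; exact Ideal.add_mem _ h2 h4
  | mul_X p i hp =>
    obtain ⟨G, h1, h2⟩ := hp
    have h3 : G * X i ∈ Pl k 6 ⊔ KK P Q 3 := by
      rw [h.sup7]; exact mem_Pl.2 (h1.mul (Dle.X le_rfl i) (by omega))
    obtain ⟨G', hG', K, hK, he⟩ := Submodule.mem_sup.1 h3
    refine ⟨G', mem_Pl.1 hG', ?_⟩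
    have e : p * X i - G' = X i * (p - G) + K := by linear_combination (-1 : MvPolynomial (Fin 2) k) * he
    rw [e]
    exact Ideal.add_mem _ (Ideal.mul_mem_left _ _ h2) (KK_II hK)

end E0

end Run7.h256
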