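import Mathlib
import Pool.Agent.Run7.h256.W1

set_option autoImplicit false

namespace Run7.h256

open MvPolynomial

variable {k : Type*} [Field k]

/-- unnormalized residue functional -/
structure Rs0 (P Q : MvPolynomial (Fin 2) k) (L : MvPolynomial (Fin 2) k →ₗ[k] k) : Prop where
  low : ∀ F, Dle 5 F → L F = 0
  ker : ∀ F ∈ II P Q, L F = 0
  ne : L ≠ 0

namespace E0

variable {P Q : MvPolynomial (Fin 2) k}

lemma exists_Rs0 (h : E0 P Q) : ∃ L, Rs0 P Q L := by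
  obtain ⟨J, hJ⟩ : ∃ J : Submodule k (MvPolynomial (Fin 2) k), J = (II P Q).restrictScalars k := ⟨_, rfl⟩
  have hJm : ∀ F, F ∈ J ↔ F ∈ II P Q := by intro F; rw [hJ]; exact Submodule.restrictScalars_mem _ _ _
  have hlt : J ⊔ Pl k 5 < ⊤ := by
    rw [lt_top_iff_ne_top]
    intro htop
    have h1 : Pl k 6 ≤ Pl k 5 ⊔ KK P Q 2 := by
      intro F hF
      have h2 : F ∈ J ⊔ Pl k 5 := by rw [htop]; exact Submodule.mem_top
      obtain ⟨i, hi, g, hg, he⟩ := Submodule.mem_sup.1 h2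
      have h3 : Dle (2 + 4) i := by
        have : i = F - g := by rw [← he]; ring
        rw [this]
        exact Dle.sub (mem_Pl.1 hF) ((mem_Pl.1 hg).trans (by norm_num))
      obtain ⟨u, v, hu, hv, he'⟩ := h.mem_red ((hJm i).1 hi) h3
      exact Submodule.mem_sup.2 ⟨g, hg, i, mem_KK.2 ⟨u, v, hu, hv, he'⟩, by rw [← he]; ring⟩
    have h2 := Submodule.finrank_mono h1
    have h3 := finrank_Pl (k := k) 6
    rw [h.finrank_sup6] at h2
    omega
  obtain ⟨f, hf0, hf⟩ := Submodule.exists_le_ker_of_lt_top _ hlt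
  refine ⟨f, ?_, ?_, hf0⟩
  · intro F hF
    exact hf (Submodule.mem_sup_right (mem_Pl.2 hF))
  · intro F hF
    exact hf (Submodule.mem_sup_left ((hJm F).2 hF))

lemma top6 (h : E0 P Q) {L : MvPolynomial (Fin 2) k →ₗ[k] k} (hL : Rs0 P Q L) {F : MvPolynomial (Fin 2) k}
    (hF : Dle 6 F) (h0 : L F = 0) : ∃ F', Dle 5 F' ∧ F - F' ∈ II P Q := by
  obtain ⟨G, hG⟩ : ∃ G, Dle 6 G ∧ L G ≠ 0 := by
    by_contra hcon
    push Not at hcon
    apply hL.ne
    refine LinearMap.ext (fun (F : MvPolynomial (Fin 2) k) => ?_)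
    obtain ⟨G, hG, hG'⟩ := h.rep6 F
    have h1 := hL.ker _ hG'
    rw [map_sub, hcon G hG, sub_zero] at h1
    rw [h1]; rfl
  have h1 : Pl k 5 ⊔ KK P Q 2 ≤ Pl k 6 ⊓ LinearMap.ker L := by
    apply sup_le
    · intro F hF
      exact ⟨mem_Pl.2 ((mem_Pl.1 hF).trans (by norm_num)), hL.low F (mem_Pl.1 hF)⟩
    · intro F hF
      exact ⟨h.KK_le 2 hF, hL.ker F (KK_II hF)⟩
  have h2 : Pl k 6 ⊓ LinearMap.ker L < Pl k 6 := by
    refine lt_of_le_of_ne inf_le_left ?_
    intro he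
    have h3 : G ∈ Pl k 6 ⊓ LinearMap.ker L := by rw [he]; exact mem_Pl.2 hG.1
    exact hG.2 h3.2
  have h3 := Submodule.finrank_lt_finrank_of_lt h2
  have h4 := finrank_Pl (k := k) 6
  have : FiniteDimensional k (Pl k 6 ⊓ LinearMap.ker L : Submodule k (MvPolynomial (Fin 2) k)) :=
    Submodule.finiteDimensional_of_le (inf_le_left (a := Pl k 6))
  have h5 : Pl k 5 ⊔ KK P Q 2 = Pl k 6 ⊓ LinearMap.ker L := by
    apply Submodule.eq_of_le_of_finrank_le h1
    rw [h.finrank_sup6]; omega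
  have h6 : F ∈ Pl k 5 ⊔ KK P Q 2 := by
    rw [h5]; exact ⟨mem_Pl.2 hF, h0⟩
  obtain ⟨g, hg, i, hi, he⟩ := Submodule.mem_sup.1 h6
  refine ⟨g, mem_Pl.1 hg, ?_⟩
  rw [← he, add_sub_cancel_left]
  exact KK_II hi

lemma socle_low (h : E0 P Q) {d : ℕ} (hd : d < 3) {F G : MvPolynomial (Fin 2) k} (hF : Dle d F)
    (hG : Dle d G) (h0 : X 0 * F - G ∈ II P Q) : X 0 * F = G := by
  have h1 := h.eq_zero3 h0 ((Dle.mul (Dle.X le_rfl 0) hF (by omega)).sub (hG.mono (by omega)))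
  linear_combination h1

lemma socle_zero (h : E0 P Q) {F G : MvPolynomial (Fin 2) k} (hF : Dle 0 F)
    (hG : Dle 0 G) (h0 : X 0 * F - G ∈ II P Q) : F = 0 := by
  have h1 := h.socle_low (by norm_num) hF hG h0
  by_contra h2
  have h3 : Dle 0 (X 0 * F) := by rw [h1]; exact hG
  unfold Dle at h3
  rw [totalDegree_mul_eq (X_ne_zero 0) h2, totalDegree_X] at h3
  omega

lemma socle_succ (h : E0 P Q) {n : ℕ} (hn : n + 1 ≤ 5) {F G0 G1 : MvPolynomial (Fin 2) k}
    (hF : Dle (n + 1) F) (hG0 : Dle (n + 1) G0) (hG1 : Dle (n + 1) G1) (h0 : X 0 * F - G0 ∈ II P Q)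
    (h1 : X 1 * F - G1 ∈ II P Q) : ∃ F', Dle n F' ∧ F - F' ∈ II P Q := by
  by_cases hd : n + 1 < 3
  · refine ⟨F, ?_, by rw [sub_self]; exact Ideal.zero_mem _⟩
    have h2 := h.socle_low hd hF hG0 h0
    apply CI16.Dle_of_X_mul
    rw [h2]; exact hG0
  · obtain ⟨m, rfl⟩ : ∃ m, n = m + 2 := ⟨n - 2, by omega⟩
    have key : ∀ i : Fin 2, ∀ G, Dle (m + 2 + 1) G → X i * F - G ∈ II P Q → ∃ a b : MvPolynomial (Fin 2) k,
        a.IsHomogeneous m ∧ b.IsHomogeneous m ∧ X i * hc (m + 3) F = a * hc 4 P + b * hc 4 Q := by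
      intro i G hG hGI
      have d1 : Dle (m + 4) (X i * F - G) := (Dle.mul (Dle.X le_rfl i) hF (by omega)).sub (hG.mono (by omega))
      obtain ⟨u, v, hu, hv, he⟩ := h.mem_red hGI d1
      refine ⟨hc m u, hc m v, hc_homog _ _, hc_homog _ _, ?_⟩
      rw [← sub_eq_zero]
      apply homog_D0 (n := m + 4) (m := m + 3)
      · have t1 := (isHomogeneous_X k i).mul (hc_homog (m + 3) F)
        rw [show 1 + (m + 3) = m + 4 by omega] at t1
        exact t1.sub (((hc_homog m u).mul (hc_homog 4 P)).add ((hc_homog m v).mul (hc_homog 4 Q)))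
      · have e : X i * hc (m + 3) F - (hc m u * hc 4 P + hc m v * hc 4 Q) =
            -(X i * (F - hc (m + 3) F)) + G + (((u - hc m u) * P + hc m u * (P - hc 4 P)) +
              ((v - hc m v) * Q + hc m v * (Q - hc 4 Q))) := by
          linear_combination (-1 : MvPolynomial (Fin 2) k) * he
        rw [e]
        have t2 : Dle (m + 2) (F - hc (m + 3) F) := sub_hcD (n := m + 2) hF
        exact (((Dle.X le_rfl i).mul t2 (by omega)).neg.add hG).add
          (((subhc_mul hu h.hP).add ((homog_DG (hc_homog m u)).mul (sub_hcD h.hP) (by omega))).add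
          ((subhc_mul hv h.hQ).add ((homog_DG (hc_homog m v)).mul (sub_hcD h.hQ) (by omega))))
      · omega
    obtain ⟨a0, b0, ha0, hb0, e0⟩ := key 0 G0 hG0 h0
    obtain ⟨a1, b1, ha1, hb1, e1⟩ := key 1 G1 hG1 h1
    have hh : (X 1 * a0 - X 0 * a1).IsHomogeneous (m + 1) := by
      have t1 := (isHomogeneous_X k (1 : Fin 2)).mul ha0
      have t2 := (isHomogeneous_X k (0 : Fin 2)).mul ha1
      rw [add_comm 1 m] at t1 t2
      exact t1.sub t2
    obtain ⟨c, hc1, hc2, hc3⟩ := h.topsyz (b := X 1 * b0 - X 0 * b1) hh (by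
      linear_combination X 0 * e1 - X 1 * e0)
    have hc0 : c = 0 := by
      by_contra h3
      have := hc3 h3
      omega
    rw [hc0, mul_zero] at hc1
    rw [hc0, mul_zero, neg_zero] at hc2
    obtain ⟨a, ea0, ea1⟩ := split_prop' (relPrime_X01 (k := k)) (u := a0) (v := a1) (by linear_combination -hc1)
    obtain ⟨b, eb0, eb1⟩ := split_prop' (relPrime_X01 (k := k)) (u := b0) (v := b1) (by linear_combination -hc2)
    have hFd : hc (m + 3) F = a * hc 4 P + b * hc 4 Q := by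
      apply mul_left_cancel₀ (X_ne_zero (R := k) (0 : Fin 2))
      rw [e0, ea0, eb0]; ring
    have hdeg : ∀ a a0 R : MvPolynomial (Fin 2) k, a0.IsHomogeneous m → a0 = X 0 * a → Dle 3 R →
        Dle (m + 2) (a * R) := by
      intro a a0 R h3 h4 hR
      by_cases ha : a = 0
      · rw [ha, zero_mul]; exact Dle.zero
      · have h5 : Dle m a0 := homog_DG h3
        unfold Dle at h5
        rw [h4, totalDegree_mul_eq (X_ne_zero 0) ha, totalDegree_X] at h5
        have h6 : Dle a.totalDegree a := le_refl _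
        exact h6.mul hR (by omega)
    refine ⟨F - (a * P + b * Q), ?_, ?_⟩
    · have e : F - (a * P + b * Q) = (F - hc (m + 3) F) - (a * (P - hc 4 P) + b * (Q - hc 4 Q)) := by
        rw [hFd]; ring
      rw [e]
      exact (sub_hcD (n := m + 2) hF).sub ((hdeg a a0 _ ha0 ea0 (sub_hcD h.hP)).add
        (hdeg b b0 _ hb0 eb0 (sub_hcD h.hQ)))
    · have e : F - (F - (a * P + b * Q)) = a * P + b * Q := by ring
      rw [e]
      exact mem_II.2 ⟨a, b, rfl⟩

/-- degree reduction in the annihilator of the functional -/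
lemma lower (h : E0 P Q) {L : MvPolynomial (Fin 2) k →ₗ[k] k} (hL : Rs0 P Q L) (m : ℕ) : m ≤ 5 →
    ∀ F, Dle (6 - m) F → (∀ G, L (F * G) = 0) → ∃ F', Dle (5 - m) F' ∧ F - F' ∈ II P Q := by
  induction m with
  | zero =>
    intro _ F hF hW
    exact h.top6 hL hF (by simpa using hW 1)
  | succ m ih =>
    intro hm F hF hW
    have hX : ∀ i : Fin 2, ∃ G, Dle (5 - m) G ∧ X i * F - G ∈ II P Q := by
      intro i
      apply ih (by omega)
      · exact (Dle.X le_rfl i).mul hF (by omega)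
      · intro G
        have e : X i * F * G = F * (X i * G) := by ring
        rw [e]; exact hW _
    obtain ⟨G0, hG0, h0⟩ := hX 0
    obtain ⟨G1, hG1, h1⟩ := hX 1
    obtain ⟨n, hn⟩ : ∃ n, 5 - m = n + 1 := ⟨4 - m, by omega⟩
    rw [hn] at hG0 hG1
    have e1 : 6 - (m + 1) = n + 1 := by omega
    have e2 : 5 - (m + 1) = n := by omega
    rw [e1] at hF
    rw [e2]
    exact h.socle_succ (by omega) hF hG0 hG1 h0 h1

/-- the functional is nondegenerate modulo the ideal -/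
theorem nondeg (h : E0 P Q) {L : MvPolynomial (Fin 2) k →ₗ[k] k} (hL : Rs0 P Q L)
    {F : MvPolynomial (Fin 2) k} (hW : ∀ G, L (F * G) = 0) : F ∈ II P Q := by
  have hred : ∀ F F' : MvPolynomial (Fin 2) k, F - F' ∈ II P Q → (∀ G, L (F * G) = 0) →
      ∀ G, L (F' * G) = 0 := by
    intro F F' h1 h2 G
    have h3 := hL.ker _ (Ideal.mul_mem_right G _ h1)
    rw [sub_mul, map_sub, h2, zero_sub, neg_eq_zero] at h3
    exact h3
  have hst : ∀ m : ℕ, m ≤ 6 → ∃ F', Dle (6 - m) F' ∧ F - F' ∈ II P Q ∧ ∀ G, L (F' * G) = 0 := by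
    intro m
    induction m with
    | zero =>
      intro _
      obtain ⟨F', h1, h2⟩ := h.rep6 F
      exact ⟨F', h1, h2, hred F F' h2 hW⟩
    | succ m ih =>
      intro hm
      obtain ⟨F', h1, h2, h3⟩ := ih (by omega)
      obtain ⟨F'', h4, h5⟩ := h.lower hL m (by omega) F' h1 h3
      refine ⟨F'', ?_, ?_, hred F' F'' h5 h3⟩
      · have : 6 - (m + 1) = 5 - m := by omega
        rw [this]; exact h4
      · have e : F - F'' = (F - F') + (F' - F'') := by ring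
        rw [e]; exact Ideal.add_mem _ h2 h5
  obtain ⟨F0, h1, h2, h3⟩ := hst 6 le_rfl
  obtain ⟨G0, hG0, h4⟩ := h.lower hL 5 le_rfl (X 0 * F0) ((Dle.X le_rfl 0).mul h1 (by omega)) (by
    intro G
    have e : X 0 * F0 * G = F0 * (X 0 * G) := by ring
    rw [e]; exact h3 _)
  have h5 := h.socle_zero h1 hG0 h4
  rw [h5, sub_zero] at h2
  exact h2

end E0

/-- Bezoutians -/
lemma bez {P Q : MvPolynomial (Fin 2) k} (hP : Dle 4 P) (hQ : Dle 4 Q) :
    ∃ A B A₂ B₂ : MvPolynomial (Fin 2) k, ∃ c c₂ : k, Dle 3 A ∧ Dle 3 B ∧ Dle 3 A₂ ∧ Dle 3 B₂ ∧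
      P = X 0 * A + X 1 * B + C c ∧ Q = X 0 * A₂ + X 1 * B₂ + C c₂ ∧
      ∀ w, eval w P = 0 → eval w Q = 0 → ∃ Δ : MvPolynomial (Fin 2) k, Dle 6 Δ ∧
        Dle 5 (Δ - (A * B₂ - B * A₂)) ∧ eval w Δ = eval w (Jac P Q) ∧
        (∀ F, F * Δ - C (eval w F) * Δ ∈ II P Q) := by
  have step : ∀ F A B : MvPolynomial (Fin 2) k, ∀ c : k, Dle 3 A → Dle 3 B → F = X 0 * A + X 1 * B + C c →
      ∀ w : Fin 2 → k, ∃ A' B' : MvPolynomial (Fin 2) k, Dle 2 A' ∧ Dle 2 B' ∧
      F - C (eval w F) = (X 0 - C (w 0)) * (A + A') + (X 1 - C (w 1)) * (B + B') := by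
    intro F A B c hA hB hc w
    obtain ⟨A', B', hA', hB', h'⟩ := dec_at 2 (C (w 0) * A + C (w 1) * B + C c - C (eval w F))
      ((((Dle.C (n := 0) _).mul hA (by omega)).add ((Dle.C (n := 0) _).mul hB (by omega))).add
        (Dle.C _) |>.sub (Dle.C _)) w
    refine ⟨A', B', hA', hB', ?_⟩
    have e0 : eval w (C (w 0) * A + C (w 1) * B + C c - C (eval w F)) = 0 := by
      rw [hc]
      simp
    rw [e0, C_0, sub_zero] at h'
    have h2 : F - C (eval w F) = X 0 * A + X 1 * B + C c - C (eval w F) := by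
      conv_lhs => rw [hc]
      rw [← hc]
    rw [h2]
    linear_combination h'
  obtain ⟨A, B, c, hA, hB, hc⟩ := dec (d := 3) hP
  obtain ⟨A₂, B₂, c₂, hA₂, hB₂, hc₂⟩ := dec (d := 3) hQ
  refine ⟨A, B, A₂, B₂, c, c₂, hA, hB, hA₂, hB₂, hc, hc₂, ?_⟩
  intro w hwP hwQ
  obtain ⟨A', B', hA', hB', hP'⟩ := step P A B c hA hB hc w
  obtain ⟨A₂', B₂', hA₂', hB₂', hQ'⟩ := step Q A₂ B₂ c₂ hA₂ hB₂ hc₂ w
  rw [hwP, C_0, sub_zero] at hP'
  rw [hwQ, C_0, sub_zero] at hQ'
  have a1 := hA.add (hA'.mono (show 2 ≤ 3 by norm_num))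
  have a2 := hB.add (hB'.mono (show 2 ≤ 3 by norm_num))
  have a3 := hA₂.add (hA₂'.mono (show 2 ≤ 3 by norm_num))
  have a4 := hB₂.add (hB₂'.mono (show 2 ≤ 3 by norm_num))
  refine ⟨(A + A') * (B₂ + B₂') - (B + B') * (A₂ + A₂'), (a1.mul a4 (by omega)).sub (a2.mul a3 (by omega)),
    ?_, ?_, ?_⟩
  · have e : (A + A') * (B₂ + B₂') - (B + B') * (A₂ + A₂') - (A * B₂ - B * A₂) =
          A * B₂' + A' * (B₂ + B₂') - (B * A₂' + B' * (A₂ + A₂')) := by ring
    rw [e]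
    exact ((hA.mul hB₂' (by omega)).add (hA'.mul a4 (by omega))).sub ((hB.mul hA₂' (by omega)).add (hB'.mul a3 (by omega)))
  · simp only [Jac]
    conv_rhs => rw [hP', hQ']
    simp [pderiv_X]
  · intro F
    have h0 : (X 0 - C (w 0)) * ((A + A') * (B₂ + B₂') - (B + B') * (A₂ + A₂')) ∈ II P Q := by
      refine mem_II.2 ⟨B₂ + B₂', -(B + B'), ?_⟩
      conv_lhs => rw [hP', hQ']
      ring
    have h1 : (X 1 - C (w 1)) * ((A + A') * (B₂ + B₂') - (B + B') * (A₂ + A₂')) ∈ II P Q := by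
      refine mem_II.2 ⟨-(A₂ + A₂'), A + A', ?_⟩
      conv_lhs => rw [hP', hQ']
      ring
    obtain ⟨G0, G1, _, _, hG⟩ := dec_at F.totalDegree F (by show F.totalDegree ≤ _; omega) w
    have e : F * ((A + A') * (B₂ + B₂') - (B + B') * (A₂ + A₂')) -
        C (eval w F) * ((A + A') * (B₂ + B₂') - (B + B') * (A₂ + A₂')) =
        G0 * ((X 0 - C (w 0)) * ((A + A') * (B₂ + B₂') - (B + B') * (A₂ + A₂'))) +
        G1 * ((X 1 - C (w 1)) * ((A + A') * (B₂ + B₂') - (B + B') * (A₂ + A₂'))) := by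
      linear_combination ((A + A') * (B₂ + B₂') - (B + B') * (A₂ + A₂')) * hG
    rw [e]
    exact Ideal.add_mem _ (Ideal.mul_mem_left _ _ h0) (Ideal.mul_mem_left _ _ h1)

end Run7.h256
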