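import Mathlib
import Pool.Agent.Run7.h256.W2

set_option autoImplicit false

namespace Run7.h256

open MvPolynomial

variable {k : Type*} [Field k]

lemma L_Ck (L : MvPolynomial (Fin 2) k →ₗ[k] k) (a : k) (F : MvPolynomial (Fin 2) k) :
    L (C a * F) = a * L F := by
  rw [← smul_eq_C_mul, map_smul, smul_eq_mul]

lemma eulerk {n : ℕ} {F : MvPolynomial (Fin 2) k} (h : F.IsHomogeneous n) :
    X 0 * pderiv 0 F + X 1 * pderiv 1 F = (n : MvPolynomial (Fin 2) k) * F := by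
  have := h.sum_X_mul_pderiv
  rw [Fin.sum_univ_two, nsmul_eq_mul] at this
  exact this

/-- residue functional -/
structure Rs (P Q : MvPolynomial (Fin 2) k) (L : MvPolynomial (Fin 2) k →ₗ[k] k) : Prop where
  low : ∀ F, Dle 5 F → L F = 0
  ker : ∀ F ∈ II P Q, L F = 0
  LJ : L (Jac (hc 4 P) (hc 4 Q)) = 16

/-- comparison of the gradient with a decomposition -/
lemma grad_dec {P A B : MvPolynomial (Fin 2) k} {c : k} (hP : Dle 4 P) (hA : Dle 3 A) (hB : Dle 3 B)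
    (eP : P = X 0 * A + X 1 * B + C c) : ∃ κ U V : MvPolynomial (Fin 2) k, Dle 2 κ ∧ Dle 2 U ∧ Dle 2 V ∧
      C 4 * A = pderiv 0 (hc 4 P) + X 1 * κ + U ∧ C 4 * B = pderiv 1 (hc 4 P) - X 0 * κ + V := by
  have dp : Dle 4 (hc 4 P) := homog_DG (hc_homog 4 P)
  have d0 : ∀ i, Dle 3 (pderiv i (hc 4 P)) := fun i => Dle.pderiv (n := 3) dp i
  obtain ⟨U, hU⟩ : ∃ U, U = C 4 * A - pderiv 0 (hc 4 P) := ⟨_, rfl⟩
  obtain ⟨V, hV⟩ : ∃ V, V = C 4 * B - pderiv 1 (hc 4 P) := ⟨_, rfl⟩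
  have dU : Dle 3 U := by rw [hU]; exact ((Dle.C (n := 0) 4).mul hA (by omega)).sub (d0 0)
  have dV : Dle 3 V := by rw [hV]; exact ((Dle.C (n := 0) 4).mul hB (by omega)).sub (d0 1)
  have he := eulerk (hc_homog 4 P)
  have c4 : (C 4 : MvPolynomial (Fin 2) k) = 4 := map_ofNat C 4
  have hUV : X 0 * U + X 1 * V = C 4 * (P - hc 4 P) - C 4 * C c := by
    rw [hU, hV]
    push_cast at he
    rw [c4]
    linear_combination (-1 : MvPolynomial (Fin 2) k) * he - 4 * eP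
  have htop : X 0 * hc 3 U + X 1 * hc 3 V = 0 := by
    apply homog_D0 (n := 4) (m := 3)
    · exact ((isHomogeneous_X k 0).mul (hc_homog 3 U)).add ((isHomogeneous_X k 1).mul (hc_homog 3 V))
    · have e : X 0 * hc 3 U + X 1 * hc 3 V = C 4 * (P - hc 4 P) - C 4 * C c -
          (X 0 * (U - hc 3 U) + X 1 * (V - hc 3 V)) := by linear_combination hUV
      rw [e]
      exact (((Dle.C (n := 0) 4).mul (sub_hcD hP) (by omega)).sub
        ((Dle.C (n := 0) 4).mul (Dle.C (n := 0) c) (by omega))).sub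
        (((Dle.X le_rfl 0).mul (sub_hcD (n := 2) dU) (by omega)).add
          ((Dle.X le_rfl 1).mul (sub_hcD (n := 2) dV) (by omega)))
    · norm_num
  obtain ⟨κ, h1, h2⟩ := split_prop' (relPrime_X01 (k := k)) (u := -hc 3 V) (v := hc 3 U)
    (by linear_combination htop)
  refine ⟨κ, U - hc 3 U, V - hc 3 V, ?_, sub_hcD (n := 2) dU, sub_hcD (n := 2) dV, ?_, ?_⟩
  · have h3 : Dle 3 (X 1 * κ) := by rw [← h2]; exact homog_DG (hc_homog 3 U)
    by_cases hκ : κ = 0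
    · rw [hκ]; exact Dle.zero
    · unfold Dle at h3 ⊢
      rw [totalDegree_mul_eq (X_ne_zero 1) hκ, totalDegree_X] at h3
      omega
  · rw [hU] at h2 ⊢; linear_combination h2
  · rw [hV] at h1 ⊢; linear_combination (-1 : MvPolynomial (Fin 2) k) * h1

lemma LJ_rel {P Q A B A₂ B₂ : MvPolynomial (Fin 2) k} {c c₂ : k} (hP : Dle 4 P) (hQ : Dle 4 Q)
    (hA : Dle 3 A) (hB : Dle 3 B) (hA₂ : Dle 3 A₂) (hB₂ : Dle 3 B₂) (eP : P = X 0 * A + X 1 * B + C c)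
    (eQ : Q = X 0 * A₂ + X 1 * B₂ + C c₂) {L : MvPolynomial (Fin 2) k →ₗ[k] k}
    (low : ∀ F, Dle 5 F → L F = 0) (ker : ∀ F ∈ II P Q, L F = 0) :
    L (Jac (hc 4 P) (hc 4 Q)) = 16 * L (A * B₂ - B * A₂) := by
  obtain ⟨κ, U, V, dκ, dU, dV, e1, e2⟩ := grad_dec hP hA hB eP
  obtain ⟨κ', U', V', dκ', dU', dV', e3, e4⟩ := grad_dec hQ hA₂ hB₂ eQ
  have he := eulerk (hc_homog 4 P)
  have he' := eulerk (hc_homog 4 Q)
  push_cast at he he'
  have c16 : (C 16 : MvPolynomial (Fin 2) k) = 16 := map_ofNat C 16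
  have c4 : (C 4 : MvPolynomial (Fin 2) k) = 4 := map_ofNat C 4
  rw [c4] at e1 e2 e3 e4
  have key : Jac (hc 4 P) (hc 4 Q) = C 16 * (A * B₂ - B * A₂) +
      (C 4 * (κ' * hc 4 P) - C 4 * (κ * hc 4 Q) -
      (((pderiv 0 (hc 4 P) + X 1 * κ) * V' + U * (pderiv 1 (hc 4 Q) - X 0 * κ' + V')) -
        ((pderiv 1 (hc 4 P) - X 0 * κ) * U' + V * (pderiv 0 (hc 4 Q) + X 1 * κ' + U')))) := by
    unfold Jac
    rw [c16, c4]
    linear_combination κ' * he - κ * he' - (4 * B₂) * e1 - (pderiv 0 (hc 4 P) + X 1 * κ + U) * e4 +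
      (4 * A₂) * e2 + (pderiv 1 (hc 4 P) - X 0 * κ + V) * e3
  have dp : Dle 4 (hc 4 P) := homog_DG (hc_homog 4 P)
  have dq : Dle 4 (hc 4 Q) := homog_DG (hc_homog 4 Q)
  have d0 : ∀ i, Dle 3 (pderiv i (hc 4 P)) := fun i => Dle.pderiv (n := 3) dp i
  have d1 : ∀ i, Dle 3 (pderiv i (hc 4 Q)) := fun i => Dle.pderiv (n := 3) dq i
  have hz : ∀ (R T : MvPolynomial (Fin 2) k), Dle 2 R → Dle 4 T → (∀ F, F * T ∈ II P Q) →
      L (R * hc 4 T) = 0 := by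
    intro R T hR hT hTI
    have e : R * hc 4 T = R * T - R * (T - hc 4 T) := by ring
    rw [e, map_sub, ker _ (hTI R), low _ (hR.mul (sub_hcD hT) (by omega)), sub_zero]
  have X1 : ∀ (i : Fin 2) (F : MvPolynomial (Fin 2) k), Dle 2 F → Dle 3 (X i * F) := fun i F hF =>
    (Dle.X le_rfl i).mul hF (by omega)
  obtain ⟨W, hW⟩ : ∃ W, W = A * B₂ - B * A₂ := ⟨_, rfl⟩
  obtain ⟨E, hE⟩ : ∃ E, E = (((pderiv 0 (hc 4 P) + X 1 * κ) * V' + U * (pderiv 1 (hc 4 Q) - X 0 * κ' + V')) -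
        ((pderiv 1 (hc 4 P) - X 0 * κ) * U' + V * (pderiv 0 (hc 4 Q) + X 1 * κ' + U'))) := ⟨_, rfl⟩
  have dE : Dle 5 E := by
    rw [hE]
    refine (((d0 0).add (X1 1 κ dκ)).mul dV' (by omega)).add (dU.mul (((d1 1).sub (X1 0 κ' dκ')).add
      (dV'.mono (by norm_num))) (by omega)) |>.sub ?_
    exact (((d0 1).sub (X1 0 κ dκ)).mul dU' (by omega)).add (dV.mul (((d1 0).add (X1 1 κ' dκ')).add
      (dU'.mono (by norm_num))) (by omega))
  rw [← hW, ← hE] at key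
  rw [← hW, key, map_add, L_Ck, map_sub, map_sub, L_Ck, L_Ck, hz κ' P dκ' hP (II_P P Q),
    hz κ Q dκ hQ (II_Q P Q), low E dE]
  ring

namespace Rs

variable {P Q : MvPolynomial (Fin 2) k} {L : MvPolynomial (Fin 2) k →ₗ[k] k}

lemma bz [CharZero k] (h : Rs P Q L) (hP : Dle 4 P) (hQ : Dle 4 Q) {w : Fin 2 → k} (hwP : eval w P = 0)
    (hwQ : eval w Q = 0) : ∃ Δ : MvPolynomial (Fin 2) k, Dle 6 Δ ∧ L Δ = 1 ∧
      eval w Δ = eval w (Jac P Q) ∧ (∀ F, F * Δ - C (eval w F) * Δ ∈ II P Q) := by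
  obtain ⟨A, B, A₂, B₂, c, c₂, hA, hB, hA₂, hB₂, eP, eQ, hb⟩ := bez hP hQ
  obtain ⟨Δ, h1, h2, h3, h4⟩ := hb w hwP hwQ
  refine ⟨Δ, h1, ?_, h3, h4⟩
  have h5 := LJ_rel hP hQ hA hB hA₂ hB₂ eP eQ h.low h.ker
  rw [h.LJ] at h5
  have h6 := h.low _ h2
  rw [map_sub, sub_eq_zero] at h6
  rw [h6]
  have h16 : (16 : k) ≠ 0 := by norm_num
  have : (16 : k) * (L (A * B₂ - B * A₂) - 1) = 0 := by linear_combination -h5
  have := (mul_eq_zero.1 this).resolve_left h16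
  linear_combination this

lemma rs0 [CharZero k] (h : Rs P Q L) : Rs0 P Q L := by
  refine ⟨h.low, h.ker, ?_⟩
  rintro rfl
  have := h.LJ
  simp at this

lemma mulDelta (h : Rs P Q L) {w : Fin 2 → k} {Δ : MvPolynomial (Fin 2) k} (h1 : L Δ = 1)
    (h2 : ∀ F, F * Δ - C (eval w F) * Δ ∈ II P Q) (F : MvPolynomial (Fin 2) k) : L (F * Δ) = eval w F := by
  have h3 := h.ker _ (h2 F)
  rw [map_sub, L_Ck, h1, mul_one, sub_eq_zero] at h3
  exact h3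

end Rs

lemma II_eval {P Q F : MvPolynomial (Fin 2) k} {z : Fin 2 → k} (hF : F ∈ II P Q) (hP : eval z P = 0)
    (hQ : eval z Q = 0) : eval z F = 0 := by
  obtain ⟨u, v, rfl⟩ := mem_II.1 hF
  rw [map_add, map_mul, map_mul, hP, hQ]; ring

lemma delta_other {P Q Δ : MvPolynomial (Fin 2) k} {w z : Fin 2 → k}
    (h2 : ∀ F, F * Δ - C (eval w F) * Δ ∈ II P Q) (hP : eval z P = 0) (hQ : eval z Q = 0) (hne : z ≠ w) :
    eval z Δ = 0 := by
  obtain ⟨i, hi⟩ : ∃ i, z i ≠ w i := by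
    by_contra hc
    push Not at hc
    exact hne (funext hc)
  have h3 := II_eval (h2 (X i)) hP hQ
  rw [map_sub, map_mul, map_mul, eval_C, eval_X, eval_X, ← sub_mul] at h3
  exact (mul_eq_zero.1 h3).resolve_left (sub_ne_zero.2 hi)

lemma E0.exists_Rs [CharZero k] {P Q : MvPolynomial (Fin 2) k} (h : E0 P Q) {w : Fin 2 → k}
    (hwP : eval w P = 0) (hwQ : eval w Q = 0) (hJ : eval w (Jac P Q) ≠ 0) : ∃ L, Rs P Q L := by
  obtain ⟨L, hL⟩ := h.exists_Rs0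
  obtain ⟨A, B, A₂, B₂, c, c₂, hA, hB, hA₂, hB₂, eP, eQ, hb⟩ := bez h.hP h.hQ
  obtain ⟨Δ, h1, h2, h3, h4⟩ := hb w hwP hwQ
  have h5 := LJ_rel h.hP h.hQ hA hB hA₂ hB₂ eP eQ hL.low hL.ker
  have h6 := hL.low _ h2
  rw [map_sub, sub_eq_zero] at h6
  have h7 : L Δ ≠ 0 := by
    intro h0
    have h8 : Δ ∈ II P Q := by
      apply h.nondeg hL
      intro G
      have h9 := hL.ker _ (h4 G)
      rw [map_sub, L_Ck, h0, mul_zero, sub_zero] at h9
      rw [mul_comm]; exact h9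
    apply hJ
    rw [← h3]
    exact II_eval h8 hwP hwQ
  refine ⟨(L Δ)⁻¹ • L, ?_, ?_, ?_⟩
  · intro F hF; rw [LinearMap.smul_apply, hL.low F hF, smul_zero]
  · intro F hF; rw [LinearMap.smul_apply, hL.ker F hF, smul_zero]
  · rw [LinearMap.smul_apply, h5, ← h6, smul_eq_mul]
    field_simp

end Run7.h256
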