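import Mathlib
import Pool.Agent.Run7.h256.TC
import Pool.Agent.Run7.h256.W3

set_option autoImplicit false

namespace Run7.h256

open MvPolynomial

/-- nine real zeros with positive Jacobian -/
structure SS (P Q : RP) (S : Finset (Fin 2 → ℝ)) : Prop where
  card : S.card = 9
  zero : ∀ p ∈ S, eval p P = 0 ∧ eval p Q = 0
  Jp : ∀ p ∈ S, 0 < eval p (Jac P Q)

/-- the full package in a chart without zeros at infinity -/
structure Pk (P Q : RP) (L : RP →ₗ[ℝ] ℝ) (S : Finset (Fin 2 → ℝ)) (Δ : (Fin 2 → ℝ) → RP) : Prop where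
  e0 : E0 P Q
  rs : Rs P Q L
  ss : SS P Q S
  d6 : ∀ s ∈ S, Dle 6 (Δ s)
  mul : ∀ s ∈ S, ∀ F, L (F * Δ s) = eval s F
  diag : ∀ s ∈ S, eval s (Δ s) = eval s (Jac P Q)
  off : ∀ s ∈ S, ∀ s' ∈ S, s' ≠ s → eval s' (Δ s) = 0
  id : ∀ s ∈ S, ∀ F, F * Δ s - C (eval s F) * Δ s ∈ II P Q

lemma exists_Pk {P Q : RP} {S : Finset (Fin 2 → ℝ)} (h : E0 P Q) (hS : SS P Q S) :
    ∃ L Δ, Pk P Q L S Δ := by
  have hne : S.Nonempty := by rw [← Finset.card_pos, hS.card]; norm_num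
  obtain ⟨s0, hs0⟩ := hne
  obtain ⟨L, hL⟩ := h.exists_Rs (hS.zero s0 hs0).1 (hS.zero s0 hs0).2 (hS.Jp s0 hs0).ne'
  have hb := fun s (hs : s ∈ S) => hL.bz h.hP h.hQ (hS.zero s hs).1 (hS.zero s hs).2
  choose! Δ h1 h2 h3 h4 using hb
  exact ⟨L, Δ, h, hL, hS, h1, fun s hs F => hL.mulDelta (h2 s hs) (h4 s hs) F, h3,
    fun s hs s' hs' hne => delta_other (h4 s hs) (hS.zero s' hs').1 (hS.zero s' hs').2 hne, h4⟩

/-- the part supported on `S` -/
noncomputable def pj (P Q : RP) (S : Finset (Fin 2 → ℝ)) (Δ : (Fin 2 → ℝ) → RP) (F : RP) : RP :=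
  ∑ s ∈ S, C (eval s F / eval s (Jac P Q)) * Δ s

namespace Pk

variable {P Q : RP} {L : RP →ₗ[ℝ] ℝ} {S : Finset (Fin 2 → ℝ)} {Δ : (Fin 2 → ℝ) → RP}

lemma L_pj (h : Pk P Q L S Δ) (F G : RP) :
    L (G * pj P Q S Δ F) = ∑ s ∈ S, eval s F * eval s G / eval s (Jac P Q) := by
  unfold pj
  rw [Finset.mul_sum, map_sum]
  apply Finset.sum_congr rfl
  intro s hs
  have e : G * (C (eval s F / eval s (Jac P Q)) * Δ s) = C (eval s F / eval s (Jac P Q)) * (G * Δ s) := by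
    ring
  rw [e, L_C, h.mul s hs]; ring

lemma eval_pj (h : Pk P Q L S Δ) (F : RP) {s : Fin 2 → ℝ} (hs : s ∈ S) : eval s (pj P Q S Δ F) = eval s F := by
  unfold pj
  rw [map_sum, Finset.sum_eq_single s]
  · rw [map_mul, eval_C, h.diag s hs, div_mul_cancel₀ _ (h.ss.Jp s hs).ne']
  · intro t ht hts
    rw [map_mul, h.off t ht s hs (Ne.symm hts), mul_zero]
  · intro h1; exact absurd hs h1

lemma Dle_pj (h : Pk P Q L S Δ) (F : RP) : Dle 6 (pj P Q S Δ F) := by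
  unfold pj
  refine le_trans (totalDegree_finsetSum _ _) ?_
  apply Finset.sup_le
  intro s hs
  exact (Dle.C (n := 0) _).mul (h.d6 s hs) (by omega)

lemma sum_zero (h : Pk P Q L S Δ) {F : RP} (h0 : ∑ s ∈ S, eval s F * eval s F / eval s (Jac P Q) = 0) :
    ∀ s ∈ S, eval s F = 0 := by
  rw [Finset.sum_eq_zero_iff_of_nonneg (fun s hs => div_nonneg (mul_self_nonneg _) (h.ss.Jp s hs).le)] at h0
  intro s hs
  have := h0 s hs
  rw [div_eq_zero_iff] at this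
  rcases this with h1 | h1
  · exact mul_self_eq_zero.1 h1
  · exact absurd h1 (h.ss.Jp s hs).ne'

lemma sum_nonneg (h : Pk P Q L S Δ) (F : RP) : 0 ≤ ∑ s ∈ S, eval s F * eval s F / eval s (Jac P Q) :=
  Finset.sum_nonneg (fun s hs => div_nonneg (mul_self_nonneg _) (h.ss.Jp s hs).le)

/-- nondegeneracy tested on the polynomials vanishing on `S` -/
lemma all_of_N (h : Pk P Q L S Δ) {u : RP} (hu0 : ∀ s ∈ S, eval s u = 0)
    (hu : ∀ H, Dle 6 H → (∀ s ∈ S, eval s H = 0) → L (H * u) = 0) : u ∈ II P Q := by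
  apply h.e0.nondeg h.rs.rs0
  intro F
  obtain ⟨G, hG, hFG⟩ := h.e0.rep6 F
  have h1 := hu (G - pj P Q S Δ G) (hG.sub (h.Dle_pj G)) (by
    intro s hs
    rw [map_sub, h.eval_pj G hs, sub_self])
  have h2 : L (u * pj P Q S Δ G) = 0 := by
    rw [h.L_pj]
    apply Finset.sum_eq_zero
    intro s hs
    rw [hu0 s hs]; ring
  have h3 := h.rs.ker _ (Ideal.mul_mem_left _ u hFG)
  rw [mul_sub, map_sub] at h3
  rw [sub_mul, map_sub, mul_comm (pj P Q S Δ G) u, h2, sub_zero, mul_comm] at h1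
  rw [h1, sub_zero] at h3
  exact h3

lemma inj2 (h : Pk P Q L S Δ) {u : RP} (hu2 : Dle 2 u)
    (hu : ∀ H, Dle 6 H → (∀ s ∈ S, eval s H = 0) → L (H * u) = 0) : u = 0 := by
  have h1 := hu (u - pj P Q S Δ u) ((hu2.mono (by norm_num)).sub (h.Dle_pj u)) (by
    intro s hs
    rw [map_sub, h.eval_pj u hs, sub_self])
  rw [sub_mul, map_sub, h.rs.low _ (hu2.mul hu2 (by omega)), mul_comm (pj P Q S Δ u) u, h.L_pj, zero_sub,
    neg_eq_zero] at h1
  exact h.e0.eq_zero3 (h.all_of_N (h.sum_zero h1) hu) (hu2.mono (by norm_num))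

/-- the pairing between polynomials vanishing on `S` and quadratic polynomials -/
noncomputable def Psi (L : RP →ₗ[ℝ] ℝ) (S : Finset (Fin 2 → ℝ)) :
    LinearMap.ker (CI16.ev S 6) →ₗ[ℝ] Module.Dual ℝ (Pl ℝ 2) :=
  ((LinearMap.mul ℝ RP).compr₂ L).compl₁₂ ((Pl ℝ 6).subtype.comp (LinearMap.ker (CI16.ev S 6)).subtype)
    (Pl ℝ 2).subtype

lemma Psi_apply (x : LinearMap.ker (CI16.ev S 6)) (u : Pl ℝ 2) : Psi L S x u = L (x.1.1 * u.1) := rfl

lemma mem_ker6 {x : Pl ℝ 6} : x ∈ LinearMap.ker (CI16.ev S 6) ↔ ∀ s ∈ S, eval s x.1 = 0 := by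
  rw [LinearMap.mem_ker]
  constructor
  · intro hx s hs
    have := congrFun hx ⟨s, hs⟩
    rw [CI16.ev_apply] at this
    exact this
  · intro hx
    ext s
    rw [CI16.ev_apply]; exact hx s.1 s.2

lemma Psi_surj (h : Pk P Q L S Δ) : LinearMap.range (Psi L S) = ⊤ := by
  by_contra hne
  obtain ⟨f, hf0, hf⟩ := Submodule.exists_le_ker_of_lt_top _ (lt_top_iff_ne_top.2 hne)
  obtain ⟨u, hu⟩ : ∃ u, u = (Module.evalEquiv ℝ (Pl ℝ 2)).symm f := ⟨_, rfl⟩
  have hu' : ∀ φ : Module.Dual ℝ (Pl ℝ 2), φ u = f φ := by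
    intro φ
    rw [hu]; exact Module.apply_evalEquiv_symm_apply (R := ℝ) (M := Pl ℝ 2) φ f
  have h1 : u.1 = 0 := by
    apply h.inj2 (mem_Pl.1 u.2)
    intro H hH hHS
    have h2 : f (Psi L S ⟨⟨H, mem_Pl.2 hH⟩, mem_ker6.2 hHS⟩) = 0 := hf ⟨_, rfl⟩
    rw [← hu', Psi_apply] at h2
    exact h2
  apply hf0
  refine LinearMap.ext (fun φ => ?_)
  rw [← hu', show u = 0 from Subtype.ext h1, map_zero]; rfl

lemma finrank_ker6 (h : Pk P Q L S Δ) : Module.finrank ℝ (LinearMap.ker (CI16.ev S 6)) = 19 := by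
  have hsurj : Function.Surjective (CI16.ev S 6) := by
    intro c
    classical
    refine ⟨⟨∑ w : S, C (c w / eval w.1 (Jac P Q)) * Δ w.1, mem_Pl.2 ?_⟩, ?_⟩
    · refine le_trans (totalDegree_finsetSum _ _) ?_
      apply Finset.sup_le
      intro w _
      exact (Dle.C (n := 0) _).mul (h.d6 w.1 w.2) (by omega)
    · ext z
      rw [CI16.ev_apply, map_sum, Finset.sum_eq_single z]
      · rw [map_mul, eval_C, h.diag z.1 z.2, div_mul_cancel₀ _ (h.ss.Jp z.1 z.2).ne']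
      · intro w _ hw
        rw [map_mul, h.off w.1 w.2 z.1 z.2 (fun h => hw (Subtype.ext h.symm)), mul_zero]
      · intro h1; exact absurd (Finset.mem_univ _) h1
  have e1 := LinearMap.finrank_range_add_finrank_ker (CI16.ev S 6)
  rw [LinearMap.range_eq_top.2 hsurj, finrank_top, Module.finrank_fintype_fun_eq_card,
    Fintype.card_coe, h.ss.card] at e1
  have e2 := finrank_Pl (k := ℝ) 6
  omega

lemma finrank_kerPsi (h : Pk P Q L S Δ) : Module.finrank ℝ (LinearMap.ker (Psi L S)) = 13 := by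
  have e1 := LinearMap.finrank_range_add_finrank_ker (K := ℝ) (V := LinearMap.ker (CI16.ev S 6))
    (V₂ := Module.Dual ℝ (Pl ℝ 2)) (Psi L S)
  have e0 : Module.finrank ℝ (LinearMap.range (Psi L S)) = Module.finrank ℝ (Pl ℝ 2) := by
    rw [h.Psi_surj, finrank_top, Subspace.dual_finrank_eq]
  rw [h.finrank_ker6] at e1
  have e2 := finrank_Pl (k := ℝ) 2
  omega

/-- the space orthogonal to the quadratic polynomials is one-dimensional modulo the ideal -/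
theorem one_dim (h : Pk P Q L S Δ) {D F : RP} (hD : Dle 6 D) (hDS : ∀ s ∈ S, eval s D = 0)
    (hDL : ∀ u, Dle 2 u → L (D * u) = 0) (hDI : D ∉ II P Q) (hF : Dle 6 F) (hFS : ∀ s ∈ S, eval s F = 0)
    (hFL : ∀ u, Dle 2 u → L (F * u) = 0) : ∃ c : ℝ, F - C c * D ∈ II P Q := by
  obtain ⟨f, hf⟩ : ∃ f : LinearMap.ker (CI16.ev S 6) →ₗ[ℝ] RP,
    f = (Pl ℝ 6).subtype.comp (LinearMap.ker (CI16.ev S 6)).subtype := ⟨_, rfl⟩
  have hfi : Function.Injective f := by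
    rw [hf]
    intro x y hxy
    exact Subtype.ext (Subtype.ext hxy)
  obtain ⟨W, hW⟩ : ∃ W : Submodule ℝ RP, W = (LinearMap.ker (Psi L S)).map f := ⟨_, rfl⟩
  have hWm : ∀ F : RP, Dle 6 F → (∀ s ∈ S, eval s F = 0) → (∀ u, Dle 2 u → L (F * u) = 0) → F ∈ W := by
    intro F h1 h2 h3
    rw [hW, Submodule.mem_map]
    refine ⟨⟨⟨F, mem_Pl.2 h1⟩, mem_ker6.2 h2⟩, ?_, by rw [hf]; rfl⟩
    rw [LinearMap.mem_ker]
    refine LinearMap.ext (fun u => ?_)
    rw [Psi_apply]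
    exact h3 u.1 (mem_Pl.1 u.2)
  have hWr : Module.finrank ℝ W = 13 := by
    rw [← h.finrank_kerPsi, hW]
    exact (LinearEquiv.finrank_eq (Submodule.equivMapOfInjective f hfi _)).symm
  have hWfd : FiniteDimensional ℝ W := by
    apply Module.finite_of_finrank_pos
    rw [hWr]; norm_num
  have hD0 : D ≠ 0 := by rintro rfl; exact hDI (Ideal.zero_mem _)
  have h1 : E0.KK P Q 2 ⊔ Submodule.span ℝ {D} ≤ W := by
    apply sup_le
    · intro F hF
      have hFI := E0.KK_II hF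
      refine hWm F (mem_Pl.1 (h.e0.KK_le 2 hF)) ?_ ?_
      · intro s hs
        exact II_eval hFI (h.ss.zero s hs).1 (h.ss.zero s hs).2
      · intro u _
        exact h.rs.ker _ (Ideal.mul_mem_right _ _ hFI)
    · rw [Submodule.span_singleton_le_iff_mem]
      exact hWm D hD hDS hDL
  have h2 : E0.KK P Q 2 ⊓ Submodule.span ℝ {D} = ⊥ := by
    rw [eq_bot_iff]
    rintro x ⟨hx1, hx2⟩
    obtain ⟨a, rfl⟩ := Submodule.mem_span_singleton.1 hx2
    by_cases ha : a = 0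
    · rw [ha, zero_smul]; exact Submodule.zero_mem _
    · exfalso
      apply hDI
      have h3 := Ideal.mul_mem_left (II P Q) (C a⁻¹) (E0.KK_II hx1)
      rw [smul_eq_C_mul, ← mul_assoc, ← C_mul, inv_mul_cancel₀ ha, C_1, one_mul] at h3
      exact h3
  have e1 := Submodule.finrank_sup_add_finrank_inf_eq (E0.KK P Q 2) (Submodule.span ℝ {D})
  rw [h2, finrank_bot, h.e0.finrank_KK (by norm_num), finrank_span_singleton hD0] at e1
  have h4 : E0.KK P Q 2 ⊔ Submodule.span ℝ {D} = W := by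
    apply Submodule.eq_of_le_of_finrank_eq h1
    rw [hWr]; omega
  have h5 : F ∈ E0.KK P Q 2 ⊔ Submodule.span ℝ {D} := by
    rw [h4]; exact hWm F hF hFS hFL
  obtain ⟨g, hg, x, hx, he⟩ := Submodule.mem_sup.1 h5
  obtain ⟨a, rfl⟩ := Submodule.mem_span_singleton.1 hx
  refine ⟨a, ?_⟩
  have e : F - C a * D = g := by rw [← he, smul_eq_C_mul]; ring
  rw [e]
  exact E0.KK_II hg

lemma low_mul (h : Pk P Q L S Δ) {D : RP} (hD : Dle 3 D) : ∀ u, Dle 2 u → L (D * u) = 0 :=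
  fun _ hu => h.rs.low _ (hD.mul hu (by omega))

/-- cubics through `S` -/
theorem cubic_eq (h : Pk P Q L S Δ) {D F : RP} (hD : Dle 3 D) (hD0 : D ≠ 0) (hDS : ∀ s ∈ S, eval s D = 0)
    (hF : Dle 3 F) (hFS : ∀ s ∈ S, eval s F = 0) : ∃ c : ℝ, F = C c * D := by
  obtain ⟨c, hc⟩ := h.one_dim (hD.mono (by norm_num)) hDS (h.low_mul hD)
    (fun h1 => hD0 (h.e0.eq_zero3 h1 hD)) (hF.mono (by norm_num)) hFS (h.low_mul hF)
  refine ⟨c, ?_⟩
  have := h.e0.eq_zero3 hc (hF.sub ((Dle.C (n := 0) c).mul hD (by omega)))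
  linear_combination this

/-- no conic through `S` -/
theorem conic_eq (h : Pk P Q L S Δ) {F : RP} (hF : Dle 2 F) (hFS : ∀ s ∈ S, eval s F = 0) : F = 0 := by
  by_contra h0
  obtain ⟨c, hc⟩ := h.cubic_eq (hF.mono (by norm_num)) h0 hFS (F := X 0 * F)
    ((Dle.X le_rfl 0).mul hF (by omega)) (fun s hs => by rw [map_mul, hFS s hs, mul_zero])
  have h1 : (X 0 - C c) * F = 0 := by linear_combination hc
  rcases mul_eq_zero.1 h1 with h2 | h2
  · have := congrArg (eval (fun _ => c + 1)) h2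
    simp at this
  · exact h0 h2

/-- the Lorentz lemma -/
theorem lorentz (h : Pk P Q L S Δ) {D : RP} (hD : Dle 3 D) (hD0 : D ≠ 0) (hDS : ∀ s ∈ S, eval s D = 0)
    {G : RP} (hG : L (G * D) = 0) : ∃ u, Dle 2 u ∧ G - u - pj P Q S Δ (G - u) ∈ II P Q := by
  obtain ⟨φ, hφ⟩ : ∃ φ : Module.Dual ℝ (LinearMap.ker (CI16.ev S 6)),
      φ = (L.comp (LinearMap.mulLeft ℝ G)).comp ((Pl ℝ 6).subtype.comp (LinearMap.ker (CI16.ev S 6)).subtype) :=
    ⟨_, rfl⟩
  have hφa : ∀ x, φ x = L (G * x.1.1) := by intro x; rw [hφ]; rfl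
  have h1 : φ ∈ (LinearMap.ker (Psi L S)).dualAnnihilator := by
    rw [Submodule.mem_dualAnnihilator]
    intro x hx
    rw [hφa]
    have hxL : ∀ u, Dle 2 u → L (x.1.1 * u) = 0 := by
      intro u hu
      have h2 := congrArg (fun ψ => ψ (⟨u, mem_Pl.2 hu⟩ : Pl ℝ 2)) (LinearMap.mem_ker.1 hx)
      simp only [LinearMap.zero_apply] at h2
      rw [Psi_apply] at h2
      exact h2
    obtain ⟨c, hc⟩ := h.one_dim (hD.mono (by norm_num)) hDS (h.low_mul hD)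
      (fun h1 => hD0 (h.e0.eq_zero3 h1 hD)) (mem_Pl.1 x.1.2) (mem_ker6.1 x.2) hxL
    have h3 := h.rs.ker _ (Ideal.mul_mem_left _ G hc)
    have e : G * (x.1.1 - C c * D) = G * x.1.1 - C c * (G * D) := by ring
    rw [e, map_sub, L_C, hG, mul_zero, sub_zero] at h3
    exact h3
  have hr := LinearMap.range_dualMap_eq_dualAnnihilator_ker (K := ℝ) (V₁ := LinearMap.ker (CI16.ev S 6))
    (V₂ := Module.Dual ℝ (Pl ℝ 2)) (Psi L S)
  have h1' : φ ∈ LinearMap.range (Psi L S).dualMap := by rw [hr]; exact h1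
  obtain ⟨ξ, hξ⟩ := h1'
  obtain ⟨u, hu⟩ : ∃ u, u = (Module.evalEquiv ℝ (Pl ℝ 2)).symm ξ := ⟨_, rfl⟩
  have hu' : ∀ φ : Module.Dual ℝ (Pl ℝ 2), φ u = ξ φ := by
    intro φ
    rw [hu]; exact Module.apply_evalEquiv_symm_apply (R := ℝ) (M := Pl ℝ 2) φ ξ
  refine ⟨u.1, mem_Pl.1 u.2, ?_⟩
  have h2 : ∀ H, Dle 6 H → (∀ s ∈ S, eval s H = 0) → L (H * (G - u.1)) = 0 := by
    intro H hH hHS
    have h3 := hφa ⟨⟨H, mem_Pl.2 hH⟩, mem_ker6.2 hHS⟩
    rw [← hξ, LinearMap.dualMap_apply, ← hu', Psi_apply] at h3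
    rw [mul_sub, map_sub, mul_comm H G, ← h3, sub_self]
  have h0 : ∀ s ∈ S, eval s (G - u.1 - pj P Q S Δ (G - u.1)) = 0 := by
    intro s hs
    rw [map_sub _ (G - u.1), h.eval_pj _ hs, sub_self]
  apply h.all_of_N h0
  intro H hH hHS
  rw [mul_sub, map_sub, h2 H hH hHS, h.L_pj, zero_sub, neg_eq_zero]
  apply Finset.sum_eq_zero
  intro s hs
  rw [hHS s hs]; ring

/-- positivity on cubic polynomials orthogonal to the divergence -/
theorem POS (h : Pk P Q L S Δ) {D : RP} (hD : Dle 3 D) (hD0 : D ≠ 0) (hDS : ∀ s ∈ S, eval s D = 0)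
    {G : RP} (hG3 : Dle 3 G) (hG : L (G * D) = 0) : 0 ≤ L (G * G) := by
  obtain ⟨u, hu, hI⟩ := h.lorentz hD hD0 hDS hG
  have h1 := h.rs.ker _ (Ideal.mul_mem_left _ (G - u) hI)
  have e : (G - u) * (G - u - pj P Q S Δ (G - u)) = G * G - ((G * u - u * u) + G * u) -
      (G - u) * pj P Q S Δ (G - u) := by ring
  rw [e, map_sub, map_sub, h.L_pj, h.rs.low _ (((hG3.mul hu (by omega)).sub (hu.mul hu (by omega))).add
    (hG3.mul hu (by omega))), sub_zero] at h1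
  have h2 := h.sum_nonneg (G - u)
  linarith

end Pk

end Run7.h256
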