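import Mathlib
import Pool.Agent.Run7.h256.Cls2
import Pool.Agent.Run7.h256.W4

set_option autoImplicit false

namespace Run7.h256

open MvPolynomial ComplexConjugate

lemma rp_of (A B : RP) : rp (cx A + C Complex.I * cx B) = A := by
  ext d
  rw [coeff_rp, coeff_add, coeff_C_mul, coeff_cx, coeff_cx]
  simp

lemma ip_of (A B : RP) : ip (cx A + C Complex.I * cx B) = B := by
  ext d
  rw [coeff_ip, coeff_add, coeff_C_mul, coeff_cx, coeff_cx]
  simp

lemma rp_cx (A : RP) : rp (cx A) = A := by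
  ext d
  rw [coeff_rp, coeff_cx]; simp

lemma ip_cx (A : RP) : ip (cx A) = 0 := by
  ext d
  rw [coeff_ip, coeff_cx]; simp

lemma rp_add (F G : RR) : rp (F + G) = rp F + rp G := by
  ext d; rw [coeff_add, coeff_rp, coeff_rp, coeff_rp, coeff_add]; simp

lemma ip_add (F G : RR) : ip (F + G) = ip F + ip G := by
  ext d; rw [coeff_add, coeff_ip, coeff_ip, coeff_ip, coeff_add]; simp

lemma rp_cmul (A : RP) (G : RR) : rp (G * cx A) = rp G * A := by
  have e : G * cx A = cx (rp G * A) + C Complex.I * cx (ip G * A) := by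
    rw [cx_mul, cx_mul]
    linear_combination (cx A) * decomp G
  rw [e, rp_of]

lemma ip_cmul (A : RP) (G : RR) : ip (G * cx A) = ip G * A := by
  have e : G * cx A = cx (rp G * A) + C Complex.I * cx (ip G * A) := by
    rw [cx_mul, cx_mul]
    linear_combination (cx A) * decomp G
  rw [e, ip_of]

lemma rp_smul (c : ℂ) (F : RR) : rp (c • F) = c.re • rp F - c.im • ip F := by
  ext d
  rw [coeff_rp, coeff_smul, coeff_sub, coeff_smul, coeff_smul, coeff_rp, coeff_ip]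
  simp

lemma ip_smul (c : ℂ) (F : RR) : ip (c • F) = c.re • ip F + c.im • rp F := by
  ext d
  rw [coeff_ip, coeff_smul, coeff_add, coeff_smul, coeff_smul, coeff_rp, coeff_ip]
  simp

lemma rp_cj (F : RR) : rp (cj F) = rp F := by
  ext d; unfold cj; rw [coeff_rp, coeff_rp, coeff_map]; simp

lemma ip_cj (F : RR) : ip (cj F) = - ip F := by
  ext d; unfold cj; rw [coeff_neg, coeff_ip, coeff_ip, coeff_map]; simp

lemma hc_cx (n : ℕ) (F : RP) : hc n (cx F) = cx (hc n F) := by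
  ext d
  rw [coeff_hc, coeff_cx, coeff_cx, coeff_hc]
  split_ifs <;> simp

lemma II_cx_iff {P Q : RP} {F : RR} : F ∈ II (cx P) (cx Q) ↔ rp F ∈ II P Q ∧ ip F ∈ II P Q := by
  constructor
  · intro h
    obtain ⟨u, v, rfl⟩ := mem_II.1 h
    exact ⟨mem_II.2 ⟨rp u, rp v, by rw [rp_add, rp_cmul, rp_cmul]⟩,
      mem_II.2 ⟨ip u, ip v, by rw [ip_add, ip_cmul, ip_cmul]⟩⟩
  · rintro ⟨h1, h2⟩
    obtain ⟨u, v, h1⟩ := mem_II.1 h1
    obtain ⟨u', v', h2⟩ := mem_II.1 h2
    rw [decomp F, ← h1, ← h2]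
    refine mem_II.2 ⟨cx u + C Complex.I * cx u', cx v + C Complex.I * cx v', ?_⟩
    rw [cx_add, cx_add, cx_mul, cx_mul, cx_mul, cx_mul]
    ring

lemma II_cx {P Q F : RP} : cx F ∈ II (cx P) (cx Q) ↔ F ∈ II P Q := by
  rw [II_cx_iff, rp_cx, ip_cx]
  exact ⟨fun h => h.1, fun h => ⟨h, Ideal.zero_mem _⟩⟩

/-- complex extension of a real functional -/
noncomputable def Lc (L : RP →ₗ[ℝ] ℝ) : RR →ₗ[ℂ] ℂ where
  toFun F := (L (rp F) : ℂ) + Complex.I * (L (ip F) : ℂ)
  map_add' F G := by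
    rw [rp_add, ip_add, map_add, map_add]; push_cast; ring
  map_smul' c F := by
    rw [rp_smul, ip_smul, map_sub, map_add, map_smul, map_smul, map_smul, map_smul, RingHom.id_apply]
    apply Complex.ext <;> simp

lemma Lc_def (L : RP →ₗ[ℝ] ℝ) (F : RR) : Lc L F = (L (rp F) : ℂ) + Complex.I * (L (ip F) : ℂ) := rfl

lemma Lc_cx (L : RP →ₗ[ℝ] ℝ) (F : RP) : Lc L (cx F) = (L F : ℂ) := by
  rw [Lc_def, rp_cx, ip_cx, map_zero]; simp

lemma Rs.cplx {P Q : RP} {L : RP →ₗ[ℝ] ℝ} (h : Rs P Q L) : Rs (cx P) (cx Q) (Lc L) := by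
  refine ⟨?_, ?_, ?_⟩
  · intro F hF
    rw [Lc_def, h.low _ (Dle_rp hF), h.low _ (Dle_ip hF)]; simp
  · intro F hF
    obtain ⟨h1, h2⟩ := II_cx_iff.1 hF
    rw [Lc_def, h.ker _ h1, h.ker _ h2]; simp
  · rw [hc_cx, hc_cx, cx_Jac, Lc_cx, h.LJ]; norm_num

/-- Nullstellensatz -/
lemma null_real {P Q R : RP} (hR : ∀ t : Fin 2 → ℂ, eval t (cx P) = 0 → eval t (cx Q) = 0 →
    eval t (cx R) = 0) : ∃ n : ℕ, R ^ n ∈ II P Q := by
  have h1 : cx R ∈ vanishingIdeal ℂ (zeroLocus ℂ (II (cx P) (cx Q))) := by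
    intro x hx
    rw [zeroLocus_span] at hx
    have hx0 := hx (cx P) (by simp)
    have hx1 := hx (cx Q) (by simp)
    rw [aeval_eq_eval] at hx0 hx1 ⊢
    exact hR x hx0 hx1
  rw [vanishingIdeal_zeroLocus_eq_radical] at h1
  obtain ⟨n, hn⟩ := h1
  refine ⟨n, ?_⟩
  have e : (cx R) ^ n = cx (R ^ n) := by simp [cx]
  rw [e] at hn
  exact II_cx.1 hn

namespace Pk

variable {P Q : RP} {L : RP →ₗ[ℝ] ℝ} {S : Finset (Fin 2 → ℝ)} {Δ : (Fin 2 → ℝ) → RP}

/-- negative definiteness -/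
theorem NEG (h : Pk P Q L S Δ) {D : RP} (hD : Dle 3 D) (hD0 : D ≠ 0) (hDS : ∀ s ∈ S, eval s D = 0)
    {a : RP} (haS : ∀ s ∈ S, eval s a = 0) (haD : L (a * D) = 0) :
    L (a * a) ≤ 0 ∧ (0 ≤ L (a * a) → a ∈ II P Q) := by
  obtain ⟨u, hu, hI⟩ := h.lorentz hD hD0 hDS haD
  have hs : ∀ s ∈ S, eval s (a - u) = - eval s u := by
    intro s hs; rw [map_sub, haS s hs]; ring
  have h1 := h.rs.ker _ (Ideal.mul_mem_left _ a hI)
  have h2 := h.rs.ker _ (Ideal.mul_mem_left _ u hI)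
  rw [mul_sub, map_sub, mul_sub, map_sub, h.L_pj] at h1 h2
  have h3 : ∑ s ∈ S, eval s (a - u) * eval s a / eval s (Jac P Q) = 0 := by
    apply Finset.sum_eq_zero
    intro s hs'
    rw [haS s hs']; ring
  have h4 : ∑ s ∈ S, eval s (a - u) * eval s u / eval s (Jac P Q) =
      - ∑ s ∈ S, eval s u * eval s u / eval s (Jac P Q) := by
    rw [← Finset.sum_neg_distrib]
    apply Finset.sum_congr rfl
    intro s hs'
    rw [hs s hs']; ring
  rw [h3] at h1
  rw [h4, h.rs.low _ (hu.mul hu (by omega)), mul_comm u a] at h2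
  have h5 : L (a * a) = - ∑ s ∈ S, eval s u * eval s u / eval s (Jac P Q) := by linarith
  have h6 := h.sum_nonneg u
  refine ⟨by linarith, ?_⟩
  intro h7
  have h8 : ∑ s ∈ S, eval s u * eval s u / eval s (Jac P Q) = 0 := by linarith
  have h9 := h.sum_zero h8
  have h10 : u = 0 := h.conic_eq hu h9
  rw [h10, sub_zero] at hI
  have h11 : pj P Q S Δ a = 0 := by
    unfold pj
    apply Finset.sum_eq_zero
    intro s hs'
    rw [haS s hs', zero_div, C_0, zero_mul]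
  rw [h11, sub_zero] at hI
  exact hI

/-- no two-dimensional nonnegative subspace, hermitian version -/
theorem PSD2 (h : Pk P Q L S Δ) {D : RP} (hD : Dle 3 D) (hD0 : D ≠ 0) (hDS : ∀ s ∈ S, eval s D = 0)
    {a b : RR} (haS : ∀ s ∈ S, eval (cp s) a = 0) (hbS : ∀ s ∈ S, eval (cp s) b = 0)
    (haa : 0 ≤ (Lc L (a * cj a)).re) (hbb : 0 ≤ (Lc L (b * cj b)).re) (hab : Lc L (a * cj b) = 0) :
    ∃ α β : ℂ, (α ≠ 0 ∨ β ≠ 0) ∧ C α * a + C β * b ∈ II (cx P) (cx Q) := by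
  obtain ⟨α, β, hαβ, h0⟩ : ∃ α β : ℂ, (α ≠ 0 ∨ β ≠ 0) ∧ α * Lc L (a * cx D) + β * Lc L (b * cx D) = 0 := by
    by_cases h1 : Lc L (a * cx D) = 0
    · exact ⟨1, 0, Or.inl one_ne_zero, by rw [h1]; ring⟩
    · exact ⟨Lc L (b * cx D), - Lc L (a * cx D), Or.inr (neg_ne_zero.2 h1), by ring⟩
  refine ⟨α, β, hαβ, ?_⟩
  obtain ⟨c, hc⟩ : ∃ c, c = C α * a + C β * b := ⟨_, rfl⟩
  rw [← hc]
  have hcS : ∀ s ∈ S, eval (cp s) c = 0 := by
    intro s hs; rw [hc, map_add, map_mul, map_mul, haS s hs, hbS s hs]; ring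
  have hre : ∀ s ∈ S, eval s (rp c) = 0 ∧ eval s (ip c) = 0 := by
    intro s hs
    have h1 : (fun i => conj (cp s i)) = cp s := by
      ext i; simp [cp]
    obtain ⟨h2, h3⟩ := rp_ip_vanish (hcS s hs) (by rw [h1]; exact hcS s hs)
    rw [eval_cx] at h2 h3
    exact ⟨by exact_mod_cast h2, by exact_mod_cast h3⟩
  have hcD : Lc L (c * cx D) = 0 := by
    have e : c * cx D = C α * (a * cx D) + C β * (b * cx D) := by rw [hc]; ring
    rw [e, map_add, L_Ck, L_Ck]; exact h0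
  rw [Lc_def, rp_cmul, ip_cmul] at hcD
  have hcr := congrArg Complex.re hcD
  have hci := congrArg Complex.im hcD
  simp at hcr hci
  obtain ⟨n1, n2⟩ := h.NEG hD hD0 hDS (fun s hs => (hre s hs).1) hcr
  obtain ⟨n3, n4⟩ := h.NEG hD hD0 hDS (fun s hs => (hre s hs).2) hci
  -- the hermitian square
  have hcc : c * cj c = cx (rp c * rp c + ip c * ip c) := by
    have e1 := decomp c
    have e2 := cj_eq c
    have hI : (C Complex.I * C Complex.I : RR) = -1 := by
      rw [← C_mul, Complex.I_mul_I, C_neg, C_1]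
    rw [e2, cx_add, cx_mul, cx_mul]
    linear_combination (cx (rp c) - C Complex.I * cx (ip c)) * e1 - (cx (ip c) * cx (ip c)) * hI
  have hba : Lc L (b * cj a) = 0 := by
    have e : b * cj a = cj (a * cj b) := by
      have : cj (cj b) = b := by
        ext d; unfold cj; rw [coeff_map, coeff_map]; simp
      rw [show cj (a * cj b) = cj a * cj (cj b) by simp [cj], this]; ring
    rw [e, Lc_def, rp_cj, ip_cj]
    rw [Lc_def] at hab
    have e1 := congrArg Complex.re hab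
    have e2 := congrArg Complex.im hab
    simp at e1 e2
    rw [e1, map_neg, e2]; simp
  have hval : (L (rp c * rp c + ip c * ip c) : ℂ) = (α * conj α) * Lc L (a * cj a) +
      (β * conj β) * Lc L (b * cj b) := by
    rw [← Lc_cx, ← hcc, hc]
    have e : (C α * a + C β * b) * cj (C α * a + C β * b) = C (α * conj α) * (a * cj a) +
        C (β * conj β) * (b * cj b) + C (α * conj β) * (a * cj b) + C (β * conj α) * (b * cj a) := by
      have : cj (C α * a + C β * b) = C (conj α) * cj a + C (conj β) * cj b := by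
        simp [cj]
      rw [this, C_mul, C_mul, C_mul, C_mul]; ring
    rw [e, map_add, map_add, map_add, L_Ck, L_Ck, L_Ck, L_Ck, hab, hba]; ring
  have hre2 := congrArg Complex.re hval
  rw [Complex.mul_conj, Complex.mul_conj, Complex.add_re, Complex.re_ofReal_mul, Complex.re_ofReal_mul,
    Complex.ofReal_re, map_add] at hre2
  have p1 := mul_nonneg (Complex.normSq_nonneg α) haa
  have p2 := mul_nonneg (Complex.normSq_nonneg β) hbb
  rw [II_cx_iff]
  exact ⟨n2 (by linarith), n4 (by linarith)⟩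

/-- no two-dimensional nonnegative subspace, real version -/
theorem PSDr (h : Pk P Q L S Δ) {D : RP} (hD : Dle 3 D) (hD0 : D ≠ 0) (hDS : ∀ s ∈ S, eval s D = 0)
    {a b : RP} (haS : ∀ s ∈ S, eval s a = 0) (hbS : ∀ s ∈ S, eval s b = 0)
    (haa : 0 ≤ L (a * a)) (hbb : 0 ≤ L (b * b)) (hab : L (a * b) = 0) :
    ∃ α β : ℝ, (α ≠ 0 ∨ β ≠ 0) ∧ C α * a + C β * b ∈ II P Q := by
  obtain ⟨α, β, hαβ, h0⟩ : ∃ α β : ℝ, (α ≠ 0 ∨ β ≠ 0) ∧ α * L (a * D) + β * L (b * D) = 0 := by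
    by_cases h1 : L (a * D) = 0
    · exact ⟨1, 0, Or.inl one_ne_zero, by rw [h1]; ring⟩
    · exact ⟨L (b * D), - L (a * D), Or.inr (neg_ne_zero.2 h1), by ring⟩
  refine ⟨α, β, hαβ, ?_⟩
  have h2 := (h.NEG hD hD0 hDS (a := C α * a + C β * b) (by
    intro s hs; rw [map_add, map_mul, map_mul, haS s hs, hbS s hs]; ring) (by
    have e : (C α * a + C β * b) * D = C α * (a * D) + C β * (b * D) := by ring
    rw [e, map_add, L_C, L_C]; exact h0)).2
  apply h2
  have e : (C α * a + C β * b) * (C α * a + C β * b) = C (α * α) * (a * a) + C (2 * α * β) * (a * b) +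
      C (β * β) * (b * b) := by
    simp only [C_mul, Cn2]; ring
  rw [e, map_add, map_add, L_C, L_C, L_C, hab]
  have := mul_nonneg (mul_self_nonneg α) haa
  have := mul_nonneg (mul_self_nonneg β) hbb
  linarith

end Pk

end Run7.h256
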