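import Mathlib
import Pool.Agent.Run7.h256.W5

set_option autoImplicit false

namespace Run7.h256

open MvPolynomial ComplexConjugate

lemma II_Cmul {k : Type*} [Field k] {P Q F : MvPolynomial (Fin 2) k} {c : k} (hc : c ≠ 0)
    (h : C c * F ∈ II P Q) : F ∈ II P Q := by
  have h3 := Ideal.mul_mem_left (II P Q) (C c⁻¹) h
  rw [← mul_assoc, ← C_mul, inv_mul_cancel₀ hc, C_1, one_mul] at h3
  exact h3

namespace Pk

variable {P Q : RP} {L : RP →ₗ[ℝ] ℝ} {S : Finset (Fin 2 → ℝ)} {Δ : (Fin 2 → ℝ) → RP}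

/-- the case in which the divergence vanishes at all complex zeros -/
theorem nil_false (h : Pk P Q L S Δ) {D : RP} (hD : Dle 3 D) (hD0 : D ≠ 0) (hDS : ∀ s ∈ S, eval s D = 0)
    (hT : ∀ t : Fin 2 → ℂ, eval t (cx P) = 0 → eval t (cx Q) = 0 → eval t (cx D) = 0) : False := by
  classical
  have hex := null_real hT
  obtain ⟨k, hk, hmin⟩ : ∃ k, D ^ k ∈ II P Q ∧ ∀ m < k, D ^ m ∉ II P Q :=
    ⟨Nat.find hex, Nat.find_spec hex, fun m hm => Nat.find_min hex hm⟩
  have hne : S.Nonempty := by rw [← Finset.card_pos, h.ss.card]; norm_num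
  obtain ⟨s0, hs0⟩ := hne
  have hk0 : k ≠ 0 := by
    rintro rfl
    have := II_eval hk (h.ss.zero s0 hs0).1 (h.ss.zero s0 hs0).2
    simp at this
  have hk1 : k ≠ 1 := by
    rintro rfl
    rw [pow_one] at hk
    exact hD0 (h.e0.eq_zero3 hk hD)
  have hup : ∀ m, k ≤ m → D ^ m ∈ II P Q := by
    intro m hm
    obtain ⟨j, rfl⟩ := Nat.exists_eq_add_of_le hm
    rw [pow_add]; exact Ideal.mul_mem_right _ _ hk
  have hzS : ∀ m, m ≠ 0 → ∀ G : RP, ∀ s ∈ S, eval s (D ^ m * G) = 0 := by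
    intro m hm G s hs
    rw [map_mul, map_pow, hDS s hs, zero_pow hm, zero_mul]
  obtain ⟨Y, hY⟩ : ∃ Y, Y = D ^ (k - 1) := ⟨_, rfl⟩
  have hYI : Y ∉ II P Q := by rw [hY]; exact hmin _ (by omega)
  have hYY : ∀ G : RP, L (Y * Y * G) = 0 := by
    intro G
    rw [hY, ← pow_add]
    exact h.rs.ker _ (Ideal.mul_mem_right _ _ (hup _ (by omega)))
  have hYS : ∀ G : RP, ∀ s ∈ S, eval s (Y * G) = 0 := by
    intro G s hs; rw [hY]; exact hzS _ (by omega) G s hs
  have hev : ∀ G : RP, ∃ c : ℝ, Y * G - C c * Y ∈ II P Q := by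
    intro G
    obtain ⟨α, β, hαβ, hI⟩ := h.PSDr hD hD0 hDS (a := Y * 1) (b := Y * G) (hYS 1) (hYS G)
      (by have := hYY 1; rw [mul_one] at this ⊢; rw [this])
      (by
        have e : Y * G * (Y * G) = Y * Y * (G * G) := by ring
        rw [e, hYY])
      (by
        have e : Y * 1 * (Y * G) = Y * Y * G := by ring
        rw [e, hYY])
    have hβ : β ≠ 0 := by
      rintro rfl
      rw [C_0, zero_mul, add_zero, mul_one] at hI
      exact hYI (II_Cmul (hαβ.resolve_right (not_not.2 rfl)) hI)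
    refine ⟨-(α / β), ?_⟩
    apply II_Cmul hβ
    have e : C β * (Y * G - C (-(α / β)) * Y) = C α * (Y * 1) + C β * (Y * G) := by
      have : (C α : RP) = C β * C (α / β) := by rw [← C_mul]; congr 1; field_simp
      rw [this, C_neg]; ring
    rw [e]; exact hI
  obtain ⟨c0, hc0⟩ := hev (X 0)
  obtain ⟨c1, hc1⟩ := hev (X 1)
  obtain ⟨t0, ht0⟩ : ∃ t0 : Fin 2 → ℝ, t0 = ![c0, c1] := ⟨_, rfl⟩
  have t00 : t0 0 = c0 := by rw [ht0]; rfl
  have t01 : t0 1 = c1 := by rw [ht0]; rfl
  have hYF : ∀ F : RP, Y * F - C (eval t0 F) * Y ∈ II P Q := by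
    intro F
    obtain ⟨A, B, _, _, hAB⟩ := dec_at F.totalDegree F (by show F.totalDegree ≤ _; omega) t0
    rw [t00, t01] at hAB
    have e : Y * F - C (eval t0 F) * Y = A * (Y * X 0 - C c0 * Y) + B * (Y * X 1 - C c1 * Y) := by
      linear_combination Y * hAB
    rw [e]
    exact Ideal.add_mem _ (Ideal.mul_mem_left _ _ hc0) (Ideal.mul_mem_left _ _ hc1)
  have hLD : L D = 0 := h.rs.low _ (hD.mono (by norm_num))
  by_cases hk4 : 4 ≤ k
  · obtain ⟨α, β, hαβ, hI⟩ := h.PSDr hD hD0 hDS (a := D ^ (k - 1) * 1) (b := D ^ (k - 2) * 1)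
      (hzS _ (by omega) 1) (hzS _ (by omega) 1)
      (by rw [mul_one, ← pow_add, h.rs.ker _ (hup _ (by omega))])
      (by rw [mul_one, ← pow_add, h.rs.ker _ (hup _ (by omega))])
      (by rw [mul_one, mul_one, ← pow_add, h.rs.ker _ (hup _ (by omega))])
    rw [mul_one, mul_one] at hI
    have h1 := Ideal.mul_mem_left _ D hI
    have e1 : D * (C α * D ^ (k - 1) + C β * D ^ (k - 2)) = C α * D ^ k + C β * D ^ (k - 1) := by
      have a1 : D * D ^ (k - 1) = D ^ k := by rw [← pow_succ']; congr 1; omega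
      have a2 : D * D ^ (k - 2) = D ^ (k - 1) := by rw [← pow_succ']; congr 1; omega
      rw [← a1, ← a2]
      ring
    rw [e1] at h1
    have h2 : C β * D ^ (k - 1) ∈ II P Q := by
      have := Ideal.sub_mem _ h1 (Ideal.mul_mem_left _ (C α) hk)
      rwa [add_sub_cancel_left] at this
    have hβ : β = 0 := by
      by_contra hb
      exact hmin _ (by omega) (II_Cmul hb h2)
    rw [hβ, C_0, zero_mul, add_zero] at hI
    exact hmin _ (by omega) (II_Cmul (hαβ.resolve_right (not_not.2 hβ)) hI)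
  · by_cases hk2 : k = 2
    · have hYD : Y = D := by rw [hY, hk2]; simp
      apply hYI
      apply h.e0.nondeg h.rs.rs0
      intro G
      have h1 := h.rs.ker _ (hYF G)
      rw [map_sub, L_C, hYD, hLD, mul_zero, sub_zero] at h1
      rw [hYD]; exact h1
    · have hk3 : k = 3 := by omega
      have hYD : Y = D * D := by rw [hY, hk3]; ring
      have hD3 : ∀ G : RP, L (D * Y * G) = 0 := by
        intro G
        have e : D * Y = D ^ 3 := by rw [hYD]; ring
        rw [e]
        exact h.rs.ker _ (Ideal.mul_mem_right _ _ (hup _ (by omega)))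
      have hg : ∀ i : Fin 2, ∃ γ : ℝ, D * (X i - C (t0 i)) - C γ * Y ∈ II P Q ∧ γ * L Y = 0 := by
        intro i
        obtain ⟨α, β, hαβ, hI⟩ := h.PSDr hD hD0 hDS (a := D ^ 1 * (X i - C (t0 i))) (b := Y * 1)
          (hzS _ (by norm_num) _) (hYS 1)
          (by
            rw [pow_one]
            have h1 := h.rs.ker _ (hYF ((X i - C (t0 i)) * (X i - C (t0 i))))
            rw [map_sub, L_C] at h1
            have h2 : eval t0 ((X i - C (t0 i)) * (X i - C (t0 i)) : RP) = 0 := by simp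
            rw [h2, zero_mul, sub_zero] at h1
            have e : D * (X i - C (t0 i)) * (D * (X i - C (t0 i))) = Y * ((X i - C (t0 i)) * (X i - C (t0 i))) := by
              rw [hYD]; ring
            rw [e, h1])
          (by have := hYY 1; rw [mul_one] at this ⊢; rw [this])
          (by
            rw [pow_one, mul_one]
            have e : D * (X i - C (t0 i)) * Y = D * Y * (X i - C (t0 i)) := by ring
            rw [e, hD3])
        rw [pow_one, mul_one] at hI
        have hα : α ≠ 0 := by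
          rintro rfl
          rw [C_0, zero_mul, zero_add] at hI
          exact hYI (II_Cmul (hαβ.resolve_left (not_not.2 rfl)) hI)
        have h5 : D * (X i - C (t0 i)) - C (-(β / α)) * Y ∈ II P Q := by
          apply II_Cmul hα
          have e : C α * (D * (X i - C (t0 i)) - C (-(β / α)) * Y) = C α * (D * (X i - C (t0 i))) + C β * Y := by
            have : (C β : RP) = C α * C (β / α) := by rw [← C_mul]; congr 1; field_simp
            rw [this, C_neg]; ring
          rw [e]; exact hI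
        refine ⟨-(β / α), h5, ?_⟩
        have h6 := h.rs.ker _ h5
        rw [map_sub, L_C, h.rs.low (D * (X i - C (t0 i)))
          (hD.mul ((Dle.X le_rfl i).sub (Dle.C _)) (by omega)), zero_sub, neg_eq_zero] at h6
        exact h6
      obtain ⟨γ0, g0, g0'⟩ := hg 0
      obtain ⟨γ1, g1, g1'⟩ := hg 1
      have hfin : D ∈ II P Q := by
        apply h.e0.nondeg h.rs.rs0
        intro F
        obtain ⟨A, B, _, _, hAB⟩ := dec_at F.totalDegree F (by show F.totalDegree ≤ _; omega) t0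
        have q0 := h.rs.ker _ (Ideal.mul_mem_left _ A g0)
        have q1 := h.rs.ker _ (Ideal.mul_mem_left _ B g1)
        have y0 := h.rs.ker _ (hYF A)
        have y1 := h.rs.ker _ (hYF B)
        have e0 : A * (D * (X 0 - C (t0 0)) - C γ0 * Y) = A * (D * (X 0 - C (t0 0))) - C γ0 * (Y * A) := by ring
        have e1 : B * (D * (X 1 - C (t0 1)) - C γ1 * Y) = B * (D * (X 1 - C (t0 1))) - C γ1 * (Y * B) := by ring
        rw [e0, map_sub, L_C] at q0
        rw [e1, map_sub, L_C] at q1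
        rw [map_sub, L_C] at y0 y1
        have e : D * F = C (eval t0 F) * D + (A * (D * (X 0 - C (t0 0))) + B * (D * (X 1 - C (t0 1)))) := by
          linear_combination D * hAB
        rw [e, map_add, map_add, L_C, hLD]
        linear_combination q0 + q1 + γ0 * y0 + γ1 * y1 + (eval t0 A) * g0' + (eval t0 B) * g1'
      exact hD0 (h.e0.eq_zero3 hfin hD)

/-- a point with nonzero divergence which is either multiple or a real saddle exists -/
theorem GT1 (h : Pk P Q L S Δ) {D : RP} (hD : Dle 3 D) (hD0 : D ≠ 0) (hDS : ∀ s ∈ S, eval s D = 0)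
    (hT : ∀ t : Fin 2 → ℂ, eval t (cx P) = 0 → eval t (cx Q) = 0 → eval t (cx D) ≠ 0 →
      eval t (Jac (cx P) (cx Q)) ≠ 0 ∧ ((∀ i, conj (t i) = t i) → 0 ≤ (eval t (Jac (cx P) (cx Q))).re)) :
    False := by
  classical
  by_cases hall : ∀ t : Fin 2 → ℂ, eval t (cx P) = 0 → eval t (cx Q) = 0 → eval t (cx D) = 0
  · exact h.nil_false hD hD0 hDS hall
  push Not at hall
  obtain ⟨t0, hP0, hQ0, hD0'⟩ := hall
  have hrc := h.rs.cplx
  have hPc : Dle 4 (cx P) := Dle_cx h.e0.hP
  have hQc : Dle 4 (cx Q) := Dle_cx h.e0.hQ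
  have hzS : ∀ s ∈ S, eval (cp s) (cx P) = 0 ∧ eval (cp s) (cx Q) = 0 := by
    intro s hs
    rw [eval_cx, eval_cx, (h.ss.zero s hs).1, (h.ss.zero s hs).2]
    exact ⟨rfl, rfl⟩
  have hconj : ∀ F : RP, ∀ t : Fin 2 → ℂ, eval t (cx F) = 0 → eval (fun i => conj (t i)) (cx F) = 0 := by
    intro F t ht; rw [eval_cx_conj, ht, map_zero]
  -- local elements
  have hloc : ∀ t : Fin 2 → ℂ, eval t (cx P) = 0 → eval t (cx Q) = 0 → eval t (cx D) ≠ 0 →
      ∃ b : RR, (∀ s ∈ S, eval (cp s) b = 0) ∧ 0 ≤ (Lc L (b * cj b)).re ∧ (∀ F, Lc L (b * F) = eval t F) ∧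
        eval t b = eval t (Jac (cx P) (cx Q)) ∧ (∀ z, eval z (cx P) = 0 → eval z (cx Q) = 0 → z ≠ t → eval z b = 0) := by
    intro t htP htQ htD
    obtain ⟨b, _, hb1, hb2, hb3⟩ := hrc.bz hPc hQc htP htQ
    have hb4 : ∀ z, eval z (cx P) = 0 → eval z (cx Q) = 0 → z ≠ t → eval z b = 0 :=
      fun z hz1 hz2 hz3 => delta_other hb3 hz1 hz2 hz3
    have hb5 : ∀ F, Lc L (b * F) = eval t F := by
      intro F; rw [mul_comm]; exact hrc.mulDelta hb1 hb3 F
    refine ⟨b, ?_, ?_, hb5, hb2, hb4⟩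
    · intro s hs
      apply hb4 _ (hzS s hs).1 (hzS s hs).2
      rintro rfl
      apply htD
      rw [eval_cx, hDS s hs]; rfl
    · rw [hb5]
      have e := eval_cj' b (fun i => conj (t i))
      simp only [Complex.conj_conj] at e
      rw [e]
      by_cases hr : (fun i => conj (t i)) = t
      · rw [hr, hb2, Complex.conj_re]
        exact (hT t htP htQ htD).2 (fun i => congrFun hr i)
      · rw [hb4 _ (hconj P t htP) (hconj Q t htQ) hr]; simp
  -- two points only
  have hcls : ∀ t : Fin 2 → ℂ, eval t (cx P) = 0 → eval t (cx Q) = 0 → eval t (cx D) ≠ 0 →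
      t = t0 ∨ t = (fun i => conj (t0 i)) := by
    intro t htP htQ htD
    by_contra hcon
    push Not at hcon
    obtain ⟨hne1, hne2⟩ := hcon
    obtain ⟨b0, v1, v2, v3, v4, v5⟩ := hloc t0 hP0 hQ0 hD0'
    obtain ⟨b, w1, w2, w3, w4, w5⟩ := hloc t htP htQ htD
    obtain ⟨α, β, hαβ, hI⟩ := h.PSD2 hD hD0 hDS v1 w1 v2 w2 (by
      rw [v3]
      have e := eval_cj' b (fun i => conj (t0 i))
      simp only [Complex.conj_conj] at e
      rw [e, w5 _ (hconj P t0 hP0) (hconj Q t0 hQ0) (Ne.symm hne2), map_zero])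
    have k1 := II_eval hI hP0 hQ0
    have k2 := II_eval hI htP htQ
    rw [map_add, map_mul, map_mul, eval_C, eval_C, w5 t0 hP0 hQ0 (Ne.symm hne1), mul_zero, add_zero, v4] at k1
    rw [map_add, map_mul, map_mul, eval_C, eval_C, v5 t htP htQ hne1, mul_zero, zero_add, w4] at k2
    have k3 := (mul_eq_zero.1 k1).resolve_right (hT t0 hP0 hQ0 hD0').1
    have k4 := (mul_eq_zero.1 k2).resolve_right (hT t htP htQ htD).1
    rcases hαβ with h1 | h1
    · exact h1 k3
    · exact h1 k4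
  obtain ⟨b0, v1, v2, v3, v4, v5⟩ := hloc t0 hP0 hQ0 hD0'
  -- nilpotents vanish
  have hnil : ∀ R : RP, (∀ t : Fin 2 → ℂ, eval t (cx P) = 0 → eval t (cx Q) = 0 → eval t (cx R) = 0) →
      R ∈ II P Q := by
    intro R hR
    have hex := null_real hR
    obtain ⟨k, hk, hmin⟩ : ∃ k, R ^ k ∈ II P Q ∧ ∀ m < k, R ^ m ∉ II P Q :=
      ⟨Nat.find hex, Nat.find_spec hex, fun m hm => Nat.find_min hex hm⟩
    by_contra hRI
    have hk1 : 2 ≤ k := by
      by_contra hlt
      apply hRI
      interval_cases k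
      · rw [pow_zero] at hk
        rw [(Ideal.eq_top_iff_one _).2 hk]; exact Submodule.mem_top
      · rwa [pow_one] at hk
    have hRS : ∀ s ∈ S, eval s R = 0 := by
      intro s hs
      have := hR (cp s) (hzS s hs).1 (hzS s hs).2
      rw [eval_cx] at this
      exact_mod_cast this
    obtain ⟨α, β, hαβ, hI⟩ := h.PSD2 hD hD0 hDS (a := b0) (b := cx (R ^ (k - 1))) v1
      (by
        intro s hs
        rw [eval_cx, map_pow, hRS s hs, zero_pow (by omega)]; rfl) v2
      (by
        rw [cj_cx, ← cx_mul, Lc_cx, Complex.ofReal_re, ← pow_add,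
          h.rs.ker]
        have e : k - 1 + (k - 1) = k + (k - 2) := by omega
        rw [e, pow_add]; exact Ideal.mul_mem_right _ _ hk)
      (by
        rw [v3, cj_cx]
        have e : cx (R ^ (k - 1)) = (cx R) ^ (k - 1) := by simp [cx]
        rw [e, map_pow, hR t0 hP0 hQ0, zero_pow (by omega)])
    have k1 := II_eval hI hP0 hQ0
    have e : cx (R ^ (k - 1)) = (cx R) ^ (k - 1) := by simp [cx]
    rw [map_add, map_mul, map_mul, eval_C, eval_C, v4, e, map_pow, hR t0 hP0 hQ0, zero_pow (by omega),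
      mul_zero, add_zero] at k1
    have k3 := (mul_eq_zero.1 k1).resolve_right (hT t0 hP0 hQ0 hD0').1
    rw [k3, C_0, zero_mul, zero_add] at hI
    exact hmin (k - 1) (by omega) (II_cx.1 (II_Cmul (hαβ.resolve_left (not_not.2 k3)) hI))
  -- the decomposition of the divergence
  obtain ⟨T, hTd⟩ : ∃ T : Finset (Fin 2 → ℂ), T = {t0, (fun i => conj (t0 i))} := ⟨_, rfl⟩
  have hTm : ∀ t ∈ T, eval t (cx P) = 0 ∧ eval t (cx Q) = 0 ∧ eval t (cx D) ≠ 0 := by
    intro t ht
    rw [hTd, Finset.mem_insert, Finset.mem_singleton] at ht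
    rcases ht with rfl | rfl
    · exact ⟨hP0, hQ0, hD0'⟩
    · refine ⟨hconj P t0 hP0, hconj Q t0 hQ0, ?_⟩
      rw [eval_cx_conj]
      intro h0
      apply hD0'
      rw [← Complex.conj_conj (eval t0 (cx D)), h0, map_zero]
  have hl2 : ∀ t ∈ T, ∃ b : RR, (∀ F, Lc L (b * F) = eval t F) ∧ eval t b = eval t (Jac (cx P) (cx Q)) ∧
      (∀ z, eval z (cx P) = 0 → eval z (cx Q) = 0 → z ≠ t → eval z b = 0) := by
    intro t ht
    obtain ⟨t1, t2, t3⟩ := hTm t ht
    obtain ⟨b, _, _, w3, w4, w5⟩ := hloc t t1 t2 t3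
    exact ⟨b, w3, w4, w5⟩
  choose! b hb1 hb2 hb3 using hl2
  obtain ⟨D', hD'⟩ : ∃ D' : RR, D' = cx D - ∑ t ∈ T, C (eval t (cx D) / eval t (Jac (cx P) (cx Q))) * b t :=
    ⟨_, rfl⟩
  have hD'z : ∀ z : Fin 2 → ℂ, eval z (cx P) = 0 → eval z (cx Q) = 0 → eval z D' = 0 := by
    intro z hz1 hz2
    rw [hD', map_sub, map_sum]
    by_cases hzT : z ∈ T
    · obtain ⟨t1, t2, t3⟩ := hTm z hzT
      rw [Finset.sum_eq_single z]
      · rw [map_mul, eval_C, hb2 z hzT, div_mul_cancel₀ _ (hT z t1 t2 t3).1, sub_self]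
      · intro t ht htz
        rw [map_mul, hb3 t ht z hz1 hz2 (Ne.symm htz), mul_zero]
      · intro h1; exact absurd hzT h1
    · rw [Finset.sum_eq_zero, sub_zero]
      · by_contra hzD
        apply hzT
        rw [hTd, Finset.mem_insert, Finset.mem_singleton]
        exact hcls z hz1 hz2 hzD
      · intro t ht
        have : z ≠ t := by rintro rfl; exact hzT ht
        rw [map_mul, hb3 t ht z hz1 hz2 this, mul_zero]
  have hD'I : D' ∈ II (cx P) (cx Q) := by
    rw [II_cx_iff]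
    exact ⟨hnil _ (fun z hz1 hz2 => (rp_ip_vanish (hD'z z hz1 hz2)
        (hD'z _ (hconj P z hz1) (hconj Q z hz2))).1),
      hnil _ (fun z hz1 hz2 => (rp_ip_vanish (hD'z z hz1 hz2)
        (hD'z _ (hconj P z hz1) (hconj Q z hz2))).2)⟩
  -- test with a separating polynomial
  obtain ⟨A, hA1, hA2, hA3⟩ := exists_sep T t0
  have ht0T : t0 ∈ T := by rw [hTd]; exact Finset.mem_insert_self _ _
  have hA : Dle 2 A := by
    refine hA1.mono ?_
    have h1 : T.card ≤ 2 := by rw [hTd]; exact Finset.card_le_two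
    have h2 := Finset.card_erase_le (s := T) (a := t0)
    omega
  have h1 := hrc.low (cx D * A) ((Dle_cx hD).mul hA (by omega))
  have h2 := hrc.ker _ (Ideal.mul_mem_left _ A hD'I)
  have e : cx D * A = A * D' + ∑ t ∈ T, C (eval t (cx D) / eval t (Jac (cx P) (cx Q))) * (b t * A) := by
    rw [hD', mul_sub, Finset.mul_sum]
    rw [show A * cx D - ∑ i ∈ T, A * (C (eval i (cx D) / eval i (Jac (cx P) (cx Q))) * b i) +
      ∑ t ∈ T, C (eval t (cx D) / eval t (Jac (cx P) (cx Q))) * (b t * A) = A * cx D +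
      (∑ t ∈ T, C (eval t (cx D) / eval t (Jac (cx P) (cx Q))) * (b t * A) -
      ∑ i ∈ T, A * (C (eval i (cx D) / eval i (Jac (cx P) (cx Q))) * b i)) by ring]
    rw [← Finset.sum_sub_distrib, Finset.sum_eq_zero]
    · ring
    · intro t _; ring
  rw [e, map_add, h2, zero_add, map_sum, Finset.sum_eq_single t0] at h1
  · rw [L_Ck, hb1 t0 ht0T] at h1
    rcases mul_eq_zero.1 h1 with h3 | h3
    · rw [div_eq_zero_iff] at h3
      rcases h3 with h4 | h4
      · exact hD0' h4
      · exact (hT t0 hP0 hQ0 hD0').1 h4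
    · exact hA2 h3
  · intro t ht htt
    rw [L_Ck, hb1 t ht, hA3 t ht htt, mul_zero]
  · intro h3; exact absurd ht0T h3

end Pk

end Run7.h256
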