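import Mathlib
import Pool.Agent.Run7.h256.Cls3
import Pool.Agent.Run7.h256.W6

set_option autoImplicit false

namespace Run7.h256

open MvPolynomial

/-- the abstract configuration used for the classification -/
structure Bs (P Q : RP) (S : Finset (Fin 2 → ℝ)) : Prop where
  hP : Dle 4 P
  hQ : Dle 4 Q
  card : S.card = 9
  PS : ∀ {p}, p ∈ S → eval p P = 0 ∧ eval p Q = 0
  dS : ∀ p ∈ S, eval p (DD P Q) = 0
  Jn : ∀ p ∈ S, ¬ (eval p (pderiv 0 P) = 0 ∧ eval p (pderiv 1 P) = 0)
  Li : ∀ p ∈ S, ∀ a b c : ℝ, ∀ k : RP, (a ≠ 0 ∨ b ≠ 0) → eval p (C a * X 0 + C b * X 1 + C c) = 0 →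
    C a * P + C b * Q = (C a * X 0 + C b * X 1 + C c) * k → False
  K : ∀ p ∈ S, KC (cx P) (cx Q) (cp p)
  D0 : DD P Q ≠ 0
  conic : ∀ {F : RP}, Dle 2 F → (∀ p ∈ S, eval p F = 0) → F = 0
  cubic : ∀ {F : RP}, Dle 3 F → (∀ p ∈ S, eval p F = 0) → ∃ c : ℝ, F = C c * DD P Q
  inj3 : ∀ {u v : RP}, Dle 3 u → Dle 3 v → u * P + v * Q = 0 → u = 0 ∧ v = 0
  nc : DD P Q ∉ II P Q

/-- a nondegenerate centre has a nonzero linear part -/
lemma Jn_of_J {P Q : RP} {p : Fin 2 → ℝ} (hJ : 0 < eval p (Jac P Q)) :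
    ¬ (eval p (pderiv 0 P) = 0 ∧ eval p (pderiv 1 P) = 0) := by
  rintro ⟨h1, h2⟩
  simp only [Jac, map_sub, map_mul, h1, h2, zero_mul, sub_zero] at hJ
  exact lt_irrefl _ hJ

/-- there is no invariant line through a nondegenerate centre -/
lemma Li_of_J {P Q : RP} {p : Fin 2 → ℝ} (hP : eval p P = 0) (hQ : eval p Q = 0)
    (hJ : 0 < eval p (Jac P Q)) (hD : eval p (DD P Q) = 0) (a b c : ℝ) (K : RP) (hab : a ≠ 0 ∨ b ≠ 0)
    (hz : eval p (C a * X 0 + C b * X 1 + C c) = 0)
    (hK : C a * P + C b * Q = (C a * X 0 + C b * X 1 + C c) * K) : False := by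
  simp only [map_add, map_mul, eval_C, eval_X] at hz
  have e1 := congrArg (fun F => eval p (pderiv 0 F)) hK
  have e2 := congrArg (fun F => eval p (pderiv 1 F)) hK
  simp only [map_add, Derivation.leibniz, smul_eq_mul, map_mul, pderiv_C, p00, p01, p10, p11, eval_C,
    eval_X, mul_zero, add_zero, zero_add, mul_one, hP, hQ] at e1 e2
  rw [hz] at e1 e2
  simp only [DD, Jac, map_add, map_sub, map_mul] at hD hJ
  set px := eval p (pderiv 0 P)
  set py := eval p (pderiv 1 P)
  set qx := eval p (pderiv 0 Q)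
  set qy := eval p (pderiv 1 Q)
  set k := eval p K
  have hq : qy = - px := by linarith
  rw [hq] at hJ e2
  have f1 : a * (k ^ 2 + (px * (-px) - py * qx)) = 0 := by
    linear_combination (-k - px) * e1 - qx * e2
  have f2 : b * (k ^ 2 + (px * (-px) - py * qx)) = 0 := by
    linear_combination (-k + px) * e2 - py * e1
  have hpos : 0 < k ^ 2 + (px * (-px) - py * qx) := by positivity
  rcases hab with h1 | h1
  · exact (mul_ne_zero h1 hpos.ne') f1
  · exact (mul_ne_zero h1 hpos.ne') f2

namespace Bs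

variable {P Q : RP} {S : Finset (Fin 2 → ℝ)}

lemma dD (h : Bs P Q S) : Dle 3 (DD P Q) := Dle_DD h.hP h.hQ

lemma Kreal (h : Bs P Q S) {f α β : RP} (he : f * DD P Q = α * P + β * Q) {p : Fin 2 → ℝ}
    (hp : p ∈ S) : eval p (EE f α β) = 0 := by
  have h1 := h.K p hp (cx f) (cx α) (cx β) (by
    simp only [cx_pderiv]
    rw [← cx_add, ← cx_mul, ← cx_mul, ← cx_mul, ← cx_add]
    exact congrArg cx he)
  rw [cx_EE, eval_cx] at h1
  exact_mod_cast h1

lemma EE_zero (h : Bs P Q S) {f α β : RP} (hf : Dle 2 f) (hα : Dle 1 α) (hβ : Dle 1 β)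
    (he : f * DD P Q = α * P + β * Q) : EE f α β = 0 := by
  apply h.conic _ (fun p hp => h.Kreal he hp)
  unfold EE
  have e1 := hf.mul ((hβ.pderiv (n := 0) 0).sub (hα.pderiv (n := 0) 1)) (n := 2) (by omega)
  have e2 := (hf.pderiv (n := 1) 0).mul hβ (n := 2) (by omega)
  have e3 := (hf.pderiv (n := 1) 1).mul hα (n := 2) (by omega)
  exact e1.sub (e2.sub e3)


/-- an invariant line is of type I -/
lemma typeI_of_inv (h : Bs P Q S) {l : RP} (hl : Dle 1 l) (hl0 : ¬ Dle 0 l) (hd : l ∣ XF P Q l) :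
    TypeI P Q := by
  obtain ⟨a, b, c, rfl⟩ := aff_coords hl
  have hab := aff_ne hl0
  obtain ⟨K, hK⟩ := hd
  have hX : XF P Q (C a * X 0 + C b * X 1 + C c) = C a * P + C b * Q := by
    unfold XF; rw [pd_aff0, pd_aff1]; ring
  rw [hX] at hK
  have hl0' : (C a * X 0 + C b * X 1 + C c : RP) ≠ 0 := by
    intro h0; apply hl0; rw [h0]; exact Dle.zero
  have dK : Dle 3 K := by
    have h1 : Dle 4 ((C a * X 0 + C b * X 1 + C c : RP) * K) := by
      rw [← hK]
      exact ((Dle.C (n := 0) a).mul h.hP (by omega)).add ((Dle.C (n := 0) b).mul h.hQ (by omega))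
    exact (dvd_Dle h1 hl0' hl0).mono (by norm_num)
  have hKS : ∀ p ∈ S, eval p K = 0 := by
    intro p hp
    obtain ⟨hPp, hQp⟩ := h.PS hp
    have e0 := congrArg (eval p) hK
    simp only [map_add, map_mul, eval_C, hPp, hQp, mul_zero, add_zero, eval_X] at e0
    rcases mul_eq_zero.1 e0.symm with hz | hz
    · -- the line passes through p
      exact absurd hK (h.Li p hp a b c K hab (by simpa using hz))
    · exact hz
  obtain ⟨κ, hκ⟩ := h.cubic dK hKS
  have hκ0 : κ ≠ 0 := by
    rintro rfl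
    rw [C_0, zero_mul] at hκ
    rw [hκ, mul_zero] at hK
    obtain ⟨h1, h2⟩ := h.inj3 (Dle.C a) (Dle.C b) hK
    rcases hab with h3 | h3
    · exact h3 (by simpa using h1)
    · exact h3 (by simpa using h2)
  refine ⟨_, κ⁻¹, hl, hl0, ?_⟩
  have e : (C κ⁻¹ * C κ : RP) = 1 := by rw [← C_mul, inv_mul_cancel₀ hκ0, C_1]
  rw [hX, hK, hκ]
  linear_combination ((C a * X 0 + C b * X 1 + C c) * DD P Q) * e

/-- a conic with a real affine factor leads to type I -/
lemma typeI_of_factor (h : Bs P Q S) {l l' α β : RP} (hl : Dle 1 l) (hl0 : ¬ Dle 0 l) (hl' : Dle 1 l')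
    (hf0 : l * l' ≠ 0) (hα : Dle 1 α) (hβ : Dle 1 β) (he : l * l' * DD P Q = α * P + β * Q) :
    TypeI P Q := by
  have hE := h.EE_zero (hl.mul hl' (by omega)) hα hβ he
  have hprime := aff_prime hl hl0
  obtain ⟨a, b, c, hlc⟩ := aff_coords hl
  have hab : a ≠ 0 ∨ b ≠ 0 := by rw [hlc] at hl0; exact aff_ne hl0
  have lx : pderiv 0 l = C a := by rw [hlc, pd_aff0]
  have ly : pderiv 1 l = C b := by rw [hlc, pd_aff1]
  unfold EE at hE
  simp only [Derivation.leibniz, smul_eq_mul, lx, ly] at hE
  have hdl : l ∣ C a * β - C b * α := by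
    by_cases hll : l ∣ l'
    · obtain ⟨e, he'⟩ := hll
      have hl0' : l ≠ 0 := hprime.ne_zero
      have de : Dle 0 e := by
        have h1 : Dle 1 (l * e) := by rw [← he']; exact hl'
        exact dvd_Dle h1 hl0' hl0
      obtain ⟨e0, rfl⟩ : ∃ e0 : ℝ, e = C e0 := by
        refine ⟨coeff 0 e, ?_⟩
        exact (totalDegree_eq_zero_iff_eq_C).1 (Nat.le_zero.1 de)
      have he0 : e0 ≠ 0 := by
        rintro rfl
        rw [C_0, mul_zero] at he'
        rw [he', mul_zero] at hf0
        exact hf0 rfl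
      subst he'
      simp only [Derivation.leibniz, smul_eq_mul, lx, ly, pderiv_C, mul_zero, zero_add] at hE
      have h2 : l * C e0 * (l * (pderiv 0 β - pderiv 1 α) - 2 * (C a * β - C b * α)) = 0 := by
        linear_combination hE
      rcases mul_eq_zero.1 h2 with h3 | h3
      · exfalso
        rcases mul_eq_zero.1 h3 with h4 | h4
        · exact hl0' h4
        · exact he0 (by simpa using h4)
      · refine ⟨C (1 / 2) * (pderiv 0 β - pderiv 1 α), ?_⟩
        have c2 : (C (1 / 2) * 2 : RP) = 1 := by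
          rw [show (2 : RP) = C 2 from (map_ofNat C 2).symm, ← C_mul]; norm_num
        linear_combination (-(C a * β - C b * α)) * c2 - C (1 / 2) * h3
    · have h1 : l ∣ l' * (C a * β - C b * α) := by
        refine ⟨l' * (pderiv 0 β - pderiv 1 α) - pderiv 0 l' * β + pderiv 1 l' * α, ?_⟩
        linear_combination (-1 : RP) * hE
      rcases hprime.dvd_or_dvd h1 with h2 | h2
      · exact absurd h2 hll
      · exact h2
  obtain ⟨κ, hκ⟩ := hdl
  have hX : XF P Q l = C a * P + C b * Q := by unfold XF; rw [lx, ly]; ring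
  have d1 : l ∣ α * XF P Q l := by
    rw [hX]
    refine ⟨C a * l' * DD P Q - κ * Q, ?_⟩
    linear_combination (-C a) * he - Q * hκ
  have d2 : l ∣ β * XF P Q l := by
    rw [hX]
    refine ⟨C b * l' * DD P Q + κ * P, ?_⟩
    linear_combination (-C b) * he + P * hκ
  by_cases hinv : l ∣ XF P Q l
  · exact h.typeI_of_inv hl hl0 hinv
  · have e1 : l ∣ α := (hprime.dvd_or_dvd d1).resolve_right hinv
    have e2 : l ∣ β := (hprime.dvd_or_dvd d2).resolve_right hinv
    obtain ⟨α', rfl⟩ := e1
    obtain ⟨β', rfl⟩ := e2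
    have dα' : Dle 0 α' := dvd_Dle hα hprime.ne_zero hl0
    have dβ' : Dle 0 β' := dvd_Dle hβ hprime.ne_zero hl0
    have he2 : l' * DD P Q = α' * P + β' * Q := by
      apply mul_left_cancel₀ hprime.ne_zero
      linear_combination he
    have hE2 := h.EE_zero (hl'.mono (by norm_num)) (dα'.mono (by norm_num)) (dβ'.mono (by norm_num)) he2
    obtain ⟨u, rfl⟩ : ∃ u : ℝ, α' = C u :=
      ⟨coeff 0 α', (totalDegree_eq_zero_iff_eq_C).1 (Nat.le_zero.1 dα')⟩
    obtain ⟨v, rfl⟩ : ∃ v : ℝ, β' = C v :=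
      ⟨coeff 0 β', (totalDegree_eq_zero_iff_eq_C).1 (Nat.le_zero.1 dβ')⟩
    obtain ⟨a', b', c', hlc'⟩ := aff_coords hl'
    have lx' : pderiv 0 l' = C a' := by rw [hlc', pd_aff0]
    have ly' : pderiv 1 l' = C b' := by rw [hlc', pd_aff1]
    unfold EE at hE2
    rw [lx', ly', pderiv_C, pderiv_C, sub_zero, mul_zero, zero_sub, neg_eq_zero] at hE2
    have hE3 : a' * v - b' * u = 0 := by
      have := congrArg (eval 0) hE2
      simpa using this
    have hl'0 : l' ≠ 0 := right_ne_zero_of_mul hf0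
    by_cases hab' : a' = 0 ∧ b' = 0
    · exfalso
      rw [hab'.1, hab'.2, C_0, zero_mul, zero_mul, zero_add, zero_add] at hlc'
      have hc0 : c' ≠ 0 := by
        rintro rfl
        rw [C_0] at hlc'
        exact hl'0 hlc'
      apply h.nc
      apply II_Cmul hc0
      rw [← hlc', he2]
      exact mem_II.2 ⟨_, _, rfl⟩
    · have hl'd : ¬ Dle 0 l' := by
        intro h0
        apply hab'
        have h1 : l' = C (coeff 0 l') := (totalDegree_eq_zero_iff_eq_C).1 (Nat.le_zero.1 h0)
        have h2 : pderiv 0 l' = 0 := by rw [h1, pderiv_C]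
        have h3 : pderiv 1 l' = 0 := by rw [h1, pderiv_C]
        rw [lx'] at h2
        rw [ly'] at h3
        exact ⟨by simpa using h2, by simpa using h3⟩
      -- (u, v) is a multiple of (a', b')
      obtain ⟨κ', hu', hv'⟩ : ∃ κ' : ℝ, u = κ' * a' ∧ v = κ' * b' := by
        by_cases ha' : a' = 0
        · have hb' : b' ≠ 0 := fun hb => hab' ⟨ha', hb⟩
          refine ⟨v / b', ?_, ?_⟩
          · rw [ha', zero_mul, zero_sub, neg_eq_zero] at hE3
            rcases mul_eq_zero.1 hE3 with h1 | h1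
            · exact absurd h1 hb'
            · rw [h1, ha']; ring
          · field_simp
        · refine ⟨u / a', ?_, ?_⟩
          · field_simp
          · field_simp
            linear_combination hE3
      refine ⟨l', κ', hl', hl'd, ?_⟩
      unfold XF
      rw [lx', ly', he2, hu', hv', C_mul, C_mul]
      ring


/-- `D` does not divide both `P` and `Q` with affine quotients -/
lemma not_both (h : Bs P Q S) {u v : RP} (hu : Dle 1 u) (hv : Dle 1 v) (h1 : P = u * DD P Q)
    (h2 : Q = v * DD P Q) : False := by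
  obtain ⟨h3, h4⟩ := h.inj3 (u := v) (v := -u) (hv.mono (by norm_num)) ((hu.mono (by norm_num)).neg) (by
    linear_combination v * h1 - u * h2)
  have h5 : u = 0 := by linear_combination -h4
  rw [h3, zero_mul] at h2
  rw [h5, zero_mul] at h1
  obtain ⟨h7, _⟩ := h.inj3 (u := 1) (v := 1) Dle.one Dle.one (by rw [h1, h2]; ring)
  exact one_ne_zero h7

/-- the elliptic singular conic is impossible -/
lemma no_ell (h : Bs P Q S) {A B Cc c1 c2 κ δ : ℝ} {f : RP}
    (hf : f = C A * ((X 0 - C c1) * (X 0 - C c1)) + C (2 * B) * ((X 0 - C c1) * (X 1 - C c2)) +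
      C Cc * ((X 1 - C c2) * (X 1 - C c2)))
    (hirr : Irreducible f) (hδ : δ ≠ 0)
    (he : f * DD P Q = C (κ / 2) * XF P Q f + C (δ / 2) * ((X 0 - C c1) * Q - (X 1 - C c2) * P)) : False := by
  have hdisc : 0 < A * Cc - B ^ 2 := by
    by_contra hcon
    exact form_reducible (by linarith) hf hirr
  have hA : A ≠ 0 := by
    rintro rfl
    nlinarith [sq_nonneg B]
  obtain ⟨ξ, hξ⟩ : ∃ ξ : RP, ξ = X 0 - C c1 := ⟨_, rfl⟩
  obtain ⟨η, hη⟩ : ∃ η : RP, η = X 1 - C c2 := ⟨_, rfl⟩
  rw [← hξ, ← hη] at hf he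
  obtain ⟨σ, hσ⟩ : ∃ σ : RP, σ = ξ * Q - η * P := ⟨_, rfl⟩
  rw [← hσ] at he
  have ξx : pderiv 0 ξ = 1 := by rw [hξ, map_sub, p00, pderiv_C, sub_zero]
  have ξy : pderiv 1 ξ = 0 := by rw [hξ, map_sub, p10, pderiv_C, sub_zero]
  have ηx : pderiv 0 η = 0 := by rw [hη, map_sub, p01, pderiv_C, sub_zero]
  have ηy : pderiv 1 η = 1 := by rw [hη, map_sub, p11, pderiv_C, sub_zero]
  have hX : XF P Q f = 2 * ((C A * ξ + C B * η) * P + (C B * ξ + C Cc * η) * Q) := by
    unfold XF
    rw [hf]
    simp only [map_add, Derivation.leibniz, smul_eq_mul, pderiv_C, ξx, ξy, ηx, ηy, C_mul, Cn2, pd2]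
    ring
  have hprime : Prime f := hirr.prime
  have hf2 : Dle 2 f := by
    have d1 : Dle 1 ξ := by rw [hξ]; exact (Dle.X le_rfl 0).sub (Dle.C c1)
    have d2 : Dle 1 η := by rw [hη]; exact (Dle.X le_rfl 1).sub (Dle.C c2)
    rw [hf]
    exact (((Dle.C (n := 0) _).mul (d1.mul d1 (n := 2) (by omega)) (by omega)).add
      ((Dle.C (n := 0) _).mul (d1.mul d2 (n := 2) (by omega)) (by omega))).add
      ((Dle.C (n := 0) _).mul (d2.mul d2 (n := 2) (by omega)) (by omega))
  have hf1 : ¬ Dle 1 f := by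
    intro h1
    obtain ⟨a, b, c, hc⟩ := aff_coords h1
    have h2 : (C A * (X 0 * X 0) + C (2 * B) * (X 0 * X 1) + C Cc * (X 1 * X 1) +
        C (-(2 * A * c1) - 2 * B * c2 - a) * X 0 + C (-(2 * B * c1) - 2 * Cc * c2 - b) * X 1 +
        C (A * c1 ^ 2 + 2 * B * c1 * c2 + Cc * c2 ^ 2 - c) : RP) = 0 := by
      rw [hξ, hη] at hf
      rw [hf] at hc
      simp only [C_mul, C_sub, C_neg, C_add, C_pow, Cn2] at hc ⊢
      linear_combination hc
    exact hA (quad_zero h2).1
  -- divisibility
  have hid : f * (4 * (C A * P * P + 2 * C B * P * Q + C Cc * Q * Q)) =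
      XF P Q f * XF P Q f + 4 * (C A * C Cc - C B * C B) * (σ * σ) := by
    rw [hX, hσ, hf, C_mul, Cn2]; ring
  have c2e : (C (κ / 2) * 2 : RP) = C κ := by rw [← Cn2, ← C_mul]; congr 1; ring
  have d2e : (C (δ / 2) * 2 : RP) = C δ := by rw [← Cn2, ← C_mul]; congr 1; ring
  have he2 : 2 * f * DD P Q = C κ * XF P Q f + C δ * σ := by
    rw [← c2e, ← d2e]; linear_combination 2 * he
  have hσ2 : f ∣ C (δ ^ 2 + 4 * κ ^ 2 * (A * Cc - B ^ 2)) * (σ * σ) := by
    refine ⟨2 * DD P Q * (C δ * σ - C κ * XF P Q f) +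
      C κ * C κ * (4 * (C A * P * P + 2 * C B * P * Q + C Cc * Q * Q)), ?_⟩
    have c4 : (C 4 : RP) = 4 := map_ofNat C 4
    simp only [C_add, C_mul, C_sub, C_pow, c4]
    linear_combination (-(C δ * σ - C κ * XF P Q f)) * he2 - C κ * C κ * hid
  have hcne : δ ^ 2 + 4 * κ ^ 2 * (A * Cc - B ^ 2) ≠ 0 := by
    have : 0 < δ ^ 2 := by positivity
    have : 0 ≤ 4 * κ ^ 2 * (A * Cc - B ^ 2) := by positivity
    positivity
  have hfσ : f ∣ σ := by
    have h1 : f ∣ σ * σ := by
      have hu : IsUnit (C (δ ^ 2 + 4 * κ ^ 2 * (A * Cc - B ^ 2)) : RP) :=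
        (isUnit_iff_ne_zero.2 hcne).map C
      exact (hu.dvd_mul_left).1 hσ2
    rcases hprime.dvd_or_dvd h1 with h2 | h2 <;> exact h2
  have hfX : f ∣ XF P Q f := by
    have h1 : f ∣ XF P Q f * XF P Q f := by
      obtain ⟨k, hk⟩ := hfσ
      refine ⟨4 * (C A * P * P + 2 * C B * P * Q + C Cc * Q * Q) - 4 * (C A * C Cc - C B * C B) * (k * σ), ?_⟩
      linear_combination (-1 : RP) * hid - 4 * (C A * C Cc - C B * C B) * σ * hk
    rcases hprime.dvd_or_dvd h1 with h2 | h2 <;> exact h2
  obtain ⟨K1, hK1⟩ := hfX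
  obtain ⟨K2, hK2⟩ := hfσ
  have dX : Dle 5 (XF P Q f) := by
    unfold XF
    exact (h.hP.mul (hf2.pderiv (n := 1) 0) (by omega)).add (h.hQ.mul (hf2.pderiv (n := 1) 1) (by omega))
  have dK1 : Dle 3 K1 := by
    rw [hK1] at dX
    exact (dvd_Dle dX hprime.ne_zero hf1)
  have dK2 : Dle 3 K2 := by
    have d1 : Dle 1 ξ := by rw [hξ]; exact (Dle.X le_rfl 0).sub (Dle.C c1)
    have d2 : Dle 1 η := by rw [hη]; exact (Dle.X le_rfl 1).sub (Dle.C c2)
    have d3 : Dle 5 σ := by
      rw [hσ]; exact (d1.mul h.hQ (by omega)).sub (d2.mul h.hP (by omega))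
    rw [hK2] at d3
    exact (dvd_Dle d3 hprime.ne_zero hf1)
  have hDK : 2 * DD P Q = C κ * K1 + C δ * K2 := by
    apply mul_left_cancel₀ hprime.ne_zero
    rw [hK1, hK2] at he2
    linear_combination he2
  have evf : ∀ p : Fin 2 → ℝ, A * eval p f = (A * (p 0 - c1) + B * (p 1 - c2)) ^ 2 +
      (A * Cc - B ^ 2) * (p 1 - c2) ^ 2 := by
    intro p
    rw [hf, hξ, hη]
    simp only [map_add, map_mul, map_sub, eval_C, eval_X]
    ring
  -- values at the points of S
  have hS0 : ∀ p ∈ S, eval p K1 = 0 ∧ eval p K2 = 0 := by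
    intro p hp
    obtain ⟨hPp, hQp⟩ := h.PS hp
    by_cases hfp : eval p f = 0
    · exfalso
      have h1 := evf p
      rw [hfp, mul_zero] at h1
      have h2 : p 1 - c2 = 0 := by
        by_contra hne
        have : 0 < (A * Cc - B ^ 2) * (p 1 - c2) ^ 2 := mul_pos hdisc (by positivity)
        nlinarith [sq_nonneg (A * (p 0 - c1) + B * (p 1 - c2))]
      have h3 : p 0 - c1 = 0 := by
        rw [h2] at h1
        have : A * (p 0 - c1) = 0 := by nlinarith
        rcases mul_eq_zero.1 this with h4 | h4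
        · exact absurd h4 hA
        · exact h4
      have eξ : eval p ξ = 0 := by rw [hξ, map_sub, eval_X, eval_C]; exact h3
      have eη : eval p η = 0 := by rw [hη, map_sub, eval_X, eval_C]; exact h2
      -- second derivatives
      have hJ := h.Jn p hp
      have hD := h.dS p hp
      have hDK' := congrArg (eval p) hDK
      rw [hK2] at hσ
      rw [hK1] at hX
      rw [hf] at hσ hX
      have v2 : eval p (2 : RP) = 2 := by rw [← Cn2, eval_C]
      have s1 := congrArg (fun F => eval p (pderiv 0 (pderiv 0 F))) hσ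
      have s2 := congrArg (fun F => eval p (pderiv 0 (pderiv 1 F))) hσ
      have s3 := congrArg (fun F => eval p (pderiv 1 (pderiv 1 F))) hσ
      have r1 := congrArg (fun F => eval p (pderiv 0 (pderiv 0 F))) hX
      simp only [map_add, map_sub, map_mul, Derivation.leibniz, smul_eq_mul, pderiv_C, ξx, ξy, ηx, ηy, C_mul,
        Cn2, pd2, map_zero, map_one, mul_zero, zero_mul, add_zero, zero_add, mul_one, sub_zero, zero_sub, eξ,
        eη, hPp, hQp, eval_C, v2, Derivation.map_one_eq_zero] at s1 s2 s3 r1 hDK'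
      simp only [DD, map_add] at hD hDK'
      set px := eval p (pderiv 0 P)
      set py := eval p (pderiv 1 P)
      set qx := eval p (pderiv 0 Q)
      set qy := eval p (pderiv 1 Q)
      set k1 := eval p K1
      set k2 := eval p K2
      have t1 : qx = k2 * A := by linear_combination (-1 / 2) * s1
      have t2 : qy - px = 2 * B * k2 := by linear_combination (-1 : ℝ) * s2
      have t3 : - py = Cc * k2 := by linear_combination (-1 / 2) * s3
      have t4 : 2 * (A * px + B * qx) = A * k1 := by linear_combination (-1 / 2) * r1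
      have t5 : k1 = 0 := by
        have h6 : A * k1 = 0 := by
          rw [← t4, t1]
          linear_combination A * (hD - t2)
        rcases mul_eq_zero.1 h6 with h7 | h7
        · exact absurd h7 hA
        · exact h7
      have t6 : k2 = 0 := by
        rw [hD, t5] at hDK'
        have h6 : δ * k2 = 0 := by linear_combination -hDK'
        rcases mul_eq_zero.1 h6 with h7 | h7
        · exact absurd h7 hδ
        · exact h7
      rw [t6] at t1 t2 t3
      have h8 : py = 0 := by linear_combination -t3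
      have h9 : px = 0 := by linear_combination (hD - t2) / 2
      exact hJ ⟨h9, h8⟩
    · constructor
      · have := congrArg (eval p) hK1
        unfold XF at this
        simp only [map_add, map_mul, hPp, hQp, zero_mul, add_zero] at this
        rcases mul_eq_zero.1 this.symm with h1 | h1
        · exact absurd h1 hfp
        · exact h1
      · have := congrArg (eval p) hK2
        rw [hσ] at this
        simp only [map_sub, map_mul, hPp, hQp, mul_zero, sub_zero] at this
        rcases mul_eq_zero.1 this.symm with h1 | h1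
        · exact absurd h1 hfp
        · exact h1
  obtain ⟨κ1, hκ1⟩ := h.cubic dK1 (fun p hp => (hS0 p hp).1)
  obtain ⟨κ2, hκ2⟩ := h.cubic dK2 (fun p hp => (hS0 p hp).2)
  have hhalf : (C (1 / 2) * 2 : RP) = 1 := by rw [← Cn2, ← C_mul]; norm_num
  have hPe : P = (C (1 / 2) * (C κ1 * ξ - C κ2 * (2 * (C B * ξ + C Cc * η)))) * DD P Q := by
    apply mul_left_cancel₀ hprime.ne_zero
    have q1 : 2 * f * P = (C κ1 * ξ - C κ2 * (2 * (C B * ξ + C Cc * η))) * (f * DD P Q) := by
      have e1 : 2 * f * P = ξ * XF P Q f - (2 * (C B * ξ + C Cc * η)) * σ := by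
        rw [hX, hσ, hf, C_mul, Cn2]; ring
      rw [e1, hK1, hK2, hκ1, hκ2]; ring
    linear_combination (-(f * P)) * hhalf + C (1 / 2) * q1
  have hQe : Q = (C (1 / 2) * (C κ1 * η + C κ2 * (2 * (C A * ξ + C B * η)))) * DD P Q := by
    apply mul_left_cancel₀ hprime.ne_zero
    have q1 : 2 * f * Q = (C κ1 * η + C κ2 * (2 * (C A * ξ + C B * η))) * (f * DD P Q) := by
      have e1 : 2 * f * Q = η * XF P Q f + (2 * (C A * ξ + C B * η)) * σ := by
        rw [hX, hσ, hf, C_mul, Cn2]; ring
      rw [e1, hK1, hK2, hκ1, hκ2]; ring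
    linear_combination (-(f * Q)) * hhalf + C (1 / 2) * q1
  have d1 : Dle 1 ξ := by rw [hξ]; exact (Dle.X le_rfl 0).sub (Dle.C c1)
  have d2 : Dle 1 η := by rw [hη]; exact (Dle.X le_rfl 1).sub (Dle.C c2)
  have dcm : ∀ (c : ℝ) {F : RP}, Dle 1 F → Dle 1 (C c * F) := fun c F hF =>
    (Dle.C (n := 0) c).mul hF (by omega)
  have d2m : ∀ {F : RP}, Dle 1 F → Dle 1 (2 * F) := fun hF => by rw [← Cn2]; exact dcm _ hF
  exact h.not_both (dcm _ ((dcm _ d1).sub (dcm _ (d2m ((dcm _ d1).add (dcm _ d2))))))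
    (dcm _ ((dcm _ d2).add (dcm _ (d2m ((dcm _ d1).add (dcm _ d2)))))) hPe hQe


/-- conics depending on one linear form are impossible -/
lemma no_dir (h : Bs P Q S) {τ τ' F κ u v : ℝ} {f : RP} (huv : u ≠ 0 ∨ v ≠ 0) (hf1 : ¬ Dle 1 f)
    (hf : f = C τ * ((C u * X 0 + C v * X 1) * (C u * X 0 + C v * X 1)) +
      C (2 * τ') * (C u * X 0 + C v * X 1) + C F)
    (hirr : Irreducible f)
    (he : f * DD P Q = (C κ * (C τ * (C u * X 0 + C v * X 1) + C τ') + 1) * (C u * P + C v * Q)) : False := by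
  have hprime : Prime f := hirr.prime
  have hτ : τ ≠ 0 := by
    rintro rfl
    apply hf1
    rw [hf]
    have : (C 0 * ((C u * X 0 + C v * X 1) * (C u * X 0 + C v * X 1)) +
      C (2 * τ') * (C u * X 0 + C v * X 1) + C F : RP) = C (2 * τ' * u) * X 0 + C (2 * τ' * v) * X 1 + C F := by
      simp only [C_mul, C_0]; ring
    rw [this]; exact Dle_aff _ _ _
  have hdvd : f ∣ (C κ * (C τ * (C u * X 0 + C v * X 1) + C τ') + 1) * (C u * P + C v * Q) := ⟨_, he.symm⟩
  have hne : (C κ * (C τ * (C u * X 0 + C v * X 1) + C τ') + 1 : RP) ≠ 0 := by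
    intro h0
    rw [h0, zero_mul] at he
    rcases mul_eq_zero.1 he with h1 | h1
    · exact hirr.ne_zero h1
    · exact h.D0 h1
  have hd2 : f ∣ C u * P + C v * Q := by
    rcases hprime.dvd_or_dvd hdvd with h1 | h1
    · exfalso
      obtain ⟨g, hg⟩ := h1
      have e1 : (C κ * (C τ * (C u * X 0 + C v * X 1) + C τ') + 1 : RP) =
          C (κ * τ * u) * X 0 + C (κ * τ * v) * X 1 + C (κ * τ' + 1) := by
        simp only [C_mul, C_add, C_1]; ring
      have hg0 : g ≠ 0 := by
        rintro rfl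
        rw [mul_zero] at hg
        exact hne hg
      have h2 : Dle 1 (f * g) := by rw [← hg, e1]; exact Dle_aff _ _ _
      apply hf1
      unfold Dle at *
      rw [totalDegree_mul_eq hprime.ne_zero hg0] at h2
      omega
    · exact h1
  obtain ⟨K, hK⟩ := hd2
  have dK : Dle 2 K := by
    have h1 : Dle 4 (f * K) := by
      rw [← hK]
      exact ((Dle.C (n := 0) u).mul h.hP (by omega)).add ((Dle.C (n := 0) v).mul h.hQ (by omega))
    exact dvd_Dle h1 hprime.ne_zero hf1
  have hKS : ∀ p ∈ S, eval p K = 0 := by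
    intro p hp
    obtain ⟨hPp, hQp⟩ := h.PS hp
    have e0 := congrArg (eval p) hK
    simp only [map_add, map_mul, eval_C, hPp, hQp, mul_zero, add_zero] at e0
    rcases mul_eq_zero.1 e0.symm with hz | hz
    · exfalso
      set lam := u * p 0 + v * p 1 with hlam
      have e1 : τ * lam * lam + 2 * τ' * lam + F = 0 := by
        rw [hf] at hz
        simp only [map_add, map_mul, eval_C, eval_X] at hz
        rw [hlam]; linear_combination hz
      have e2 : f = (C u * X 0 + C v * X 1 + C (-lam)) *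
          (C (τ * u) * X 0 + C (τ * v) * X 1 + C (τ * lam + 2 * τ')) := by
        have e3 : (C F : RP) = - (C τ * C lam * C lam + 2 * C τ' * C lam) := by
          rw [← Cn2, ← C_mul, ← C_mul, ← C_mul, ← C_mul, ← C_add, ← C_neg]
          congr 1; linear_combination e1
        rw [hf, e3]
        simp only [C_mul, C_neg, C_add, Cn2]
        ring
      rcases hirr.isUnit_or_isUnit e2 with h1 | h1
      · exact not_unit (notDle_aff huv) h1
      · apply not_unit (notDle_aff _) h1
        rcases huv with h2 | h2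
        · exact Or.inl (mul_ne_zero hτ h2)
        · exact Or.inr (mul_ne_zero hτ h2)
    · exact hz
  have hK0 := h.conic dK hKS
  rw [hK0, mul_zero] at hK
  obtain ⟨h1, h2⟩ := h.inj3 (Dle.C u) (Dle.C v) hK
  rcases huv with h3 | h3
  · exact h3 (by simpa using h1)
  · exact h3 (by simpa using h2)

/-- classification -/
theorem cls (h : Bs P Q S) {f α β : RP} (hf : Dle 2 f) (hf0 : f ≠ 0)
    (hα : Dle 1 α) (hβ : Dle 1 β) (he : f * DD P Q = α * P + β * Q) :
    TypeI P Q ∨ (Irreducible f ∧ ¬ Dle 1 f ∧ ∃ c : ℝ, C c * XF P Q f = f * DD P Q) := by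
  by_cases hf1 : Dle 1 f
  · left
    have hfd : ¬ Dle 0 f := by
      intro h0
      have h1 : f = C (coeff 0 f) := (totalDegree_eq_zero_iff_eq_C).1 (Nat.le_zero.1 h0)
      have hc0 : coeff 0 f ≠ 0 := by
        intro h2
        rw [h2, C_0] at h1
        exact hf0 h1
      apply h.nc
      apply II_Cmul hc0
      rw [← h1, he]
      exact mem_II.2 ⟨_, _, rfl⟩
    exact h.typeI_of_factor hf1 hfd (l' := 1) Dle.one (by rwa [mul_one]) hα hβ (by rw [mul_one]; exact he)
  by_cases hirr : Irreducible f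
  · have hE := h.EE_zero hf hα hβ he
    obtain ⟨A, B, Cc, D, E, F, hfc⟩ := quad_coords hf
    obtain ⟨a1, a2, a0, rfl⟩ := aff_coords hα
    obtain ⟨b1, b2, b0, rfl⟩ := aff_coords hβ
    have hfq : f = qd A B Cc D E F := hfc
    rw [hfq] at hE
    obtain ⟨g1, g2, g3, g4, g5, g6⟩ := EE_coords hE
    have hABC : ¬ (A = 0 ∧ B = 0 ∧ Cc = 0) := by
      rintro ⟨rfl, rfl, rfl⟩
      apply hf1
      rw [hfc]
      simp only [C_0, mul_zero, zero_mul, zero_add]
      exact Dle_aff _ _ _
    obtain ⟨κ, k1, k2, k3⟩ : ∃ κ : ℝ, a1 = κ * A ∧ a2 + b1 = 2 * κ * B ∧ b2 = κ * Cc := by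
      by_cases hA : A = 0
      · by_cases hC : Cc = 0
        · have hB : B ≠ 0 := fun hB => hABC ⟨hA, hB, hC⟩
          refine ⟨(a2 + b1) / (2 * B), ?_, ?_, ?_⟩
          · rw [hA] at g1
            have h1 : B * a1 = 0 := by linear_combination g1 / 2
            rcases mul_eq_zero.1 h1 with h2 | h2
            · exact absurd h2 hB
            · rw [h2, hA]; ring
          · field_simp
          · rw [hC] at g3
            have h1 : B * b2 = 0 := by linear_combination -g3 / 2
            rcases mul_eq_zero.1 h1 with h2 | h2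
            · exact absurd h2 hB
            · rw [h2, hC]; ring
        · refine ⟨b2 / Cc, ?_, ?_, ?_⟩
          · field_simp
            linear_combination g2 / 2
          · field_simp
            linear_combination g3
          · field_simp
      · refine ⟨a1 / A, ?_, ?_, ?_⟩
        · field_simp
        · field_simp
          linear_combination -g1
        · field_simp
          linear_combination -g2 / 2
    obtain ⟨δ, hδ⟩ : ∃ δ, δ = b1 - a2 := ⟨_, rfl⟩
    obtain ⟨u, hu⟩ : ∃ u, u = a0 - κ * D := ⟨_, rfl⟩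
    obtain ⟨v, hv⟩ : ∃ v, v = b0 - κ * E := ⟨_, rfl⟩
    have eb1 : b1 = κ * B + δ / 2 := by linear_combination hδ / (-2) + k2 / 2
    have ea2 : a2 = κ * B - δ / 2 := by linear_combination k2 / 2 + hδ / 2
    have ea0 : a0 = u + κ * D := by linear_combination -hu
    have eb0 : b0 = v + κ * E := by linear_combination -hv
    subst k1 k3 eb1 ea2 ea0 eb0
    have q1 : D * δ = 2 * (A * v - B * u) := by linear_combination g4
    have q2 : E * δ = 2 * (B * v - Cc * u) := by linear_combination g5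
    have q3 : F * δ = 2 * (D * v - E * u) := by linear_combination g6
    by_cases hδ0 : δ = 0
    · by_cases huv : u = 0 ∧ v = 0
      · right
        refine ⟨hirr, hf1, κ / 2, ?_⟩
        rw [he, huv.1, huv.2, hδ0]
        unfold XF
        rw [hfq, qd_x, qd_y]
        have c2e : (C (κ / 2) * 2 : RP) = C κ := by rw [← Cn2, ← C_mul]; congr 1; ring
        simp only [C_mul, C_add, C_sub, C_0, zero_div, add_zero, sub_zero, zero_add]
        linear_combination ((C A * X 0 + C B * X 1 + C D) * P + (C B * X 0 + C Cc * X 1 + C E) * Q) * c2e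
      · exfalso
        rw [hδ0] at q1 q2 q3
        have huv' : u ≠ 0 ∨ v ≠ 0 := by
          by_contra hcon
          push Not at hcon
          exact huv hcon
        obtain ⟨τ, τ', w1, w2, w3, w4, w5⟩ : ∃ τ τ' : ℝ, A = τ * u * u ∧ B = τ * u * v ∧ Cc = τ * v * v ∧
            D = τ' * u ∧ E = τ' * v := by
          by_cases hu0 : u = 0
          · have hv0 : v ≠ 0 := fun hv0 => huv ⟨hu0, hv0⟩
            rw [hu0] at q1 q2 q3
            have hA : A = 0 := by
              have : A * v = 0 := by linear_combination -q1 / 2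
              exact (mul_eq_zero.1 this).resolve_right hv0
            have hB : B = 0 := by
              have : B * v = 0 := by linear_combination -q2 / 2
              exact (mul_eq_zero.1 this).resolve_right hv0
            have hD : D = 0 := by
              have : D * v = 0 := by linear_combination -q3 / 2
              exact (mul_eq_zero.1 this).resolve_right hv0
            refine ⟨Cc / (v * v), E / v, by rw [hA, hu0]; ring, by rw [hB, hu0]; ring, by field_simp,
              by rw [hD, hu0]; ring, by field_simp⟩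
          · have r1 : B = A * v / u := by field_simp; linear_combination q1 / 2
            have r2 : Cc = B * v / u := by field_simp; linear_combination q2 / 2
            have r3 : E = D * v / u := by field_simp; linear_combination q3 / 2
            refine ⟨A / (u * u), D / u, by field_simp, by rw [r1]; field_simp,
              by rw [r2, r1]; field_simp, by field_simp, by rw [r3]; field_simp⟩
        refine h.no_dir (τ := τ) (τ' := τ') (F := F) (κ := κ) huv' hf1 ?_ hirr ?_
        · rw [hfc, w1, w2, w3, w4, w5]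
          simp only [C_mul, Cn2]
          ring
        · rw [he, hδ0, w1, w2, w3, w4, w5]
          simp only [C_mul, C_add, C_sub, C_0, zero_div, add_zero, sub_zero]
          ring
    · exfalso
      refine h.no_ell (A := A) (B := B) (Cc := Cc) (c1 := -(2 * v / δ)) (c2 := 2 * u / δ) (κ := κ) (δ := δ)
        ?_ hirr hδ0 ?_
      · have y1 : D = A * (2 * v / δ) - B * (2 * u / δ) := by field_simp; linear_combination q1
        have y2 : E = B * (2 * v / δ) - Cc * (2 * u / δ) := by field_simp; linear_combination q2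
        have y3 : F = D * (2 * v / δ) - E * (2 * u / δ) := by field_simp; linear_combination q3
        rw [hfc, y3, y1, y2]
        generalize 2 * v / δ = s1
        generalize 2 * u / δ = s2
        simp only [C_mul, C_add, C_sub, C_neg, Cn2]
        ring
      · rw [he]
        unfold XF
        rw [hfq, qd_x, qd_y]
        have c2e : (C (κ / 2) * 2 : RP) = C κ := by rw [← Cn2, ← C_mul]; congr 1; ring
        have z1 : (C (δ / 2) * C (2 * u / δ) : RP) = C u := by rw [← C_mul]; congr 1; field_simp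
        have z2 : (C (δ / 2) * C (2 * v / δ) : RP) = C v := by rw [← C_mul]; congr 1; field_simp
        simp only [C_mul, C_add, C_sub, C_neg] at z1 z2 ⊢
        linear_combination (-1 : RP) * ((C A * X 0 + C B * X 1 + C D) * P +
          (C B * X 0 + C Cc * X 1 + C E) * Q) * c2e - P * z1 - Q * z2
  · -- reducible
    left
    have hnu : ¬ IsUnit f := not_unit (fun h0 => hf1 (h0.mono (by norm_num)))
    rw [irreducible_iff] at hirr
    push Not at hirr
    obtain ⟨a, b, hab, ha, hb⟩ := hirr hnu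
    have ha0 : a ≠ 0 := by rintro rfl; rw [zero_mul] at hab; exact hf0 hab
    have hb0 : b ≠ 0 := by rintro rfl; rw [mul_zero] at hab; exact hf0 hab
    have ha1 : ¬ Dle 0 a := fun h0 => ha (unit_of ha0 h0)
    have hb1 : ¬ Dle 0 b := fun h0 => hb (unit_of hb0 h0)
    have hdeg := totalDegree_mul_eq ha0 hb0
    rw [← hab] at hdeg
    have hda : Dle 1 a := by unfold Dle at *; omega
    have hdb : Dle 1 b := by unfold Dle at *; omega
    rw [hab] at he hf0
    exact h.typeI_of_factor hda ha1 hdb hf0 hα hβ he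

end Bs

end Run7.h256
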