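import Mathlib
import Pool.Agent.Run7.h256.TG
import Pool.Agent.Run7.h256.V1

set_option autoImplicit false

namespace Run7.h256

open MvPolynomial ComplexConjugate

/-! ### structure-free facts on invariant curves -/

lemma gInvVanish {P Q f : RP} {c : ℝ} (he : C c * XF P Q f = f * DD P Q) {t : Fin 2 → ℂ}
    (h1 : eval t (cx P) = 0) (h2 : eval t (cx Q) = 0) (hD : eval t (cx (DD P Q)) ≠ 0) :
    eval t (cx f) = 0 := by
  have e := congrArg (fun F => eval t (cx F)) he
  simp only [XF, cx_mul, cx_add, map_mul, map_add, h1, h2, zero_mul, add_zero, mul_zero] at e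
  exact (mul_eq_zero.1 e.symm).resolve_right hD

lemma gInvDeriv {P Q f : RP} {c : ℝ} (he : C c * XF P Q f = f * DD P Q) {t : Fin 2 → ℂ}
    (h1 : eval t (cx P) = 0) (h2 : eval t (cx Q) = 0) (hD : eval t (cx (DD P Q)) ≠ 0) :
    (c : ℂ) * (eval t (cx (pderiv 0 P)) * eval t (cx (pderiv 0 f)) +
      eval t (cx (pderiv 0 Q)) * eval t (cx (pderiv 1 f))) =
        eval t (cx (pderiv 0 f)) * eval t (cx (DD P Q)) ∧
    (c : ℂ) * (eval t (cx (pderiv 1 P)) * eval t (cx (pderiv 0 f)) +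
      eval t (cx (pderiv 1 Q)) * eval t (cx (pderiv 1 f))) =
        eval t (cx (pderiv 1 f)) * eval t (cx (DD P Q)) := by
  have h3 := gInvVanish he h1 h2 hD
  have e0 := congrArg (fun F => eval t (cx (pderiv 0 F))) he
  have e1 := congrArg (fun F => eval t (cx (pderiv 1 F))) he
  simp only [XF, Derivation.leibniz, smul_eq_mul, pderiv_C, map_add, cx_mul, cx_add, cx_C, map_mul,
    h1, h2, h3, zero_mul, add_zero, mul_zero, zero_add, eval_C] at e0 e1
  constructor
  · linear_combination e0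
  · linear_combination e1

lemma gJFormula {P Q f : RP} {c : ℝ} (he : C c * XF P Q f = f * DD P Q) {t : Fin 2 → ℂ}
    (h1 : eval t (cx P) = 0) (h2 : eval t (cx Q) = 0) (hD0 : eval t (cx (DD P Q)) ≠ 0)
    (hne : eval t (cx (pderiv 0 f)) ≠ 0 ∨ eval t (cx (pderiv 1 f)) ≠ 0) :
    (c : ℂ) ^ 2 * eval t (Jac (cx P) (cx Q)) = ((c : ℂ) - 1) * eval t (cx (DD P Q)) ^ 2 := by
  obtain ⟨e0, e1⟩ := gInvDeriv he h1 h2 hD0
  rw [cx_Jac]
  have hD : eval t (cx (DD P Q)) = eval t (cx (pderiv 0 P)) + eval t (cx (pderiv 1 Q)) := by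
    rw [DD, cx_add, map_add]
  simp only [Jac, cx_sub, cx_mul, map_sub, map_mul]
  rw [hD] at e0 e1 ⊢
  set px := eval t (cx (pderiv 0 P))
  set py := eval t (cx (pderiv 1 P))
  set qx := eval t (cx (pderiv 0 Q))
  set qy := eval t (cx (pderiv 1 Q))
  set a := eval t (cx (pderiv 0 f))
  set b := eval t (cx (pderiv 1 f))
  have f1 : a * ((c : ℂ) ^ 2 * (px * qy - py * qx) - ((c : ℂ) - 1) * (px + qy) ^ 2) = 0 := by
    linear_combination (c * qy - (px + qy)) * e0 - c * qx * e1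
  have f2 : b * ((c : ℂ) ^ 2 * (px * qy - py * qx) - ((c : ℂ) - 1) * (px + qy) ^ 2) = 0 := by
    linear_combination (c * px - (px + qy)) * e1 - c * py * e0
  rcases hne with h3 | h3
  · have := (mul_eq_zero.1 f1).resolve_left h3
    linear_combination this
  · have := (mul_eq_zero.1 f2).resolve_left h3
    linear_combination this

lemma gSing {P Q f : RP} {c A B Cc D E F : ℝ} (hfq : f = qd A B Cc D E F)
    (he : C c * XF P Q f = f * DD P Q) {t : Fin 2 → ℂ}
    (hz1 : eval t (cx P) = 0) (hz2 : eval t (cx Q) = 0) (hD0 : eval t (cx (DD P Q)) ≠ 0)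
    (h0 : (A : ℂ) * t 0 + B * t 1 + D = 0) (h1 : (B : ℂ) * t 0 + Cc * t 1 + E = 0) :
    (c - 1) * (A * Cc - B ^ 2) = 0 := by
  have hft := gInvVanish he hz1 hz2 hD0
  have fx : pderiv 0 f = C (2 * A) * X 0 + C (2 * B) * X 1 + C (2 * D) := by
    rw [hfq, qd_x]; simp only [C_mul, Cn2]; ring
  have fy : pderiv 1 f = C (2 * B) * X 0 + C (2 * Cc) * X 1 + C (2 * E) := by
    rw [hfq, qd_y]; simp only [C_mul, Cn2]; ring
  have gx : eval t (cx (pderiv 0 f)) = 0 := by
    rw [fx]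
    simp only [cx_add, cx_mul, cx_C, cx_X, map_add, map_mul, eval_C, eval_X]
    push_cast
    linear_combination 2 * h0
  have gy : eval t (cx (pderiv 1 f)) = 0 := by
    rw [fy]
    simp only [cx_add, cx_mul, cx_C, cx_X, map_add, map_mul, eval_C, eval_X]
    push_cast
    linear_combination 2 * h1
  have fxx : pderiv 0 (pderiv 0 f) = C (2 * A) := by rw [fx, pd_aff0]
  have fxy : pderiv 1 (pderiv 0 f) = C (2 * B) := by rw [fx, pd_aff1]
  have fyx : pderiv 0 (pderiv 1 f) = C (2 * B) := by rw [fy, pd_aff0]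
  have fyy : pderiv 1 (pderiv 1 f) = C (2 * Cc) := by rw [fy, pd_aff1]
  have e0 := congrArg (fun G => eval t (cx (pderiv 0 (pderiv 0 G)))) he
  have e1 := congrArg (fun G => eval t (cx (pderiv 1 (pderiv 0 G)))) he
  have e2 := congrArg (fun G => eval t (cx (pderiv 1 (pderiv 1 G)))) he
  simp only [XF, Derivation.leibniz, smul_eq_mul, pderiv_C, map_add, cx_mul, cx_add, cx_C,
    map_mul, fxx, fxy, fyx, fyy, hft, gx, gy, zero_mul, add_zero, mul_zero, zero_add, eval_C]
    at e0 e1 e2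
  have hDe : eval t (cx (DD P Q)) = eval t (cx (pderiv 0 P)) + eval t (cx (pderiv 1 Q)) := by
    rw [DD, cx_add, map_add]
  have key : ((c : ℂ) - 1) * ((A : ℂ) * Cc - (B : ℂ) ^ 2) * eval t (cx (DD P Q)) = 0 := by
    push_cast at e0 e1 e2
    rw [hDe] at e0 e1 e2 ⊢
    linear_combination (Cc / 4 : ℂ) * e0 - (B / 2 : ℂ) * e1 + (A / 4 : ℂ) * e2
  have k2 := (mul_eq_zero.1 key).resolve_right hD0
  exact_mod_cast k2

/-! ### top degree relations -/

lemma gTopI {P Q : RP} (hP : Dle 4 P) (hQ : Dle 4 Q) {a b e c : ℝ}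
    (he : C c * XF P Q (C a * X 0 + C b * X 1 + C e) = (C a * X 0 + C b * X 1 + C e) * DD P Q) :
    C c * (C a * hc 4 P + C b * hc 4 Q) =
      (C a * X 0 + C b * X 1) * (pderiv 0 (hc 4 P) + pderiv 1 (hc 4 Q)) := by
  have dP : Dle 3 (P - hc 4 P) := sub_hc_Dle hP
  have dQ : Dle 3 (Q - hc 4 Q) := sub_hc_Dle hQ
  have hp := hc_homog 4 P
  have hq := hc_homog 4 Q
  have hdD : Dle 3 (DD P Q) := Dle_DD hP hQ
  rw [← sub_eq_zero]
  apply homog_Dle_zero (n := 4) (m := 3)
  · refine IsHomogeneous.sub (((hp.C_mul a).add (hq.C_mul b)).C_mul c) ?_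
    have := (homog_lin a b).mul ((homog_pd hp 0).add (homog_pd hq 1))
    exact this
  · have e1 : C c * (C a * hc 4 P + C b * hc 4 Q) -
        (C a * X 0 + C b * X 1) * (pderiv 0 (hc 4 P) + pderiv 1 (hc 4 Q)) =
        -(C c * (C a * (P - hc 4 P) + C b * (Q - hc 4 Q)) -
          (C a * X 0 + C b * X 1) * (pderiv 0 (P - hc 4 P) + pderiv 1 (Q - hc 4 Q)) - C e * DD P Q) := by
      have hX : XF P Q (C a * X 0 + C b * X 1 + C e) = C a * P + C b * Q := by
        unfold XF; rw [pd_aff0, pd_aff1]; ring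
      rw [hX] at he
      unfold DD at he ⊢
      simp only [map_sub]
      linear_combination he
    rw [e1]
    refine Dle.neg ((Dle.sub ?_ ?_).sub ((Dle.C (n := 0) e).mul hdD (by omega)))
    · exact (Dle.C (n := 0) c).mul (((Dle.C (n := 0) a).mul dP (show 0 + 3 ≤ 3 by omega)).add
        ((Dle.C (n := 0) b).mul dQ (show 0 + 3 ≤ 3 by omega))) (by omega)
    · exact (Dle_lin a b).mul ((Dle.pderiv (n := 2) dP 0).add (Dle.pderiv (n := 2) dQ 1)) (by omega)
  · norm_num

lemma gTopII {P Q : RP} (hP : Dle 4 P) (hQ : Dle 4 Q) {f f2 f1 : RP} {c : ℝ} (hff : f = f2 + f1)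
    (h2 : f2.IsHomogeneous 2) (h1 : Dle 1 f1) (he : C c * XF P Q f = f * DD P Q) :
    C c * (pderiv 0 f2 * hc 4 P + pderiv 1 f2 * hc 4 Q) =
      f2 * (pderiv 0 (hc 4 P) + pderiv 1 (hc 4 Q)) := by
  have dP : Dle 3 (P - hc 4 P) := sub_hc_Dle hP
  have dQ : Dle 3 (Q - hc 4 Q) := sub_hc_Dle hQ
  have hp := hc_homog 4 P
  have hq := hc_homog 4 Q
  have hdD : Dle 3 (DD P Q) := Dle_DD hP hQ
  rw [← sub_eq_zero]
  apply homog_Dle_zero (n := 5) (m := 4)
  · refine IsHomogeneous.sub ?_ ?_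
    · exact (((homog_pd h2 0).mul hp).add ((homog_pd h2 1).mul hq)).C_mul c
    · exact h2.mul ((homog_pd hp 0).add (homog_pd hq 1))
  · have e1 : C c * (pderiv 0 f2 * hc 4 P + pderiv 1 f2 * hc 4 Q) -
        f2 * (pderiv 0 (hc 4 P) + pderiv 1 (hc 4 Q)) =
        -(C c * (pderiv 0 f2 * (P - hc 4 P) + pderiv 1 f2 * (Q - hc 4 Q) + pderiv 0 f1 * P + pderiv 1 f1 * Q) -
          f2 * (pderiv 0 (P - hc 4 P) + pderiv 1 (Q - hc 4 Q)) - f1 * DD P Q) := by
      rw [hff] at he
      unfold XF DD at he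
      unfold DD
      simp only [map_sub, map_add] at he ⊢
      linear_combination he
    rw [e1]
    have d2 : Dle 2 f2 := homog_Dle h2
    have a0 : ∀ i, Dle 1 (pderiv i f2) := fun i => Dle.pderiv (n := 1) d2 i
    have a1 : ∀ i, Dle 0 (pderiv i f1) := fun i => Dle.pderiv (n := 0) h1 i
    refine Dle.neg ((Dle.sub ?_ ?_).sub (h1.mul hdD (by omega)))
    · refine (Dle.C (n := 0) c).mul (b := 4) ((((((a0 0).mul dP ?_).add ((a0 1).mul dQ ?_)).add
        ((a1 0).mul hP ?_)).add ((a1 1).mul hQ ?_))) (by omega) <;> omega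
    · exact d2.mul ((Dle.pderiv (n := 2) dP 0).add (Dle.pderiv (n := 2) dQ 1)) (by omega)
  · norm_num

lemma gSecII {P Q : RP} (hP : Dle 4 P) (hQ : Dle 4 Q) {f f2 f1 : RP} {c F : ℝ} (hff : f = f2 + f1 + C F)
    (h2 : f2.IsHomogeneous 2) (h1 : f1.IsHomogeneous 1) (he : C c * XF P Q f = f * DD P Q) :
    C c * (pderiv 0 f2 * hc 3 P + pderiv 1 f2 * hc 3 Q + pderiv 0 f1 * hc 4 P + pderiv 1 f1 * hc 4 Q) =
      f2 * (pderiv 0 (hc 3 P) + pderiv 1 (hc 3 Q)) + f1 * (pderiv 0 (hc 4 P) + pderiv 1 (hc 4 Q)) := by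
  have dP : Dle 3 (P - hc 4 P) := sub_hc_Dle hP
  have dQ : Dle 3 (Q - hc 4 Q) := sub_hc_Dle hQ
  have hp := hc_homog 4 P
  have hq := hc_homog 4 Q
  have hp3 := hc_homog 3 P
  have hq3 := hc_homog 3 Q
  have hdD : Dle 3 (DD P Q) := Dle_DD hP hQ
  have dP2 : Dle 2 (P - hc 4 P - hc 3 P) := by
    have e : hc 3 (P - hc 4 P) = hc 3 P := by
      ext d
      rw [coeff_hc, coeff_sub, coeff_hc, coeff_hc]
      by_cases hd : d 0 + d 1 = 3
      · rw [if_pos hd, if_neg (by omega), if_pos hd, sub_zero]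
      · rw [if_neg hd, if_neg hd]
    have := sub_hc_Dle dP
    rwa [e] at this
  have dQ2 : Dle 2 (Q - hc 4 Q - hc 3 Q) := by
    have e : hc 3 (Q - hc 4 Q) = hc 3 Q := by
      ext d
      rw [coeff_hc, coeff_sub, coeff_hc, coeff_hc]
      by_cases hd : d 0 + d 1 = 3
      · rw [if_pos hd, if_neg (by omega), if_pos hd, sub_zero]
      · rw [if_neg hd, if_neg hd]
    have := sub_hc_Dle dQ
    rwa [e] at this
  have htop := gTopII hP hQ (f := f) (f2 := f2) (f1 := f1 + C F) (by rw [hff]; ring) h2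
    ((homog_Dle h1).add (Dle.C F)) he
  rw [← sub_eq_zero]
  apply homog_Dle_zero (n := 4) (m := 3)
  · refine IsHomogeneous.sub ?_ ?_
    · refine IsHomogeneous.C_mul ?_ c
      have t1 := (homog_pd h2 0).mul hp3
      have t2 := (homog_pd h2 1).mul hq3
      have t3 := (homog_pd (n := 0) h1 0).mul hp
      have t4 := (homog_pd (n := 0) h1 1).mul hq
      rw [zero_add] at t3 t4
      exact ((t1.add t2).add t3).add t4
    · exact (h2.mul ((homog_pd hp3 0).add (homog_pd hq3 1))).add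
        (h1.mul ((homog_pd hp 0).add (homog_pd hq 1)))
  · have e1 : C c * (pderiv 0 f2 * hc 3 P + pderiv 1 f2 * hc 3 Q + pderiv 0 f1 * hc 4 P + pderiv 1 f1 * hc 4 Q) -
        (f2 * (pderiv 0 (hc 3 P) + pderiv 1 (hc 3 Q)) + f1 * (pderiv 0 (hc 4 P) + pderiv 1 (hc 4 Q))) =
        -(C c * (pderiv 0 f2 * (P - hc 4 P - hc 3 P) + pderiv 1 f2 * (Q - hc 4 Q - hc 3 Q) +
            pderiv 0 f1 * (P - hc 4 P) + pderiv 1 f1 * (Q - hc 4 Q)) -
          f2 * (pderiv 0 (P - hc 4 P - hc 3 P) + pderiv 1 (Q - hc 4 Q - hc 3 Q)) -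
          f1 * (pderiv 0 (P - hc 4 P) + pderiv 1 (Q - hc 4 Q)) - C F * DD P Q) := by
      rw [hff] at he
      unfold XF DD at he
      unfold DD
      simp only [map_sub, map_add, pderiv_C] at he ⊢
      linear_combination he - htop
    rw [e1]
    have d2 : Dle 2 f2 := homog_Dle h2
    have d1 : Dle 1 f1 := homog_Dle h1
    have a0 : ∀ i, Dle 1 (pderiv i f2) := fun i => Dle.pderiv (n := 1) d2 i
    have a1 : ∀ i, Dle 0 (pderiv i f1) := fun i => Dle.pderiv (n := 0) d1 i
    refine Dle.neg (((Dle.sub ?_ ?_).sub ?_).sub ((Dle.C (n := 0) F).mul hdD (by omega)))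
    · refine (Dle.C (n := 0) c).mul (b := 3) ((((((a0 0).mul dP2 ?_).add ((a0 1).mul dQ2 ?_)).add
        ((a1 0).mul dP ?_)).add ((a1 1).mul dQ ?_))) (by omega) <;> omega
    · exact d2.mul ((Dle.pderiv (n := 1) dP2 0).add (Dle.pderiv (n := 1) dQ2 1)) (by omega)
    · exact d1.mul ((Dle.pderiv (n := 2) dP 0).add (Dle.pderiv (n := 2) dQ 1)) (by omega)
  · norm_num

namespace Bs

variable {P Q : RP} {S : Finset (Fin 2 → ℝ)}

/-- conics depending on one linear form are impossible -/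
lemma no_dirA (h : Bs P Q S) {τ τ' F u v : ℝ} {f A : RP} (huv : u ≠ 0 ∨ v ≠ 0) (hf1 : ¬ Dle 1 f)
    (hf : f = C τ * ((C u * X 0 + C v * X 1) * (C u * X 0 + C v * X 1)) +
      C (2 * τ') * (C u * X 0 + C v * X 1) + C F)
    (hirr : Irreducible f) (hA : Dle 1 A) (he : f * DD P Q = A * (C u * P + C v * Q)) : False := by
  have hprime : Prime f := hirr.prime
  have hτ : τ ≠ 0 := by
    rintro rfl
    apply hf1
    rw [hf]
    have : (C 0 * ((C u * X 0 + C v * X 1) * (C u * X 0 + C v * X 1)) +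
      C (2 * τ') * (C u * X 0 + C v * X 1) + C F : RP) = C (2 * τ' * u) * X 0 + C (2 * τ' * v) * X 1 + C F := by
      simp only [C_mul, C_0]; ring
    rw [this]; exact Dle_aff _ _ _
  have hdvd : f ∣ A * (C u * P + C v * Q) := ⟨_, he.symm⟩
  have hne : A ≠ 0 := by
    intro h0
    rw [h0, zero_mul] at he
    rcases mul_eq_zero.1 he with h1 | h1
    · exact hirr.ne_zero h1
    · exact h.D0 h1
  have hd2 : f ∣ C u * P + C v * Q := by
    rcases hprime.dvd_or_dvd hdvd with h1 | h1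
    · exfalso
      obtain ⟨g, hg⟩ := h1
      have hg0 : g ≠ 0 := by
        rintro rfl
        rw [mul_zero] at hg
        exact hne hg
      have h2 : Dle 1 (f * g) := by rw [← hg]; exact hA
      apply hf1
      unfold Dle at *
      rw [totalDegree_mul_eq hprime.ne_zero hg0] at h2
      omega
    · exact h1
  obtain ⟨K, hK⟩ := hd2
  have dK : Dle 2 K := by
    have h1 : Dle 4 (f * K) := by
      rw [← hK]
      exact ((Dle.C (n := 0) u).mul h.hP (by omega)).add ((Dle.C (n := 0) v).mul h.hQ (by omega))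
    exact dvd_Dle h1 hprime.ne_zero hf1
  have hKS : ∀ p ∈ S, eval p K = 0 := by
    intro p hp
    obtain ⟨hPp, hQp⟩ := h.PS hp
    have e0 := congrArg (eval p) hK
    simp only [map_add, map_mul, eval_C, hPp, hQp, mul_zero, add_zero] at e0
    rcases mul_eq_zero.1 e0.symm with hz | hz
    · exfalso
      set lam := u * p 0 + v * p 1 with hlam
      have e1 : τ * lam * lam + 2 * τ' * lam + F = 0 := by
        rw [hf] at hz
        simp only [map_add, map_mul, eval_C, eval_X] at hz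
        rw [hlam]; linear_combination hz
      have e2 : f = (C u * X 0 + C v * X 1 + C (-lam)) *
          (C (τ * u) * X 0 + C (τ * v) * X 1 + C (τ * lam + 2 * τ')) := by
        have e3 : (C F : RP) = - (C τ * C lam * C lam + 2 * C τ' * C lam) := by
          rw [← Cn2, ← C_mul, ← C_mul, ← C_mul, ← C_mul, ← C_add, ← C_neg]
          congr 1; linear_combination e1
        rw [hf, e3]
        simp only [C_mul, C_neg, C_add, Cn2]
        ring
      rcases hirr.isUnit_or_isUnit e2 with h1 | h1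
      · exact not_unit (notDle_aff huv) h1
      · apply not_unit (notDle_aff _) h1
        rcases huv with h2 | h2
        · exact Or.inl (mul_ne_zero hτ h2)
        · exact Or.inr (mul_ne_zero hτ h2)
    · exact hz
  have hK0 := h.conic dK hKS
  rw [hK0, mul_zero] at hK
  obtain ⟨h1, h2⟩ := h.inj3 (Dle.C u) (Dle.C v) hK
  rcases huv with h3 | h3
  · exact h3 (by simpa using h1)
  · exact h3 (by simpa using h2)

/-- parabolas: the relations at the point at infinity -/
lemma parab (h : Bs P Q S) {f : RP} {A B Cc D E F c : ℝ} (hfq : f = qd A B Cc D E F)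
    (hirr : Irreducible f) (hf1 : ¬ Dle 1 f) (he : C c * XF P Q f = f * DD P Q) (hc0 : c ≠ 0)
    (hdet : A * Cc - B ^ 2 = 0) : ∃ u v : ℝ, (u ≠ 0 ∨ v ≠ 0) ∧
      C (2 * c) * (C u * hc 4 P + C v * hc 4 Q) =
        (C u * X 0 + C v * X 1) * (pderiv 0 (hc 4 P) + pderiv 1 (hc 4 Q)) ∧
      u * eval ![-v, u] (hc 4 P) + v * eval ![-v, u] (hc 4 Q) = 0 ∧
      (2 * c - 9) * (-v * eval ![-v, u] (hc 4 P) + u * eval ![-v, u] (hc 4 Q)) = 0 ∧
      c * (-v * eval ![-v, u] (hc 4 P) + u * eval ![-v, u] (hc 4 Q)) =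
        (u ^ 2 + v ^ 2) * (eval ![-v, u] (pderiv 0 (hc 4 P)) + eval ![-v, u] (pderiv 1 (hc 4 Q))) := by
  have hne : A ≠ 0 ∨ Cc ≠ 0 := by
    by_contra hcon
    push Not at hcon
    obtain ⟨hA, hC⟩ := hcon
    have hB : B = 0 := by
      rw [hA] at hdet
      have : B ^ 2 = 0 := by linear_combination -hdet
      exact pow_eq_zero_iff (two_ne_zero) |>.1 this
    apply hf1
    rw [hfq, hA, hB, hC]
    unfold qd
    simp only [C_0, mul_zero, zero_mul, zero_add]
    exact Dle_aff _ _ _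
  obtain ⟨ε, u, v, hε, huv, hA, hB, hC⟩ := rank_one hdet hne
  have hN : 0 < u ^ 2 + v ^ 2 := by
    rcases huv with h1 | h1
    · have := sq_nonneg v; positivity
    · have := sq_nonneg u; positivity
  refine ⟨u, v, huv, ?_⟩
  obtain ⟨l, hl⟩ : ∃ l : RP, l = C u * X 0 + C v * X 1 := ⟨_, rfl⟩
  have lx : pderiv 0 l = C u := by
    rw [hl]; simp only [map_add, Derivation.leibniz, smul_eq_mul, pderiv_C, p00, p01]; ring
  have ly : pderiv 1 l = C v := by
    rw [hl]; simp only [map_add, Derivation.leibniz, smul_eq_mul, pderiv_C, p10, p11]; ring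
  obtain ⟨f2, hf2⟩ : ∃ f2 : RP, f2 = C ε * (l * l) := ⟨_, rfl⟩
  obtain ⟨g1, hg1⟩ : ∃ g1 : RP, g1 = C (2 * D) * X 0 + C (2 * E) * X 1 := ⟨_, rfl⟩
  have hff : f = f2 + g1 + C F := by
    rw [hfq, hf2, hg1, hl, hA, hB, hC]
    unfold qd
    simp only [C_mul, Cn2]
    ring
  have lh : l.IsHomogeneous 1 := by rw [hl]; exact homog_lin u v
  have hf2h : f2.IsHomogeneous 2 := by rw [hf2]; exact (lh.mul lh).C_mul ε
  have hg1h : g1.IsHomogeneous 1 := by rw [hg1]; exact homog_lin _ _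
  by_cases hk : -(D * v) + E * u = 0
  · -- two parallel complex lines
    exfalso
    obtain ⟨τ, hτ⟩ : ∃ τ, τ = (D * u + E * v) / (u ^ 2 + v ^ 2) := ⟨_, rfl⟩
    have hD : D = τ * u := by
      rw [hτ]; field_simp; linear_combination -v * hk
    have hE : E = τ * v := by
      rw [hτ]; field_simp; linear_combination u * hk
    refine h.no_dirA (τ := ε) (τ' := τ) (F := F) (A := C (2 * c) * (C (ε * u) * X 0 + C (ε * v) * X 1 + C τ))
      huv hf1 ?_ hirr ?_ ?_
    · rw [hff, hf2, hg1, hl, hD, hE]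
      simp only [C_mul, Cn2]
      ring
    · exact (Dle.C (n := 0) (2 * c)).mul (Dle_aff _ _ _) (by omega)
    · rw [← he, hff]
      unfold XF
      rw [hf2, hg1]
      simp only [map_add, Derivation.leibniz, smul_eq_mul, pderiv_C, lx, ly, p00, p01, p10, p11]
      rw [hl, hD, hE]
      simp only [C_mul, Cn2]
      ring
  · -- a genuine parabola
    have htop := gTopII h.hP h.hQ (f := f) (f2 := f2) (f1 := g1 + C F) (by rw [hff]; ring) hf2h
      ((homog_Dle hg1h).add (Dle.C F)) he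
    have hsec := gSecII h.hP h.hQ hff hf2h hg1h he
    obtain ⟨p, hp⟩ : ∃ p, p = hc 4 P := ⟨_, rfl⟩
    obtain ⟨q, hq⟩ : ∃ q, q = hc 4 Q := ⟨_, rfl⟩
    have hph : p.IsHomogeneous 4 := by rw [hp]; exact hc_homog 4 P
    have hqh : q.IsHomogeneous 4 := by rw [hq]; exact hc_homog 4 Q
    rw [← hp, ← hq] at htop hsec ⊢
    have fx : pderiv 0 f2 = C (2 * (ε * u)) * l := by
      rw [hf2]; simp only [Derivation.leibniz, smul_eq_mul, pderiv_C, lx, C_mul, Cn2]; ring
    have fy : pderiv 1 f2 = C (2 * (ε * v)) * l := by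
      rw [hf2]; simp only [Derivation.leibniz, smul_eq_mul, pderiv_C, ly, C_mul, Cn2]; ring
    have hlne : l ≠ 0 := by rw [hl]; exact lin_ne huv
    have hεne : (C ε : RP) ≠ 0 := by rwa [Ne, C_eq_zero]
    have htop' : C (2 * c) * (C u * p + C v * q) = l * (pderiv 0 p + pderiv 1 q) := by
      apply mul_left_cancel₀ hεne
      apply mul_left_cancel₀ hlne
      rw [fx, fy, hf2] at htop
      simp only [C_mul, Cn2] at htop ⊢
      linear_combination htop
    refine ⟨by rw [← hl]; exact htop', ?_⟩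
    -- evaluate at w
    obtain ⟨w, hw⟩ : ∃ w : Fin 2 → ℝ, w = ![-v, u] := ⟨_, rfl⟩
    rw [← hw]
    have w0 : w 0 = -v := by rw [hw]; rfl
    have w1 : w 1 = u := by rw [hw]; rfl
    have elw : eval w l = 0 := by
      rw [hl]; simp only [map_add, map_mul, eval_C, eval_X, w0, w1]; ring
    have ef2 : eval w f2 = 0 := by rw [hf2]; simp only [map_mul, elw]; ring
    have eg1 : eval w g1 = 2 * (-(D * v) + E * u) := by
      rw [hg1]; simp only [map_add, map_mul, eval_C, eval_X, w0, w1]; ring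
    have gx : pderiv 0 g1 = C (2 * D) := by
      rw [hg1]; simp only [map_add, Derivation.leibniz, smul_eq_mul, pderiv_C, p00, p01]; ring
    have gy : pderiv 1 g1 = C (2 * E) := by
      rw [hg1]; simp only [map_add, Derivation.leibniz, smul_eq_mul, pderiv_C, p10, p11]; ring
    have s0 := congrArg (eval w) htop'
    have s1 := congrArg (eval w) hsec
    have t0 := congrArg (fun G => eval w (pderiv 0 G)) htop'
    have t1 := congrArg (fun G => eval w (pderiv 1 G)) htop'
    have u0 := congrArg (eval w) (euler hph)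
    have u1 := congrArg (eval w) (euler hqh)
    rw [fx, fy, gx, gy] at s1
    simp only [map_add, map_mul, eval_C, elw, zero_mul, mul_zero, ef2, eg1, zero_add] at s0 s1
    simp only [Derivation.leibniz, smul_eq_mul, pderiv_C, map_add, map_mul, eval_C, elw, zero_mul, mul_zero,
      zero_add, add_zero, lx, ly] at t0 t1
    simp only [map_add, map_mul, eval_X, w0, w1, map_natCast] at u0 u1
    push_cast at u0 u1
    obtain ⟨D3, hD3⟩ : ∃ D3, D3 = eval w (pderiv 0 p) + eval w (pderiv 1 q) := ⟨_, rfl⟩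
    have s2 : u * eval w p + v * eval w q = 0 := by
      have h2 : (2 * c) ≠ 0 := mul_ne_zero two_ne_zero hc0
      exact (mul_eq_zero.1 s0).resolve_left h2
    -- the eigenvalue computation
    have k1 : 2 * c * ((u ^ 2 + v ^ 2) * D3) = (u ^ 2 + v ^ 2) * D3 +
        2 * c * (4 * (-v * eval w p + u * eval w q)) := by
      rw [hD3]
      linear_combination u * t0 + v * t1 + 2 * c * (-v * u0 + u * u1)
    have k2 : c * (-v * eval w p + u * eval w q) * (-(D * v) + E * u) = (u ^ 2 + v ^ 2) * D3 * (-(D * v) + E * u) := by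
      rw [hD3]
      linear_combination (u ^ 2 + v ^ 2) / 2 * s1 - c * (D * u + E * v) * s2
    have k3 : c * (-v * eval w p + u * eval w q) = (u ^ 2 + v ^ 2) * D3 := mul_right_cancel₀ hk k2
    have k4 : (2 * c - 9) * (-v * eval w p + u * eval w q) = 0 := by
      have : c * ((2 * c - 9) * (-v * eval w p + u * eval w q)) = 0 := by
        linear_combination k1 + (2 * c - 1) * k3
      exact (mul_eq_zero.1 this).resolve_left hc0
    refine ⟨s2, k4, ?_⟩
    rw [k3, hD3]

end Bs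

end Run7.h256
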