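import Mathlib
import Pool.Agent.Run7.h256.V2

set_option autoImplicit false

namespace Run7.h256

open MvPolynomial ComplexConjugate

lemma jsign {c : ℝ} (hc : 1 < c) {D : RP} {J : ℂ} {t : Fin 2 → ℂ} (hD : eval t (cx D) ≠ 0)
    (hJ : (c : ℂ) ^ 2 * J = ((c : ℂ) - 1) * eval t (cx D) ^ 2) :
    J ≠ 0 ∧ ((∀ i, conj (t i) = t i) → 0 ≤ J.re) := by
  have hc0 : (c : ℂ) ≠ 0 := by
    have : c ≠ 0 := by linarith
    exact_mod_cast this
  have hc1 : (c : ℂ) - 1 ≠ 0 := by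
    have : c - 1 ≠ 0 := by linarith
    exact_mod_cast this
  constructor
  · rintro rfl
    rw [mul_zero] at hJ
    exact mul_ne_zero hc1 (pow_ne_zero 2 hD) hJ.symm
  · intro hr
    obtain ⟨d, hd'⟩ : ∃ d : ℝ, eval t (cx D) = d := by
      have h2 := eval_cx_conj D t
      rw [show (fun i => conj (t i)) = t from funext hr] at h2
      exact ⟨_, (Complex.conj_eq_iff_re.1 h2.symm).symm⟩
    rw [hd'] at hJ
    have hJz2 : J = (((c - 1) * d ^ 2 / c ^ 2 : ℝ) : ℂ) := by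
      push_cast
      field_simp
      linear_combination hJ
    rw [hJz2, Complex.ofReal_re]
    have : 0 < c - 1 := by linarith
    positivity

/-- the functional on top forms -/
lemma Pk.lf {P Q : RP} {L : RP →ₗ[ℝ] ℝ} {S : Finset (Fin 2 → ℝ)} {Δ : (Fin 2 → ℝ) → RP}
    (h : Pk P Q L S Δ) : LF (hc 4 P) (hc 4 Q) L := by
  have dP : Dle 3 (P - hc 4 P) := sub_hc_Dle h.e0.hP
  have dQ : Dle 3 (Q - hc 4 Q) := sub_hc_Dle h.e0.hQ
  refine ⟨hc_homog 4 P, hc_homog 4 Q, ?_, ?_, h.rs.LJ⟩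
  · intro F hF
    have e : F * hc 4 P = F * P - F * (P - hc 4 P) := by ring
    rw [e, map_sub, h.rs.ker _ (II_P P Q F), h.rs.low _ (hF.mul dP (by omega)), sub_zero]
  · intro F hF
    have e : F * hc 4 Q = F * Q - F * (Q - hc 4 Q) := by ring
    rw [e, map_sub, h.rs.ker _ (II_Q P Q F), h.rs.low _ (hF.mul dQ (by omega)), sub_zero]

/-- what is needed from the residue functional in the case of a relation with a conic -/
structure Ck (P Q : RP) (L : RP →ₗ[ℝ] ℝ) : Prop where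
  lf : LF (hc 4 P) (hc 4 Q) L
  low : ∀ F, Dle 5 F → L F = 0
  POS : ∀ {G : RP}, Dle 3 G → L (G * DD P Q) = 0 → 0 ≤ L (G * G)
  GT1 : (∀ t : Fin 2 → ℂ, eval t (cx P) = 0 → eval t (cx Q) = 0 → eval t (cx (DD P Q)) ≠ 0 →
      eval t (Jac (cx P) (cx Q)) ≠ 0 ∧ ((∀ i, conj (t i) = t i) → 0 ≤ (eval t (Jac (cx P) (cx Q))).re)) →
    False

lemma Pk.ck {P Q : RP} {L : RP →ₗ[ℝ] ℝ} {S : Finset (Fin 2 → ℝ)} {Δ : (Fin 2 → ℝ) → RP}
    (h : Pk P Q L S Δ) (hD : Dle 3 (DD P Q)) (hD0 : DD P Q ≠ 0) (hDS : ∀ s ∈ S, eval s (DD P Q) = 0) :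
    Ck P Q L :=
  ⟨h.lf, h.rs.low, fun hG h0 => h.POS hD hD0 hDS hG h0, fun hT => h.GT1 hD hD0 hDS hT⟩

namespace Bs

variable {P Q : RP} {S : Finset (Fin 2 → ℝ)} {L : RP →ₗ[ℝ] ℝ}

/-- relation on top forms in the residue functional -/
lemma L_top (h : Bs P Q S) (hk : Ck P Q L) {U A B : RP} {F : RP} {c : ℝ} {d : ℕ} (hU : Dle d U)
    (hF : Dle (3 - d) F) (hd : d ≤ 2) (hd1 : 1 ≤ d) (hA : Dle (d - 1) A) (hB : Dle (d - 1) B)
    (he : C c * (A * hc 4 P + B * hc 4 Q) = U * (pderiv 0 (hc 4 P) + pderiv 1 (hc 4 Q))) :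
    L (U * F * DD P Q) = 0 := by
  have hlf := hk.lf
  have dP : Dle 3 (P - hc 4 P) := sub_hc_Dle h.hP
  have dQ : Dle 3 (Q - hc 4 Q) := sub_hc_Dle h.hQ
  have e : U * F * DD P Q = C c * ((A * F) * hc 4 P) + C c * ((B * F) * hc 4 Q) +
      U * F * (pderiv 0 (P - hc 4 P) + pderiv 1 (Q - hc 4 Q)) := by
    unfold DD
    simp only [map_sub]
    linear_combination (-F) * he
  rw [e, map_add, map_add, L_C, L_C, hlf.Lp _ (hA.mul hF (by omega)), hlf.Lq _ (hB.mul hF (by omega)),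
    hk.low]
  · ring
  · exact (hU.mul hF (show d + (3 - d) ≤ 3 by omega)).mul
      ((Dle.pderiv (n := 2) dP 0).add (Dle.pderiv (n := 2) dQ 1)) (by omega)

lemma typeI_false0 (h : Bs P Q S) (hk : Ck P Q L) (hI : TypeI P Q) : False := by
  obtain ⟨l, c, hl, hl0, he⟩ := hI
  obtain ⟨a, b, e, rfl⟩ := aff_coords hl
  have hab := aff_ne hl0
  have hne : (C a * X 0 + C b * X 1 + C e : RP) ≠ 0 := by
    intro h0; apply hl0; rw [h0]; exact Dle.zero
  have hc0 : c ≠ 0 := by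
    rintro rfl
    rw [C_0, zero_mul] at he
    exact mul_ne_zero hne h.D0 he.symm
  by_cases hc1 : 1 < c
  · apply hk.GT1
    intro t ht1 ht2 ht3
    refine jsign hc1 ht3 (gJFormula he ht1 ht2 ht3 ?_)
    rw [pd_aff0, pd_aff1, cx_C, cx_C, eval_C, eval_C]
    rcases hab with h1 | h1
    · exact Or.inl (by exact_mod_cast h1)
    · exact Or.inr (by exact_mod_cast h1)
  · push Not at hc1
    have htop := gTopI h.hP h.hQ he
    refine pureI hk.lf hab (by linarith) hc0 rfl htop ?_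
    intro F hF
    have dF : Dle 2 F := homog_Dle hF
    apply hk.POS ((Dle_lin a b).mul dF (by omega))
    exact h.L_top hk (d := 1) (Dle_lin a b) dF (by norm_num) le_rfl (Dle.C a) (Dle.C b) htop

/-- the case of a relation with a conic, without zeros at infinity -/
theorem fcase0 (h : Bs P Q S) (hk : Ck P Q L) {f α β : RP} (hf : Dle 2 f) (hf0 : f ≠ 0)
    (hα : Dle 1 α) (hβ : Dle 1 β) (hrel : f * DD P Q = α * P + β * Q) : False := by
  rcases h.cls hf hf0 hα hβ hrel with hI | ⟨hirr, hf1, c, he⟩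
  · exact h.typeI_false0 hk hI
  have hc0 : c ≠ 0 := by
    rintro rfl
    rw [C_0, zero_mul] at he
    exact mul_ne_zero hf0 h.D0 he.symm
  obtain ⟨A, B, Cc, D, E, F, hfc⟩ := quad_coords hf
  have hfq : f = qd A B Cc D E F := hfc
  by_cases hc1 : 1 < c
  · apply hk.GT1
    intro t ht1 ht2 ht3
    refine jsign hc1 ht3 (gJFormula he ht1 ht2 ht3 ?_)
    by_contra hcon
    push Not at hcon
    obtain ⟨h1, h2⟩ := hcon
    have gx : eval t (cx (pderiv 0 f)) = 2 * ((A : ℂ) * t 0 + B * t 1 + D) := by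
      rw [hfq, qd_x, ← Cn2]
      simp only [cx_add, cx_mul, cx_C, cx_X, map_add, map_mul, eval_C, eval_X]
      push_cast; ring
    have gy : eval t (cx (pderiv 1 f)) = 2 * ((B : ℂ) * t 0 + Cc * t 1 + E) := by
      rw [hfq, qd_y, ← Cn2]
      simp only [cx_add, cx_mul, cx_C, cx_X, map_add, map_mul, eval_C, eval_X]
      push_cast; ring
    rw [gx] at h1
    rw [gy] at h2
    have h1' := (mul_eq_zero.1 h1).resolve_left two_ne_zero
    have h2' := (mul_eq_zero.1 h2).resolve_left two_ne_zero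
    have h3 := gSing hfq he ht1 ht2 ht3 h1' h2'
    have h4 := (mul_eq_zero.1 h3).resolve_left (by linarith)
    exact Cfg.sing_red hfq hirr hf1 h1' h2' (gInvVanish he ht1 ht2 ht3) h4
  push Not at hc1
  by_cases hdet : A * Cc - B ^ 2 = 0
  · obtain ⟨u, v, huv, _, s2, k4, _⟩ := h.parab hfq hirr hf1 he hc0 hdet
    have hN : 0 < u ^ 2 + v ^ 2 := by
      rcases huv with h1 | h1
      · have := sq_nonneg v; positivity
      · have := sq_nonneg u; positivity
    have k5 : -v * eval ![-v, u] (hc 4 P) + u * eval ![-v, u] (hc 4 Q) = 0 := by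
      rcases mul_eq_zero.1 k4 with h2 | h2
      · linarith
      · exact h2
    have hp0 : eval ![-v, u] (hc 4 P) = 0 := by
      have : (u ^ 2 + v ^ 2) * eval ![-v, u] (hc 4 P) = 0 := by linear_combination u * s2 - v * k5
      exact (mul_eq_zero.1 this).resolve_left hN.ne'
    have hq0 : eval ![-v, u] (hc 4 Q) = 0 := by
      have : (u ^ 2 + v ^ 2) * eval ![-v, u] (hc 4 Q) = 0 := by linear_combination v * s2 + u * k5
      exact (mul_eq_zero.1 this).resolve_left hN.ne'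
    exact hk.lf.no_inf huv hp0 hq0
  obtain ⟨f2, hf2⟩ : ∃ f2 : RP, f2 = C A * (X 0 * X 0) + 2 * C B * (X 0 * X 1) + C Cc * (X 1 * X 1) := ⟨_, rfl⟩
  obtain ⟨g1, hg1⟩ : ∃ g1 : RP, g1 = C (2 * D) * X 0 + C (2 * E) * X 1 + C F := ⟨_, rfl⟩
  have hff : f = f2 + g1 := by
    rw [hfc, hf2, hg1]
    simp only [C_mul, Cn2]
    ring
  have XX : ∀ i j : Fin 2, (X i * X j : RP).IsHomogeneous 2 := fun i j =>
    (isHomogeneous_X _ i).mul (isHomogeneous_X _ j)
  have f2h : f2.IsHomogeneous 2 := by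
    rw [hf2, ← Cn2, ← C_mul]
    exact (((XX 0 0).C_mul _).add ((XX 0 1).C_mul _)).add ((XX 1 1).C_mul _)
  have d2 : Dle 2 f2 := homog_Dle f2h
  have d1 : Dle 1 g1 := by rw [hg1]; exact Dle_aff _ _ _
  have htop := gTopII h.hP h.hQ hff f2h d1 he
  refine pureII hk.lf hdet (by linarith) hc0 hf2 htop ?_
  intro G hG
  have dG : Dle 1 G := homog_Dle hG
  apply hk.POS (d2.mul dG (by omega))
  exact h.L_top hk (d := 2) d2 dG le_rfl (by norm_num) (Dle.pderiv (n := 1) d2 0) (Dle.pderiv (n := 1) d2 1) htop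

end Bs

end Run7.h256
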