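import Mathlib
import Pool.Agent.Run7.h256.W2

set_option autoImplicit false

namespace Run7.h256

open MvPolynomial

/-! ### evaluation along a power series curve -/

noncomputable def ev (Γ : Fin 2 → PowerSeries ℝ) : RP →ₐ[ℝ] PowerSeries ℝ := aeval Γ

/-- Taylor coefficients along the curve -/
noncomputable def ph (Γ : Fin 2 → PowerSeries ℝ) (j : ℕ) : RP →ₗ[ℝ] ℝ :=
  (PowerSeries.coeff j).comp (ev Γ).toLinearMap

lemma ph_apply (Γ : Fin 2 → PowerSeries ℝ) (j : ℕ) (F : RP) : ph Γ j F = PowerSeries.coeff j (ev Γ F) := rfl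

lemma ev_X (Γ : Fin 2 → PowerSeries ℝ) (i : Fin 2) : ev Γ (X i) = Γ i := by simp [ev]

lemma ev_C (Γ : Fin 2 → PowerSeries ℝ) (a : ℝ) : ev Γ (C a) = PowerSeries.C a := by
  unfold ev; rw [MvPolynomial.aeval_C]; rfl

lemma ph_X (Γ : Fin 2 → PowerSeries ℝ) (i : Fin 2) (j : ℕ) : ph Γ j (X i) = PowerSeries.coeff j (Γ i) := by
  rw [ph_apply, ev_X]

lemma ph_C0 (Γ : Fin 2 → PowerSeries ℝ) (a : ℝ) : ph Γ 0 (C a) = a := by
  rw [ph_apply, ev_C]; simp

lemma ph_C1 (Γ : Fin 2 → PowerSeries ℝ) (a : ℝ) (j : ℕ) (hj : 0 < j) : ph Γ j (C a) = 0 := by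
  rw [ph_apply, ev_C, PowerSeries.coeff_C, if_neg hj.ne']

lemma ph_Cmul (Γ : Fin 2 → PowerSeries ℝ) (j : ℕ) (a : ℝ) (F : RP) : ph Γ j (C a * F) = a * ph Γ j F := by
  rw [← smul_eq_C_mul, map_smul, smul_eq_mul]

lemma ph0 (Γ : Fin 2 → PowerSeries ℝ) (F G : RP) : ph Γ 0 (F * G) = ph Γ 0 F * ph Γ 0 G := by
  simp only [ph_apply, map_mul, PowerSeries.coeff_mul]
  simp

lemma ph1 (Γ : Fin 2 → PowerSeries ℝ) (F G : RP) :
    ph Γ 1 (F * G) = ph Γ 0 F * ph Γ 1 G + ph Γ 1 F * ph Γ 0 G := by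
  simp only [ph_apply, map_mul, PowerSeries.coeff_mul]
  simp [Finset.Nat.antidiagonal_succ]

lemma ph2 (Γ : Fin 2 → PowerSeries ℝ) (F G : RP) :
    ph Γ 2 (F * G) = ph Γ 0 F * ph Γ 2 G + ph Γ 1 F * ph Γ 1 G + ph Γ 2 F * ph Γ 0 G := by
  simp only [ph_apply, map_mul, PowerSeries.coeff_mul]
  simp [Finset.Nat.antidiagonal_succ]
  ring

lemma ph3 (Γ : Fin 2 → PowerSeries ℝ) (F G : RP) :
    ph Γ 3 (F * G) = ph Γ 0 F * ph Γ 3 G + ph Γ 1 F * ph Γ 2 G + ph Γ 2 F * ph Γ 1 G +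
      ph Γ 3 F * ph Γ 0 G := by
  simp only [ph_apply, map_mul, PowerSeries.coeff_mul]
  simp [Finset.Nat.antidiagonal_succ]
  ring

/-- the data of a (degenerate) zero: a curve along which both polynomials vanish to the third order -/
structure Nc (P Q : RP) (s : Fin 2 → ℝ) (Γ : Fin 2 → PowerSeries ℝ) (c : ℝ) : Prop where
  base : ∀ i, PowerSeries.coeff 0 (Γ i) = s i
  dir : PowerSeries.coeff 1 (Γ 0) ≠ 0 ∨ PowerSeries.coeff 1 (Γ 1) ≠ 0
  Pz : ∀ j, j ≤ 2 → ph Γ j P = 0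
  Qz : ∀ j, j ≤ 2 → ph Γ j Q = 0
  sgn : ∃ A B A' B' : RP, P = (X 0 - C (s 0)) * A + (X 1 - C (s 1)) * B ∧
    Q = (X 0 - C (s 0)) * A' + (X 1 - C (s 1)) * B' ∧ ph Γ 2 (A * B' - B * A') = c

namespace Nc

variable {P Q : RP} {s : Fin 2 → ℝ} {Γ : Fin 2 → PowerSeries ℝ} {c : ℝ}

lemma ev0 (h : Nc P Q s Γ c) (F : RP) : ph Γ 0 F = eval s F := by
  induction F using MvPolynomial.induction_on with
  | C a => rw [ph_C0, eval_C]
  | add p q hp hq => rw [map_add, map_add, hp, hq]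
  | mul_X p i hp => rw [ph0, hp, ph_X, h.base, map_mul, eval_X]

lemma II0 (h : Nc P Q s Γ c) {F : RP} (hF : F ∈ II P Q) : ph Γ 0 F = 0 ∧ ph Γ 1 F = 0 ∧ ph Γ 2 F = 0 := by
  obtain ⟨u, v, rfl⟩ := mem_II.1 hF
  have p0 := h.Pz 0 (by norm_num)
  have p1 := h.Pz 1 (by norm_num)
  have p2 := h.Pz 2 (by norm_num)
  have q0 := h.Qz 0 (by norm_num)
  have q1 := h.Qz 1 (by norm_num)
  have q2 := h.Qz 2 (by norm_num)
  refine ⟨?_, ?_, ?_⟩
  · rw [map_add, ph0, ph0, p0, q0]; ring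
  · rw [map_add, ph1, ph1, p0, q0, p1, q1]; ring
  · rw [map_add, ph2, ph2, p0, q0, p1, q1, p2, q2]; ring

lemma dir' (h : Nc P Q s Γ c) : ∃ i, PowerSeries.coeff 1 (Γ i) ≠ 0 := by
  rcases h.dir with h1 | h1
  · exact ⟨0, h1⟩
  · exact ⟨1, h1⟩

lemma Xs0 (h : Nc P Q s Γ c) (i : Fin 2) : ph Γ 0 (X i - C (s i)) = 0 := by
  rw [map_sub, ph_X, ph_C0, h.base, sub_self]

lemma Xs1 (i : Fin 2) : ph Γ 1 (X i - C (s i)) = PowerSeries.coeff 1 (Γ i) := by
  rw [map_sub, ph_X, ph_C1 _ _ _ (by norm_num), sub_zero]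

lemma Xs2 (i : Fin 2) : ph Γ 2 (X i - C (s i)) = PowerSeries.coeff 2 (Γ i) := by
  rw [map_sub, ph_X, ph_C1 _ _ _ (by norm_num), sub_zero]

/-- the sign datum does not depend on the decomposition -/
lemma sgn_all (h : Nc P Q s Γ c) {A B A' B' : RP} (eP : P = (X 0 - C (s 0)) * A + (X 1 - C (s 1)) * B)
    (eQ : Q = (X 0 - C (s 0)) * A' + (X 1 - C (s 1)) * B') : ph Γ 2 (A * B' - B * A') = c := by
  obtain ⟨A1, B1, A1', B1', fP, fQ, hc⟩ := h.sgn
  rw [← hc]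
  have q00 : pderiv 0 (X 0 : RP) = 1 := pderiv_X_self 0
  have q11 : pderiv 1 (X 1 : RP) = 1 := pderiv_X_self 1
  have q01 : pderiv 0 (X 1 : RP) = 0 := pderiv_X_of_ne (by decide)
  have q10 : pderiv 1 (X 0 : RP) = 0 := pderiv_X_of_ne (by decide)
  have dv : ∀ F U V : RP, F = (X 0 - C (s 0)) * U + (X 1 - C (s 1)) * V →
      eval s U = eval s (pderiv 0 F) ∧ eval s V = eval s (pderiv 1 F) := by
    intro F U V hF
    constructor
    · rw [congrArg (pderiv 0) hF]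
      simp only [map_add, map_sub, map_mul, Derivation.leibniz, smul_eq_mul, pderiv_C, q00, q01,
        eval_X, eval_C, sub_self, map_one, map_zero]
      ring
    · rw [congrArg (pderiv 1) hF]
      simp only [map_add, map_sub, map_mul, Derivation.leibniz, smul_eq_mul, pderiv_C, q10, q11,
        eval_X, eval_C, sub_self, map_one, map_zero]
      ring
  have p0 := h.Pz 0 (by norm_num)
  have p1 := h.Pz 1 (by norm_num)
  have p2 := h.Pz 2 (by norm_num)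
  have q0 := h.Qz 0 (by norm_num)
  have q1 := h.Qz 1 (by norm_num)
  have q2 := h.Qz 2 (by norm_num)
  have key : ∀ U V U' V' : RP, P = (X 0 - C (s 0)) * U + (X 1 - C (s 1)) * V →
      Q = (X 0 - C (s 0)) * U' + (X 1 - C (s 1)) * V' →
      (PowerSeries.coeff 1 (Γ 0) ≠ 0 → PowerSeries.coeff 1 (Γ 0) * ph Γ 2 (U * V' - V * U') =
        ph Γ 3 P * eval s (pderiv 1 Q) - ph Γ 3 Q * eval s (pderiv 1 P)) ∧
      (PowerSeries.coeff 1 (Γ 1) ≠ 0 → PowerSeries.coeff 1 (Γ 1) * ph Γ 2 (U * V' - V * U') =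
        ph Γ 3 Q * eval s (pderiv 0 P) - ph Γ 3 P * eval s (pderiv 0 Q)) := by
    intro U V U' V' hU hV
    obtain ⟨W, hW⟩ : ∃ W, W = U * V' - V * U' := ⟨_, rfl⟩
    rw [← hW]
    have e0 : (X 0 - C (s 0)) * W = P * V' - V * Q := by rw [hW, hU, hV]; ring
    have e1 : (X 1 - C (s 1)) * W = U * Q - P * U' := by rw [hW, hU, hV]; ring
    obtain ⟨d1, d2⟩ := dv P U V hU
    obtain ⟨d3, d4⟩ := dv Q U' V' hV
    constructor
    · intro hv
      have f1 := congrArg (ph Γ 1) e0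
      have f2 := congrArg (ph Γ 2) e0
      have f3 := congrArg (ph Γ 3) e0
      rw [map_sub, ph1, ph1, ph1, h.Xs0, Xs1, p0, p1, q0, q1] at f1
      rw [map_sub, ph2, ph2, ph2, h.Xs0, Xs1, p0, p1, p2, q0, q1, q2] at f2
      rw [map_sub, ph3, ph3, ph3, h.Xs0, Xs1, p0, p1, p2, q0, q1, q2, h.ev0 V', h.ev0 V] at f3
      have w0 : ph Γ 0 W = 0 := by
        have : PowerSeries.coeff 1 (Γ 0) * ph Γ 0 W = 0 := by linear_combination f1
        exact (mul_eq_zero.1 this).resolve_left hv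
      rw [w0] at f2 f3
      have w1 : ph Γ 1 W = 0 := by
        have : PowerSeries.coeff 1 (Γ 0) * ph Γ 1 W = 0 := by linear_combination f2
        exact (mul_eq_zero.1 this).resolve_left hv
      rw [w1] at f3
      rw [← d2, ← d4]
      linear_combination f3
    · intro hv
      have f1 := congrArg (ph Γ 1) e1
      have f2 := congrArg (ph Γ 2) e1
      have f3 := congrArg (ph Γ 3) e1
      rw [map_sub, ph1, ph1, ph1, h.Xs0, Xs1, p0, p1, q0, q1] at f1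
      rw [map_sub, ph2, ph2, ph2, h.Xs0, Xs1, p0, p1, p2, q0, q1, q2] at f2
      rw [map_sub, ph3, ph3, ph3, h.Xs0, Xs1, p0, p1, p2, q0, q1, q2, h.ev0 U', h.ev0 U] at f3
      have w0 : ph Γ 0 W = 0 := by
        have : PowerSeries.coeff 1 (Γ 1) * ph Γ 0 W = 0 := by linear_combination f1
        exact (mul_eq_zero.1 this).resolve_left hv
      rw [w0] at f2 f3
      have w1 : ph Γ 1 W = 0 := by
        have : PowerSeries.coeff 1 (Γ 1) * ph Γ 1 W = 0 := by linear_combination f2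
        exact (mul_eq_zero.1 this).resolve_left hv
      rw [w1] at f3
      rw [← d1, ← d3]
      linear_combination f3
  obtain ⟨k1, k2⟩ := key A B A' B' eP eQ
  obtain ⟨k3, k4⟩ := key A1 B1 A1' B1' fP fQ
  rcases h.dir with hd | hd
  · apply mul_left_cancel₀ hd
    rw [k1 hd, k3 hd]
  · apply mul_left_cancel₀ hd
    rw [k2 hd, k4 hd]

/-- the Bezoutian vanishes to second order along the curve -/
lemma delta01 (h : Nc P Q s Γ c) {A B A' B' : RP} (eP : P = (X 0 - C (s 0)) * A + (X 1 - C (s 1)) * B)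
    (eQ : Q = (X 0 - C (s 0)) * A' + (X 1 - C (s 1)) * B') :
    ph Γ 0 (A * B' - B * A') = 0 ∧ ph Γ 1 (A * B' - B * A') = 0 := by
  obtain ⟨W, hW⟩ : ∃ W, W = A * B' - B * A' := ⟨_, rfl⟩
  rw [← hW]
  have e0 : (X 0 - C (s 0)) * W = P * B' - B * Q := by rw [hW, eP, eQ]; ring
  have e1 : (X 1 - C (s 1)) * W = A * Q - P * A' := by rw [hW, eP, eQ]; ring
  have p0 := h.Pz 0 (by norm_num)
  have p1 := h.Pz 1 (by norm_num)
  have p2 := h.Pz 2 (by norm_num)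
  have q0 := h.Qz 0 (by norm_num)
  have q1 := h.Qz 1 (by norm_num)
  have q2 := h.Qz 2 (by norm_num)
  rcases h.dir with hv | hv
  · have f1 := congrArg (ph Γ 1) e0
    have f2 := congrArg (ph Γ 2) e0
    rw [map_sub, ph1, ph1, ph1, h.Xs0, Xs1, p0, p1, q0, q1] at f1
    rw [map_sub, ph2, ph2, ph2, h.Xs0, Xs1, p0, p1, p2, q0, q1, q2] at f2
    have w0 : ph Γ 0 W = 0 := by
      have : PowerSeries.coeff 1 (Γ 0) * ph Γ 0 W = 0 := by linear_combination f1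
      exact (mul_eq_zero.1 this).resolve_left hv
    rw [w0] at f2
    refine ⟨w0, ?_⟩
    have : PowerSeries.coeff 1 (Γ 0) * ph Γ 1 W = 0 := by linear_combination f2
    exact (mul_eq_zero.1 this).resolve_left hv
  · have f1 := congrArg (ph Γ 1) e1
    have f2 := congrArg (ph Γ 2) e1
    rw [map_sub, ph1, ph1, ph1, h.Xs0, Xs1, p0, p1, q0, q1] at f1
    rw [map_sub, ph2, ph2, ph2, h.Xs0, Xs1, p0, p1, p2, q0, q1, q2] at f2
    have w0 : ph Γ 0 W = 0 := by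
      have : PowerSeries.coeff 1 (Γ 1) * ph Γ 0 W = 0 := by linear_combination f1
      exact (mul_eq_zero.1 this).resolve_left hv
    rw [w0] at f2
    refine ⟨w0, ?_⟩
    have : PowerSeries.coeff 1 (Γ 1) * ph Γ 1 W = 0 := by linear_combination f2
    exact (mul_eq_zero.1 this).resolve_left hv

end Nc

/-! ### representation of functionals -/

lemma exists_rep {P Q : RP} (h : E0 P Q) {L : RP →ₗ[ℝ] ℝ} (hL : Rs0 P Q L) (ψ : RP →ₗ[ℝ] ℝ)
    (hψ : ∀ F ∈ II P Q, ψ F = 0) : ∃ κ : RP, Dle 6 κ ∧ ∀ G, L (κ * G) = ψ G := by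
  obtain ⟨T, hT⟩ : ∃ T : Pl ℝ 6 →ₗ[ℝ] Module.Dual ℝ (Pl ℝ 6),
    T = ((LinearMap.mul ℝ RP).compr₂ L).compl₁₂ (Pl ℝ 6).subtype (Pl ℝ 6).subtype := ⟨_, rfl⟩
  have hTa : ∀ x y : Pl ℝ 6, T x y = L (x.1 * y.1) := by intro x y; rw [hT]; rfl
  obtain ⟨K, hK⟩ : ∃ K : Submodule ℝ (Pl ℝ 6), K = (E0.KK P Q 2).comap (Pl ℝ 6).subtype := ⟨_, rfl⟩
  have hKm : ∀ x : Pl ℝ 6, x ∈ K ↔ x.1 ∈ II P Q := by
    intro x
    rw [hK, Submodule.mem_comap]
    constructor
    · intro hx; exact E0.KK_II hx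
    · intro hx
      obtain ⟨u, v, hu, hv, he⟩ := h.mem_red (n := 2) hx (mem_Pl.1 x.2)
      exact E0.mem_KK.2 ⟨u, v, hu, hv, he⟩
  have hKr : Module.finrank ℝ K = 12 := by
    have h1 := h.finrank_KK (d := 2) (by norm_num)
    rw [hK, (Submodule.comapSubtypeEquivOfLe (h.KK_le 2)).finrank_eq, h1]
  have hker : LinearMap.ker T = K := by
    ext x
    rw [LinearMap.mem_ker, hKm]
    constructor
    · intro hx
      apply h.nondeg hL
      intro G
      obtain ⟨G', hG', hGG⟩ := h.rep6 G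
      have h1 := congrArg (fun f => f (⟨G', mem_Pl.2 hG'⟩ : Pl ℝ 6)) hx
      simp only [LinearMap.zero_apply] at h1
      rw [hTa] at h1
      have h2 := hL.ker _ (Ideal.mul_mem_left _ x.1 hGG)
      rw [mul_sub, map_sub, h1, sub_zero] at h2
      exact h2
    · intro hx
      refine LinearMap.ext (fun y => ?_)
      rw [hTa]
      exact hL.ker _ (Ideal.mul_mem_right _ _ hx)
  have hrange : LinearMap.range T = K.dualAnnihilator := by
    apply Submodule.eq_of_le_of_finrank_eq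
    · rintro _ ⟨x, rfl⟩
      rw [Submodule.mem_dualAnnihilator]
      intro y hy
      rw [hTa]
      exact hL.ker _ (Ideal.mul_mem_left _ _ ((hKm y).1 hy))
    · have e1 := LinearMap.finrank_range_add_finrank_ker T
      rw [hker, hKr] at e1
      have e2 := Subspace.finrank_add_finrank_dualAnnihilator_eq K
      rw [hKr] at e2
      omega
  have hψ' : ψ.comp (Pl ℝ 6).subtype ∈ K.dualAnnihilator := by
    rw [Submodule.mem_dualAnnihilator]
    intro y hy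
    exact hψ _ ((hKm y).1 hy)
  rw [← hrange] at hψ'
  obtain ⟨κ, hκ⟩ := hψ'
  refine ⟨κ.1, mem_Pl.1 κ.2, ?_⟩
  intro G
  obtain ⟨G', hG', hGG⟩ := h.rep6 G
  have h1 := congrArg (fun f => f (⟨G', mem_Pl.2 hG'⟩ : Pl ℝ 6)) hκ
  rw [hTa] at h1
  have h2 := hL.ker _ (Ideal.mul_mem_left _ κ.1 hGG)
  have h3 := hψ _ hGG
  rw [mul_sub, map_sub] at h2
  rw [map_sub] at h3
  have h4 : L (κ.1 * G') = ψ G' := h1
  linarith

end Run7.h256
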