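import Mathlib
import Pool.Agent.Run7.h256.W3

set_option autoImplicit false

namespace Run7.h256

open MvPolynomial

section gen

variable {k : Type*} [Field k]

/-- comparison of the gradient with a decomposition -/
lemma grad_dec' {P A B R : MvPolynomial (Fin 2) k} (dR : Dle 3 R) (hP : Dle 4 P) (hA : Dle 3 A) (hB : Dle 3 B)
    (eP : P = X 0 * A + X 1 * B + R) : ∃ κ U V : MvPolynomial (Fin 2) k, Dle 2 κ ∧ Dle 2 U ∧ Dle 2 V ∧
      C 4 * A = pderiv 0 (hc 4 P) + X 1 * κ + U ∧ C 4 * B = pderiv 1 (hc 4 P) - X 0 * κ + V := by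
  have dp : Dle 4 (hc 4 P) := homog_DG (hc_homog 4 P)
  have d0 : ∀ i, Dle 3 (pderiv i (hc 4 P)) := fun i => Dle.pderiv (n := 3) dp i
  obtain ⟨U, hU⟩ : ∃ U, U = C 4 * A - pderiv 0 (hc 4 P) := ⟨_, rfl⟩
  obtain ⟨V, hV⟩ : ∃ V, V = C 4 * B - pderiv 1 (hc 4 P) := ⟨_, rfl⟩
  have dU : Dle 3 U := by rw [hU]; exact ((Dle.C (n := 0) 4).mul hA (by omega)).sub (d0 0)
  have dV : Dle 3 V := by rw [hV]; exact ((Dle.C (n := 0) 4).mul hB (by omega)).sub (d0 1)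
  have he := eulerk (hc_homog 4 P)
  have c4 : (C 4 : MvPolynomial (Fin 2) k) = 4 := map_ofNat C 4
  have hUV : X 0 * U + X 1 * V = C 4 * (P - hc 4 P) - C 4 * R := by
    rw [hU, hV]
    push_cast at he
    rw [c4]
    linear_combination (-1 : MvPolynomial (Fin 2) k) * he - 4 * eP
  have htop : X 0 * hc 3 U + X 1 * hc 3 V = 0 := by
    apply homog_D0 (n := 4) (m := 3)
    · exact ((isHomogeneous_X k 0).mul (hc_homog 3 U)).add ((isHomogeneous_X k 1).mul (hc_homog 3 V))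
    · have e : X 0 * hc 3 U + X 1 * hc 3 V = C 4 * (P - hc 4 P) - C 4 * R -
          (X 0 * (U - hc 3 U) + X 1 * (V - hc 3 V)) := by linear_combination hUV
      rw [e]
      exact (((Dle.C (n := 0) 4).mul (sub_hcD hP) (by omega)).sub
        ((Dle.C (n := 0) 4).mul dR (by omega))).sub
        (((Dle.X le_rfl 0).mul (sub_hcD (n := 2) dU) (by omega)).add
          ((Dle.X le_rfl 1).mul (sub_hcD (n := 2) dV) (by omega)))
    · norm_num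
  obtain ⟨κ, h1, h2⟩ := split_prop' (relPrime_X01 (k := k)) (u := -hc 3 V) (v := hc 3 U)
    (by linear_combination htop)
  refine ⟨κ, U - hc 3 U, V - hc 3 V, ?_, sub_hcD (n := 2) dU, sub_hcD (n := 2) dV, ?_, ?_⟩
  · have h3 : Dle 3 (X 1 * κ) := by rw [← h2]; exact homog_DG (hc_homog 3 U)
    by_cases hκ : κ = 0
    · rw [hκ]; exact Dle.zero
    · unfold Dle at h3 ⊢
      rw [totalDegree_mul_eq (X_ne_zero 1) hκ, totalDegree_X] at h3
      omega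
  · rw [hU] at h2 ⊢; linear_combination h2
  · rw [hV] at h1 ⊢; linear_combination (-1 : MvPolynomial (Fin 2) k) * h1

lemma LJ_rel' {P Q A B A₂ B₂ R R₂ : MvPolynomial (Fin 2) k} (dR : Dle 3 R) (dR₂ : Dle 3 R₂) (hP : Dle 4 P) (hQ : Dle 4 Q)
    (hA : Dle 3 A) (hB : Dle 3 B) (hA₂ : Dle 3 A₂) (hB₂ : Dle 3 B₂) (eP : P = X 0 * A + X 1 * B + R)
    (eQ : Q = X 0 * A₂ + X 1 * B₂ + R₂) {L : MvPolynomial (Fin 2) k →ₗ[k] k}
    (low : ∀ F, Dle 5 F → L F = 0) (ker : ∀ F ∈ II P Q, L F = 0) :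
    L (Jac (hc 4 P) (hc 4 Q)) = 16 * L (A * B₂ - B * A₂) := by
  obtain ⟨κ, U, V, dκ, dU, dV, e1, e2⟩ := grad_dec' dR hP hA hB eP
  obtain ⟨κ', U', V', dκ', dU', dV', e3, e4⟩ := grad_dec' dR₂ hQ hA₂ hB₂ eQ
  have he := eulerk (hc_homog 4 P)
  have he' := eulerk (hc_homog 4 Q)
  push_cast at he he'
  have c16 : (C 16 : MvPolynomial (Fin 2) k) = 16 := map_ofNat C 16
  have c4 : (C 4 : MvPolynomial (Fin 2) k) = 4 := map_ofNat C 4
  rw [c4] at e1 e2 e3 e4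
  have key : Jac (hc 4 P) (hc 4 Q) = C 16 * (A * B₂ - B * A₂) +
      (C 4 * (κ' * hc 4 P) - C 4 * (κ * hc 4 Q) -
      (((pderiv 0 (hc 4 P) + X 1 * κ) * V' + U * (pderiv 1 (hc 4 Q) - X 0 * κ' + V')) -
        ((pderiv 1 (hc 4 P) - X 0 * κ) * U' + V * (pderiv 0 (hc 4 Q) + X 1 * κ' + U')))) := by
    unfold Jac
    rw [c16, c4]
    linear_combination κ' * he - κ * he' - (4 * B₂) * e1 - (pderiv 0 (hc 4 P) + X 1 * κ + U) * e4 +
      (4 * A₂) * e2 + (pderiv 1 (hc 4 P) - X 0 * κ + V) * e3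
  have dp : Dle 4 (hc 4 P) := homog_DG (hc_homog 4 P)
  have dq : Dle 4 (hc 4 Q) := homog_DG (hc_homog 4 Q)
  have d0 : ∀ i, Dle 3 (pderiv i (hc 4 P)) := fun i => Dle.pderiv (n := 3) dp i
  have d1 : ∀ i, Dle 3 (pderiv i (hc 4 Q)) := fun i => Dle.pderiv (n := 3) dq i
  have hz : ∀ (R T : MvPolynomial (Fin 2) k), Dle 2 R → Dle 4 T → (∀ F, F * T ∈ II P Q) →
      L (R * hc 4 T) = 0 := by
    intro R T hR hT hTI
    have e : R * hc 4 T = R * T - R * (T - hc 4 T) := by ring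
    rw [e, map_sub, ker _ (hTI R), low _ (hR.mul (sub_hcD hT) (by omega)), sub_zero]
  have X1 : ∀ (i : Fin 2) (F : MvPolynomial (Fin 2) k), Dle 2 F → Dle 3 (X i * F) := fun i F hF =>
    (Dle.X le_rfl i).mul hF (by omega)
  obtain ⟨W, hW⟩ : ∃ W, W = A * B₂ - B * A₂ := ⟨_, rfl⟩
  obtain ⟨E, hE⟩ : ∃ E, E = (((pderiv 0 (hc 4 P) + X 1 * κ) * V' + U * (pderiv 1 (hc 4 Q) - X 0 * κ' + V')) -
        ((pderiv 1 (hc 4 P) - X 0 * κ) * U' + V * (pderiv 0 (hc 4 Q) + X 1 * κ' + U'))) := ⟨_, rfl⟩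
  have dE : Dle 5 E := by
    rw [hE]
    refine (((d0 0).add (X1 1 κ dκ)).mul dV' (by omega)).add (dU.mul (((d1 1).sub (X1 0 κ' dκ')).add
      (dV'.mono (by norm_num))) (by omega)) |>.sub ?_
    exact (((d0 1).sub (X1 0 κ dκ)).mul dU' (by omega)).add (dV.mul (((d1 0).add (X1 1 κ' dκ')).add
      (dU'.mono (by norm_num))) (by omega))
  rw [← hW, ← hE] at key
  rw [← hW, key, map_add, L_Ck, map_sub, map_sub, L_Ck, L_Ck, hz κ' P dκ' hP (II_P P Q),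
    hz κ Q dκ hQ (II_Q P Q), low E dE]
  ring

end gen

/-- the Bezoutian at a zero, explicitly -/
lemma bzx {P Q : RP} {L : RP →ₗ[ℝ] ℝ} (h : Rs P Q L) (hP : Dle 4 P) (hQ : Dle 4 Q) {s : Fin 2 → ℝ}
    (hsP : eval s P = 0) (hsQ : eval s Q = 0) : ∃ A B A' B' : RP,
      P = (X 0 - C (s 0)) * A + (X 1 - C (s 1)) * B ∧ Q = (X 0 - C (s 0)) * A' + (X 1 - C (s 1)) * B' ∧
      Dle 3 A ∧ Dle 3 B ∧ Dle 3 A' ∧ Dle 3 B' ∧ L (A * B' - B * A') = 1 := by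
  obtain ⟨A, B, hA, hB, eP⟩ := dec_at 3 P hP s
  obtain ⟨A', B', hA', hB', eQ⟩ := dec_at 3 Q hQ s
  rw [hsP, C_0, sub_zero] at eP
  rw [hsQ, C_0, sub_zero] at eQ
  refine ⟨A, B, A', B', eP, eQ, hA, hB, hA', hB', ?_⟩
  have h5 := LJ_rel' (R := -(C (s 0) * A + C (s 1) * B)) (R₂ := -(C (s 0) * A' + C (s 1) * B'))
    (((Dle.C (n := 0) _).mul hA (by omega)).add ((Dle.C (n := 0) _).mul hB (by omega))).neg
    (((Dle.C (n := 0) _).mul hA' (by omega)).add ((Dle.C (n := 0) _).mul hB' (by omega))).neg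
    hP hQ hA hB hA' hB' (by rw [eP]; ring) (by rw [eQ]; ring) h.low h.ker
  rw [h.LJ] at h5
  linarith

/-- the Bezoutian kills the maximal ideal of the point -/
lemma bzx_mul {P Q A B A' B' : RP} {s : Fin 2 → ℝ} (eP : P = (X 0 - C (s 0)) * A + (X 1 - C (s 1)) * B)
    (eQ : Q = (X 0 - C (s 0)) * A' + (X 1 - C (s 1)) * B') (F : RP) :
    F * (A * B' - B * A') - C (eval s F) * (A * B' - B * A') ∈ II P Q := by
  obtain ⟨U, V, _, _, hUV⟩ := dec_at F.totalDegree F (by show F.totalDegree ≤ _; omega) s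
  refine mem_II.2 ⟨U * B' - V * A', V * A - U * B, ?_⟩
  rw [eP, eQ]
  linear_combination (-(A * B' - B * A')) * hUV

/-- the package in a chart without zeros at infinity, degenerate zeros being allowed -/
structure Qk (P Q : RP) (L : RP →ₗ[ℝ] ℝ) (S : Finset (Fin 2 → ℝ)) (Δ : (Fin 2 → ℝ) → RP) : Prop where
  e0 : E0 P Q
  rs : Rs P Q L
  card : S.card = 9
  zero : ∀ p ∈ S, eval p P = 0 ∧ eval p Q = 0
  Jn : ∀ p ∈ S, 0 ≤ eval p (Jac P Q)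
  ex : ∃ p ∈ S, 0 < eval p (Jac P Q)
  d6 : ∀ s ∈ S, Dle 6 (Δ s)
  mul : ∀ s ∈ S, ∀ F, L (F * Δ s) = eval s F
  diag : ∀ s ∈ S, eval s (Δ s) = eval s (Jac P Q)
  off : ∀ s ∈ S, ∀ z : Fin 2 → ℝ, eval z P = 0 → eval z Q = 0 → z ≠ s → eval z (Δ s) = 0
  id : ∀ s ∈ S, ∀ F, F * Δ s - C (eval s F) * Δ s ∈ II P Q
  bz : ∀ s ∈ S, ∃ A B A' B' : RP,
      P = (X 0 - C (s 0)) * A + (X 1 - C (s 1)) * B ∧ Q = (X 0 - C (s 0)) * A' + (X 1 - C (s 1)) * B' ∧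
      Δ s = A * B' - B * A'

lemma exists_Qk {P Q : RP} {S : Finset (Fin 2 → ℝ)} (h : E0 P Q) (hc : S.card = 9)
    (hz : ∀ p ∈ S, eval p P = 0 ∧ eval p Q = 0) (hJ : ∀ p ∈ S, 0 ≤ eval p (Jac P Q))
    (hex : ∃ p ∈ S, 0 < eval p (Jac P Q)) : ∃ L Δ, Qk P Q L S Δ := by
  obtain ⟨s0, hs0, hJ0⟩ := hex
  obtain ⟨L, hL⟩ := h.exists_Rs (hz s0 hs0).1 (hz s0 hs0).2 hJ0.ne'
  have hb := fun s (hs : s ∈ S) => bzx hL h.hP h.hQ (hz s hs).1 (hz s hs).2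
  choose! A B A' B' h1 h2 h3 h4 h5 h6 h7 using hb
  refine ⟨L, fun s => A s * B' s - B s * A' s, h, hL, hc, hz, hJ, ⟨s0, hs0, hJ0⟩, ?_, ?_, ?_, ?_, ?_, ?_⟩
  · intro s hs
    exact ((h3 s hs).mul (h6 s hs) (by omega)).sub ((h4 s hs).mul (h5 s hs) (by omega))
  · intro s hs F
    exact hL.mulDelta (h7 s hs) (bzx_mul (h1 s hs) (h2 s hs)) F
  · intro s hs
    have e1 := h1 s hs
    have e2 := h2 s hs
    unfold Jac
    rw [congrArg (pderiv 0) e1, congrArg (pderiv 1) e1, congrArg (pderiv 0) e2, congrArg (pderiv 1) e2]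
    simp only [map_add, map_sub, map_mul, Derivation.leibniz, smul_eq_mul, pderiv_C, p00, p01, p10, p11,
      eval_X, eval_C, sub_self, map_one, map_zero]
    ring
  · intro s hs z hz1 hz2 hne
    exact delta_other (bzx_mul (h1 s hs) (h2 s hs)) hz1 hz2 hne
  · intro s hs F
    exact bzx_mul (h1 s hs) (h2 s hs) F
  · intro s hs
    exact ⟨A s, B s, A' s, B' s, h1 s hs, h2 s hs, rfl⟩

end Run7.h256
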