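import Mathlib
import Pool.Agent.Run7.h256.TC
import Pool.Agent.Run7.h256.Y2
import Pool.Agent.Run7.h256.Y3

set_option autoImplicit false

namespace Run7.h256

open MvPolynomial

namespace Qk

variable {P Q : RP} {L : RP →ₗ[ℝ] ℝ} {S : Finset (Fin 2 → ℝ)} {Δ : (Fin 2 → ℝ) → RP}

lemma Lcomm (L : RP →ₗ[ℝ] ℝ) (F G : RP) : L (F * G) = L (G * F) := by rw [mul_comm]

lemma exists_tau (h : Qk P Q L S Δ) {s : Fin 2 → ℝ} {Γ : Fin 2 → PowerSeries ℝ} {c : ℝ}
    (hn : Nc P Q s Γ c) : ∃ τ, Dle 6 τ ∧ ∀ G, L (τ * G) = ph Γ 1 G :=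
  exists_rep h.e0 h.rs.rs0 (ph Γ 1) (fun _ hF => (hn.II0 hF).2.1)

section tau

variable {s : Fin 2 → ℝ} {Γ : Fin 2 → PowerSeries ℝ} {c : ℝ} {τ : RP}

lemma tau_mul (h : Qk P Q L S Δ) (hs : s ∈ S) (hn : Nc P Q s Γ c) (hτ : ∀ G, L (τ * G) = ph Γ 1 G)
    (G : RP) : G * τ - (C (eval s G) * τ + C (ph Γ 1 G) * Δ s) ∈ II P Q := by
  apply h.e0.nondeg h.rs.rs0
  intro H
  have e : (G * τ - (C (eval s G) * τ + C (ph Γ 1 G) * Δ s)) * H =
      τ * (G * H) - (C (eval s G) * (τ * H) + C (ph Γ 1 G) * (H * Δ s)) := by ring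
  rw [e, map_sub, map_add, L_C, L_C, hτ, hτ, h.mul s hs, ph1, hn.ev0, hn.ev0]
  ring

lemma tau_self (h : Qk P Q L S Δ) (hs : s ∈ S) (hn : Nc P Q s Γ c) (hτ : ∀ G, L (τ * G) = ph Γ 1 G) :
    eval s τ = 0 := by
  obtain ⟨i, hi⟩ := hn.dir'
  obtain ⟨F, hF⟩ : ∃ F : RP, F = X i - C (s i) := ⟨_, rfl⟩
  have f0 : ph Γ 0 F = 0 := by rw [hF]; exact hn.Xs0 i
  have f1 : ph Γ 1 F = PowerSeries.coeff 1 (Γ i) := by rw [hF]; exact Nc.Xs1 i
  have fe : eval s F = 0 := by rw [hF]; simp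
  have h1 := h.tau_mul hs hn hτ (F * F)
  have h2 := (hn.II0 h1).2.2
  simp only [map_sub, map_add, ph_Cmul, ph2, ph1, ph0, map_mul, f0, f1, fe, hn.ev0 τ, mul_zero, zero_mul,
    add_zero, zero_add, sub_zero] at h2
  exact (mul_eq_zero.1 h2).resolve_left (mul_ne_zero hi hi)

lemma tau_off (h : Qk P Q L S Δ) (hs : s ∈ S) (hn : Nc P Q s Γ c) (hτ : ∀ G, L (τ * G) = ph Γ 1 G)
    {z : Fin 2 → ℝ} (hz1 : eval z P = 0) (hz2 : eval z Q = 0) (hne : z ≠ s) : eval z τ = 0 := by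
  obtain ⟨i, hi⟩ : ∃ i, z i ≠ s i := by
    by_contra hc
    push Not at hc
    exact hne (funext hc)
  have h1 := II_eval (h.tau_mul hs hn hτ (X i)) hz1 hz2
  simp only [map_sub, map_add, map_mul, eval_X, eval_C, h.off s hs z hz1 hz2 hne, mul_zero, add_zero] at h1
  have h2 : (z i - s i) * eval z τ = 0 := by linear_combination h1
  exact (mul_eq_zero.1 h2).resolve_left (sub_ne_zero.2 hi)

lemma tau_S (h : Qk P Q L S Δ) (hs : s ∈ S) (hn : Nc P Q s Γ c) (hτ : ∀ G, L (τ * G) = ph Γ 1 G)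
    {z : Fin 2 → ℝ} (hz : z ∈ S) : eval z τ = 0 := by
  by_cases hzs : z = s
  · rw [hzs]; exact h.tau_self hs hn hτ
  · exact h.tau_off hs hn hτ (h.zero z hz).1 (h.zero z hz).2 hzs

lemma ph1_delta (h : Qk P Q L S Δ) (hs : s ∈ S) (hn : Nc P Q s Γ c) (hτ : ∀ G, L (τ * G) = ph Γ 1 G)
    {z : Fin 2 → ℝ} (hz : z ∈ S) : ph Γ 1 (Δ z) = 0 := by
  rw [← hτ, h.mul z hz]
  exact h.tau_S hs hn hτ hz

lemma ph2_delta (h : Qk P Q L S Δ) (hs : s ∈ S) (hn : Nc P Q s Γ c) : ph Γ 2 (Δ s) = c := by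
  obtain ⟨A, B, A', B', e1, e2, e3⟩ := h.bz s hs
  rw [e3]
  exact hn.sgn_all e1 e2

lemma tau_sq (h : Qk P Q L S Δ) (hs : s ∈ S) (hn : Nc P Q s Γ c) (hτ : ∀ G, L (τ * G) = ph Γ 1 G) :
    L (τ * τ) = c := by
  obtain ⟨i, hi⟩ := hn.dir'
  rw [hτ]
  have h1 := h.tau_mul hs hn hτ (X i - C (s i))
  have h2 := (hn.II0 h1).2.2
  rw [map_sub, map_add, ph_Cmul, ph_Cmul, ph2, hn.Xs0, Nc.Xs1, Nc.Xs2, hn.ev0, h.tau_self hs hn hτ,
    h.ph2_delta hs hn] at h2
  simp only [map_sub, eval_X, eval_C, sub_self, zero_mul, zero_add, mul_zero, add_zero] at h2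
  have h3 : PowerSeries.coeff 1 (Γ i) * (ph Γ 1 τ - c) = 0 := by linear_combination h2
  have := (mul_eq_zero.1 h3).resolve_left hi
  linarith

lemma tau_prod (h : Qk P Q L S Δ) (hn : Nc P Q s Γ c) (hτ : ∀ G, L (τ * G) = ph Γ 1 G)
    {τ' : RP} (h0 : eval s τ' = 0) (h1 : ph Γ 1 τ' = 0) : τ * τ' ∈ II P Q := by
  apply h.e0.nondeg h.rs.rs0
  intro H
  rw [mul_assoc, hτ, ph1, hn.ev0, h0, h1]; ring

end tau

/-- extra elements -/
structure Fm {ι : Type*} [Fintype ι] (P Q : RP) (L : RP →ₗ[ℝ] ℝ) (S : Finset (Fin 2 → ℝ)) (τ : ι → RP) :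
    Prop where
  d6 : ∀ i, Dle 6 (τ i)
  z : ∀ i, ∀ s ∈ S, eval s (τ i) = 0
  o : ∀ i j, i ≠ j → L (τ i * τ j) = 0 ∧ τ i * τ j ∈ II P Q
  e : ∀ i, 0 ≤ L (τ i * τ i)
  en : ∀ i, L (τ i * τ i) = 0 → τ i * τ i ∈ II P Q
  ind : ∀ b : ι → ℝ, (∀ G : RP, (∀ s ∈ S, eval s G = 0) → ∑ i, b i * L (τ i * G) = 0) → ∀ i, b i = 0

lemma L_sum {ι : Type*} (L : RP →ₗ[ℝ] ℝ) (t : Finset ι) (a : ι → ℝ) (F : ι → RP) (G : RP) :
    L ((∑ i ∈ t, C (a i) * F i) * G) = ∑ i ∈ t, a i * L (F i * G) := by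
  rw [Finset.sum_mul, map_sum]
  apply Finset.sum_congr rfl
  intro i _
  rw [mul_assoc, L_C]

theorem core {ι : Type*} [Fintype ι] [DecidableEq ι] (h : Qk P Q L S Δ) {τ : ι → RP} (hf : Fm P Q L S τ)
    {u : RP} (hu : Dle 2 u) {a : (Fin 2 → ℝ) → ℝ} {b : ι → ℝ}
    (hI : u + ∑ s ∈ S, C (a s) * Δ s + ∑ i, C (b i) * τ i ∈ II P Q) :
    u = 0 ∧ (∀ s ∈ S, a s = 0) ∧ ∀ i, b i = 0 := by
  classical
  obtain ⟨V, hV⟩ : ∃ V, V = ∑ s ∈ S, C (a s) * Δ s := ⟨_, rfl⟩
  obtain ⟨T, hT⟩ : ∃ T, T = ∑ i, C (b i) * τ i := ⟨_, rfl⟩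
  rw [← hV, ← hT] at hI
  have hVs : ∀ s ∈ S, eval s V = a s * eval s (Jac P Q) := by
    intro s hs
    rw [hV, map_sum, Finset.sum_eq_single s]
    · rw [map_mul, eval_C, h.diag s hs]
    · intro t ht hts
      rw [map_mul, h.off t ht s (h.zero s hs).1 (h.zero s hs).2 (Ne.symm hts), mul_zero]
    · intro h1; exact absurd hs h1
  have hTs : ∀ s ∈ S, eval s T = 0 := by
    intro s hs
    rw [hT, map_sum]
    apply Finset.sum_eq_zero
    intro i _
    rw [map_mul, hf.z i s hs, mul_zero]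
  have hLV : ∀ G, L (V * G) = ∑ s ∈ S, a s * eval s G := by
    intro G
    rw [hV, L_sum]
    apply Finset.sum_congr rfl
    intro s hs
    rw [mul_comm (Δ s), h.mul s hs]
  have hLVV : L (V * V) = ∑ s ∈ S, a s ^ 2 * eval s (Jac P Q) := by
    rw [hLV]
    apply Finset.sum_congr rfl
    intro s hs
    rw [hVs s hs]; ring
  have hLVT : L (V * T) = 0 := by
    rw [hLV]
    apply Finset.sum_eq_zero
    intro s hs
    rw [hTs s hs, mul_zero]
  have hLTT : L (T * T) = ∑ i, b i ^ 2 * L (τ i * τ i) := by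
    have e1 : L (T * T) = ∑ i, b i * L (τ i * T) := by
      conv_lhs => rw [hT, L_sum]
      rw [← hT]
    rw [e1]
    apply Finset.sum_congr rfl
    intro i _
    have e2 : L (τ i * T) = b i * L (τ i * τ i) := by
      rw [mul_comm, hT, L_sum, Finset.sum_eq_single i]
      · intro j _ hj
        rw [(hf.o j i hj).1, mul_zero]
      · intro h1; exact absurd (Finset.mem_univ i) h1
    rw [e2]; ring
  have hsq : u * u - (V + T) * (V + T) ∈ II P Q := by
    have := Ideal.mul_mem_left _ (u - (V + T)) hI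
    have e : (u - (V + T)) * (u + V + T) = u * u - (V + T) * (V + T) := by ring
    rwa [e] at this
  have hL0 : L (V * V) + L (T * T) = 0 := by
    have h1 := h.rs.ker _ hsq
    have e : (V + T) * (V + T) = V * V + (C 2 * (V * T)) + T * T := by
      rw [show (C 2 : RP) = 2 from map_ofNat C 2]; ring
    rw [map_sub, e, map_add, map_add, L_C, hLVT, h.rs.low _ (hu.mul hu (by omega))] at h1
    linarith
  have n1 : ∀ s ∈ S, 0 ≤ a s ^ 2 * eval s (Jac P Q) := fun s hs => mul_nonneg (sq_nonneg _) (h.Jn s hs)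
  have n2 : ∀ i ∈ (Finset.univ : Finset ι), 0 ≤ b i ^ 2 * L (τ i * τ i) :=
    fun i _ => mul_nonneg (sq_nonneg _) (hf.e i)
  have m1 := Finset.sum_nonneg n1
  have m2 := Finset.sum_nonneg n2
  rw [hLVV, hLTT] at hL0
  have z1 := (Finset.sum_eq_zero_iff_of_nonneg n1).1 (by linarith)
  have z2 := (Finset.sum_eq_zero_iff_of_nonneg n2).1 (by linarith)
  have hVV : V * V ∈ II P Q := by
    have e : V * V = ∑ s ∈ S, C (a s) * (V * Δ s) := by
      conv_lhs => rw [mul_comm]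
      nth_rewrite 2 [hV]
      rw [Finset.mul_sum]
      apply Finset.sum_congr rfl
      intro s _; ring
    rw [e]
    apply Ideal.sum_mem
    intro s hs
    have h1 := Ideal.mul_mem_left (II P Q) (C (a s)) (h.id s hs V)
    have e2 : C (a s) * (V * Δ s) = C (a s) * (V * Δ s - C (eval s V) * Δ s) +
        C (a s * eval s V) * Δ s := by rw [C_mul]; ring
    rw [e2]
    apply Ideal.add_mem _ h1
    have e3 : a s * eval s V = 0 := by rw [hVs s hs]; have := z1 s hs; linear_combination this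
    rw [e3, C_0, zero_mul]; exact Ideal.zero_mem _
  have hVT : V * T ∈ II P Q := by
    rw [hV, Finset.sum_mul]
    apply Ideal.sum_mem
    intro s hs
    have h1 := Ideal.mul_mem_left (II P Q) (C (a s)) (h.id s hs T)
    rw [hTs s hs, C_0, zero_mul, sub_zero] at h1
    have e : C (a s) * Δ s * T = C (a s) * (T * Δ s) := by ring
    rw [e]; exact h1
  have hTT : T * T ∈ II P Q := by
    have e : T * T = ∑ i, ∑ j, C (b i * b j) * (τ i * τ j) := by
      rw [hT, Finset.sum_mul_sum]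
      apply Finset.sum_congr rfl
      intro i _
      apply Finset.sum_congr rfl
      intro j _
      rw [C_mul]; ring
    rw [e]
    apply Ideal.sum_mem
    intro i _
    apply Ideal.sum_mem
    intro j _
    by_cases hij : i = j
    · subst hij
      have h1 := z2 i (Finset.mem_univ i)
      rcases mul_eq_zero.1 h1 with h2 | h2
      · have : b i * b i = 0 := by rw [← sq]; exact h2
        rw [this, C_0, zero_mul]; exact Ideal.zero_mem _
      · exact Ideal.mul_mem_left _ _ (hf.en i h2)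
    · exact Ideal.mul_mem_left _ _ (hf.o i j hij).2
  have huu : u * u ∈ II P Q := by
    have e : u * u = (u * u - (V + T) * (V + T)) + (V * V + C 2 * (V * T) + T * T) := by
      rw [show (C 2 : RP) = 2 from map_ofNat C 2]; ring
    rw [e]
    exact Ideal.add_mem _ hsq (Ideal.add_mem _ (Ideal.add_mem _ hVV (Ideal.mul_mem_left _ _ hVT)) hTT)
  -- the conic vanishes
  have hu0 : u = 0 := by
    obtain ⟨α, β, hα, hβ, he⟩ := h.e0.mem_red (n := 0) huu (hu.mul hu (by omega))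
    obtain ⟨s, hs, hJ⟩ := h.ex
    have hus : eval s u = 0 := by
      have h1 := II_eval hI (h.zero s hs).1 (h.zero s hs).2
      rw [map_add, map_add, hVs s hs, hTs s hs, add_zero] at h1
      have h2 := z1 s hs
      have h3 : a s ^ 2 = 0 := (mul_eq_zero.1 h2).resolve_right hJ.ne'
      have h4 : a s = 0 := by
        have := pow_eq_zero_iff (two_ne_zero) |>.1 h3
        exact this
      rw [h4, zero_mul, add_zero] at h1
      exact h1
    have hα' : α = C (coeff 0 α) := (totalDegree_eq_zero_iff_eq_C).1 (Nat.le_zero.1 hα)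
    have hβ' : β = C (coeff 0 β) := (totalDegree_eq_zero_iff_eq_C).1 (Nat.le_zero.1 hβ)
    obtain ⟨α0, hα0⟩ : ∃ x, x = coeff 0 α := ⟨_, rfl⟩
    obtain ⟨β0, hβ0⟩ : ∃ x, x = coeff 0 β := ⟨_, rfl⟩
    rw [← hα0] at hα'
    rw [← hβ0] at hβ'
    rw [hα', hβ'] at he
    have g0 := congrArg (fun F => eval s (pderiv 0 F)) he
    have g1 := congrArg (fun F => eval s (pderiv 1 F)) he
    simp only [map_add, Derivation.leibniz, smul_eq_mul, pderiv_C, map_mul, eval_C, mul_zero, add_zero, hus,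
      zero_mul] at g0 g1
    simp only [Jac, map_sub, map_mul] at hJ
    have k1 : α0 * (eval s (pderiv 0 P) * eval s (pderiv 1 Q) - eval s (pderiv 1 P) * eval s (pderiv 0 Q)) = 0 := by
      linear_combination eval s (pderiv 1 Q) * g0 - eval s (pderiv 0 Q) * g1
    have k2 : β0 * (eval s (pderiv 0 P) * eval s (pderiv 1 Q) - eval s (pderiv 1 P) * eval s (pderiv 0 Q)) = 0 := by
      linear_combination eval s (pderiv 0 P) * g1 - eval s (pderiv 1 P) * g0
    have k3 := (mul_eq_zero.1 k1).resolve_right hJ.ne'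
    have k4 := (mul_eq_zero.1 k2).resolve_right hJ.ne'
    rw [k3, k4, C_0, zero_mul, zero_mul, add_zero] at he
    exact mul_self_eq_zero.1 he.symm
  refine ⟨hu0, ?_⟩
  rw [hu0, zero_add] at hI
  have hpair : ∀ G : RP, ∑ s ∈ S, a s * eval s G + ∑ i, b i * L (τ i * G) = 0 := by
    intro G
    have h1 := h.rs.ker _ (Ideal.mul_mem_right G _ hI)
    rw [add_mul, map_add, hLV] at h1
    nth_rewrite 1 [hT] at h1
    rw [L_sum] at h1
    exact h1
  have hb := hf.ind b (by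
    intro G hG
    have h1 := hpair G
    rw [Finset.sum_eq_zero (fun s hs => by rw [hG s hs, mul_zero]), zero_add] at h1
    exact h1)
  refine ⟨?_, hb⟩
  intro s hs
  obtain ⟨A, _, hA2, hA3⟩ := exists_sep S s
  have h1 := hpair A
  have h2 : ∑ i, b i * L (τ i * A) = 0 := Finset.sum_eq_zero (fun i _ => by rw [hb i, zero_mul])
  rw [h2, add_zero, Finset.sum_eq_single s] at h1
  · exact (mul_eq_zero.1 h1).resolve_right hA2
  · intro t ht hts
    rw [hA3 t ht hts, mul_zero]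
  · intro h3; exact absurd hs h3

/-- the map giving the decomposition -/
noncomputable def Pm {ι : Type*} [Fintype ι] (P Q : RP) (S : Finset (Fin 2 → ℝ)) (Δ : (Fin 2 → ℝ) → RP)
    (τ : ι → RP) : (Pl ℝ 2 × (S → ℝ) × (ι → ℝ) × E0.KK P Q 2) →ₗ[ℝ] RP where
  toFun x := x.1.1 + ∑ s : S, C (x.2.1 s) * Δ s.1 + ∑ i, C (x.2.2.1 i) * τ i + x.2.2.2.1
  map_add' x y := by
    simp only [Prod.fst_add, Prod.snd_add, Submodule.coe_add, Pi.add_apply, C_add, add_mul,
      Finset.sum_add_distrib]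
    ring
  map_smul' c x := by
    simp only [Prod.smul_fst, Prod.smul_snd, Submodule.coe_smul, Pi.smul_apply, smul_eq_mul, C_mul,
      smul_eq_C_mul, RingHom.id_apply, mul_add, Finset.mul_sum, mul_assoc]

lemma Pm_apply {ι : Type*} [Fintype ι] (τ : ι → RP) (x : Pl ℝ 2 × (S → ℝ) × (ι → ℝ) × E0.KK P Q 2) :
    Pm P Q S Δ τ x = x.1.1 + ∑ s : S, C (x.2.1 s) * Δ s.1 + ∑ i, C (x.2.2.1 i) * τ i + x.2.2.2.1 := rfl

lemma Pm_inj {ι : Type*} [Fintype ι] [DecidableEq ι] (h : Qk P Q L S Δ) {τ : ι → RP} (hf : Fm P Q L S τ) :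
    Function.Injective (Pm P Q S Δ τ) := by
  classical
  rw [injective_iff_map_eq_zero]
  rintro ⟨u, a, b, k⟩ he
  rw [Pm_apply] at he
  have hk : k.1 ∈ II P Q := E0.KK_II k.2
  have hI : u.1 + ∑ s ∈ S, C ((fun s => if hs : s ∈ S then a ⟨s, hs⟩ else 0) s) * Δ s + ∑ i, C (b i) * τ i ∈
      II P Q := by
    have e1 : ∑ s ∈ S, C ((fun s => if hs : s ∈ S then a ⟨s, hs⟩ else 0) s) * Δ s =
        ∑ s : S, C (a s) * Δ s.1 := by
      rw [← Finset.sum_coe_sort]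
      apply Finset.sum_congr rfl
      intro s _
      simp
    rw [e1]
    have e2 : u.1 + ∑ s : S, C (a s) * Δ s.1 + ∑ i, C (b i) * τ i = -k.1 := by
      have : u.1 + ∑ s : S, C (a s) * Δ s.1 + ∑ i, C (b i) * τ i + k.1 = 0 := he
      linear_combination this
    rw [e2]
    exact Ideal.neg_mem_iff _ |>.2 hk
  obtain ⟨h1, h2, h3⟩ := h.core hf (mem_Pl.1 u.2) hI
  have ha : a = 0 := by
    funext s
    have := h2 s.1 s.2
    simpa using this
  have hb : b = 0 := funext h3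
  have hu : u = 0 := Subtype.ext h1
  have hk0 : k = 0 := by
    apply Subtype.ext
    have : u.1 + ∑ s : S, C (a s) * Δ s.1 + ∑ i, C (b i) * τ i + k.1 = 0 := he
    rw [hu, ha, hb] at this
    simpa using this
  rw [hu, ha, hb, hk0]; rfl

lemma Pm_range {ι : Type*} [Fintype ι] (h : Qk P Q L S Δ) {τ : ι → RP} (hf : Fm P Q L S τ) :
    LinearMap.range (Pm P Q S Δ τ) ≤ Pl ℝ 6 := by
  rintro _ ⟨⟨u, a, b, k⟩, rfl⟩
  rw [Pm_apply, mem_Pl]
  have d1 : Dle 6 u.1 := (mem_Pl.1 u.2).trans (by norm_num)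
  have d2 : Dle 6 (∑ s : S, C (a s) * Δ s.1) := by
    refine le_trans (totalDegree_finsetSum _ _) ?_
    apply Finset.sup_le
    intro s _
    exact (Dle.C (n := 0) _).mul (h.d6 s.1 s.2) (by omega)
  have d3 : Dle 6 (∑ i, C (b i) * τ i) := by
    refine le_trans (totalDegree_finsetSum _ _) ?_
    apply Finset.sup_le
    intro i _
    exact (Dle.C (n := 0) _).mul (hf.d6 i) (by omega)
  exact ((d1.add d2).add d3).add (mem_Pl.1 (h.e0.KK_le 2 k.2))

lemma finrank_dom {ι : Type*} [Fintype ι] (h : Qk P Q L S Δ) :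
    Module.finrank ℝ (Pl ℝ 2 × (S → ℝ) × (ι → ℝ) × E0.KK P Q 2) = 27 + Fintype.card ι := by
  rw [Module.finrank_prod, Module.finrank_prod, Module.finrank_prod, Module.finrank_fintype_fun_eq_card,
    Module.finrank_fintype_fun_eq_card, Fintype.card_coe, h.card, h.e0.finrank_KK (by norm_num)]
  have := finrank_Pl (k := ℝ) 2
  omega

theorem no_two {ι : Type*} [Fintype ι] [DecidableEq ι] (h : Qk P Q L S Δ) {τ : ι → RP}
    (hf : Fm P Q L S τ) (hι : 2 ≤ Fintype.card ι) : False := by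
  have h1 := Submodule.finrank_mono (h.Pm_range hf)
  rw [LinearMap.finrank_range_of_inj (h.Pm_inj hf), h.finrank_dom] at h1
  have e6 : Module.finrank ℝ (Pl ℝ 6) = 28 := by
    have := finrank_Pl (k := ℝ) 6
    omega
  have h2 : 27 + Fintype.card ι ≤ 28 := le_trans h1 (le_of_eq e6)
  omega

theorem decomp1 {ι : Type*} [Fintype ι] [DecidableEq ι] (h : Qk P Q L S Δ) {τ : ι → RP}
    (hf : Fm P Q L S τ) (hι : Fintype.card ι = 1) (G : RP) : ∃ (u : RP) (a : (Fin 2 → ℝ) → ℝ) (b : ι → ℝ),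
      Dle 2 u ∧ G - (u + ∑ s ∈ S, C (a s) * Δ s + ∑ i, C (b i) * τ i) ∈ II P Q := by
  classical
  have h1 : LinearMap.range (Pm P Q S Δ τ) = Pl ℝ 6 := by
    apply Submodule.eq_of_le_of_finrank_eq (h.Pm_range hf)
    rw [LinearMap.finrank_range_of_inj (h.Pm_inj hf), h.finrank_dom, hι]
    have e6 : Module.finrank ℝ (Pl ℝ 6) = 28 := by
      have := finrank_Pl (k := ℝ) 6
      omega
    exact e6.symm
  obtain ⟨G', hG', hGG⟩ := h.e0.rep6 G
  have h2 : G' ∈ LinearMap.range (Pm P Q S Δ τ) := by rw [h1]; exact mem_Pl.2 hG'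
  obtain ⟨⟨u, a, b, k⟩, he⟩ := h2
  rw [Pm_apply] at he
  refine ⟨u.1, fun s => if hs : s ∈ S then a ⟨s, hs⟩ else 0, b, mem_Pl.1 u.2, ?_⟩
  have e1 : ∑ s ∈ S, C ((fun s => if hs : s ∈ S then a ⟨s, hs⟩ else 0) s) * Δ s =
      ∑ s : S, C (a s) * Δ s.1 := by
    rw [← Finset.sum_coe_sort]
    apply Finset.sum_congr rfl
    intro s _
    simp
  rw [e1]
  have e2 : G - (u.1 + ∑ s : S, C (a s) * Δ s.1 + ∑ i, C (b i) * τ i) = (G - G') + k.1 := by
    have : u.1 + ∑ s : S, C (a s) * Δ s.1 + ∑ i, C (b i) * τ i + k.1 = G' := he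
    linear_combination (-1 : RP) * this
  rw [e2]
  exact Ideal.add_mem _ hGG (E0.KK_II k.2)

end Qk

end Run7.h256
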