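import Mathlib
import Pool.Agent.Run7.h256.Y4

set_option autoImplicit false

namespace Run7.h256

open MvPolynomial ComplexConjugate

namespace Qk

variable {P Q : RP} {L : RP →ₗ[ℝ] ℝ} {S : Finset (Fin 2 → ℝ)} {Δ : (Fin 2 → ℝ) → RP}

lemma cross (h : Qk P Q L S Δ) {s1 s2 : Fin 2 → ℝ} (hs1 : s1 ∈ S) (hs2 : s2 ∈ S)
    {Γ1 Γ2 : Fin 2 → PowerSeries ℝ} {c1 c2 : ℝ} (n1 : Nc P Q s1 Γ1 c1) (n2 : Nc P Q s2 Γ2 c2)
    {τ1 τ2 : RP} (r1 : ∀ G, L (τ1 * G) = ph Γ1 1 G) (r2 : ∀ G, L (τ2 * G) = ph Γ2 1 G)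
    (hsep : s1 ≠ s2 ∨ (s1 = s2 ∧ c1 = 0)) : ph Γ1 1 τ2 = 0 := by
  rcases hsep with hne | ⟨rfl, hc⟩
  · obtain ⟨i, hi⟩ : ∃ i, s1 i ≠ s2 i := by
      by_contra hc
      push Not at hc
      exact hne (funext hc)
    have h1 := (n1.II0 (h.tau_mul hs2 n2 r2 (X i))).2.1
    rw [map_sub, map_add, ph_Cmul, ph_Cmul, ph1, ph_X, n1.base, n1.ev0, h.tau_S hs2 n2 r2 hs1,
      h.ph1_delta hs1 n1 r1 hs2, eval_X] at h1
    have h2 : (s1 i - s2 i) * ph Γ1 1 τ2 = 0 := by linear_combination h1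
    exact (mul_eq_zero.1 h2).resolve_left (sub_ne_zero.2 hi)
  · obtain ⟨i, hi⟩ := n1.dir'
    have h1 := (n1.II0 (h.tau_mul hs2 n2 r2 (X i - C (s1 i)))).2.2
    rw [map_sub, map_add, ph_Cmul, ph_Cmul, ph2, n1.Xs0, Nc.Xs1, n1.ev0 τ2, h.tau_S hs2 n2 r2 hs1,
      h.ph2_delta hs1 n1, hc] at h1
    simp only [map_sub, eval_X, eval_C, sub_self, zero_mul, zero_add, mul_zero, add_zero, sub_zero] at h1
    exact (mul_eq_zero.1 h1).resolve_left hi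

theorem two_false (h : Qk P Q L S Δ) {s1 s2 : Fin 2 → ℝ} (hs1 : s1 ∈ S) (hs2 : s2 ∈ S)
    {Γ1 Γ2 : Fin 2 → PowerSeries ℝ} {c1 c2 : ℝ} (n1 : Nc P Q s1 Γ1 c1) (n2 : Nc P Q s2 Γ2 c2)
    (hc1 : 0 ≤ c1) (hc2 : 0 ≤ c2)
    (hsep : s1 ≠ s2 ∨ (s1 = s2 ∧ c1 = 0 ∧ c2 = 0 ∧ PowerSeries.coeff 1 (Γ1 0) * PowerSeries.coeff 1 (Γ2 1) -
      PowerSeries.coeff 1 (Γ1 1) * PowerSeries.coeff 1 (Γ2 0) ≠ 0)) : False := by
  classical
  obtain ⟨τ1, d1, r1⟩ := h.exists_tau n1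
  obtain ⟨τ2, d2, r2⟩ := h.exists_tau n2
  have x12 : ph Γ1 1 τ2 = 0 := h.cross hs1 hs2 n1 n2 r1 r2 (by
    rcases hsep with h1 | ⟨h1, h2, _, _⟩
    · exact Or.inl h1
    · exact Or.inr ⟨h1, h2⟩)
  have x21 : ph Γ2 1 τ1 = 0 := h.cross hs2 hs1 n2 n1 r2 r1 (by
    rcases hsep with h1 | ⟨h1, _, h3, _⟩
    · exact Or.inl (Ne.symm h1)
    · exact Or.inr ⟨h1.symm, h3⟩)
  -- separating affine functions
  have sep1 : ∃ ℓ : RP, eval s1 ℓ = 0 ∧ ph Γ1 1 ℓ ≠ 0 ∧ (s1 = s2 → ph Γ2 1 ℓ = 0) := by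
    rcases hsep with hne | ⟨_, _, _, hdet⟩
    · obtain ⟨i, hi⟩ := n1.dir'
      exact ⟨X i - C (s1 i), by simp, by rw [Nc.Xs1]; exact hi, fun h1 => absurd h1 hne⟩
    · refine ⟨C (PowerSeries.coeff 1 (Γ2 1)) * (X 0 - C (s1 0)) - C (PowerSeries.coeff 1 (Γ2 0)) * (X 1 - C (s1 1)),
        by simp, ?_, ?_⟩
      · rw [map_sub, ph_Cmul, ph_Cmul, Nc.Xs1, Nc.Xs1]
        intro h0; apply hdet; linear_combination h0
      · intro _
        rw [map_sub, ph_Cmul, ph_Cmul, Nc.Xs1, Nc.Xs1]; ring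
  have sep2 : ∃ ℓ : RP, eval s2 ℓ = 0 ∧ ph Γ2 1 ℓ ≠ 0 ∧ (s2 = s1 → ph Γ1 1 ℓ = 0) := by
    rcases hsep with hne | ⟨_, _, _, hdet⟩
    · obtain ⟨i, hi⟩ := n2.dir'
      exact ⟨X i - C (s2 i), by simp, by rw [Nc.Xs1]; exact hi, fun h1 => absurd h1.symm hne⟩
    · refine ⟨C (PowerSeries.coeff 1 (Γ1 1)) * (X 0 - C (s2 0)) - C (PowerSeries.coeff 1 (Γ1 0)) * (X 1 - C (s2 1)),
        by simp, ?_, ?_⟩
      · rw [map_sub, ph_Cmul, ph_Cmul, Nc.Xs1, Nc.Xs1]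
        intro h0; apply hdet; linear_combination -h0
      · intro _
        rw [map_sub, ph_Cmul, ph_Cmul, Nc.Xs1, Nc.Xs1]; ring
  have key : ∀ (s s' : Fin 2 → ℝ) (Γ Γ' : Fin 2 → PowerSeries ℝ) (c c' : ℝ), s ∈ S → Nc P Q s Γ c →
      s' ∈ S → Nc P Q s' Γ' c' → (∃ ℓ : RP, eval s ℓ = 0 ∧ ph Γ 1 ℓ ≠ 0 ∧ (s = s' → ph Γ' 1 ℓ = 0)) →
      ∃ G : RP, (∀ t ∈ S, eval t G = 0) ∧ ph Γ 1 G ≠ 0 ∧ ph Γ' 1 G = 0 := by
    rintro s s' Γ Γ' c c' hs hn hs' hn' ⟨ℓ, l1, l2, l3⟩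
    obtain ⟨A, _, hA2, hA3⟩ := exists_sep S s
    refine ⟨ℓ * (A * A), ?_, ?_, ?_⟩
    · intro t ht
      by_cases hts : t = s
      · rw [hts, map_mul, l1, zero_mul]
      · rw [map_mul, map_mul, hA3 t ht hts]; ring
    · rw [ph1, hn.ev0, l1, zero_mul, zero_add, ph0, hn.ev0]
      exact mul_ne_zero l2 (mul_ne_zero hA2 hA2)
    · by_cases hss : s = s'
      · rw [ph1, l3 hss, hn'.ev0, ← hss, l1]; ring
      · rw [ph1, ph1 Γ' A A, ph0 Γ' A A, hn'.ev0 A, hA3 s' hs' (Ne.symm hss)]; ring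
  obtain ⟨G1, a1, a2, a3⟩ := key s1 s2 Γ1 Γ2 c1 c2 hs1 n1 hs2 n2 sep1
  obtain ⟨G2, b1, b2, b3⟩ := key s2 s1 Γ2 Γ1 c2 c1 hs2 n2 hs1 n1 sep2
  have hf : Fm P Q L S ![τ1, τ2] := by
    refine ⟨?_, ?_, ?_, ?_, ?_, ?_⟩
    · intro i; fin_cases i
      · exact d1
      · exact d2
    · intro i; fin_cases i
      · exact fun s hs => h.tau_S hs1 n1 r1 hs
      · exact fun s hs => h.tau_S hs2 n2 r2 hs
    · intro i j; fin_cases i <;> fin_cases j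
      · intro h0; exact absurd rfl h0
      · intro _
        refine ⟨?_, ?_⟩
        · show L (τ1 * τ2) = 0
          rw [r1, x12]
        · exact h.tau_prod n1 r1 (h.tau_S hs2 n2 r2 hs1) x12
      · intro _
        refine ⟨?_, ?_⟩
        · show L (τ2 * τ1) = 0
          rw [r2, x21]
        · exact h.tau_prod n2 r2 (h.tau_S hs1 n1 r1 hs2) x21
      · intro h0; exact absurd rfl h0
    · intro i; fin_cases i
      · show 0 ≤ L (τ1 * τ1); rw [h.tau_sq hs1 n1 r1]; exact hc1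
      · show 0 ≤ L (τ2 * τ2); rw [h.tau_sq hs2 n2 r2]; exact hc2
    · intro i; fin_cases i
      · intro h0
        exact h.tau_prod n1 r1 (h.tau_S hs1 n1 r1 hs1) (by rw [← r1]; exact h0)
      · intro h0
        exact h.tau_prod n2 r2 (h.tau_S hs2 n2 r2 hs2) (by rw [← r2]; exact h0)
    · intro b hb
      have e1 := hb G1 a1
      have e2 := hb G2 b1
      rw [Fin.sum_univ_two] at e1 e2
      have f1 : b 0 * ph Γ1 1 G1 + b 1 * ph Γ2 1 G1 = 0 := by rw [← r1, ← r2]; exact e1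
      have f2 : b 0 * ph Γ1 1 G2 + b 1 * ph Γ2 1 G2 = 0 := by rw [← r1, ← r2]; exact e2
      rw [a3, mul_zero, add_zero] at f1
      rw [b3, mul_zero, zero_add] at f2
      intro i; fin_cases i
      · exact (mul_eq_zero.1 f1).resolve_right a2
      · exact (mul_eq_zero.1 f2).resolve_right b2
  exact h.no_two hf (by simp)

end Qk

/-- exactly one degenerate point -/
structure Rk (P Q : RP) (L : RP →ₗ[ℝ] ℝ) (S : Finset (Fin 2 → ℝ)) (Δ : (Fin 2 → ℝ) → RP) (s9 : Fin 2 → ℝ)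
    (Γ : Fin 2 → PowerSeries ℝ) (c : ℝ) (τ : RP) : Prop where
  qk : Qk P Q L S Δ
  h9 : s9 ∈ S
  nc : Nc P Q s9 Γ c
  c0 : 0 ≤ c
  d6 : Dle 6 τ
  rep : ∀ G, L (τ * G) = ph Γ 1 G
  Jp : ∀ s ∈ S, s ≠ s9 → 0 < eval s (Jac P Q)

namespace Rk

variable {P Q : RP} {L : RP →ₗ[ℝ] ℝ} {S : Finset (Fin 2 → ℝ)} {Δ : (Fin 2 → ℝ) → RP} {s9 : Fin 2 → ℝ}
  {Γ : Fin 2 → PowerSeries ℝ} {c : ℝ} {τ : RP}

lemma fm (h : Rk P Q L S Δ s9 Γ c τ) : Qk.Fm P Q L S (fun _ : Unit => τ) := by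
  have hq := h.qk
  refine ⟨fun _ => h.d6, fun _ s hs => hq.tau_S h.h9 h.nc h.rep hs, fun i j hij => absurd rfl hij, ?_, ?_, ?_⟩
  · intro _; rw [hq.tau_sq h.h9 h.nc h.rep]; exact h.c0
  · intro _ h0
    exact hq.tau_prod h.nc h.rep (hq.tau_S h.h9 h.nc h.rep h.h9) (by rw [← h.rep]; exact h0)
  · intro b hb i
    obtain ⟨j, hj⟩ := h.nc.dir'
    obtain ⟨A, _, hA2, hA3⟩ := exists_sep S s9
    have h1 := hb ((X j - C (s9 j)) * A) (by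
      intro t ht
      by_cases hts : t = s9
      · rw [hts]; simp
      · rw [map_mul, hA3 t ht hts, mul_zero])
    rw [Fintype.sum_unique] at h1
    have h2 : b () * ph Γ 1 ((X j - C (s9 j)) * A) = 0 := by rw [← h.rep]; exact h1
    rw [ph1, h.nc.Xs0, Nc.Xs1, h.nc.ev0] at h2
    rw [zero_mul, zero_add] at h2
    exact (mul_eq_zero.1 h2).resolve_right (mul_ne_zero hj hA2)

/-- decomposition -/
theorem dec (h : Rk P Q L S Δ s9 Γ c τ) (G : RP) : ∃ (u : RP) (a : (Fin 2 → ℝ) → ℝ) (b : ℝ),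
    Dle 2 u ∧ G - (u + (∑ s ∈ S, C (a s) * Δ s + C b * τ)) ∈ II P Q := by
  obtain ⟨u, a, b, hu, hI⟩ := h.qk.decomp1 h.fm (by simp) G
  refine ⟨u, a, b (), hu, ?_⟩
  rw [Fintype.sum_unique] at hI
  rw [← add_assoc]
  exact hI

lemma tauS (h : Rk P Q L S Δ s9 Γ c τ) {s : Fin 2 → ℝ} (hs : s ∈ S) : eval s τ = 0 :=
  h.qk.tau_S h.h9 h.nc h.rep hs

lemma L_v (h : Rk P Q L S Δ s9 Γ c τ) (a : (Fin 2 → ℝ) → ℝ) (b : ℝ) (G : RP) :
    L ((∑ s ∈ S, C (a s) * Δ s + C b * τ) * G) = ∑ s ∈ S, a s * eval s G + b * ph Γ 1 G := by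
  rw [add_mul, map_add, Qk.L_sum, mul_assoc, L_C, h.rep]
  congr 1
  apply Finset.sum_congr rfl
  intro s hs
  rw [mul_comm (Δ s), h.qk.mul s hs]

lemma eval_v (h : Rk P Q L S Δ s9 Γ c τ) (a : (Fin 2 → ℝ) → ℝ) (b : ℝ) {s : Fin 2 → ℝ} (hs : s ∈ S) :
    eval s (∑ s ∈ S, C (a s) * Δ s + C b * τ) = a s * eval s (Jac P Q) := by
  rw [map_add, map_sum, Finset.sum_eq_single s]
  · rw [map_mul, map_mul, eval_C, h.qk.diag s hs, h.tauS hs, mul_zero, add_zero]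
  · intro t ht hts
    rw [map_mul, h.qk.off t ht s (h.qk.zero s hs).1 (h.qk.zero s hs).2 (Ne.symm hts), mul_zero]
  · intro h1; exact absurd hs h1

lemma ph1_v (h : Rk P Q L S Δ s9 Γ c τ) (a : (Fin 2 → ℝ) → ℝ) (b : ℝ) :
    ph Γ 1 (∑ s ∈ S, C (a s) * Δ s + C b * τ) = b * c := by
  rw [map_add, map_sum, ph_Cmul, ← h.rep τ, h.qk.tau_sq h.h9 h.nc h.rep, Finset.sum_eq_zero, zero_add]
  intro s hs
  rw [ph_Cmul, h.qk.ph1_delta h.h9 h.nc h.rep hs, mul_zero]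

lemma J9 (h : Rk P Q L S Δ s9 Γ c τ) : eval s9 (Jac P Q) = 0 := by
  obtain ⟨j, hj⟩ := h.nc.dir'
  have h1 := (h.nc.II0 (h.qk.id s9 h.h9 (X j - C (s9 j)))).2.1
  rw [map_sub, ph_Cmul, ph1, h.nc.Xs0, Nc.Xs1, h.nc.ev0] at h1
  simp only [map_sub, eval_X, eval_C, sub_self, zero_mul, zero_add, sub_zero] at h1
  rw [← h.qk.diag s9 h.h9]
  exact (mul_eq_zero.1 h1).resolve_left hj

/-- cubics vanishing on `S` and along the direction vanish -/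
theorem N2 (h : Rk P Q L S Δ s9 Γ c τ) {F : RP} (hF : Dle 3 F) (hFS : ∀ s ∈ S, eval s F = 0)
    (hF1 : ph Γ 1 F = 0) : F = 0 := by
  apply h.qk.e0.eq_zero3 _ hF
  apply h.qk.e0.nondeg h.qk.rs.rs0
  intro G
  obtain ⟨u, a, b, hu, hI⟩ := h.dec G
  have h1 := h.qk.rs.ker _ (Ideal.mul_mem_left _ F hI)
  rw [mul_sub, map_sub, mul_add, map_add, h.qk.rs.low _ (hF.mul hu (by omega)), mul_comm F (_ + _), h.L_v,
    hF1, Finset.sum_eq_zero (fun s hs => by rw [hFS s hs, mul_zero])] at h1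
  linarith

theorem Lvv (h : Rk P Q L S Δ s9 Γ c τ) (a : (Fin 2 → ℝ) → ℝ) (b : ℝ) :
    L ((∑ s ∈ S, C (a s) * Δ s + C b * τ) * (∑ s ∈ S, C (a s) * Δ s + C b * τ)) =
      ∑ s ∈ S, a s ^ 2 * eval s (Jac P Q) + b ^ 2 * c := by
  rw [h.L_v, h.ph1_v]
  have : ∑ s ∈ S, a s * eval s (∑ s ∈ S, C (a s) * Δ s + C b * τ) = ∑ s ∈ S, a s ^ 2 * eval s (Jac P Q) := by
    apply Finset.sum_congr rfl
    intro s hs
    rw [h.eval_v a b hs]; ring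
  rw [this]; ring

lemma Lvv_nonneg (h : Rk P Q L S Δ s9 Γ c τ) (a : (Fin 2 → ℝ) → ℝ) (b : ℝ) :
    0 ≤ ∑ s ∈ S, a s ^ 2 * eval s (Jac P Q) + b ^ 2 * c :=
  add_nonneg (Finset.sum_nonneg (fun s hs => mul_nonneg (sq_nonneg _) (h.qk.Jn s hs)))
    (mul_nonneg (sq_nonneg _) h.c0)

/-- positivity on cubics -/
theorem POS (h : Rk P Q L S Δ s9 Γ c τ) {G : RP} (hG : Dle 3 G) : 0 ≤ L (G * G) := by
  obtain ⟨u, a, b, hu, hI⟩ := h.dec G
  obtain ⟨v, hv⟩ : ∃ v, v = ∑ s ∈ S, C (a s) * Δ s + C b * τ := ⟨_, rfl⟩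
  rw [← hv] at hI
  have h1 := h.qk.rs.ker _ (Ideal.mul_mem_left _ G hI)
  have h2 := h.qk.rs.ker _ (Ideal.mul_mem_left _ u hI)
  have h3 := h.qk.rs.ker _ (Ideal.mul_mem_left _ v hI)
  rw [mul_sub, map_sub, mul_add, map_add] at h1 h2 h3
  rw [h.qk.rs.low _ (hG.mul hu (by omega))] at h1
  rw [h.qk.rs.low _ (hu.mul hG (by omega)), h.qk.rs.low _ (hu.mul hu (by omega))] at h2
  have h4 := h.Lvv a b
  rw [← hv] at h4
  have h5 := h.Lvv_nonneg a b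
  rw [mul_comm v G, mul_comm v u] at h3
  linarith

/-- negativity -/
theorem NEG (h : Rk P Q L S Δ s9 Γ c τ) (hc : 0 < c) {y : RP} (hyS : ∀ s ∈ S, eval s y = 0)
    (hy1 : ph Γ 1 y = 0) (h0 : 0 ≤ L (y * y)) : ∃ κ : ℝ, y - C κ * Δ s9 ∈ II P Q := by
  obtain ⟨u, a, b, hu, hI⟩ := h.dec y
  obtain ⟨v, hv⟩ : ∃ v, v = ∑ s ∈ S, C (a s) * Δ s + C b * τ := ⟨_, rfl⟩
  rw [← hv] at hI
  have h1 := h.qk.rs.ker _ (Ideal.mul_mem_left _ y hI)
  have h2 := h.qk.rs.ker _ (Ideal.mul_mem_left _ u hI)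
  have h3 := h.qk.rs.ker _ (Ideal.mul_mem_left _ v hI)
  rw [mul_sub, map_sub, mul_add, map_add] at h1 h2 h3
  have h4 := h.Lvv a b
  rw [← hv] at h4
  have h6 : L (v * y) = 0 := by
    rw [hv, h.L_v, hy1, Finset.sum_eq_zero (fun s hs => by rw [hyS s hs, mul_zero])]; ring
  rw [h.qk.rs.low _ (hu.mul hu (by omega))] at h2
  rw [mul_comm y v, h6] at h1
  rw [h6] at h3
  rw [mul_comm v u] at h3
  rw [mul_comm u y] at h2
  have h7 : ∑ s ∈ S, a s ^ 2 * eval s (Jac P Q) + b ^ 2 * c ≤ 0 := by linarith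
  have n1 : ∀ s ∈ S, 0 ≤ a s ^ 2 * eval s (Jac P Q) := fun s hs => mul_nonneg (sq_nonneg _) (h.qk.Jn s hs)
  have n2 := Finset.sum_nonneg n1
  have n3 : 0 ≤ b ^ 2 * c := mul_nonneg (sq_nonneg _) h.c0
  have z1 := (Finset.sum_eq_zero_iff_of_nonneg n1).1 (by linarith)
  have z2 : b ^ 2 * c = 0 := by linarith
  have hb : b = 0 := by
    have := (mul_eq_zero.1 z2).resolve_right hc.ne'
    exact pow_eq_zero_iff (two_ne_zero) |>.1 this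
  have ha : ∀ s ∈ S, s ≠ s9 → a s = 0 := by
    intro s hs hne
    have := (mul_eq_zero.1 (z1 s hs)).resolve_right (h.Jp s hs hne).ne'
    exact pow_eq_zero_iff (two_ne_zero) |>.1 this
  have hv2 : v = C (a s9) * Δ s9 := by
    rw [hv, hb, C_0, zero_mul, add_zero, Finset.sum_eq_single s9]
    · intro s hs hne
      rw [ha s hs hne, C_0, zero_mul]
    · intro h1; exact absurd h.h9 h1
  rw [hv2] at hI
  have hu0 : u = 0 := by
    apply h.N2 (hu.mono (by norm_num))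
    · intro s hs
      have k1 := II_eval hI (h.qk.zero s hs).1 (h.qk.zero s hs).2
      rw [map_sub, map_add, hyS s hs, map_mul] at k1
      have k2 : eval s (Δ s9) = 0 := by
        by_cases hss : s = s9
        · rw [hss, h.qk.diag s9 h.h9, h.J9]
        · exact h.qk.off s9 h.h9 s (h.qk.zero s hs).1 (h.qk.zero s hs).2 hss
      rw [k2, mul_zero, add_zero, zero_sub, neg_eq_zero] at k1
      exact k1
    · have k1 := (h.nc.II0 hI).2.1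
      rw [map_sub, map_add, ph_Cmul, hy1, h.qk.ph1_delta h.h9 h.nc h.rep h.h9] at k1
      linarith
  refine ⟨a s9, ?_⟩
  rw [hu0, zero_add] at hI
  exact hI

/-- the twisted form -/
theorem tw (h : Rk P Q L S Δ s9 Γ c τ) (hc : 0 < c) {ω : RP} (hω : Dle 1 ω)
    (hωS : ∀ s ∈ S, 0 < eval s ω) {R : RP} (hR : ω * R ∈ II P Q) : R ∈ II P Q := by
  obtain ⟨u, a, b, hu, hI⟩ := h.dec R
  obtain ⟨v, hv⟩ : ∃ v, v = ∑ s ∈ S, C (a s) * Δ s + C b * τ := ⟨_, rfl⟩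
  rw [← hv] at hI
  have h2 := h.qk.rs.ker _ (Ideal.mul_mem_left _ (ω * u) hI)
  have h3 := h.qk.rs.ker _ (Ideal.mul_mem_left _ (ω * v) hI)
  have r2 := h.qk.rs.ker _ (Ideal.mul_mem_left _ u hR)
  have r3 := h.qk.rs.ker _ (Ideal.mul_mem_left _ v hR)
  have e2 : ω * u * (R - (u + v)) = u * (ω * R) - (ω * u * u + ω * u * v) := by ring
  have e3 : ω * v * (R - (u + v)) = v * (ω * R) - (ω * u * v + v * (ω * v)) := by ring
  rw [e2, map_sub, map_add, r2, h.qk.rs.low (ω * u * u) ((hω.mul hu (n := 3) (by omega)).mul hu (by omega))] at h2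
  rw [e3, map_sub, map_add, r3] at h3
  have hvs : ∀ s ∈ S, eval s v = a s * eval s (Jac P Q) := fun s hs => by rw [hv]; exact h.eval_v a b hs
  have h4 : L (v * (ω * v)) = ∑ s ∈ S, eval s ω * (a s ^ 2 * eval s (Jac P Q)) + eval s9 ω * (b ^ 2 * c) := by
    have k1 := h.L_v a b (ω * v)
    rw [← hv] at k1
    rw [k1, ph1, h.nc.ev0, h.nc.ev0, hvs s9 h.h9, h.J9]
    have k2 := h.ph1_v a b
    rw [← hv] at k2
    rw [k2]
    have k3 : ∑ s ∈ S, a s * eval s (ω * v) = ∑ s ∈ S, eval s ω * (a s ^ 2 * eval s (Jac P Q)) := by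
      apply Finset.sum_congr rfl
      intro s hs
      rw [map_mul, hvs s hs]; ring
    rw [k3]; ring
  have h5 : ∑ s ∈ S, eval s ω * (a s ^ 2 * eval s (Jac P Q)) + eval s9 ω * (b ^ 2 * c) = 0 := by
    rw [← h4]; linarith
  have n1 : ∀ s ∈ S, 0 ≤ eval s ω * (a s ^ 2 * eval s (Jac P Q)) :=
    fun s hs => mul_nonneg (hωS s hs).le (mul_nonneg (sq_nonneg _) (h.qk.Jn s hs))
  have n2 := Finset.sum_nonneg n1
  have n3 : 0 ≤ eval s9 ω * (b ^ 2 * c) := mul_nonneg (hωS s9 h.h9).le (mul_nonneg (sq_nonneg _) h.c0)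
  have z1 := (Finset.sum_eq_zero_iff_of_nonneg n1).1 (by linarith)
  have z2 : eval s9 ω * (b ^ 2 * c) = 0 := by linarith
  have hb : b = 0 := by
    have := (mul_eq_zero.1 ((mul_eq_zero.1 z2).resolve_left (hωS s9 h.h9).ne')).resolve_right hc.ne'
    exact pow_eq_zero_iff (two_ne_zero) |>.1 this
  have ha : ∀ s ∈ S, s ≠ s9 → a s = 0 := by
    intro s hs hne
    have := (mul_eq_zero.1 ((mul_eq_zero.1 (z1 s hs)).resolve_left (hωS s hs).ne')).resolve_right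
      (h.Jp s hs hne).ne'
    exact pow_eq_zero_iff (two_ne_zero) |>.1 this
  have hv2 : v = C (a s9) * Δ s9 := by
    rw [hv, hb, C_0, zero_mul, add_zero, Finset.sum_eq_single s9]
    · intro s hs hne
      rw [ha s hs hne, C_0, zero_mul]
    · intro h1; exact absurd h.h9 h1
  rw [hv2] at hI
  have h6 := h.qk.rs.ker _ (Ideal.mul_mem_left _ ω hI)
  have e6 : ω * (R - (u + C (a s9) * Δ s9)) = ω * R - (ω * u + C (a s9) * (ω * Δ s9)) := by ring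
  rw [e6, map_sub, map_add, L_C, h.qk.rs.ker _ hR, h.qk.mul s9 h.h9,
    h.qk.rs.low _ (hω.mul hu (by omega))] at h6
  have ha9 : a s9 = 0 := by
    have : a s9 * eval s9 ω = 0 := by linarith
    exact (mul_eq_zero.1 this).resolve_right (hωS s9 h.h9).ne'
  rw [ha9, C_0, zero_mul, add_zero] at hI
  have h7 : ω * u ∈ II P Q := by
    have k1 := Ideal.mul_mem_left _ ω hI
    have k2 := Ideal.sub_mem _ hR k1
    have e : ω * R - ω * (R - u) = ω * u := by ring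
    rwa [e] at k2
  have h8 := h.qk.e0.eq_zero3 h7 (hω.mul hu (by omega))
  have hω0 : ω ≠ 0 := by
    rintro rfl
    have := hωS s9 h.h9
    rw [map_zero] at this
    exact lt_irrefl _ this
  have hu0 := (mul_eq_zero.1 h8).resolve_left hω0
  rw [hu0, sub_zero] at hI
  exact hI

end Rk

end Run7.h256
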