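import Mathlib
import Pool.Agent.Run7.h256.V5
import Pool.Agent.Run7.h256.Y5

set_option autoImplicit false

namespace Run7.h256

open MvPolynomial ComplexConjugate

namespace Qk

variable {P Q : RP} {L : RP →ₗ[ℝ] ℝ} {S : Finset (Fin 2 → ℝ)} {Δ : (Fin 2 → ℝ) → RP}

/-- the functional on top forms -/
lemma lf (h : Qk P Q L S Δ) : LF (hc 4 P) (hc 4 Q) L := by
  have dP : Dle 3 (P - hc 4 P) := sub_hc_Dle h.e0.hP
  have dQ : Dle 3 (Q - hc 4 Q) := sub_hc_Dle h.e0.hQ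
  refine ⟨hc_homog 4 P, hc_homog 4 Q, ?_, ?_, h.rs.LJ⟩
  · intro F hF
    have e : F * hc 4 P = F * P - F * (P - hc 4 P) := by ring
    rw [e, map_sub, h.rs.ker _ (II_P P Q F), h.rs.low _ (hF.mul dP (by omega)), sub_zero]
  · intro F hF
    have e : F * hc 4 Q = F * Q - F * (Q - hc 4 Q) := by ring
    rw [e, map_sub, h.rs.ker _ (II_Q P Q F), h.rs.low _ (hF.mul dQ (by omega)), sub_zero]

lemma off_cx (h : Qk P Q L S Δ) {s : Fin 2 → ℝ} (hs : s ∈ S) {t : Fin 2 → ℂ} (h1 : eval t (cx P) = 0)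
    (h2 : eval t (cx Q) = 0) (hne : t ≠ cp s) : eval t (cx (Δ s)) = 0 := by
  obtain ⟨i, hi⟩ : ∃ i, t i ≠ cp s i := by
    by_contra hc
    push Not at hc
    exact hne (funext hc)
  have h3 := II_eval (II_cx.2 (h.id s hs (X i))) h1 h2
  rw [cx_sub, cx_mul, cx_mul, cx_C, cx_X, eval_X, map_sub, map_mul, map_mul, eval_X, eval_C] at h3
  have h4 : (t i - cp s i) * eval t (cx (Δ s)) = 0 := by
    rw [← h3]; unfold cp; ring
  exact (mul_eq_zero.1 h4).resolve_left (sub_ne_zero.2 hi)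

end Qk

namespace Rk

variable {P Q : RP} {L : RP →ₗ[ℝ] ℝ} {S : Finset (Fin 2 → ℝ)} {Δ : (Fin 2 → ℝ) → RP} {s9 : Fin 2 → ℝ}
  {Γ : Fin 2 → PowerSeries ℝ} {c : ℝ} {τ : RP}

lemma tau_off_cx (h : Rk P Q L S Δ s9 Γ c τ) {t : Fin 2 → ℂ} (h1 : eval t (cx P) = 0)
    (h2 : eval t (cx Q) = 0) (hne : t ≠ cp s9) : eval t (cx τ) = 0 := by
  obtain ⟨i, hi⟩ : ∃ i, t i ≠ cp s9 i := by
    by_contra hc
    push Not at hc
    exact hne (funext hc)
  have h3 := II_eval (II_cx.2 (h.qk.tau_mul h.h9 h.nc h.rep (X i))) h1 h2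
  rw [cx_sub, cx_add, cx_mul, cx_mul, cx_mul, cx_C, cx_C, cx_X, eval_X, map_sub, map_add, map_mul, map_mul,
    map_mul, eval_X, eval_C, eval_C, h.qk.off_cx h.h9 h1 h2 hne, mul_zero, add_zero] at h3
  have h4 : (t i - cp s9 i) * eval t (cx τ) = 0 := by
    rw [← h3]; unfold cp; ring
  exact (mul_eq_zero.1 h4).resolve_left (sub_ne_zero.2 hi)

/-- the divergence does not vanish at all zeros -/
theorem nil_false (h : Rk P Q L S Δ s9 Γ c τ) (hc : 0 < c) {D : RP} (hD : Dle 3 D)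
    (hDS : ∀ s ∈ S, eval s D = 0) (hD1 : ph Γ 1 D ≠ 0)
    (hT : ∀ t : Fin 2 → ℂ, eval t (cx P) = 0 → eval t (cx Q) = 0 → eval t (cx D) = 0) : False := by
  classical
  have hD9 : ph Γ 0 D = 0 := by rw [h.nc.ev0]; exact hDS s9 h.h9
  have hpow : ∀ j, 2 ≤ j → (∀ s ∈ S, eval s (D ^ j) = 0) ∧ ph Γ 1 (D ^ j) = 0 := by
    intro j hj
    constructor
    · intro s hs
      rw [map_pow, hDS s hs, zero_pow (by omega)]
    · obtain ⟨m, rfl⟩ := Nat.exists_eq_add_of_le hj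
      rw [pow_add, pow_two, ph1, ph0, ph1, hD9]; ring
  have hmul9 : ∀ (κ : ℝ) (y G : RP), y - C κ * Δ s9 ∈ II P Q → L (y * G) = κ * eval s9 G := by
    intro κ y G hy
    have h1 := h.qk.rs.ker _ (Ideal.mul_mem_left _ G hy)
    have e : G * (y - C κ * Δ s9) = y * G - C κ * (G * Δ s9) := by ring
    rw [e, map_sub, L_C, h.qk.mul s9 h.h9] at h1
    linarith
  obtain ⟨n, hn⟩ := null_real hT
  have hex : ∃ j, 2 ≤ j ∧ ∃ κ : ℝ, D ^ j - C κ * Δ s9 ∈ II P Q := by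
    refine ⟨n + 2, by omega, 0, ?_⟩
    rw [C_0, zero_mul, sub_zero, pow_add]
    exact Ideal.mul_mem_right _ _ hn
  obtain ⟨j, ⟨hj, κ, hκ⟩, hmin⟩ : ∃ j, (2 ≤ j ∧ ∃ κ : ℝ, D ^ j - C κ * Δ s9 ∈ II P Q) ∧
      ∀ m < j, ¬ (2 ≤ m ∧ ∃ κ : ℝ, D ^ m - C κ * Δ s9 ∈ II P Q) :=
    ⟨Nat.find hex, Nat.find_spec hex, fun m hm => Nat.find_min hex hm⟩
  have hj2 : j = 2 := by
    by_contra hne
    have hj3 : 3 ≤ j := by omega
    apply hmin (j - 1) (by omega)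
    refine ⟨by omega, ?_⟩
    obtain ⟨a1, a2⟩ := hpow (j - 1) (by omega)
    apply h.NEG hc a1 a2
    have e : D ^ (j - 1) * D ^ (j - 1) = D ^ j * D ^ (j - 2) := by
      rw [← pow_add, ← pow_add]; congr 1; omega
    rw [e, hmul9 κ _ _ hκ, map_pow, hDS s9 h.h9, zero_pow (by omega), mul_zero]
  subst hj2
  obtain ⟨i, hi⟩ := h.nc.dir'
  obtain ⟨F, hF⟩ : ∃ F : RP, F = X i - C (s9 i) := ⟨_, rfl⟩
  have dF : Dle 1 F := by rw [hF]; exact (Dle.X le_rfl i).sub (Dle.C _)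
  have f0 : ph Γ 0 F = 0 := by rw [hF]; exact h.nc.Xs0 i
  have f1 : ph Γ 1 F = PowerSeries.coeff 1 (Γ i) := by rw [hF]; exact Nc.Xs1 i
  have fe : eval s9 F = 0 := by rw [hF]; simp
  obtain ⟨κ', hκ'⟩ := h.NEG hc (y := D * F) (by
      intro s hs
      rw [map_mul, hDS s hs, zero_mul]) (by rw [ph1, hD9, f0]; ring) (by
      have e : D * F * (D * F) = D ^ 2 * (F * F) := by ring
      rw [e, hmul9 κ _ _ hκ, map_mul, fe]; simp)
  have h1 := hmul9 κ' _ 1 hκ'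
  rw [mul_one, h.qk.rs.low _ (hD.mul dF (by omega)), map_one, mul_one] at h1
  rw [← h1, C_0, zero_mul, sub_zero] at hκ'
  have h2 := (h.nc.II0 hκ').2.2
  rw [ph2, hD9, f0, f1] at h2
  have h3 : ph Γ 1 D * PowerSeries.coeff 1 (Γ i) = 0 := by linear_combination h2
  exact mul_ne_zero hD1 hi h3

/-- a point with nonzero divergence which is either multiple or a real saddle exists -/
theorem GT1 (h : Rk P Q L S Δ s9 Γ c τ) (hc : 0 < c) {D : RP} (hD : Dle 3 D)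
    (hDS : ∀ s ∈ S, eval s D = 0) (hD1 : ph Γ 1 D ≠ 0)
    (hT : ∀ t : Fin 2 → ℂ, eval t (cx P) = 0 → eval t (cx Q) = 0 → eval t (cx D) ≠ 0 →
      eval t (Jac (cx P) (cx Q)) ≠ 0 ∧ ((∀ i, conj (t i) = t i) → 0 ≤ (eval t (Jac (cx P) (cx Q))).re)) :
    False := by
  classical
  by_cases hall : ∀ t : Fin 2 → ℂ, eval t (cx P) = 0 → eval t (cx Q) = 0 → eval t (cx D) = 0
  · exact h.nil_false hc hD hDS hD1 hall
  push Not at hall
  obtain ⟨t0, hP0, hQ0, hD0'⟩ := hall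
  have hrc := h.qk.rs.cplx
  have hPc : Dle 4 (cx P) := Dle_cx h.qk.e0.hP
  have hQc : Dle 4 (cx Q) := Dle_cx h.qk.e0.hQ
  have hzS : ∀ s ∈ S, eval (cp s) (cx P) = 0 ∧ eval (cp s) (cx Q) = 0 := by
    intro s hs
    rw [eval_cx, eval_cx, (h.qk.zero s hs).1, (h.qk.zero s hs).2]
    exact ⟨rfl, rfl⟩
  have hconj : ∀ F : RP, ∀ t : Fin 2 → ℂ, eval t (cx F) = 0 → eval (fun i => conj (t i)) (cx F) = 0 := by
    intro F t ht; rw [eval_cx_conj, ht, map_zero]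
  have hne : ∀ s ∈ S, cp s ≠ t0 := by
    rintro s hs rfl
    apply hD0'
    rw [eval_cx, hDS s hs]; rfl
  obtain ⟨b, _, hb1, hb2, hb3⟩ := hrc.bz hPc hQc hP0 hQ0
  have hb4 : ∀ z, eval z (cx P) = 0 → eval z (cx Q) = 0 → z ≠ t0 → eval z b = 0 :=
    fun z hz1 hz2 hz3 => delta_other hb3 hz1 hz2 hz3
  have hb5 : ∀ F, Lc L (b * F) = eval t0 F := by
    intro F; rw [mul_comm]; exact hrc.mulDelta hb1 hb3 F
  have hbb : 0 ≤ (Lc L (b * cj b)).re := by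
    rw [hb5]
    have e := eval_cj' b (fun i => conj (t0 i))
    simp only [Complex.conj_conj] at e
    rw [e]
    by_cases hr : (fun i => conj (t0 i)) = t0
    · rw [hr, hb2, Complex.conj_re]
      exact (hT t0 hP0 hQ0 hD0').2 (fun i => congrFun hr i)
    · rw [hb4 _ (hconj P t0 hP0) (hconj Q t0 hQ0) hr]; simp
  obtain ⟨y1, hy1⟩ : ∃ y1, y1 = rp b := ⟨_, rfl⟩
  obtain ⟨y2, hy2⟩ : ∃ y2, y2 = ip b := ⟨_, rfl⟩
  have hI : (C Complex.I * C Complex.I : RR) = -1 := by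
    rw [← C_mul, Complex.I_mul_I, C_neg, C_1]
  have hbd : b = cx y1 + C Complex.I * cx y2 := by rw [hy1, hy2]; exact decomp b
  have hre : ∀ s ∈ S, eval s y1 = 0 ∧ eval s y2 = 0 := by
    intro s hs
    have h1 : (fun i => conj (cp s i)) = cp s := by
      ext i; simp [cp]
    have hz := hb4 _ (hzS s hs).1 (hzS s hs).2 (hne s hs)
    obtain ⟨h2, h3⟩ := rp_ip_vanish hz (by rw [h1]; exact hz)
    rw [eval_cx] at h2 h3
    rw [hy1, hy2]
    exact ⟨by exact_mod_cast h2, by exact_mod_cast h3⟩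
  have hph : ph Γ 1 y1 = 0 ∧ ph Γ 1 y2 = 0 := by
    have h1 := hb5 (cx τ)
    rw [h.tau_off_cx hP0 hQ0 (Ne.symm (hne s9 h.h9)), Lc_def, rp_cmul, ip_cmul, ← hy1, ← hy2] at h1
    have hr := congrArg Complex.re h1
    have hi := congrArg Complex.im h1
    simp at hr hi
    rw [← h.rep, ← h.rep, mul_comm τ y1, mul_comm τ y2]
    exact ⟨hr, hi⟩
  have hbb1 : Lc L (b * b) = (L (y1 * y1) - L (y2 * y2) : ℝ) + Complex.I * (2 * L (y1 * y2) : ℝ) := by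
    have e : b * b = cx (y1 * y1 - y2 * y2) + C Complex.I * cx (C 2 * (y1 * y2)) := by
      rw [hbd, cx_sub, cx_mul, cx_mul, cx_mul, cx_mul, cx_C]
      have : (C ((2 : ℝ) : ℂ) : RR) = 2 := by
        rw [show (2 : RR) = C 2 from (map_ofNat C 2).symm]; congr 1
      rw [this]
      linear_combination (cx y2 * cx y2) * hI
    rw [e, Lc_def, rp_of, ip_of, map_sub, L_C]
  have hbb2 : Lc L (b * cj b) = (L (y1 * y1) + L (y2 * y2) : ℝ) := by
    have e : b * cj b = cx (y1 * y1 + y2 * y2) := by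
      have e2 := cj_eq b
      rw [← hy1, ← hy2] at e2
      rw [e2, hbd, cx_add, cx_mul, cx_mul]
      linear_combination (-(cx y2 * cx y2)) * hI
    rw [e, Lc_cx, map_add]
  rw [hbb2, Complex.ofReal_re] at hbb
  have hneg : ∀ α β : ℝ, L ((C α * y1 + C β * y2) * (C α * y1 + C β * y2)) ≤ 0 := by
    intro α β
    by_contra hcon
    push Not at hcon
    obtain ⟨κ, hκ⟩ := h.NEG hc (y := C α * y1 + C β * y2) (by
        intro s hs
        rw [map_add, map_mul, map_mul, (hre s hs).1, (hre s hs).2]; ring) (by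
        rw [map_add, ph_Cmul, ph_Cmul, hph.1, hph.2]; ring) hcon.le
    have h1 := h.qk.rs.ker _ (Ideal.mul_mem_left _ (C α * y1 + C β * y2) hκ)
    have e : (C α * y1 + C β * y2) * (C α * y1 + C β * y2 - C κ * Δ s9) =
        (C α * y1 + C β * y2) * (C α * y1 + C β * y2) - C κ * ((C α * y1 + C β * y2) * Δ s9) := by ring
    have hz : eval s9 (C α * y1 + C β * y2) = 0 := by
      rw [map_add, map_mul, map_mul, (hre s9 h.h9).1, (hre s9 h.h9).2]; ring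
    rw [e, map_sub, L_C, h.qk.mul s9 h.h9, hz, mul_zero, sub_zero] at h1
    linarith
  have g : ∀ α β : ℝ, α ^ 2 * L (y1 * y1) + 2 * α * β * L (y1 * y2) + β ^ 2 * L (y2 * y2) ≤ 0 := by
    intro α β
    have h1 := hneg α β
    have e : (C α * y1 + C β * y2) * (C α * y1 + C β * y2) = C (α ^ 2) * (y1 * y1) +
        C (2 * α * β) * (y1 * y2) + C (β ^ 2) * (y2 * y2) := by
      simp only [C_mul, C_pow, show (C 2 : RP) = 2 from map_ofNat C 2]; ring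
    rw [e, map_add, map_add, L_C, L_C, L_C] at h1
    exact h1
  have g1 := g 1 0
  have g2 := g 0 1
  have g3 := g 1 1
  have g4 := g 1 (-1)
  have z1 : L (y1 * y1) = 0 := by linarith
  have z2 : L (y2 * y2) = 0 := by linarith
  have z3 : L (y1 * y2) = 0 := by linarith
  apply (hT t0 hP0 hQ0 hD0').1
  rw [← hb2, ← hb5, hbb1, z1, z2, z3]; simp

lemma ck (h : Rk P Q L S Δ s9 Γ c τ) (hc : 0 < c) (hD : Dle 3 (DD P Q))
    (hDS : ∀ s ∈ S, eval s (DD P Q) = 0) (hD1 : ph Γ 1 (DD P Q) ≠ 0) : Ck P Q L :=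
  ⟨h.qk.lf, h.qk.rs.low, fun hG _ => h.POS hG, fun hT => h.GT1 hc hD hDS hD1 hT⟩

/-- cubics through the nine points -/
lemma cubic_eq (h : Rk P Q L S Δ s9 Γ c τ) {D F : RP} (hD : Dle 3 D)
    (hDS : ∀ s ∈ S, eval s D = 0) (hD1 : ph Γ 1 D ≠ 0) (hF : Dle 3 F) (hFS : ∀ s ∈ S, eval s F = 0) :
    ∃ a : ℝ, F = C a * D := by
  refine ⟨ph Γ 1 F / ph Γ 1 D, ?_⟩
  have h1 := h.N2 (F := F - C (ph Γ 1 F / ph Γ 1 D) * D) (hF.sub ((Dle.C (n := 0) _).mul hD (by omega))) (by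
    intro s hs
    rw [map_sub, map_mul, hFS s hs, hDS s hs]; ring) (by
    rw [map_sub, ph_Cmul, div_mul_cancel₀ _ hD1, sub_self])
  linear_combination h1

lemma conic_eq (h : Rk P Q L S Δ s9 Γ c τ) {D F : RP} (hD : Dle 3 D)
    (hDS : ∀ s ∈ S, eval s D = 0) (hD1 : ph Γ 1 D ≠ 0) (hF : Dle 2 F) (hFS : ∀ s ∈ S, eval s F = 0) :
    F = 0 := by
  by_contra h0
  have hF1 : ph Γ 1 F ≠ 0 := fun h1 => h0 (h.N2 (hF.mono (by norm_num)) hFS h1)
  obtain ⟨a, ha⟩ := h.cubic_eq (hF.mono (by norm_num)) hFS hF1 (F := X 0 * F)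
    ((Dle.X le_rfl 0).mul hF (by omega)) (fun s hs => by rw [map_mul, hFS s hs, mul_zero])
  have h1 : (X 0 - C a) * F = 0 := by linear_combination ha
  rcases mul_eq_zero.1 h1 with h2 | h2
  · have := congrArg (eval (fun _ => a + 1)) h2
    simp at this
  · exact h0 h2

end Rk

end Run7.h256
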