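import Mathlib
import Pool.Agent.Run7.h256.HB2
import Pool.Agent.Run7.h256.Loc

set_option autoImplicit false

namespace Run7.h256

open MvPolynomial

/-- the abstract configuration for the last step -/
structure NS (P Q : RR) (S : Finset (Fin 2 → ℂ)) : Prop where
  hP : Dle 4 P
  hQ : Dle 4 Q
  card : S.card = 9
  PS : ∀ {s}, s ∈ S → eval s P = 0
  QS : ∀ {s}, s ∈ S → eval s Q = 0
  dS : ∀ s ∈ S, eval s (Dv P Q) = 0
  rel : IsRelPrime P Q
  P4 : ¬ (Dle 3 P ∧ Dle 3 Q)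
  D_ne : Dv P Q ≠ 0
  conic : ∀ {F : RR}, Dle 2 F → (∀ s ∈ S, eval s F = 0) → F = 0
  cubic : ∀ {F : RR}, Dle 3 F → (∀ s ∈ S, eval s F = 0) → ∃ c : ℂ, F = C c * Dv P Q
  H : ∀ {f u v : RR}, Dle 2 f → Dle 1 u → Dle 1 v → f * Dv P Q + u * P + v * Q = 0 → f = 0

namespace NS

variable {P Q : RR} {S : Finset (Fin 2 → ℂ)}

lemma dD (h : NS P Q S) : Dle 3 (Dv P Q) := (Dle.pderiv h.hP 0).add (Dle.pderiv h.hQ 1)

lemma exS (h : NS P Q S) : ∃ s, s ∈ S := by
  have : S.Nonempty := by rw [← Finset.card_pos, h.card]; norm_num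
  exact this

lemma Q_ne (h : NS P Q S) : Q ≠ 0 := by
  rintro h0
  obtain ⟨s, hs⟩ := h.exS
  have h1 := (h.rel dvd_rfl (by rw [h0]; exact dvd_zero _)).map (eval s)
  rw [h.PS hs] at h1
  exact not_isUnit_zero h1

lemma P_ne (h : NS P Q S) : P ≠ 0 := by
  rintro h0
  obtain ⟨s, hs⟩ := h.exS
  have h1 := (h.rel (by rw [h0]; exact dvd_zero _) dvd_rfl).map (eval s)
  rw [h.QS hs] at h1
  exact not_isUnit_zero h1

lemma inj3 (h : NS P Q S) {u v : RR} (hu : Dle 3 u) (hv : Dle 3 v) (he : u * P + v * Q = 0) :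
    u = 0 ∧ v = 0 := by
  obtain ⟨k, h1, h2⟩ := split_prop' h.rel (u := -v) (v := u) (by linear_combination he)
  have hk : k = 0 := by
    by_contra hk
    apply h.P4
    constructor
    · have h3 : Dle 3 (P * k) := by rw [← h1]; exact hv.neg
      unfold Dle at *
      rw [totalDegree_mul_eq h.P_ne hk] at h3
      omega
    · have h3 : Dle 3 (Q * k) := by rw [← h2]; exact hu
      unfold Dle at *
      rw [totalDegree_mul_eq h.Q_ne hk] at h3
      omega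
  rw [hk, mul_zero] at h1 h2
  exact ⟨h2, by linear_combination -h1⟩

lemma all_zero (h : NS P Q S) {f u v : RR} (hf : Dle 2 f) (hu : Dle 1 u) (hv : Dle 1 v)
    (he : f * Dv P Q + u * P + v * Q = 0) : f = 0 ∧ u = 0 ∧ v = 0 := by
  have h1 := h.H hf hu hv he
  rw [h1, zero_mul, zero_add] at he
  exact ⟨h1, h.inj3 (hu.mono (by norm_num)) (hv.mono (by norm_num)) he⟩

open CI16 in
lemma ev3_surj (h : NS P Q S) : Function.Surjective (ev S 3) := by
  have e1 := LinearMap.finrank_range_add_finrank_ker (ev S 3)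
  have e2 : Module.finrank ℂ (LinearMap.ker (ev S 3)) ≤ 1 := by
    have hm : (⟨Dv P Q, mem_Pl.2 h.dD⟩ : Pl ℂ 3) ∈ LinearMap.ker (ev S 3) := by
      rw [LinearMap.mem_ker]
      ext s
      rw [ev_apply]; exact h.dS s.1 s.2
    apply finrank_le_one (⟨⟨Dv P Q, mem_Pl.2 h.dD⟩, hm⟩ : LinearMap.ker (ev S 3))
    rintro ⟨⟨F, hF⟩, hk⟩
    obtain ⟨c, hc⟩ := h.cubic (F := F) (mem_Pl.1 hF) (by
      intro s hs
      have := congrFun (LinearMap.mem_ker.1 hk) ⟨s, hs⟩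
      rw [ev_apply] at this
      exact this)
    refine ⟨c, ?_⟩
    apply Subtype.ext
    apply Subtype.ext
    simp only [SetLike.val_smul]
    rw [smul_eq_C_mul]
    exact hc.symm
  have e3 := finrank_Pl (k := ℂ) 3
  have e4 : Module.finrank ℂ (LinearMap.range (ev S 3)) ≤ 9 := by
    refine le_trans (Submodule.finrank_le _) ?_
    rw [Module.finrank_fintype_fun_eq_card, Fintype.card_coe, h.card]
  rw [← LinearMap.range_eq_top]
  apply Submodule.eq_top_of_finrank_eq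
  rw [Module.finrank_fintype_fun_eq_card, Fintype.card_coe, h.card]
  omega

open CI16 in
lemma finrank_ker (h : NS P Q S) {d : ℕ} (hd : 3 ≤ d) :
    2 * (Module.finrank ℂ (LinearMap.ker (ev S d)) + 9) = (d + 1) * (d + 2) := by
  have hs : Function.Surjective (ev S d) := by
    intro c
    obtain ⟨F, hF⟩ := h.ev3_surj c
    refine ⟨⟨F.1, mem_Pl.2 ((mem_Pl.1 F.2).trans hd)⟩, ?_⟩
    rw [← hF]
    ext z
    rw [ev_apply, ev_apply]
  have e1 := LinearMap.finrank_range_add_finrank_ker (ev S d)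
  rw [LinearMap.range_eq_top.2 hs, finrank_top, Module.finrank_fintype_fun_eq_card,
    Fintype.card_coe, h.card] at e1
  rw [← finrank_Pl (k := ℂ) d]
  omega

lemma finIS4 (h : NS P Q S) : Module.finrank ℂ (IS S 4) = 6 := by
  have := h.finrank_ker (d := 4) (by norm_num)
  rw [finrank_IS]; omega

lemma finIS5 (h : NS P Q S) : Module.finrank ℂ (IS S 5) = 12 := by
  have := h.finrank_ker (d := 5) (by norm_num)
  rw [finrank_IS]; omega

/-- there is an extra quartic -/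
lemma exists_R (h : NS P Q S) : ∃ R : RR, Dle 4 R ∧ (∀ s ∈ S, eval s R = 0) ∧
    ∀ l u v : RR, Dle 1 l → Dle 0 u → Dle 0 v → l * Dv P Q + u * P + v * Q ≠ R := by
  by_contra hcon
  push Not at hcon
  have h1 : IS S 4 ≤ LinearMap.range (Th3 (Dv P Q) P Q) := by
    intro F hF
    obtain ⟨h2, h3⟩ := mem_IS.1 hF
    obtain ⟨l, u, v, hl, hu, hv, he⟩ := hcon F h2 h3
    exact ⟨(⟨l, mem_Pl.2 hl⟩, ⟨u, mem_Pl.2 hu⟩, ⟨v, mem_Pl.2 hv⟩), he⟩
  have h2 := Submodule.finrank_mono h1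
  have h3 := LinearMap.finrank_range_le (Th3 (Dv P Q) P Q)
  rw [Module.finrank_prod, Module.finrank_prod] at h3
  have e1 := finrank_Pl (k := ℂ) 1
  have e0 := finrank_Pl (k := ℂ) 0
  rw [h.finIS4] at h2
  omega

lemma eval_comb (h : NS P Q S) {R : RR} (hR : ∀ s ∈ S, eval s R = 0) (l u v w : RR) {s : Fin 2 → ℂ}
    (hs : s ∈ S) : eval s (l * Dv P Q + u * P + v * Q + w * R) = 0 := by
  simp [h.dS s hs, h.PS hs, h.QS hs, hR s hs]

/-- quartics through `S` -/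
lemma span4 (h : NS P Q S) {R : RR} (hR4 : Dle 4 R) (hRS : ∀ s ∈ S, eval s R = 0)
    (hR : ∀ l u v : RR, Dle 1 l → Dle 0 u → Dle 0 v → l * Dv P Q + u * P + v * Q ≠ R) {F : RR}
    (hF : Dle 4 F) (hFS : ∀ s ∈ S, eval s F = 0) :
    ∃ l : RR, ∃ u v w : ℂ, Dle 1 l ∧ F = l * Dv P Q + C u * P + C v * Q + C w * R := by
  have inj : Function.Injective (Th4 (Dv P Q) P Q R 1 0) := by
    rw [injective_iff_map_eq_zero]
    rintro ⟨⟨l, hl⟩, ⟨u, hu⟩, ⟨v, hv⟩, ⟨w, hw⟩⟩ he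
    have he' : l * Dv P Q + u * P + v * Q + w * R = 0 := he
    obtain ⟨c, rfl⟩ := exists_const (mem_Pl.1 hw)
    by_cases hc : c = 0
    · subst hc
      rw [C_0, zero_mul, add_zero] at he'
      obtain ⟨h1, h2, h3⟩ := h.all_zero ((mem_Pl.1 hl).trans (by norm_num))
        ((mem_Pl.1 hu).trans (by norm_num)) ((mem_Pl.1 hv).trans (by norm_num)) he'
      subst h1 h2 h3
      simp
    · exfalso
      apply hR (C (-c⁻¹) * l) (C (-c⁻¹) * u) (C (-c⁻¹) * v) ((Dle.C (n := 0) _).mul (mem_Pl.1 hl) (by omega))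
        ((Dle.C (n := 0) _).mul (mem_Pl.1 hu) (by omega)) ((Dle.C (n := 0) _).mul (mem_Pl.1 hv) (by omega))
      have h4 : C (c⁻¹) * C c = (1 : RR) := by rw [← C_mul, inv_mul_cancel₀ hc, C_1]
      rw [C_neg]
      linear_combination (-C c⁻¹) * he' + R * h4
  have h1 : LinearMap.range (Th4 (Dv P Q) P Q R 1 0) ≤ IS S 4 := by
    rintro _ ⟨⟨⟨l, hl⟩, ⟨u, hu⟩, ⟨v, hv⟩, ⟨w, hw⟩⟩, rfl⟩
    rw [mem_IS]
    refine ⟨?_, fun s hs => h.eval_comb hRS l u v w hs⟩
    exact (((Dle.mul (mem_Pl.1 hl) h.dD (by omega)).add (Dle.mul (mem_Pl.1 hu) h.hP (by omega))).add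
      (Dle.mul (mem_Pl.1 hv) h.hQ (by omega))).add (Dle.mul (mem_Pl.1 hw) hR4 (by omega))
  have h2 : LinearMap.range (Th4 (Dv P Q) P Q R 1 0) = IS S 4 := by
    apply Submodule.eq_of_le_of_finrank_eq h1
    rw [LinearMap.finrank_range_of_inj inj, h.finIS4, Module.finrank_prod, Module.finrank_prod,
      Module.finrank_prod]
    have e1 := finrank_Pl (k := ℂ) 1
    have e0 := finrank_Pl (k := ℂ) 0
    omega
  have h3 : F ∈ LinearMap.range (Th4 (Dv P Q) P Q R 1 0) := by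
    rw [h2, mem_IS]; exact ⟨hF, hFS⟩
  obtain ⟨⟨⟨l, hl⟩, ⟨u, hu⟩, ⟨v, hv⟩, ⟨w, hw⟩⟩, he⟩ := h3
  obtain ⟨c1, rfl⟩ := exists_const (mem_Pl.1 hu)
  obtain ⟨c2, rfl⟩ := exists_const (mem_Pl.1 hv)
  obtain ⟨c3, rfl⟩ := exists_const (mem_Pl.1 hw)
  exact ⟨l, c1, c2, c3, mem_Pl.1 hl, he.symm⟩

/-- syzygies -/
lemma exists_syz (h : NS P Q S) {R : RR} (hR4 : Dle 4 R) (hRS : ∀ s ∈ S, eval s R = 0) {w : RR}
    (hw : Dle 1 w) :
    ∃ a b q : RR, Dle 1 a ∧ Dle 1 b ∧ Dle 2 q ∧ Q * a - P * b + R * w + Dv P Q * q = 0 := by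
  set Φ := Th4 (Dv P Q) P Q R 2 1 with hΦ
  have h1 : LinearMap.range Φ ≤ IS S 5 := by
    rintro _ ⟨⟨⟨l, hl⟩, ⟨u, hu⟩, ⟨v, hv⟩, ⟨w, hw⟩⟩, rfl⟩
    rw [mem_IS]
    refine ⟨?_, fun s hs => h.eval_comb hRS l u v w hs⟩
    exact (((Dle.mul (mem_Pl.1 hl) h.dD (by omega)).add (Dle.mul (mem_Pl.1 hu) h.hP (by omega))).add
      (Dle.mul (mem_Pl.1 hv) h.hQ (by omega))).add (Dle.mul (mem_Pl.1 hw) hR4 (by omega))
  have h2 := Submodule.finrank_mono h1
  rw [h.finIS5] at h2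
  have h3 := LinearMap.finrank_range_add_finrank_ker Φ
  rw [Module.finrank_prod, Module.finrank_prod, Module.finrank_prod] at h3
  have e1 := finrank_Pl (k := ℂ) 1
  have e2 := finrank_Pl (k := ℂ) 2
  have h4 : 3 ≤ Module.finrank ℂ (LinearMap.ker Φ) := by omega
  let π : LinearMap.ker Φ →ₗ[ℂ] Pl ℂ 1 :=
    ((LinearMap.snd ℂ _ _).comp ((LinearMap.snd ℂ _ _).comp (LinearMap.snd ℂ _ _))).comp
      (LinearMap.ker Φ).subtype
  have inj : Function.Injective π := by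
    rw [injective_iff_map_eq_zero]
    rintro ⟨⟨⟨l, hl⟩, ⟨u, hu⟩, ⟨v, hv⟩, ⟨w, hw⟩⟩, hk⟩ he
    have he' : w = 0 := congrArg Subtype.val he
    subst he'
    have hk' : l * Dv P Q + u * P + v * Q + 0 * R = 0 := hk
    rw [zero_mul, add_zero] at hk'
    obtain ⟨h1, h2, h3⟩ := h.all_zero (mem_Pl.1 hl) (mem_Pl.1 hu) (mem_Pl.1 hv) hk'
    subst h1 h2 h3
    rfl
  have surj : Function.Surjective π := by
    rw [← LinearMap.range_eq_top]
    apply Submodule.eq_top_of_finrank_eq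
    rw [LinearMap.finrank_range_of_inj inj]
    have h5 := LinearMap.finrank_range_of_inj inj
    have h6 := Submodule.finrank_le (LinearMap.range π)
    omega
  obtain ⟨⟨⟨⟨l, hl⟩, ⟨u, hu⟩, ⟨v, hv⟩, ⟨w', hw'⟩⟩, hk⟩, he⟩ := surj ⟨w, mem_Pl.2 hw⟩
  have he' : w' = w := congrArg Subtype.val he
  subst he'
  have hk' : l * Dv P Q + u * P + v * Q + w' * R = 0 := hk
  refine ⟨v, -u, l, mem_Pl.1 hv, (Dle.neg (mem_Pl.1 hu)), mem_Pl.1 hl, ?_⟩
  linear_combination hk'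

lemma exists_mu (h : NS P Q S) {R a1 a2 a3 b1 b2 b3 q1 q2 q3 : RR}
    (da1 : Dle 1 a1) (da2 : Dle 1 a2) (da3 : Dle 1 a3) (db1 : Dle 1 b1) (db2 : Dle 1 b2) (db3 : Dle 1 b3)
    (dq1 : Dle 2 q1) (dq2 : Dle 2 q2)
    (dq3 : Dle 2 q3)
    (r1 : Q * a1 - P * b1 + R * X 0 + Dv P Q * q1 = 0)
    (r2 : Q * a2 - P * b2 + R * X 1 + Dv P Q * q2 = 0)
    (r3 : Q * a3 - P * b3 + R + Dv P Q * q3 = 0) :
    ∃ μ : ℂ,
      a1 * (X 1 * q3 - q2) + a2 * (q1 - X 0 * q3) + a3 * (X 0 * q2 - X 1 * q1) = C μ * P ∧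
      b1 * (X 1 * q3 - q2) + b2 * (q1 - X 0 * q3) + b3 * (X 0 * q2 - X 1 * q1) = C μ * Q ∧
      X 0 * (a2 * b3 - a3 * b2) + X 1 * (a3 * b1 - a1 * b3) + (a1 * b2 - a2 * b1) =
        - (C μ * Dv P Q) := by
  have e1 : P * (b1 * (X 1 * q3 - q2) + b2 * (q1 - X 0 * q3) + b3 * (X 0 * q2 - X 1 * q1)) =
      Q * (a1 * (X 1 * q3 - q2) + a2 * (q1 - X 0 * q3) + a3 * (X 0 * q2 - X 1 * q1)) := by
    linear_combination (-(X 1 * q3 - q2)) * r1 - (q1 - X 0 * q3) * r2 - (X 0 * q2 - X 1 * q1) * r3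
  obtain ⟨m, hm, hm'⟩ := split_prop' h.rel e1
  have hx : Dle 1 (X 0 : RR) := Dle.X le_rfl 0
  have hy : Dle 1 (X 1 : RR) := Dle.X le_rfl 1
  have k1 : Dle 3 (X 1 * q3 - q2) := (hy.mul dq3 (by omega)).sub (dq2.mono (by norm_num))
  have k2 : Dle 3 (q1 - X 0 * q3) := (dq1.mono (by norm_num)).sub (hx.mul dq3 (by omega))
  have k3 : Dle 3 (X 0 * q2 - X 1 * q1) := (hx.mul dq2 (by omega)).sub (hy.mul dq1 (by omega))
  have dm : Dle 4 (P * m) := by
    rw [← hm]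
    exact ((da1.mul k1 (by omega)).add (da2.mul k2 (by omega))).add (da3.mul k3 (by omega))
  have dm' : Dle 4 (Q * m) := by
    rw [← hm']
    exact ((db1.mul k1 (by omega)).add (db2.mul k2 (by omega))).add (db3.mul k3 (by omega))
  have hm0 : Dle 0 m := by
    by_cases h0 : m = 0
    · rw [h0]; exact Dle.zero
    · have h4 := h.P4
      unfold Dle at *
      rw [totalDegree_mul_eq h.P_ne h0] at dm
      rw [totalDegree_mul_eq h.Q_ne h0] at dm'
      omega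
  obtain ⟨μ, rfl⟩ := exists_const hm0
  have e2 : b1 * (X 1 * q3 - q2) + b2 * (q1 - X 0 * q3) + b3 * (X 0 * q2 - X 1 * q1) = C μ * Q := by
    rw [hm']; ring
  refine ⟨μ, by rw [hm]; ring, e2, ?_⟩
  apply mul_left_cancel₀ h.Q_ne
  linear_combination (b2 - X 1 * b3) * r1 + (X 0 * b3 - b1) * r2 + (X 1 * b1 - X 0 * b2) * r3 - Dv P Q * e2

lemma mu_ne (h : NS P Q S) {R a1 a2 a3 b1 b2 b3 q1 q2 q3 : RR}
    (hR : ∀ l u v : RR, Dle 1 l → Dle 0 u → Dle 0 v → l * Dv P Q + u * P + v * Q ≠ R)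
    (dq1 : Dle 2 q1) (dq2 : Dle 2 q2) (dq3 : Dle 2 q3)
    (da1 : Dle 1 a1) (da2 : Dle 1 a2) (da3 : Dle 1 a3) (db1 : Dle 1 b1) (db2 : Dle 1 b2) (db3 : Dle 1 b3)
    (r1 : Q * a1 - P * b1 + R * X 0 + Dv P Q * q1 = 0)
    (r2 : Q * a2 - P * b2 + R * X 1 + Dv P Q * q2 = 0)
    (r3 : Q * a3 - P * b3 + R + Dv P Q * q3 = 0)
    (e1 : a1 * (X 1 * q3 - q2) + a2 * (q1 - X 0 * q3) + a3 * (X 0 * q2 - X 1 * q1) = 0)
    (e2 : b1 * (X 1 * q3 - q2) + b2 * (q1 - X 0 * q3) + b3 * (X 0 * q2 - X 1 * q1) = 0) : False := by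
  have hx : Dle 1 (X 0 : RR) := Dle.X le_rfl 0
  have hy : Dle 1 (X 1 : RR) := Dle.X le_rfl 1
  have k1 : Dle 3 (X 1 * q3 - q2) := (hy.mul dq3 (by omega)).sub (dq2.mono (by norm_num))
  have k2 : Dle 3 (q1 - X 0 * q3) := (dq1.mono (by norm_num)).sub (hx.mul dq3 (by omega))
  have k3 : Dle 3 (X 0 * q2 - X 1 * q1) := (hx.mul dq2 (by omega)).sub (hy.mul dq1 (by omega))
  obtain ⟨g, h1, h2, hrel, hg1, hg2⟩ := exists_gcdsplit (X 1 * q3 - q2) (q1 - X 0 * q3)
  by_cases hg : g = 0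
  · -- all cross products vanish
    rw [hg, zero_mul] at hg1 hg2
    have d3 : Dle 1 q3 := by
      apply CI16.Dle_of_X_mul
      have : X 0 * q3 = q1 := by linear_combination hg2
      rw [this]; exact dq1
    obtain ⟨i1, i2⟩ := h.inj3 (u := X 0 * b3 - b1) (v := a1 - X 0 * a3)
      ((hx.mul db3 (by omega)).sub (db1.mono (by norm_num)))
      ((da1.mono (by norm_num)).sub (hx.mul da3 (by omega)))
      (by linear_combination r1 - X 0 * r3 + Dv P Q * hg2)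
    have a30 : Dle 0 a3 := by
      apply CI16.Dle_of_X_mul
      have : X 0 * a3 = a1 := by linear_combination -i2
      rw [this]; exact da1
    have b30 : Dle 0 b3 := by
      apply CI16.Dle_of_X_mul
      have : X 0 * b3 = b1 := by linear_combination i1
      rw [this]; exact db1
    apply hR (-q3) b3 (-a3) (Dle.neg d3) b30 (Dle.neg a30)
    linear_combination -r3
  · have s1 : h1 * (X 0 * a3 - a1) = h2 * (a2 - X 1 * a3) := by
      apply mul_left_cancel₀ hg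
      linear_combination (X 0 * a3 - a1) * hg1 - (a2 - X 1 * a3) * hg2 - e1
    have s2 : h1 * (b1 - X 0 * b3) = h2 * (X 1 * b3 - b2) := by
      apply mul_left_cancel₀ hg
      linear_combination (b1 - X 0 * b3) * hg1 - (X 1 * b3 - b2) * hg2 + e2
    obtain ⟨κ2, t1, t2⟩ := split_prop hrel s1
    obtain ⟨κ1, t3, t4⟩ := split_prop hrel s2
    have c1 : h1 * (g * Dv P Q + (-κ1) * P + (-κ2) * Q) = 0 := by
      linear_combination (Dv P Q) * hg1 + X 1 * r3 - r2 + P * t3 + Q * t1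
    have c2 : h2 * (g * Dv P Q + (-κ1) * P + (-κ2) * Q) = 0 := by
      linear_combination (Dv P Q) * hg2 - X 0 * r3 + r1 + P * t4 + Q * t2
    have c3 : g * Dv P Q + (-κ1) * P + (-κ2) * Q = 0 := by
      rcases mul_eq_zero.1 c1 with c4 | c4
      · rcases mul_eq_zero.1 c2 with c5 | c5
        · exfalso
          rw [c4, c5] at hrel
          have := hrel (dvd_refl 0) (dvd_refl 0)
          exact not_isUnit_zero this
        · exact c5
      · exact c4
    apply hg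
    by_cases hw : X 0 * h1 + X 1 * h2 = 0
    · -- then h1 is a multiple of y
      have h1n : h1 ≠ 0 := by
        intro h10
        rw [h10, mul_zero, zero_add] at hw
        have h20 : h2 = 0 := by
          rcases mul_eq_zero.1 hw with h' | h'
          · exact absurd h' (X_ne_zero 1)
          · exact h'
        rw [h10, h20] at hrel
        exact not_isUnit_zero (hrel (dvd_refl 0) (dvd_refl 0))
      have h1c : ¬ Dle 0 h1 := by
        intro h0
        obtain ⟨c, rfl⟩ := exists_const h0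
        have h3 := congrArg (eval ![1, 0]) hw
        simp at h3
        apply h1n
        rw [h3, C_0]
      have y1 : Dle 1 κ2 := by
        apply Dle_of_mul (n := 2) (m := 0) (G := h1) _ h1n h1c (by norm_num)
        rw [mul_comm, ← t1]
        exact (da2.mono (by norm_num)).sub (hy.mul da3 (by omega))
      have y2 : Dle 1 κ1 := by
        apply Dle_of_mul (n := 2) (m := 0) (G := h1) _ h1n h1c (by norm_num)
        rw [mul_comm, ← t3]
        exact (hy.mul db3 (by omega)).sub (db2.mono (by norm_num))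
      refine h.H ?_ y2.neg y1.neg c3
      exact Dle_of_mul (n := 3) (m := 0) (G := h1) (by rw [hg1]; exact k1) h1n h1c (by norm_num)
    · have hwc : ¬ Dle 0 (X 0 * h1 + X 1 * h2) := by
        intro h0
        obtain ⟨c, hc⟩ := exists_const h0
        have h3 := congrArg (eval ![0, 0]) hc
        simp at h3
        apply hw
        rw [hc, ← h3, C_0]
      have y1 : Dle 1 κ2 := by
        apply Dle_of_mul (n := 2) (m := 0) (G := X 0 * h1 + X 1 * h2) _ hw hwc (by norm_num)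
        have : κ2 * (X 0 * h1 + X 1 * h2) = X 0 * a2 - X 1 * a1 := by
          linear_combination (-X 0) * t1 - X 1 * t2
        rw [this]
        exact (hx.mul da2 (by omega)).sub (hy.mul da1 (by omega))
      have y2 : Dle 1 κ1 := by
        apply Dle_of_mul (n := 2) (m := 0) (G := X 0 * h1 + X 1 * h2) _ hw hwc (by norm_num)
        have : κ1 * (X 0 * h1 + X 1 * h2) = X 1 * b1 - X 0 * b2 := by
          linear_combination (-X 0) * t3 - X 1 * t4
        rw [this]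
        exact (hy.mul db1 (by omega)).sub (hx.mul db2 (by omega))
      refine h.H ?_ y2.neg y1.neg c3
      apply Dle_of_mul (n := 3) (m := 0) (G := X 0 * h1 + X 1 * h2) (F := g) _ hw hwc (by norm_num)
      have : g * (X 0 * h1 + X 1 * h2) = - (X 0 * q2 - X 1 * q1) := by
        linear_combination X 0 * hg1 + X 1 * hg2
      rw [this]; exact k3.neg

theorem exists_HBd (h : NS P Q S) : ∃ H : HBd P Q, (∀ s ∈ S, eval s H.R = 0) ∧
    ∀ F : RR, Dle 4 F → (∀ s ∈ S, eval s F = 0) → ∃ l : RR, ∃ u v w : ℂ, Dle 1 l ∧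
      F = l * Dv P Q + C u * P + C v * Q + C w * H.R := by
  obtain ⟨R, dR, hRS, hR⟩ := h.exists_R
  obtain ⟨a1, b1, q1, da1, db1, dq1, r1⟩ := h.exists_syz dR hRS (w := X 0) (Dle.X le_rfl 0)
  obtain ⟨a2, b2, q2, da2, db2, dq2, r2⟩ := h.exists_syz dR hRS (w := X 1) (Dle.X le_rfl 1)
  obtain ⟨a3, b3, q3, da3, db3, dq3, r3⟩ := h.exists_syz dR hRS (w := 1) Dle.one
  rw [mul_one] at r3
  obtain ⟨μ, m1, m2, m3⟩ := h.exists_mu da1 da2 da3 db1 db2 db3 dq1 dq2 dq3 r1 r2 r3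
  have hμ : μ ≠ 0 := by
    rintro rfl
    rw [C_0, zero_mul] at m1 m2
    exact h.mu_ne hR dq1 dq2 dq3 da1 da2 da3 db1 db2 db3 r1 r2 r3 m1 m2
  obtain ⟨ν, hν⟩ := IsAlgClosed.exists_pow_nat_eq (μ⁻¹) (n := 2) (by norm_num)
  have hν0 : ν ≠ 0 := by
    rintro rfl
    apply inv_ne_zero hμ
    rw [← hν]; norm_num
  have hν2 : (C ν * C ν * C μ : RR) = 1 := by
    rw [← C_mul, ← C_mul, ← pow_two, hν, inv_mul_cancel₀ hμ, C_1]
  have hν3 : (C ν * C ν⁻¹ : RR) = 1 := by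
    rw [← C_mul, mul_inv_cancel₀ hν0, C_1]
  refine ⟨⟨C ν * R, C ν * a1, C ν * a2, C ν * a3, C ν * b1, C ν * b2, C ν * b3, C ν * q1, C ν * q2,
    C ν * q3, (Dle.C (n := 0) _).mul dR (by omega), (Dle.C (n := 0) _).mul da1 (by omega), (Dle.C (n := 0) _).mul da2 (by omega),
    (Dle.C (n := 0) _).mul da3 (by omega), (Dle.C (n := 0) _).mul db1 (by omega), (Dle.C (n := 0) _).mul db2 (by omega),
    (Dle.C (n := 0) _).mul db3 (by omega), (Dle.C (n := 0) _).mul dq1 (by omega), (Dle.C (n := 0) _).mul dq2 (by omega),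
    (Dle.C (n := 0) _).mul dq3 (by omega), ?_, ?_, ?_, ?_, ?_, ?_⟩, ?_, ?_⟩
  · linear_combination C ν * r1
  · linear_combination C ν * r2
  · linear_combination C ν * r3
  · linear_combination (C ν * C ν) * m1 + P * hν2
  · linear_combination (C ν * C ν) * m2 + Q * hν2
  · linear_combination (C ν * C ν) * m3 - Dv P Q * hν2
  · intro s hs
    show eval s (C ν * R) = 0
    rw [map_mul, hRS s hs, mul_zero]
  · intro F hF hFS
    obtain ⟨l, u, v, w, hl, he⟩ := h.span4 dR hRS hR hF hFS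
    refine ⟨l, u, v, w * ν⁻¹, hl, ?_⟩
    rw [he]
    show _ = l * Dv P Q + C u * P + C v * Q + C (w * ν⁻¹) * (C ν * R)
    rw [C_mul]
    linear_combination (- C w * R) * hν3

end NS

end Run7.h256
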