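import Mathlib
import Pool.Agent.Run7.h256.V4
import Pool.Agent.Run7.h256.V5

set_option autoImplicit false

namespace Run7.h256

open MvPolynomial ComplexConjugate

/-- coprimality over the complex numbers -/
lemma relPrime_cx {P Q : RP} (h : IsRelPrime P Q) : IsRelPrime (cx P) (cx Q) := by
  intro g hgP hgQ
  obtain ⟨A, hA⟩ := hgP
  obtain ⟨B, hB⟩ := hgQ
  have e : A * cx Q = B * cx P := by rw [hA, hB]; ring
  have e1 : rp A * Q = rp B * P := by
    have := congrArg rp e
    rwa [rp_cmul, rp_cmul] at this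
  have e2 : ip A * Q = ip B * P := by
    have := congrArg ip e
    rwa [ip_cmul, ip_cmul] at this
  obtain ⟨k1, a1, b1⟩ := split_prop' h (u := rp A) (v := rp B) (by linear_combination -e1)
  obtain ⟨k2, a2, b2⟩ := split_prop' h (u := ip A) (v := ip B) (by linear_combination -e2)
  have hA2 : A = cx P * (cx k1 + C Complex.I * cx k2) := by
    rw [decomp A, a1, a2, cx_mul, cx_mul]; ring
  have hB2 : B = cx Q * (cx k1 + C Complex.I * cx k2) := by
    rw [decomp B, b1, b2, cx_mul, cx_mul]; ring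
  by_cases hP : P = 0
  · have hQ : Q ≠ 0 := by
      rintro rfl
      rw [hP] at h
      exact not_isUnit_zero (h (dvd_refl 0) (dvd_refl 0))
    have hcQ : cx Q ≠ 0 := fun h0 => hQ (cx_inj (by rw [h0, cx_zero]))
    apply IsUnit.of_mul_eq_one (cx k1 + C Complex.I * cx k2)
    apply mul_left_cancel₀ hcQ
    linear_combination (-1 : RR) * hB - g * hB2
  · have hcP : cx P ≠ 0 := fun h0 => hP (cx_inj (by rw [h0, cx_zero]))
    apply IsUnit.of_mul_eq_one (cx k1 + C Complex.I * cx k2)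
    apply mul_left_cancel₀ hcP
    linear_combination (-1 : RR) * hA - g * hA2

namespace Bs

variable {P Q : RP} {S : Finset (Fin 2 → ℝ)}

theorem final (h : Bs P Q S) (hrel : IsRelPrime P Q) (hP4 : ¬ (Dle 3 P ∧ Dle 3 Q))
    (hf : ∀ f α β : RP, Dle 2 f → Dle 1 α → Dle 1 β → f ≠ 0 → f * DD P Q = α * P + β * Q → False)
    (hL : ∀ p ∈ S, (eval p (Jac P Q) ≠ 0 ∧ LC (cx P) (cx Q) (cp p)) ∨ LCs (cx P) (cx Q) (cp p)) :
    False := by
  have hDv : Dv (cx P) (cx Q) = cx (DD P Q) := cx_Dv P Q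
  have hre : ∀ F : RR, (∀ s ∈ S.map ⟨cp, cp_inj⟩, eval s F = 0) →
      (∀ p ∈ S, eval p (rp F) = 0) ∧ (∀ p ∈ S, eval p (ip F) = 0) := by
    intro F hF
    have hz : ∀ p ∈ S, eval p (rp F) = 0 ∧ eval p (ip F) = 0 := by
      intro p hp
      have h1 := hF (cp p) (Finset.mem_map.2 ⟨p, hp, rfl⟩)
      rw [decomp F, map_add, map_mul, eval_C, eval_cx, eval_cx] at h1
      have h2 := congrArg Complex.re h1
      have h3 := congrArg Complex.im h1
      simp at h2 h3
      exact ⟨h2, h3⟩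
    exact ⟨fun p hp => (hz p hp).1, fun p hp => (hz p hp).2⟩
  have hns : NS (cx P) (cx Q) (S.map ⟨cp, cp_inj⟩) := by
    refine ⟨Dle_cx h.hP, Dle_cx h.hQ, by rw [Finset.card_map, h.card], ?_, ?_, ?_, relPrime_cx hrel,
      ?_, ?_, ?_, ?_, ?_⟩
    · intro s hs
      obtain ⟨p, hp, rfl⟩ := Cfg.memS S hs
      rw [eval_cx, (h.PS hp).1]; rfl
    · intro s hs
      obtain ⟨p, hp, rfl⟩ := Cfg.memS S hs
      rw [eval_cx, (h.PS hp).2]; rfl
    · intro s hs
      obtain ⟨p, hp, rfl⟩ := Cfg.memS S hs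
      rw [hDv, eval_cx, h.dS p hp]; rfl
    · rintro ⟨h1, h2⟩
      exact hP4 ⟨Dle_cx_iff.1 h1, Dle_cx_iff.1 h2⟩
    · rw [hDv]
      exact fun h0 => h.D0 (cx_inj (by rw [h0, cx_zero]))
    · intro F hF hFS
      obtain ⟨h1, h2⟩ := hre F hFS
      rw [decomp F, h.conic (Dle_rp hF) h1, h.conic (Dle_ip hF) h2, cx_zero, mul_zero, add_zero]
    · intro F hF hFS
      obtain ⟨h1, h2⟩ := hre F hFS
      obtain ⟨a, ha⟩ := h.cubic (Dle_rp hF) h1
      obtain ⟨b, hb⟩ := h.cubic (Dle_ip hF) h2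
      refine ⟨(a : ℂ) + Complex.I * b, ?_⟩
      rw [hDv]
      rw [decomp F, ha, hb, cx_mul, cx_mul, cx_C, cx_C, C_add, C_mul]
      ring
    · intro f u v df du dv he
      rw [hDv] at he
      have e1 : rp f * DD P Q + rp u * P + rp v * Q = 0 := by
        have := congrArg rp he
        rw [rp_add, rp_add, rp_cmul, rp_cmul, rp_cmul] at this
        rw [this, ← cx_zero, rp_cx]
      have e2 : ip f * DD P Q + ip u * P + ip v * Q = 0 := by
        have := congrArg ip he
        rw [ip_add, ip_add, ip_cmul, ip_cmul, ip_cmul] at this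
        rw [this, ← cx_zero, ip_cx]
      have z1 : rp f = 0 := by
        by_contra h0
        exact hf _ (-(rp u)) (-(rp v)) (Dle_rp df) (Dle_rp du).neg (Dle_rp dv).neg h0
          (by linear_combination e1)
      have z2 : ip f = 0 := by
        by_contra h0
        exact hf _ (-(ip u)) (-(ip v)) (Dle_ip df) (Dle_ip du).neg (Dle_ip dv).neg h0
          (by linear_combination e2)
      rw [decomp f, z1, z2, cx_zero, mul_zero, add_zero]
  apply hns.contradiction
  · intro s hs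
    obtain ⟨p, hp, rfl⟩ := Cfg.memS S hs
    exact h.K p hp
  · intro s hs
    obtain ⟨p, hp, rfl⟩ := Cfg.memS S hs
    rcases hL p hp with h1 | h1
    · left
      refine ⟨?_, h1.2⟩
      rw [cx_Jac, eval_cx]
      exact_mod_cast h1.1
    · exact Or.inr h1

end Bs

lemma hc_z (n : ℕ) : hc n (0 : RP) = 0 := by
  ext d
  rw [coeff_hc, coeff_zero]
  split_ifs <;> rfl

/-- coprime top forms: no nine nondegenerate centres -/
theorem coprime_false {P Q : RP} {S : Finset (Fin 2 → ℝ)} (he : E0 P Q) (hS : SS P Q S)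
    (hD : DD P Q ≠ 0) (hdS : ∀ p ∈ S, eval p (DD P Q) = 0) (hK : ∀ p ∈ S, KC (cx P) (cx Q) (cp p))
    (hL : ∀ p ∈ S, LC (cx P) (cx Q) (cp p)) : False := by
  obtain ⟨L, Δ, hk⟩ := exists_Pk he hS
  have hdD : Dle 3 (DD P Q) := Dle_DD he.hP he.hQ
  have hrel : IsRelPrime P Q := by
    intro g h1 h2
    obtain ⟨A, hA⟩ := h1
    obtain ⟨B, hB⟩ := h2
    have hP0 := he.p_ne
    have hQ0 := he.q_ne
    -- degree consideration
    by_contra hg
    have hgc : ¬ Dle 0 g := by
      intro h0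
      have h1 : g = C (coeff 0 g) := (totalDegree_eq_zero_iff_eq_C).1 (Nat.le_zero.1 h0)
      apply hg
      rw [h1]
      apply (isUnit_iff_ne_zero.2 _).map C
      intro h2
      rw [h2, C_0] at h1
      rw [h1, zero_mul] at hA
      apply hP0
      rw [hA, hc_z]
    have hgz : g ≠ 0 := by rintro rfl; exact hgc Dle.zero
    obtain ⟨h3, h4⟩ := he.inj3 3 le_rfl B (-A) (dvd_Dle (by rw [← hB]; exact he.hQ) hgz hgc)
      ((dvd_Dle (by rw [← hA]; exact he.hP) hgz hgc).neg) (by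
        have : B * P + -A * Q = 0 := by rw [hA, hB]; ring
        rw [this]; exact Dle.zero)
    apply hQ0
    rw [hB, h3, mul_zero, hc_z]
  have hbs : Bs P Q S := by
    refine ⟨he.hP, he.hQ, hS.card, fun {p} hp => hS.zero p hp, hdS, fun p hp => Jn_of_J (hS.Jp p hp),
      fun p hp a b c k h1 h2 h3 => Li_of_J (hS.zero p hp).1 (hS.zero p hp).2 (hS.Jp p hp) (hdS p hp) a b c k h1
        h2 h3, hK, hD, ?_, ?_, ?_, ?_⟩
    · intro F hF hFS; exact hk.conic_eq hF hFS
    · intro F hF hFS; exact hk.cubic_eq hdD hD hdS hF hFS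
    · intro u v hu hv huv; exact he.inj3 3 le_rfl u v hu hv (by rw [huv]; exact Dle.zero)
    · intro h0; exact hD (he.eq_zero3 h0 hdD)
  refine hbs.final hrel ?_ ?_ (fun p hp => Or.inl ⟨(hS.Jp p hp).ne', hL p hp⟩)
  · rintro ⟨h1, h2⟩
    apply he.p_ne
    ext d
    rw [coeff_hc, coeff_zero]
    split_ifs with hd
    · exact Dle_iff.1 h1 d (by omega)
    · rfl
  · intro f α β hf hα hβ hf0 he'
    exact hbs.fcase0 (hk.ck hdD hD hdS) hf hf0 hα hβ he'

end Run7.h256
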