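import Mathlib
import Pool.Agent.Run7.h256.W1

set_option autoImplicit false

namespace Run7.h256

open MvPolynomial

variable {k : Type*} [Field k]

/-- at most `a * b` common zeros -/
lemma bezout {P Q : MvPolynomial (Fin 2) k} (hrel : IsRelPrime P Q) (hQ : Q ≠ 0)
    (T : Finset (Fin 2 → k)) (hT : ∀ t ∈ T, eval t P = 0 ∧ eval t Q = 0) :
    T.card ≤ P.totalDegree * Q.totalDegree := by
  classical
  have h1 := ci_count hrel hQ rfl rfl (N := T.card) (ι := T)
    (CI16.ev T (P.totalDegree + Q.totalDegree + T.card)) (by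
      choose A hA1 hA2 hA3 using exists_sep (k := k) T
      intro c
      refine ⟨⟨∑ w : T, C (c w / eval w.1 (A w.1)) * A w.1, mem_Pl.2 ?_⟩, ?_⟩
      · refine le_trans (totalDegree_finsetSum _ _) ?_
        apply Finset.sup_le
        intro w _
        have h1 : Dle (P.totalDegree + Q.totalDegree + T.card) (A w.1) := by
          refine (hA1 w.1).mono ?_
          rw [Finset.card_erase_of_mem w.2]; omega
        exact (Dle.C (n := 0) _).mul h1 (by omega)
      · ext z
        rw [CI16.ev_apply, map_sum, Finset.sum_eq_single z]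
        · rw [map_mul, eval_C, div_mul_cancel₀ _ (hA2 z.1)]
        · intro w _ hw
          rw [map_mul, hA3 w.1 z.1 z.2 (fun h => hw (Subtype.ext h.symm)), mul_zero]
        · intro h1; exact absurd (Finset.mem_univ _) h1) (by
      intro F u v he
      ext z
      rw [CI16.ev_apply, he, map_add, map_mul, map_mul, (hT z.1 z.2).1, (hT z.1 z.2).2]
      simp)
  rwa [Fintype.card_coe] at h1

/-! ### the projective change of chart -/

/-- the affine function vanishing on the line sent to infinity -/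
noncomputable def om (δ : Fin 2 → k) : MvPolynomial (Fin 2) k := 1 - (C (δ 0) * X 0 + C (δ 1) * X 1)

noncomputable def sg : MvPolynomial (Fin 2) k →ₐ[k] Polynomial (MvPolynomial (Fin 2) k) :=
  aeval (fun i => Polynomial.C (X i) * Polynomial.X)

lemma sg_monomial (s : Fin 2 →₀ ℕ) (a : k) :
    sg (monomial s a) = Polynomial.C (monomial s a) * Polynomial.X ^ (s 0 + s 1) := by
  unfold sg
  rw [aeval_monomial, Finsupp.prod_fintype _ _ (fun i => pow_zero _), Fin.prod_univ_two, monomial_eq,
    Finsupp.prod_fintype _ _ (fun i => pow_zero _), Fin.prod_univ_two]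
  have : (algebraMap k (Polynomial (MvPolynomial (Fin 2) k))) a = Polynomial.C (C a) := rfl
  rw [this]
  simp only [map_mul, map_pow]
  ring

lemma sg_homog {n : ℕ} {F : MvPolynomial (Fin 2) k} (hF : F.IsHomogeneous n) :
    sg F = Polynomial.C F * Polynomial.X ^ n := by
  conv_lhs => rw [F.as_sum]
  rw [map_sum]
  conv_rhs => rw [F.as_sum]
  rw [map_sum, Finset.sum_mul]
  apply Finset.sum_congr rfl
  intro s hs
  rw [sg_monomial]
  have h1 : s 0 + s 1 = n := by
    by_contra hne
    rw [mem_support_iff] at hs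
    apply hs
    apply hF.coeff_eq_zero
    rw [Finsupp.degree_eq_sum, Fin.sum_univ_two]
    exact hne
  rw [h1]

lemma sum_hc {d : ℕ} {F : MvPolynomial (Fin 2) k} (hF : Dle d F) :
    F = ∑ j ∈ Finset.range (d + 1), hc j F := by
  ext e
  rw [coeff_sum]
  simp only [coeff_hc]
  rw [Finset.sum_ite_eq (Finset.range (d + 1)) (e 0 + e 1) (fun _ => coeff e F)]
  split_ifs with h
  · rfl
  · rw [Finset.mem_range, not_lt] at h
    exact Dle_iff.1 hF e (by omega)

lemma sg_sum {d : ℕ} {F : MvPolynomial (Fin 2) k} (hF : Dle d F) :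
    sg F = ∑ j ∈ Finset.range (d + 1), Polynomial.C (hc j F) * Polynomial.X ^ j := by
  conv_lhs => rw [sum_hc hF]
  rw [map_sum]
  exact Finset.sum_congr rfl (fun j _ => sg_homog (hc_homog j F))

lemma sg_deg {d : ℕ} {F : MvPolynomial (Fin 2) k} (hF : Dle d F) : (sg F).natDegree ≤ d := by
  rw [sg_sum hF]
  apply Polynomial.natDegree_sum_le_of_forall_le
  intro j hj
  refine le_trans (Polynomial.natDegree_C_mul_X_pow_le _ _) ?_
  rw [Finset.mem_range] at hj; omega

/-- the change of chart on polynomials of degree at most `d` -/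
noncomputable def TT (δ : Fin 2 → k) (d : ℕ) (F : MvPolynomial (Fin 2) k) : MvPolynomial (Fin 2) k :=
  Polynomial.eval (om δ) (Polynomial.reflect d (sg F))

variable {δ : Fin 2 → k}

lemma TT_mul {a b : ℕ} {F G : MvPolynomial (Fin 2) k} (hF : Dle a F) (hG : Dle b G) :
    TT δ (a + b) (F * G) = TT δ a F * TT δ b G := by
  unfold TT
  rw [map_mul, Polynomial.reflect_mul _ _ (sg_deg hF) (sg_deg hG), Polynomial.eval_mul]

lemma TT_add (d : ℕ) (F G : MvPolynomial (Fin 2) k) : TT δ d (F + G) = TT δ d F + TT δ d G := by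
  unfold TT
  rw [map_add, Polynomial.reflect_add, Polynomial.eval_add]

lemma TT_sub (d : ℕ) (F G : MvPolynomial (Fin 2) k) : TT δ d (F - G) = TT δ d F - TT δ d G := by
  unfold TT
  rw [map_sub, Polynomial.reflect_sub, Polynomial.eval_sub]

lemma TT_C_mul (d : ℕ) (c : k) (F : MvPolynomial (Fin 2) k) : TT δ d (C c * F) = C c * TT δ d F := by
  unfold TT
  rw [map_mul]
  have : sg (C c : MvPolynomial (Fin 2) k) = Polynomial.C (C c) := by
    have := sg_homog (isHomogeneous_C (Fin 2) c)
    rwa [pow_zero, mul_one] at this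
  rw [this, Polynomial.reflect_C_mul, Polynomial.eval_mul, Polynomial.eval_C]

lemma TT_zero (d : ℕ) : TT δ d (0 : MvPolynomial (Fin 2) k) = 0 := by
  have := TT_sub (δ := δ) d 0 0
  rwa [sub_self, sub_self] at this

lemma TT_sum {d : ℕ} {F : MvPolynomial (Fin 2) k} (hF : Dle d F) :
    TT δ d F = ∑ j ∈ Finset.range (d + 1), om δ ^ (d - j) * hc j F := by
  unfold TT
  rw [sg_sum hF]
  have h1 := map_sum (AddMonoidHom.mk' (Polynomial.reflect d)
    (fun f g : Polynomial (MvPolynomial (Fin 2) k) => Polynomial.reflect_add f g d))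
    (fun j => Polynomial.C (hc j F) * Polynomial.X ^ j) (Finset.range (d + 1))
  simp only [AddMonoidHom.mk'_apply] at h1
  rw [h1, Polynomial.eval_finsetSum]
  apply Finset.sum_congr rfl
  intro j hj
  rw [Finset.mem_range] at hj
  rw [Polynomial.reflect_C_mul_X_pow, Polynomial.revAt_le (by omega), Polynomial.eval_mul, Polynomial.eval_C,
    Polynomial.eval_pow, Polynomial.eval_X, mul_comm]

lemma hc_self {n : ℕ} {F : MvPolynomial (Fin 2) k} (hF : F.IsHomogeneous n) : hc n F = F := by
  ext e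
  rw [coeff_hc]
  split_ifs with h
  · rfl
  · symm
    apply hF.coeff_eq_zero
    rw [Finsupp.degree_eq_sum, Fin.sum_univ_two]
    exact h

lemma TT_homog {n : ℕ} {F : MvPolynomial (Fin 2) k} (hF : F.IsHomogeneous n) : TT δ n F = F := by
  unfold TT
  rw [sg_homog hF, Polynomial.reflect_C_mul_X_pow, Polynomial.revAt_le le_rfl, Nat.sub_self, pow_zero,
    mul_one, Polynomial.eval_C]

lemma TT_C (d : ℕ) (c : k) : TT δ d (C c) = C c * om δ ^ d := by
  unfold TT
  have := sg_homog (isHomogeneous_C (Fin 2) c)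
  rw [this, Polynomial.reflect_C_mul_X_pow, Polynomial.revAt_le (Nat.zero_le d)]
  simp

lemma TT_one (d : ℕ) : TT δ d (1 : MvPolynomial (Fin 2) k) = om δ ^ d := by
  have := TT_C (δ := δ) d (1 : k)
  rwa [C_1, one_mul] at this

lemma TT_succ {d : ℕ} {F : MvPolynomial (Fin 2) k} (hF : Dle d F) (j : ℕ) :
    TT δ (d + j) F = om δ ^ j * TT δ d F := by
  have h1 := TT_mul (δ := δ) (b := j) hF (Dle.one.mono (Nat.zero_le j))
  rw [mul_one, TT_one] at h1
  rw [h1]; ring

lemma Dle_om (δ : Fin 2 → k) : Dle 1 (om δ) := by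
  unfold om
  exact Dle.one.sub (((Dle.C (n := 0) _).mul (Dle.X le_rfl 0) (by omega)).add
    ((Dle.C (n := 0) _).mul (Dle.X le_rfl 1) (by omega)))

lemma Dle_pow {n : ℕ} {F : MvPolynomial (Fin 2) k} (h : Dle 1 F) : Dle n (F ^ n) := by
  induction n with
  | zero => rw [pow_zero]; exact Dle.one
  | succ n ih => rw [pow_succ]; exact ih.mul h (by omega)

lemma Dle_TT {d : ℕ} {F : MvPolynomial (Fin 2) k} (hF : Dle d F) : Dle d (TT δ d F) := by
  rw [TT_sum hF]
  unfold Dle
  refine le_trans (totalDegree_finsetSum _ _) ?_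
  apply Finset.sup_le
  intro j hj
  rw [Finset.mem_range] at hj
  exact (Dle_pow (n := d - j) (Dle_om δ)).mul (homog_DG (hc_homog j F)) (by omega)

lemma eval_homog {n : ℕ} {F : MvPolynomial (Fin 2) k} (hF : F.IsHomogeneous n) (w : k) (y : Fin 2 → k) :
    eval (fun i => w * y i) F = w ^ n * eval y F := by
  conv_lhs => rw [F.as_sum]
  conv_rhs => rw [F.as_sum]
  rw [map_sum, map_sum, Finset.mul_sum]
  apply Finset.sum_congr rfl
  intro s hs
  have h1 : s 0 + s 1 = n := by
    by_contra hne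
    rw [mem_support_iff] at hs
    apply hs
    apply hF.coeff_eq_zero
    rw [Finsupp.degree_eq_sum, Fin.sum_univ_two]
    exact hne
  rw [eval_monomial, eval_monomial, Finsupp.prod_fintype _ _ (fun i => pow_zero _), Fin.prod_univ_two,
    Finsupp.prod_fintype _ _ (fun i => pow_zero _), Fin.prod_univ_two, ← h1]
  ring

/-- values in the two charts -/
lemma eval_TT {d : ℕ} {F : MvPolynomial (Fin 2) k} (hF : Dle d F) {y : Fin 2 → k} {w : k}
    (hw : eval y (om δ) * w = 1) : eval y (TT δ d F) * w ^ d = eval (fun i => w * y i) F := by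
  rw [TT_sum hF]
  conv_rhs => rw [sum_hc hF]
  rw [map_sum, map_sum, Finset.sum_mul]
  apply Finset.sum_congr rfl
  intro j hj
  rw [Finset.mem_range] at hj
  rw [map_mul, map_pow, eval_homog (hc_homog j F)]
  have e : w ^ d = w ^ (d - j) * w ^ j := by rw [← pow_add]; congr 1; omega
  have e2 : eval y (om δ) ^ (d - j) * w ^ (d - j) = 1 := by rw [← mul_pow, hw, one_pow]
  rw [e]
  linear_combination (eval y (hc j F) * w ^ j) * e2

lemma eval_om (δ y : Fin 2 → k) : eval y (om δ) = 1 - (δ 0 * y 0 + δ 1 * y 1) := by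
  unfold om; simp

/-- the point in the new chart -/
noncomputable def tp (δ x : Fin 2 → k) : Fin 2 → k := fun i => x i / (1 + (δ 0 * x 0 + δ 1 * x 1))

lemma eval_om_tp {x : Fin 2 → k} (hx : 1 + (δ 0 * x 0 + δ 1 * x 1) ≠ 0) :
    eval (tp δ x) (om δ) * (1 + (δ 0 * x 0 + δ 1 * x 1)) = 1 := by
  rw [eval_om]
  unfold tp
  field_simp
  ring

lemma eval_TT_tp {d : ℕ} {F : MvPolynomial (Fin 2) k} (hF : Dle d F) {x : Fin 2 → k}
    (hx : 1 + (δ 0 * x 0 + δ 1 * x 1) ≠ 0) :
    eval (tp δ x) (TT δ d F) * (1 + (δ 0 * x 0 + δ 1 * x 1)) ^ d = eval x F := by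
  rw [eval_TT hF (eval_om_tp hx)]
  have : (fun i => (1 + (δ 0 * x 0 + δ 1 * x 1)) * tp δ x i) = x := by
    funext i
    unfold tp
    field_simp
  rw [this]

lemma TT_inj [Infinite k] {d : ℕ} {F : MvPolynomial (Fin 2) k} (hF : Dle d F) (h0 : TT δ d F = 0) : F = 0 := by
  have h1 : F * (1 + (C (δ 0) * X 0 + C (δ 1) * X 1)) = 0 := by
    apply MvPolynomial.funext
    intro x
    rw [map_mul, map_zero]
    simp only [map_add, map_one, map_mul, eval_C, eval_X]
    by_cases hx : 1 + (δ 0 * x 0 + δ 1 * x 1) = 0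
    · rw [hx, mul_zero]
    · rw [← eval_TT_tp hF hx, h0]; simp
  rcases mul_eq_zero.1 h1 with h2 | h2
  · exact h2
  · exfalso
    have := congrArg (eval 0) h2
    simp at this

end Run7.h256
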