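import Mathlib
import Pool.Agent.Run7.h256.V6
import Pool.Agent.Run7.h256.W7

set_option autoImplicit false

namespace Run7.h256

open MvPolynomial ComplexConjugate

section general

variable {k : Type*} [Field k] {δ : Fin 2 → k}

lemma hc_add' (n : ℕ) (F G : MvPolynomial (Fin 2) k) : hc n (F + G) = hc n F + hc n G := by
  ext d; simp only [coeff_hc, coeff_add]; split_ifs <;> simp

lemma hc_eq_zero {n m : ℕ} {F : MvPolynomial (Fin 2) k} (hF : Dle m F) (h : m < n) : hc n F = 0 := by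
  ext d
  rw [coeff_hc, coeff_zero]
  split_ifs with hd
  · exact Dle_iff.1 hF d (by omega)
  · rfl

lemma pow_diff {a : MvPolynomial (Fin 2) k} (ha : Dle 1 a) (m : ℕ) :
    Dle m ((a + 1) ^ (m + 1) - a ^ (m + 1)) := by
  induction m with
  | zero =>
    have : (a + 1) ^ (0 + 1) - a ^ (0 + 1) = 1 := by ring
    rw [this]; exact Dle.one
  | succ m ih =>
    have e : (a + 1) ^ (m + 1 + 1) - a ^ (m + 1 + 1) = (a + 1) * ((a + 1) ^ (m + 1) - a ^ (m + 1)) +
        a ^ (m + 1) := by ring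
    rw [e]
    exact ((ha.add Dle.one).mul ih (by omega)).add (Dle_pow ha)

/-- top form in the new chart -/
lemma hc_TT {d : ℕ} {F : MvPolynomial (Fin 2) k} (hF : Dle d F) :
    hc d (TT δ d F) = ∑ j ∈ Finset.range (d + 1), (-(C (δ 0) * X 0 + C (δ 1) * X 1)) ^ (d - j) * hc j F := by
  obtain ⟨a, ha⟩ : ∃ a : MvPolynomial (Fin 2) k, a = -(C (δ 0) * X 0 + C (δ 1) * X 1) := ⟨_, rfl⟩
  have hom : om δ = a + 1 := by rw [ha]; unfold om; ring
  have hah : a.IsHomogeneous 1 := by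
    rw [ha]
    exact (((isHomogeneous_X _ _).C_mul _).add ((isHomogeneous_X _ _).C_mul _)).neg
  rw [← ha, TT_sum hF, hom]
  have h1 : ∑ j ∈ Finset.range (d + 1), (a + 1) ^ (d - j) * hc j F =
      ∑ j ∈ Finset.range (d + 1), a ^ (d - j) * hc j F +
      ∑ j ∈ Finset.range (d + 1), ((a + 1) ^ (d - j) - a ^ (d - j)) * hc j F := by
    rw [← Finset.sum_add_distrib]
    apply Finset.sum_congr rfl
    intro j _; ring
  have h2 : (∑ j ∈ Finset.range (d + 1), a ^ (d - j) * hc j F).IsHomogeneous d := by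
    apply IsHomogeneous.sum
    intro j hj
    rw [Finset.mem_range] at hj
    have := (hah.pow (d - j)).mul (hc_homog j F)
    rwa [one_mul, Nat.sub_add_cancel (by omega)] at this
  have h3 : hc d (∑ j ∈ Finset.range (d + 1), ((a + 1) ^ (d - j) - a ^ (d - j)) * hc j F) = 0 := by
    rcases Nat.eq_zero_or_pos d with h0 | h0
    · subst h0
      have : ∑ j ∈ Finset.range (0 + 1), ((a + 1) ^ (0 - j) - a ^ (0 - j)) * hc j F = 0 := by
        simp
      rw [this]
      ext e; rw [coeff_hc]; simp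
    · apply hc_eq_zero (m := d - 1) _ (by omega)
      refine le_trans (totalDegree_finsetSum _ _) ?_
      apply Finset.sup_le
      intro j hj
      rw [Finset.mem_range] at hj
      by_cases hjd : j = d
      · subst hjd
        rw [Nat.sub_self, pow_zero, pow_zero, sub_self, zero_mul]
        exact Dle.zero
      · have e : d - j = (d - j - 1) + 1 := by omega
        rw [e]
        exact (pow_diff (homog_DG hah) (d - j - 1)).mul (homog_DG (hc_homog j F)) (by omega)
  rw [h1, hc_add', hc_self h2, h3, add_zero]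

/-- the Jacobian in the new chart -/
lemma Jac_TT {P Q : MvPolynomial (Fin 2) k} (hP : Dle 4 P) (hQ : Dle 4 Q) {x : Fin 2 → k}
    (hPx : eval x P = 0) (hQx : eval x Q = 0) (hx : 1 + (δ 0 * x 0 + δ 1 * x 1) ≠ 0) :
    eval (tp δ x) (Jac (TT δ 4 P) (TT δ 4 Q)) * (1 + (δ 0 * x 0 + δ 1 * x 1)) ^ 5 = eval x (Jac P Q) := by
  obtain ⟨A, B, hA, hB, eP⟩ := dec_at 3 P hP x
  obtain ⟨A', B', hA', hB', eQ⟩ := dec_at 3 Q hQ x
  rw [hPx, C_0, sub_zero] at eP
  rw [hQx, C_0, sub_zero] at eQ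
  have q00 : pderiv 0 (X 0 : MvPolynomial (Fin 2) k) = 1 := pderiv_X_self 0
  have q11 : pderiv 1 (X 1 : MvPolynomial (Fin 2) k) = 1 := pderiv_X_self 1
  have q01 : pderiv 0 (X 1 : MvPolynomial (Fin 2) k) = 0 := pderiv_X_of_ne (by decide)
  have q10 : pderiv 1 (X 0 : MvPolynomial (Fin 2) k) = 0 := pderiv_X_of_ne (by decide)
  have dX : ∀ i : Fin 2, Dle 1 (X i - C (x i) : MvPolynomial (Fin 2) k) := fun i =>
    (Dle.X le_rfl i).sub (Dle.C _)
  have t1 : ∀ i : Fin 2, TT δ 1 (X i - C (x i)) = X i - C (x i) * om δ := by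
    intro i
    rw [TT_sub, TT_homog (isHomogeneous_X k i), TT_C, pow_one]
  have hTP : TT δ 4 P = (X 0 - C (x 0) * om δ) * TT δ 3 A + (X 1 - C (x 1) * om δ) * TT δ 3 B := by
    have e1 := TT_mul (δ := δ) (dX 0) hA
    have e2 := TT_mul (δ := δ) (dX 1) hB
    rw [t1] at e1 e2
    rw [eP, TT_add]
    rw [← e1, ← e2]
  have hTQ : TT δ 4 Q = (X 0 - C (x 0) * om δ) * TT δ 3 A' + (X 1 - C (x 1) * om δ) * TT δ 3 B' := by
    have e1 := TT_mul (δ := δ) (dX 0) hA'
    have e2 := TT_mul (δ := δ) (dX 1) hB'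
    rw [t1] at e1 e2
    rw [eQ, TT_add]
    rw [← e1, ← e2]
  have o0 : pderiv 0 (om δ) = -C (δ 0) := by
    unfold om
    simp only [map_sub, map_add, Derivation.leibniz, smul_eq_mul, pderiv_C, q00, q01,
      Derivation.map_one_eq_zero]
    ring
  have o1 : pderiv 1 (om δ) = -C (δ 1) := by
    unfold om
    simp only [map_sub, map_add, Derivation.leibniz, smul_eq_mul, pderiv_C, q10, q11,
      Derivation.map_one_eq_zero]
    ring
  obtain ⟨w, hw⟩ : ∃ w, w = 1 + (δ 0 * x 0 + δ 1 * x 1) := ⟨_, rfl⟩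
  have hw1 := eval_om_tp hx
  rw [← hw] at hx hw1 ⊢
  have zi : ∀ i : Fin 2, eval (tp δ x) (X i - C (x i) * om δ) = 0 := by
    intro i
    rw [map_sub, map_mul, eval_C, eval_X]
    have : tp δ x i * w = x i := by
      unfold tp
      rw [← hw]; field_simp
    have h2 : (tp δ x i - x i * eval (tp δ x) (om δ)) * w = 0 := by linear_combination this - x i * hw1
    exact (mul_eq_zero.1 h2).resolve_right hx
  have a1 : eval (tp δ x) (TT δ 3 A) * w ^ 3 = eval x A := by rw [hw]; exact eval_TT_tp hA (by rwa [← hw])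
  have a2 : eval (tp δ x) (TT δ 3 B) * w ^ 3 = eval x B := by rw [hw]; exact eval_TT_tp hB (by rwa [← hw])
  have a3 : eval (tp δ x) (TT δ 3 A') * w ^ 3 = eval x A' := by rw [hw]; exact eval_TT_tp hA' (by rwa [← hw])
  have a4 : eval (tp δ x) (TT δ 3 B') * w ^ 3 = eval x B' := by rw [hw]; exact eval_TT_tp hB' (by rwa [← hw])
  have z0 := zi 0
  have z1 := zi 1
  unfold Jac
  rw [hTP, hTQ, eP, eQ]
  simp only [map_add, map_sub, map_mul, Derivation.leibniz, smul_eq_mul, o0, o1, q00, q01, q10, q11,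
    pderiv_C, eval_C, eval_X, map_neg, map_zero, map_one] at z0 z1 ⊢
  rw [← a1, ← a2, ← a3, ← a4, z0, z1, sub_self, sub_self]
  set a := eval (tp δ x) (TT δ 3 A)
  set b := eval (tp δ x) (TT δ 3 B)
  set a' := eval (tp δ x) (TT δ 3 A')
  set b' := eval (tp δ x) (TT δ 3 B')
  rw [hw]
  ring

end general

lemma form_zero {n : ℕ} {F : RP} (hF : F.IsHomogeneous n) (h : ∀ m : ℝ, eval ![-m, 1] F = 0) : F = 0 := by
  have h1 : F * X 1 = 0 := by
    apply MvPolynomial.funext
    intro x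
    rw [map_mul, map_zero, eval_X]
    by_cases hx : x 1 = 0
    · rw [hx, mul_zero]
    · have h2 := eval_homog hF (x 1) ![-(-(x 0 / x 1)), 1]
      rw [h, mul_zero] at h2
      have e : (fun i => x 1 * (![-(-(x 0 / x 1)), 1] : Fin 2 → ℝ) i) = x := by
        funext i
        fin_cases i
        · show x 1 * (-(-(x 0 / x 1))) = x 0
          field_simp
        · show x 1 * 1 = x 1
          ring
      rw [e] at h2
      rw [h2, zero_mul]
  exact (mul_eq_zero.1 h1).resolve_right (X_ne_zero 1)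

/-- a generic line at infinity exists -/
theorem exists_delta {P Q : RP} (hP : Dle 4 P) (hQ : Dle 4 Q) (hrel : IsRelPrime P Q) (hQ0 : Q ≠ 0)
    (h4 : ¬ (Dle 3 P ∧ Dle 3 Q)) (S : Finset (Fin 2 → ℝ)) :
    ∃ δ : Fin 2 → ℝ, δ 0 ≠ 0 ∧ (∀ s ∈ S, 0 < 1 + (δ 0 * s 0 + δ 1 * s 1)) ∧
      (∀ x : Fin 2 → ℂ, eval x (cx P) = 0 → eval x (cx Q) = 0 → 1 + ((δ 0 : ℂ) * x 0 + δ 1 * x 1) ≠ 0) ∧
      (∀ z : Fin 2 → ℂ, z ≠ 0 → (δ 0 : ℂ) * z 0 + δ 1 * z 1 = 0 →
        ¬ (eval z (cx (hc 4 P)) = 0 ∧ eval z (cx (hc 4 Q)) = 0)) := by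
  classical
  obtain ⟨m, hm⟩ : ∃ m : ℝ, ¬ (eval ![-m, 1] (hc 4 P) = 0 ∧ eval ![-m, 1] (hc 4 Q) = 0) := by
    by_contra hcon
    push Not at hcon
    apply h4
    have e1 : hc 4 P = 0 := form_zero (hc_homog 4 P) (fun m => (hcon m).1)
    have e2 : hc 4 Q = 0 := form_zero (hc_homog 4 Q) (fun m => (hcon m).2)
    constructor
    · have := sub_hcD (n := 3) hP
      rwa [e1, sub_zero] at this
    · have := sub_hcD (n := 3) hQ
      rwa [e2, sub_zero] at this
  obtain ⟨N, hN⟩ : ∃ N : ℝ, N = 1 + ∑ s ∈ S, |s 0 + m * s 1| := ⟨_, rfl⟩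
  have hN1 : 1 ≤ N := by
    rw [hN]
    have : 0 ≤ ∑ s ∈ S, |s 0 + m * s 1| := Finset.sum_nonneg (fun s _ => abs_nonneg _)
    linarith
  obtain ⟨τ, hτ⟩ : ∃ τ : Fin 17 → ℝ, τ = fun i : Fin 17 => (N * (((i : ℕ) : ℝ) + 2))⁻¹ := ⟨_, rfl⟩
  have hτ0 : ∀ i, 0 < τ i := by
    intro i; rw [hτ]; simp only; positivity
  have hτ1 : ∀ i, τ i * N < 1 := by
    intro i
    rw [hτ]
    simp only
    rw [mul_inv, mul_comm N⁻¹, mul_assoc, inv_mul_cancel₀ (by linarith), mul_one]
    apply inv_lt_one_of_one_lt₀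
    have : (0 : ℝ) ≤ (i : ℕ) := Nat.cast_nonneg _
    linarith
  have hτi : ∀ i j, τ i = τ j → i = j := by
    intro i j hij
    rw [hτ] at hij
    simp only at hij
    have h1 := inv_injective hij
    have h2 : ((i : ℕ) : ℝ) + 2 = (j : ℕ) + 2 := mul_left_cancel₀ (by linarith) h1
    have h3 : ((i : ℕ) : ℝ) = ((j : ℕ) : ℝ) := by linarith
    exact Fin.ext (by exact_mod_cast h3)
  obtain ⟨i, hi⟩ : ∃ i, ∀ x : Fin 2 → ℂ, eval x (cx P) = 0 → eval x (cx Q) = 0 →
      1 + (τ i : ℂ) * (x 0 + m * x 1) ≠ 0 := by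
    by_contra hcon
    push Not at hcon
    choose x hx1 hx2 hx3 using hcon
    have hinj : Function.Injective x := by
      intro i j hij
      have h1 := hx3 i
      have h2 := hx3 j
      rw [hij] at h1
      apply hτi
      have h3 : ((τ i : ℂ) - τ j) * (x j 0 + m * x j 1) = 0 := by linear_combination h1 - h2
      rcases mul_eq_zero.1 h3 with h4 | h4
      · have : (τ i : ℂ) = τ j := by linear_combination h4
        exact_mod_cast this
      · rw [h4] at h2; simp at h2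
    have hb := bezout (relPrime_cx hrel) (fun h0 => hQ0 (cx_inj (by rw [h0, cx_zero])))
      (Finset.univ.image x) (by
        intro t ht
        obtain ⟨i, _, rfl⟩ := Finset.mem_image.1 ht
        exact ⟨hx1 i, hx2 i⟩)
    rw [Finset.card_image_of_injective _ hinj, Finset.card_univ, Fintype.card_fin] at hb
    have h1 : (cx P).totalDegree ≤ 4 := Dle_cx hP
    have h2 : (cx Q).totalDegree ≤ 4 := Dle_cx hQ
    have h3 : (cx P).totalDegree * (cx Q).totalDegree ≤ 4 * 4 := Nat.mul_le_mul h1 h2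
    omega
  refine ⟨![τ i, τ i * m], (hτ0 i).ne', ?_, ?_, ?_⟩
  · intro s hs
    simp only [Matrix.cons_val_zero, Matrix.cons_val_one]
    have h1 : |s 0 + m * s 1| ≤ ∑ s ∈ S, |s 0 + m * s 1| :=
      Finset.single_le_sum (f := fun s : Fin 2 → ℝ => |s 0 + m * s 1|) (fun s _ => abs_nonneg _) hs
    have h2 := neg_abs_le (s 0 + m * s 1)
    have h3 := hτ0 i
    have h4 := hτ1 i
    have h5 : τ i * |s 0 + m * s 1| ≤ τ i * N := by
      apply mul_le_mul_of_nonneg_left _ h3.le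
      linarith
    have h6 : τ i * (-|s 0 + m * s 1|) ≤ τ i * (s 0 + m * s 1) := mul_le_mul_of_nonneg_left h2 h3.le
    nlinarith
  · intro x h1 h2 h3
    simp only [Matrix.cons_val_zero, Matrix.cons_val_one] at h3
    apply hi x h1 h2
    push_cast at h3
    linear_combination h3
  · intro z hz h1 h2
    simp only [Matrix.cons_val_zero, Matrix.cons_val_one] at h1
    push_cast at h1
    have hτc : (τ i : ℂ) ≠ 0 := by exact_mod_cast (hτ0 i).ne'
    have h3 : z 0 = -m * z 1 := by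
      have : (τ i : ℂ) * (z 0 + m * z 1) = 0 := by linear_combination h1
      have := (mul_eq_zero.1 this).resolve_left hτc
      linear_combination this
    have hz1 : z 1 ≠ 0 := by
      intro h0
      apply hz
      funext j
      fin_cases j
      · show z 0 = 0
        rw [h3, h0, mul_zero]
      · exact h0
    have e : z = fun j => z 1 * cp ![-m, 1] j := by
      funext j
      fin_cases j
      · show z 0 = z 1 * ((-m : ℝ) : ℂ)
        rw [h3]; push_cast; ring
      · show z 1 = z 1 * ((1 : ℝ) : ℂ)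
        push_cast; ring
    have key : ∀ F : RP, eval z (cx (hc 4 F)) = 0 → eval ![-m, 1] (hc 4 F) = 0 := by
      intro F hF
      rw [← hc_cx, e, eval_homog (hc_homog 4 (cx F)), hc_cx, eval_cx] at hF
      have := (mul_eq_zero.1 hF).resolve_left (pow_ne_zero 4 hz1)
      exact_mod_cast this
    exact hm ⟨key P h2.1, key Q h2.2⟩

end Run7.h256
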