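import Mathlib
import Pool.Agent.Run7.h256.W8

set_option autoImplicit false

namespace Run7.h256

open MvPolynomial ComplexConjugate

lemma not_unitc {a : RR} (hd : ¬ Dle 0 a) : ¬ IsUnit a := by
  intro h
  apply hd
  unfold Dle
  rw [(MvPolynomial.isUnit_iff_totalDegree_of_isReduced.mp h).2]

/-- no common complex zero away from the origin implies coprimality -/
lemma rel_of_zeros {a b : RP} (h : ∀ z : Fin 2 → ℂ, z ≠ 0 → ¬ (eval z (cx a) = 0 ∧ eval z (cx b) = 0)) :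
    IsRelPrime a b := by
  classical
  intro g h1 h2
  by_contra hg
  by_cases hg0 : g = 0
  · rw [hg0, zero_dvd_iff] at h1 h2
    apply h ![1, 0]
    · intro h0
      have := congrFun h0 0
      simp at this
    · rw [h1, h2, cx_zero, map_zero]; exact ⟨rfl, rfl⟩
  · have hgd : ¬ Dle 0 g := fun h0 => hg (unit_of hg0 h0)
    have hcg : ¬ IsUnit (cx g) := not_unitc (fun h0 => hgd (Dle_cx_iff.1 h0))
    have hcg0 : cx g ≠ 0 := fun h0 => hg0 (cx_inj (by rw [h0, cx_zero]))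
    obtain ⟨f, hf, hfd⟩ := WfDvdMonoid.exists_irreducible_factor hcg hcg0
    obtain ⟨z, hz, hz0⟩ := exists_zero_off hf {0}
    apply h z (fun h0 => hz (by rw [h0]; exact Finset.mem_singleton_self _))
    have key : ∀ F : RP, g ∣ F → eval z (cx F) = 0 := by
      rintro _ ⟨A, rfl⟩
      obtain ⟨B, hB⟩ := hfd
      rw [cx_mul, hB, map_mul, map_mul, hz0, zero_mul, zero_mul]
    exact ⟨key a h1, key b h2⟩

lemma cx_pow (F : RP) (n : ℕ) : cx (F ^ n) = cx F ^ n := by simp [cx]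

lemma cx_sum {ι : Type*} (s : Finset ι) (f : ι → RP) : cx (∑ i ∈ s, f i) = ∑ i ∈ s, cx (f i) := by
  unfold cx; rw [map_sum]

lemma eval_top {δ : Fin 2 → ℝ} {F : RP} (hF : Dle 4 F) (z : Fin 2 → ℂ) :
    eval z (cx (hc 4 (TT δ 4 F))) =
      ∑ j ∈ Finset.range 5, (-((δ 0 : ℂ) * z 0 + δ 1 * z 1)) ^ (4 - j) * eval z (cx (hc j F)) := by
  rw [hc_TT hF, cx_sum, map_sum]
  apply Finset.sum_congr rfl
  intro j _
  rw [cx_mul, cx_pow, cx_neg, cx_add, cx_mul, cx_mul, cx_C, cx_C, cx_X, cx_X]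
  simp only [map_mul, map_pow, map_neg, map_add, eval_C, eval_X]

lemma E0_TT {P Q : RP} (hP : Dle 4 P) (hQ : Dle 4 Q) {δ : Fin 2 → ℝ}
    (g1 : ∀ x : Fin 2 → ℂ, eval x (cx P) = 0 → eval x (cx Q) = 0 → 1 + ((δ 0 : ℂ) * x 0 + δ 1 * x 1) ≠ 0)
    (g2 : ∀ z : Fin 2 → ℂ, z ≠ 0 → (δ 0 : ℂ) * z 0 + δ 1 * z 1 = 0 →
        ¬ (eval z (cx (hc 4 P)) = 0 ∧ eval z (cx (hc 4 Q)) = 0)) : E0 (TT δ 4 P) (TT δ 4 Q) := by
  refine ⟨Dle_TT hP, Dle_TT hQ, rel_of_zeros ?_⟩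
  rintro z hz ⟨h1, h2⟩
  obtain ⟨lam, hlam⟩ : ∃ lam, lam = (δ 0 : ℂ) * z 0 + δ 1 * z 1 := ⟨_, rfl⟩
  by_cases h0 : lam = 0
  · have key : ∀ F : RP, Dle 4 F → eval z (cx (hc 4 (TT δ 4 F))) = 0 → eval z (cx (hc 4 F)) = 0 := by
      intro F hF he
      rw [eval_top hF, ← hlam, h0] at he
      simp only [Finset.sum_range_succ, Finset.sum_range_zero] at he
      norm_num at he
      exact he
    exact g2 z hz (by rw [← hlam, h0]) ⟨key P hP h1, key Q hQ h2⟩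
  · have key : ∀ F : RP, Dle 4 F → eval z (cx (hc 4 (TT δ 4 F))) = 0 →
        eval (fun i => (-(lam)⁻¹) * z i) (cx F) = 0 := by
      intro F hF he
      rw [eval_top hF, ← hlam] at he
      have e1 : eval (fun i => (-(lam)⁻¹) * z i) (cx F) =
          ∑ j ∈ Finset.range 5, (-(lam)⁻¹) ^ j * eval z (cx (hc j F)) := by
        conv_lhs => rw [sum_hc (Dle_cx hF)]
        rw [map_sum]
        apply Finset.sum_congr rfl
        intro j _
        rw [eval_homog (hc_homog j (cx F)), hc_cx]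
      have e2 : (-lam) ^ 4 * eval (fun i => (-(lam)⁻¹) * z i) (cx F) = 0 := by
        rw [e1, ← he, Finset.mul_sum]
        apply Finset.sum_congr rfl
        intro j hj
        rw [Finset.mem_range] at hj
        have e3 : (-lam) ^ 4 = (-lam) ^ (4 - j) * (-lam) ^ j := by rw [← pow_add]; congr 1; omega
        have e4 : (-lam) ^ j * (-(lam)⁻¹) ^ j = 1 := by
          rw [← mul_pow, neg_mul_neg, mul_inv_cancel₀ h0, one_pow]
        rw [e3]
        linear_combination ((-lam) ^ (4 - j) * eval z (cx (hc j F))) * e4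
      exact (mul_eq_zero.1 e2).resolve_left (pow_ne_zero 4 (neg_ne_zero.2 h0))
    apply g1 _ (key P hP h1) (key Q hQ h2)
    have : (δ 0 : ℂ) * (-(lam)⁻¹ * z 0) + δ 1 * (-(lam)⁻¹ * z 1) = -(lam⁻¹ * lam) := by
      rw [hlam]; ring
    rw [this, inv_mul_cancel₀ h0]; ring

lemma tp_injOn {δ : Fin 2 → ℝ} {S : Finset (Fin 2 → ℝ)}
    (hw : ∀ s ∈ S, 0 < 1 + (δ 0 * s 0 + δ 1 * s 1)) : Set.InjOn (tp δ) S := by
  intro s hs t ht hst
  have h1 := eval_om_tp (δ := δ) (hw s hs).ne'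
  have h2 := eval_om_tp (δ := δ) (hw t ht).ne'
  rw [hst] at h1
  have hne : eval (tp δ t) (om δ) ≠ 0 := by
    intro h0; rw [h0, zero_mul] at h2; exact zero_ne_one h2
  have h3 : 1 + (δ 0 * s 0 + δ 1 * s 1) = 1 + (δ 0 * t 0 + δ 1 * t 1) := by
    apply mul_left_cancel₀ hne
    rw [h1, h2]
  funext i
  have h4 := congrFun hst i
  unfold tp at h4
  rw [h3] at h4
  have := (hw t ht).ne'
  field_simp at h4
  exact h4

lemma SS_TT {P Q : RP} (hP : Dle 4 P) (hQ : Dle 4 Q) {δ : Fin 2 → ℝ} {S : Finset (Fin 2 → ℝ)}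
    (hw : ∀ s ∈ S, 0 < 1 + (δ 0 * s 0 + δ 1 * s 1)) (h : SS P Q S) :
    SS (TT δ 4 P) (TT δ 4 Q) (S.image (tp δ)) := by
  classical
  have hz : ∀ s ∈ S, ∀ F : RP, Dle 4 F → eval s F = 0 → eval (tp δ s) (TT δ 4 F) = 0 := by
    intro s hs F hF h0
    have := eval_TT_tp (δ := δ) hF (hw s hs).ne'
    rw [h0] at this
    exact (mul_eq_zero.1 this).resolve_right (pow_ne_zero 4 (hw s hs).ne')
  refine ⟨?_, ?_, ?_⟩
  · rw [Finset.card_image_of_injOn (tp_injOn hw), h.card]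
  · intro p hp
    obtain ⟨s, hs, rfl⟩ := Finset.mem_image.1 hp
    exact ⟨hz s hs P hP (h.zero s hs).1, hz s hs Q hQ (h.zero s hs).2⟩
  · intro p hp
    obtain ⟨s, hs, rfl⟩ := Finset.mem_image.1 hp
    have h1 := Jac_TT (δ := δ) hP hQ (h.zero s hs).1 (h.zero s hs).2 (hw s hs).ne'
    have h2 := h.Jp s hs
    rw [← h1] at h2
    exact pos_of_mul_pos_left h2 (pow_pos (hw s hs) 5).le

/-- the package with a generic line at infinity -/
structure TPk (P Q : RP) (S : Finset (Fin 2 → ℝ)) (δ : Fin 2 → ℝ) (L : RP →ₗ[ℝ] ℝ)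
    (Δ : (Fin 2 → ℝ) → RP) : Prop where
  hP : Dle 4 P
  hQ : Dle 4 Q
  rel : IsRelPrime P Q
  P4 : ¬ (Dle 3 P ∧ Dle 3 Q)
  ss : SS P Q S
  d0 : δ 0 ≠ 0
  wpos : ∀ s ∈ S, 0 < 1 + (δ 0 * s 0 + δ 1 * s 1)
  pk : Pk (TT δ 4 P) (TT δ 4 Q) L (S.image (tp δ)) Δ

lemma SS.Q_ne {P Q : RP} {S : Finset (Fin 2 → ℝ)} (h : SS P Q S) : Q ≠ 0 := by
  rintro rfl
  have hne : S.Nonempty := by rw [← Finset.card_pos, h.card]; norm_num
  obtain ⟨s, hs⟩ := hne
  have := h.Jp s hs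
  unfold Jac at this
  simp at this

theorem exists_TPk {P Q : RP} {S : Finset (Fin 2 → ℝ)} (hP : Dle 4 P) (hQ : Dle 4 Q)
    (hrel : IsRelPrime P Q) (h4 : ¬ (Dle 3 P ∧ Dle 3 Q)) (hS : SS P Q S) : ∃ δ L Δ, TPk P Q S δ L Δ := by
  obtain ⟨δ, d0, hw, g1, g2⟩ := exists_delta hP hQ hrel hS.Q_ne h4 S
  obtain ⟨L, Δ, hk⟩ := exists_Pk (E0_TT hP hQ g1 g2) (SS_TT hP hQ hw hS)
  exact ⟨δ, L, Δ, hP, hQ, hrel, h4, hS, d0, hw, hk⟩

namespace TPk

variable {P Q : RP} {S : Finset (Fin 2 → ℝ)} {δ : Fin 2 → ℝ} {L : RP →ₗ[ℝ] ℝ} {Δ : (Fin 2 → ℝ) → RP}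

lemma vanish (h : TPk P Q S δ L Δ) {d : ℕ} {F : RP} (hF : Dle d F) (hFS : ∀ s ∈ S, eval s F = 0) :
    ∀ p ∈ S.image (tp δ), eval p (TT δ d F) = 0 := by
  intro p hp
  obtain ⟨s, hs, rfl⟩ := Finset.mem_image.1 hp
  have := eval_TT_tp (δ := δ) hF (h.wpos s hs).ne'
  rw [hFS s hs] at this
  exact (mul_eq_zero.1 this).resolve_right (pow_ne_zero d (h.wpos s hs).ne')

lemma ompos (h : TPk P Q S δ L Δ) : ∀ p ∈ S.image (tp δ), 0 < eval p (om δ) := by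
  intro p hp
  obtain ⟨s, hs, rfl⟩ := Finset.mem_image.1 hp
  have h1 := eval_om_tp (δ := δ) (h.wpos s hs).ne'
  have h2 : 0 < eval (tp δ s) (om δ) * (1 + (δ 0 * s 0 + δ 1 * s 1)) := by rw [h1]; norm_num
  exact pos_of_mul_pos_left h2 (h.wpos s hs).le

lemma conic (h : TPk P Q S δ L Δ) {F : RP} (hF : Dle 2 F) (hFS : ∀ s ∈ S, eval s F = 0) : F = 0 :=
  TT_inj hF (h.pk.conic_eq (Dle_TT hF) (h.vanish hF hFS))

lemma cubic (h : TPk P Q S δ L Δ) {D F : RP} (hD : Dle 3 D) (hD0 : D ≠ 0) (hDS : ∀ s ∈ S, eval s D = 0)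
    (hF : Dle 3 F) (hFS : ∀ s ∈ S, eval s F = 0) : ∃ c : ℝ, F = C c * D := by
  obtain ⟨c, hc⟩ := h.pk.cubic_eq (Dle_TT hD) (fun h0 => hD0 (TT_inj hD h0)) (h.vanish hD hDS)
    (Dle_TT hF) (h.vanish hF hFS)
  refine ⟨c, ?_⟩
  have h1 : F - C c * D = 0 := by
    apply TT_inj (δ := δ) (d := 3) (hF.sub ((Dle.C (n := 0) c).mul hD (by omega)))
    rw [TT_sub, TT_C_mul, hc, sub_self]
  linear_combination h1

lemma P_ne (h : TPk P Q S δ L Δ) : P ≠ 0 := by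
  rintro rfl
  have hne : S.Nonempty := by rw [← Finset.card_pos, h.ss.card]; norm_num
  obtain ⟨s, hs⟩ := hne
  have := h.ss.Jp s hs
  unfold Jac at this
  simp at this

lemma inj3 (h : TPk P Q S δ L Δ) {u v : RP} (hu : Dle 3 u) (hv : Dle 3 v) (he : u * P + v * Q = 0) :
    u = 0 ∧ v = 0 := by
  obtain ⟨k, h1, h2⟩ := split_prop' h.rel (u := -v) (v := u) (by linear_combination he)
  have hk : k = 0 := by
    by_contra hk
    apply h.P4
    constructor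
    · have h3 : Dle 3 (P * k) := by rw [← h1]; exact hv.neg
      unfold Dle at *
      rw [totalDegree_mul_eq h.P_ne hk] at h3
      omega
    · have h3 : Dle 3 (Q * k) := by rw [← h2]; exact hu
      unfold Dle at *
      rw [totalDegree_mul_eq h.ss.Q_ne hk] at h3
      omega
  rw [hk, mul_zero] at h1 h2
  exact ⟨h2, by linear_combination -h1⟩

end TPk

end Run7.h256
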