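import Mathlib
import Pool.Agent.Run7.h256.W6

set_option autoImplicit false

namespace Run7.h256

open MvPolynomial

namespace Pk

variable {P Q : RP} {L : RP →ₗ[ℝ] ℝ} {S : Finset (Fin 2 → ℝ)} {Δ : (Fin 2 → ℝ) → RP}

/-- twisted Lorentz lemma -/
theorem tw (h : Pk P Q L S Δ) {D : RP} (hD : Dle 3 D) (hD0 : D ≠ 0) (hDS : ∀ s ∈ S, eval s D = 0)
    {ω : RP} (hω : Dle 1 ω) (hωS : ∀ s ∈ S, 0 < eval s ω) {c : RP} (hcS : ∀ s ∈ S, eval s c = 0)
    (hcD : L (c * D) = 0) (h0 : 0 ≤ L (ω * (c * c))) : c ∈ II P Q := by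
  obtain ⟨u, hu, hI⟩ := h.lorentz hD hD0 hDS hcD
  obtain ⟨π, hπ⟩ : ∃ π, π = pj P Q S Δ (c - u) := ⟨_, rfl⟩
  rw [← hπ] at hI
  have hπs : ∀ s ∈ S, eval s π = - eval s u := by
    intro s hs
    rw [hπ, h.eval_pj _ hs, map_sub, hcS s hs, zero_sub]
  have e1 : L (ω * (c * c)) = L (ω * u * u) + 2 * L (ω * u * π) + L (ω * π * π) := by
    have h1 := h.rs.ker _ (Ideal.mul_mem_left _ (ω * (c + u + π)) hI)
    have e : ω * (c + u + π) * (c - u - π) = ω * (c * c) - (ω * u * u + C 2 * (ω * u * π) + ω * π * π) := by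
      rw [show (C 2 : RP) = 2 from map_ofNat C 2]; ring
    rw [e, map_sub, map_add, map_add, L_C] at h1
    linarith
  have e2 : L (ω * u * u) = 0 := h.rs.low _ ((hω.mul hu (n := 3) (by omega)).mul hu (by omega))
  have e3 : L (ω * u * π) = - ∑ s ∈ S, eval s ω * (eval s u * eval s u) / eval s (Jac P Q) := by
    rw [hπ, h.L_pj, ← Finset.sum_neg_distrib]
    apply Finset.sum_congr rfl
    intro s hs
    rw [map_sub, hcS s hs, map_mul]
    ring
  have e4 : L (ω * π * π) = ∑ s ∈ S, eval s ω * (eval s u * eval s u) / eval s (Jac P Q) := by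
    have : L (ω * π * pj P Q S Δ (c - u)) = ∑ s ∈ S, eval s ω * (eval s u * eval s u) / eval s (Jac P Q) := by
      rw [h.L_pj]
      apply Finset.sum_congr rfl
      intro s hs
      rw [map_sub, hcS s hs, map_mul, hπs s hs]
      ring
    rwa [← hπ] at this
  have hnn : ∀ s ∈ S, 0 ≤ eval s ω * (eval s u * eval s u) / eval s (Jac P Q) := by
    intro s hs
    have h1 := (hωS s hs).le
    have h2 := (h.ss.Jp s hs).le
    have h3 := mul_self_nonneg (eval s u)
    positivity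
  have hsum : ∑ s ∈ S, eval s ω * (eval s u * eval s u) / eval s (Jac P Q) = 0 := by
    have h1 := Finset.sum_nonneg hnn
    rw [e1, e2, e3, e4] at h0
    linarith
  rw [Finset.sum_eq_zero_iff_of_nonneg hnn] at hsum
  have hu0 : ∀ s ∈ S, eval s u = 0 := by
    intro s hs
    have h1 := hsum s hs
    rw [div_eq_zero_iff] at h1
    rcases h1 with h1 | h1
    · rcases mul_eq_zero.1 h1 with h2 | h2
      · exact absurd h2 (hωS s hs).ne'
      · exact mul_self_eq_zero.1 h2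
    · exact absurd h1 (h.ss.Jp s hs).ne'
  have huz := h.conic_eq hu hu0
  have hπ0 : π = 0 := by
    rw [hπ]
    unfold pj
    apply Finset.sum_eq_zero
    intro s hs
    rw [map_sub, hcS s hs, hu0 s hs, sub_zero, zero_div, C_0, zero_mul]
  rw [huz, hπ0, sub_zero, sub_zero] at hI
  exact hI

/-- consequences of an element annihilated by a positive affine function -/
theorem ann (h : Pk P Q L S Δ) {D : RP} (hD : Dle 3 D) (hD0 : D ≠ 0) (hDS : ∀ s ∈ S, eval s D = 0)
    {ω : RP} (hω : Dle 1 ω) (hωS : ∀ s ∈ S, 0 < eval s ω) {R : RP} (hR : R ∉ II P Q)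
    (hωR : ω * R ∈ II P Q) :
    ∃ t : Fin 2 → ℝ, (∀ F : RP, R * F - C (eval t F) * R ∈ II P Q) ∧ eval t P = 0 ∧ eval t Q = 0 ∧
      eval t ω = 0 ∧ eval t D ≠ 0 ∧ L R ≠ 0 ∧ L (R * D) ≠ 0 := by
  have hzS : ∀ s ∈ S, eval s R = 0 := by
    intro s hs
    have h1 := II_eval hωR (h.ss.zero s hs).1 (h.ss.zero s hs).2
    rw [map_mul] at h1
    exact (mul_eq_zero.1 h1).resolve_left (hωS s hs).ne'
  have hRD : L (R * D) ≠ 0 := by
    intro h0
    apply hR
    apply h.tw hD hD0 hDS hω hωS hzS h0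
    rw [← mul_assoc, h.rs.ker _ (Ideal.mul_mem_right _ _ hωR)]
  have hcF : ∀ F : RP, ∃ c : ℝ, R * F - C c * R ∈ II P Q := by
    intro F
    refine ⟨L (R * F * D) / L (R * D), ?_⟩
    apply h.tw hD hD0 hDS hω hωS
    · intro s hs
      rw [map_sub, map_mul, map_mul, hzS s hs]; ring
    · have e : (R * F - C (L (R * F * D) / L (R * D)) * R) * D = R * F * D -
          C (L (R * F * D) / L (R * D)) * (R * D) := by ring
      rw [e, map_sub, L_C, div_mul_cancel₀ _ hRD, sub_self]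
    · have e : ω * ((R * F - C (L (R * F * D) / L (R * D)) * R) * (R * F - C (L (R * F * D) / L (R * D)) * R)) =
          ((F - C (L (R * F * D) / L (R * D))) * (R * F - C (L (R * F * D) / L (R * D)) * R)) * (ω * R) := by ring
      rw [e, h.rs.ker _ (Ideal.mul_mem_left _ _ hωR)]
  obtain ⟨c0, hc0⟩ := hcF (X 0)
  obtain ⟨c1, hc1⟩ := hcF (X 1)
  obtain ⟨t, ht⟩ : ∃ t : Fin 2 → ℝ, t = ![c0, c1] := ⟨_, rfl⟩
  have t0 : t 0 = c0 := by rw [ht]; rfl
  have t1 : t 1 = c1 := by rw [ht]; rfl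
  have hRF : ∀ F : RP, R * F - C (eval t F) * R ∈ II P Q := by
    intro F
    obtain ⟨A, B, _, _, hAB⟩ := dec_at F.totalDegree F (by show F.totalDegree ≤ _; omega) t
    rw [t0, t1] at hAB
    have e : R * F - C (eval t F) * R = A * (R * X 0 - C c0 * R) + B * (R * X 1 - C c1 * R) := by
      linear_combination R * hAB
    rw [e]
    exact Ideal.add_mem _ (Ideal.mul_mem_left _ _ hc0) (Ideal.mul_mem_left _ _ hc1)
  have hz : ∀ F : RP, F * R ∈ II P Q → eval t F = 0 := by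
    intro F hF
    by_contra hne
    apply hR
    apply II_Cmul hne
    have h1 := Ideal.sub_mem _ hF (hRF F)
    have e : F * R - (R * F - C (eval t F) * R) = C (eval t F) * R := by ring
    rwa [e] at h1
  refine ⟨t, hRF, ?_, ?_, hz ω hωR, ?_, ?_, hRD⟩
  · apply hz; rw [mul_comm]; exact II_P P Q R
  · apply hz; rw [mul_comm]; exact II_Q P Q R
  · intro h0
    have h1 := h.rs.ker _ (hRF D)
    rw [h0, C_0, zero_mul, sub_zero] at h1
    exact hRD h1
  · intro h0
    have h1 := h.rs.ker _ (hRF D)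
    rw [map_sub, L_C, h0, mul_zero, sub_zero] at h1
    exact hRD h1

/-- the twisted form is negative definite modulo the annihilator -/
theorem bn (h : Pk P Q L S Δ) {D : RP} (hD : Dle 3 D) (hD0 : D ≠ 0) (hDS : ∀ s ∈ S, eval s D = 0)
    {ω : RP} (hω : Dle 1 ω) (hωS : ∀ s ∈ S, 0 < eval s ω) {R : RP} (hR : R ∉ II P Q)
    (hωR : ω * R ∈ II P Q) {a : RP} (haS : ∀ s ∈ S, eval s a = 0) (h0 : 0 ≤ L (ω * (a * a))) :
    ω * a ∈ II P Q := by
  obtain ⟨t, _, _, _, _, _, _, hRD⟩ := h.ann hD hD0 hDS hω hωS hR hωR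
  have hzS : ∀ s ∈ S, eval s R = 0 := by
    intro s hs
    have h1 := II_eval hωR (h.ss.zero s hs).1 (h.ss.zero s hs).2
    rw [map_mul] at h1
    exact (mul_eq_zero.1 h1).resolve_left (hωS s hs).ne'
  obtain ⟨κ, hκ⟩ : ∃ κ, κ = L (a * D) / L (R * D) := ⟨_, rfl⟩
  have h1 : a - C κ * R ∈ II P Q := by
    apply h.tw hD hD0 hDS hω hωS
    · intro s hs
      rw [map_sub, map_mul, haS s hs, hzS s hs]; ring
    · have e : (a - C κ * R) * D = a * D - C κ * (R * D) := by ring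
      rw [e, map_sub, L_C, hκ, div_mul_cancel₀ _ hRD, sub_self]
    · have e : ω * ((a - C κ * R) * (a - C κ * R)) = ω * (a * a) -
          (C κ * (a + (a - C κ * R))) * (ω * R) := by ring
      rw [e, map_sub, h.rs.ker _ (Ideal.mul_mem_left _ _ hωR), sub_zero]
      exact h0
  have h2 := Ideal.add_mem _ (Ideal.mul_mem_left _ ω h1) (Ideal.mul_mem_left _ (C κ) hωR)
  have e : ω * (a - C κ * R) + C κ * (ω * R) = ω * a := by ring
  rwa [e] at h2

end Pk

end Run7.h256
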