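import Mathlib
import Pool.Agent.Run7.h256.W9
import Pool.Agent.Run7.h256.X1

set_option autoImplicit false

namespace Run7.h256

open MvPolynomial

section general

variable {k : Type*} [Field k]

lemma sg_coeff {d : ℕ} {F : MvPolynomial (Fin 2) k} (hF : Dle d F) (j : ℕ) : (sg F).coeff j = hc j F := by
  rw [sg_sum hF, Polynomial.finsetSum_coeff]
  simp only [Polynomial.coeff_C_mul_X_pow]
  rw [Finset.sum_ite_eq (Finset.range (d + 1)) j (fun i => hc i F)]
  split_ifs with h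
  · rfl
  · rw [Finset.mem_range, not_lt] at h
    rw [hc_eq_zero hF (by omega)]

lemma hc_mul_top {a b : ℕ} {F G : MvPolynomial (Fin 2) k} (hF : Dle a F) (hG : Dle b G) :
    hc (a + b) (F * G) = hc a F * hc b G := by
  rw [← sg_coeff (hF.mul hG le_rfl) (a + b), map_mul,
    Polynomial.coeff_mul_add_eq_of_natDegree_le (sg_deg hF) (sg_deg hG), sg_coeff hF, sg_coeff hG]

end general

/-- a form divisible by an affine function with nonzero constant term vanishes -/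
lemma hom_om {n : ℕ} {G u : RP} {δ : Fin 2 → ℝ} (hG : G.IsHomogeneous n) (hδ : δ 0 ≠ 0) (he : G = om δ * u) :
    G = 0 := by
  have h1 : G * (C (δ 0) * X 0 + C (δ 1) * X 1) = 0 := by
    apply MvPolynomial.funext
    intro y
    rw [map_mul, map_zero]
    simp only [map_add, map_mul, eval_C, eval_X]
    by_cases hy : δ 0 * y 0 + δ 1 * y 1 = 0
    · rw [hy, mul_zero]
    · have h2 := eval_homog hG (δ 0 * y 0 + δ 1 * y 1)⁻¹ y
      have h3 : eval (fun i => (δ 0 * y 0 + δ 1 * y 1)⁻¹ * y i) G = 0 := by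
        rw [he, map_mul, eval_om]
        have : 1 - (δ 0 * ((δ 0 * y 0 + δ 1 * y 1)⁻¹ * y 0) + δ 1 * ((δ 0 * y 0 + δ 1 * y 1)⁻¹ * y 1)) =
            1 - (δ 0 * y 0 + δ 1 * y 1)⁻¹ * (δ 0 * y 0 + δ 1 * y 1) := by ring
        rw [this, inv_mul_cancel₀ hy, sub_self, zero_mul]
      rw [h3] at h2
      have h4 := (mul_eq_zero.1 h2.symm).resolve_left (pow_ne_zero n (inv_ne_zero hy))
      rw [h4, zero_mul]
  rcases mul_eq_zero.1 h1 with h2 | h2
  · exact h2
  · exfalso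
    exact lin_ne (Or.inl hδ) h2

namespace TPk

variable {P Q : RP} {S : Finset (Fin 2 → ℝ)} {δ : Fin 2 → ℝ} {L : RP →ₗ[ℝ] ℝ} {Δ : (Fin 2 → ℝ) → RP}

lemma top_ne (h : TPk P Q S δ L Δ) : ¬ (hc 4 P = 0 ∧ hc 4 Q = 0) := by
  rintro ⟨h1, h2⟩
  apply h.P4
  constructor
  · have := sub_hcD (n := 3) h.hP
    rwa [h1, sub_zero] at this
  · have := sub_hcD (n := 3) h.hQ
    rwa [h2, sub_zero] at this

/-- the extra element attached to a common factor of the top forms -/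
lemma Rt (h : TPk P Q S δ L Δ) {e : ℕ} {g p' q' : RP} (he1 : 1 ≤ e) (he : e ≤ 4)
    (hp' : p'.IsHomogeneous (4 - e)) (hq' : q'.IsHomogeneous (4 - e)) (ep : hc 4 P = g * p')
    (eq : hc 4 Q = g * q') :
    ∃ R : RP, Dle (7 - e) R ∧ R ∉ II (TT δ 4 P) (TT δ 4 Q) ∧ om δ * R ∈ II (TT δ 4 P) (TT δ 4 Q) := by
  have dP : Dle 3 (P - hc 4 P) := sub_hc_Dle h.hP
  have dQ : Dle 3 (Q - hc 4 Q) := sub_hc_Dle h.hQ
  have dp' : Dle (4 - e) p' := homog_Dle hp'
  have dq' : Dle (4 - e) q' := homog_Dle hq'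
  have dR : Dle (7 - e) (q' * P - p' * Q) := by
    have : q' * P - p' * Q = q' * (P - hc 4 P) - p' * (Q - hc 4 Q) := by rw [ep, eq]; ring
    rw [this]
    exact (dq'.mul dP (by omega)).sub (dp'.mul dQ (by omega))
  have hω : om δ * TT δ (7 - e) (q' * P - p' * Q) = q' * TT δ 4 P - p' * TT δ 4 Q := by
    have e1 := TT_succ (δ := δ) dR 1
    have e2 := TT_mul (δ := δ) dq' h.hP
    have e3 := TT_mul (δ := δ) dp' h.hQ
    rw [TT_homog hq'] at e2
    rw [TT_homog hp'] at e3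
    rw [pow_one] at e1
    rw [← e1, ← e2, ← e3, show 7 - e + 1 = 4 - e + 4 by omega, TT_sub]
  refine ⟨TT δ (7 - e) (q' * P - p' * Q), Dle_TT dR, ?_, ?_⟩
  · intro hmem
    obtain ⟨u, v, hu, hv, huv⟩ := h.pk.e0.mem_red (n := 3 - e) hmem ((Dle_TT dR).mono (by omega))
    have dom := Dle_om δ
    have h1 : (q' - om δ * u) * TT δ 4 P + (-(p' + om δ * v)) * TT δ 4 Q = 0 := by
      linear_combination (-1 : RP) * hω - om δ * huv
    obtain ⟨h2, h3⟩ := h.pk.e0.inj3 3 le_rfl _ _ ((dq'.mono (by omega)).sub (dom.mul hu (by omega)))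
      (((dp'.mono (by omega)).add (dom.mul hv (by omega))).neg) (by rw [h1]; exact Dle.zero)
    have h4 : q' = 0 := hom_om hq' h.d0 (u := u) (by linear_combination h2)
    have h5 : p' = 0 := hom_om hp' h.d0 (u := -v) (by linear_combination -h3)
    exact h.top_ne ⟨by rw [ep, h5, mul_zero], by rw [eq, h4, mul_zero]⟩
  · rw [hω]
    exact Ideal.sub_mem _ (II_P _ _ q') (II_Q _ _ p')

/-- splitting off a common factor of the top forms -/
lemma facR (h : TPk P Q S δ L Δ) {g : RP} (hg1 : g ∣ hc 4 P) (hg2 : g ∣ hc 4 Q) :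
    g.totalDegree ≤ 4 ∧ ∃ p' q' : RP, p'.IsHomogeneous (4 - g.totalDegree) ∧
      q'.IsHomogeneous (4 - g.totalDegree) ∧ hc 4 P = hc g.totalDegree g * p' ∧
      hc 4 Q = hc g.totalDegree g * q' := by
  obtain ⟨A, hA⟩ := hg1
  obtain ⟨B, hB⟩ := hg2
  have hg0 : g ≠ 0 := by
    rintro rfl
    rw [zero_mul] at hA hB
    exact h.top_ne ⟨hA, hB⟩
  have key : ∀ F A : RP, F.IsHomogeneous 4 → F = g * A → F ≠ 0 → g.totalDegree ≤ 4 := by
    intro F A hF hFA hF0
    have hA0 : A ≠ 0 := by rintro rfl; exact hF0 (by rw [hFA, mul_zero])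
    have h1 := hF.totalDegree hF0
    rw [hFA, totalDegree_mul_eq hg0 hA0] at h1
    omega
  have he : g.totalDegree ≤ 4 := by
    by_cases hp : hc 4 P = 0
    · have hq : hc 4 Q ≠ 0 := fun hq => h.top_ne ⟨hp, hq⟩
      exact key _ _ (hc_homog 4 Q) hB hq
    · exact key _ _ (hc_homog 4 P) hA hp
  have key2 : ∀ F A : RP, F.IsHomogeneous 4 → F = g * A → F = hc g.totalDegree g * hc (4 - g.totalDegree) A := by
    intro F A hF hFA
    have dA : Dle (4 - g.totalDegree) A := by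
      by_cases hA0 : A = 0
      · rw [hA0]; exact Dle.zero
      · have h1 : Dle 4 F := homog_Dle hF
        rw [hFA] at h1
        unfold Dle at *
        rw [totalDegree_mul_eq hg0 hA0] at h1
        omega
    have dg : Dle g.totalDegree g := le_refl g.totalDegree
    have h2 := hc_mul_top dg dA
    rw [← hFA, show g.totalDegree + (4 - g.totalDegree) = 4 by omega, hc_self hF] at h2
    exact h2
  exact ⟨he, _, _, hc_homog _ A, hc_homog _ B, key2 _ _ (hc_homog 4 P) hA, key2 _ _ (hc_homog 4 Q) hB⟩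

/-- common factors of the top forms have degree at most one -/
lemma fac1 (h : TPk P Q S δ L Δ) {D : RP} (hD : Dle 3 D) (hD0 : D ≠ 0) (hDS : ∀ s ∈ S, eval s D = 0)
    {g : RP} (hg1 : g ∣ hc 4 P) (hg2 : g ∣ hc 4 Q) : Dle 1 g := by
  obtain ⟨he, p', q', hp', hq', ep, eq⟩ := h.facR hg1 hg2
  by_contra hcon
  have he2 : 2 ≤ g.totalDegree := by
    unfold Dle at hcon; omega
  obtain ⟨R, hR5, hR, hωR⟩ := h.Rt (by omega) he hp' hq' ep eq
  obtain ⟨t, _, _, _, _, _, hLR, _⟩ := h.pk.ann (Dle_TT (δ := δ) hD) (fun h0 => hD0 (TT_inj hD h0))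
    (h.vanish hD hDS) (Dle_om δ) h.ompos hR hωR
  exact hLR (h.pk.rs.low _ (hR5.mono (by omega)))

lemma eval_TT0 {d : ℕ} {F : RP} (hF : Dle d F) {t : Fin 2 → ℝ} (ht : eval t (om δ) = 0) :
    eval t (TT δ d F) = eval t (hc d F) := by
  rw [TT_sum hF, map_sum, Finset.sum_eq_single d]
  · rw [Nat.sub_self, pow_zero, one_mul]
  · intro j hj hjd
    rw [Finset.mem_range] at hj
    rw [map_mul, map_pow, ht, zero_pow (by omega), zero_mul]
  · intro h1; exact absurd (Finset.mem_range.2 (by omega)) h1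

lemma hc_DD {P Q : RP} (hP : Dle 4 P) (hQ : Dle 4 Q) :
    hc 3 (DD P Q) = pderiv 0 (hc 4 P) + pderiv 1 (hc 4 Q) := by
  have dP : Dle 3 (P - hc 4 P) := sub_hc_Dle hP
  have dQ : Dle 3 (Q - hc 4 Q) := sub_hc_Dle hQ
  have e : DD P Q = (pderiv 0 (hc 4 P) + pderiv 1 (hc 4 Q)) +
      (pderiv 0 (P - hc 4 P) + pderiv 1 (Q - hc 4 Q)) := by
    unfold DD; simp only [map_sub]; ring
  have h1 : (pderiv 0 (hc 4 P) + pderiv 1 (hc 4 Q)).IsHomogeneous 3 :=
    (homog_pd (hc_homog 4 P) 0).add (homog_pd (hc_homog 4 Q) 1)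
  rw [e, hc_add', hc_self h1, hc_eq_zero ((Dle.pderiv (n := 2) dP 0).add (Dle.pderiv (n := 2) dQ 1))
    (by norm_num), add_zero]

/-- the situation with exactly one point at infinity -/
theorem inf1 (h : TPk P Q S δ L Δ) (hnr : ¬ IsRelPrime (hc 4 P) (hc 4 Q)) (hD0 : DD P Q ≠ 0)
    (hDS : ∀ s ∈ S, eval s (DD P Q) = 0) :
    (∃ w : Fin 2 → ℝ, w ≠ 0 ∧ eval w (hc 4 P) = 0 ∧ eval w (hc 4 Q) = 0 ∧
      eval w (pderiv 0 (hc 4 P)) + eval w (pderiv 1 (hc 4 Q)) ≠ 0) ∧ DD P Q ∉ II P Q := by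
  have hD : Dle 3 (DD P Q) := Dle_DD h.hP h.hQ
  obtain ⟨g, hg1, hg2, hgu⟩ : ∃ g, g ∣ hc 4 P ∧ g ∣ hc 4 Q ∧ ¬ IsUnit g := by
    unfold IsRelPrime at hnr
    push Not at hnr
    obtain ⟨g, h1, h2, h3⟩ := hnr
    exact ⟨g, h1, h2, h3⟩
  have hg0 : g ≠ 0 := by
    rintro rfl
    rw [zero_dvd_iff] at hg1 hg2
    exact h.top_ne ⟨hg1, hg2⟩
  have hgd : ¬ Dle 0 g := fun h0 => hgu (unit_of hg0 h0)
  have hgd1 := h.fac1 hD hD0 hDS hg1 hg2
  have he1 : g.totalDegree = 1 := by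
    unfold Dle at hgd hgd1; omega
  obtain ⟨_, p', q', hp', hq', ep, eq⟩ := h.facR hg1 hg2
  rw [he1] at hp' hq' ep eq
  norm_num at hp' hq'
  obtain ⟨l, hl⟩ : ∃ l, l = hc 1 g := ⟨_, rfl⟩
  rw [← hl] at ep eq
  have hl0 : l ≠ 0 := by
    rintro rfl
    rw [zero_mul] at ep eq
    exact h.top_ne ⟨ep, eq⟩
  have hlh : l.IsHomogeneous 1 := by rw [hl]; exact hc_homog 1 g
  obtain ⟨R, _, hR, hωR⟩ := h.Rt (e := 1) le_rfl (by norm_num) hp' hq' ep eq
  have hDt := Dle_TT (δ := δ) hD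
  have hDt0 : TT δ 3 (DD P Q) ≠ 0 := fun h0 => hD0 (TT_inj hD h0)
  have hDtS := h.vanish hD hDS
  have hrel' : IsRelPrime p' q' := by
    intro f h1 h2
    have h3 : Dle 1 (l * f) := h.fac1 hD hD0 hDS (by rw [ep]; exact mul_dvd_mul_left l h1)
      (by rw [eq]; exact mul_dvd_mul_left l h2)
    have hf0 : f ≠ 0 := by
      rintro rfl
      rw [zero_dvd_iff] at h1 h2
      exact h.top_ne ⟨by rw [ep, h1, mul_zero], by rw [eq, h2, mul_zero]⟩
    apply unit_of hf0
    unfold Dle at *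
    rw [totalDegree_mul_eq hl0 hf0, hlh.totalDegree hl0] at h3
    omega
  have hsyz : ∀ n, n ≤ 2 → ∀ a b : RP, Dle n a → Dle n b → a * hc 4 P + b * hc 4 Q = 0 → a = 0 ∧ b = 0 := by
    intro n hn a b ha hb hab
    have h1 : a * p' + b * q' = 0 := by
      apply mul_left_cancel₀ hl0
      rw [ep, eq] at hab
      linear_combination hab
    obtain ⟨c, h2, h3⟩ := split_prop' hrel' (u := -b) (v := a) (by linear_combination h1)
    have hc0 : c = 0 := by
      by_contra hc0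
      have hne : ¬ (p' = 0 ∧ q' = 0) := by
        rintro ⟨z1, z2⟩
        exact h.top_ne ⟨by rw [ep, z1, mul_zero], by rw [eq, z2, mul_zero]⟩
      by_cases hp0 : p' = 0
      · have hq0 : q' ≠ 0 := fun hq => hne ⟨hp0, hq⟩
        rw [h3] at ha
        unfold Dle at ha
        rw [totalDegree_mul_eq hq0 hc0, hq'.totalDegree hq0] at ha
        omega
      · have hb' := hb.neg
        rw [h2] at hb'
        unfold Dle at hb'
        rw [totalDegree_mul_eq hp0 hc0, hp'.totalDegree hp0] at hb'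
        omega
    rw [hc0, mul_zero] at h2 h3
    exact ⟨h3, by linear_combination -h2⟩
  constructor
  · obtain ⟨t, _, hP0, hQ0, hω0, hDt', _, _⟩ := h.pk.ann hDt hDt0 hDtS (Dle_om δ) h.ompos hR hωR
    rw [eval_TT0 h.hP hω0] at hP0
    rw [eval_TT0 h.hQ hω0] at hQ0
    rw [eval_TT0 hD hω0, hc_DD h.hP h.hQ, map_add] at hDt'
    refine ⟨t, ?_, hP0, hQ0, hDt'⟩
    rintro rfl
    rw [eval_om] at hω0
    simp at hω0
  · intro hmem
    obtain ⟨u, v, huv⟩ := mem_II.1 hmem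
    -- some power of `ω` kills the divergence
    have hex : ∃ n, om δ ^ n * TT δ 3 (DD P Q) ∈ II (TT δ 4 P) (TT δ 4 Q) := by
      obtain ⟨m, hm1, hm2⟩ : ∃ m, Dle m u ∧ Dle m v :=
        ⟨max u.totalDegree v.totalDegree, le_max_left _ _, le_max_right _ _⟩
      refine ⟨m + 1, ?_⟩
      rw [← TT_succ hD (m + 1), show 3 + (m + 1) = m + 4 by omega, ← huv, TT_add, TT_mul hm1 h.hP,
        TT_mul hm2 h.hQ]
      exact Ideal.add_mem _ (II_P _ _ _) (II_Q _ _ _)
    obtain ⟨n, hn, hmin⟩ : ∃ n, om δ ^ n * TT δ 3 (DD P Q) ∈ II (TT δ 4 P) (TT δ 4 Q) ∧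
        ∀ m < n, om δ ^ m * TT δ 3 (DD P Q) ∉ II (TT δ 4 P) (TT δ 4 Q) := by
      classical
      exact ⟨Nat.find hex, Nat.find_spec hex, fun m hm => Nat.find_min hex hm⟩
    by_cases hn3 : 3 ≤ n
    · have h1 := h.pk.bn hDt hDt0 hDtS (Dle_om δ) h.ompos hR hωR
        (a := om δ ^ (n - 2) * TT δ 3 (DD P Q)) (by
          intro s hs
          rw [map_mul, hDtS s hs, mul_zero]) (by
          have e : om δ * (om δ ^ (n - 2) * TT δ 3 (DD P Q) * (om δ ^ (n - 2) * TT δ 3 (DD P Q))) =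
              om δ ^ (n - 3) * TT δ 3 (DD P Q) * (om δ ^ n * TT δ 3 (DD P Q)) := by
            have e1 : om δ ^ n = om δ ^ (n - 3) * om δ ^ 3 := by rw [← pow_add]; congr 1; omega
            have e2 : om δ ^ (n - 2) = om δ ^ (n - 3) * om δ := by rw [← pow_succ]; congr 1; omega
            rw [e1, e2]; ring
          rw [e, h.pk.rs.ker _ (Ideal.mul_mem_left _ _ hn)])
      apply hmin (n - 1) (by omega)
      have e : om δ * (om δ ^ (n - 2) * TT δ 3 (DD P Q)) = om δ ^ (n - 1) * TT δ 3 (DD P Q) := by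
        rw [← mul_assoc, ← pow_succ']; congr 2; omega
      rwa [e] at h1
    · have h2 : om δ ^ 2 * TT δ 3 (DD P Q) ∈ II (TT δ 4 P) (TT δ 4 Q) := by
        have := Ideal.mul_mem_left _ (om δ ^ (2 - n)) hn
        rwa [← mul_assoc, ← pow_add, show 2 - n + n = 2 by omega] at this
      rw [← TT_succ hD 2] at h2
      obtain ⟨a, b, ha, hb, hab⟩ := h.pk.e0.mem_red (n := 1) h2 (Dle_TT (hD.mono (by norm_num)))
      -- back to the first chart
      have hinv : ∀ a : RP, Dle 1 a → ∃ a0 : RP, Dle 1 a0 ∧ TT δ 1 a0 = a := by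
        intro a ha
        obtain ⟨α, β, γ, rfl⟩ := aff_coords ha
        refine ⟨C (α + γ * δ 0) * X 0 + C (β + γ * δ 1) * X 1 + C γ, Dle_aff _ _ _, ?_⟩
        rw [TT_add, TT_add, TT_C_mul, TT_C_mul, TT_homog (isHomogeneous_X ℝ 0),
          TT_homog (isHomogeneous_X ℝ 1), TT_C]
        unfold om
        simp only [C_add, C_mul, pow_one]
        ring
      obtain ⟨a0, ha0, rfl⟩ := hinv a ha
      obtain ⟨b0, hb0, rfl⟩ := hinv b hb
      have h5 : a0 * P + b0 * Q - DD P Q = 0 := by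
        apply TT_inj (δ := δ) (d := 5)
        · exact ((ha0.mul h.hP (by omega)).add (hb0.mul h.hQ (by omega))).sub (hD.mono (by norm_num))
        · rw [TT_sub, TT_add]
          have e1 := TT_mul (δ := δ) ha0 h.hP
          have e2 := TT_mul (δ := δ) hb0 h.hQ
          have e3 : TT δ 5 (DD P Q) = TT δ (3 + 2) (DD P Q) := rfl
          have e4 : TT δ 5 (a0 * P) = TT δ (1 + 4) (a0 * P) := rfl
          have e5 : TT δ 5 (b0 * Q) = TT δ (1 + 4) (b0 * Q) := rfl
          rw [e4, e5, e1, e2, e3, hab, sub_self]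
      have h6 : Dle 3 (a0 * P + b0 * Q) := by
        have : a0 * P + b0 * Q = DD P Q := by linear_combination h5
        rw [this]; exact hD
      have z1 := E0.top_zero h.hP h.hQ ha0 hb0 (n := 1) (h6.mono (by norm_num))
      obtain ⟨y1, y2⟩ := hsyz 1 (by norm_num) _ _ (homog_Dle (hc_homog 1 a0)) (homog_Dle (hc_homog 1 b0)) z1
      have da0 : Dle 0 a0 := by
        have := sub_hcD (n := 0) ha0
        rwa [y1, sub_zero] at this
      have db0 : Dle 0 b0 := by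
        have := sub_hcD (n := 0) hb0
        rwa [y2, sub_zero] at this
      have z2 := E0.top_zero h.hP h.hQ da0 db0 (n := 0) h6
      obtain ⟨y3, y4⟩ := hsyz 0 (by norm_num) _ _ (homog_Dle (hc_homog 0 a0)) (homog_Dle (hc_homog 0 b0)) z2
      have w1 : a0 = 0 := by rw [hc_zero_eq da0, y3]
      have w2 : b0 = 0 := by rw [hc_zero_eq db0, y4]
      apply hD0
      rw [w1, w2] at h5
      linear_combination -h5

end TPk

end Run7.h256
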