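import Mathlib
import Pool.Agent.Run7.h256.W7
import Pool.Agent.Run7.h256.Y2

set_option autoImplicit false

namespace Run7.h256

open MvPolynomial

/-! ### transport of curves to another chart -/

lemma ev_homog {n : ℕ} {F : RP} (hF : F.IsHomogeneous n) (U : PowerSeries ℝ) (Γ : Fin 2 → PowerSeries ℝ) :
    ev (fun i => U * Γ i) F = U ^ n * ev Γ F := by
  conv_lhs => rw [F.as_sum]
  conv_rhs => rw [F.as_sum]
  rw [map_sum, map_sum, Finset.mul_sum]
  apply Finset.sum_congr rfl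
  intro s hs
  have h1 : s 0 + s 1 = n := by
    by_contra hne
    rw [mem_support_iff] at hs
    apply hs
    apply hF.coeff_eq_zero
    rw [Finsupp.degree_eq_sum, Fin.sum_univ_two]
    exact hne
  unfold ev
  rw [aeval_monomial, aeval_monomial, Finsupp.prod_fintype _ _ (fun i => pow_zero _), Fin.prod_univ_two,
    Finsupp.prod_fintype _ _ (fun i => pow_zero _), Fin.prod_univ_two, ← h1]
  ring

lemma ev_om (δ : Fin 2 → ℝ) (Γ : Fin 2 → PowerSeries ℝ) :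
    ev Γ (om δ) = 1 - (PowerSeries.C (δ 0) * Γ 0 + PowerSeries.C (δ 1) * Γ 1) := by
  unfold om
  rw [map_sub, map_one, map_add, map_mul, map_mul, ev_C, ev_C, ev_X, ev_X]

lemma ev_TT {δ : Fin 2 → ℝ} {d : ℕ} {F : RP} (hF : Dle d F) {U : PowerSeries ℝ} {Γ : Fin 2 → PowerSeries ℝ}
    (hU : ev (fun i => U * Γ i) (om δ) = U) :
    ev (fun i => U * Γ i) (TT δ d F) = U ^ d * ev Γ F := by
  rw [TT_sum hF]
  conv_rhs => rw [sum_hc hF]
  rw [map_sum, map_sum, Finset.mul_sum]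
  apply Finset.sum_congr rfl
  intro j hj
  rw [Finset.mem_range] at hj
  rw [map_mul, map_pow, hU, ev_homog (hc_homog j F), ← mul_assoc, ← pow_add]
  congr 2
  omega

lemma ps_c1 (F G : PowerSeries ℝ) : PowerSeries.coeff 1 (F * G) =
    PowerSeries.coeff 0 F * PowerSeries.coeff 1 G + PowerSeries.coeff 1 F * PowerSeries.coeff 0 G := by
  rw [PowerSeries.coeff_mul]
  simp [Finset.Nat.antidiagonal_succ]

/-- the scaling factor -/
noncomputable def Ufac (δ : Fin 2 → ℝ) (Γ : Fin 2 → PowerSeries ℝ) : PowerSeries ℝ :=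
  (1 + (PowerSeries.C (δ 0) * Γ 0 + PowerSeries.C (δ 1) * Γ 1))⁻¹

/-- the curve in the other chart -/
noncomputable def GT (δ : Fin 2 → ℝ) (Γ : Fin 2 → PowerSeries ℝ) : Fin 2 → PowerSeries ℝ :=
  fun i => Ufac δ Γ * Γ i

namespace Nc

variable {P Q : RP} {s : Fin 2 → ℝ} {Γ : Fin 2 → PowerSeries ℝ} {c : ℝ} {δ : Fin 2 → ℝ}

lemma W0 (hb : ∀ i, PowerSeries.coeff 0 (Γ i) = s i) :
    PowerSeries.constantCoeff (1 + (PowerSeries.C (δ 0) * Γ 0 + PowerSeries.C (δ 1) * Γ 1)) =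
      1 + (δ 0 * s 0 + δ 1 * s 1) := by
  have h0 : PowerSeries.constantCoeff (Γ 0) = s 0 := by
    rw [← PowerSeries.coeff_zero_eq_constantCoeff_apply]; exact hb 0
  have h1 : PowerSeries.constantCoeff (Γ 1) = s 1 := by
    rw [← PowerSeries.coeff_zero_eq_constantCoeff_apply]; exact hb 1
  simp [h0, h1]

lemma U_mul (hb : ∀ i, PowerSeries.coeff 0 (Γ i) = s i) (hw : 1 + (δ 0 * s 0 + δ 1 * s 1) ≠ 0) :
    Ufac δ Γ * (1 + (PowerSeries.C (δ 0) * Γ 0 + PowerSeries.C (δ 1) * Γ 1)) = 1 := by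
  unfold Ufac
  apply PowerSeries.inv_mul_cancel
  rw [W0 hb]; exact hw

lemma ev_om_GT (hb : ∀ i, PowerSeries.coeff 0 (Γ i) = s i) (hw : 1 + (δ 0 * s 0 + δ 1 * s 1) ≠ 0) :
    ev (fun i => Ufac δ Γ * Γ i) (om δ) = Ufac δ Γ := by
  rw [ev_om]
  have := U_mul (δ := δ) hb hw
  linear_combination -this

lemma coeffs_U (hb : ∀ i, PowerSeries.coeff 0 (Γ i) = s i) (hw : 1 + (δ 0 * s 0 + δ 1 * s 1) ≠ 0) :
    PowerSeries.coeff 0 (Ufac δ Γ) = (1 + (δ 0 * s 0 + δ 1 * s 1))⁻¹ ∧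
    PowerSeries.coeff 1 (Ufac δ Γ) = -(δ 0 * PowerSeries.coeff 1 (Γ 0) + δ 1 * PowerSeries.coeff 1 (Γ 1)) *
      ((1 + (δ 0 * s 0 + δ 1 * s 1))⁻¹) ^ 2 := by
  have h1 := U_mul (δ := δ) hb hw
  have e0 := congrArg (PowerSeries.coeff 0) h1
  have e1 := congrArg (PowerSeries.coeff 1) h1
  have g0 : PowerSeries.constantCoeff (Γ 0) = s 0 := by
    rw [← PowerSeries.coeff_zero_eq_constantCoeff_apply]; exact hb 0
  have g1 : PowerSeries.constantCoeff (Γ 1) = s 1 := by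
    rw [← PowerSeries.coeff_zero_eq_constantCoeff_apply]; exact hb 1
  rw [PowerSeries.coeff_mul] at e0 e1
  simp [Finset.Nat.antidiagonal_succ, PowerSeries.coeff_one, g0, g1] at e0 e1
  have hu : PowerSeries.constantCoeff (Ufac δ Γ) = (1 + (δ 0 * s 0 + δ 1 * s 1))⁻¹ :=
    eq_inv_of_mul_eq_one_left e0
  rw [PowerSeries.coeff_zero_eq_constantCoeff_apply]
  refine ⟨hu, ?_⟩
  rw [hu] at e1
  field_simp at e1 ⊢
  linear_combination e1

/-- transport -/
theorem TT (h : Nc P Q s Γ c) (hP : Dle 4 P) (hQ : Dle 4 Q) (hw : 0 < 1 + (δ 0 * s 0 + δ 1 * s 1)) :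
    Nc (TT δ 4 P) (TT δ 4 Q) (tp δ s) (GT δ Γ) (c / (1 + (δ 0 * s 0 + δ 1 * s 1)) ^ 5) := by
  obtain ⟨w, hw'⟩ : ∃ w, w = 1 + (δ 0 * s 0 + δ 1 * s 1) := ⟨_, rfl⟩
  have hw0 : w ≠ 0 := by rw [hw']; exact hw.ne'
  obtain ⟨c0, c1⟩ := coeffs_U (δ := δ) h.base hw.ne'
  rw [← hw'] at c0 c1 ⊢
  have hom := ev_om_GT (δ := δ) h.base hw.ne'
  have cc0 : ∀ i, PowerSeries.coeff 0 (GT δ Γ i) = w⁻¹ * s i := by
    intro i
    unfold GT
    rw [PowerSeries.coeff_mul]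
    simp only [Finset.Nat.antidiagonal_zero, Finset.sum_singleton]
    rw [c0, h.base]
  have cc1 : ∀ i, PowerSeries.coeff 1 (GT δ Γ i) = w⁻¹ * PowerSeries.coeff 1 (Γ i) -
      (δ 0 * PowerSeries.coeff 1 (Γ 0) + δ 1 * PowerSeries.coeff 1 (Γ 1)) * w⁻¹ ^ 2 * s i := by
    intro i
    unfold GT
    rw [ps_c1, c0, c1, h.base]
    ring
  have evT : ∀ (d : ℕ) (F : RP), Dle d F → ev (GT δ Γ) (Run7.h256.TT δ d F) = Ufac δ Γ ^ d * ev Γ F :=
    fun d F hF => ev_TT hF hom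
  refine ⟨?_, ?_, ?_, ?_, ?_⟩
  · intro i
    rw [cc0]
    unfold tp
    rw [← hw']
    field_simp
  · by_contra hcon
    push Not at hcon
    obtain ⟨k0, k1⟩ := hcon
    rw [cc1] at k0 k1
    obtain ⟨v0, hv0⟩ : ∃ v0, v0 = PowerSeries.coeff 1 (Γ 0) := ⟨_, rfl⟩
    obtain ⟨v1, hv1⟩ : ∃ v1, v1 = PowerSeries.coeff 1 (Γ 1) := ⟨_, rfl⟩
    have hd := h.dir
    rw [← hv0, ← hv1] at k0 k1 hd
    have m0 : w * v0 = (δ 0 * v0 + δ 1 * v1) * s 0 := by
      field_simp at k0; linear_combination k0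
    have m1 : w * v1 = (δ 0 * v0 + δ 1 * v1) * s 1 := by
      field_simp at k1; linear_combination k1
    have m2 : δ 0 * v0 + δ 1 * v1 = 0 := by
      have : (δ 0 * v0 + δ 1 * v1) * (w - (δ 0 * s 0 + δ 1 * s 1)) = 0 := by
        linear_combination δ 0 * m0 + δ 1 * m1
      have h2 : w - (δ 0 * s 0 + δ 1 * s 1) = 1 := by rw [hw']; ring
      rw [h2, mul_one] at this
      exact this
    rw [m2, zero_mul] at m0 m1
    rcases hd with h1 | h1
    · exact h1 ((mul_eq_zero.1 m0).resolve_left hw0)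
    · exact h1 ((mul_eq_zero.1 m1).resolve_left hw0)
  · intro j hj
    rw [ph_apply, evT 4 P hP]
    have h3 : PowerSeries.X ^ 3 ∣ ev Γ P := by
      rw [PowerSeries.X_pow_dvd_iff]
      intro m hm; exact h.Pz m (by omega)
    exact (PowerSeries.X_pow_dvd_iff.1 (Dvd.dvd.mul_left h3 (Ufac δ Γ ^ 4))) j (by omega)
  · intro j hj
    rw [ph_apply, evT 4 Q hQ]
    have h3 : PowerSeries.X ^ 3 ∣ ev Γ Q := by
      rw [PowerSeries.X_pow_dvd_iff]
      intro m hm; exact h.Qz m (by omega)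
    exact (PowerSeries.X_pow_dvd_iff.1 (Dvd.dvd.mul_left h3 (Ufac δ Γ ^ 4))) j (by omega)
  · obtain ⟨A, B, hA, hB, eP⟩ := dec_at 3 P hP s
    obtain ⟨A', B', hA', hB', eQ⟩ := dec_at 3 Q hQ s
    have hPs : eval s P = 0 := by rw [← h.ev0]; exact h.Pz 0 (by norm_num)
    have hQs : eval s Q = 0 := by rw [← h.ev0]; exact h.Qz 0 (by norm_num)
    rw [hPs, C_0, sub_zero] at eP
    rw [hQs, C_0, sub_zero] at eQ
    have hc := h.sgn_all eP eQ
    have dX : ∀ i : Fin 2, Dle 1 (X i - C (s i) : RP) := fun i =>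
      (Dle.X le_rfl i).sub (Dle.C _)
    have t1 : ∀ i : Fin 2, Run7.h256.TT δ 1 (X i - C (s i)) = X i - C (s i) * om δ := by
      intro i
      rw [TT_sub, TT_homog (isHomogeneous_X ℝ i), TT_C, pow_one]
    have hTP : Run7.h256.TT δ 4 P = (X 0 - C (s 0) * om δ) * Run7.h256.TT δ 3 A +
        (X 1 - C (s 1) * om δ) * Run7.h256.TT δ 3 B := by
      have e1 := TT_mul (δ := δ) (dX 0) hA
      have e2 := TT_mul (δ := δ) (dX 1) hB
      rw [t1] at e1 e2
      rw [eP, TT_add, ← e1, ← e2]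
    have hTQ : Run7.h256.TT δ 4 Q = (X 0 - C (s 0) * om δ) * Run7.h256.TT δ 3 A' +
        (X 1 - C (s 1) * om δ) * Run7.h256.TT δ 3 B' := by
      have e1 := TT_mul (δ := δ) (dX 0) hA'
      have e2 := TT_mul (δ := δ) (dX 1) hB'
      rw [t1] at e1 e2
      rw [eQ, TT_add, ← e1, ← e2]
    have b0 : (X 0 - C (s 0) * om δ : RP) = C (1 + s 0 * δ 0) * (X 0 - C (tp δ s 0)) +
        C (s 0 * δ 1) * (X 1 - C (tp δ s 1)) := by
      have : s 0 = (1 + s 0 * δ 0) * tp δ s 0 + s 0 * δ 1 * tp δ s 1 := by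
        unfold tp
        rw [← hw']
        field_simp
        rw [hw']; ring
      have h2 := congrArg (C : ℝ → RP) this
      simp only [C_add, C_mul, C_1] at h2 ⊢
      unfold om
      linear_combination -h2
    have b1 : (X 1 - C (s 1) * om δ : RP) = C (s 1 * δ 0) * (X 0 - C (tp δ s 0)) +
        C (1 + s 1 * δ 1) * (X 1 - C (tp δ s 1)) := by
      have : s 1 = (s 1 * δ 0) * tp δ s 0 + (1 + s 1 * δ 1) * tp δ s 1 := by
        unfold tp
        rw [← hw']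
        field_simp
        rw [hw']; ring
      have h2 := congrArg (C : ℝ → RP) this
      simp only [C_add, C_mul, C_1] at h2 ⊢
      unfold om
      linear_combination -h2
    refine ⟨C (1 + s 0 * δ 0) * Run7.h256.TT δ 3 A + C (s 1 * δ 0) * Run7.h256.TT δ 3 B,
      C (s 0 * δ 1) * Run7.h256.TT δ 3 A + C (1 + s 1 * δ 1) * Run7.h256.TT δ 3 B,
      C (1 + s 0 * δ 0) * Run7.h256.TT δ 3 A' + C (s 1 * δ 0) * Run7.h256.TT δ 3 B',
      C (s 0 * δ 1) * Run7.h256.TT δ 3 A' + C (1 + s 1 * δ 1) * Run7.h256.TT δ 3 B', ?_, ?_, ?_⟩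
    · rw [hTP, b0, b1]; ring
    · rw [hTQ, b0, b1]; ring
    · have hdet : (C (1 + s 0 * δ 0) * Run7.h256.TT δ 3 A + C (s 1 * δ 0) * Run7.h256.TT δ 3 B) *
          (C (s 0 * δ 1) * Run7.h256.TT δ 3 A' + C (1 + s 1 * δ 1) * Run7.h256.TT δ 3 B') -
          (C (s 0 * δ 1) * Run7.h256.TT δ 3 A + C (1 + s 1 * δ 1) * Run7.h256.TT δ 3 B) *
          (C (1 + s 0 * δ 0) * Run7.h256.TT δ 3 A' + C (s 1 * δ 0) * Run7.h256.TT δ 3 B') =
          C w * Run7.h256.TT δ 6 (A * B' - B * A') := by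
        have e1 : Run7.h256.TT δ 6 (A * B') = Run7.h256.TT δ 3 A * Run7.h256.TT δ 3 B' := TT_mul (δ := δ) hA hB'
        have e2 : Run7.h256.TT δ 6 (B * A') = Run7.h256.TT δ 3 B * Run7.h256.TT δ 3 A' := TT_mul (δ := δ) hB hA'
        rw [TT_sub, e1, e2, hw']
        simp only [C_add, C_mul, C_1]
        ring
      rw [hdet, ph_Cmul, ph_apply, evT 6 _ ((hA.mul hB' (by omega)).sub (hB.mul hA' (by omega)))]
      -- the first two coefficients vanish
      obtain ⟨W, hW⟩ : ∃ W, W = A * B' - B * A' := ⟨_, rfl⟩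
      rw [← hW] at hc ⊢
      have z := h.delta01 eP eQ
      rw [← hW] at z
      have hX2 : PowerSeries.X ^ 2 ∣ ev Γ W := by
        rw [PowerSeries.X_pow_dvd_iff]
        intro m hm
        interval_cases m
        · exact z.1
        · exact z.2
      obtain ⟨V, hV⟩ := hX2
      have hV0 : PowerSeries.constantCoeff V = c := by
        rw [← hc, ph_apply, hV, ← PowerSeries.coeff_zero_eq_constantCoeff_apply]
        have := PowerSeries.coeff_X_pow_mul V 2 0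
        rw [zero_add] at this
        rw [this]
      have hk : Ufac δ Γ ^ 6 * ev Γ W = PowerSeries.X ^ 2 * (Ufac δ Γ ^ 6 * V) := by rw [hV]; ring
      rw [hk]
      have := PowerSeries.coeff_X_pow_mul (Ufac δ Γ ^ 6 * V) 2 0
      rw [zero_add] at this
      rw [this, PowerSeries.coeff_zero_eq_constantCoeff_apply, map_mul, map_pow, hV0]
      rw [PowerSeries.coeff_zero_eq_constantCoeff_apply] at c0
      rw [c0]
      field_simp

end Nc

end Run7.h256
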