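import Mathlib
import Pool.Agent.Run7.h256.X2
import Pool.Agent.Run7.h256.Y5
import Pool.Agent.Run7.h256.Y7

set_option autoImplicit false

namespace Run7.h256

open MvPolynomial

/-- a generic line at infinity -/
structure T0c (P Q : RP) (δ : Fin 2 → ℝ) : Prop where
  hP : Dle 4 P
  hQ : Dle 4 Q
  P4 : ¬ (Dle 3 P ∧ Dle 3 Q)
  d0 : δ 0 ≠ 0
  e0 : E0 (TT δ 4 P) (TT δ 4 Q)

namespace T0c

variable {P Q : RP} {δ : Fin 2 → ℝ}

lemma top_ne (h : T0c P Q δ) : ¬ (hc 4 P = 0 ∧ hc 4 Q = 0) := by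
  rintro ⟨h1, h2⟩
  apply h.P4
  constructor
  · have := sub_hcD (n := 3) h.hP
    rwa [h1, sub_zero] at this
  · have := sub_hcD (n := 3) h.hQ
    rwa [h2, sub_zero] at this

/-- the extra element attached to a common factor of the top forms -/
lemma Rt (h : T0c P Q δ) {e : ℕ} {g p' q' : RP} (he1 : 1 ≤ e) (he : e ≤ 4)
    (hp' : p'.IsHomogeneous (4 - e)) (hq' : q'.IsHomogeneous (4 - e)) (ep : hc 4 P = g * p')
    (eq : hc 4 Q = g * q') :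
    ∃ R : RP, Dle (7 - e) R ∧ R ∉ II (TT δ 4 P) (TT δ 4 Q) ∧ om δ * R ∈ II (TT δ 4 P) (TT δ 4 Q) := by
  have dP : Dle 3 (P - hc 4 P) := sub_hc_Dle h.hP
  have dQ : Dle 3 (Q - hc 4 Q) := sub_hc_Dle h.hQ
  have dp' : Dle (4 - e) p' := homog_Dle hp'
  have dq' : Dle (4 - e) q' := homog_Dle hq'
  have dR : Dle (7 - e) (q' * P - p' * Q) := by
    have : q' * P - p' * Q = q' * (P - hc 4 P) - p' * (Q - hc 4 Q) := by rw [ep, eq]; ring
    rw [this]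
    exact (dq'.mul dP (by omega)).sub (dp'.mul dQ (by omega))
  have hω : om δ * TT δ (7 - e) (q' * P - p' * Q) = q' * TT δ 4 P - p' * TT δ 4 Q := by
    have e1 := TT_succ (δ := δ) dR 1
    have e2 := TT_mul (δ := δ) dq' h.hP
    have e3 := TT_mul (δ := δ) dp' h.hQ
    rw [TT_homog hq'] at e2
    rw [TT_homog hp'] at e3
    rw [pow_one] at e1
    rw [← e1, ← e2, ← e3, show 7 - e + 1 = 4 - e + 4 by omega, TT_sub]
  refine ⟨TT δ (7 - e) (q' * P - p' * Q), Dle_TT dR, ?_, ?_⟩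
  · intro hmem
    obtain ⟨u, v, hu, hv, huv⟩ := h.e0.mem_red (n := 3 - e) hmem ((Dle_TT dR).mono (by omega))
    have dom := Dle_om δ
    have h1 : (q' - om δ * u) * TT δ 4 P + (-(p' + om δ * v)) * TT δ 4 Q = 0 := by
      linear_combination (-1 : RP) * hω - om δ * huv
    obtain ⟨h2, h3⟩ := h.e0.inj3 3 le_rfl _ _ ((dq'.mono (by omega)).sub (dom.mul hu (by omega)))
      (((dp'.mono (by omega)).add (dom.mul hv (by omega))).neg) (by rw [h1]; exact Dle.zero)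
    have h4 : q' = 0 := hom_om hq' h.d0 (u := u) (by linear_combination h2)
    have h5 : p' = 0 := hom_om hp' h.d0 (u := -v) (by linear_combination -h3)
    exact h.top_ne ⟨by rw [ep, h5, mul_zero], by rw [eq, h4, mul_zero]⟩
  · rw [hω]
    exact Ideal.sub_mem _ (II_P _ _ q') (II_Q _ _ p')

/-- splitting off a common factor of the top forms -/
lemma facR (h : T0c P Q δ) {g : RP} (hg1 : g ∣ hc 4 P) (hg2 : g ∣ hc 4 Q) :
    g.totalDegree ≤ 4 ∧ ∃ p' q' : RP, p'.IsHomogeneous (4 - g.totalDegree) ∧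
      q'.IsHomogeneous (4 - g.totalDegree) ∧ hc 4 P = hc g.totalDegree g * p' ∧
      hc 4 Q = hc g.totalDegree g * q' := by
  obtain ⟨A, hA⟩ := hg1
  obtain ⟨B, hB⟩ := hg2
  have hg0 : g ≠ 0 := by
    rintro rfl
    rw [zero_mul] at hA hB
    exact h.top_ne ⟨hA, hB⟩
  have key : ∀ F A : RP, F.IsHomogeneous 4 → F = g * A → F ≠ 0 → g.totalDegree ≤ 4 := by
    intro F A hF hFA hF0
    have hA0 : A ≠ 0 := by rintro rfl; exact hF0 (by rw [hFA, mul_zero])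
    have h1 := hF.totalDegree hF0
    rw [hFA, totalDegree_mul_eq hg0 hA0] at h1
    omega
  have he : g.totalDegree ≤ 4 := by
    by_cases hp : hc 4 P = 0
    · have hq : hc 4 Q ≠ 0 := fun hq => h.top_ne ⟨hp, hq⟩
      exact key _ _ (hc_homog 4 Q) hB hq
    · exact key _ _ (hc_homog 4 P) hA hp
  have key2 : ∀ F A : RP, F.IsHomogeneous 4 → F = g * A → F = hc g.totalDegree g * hc (4 - g.totalDegree) A := by
    intro F A hF hFA
    have dA : Dle (4 - g.totalDegree) A := by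
      by_cases hA0 : A = 0
      · rw [hA0]; exact Dle.zero
      · have h1 : Dle 4 F := homog_Dle hF
        rw [hFA] at h1
        unfold Dle at *
        rw [totalDegree_mul_eq hg0 hA0] at h1
        omega
    have dg : Dle g.totalDegree g := le_refl g.totalDegree
    have h2 := hc_mul_top dg dA
    rw [← hFA, show g.totalDegree + (4 - g.totalDegree) = 4 by omega, hc_self hF] at h2
    exact h2
  exact ⟨he, _, _, hc_homog _ A, hc_homog _ B, key2 _ _ (hc_homog 4 P) hA, key2 _ _ (hc_homog 4 Q) hB⟩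


lemma nd (h : T0c P Q δ) (hnr : ¬ IsRelPrime (hc 4 P) (hc 4 Q)) :
    ∃ R : RP, R ∉ II (TT δ 4 P) (TT δ 4 Q) ∧ om δ * R ∈ II (TT δ 4 P) (TT δ 4 Q) := by
  obtain ⟨g, hg1, hg2, hgu⟩ : ∃ g, g ∣ hc 4 P ∧ g ∣ hc 4 Q ∧ ¬ IsUnit g := by
    unfold IsRelPrime at hnr
    push Not at hnr
    obtain ⟨g, h1, h2, h3⟩ := hnr
    exact ⟨g, h1, h2, h3⟩
  have hg0 : g ≠ 0 := by
    rintro rfl
    rw [zero_dvd_iff] at hg1 hg2
    exact h.top_ne ⟨hg1, hg2⟩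
  have hgd : ¬ Dle 0 g := fun h0 => hgu (unit_of hg0 h0)
  obtain ⟨he, p', q', hp', hq', ep, eq⟩ := h.facR hg1 hg2
  obtain ⟨R, _, hR, hωR⟩ := h.Rt (e := g.totalDegree) (by unfold Dle at hgd; omega) he hp' hq' ep eq
  exact ⟨R, hR, hωR⟩

end T0c

/-- nine zeros with nonnegative Jacobian, one of them nondegenerate -/
structure S9 (P Q : RP) (S : Finset (Fin 2 → ℝ)) : Prop where
  hP : Dle 4 P
  hQ : Dle 4 Q
  rel : IsRelPrime P Q
  P4 : ¬ (Dle 3 P ∧ Dle 3 Q)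
  card : S.card = 9
  zero : ∀ p ∈ S, eval p P = 0 ∧ eval p Q = 0
  Jn : ∀ p ∈ S, 0 ≤ eval p (Jac P Q)
  ex : ∃ p ∈ S, 0 < eval p (Jac P Q)

namespace S9

variable {P Q : RP} {S : Finset (Fin 2 → ℝ)}

lemma Q_ne (h : S9 P Q S) : Q ≠ 0 := by
  rintro rfl
  obtain ⟨s, hs, hJ⟩ := h.ex
  unfold Jac at hJ
  simp at hJ

theorem chart (h : S9 P Q S) : ∃ δ L Δ, T0c P Q δ ∧ (∀ s ∈ S, 0 < 1 + (δ 0 * s 0 + δ 1 * s 1)) ∧
    Qk (TT δ 4 P) (TT δ 4 Q) L (S.image (tp δ)) Δ := by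
  classical
  obtain ⟨δ, d0, hw, g1, g2⟩ := exists_delta h.hP h.hQ h.rel h.Q_ne h.P4 S
  have he0 := E0_TT h.hP h.hQ g1 g2
  have hz : ∀ s ∈ S, ∀ F : RP, Dle 4 F → eval s F = 0 → eval (tp δ s) (TT δ 4 F) = 0 := by
    intro s hs F hF h0
    have := eval_TT_tp (δ := δ) hF (hw s hs).ne'
    rw [h0] at this
    exact (mul_eq_zero.1 this).resolve_right (pow_ne_zero 4 (hw s hs).ne')
  have hJT := fun s (hs : s ∈ S) => Jac_TT (δ := δ) h.hP h.hQ (h.zero s hs).1 (h.zero s hs).2 (hw s hs).ne'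
  obtain ⟨L, Δ, hq⟩ := exists_Qk (S := S.image (tp δ)) he0
    (by rw [Finset.card_image_of_injOn (tp_injOn hw), h.card])
    (by
      intro p hp
      obtain ⟨s, hs, rfl⟩ := Finset.mem_image.1 hp
      exact ⟨hz s hs P h.hP (h.zero s hs).1, hz s hs Q h.hQ (h.zero s hs).2⟩)
    (by
      intro p hp
      obtain ⟨s, hs, rfl⟩ := Finset.mem_image.1 hp
      have h2 := h.Jn s hs
      rw [← hJT s hs] at h2
      exact nonneg_of_mul_nonneg_left h2 (pow_pos (hw s hs) 5))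
    (by
      obtain ⟨s, hs, h2⟩ := h.ex
      refine ⟨tp δ s, Finset.mem_image_of_mem _ hs, ?_⟩
      rw [← hJT s hs] at h2
      exact pos_of_mul_pos_left h2 (pow_pos (hw s hs) 5).le)
  exact ⟨δ, L, Δ, ⟨h.hP, h.hQ, h.P4, d0, he0⟩, hw, hq⟩

/-- two curves are impossible -/
theorem two_false (h : S9 P Q S) {s1 s2 : Fin 2 → ℝ} (hs1 : s1 ∈ S) (hs2 : s2 ∈ S)
    {Γ1 Γ2 : Fin 2 → PowerSeries ℝ} {c1 c2 : ℝ} (n1 : Nc P Q s1 Γ1 c1) (n2 : Nc P Q s2 Γ2 c2)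
    (hc1 : 0 ≤ c1) (hc2 : 0 ≤ c2)
    (hsep : s1 ≠ s2 ∨ (s1 = s2 ∧ c1 = 0 ∧ c2 = 0 ∧ PowerSeries.coeff 1 (Γ1 0) * PowerSeries.coeff 1 (Γ2 1) -
      PowerSeries.coeff 1 (Γ1 1) * PowerSeries.coeff 1 (Γ2 0) ≠ 0)) : False := by
  obtain ⟨δ, L, Δ, ht, hw, hq⟩ := h.chart
  have w1 := hw s1 hs1
  have w2 := hw s2 hs2
  refine hq.two_false (Finset.mem_image_of_mem _ hs1) (Finset.mem_image_of_mem _ hs2) (n1.TT h.hP h.hQ w1)
    (n2.TT h.hP h.hQ w2) (div_nonneg hc1 (pow_pos w1 5).le) (div_nonneg hc2 (pow_pos w2 5).le) ?_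
  rcases hsep with hne | ⟨rfl, h1, h2, hdet⟩
  · left
    intro he
    exact hne (tp_injOn hw hs1 hs2 he)
  · right
    refine ⟨rfl, by rw [h1, zero_div], by rw [h2, zero_div], ?_⟩
    obtain ⟨a0, a1⟩ := Nc.coeffs_U (δ := δ) n1.base w1.ne'
    obtain ⟨b0, b1⟩ := Nc.coeffs_U (δ := δ) n2.base w1.ne'
    unfold GT
    rw [ps_c1, ps_c1, ps_c1, ps_c1, a0, a1, b0, b1, n1.base, n1.base, n2.base, n2.base]
    intro h0
    apply hdet
    obtain ⟨w, hw'⟩ : ∃ w, w = 1 + (δ 0 * s1 0 + δ 1 * s1 1) := ⟨_, rfl⟩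
    rw [← hw'] at h0 w1
    have hw0 := w1.ne'
    field_simp at h0
    have h3 : w * (PowerSeries.coeff 1 (Γ1 0) * PowerSeries.coeff 1 (Γ2 1) -
      PowerSeries.coeff 1 (Γ1 1) * PowerSeries.coeff 1 (Γ2 0)) * (w - (δ 0 * s1 0 + δ 1 * s1 1)) = 0 := by
      linear_combination h0
    have h4 : w - (δ 0 * s1 0 + δ 1 * s1 1) = 1 := by rw [hw']; ring
    rw [h4, mul_one] at h3
    exact (mul_eq_zero.1 h3).resolve_left hw0

/-- one curve: there are no zeros at infinity and the divergence is transversal -/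
theorem one (h : S9 P Q S) {s9 : Fin 2 → ℝ} (h9 : s9 ∈ S) {Γ : Fin 2 → PowerSeries ℝ} {c : ℝ}
    (hn : Nc P Q s9 Γ c) (hc : 0 ≤ c) (hJ : ∀ s ∈ S, s ≠ s9 → 0 < eval s (Jac P Q)) {D : RP}
    (hD : Dle 3 D) (hD0 : D ≠ 0) (hDS : ∀ s ∈ S, eval s D = 0) (hcb : ph Γ 1 D ≠ 0 → 0 < c) :
    E0 P Q ∧ ph Γ 1 D ≠ 0 ∧ 0 < c := by
  obtain ⟨δ, L, Δ, ht, hw, hq⟩ := h.chart
  have w9 := hw s9 h9
  have hn' := hn.TT h.hP h.hQ w9
  obtain ⟨τ, hτ1, hτ2⟩ := hq.exists_tau hn'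
  have hr : Rk (TT δ 4 P) (TT δ 4 Q) L (S.image (tp δ)) Δ (tp δ s9) (GT δ Γ)
      (c / (1 + (δ 0 * s9 0 + δ 1 * s9 1)) ^ 5) τ := by
    refine ⟨hq, Finset.mem_image_of_mem _ h9, hn', div_nonneg hc (pow_pos w9 5).le, hτ1, hτ2, ?_⟩
    intro p hp hne
    obtain ⟨s, hs, rfl⟩ := Finset.mem_image.1 hp
    have h2 := hJ s hs (fun h0 => hne (by rw [h0]))
    rw [← Jac_TT (δ := δ) h.hP h.hQ (h.zero s hs).1 (h.zero s hs).2 (hw s hs).ne'] at h2
    exact pos_of_mul_pos_left h2 (pow_pos (hw s hs) 5).le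
  have hb : ph Γ 1 D ≠ 0 := by
    intro h0
    apply hD0
    apply TT_inj (δ := δ) hD
    apply hr.N2 (Dle_TT hD)
    · intro p hp
      obtain ⟨s, hs, rfl⟩ := Finset.mem_image.1 hp
      have := eval_TT_tp (δ := δ) hD (hw s hs).ne'
      rw [hDS s hs] at this
      exact (mul_eq_zero.1 this).resolve_right (pow_ne_zero 3 (hw s hs).ne')
    · have e : ev (GT δ Γ) (TT δ 3 D) = Ufac δ Γ ^ 3 * ev Γ D :=
        ev_TT hD (Nc.ev_om_GT (δ := δ) hn.base w9.ne')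
      rw [ph_apply, e, ps_c1]
      have e1 : PowerSeries.coeff 1 (ev Γ D) = 0 := h0
      have e2 : PowerSeries.coeff 0 (ev Γ D) = 0 := by
        have := hn.ev0 D
        rw [hDS s9 h9] at this
        exact this
      rw [e1, e2]; ring
  have hc' := hcb hb
  refine ⟨?_, hb, hc'⟩
  refine ⟨h.hP, h.hQ, ?_⟩
  by_contra hnr
  obtain ⟨R, hR, hωR⟩ := ht.nd hnr
  apply hR
  apply hr.tw (div_pos hc' (pow_pos w9 5)) (Dle_om δ) _ hωR
  intro p hp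
  obtain ⟨s, hs, rfl⟩ := Finset.mem_image.1 hp
  have h1 := eval_om_tp (δ := δ) (hw s hs).ne'
  have h2 : 0 < eval (tp δ s) (om δ) * (1 + (δ 0 * s 0 + δ 1 * s 1)) := by rw [h1]; norm_num
  exact pos_of_mul_pos_left h2 (hw s hs).le

end S9

end Run7.h256
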