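import Mathlib
import Pool.Agent.Run7.h256.Y7

set_option autoImplicit false

namespace Run7.h256

open MvPolynomial

lemma ph_base {s : Fin 2 → ℝ} {Γ : Fin 2 → PowerSeries ℝ} (hb : ∀ i, PowerSeries.coeff 0 (Γ i) = s i)
    (F : RP) : ph Γ 0 F = eval s F := by
  induction F using MvPolynomial.induction_on with
  | C a => rw [ph_C0, eval_C]
  | add p q hp hq => rw [map_add, map_add, hp, hq]
  | mul_X p i hp => rw [ph0, hp, ph_X, hb, map_mul, eval_X]

/-- counting zeros, some of them twice -/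
theorem mult_count {P Q : RP} (hrel : IsRelPrime P Q) (hQ0 : Q ≠ 0) (T B : Finset (Fin 2 → ℝ)) (hB : B ⊆ T)
    (hz : ∀ s ∈ T, eval s P = 0 ∧ eval s Q = 0) (Γ : (Fin 2 → ℝ) → Fin 2 → PowerSeries ℝ)
    (hb : ∀ s ∈ B, ∀ i, PowerSeries.coeff 0 (Γ s i) = s i) (hd : ∀ s ∈ B, ∃ i, PowerSeries.coeff 1 (Γ s i) ≠ 0)
    (hP1 : ∀ s ∈ B, ph (Γ s) 1 P = 0) (hQ1 : ∀ s ∈ B, ph (Γ s) 1 Q = 0) :
    T.card + B.card ≤ P.totalDegree * Q.totalDegree := by
  classical
  choose A hA1 hA2 hA3 using exists_sep (k := ℝ) T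
  obtain ⟨N, hN⟩ : ∃ N, N = 2 * T.card + 1 := ⟨_, rfl⟩
  obtain ⟨M, hM⟩ : ∃ M : Pl ℝ (P.totalDegree + Q.totalDegree + N) →ₗ[ℝ] (T ⊕ B → ℝ),
      ∀ G, M G = Sum.elim (fun s : T => eval s.1 G.1) (fun s : B => ph (Γ s.1) 1 G.1) := by
    refine ⟨LinearMap.pi (fun x => Sum.elim (fun s : T => (MvPolynomial.aeval s.1).toLinearMap.comp
      (Pl ℝ (P.totalDegree + Q.totalDegree + N)).subtype) (fun s : B => (ph (Γ s.1) 1).comp
      (Pl ℝ (P.totalDegree + Q.totalDegree + N)).subtype) x), ?_⟩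
    intro G
    ext x
    rcases x with s | s
    · simp [MvPolynomial.aeval_eq_eval]
    · simp
  have h1 := ci_count hrel hQ0 rfl rfl (N := N) (ι := T ⊕ B) M (by
      intro c
      -- local pieces
      have hloc : ∀ s : T, ∃ F : RP, Dle 1 F ∧ eval s.1 (A s.1 * A s.1 * F) = c (Sum.inl s) ∧
          ∀ hs : s.1 ∈ B, ph (Γ s.1) 1 (A s.1 * A s.1 * F) = c (Sum.inr ⟨s.1, hs⟩) := by
        intro s
        have hE : eval s.1 (A s.1 * A s.1) ≠ 0 := by
          rw [map_mul]; exact mul_ne_zero (hA2 s.1) (hA2 s.1)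
        by_cases hs : s.1 ∈ B
        · obtain ⟨i, hi⟩ := hd s.1 hs
          obtain ⟨α, hα⟩ : ∃ α, α = c (Sum.inl s) / eval s.1 (A s.1 * A s.1) := ⟨_, rfl⟩
          obtain ⟨β, hβ⟩ : ∃ β, β = (c (Sum.inr ⟨s.1, hs⟩) - ph (Γ s.1) 1 (A s.1 * A s.1) * α) /
            (eval s.1 (A s.1 * A s.1) * PowerSeries.coeff 1 (Γ s.1 i)) := ⟨_, rfl⟩
          refine ⟨C α + C β * (X i - C (s.1 i)), ?_, ?_, ?_⟩
          · exact (Dle.C _).add ((Dle.C (n := 0) β).mul ((Dle.X le_rfl i).sub (Dle.C _)) (by omega))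
          · have e0 : eval s.1 (C α + C β * (X i - C (s.1 i))) = α := by simp
            rw [map_mul _ (A s.1 * A s.1), e0, hα, mul_div_cancel₀ _ hE]
          · intro _
            have e1 : ph (Γ s.1) 1 (C α + C β * (X i - C (s.1 i))) = β * PowerSeries.coeff 1 (Γ s.1 i) := by
              rw [map_add, ph_C1 _ _ _ (by norm_num), ph_Cmul, map_sub, ph_X, ph_C1 _ _ _ (by norm_num)]
              ring
            have e0 : eval s.1 (C α + C β * (X i - C (s.1 i))) = α := by simp
            rw [ph1, e1, ph_base (hb s.1 hs), ph_base (hb s.1 hs), e0, hβ]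
            field_simp
            ring
        · refine ⟨C (c (Sum.inl s) / eval s.1 (A s.1 * A s.1)), Dle.C _, ?_, fun h => absurd h hs⟩
          rw [map_mul _ (A s.1 * A s.1), eval_C]
          field_simp
      choose F hF1 hF2 hF3 using hloc
      refine ⟨⟨∑ s : T, A s.1 * A s.1 * F s, mem_Pl.2 ?_⟩, ?_⟩
      · refine le_trans (totalDegree_finsetSum _ _) ?_
        apply Finset.sup_le
        intro s _
        have d1 : Dle (T.card - 1) (A s.1) := by
          have := hA1 s.1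
          rwa [Finset.card_erase_of_mem s.2] at this
        have hpos : 0 < T.card := Finset.card_pos.2 ⟨s.1, s.2⟩
        have d2 : Dle (2 * (T.card - 1)) (A s.1 * A s.1) := d1.mul d1 (by omega)
        exact d2.mul (hF1 s) (by omega)
      · rw [hM]
        ext x
        rcases x with t | t
        · show eval t.1 (∑ s : T, A s.1 * A s.1 * F s) = _
          rw [map_sum, Finset.sum_eq_single t]
          · exact hF2 t
          · intro s _ hst
            have : eval t.1 (A s.1) = 0 := hA3 s.1 t.1 t.2 (fun h => hst (Subtype.ext h.symm))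
            rw [map_mul, map_mul, this]; ring
          · intro h1; exact absurd (Finset.mem_univ _) h1
        · show ph (Γ t.1) 1 (∑ s : T, A s.1 * A s.1 * F s) = _
          rw [map_sum, Finset.sum_eq_single ⟨t.1, hB t.2⟩]
          · exact hF3 ⟨t.1, hB t.2⟩ t.2
          · intro s _ hst
            have h0 : eval t.1 (A s.1) = 0 := hA3 s.1 t.1 (hB t.2) (fun h => hst (Subtype.ext h.symm))
            rw [ph1, ph1 _ (A s.1), ph0, ph_base (hb t.1 t.2) (A s.1), h0]; ring
          · intro h1; exact absurd (Finset.mem_univ _) h1) (by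
      intro G u v he
      rw [hM, he]
      ext x
      rcases x with t | t
      · show eval t.1 (u * P + v * Q) = 0
        rw [map_add, map_mul, map_mul, (hz t.1 t.2).1, (hz t.1 t.2).2]; ring
      · show ph (Γ t.1) 1 (u * P + v * Q) = 0
        rw [map_add, ph1, ph1, hP1 t.1 t.2, hQ1 t.1 t.2, ph_base (hb t.1 t.2), ph_base (hb t.1 t.2) P,
          ph_base (hb t.1 t.2), ph_base (hb t.1 t.2) Q, (hz t.1 (hB t.2)).1, (hz t.1 (hB t.2)).2]
        ring)
  rw [Fintype.card_sum, Fintype.card_coe, Fintype.card_coe] at h1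
  exact h1

/-- the straight line through a point -/
noncomputable def sl (s v : Fin 2 → ℝ) : Fin 2 → PowerSeries ℝ :=
  fun i => PowerSeries.C (s i) + PowerSeries.C (v i) * PowerSeries.X

lemma sl0 (s v : Fin 2 → ℝ) (i : Fin 2) : PowerSeries.coeff 0 (sl s v i) = s i := by
  unfold sl; simp

lemma sl1 (s v : Fin 2 → ℝ) (i : Fin 2) : PowerSeries.coeff 1 (sl s v i) = v i := by
  unfold sl
  rw [map_add, ps_c1]
  simp [PowerSeries.coeff_C]

lemma sl2 (s v : Fin 2 → ℝ) (i : Fin 2) : PowerSeries.coeff 2 (sl s v i) = 0 := by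
  unfold sl
  rw [map_add, PowerSeries.coeff_C_mul, PowerSeries.coeff_X]
  simp [PowerSeries.coeff_C]

/-- first order term of a polynomial along a curve -/
lemma ph1_eq {s : Fin 2 → ℝ} {Γ : Fin 2 → PowerSeries ℝ} (hb : ∀ i, PowerSeries.coeff 0 (Γ i) = s i) (F : RP) :
    ph Γ 1 F = PowerSeries.coeff 1 (Γ 0) * eval s (pderiv 0 F) + PowerSeries.coeff 1 (Γ 1) * eval s (pderiv 1 F) := by
  induction F using MvPolynomial.induction_on with
  | C a => rw [ph_C1 _ _ _ (by norm_num)]; simp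
  | add p q hp hq => rw [map_add, hp, hq]; simp only [map_add]; ring
  | mul_X p i hp =>
    rw [ph1, hp, ph_base hb, ph_X, ph_X, hb]
    fin_cases i
    · simp only [Derivation.leibniz, smul_eq_mul, p00, p10, map_add, map_mul, eval_X, mul_one, mul_zero,
        Fin.zero_eta, map_one, map_zero]
      ring
    · simp only [Derivation.leibniz, smul_eq_mul, p01, p11, map_add, map_mul, eval_X, mul_one, mul_zero,
        Fin.mk_one, map_one, map_zero]
      ring

end Run7.h256
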