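import Mathlib
import Pool.Agent.Run7.h256.Z4

set_option autoImplicit false

namespace Run7.h256

open MvPolynomial Topology Metric

/-- near the origin the curve `P = 0` is flat -/
lemma on_null {P : RP} (p00 : cf 0 0 P = 0) (p10 : cf 1 0 P = 0) (p01 : cf 0 1 P = 1) :
    ∃ A : ℝ, 1 ≤ A ∧ ∃ r : ℝ, 0 < r ∧ r ≤ 1 ∧ ∀ v : Fin 2 → ℝ, ‖v‖ < r → eval v P = 0 →
      |v 1| ≤ A * |v 0| ^ 2 ∧ 0 < eval v (pderiv 1 P) := by
  have w1 : Wt 1 2 (P - mo 0 1 1) := by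
    intro i j hij
    have hi : i ≤ 1 := by omega
    have hj : j ≤ 1 := by omega
    rw [cf_sub, cf_mo]
    interval_cases i <;> interval_cases j <;> first | omega | simp [*]
  have w2 : Wt 1 1 (pderiv 1 P - mo 0 0 1) := by
    intro i j hij
    have hi : i = 0 := by omega
    have hj : j = 0 := by omega
    subst hi hj
    rw [cf_sub, cf_mo, cf_p1]
    simp [p01]
  obtain ⟨K1, hK1, b1⟩ := Wt_bound w1 1 le_rfl
  obtain ⟨K2, hK2, b2⟩ := Wt_bound w2 1 le_rfl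
  refine ⟨K1 + 1, by linarith, min 1 (1 / (K1 + K2 + 2)), by positivity, min_le_left _ _, ?_⟩
  intro v hv hP
  have e1 : ‖v‖ ≤ 1 := hv.le.trans (min_le_left _ _)
  have e2 := lt_of_lt_of_le hv (min_le_right _ _)
  rw [lt_div_iff₀ (by positivity)] at e2
  have hn := norm_nonneg v
  have c1 := b1 v ‖v‖ hn e1 (abs0_le v) (by simpa using abs1_le v)
  have c2 := b2 v ‖v‖ hn e1 (abs0_le v) (by simpa using abs1_le v)
  rw [map_sub, eval_mo] at c1 c2
  simp only [pow_zero, mul_one, pow_one, one_mul, hP, zero_sub, abs_neg] at c1 c2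
  have hmax : ‖v‖ = |v 0| ∨ ‖v‖ = |v 1| := by
    have h1 : ‖v‖ ≤ max |v 0| |v 1| := by
      rw [pi_norm_le_iff_of_nonneg (by positivity)]
      intro i; fin_cases i
      · exact le_max_left _ _
      · exact le_max_right _ _
    rcases le_total |v 0| |v 1| with h | h
    · right
      rw [max_eq_right h] at h1
      exact le_antisymm h1 (abs1_le v)
    · left
      rw [max_eq_left h] at h1
      exact le_antisymm h1 (abs0_le v)
  constructor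
  · rcases hmax with h | h
    · rw [h] at c1
      nlinarith [sq_nonneg |v 0|]
    · have h2 : ‖v‖ ≤ K1 * ‖v‖ ^ 2 := by rw [h] at c1 ⊢; exact c1
      have h3 : ‖v‖ = 0 := by
        by_contra h0
        have : 0 < ‖v‖ := lt_of_le_of_ne hn (Ne.symm h0)
        nlinarith
      rw [h3] at h
      rw [← h]; positivity
  · have := (abs_le.1 c2).1
    nlinarith

/-- the extreme points of the first coordinate along small orbits -/
theorem ext_pts {P Q : RP} (h : SurrAt P Q 0) (p00 : cf 0 0 P = 0) (p10 : cf 1 0 P = 0) (p01 : cf 0 1 P = 1) :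
    ∃ A : ℝ, 1 ≤ A ∧ ∀ ε : ℝ, 0 < ε →
      (∃ v : Fin 2 → ℝ, 0 < v 0 ∧ v 0 ≤ 1 ∧ v 0 < ε ∧ |v 1| ≤ A * |v 0| ^ 2 ∧ eval v P = 0 ∧ eval v Q ≤ 0) ∧
      ∃ v : Fin 2 → ℝ, v 0 < 0 ∧ -1 ≤ v 0 ∧ -ε < v 0 ∧ |v 1| ≤ A * |v 0| ^ 2 ∧ eval v P = 0 ∧ 0 ≤ eval v Q := by
  obtain ⟨A, hA, r, hr, hr1, hn⟩ := on_null p00 p10 p01
  refine ⟨A, hA, ?_⟩
  intro ε hε
  obtain ⟨γ, T, g1, g2, g3, g4, g5, g6, g7⟩ := h.at0 (ε := min r ε) (by positivity)
  have hx : ∀ t, HasDerivAt (fun τ => γ τ 0) (eval (γ t) P) t := fun t => (g1 t).1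
  have hP : ∀ t, HasDerivAt (fun τ => eval (γ τ) P) (eval (γ t) (XF P Q P)) t := fun t => g1.chain P t
  obtain ⟨t1, x1, hx1, hg1⟩ := g7.curve (g := fun x => ![x, 0]) (by fun_prop) (by ext i; fin_cases i <;> rfl)
    (i := 0) (e := 1) (by simp) (fun x _ => by simp)
  obtain ⟨t2, x2, hx2, hg2⟩ := g7.curve (g := fun x => ![-x, 0]) (by fun_prop) (by
    ext i; fin_cases i
    · simp
    · rfl)
    (i := 0) (e := -1) (by simp) (fun x _ => by simp)
  have hb : ∀ t, |γ t 0| < r ∧ |γ t 0| < ε := by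
    intro t
    have := lt_of_le_of_lt (abs0_le _) (g5 t)
    exact ⟨lt_of_lt_of_le this (min_le_left _ _), lt_of_lt_of_le this (min_le_right _ _)⟩
  constructor
  · obtain ⟨t0, h0, hmax⟩ := exists_max hx g2 (fun t => by rw [g3])
    have h1 : 0 < γ t0 0 := by
      refine lt_of_lt_of_le ?_ (hmax t1)
      have h2 := g4 t1
      rw [hg1] at h2 ⊢
      have : x1 ≠ 0 := by
        rintro rfl; apply h2; ext i; fin_cases i <;> rfl
      simp only [Matrix.cons_val_zero]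
      exact lt_of_le_of_ne hx1 (Ne.symm this)
    obtain ⟨n1, n2⟩ := hn (γ t0) (lt_of_lt_of_le (g5 t0) (min_le_left _ _)) h0
    have h3 := second_max hx hmax h0 (hP t0)
    rw [XF, map_add, map_mul, map_mul, h0, zero_mul, zero_add] at h3
    obtain ⟨b1, b2⟩ := hb t0
    refine ⟨γ t0, h1, (le_abs_self _).trans (b1.le.trans hr1), lt_of_le_of_lt (le_abs_self _) b2, n1, h0, ?_⟩
    by_contra hcon
    push Not at hcon
    have := mul_pos hcon n2
    linarith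
  · obtain ⟨t0, h0, hmax⟩ := exists_max (fun t => (hx t).neg) g2 (fun t => by
      show -γ (t + T) 0 = -γ t 0
      rw [g3])
    have h0' : eval (γ t0) P = 0 := by linarith
    have h1 : γ t0 0 < 0 := by
      have h5 : -γ t2 0 ≤ -γ t0 0 := hmax t2
      have h2 := g4 t2
      rw [hg2] at h2 h5
      have : x2 ≠ 0 := by
        rintro rfl; apply h2; ext i; fin_cases i
        · simp
        · rfl
      simp only [Matrix.cons_val_zero] at h5
      have := lt_of_le_of_ne hx2 (Ne.symm this)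
      linarith
    obtain ⟨n1, n2⟩ := hn (γ t0) (lt_of_lt_of_le (g5 t0) (min_le_left _ _)) h0'
    have h3 := second_max (fun t => (hx t).neg) hmax h0 ((hP t0).neg)
    rw [XF, map_add, map_mul, map_mul, h0', zero_mul, zero_add] at h3
    obtain ⟨b1, b2⟩ := hb t0
    have hr1' := b1.le.trans hr1
    have n3 := (abs_le.1 hr1').1
    have n4 := (abs_lt.1 b2).1
    refine ⟨γ t0, h1, n3, n4, n1, h0', ?_⟩
    by_contra hcon
    push Not at hcon
    have := mul_pos_of_neg_of_neg hcon (show -eval (γ t0) (pderiv 1 P) < 0 by linarith)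
    linarith

/-- the quadratic coefficient vanishes at a nilpotent centre -/
theorem nil_q20 {P Q : RP} (h : SurrAt P Q 0) (p00 : cf 0 0 P = 0) (p10 : cf 1 0 P = 0) (p01 : cf 0 1 P = 1)
    (q00 : cf 0 0 Q = 0) (q10 : cf 1 0 Q = 0) (q01 : cf 0 1 Q = 0) : cf 2 0 Q = 0 := by
  by_contra hq
  obtain ⟨A, hA, hext⟩ := ext_pts h p00 p10 p01
  have wQ : Wt 2 3 (Q - mo 2 0 (cf 2 0 Q)) := by
    intro i j hij
    have hi : i ≤ 2 := by omega
    have hj : j ≤ 1 := by omega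
    rw [cf_sub, cf_mo]
    interval_cases i <;> interval_cases j <;> first | omega | simp [*]
  obtain ⟨K, hK, b⟩ := Wt_bound wQ A hA
  have ha : 0 < |cf 2 0 Q| := abs_pos.2 hq
  obtain ⟨⟨v, v1, v2, v3, v4, v5, v6⟩, ⟨w, w1, w2, w3, w4, w5, w6⟩⟩ := hext (|cf 2 0 Q| / (K + 1)) (by positivity)
  rw [lt_div_iff₀ (by positivity)] at v3
  rw [neg_lt, lt_div_iff₀ (by positivity)] at w3
  have cv := b v |v 0| (abs_nonneg _) (by rw [abs_of_pos v1]; exact v2) le_rfl v4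
  have cw := b w |w 0| (abs_nonneg _) (by rw [abs_of_neg w1]; linarith) le_rfl w4
  rw [map_sub, eval_mo] at cv cw
  simp only [pow_zero, mul_one] at cv cw
  rw [abs_of_pos v1] at cv
  rw [abs_of_neg w1] at cw
  have cv' := abs_le.1 cv
  have cw' := abs_le.1 cw
  have hv2 : 0 < v 0 ^ 2 := by positivity
  have hw2 : 0 < w 0 ^ 2 := by have := w1.ne; positivity
  rcases lt_or_gt_of_ne hq with hneg | hpos
  · rw [abs_of_neg hneg] at w3 v3
    have h1 : K * (-w 0) < -cf 2 0 Q := by nlinarith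
    have h2 : K * (-w 0) ^ 3 < -cf 2 0 Q * w 0 ^ 2 := by
      have : K * (-w 0) ^ 3 = K * (-w 0) * w 0 ^ 2 := by ring
      rw [this]; exact mul_lt_mul_of_pos_right h1 hw2
    linarith [cw'.2]
  · rw [abs_of_pos hpos] at w3 v3
    have h1 : K * v 0 < cf 2 0 Q := by nlinarith
    have h2 : K * v 0 ^ 3 < cf 2 0 Q * v 0 ^ 2 := by
      have : K * v 0 ^ 3 = K * v 0 * v 0 ^ 2 := by ring
      rw [this]; exact mul_lt_mul_of_pos_right h1 hv2
    linarith [cv'.1]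

lemma wP3 {P : RP} (p00 : cf 0 0 P = 0) (p10 : cf 1 0 P = 0) (p01 : cf 0 1 P = 1) :
    Wt 2 3 (P - mo 0 1 1 - mo 2 0 (cf 2 0 P)) := by
  intro i j hij
  have hi : i ≤ 2 := by omega
  have hj : j ≤ 1 := by omega
  rw [cf_sub, cf_sub, cf_mo, cf_mo]
  interval_cases i <;> interval_cases j <;> first | omega | simp [*]

lemma wQ4 {Q : RP} (q00 : cf 0 0 Q = 0) (q10 : cf 1 0 Q = 0) (q01 : cf 0 1 Q = 0) (q20 : cf 2 0 Q = 0) :
    Wt 2 4 (Q - mo 1 1 (cf 1 1 Q) - mo 3 0 (cf 3 0 Q)) := by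
  intro i j hij
  have hi : i ≤ 3 := by omega
  have hj : j ≤ 1 := by omega
  rw [cf_sub, cf_sub, cf_mo, cf_mo]
  interval_cases i <;> interval_cases j <;> first | omega | simp [*]

/-- the cubic coefficient has the right sign -/
theorem nil_a {P Q : RP} (h : SurrAt P Q 0) (p00 : cf 0 0 P = 0) (p10 : cf 1 0 P = 0) (p01 : cf 0 1 P = 1)
    (q00 : cf 0 0 Q = 0) (q10 : cf 1 0 Q = 0) (q01 : cf 0 1 Q = 0) :
    cf 3 0 Q - cf 1 1 Q * cf 2 0 P ≤ 0 := by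
  by_contra hcon
  push Not at hcon
  have q20 := nil_q20 h p00 p10 p01 q00 q10 q01
  obtain ⟨A, hA, hext⟩ := ext_pts h p00 p10 p01
  obtain ⟨K1, hK1, b1⟩ := Wt_bound (wP3 p00 p10 p01) A hA
  obtain ⟨K2, hK2, b2⟩ := Wt_bound (wQ4 q00 q10 q01 q20) A hA
  obtain ⟨a, ha⟩ : ∃ a, a = cf 3 0 Q - cf 1 1 Q * cf 2 0 P := ⟨_, rfl⟩
  rw [← ha] at hcon
  obtain ⟨⟨v, v1, v2, v3, v4, v5, v6⟩, _⟩ := hext (a / (|cf 1 1 Q| * K1 + K2 + 1)) (by positivity)
  rw [lt_div_iff₀ (by positivity)] at v3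
  have c1 := b1 v |v 0| (abs_nonneg _) (by rw [abs_of_pos v1]; exact v2) le_rfl v4
  have c2 := b2 v |v 0| (abs_nonneg _) (by rw [abs_of_pos v1]; exact v2) le_rfl v4
  rw [abs_of_pos v1] at c1 c2
  simp only [map_sub, eval_mo, pow_zero, mul_one, pow_one, one_mul, v5] at c1 c2
  obtain ⟨x, hx⟩ : ∃ x, x = v 0 := ⟨_, rfl⟩
  obtain ⟨y, hy⟩ : ∃ y, y = v 1 := ⟨_, rfl⟩
  rw [← hx] at v1 v3 c1 c2
  rw [← hy] at c1 c2
  have e : eval v Q = a * x ^ 3 + (eval v Q - cf 1 1 Q * x * y - cf 3 0 Q * x ^ 3) -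
      cf 1 1 Q * x * (0 - y - cf 2 0 P * x ^ 2) := by rw [ha]; ring
  have h1 : |cf 1 1 Q * x * (0 - y - cf 2 0 P * x ^ 2)| ≤ |cf 1 1 Q| * x * (K1 * x ^ 3) := by
    rw [abs_mul, abs_mul, abs_of_pos v1]
    gcongr
  have h2 := (abs_le.1 h1).2
  have h3 := (abs_le.1 c2).1
  have h4 : (|cf 1 1 Q| * K1 + K2) * x < a := by nlinarith
  have h5 : 0 < x ^ 3 := by positivity
  have h6 : (|cf 1 1 Q| * K1 + K2) * x * x ^ 3 < a * x ^ 3 := mul_lt_mul_of_pos_right h4 h5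
  have h7 : |cf 1 1 Q| * x * (K1 * x ^ 3) + K2 * x ^ 4 = (|cf 1 1 Q| * K1 + K2) * x * x ^ 3 := by ring
  linarith

lemma lam_ineq {x P Q w y K C1 C2 l p20 q11 q30 C' κ : ℝ} (hx : 0 < x) (hx1 : x ≤ 1) (hC1 : 0 ≤ C1) (hK : 0 < K)
    (hl : 2 * l ^ 2 - (2 * p20 + q11) * l - (q30 - q11 * p20) = 0)
    (hw : w = y - (l - p20) * x ^ 2) (hwb : |w| = K * x ^ 3)
    (b1 : |P - y - p20 * x ^ 2| ≤ C1 * x ^ 3) (b2 : |Q - q11 * x * y - q30 * x ^ 3| ≤ C2 * x ^ 4)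
    (hκ : κ = 5 * l - (2 * p20 + q11)) (hC' : C' = C2 + 2 * |l - p20| * C1) (hKκ : K * |κ| = C' + 1)
    (hs : 3 * K * (K + C1) * x < 1) :
    |3 * K * x ^ 2 * P - (if 0 ≤ w then 1 else -1) * (Q - 2 * (l - p20) * x * P) - K * κ * x ^ 4| < K * |κ| * x ^ 4 := by
  have hx4 : 0 < x ^ 4 := by positivity
  obtain ⟨s, hs1⟩ : ∃ s : ℝ, s = if 0 ≤ w then 1 else -1 := ⟨_, rfl⟩
  have hsw : s * w = K * x ^ 3 := by
    rw [hs1, ← hwb]
    split_ifs with h0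
    · rw [one_mul, abs_of_nonneg h0]
    · push Not at h0
      rw [abs_of_neg h0]; ring
  have hsa : |s| = 1 := by rw [hs1]; split_ifs <;> simp
  rw [← hs1]
  have hy : y = w + (l - p20) * x ^ 2 := by rw [hw]; ring
  have e : 3 * K * x ^ 2 * P - s * (Q - 2 * (l - p20) * x * P) - K * κ * x ^ 4 =
      3 * K * x ^ 2 * (w + (P - y - p20 * x ^ 2)) - s * ((Q - q11 * x * y - q30 * x ^ 3) -
        2 * (l - p20) * x * (P - y - p20 * x ^ 2)) := by
    have hq : q30 = q11 * p20 + 2 * l ^ 2 - (2 * p20 + q11) * l := by linarith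
    rw [hκ, hy, hq]
    linear_combination (-(((2 * p20 + q11) - 2 * l) * x)) * hsw
  rw [e]
  have f1 : |3 * K * x ^ 2 * (w + (P - y - p20 * x ^ 2))| ≤ 3 * K * x ^ 2 * ((K + C1) * x ^ 3) := by
    rw [abs_mul, abs_of_pos (show 0 < 3 * K * x ^ 2 by positivity)]
    apply mul_le_mul_of_nonneg_left _ (by positivity)
    refine (abs_add_le _ _).trans ?_
    rw [hwb]; linarith
  have f2 : |s * ((Q - q11 * x * y - q30 * x ^ 3) - 2 * (l - p20) * x * (P - y - p20 * x ^ 2))| ≤ C' * x ^ 4 := by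
    rw [abs_mul, hsa, one_mul]
    refine (abs_sub _ _).trans ?_
    have : |2 * (l - p20) * x * (P - y - p20 * x ^ 2)| ≤ 2 * |l - p20| * x * (C1 * x ^ 3) := by
      rw [abs_mul, abs_mul, abs_mul, abs_of_pos hx, abs_of_pos (by norm_num : (0 : ℝ) < 2)]
      gcongr
    rw [hC']
    have e2 : 2 * |l - p20| * x * (C1 * x ^ 3) = 2 * |l - p20| * C1 * x ^ 4 := by ring
    linarith
  refine lt_of_le_of_lt (abs_sub _ _) ?_
  have f3 : 3 * K * x ^ 2 * ((K + C1) * x ^ 3) = 3 * K * (K + C1) * x * x ^ 4 := by ring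
  have f4 : 3 * K * (K + C1) * x * x ^ 4 < 1 * x ^ 4 := mul_lt_mul_of_pos_right hs hx4
  rw [hKκ]
  linarith

/-- characteristic directions are impossible -/
theorem nil_lam {P Q : RP} (h : SurrAt P Q 0) (p00 : cf 0 0 P = 0) (p10 : cf 1 0 P = 0) (p01 : cf 0 1 P = 1)
    (q00 : cf 0 0 Q = 0) (q10 : cf 1 0 Q = 0) (q01 : cf 0 1 Q = 0) {l : ℝ}
    (hl : 2 * l ^ 2 - (2 * cf 2 0 P + cf 1 1 Q) * l - (cf 3 0 Q - cf 1 1 Q * cf 2 0 P) = 0) (hl0 : l ≠ 0)
    (hκ0 : 5 * l - (2 * cf 2 0 P + cf 1 1 Q) ≠ 0) : False := by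
  have q20 := nil_q20 h p00 p10 p01 q00 q10 q01
  obtain ⟨p20, hp20⟩ : ∃ p20, p20 = cf 2 0 P := ⟨_, rfl⟩
  obtain ⟨q11, hq11⟩ : ∃ q11, q11 = cf 1 1 Q := ⟨_, rfl⟩
  obtain ⟨q30, hq30⟩ : ∃ q30, q30 = cf 3 0 Q := ⟨_, rfl⟩
  obtain ⟨κ, hκ⟩ : ∃ κ, κ = 5 * l - (2 * p20 + q11) := ⟨_, rfl⟩
  rw [← hp20, ← hq11] at hκ0
  rw [← hp20, ← hq11, ← hq30] at hl
  rw [← hκ] at hκ0
  obtain ⟨C1, hC1, b1⟩ := Wt_bound (wP3 p00 p10 p01) (|l - p20| + 1) (by linarith [abs_nonneg (l - p20)])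
  obtain ⟨C2, hC2, b2⟩ := Wt_bound (wQ4 q00 q10 q01 q20) (|l - p20| + 1) (by linarith [abs_nonneg (l - p20)])
  rw [← hp20] at b1
  rw [← hq11, ← hq30] at b2
  obtain ⟨C', hC'⟩ : ∃ C', C' = C2 + 2 * |l - p20| * C1 := ⟨_, rfl⟩
  have hC'0 : 0 ≤ C' := by rw [hC']; positivity
  have hκp : 0 < |κ| := abs_pos.2 hκ0
  obtain ⟨K, hK⟩ : ∃ K, K = (C' + 1) / |κ| := ⟨_, rfl⟩
  have hKp : 0 < K := by rw [hK]; positivity
  have hKκ : K * |κ| = C' + 1 := by rw [hK]; field_simp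
  have hlp : 0 < |l| := abs_pos.2 hl0
  obtain ⟨γ, T, g1, g2, g3, g4, g5, g6, g7⟩ := h.at0
    (ε := min (min 1 (1 / (3 * K * (K + C1)))) (min (1 / K) (|l| / (K + C1)))) (by positivity)
  have s1 : ∀ t, |γ t 0| < 1 := fun t => lt_of_lt_of_le (lt_of_le_of_lt (abs0_le _) (g5 t))
    ((min_le_left _ _).trans (min_le_left _ _))
  have s2 : ∀ t, 3 * K * (K + C1) * |γ t 0| < 1 := by
    intro t
    have := lt_of_lt_of_le (lt_of_le_of_lt (abs0_le _) (g5 t)) ((min_le_left _ _).trans (min_le_right _ _))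
    rw [lt_div_iff₀ (by positivity)] at this
    linarith
  have s3 : ∀ t, K * |γ t 0| < 1 := by
    intro t
    have := lt_of_lt_of_le (lt_of_le_of_lt (abs0_le _) (g5 t)) ((min_le_right _ _).trans (min_le_left _ _))
    rw [lt_div_iff₀ (by positivity)] at this
    linarith
  have s4 : ∀ t, (K + C1) * |γ t 0| < |l| := by
    intro t
    have := lt_of_lt_of_le (lt_of_le_of_lt (abs0_le _) (g5 t)) ((min_le_right _ _).trans (min_le_right _ _))
    rw [lt_div_iff₀ (by positivity)] at this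
    linarith
  have hx : ∀ t, HasDerivAt (fun τ => γ τ 0) (eval (γ t) P) t := fun t => (g1 t).1
  have hy : ∀ t, HasDerivAt (fun τ => γ τ 1) (eval (γ t) Q) t := fun t => (g1 t).2
  have hx3 : ∀ t, HasDerivAt (fun τ => K * γ τ 0 ^ 3) (3 * K * γ t 0 ^ 2 * eval (γ t) P) t := by
    intro t
    have := ((hx t).pow 3).const_mul K
    refine this.congr_deriv ?_
    push_cast; ring
  have hw : ∀ t, HasDerivAt (fun τ => γ τ 1 - (l - p20) * γ τ 0 ^ 2)
      (eval (γ t) Q - 2 * (l - p20) * γ t 0 * eval (γ t) P) t := by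
    intro t
    have := (hy t).sub (((hx t).pow 2).const_mul (l - p20))
    refine this.congr_deriv ?_
    push_cast; ring
  have inside : ∀ t, 0 < γ t 0 → |γ t 1 - (l - p20) * γ t 0 ^ 2| ≤ K * γ t 0 ^ 3 →
      |eval (γ t) P - γ t 1 - p20 * γ t 0 ^ 2| ≤ C1 * γ t 0 ^ 3 ∧
      |eval (γ t) Q - q11 * γ t 0 * γ t 1 - q30 * γ t 0 ^ 3| ≤ C2 * γ t 0 ^ 4 := by
    intro t h0 h1
    have e3 := s3 t
    have e1 := s1 t
    rw [abs_of_pos h0] at e3 e1
    have h2 : |γ t 1| ≤ (|l - p20| + 1) * γ t 0 ^ 2 := by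
      have h3 : γ t 1 = (γ t 1 - (l - p20) * γ t 0 ^ 2) + (l - p20) * γ t 0 ^ 2 := by ring
      rw [h3]
      refine (abs_add_le _ _).trans ?_
      rw [abs_mul, abs_of_nonneg (sq_nonneg (γ t 0))]
      have h4 : K * γ t 0 ^ 3 = K * γ t 0 * γ t 0 ^ 2 := by ring
      have h5 : K * γ t 0 * γ t 0 ^ 2 ≤ 1 * γ t 0 ^ 2 := mul_le_mul_of_nonneg_right e3.le (sq_nonneg _)
      linarith
    have c1 := b1 (γ t) (γ t 0) h0.le e1.le (abs_of_pos h0).le h2
    have c2 := b2 (γ t) (γ t 0) h0.le e1.le (abs_of_pos h0).le h2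
    simp only [map_sub, eval_mo, pow_zero, pow_one, mul_one, one_mul] at c1 c2
    exact ⟨c1, c2⟩
  have hdir : ∀ t, 0 < γ t 0 → |γ t 1 - (l - p20) * γ t 0 ^ 2| ≤ K * γ t 0 ^ 3 → eval (γ t) P ≠ 0 := by
    intro t h0 h1 hP
    obtain ⟨c1, _⟩ := inside t h0 h1
    have e4 := s4 t
    rw [abs_of_pos h0] at e4
    rw [hP] at c1
    have e : l * γ t 0 ^ 2 = -(0 - γ t 1 - p20 * γ t 0 ^ 2) - (γ t 1 - (l - p20) * γ t 0 ^ 2) := by ring
    have e2 : |l| * γ t 0 ^ 2 ≤ C1 * γ t 0 ^ 3 + K * γ t 0 ^ 3 := by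
      calc |l| * γ t 0 ^ 2 = |l * γ t 0 ^ 2| := by rw [abs_mul, abs_of_nonneg (sq_nonneg (γ t 0))]
        _ ≤ _ := by
          rw [e]
          refine (abs_sub _ _).trans ?_
          rw [abs_neg]
          exact add_le_add c1 h1
    have e5 : 0 < γ t 0 ^ 2 := by positivity
    have e6 : (K + C1) * γ t 0 * γ t 0 ^ 2 < |l| * γ t 0 ^ 2 := mul_lt_mul_of_pos_right e4 e5
    have e7 : (K + C1) * γ t 0 * γ t 0 ^ 2 = C1 * γ t 0 ^ 3 + K * γ t 0 ^ 3 := by ring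
    linarith
  have hu1 : ∀ t, 0 < γ t 0 → γ t 1 - (l - p20) * γ t 0 ^ 2 = K * γ t 0 ^ 3 →
      |3 * K * γ t 0 ^ 2 * eval (γ t) P - (eval (γ t) Q - 2 * (l - p20) * γ t 0 * eval (γ t) P) -
        K * κ * γ t 0 ^ 4| < K * |κ| * γ t 0 ^ 4 := by
    intro t h0 h1
    have hpos : 0 ≤ K * γ t 0 ^ 3 := by positivity
    have hab : |γ t 1 - (l - p20) * γ t 0 ^ 2| = K * γ t 0 ^ 3 := by rw [h1, abs_of_nonneg hpos]
    obtain ⟨c1, c2⟩ := inside t h0 hab.le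
    have e2 := s2 t
    rw [abs_of_pos h0] at e2
    have := lam_ineq h0 (by have := s1 t; rw [abs_of_pos h0] at this; exact this.le) hC1 hKp hl rfl hab c1 c2
      hκ hC' hKκ e2
    rw [if_pos (by rw [h1]; exact hpos), one_mul] at this
    exact this
  have hv1 : ∀ t, 0 < γ t 0 → γ t 1 - (l - p20) * γ t 0 ^ 2 = -(K * γ t 0 ^ 3) →
      |3 * K * γ t 0 ^ 2 * eval (γ t) P + (eval (γ t) Q - 2 * (l - p20) * γ t 0 * eval (γ t) P) -
        K * κ * γ t 0 ^ 4| < K * |κ| * γ t 0 ^ 4 := by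
    intro t h0 h1
    have hpos : 0 < K * γ t 0 ^ 3 := by positivity
    have hab : |γ t 1 - (l - p20) * γ t 0 ^ 2| = K * γ t 0 ^ 3 := by rw [h1, abs_neg, abs_of_nonneg hpos.le]
    obtain ⟨c1, c2⟩ := inside t h0 hab.le
    have e2 := s2 t
    rw [abs_of_pos h0] at e2
    have := lam_ineq h0 (by have := s1 t; rw [abs_of_pos h0] at this; exact this.le) hC1 hKp hl rfl hab c1 c2
      hκ hC' hKκ e2
    rw [if_neg (by rw [h1]; linarith), neg_one_mul, sub_neg_eq_add] at this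
    exact this
  obtain ⟨t1, x1, hx1, hg1⟩ := g7.curve (g := fun x => ![x, (l - p20) * x ^ 2]) (by fun_prop) (by
    ext i; fin_cases i
    · rfl
    · simp) (i := 0) (e := 1) (by simp) (fun x _ => by simp)
  have h10 : γ t1 0 = x1 := by rw [hg1]; simp
  have h11 : γ t1 1 = (l - p20) * x1 ^ 2 := by rw [hg1]; simp
  have st : 0 ≤ γ t1 0 ∧ 0 ≤ K * γ t1 0 ^ 3 - (γ t1 1 - (l - p20) * γ t1 0 ^ 2) ∧
      0 ≤ K * γ t1 0 ^ 3 + (γ t1 1 - (l - p20) * γ t1 0 ^ 2) := by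
    rw [h10, h11]
    have : 0 ≤ K * x1 ^ 3 := by positivity
    exact ⟨hx1, by linarith, by linarith⟩
  have H1 : ∀ t, 0 ≤ γ t 0 → 0 ≤ K * γ t 0 ^ 3 - (γ t 1 - (l - p20) * γ t 0 ^ 2) →
      0 ≤ K * γ t 0 ^ 3 + (γ t 1 - (l - p20) * γ t 0 ^ 2) → 0 < γ t 0 ∧ eval (γ t) P ≠ 0 := by
    intro t h0 hu hv
    have hpos : 0 < γ t 0 := by
      rcases h0.lt_or_eq with h1 | h1
      · exact h1
      · exfalso
        have h1' : γ t 0 = 0 := h1.symm
        rw [h1'] at hu hv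
        exact (ne0_iff.1 (g4 t)) ⟨h1', by linarith⟩
    exact ⟨hpos, hdir t hpos (abs_le.2 ⟨by linarith, by linarith⟩)⟩
  rcases lt_or_gt_of_ne hκ0 with hneg | hpos
  · refine trap' hx (fun t => (hx3 t).sub (hw t)) (fun t => (hx3 t).add (hw t)) g2 (fun t => by rw [g3])
      (t0 := t1) st H1 ?_ ?_
    · intro t h0 hu _
      have hu' : K * γ t 0 ^ 3 - (γ t 1 - (l - p20) * γ t 0 ^ 2) = 0 := hu
      have := (abs_lt.1 (hu1 t h0 (by linarith))).2
      rw [abs_of_neg hneg] at this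
      linarith
    · intro t h0 hv _
      have hv' : K * γ t 0 ^ 3 + (γ t 1 - (l - p20) * γ t 0 ^ 2) = 0 := hv
      have := (abs_lt.1 (hv1 t h0 (by linarith))).2
      rw [abs_of_neg hneg] at this
      linarith
  · refine trap hx (fun t => (hx3 t).sub (hw t)) (fun t => (hx3 t).add (hw t)) g2 (fun t => by rw [g3])
      (t0 := t1) st H1 ?_ ?_
    · intro t h0 hu _
      have hu' : K * γ t 0 ^ 3 - (γ t 1 - (l - p20) * γ t 0 ^ 2) = 0 := hu
      have := (abs_lt.1 (hu1 t h0 (by linarith))).1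
      rw [abs_of_pos hpos] at this
      linarith
    · intro t h0 hv _
      have hv' : K * γ t 0 ^ 3 + (γ t 1 - (l - p20) * γ t 0 ^ 2) = 0 := hv
      have := (abs_lt.1 (hv1 t h0 (by linarith))).1
      rw [abs_of_pos hpos] at this
      linarith

/-- the monodromy condition at a nilpotent centre -/
theorem nil_class {P Q : RP} (h : SurrAt P Q 0) (p00 : cf 0 0 P = 0) (p10 : cf 1 0 P = 0) (p01 : cf 0 1 P = 1)
    (q00 : cf 0 0 Q = 0) (q10 : cf 1 0 Q = 0) (q01 : cf 0 1 Q = 0) {a b : ℝ}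
    (ha : a = cf 3 0 Q - cf 1 1 Q * cf 2 0 P) (hb : b = 2 * cf 2 0 P + cf 1 1 Q) :
    (a = 0 ∧ b = 0) ∨ (a < 0 ∧ b ^ 2 + 8 * a < 0) := by
  have h1 := nil_a h p00 p10 p01 q00 q10 q01
  rw [← ha] at h1
  have key : ∀ l : ℝ, 2 * l ^ 2 - b * l - a = 0 → l ≠ 0 → 5 * l - b ≠ 0 → False := by
    intro l hl h0 h5
    rw [hb] at hl h5
    rw [ha] at hl
    exact nil_lam h p00 p10 p01 q00 q10 q01 hl h0 h5
  rcases h1.lt_or_eq with hneg | h0
  · right
    refine ⟨hneg, ?_⟩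
    by_contra hcon
    push Not at hcon
    obtain ⟨s, hs⟩ : ∃ s, s = Real.sqrt (b ^ 2 + 8 * a) := ⟨_, rfl⟩
    have hs2 : s ^ 2 = b ^ 2 + 8 * a := by rw [hs]; exact Real.sq_sqrt hcon
    have r1 : 2 * ((b + s) / 4) ^ 2 - b * ((b + s) / 4) - a = 0 := by linear_combination (1 / 8 : ℝ) * hs2
    have r2 : 2 * ((b - s) / 4) ^ 2 - b * ((b - s) / 4) - a = 0 := by linear_combination (1 / 8 : ℝ) * hs2
    have n1 : (b + s) / 4 ≠ 0 := by
      intro h2; rw [h2] at r1; simp at r1; linarith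
    have n2 : (b - s) / 4 ≠ 0 := by
      intro h2; rw [h2] at r2; simp at r2; linarith
    by_cases h5 : 5 * ((b + s) / 4) - b = 0
    · apply key _ r2 n2
      intro h6
      have : b = 0 := by linarith
      have : s = 0 := by linarith
      apply n1; linarith
    · exact key _ r1 n1 h5
  · left
    refine ⟨h0, ?_⟩
    by_contra hb0
    apply key (b / 2)
    · rw [h0]; ring
    · intro h2; apply hb0; linarith
    · intro h2; apply hb0; linarith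

end Run7.h256
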