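import Mathlib
import Pool.Agent.Run7.h256.Y9
import Pool.Agent.Run7.h256.Z6

set_option autoImplicit false

namespace Run7.h256

open MvPolynomial

/-- splitting off the variables -/
lemma Wt_split {w n : ℕ} (hw : 1 ≤ w) {F : RP} (h0 : cf 0 0 F = 0) (hF : Wt w n F) :
    ∃ R1 R2 : RP, F = X 0 * R1 + X 1 * R2 ∧ Wt w (n - 1) R1 ∧ Wt w (n - w) R2 := by
  obtain ⟨r, hr⟩ : ∃ r, r = F.modMonomial (Finsupp.single 0 1) := ⟨_, rfl⟩
  have e1 := divMonomial_add_modMonomial_single F (0 : Fin 2)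
  have e2 := divMonomial_add_modMonomial_single r (1 : Fin 2)
  rw [← hr] at e1
  have hz : r.modMonomial (Finsupp.single 1 1) = 0 := by
    ext d
    rw [coeff_zero]
    by_cases h1 : Finsupp.single 1 1 ≤ d
    · exact coeff_modMonomial_of_le _ h1
    · rw [coeff_modMonomial_of_not_le _ h1, hr]
      by_cases h2 : Finsupp.single 0 1 ≤ d
      · exact coeff_modMonomial_of_le _ h2
      · rw [coeff_modMonomial_of_not_le _ h2]
        rw [Finsupp.single_le_iff] at h1 h2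
        have : d = fs 0 0 := by
          rw [← fs_eta d, fs_inj]; omega
        rw [this]; exact h0
  rw [hz, add_zero] at e2
  refine ⟨F.divMonomial (Finsupp.single 0 1), r.divMonomial (Finsupp.single 1 1), ?_, ?_, ?_⟩
  · rw [e2, e1]
  · intro i j hij
    unfold cf
    rw [coeff_divMonomial]
    have : Finsupp.single 0 1 + fs i j = fs (i + 1) j := by
      ext k; fin_cases k
      · simp [fs]; omega
      · simp [fs]
    rw [this]
    exact hF (i + 1) j (by omega)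
  · intro i j hij
    unfold cf
    rw [coeff_divMonomial]
    have : Finsupp.single 1 1 + fs i j = fs i (j + 1) := by
      ext k; fin_cases k
      · simp [fs]
      · simp [fs]; omega
    rw [this, hr]
    by_cases h2 : Finsupp.single 0 1 ≤ fs i (j + 1)
    · exact coeff_modMonomial_of_le _ h2
    · rw [coeff_modMonomial_of_not_le _ h2]
      exact hF i (j + 1) (by
        have : w * (j + 1) = w * j + w := by ring
        omega)

lemma ev_Wt {w n : ℕ} {Γ : Fin 2 → PowerSeries ℝ} (h0 : PowerSeries.X ∣ Γ 0) (h1 : PowerSeries.X ^ w ∣ Γ 1)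
    {F : RP} (hF : Wt w n F) : PowerSeries.X ^ n ∣ ev Γ F := by
  unfold ev
  rw [aeval_def, eval₂_eq']
  apply Finset.dvd_sum
  intro d hd
  apply Dvd.dvd.mul_left
  have hn : n ≤ d 0 + w * d 1 := by
    by_contra hcon
    push Not at hcon
    rw [mem_support_iff] at hd
    have := hF (d 0) (d 1) hcon
    unfold cf at this
    rw [fs_eta] at this
    exact hd this
  rw [Fin.prod_univ_two]
  have e1 := pow_dvd_pow_of_dvd h0 (d 0)
  have e2 := pow_dvd_pow_of_dvd h1 (d 1)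
  rw [← pow_mul] at e2
  have e3 := mul_dvd_mul e1 e2
  rw [← pow_add] at e3
  exact (pow_dvd_pow _ hn).trans e3

lemma ph_Wt {w n : ℕ} {Γ : Fin 2 → PowerSeries ℝ} (h0 : PowerSeries.X ∣ Γ 0) (h1 : PowerSeries.X ^ w ∣ Γ 1)
    {F : RP} (hF : Wt w n F) {j : ℕ} (hj : j < n) : ph Γ j F = 0 :=
  (PowerSeries.X_pow_dvd_iff.1 (ev_Wt h0 h1 hF)) j hj

/-- flat zeros -/
lemma Nc_flat {P Q : RP} (hP : Wt 1 3 P) (hQ : Wt 1 3 Q) {v : Fin 2 → ℝ} (hv : v 0 ≠ 0 ∨ v 1 ≠ 0) :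
    Nc P Q 0 (sl 0 v) 0 := by
  have x0 : PowerSeries.X ∣ sl 0 v 0 := by
    unfold sl
    rw [Pi.zero_apply, map_zero, zero_add]
    exact dvd_mul_left _ _
  have x1 : PowerSeries.X ^ 1 ∣ sl 0 v 1 := by
    unfold sl
    rw [Pi.zero_apply, map_zero, zero_add, pow_one]
    exact dvd_mul_left _ _
  obtain ⟨A, B, e1, wA, wB⟩ := Wt_split le_rfl (hP 0 0 (by omega)) hP
  obtain ⟨A', B', e2, wA', wB'⟩ := Wt_split le_rfl (hQ 0 0 (by omega)) hQ
  refine ⟨fun i => by rw [sl0], ?_, ?_, ?_, A, B, A', B', ?_, ?_, ?_⟩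
  · rw [sl1, sl1]; exact hv
  · intro j hj; exact ph_Wt x0 x1 hP (by omega)
  · intro j hj; exact ph_Wt x0 x1 hQ (by omega)
  · simpa using e1
  · simpa using e2
  · have a0 := ph_Wt x0 x1 wA (j := 0) (by omega)
    have a1 := ph_Wt x0 x1 wA (j := 1) (by omega)
    have b0 := ph_Wt x0 x1 wB (j := 0) (by omega)
    have b1 := ph_Wt x0 x1 wB (j := 1) (by omega)
    have c0 := ph_Wt x0 x1 wA' (j := 0) (by omega)
    have d0 := ph_Wt x0 x1 wB' (j := 0) (by omega)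
    rw [map_sub, ph2, ph2, a0, a1, b0, b1, c0, d0]; ring

/-- the curve at a nilpotent zero -/
noncomputable def nl (p20 : ℝ) : Fin 2 → PowerSeries ℝ :=
  ![PowerSeries.X, PowerSeries.C (-p20) * PowerSeries.X ^ 2]

lemma nl_0 (p20 : ℝ) : nl p20 0 = PowerSeries.X := rfl
lemma nl_1 (p20 : ℝ) : nl p20 1 = PowerSeries.C (-p20) * PowerSeries.X ^ 2 := rfl

lemma nl_X0 (p20 : ℝ) : ph (nl p20) 0 (X 0) = 0 ∧ ph (nl p20) 1 (X 0) = 1 ∧ ph (nl p20) 2 (X 0) = 0 ∧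
    ph (nl p20) 3 (X 0) = 0 := by
  simp only [ph_X, nl_0, PowerSeries.coeff_X]
  norm_num

lemma nl_X1 (p20 : ℝ) : ph (nl p20) 0 (X 1) = 0 ∧ ph (nl p20) 1 (X 1) = 0 ∧ ph (nl p20) 2 (X 1) = -p20 := by
  simp only [ph_X, nl_1, PowerSeries.coeff_C_mul, PowerSeries.coeff_X_pow]
  norm_num

lemma nl_d0 (p20 : ℝ) : PowerSeries.X ∣ nl p20 0 := by rw [nl_0]
lemma nl_d1 (p20 : ℝ) : PowerSeries.X ^ 2 ∣ nl p20 1 := by rw [nl_1]; exact dvd_mul_left _ _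

lemma mo_X (i j : ℕ) (c : ℝ) : mo i j c = C c * X 0 ^ i * X 1 ^ j := by
  apply MvPolynomial.funext
  intro v
  rw [eval_mo]
  simp

theorem Nc_nil {P Q : RP} (p00 : cf 0 0 P = 0) (p10 : cf 1 0 P = 0) (p01 : cf 0 1 P = 1)
    (q00 : cf 0 0 Q = 0) (q10 : cf 1 0 Q = 0) (q01 : cf 0 1 Q = 0) (q20 : cf 2 0 Q = 0) :
    Nc P Q 0 (nl (cf 2 0 P)) (-(cf 3 0 Q - cf 1 1 Q * cf 2 0 P)) ∧
      (ph (nl (cf 2 0 P)) 1 (pderiv 0 P + pderiv 1 Q) = 2 * cf 2 0 P + cf 1 1 Q) := by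
  obtain ⟨x00, x01, x02, x03⟩ := nl_X0 (cf 2 0 P)
  obtain ⟨y0, y1, y2⟩ := nl_X1 (cf 2 0 P)
  have wP := wP3 p00 p10 p01
  have wQ := wQ4 q00 q10 q01 q20
  have d0 := nl_d0 (cf 2 0 P)
  have d1 := nl_d1 (cf 2 0 P)
  obtain ⟨R, hR⟩ : ∃ R, R = P - mo 0 1 1 - mo 2 0 (cf 2 0 P) := ⟨_, rfl⟩
  obtain ⟨S, hS⟩ : ∃ S, S = Q - mo 1 1 (cf 1 1 Q) - mo 3 0 (cf 3 0 Q) := ⟨_, rfl⟩
  rw [← hR] at wP
  rw [← hS] at wQ
  obtain ⟨R1, R2, eR, wR1, wR2⟩ := Wt_split (by norm_num) (wP 0 0 (by omega)) wP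
  obtain ⟨S1, S2, eS, wS1, wS2⟩ := Wt_split (by norm_num) (wQ 0 0 (by omega)) wQ
  have eP : P = X 0 * (C (cf 2 0 P) * X 0 + R1) + X 1 * (1 + R2) := by
    have h1 : P = mo 0 1 1 + mo 2 0 (cf 2 0 P) + R := by rw [hR]; ring
    rw [mo_X, mo_X, eR] at h1
    simp only [map_one] at h1
    linear_combination h1
  have eQ : Q = X 0 * (C (cf 3 0 Q) * X 0 ^ 2 + S1) + X 1 * (C (cf 1 1 Q) * X 0 + S2) := by
    have h1 : Q = mo 1 1 (cf 1 1 Q) + mo 3 0 (cf 3 0 Q) + S := by rw [hS]; ring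
    rw [mo_X, mo_X, eS] at h1
    linear_combination h1
  have r10 := ph_Wt d0 d1 wR1 (j := 0) (by omega)
  have r11 := ph_Wt d0 d1 wR1 (j := 1) (by omega)
  have r20 := ph_Wt d0 d1 wR2 (j := 0) (by omega)
  have s10 := ph_Wt d0 d1 wS1 (j := 0) (by omega)
  have s11 := ph_Wt d0 d1 wS1 (j := 1) (by omega)
  have s12 := ph_Wt d0 d1 wS1 (j := 2) (by omega)
  have s20 := ph_Wt d0 d1 wS2 (j := 0) (by omega)
  have s21 := ph_Wt d0 d1 wS2 (j := 1) (by omega)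
  have A0 : ph (nl (cf 2 0 P)) 0 (C (cf 2 0 P) * X 0 + R1) = 0 := by
    rw [map_add, ph_Cmul, x00, r10]; ring
  have A1 : ph (nl (cf 2 0 P)) 1 (C (cf 2 0 P) * X 0 + R1) = cf 2 0 P := by
    rw [map_add, ph_Cmul, x01, r11]; ring
  have B0 : ph (nl (cf 2 0 P)) 0 (1 + R2) = 1 := by
    rw [map_add, r20, show (1 : RP) = C 1 from C_1.symm, ph_C0]; ring
  have xx0 : ph (nl (cf 2 0 P)) 0 (X 0 ^ 2) = 0 := by rw [pow_two, ph0, x00]; ring
  have xx1 : ph (nl (cf 2 0 P)) 1 (X 0 ^ 2) = 0 := by rw [pow_two, ph1, x00]; ring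
  have xx2 : ph (nl (cf 2 0 P)) 2 (X 0 ^ 2) = 1 := by rw [pow_two, ph2, x00, x01]; ring
  have A'0 : ph (nl (cf 2 0 P)) 0 (C (cf 3 0 Q) * X 0 ^ 2 + S1) = 0 := by
    rw [map_add, ph_Cmul, xx0, s10]; ring
  have A'1 : ph (nl (cf 2 0 P)) 1 (C (cf 3 0 Q) * X 0 ^ 2 + S1) = 0 := by
    rw [map_add, ph_Cmul, xx1, s11]; ring
  have A'2 : ph (nl (cf 2 0 P)) 2 (C (cf 3 0 Q) * X 0 ^ 2 + S1) = cf 3 0 Q := by
    rw [map_add, ph_Cmul, xx2, s12]; ring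
  have B'0 : ph (nl (cf 2 0 P)) 0 (C (cf 1 1 Q) * X 0 + S2) = 0 := by
    rw [map_add, ph_Cmul, x00, s20]; ring
  have B'1 : ph (nl (cf 2 0 P)) 1 (C (cf 1 1 Q) * X 0 + S2) = cf 1 1 Q := by
    rw [map_add, ph_Cmul, x01, s21]; ring
  refine ⟨⟨?_, ?_, ?_, ?_, C (cf 2 0 P) * X 0 + R1, 1 + R2, C (cf 3 0 Q) * X 0 ^ 2 + S1,
    C (cf 1 1 Q) * X 0 + S2, ?_, ?_, ?_⟩, ?_⟩
  · intro i; fin_cases i
    · show PowerSeries.coeff 0 (nl _ 0) = 0
      rw [nl_0]; simp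
    · show PowerSeries.coeff 0 (nl _ 1) = 0
      rw [nl_1]; simp
  · left; rw [nl_0]; simp
  · intro j hj
    have h1 : P = C 1 * X 1 + C (cf 2 0 P) * X 0 ^ 2 + R := by
      have h1 : P = mo 0 1 1 + mo 2 0 (cf 2 0 P) + R := by rw [hR]; ring
      rw [mo_X, mo_X] at h1
      linear_combination h1
    rw [congrArg (ph (nl (cf 2 0 P)) j) h1, map_add, map_add, ph_Cmul, ph_Cmul, ph_Wt d0 d1 wP (by omega)]
    interval_cases j
    · rw [y0, xx0]; ring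
    · rw [y1, xx1]; ring
    · rw [y2, xx2]; ring
  · intro j hj
    rw [congrArg (ph (nl (cf 2 0 P)) j) eQ, map_add]
    interval_cases j
    · rw [ph0, ph0, x00, y0]; ring
    · rw [ph1, ph1, x00, x01, y0, y1, A'0]; ring
    · rw [ph2, ph2, x00, x01, x02, y0, y1, y2, A'0, A'1, B'0]; ring
  · simpa using eP
  · simpa using eQ
  · rw [map_sub, ph2, ph2, A0, A1, B0, A'0, A'1, A'2, B'0, B'1]; ring
  · rw [ph1_eq (s := 0) (by
      intro i; fin_cases i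
      · show PowerSeries.coeff 0 (nl _ 0) = 0
        rw [nl_0]; simp
      · show PowerSeries.coeff 0 (nl _ 1) = 0
        rw [nl_1]; simp)]
    have e1 : PowerSeries.coeff 1 (nl (cf 2 0 P) 0) = 1 := by rw [nl_0]; simp
    have e2 : PowerSeries.coeff 1 (nl (cf 2 0 P) 1) = 0 := by
      rw [nl_1, PowerSeries.coeff_C_mul, PowerSeries.coeff_X_pow]; norm_num
    rw [e1, e2, map_add, map_add, eval0_cf, eval0_cf, cf_p0, cf_p0, cf_p0, cf_p1]
    push_cast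
    ring

end Run7.h256
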