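import Mathlib
import Pool.Agent.Run7.h256.Y2
import Pool.Agent.Run7.h256.Z1

set_option autoImplicit false

namespace Run7.h256

open MvPolynomial Topology Metric

/-! ### affine changes of coordinates -/

/-- the affine map -/
def fw (s : Fin 2 → ℝ) (a b c d : ℝ) (v : Fin 2 → ℝ) : Fin 2 → ℝ :=
  ![s 0 + a * v 0 + b * v 1, s 1 + c * v 0 + d * v 1]

lemma fw_0 (s : Fin 2 → ℝ) (a b c d : ℝ) (v : Fin 2 → ℝ) : fw s a b c d v 0 = s 0 + a * v 0 + b * v 1 := rfl
lemma fw_1 (s : Fin 2 → ℝ) (a b c d : ℝ) (v : Fin 2 → ℝ) : fw s a b c d v 1 = s 1 + c * v 0 + d * v 1 := rfl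

lemma fw_zero (s : Fin 2 → ℝ) (a b c d : ℝ) : fw s a b c d 0 = s := by
  ext i; fin_cases i
  · simp [fw]
  · simp [fw]

lemma fw_lip (s : Fin 2 → ℝ) (a b c d : ℝ) (u v : Fin 2 → ℝ) :
    ‖fw s a b c d u - fw s a b c d v‖ ≤ (|a| + |b| + |c| + |d|) * ‖u - v‖ := by
  have h0 : |u 0 - v 0| ≤ ‖u - v‖ := norm_le_pi_norm (u - v) 0
  have h1 : |u 1 - v 1| ≤ ‖u - v‖ := norm_le_pi_norm (u - v) 1
  have ha := abs_nonneg a
  have hb := abs_nonneg b
  have hc := abs_nonneg c
  have hd := abs_nonneg d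
  have hn := norm_nonneg (u - v)
  rw [pi_norm_le_iff_of_nonneg (by positivity)]
  intro i
  fin_cases i
  · simp only [Fin.zero_eta, Pi.sub_apply, fw_0, Real.norm_eq_abs]
    calc |s 0 + a * u 0 + b * u 1 - (s 0 + a * v 0 + b * v 1)| = |a * (u 0 - v 0) + b * (u 1 - v 1)| := by ring_nf
      _ ≤ |a * (u 0 - v 0)| + |b * (u 1 - v 1)| := abs_add_le _ _
      _ = |a| * |u 0 - v 0| + |b| * |u 1 - v 1| := by rw [abs_mul, abs_mul]
      _ ≤ |a| * ‖u - v‖ + |b| * ‖u - v‖ := by gcongr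
      _ ≤ _ := by nlinarith [mul_nonneg hc hn, mul_nonneg hd hn]
  · simp only [Fin.mk_one, Pi.sub_apply, fw_1, Real.norm_eq_abs]
    calc |s 1 + c * u 0 + d * u 1 - (s 1 + c * v 0 + d * v 1)| = |c * (u 0 - v 0) + d * (u 1 - v 1)| := by ring_nf
      _ ≤ |c * (u 0 - v 0)| + |d * (u 1 - v 1)| := abs_add_le _ _
      _ = |c| * |u 0 - v 0| + |d| * |u 1 - v 1| := by rw [abs_mul, abs_mul]
      _ ≤ |c| * ‖u - v‖ + |d| * ‖u - v‖ := by gcongr
      _ ≤ _ := by nlinarith [mul_nonneg ha hn, mul_nonneg hb hn]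

lemma fw_cont (s : Fin 2 → ℝ) (a b c d : ℝ) : Continuous (fw s a b c d) := by
  rw [continuous_pi_iff]
  intro i
  fin_cases i
  · show Continuous (fun v : Fin 2 → ℝ => s 0 + a * v 0 + b * v 1)
    fun_prop
  · show Continuous (fun v : Fin 2 → ℝ => s 1 + c * v 0 + d * v 1)
    fun_prop

/-- the base point of the inverse -/
noncomputable def bs (s : Fin 2 → ℝ) (a b c d : ℝ) : Fin 2 → ℝ :=
  ![-(d * s 0 - b * s 1) / (a * d - b * c), -(a * s 1 - c * s 0) / (a * d - b * c)]

/-- the inverse map -/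
noncomputable def bk (s : Fin 2 → ℝ) (a b c d : ℝ) : (Fin 2 → ℝ) → Fin 2 → ℝ :=
  fw (bs s a b c d) (d / (a * d - b * c)) (-b / (a * d - b * c)) (-c / (a * d - b * c)) (a / (a * d - b * c))

lemma bk_fw {s : Fin 2 → ℝ} {a b c d : ℝ} (h : a * d - b * c ≠ 0) (v : Fin 2 → ℝ) :
    bk s a b c d (fw s a b c d v) = v := by
  obtain ⟨Δ, hΔ⟩ : ∃ Δ, Δ = a * d - b * c := ⟨_, rfl⟩
  unfold bk
  ext i; fin_cases i
  · simp only [Fin.zero_eta, fw_0, fw_1, bs, Matrix.cons_val_zero]
    rw [← hΔ] at h ⊢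
    field_simp
    rw [hΔ]; ring
  · simp only [Fin.mk_one, fw_0, fw_1, bs, Matrix.cons_val_one, Matrix.cons_val_zero]
    rw [← hΔ] at h ⊢
    field_simp
    rw [hΔ]; ring

lemma fw_bk {s : Fin 2 → ℝ} {a b c d : ℝ} (h : a * d - b * c ≠ 0) (v : Fin 2 → ℝ) :
    fw s a b c d (bk s a b c d v) = v := by
  obtain ⟨Δ, hΔ⟩ : ∃ Δ, Δ = a * d - b * c := ⟨_, rfl⟩
  unfold bk
  ext i; fin_cases i
  · simp only [Fin.zero_eta, fw_0, fw_1, bs, Matrix.cons_val_zero, Matrix.cons_val_one]
    rw [← hΔ] at h ⊢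
    field_simp
    rw [hΔ]; ring
  · simp only [Fin.mk_one, fw_0, fw_1, bs, Matrix.cons_val_zero, Matrix.cons_val_one]
    rw [← hΔ] at h ⊢
    field_simp
    rw [hΔ]; ring

lemma bk_self {s : Fin 2 → ℝ} {a b c d : ℝ} (h : a * d - b * c ≠ 0) : bk s a b c d s = 0 := by
  have := bk_fw (s := s) h 0
  rwa [fw_zero] at this

lemma bk_inj {s : Fin 2 → ℝ} {a b c d : ℝ} (h : a * d - b * c ≠ 0) : Function.Injective (bk s a b c d) := by
  intro u v huv
  rw [← fw_bk (s := s) h u, ← fw_bk (s := s) h v, huv]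

/-- affine substitution -/
noncomputable def af (s : Fin 2 → ℝ) (a b c d : ℝ) : RP →ₐ[ℝ] RP :=
  aeval ![C (s 0) + C a * X 0 + C b * X 1, C (s 1) + C c * X 0 + C d * X 1]

lemma af_X0 (s : Fin 2 → ℝ) (a b c d : ℝ) : af s a b c d (X 0) = C (s 0) + C a * X 0 + C b * X 1 := by
  simp [af]
lemma af_X1 (s : Fin 2 → ℝ) (a b c d : ℝ) : af s a b c d (X 1) = C (s 1) + C c * X 0 + C d * X 1 := by
  simp [af]
lemma af_C (s : Fin 2 → ℝ) (a b c d : ℝ) (e : ℝ) : af s a b c d (C e) = C e := by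
  unfold af; rw [MvPolynomial.aeval_C]; rfl

lemma eval_af (s : Fin 2 → ℝ) (a b c d : ℝ) (v : Fin 2 → ℝ) (F : RP) :
    eval v (af s a b c d F) = eval (fw s a b c d v) F := by
  induction F using MvPolynomial.induction_on with
  | C e => rw [af_C, eval_C, eval_C]
  | add p q hp hq => rw [map_add, map_add, hp, hq, map_add]
  | mul_X p i hp =>
    rw [map_mul, map_mul, hp, map_mul, eval_X]
    congr 1
    fin_cases i
    · simp only [Fin.zero_eta, af_X0, fw_0, map_add, map_mul, eval_C, eval_X]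
    · simp only [Fin.mk_one, af_X1, fw_1, map_add, map_mul, eval_C, eval_X]

lemma eval_af_zero (s : Fin 2 → ℝ) (a b c d : ℝ) (F : RP) : eval 0 (af s a b c d F) = eval s F := by
  rw [eval_af, fw_zero]

lemma af_p0 (s : Fin 2 → ℝ) (a b c d : ℝ) (F : RP) :
    pderiv 0 (af s a b c d F) = C a * af s a b c d (pderiv 0 F) + C c * af s a b c d (pderiv 1 F) := by
  induction F using MvPolynomial.induction_on with
  | C e => rw [af_C]; simp
  | add p q hp hq => rw [map_add, map_add, hp, hq]; simp only [map_add]; ring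
  | mul_X p i hp =>
    rw [map_mul, Derivation.leibniz, hp]
    fin_cases i
    · simp only [Fin.zero_eta, af_X0, Derivation.leibniz, smul_eq_mul, map_add, map_mul, pderiv_C, p00, p10, p01,
        map_one, map_zero]
      ring
    · simp only [Fin.mk_one, af_X1, Derivation.leibniz, smul_eq_mul, map_add, map_mul, pderiv_C, p11, p00, p10, p01,
        map_one, map_zero]
      ring

lemma af_p1 (s : Fin 2 → ℝ) (a b c d : ℝ) (F : RP) :
    pderiv 1 (af s a b c d F) = C b * af s a b c d (pderiv 0 F) + C d * af s a b c d (pderiv 1 F) := by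
  induction F using MvPolynomial.induction_on with
  | C e => rw [af_C]; simp
  | add p q hp hq => rw [map_add, map_add, hp, hq]; simp only [map_add]; ring
  | mul_X p i hp =>
    rw [map_mul, Derivation.leibniz, hp]
    fin_cases i
    · simp only [Fin.zero_eta, af_X0, Derivation.leibniz, smul_eq_mul, map_add, map_mul, pderiv_C, p00, p10, p01, p11,
        map_one, map_zero]
      ring
    · simp only [Fin.mk_one, af_X1, Derivation.leibniz, smul_eq_mul, map_add, map_mul, pderiv_C, p11, p00, p10, p01,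
        map_one, map_zero]
      ring

lemma Dle_af {n : ℕ} (s : Fin 2 → ℝ) (a b c d : ℝ) {F : RP} (h : Dle n F) : Dle n (af s a b c d F) := by
  unfold af
  rw [aeval_def, eval₂_eq']
  unfold Dle
  refine le_trans (totalDegree_finsetSum _ _) (Finset.sup_le ?_)
  intro e he
  have h1 : e 0 + e 1 ≤ n := by
    have := le_totalDegree he
    rw [fs_sum] at this
    exact this.trans h
  have d0 : Dle 1 (C (s 0) + C a * X 0 + C b * X 1 : RP) :=
    ((Dle.C _).add ((Dle.C (n := 0) a).mul (Dle.X le_rfl 0) (by omega))).add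
      ((Dle.C (n := 0) b).mul (Dle.X le_rfl 1) (by omega))
  have d1 : Dle 1 (C (s 1) + C c * X 0 + C d * X 1 : RP) :=
    ((Dle.C _).add ((Dle.C (n := 0) c).mul (Dle.X le_rfl 0) (by omega))).add
      ((Dle.C (n := 0) d).mul (Dle.X le_rfl 1) (by omega))
  have hpow : ∀ (G : RP), Dle 1 G → ∀ m : ℕ, Dle m (G ^ m) := by
    intro G hG m
    unfold Dle at *
    refine le_trans (totalDegree_pow _ _) ?_
    nlinarith
  rw [Fin.prod_univ_two]
  have h2 : Dle n ((C (s 0) + C a * X 0 + C b * X 1 : RP) ^ e 0 * (C (s 1) + C c * X 0 + C d * X 1 : RP) ^ e 1) :=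
    (hpow _ d0 (e 0)).mul (hpow _ d1 (e 1)) h1
  have h3 : Dle n (algebraMap ℝ RP (coeff e F) * ((C (s 0) + C a * X 0 + C b * X 1 : RP) ^ e 0 *
      (C (s 1) + C c * X 0 + C d * X 1 : RP) ^ e 1)) := by
    rw [MvPolynomial.algebraMap_eq]
    exact (Dle.C (n := 0) _).mul h2 (by omega)
  exact h3

lemma af_af {s : Fin 2 → ℝ} {a b c d : ℝ} (h : a * d - b * c ≠ 0) (F : RP) :
    af (bs s a b c d) (d / (a * d - b * c)) (-b / (a * d - b * c)) (-c / (a * d - b * c)) (a / (a * d - b * c))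
      (af s a b c d F) = F := by
  apply MvPolynomial.funext
  intro v
  rw [eval_af, eval_af]
  have := fw_bk (s := s) h v
  unfold bk at this
  rw [this]

lemma af_af' {s : Fin 2 → ℝ} {a b c d : ℝ} (h : a * d - b * c ≠ 0) (F : RP) :
    af s a b c d (af (bs s a b c d) (d / (a * d - b * c)) (-b / (a * d - b * c)) (-c / (a * d - b * c))
      (a / (a * d - b * c)) F) = F := by
  apply MvPolynomial.funext
  intro v
  rw [eval_af, eval_af]
  have := bk_fw (s := s) h v
  unfold bk at this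
  rw [this]

/-- transformed system -/
noncomputable def PA (s : Fin 2 → ℝ) (a b c d : ℝ) (P Q : RP) : RP :=
  C (d / (a * d - b * c)) * af s a b c d P + C (-b / (a * d - b * c)) * af s a b c d Q

noncomputable def QA (s : Fin 2 → ℝ) (a b c d : ℝ) (P Q : RP) : RP :=
  C (-c / (a * d - b * c)) * af s a b c d P + C (a / (a * d - b * c)) * af s a b c d Q

lemma af_P {s : Fin 2 → ℝ} {a b c d : ℝ} (h : a * d - b * c ≠ 0) (P Q : RP) :
    af s a b c d P = C a * PA s a b c d P Q + C b * QA s a b c d P Q := by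
  have e1 : a * (d / (a * d - b * c)) + b * (-c / (a * d - b * c)) = 1 := by field_simp; ring
  have e2 : a * (-b / (a * d - b * c)) + b * (a / (a * d - b * c)) = 0 := by ring
  have f1 := congrArg (C : ℝ → RP) e1
  have f2 := congrArg (C : ℝ → RP) e2
  simp only [map_add, map_mul, map_one, map_zero] at f1 f2
  unfold PA QA
  linear_combination (-af s a b c d P) * f1 - af s a b c d Q * f2

lemma af_Q {s : Fin 2 → ℝ} {a b c d : ℝ} (h : a * d - b * c ≠ 0) (P Q : RP) :
    af s a b c d Q = C c * PA s a b c d P Q + C d * QA s a b c d P Q := by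
  have e1 : c * (-b / (a * d - b * c)) + d * (a / (a * d - b * c)) = 1 := by
    rw [← mul_div_assoc, ← mul_div_assoc, ← add_div, div_eq_one_iff_eq h]; ring
  have e2 : c * (d / (a * d - b * c)) + d * (-c / (a * d - b * c)) = 0 := by ring
  have f1 := congrArg (C : ℝ → RP) e1
  have f2 := congrArg (C : ℝ → RP) e2
  simp only [map_add, map_mul, map_one, map_zero] at f1 f2
  unfold PA QA
  linear_combination (-af s a b c d Q) * f1 - af s a b c d P * f2

lemma IsSol.bk {P Q : RP} {γ : ℝ → Fin 2 → ℝ} (hs : IsSol P Q γ) {s : Fin 2 → ℝ} {a b c d : ℝ}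
    (h : a * d - b * c ≠ 0) : IsSol (PA s a b c d P Q) (QA s a b c d P Q) (fun t => bk s a b c d (γ t)) := by
  intro t
  obtain ⟨h0, h1⟩ := hs t
  constructor
  · have e := ((h0.const_mul (d / (a * d - b * c))).const_add (bs s a b c d 0)).add
      (h1.const_mul (-b / (a * d - b * c)))
    refine (e.congr_deriv ?_)
    unfold PA
    rw [map_add, map_mul, map_mul, eval_C, eval_C, eval_af, eval_af, fw_bk h]
  · have e := ((h0.const_mul (-c / (a * d - b * c))).const_add (bs s a b c d 1)).add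
      (h1.const_mul (a / (a * d - b * c)))
    refine (e.congr_deriv ?_)
    unfold QA
    rw [map_add, map_mul, map_mul, eval_C, eval_C, eval_af, eval_af, fw_bk h]

lemma SurrAt.bk {P Q : RP} {p : Fin 2 → ℝ} (hp : SurrAt P Q p) {s : Fin 2 → ℝ} {a b c d : ℝ}
    (h : a * d - b * c ≠ 0) : SurrAt (PA s a b c d P Q) (QA s a b c d P Q) (bk s a b c d p) := by
  intro ε hε
  obtain ⟨K, hK⟩ : ∃ K, K = |d / (a * d - b * c)| + |-b / (a * d - b * c)| + |-c / (a * d - b * c)| +
    |a / (a * d - b * c)| := ⟨_, rfl⟩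
  have hK0 : 0 ≤ K := by rw [hK]; positivity
  have hlip : ∀ u v, ‖Run7.h256.bk s a b c d u - Run7.h256.bk s a b c d v‖ ≤ K * ‖u - v‖ := by
    intro u v
    rw [hK]
    exact fw_lip _ _ _ _ _ u v
  obtain ⟨γ, T, g1, g2, g3, g4, g5, ⟨t1, g6⟩, g7⟩ := hp (ε / (K + 1)) (by positivity)
  refine ⟨fun t => Run7.h256.bk s a b c d (γ t), T, g1.bk h, g2, fun t => congrArg _ (g3 t), ?_, ?_, ⟨t1, ?_⟩, ?_⟩
  · intro t h0
    exact g4 t (bk_inj h h0)
  · intro t
    refine lt_of_le_of_lt (hlip _ _) ?_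
    have h1 := g5 t
    rw [lt_div_iff₀ (by positivity)] at h1
    nlinarith [norm_nonneg (γ t - p)]
  · intro h0
    exact g6 (bk_inj h h0)
  · intro Cs hC hpC hnb
    obtain ⟨t, ht⟩ := g7 (fw s a b c d '' Cs) (hC.image _ (fw_cont s a b c d).continuousOn)
      ⟨_, hpC, fw_bk h p⟩ (by
        intro hb
        apply hnb
        have h2 : Cs = Run7.h256.bk s a b c d '' (fw s a b c d '' Cs) := by
          rw [Set.image_image]
          simp only [bk_fw h, Set.image_id']
        rw [h2]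
        have h3 : LipschitzWith ⟨K, hK0⟩ (Run7.h256.bk s a b c d) := by
          apply LipschitzWith.of_dist_le_mul
          intro u v
          rw [dist_eq_norm, dist_eq_norm]
          exact hlip u v
        exact h3.isBounded_image hb)
    obtain ⟨w, hw, hwt⟩ := ht
    refine ⟨t, ?_⟩
    show Run7.h256.bk s a b c d (γ t) ∈ Cs
    rw [← hwt, bk_fw h]
    exact hw

lemma DD_A {s : Fin 2 → ℝ} {a b c d : ℝ} (h : a * d - b * c ≠ 0) (P Q : RP) :
    pderiv 0 (PA s a b c d P Q) + pderiv 1 (QA s a b c d P Q) = af s a b c d (pderiv 0 P + pderiv 1 Q) := by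
  have e1 : a * (d / (a * d - b * c)) + b * (-c / (a * d - b * c)) = 1 := by field_simp; ring
  have e2 : a * (-b / (a * d - b * c)) + b * (a / (a * d - b * c)) = 0 := by ring
  have e3 : c * (-b / (a * d - b * c)) + d * (a / (a * d - b * c)) = 1 := by
    rw [← mul_div_assoc, ← mul_div_assoc, ← add_div, div_eq_one_iff_eq h]; ring
  have e4 : c * (d / (a * d - b * c)) + d * (-c / (a * d - b * c)) = 0 := by ring
  have f1 := congrArg (C : ℝ → RP) e1
  have f2 := congrArg (C : ℝ → RP) e2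
  have f3 := congrArg (C : ℝ → RP) e3
  have f4 := congrArg (C : ℝ → RP) e4
  simp only [map_add, map_mul, map_one, map_zero] at f1 f2 f3 f4
  unfold PA QA
  simp only [map_add, Derivation.leibniz, smul_eq_mul, pderiv_C, mul_zero, add_zero, af_p0, af_p1]
  linear_combination af s a b c d (pderiv 0 P) * f1 + af s a b c d (pderiv 0 Q) * f2 +
    af s a b c d (pderiv 1 Q) * f3 + af s a b c d (pderiv 1 P) * f4

lemma Jac_A {s : Fin 2 → ℝ} {a b c d : ℝ} (h : a * d - b * c ≠ 0) (P Q : RP) :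
    Jac (PA s a b c d P Q) (QA s a b c d P Q) = af s a b c d (Jac P Q) := by
  have e1 : (a * d - b * c) * ((d / (a * d - b * c)) * (a / (a * d - b * c)) -
    (-b / (a * d - b * c)) * (-c / (a * d - b * c))) = 1 := by field_simp
  have f1 := congrArg (C : ℝ → RP) e1
  simp only [map_add, map_mul, map_sub, map_one] at f1
  unfold PA QA Jac
  simp only [map_add, map_sub, map_mul, Derivation.leibniz, smul_eq_mul, pderiv_C, mul_zero, add_zero, af_p0, af_p1]
  linear_combination (af s a b c d (pderiv 0 P) * af s a b c d (pderiv 1 Q) -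
    af s a b c d (pderiv 1 P) * af s a b c d (pderiv 0 Q)) * f1

lemma eval_A {s : Fin 2 → ℝ} {a b c d : ℝ} (h : a * d - b * c ≠ 0) {P Q : RP} {p : Fin 2 → ℝ}
    (h1 : eval p P = 0) (h2 : eval p Q = 0) :
    eval (bk s a b c d p) (PA s a b c d P Q) = 0 ∧ eval (bk s a b c d p) (QA s a b c d P Q) = 0 := by
  unfold PA QA
  constructor
  · rw [map_add, map_mul, map_mul, eval_af, eval_af, fw_bk h, h1, h2]; ring
  · rw [map_add, map_mul, map_mul, eval_af, eval_af, fw_bk h, h1, h2]; ring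

lemma rel_A {s : Fin 2 → ℝ} {a b c d : ℝ} (h : a * d - b * c ≠ 0) {P Q : RP} (hr : IsRelPrime P Q) :
    IsRelPrime (PA s a b c d P Q) (QA s a b c d P Q) := by
  intro g h1 h2
  have h3 : g ∣ af s a b c d P := by
    rw [af_P h P Q]; exact dvd_add (Dvd.dvd.mul_left h1 _) (Dvd.dvd.mul_left h2 _)
  have h4 : g ∣ af s a b c d Q := by
    rw [af_Q h P Q]; exact dvd_add (Dvd.dvd.mul_left h1 _) (Dvd.dvd.mul_left h2 _)
  have h5 := map_dvd (af (bs s a b c d) (d / (a * d - b * c)) (-b / (a * d - b * c)) (-c / (a * d - b * c))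
    (a / (a * d - b * c))) h3
  have h6 := map_dvd (af (bs s a b c d) (d / (a * d - b * c)) (-b / (a * d - b * c)) (-c / (a * d - b * c))
    (a / (a * d - b * c))) h4
  rw [af_af h] at h5 h6
  have h7 := (hr h5 h6).map (af s a b c d)
  rwa [af_af' h] at h7

lemma Dle_A {n : ℕ} (s : Fin 2 → ℝ) (a b c d : ℝ) {P Q : RP} (hP : Dle n P) (hQ : Dle n Q) :
    Dle n (PA s a b c d P Q) ∧ Dle n (QA s a b c d P Q) := by
  unfold PA QA
  exact ⟨((Dle.C (n := 0) _).mul (Dle_af s a b c d hP) (by omega)).add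
    ((Dle.C (n := 0) _).mul (Dle_af s a b c d hQ) (by omega)),
    ((Dle.C (n := 0) _).mul (Dle_af s a b c d hP) (by omega)).add
    ((Dle.C (n := 0) _).mul (Dle_af s a b c d hQ) (by omega))⟩

lemma Dle_A' {n : ℕ} {s : Fin 2 → ℝ} {a b c d : ℝ} (h : a * d - b * c ≠ 0) {P Q : RP}
    (hP : Dle n (PA s a b c d P Q)) (hQ : Dle n (QA s a b c d P Q)) : Dle n P ∧ Dle n Q := by
  have h1 : Dle n (af s a b c d P) := by
    rw [af_P h P Q]
    exact ((Dle.C (n := 0) _).mul hP (by omega)).add ((Dle.C (n := 0) _).mul hQ (by omega))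
  have h2 : Dle n (af s a b c d Q) := by
    rw [af_Q h P Q]
    exact ((Dle.C (n := 0) _).mul hP (by omega)).add ((Dle.C (n := 0) _).mul hQ (by omega))
  have h3 := Dle_af (bs s a b c d) (d / (a * d - b * c)) (-b / (a * d - b * c)) (-c / (a * d - b * c))
    (a / (a * d - b * c)) h1
  have h4 := Dle_af (bs s a b c d) (d / (a * d - b * c)) (-b / (a * d - b * c)) (-c / (a * d - b * c))
    (a / (a * d - b * c)) h2
  rw [af_af h] at h3 h4
  exact ⟨h3, h4⟩

/-- curve data come back -/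
lemma Nc.back {P Q : RP} {s : Fin 2 → ℝ} {a b c d : ℝ} (h : a * d - b * c ≠ 0)
    {Γ : Fin 2 → PowerSeries ℝ} {e : ℝ} (n : Nc (PA s a b c d P Q) (QA s a b c d P Q) 0 Γ e) :
    ∃ Γ' : Fin 2 → PowerSeries ℝ, Nc P Q s Γ' e ∧ ∀ j F, ph Γ' j F = ph Γ j (af s a b c d F) := by
  have hΓ : ∀ F : RP, ev (fun i => ev Γ (af s a b c d (X i))) F = ev Γ (af s a b c d F) := by
    intro F
    have : ev (fun i => ev Γ (af s a b c d (X i))) = (ev Γ).comp (af s a b c d) := by
      apply MvPolynomial.algHom_ext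
      intro i
      rw [ev_X]; rfl
    rw [this]; rfl
  have hph : ∀ j F, ph (fun i => ev Γ (af s a b c d (X i))) j F = ph Γ j (af s a b c d F) := by
    intro j F
    rw [ph_apply, ph_apply, hΓ]
  refine ⟨_, ⟨?_, ?_, ?_, ?_, ?_⟩, hph⟩
  · intro i
    have := hph 0 (X i)
    rw [ph_X, n.ev0, eval_af_zero, eval_X] at this
    exact this
  · have h0 : ph Γ 1 (af s a b c d (X 0)) = a * PowerSeries.coeff 1 (Γ 0) + b * PowerSeries.coeff 1 (Γ 1) := by
      rw [af_X0, map_add, map_add, ph_C1 _ _ _ (by norm_num), ph_Cmul, ph_Cmul, ph_X, ph_X]; ring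
    have h1 : ph Γ 1 (af s a b c d (X 1)) = c * PowerSeries.coeff 1 (Γ 0) + d * PowerSeries.coeff 1 (Γ 1) := by
      rw [af_X1, map_add, map_add, ph_C1 _ _ _ (by norm_num), ph_Cmul, ph_Cmul, ph_X, ph_X]; ring
    show ph Γ 1 (af s a b c d (X 0)) ≠ 0 ∨ ph Γ 1 (af s a b c d (X 1)) ≠ 0
    by_contra hcon
    push Not at hcon
    obtain ⟨c0, c1⟩ := hcon
    rw [c0] at h0
    rw [c1] at h1
    rcases n.dir with h2 | h2
    · apply h2
      have : (a * d - b * c) * PowerSeries.coeff 1 (Γ 0) = 0 := by linear_combination (-d) * h0 + b * h1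
      exact (mul_eq_zero.1 this).resolve_left h
    · apply h2
      have : (a * d - b * c) * PowerSeries.coeff 1 (Γ 1) = 0 := by linear_combination c * h0 - a * h1
      exact (mul_eq_zero.1 this).resolve_left h
  · intro j hj
    rw [hph, af_P h P Q, map_add, ph_Cmul, ph_Cmul, n.Pz j hj, n.Qz j hj]; ring
  · intro j hj
    rw [hph, af_Q h P Q, map_add, ph_Cmul, ph_Cmul, n.Pz j hj, n.Qz j hj]; ring
  · obtain ⟨A, B, A', B', e1, e2, e3⟩ := n.sgn
    obtain ⟨ψ, hψ⟩ : ∃ ψ, ψ = af (bs s a b c d) (d / (a * d - b * c)) (-b / (a * d - b * c))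
      (-c / (a * d - b * c)) (a / (a * d - b * c)) := ⟨_, rfl⟩
    have ψP : P = C a * ψ (PA s a b c d P Q) + C b * ψ (QA s a b c d P Q) := by
      have h1 := af_af (s := s) h P
      have h2 := af_P (s := s) h P Q
      rw [h2, map_add, map_mul, map_mul, af_C, af_C] at h1
      rw [hψ]; exact h1.symm
    have ψQ : Q = C c * ψ (PA s a b c d P Q) + C d * ψ (QA s a b c d P Q) := by
      have h1 := af_af (s := s) h Q
      have h2 := af_Q (s := s) h P Q
      rw [h2, map_add, map_mul, map_mul, af_C, af_C] at h1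
      rw [hψ]; exact h1.symm
    have x0 : ψ (X 0) = C (d / (a * d - b * c)) * (X 0 - C (s 0)) + C (-b / (a * d - b * c)) * (X 1 - C (s 1)) := by
      rw [hψ, af_X0]
      have : bs s a b c d 0 = -(d / (a * d - b * c)) * s 0 - (-b / (a * d - b * c)) * s 1 := by
        simp only [bs, Matrix.cons_val_zero]; ring
      rw [this]
      simp only [map_sub, map_mul, map_neg]
      ring
    have x1 : ψ (X 1) = C (-c / (a * d - b * c)) * (X 0 - C (s 0)) + C (a / (a * d - b * c)) * (X 1 - C (s 1)) := by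
      rw [hψ, af_X1]
      have : bs s a b c d 1 = -(-c / (a * d - b * c)) * s 0 - (a / (a * d - b * c)) * s 1 := by
        simp only [bs, Matrix.cons_val_one, Matrix.cons_val_zero]; ring
      rw [this]
      simp only [map_sub, map_mul, map_neg]
      ring
    simp only [Pi.zero_apply, map_zero, sub_zero] at e1 e2
    have y1 : ψ (PA s a b c d P Q) = ψ (X 0) * ψ A + ψ (X 1) * ψ B := by
      rw [congrArg ψ e1, map_add, map_mul, map_mul]
    have y2 : ψ (QA s a b c d P Q) = ψ (X 0) * ψ A' + ψ (X 1) * ψ B' := by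
      rw [congrArg ψ e2, map_add, map_mul, map_mul]
    obtain ⟨n00, hn00⟩ : ∃ n00, n00 = d / (a * d - b * c) := ⟨_, rfl⟩
    obtain ⟨n01, hn01⟩ : ∃ n01, n01 = -b / (a * d - b * c) := ⟨_, rfl⟩
    obtain ⟨n10, hn10⟩ : ∃ n10, n10 = -c / (a * d - b * c) := ⟨_, rfl⟩
    obtain ⟨n11, hn11⟩ : ∃ n11, n11 = a / (a * d - b * c) := ⟨_, rfl⟩
    rw [← hn00, ← hn01] at x0
    rw [← hn10, ← hn11] at x1
    have hdet : (a * d - b * c) * (n00 * n11 - n01 * n10) = 1 := by
      rw [hn00, hn01, hn10, hn11]; field_simp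
    have hdetC := congrArg (C : ℝ → RP) hdet
    simp only [map_sub, map_mul, map_one] at hdetC
    refine ⟨(C a * ψ A + C b * ψ A') * C n00 + (C a * ψ B + C b * ψ B') * C n10,
      (C a * ψ A + C b * ψ A') * C n01 + (C a * ψ B + C b * ψ B') * C n11,
      (C c * ψ A + C d * ψ A') * C n00 + (C c * ψ B + C d * ψ B') * C n10,
      (C c * ψ A + C d * ψ A') * C n01 + (C c * ψ B + C d * ψ B') * C n11, ?_, ?_, ?_⟩
    · rw [ψP, y1, y2, x0, x1]; ring
    · rw [ψQ, y1, y2, x0, x1]; ring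
    · have : ((C a * ψ A + C b * ψ A') * C n00 + (C a * ψ B + C b * ψ B') * C n10) *
          ((C c * ψ A + C d * ψ A') * C n01 + (C c * ψ B + C d * ψ B') * C n11) -
          ((C a * ψ A + C b * ψ A') * C n01 + (C a * ψ B + C b * ψ B') * C n11) *
          ((C c * ψ A + C d * ψ A') * C n00 + (C c * ψ B + C d * ψ B') * C n10) = ψ (A * B' - B * A') := by
        rw [map_sub, map_mul, map_mul]
        linear_combination (ψ A * ψ B' - ψ B * ψ A') * hdetC
      rw [this, hph, hψ, af_af' h, e3]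

end Run7.h256
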