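import Mathlib
import Pool.Agent.Run7.h256.Z4

set_option autoImplicit false

namespace Run7.h256

open MvPolynomial Topology Metric

/-- zero linear part: the quadratic part is radial -/
theorem no_q20 {P Q : RP} (h : SurrAt P Q 0) (q0 : cf 0 0 Q = 0) (qx : cf 1 0 Q = 0) (qy : cf 0 1 Q = 0) :
    cf 2 0 Q = 0 := by
  by_contra hq
  have wQ : Wt 2 3 (Q - mo 2 0 (cf 2 0 Q)) := by
    intro i j hij
    have hi : i ≤ 2 := by omega
    have hj : j ≤ 1 := by omega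
    rw [cf_sub, cf_mo]
    interval_cases i <;> interval_cases j <;> first | omega | simp [*]
  obtain ⟨K, hK, b⟩ := Wt_bound wQ 1 le_rfl
  have ha : 0 < |cf 2 0 Q| := abs_pos.2 hq
  obtain ⟨γ, T, g1, g2, g3, g4, g5, g6, g7⟩ := h.at0 (ε := min 1 (|cf 2 0 Q| / (K + 1))) (by positivity)
  obtain ⟨t1, x1, _, hx1⟩ := g7.curve (g := fun x => ![x, 0]) (by fun_prop) (by ext i; fin_cases i <;> rfl)
    (i := 0) (e := 1) (by simp) (fun x _ => by simp)
  have h1 : γ t1 1 = 0 := by rw [hx1]; simp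
  have key : ∀ t, γ t 1 = 0 → |eval (γ t) Q - cf 2 0 Q * γ t 0 ^ 2| < |cf 2 0 Q| * γ t 0 ^ 2 := by
    intro t ht
    have e1 : ‖γ t‖ ≤ 1 := (g5 t).le.trans (min_le_left _ _)
    have e2 := lt_of_lt_of_le (g5 t) (min_le_right _ _)
    have hx0 : γ t 0 ≠ 0 := fun h0 => (ne0_iff.1 (g4 t)) ⟨h0, ht⟩
    have c := b (γ t) |γ t 0| (abs_nonneg _) ((abs0_le _).trans e1) le_rfl (by rw [ht, abs_zero]; positivity)
    rw [map_sub, eval_mo] at c
    simp only [pow_zero, mul_one] at c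
    refine lt_of_le_of_lt c ?_
    have e3 : |γ t 0| * (K + 1) < |cf 2 0 Q| := by
      rw [lt_div_iff₀ (by positivity)] at e2
      refine lt_of_le_of_lt ?_ e2
      exact mul_le_mul_of_nonneg_right (abs0_le _) (by positivity)
    have e4 : 0 < |γ t 0| := abs_pos.2 hx0
    have e5 : 0 < |γ t 0| ^ 2 := by positivity
    rw [← sq_abs (γ t 0)]
    nlinarith
  have hd : ∀ t, HasDerivAt (fun τ => γ τ 1) (eval (γ t) Q) t := fun t => (g1 t).2
  rcases lt_or_gt_of_ne hq with hneg | hpos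
  · refine sign_lemma (f := fun t => -γ t 1) (fun t => (hd t).neg) g2 (fun t => by rw [g3]) (t0 := t1) (by
      simp [h1]) ?_
    intro t ht
    have ht' : γ t 1 = 0 := by simpa using ht
    have := abs_lt.1 (key t ht')
    rw [abs_of_neg hneg] at this
    nlinarith [this.1, this.2, sq_nonneg (γ t 0)]
  · refine sign_lemma hd g2 (fun t => by rw [g3]) h1 ?_
    intro t ht
    have := abs_lt.1 (key t ht)
    rw [abs_of_pos hpos] at this
    nlinarith [this.1, this.2, sq_nonneg (γ t 0)]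

lemma Wt1_3 {P : RP} (p00 : cf 0 0 P = 0) (p10 : cf 1 0 P = 0) (p01 : cf 0 1 P = 0) :
    Wt 1 3 (P - mo 2 0 (cf 2 0 P) - mo 1 1 (cf 1 1 P) - mo 0 2 (cf 0 2 P)) := by
  intro i j hij
  have hi : i ≤ 2 := by omega
  have hj : j ≤ 2 := by omega
  rw [cf_sub, cf_sub, cf_sub, cf_mo, cf_mo, cf_mo]
  interval_cases i <;> interval_cases j <;> first | omega | simp [*]

lemma rad_ineq {x P Q K C' : ℝ} (hx : 0 < x) (hC : 0 < C') (hK : K = C' + 1) (h : 2 * K * (C' + 1) * x < 1)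
    (j1 : -(C' * x ^ 3) ≤ P - x ^ 2) (j2 : Q ≤ K * x ^ 3 + C' * x ^ 3) : 0 < 2 * K * x * P - Q := by
  have hKp : 0 < K := by rw [hK]; positivity
  have k1 : 2 * K * x * (x ^ 2 - C' * x ^ 3) ≤ 2 * K * x * P := by
    apply mul_le_mul_of_nonneg_left _ (by positivity)
    linarith
  have k2 : 2 * K * C' * x < 1 := by
    have : 0 < K * x := by positivity
    nlinarith
  have k3 : 0 < (1 - 2 * K * C' * x) * x ^ 3 := mul_pos (by linarith) (by positivity)
  have e : 2 * K * x * (x ^ 2 - C' * x ^ 3) - (K * x ^ 3 + C' * x ^ 3) = (1 - 2 * K * C' * x) * x ^ 3 := by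
    rw [hK]; ring
  linarith

/-- the radial quadratic part vanishes -/
theorem no_radial {P Q : RP} (h : SurrAt P Q 0) (p00 : cf 0 0 P = 0) (p10 : cf 1 0 P = 0) (p01 : cf 0 1 P = 0)
    (p20 : cf 2 0 P = 1) (p11 : cf 1 1 P = 0) (p02 : cf 0 2 P = 0)
    (q00 : cf 0 0 Q = 0) (q10 : cf 1 0 Q = 0) (q01 : cf 0 1 Q = 0)
    (q20 : cf 2 0 Q = 0) (q11 : cf 1 1 Q = 1) (q02 : cf 0 2 Q = 0) : False := by
  obtain ⟨K1, hK1, b1⟩ := Wt_bound (Wt1_3 p00 p10 p01) 1 le_rfl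
  obtain ⟨K2, hK2, b2⟩ := Wt_bound (Wt1_3 q00 q10 q01) 1 le_rfl
  rw [p20, p11, p02] at b1
  rw [q20, q11, q02] at b2
  obtain ⟨C', hC'⟩ : ∃ C', C' = K1 + K2 + 1 := ⟨_, rfl⟩
  have hCp : 0 < C' := by rw [hC']; positivity
  obtain ⟨K, hK⟩ : ∃ K, K = C' + 1 := ⟨_, rfl⟩
  have hKp : 0 < K := by rw [hK]; positivity
  obtain ⟨γ, T, g1, g2, g3, g4, g5, g6, g7⟩ := h.at0 (ε := min 1 (1 / (2 * K * (C' + 1)))) (by positivity)
  have e1 : ∀ t, ‖γ t‖ ≤ 1 := fun t => (g5 t).le.trans (min_le_left _ _)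
  have e2 : ∀ t, 2 * K * (C' + 1) * |γ t 0| < 1 := by
    intro t
    have := lt_of_lt_of_le (lt_of_le_of_lt (abs0_le _) (g5 t)) (min_le_right _ _)
    rw [lt_div_iff₀ (by positivity)] at this
    linarith
  have hx : ∀ t, HasDerivAt (fun τ => γ τ 0) (eval (γ t) P) t := fun t => (g1 t).1
  have hy : ∀ t, HasDerivAt (fun τ => γ τ 1) (eval (γ t) Q) t := fun t => (g1 t).2
  -- derivative of x squared
  have hxx : ∀ t, HasDerivAt (fun τ => K * γ τ 0 ^ 2) (2 * K * γ t 0 * eval (γ t) P) t := by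
    intro t
    have := ((hx t).pow 2).const_mul K
    refine this.congr_deriv ?_
    push_cast; ring
  -- bounds inside
  have inside : ∀ t, 0 < γ t 0 → |γ t 1| ≤ K * γ t 0 ^ 2 →
      |eval (γ t) P - γ t 0 ^ 2| ≤ C' * γ t 0 ^ 3 ∧ |eval (γ t) Q - γ t 0 * γ t 1| ≤ C' * γ t 0 ^ 3 := by
    intro t h0 h1
    have e3 := e2 t
    rw [abs_of_pos h0] at e3
    have hkx : K * γ t 0 ≤ 1 := by
      have h5 : 0 < K * γ t 0 := by positivity
      nlinarith
    have hx1 : γ t 0 ≤ 1 := (le_abs_self _).trans ((abs0_le _).trans (e1 t))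
    have h2 : |γ t 1| ≤ 1 * γ t 0 ^ 1 := by
      refine h1.trans ?_
      nlinarith
    have c1 := b1 (γ t) (γ t 0) h0.le hx1 (abs_of_pos h0).le h2
    have c2 := b2 (γ t) (γ t 0) h0.le hx1 (abs_of_pos h0).le h2
    simp only [map_sub, eval_mo, pow_zero, pow_one, mul_one, one_mul, zero_mul, sub_zero] at c1 c2
    have h3 : 0 < γ t 0 ^ 3 := by positivity
    constructor
    · refine c1.trans ?_
      rw [hC']; nlinarith
    · refine c2.trans ?_
      rw [hC']; nlinarith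
  obtain ⟨t1, x1, hx1, hg1⟩ := g7.curve (g := fun x => ![x, 0]) (by fun_prop) (by ext i; fin_cases i <;> rfl)
    (i := 0) (e := 1) (by simp) (fun x _ => by simp)
  have h10 : γ t1 0 = x1 := by rw [hg1]; simp
  have h11 : γ t1 1 = 0 := by rw [hg1]; simp
  refine trap hx (fun t => (hxx t).sub (hy t)) (fun t => (hxx t).add (hy t)) g2 (fun t => by rw [g3])
    (t0 := t1) ⟨by rw [h10]; exact hx1, ?_, ?_⟩ ?_ ?_ ?_
  · show 0 ≤ K * γ t1 0 ^ 2 - γ t1 1
    rw [h11]; have := sq_nonneg (γ t1 0); nlinarith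
  · show 0 ≤ K * γ t1 0 ^ 2 + γ t1 1
    rw [h11]; have := sq_nonneg (γ t1 0); nlinarith
  · intro t h0 hu hv
    have hu' : 0 ≤ K * γ t 0 ^ 2 - γ t 1 := hu
    have hv' : 0 ≤ K * γ t 0 ^ 2 + γ t 1 := hv
    have hpos : 0 < γ t 0 := by
      rcases h0.lt_or_eq with h1 | h1
      · exact h1
      · exfalso
        have h1' : γ t 0 = 0 := h1.symm
        rw [h1'] at hu' hv'
        exact (ne0_iff.1 (g4 t)) ⟨h1', by linarith⟩
    refine ⟨hpos, ?_⟩
    obtain ⟨i1, _⟩ := inside t hpos (abs_le.2 ⟨by linarith, by linarith⟩)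
    have e3 := e2 t
    rw [abs_of_pos hpos] at e3
    have i3 := (abs_le.1 i1).1
    have h3 : 0 < γ t 0 ^ 2 := by positivity
    have h4 : C' * γ t 0 < 1 := by
      have h5 : 0 < γ t 0 * C' := by positivity
      nlinarith
    have h5 : C' * γ t 0 ^ 3 = (C' * γ t 0) * γ t 0 ^ 2 := by ring
    nlinarith
  · intro t h0 hu hv
    have hu' : K * γ t 0 ^ 2 - γ t 1 = 0 := hu
    have hu'' : γ t 1 = K * γ t 0 ^ 2 := by linarith
    have h3 : 0 < γ t 0 ^ 2 := by positivity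
    have h3' : 0 < γ t 0 ^ 3 := by positivity
    obtain ⟨i1, i2⟩ := inside t h0 (by rw [hu'', abs_of_nonneg (by positivity)])
    have e3 := e2 t
    rw [abs_of_pos h0] at e3
    have j1 := (abs_le.1 i1).1
    have j2 := (abs_le.1 i2).2
    rw [hu''] at j2
    have := rad_ineq h0 hCp hK e3 j1 (Q := eval (γ t) Q) (by linarith)
    exact this
  · intro t h0 hv hu
    have hv' : K * γ t 0 ^ 2 + γ t 1 = 0 := hv
    have hv'' : γ t 1 = -(K * γ t 0 ^ 2) := by linarith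
    have h3 : 0 < γ t 0 ^ 2 := by positivity
    have h3' : 0 < γ t 0 ^ 3 := by positivity
    obtain ⟨i1, i2⟩ := inside t h0 (by rw [hv'', abs_neg, abs_of_nonneg (by positivity)])
    have e3 := e2 t
    rw [abs_of_pos h0] at e3
    have j1 := (abs_le.1 i1).1
    have j2 := (abs_le.1 i2).1
    rw [hv''] at j2
    have := rad_ineq h0 hCp hK e3 j1 (Q := -eval (γ t) Q) (by linarith)
    show 0 < 2 * K * γ t 0 * eval (γ t) P + eval (γ t) Q
    linarith

end Run7.h256
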