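import Mathlib
import Pool.Agent.Run7.h256.Z2
import Pool.Agent.Run7.h256.Z5
import Pool.Agent.Run7.h256.Z6

set_option autoImplicit false

namespace Run7.h256

open MvPolynomial

section afc
variable (s : Fin 2 → ℝ) (a b c d : ℝ) (F : RP)

lemma cf10_eq : cf 1 0 F = eval 0 (pderiv 0 F) := by rw [eval0_cf, cf_p0]; push_cast; ring
lemma cf01_eq : cf 0 1 F = eval 0 (pderiv 1 F) := by rw [eval0_cf, cf_p1]; push_cast; ring
lemma cf20_eq : cf 2 0 F = eval 0 (pderiv 0 (pderiv 0 F)) / 2 := by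
  rw [eval0_cf, cf_p0, cf_p0]; push_cast; ring
lemma cf11_eq : cf 1 1 F = eval 0 (pderiv 0 (pderiv 1 F)) := by
  rw [eval0_cf, cf_p0, cf_p1]; push_cast; ring
lemma cf02_eq : cf 0 2 F = eval 0 (pderiv 1 (pderiv 1 F)) / 2 := by
  rw [eval0_cf, cf_p1, cf_p1]; push_cast; ring

lemma af00 : cf 0 0 (af s a b c d F) = eval s F := by rw [← eval0_cf, eval_af_zero]
lemma af10 : cf 1 0 (af s a b c d F) = a * eval s (pderiv 0 F) + c * eval s (pderiv 1 F) := by
  rw [cf10_eq, af_p0, map_add, map_mul, map_mul, eval_C, eval_C, eval_af_zero, eval_af_zero]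
lemma af01 : cf 0 1 (af s a b c d F) = b * eval s (pderiv 0 F) + d * eval s (pderiv 1 F) := by
  rw [cf01_eq, af_p1, map_add, map_mul, map_mul, eval_C, eval_C, eval_af_zero, eval_af_zero]
lemma af20 : cf 2 0 (af s a b c d F) = (a ^ 2 * eval s (pderiv 0 (pderiv 0 F)) +
    2 * a * c * eval s (pderiv 0 (pderiv 1 F)) + c ^ 2 * eval s (pderiv 1 (pderiv 1 F))) / 2 := by
  rw [cf20_eq, af_p0]
  simp only [map_add, Derivation.leibniz, smul_eq_mul, pderiv_C, mul_zero, add_zero, af_p0, map_mul, eval_C,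
    eval_af_zero, pd_comm]
  ring
lemma af11 : cf 1 1 (af s a b c d F) = a * b * eval s (pderiv 0 (pderiv 0 F)) +
    (a * d + b * c) * eval s (pderiv 0 (pderiv 1 F)) + c * d * eval s (pderiv 1 (pderiv 1 F)) := by
  rw [cf11_eq, af_p1]
  simp only [map_add, Derivation.leibniz, smul_eq_mul, pderiv_C, mul_zero, add_zero, af_p0, map_mul, eval_C,
    eval_af_zero, pd_comm]
  ring
lemma af02 : cf 0 2 (af s a b c d F) = (b ^ 2 * eval s (pderiv 0 (pderiv 0 F)) +
    2 * b * d * eval s (pderiv 0 (pderiv 1 F)) + d ^ 2 * eval s (pderiv 1 (pderiv 1 F))) / 2 := by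
  rw [cf02_eq, af_p1]
  simp only [map_add, Derivation.leibniz, smul_eq_mul, pderiv_C, mul_zero, add_zero, af_p1, map_mul, eval_C,
    eval_af_zero, pd_comm]
  ring
end afc

lemma cf_PA {s : Fin 2 → ℝ} {a b c d : ℝ} (h : a * d - b * c ≠ 0) (P Q : RP) (i j : ℕ) :
    (a * d - b * c) * cf i j (PA s a b c d P Q) = d * cf i j (af s a b c d P) - b * cf i j (af s a b c d Q) := by
  unfold PA
  rw [cf_add, cf_Cmul, cf_Cmul]
  field_simp
  ring

lemma cf_QA {s : Fin 2 → ℝ} {a b c d : ℝ} (h : a * d - b * c ≠ 0) (P Q : RP) (i j : ℕ) :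
    (a * d - b * c) * cf i j (QA s a b c d P Q) = -c * cf i j (af s a b c d P) + a * cf i j (af s a b c d Q) := by
  unfold QA
  rw [cf_add, cf_Cmul, cf_Cmul]
  field_simp

/-- normalised nilpotent zero at the origin -/
structure Nil0 (P Q : RP) : Prop where
  p00 : cf 0 0 P = 0
  p10 : cf 1 0 P = 0
  p01 : cf 0 1 P = 1
  q00 : cf 0 0 Q = 0
  q10 : cf 1 0 Q = 0
  q01 : cf 0 1 Q = 0
  q20 : cf 2 0 Q = 0
  cls : (cf 3 0 Q - cf 1 1 Q * cf 2 0 P = 0 ∧ 2 * cf 2 0 P + cf 1 1 Q = 0) ∨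
    (cf 3 0 Q - cf 1 1 Q * cf 2 0 P < 0 ∧
      (2 * cf 2 0 P + cf 1 1 Q) ^ 2 + 8 * (cf 3 0 Q - cf 1 1 Q * cf 2 0 P) < 0)

/-- degenerate centres -/
theorem deg_class {P Q : RP} {s : Fin 2 → ℝ} (hP : eval s P = 0) (hQ : eval s Q = 0) (h : SurrAt P Q s)
    (hJ : eval s (Jac P Q) = 0) : eval s (pderiv 0 P + pderiv 1 Q) = 0 ∧
    ((Wt 1 3 (PA s 1 0 0 1 P Q) ∧ Wt 1 3 (QA s 1 0 0 1 P Q)) ∨
      ∃ a b c d : ℝ, a * d - b * c ≠ 0 ∧ Nil0 (PA s a b c d P Q) (QA s a b c d P Q)) := by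
  obtain ⟨px, hpx⟩ : ∃ px, px = eval s (pderiv 0 P) := ⟨_, rfl⟩
  obtain ⟨py, hpy⟩ : ∃ py, py = eval s (pderiv 1 P) := ⟨_, rfl⟩
  obtain ⟨qx, hqx⟩ : ∃ qx, qx = eval s (pderiv 0 Q) := ⟨_, rfl⟩
  obtain ⟨qy, hqy⟩ : ∃ qy, qy = eval s (pderiv 1 Q) := ⟨_, rfl⟩
  have hJ' : px * qy - py * qx = 0 := by
    rw [hpx, hpy, hqx, hqy]
    unfold Jac at hJ
    simpa only [map_sub, map_mul] using hJ
  have surr : ∀ a b c d : ℝ, a * d - b * c ≠ 0 → SurrAt (PA s a b c d P Q) (QA s a b c d P Q) 0 := by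
    intro a b c d hd
    have := h.bk (s := s) hd
    rwa [bk_self hd] at this
  have f00 : ∀ a b c d : ℝ, a * d - b * c ≠ 0 → cf 0 0 (PA s a b c d P Q) = 0 ∧ cf 0 0 (QA s a b c d P Q) = 0 := by
    intro a b c d hd
    constructor
    · apply mul_left_cancel₀ hd
      rw [cf_PA hd, af00, af00, hP, hQ]; ring
    · apply mul_left_cancel₀ hd
      rw [cf_QA hd, af00, af00, hP, hQ]; ring
  have lin : ∀ a b c d : ℝ, a * d - b * c ≠ 0 →
      (a * d - b * c) * cf 1 0 (PA s a b c d P Q) = d * (a * px + c * py) - b * (a * qx + c * qy) ∧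
      (a * d - b * c) * cf 0 1 (PA s a b c d P Q) = d * (b * px + d * py) - b * (b * qx + d * qy) ∧
      (a * d - b * c) * cf 1 0 (QA s a b c d P Q) = -c * (a * px + c * py) + a * (a * qx + c * qy) ∧
      (a * d - b * c) * cf 0 1 (QA s a b c d P Q) = -c * (b * px + d * py) + a * (b * qx + d * qy) := by
    intro a b c d hd
    rw [cf_PA hd, cf_PA hd, cf_QA hd, cf_QA hd, af10, af10, af01, af01, ← hpx, ← hpy, ← hqx, ← hqy]
    exact ⟨rfl, rfl, rfl, rfl⟩
  have htr : px + qy = 0 := by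
    by_contra hτ
    by_cases h0 : px = 0
    · have hqy0 : qy ≠ 0 := by rw [h0, zero_add] at hτ; exact hτ
      have hpq : py * qx = 0 := by rw [h0] at hJ'; linarith
      have hΔ : (-qy) * qy - py * qx ≠ 0 := by
        rw [h0] at hJ'
        have : py * qx = 0 := by linarith
        rw [this, sub_zero]
        exact mul_ne_zero (neg_ne_zero.2 hqy0) hqy0
      obtain ⟨l1, l2, l3, l4⟩ := lin (-qy) py qx qy hΔ
      obtain ⟨z1, z2⟩ := f00 (-qy) py qx qy hΔ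
      refine no_trace (surr (-qy) py qx qy hΔ) hτ z1 ?_ ?_ z2 ?_ ?_
      · apply mul_left_cancel₀ hΔ; rw [l1, h0]; linear_combination qy * hpq
      · apply mul_left_cancel₀ hΔ; rw [l2, h0]; linear_combination (-py) * hpq
      · apply mul_left_cancel₀ hΔ; rw [l3, h0]; linear_combination (-qx) * hpq
      · apply mul_left_cancel₀ hΔ; rw [l4, h0]; linear_combination (-qy) * hpq
    · have hΔ : (-py) * qx - px * px ≠ 0 := by
        have : (-py) * qx - px * px = -(px * (px + qy)) := by linear_combination hJ'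
        rw [this]
        exact neg_ne_zero.2 (mul_ne_zero h0 hτ)
      obtain ⟨l1, l2, l3, l4⟩ := lin (-py) px px qx hΔ
      obtain ⟨z1, z2⟩ := f00 (-py) px px qx hΔ
      refine no_trace (surr (-py) px px qx hΔ) hτ z1 ?_ ?_ z2 ?_ ?_
      · apply mul_left_cancel₀ hΔ; rw [l1]; linear_combination (-px) * hJ'
      · apply mul_left_cancel₀ hΔ; rw [l2]; linear_combination (-qx) * hJ'
      · apply mul_left_cancel₀ hΔ; rw [l3]; linear_combination (-py) * hJ'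
      · apply mul_left_cancel₀ hΔ; rw [l4]; linear_combination (px) * hJ'
  refine ⟨by rw [map_add, ← hpx, ← hqy]; exact htr, ?_⟩
  have hqy' : qy = -px := by linarith
  by_cases hlin : px = 0 ∧ py = 0 ∧ qx = 0
  · -- zero linear part
    left
    obtain ⟨x1, x2, x3⟩ := hlin
    have x4 : qy = 0 := by rw [hqy', x1, neg_zero]
    have lin0 : ∀ a b c d : ℝ, a * d - b * c ≠ 0 →
        cf 1 0 (PA s a b c d P Q) = 0 ∧ cf 0 1 (PA s a b c d P Q) = 0 ∧
        cf 1 0 (QA s a b c d P Q) = 0 ∧ cf 0 1 (QA s a b c d P Q) = 0 := by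
      intro a b c d hd
      obtain ⟨l1, l2, l3, l4⟩ := lin a b c d hd
      rw [x1, x2, x3, x4] at l1 l2 l3 l4
      refine ⟨?_, ?_, ?_, ?_⟩
      · apply mul_left_cancel₀ hd; rw [l1]; ring
      · apply mul_left_cancel₀ hd; rw [l2]; ring
      · apply mul_left_cancel₀ hd; rw [l3]; ring
      · apply mul_left_cancel₀ hd; rw [l4]; ring
    obtain ⟨Pxx, hPxx⟩ : ∃ t, t = eval s (pderiv 0 (pderiv 0 P)) := ⟨_, rfl⟩
    obtain ⟨Pxy, hPxy⟩ : ∃ t, t = eval s (pderiv 0 (pderiv 1 P)) := ⟨_, rfl⟩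
    obtain ⟨Pyy, hPyy⟩ : ∃ t, t = eval s (pderiv 1 (pderiv 1 P)) := ⟨_, rfl⟩
    obtain ⟨Qxx, hQxx⟩ : ∃ t, t = eval s (pderiv 0 (pderiv 0 Q)) := ⟨_, rfl⟩
    obtain ⟨Qxy, hQxy⟩ : ∃ t, t = eval s (pderiv 0 (pderiv 1 Q)) := ⟨_, rfl⟩
    obtain ⟨Qyy, hQyy⟩ : ∃ t, t = eval s (pderiv 1 (pderiv 1 Q)) := ⟨_, rfl⟩
    have key : ∀ a b c d : ℝ, a * d - b * c ≠ 0 →
        -c * ((a ^ 2 * Pxx + 2 * a * c * Pxy + c ^ 2 * Pyy) / 2) +
          a * ((a ^ 2 * Qxx + 2 * a * c * Qxy + c ^ 2 * Qyy) / 2) = 0 := by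
      intro a b c d hd
      obtain ⟨_, _, l3, l4⟩ := lin0 a b c d hd
      have h1 := no_q20 (surr a b c d hd) (f00 a b c d hd).2 l3 l4
      have h2 := cf_QA (s := s) hd P Q 2 0
      rw [h1, af20, af20, ← hPxx, ← hPxy, ← hPyy, ← hQxx, ← hQxy, ← hQyy] at h2
      linarith
    have k1 := key 1 0 0 1 (by norm_num)
    have k2 := key 0 1 1 0 (by norm_num)
    have k3 := key 1 0 1 1 (by norm_num)
    have k4 := key 1 0 (-1) 1 (by norm_num)
    have y1 : Qxx = 0 := by linarith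
    have y2 : Pyy = 0 := by linarith
    have y3 : Qyy = 2 * Pxy := by linarith
    have y4 : Pxx = 2 * Qxy := by linarith
    by_cases hz : Qxy = 0 ∧ Pxy = 0
    · obtain ⟨z1, z2⟩ := hz
      have hd : (1 : ℝ) * 1 - 0 * 0 ≠ 0 := by norm_num
      obtain ⟨l1, l2, l3, l4⟩ := lin0 1 0 0 1 hd
      obtain ⟨w1, w2⟩ := f00 1 0 0 1 hd
      have e : ∀ i j, cf i j (PA s 1 0 0 1 P Q) = cf i j (af s 1 0 0 1 P) ∧
          cf i j (QA s 1 0 0 1 P Q) = cf i j (af s 1 0 0 1 Q) := by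
        intro i j
        have h1 := cf_PA (s := s) hd P Q i j
        have h2 := cf_QA (s := s) hd P Q i j
        constructor
        · linarith
        · linarith
      constructor
      · intro i j hij
        have hi : i ≤ 2 := by omega
        have hj : j ≤ 2 := by omega
        interval_cases i <;> interval_cases j <;> first | omega | assumption |
          (rw [(e _ _).1]; simp only [af20, af11, af02, ← hPxx, ← hPxy, ← hPyy, y2, y4, z1, z2]; ring)
      · intro i j hij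
        have hi : i ≤ 2 := by omega
        have hj : j ≤ 2 := by omega
        interval_cases i <;> interval_cases j <;> first | omega | assumption |
          (rw [(e _ _).2]; simp only [af20, af11, af02, ← hQxx, ← hQxy, ← hQyy, y1, y3, z1, z2]; ring)
    · exfalso
      obtain ⟨n, hn⟩ : ∃ n, n = Qxy ^ 2 + Pxy ^ 2 := ⟨_, rfl⟩
      have hn0 : n ≠ 0 := by
        intro h0
        apply hz
        rw [hn] at h0
        constructor
        · nlinarith [sq_nonneg Qxy, sq_nonneg Pxy]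
        · nlinarith [sq_nonneg Qxy, sq_nonneg Pxy]
      obtain ⟨a, ha⟩ : ∃ a, a = Qxy / n := ⟨_, rfl⟩
      obtain ⟨c, hc⟩ : ∃ c, c = Pxy / n := ⟨_, rfl⟩
      have hL : a * Qxy + c * Pxy = 1 := by
        rw [ha, hc]; field_simp; linarith
      have hd1 : a * Qxy - (-Pxy) * c = 1 := by linarith
      have hd : a * Qxy - (-Pxy) * c ≠ 0 := by rw [hd1]; exact one_ne_zero
      obtain ⟨l1, l2, l3, l4⟩ := lin0 a (-Pxy) c Qxy hd
      obtain ⟨w1, w2⟩ := f00 a (-Pxy) c Qxy hd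
      have eP := fun i j => cf_PA (s := s) hd P Q i j
      have eQ := fun i j => cf_QA (s := s) hd P Q i j
      rw [hd1] at eP eQ
      simp only [one_mul] at eP eQ
      refine no_radial (surr a (-Pxy) c Qxy hd) w1 l1 l2 ?_ ?_ ?_ w2 l3 l4 ?_ ?_ ?_
      · rw [eP, af20, af20, ← hPxx, ← hPxy, ← hPyy, ← hQxx, ← hQxy, ← hQyy, y1, y2, y3, y4]
        linear_combination (a * Qxy + c * Pxy + 1) * hL
      · rw [eP, af11, af11, ← hPxx, ← hPxy, ← hPyy, ← hQxx, ← hQxy, ← hQyy, y1, y2, y3, y4]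
        ring
      · rw [eP, af02, af02, ← hPxx, ← hPxy, ← hPyy, ← hQxx, ← hQxy, ← hQyy, y1, y2, y3, y4]
        ring
      · rw [eQ, af20, af20, ← hPxx, ← hPxy, ← hPyy, ← hQxx, ← hQxy, ← hQyy, y1, y2, y3, y4]
        ring
      · rw [eQ, af11, af11, ← hPxx, ← hPxy, ← hPyy, ← hQxx, ← hQxy, ← hQyy, y1, y2, y3, y4]
        linear_combination (a * Qxy + c * Pxy + 1) * hL
      · rw [eQ, af02, af02, ← hPxx, ← hPxy, ← hPyy, ← hQxx, ← hQxy, ← hQyy, y1, y2, y3, y4]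
        ring
  · -- nilpotent linear part
    right
    have hJ2 : px ^ 2 + py * qx = 0 := by rw [hqy'] at hJ'; linarith
    have fin : ∀ a b c d : ℝ, a * d - b * c ≠ 0 → cf 1 0 (PA s a b c d P Q) = 0 →
        cf 0 1 (PA s a b c d P Q) = 1 → cf 1 0 (QA s a b c d P Q) = 0 → cf 0 1 (QA s a b c d P Q) = 0 →
        ∃ a b c d : ℝ, a * d - b * c ≠ 0 ∧ Nil0 (PA s a b c d P Q) (QA s a b c d P Q) := by
      intro a b c d hd m1 m2 m3 m4
      obtain ⟨w1, w2⟩ := f00 a b c d hd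
      have hs := surr a b c d hd
      exact ⟨a, b, c, d, hd, w1, m1, m2, w2, m3, m4, nil_q20 hs w1 m1 m2 w2 m3 m4,
        nil_class hs w1 m1 m2 w2 m3 m4 rfl rfl⟩
    by_cases h0 : py = 0
    · have hpx0 : px = 0 := by
        rw [h0, zero_mul, add_zero] at hJ2
        exact pow_eq_zero_iff (by norm_num) |>.1 hJ2
      have hqx0 : qx ≠ 0 := fun hq => hlin ⟨hpx0, h0, hq⟩
      have hd : (0 : ℝ) * 0 - 1 * qx ≠ 0 := by rw [zero_mul, zero_sub, one_mul]; exact neg_ne_zero.2 hqx0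
      obtain ⟨l1, l2, l3, l4⟩ := lin 0 1 qx 0 hd
      apply fin 0 1 qx 0 hd
      · apply mul_left_cancel₀ hd; rw [l1, hqy', hpx0]; ring
      · apply mul_left_cancel₀ hd; rw [l2]; ring
      · apply mul_left_cancel₀ hd; rw [l3, h0]; ring
      · apply mul_left_cancel₀ hd; rw [l4, hpx0]; ring
    · have hd : py * 1 - 0 * (-px) ≠ 0 := by rw [mul_one, zero_mul, sub_zero]; exact h0
      obtain ⟨l1, l2, l3, l4⟩ := lin py 0 (-px) 1 hd
      apply fin py 0 (-px) 1 hd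
      · apply mul_left_cancel₀ hd; rw [l1]; ring
      · apply mul_left_cancel₀ hd; rw [l2]; ring
      · apply mul_left_cancel₀ hd; rw [l3, hqy']; linear_combination py * hJ2
      · apply mul_left_cancel₀ hd; rw [l4, hqy']; ring

end Run7.h256
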