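import Mathlib
import Pool.Agent.Run7.h256.F4
import Pool.Agent.Run7.h256.Y1
import Pool.Agent.Run7.h256.Y6
import Pool.Agent.Run7.h256.Y8
import Pool.Agent.Run7.h256.Z7
import Pool.Agent.Run7.h256.Z8

set_option autoImplicit false

namespace Run7.h256

open MvPolynomial

lemma cp_zero : cp (0 : Fin 2 → ℝ) = 0 := by
  ext i; simp [cp]

lemma eval_cx0 (F : RP) : eval (0 : Fin 2 → ℂ) (cx F) = ((cf 0 0 F : ℝ) : ℂ) := by
  rw [← cp_zero, eval_cx, eval0_cf]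

lemma cf_X1_mul (i : ℕ) (k : RP) : cf i 0 (X 1 * k) = 0 := by
  unfold cf
  rw [coeff_X_mul', if_neg]
  rw [Finsupp.mem_support_iff, fs_1]
  simp

namespace Nil0

variable {P Q : RP}

lemma np (h : Nil0 P Q) : Np (cx P) (cx Q) ((cf 2 0 P : ℝ) : ℂ) ((cf 1 1 P : ℝ) : ℂ) ((cf 3 0 P : ℝ) : ℂ)
    ((cf 1 1 Q : ℝ) : ℂ) ((cf 0 2 Q : ℝ) : ℂ) ((cf 3 0 Q : ℝ) : ℂ) ((cf 2 1 Q : ℝ) : ℂ) ((cf 4 0 Q : ℝ) : ℂ) := by
  constructor
  · rw [eval_cx0, h.p00]; simp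
  · rw [cx_pderiv, eval_cx0, cf_p0, h.p10]; simp
  · rw [cx_pderiv, eval_cx0, cf_p1, h.p01]; simp
  · rw [cx_pderiv, cx_pderiv, eval_cx0, cf_p0, cf_p0]; push_cast; ring
  · rw [cx_pderiv, cx_pderiv, eval_cx0, cf_p0, cf_p1]; push_cast; ring
  · rw [cx_pderiv, cx_pderiv, cx_pderiv, eval_cx0, cf_p0, cf_p0, cf_p0]; push_cast; ring
  · rw [eval_cx0, h.q00]; simp
  · rw [cx_pderiv, eval_cx0, cf_p0, h.q10]; simp
  · rw [cx_pderiv, eval_cx0, cf_p1, h.q01]; simp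
  · rw [cx_pderiv, cx_pderiv, eval_cx0, cf_p0, cf_p0, h.q20]; simp
  · rw [cx_pderiv, cx_pderiv, eval_cx0, cf_p0, cf_p1]; push_cast; ring
  · rw [cx_pderiv, cx_pderiv, eval_cx0, cf_p1, cf_p1]; push_cast; ring
  · rw [cx_pderiv, cx_pderiv, cx_pderiv, eval_cx0, cf_p0, cf_p0, cf_p0]; push_cast; ring
  · rw [cx_pderiv, cx_pderiv, cx_pderiv, eval_cx0, cf_p0, cf_p0, cf_p1]; push_cast; ring
  · rw [cx_pderiv, cx_pderiv, cx_pderiv, cx_pderiv, eval_cx0, cf_p0, cf_p0, cf_p0, cf_p0]; push_cast; ring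

lemma w4 (h : Nil0 P Q) : Wt 2 4 (P - mo 0 1 1 - mo 2 0 (cf 2 0 P) - mo 1 1 (cf 1 1 P) - mo 3 0 (cf 3 0 P)) := by
  have p00 := h.p00
  have p10 := h.p10
  have p01 := h.p01
  intro i j hij
  have hi : i ≤ 3 := by omega
  have hj : j ≤ 1 := by omega
  rw [cf_sub, cf_sub, cf_sub, cf_sub, cf_mo, cf_mo, cf_mo, cf_mo]
  interval_cases i <;> interval_cases j <;> first | omega | simp [*]

lemma w5 (h : Nil0 P Q) : Wt 2 5 (Q - mo 1 1 (cf 1 1 Q) - mo 3 0 (cf 3 0 Q) - mo 0 2 (cf 0 2 Q) -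
    mo 2 1 (cf 2 1 Q) - mo 4 0 (cf 4 0 Q)) := by
  have q00 := h.q00
  have q10 := h.q10
  have q01 := h.q01
  have q20 := h.q20
  intro i j hij
  have hi : i ≤ 4 := by omega
  have hj : j ≤ 2 := by omega
  rw [cf_sub, cf_sub, cf_sub, cf_sub, cf_sub, cf_mo, cf_mo, cf_mo, cf_mo, cf_mo]
  interval_cases i <;> interval_cases j <;> first | omega | simp [*]

/-- no invariant line through the nilpotent zero -/
lemma Li (h : Nil0 P Q) (hneg : (2 * cf 2 0 P + cf 1 1 Q) ^ 2 + 8 * (cf 3 0 Q - cf 1 1 Q * cf 2 0 P) < 0)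
    (a b c : ℝ) (k : RP) (hab : a ≠ 0 ∨ b ≠ 0) (hz : eval 0 (C a * X 0 + C b * X 1 + C c : RP) = 0)
    (hK : C a * P + C b * Q = (C a * X 0 + C b * X 1 + C c) * k) : False := by
  have hc : c = 0 := by simpa using hz
  have e1 := congrArg (fun F => eval 0 (pderiv 0 F)) hK
  have e2 := congrArg (fun F => eval 0 (pderiv 1 F)) hK
  simp only [map_add, Derivation.leibniz, smul_eq_mul, map_mul, pderiv_C, Run7.h256.p00, Run7.h256.p01,
    Run7.h256.p10, Run7.h256.p11, eval_C, eval_X, mul_zero, add_zero, zero_add, mul_one, Pi.zero_apply, map_one, map_zero, hc, zero_mul] at e1 e2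
  rw [eval0_cf (pderiv 0 P), eval0_cf (pderiv 0 Q), cf_p0, cf_p0] at e1
  rw [eval0_cf (pderiv 1 P), eval0_cf (pderiv 1 Q), cf_p1, cf_p1] at e2
  have h10 : cf (0 + 1) 0 P = 0 := h.p10
  have g10 : cf (0 + 1) 0 Q = 0 := h.q10
  have h01 : cf 0 (0 + 1) P = 1 := h.p01
  have g01 : cf 0 (0 + 1) Q = 0 := h.q01
  rw [h10, g10] at e1
  rw [h01, g01] at e2
  push_cast at e1 e2
  have ha : a = 0 := by
    by_contra ha
    have hk : eval 0 k = 0 := by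
      have : a * eval 0 k = 0 := by linarith
      exact (mul_eq_zero.1 this).resolve_left ha
    rw [hk] at e2
    apply ha; linarith
  have hb : b ≠ 0 := by
    rcases hab with h1 | h1
    · exact absurd ha h1
    · exact h1
  have h3 := congrArg (cf 3 0) hK
  rw [ha, hc, C_0] at h3
  have h4 : (0 * X 0 + C b * X 1 + 0 : RP) * k = C b * (X 1 * k) := by ring
  rw [h4, zero_mul, zero_add, cf_Cmul, cf_Cmul, cf_X1_mul, mul_zero] at h3
  have h5 := (mul_eq_zero.1 h3).resolve_left hb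
  rw [h5] at hneg
  nlinarith [sq_nonneg (2 * cf 2 0 P - cf 1 1 Q)]

end Nil0

/-- one nilpotent centre at the origin is impossible -/
theorem nil_false {P Q : RP} {S : Finset (Fin 2 → ℝ)} (hS : S9 P Q S) (h0 : (0 : Fin 2 → ℝ) ∈ S)
    (hn : Nil0 P Q) (hs : SurrAt P Q 0) (hJ : ∀ s ∈ S, s ≠ 0 → 0 < eval s (Jac P Q)) (hD : DD P Q ≠ 0)
    (hDS : ∀ s ∈ S, eval s (DD P Q) = 0) (hK : ∀ s ∈ S, s ≠ 0 → KC (cx P) (cx Q) (cp s))
    (hL : ∀ s ∈ S, s ≠ 0 → LC (cx P) (cx Q) (cp s)) : False := by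
  obtain ⟨nc, hb1⟩ := Nc_nil hn.p00 hn.p10 hn.p01 hn.q00 hn.q10 hn.q01 hn.q20
  have hdD : Dle 3 (DD P Q) := Dle_DD hS.hP hS.hQ
  have hb1' : ph (nl (cf 2 0 P)) 1 (DD P Q) = 2 * cf 2 0 P + cf 1 1 Q := hb1
  obtain ⟨he, hb, hc⟩ := hS.one h0 nc (by
      rcases hn.cls with h1 | h1
      · rw [h1.1, neg_zero]
      · linarith [h1.1]) hJ hdD hD hDS (by
      intro hb
      rw [hb1'] at hb
      rcases hn.cls with h1 | h1
      · exact absurd h1.2 hb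
      · linarith [h1.1])
  have hb' := hb
  rw [hb1'] at hb'
  have hneg : (2 * cf 2 0 P + cf 1 1 Q) ^ 2 + 8 * (cf 3 0 Q - cf 1 1 Q * cf 2 0 P) < 0 := by
    rcases hn.cls with h1 | h1
    · exact absurd h1.2 hb'
    · exact h1.2
  have hκ := focal hs hn.w4 hn.w5 rfl rfl hneg rfl rfl rfl rfl
  obtain ⟨L, Δ, hq⟩ := exists_Qk he hS.card hS.zero hS.Jn hS.ex
  obtain ⟨τ, hτ1, hτ2⟩ := hq.exists_tau nc
  have hr : Rk P Q L S Δ 0 (nl (cf 2 0 P)) (-(cf 3 0 Q - cf 1 1 Q * cf 2 0 P)) τ :=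
    ⟨hq, h0, nc, hc.le, hτ1, hτ2, hJ⟩
  have hck := hr.ck hc hdD hDS hb
  have hnp := hn.np
  have hbC : (2 : ℂ) * ((cf 2 0 P : ℝ) : ℂ) + ((cf 1 1 Q : ℝ) : ℂ) ≠ 0 := by
    intro h1
    apply hb'
    have : ((2 * cf 2 0 P + cf 1 1 Q : ℝ) : ℂ) = 0 := by push_cast; exact h1
    exact_mod_cast this
  have hbs : Bs P Q S := by
    refine ⟨hS.hP, hS.hQ, hS.card, fun {p} hp => hS.zero p hp, hDS, ?_, ?_, ?_, hD, ?_, ?_, ?_, ?_⟩
    · intro p hp
      by_cases hp0 : p = 0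
      · subst hp0
        rintro ⟨_, h2⟩
        rw [eval0_cf, cf_p1] at h2
        have h01 : cf 0 (0 + 1) P = 1 := hn.p01
        rw [h01] at h2
        norm_num at h2
      · exact Jn_of_J (hJ p hp hp0)
    · intro p hp a b c k h1 h2 h3
      by_cases hp0 : p = 0
      · subst hp0
        exact hn.Li hneg a b c k h1 h2 h3
      · exact Li_of_J (hS.zero p hp).1 (hS.zero p hp).2 (hJ p hp hp0) (hDS p hp) a b c k h1 h2 h3
    · intro p hp
      by_cases hp0 : p = 0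
      · subst hp0
        rw [cp_zero]
        exact hnp.KC9 hbC
      · exact hK p hp hp0
    · intro F hF hFS; exact hr.conic_eq hdD hDS hb hF hFS
    · intro F hF hFS; exact hr.cubic_eq hdD hDS hb hF hFS
    · intro u v hu hv huv; exact he.inj3 3 le_rfl u v hu hv (by rw [huv]; exact Dle.zero)
    · intro h1; exact hD (he.eq_zero3 h1 hdD)
  refine hbs.final hS.rel hS.P4 ?_ ?_
  · intro f α β hf hα hβ hf0 he'
    exact hbs.fcase0 hck hf hf0 hα hβ he'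
  · intro p hp
    by_cases hp0 : p = 0
    · right
      subst hp0
      rw [cp_zero]
      intro g α β L' ψ1 ψ2 h1 h2
      refine hnp.UU9 hbC ?_ h1 h2
      have hκC := congrArg (fun t : ℝ => (t : ℂ)) hκ
      push_cast at hκC
      linear_combination hκC
    · left
      exact ⟨(hJ p hp hp0).ne', hL p hp hp0⟩

end Run7.h256
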