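import Mathlib
import Pool.Agent.Run7.h256.V2
import Pool.Agent.Run7.h256.W7

set_option autoImplicit false

namespace Run7.h256

open MvPolynomial

lemma dir_of {u v : ℝ} (huv : u ≠ 0 ∨ v ≠ 0) {w : Fin 2 → ℝ} (hw : w ≠ 0) (h : u * w 0 + v * w 1 = 0) :
    ∃ κ : ℝ, κ ≠ 0 ∧ w = fun i => κ * (![-v, u] : Fin 2 → ℝ) i := by
  have hN : 0 < u ^ 2 + v ^ 2 := by
    rcases huv with h1 | h1
    · have := sq_nonneg v; positivity
    · have := sq_nonneg u; positivity
  obtain ⟨κ, hκ⟩ : ∃ κ, κ = (-v * w 0 + u * w 1) / (u ^ 2 + v ^ 2) := ⟨_, rfl⟩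
  have e0 : w 0 = κ * (-v) := by
    rw [hκ]; field_simp
    linear_combination u * h
  have e1 : w 1 = κ * u := by
    rw [hκ]; field_simp
    linear_combination v * h
  refine ⟨κ, ?_, ?_⟩
  · intro h0
    apply hw
    funext i
    fin_cases i
    · show w 0 = 0
      rw [e0, h0, zero_mul]
    · show w 1 = 0
      rw [e1, h0, zero_mul]
  · funext i
    fin_cases i
    · exact e0
    · exact e1

/-- a polynomial whose derivative along a line vanishes on the line -/
lemma line_const {a b e : ℝ} (hab : a ≠ 0 ∨ b ≠ 0) {l : RP} (hl : l = C a * X 0 + C b * X 1 + C e) {M : RP}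
    (hM : l ∣ C (-b) * pderiv 0 M + C a * pderiv 1 M) : ∃ m0 : ℝ, ∃ M1 : RP, M = C m0 + l * M1 := by
  have hN : a ^ 2 + b ^ 2 ≠ 0 := by
    rcases hab with h1 | h1
    · have := sq_nonneg b; positivity
    · have := sq_nonneg a; positivity
  obtain ⟨N, hNd⟩ : ∃ N, N = a ^ 2 + b ^ 2 := ⟨_, rfl⟩
  rw [← hNd] at hN
  obtain ⟨ν, hν⟩ : ∃ ν : RP, ν = C (-b) * X 0 + C a * X 1 := ⟨_, rfl⟩
  have hX0 : (X 0 : RP) = C (-b / N) * ν + C (a / N) * l + C (-(a * e) / N) := by
    rw [hν, hl]
    have e1 : (C (-b / N) * C (-b) + C (a / N) * C a : RP) = 1 := by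
      rw [← C_mul, ← C_mul, ← C_add, ← C_1]; congr 1; rw [hNd] at hN ⊢; field_simp; ring
    have e2 : (C (-b / N) * C a + C (a / N) * C b : RP) = 0 := by
      rw [← C_mul, ← C_mul, ← C_add, ← C_0]; congr 1; field_simp; ring
    have e3 : (C (a / N) * C e + C (-(a * e) / N) : RP) = 0 := by
      rw [← C_mul, ← C_add, ← C_0]; congr 1; field_simp; ring
    linear_combination (-X 0) * e1 - X 1 * e2 - e3
  have hX1 : (X 1 : RP) = C (a / N) * ν + C (b / N) * l + C (-(b * e) / N) := by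
    rw [hν, hl]
    have e1 : (C (a / N) * C a + C (b / N) * C b : RP) = 1 := by
      rw [← C_mul, ← C_mul, ← C_add, ← C_1]; congr 1; rw [hNd] at hN ⊢; field_simp
    have e2 : (C (a / N) * C (-b) + C (b / N) * C a : RP) = 0 := by
      rw [← C_mul, ← C_mul, ← C_add, ← C_0]; congr 1; field_simp; ring
    have e3 : (C (b / N) * C e + C (-(b * e) / N) : RP) = 0 := by
      rw [← C_mul, ← C_add, ← C_0]; congr 1; field_simp; ring
    linear_combination (-X 1) * e1 - X 0 * e2 - e3
  have hdec : ∀ F : RP, ∃ φ : Polynomial ℝ, ∃ G : RP, F = Polynomial.aeval ν φ + l * G := by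
    intro F
    induction F using MvPolynomial.induction_on with
    | C r => exact ⟨Polynomial.C r, 0, by rw [Polynomial.aeval_C, mul_zero, add_zero]; rfl⟩
    | add p q hp hq =>
      obtain ⟨φ1, G1, e1⟩ := hp
      obtain ⟨φ2, G2, e2⟩ := hq
      refine ⟨φ1 + φ2, G1 + G2, ?_⟩
      rw [map_add]
      linear_combination e1 + e2
    | mul_X p i hp =>
      obtain ⟨φ, G, e1⟩ := hp
      have hXi : ∃ α β γ : ℝ, (X i : RP) = C α * ν + C β * l + C γ := by
        fin_cases i
        · exact ⟨_, _, _, hX0⟩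
        · exact ⟨_, _, _, hX1⟩
      obtain ⟨α, β, γ, hXi⟩ := hXi
      refine ⟨φ * (Polynomial.C α * Polynomial.X + Polynomial.C γ),
        Polynomial.aeval ν φ * C β + G * X i, ?_⟩
      rw [map_mul, map_add, map_mul, Polynomial.aeval_C, Polynomial.aeval_C, Polynomial.aeval_X]
      have c1 : (algebraMap ℝ RP) α = C α := rfl
      have c2 : (algebraMap ℝ RP) γ = C γ := rfl
      rw [c1, c2, e1]
      linear_combination (Polynomial.aeval ν φ) * hXi
  obtain ⟨φ, G, hφ⟩ := hdec M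
  have ν0 : pderiv 0 ν = C (-b) := by
    rw [hν]; simp only [map_add, Derivation.leibniz, smul_eq_mul, pderiv_C, p00, p01]; ring
  have ν1 : pderiv 1 ν = C a := by
    rw [hν]; simp only [map_add, Derivation.leibniz, smul_eq_mul, pderiv_C, p10, p11]; ring
  have l0 : pderiv 0 l = C a := by rw [hl, pd_aff0]
  have l1 : pderiv 1 l = C b := by rw [hl, pd_aff1]
  have hd : C (-b) * pderiv 0 M + C a * pderiv 1 M = C N * Polynomial.aeval ν (Polynomial.derivative φ) +
      l * (C (-b) * pderiv 0 G + C a * pderiv 1 G) := by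
    rw [hφ, map_add, map_add, Derivation.map_aeval, Derivation.map_aeval]
    simp only [Derivation.leibniz, smul_eq_mul, ν0, ν1, l0, l1]
    rw [hNd]
    simp only [C_add, C_pow, C_neg]
    ring
  have hder : Polynomial.derivative φ = 0 := by
    apply Polynomial.funext
    intro t
    rw [Polynomial.eval_zero]
    obtain ⟨x, hx⟩ : ∃ x : Fin 2 → ℝ, x = ![-b / N * t + -(a * e) / N, a / N * t + -(b * e) / N] := ⟨_, rfl⟩
    have x0 : x 0 = -b / N * t + -(a * e) / N := by rw [hx]; rfl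
    have x1 : x 1 = a / N * t + -(b * e) / N := by rw [hx]; rfl
    have el : eval x l = 0 := by
      rw [hl]; simp only [map_add, map_mul, eval_C, eval_X, x0, x1]
      rw [hNd] at hN ⊢; field_simp; ring
    have eν : eval x ν = t := by
      rw [hν]; simp only [map_add, map_mul, eval_C, eval_X, x0, x1]
      rw [hNd] at hN ⊢; field_simp; ring
    have eφ : ∀ ψ : Polynomial ℝ, eval x (Polynomial.aeval ν ψ) = Polynomial.eval t ψ := by
      intro ψ
      rw [Polynomial.aeval_def, Polynomial.hom_eval₂, eν]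
      have : (eval x).comp (algebraMap ℝ RP) = RingHom.id ℝ := by
        ext r; simp
      rw [this, Polynomial.eval₂_id]
    obtain ⟨K, hK⟩ := hM
    rw [hd] at hK
    have h1 := congrArg (eval x) hK
    simp only [map_add, map_mul, eval_C, el, zero_mul, add_zero] at h1
    rw [eφ] at h1
    exact (mul_eq_zero.1 h1).resolve_left hN
  have h0 := Polynomial.derivative_eq_zero.1 hder
  obtain ⟨m0, hm0⟩ : ∃ m0, φ = Polynomial.C m0 := ⟨_, Polynomial.eq_C_of_natDegree_eq_zero h0⟩
  refine ⟨m0, G, ?_⟩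
  rw [hφ, hm0, Polynomial.aeval_C]; rfl

namespace Bs

variable {P Q : RP} {S : Finset (Fin 2 → ℝ)}

/-- an invariant line with constant one leads to a contradiction -/
lemma line_one (h : Bs P Q S) (hrel : IsRelPrime P Q) {a b e : ℝ} (hab : a ≠ 0 ∨ b ≠ 0)
    (he : C a * P + C b * Q = (C a * X 0 + C b * X 1 + C e) * DD P Q) : False := by
  have hN : a ^ 2 + b ^ 2 ≠ 0 := by
    rcases hab with h1 | h1
    · have := sq_nonneg b; positivity
    · have := sq_nonneg a; positivity
  obtain ⟨l, hl⟩ : ∃ l : RP, l = C a * X 0 + C b * X 1 + C e := ⟨_, rfl⟩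
  rw [← hl] at he
  have l0 : pderiv 0 l = C a := by rw [hl, pd_aff0]
  have l1 : pderiv 1 l = C b := by rw [hl, pd_aff1]
  obtain ⟨m0, M1, hM⟩ := line_const hab hl (M := C (-b) * P + C a * Q) (by
    refine ⟨-(C a * pderiv 0 (DD P Q) + C b * pderiv 1 (DD P Q)), ?_⟩
    have e0 := congrArg (pderiv 0) he
    have e1 := congrArg (pderiv 1) he
    have hD : DD P Q = pderiv 0 P + pderiv 1 Q := rfl
    simp only [map_add, Derivation.leibniz, smul_eq_mul, pderiv_C, l0, l1] at e0 e1 ⊢
    simp only [C_neg]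
    linear_combination (-C a) * e0 - C b * e1 + (-(C a * C a + C b * C b)) * hD)
  have hlprime := aff_prime (l := l) (by rw [hl]; exact Dle_aff _ _ _) (by rw [hl]; exact notDle_aff hab)
  by_cases hm0 : m0 = 0
  · rw [hm0, C_0, zero_add] at hM
    have inv : (C (a ^ 2 + b ^ 2)⁻¹ * (C a * C a + C b * C b) : RP) = 1 := by
      rw [← C_mul, ← C_mul, ← C_add, ← C_mul, show a * a + b * b = a ^ 2 + b ^ 2 by ring,
        inv_mul_cancel₀ hN, C_1]
    rw [C_neg] at hM
    have dP : l ∣ P := by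
      refine ⟨C (a ^ 2 + b ^ 2)⁻¹ * (C a * DD P Q - C b * M1), ?_⟩
      linear_combination (-P) * inv + C (a ^ 2 + b ^ 2)⁻¹ * (C a * he - C b * hM)
    have dQ : l ∣ Q := by
      refine ⟨C (a ^ 2 + b ^ 2)⁻¹ * (C b * DD P Q + C a * M1), ?_⟩
      linear_combination (-Q) * inv + C (a ^ 2 + b ^ 2)⁻¹ * (C b * he + C a * hM)
    exact hlprime.not_isUnit (hrel dP dQ)
  · apply h.nc
    apply II_Cmul hm0
    refine mem_II.2 ⟨C (-b) * DD P Q - C a * M1, C a * DD P Q - C b * M1, ?_⟩
    linear_combination (DD P Q) * hM - M1 * he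

/-- the case of a relation with a conic, with one point at infinity -/
theorem fcase1 (h : Bs P Q S) (hrel : IsRelPrime P Q) {w : Fin 2 → ℝ} (hw : w ≠ 0)
    (hp : eval w (hc 4 P) = 0) (hq : eval w (hc 4 Q) = 0)
    (hD3 : eval w (pderiv 0 (hc 4 P)) + eval w (pderiv 1 (hc 4 Q)) ≠ 0)
    (hfac : ∀ g : RP, g ∣ hc 4 P → g ∣ hc 4 Q → Dle 1 g) {f α β : RP} (hf : Dle 2 f) (hf0 : f ≠ 0)
    (hα : Dle 1 α) (hβ : Dle 1 β) (hre : f * DD P Q = α * P + β * Q) : False := by
  have hph : (hc 4 P).IsHomogeneous 4 := hc_homog 4 P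
  have hqh : (hc 4 Q).IsHomogeneous 4 := hc_homog 4 Q
  obtain ⟨p, hpd⟩ : ∃ p, p = hc 4 P := ⟨_, rfl⟩
  obtain ⟨q, hqd⟩ : ∃ q, q = hc 4 Q := ⟨_, rfl⟩
  have eu0 := congrArg (eval w) (euler hph)
  have eu1 := congrArg (eval w) (euler hqh)
  simp only [map_add, map_mul, eval_X, map_natCast, hp, hq, mul_zero] at eu0 eu1
  rcases h.cls hf hf0 hα hβ hre with hI | ⟨hirr, hf1, c, he⟩
  · obtain ⟨l, c, hl, hl0, he⟩ := hI
    obtain ⟨a, b, e, rfl⟩ := aff_coords hl
    have hab := aff_ne hl0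
    have htop := gTopI h.hP h.hQ he
    have s0 := congrArg (eval w) htop
    have t0 := congrArg (fun G => eval w (pderiv 0 G)) htop
    have t1 := congrArg (fun G => eval w (pderiv 1 G)) htop
    simp only [map_add, map_mul, eval_C, eval_X, hp, hq, mul_zero, add_zero] at s0
    have hl1 : a * w 0 + b * w 1 = 0 := (mul_eq_zero.1 s0.symm).resolve_right hD3
    simp only [Derivation.leibniz, smul_eq_mul, pderiv_C, map_add, map_mul, eval_C, eval_X, hp, hq, mul_zero,
      zero_mul, add_zero, zero_add, p00, p01, p10, p11, map_one, map_zero, mul_one, hl1] at t0 t1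
    obtain ⟨κ, hκ, hwκ⟩ := dir_of hab hw hl1
    have w0 : w 0 = κ * (-b) := by
      have := congrFun hwκ 0; exact this
    have w1 : w 1 = κ * a := by
      have := congrFun hwκ 1; exact this
    rw [w0, w1] at eu0 eu1
    obtain ⟨D3, hD3d⟩ : ∃ D3, D3 = eval w (pderiv 0 (hc 4 P)) + eval w (pderiv 1 (hc 4 Q)) := ⟨_, rfl⟩
    rw [← hD3d] at hD3
    have f0 : -b * eval w (pderiv 0 (hc 4 P)) + a * eval w (pderiv 1 (hc 4 P)) = 0 := by
      apply mul_left_cancel₀ hκ
      linear_combination eu0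
    have f1 : -b * eval w (pderiv 0 (hc 4 Q)) + a * eval w (pderiv 1 (hc 4 Q)) = 0 := by
      apply mul_left_cancel₀ hκ
      linear_combination eu1
    have hN : a ^ 2 + b ^ 2 ≠ 0 := by
      rcases hab with h1 | h1
      · have := sq_nonneg b; positivity
      · have := sq_nonneg a; positivity
    have hc1 : (c - 1) * ((a ^ 2 + b ^ 2) * D3) = 0 := by
      rw [hD3d]
      linear_combination a * t0 + b * t1 - c * b * f0 + c * a * f1
    have hc1' : c = 1 := by
      have := (mul_eq_zero.1 hc1).resolve_right (mul_ne_zero hN hD3)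
      linarith
    rw [hc1', C_1, one_mul] at he
    have hX : XF P Q (C a * X 0 + C b * X 1 + C e) = C a * P + C b * Q := by
      unfold XF; rw [pd_aff0, pd_aff1]; ring
    rw [hX] at he
    exact h.line_one hrel hab he
  have hc0 : c ≠ 0 := by
    rintro rfl
    rw [C_0, zero_mul] at he
    exact mul_ne_zero hf0 h.D0 he.symm
  obtain ⟨A, B, Cc, D, E, F, hfc⟩ := quad_coords hf
  have hfq : f = qd A B Cc D E F := hfc
  by_cases hdet : A * Cc - B ^ 2 = 0
  · obtain ⟨u, v, huv, htop, _, _, k3⟩ := h.parab hfq hirr hf1 he hc0 hdet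
    have s0 := congrArg (eval w) htop
    simp only [map_add, map_mul, eval_C, eval_X, hp, hq, mul_zero, add_zero] at s0
    have hl1 : u * w 0 + v * w 1 = 0 := (mul_eq_zero.1 s0.symm).resolve_right hD3
    obtain ⟨κ, hκ, hwκ⟩ := dir_of huv hw hl1
    have hN : u ^ 2 + v ^ 2 ≠ 0 := by
      rcases huv with h1 | h1
      · have := sq_nonneg v; positivity
      · have := sq_nonneg u; positivity
    have g1 : ∀ F : RP, F.IsHomogeneous 4 → eval w F = 0 → eval ![-v, u] F = 0 := by
      intro F hF h0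
      rw [hwκ, eval_homog hF] at h0
      exact (mul_eq_zero.1 h0).resolve_left (pow_ne_zero 4 hκ)
    rw [g1 _ hph hp, g1 _ hqh hq] at k3
    have h3 : (pderiv 0 (hc 4 P) + pderiv 1 (hc 4 Q)).IsHomogeneous 3 := (homog_pd hph 0).add (homog_pd hqh 1)
    apply hD3
    rw [← map_add, hwκ, eval_homog h3, map_add]
    have k4 : (u ^ 2 + v ^ 2) * (eval ![-v, u] (pderiv 0 (hc 4 P)) + eval ![-v, u] (pderiv 1 (hc 4 Q))) = 0 := by
      linear_combination -k3
    rw [(mul_eq_zero.1 k4).resolve_left hN, mul_zero]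
  obtain ⟨f2, hf2⟩ : ∃ f2 : RP, f2 = C A * (X 0 * X 0) + 2 * C B * (X 0 * X 1) + C Cc * (X 1 * X 1) := ⟨_, rfl⟩
  obtain ⟨g1, hg1⟩ : ∃ g1 : RP, g1 = C (2 * D) * X 0 + C (2 * E) * X 1 + C F := ⟨_, rfl⟩
  have hff : f = f2 + g1 := by
    rw [hfc, hf2, hg1]
    simp only [C_mul, Cn2]
    ring
  have XX : ∀ i j : Fin 2, (X i * X j : RP).IsHomogeneous 2 := fun i j =>
    (isHomogeneous_X _ i).mul (isHomogeneous_X _ j)
  have f2h : f2.IsHomogeneous 2 := by
    rw [hf2, ← Cn2, ← C_mul]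
    exact (((XX 0 0).C_mul _).add ((XX 0 1).C_mul _)).add ((XX 1 1).C_mul _)
  have d1 : Dle 1 g1 := by rw [hg1]; exact Dle_aff _ _ _
  have htop := gTopII h.hP h.hQ hff f2h d1 he
  rw [← hpd] at htop hph hp hD3 hfac eu0
  rw [← hqd] at htop hqh hq hD3 hfac eu1
  have s0 := congrArg (eval w) htop
  simp only [map_add, map_mul, eval_C, hp, hq, mul_zero, add_zero] at s0
  have hf2w : eval w f2 = 0 := (mul_eq_zero.1 s0.symm).resolve_right hD3
  obtain ⟨u, hu⟩ : ∃ u, u = w 1 := ⟨_, rfl⟩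
  obtain ⟨v, hv⟩ : ∃ v, v = -w 0 := ⟨_, rfl⟩
  have w0 : w 0 = -v := by rw [hv]; ring
  have w1 : w 1 = u := hu.symm
  have hwe : w = ![-v, u] := by
    funext i; fin_cases i
    · exact w0
    · exact w1
  have huv : u ≠ 0 ∨ v ≠ 0 := by
    by_contra hcon
    push Not at hcon
    apply hw
    rw [hwe, hcon.1, hcon.2]
    funext i; fin_cases i
    · show -(0 : ℝ) = 0
      ring
    · rfl
  obtain ⟨mm, hmh, hm⟩ := dvd_line huv (n := 1) (F := f2) f2h (by rw [← hwe]; exact hf2w)
  obtain ⟨m0, m1, rfl⟩ := homog1 hmh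
  obtain ⟨c1, c2, c3⟩ : A = u * m0 ∧ 2 * B = u * m1 + v * m0 ∧ Cc = v * m1 := by
    have e : (C (A - u * m0) * (X 0 * X 0) + C (2 * B - (u * m1 + v * m0)) * (X 0 * X 1) +
        C (Cc - v * m1) * (X 1 * X 1) + C 0 * X 0 + C 0 * X 1 + C 0 : RP) = 0 := by
      have h1 : f2 - (C u * X 0 + C v * X 1) * (C m0 * X 0 + C m1 * X 1) = 0 := by linear_combination hm
      rw [← h1, hf2]
      simp only [C_sub, C_add, C_mul, Cn2, C_0]
      ring
    obtain ⟨z1, z2, z3, _⟩ := quad_zero e
    exact ⟨by linarith, by linarith, by linarith⟩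
  have hμ : u * m1 - v * m0 ≠ 0 := by
    intro h0
    apply hdet
    have e : A * Cc - B ^ 2 = -((u * m1 - v * m0) ^ 2) / 4 := by
      have hB : B = (u * m1 + v * m0) / 2 := by linarith
      rw [hB, c1, c3]; ring
    rw [e, h0]; ring
  have fx : pderiv 0 f2 = C (2 * A) * X 0 + C (2 * B) * X 1 := by
    rw [hf2]
    simp only [map_add, Derivation.leibniz, smul_eq_mul, pderiv_C, p00, p01, pd2, C_mul, Cn2]
    ring
  have fy : pderiv 1 f2 = C (2 * B) * X 0 + C (2 * Cc) * X 1 := by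
    rw [hf2]
    simp only [map_add, Derivation.leibniz, smul_eq_mul, pderiv_C, p10, p11, pd2, C_mul, Cn2]
    ring
  obtain ⟨D3, hD3d⟩ : ∃ D3, D3 = eval w (pderiv 0 p) + eval w (pderiv 1 q) := ⟨_, rfl⟩
  rw [← hD3d] at hD3
  -- the constant is one
  have hc1 : c = 1 := by
    have t0 := congrArg (fun G => eval w (pderiv 0 G)) htop
    have t1 := congrArg (fun G => eval w (pderiv 1 G)) htop
    rw [fx, fy] at t0 t1
    simp only [Derivation.leibniz, smul_eq_mul, pderiv_C, map_add, map_mul, eval_C, eval_X, hp, hq, mul_zero,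
      zero_mul, add_zero, zero_add, p00, p01, p10, p11, map_one, map_zero, mul_one, hf2w, fx, fy, w0, w1]
      at t0 t1
    rw [w0, w1] at eu0 eu1
    set px := eval w (pderiv 0 p)
    set py := eval w (pderiv 1 p)
    set qx := eval w (pderiv 0 q)
    set qy := eval w (pderiv 1 q)
    have hB : B = (u * m1 + v * m0) / 2 := by linarith
    rw [c1, c3, hB] at t0 t1
    have e0 : c * (u * px + v * qx) = u * D3 := by
      apply mul_left_cancel₀ hμ
      rw [hD3d]
      linear_combination t0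
    have e1 : c * (u * py + v * qy) = v * D3 := by
      apply mul_left_cancel₀ hμ
      rw [hD3d]
      linear_combination t1
    have hN : u ^ 2 + v ^ 2 ≠ 0 := by
      rcases huv with h1 | h1
      · have := sq_nonneg v; positivity
      · have := sq_nonneg u; positivity
    have e2 : (c - 1) * ((u ^ 2 + v ^ 2) * D3) = 0 := by
      rw [hD3d] at e0 e1 ⊢
      linear_combination u * e0 + v * e1 - c * v * eu0 + c * u * eu1
    have := (mul_eq_zero.1 e2).resolve_right (mul_ne_zero hN hD3)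
    linarith
  -- the other root
  obtain ⟨w', hw'⟩ : ∃ w' : Fin 2 → ℝ, w' = ![-m1, m0] := ⟨_, rfl⟩
  have w0' : w' 0 = -m1 := by rw [hw']; rfl
  have w1' : w' 1 = m0 := by rw [hw']; rfl
  have hf2w' : eval w' f2 = 0 := by
    rw [hm]; simp only [map_add, map_mul, eval_C, eval_X, w0', w1']; ring
  have hzero : eval w' p = 0 ∧ eval w' q = 0 := by
    rw [hc1, C_1, one_mul] at htop
    have s1 := congrArg (eval w') htop
    have t0 := congrArg (fun G => eval w' (pderiv 0 G)) htop
    have t1 := congrArg (fun G => eval w' (pderiv 1 G)) htop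
    have v0 := congrArg (eval w') (euler hph)
    have v1 := congrArg (eval w') (euler hqh)
    rw [fx, fy] at s1 t0 t1
    simp only [Derivation.leibniz, smul_eq_mul, pderiv_C, map_add, map_mul, eval_C, eval_X, mul_zero,
      zero_mul, add_zero, zero_add, p00, p01, p10, p11, map_one, map_zero, mul_one, hf2w', fx, fy, w0', w1',
      map_natCast] at s1 t0 t1 v0 v1
    push_cast at v0 v1
    have hB : B = (u * m1 + v * m0) / 2 := by linarith
    rw [c1, c3, hB] at s1 t0 t1
    set p1 := eval w' p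
    set q1 := eval w' q
    set px := eval w' (pderiv 0 p)
    set py := eval w' (pderiv 1 p)
    set qx := eval w' (pderiv 0 q)
    set qy := eval w' (pderiv 1 q)
    have z1 : m0 * p1 + m1 * q1 = 0 := by
      apply mul_left_cancel₀ hμ
      linear_combination -s1
    have hN' : m0 ^ 2 + m1 ^ 2 ≠ 0 := by
      by_cases h0 : m0 = 0
      · have : m1 ≠ 0 := by
          rintro rfl
          apply hμ; rw [h0]; ring
        have := sq_nonneg m0; positivity
      · have := sq_nonneg m1; positivity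
    have z2 : m1 * p1 - m0 * q1 = 0 := by
      have k : 3 * (u * m1 - v * m0) * ((m0 ^ 2 + m1 ^ 2) * (m1 * p1 - m0 * q1)) = 0 := by
        linear_combination (-(m0 ^ 2 + m1 ^ 2)) * (m0 * t0 + m1 * t1)
          + (-(m0 ^ 2 + m1 ^ 2)) * (u * m1 - v * m0) * (m1 * v0 - m0 * v1)
          + (2 * (m0 ^ 2 + m1 ^ 2) * (u * m0 + v * m1)) * z1
      have h3 : 3 * (u * m1 - v * m0) ≠ 0 := mul_ne_zero three_ne_zero hμ
      have := (mul_eq_zero.1 k).resolve_left h3
      exact (mul_eq_zero.1 this).resolve_left hN'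
    constructor
    · have : (m0 ^ 2 + m1 ^ 2) * p1 = 0 := by linear_combination m0 * z1 + m1 * z2
      exact (mul_eq_zero.1 this).resolve_left hN'
    · have : (m0 ^ 2 + m1 ^ 2) * q1 = 0 := by linear_combination m1 * z1 - m0 * z2
      exact (mul_eq_zero.1 this).resolve_left hN'
  have hm01 : m0 ≠ 0 ∨ m1 ≠ 0 := by
    by_contra hcon
    push Not at hcon
    apply hμ; rw [hcon.1, hcon.2]; ring
  have hdv : ∀ F : RP, F.IsHomogeneous 4 → eval w F = 0 → eval w' F = 0 → f2 ∣ F := by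
    intro F hF h0 h1
    obtain ⟨G, hG, e⟩ := dvd_line huv (n := 3) hF (by rw [← hwe]; exact h0)
    have h2 : eval w' G = 0 := by
      rw [e] at h1
      simp only [map_add, map_mul, eval_C, eval_X, w0', w1'] at h1
      refine (mul_eq_zero.1 h1).resolve_left ?_
      intro h3
      apply hμ
      linear_combination -h3
    obtain ⟨G', hG', e'⟩ := dvd_line hm01 (n := 2) hG (by rw [← hw']; exact h2)
    exact ⟨G', by rw [e, e', hm]; ring⟩
  have h1 := hfac f2 (hdv p hph hp hzero.1) (hdv q hqh hq hzero.2)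
  have h2 := homog_Dle_zero f2h h1 (by norm_num)
  apply hdet
  have e : (C A * (X 0 * X 0) + C (2 * B) * (X 0 * X 1) + C Cc * (X 1 * X 1) + C 0 * X 0 + C 0 * X 1 + C 0 : RP) = 0 := by
    rw [← h2, hf2, C_0, C_mul, Cn2]; ring
  obtain ⟨z1, z2, z3, _⟩ := quad_zero e
  have hB : B = 0 := by linarith
  rw [z1, z3, hB]; ring

end Bs

end Run7.h256
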