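import Mathlib
import Pool.Agent.Run7.h256.Top
import Pool.Agent.Run7.h256.X2
import Pool.Agent.Run7.h256.X3

set_option autoImplicit false

namespace Run7.h256

open MvPolynomial

/-- coprime quartic systems: no nine nondegenerate centres -/
theorem coprime_all {P Q : RP} {S : Finset (Fin 2 → ℝ)} (hP : Dle 4 P) (hQ : Dle 4 Q)
    (hrel : IsRelPrime P Q) (h4 : ¬ (Dle 3 P ∧ Dle 3 Q)) (hS : SS P Q S) (hD : DD P Q ≠ 0)
    (hdS : ∀ p ∈ S, eval p (DD P Q) = 0) (hK : ∀ p ∈ S, KC (cx P) (cx Q) (cp p))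
    (hL : ∀ p ∈ S, LC (cx P) (cx Q) (cp p)) : False := by
  by_cases hr : IsRelPrime (hc 4 P) (hc 4 Q)
  · exact coprime_false ⟨hP, hQ, hr⟩ hS hD hdS hK hL
  · obtain ⟨δ, L, Δ, h⟩ := exists_TPk hP hQ hrel h4 hS
    have hdD : Dle 3 (DD P Q) := Dle_DD hP hQ
    obtain ⟨⟨w, hw, hp, hq, hD3⟩, hnc⟩ := h.inf1 hr hD hdS
    have hbs : Bs P Q S := by
      refine ⟨hP, hQ, hS.card, fun {p} hp => hS.zero p hp, hdS, fun p hp => Jn_of_J (hS.Jp p hp),
        fun p hp a b c k h1 h2 h3 => Li_of_J (hS.zero p hp).1 (hS.zero p hp).2 (hS.Jp p hp) (hdS p hp) a b c k h1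
          h2 h3, hK, hD, ?_, ?_, ?_, hnc⟩
      · intro F hF hFS; exact h.conic hF hFS
      · intro F hF hFS; exact h.cubic hdD hD hdS hF hFS
      · intro u v hu hv huv; exact h.inj3 hu hv huv
    refine hbs.final hrel h4 ?_ (fun p hp => Or.inl ⟨(hS.Jp p hp).ne', hL p hp⟩)
    intro f α β hf hα hβ hf0 he
    exact hbs.fcase1 hrel hw hp hq hD3 (fun g h1 h2 => h.fac1 hdD hD hdS h1 h2) hf hf0 hα hβ he

lemma exists_gcdsplitR (a b : RP) : ∃ g a' b' : RP, IsRelPrime a' b' ∧ g * a' = a ∧ g * b' = b := by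
  by_cases ha : a = 0
  · by_cases hb : b = 0
    · exact ⟨0, 1, 1, isRelPrime_one_left, by simp [ha], by simp [hb]⟩
    · obtain ⟨b', a', g, h1, h2, h3⟩ := UniqueFactorizationMonoid.exists_reduced_factors b hb a
      exact ⟨g, a', b', h1.symm, h3, h2⟩
  · obtain ⟨a', b', g, h1, h2, h3⟩ := UniqueFactorizationMonoid.exists_reduced_factors a ha b
    exact ⟨g, a', b', h1, h2, h3⟩

lemma SS.P_ne {P Q : RP} {S : Finset (Fin 2 → ℝ)} (h : SS P Q S) : P ≠ 0 := by
  rintro rfl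
  have hne : S.Nonempty := by rw [← Finset.card_pos, h.card]; norm_num
  obtain ⟨s, hs⟩ := hne
  have := h.Jp s hs
  unfold Jac at this
  simp at this

/-- two cubics cannot have nine common zeros with positive Jacobian -/
theorem cubic_false {P Q : RP} {S : Finset (Fin 2 → ℝ)} (hP : Dle 3 P) (hQ : Dle 3 Q)
    (hrel : IsRelPrime P Q) (hS : SS P Q S) : False := by
  classical
  have hP0 := hS.P_ne
  have hQ0 := hS.Q_ne
  have hP3 : ¬ Dle 2 P := by
    intro h2
    have h1 := bezout hrel hQ0 S (fun s hs => hS.zero s hs)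
    rw [hS.card] at h1
    have : P.totalDegree * Q.totalDegree ≤ 2 * 3 := Nat.mul_le_mul h2 hQ
    omega
  obtain ⟨N, hN⟩ : ∃ N : ℝ, N = 1 + ∑ s ∈ S, |s 0| := ⟨_, rfl⟩
  obtain ⟨a, ha⟩ : ∃ a : ℕ → RP, a = fun i : ℕ => (X 0 + C (N + (i : ℝ)) : RP) := ⟨_, rfl⟩
  have da : ∀ i, Dle 1 (a i) := by
    intro i; rw [ha]; exact (Dle.X le_rfl 0).add (Dle.C _)
  have haff : ∀ i, a i = C 1 * X 0 + C 0 * X 1 + C (N + i) := by
    intro i; rw [ha, C_1, C_0]; ring
  have hnd : ∀ i, ¬ Dle 0 (a i) := by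
    intro i; rw [haff]; exact notDle_aff (Or.inl one_ne_zero)
  have hprime : ∀ i, Prime (a i) := fun i => aff_prime (da i) (hnd i)
  obtain ⟨i, hi⟩ : ∃ i, ¬ a i ∣ Q := by
    by_contra hcon
    push Not at hcon
    have h1 : (∏ i ∈ Finset.range 4, a i) ∣ Q := by
      apply Finset.prod_dvd_of_coprime
      · intro i _ j _ hij
        have hne : ((i : ℝ) - j) ≠ 0 := by
          rw [sub_ne_zero]; exact_mod_cast hij
        refine ⟨C ((i : ℝ) - j)⁻¹, -C ((i : ℝ) - j)⁻¹, ?_⟩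
        rw [ha]
        have : (C ((i : ℝ) - j)⁻¹ * C ((i : ℝ) - j) : RP) = 1 := by
          rw [← C_mul, inv_mul_cancel₀ hne, C_1]
        simp only [C_add, C_sub] at this ⊢
        linear_combination this
      · intro i _; exact hcon i
    obtain ⟨B, hB⟩ := h1
    have hB0 : B ≠ 0 := by rintro rfl; exact hQ0 (by rw [hB, mul_zero])
    have hprod : ∀ n, (∏ i ∈ Finset.range n, a i) ≠ 0 ∧ (∏ i ∈ Finset.range n, a i).totalDegree = n := by
      intro n
      induction n with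
      | zero => simp
      | succ n ih =>
        rw [Finset.prod_range_succ]
        refine ⟨mul_ne_zero ih.1 (hprime n).ne_zero, ?_⟩
        rw [totalDegree_mul_eq ih.1 (hprime n).ne_zero, ih.2]
        have h1 := da n
        have h2 := hnd n
        unfold Dle at h1 h2
        omega
    have h2 : Dle 3 Q := hQ
    rw [hB] at h2
    unfold Dle at h2
    rw [totalDegree_mul_eq (hprod 4).1 hB0, (hprod 4).2] at h2
    omega
  have hpos : ∀ s ∈ S, 0 < eval s (a i) := by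
    intro s hs
    rw [ha]
    simp only [map_add, eval_X, eval_C]
    have h1 : |s 0| ≤ ∑ s ∈ S, |s 0| :=
      Finset.single_le_sum (f := fun s : Fin 2 → ℝ => |s 0|) (fun s _ => abs_nonneg _) hs
    have h2 := neg_abs_le (s 0)
    have h3 : (0 : ℝ) ≤ i := Nat.cast_nonneg i
    linarith
  have hrel' : IsRelPrime (a i * P) Q :=
    IsRelPrime.mul_left ((hprime i).irreducible.isRelPrime_iff_not_dvd.2 hi) hrel
  have h4 : ¬ (Dle 3 (a i * P) ∧ Dle 3 Q) := by
    rintro ⟨h5, _⟩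
    apply hP3
    have h1 := hnd i
    unfold Dle at *
    rw [totalDegree_mul_eq (hprime i).ne_zero hP0] at h5
    omega
  have hS' : SS (a i * P) Q S := by
    refine ⟨hS.card, ?_, ?_⟩
    · intro s hs
      rw [map_mul, (hS.zero s hs).1, mul_zero]
      exact ⟨rfl, (hS.zero s hs).2⟩
    · intro s hs
      have e : eval s (Jac (a i * P) Q) = eval s (a i) * eval s (Jac P Q) := by
        unfold Jac
        simp only [Derivation.leibniz, smul_eq_mul, map_add, map_sub, map_mul, (hS.zero s hs).1]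
        ring
      rw [e]
      exact mul_pos (hpos s hs) (hS.Jp s hs)
  obtain ⟨δ, L, Δ, h⟩ := exists_TPk ((da i).mul hP (by omega)) (hQ.mono (by norm_num)) hrel' h4 hS'
  obtain ⟨c, hc⟩ := h.cubic hP hP0 (fun s hs => (hS.zero s hs).1) hQ (fun s hs => (hS.zero s hs).2)
  have hne : S.Nonempty := by rw [← Finset.card_pos, hS.card]; norm_num
  obtain ⟨s, hs⟩ := hne
  have h1 := hS.Jp s hs
  rw [hc] at h1
  unfold Jac at h1
  simp only [Derivation.leibniz, smul_eq_mul, pderiv_C, map_add, map_sub, map_mul, eval_C,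
    mul_zero, add_zero] at h1
  have : eval s (pderiv 0 P) * (c * eval s (pderiv 1 P)) - eval s (pderiv 1 P) * (c * eval s (pderiv 0 P)) = 0 := by
    ring
  rw [this] at h1
  exact lt_irrefl 0 h1

/-- no nine nondegenerate centres in degree at most four -/
theorem nd_false {P Q : RP} {S : Finset (Fin 2 → ℝ)} (hP : Dle 4 P) (hQ : Dle 4 Q)
    (hS : SS P Q S) (hD : DD P Q ≠ 0)
    (hdS : ∀ p ∈ S, eval p (DD P Q) = 0) (hK : ∀ p ∈ S, KC (cx P) (cx Q) (cp p))
    (hL : ∀ p ∈ S, LC (cx P) (cx Q) (cp p)) : False := by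
  by_cases hrel : IsRelPrime P Q
  · by_cases h4 : Dle 3 P ∧ Dle 3 Q
    · exact cubic_false h4.1 h4.2 hrel hS
    · exact coprime_all hP hQ hrel h4 hS hD hdS hK hL
  · obtain ⟨g, P1, Q1, hr, e1, e2⟩ := exists_gcdsplitR P Q
    have hP0 := hS.P_ne
    have hQ0 := hS.Q_ne
    have hg0 : g ≠ 0 := by rintro rfl; exact hP0 (by rw [← e1, zero_mul])
    have hgd : ¬ Dle 0 g := by
      intro h0
      apply hrel
      obtain ⟨g', hg'⟩ := (unit_of hg0 h0).exists_left_inv
      intro f h1 h2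
      apply hr
      · have : P1 = g' * P := by rw [← e1]; linear_combination (-P1) * hg'
        rw [this]; exact Dvd.dvd.mul_left h1 g'
      · have : Q1 = g' * Q := by rw [← e2]; linear_combination (-Q1) * hg'
        rw [this]; exact Dvd.dvd.mul_left h2 g'
    have d1 : Dle 3 P1 := dvd_Dle (by rw [e1]; exact hP) hg0 hgd
    have d2 : Dle 3 Q1 := dvd_Dle (by rw [e2]; exact hQ) hg0 hgd
    apply cubic_false d1 d2 hr (S := S)
    have hgs : ∀ s ∈ S, eval s g ≠ 0 := by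
      intro s hs h0
      have h1 := hS.Jp s hs
      rw [← e1, ← e2] at h1
      unfold Jac at h1
      simp only [Derivation.leibniz, smul_eq_mul, map_add, map_sub, map_mul, h0, zero_mul, zero_add] at h1
      have : eval s P1 * eval s (pderiv 0 g) * (eval s Q1 * eval s (pderiv 1 g)) -
          eval s P1 * eval s (pderiv 1 g) * (eval s Q1 * eval s (pderiv 0 g)) = 0 := by ring
      rw [this] at h1
      exact lt_irrefl 0 h1
    have hz : ∀ s ∈ S, eval s P1 = 0 ∧ eval s Q1 = 0 := by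
      intro s hs
      obtain ⟨h1, h2⟩ := hS.zero s hs
      rw [← e1, map_mul] at h1
      rw [← e2, map_mul] at h2
      exact ⟨(mul_eq_zero.1 h1).resolve_left (hgs s hs), (mul_eq_zero.1 h2).resolve_left (hgs s hs)⟩
    refine ⟨hS.card, hz, ?_⟩
    intro s hs
    have h1 := hS.Jp s hs
    obtain ⟨z1, z2⟩ := hz s hs
    have e : eval s (Jac P Q) = eval s g ^ 2 * eval s (Jac P1 Q1) := by
      rw [← e1, ← e2]
      unfold Jac
      simp only [Derivation.leibniz, smul_eq_mul, map_add, map_sub, map_mul, z1, z2]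
      ring
    rw [e] at h1
    exact pos_of_mul_pos_right h1 (sq_nonneg _)

theorem stage3 (P Q : RP) (hP : P.totalDegree ≤ 4) (hQ : Q.totalDegree ≤ 4)
    (hdiv : pderiv 0 P + pderiv 1 Q ≠ 0) :
    {p | IsCenter P Q p ∧ eval p (pderiv 0 P * pderiv 1 Q - pderiv 1 P * pderiv 0 Q) ≠ 0}.encard ≤ 8 := by
  by_contra hcon
  rw [not_le] at hcon
  have h9 : (9 : ℕ∞) ≤ {p | IsCenter P Q p ∧
      eval p (pderiv 0 P * pderiv 1 Q - pderiv 1 P * pderiv 0 Q) ≠ 0}.encard := by
    have := Order.add_one_le_of_lt hcon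
    exact this
  obtain ⟨t, ht, htc⟩ := Set.exists_subset_encard_eq h9
  have hfin : t.Finite := Set.finite_of_encard_eq_coe (k := 9) htc
  rw [hfin.encard_eq_coe_toFinset_card] at htc
  have hcard : hfin.toFinset.card = 9 := by exact_mod_cast htc
  have hall : ∀ p ∈ hfin.toFinset, (eval p P = 0 ∧ eval p Q = 0) ∧ 0 < eval p (Jac P Q) ∧
      eval p (pderiv 0 P + pderiv 1 Q) = 0 ∧ KC (cx P) (cx Q) (cp p) ∧ LC (cx P) (cx Q) (cp p) := by
    intro p hp
    obtain ⟨h1, h2⟩ := ht (hfin.mem_toFinset.1 hp)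
    exact ⟨⟨h1.1, h1.2.1⟩, center_cx h1.1 h1.2.1 h2 h1.smallAt⟩
  exact nd_false (S := hfin.toFinset) hP hQ ⟨hcard, fun s hs => (hall s hs).1, fun s hs => (hall s hs).2.1⟩
    hdiv (fun p hp => (hall p hp).2.2.1) (fun p hp => (hall p hp).2.2.2.1) (fun p hp => (hall p hp).2.2.2.2)

end Run7.h256
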