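import Mathlib
import Pool.Agent.Run7.h256.G1
import Pool.Agent.Run7.h256.X4

set_option autoImplicit false

namespace Run7.h256

open MvPolynomial

/-- the data of a centre used in the sequel -/
def Ctr (P Q : RP) (p : Fin 2 → ℝ) : Prop := eval p P = 0 ∧ eval p Q = 0 ∧ SurrAt P Q p

lemma Ctr.nondeg {P Q : RP} {p : Fin 2 → ℝ} (h : Ctr P Q p) (hJ : eval p (Jac P Q) ≠ 0) :
    0 < eval p (Jac P Q) ∧ eval p (DD P Q) = 0 ∧ KC (cx P) (cx Q) (cp p) ∧ LC (cx P) (cx Q) (cp p) :=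
  center_cx h.1 h.2.1 hJ h.2.2.small

lemma Ctr.Jn {P Q : RP} {p : Fin 2 → ℝ} (h : Ctr P Q p) : 0 ≤ eval p (Jac P Q) := by
  by_cases hJ : eval p (Jac P Q) = 0
  · rw [hJ]
  · exact (h.nondeg hJ).1.le

lemma Ctr.D0 {P Q : RP} {p : Fin 2 → ℝ} (h : Ctr P Q p) : eval p (DD P Q) = 0 := by
  by_cases hJ : eval p (Jac P Q) = 0
  · exact (deg_class h.1 h.2.1 h.2.2 hJ).1
  · exact (h.nondeg hJ).2.1

lemma Ctr.bk {P Q : RP} {p : Fin 2 → ℝ} (h : Ctr P Q p) {s : Fin 2 → ℝ} {a b c d : ℝ}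
    (hd : a * d - b * c ≠ 0) : Ctr (PA s a b c d P Q) (QA s a b c d P Q) (Run7.h256.bk s a b c d p) := by
  obtain ⟨h1, h2⟩ := eval_A (s := s) hd h.1 h.2.1
  exact ⟨h1, h2, h.2.2.bk hd⟩

/-- curves through a degenerate centre -/
lemma Ctr.curve {P Q : RP} {p : Fin 2 → ℝ} (h : Ctr P Q p) (hJ : eval p (Jac P Q) = 0) :
    ∃ Γ c, Nc P Q p Γ c ∧ 0 ≤ c := by
  rcases (deg_class h.1 h.2.1 h.2.2 hJ).2 with ⟨h1, h2⟩ | ⟨a, b, c, d, hd, hn⟩
  · obtain ⟨Γ, hΓ, _⟩ := (Nc_flat h1 h2 (v := ![1, 0]) (Or.inl (by simp))).back (by norm_num)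
    exact ⟨Γ, 0, hΓ, le_rfl⟩
  · obtain ⟨Γ, hΓ, _⟩ := (Nc_nil hn.p00 hn.p10 hn.p01 hn.q00 hn.q10 hn.q01 hn.q20).1.back hd
    refine ⟨Γ, _, hΓ, ?_⟩
    rcases hn.cls with h1 | h1
    · rw [h1.1, neg_zero]
    · linarith [h1.1]

/-- coprime systems of degree four -/
theorem coprime_ctr {P Q : RP} {S : Finset (Fin 2 → ℝ)} (hP : Dle 4 P) (hQ : Dle 4 Q) (hrel : IsRelPrime P Q)
    (h4 : ¬ (Dle 3 P ∧ Dle 3 Q)) (hD : DD P Q ≠ 0) (hc : S.card = 9) (hS : ∀ p ∈ S, Ctr P Q p) : False := by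
  classical
  have hne : S.Nonempty := by rw [← Finset.card_pos, hc]; norm_num
  obtain ⟨p0, hp0⟩ := hne
  have hQ0 : Q ≠ 0 := by
    rintro rfl
    have h1 : IsUnit P := hrel dvd_rfl (dvd_zero P)
    obtain ⟨u, hu⟩ := h1.exists_right_inv
    have := congrArg (eval p0) hu
    rw [map_mul, (hS p0 hp0).1, zero_mul, map_one] at this
    exact zero_ne_one this
  -- some centre is nondegenerate
  have hex : ∃ p ∈ S, 0 < eval p (Jac P Q) := by
    by_contra hcon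
    push Not at hcon
    have hall : ∀ p ∈ S, eval p (Jac P Q) = 0 := fun p hp => le_antisymm (hcon p hp) (hS p hp).Jn
    have hcur : ∀ p : Fin 2 → ℝ, ∃ Γ : Fin 2 → PowerSeries ℝ, p ∈ S → ∃ c, Nc P Q p Γ c := by
      intro p
      by_cases hp : p ∈ S
      · obtain ⟨Γ, c, hΓ, _⟩ := (hS p hp).curve (hall p hp)
        exact ⟨Γ, fun _ => ⟨c, hΓ⟩⟩
      · exact ⟨sl 0 0, fun h => absurd h hp⟩
    choose Γ hΓ using hcur
    have := mult_count hrel hQ0 S S subset_rfl (fun p hp => ⟨(hS p hp).1, (hS p hp).2.1⟩) Γ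
      (fun p hp => by obtain ⟨c, n⟩ := hΓ p hp; exact n.base)
      (fun p hp => by obtain ⟨c, n⟩ := hΓ p hp; exact n.dir')
      (fun p hp => by obtain ⟨c, n⟩ := hΓ p hp; exact n.Pz 1 (by norm_num))
      (fun p hp => by obtain ⟨c, n⟩ := hΓ p hp; exact n.Qz 1 (by norm_num))
    have h1 : P.totalDegree * Q.totalDegree ≤ 4 * 4 := Nat.mul_le_mul hP hQ
    omega
  have hS9 : S9 P Q S := ⟨hP, hQ, hrel, h4, hc, fun p hp => ⟨(hS p hp).1, (hS p hp).2.1⟩,
    fun p hp => (hS p hp).Jn, hex⟩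
  by_cases hdeg : ∃ s ∈ S, eval s (Jac P Q) = 0
  · obtain ⟨s, hs, hJs⟩ := hdeg
    -- it is the only one
    have honly : ∀ p ∈ S, p ≠ s → 0 < eval p (Jac P Q) := by
      intro p hp hps
      by_contra hcon
      have hJp : eval p (Jac P Q) = 0 := le_antisymm (not_lt.1 hcon) (hS p hp).Jn
      obtain ⟨Γ1, c1, n1, hc1⟩ := (hS p hp).curve hJp
      obtain ⟨Γ2, c2, n2, hc2⟩ := (hS s hs).curve hJs
      exact hS9.two_false hp hs n1 n2 hc1 hc2 (Or.inl hps)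
    rcases (deg_class (hS s hs).1 (hS s hs).2.1 (hS s hs).2.2 hJs).2 with ⟨h1, h2⟩ | ⟨a, b, c, d, hd, hn⟩
    · obtain ⟨Γ1, n1, f1⟩ := (Nc_flat h1 h2 (v := ![1, 0]) (Or.inl (by simp))).back (by norm_num)
      obtain ⟨Γ2, n2, f2⟩ := (Nc_flat h1 h2 (v := ![0, 1]) (Or.inr (by simp))).back (by norm_num)
      have g1 : ∀ v : Fin 2 → ℝ, ph (sl 0 v) 1 (af s 1 0 0 1 (X 0)) = v 0 ∧
          ph (sl 0 v) 1 (af s 1 0 0 1 (X 1)) = v 1 := by
        intro v
        constructor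
        · rw [af_X0, map_add, map_add, ph_C1 _ _ _ (by norm_num), ph_Cmul, ph_Cmul, ph_X, sl1]; ring
        · rw [af_X1, map_add, map_add, ph_C1 _ _ _ (by norm_num), ph_Cmul, ph_Cmul, ph_X, ph_X, sl1, sl1]; ring
      refine hS9.two_false hs hs n1 n2 le_rfl le_rfl (Or.inr ⟨rfl, rfl, rfl, ?_⟩)
      rw [← ph_X, ← ph_X, ← ph_X, ← ph_X, f1, f1, f2, f2, (g1 _).1, (g1 _).1, (g1 _).2, (g1 _).2]
      simp
    · have hC : ∀ q ∈ S.image (Run7.h256.bk s a b c d), Ctr (PA s a b c d P Q) (QA s a b c d P Q) q := by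
        intro q hq
        obtain ⟨p, hp, rfl⟩ := Finset.mem_image.1 hq
        exact (hS p hp).bk hd
      have hJq : ∀ p, eval (Run7.h256.bk s a b c d p) (Jac (PA s a b c d P Q) (QA s a b c d P Q)) =
          eval p (Jac P Q) := by
        intro p
        rw [Jac_A hd, eval_af, fw_bk hd]
      have hpos : ∀ q ∈ S.image (Run7.h256.bk s a b c d), q ≠ 0 →
          0 < eval q (Jac (PA s a b c d P Q) (QA s a b c d P Q)) := by
        intro q hq hq0
        obtain ⟨p, hp, rfl⟩ := Finset.mem_image.1 hq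
        rw [hJq]
        apply honly p hp
        rintro rfl
        exact hq0 (bk_self hd)
      have hdA := Dle_A s a b c d hP hQ
      refine nil_false (S := S.image (Run7.h256.bk s a b c d))
        ⟨hdA.1, hdA.2, rel_A hd hrel, ?_, ?_, ?_, ?_, ?_⟩ ?_ hn ?_ hpos ?_ ?_ ?_ ?_
      · rintro ⟨k1, k2⟩
        exact h4 (Dle_A' hd k1 k2)
      · rw [Finset.card_image_of_injective _ (bk_inj hd), hc]
      · intro q hq
        exact ⟨(hC q hq).1, (hC q hq).2.1⟩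
      · intro q hq
        exact (hC q hq).Jn
      · obtain ⟨p, hp, hJ⟩ := hex
        exact ⟨_, Finset.mem_image_of_mem _ hp, by rw [hJq]; exact hJ⟩
      · exact Finset.mem_image.2 ⟨s, hs, bk_self hd⟩
      · have := (hS s hs).2.2.bk (s := s) hd
        rwa [bk_self hd] at this
      · intro h0
        unfold DD at h0
        rw [DD_A hd] at h0
        apply hD
        have := af_af (s := s) hd (pderiv 0 P + pderiv 1 Q)
        rw [h0, map_zero] at this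
        exact this.symm
      · intro q hq
        exact (hC q hq).D0
      · intro q hq hq0
        exact ((hC q hq).nondeg (hpos q hq hq0).ne').2.2.1
      · intro q hq hq0
        exact ((hC q hq).nondeg (hpos q hq hq0).ne').2.2.2
  · push Not at hdeg
    refine nd_false (S := S) hP hQ ⟨hc, fun p hp => ⟨(hS p hp).1, (hS p hp).2.1⟩,
      fun p hp => ((hS p hp).nondeg (hdeg p hp)).1⟩ hD (fun p hp => (hS p hp).D0)
      (fun p hp => ((hS p hp).nondeg (hdeg p hp)).2.2.1) (fun p hp => ((hS p hp).nondeg (hdeg p hp)).2.2.2)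

end Run7.h256
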