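import Mathlib
import Pool.Agent.Run7.h256.G2

set_option autoImplicit false

namespace Run7.h256

open MvPolynomial

/-- Lyapunov function at a saddle -/
theorem hyp_F {P Q : RP} (hP : eval 0 P = 0) (hQ : eval 0 Q = 0)
    (hneg : eval 0 (pderiv 0 P) * eval 0 (pderiv 1 Q) - eval 0 (pderiv 1 P) * eval 0 (pderiv 0 Q) < 0) :
    ∃ F : RP, ∃ r : ℝ, 0 < r ∧ ∀ v : Fin 2 → ℝ, v ≠ 0 → ‖v‖ < r → 0 < eval v (XF P Q F) := by
  have hP1 := lin_part hP
  have hQ1 := lin_part hQ
  set m11 := eval 0 (pderiv 0 P)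
  set m12 := eval 0 (pderiv 1 P)
  set m21 := eval 0 (pderiv 0 Q)
  set m22 := eval 0 (pderiv 1 Q)
  set u : RP := C m11 * X 0 + C m12 * X 1 with hu
  set v : RP := C m21 * X 0 + C m22 * X 1 with hv
  have ux : pderiv 0 u = C m11 := by
    simp only [hu, map_add, Derivation.leibniz, smul_eq_mul, pderiv_C, p00, p01]; ring
  have uy : pderiv 1 u = C m12 := by
    simp only [hu, map_add, Derivation.leibniz, smul_eq_mul, pderiv_C, p10, p11]; ring
  have vx : pderiv 0 v = C m21 := by
    simp only [hv, map_add, Derivation.leibniz, smul_eq_mul, pderiv_C, p00, p01]; ring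
  have vy : pderiv 1 v = C m22 := by
    simp only [hv, map_add, Derivation.leibniz, smul_eq_mul, pderiv_C, p10, p11]; ring
  have Ou : Og 1 u := ((Og.X 0).mul_left _).add ((Og.X 1).mul_left _)
  have Ov : Og 1 v := ((Og.X 0).mul_left _).add ((Og.X 1).mul_left _)
  -- general quadratic
  have key : ∀ a b c : ℝ, Og 3 (XF P Q (C a * (X 0 * X 0 + X 1 * X 1) + C b * (X 0 * u + X 1 * v) +
      C c * (u * u + v * v)) - (C (2 * a) * (X 0 * u + X 1 * v) + C b * ((u * u + v * v) +
      C (m11 + m22) * (X 0 * u + X 1 * v) - C (m11 * m22 - m12 * m21) * (X 0 * X 0 + X 1 * X 1)) +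
      C (2 * c) * (C (m11 + m22) * (u * u + v * v) - C (m11 * m22 - m12 * m21) * (X 0 * u + X 1 * v)))) := by
    intro a b c
    have h1 : Og 2 (C a * (X 0 * X 0 + X 1 * X 1) + C b * (X 0 * u + X 1 * v) + C c * (u * u + v * v)) := by
      refine Og.add (Og.add ?_ ?_) ?_
      · exact (((Og.X 0).mul (Og.X 0) (by omega)).add ((Og.X 1).mul (Og.X 1) (by omega))).mul_left _
      · exact (((Og.X 0).mul Ou (by omega)).add ((Og.X 1).mul Ov (by omega))).mul_left _
      · exact ((Ou.mul Ou (by omega)).add (Ov.mul Ov (by omega))).mul_left _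
    have h2 := XF_near (n := 1) hP1 hQ1 h1
    convert h2 using 2
    simp only [XF, map_add, Derivation.leibniz, smul_eq_mul, pderiv_C, p00, p01, p10, p11, ux, uy, vx, vy]
    have c2 : (C 2 : RP) = 2 := map_ofNat C 2
    simp only [C_mul, C_add, C_sub, c2, hu, hv]
    ring
  have evu : ∀ w : Fin 2 → ℝ, eval w u = m11 * w 0 + m12 * w 1 := by
    intro w; simp [hu]
  have evv : ∀ w : Fin 2 → ℝ, eval w v = m21 * w 0 + m22 * w 1 := by
    intro w; simp [hv]
  set J := m11 * m22 - m12 * m21 with hJ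
  set D := m11 + m22 with hD
  have h1 := key (-(D / 2)) 1 0
  obtain ⟨r, hr, hr'⟩ := pos_near (n := 2) (δ := -J) (by linarith) (H := u * u + v * v - C J * (X 0 * X 0 + X 1 * X 1))
    (G := XF P Q (C (-(D / 2)) * (X 0 * X 0 + X 1 * X 1) + C 1 * (X 0 * u + X 1 * v) +
      C 0 * (u * u + v * v))) (by
      intro w
      simp only [map_sub, map_add, map_mul, eval_C, eval_X, evu, evv]
      have := norm_sq_le w
      nlinarith [sq_nonneg (m11 * w 0 + m12 * w 1), sq_nonneg (m21 * w 0 + m22 * w 1)]) (by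
      convert h1 using 2
      have e1 : (C (2 * -(D / 2)) : RP) = - C D := by rw [← C_neg]; congr 1; ring
      rw [e1]
      simp only [mul_zero, C_0, zero_mul, add_zero, C_1, one_mul]
      ring)
  exact ⟨_, r, hr, hr'⟩

lemma tau_neg (p : Fin 2 → ℝ) (F : RP) : tau p (tau (-p) F) = F := by
  apply MvPolynomial.funext
  intro v
  rw [eval_tau, eval_tau]
  congr 1
  congr 1
  ext i; simp

/-- Lyapunov function at a saddle, anywhere -/
lemma hyp_G {P Q : RP} {p : Fin 2 → ℝ} (hP : eval p P = 0) (hQ : eval p Q = 0)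
    (hneg : eval p (Jac P Q) < 0) :
    ∃ G : RP, ∃ r : ℝ, 0 < r ∧ ∀ q : Fin 2 → ℝ, q ≠ p → ‖q - p‖ < r → 0 < eval q (XF P Q G) := by
  have hJe : eval 0 (pderiv 0 (tau p P)) * eval 0 (pderiv 1 (tau p Q)) -
      eval 0 (pderiv 1 (tau p P)) * eval 0 (pderiv 0 (tau p Q)) = eval p (Jac P Q) := by
    simp only [tau_pderiv, eval_tau_zero, Jac, map_sub, map_mul]
  obtain ⟨F, r, hr, hF⟩ := hyp_F (P := tau p P) (Q := tau p Q) (by rw [eval_tau_zero, hP])
    (by rw [eval_tau_zero, hQ]) (by rw [hJe]; exact hneg)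
  refine ⟨tau (-p) F, r, hr, ?_⟩
  intro q hq hqr
  have h1 := hF (q - p) (sub_ne_zero.2 hq) hqr
  have h2 : XF (tau p P) (tau p Q) F = tau p (XF P Q (tau (-p) F)) := by
    unfold XF
    rw [map_add, map_mul, map_mul, ← tau_pderiv, ← tau_pderiv, tau_neg]
  rw [h2, eval_tau] at h1
  rwa [sub_add_cancel] at h1

/-- a common factor does not help -/
lemma no_factor {g P1 Q1 : RP} {p : Fin 2 → ℝ} (h : SurrAt (g * P1) (g * Q1) p) (G : RP) {r : ℝ} (hr : 0 < r)
    (hpos : ∀ q : Fin 2 → ℝ, q ≠ p → ‖q - p‖ < r → 0 < eval q (XF P1 Q1 G)) : False := by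
  obtain ⟨γ, T, g1, g2, g3, g4, g5, g6, _⟩ := h r hr
  obtain ⟨t0, h0, _⟩ := exists_max (fun t => g1.chain G t) g2 (fun t => by rw [g3])
  have e : XF (g * P1) (g * Q1) G = g * XF P1 Q1 G := by unfold XF; ring
  rw [e, map_mul] at h0
  rcases mul_eq_zero.1 h0 with h1 | h1
  · exact g1.ne_eq g2 g3 g6 (q := γ t0) (by rw [map_mul, h1, zero_mul]) (by rw [map_mul, h1, zero_mul]) t0 rfl
  · exact (hpos _ (g4 t0) (g5 t0)).ne' h1

/-- centres of a multiple of a cubic system -/
theorem cubic_ctr {g P1 Q1 : RP} (d1 : Dle 3 P1) (d2 : Dle 3 Q1) (hr : IsRelPrime P1 Q1)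
    {S : Finset (Fin 2 → ℝ)} (hc : S.card = 9) (hS : ∀ p ∈ S, SurrAt (g * P1) (g * Q1) p) : False := by
  classical
  have hz : ∀ p ∈ S, eval p P1 = 0 ∧ eval p Q1 = 0 := by
    intro p hp
    by_contra hcon
    have hpos : 0 < eval p (C (eval p P1) * P1 + C (eval p Q1) * Q1) := by
      rw [map_add, map_mul, map_mul, eval_C, eval_C]
      by_cases h1 : eval p P1 = 0
      · have h2 : eval p Q1 ≠ 0 := fun h2 => hcon ⟨h1, h2⟩
        rw [h1]
        have : 0 < eval p Q1 * eval p Q1 := mul_self_pos.2 h2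
        linarith
      · have : 0 < eval p P1 * eval p P1 := mul_self_pos.2 h1
        have := mul_self_nonneg (eval p Q1)
        linarith
    have hcont : Continuous (fun q : Fin 2 → ℝ => eval q (C (eval p P1) * P1 + C (eval p Q1) * Q1)) :=
      MvPolynomial.continuous_eval _
    have hev := hcont.continuousAt.eventually (lt_mem_nhds hpos)
    obtain ⟨r, hr0, hball⟩ := Metric.eventually_nhds_iff.1 hev
    apply no_factor (hS p hp) (C (eval p P1) * X 0 + C (eval p Q1) * X 1) hr0
    intro q _ hq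
    have e : XF P1 Q1 (C (eval p P1) * X 0 + C (eval p Q1) * X 1) = C (eval p P1) * P1 + C (eval p Q1) * Q1 := by
      simp only [XF, map_add, Derivation.leibniz, smul_eq_mul, pderiv_C, p00, p01, p10, p11]
      ring
    rw [e]
    exact hball (by rw [dist_eq_norm]; exact hq)
  have hne : S.Nonempty := by rw [← Finset.card_pos, hc]; norm_num
  obtain ⟨p0, hp0⟩ := hne
  have hQ0 : Q1 ≠ 0 := by
    rintro rfl
    have h1 : IsUnit P1 := hr dvd_rfl (dvd_zero P1)
    obtain ⟨u, hu⟩ := h1.exists_right_inv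
    have := congrArg (eval p0) hu
    rw [map_mul, (hz p0 hp0).1, zero_mul, map_one] at this
    exact zero_ne_one this
  have hJ : ∀ p ∈ S, eval p (Jac P1 Q1) ≠ 0 := by
    intro p hp h0
    have h0' : eval p (pderiv 0 P1) * eval p (pderiv 1 Q1) - eval p (pderiv 1 P1) * eval p (pderiv 0 Q1) = 0 := by
      unfold Jac at h0
      simpa only [map_sub, map_mul] using h0
    obtain ⟨v, hv, k1, k2⟩ : ∃ v : Fin 2 → ℝ, (∃ i, v i ≠ 0) ∧
        v 0 * eval p (pderiv 0 P1) + v 1 * eval p (pderiv 1 P1) = 0 ∧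
        v 0 * eval p (pderiv 0 Q1) + v 1 * eval p (pderiv 1 Q1) = 0 := by
      by_cases h1 : eval p (pderiv 0 P1) = 0 ∧ eval p (pderiv 1 P1) = 0
      · by_cases h2 : eval p (pderiv 0 Q1) = 0 ∧ eval p (pderiv 1 Q1) = 0
        · exact ⟨![1, 0], ⟨0, by simp⟩, by rw [h1.1, h1.2]; ring, by rw [h2.1, h2.2]; ring⟩
        · refine ⟨![-eval p (pderiv 1 Q1), eval p (pderiv 0 Q1)], ?_, by rw [h1.1, h1.2]; ring, ?_⟩
          · by_contra hcon
            push Not at hcon
            apply h2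
            have a0 := hcon 0
            have a1 := hcon 1
            simp only [Matrix.cons_val_zero, Matrix.cons_val_one] at a0 a1
            exact ⟨a1, by linarith⟩
          · simp only [Matrix.cons_val_zero, Matrix.cons_val_one]; ring
      · refine ⟨![-eval p (pderiv 1 P1), eval p (pderiv 0 P1)], ?_, ?_, ?_⟩
        · by_contra hcon
          push Not at hcon
          apply h1
          have a0 := hcon 0
          have a1 := hcon 1
          simp only [Matrix.cons_val_zero, Matrix.cons_val_one] at a0 a1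
          exact ⟨a1, by linarith⟩
        · simp only [Matrix.cons_val_zero, Matrix.cons_val_one]; ring
        · simp only [Matrix.cons_val_zero, Matrix.cons_val_one]; linear_combination h0'
    have := mult_count hr hQ0 S {p} (Finset.singleton_subset_iff.2 hp) hz (fun _ => sl p v)
      (fun s hs i => by rw [Finset.mem_singleton.1 hs, sl0])
      (fun s hs => by
        obtain ⟨i, hi⟩ := hv
        exact ⟨i, by rw [sl1]; exact hi⟩)
      (fun s hs => by rw [ph1_eq (s := p) (fun i => sl0 _ _ _), sl1, sl1]; exact k1)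
      (fun s hs => by rw [ph1_eq (s := p) (fun i => sl0 _ _ _), sl1, sl1]; exact k2)
    rw [hc, Finset.card_singleton] at this
    have h1 : P1.totalDegree * Q1.totalDegree ≤ 3 * 3 := Nat.mul_le_mul d1 d2
    omega
  have hJp : ∀ p ∈ S, 0 < eval p (Jac P1 Q1) := by
    intro p hp
    rcases lt_or_gt_of_ne (hJ p hp) with hneg | hpos
    · exfalso
      obtain ⟨G, r, hr0, hG⟩ := hyp_G (hz p hp).1 (hz p hp).2 hneg
      exact no_factor (hS p hp) G hr0 hG
    · exact hpos
  exact cubic_false d1 d2 hr ⟨hc, hz, hJp⟩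

/-- at most eight centres -/
theorem all_false {P Q : RP} {S : Finset (Fin 2 → ℝ)} (hP : Dle 4 P) (hQ : Dle 4 Q) (hD : DD P Q ≠ 0)
    (hc : S.card = 9) (hS : ∀ p ∈ S, Ctr P Q p) : False := by
  by_cases hrel : IsRelPrime P Q
  · by_cases h4 : Dle 3 P ∧ Dle 3 Q
    · refine cubic_ctr (g := 1) h4.1 h4.2 hrel hc ?_
      intro p hp
      rw [one_mul, one_mul]
      exact (hS p hp).2.2
    · exact coprime_ctr hP hQ hrel h4 hD hc hS
  · obtain ⟨g, P1, Q1, hr, e1, e2⟩ := exists_gcdsplitR P Q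
    by_cases hg0 : g = 0
    · exfalso
      apply hD
      rw [hg0, zero_mul] at e1 e2
      unfold DD
      rw [← e1, ← e2, map_zero, map_zero, add_zero]
    have hgd : ¬ Dle 0 g := by
      intro h0
      apply hrel
      obtain ⟨g', hg'⟩ := (unit_of hg0 h0).exists_left_inv
      intro f h1 h2
      apply hr
      · have : P1 = g' * P := by rw [← e1]; linear_combination (-P1) * hg'
        rw [this]; exact Dvd.dvd.mul_left h1 g'
      · have : Q1 = g' * Q := by rw [← e2]; linear_combination (-Q1) * hg'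
        rw [this]; exact Dvd.dvd.mul_left h2 g'
    have d1 : Dle 3 P1 := dvd_Dle (by rw [e1]; exact hP) hg0 hgd
    have d2 : Dle 3 Q1 := dvd_Dle (by rw [e2]; exact hQ) hg0 hgd
    refine cubic_ctr (g := g) d1 d2 hr hc ?_
    intro p hp
    rw [e1, e2]
    exact (hS p hp).2.2

/-- quartic systems with nonzero divergence have at most eight centres -/
theorem stage4 (P Q : RP) (hP : P.totalDegree ≤ 4) (hQ : Q.totalDegree ≤ 4)
    (hdiv : pderiv 0 P + pderiv 1 Q ≠ 0) : {p | IsCenter P Q p}.encard ≤ 8 := by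
  by_contra hcon
  rw [not_le] at hcon
  have h9 : (9 : ℕ∞) ≤ {p | IsCenter P Q p}.encard := by
    have := Order.add_one_le_of_lt hcon
    exact this
  obtain ⟨t, ht, htc⟩ := Set.exists_subset_encard_eq h9
  have hfin : t.Finite := Set.finite_of_encard_eq_coe (k := 9) htc
  rw [hfin.encard_eq_coe_toFinset_card] at htc
  have hcard : hfin.toFinset.card = 9 := by exact_mod_cast htc
  refine all_false (S := hfin.toFinset) hP hQ hdiv hcard ?_
  intro p hp
  have h1 : IsCenter P Q p := ht (hfin.mem_toFinset.1 hp)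
  exact ⟨h1.1, h1.2.1, h1.surrAt⟩

end Run7.h256
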