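import Mathlib
import Pool.Agent.Run7.h256.Z1
import Pool.Agent.Run7.h256.Z3

set_option autoImplicit false

namespace Run7.h256

open MvPolynomial Topology Metric

/-- a centre has small periodic orbits whose interior contains no other equilibrium -/
theorem IsCenter.region {P Q : RP} {p : Fin 2 → ℝ} (h : IsCenter P Q p) {ε : ℝ} (hε : 0 < ε) :
    ∃ O : Set (Fin 2 → ℝ), IsPeriodicOrbit P Q O ∧ p ∉ O ∧ connectedComponentIn Oᶜ p ⊆ ball p ε ∧
      ∀ z ∈ connectedComponentIn Oᶜ p, z ≠ p → ¬ (eval z P = 0 ∧ eval z Q = 0) := by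
  obtain ⟨_, _, U, hU, hUo⟩ := h
  choose! O hO1 hO2 hO3 using hUo
  obtain ⟨R, hR, hball⟩ := Metric.nhds_basis_closedBall.mem_iff.1 hU
  set ρ := min R (ε / 2) with hρ
  have hρ0 : 0 < ρ := lt_min hR (by linarith)
  have hρR : ρ ≤ R := min_le_left _ _
  set Co : (Fin 2 → ℝ) → Set (Fin 2 → ℝ) := fun q => connectedComponentIn (O q)ᶜ p with hCo
  have hopen : ∀ q ∈ U, q ≠ p → IsOpen (Co q) := fun q hq hqp =>
    (hO1 q hq hqp).isCompact.isClosed.isOpen_compl.connectedComponentIn
  have hmem : ∀ q ∈ U, q ≠ p → p ∈ Co q := fun q hq hqp => mem_connectedComponentIn (hO3 q hq hqp).1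
  have hdisj : ∀ q ∈ U, q ≠ p → ∀ q' ∈ U, q' ≠ p → O q ≠ O q' → Disjoint (O q) (O q') := by
    intro q hq hqp q' hq' hqp' hne
    rw [Set.disjoint_left]
    intro x hx hx'
    exact hne (orbit_eq_of_mem (hO1 q hq hqp) (hO1 q' hq' hqp') hx hx')
  -- an orbit meeting a component lies in it
  have hin : ∀ q ∈ U, q ≠ p → ∀ q' ∈ U, q' ≠ p → O q ≠ O q' → ∀ z, z ∈ O q → z ∈ Co q' →
      O q ⊆ Co q' := by
    intro q hq hqp q' hq' hqp' hne z hz hz'
    simp only [hCo]
    rw [connectedComponentIn_eq hz']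
    exact (hO1 q hq hqp).isPreconnected.subset_connectedComponentIn hz
      (fun x hx hxO => (hdisj q hq hqp q' hq' hqp' hne).le_bot ⟨hx, hxO⟩)
  have hnest : ∀ q ∈ U, q ≠ p → ∀ q' ∈ U, q' ≠ p → O q ≠ O q' → O q ⊆ Co q' →
      closure (Co q) ⊆ Co q' := by
    intro q hq hqp q' hq' hqp' hne hsub
    exact nested (hO1 q hq hqp).isCompact (hO1 q' hq' hqp').isCompact
      (hO1 q' hq' hqp').isPreconnected (hO3 q hq hqp).1 (hO3 q' hq' hqp').1 (hO3 q hq hqp).2
      (hO3 q' hq' hqp').2 (hdisj q hq hqp q' hq' hqp' hne) hsub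
  -- points near p inside an open set
  have hnear : ∀ W : Set (Fin 2 → ℝ), IsOpen W → p ∈ W → ∃ q ∈ W, q ∈ U ∧ q ≠ p ∧ q ∈ closedBall p R := by
    intro W hW hpW
    obtain ⟨r, hr, hrW⟩ := Metric.isOpen_iff.1 hW p hpW
    obtain ⟨q, hq⟩ := (NormedSpace.sphere_nonempty (x := p) (r := min (r / 2) R)).2 (by positivity)
    rw [mem_sphere] at hq
    have h1 : q ∈ closedBall p R := by rw [mem_closedBall, hq]; exact min_le_right _ _
    refine ⟨q, hrW ?_, hball h1, ?_, h1⟩
    · rw [mem_ball, hq]
      exact lt_of_le_of_lt (min_le_left _ _) (by linarith)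
    · rintro rfl
      rw [dist_self] at hq
      have : 0 < min (r / 2) R := lt_min (by linarith) hR
      linarith
  have claim : ∃ q, q ∈ closedBall p R ∧ q ≠ p ∧ Co q ∩ sphere p ρ = ∅ := by
    by_contra hcon
    push Not at hcon
    obtain ⟨q0, hq0⟩ := (NormedSpace.sphere_nonempty (x := p) (r := ρ)).2 hρ0.le
    have hq0p : q0 ≠ p := by
      rintro rfl
      rw [mem_sphere, dist_self] at hq0
      linarith
    have hq0R : q0 ∈ closedBall p R := by
      rw [mem_closedBall, mem_sphere.1 hq0]; exact hρR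
    have : Nonempty {q // q ∈ closedBall p R ∧ q ≠ p} := ⟨⟨q0, hq0R, hq0p⟩⟩
    have hne := IsCompact.nonempty_iInter_of_directed_nonempty_isCompact_isClosed
      (fun q : {q // q ∈ closedBall p R ∧ q ≠ p} => closure (Co q.1) ∩ sphere p ρ) (by
        rintro ⟨q, hqR, hqp⟩ ⟨q', hqR', hqp'⟩
        have hq := hball hqR
        have hq' := hball hqR'
        have htot : closure (Co q) ⊆ closure (Co q') ∨ closure (Co q') ⊆ closure (Co q) := by
          by_cases he : O q = O q'
          · left; simp only [hCo, he]; exact subset_rfl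
          · by_cases hz : ∃ z, z ∈ O q ∧ z ∈ Co q'
            · obtain ⟨z, hz1, hz2⟩ := hz
              left
              exact (hnest q hq hqp q' hq' hqp' he
                (hin q hq hqp q' hq' hqp' he z hz1 hz2)).trans subset_closure
            · right
              push Not at hz
              apply closure_mono
              exact isPreconnected_connectedComponentIn.subset_connectedComponentIn
                (hmem q' hq' hqp') (fun x hx hxO => hz x hxO hx)
        rcases htot with h1 | h1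
        · exact ⟨⟨q, hqR, hqp⟩, subset_rfl, Set.inter_subset_inter_left _ h1⟩
        · exact ⟨⟨q', hqR', hqp'⟩, Set.inter_subset_inter_left _ h1, subset_rfl⟩) (by
        rintro ⟨q, hqR, hqp⟩
        obtain ⟨z, hz⟩ := hcon q hqR hqp
        exact ⟨z, subset_closure hz.1, hz.2⟩) (by
        rintro ⟨q, hqR, hqp⟩
        exact (isCompact_sphere p ρ).inter_left isClosed_closure) (by
        rintro ⟨q, hqR, hqp⟩
        exact isClosed_closure.inter isClosed_sphere)
    obtain ⟨y, hy⟩ := hne
    rw [Set.mem_iInter] at hy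
    have hys : y ∈ sphere p ρ := (hy ⟨q0, hq0R, hq0p⟩).2
    have hyp : y ≠ p := by
      rintro rfl
      rw [mem_sphere, dist_self] at hys
      linarith
    have hyR : y ∈ closedBall p R := by
      rw [mem_closedBall, mem_sphere.1 hys]; exact hρR
    have hyU := hball hyR
    obtain ⟨q, hqC, hqU, hqp, hqR⟩ := hnear (Co y) (hopen y hyU hyp) (hmem y hyU hyp)
    have hne : O q ≠ O y := by
      intro he
      have h1 : q ∈ (O y)ᶜ := connectedComponentIn_subset _ _ hqC
      exact h1 (he ▸ hO2 q hqU hqp)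
    have h2 := hnest q hqU hqp y hyU hyp hne (hin q hqU hqp y hyU hyp hne q (hO2 q hqU hqp) hqC)
    have h3 : y ∈ Co y := h2 (hy ⟨q, hqR, hqp⟩).1
    exact connectedComponentIn_subset _ _ h3 (hO2 y hyU hyp)
  obtain ⟨q, hqR, hqp, hqs⟩ := claim
  have hqU := hball hqR
  have hsub : Co q ⊆ ball p ρ := by
    apply IsPreconnected.subset_left_of_subset_union isOpen_ball isClosed_closedBall.isOpen_compl
      (v := (closedBall p ρ)ᶜ) _ _ ⟨p, hmem q hqU hqp, mem_ball_self hρ0⟩
      isPreconnected_connectedComponentIn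
    · rw [Set.disjoint_left]
      intro x hx hx'
      exact hx' (ball_subset_closedBall hx)
    · intro x hx
      by_cases hx1 : x ∈ closedBall p ρ
      · left
        rw [mem_ball]
        rw [mem_closedBall] at hx1
        refine lt_of_le_of_ne hx1 ?_
        intro he
        have : x ∈ Co q ∩ sphere p ρ := ⟨hx, mem_sphere.2 he⟩
        rw [hqs] at this
        exact this
      · right; exact hx1
  refine ⟨O q, hO1 q hqU hqp, (hO3 q hqU hqp).1, ?_, ?_⟩
  · refine hsub.trans (ball_subset_ball ?_)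
    exact (min_le_right _ _).trans (by linarith)
  · intro z hz hzp hzz
    have hzU : z ∈ U := hball (ball_subset_closedBall (ball_subset_ball hρR (hsub hz)))
    obtain ⟨γ, T, g1, g2, g3, g4, g5⟩ := hO1 z hzU hzp
    have h1 := hO2 z hzU hzp
    rw [g5] at h1
    obtain ⟨t, ht⟩ := h1
    exact g1.ne_eq g2 g3 g4 hzz.1 hzz.2 t ht

/-! ### lines -/

lemma line_sol (z w : Fin 2 → ℝ) : IsSol (C (w 0)) (C (w 1)) (fun t => z + t • w) := by
  intro t
  have h : ∀ i : Fin 2, HasDerivAt (fun τ : ℝ => z i + τ * w i) (w i) t := by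
    intro i
    have := ((hasDerivAt_id t).mul_const (w i)).const_add (z i)
    simpa using this
  constructor
  · rw [eval_C]; exact h 0
  · rw [eval_C]; exact h 1

lemma line_cont (z w : Fin 2 → ℝ) : Continuous (fun t : ℝ => z + t • w) := by fun_prop

/-- the gradient vanishes at a local extremum -/
lemma grad_zero {H : RP} {z : Fin 2 → ℝ} (h : IsLocalExtr (fun q : Fin 2 → ℝ => eval q H) z) :
    eval z (pderiv 0 H) = 0 ∧ eval z (pderiv 1 H) = 0 := by
  have key : ∀ w : Fin 2 → ℝ, w 0 * eval z (pderiv 0 H) + w 1 * eval z (pderiv 1 H) = 0 := by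
    intro w
    have hd := (line_sol z w).chain H 0
    have ht : Filter.Tendsto (fun t : ℝ => z + t • w) (𝓝 0) (𝓝 z) := by
      have := (line_cont z w).tendsto 0
      simpa using this
    have he : IsLocalExtr (fun t : ℝ => eval (z + t • w) H) 0 := by
      rcases h with h1 | h1
      · left
        have := ht.eventually h1
        filter_upwards [this] with t ht'
        simpa using ht'
      · right
        have := ht.eventually h1
        filter_upwards [this] with t ht'
        simpa using ht'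
    have := he.hasDerivAt_eq_zero hd
    simpa [XF] using this
  have k0 := key ![1, 0]
  have k1 := key ![0, 1]
  simp at k0 k1
  exact ⟨k0, k1⟩

lemma second_max_loc {f f' : ℝ → ℝ} (hf : ∀ t, HasDerivAt f (f' t) t) {t0 f'' : ℝ}
    (hmax : ∀ᶠ t in 𝓝 t0, f t ≤ f t0) (h0 : f' t0 = 0) (h2 : HasDerivAt f' f'' t0) : f'' ≤ 0 := by
  by_contra hcon
  push Not at hcon
  have h1 := (pos_right h2 h0 hcon).and (hmax.filter_mono nhdsWithin_le_nhds)
  obtain ⟨b, hb, hsub⟩ := (mem_nhdsGT_iff_exists_Ioo_subset).1 h1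
  have hb' : t0 < b := hb
  obtain ⟨m, hm1, hm2⟩ := exists_between hb'
  have hfc : Continuous f := continuous_iff_continuousAt.2 (fun t => (hf t).continuousAt)
  obtain ⟨c, hc, hc'⟩ := exists_hasDerivAt_eq_slope f f' hm1 hfc.continuousOn (fun x _ => hf x)
  have h3 : 0 < f' c := (hsub ⟨hc.1, hc.2.trans hm2⟩).1
  rw [hc'] at h3
  have h4 : 0 < m - t0 := sub_pos.2 hm1
  have h5 := (div_pos_iff_of_pos_right h4).1 h3
  have h6 : f m ≤ f t0 := (hsub ⟨hm1, hm2⟩).2
  linarith

/-- the Hessian determinant is nonnegative at a local extremum -/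
lemma hess_nonneg {H : RP} {z : Fin 2 → ℝ} (h : IsLocalExtr (fun q : Fin 2 → ℝ => eval q H) z) :
    0 ≤ eval z (pderiv 0 (pderiv 0 H)) * eval z (pderiv 1 (pderiv 1 H)) - eval z (pderiv 0 (pderiv 1 H)) ^ 2 := by
  obtain ⟨g0, g1⟩ := grad_zero h
  have key : ∀ σ : ℝ, (∀ᶠ q in 𝓝 z, σ * eval q H ≤ σ * eval z H) → ∀ w : Fin 2 → ℝ,
      σ * (w 0 ^ 2 * eval z (pderiv 0 (pderiv 0 H)) + 2 * w 0 * w 1 * eval z (pderiv 0 (pderiv 1 H)) +
        w 1 ^ 2 * eval z (pderiv 1 (pderiv 1 H))) ≤ 0 := by
    intro σ hσ w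
    have hd := fun t => ((line_sol z w).chain H t).const_mul σ
    have hd2 := ((line_sol z w).chain (XF (C (w 0)) (C (w 1)) H) 0).const_mul σ
    have ht : Filter.Tendsto (fun t : ℝ => z + t • w) (𝓝 0) (𝓝 z) := by
      have := (line_cont z w).tendsto 0
      simpa using this
    have := second_max_loc hd (t0 := 0) (by
        filter_upwards [ht.eventually hσ] with t ht'
        simpa using ht') (by simp [XF, g0, g1]) hd2
    refine le_trans (le_of_eq ?_) this
    have e2 : eval z (2 : RP) = 2 := by rw [show (2 : RP) = C 2 from (map_ofNat C 2).symm, eval_C]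
    simp only [zero_smul, add_zero, XF, map_add, Derivation.leibniz, smul_eq_mul, pderiv_C, mul_zero, map_mul,
      eval_C, pd_comm]
    ring
  obtain ⟨A, hA⟩ : ∃ A, A = eval z (pderiv 0 (pderiv 0 H)) := ⟨_, rfl⟩
  obtain ⟨B, hB⟩ : ∃ B, B = eval z (pderiv 0 (pderiv 1 H)) := ⟨_, rfl⟩
  obtain ⟨D, hD⟩ : ∃ D, D = eval z (pderiv 1 (pderiv 1 H)) := ⟨_, rfl⟩
  rw [← hA, ← hB, ← hD] at key ⊢
  have fin : ∀ σ : ℝ, σ ^ 2 = 1 → (∀ w : Fin 2 → ℝ, σ * (w 0 ^ 2 * A + 2 * w 0 * w 1 * B + w 1 ^ 2 * D) ≤ 0) →
      0 ≤ A * D - B ^ 2 := by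
    intro σ hσ hq
    have q1 := hq ![D, -B]
    have q2 := hq ![1, 0]
    have q3 := hq ![0, 1]
    have q4 := hq ![-B, A]
    have q5 := hq ![B, 1]
    have q6 := hq ![B, -1]
    simp only [Matrix.cons_val_zero, Matrix.cons_val_one] at q1 q2 q3 q4 q5 q6
    -- D * (A D - B^2) has the sign of -σ, as D
    by_contra hcon
    push Not at hcon
    have r1 : σ * D * (A * D - B ^ 2) ≤ 0 := by nlinarith
    have r3 : σ * D ≤ 0 := by nlinarith
    have r4 : σ * A * (A * D - B ^ 2) ≤ 0 := by nlinarith
    have r2 : σ * A ≤ 0 := by nlinarith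
    have s1 : σ * D = 0 := by
      by_contra h0
      have : σ * D < 0 := lt_of_le_of_ne r3 h0
      have := mul_pos_of_neg_of_neg this hcon
      linarith
    have s2 : σ * A = 0 := by
      by_contra h0
      have : σ * A < 0 := lt_of_le_of_ne r2 h0
      have := mul_pos_of_neg_of_neg this hcon
      linarith
    have hσ0 : σ ≠ 0 := by rintro rfl; norm_num at hσ
    have s3 := (mul_eq_zero.1 s1).resolve_left hσ0
    have s4 := (mul_eq_zero.1 s2).resolve_left hσ0
    rw [s3, s4] at q5 q6 hcon
    have hB2 : 0 < B ^ 2 := by nlinarith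
    have t5 : σ * B ^ 2 ≤ 0 := by nlinarith
    have t6 : -(σ * B ^ 2) ≤ 0 := by nlinarith
    have : σ * B ^ 2 = 0 := by linarith
    rcases mul_eq_zero.1 this with h0 | h0
    · exact hσ0 h0
    · linarith
  rcases h with h1 | h1
  · apply fin (-1) (by norm_num) (key (-1) _)
    filter_upwards [h1] with q hq
    linarith
  · apply fin 1 (by norm_num) (key 1 _)
    filter_upwards [h1] with q hq
    linarith

/-- a centre of a Hamiltonian system is a strict local extremum -/
theorem IsCenter.strict {P Q H : RP} {p : Fin 2 → ℝ} (h : IsCenter P Q p) (hP : pderiv 1 H = P)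
    (hQ : pderiv 0 H = -Q) : ∃ σ : ℝ, (σ = 1 ∨ σ = -1) ∧ ∃ r : ℝ, 0 < r ∧
      ∀ q : Fin 2 → ℝ, q ≠ p → ‖q - p‖ < r → 0 < σ * (eval q H - eval p H) := by
  obtain ⟨O, hO, hpO, hsub, hneq⟩ := h.region one_pos
  obtain ⟨Co, hCo⟩ : ∃ Co, Co = connectedComponentIn Oᶜ p := ⟨_, rfl⟩
  rw [← hCo] at hsub hneq
  have hOc := hO.isCompact
  have hop : IsOpen Co := by rw [hCo]; exact hOc.isClosed.isOpen_compl.connectedComponentIn
  have hpC : p ∈ Co := by rw [hCo]; exact mem_connectedComponentIn hpO
  have hcl : closure Co ⊆ Co ∪ O := by rw [hCo]; exact closure_component hpO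
  have hcpt : IsCompact (closure Co) := (isBounded_ball.subset hsub).isCompact_closure
  -- constant on the orbit
  obtain ⟨γ, T, g1, g2, g3, g4, g5⟩ := hO
  obtain ⟨v, hv⟩ : ∃ v, ∀ z ∈ O, eval z H = v := by
    refine ⟨eval (γ 0) H, ?_⟩
    intro z hz
    rw [g5] at hz
    obtain ⟨t, rfl⟩ := hz
    have hd := fun t => g1.chain H t
    have hz0 : ∀ t, eval (γ t) (XF P Q H) = 0 := by
      intro t
      unfold XF
      rw [hQ, hP]
      simp only [map_add, map_mul, map_neg]; ring
    exact is_const_of_deriv_eq_zero (fun t => (hd t).differentiableAt) (fun t => by rw [(hd t).deriv, hz0]) t 0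
  have hext : ∀ z ∈ Co, IsLocalExtr (fun q : Fin 2 → ℝ => eval q H) z → z = p := by
    intro z hz he
    by_contra hzp
    obtain ⟨k0, k1⟩ := grad_zero he
    apply hneq z hz hzp
    rw [hQ, map_neg, neg_eq_zero] at k0
    rw [hP] at k1
    exact ⟨k1, k0⟩
  have hcont : Continuous (fun q : Fin 2 → ℝ => eval q H) := MvPolynomial.continuous_eval H
  have hne : (closure Co).Nonempty := ⟨p, subset_closure hpC⟩
  obtain ⟨a, ha, hamin⟩ := hcpt.exists_isMinOn hne hcont.continuousOn
  obtain ⟨b, hb, hbmax⟩ := hcpt.exists_isMaxOn hne hcont.continuousOn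
  have hamin' : ∀ z ∈ Co, eval a H ≤ eval z H := fun z hz => hamin (subset_closure hz)
  have hbmax' : ∀ z ∈ Co, eval z H ≤ eval b H := fun z hz => hbmax (subset_closure hz)
  obtain ⟨r, hr, hball⟩ := Metric.isOpen_iff.1 hop p hpC
  have locmin : ∀ z ∈ Co, (∀ y ∈ Co, eval z H ≤ eval y H) → z = p := by
    intro z hz hm
    apply hext z hz
    left
    filter_upwards [hop.mem_nhds hz] with y hy
    exact hm y hy
  have locmax : ∀ z ∈ Co, (∀ y ∈ Co, eval y H ≤ eval z H) → z = p := by
    intro z hz hm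
    apply hext z hz
    right
    filter_upwards [hop.mem_nhds hz] with y hy
    exact hm y hy
  rcases lt_trichotomy v (eval p H) with hlt | heq | hgt
  · -- maximum
    have hbC : b ∈ Co := by
      rcases hcl hb with h1 | h1
      · exact h1
      · have := hv b h1
        have := hbmax' p hpC
        linarith
    have hbp := locmax b hbC hbmax'
    refine ⟨-1, Or.inr rfl, r, hr, ?_⟩
    intro q hq hqr
    have hqC : q ∈ Co := hball (by rw [mem_ball, dist_eq_norm]; exact hqr)
    have h1 : eval q H ≤ eval p H := by rw [← hbp]; exact hbmax' q hqC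
    rcases h1.lt_or_eq with h2 | h2
    · linarith
    · exact absurd (locmax q hqC (fun y hy => by rw [h2, ← hbp]; exact hbmax' y hy)) hq
  · exfalso
    by_cases hall : ∀ z ∈ Co, eval z H = eval p H
    · obtain ⟨q, hq⟩ := (NormedSpace.sphere_nonempty (x := p) (r := r / 2)).2 (by positivity)
      rw [mem_sphere] at hq
      have hqC : q ∈ Co := hball (by rw [mem_ball, hq]; linarith)
      have : q = p := locmin q hqC (fun y hy => by rw [hall q hqC, hall y hy])
      rw [this, dist_self] at hq
      linarith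
    · push Not at hall
      obtain ⟨z, hz, hzne⟩ := hall
      rcases lt_or_gt_of_ne hzne with h1 | h1
      · have h2 := hamin' z hz
        have haC : a ∈ Co := by
          rcases hcl ha with h3 | h3
          · exact h3
          · have := hv a h3
            linarith
        have := locmin a haC hamin'
        rw [this] at h2
        linarith
      · have h2 := hbmax' z hz
        have hbC : b ∈ Co := by
          rcases hcl hb with h3 | h3
          · exact h3
          · have := hv b h3
            linarith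
        have := locmax b hbC hbmax'
        rw [this] at h2
        linarith
  · have haC : a ∈ Co := by
      rcases hcl ha with h1 | h1
      · exact h1
      · have := hv a h1
        have := hamin' p hpC
        linarith
    have hap := locmin a haC hamin'
    refine ⟨1, Or.inl rfl, r, hr, ?_⟩
    intro q hq hqr
    have hqC : q ∈ Co := hball (by rw [mem_ball, dist_eq_norm]; exact hqr)
    have h1 : eval p H ≤ eval q H := by rw [← hap]; exact hamin' q hqC
    rcases h1.lt_or_eq with h2 | h2
    · linarith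
    · exact absurd (locmin q hqC (fun y hy => by rw [← h2, ← hap]; exact hamin' y hy)) hq

end Run7.h256
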