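import Mathlib
import Pool.Agent.Run7.h256.Z2
import Pool.Agent.Run7.h256.Z4

set_option autoImplicit false

namespace Run7.h256

open MvPolynomial Topology Metric

/-- strict local extremum -/
def Ext (H : RP) (p : Fin 2 → ℝ) : Prop := ∃ σ : ℝ, (σ = 1 ∨ σ = -1) ∧ ∃ r : ℝ, 0 < r ∧
  ∀ q : Fin 2 → ℝ, q ≠ p → ‖q - p‖ < r → 0 < σ * (eval q H - eval p H)

lemma Ext.af {H : RP} {p : Fin 2 → ℝ} (h : Ext H p) {s : Fin 2 → ℝ} {a b c d : ℝ} (hd : a * d - b * c ≠ 0) :
    Ext (Run7.h256.af s a b c d H) (Run7.h256.bk s a b c d p) := by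
  obtain ⟨σ, hσ, r, hr, h1⟩ := h
  obtain ⟨K, hK⟩ : ∃ K, K = |a| + |b| + |c| + |d| := ⟨_, rfl⟩
  have hK0 : 0 ≤ K := by rw [hK]; positivity
  refine ⟨σ, hσ, r / (K + 1), by positivity, ?_⟩
  intro q hq hqr
  rw [eval_af, eval_af, fw_bk hd]
  apply h1
  · intro h0
    apply hq
    rw [← h0, bk_fw hd]
  · have h2 := fw_lip s a b c d q (Run7.h256.bk s a b c d p)
    rw [fw_bk hd, ← hK] at h2
    rw [lt_div_iff₀ (by positivity)] at hqr
    nlinarith [norm_nonneg (q - Run7.h256.bk s a b c d p)]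

lemma homog_supp {n : ℕ} {F : RP} (hF : F.IsHomogeneous n) {d : Fin 2 →₀ ℕ} (hd : coeff d F ≠ 0) :
    d 0 + d 1 = n := by
  have := hF hd
  rw [Finsupp.weight_apply, Finsupp.sum_fintype _ _ (fun i => by simp)] at this
  simpa [Fin.sum_univ_two] using this

lemma homog_eval10 {n : ℕ} {F : RP} (hF : F.IsHomogeneous n) : eval ![1, 0] F = cf n 0 F := by
  rw [eval_eq']
  rw [Finset.sum_eq_single (fs n 0)]
  · rw [Fin.prod_univ_two, fs_0, fs_1]
    simp [cf]
  · intro d hd hne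
    rw [mem_support_iff] at hd
    have h1 := homog_supp hF hd
    rw [Fin.prod_univ_two]
    have h2 : d 1 ≠ 0 := by
      intro h0
      apply hne
      rw [← fs_eta d, fs_inj]
      omega
    simp [h2]
  · intro hd
    rw [notMem_support_iff] at hd
    rw [hd, zero_mul]

lemma homog_neg {F : RP} (hF : F.IsHomogeneous 5) (v : Fin 2 → ℝ) : eval (-v) F = -eval v F := by
  rw [eval_eq', eval_eq', ← Finset.sum_neg_distrib]
  apply Finset.sum_congr rfl
  intro d hd
  rw [mem_support_iff] at hd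
  have h1 := homog_supp hF hd
  rw [Fin.prod_univ_two, Fin.prod_univ_two, Pi.neg_apply, Pi.neg_apply, neg_pow (v 0), neg_pow (v 1)]
  have h2 : ((-1 : ℝ)) ^ d 0 * (-1) ^ d 1 = -1 := by
    rw [← pow_add, h1]; norm_num
  linear_combination (coeff d F * v 0 ^ d 0 * v 1 ^ d 1) * h2

lemma af0_homog {n : ℕ} {F : RP} (hF : F.IsHomogeneous n) (a b c d : ℝ) :
    (af 0 a b c d F).IsHomogeneous n := by
  unfold af
  have h1 : ∀ i : Fin 2, ((![C ((0 : Fin 2 → ℝ) 0) + C a * X 0 + C b * X 1,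
      C ((0 : Fin 2 → ℝ) 1) + C c * X 0 + C d * X 1] : Fin 2 → RP) i).IsHomogeneous 1 := by
    intro i
    fin_cases i
    · show (C ((0 : Fin 2 → ℝ) 0) + C a * X 0 + C b * X 1 : RP).IsHomogeneous 1
      rw [Pi.zero_apply, C_0, zero_add]
      exact ((isHomogeneous_X _ 0).C_mul _).add ((isHomogeneous_X _ 1).C_mul _)
    · show (C ((0 : Fin 2 → ℝ) 1) + C c * X 0 + C d * X 1 : RP).IsHomogeneous 1
      rw [Pi.zero_apply, C_0, zero_add]
      exact ((isHomogeneous_X _ 0).C_mul _).add ((isHomogeneous_X _ 1).C_mul _)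
  have := hF.aeval _ h1
  rwa [one_mul] at this

lemma cf50_af {H : RP} (hH : Dle 5 H) (a b c d : ℝ) :
    cf 5 0 (af 0 a b c d H) = eval ![a, c] (hc 5 H) := by
  have h1 : Dle 4 (H - hc 5 H) := sub_hcD (n := 4) hH
  have h2 : Dle 4 (af 0 a b c d (H - hc 5 H)) := Dle_af 0 a b c d h1
  have h3 : cf 5 0 (af 0 a b c d (H - hc 5 H)) = 0 := by
    unfold cf
    apply Dle_iff.1 h2
    rw [fs_0, fs_1]; norm_num
  have h4 : af 0 a b c d H = af 0 a b c d (hc 5 H) + af 0 a b c d (H - hc 5 H) := by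
    rw [← map_add]; congr 1; ring
  rw [h4, cf_add, h3, add_zero, ← homog_eval10 (af0_homog (hc_homog 5 H) a b c d), eval_af]
  congr 2
  ext i; fin_cases i
  · simp [fw]
  · simp [fw]

/-- a real zero of the top form -/
lemma exists_dir {F : RP} (hF : F.IsHomogeneous 5) : ∃ a c : ℝ, a ^ 2 + c ^ 2 = 1 ∧ eval ![a, c] F = 0 := by
  have hcont : Continuous (fun t : ℝ => eval ![Real.cos t, Real.sin t] F) := by
    apply (MvPolynomial.continuous_eval F).comp
    rw [continuous_pi_iff]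
    intro i
    fin_cases i
    · exact Real.continuous_cos
    · exact Real.continuous_sin
  have hneg : eval ![Real.cos Real.pi, Real.sin Real.pi] F = -eval ![Real.cos 0, Real.sin 0] F := by
    rw [← homog_neg hF]
    congr 2
    ext i; fin_cases i
    · simp
    · simp
  have h0 : (0 : ℝ) ∈ Set.range (fun t : ℝ => eval ![Real.cos t, Real.sin t] F) := by
    rcases le_total (eval ![Real.cos 0, Real.sin 0] F) 0 with h | h
    · exact mem_range_of_exists_le_of_exists_ge hcont ⟨0, h⟩ ⟨Real.pi, by beta_reduce; rw [hneg]; linarith⟩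
    · exact mem_range_of_exists_le_of_exists_ge hcont ⟨Real.pi, by beta_reduce; rw [hneg]; linarith⟩ ⟨0, h⟩
  obtain ⟨t, ht⟩ := h0
  exact ⟨Real.cos t, Real.sin t, by nlinarith [Real.sin_sq_add_cos_sq t], ht⟩

/-- normalisation of the top form -/
theorem normal_top {H : RP} (hH : Dle 5 H) {S : Finset (Fin 2 → ℝ)} (hc9 : S.card = 9) (hS : ∀ p ∈ S, Ext H p) :
    ∃ H' : RP, ∃ S' : Finset (Fin 2 → ℝ), Dle 5 H' ∧ cf 5 0 H' = 0 ∧ S'.card = 9 ∧ ∀ p ∈ S', Ext H' p := by
  classical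
  obtain ⟨a, c, h1, h2⟩ := exists_dir (hc_homog 5 H)
  have hd : a * a - (-c) * c ≠ 0 := by
    have : a * a - (-c) * c = 1 := by linarith
    rw [this]; exact one_ne_zero
  refine ⟨af 0 a (-c) c a H, S.image (Run7.h256.bk 0 a (-c) c a), Dle_af 0 a (-c) c a hH, ?_, ?_, ?_⟩
  · rw [cf50_af hH, h2]
  · rw [Finset.card_image_of_injective _ (bk_inj hd), hc9]
  · intro p hp
    obtain ⟨q, hq, rfl⟩ := Finset.mem_image.1 hp
    exact (hS q hq).af hd

end Run7.h256
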