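import Mathlib
import Pool.Agent.Run7.h256.M3

set_option autoImplicit false

namespace Run7.h256

open MvPolynomial Topology Metric

/-- the derivative of a polynomial function -/
lemma hasFDerivAt_eval (F : RP) (v : Fin 2 → ℝ) :
    HasFDerivAt (fun x : Fin 2 → ℝ => eval x F)
      (eval v (pderiv 0 F) • (ContinuousLinearMap.proj 0 : (Fin 2 → ℝ) →L[ℝ] ℝ) +
        eval v (pderiv 1 F) • (ContinuousLinearMap.proj 1 : (Fin 2 → ℝ) →L[ℝ] ℝ)) v := by
  induction F using MvPolynomial.induction_on with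
  | C a =>
    simp only [eval_C, pderiv_C, map_zero, zero_smul, add_zero]
    exact hasFDerivAt_const a v
  | add p q hp hq =>
    have := hp.add hq
    have e : (fun x : Fin 2 → ℝ => eval x (p + q)) = (fun x => eval x p) + (fun x => eval x q) := by
      ext x; simp
    rw [e]
    refine this.congr_fderiv ?_
    simp only [map_add, add_smul]
    abel
  | mul_X p i hp =>
    have hi : HasFDerivAt (fun x : Fin 2 → ℝ => x i) (ContinuousLinearMap.proj i : (Fin 2 → ℝ) →L[ℝ] ℝ) v :=
      (ContinuousLinearMap.proj i : (Fin 2 → ℝ) →L[ℝ] ℝ).hasFDerivAt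
    have := hp.mul hi
    have e : (fun x : Fin 2 → ℝ => eval x (p * X i)) = (fun x => eval x p) * (fun x => x i) := by
      ext x; simp
    rw [e]
    refine this.congr_fderiv ?_
    ext w
    fin_cases i
    · simp only [Derivation.leibniz, smul_eq_mul, p00, p10, map_add, map_mul, map_one, map_zero, eval_X,
        ContinuousLinearMap.add_apply, ContinuousLinearMap.smul_apply, ContinuousLinearMap.proj_apply, Fin.zero_eta]
      ring
    · simp only [Derivation.leibniz, smul_eq_mul, p01, p11, map_add, map_mul, map_one, map_zero, eval_X,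
        ContinuousLinearMap.add_apply, ContinuousLinearMap.smul_apply, ContinuousLinearMap.proj_apply, Fin.mk_one]
      ring

/-- regular values -/
theorem sard (P Q : RP) {η : ℝ} (hη : 0 < η) : ∃ w : Fin 2 → ℝ, ‖w‖ < η ∧ ∀ v : Fin 2 → ℝ,
    eval v P = w 0 → eval v Q = w 1 → eval v (Jac P Q) ≠ 0 := by
  obtain ⟨M, hM⟩ : ∃ M : (Fin 2 → ℝ) → Matrix (Fin 2) (Fin 2) ℝ, M = fun v =>
    !![eval v (pderiv 0 P), eval v (pderiv 1 P); eval v (pderiv 0 Q), eval v (pderiv 1 Q)] := ⟨_, rfl⟩
  obtain ⟨f', hf'⟩ : ∃ f' : (Fin 2 → ℝ) → (Fin 2 → ℝ) →L[ℝ] (Fin 2 → ℝ),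
    f' = fun v => LinearMap.toContinuousLinearMap (Matrix.toLin' (M v)) := ⟨_, rfl⟩
  have hder : ∀ v, HasFDerivAt (fun x : Fin 2 → ℝ => (![eval x P, eval x Q] : Fin 2 → ℝ)) (f' v) v := by
    intro v
    rw [hasFDerivAt_pi']
    intro i
    fin_cases i
    · have := hasFDerivAt_eval P v
      refine this.congr_fderiv ?_
      ext w
      simp [hf', hM, Matrix.toLin'_apply, Matrix.mulVec, Fin.sum_univ_two, dotProduct]
    · have := hasFDerivAt_eval Q v
      refine this.congr_fderiv ?_
      ext w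
      simp [hf', hM, Matrix.toLin'_apply, Matrix.mulVec, Fin.sum_univ_two, dotProduct]
  have hdet : ∀ v, (f' v).det = eval v (Jac P Q) := by
    intro v
    have h1 : (f' v).det = LinearMap.det (Matrix.toLin' (M v)) := by
      rw [hf']; rfl
    rw [h1, LinearMap.det_toLin', hM, Matrix.det_fin_two]
    simp [Jac]
  have hnull : MeasureTheory.volume ((fun x : Fin 2 → ℝ => (![eval x P, eval x Q] : Fin 2 → ℝ)) ''
      {v | eval v (Jac P Q) = 0}) = 0 := by
    apply MeasureTheory.addHaar_image_eq_zero_of_det_fderivWithin_eq_zero MeasureTheory.volume (f' := f')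
    · intro x _
      exact (hder x).hasFDerivWithinAt
    · intro x hx
      rw [hdet]; exact hx
  have hball : 0 < MeasureTheory.volume (ball (0 : Fin 2 → ℝ) η) := measure_ball_pos _ _ hη
  obtain ⟨w, hw, hw'⟩ : ∃ w ∈ ball (0 : Fin 2 → ℝ) η, w ∉ ((fun x : Fin 2 → ℝ =>
      (![eval x P, eval x Q] : Fin 2 → ℝ)) '' {v | eval v (Jac P Q) = 0}) := by
    by_contra hcon
    push Not at hcon
    have : ball (0 : Fin 2 → ℝ) η ⊆ ((fun x : Fin 2 → ℝ => (![eval x P, eval x Q] : Fin 2 → ℝ)) ''
      {v | eval v (Jac P Q) = 0}) := hcon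
    have := MeasureTheory.measure_mono (μ := MeasureTheory.volume) this
    rw [hnull] at this
    exact absurd hball (not_lt.2 this)
  refine ⟨w, by simpa using hw, ?_⟩
  intro v h1 h2 h3
  apply hw'
  refine ⟨v, h3, ?_⟩
  ext i; fin_cases i
  · exact h1
  · exact h2

/-- persistence of extrema -/
lemma persist {H : RP} {p : Fin 2 → ℝ} (h : Ext H p) {ρ : ℝ} (hρ : 0 < ρ) : ∃ δ : ℝ, 0 < δ ∧ ∀ H' : RP,
    (∀ q : Fin 2 → ℝ, ‖q - p‖ ≤ ρ → |eval q H' - eval q H| < δ) →
    ∃ z, ‖z - p‖ < ρ ∧ IsLocalExtr (fun q : Fin 2 → ℝ => eval q H') z := by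
  obtain ⟨σ, hσ, r, hr, h1⟩ := h
  obtain ⟨r', hr'⟩ : ∃ r', r' = min ρ (r / 2) := ⟨_, rfl⟩
  have hr'0 : 0 < r' := by rw [hr']; positivity
  have hr'ρ : r' ≤ ρ := by rw [hr']; exact min_le_left _ _
  have hr'r : r' < r := by
    have : r' ≤ r / 2 := by rw [hr']; exact min_le_right _ _
    linarith
  have hσa : |σ| = 1 := by rcases hσ with h | h <;> rw [h] <;> simp
  have hcont : ∀ F : RP, Continuous (fun q : Fin 2 → ℝ => σ * eval q F) := fun F =>
    continuous_const.mul (MvPolynomial.continuous_eval F)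
  have hsne : (sphere p r').Nonempty := NormedSpace.sphere_nonempty.2 hr'0.le
  obtain ⟨a, ha, hamin⟩ := (isCompact_sphere p r').exists_isMinOn hsne (hcont H).continuousOn
  have hap : a ≠ p := by
    rintro rfl
    rw [mem_sphere, dist_self] at ha
    linarith
  have hm : 0 < σ * (eval a H - eval p H) := h1 a hap (by rw [← dist_eq_norm, mem_sphere.1 ha]; exact hr'r)
  refine ⟨σ * (eval a H - eval p H) / 2, by positivity, ?_⟩
  intro H' hH'
  have hcl : ∀ q, q ∈ closedBall p r' → |σ * eval q H' - σ * eval q H| < σ * (eval a H - eval p H) / 2 := by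
    intro q hq
    rw [← mul_sub, abs_mul, hσa, one_mul]
    apply hH'
    rw [← dist_eq_norm]
    exact (mem_closedBall.1 hq).trans hr'ρ
  obtain ⟨z, hz, hzmin⟩ := (isCompact_closedBall p r').exists_isMinOn ⟨p, mem_closedBall_self hr'0.le⟩
    (hcont H').continuousOn
  have hzb : z ∈ ball p r' := by
    rw [mem_ball]
    refine lt_of_le_of_ne (mem_closedBall.1 hz) ?_
    intro he
    have hzs : z ∈ sphere p r' := mem_sphere.2 he
    have k1 : σ * eval a H ≤ σ * eval z H := hamin hzs
    have k2 : σ * eval z H' ≤ σ * eval p H' := hzmin (mem_closedBall_self hr'0.le)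
    have k3 := abs_lt.1 (hcl z hz)
    have k4 := abs_lt.1 (hcl p (mem_closedBall_self hr'0.le))
    have k5 : σ * (eval a H - eval p H) = σ * eval a H - σ * eval p H := by ring
    rw [k5] at k3 k4
    linarith [k3.1, k4.2]
  have hloc : ∀ᶠ q in 𝓝 z, σ * eval z H' ≤ σ * eval q H' := by
    filter_upwards [isOpen_ball.mem_nhds hzb] with q hq
    exact hzmin (ball_subset_closedBall hq)
  refine ⟨z, ?_, ?_⟩
  · rw [← dist_eq_norm]
    exact lt_of_lt_of_le (mem_ball.1 hzb) hr'ρ
  · rcases hσ with h | h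
    · left
      filter_upwards [hloc] with q hq
      rw [h] at hq
      linarith
    · right
      filter_upwards [hloc] with q hq
      rw [h] at hq
      linarith

end Run7.h256
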