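import Mathlib
import Pool.Agent.Run7.h256.Cls2

set_option autoImplicit false

namespace Run7.h256

open MvPolynomial Topology Metric

lemma good_eps {p q p0 q0 : RP} (hp : Dle 4 p) (hq : Dle 4 q) (hp0 : p0.totalDegree = 4) (hq0 : Dle 4 q0)
    (hr : IsRelPrime p0 q0) {ε0 : ℝ} (h : 0 < ε0) :
    ∃ ε, 0 < ε ∧ ε < ε0 ∧ IsRelPrime (p + C ε * p0) (q + C ε * q0) := by
  classical
  have hp00 : p0 ≠ 0 := by
    rintro rfl
    rw [totalDegree_zero] at hp0
    norm_num at hp0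
  by_cases hW : p * q0 - q * p0 = 0
  · obtain ⟨c, hc1, hc2⟩ := split_prop' hr (u := p) (v := q) (by linear_combination -hW)
    -- hc1 : p = p0 * c
    have hc0 : Dle 0 c := by
      by_cases hcz : c = 0
      · rw [hcz]; exact Dle.zero
      · rw [hc1] at hp
        unfold Dle at *
        rw [totalDegree_mul_eq hp00 hcz, hp0] at hp
        omega
    obtain ⟨c0, hcc⟩ : ∃ c0 : ℝ, c = C c0 := ⟨_, (totalDegree_eq_zero_iff_eq_C).1 (Nat.le_zero.1 hc0)⟩
    have key : ∀ ε : ℝ, c0 + ε ≠ 0 → IsRelPrime (p + C ε * p0) (q + C ε * q0) := by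
      intro ε hε
      have e1 : p + C ε * p0 = C (c0 + ε) * p0 := by rw [hc1, hcc, C_add]; ring
      have e2 : q + C ε * q0 = C (c0 + ε) * q0 := by rw [hc2, hcc, C_add]; ring
      rw [e1, e2]
      intro f h1 h2
      have hu : ∀ G : RP, G = C (c0 + ε)⁻¹ * (C (c0 + ε) * G) := by
        intro G
        rw [← mul_assoc, ← C_mul, inv_mul_cancel₀ hε, C_1, one_mul]
      apply hr
      · rw [hu p0]; exact Dvd.dvd.mul_left h1 _
      · rw [hu q0]; exact Dvd.dvd.mul_left h2 _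
    by_cases h1 : c0 + ε0 / 2 = 0
    · refine ⟨ε0 / 3, by positivity, by linarith, key _ ?_⟩
      intro h2
      have : ε0 = 0 := by linarith
      linarith
    · exact ⟨ε0 / 2, by positivity, by linarith, key _ h1⟩
  · by_contra hcon
    push Not at hcon
    have hε : ∀ i : ℕ, 0 < ε0 / ((i : ℝ) + 2) ∧ ε0 / ((i : ℝ) + 2) < ε0 := by
      intro i
      have h0 : (0 : ℝ) ≤ i := Nat.cast_nonneg i
      refine ⟨by positivity, ?_⟩
      rw [div_lt_iff₀ (by positivity)]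
      nlinarith
    have hex : ∀ i : ℕ, ∃ g : RP, g ∣ p + C (ε0 / ((i : ℝ) + 2)) * p0 ∧ g ∣ q + C (ε0 / ((i : ℝ) + 2)) * q0 ∧
        ¬ IsUnit g := by
      intro i
      have := hcon _ (hε i).1 (hε i).2
      unfold IsRelPrime at this
      push Not at this
      obtain ⟨g, h1, h2, h3⟩ := this
      exact ⟨g, h1, h2, h3⟩
    choose g hg1 hg2 hg3 using hex
    have hgW : ∀ i, g i ∣ p * q0 - q * p0 := by
      intro i
      have e : p * q0 - q * p0 = (p + C (ε0 / ((i : ℝ) + 2)) * p0) * q0 -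
        (q + C (ε0 / ((i : ℝ) + 2)) * q0) * p0 := by ring
      rw [e]
      exact dvd_sub (Dvd.dvd.mul_right (hg1 i) _) (Dvd.dvd.mul_right (hg2 i) _)
    have hpair : ∀ i j : ℕ, i ≠ j → IsRelPrime (g i) (g j) := by
      intro i j hij f hfi hfj
      have hne : ε0 / ((i : ℝ) + 2) - ε0 / ((j : ℝ) + 2) ≠ 0 := by
        intro h0
        apply hij
        have h1 : ε0 / ((i : ℝ) + 2) = ε0 / ((j : ℝ) + 2) := sub_eq_zero.1 h0
        have hi : (0 : ℝ) < (i : ℝ) + 2 := by positivity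
        have hj : (0 : ℝ) < (j : ℝ) + 2 := by positivity
        rw [div_eq_div_iff hi.ne' hj.ne'] at h1
        have h2 : ((j : ℝ) + 2) = (i : ℝ) + 2 := mul_left_cancel₀ h.ne' h1
        have h3 : (j : ℝ) = i := by linarith
        exact_mod_cast h3.symm
      obtain ⟨κ, hκ⟩ : ∃ κ, κ = ε0 / ((i : ℝ) + 2) - ε0 / ((j : ℝ) + 2) := ⟨_, rfl⟩
      rw [← hκ] at hne
      have hu : ∀ G : RP, G = C κ⁻¹ * (C κ * G) := by
        intro G
        rw [← mul_assoc, ← C_mul, inv_mul_cancel₀ hne, C_1, one_mul]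
      apply hr
      · rw [hu p0]
        apply Dvd.dvd.mul_left
        have e : C κ * p0 = (p + C (ε0 / ((i : ℝ) + 2)) * p0) - (p + C (ε0 / ((j : ℝ) + 2)) * p0) := by
          rw [hκ, C_sub]; ring
        rw [e]
        exact dvd_sub (hfi.trans (hg1 i)) (hfj.trans (hg1 j))
      · rw [hu q0]
        apply Dvd.dvd.mul_left
        have e : C κ * q0 = (q + C (ε0 / ((i : ℝ) + 2)) * q0) - (q + C (ε0 / ((j : ℝ) + 2)) * q0) := by
          rw [hκ, C_sub]; ring
        rw [e]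
        exact dvd_sub (hfi.trans (hg2 i)) (hfj.trans (hg2 j))
    have hg0 : ∀ i, g i ≠ 0 := by
      intro i h0
      have := hgW i
      rw [h0, zero_dvd_iff] at this
      exact hW this
    have hg4 : ∀ i, 1 ≤ (g i).totalDegree := by
      intro i
      by_contra h1
      push Not at h1
      exact hg3 i (unit_of (hg0 i) (by unfold Dle; omega))
    have hprod : ∀ n : ℕ, (∏ i ∈ Finset.range n, g i) ∣ p * q0 - q * p0 ∧ (∏ i ∈ Finset.range n, g i) ≠ 0 ∧
        n ≤ (∏ i ∈ Finset.range n, g i).totalDegree := by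
      intro n
      induction n with
      | zero => simp
      | succ n ih =>
        rw [Finset.prod_range_succ]
        refine ⟨?_, mul_ne_zero ih.2.1 (hg0 n), ?_⟩
        · have hrp : IsRelPrime (∏ i ∈ Finset.range n, g i) (g n) :=
            IsRelPrime.prod_left (fun i hi => hpair i n (by rw [Finset.mem_range] at hi; omega))
          exact hrp.mul_dvd ih.1 (hgW n)
        · rw [totalDegree_mul_eq ih.2.1 (hg0 n)]
          have := hg4 n
          omega
    obtain ⟨⟨k, hk⟩, h2, h3⟩ := hprod 9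
    have hk0 : k ≠ 0 := by rintro rfl; rw [mul_zero] at hk; exact hW hk
    have hd : Dle 8 (p * q0 - q * p0) := (hp.mul hq0 (by omega)).sub (hq.mul (le_of_eq hp0) (by omega))
    rw [hk] at hd
    unfold Dle at hd
    rw [totalDegree_mul_eq h2 hk0] at hd
    omega

/-- the perturbation -/
noncomputable def Ge : RP := X 1 * (X 0 ^ 4 + X 1 ^ 4)

lemma Ge0 : pderiv 0 Ge = C 4 * (X 0 ^ 3 * X 1) := by
  unfold Ge
  rw [show (C 4 : RP) = 4 from map_ofNat C 4]
  simp only [Derivation.leibniz, Derivation.leibniz_pow, smul_eq_mul, map_add, p00, p01, nsmul_eq_mul,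
    Nat.cast_ofNat]
  ring

lemma Ge1 : pderiv 1 Ge = X 0 ^ 4 + C 5 * X 1 ^ 4 := by
  unfold Ge
  rw [show (C 5 : RP) = 5 from map_ofNat C 5]
  simp only [Derivation.leibniz, Derivation.leibniz_pow, smul_eq_mul, map_add, p10, p11, nsmul_eq_mul,
    Nat.cast_ofNat]
  ring

lemma h1_homog : (X 0 ^ 4 + C 5 * X 1 ^ 4 : RP).IsHomogeneous 4 := by
  have a0 : (X 0 ^ 4 : RP).IsHomogeneous 4 := by simpa using (isHomogeneous_X ℝ (0 : Fin 2)).pow 4
  have a1 : (X 1 ^ 4 : RP).IsHomogeneous 4 := by simpa using (isHomogeneous_X ℝ (1 : Fin 2)).pow 4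
  exact a0.add (a1.C_mul _)

lemma h0_homog : (C 4 * (X 0 ^ 3 * X 1) : RP).IsHomogeneous 4 := by
  have a0 : (X 0 ^ 3 : RP).IsHomogeneous 3 := by simpa using (isHomogeneous_X ℝ (0 : Fin 2)).pow 3
  exact (a0.mul (isHomogeneous_X ℝ (1 : Fin 2))).C_mul _

lemma Ge_rel : IsRelPrime (X 0 ^ 4 + C 5 * X 1 ^ 4 : RP) (-(C 4 * (X 0 ^ 3 * X 1))) := by
  have hX : IsRelPrime (X 0 : RP) (X 1) := relPrime_X01
  have h1 : IsRelPrime (X 0 ^ 4 + C 5 * X 1 ^ 4 : RP) (X 0) := by
    intro f hf1 hf2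
    have h2 : f ∣ C 5 * X 1 ^ 4 := by
      have := dvd_sub hf1 (hf2.trans (dvd_pow_self (X 0 : RP) (n := 4) (by norm_num)))
      rwa [add_sub_cancel_left] at this
    have h3 : f ∣ X 1 ^ 4 := by
      have := Dvd.dvd.mul_left h2 (C (5 : ℝ)⁻¹)
      rwa [← mul_assoc, ← C_mul, inv_mul_cancel₀ (by norm_num), C_1, one_mul] at this
    exact (hX.pow_right (n := 4)) hf2 h3
  have h2 : IsRelPrime (X 0 ^ 4 + C 5 * X 1 ^ 4 : RP) (X 1) := by
    intro f hf1 hf2
    have h2 : f ∣ X 0 ^ 4 := by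
      have := dvd_sub hf1 (Dvd.dvd.mul_left (hf2.trans (dvd_pow_self (X 1 : RP) (n := 4) (by norm_num))) (C (5 : ℝ)))
      rwa [add_sub_cancel_right] at this
    exact (hX.pow_left (m := 4)) h2 hf2
  have h3 : IsRelPrime (X 0 ^ 4 + C 5 * X 1 ^ 4 : RP) (X 0 ^ 3 * X 1) := (h1.pow_right (n := 3)).mul_right h2
  intro f hf1 hf2
  apply h3 hf1
  have := Dvd.dvd.mul_left hf2 (C (-(4 : ℝ)⁻¹))
  have e : C (-(4 : ℝ)⁻¹) * (-(C 4 * (X 0 ^ 3 * X 1))) = (X 0 ^ 3 * X 1 : RP) := by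
    have h5 : (C (-(4 : ℝ)⁻¹) * C 4 : RP) = -1 := by
      rw [← C_mul, show (-1 : RP) = C (-1) by simp]
      congr 1; norm_num
    linear_combination (-(X 0 ^ 3 * X 1 : RP)) * h5
  rwa [e] at this

end Run7.h256
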