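import Mathlib
import Pool.Agent.Run7.h256.G1
import Pool.Agent.Run7.h256.M2
import Pool.Agent.Run7.h256.M4
import Pool.Agent.Run7.h256.M5

set_option autoImplicit false

namespace Run7.h256

open MvPolynomial Topology Metric

lemma Ge1_deg : (X 0 ^ 4 + C 5 * X 1 ^ 4 : RP).totalDegree = 4 := by
  apply h1_homog.totalDegree
  intro h0
  have := congrArg (eval ![1, 0]) h0
  simp at this

lemma hc4_C (a : ℝ) : hc 4 (C a : RP) = 0 := by
  ext d
  rw [coeff_hc, coeff_zero]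
  split_ifs with h
  · rw [coeff_C, if_neg]
    rintro rfl
    simp at h
  · rfl

lemma hc_add4 (F G : RP) : hc 4 (F + G) = hc 4 F + hc 4 G := by unfold hc; exact map_add _ _ _
lemma hc_sub4 (F G : RP) : hc 4 (F - G) = hc 4 F - hc 4 G := by unfold hc; exact map_sub _ _ _
lemma hc_Cmul4 (c : ℝ) (F : RP) : hc 4 (C c * F) = C c * hc 4 F := by
  ext d
  rw [coeff_hc, coeff_C_mul, coeff_C_mul, coeff_hc]
  split_ifs
  · rfl
  · rw [mul_zero]

/-- separation of the points -/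
lemma separate {S : Finset (Fin 2 → ℝ)} (hc9 : S.card = 9) : ∃ ρ : ℝ, 0 < ρ ∧ ∀ p ∈ S, ∀ q ∈ S, p ≠ q →
    2 * ρ ≤ ‖p - q‖ := by
  classical
  have hne : S.offDiag.Nonempty := by
    rw [← Finset.card_pos, Finset.offDiag_card, hc9]; norm_num
  obtain ⟨x, hx, hmin⟩ := Finset.exists_min_image S.offDiag (fun x => ‖x.1 - x.2‖) hne
  rw [Finset.mem_offDiag] at hx
  refine ⟨‖x.1 - x.2‖ / 2, ?_, ?_⟩
  · have : 0 < ‖x.1 - x.2‖ := norm_pos_iff.2 (sub_ne_zero.2 hx.2.2)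
    positivity
  · intro p hp q hq hpq
    have := hmin (p, q) (Finset.mem_offDiag.2 ⟨hp, hq, hpq⟩)
    linarith

/-- reduction to a generic Hamiltonian -/
theorem perturb {H : RP} (hH : Dle 5 H) (h50 : cf 5 0 H = 0) {S : Finset (Fin 2 → ℝ)} (hc9 : S.card = 9)
    (hS : ∀ p ∈ S, Ext H p) : ∃ H' : RP, ∃ S' : Finset (Fin 2 → ℝ), Dle 5 H' ∧ cf 5 0 H' = 0 ∧
      E0 (pderiv 1 H') (-pderiv 0 H') ∧ SS (pderiv 1 H') (-pderiv 0 H') S' := by
  classical
  obtain ⟨ρ, hρ, hsep⟩ := separate hc9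
  have hpers : ∀ p : Fin 2 → ℝ, ∃ δ : ℝ, 0 < δ ∧ (p ∈ S → ∀ H' : RP,
      (∀ q : Fin 2 → ℝ, ‖q - p‖ ≤ ρ → |eval q H' - eval q H| < δ) →
      ∃ z, ‖z - p‖ < ρ ∧ IsLocalExtr (fun q : Fin 2 → ℝ => eval q H') z) := by
    intro p
    by_cases hp : p ∈ S
    · obtain ⟨δ, h1, h2⟩ := persist (hS p hp) hρ
      exact ⟨δ, h1, fun _ => h2⟩
    · exact ⟨1, one_pos, fun h => absurd h hp⟩
  choose δ hδ hδ2 using hpers
  have hne : S.Nonempty := by rw [← Finset.card_pos, hc9]; norm_num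
  obtain ⟨p0, hp0, hδmin⟩ := Finset.exists_min_image S δ hne
  -- a bound for the perturbation
  have hcpt : IsCompact (⋃ p ∈ S, closedBall p ρ) := S.isCompact_biUnion (fun p _ => isCompact_closedBall p ρ)
  have hcon : Continuous (fun q : Fin 2 → ℝ => |eval q Ge| + |q 0| + |q 1|) := by
    have := MvPolynomial.continuous_eval Ge
    fun_prop
  obtain ⟨M, hM⟩ := hcpt.exists_bound_of_continuousOn hcon.continuousOn
  obtain ⟨M', hM'⟩ : ∃ M', M' = |M| + 1 := ⟨_, rfl⟩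
  have hM'0 : 0 < M' := by rw [hM']; positivity
  obtain ⟨η, hη⟩ : ∃ η, η = δ p0 / M' := ⟨_, rfl⟩
  have hη0 : 0 < η := by rw [hη]; exact div_pos (hδ p0) hM'0
  have d1H : Dle 4 (pderiv 1 H) := Dle.pderiv (n := 4) hH 1
  have d0H : Dle 4 (pderiv 0 H) := Dle.pderiv (n := 4) hH 0
  obtain ⟨ε, hε0, hε1, hrel⟩ := good_eps (p := hc 4 (pderiv 1 H)) (q := hc 4 (-pderiv 0 H))
    (homog_Dle (hc_homog 4 _)) (homog_Dle (hc_homog 4 _)) Ge1_deg ((homog_Dle h0_homog).neg) Ge_rel hη0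
  obtain ⟨w, hw, hreg⟩ := sard (pderiv 1 H + C ε * pderiv 1 Ge) (-pderiv 0 H - C ε * pderiv 0 Ge) hη0
  obtain ⟨H', hH'⟩ : ∃ H', H' = H + C ε * Ge - C (w 0) * X 1 + C (w 1) * X 0 := ⟨_, rfl⟩
  have e1 : pderiv 1 H' = pderiv 1 H + C ε * pderiv 1 Ge - C (w 0) := by
    rw [hH']
    simp only [map_add, map_sub, Derivation.leibniz, smul_eq_mul, pderiv_C, p10, p11]
    ring
  have e0 : -pderiv 0 H' = -pderiv 0 H - C ε * pderiv 0 Ge - C (w 1) := by
    rw [hH']
    simp only [map_add, map_sub, Derivation.leibniz, smul_eq_mul, pderiv_C, p00, p01]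
    ring
  have dGe : Dle 5 Ge := by
    have a0 : Dle 4 (X 0 ^ 4 : RP) := homog_Dle (by simpa using (isHomogeneous_X ℝ (0 : Fin 2)).pow 4)
    have a1 : Dle 4 (X 1 ^ 4 : RP) := homog_Dle (by simpa using (isHomogeneous_X ℝ (1 : Fin 2)).pow 4)
    exact (Dle.X le_rfl 1).mul (a0.add a1) (by omega)
  have dH' : Dle 5 H' := by
    rw [hH']
    exact ((hH.add ((Dle.C (n := 0) ε).mul dGe (by omega))).sub ((Dle.C (n := 0) _).mul
      (Dle.X (n := 5) (by norm_num) 1) (by omega))).add ((Dle.C (n := 0) _).mul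
      (Dle.X (n := 5) (by norm_num) 0) (by omega))
  have hclose : ∀ p ∈ S, ∀ q : Fin 2 → ℝ, ‖q - p‖ ≤ ρ → |eval q H' - eval q H| < δ p := by
    intro p hp q hq
    refine lt_of_lt_of_le ?_ (hδmin p hp)
    have hqK : q ∈ ⋃ p ∈ S, closedBall p ρ := by
      simp only [Set.mem_iUnion]
      exact ⟨p, hp, by rw [mem_closedBall, dist_eq_norm]; exact hq⟩
    have hb := hM q hqK
    rw [Real.norm_eq_abs, abs_of_nonneg (by positivity)] at hb
    have hw0 : |w 0| < η := lt_of_le_of_lt (abs0_le w) hw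
    have hw1 : |w 1| < η := lt_of_le_of_lt (abs1_le w) hw
    have e : eval q H' - eval q H = ε * eval q Ge - w 0 * q 1 + w 1 * q 0 := by
      rw [hH']; simp only [map_add, map_sub, map_mul, eval_C, eval_X]; ring
    have k1 : |eval q H' - eval q H| ≤ η * (|eval q Ge| + |q 0| + |q 1|) := by
      rw [e]
      calc |ε * eval q Ge - w 0 * q 1 + w 1 * q 0| ≤ |ε * eval q Ge| + |w 0 * q 1| + |w 1 * q 0| :=
            (abs_add_le _ _).trans (add_le_add (abs_sub _ _) le_rfl)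
        _ = ε * |eval q Ge| + |w 0| * |q 1| + |w 1| * |q 0| := by
            rw [abs_mul, abs_mul, abs_mul, abs_of_pos hε0]
        _ ≤ η * |eval q Ge| + η * |q 1| + η * |q 0| := by gcongr
        _ = _ := by ring
    have k2 : η * (|eval q Ge| + |q 0| + |q 1|) ≤ η * |M| :=
      mul_le_mul_of_nonneg_left (hb.trans (le_abs_self M)) hη0.le
    have k3 : η * M' = δ p0 := by rw [hη]; exact div_mul_cancel₀ _ hM'0.ne'
    rw [hM', mul_add, mul_one] at k3
    linarith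
  have hz : ∀ p : Fin 2 → ℝ, ∃ z : Fin 2 → ℝ, p ∈ S → ‖z - p‖ < ρ ∧
      IsLocalExtr (fun q : Fin 2 → ℝ => eval q H') z := by
    intro p
    by_cases hp : p ∈ S
    · obtain ⟨z, h1⟩ := hδ2 p hp H' (hclose p hp)
      exact ⟨z, fun _ => h1⟩
    · exact ⟨0, fun h => absurd h hp⟩
  choose z hz using hz
  have hJe : Jac (pderiv 1 H') (-pderiv 0 H') = Jac (pderiv 1 H + C ε * pderiv 1 Ge)
      (-pderiv 0 H - C ε * pderiv 0 Ge) := by
    rw [e1, e0]
    unfold Jac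
    simp only [map_sub, pderiv_C, sub_zero]
  refine ⟨H', S.image z, dH', ?_, ⟨?_, ?_, ?_⟩, ⟨?_, ?_, ?_⟩⟩
  · rw [hH', cf_add, cf_sub, cf_add, h50, cf_Cmul, cf_Cmul, cf_Cmul]
    have a1 : cf 5 0 Ge = 0 := cf_X1_mul 5 _
    have a2 : cf 5 0 (X 1 : RP) = 0 := by
      have := cf_X1_mul 5 1
      rwa [mul_one] at this
    have a3 : cf 5 0 (X 0 : RP) = 0 := by
      unfold cf
      rw [coeff_X', if_neg]
      intro h
      have := DFunLike.congr_fun h 0
      rw [fs_0] at this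
      simp at this
    rw [a1, a2, a3]; ring
  · exact Dle.pderiv (n := 4) dH' 1
  · exact (Dle.pderiv (n := 4) dH' 0).neg
  · have f1 : hc 4 (pderiv 1 H') = hc 4 (pderiv 1 H) + C ε * (X 0 ^ 4 + C 5 * X 1 ^ 4) := by
      rw [e1, hc_sub4, hc_add4, hc4_C, hc_Cmul4, Ge1, hc_self h1_homog, sub_zero]
    have f0 : hc 4 (-pderiv 0 H') = hc 4 (-pderiv 0 H) + C ε * (-(C 4 * (X 0 ^ 3 * X 1))) := by
      rw [e0, hc_sub4, hc_sub4, hc4_C, hc_Cmul4, Ge0, hc_self h0_homog, sub_zero]; ring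
    rw [f1, f0]
    exact hrel
  · rw [Finset.card_image_of_injOn, hc9]
    intro p hp q hq hpq
    by_contra hne'
    have h1 := (hz p hp).1
    have h2 := (hz q hq).1
    have h3 := hsep p hp q hq hne'
    have hpq' : z p = z q := hpq
    rw [hpq'] at h1
    have h4 : ‖p - q‖ ≤ ‖z q - p‖ + ‖z q - q‖ := by
      have : p - q = (z q - q) - (z q - p) := by abel
      rw [this]
      exact (norm_sub_le _ _).trans (by rw [add_comm])
    linarith
  · intro x hx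
    obtain ⟨p, hp, rfl⟩ := Finset.mem_image.1 hx
    obtain ⟨g0, g1⟩ := grad_zero (hz p hp).2
    rw [map_neg, g0, g1]
    simp
  · intro x hx
    obtain ⟨p, hp, rfl⟩ := Finset.mem_image.1 hx
    obtain ⟨g0, g1⟩ := grad_zero (hz p hp).2
    have hJ0 : eval (z p) (Jac (pderiv 1 H') (-pderiv 0 H')) ≠ 0 := by
      rw [hJe]
      apply hreg
      · rw [e1, map_sub, eval_C] at g1
        linarith
      · have g0' : eval (z p) (-pderiv 0 H') = 0 := by rw [map_neg, g0, neg_zero]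
        rw [e0, map_sub, eval_C] at g0'
        linarith
    have hJn := hess_nonneg (hz p hp).2
    have e : eval (z p) (Jac (pderiv 1 H') (-pderiv 0 H')) = eval (z p) (pderiv 0 (pderiv 0 H')) *
        eval (z p) (pderiv 1 (pderiv 1 H')) - eval (z p) (pderiv 0 (pderiv 1 H')) ^ 2 := by
      unfold Jac
      simp only [map_neg, map_sub, map_mul, pd_comm]
      ring
    rw [e] at hJ0 ⊢
    exact lt_of_le_of_ne hJn (Ne.symm hJ0)

end Run7.h256
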