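import Mathlib
import Pool.Agent.Run7.h256.TC
import Pool.Agent.Run7.h256.W3

set_option autoImplicit false

namespace Run7.h256

open MvPolynomial

lemma coeff_pd_hc (k : ℕ) (i : Fin 2) (F : RP) (d : Fin 2 →₀ ℕ) :
    coeff d (pderiv i (hc k F)) = if d 0 + d 1 + 1 = k then coeff d (pderiv i F) else 0 := by
  rw [coeff_pderiv, coeff_hc, coeff_pderiv]
  have e : (d + Finsupp.single i 1 : Fin 2 →₀ ℕ) 0 + (d + Finsupp.single i 1 : Fin 2 →₀ ℕ) 1 = d 0 + d 1 + 1 := by
    fin_cases i
    · simp; ring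
    · simp; ring
  rw [e]
  split_ifs <;> simp

/-- the Hamiltonian -/
theorem exists_ham {P Q : RP} (hP : Dle 4 P) (hQ : Dle 4 Q) (hD : pderiv 0 P + pderiv 1 Q = 0) :
    ∃ H : RP, Dle 5 H ∧ pderiv 1 H = P ∧ pderiv 0 H = -Q := by
  have hcd : ∀ k, pderiv 0 (hc k P) + pderiv 1 (hc k Q) = 0 := by
    intro k
    ext d
    rw [coeff_add, coeff_pd_hc, coeff_pd_hc, coeff_zero]
    have := congrArg (coeff d) hD
    rw [coeff_add, coeff_zero] at this
    split_ifs
    · exact this
    · simp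
  have hsum : ∀ F : RP, Dle 4 F → ∑ k ∈ Finset.range 5, hc k F = F := by
    intro F hF
    ext d
    rw [coeff_sum]
    simp only [coeff_hc]
    rw [Finset.sum_ite_eq]
    split_ifs with h1
    · rfl
    · symm
      apply Dle_iff.1 hF d
      rw [Finset.mem_range] at h1
      omega
  have C1 : ∀ k : ℕ, (C (1 / ((k : ℝ) + 1)) : RP) * ((k : RP) + 1) = 1 := by
    intro k
    rw [show (k : RP) = C (k : ℝ) from (map_natCast C k).symm]
    rw [show (1 : RP) = C 1 from C_1.symm, ← C_add, ← C_mul]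
    congr 1
    have : (k : ℝ) + 1 ≠ 0 := by positivity
    field_simp
  refine ⟨∑ k ∈ Finset.range 5, C (1 / ((k : ℝ) + 1)) * (X 1 * hc k P - X 0 * hc k Q), ?_, ?_, ?_⟩
  · unfold Dle
    refine le_trans (totalDegree_finsetSum _ _) (Finset.sup_le ?_)
    intro k hk
    rw [Finset.mem_range] at hk
    have d1 : Dle k (hc k P) := homog_Dle (hc_homog k P)
    have d2 : Dle k (hc k Q) := homog_Dle (hc_homog k Q)
    have : Dle 5 (C (1 / ((k : ℝ) + 1)) * (X 1 * hc k P - X 0 * hc k Q)) :=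
      (Dle.C (n := 0) _).mul (((Dle.X le_rfl 1).mul d1 (show 1 + k ≤ 5 by omega)).sub
        ((Dle.X le_rfl 0).mul d2 (show 1 + k ≤ 5 by omega))) (by omega)
    exact this
  · rw [map_sum]
    conv_rhs => rw [← hsum P hP]
    apply Finset.sum_congr rfl
    intro k _
    have e1 := eulerk (hc_homog k P)
    have e2 := hcd k
    simp only [Derivation.leibniz, smul_eq_mul, pderiv_C, mul_zero, add_zero, map_sub, p10, p11, mul_one]
    linear_combination C (1 / ((k : ℝ) + 1)) * e1 - C (1 / ((k : ℝ) + 1)) * X 0 * e2 + hc k P * C1 k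
  · rw [map_sum]
    conv_rhs => rw [← hsum Q hQ]
    rw [← Finset.sum_neg_distrib]
    apply Finset.sum_congr rfl
    intro k _
    have e1 := eulerk (hc_homog k Q)
    have e2 := hcd k
    simp only [Derivation.leibniz, smul_eq_mul, pderiv_C, mul_zero, add_zero, map_sub, p00, p01, mul_one]
    linear_combination (-C (1 / ((k : ℝ) + 1))) * e1 + C (1 / ((k : ℝ) + 1)) * X 1 * e2 - hc k Q * C1 k

end Run7.h256
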