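import Mathlib
import Pool.Agent.Run7.h256.M1
import Pool.Agent.Run7.h256.W4
import Pool.Agent.Run7.h256.Z7

set_option autoImplicit false

namespace Run7.h256

open MvPolynomial Topology Metric

/-- binary quartic -/
noncomputable def Kf (a4 a3 a2 a1 a0 : ℝ) : RP :=
  C a4 * X 0 ^ 4 + C a3 * X 0 ^ 3 * X 1 + C a2 * X 0 ^ 2 * X 1 ^ 2 + C a1 * X 0 * X 1 ^ 3 + C a0 * X 1 ^ 4

/-- its first partial derivative -/
noncomputable def Kx (a4 a3 a2 a1 : ℝ) : RP :=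
  C (4 * a4) * X 0 ^ 3 + C (3 * a3) * X 0 ^ 2 * X 1 + C (2 * a2) * X 0 * X 1 ^ 2 + C a1 * X 1 ^ 3

/-- the second component -/
noncomputable def Pf (a4 a3 a2 a1 a0 : ℝ) : RP :=
  C a4 * X 0 ^ 4 + C (2 * a3) * X 0 ^ 3 * X 1 + C (3 * a2) * X 0 ^ 2 * X 1 ^ 2 + C (4 * a1) * X 0 * X 1 ^ 3 +
    C (5 * a0) * X 1 ^ 4

lemma top_explicit {H : RP} (h50 : cf 5 0 H = 0) :
    hc 5 H = X 1 * Kf (cf 4 1 H) (cf 3 2 H) (cf 2 3 H) (cf 1 4 H) (cf 0 5 H) := by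
  have e : X 1 * Kf (cf 4 1 H) (cf 3 2 H) (cf 2 3 H) (cf 1 4 H) (cf 0 5 H) =
      mo 4 1 (cf 4 1 H) + mo 3 2 (cf 3 2 H) + mo 2 3 (cf 2 3 H) + mo 1 4 (cf 1 4 H) + mo 0 5 (cf 0 5 H) := by
    simp only [mo_X, Kf]
    ring
  rw [e]
  ext d
  rw [← fs_eta d]
  obtain ⟨i, hi⟩ : ∃ i, i = d 0 := ⟨_, rfl⟩
  obtain ⟨j, hj⟩ : ∃ j, j = d 1 := ⟨_, rfl⟩
  rw [← hi, ← hj, coeff_hc, fs_0, fs_1]
  show _ = cf i j _
  simp only [cf_add, cf_mo]
  by_cases h5 : i + j = 5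
  · rw [if_pos h5]
    have hi5 : i ≤ 5 := by omega
    have hj5 : j = 5 - i := by omega
    subst hj5
    interval_cases i
    · simp [cf]
    · simp [cf]
    · simp [cf]
    · simp [cf]
    · simp [cf]
    · simp
      exact h50
  · rw [if_neg h5]
    have n1 : ¬ (4 = i ∧ 1 = j) := by omega
    have n2 : ¬ (3 = i ∧ 2 = j) := by omega
    have n3 : ¬ (2 = i ∧ 3 = j) := by omega
    have n4 : ¬ (1 = i ∧ 4 = j) := by omega
    have n5 : ¬ (0 = i ∧ 5 = j) := by omega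
    rw [if_neg n1, if_neg n2, if_neg n3, if_neg n4, if_neg n5]
    ring

lemma hc4_pd (i : Fin 2) (H : RP) : hc 4 (pderiv i H) = pderiv i (hc 5 H) := by
  ext d
  rw [coeff_pd_hc, coeff_hc]
  split_ifs <;> first | rfl | omega

lemma C_n2 : (C 2 : RP) = 2 := map_ofNat C 2
lemma C_n3 : (C 3 : RP) = 3 := map_ofNat C 3
lemma C_n4 : (C 4 : RP) = 4 := map_ofNat C 4
lemma C_n5 : (C 5 : RP) = 5 := map_ofNat C 5
lemma C_n6 : (C 6 : RP) = 6 := map_ofNat C 6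
lemma C_n12 : (C 12 : RP) = 12 := map_ofNat C 12
lemma C_n16 : (C 16 : RP) = 16 := map_ofNat C 16

lemma pd1_top (a4 a3 a2 a1 a0 : ℝ) : pderiv 1 (X 1 * Kf a4 a3 a2 a1 a0) = Pf a4 a3 a2 a1 a0 := by
  unfold Kf Pf
  simp only [Derivation.leibniz, Derivation.leibniz_pow, smul_eq_mul, map_add, pderiv_C, p10, p11, nsmul_eq_mul,
    Nat.cast_ofNat, C_mul, C_n2, C_n3, C_n4, C_n5]
  ring

lemma pd0_top (a4 a3 a2 a1 a0 : ℝ) : pderiv 0 (X 1 * Kf a4 a3 a2 a1 a0) = X 1 * Kx a4 a3 a2 a1 := by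
  unfold Kf Kx
  simp only [Derivation.leibniz, Derivation.leibniz_pow, smul_eq_mul, map_add, pderiv_C, p00, p01, nsmul_eq_mul,
    Nat.cast_ofNat, C_mul, C_n2, C_n3, C_n4]
  ring

lemma Jac_top (a4 a3 a2 a1 a0 : ℝ) : Jac (Pf a4 a3 a2 a1 a0) (-(X 1 * Kx a4 a3 a2 a1)) =
    (C (12 * a4) * X 0 ^ 2 + C (6 * a3) * X 0 * X 1 + C (2 * a2) * X 1 ^ 2) * C 4 * Pf a4 a3 a2 a1 a0 -
      C (16 * a4) * (X 0 ^ 3 * Kx a4 a3 a2 a1) +
      C 4 * (C (6 * a3) * X 0 ^ 2 + C (6 * a2) * X 0 * X 1 + C (4 * a1) * X 1 ^ 2) * (-(X 1 * Kx a4 a3 a2 a1)) := by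
  unfold Jac Pf Kx
  simp only [Derivation.leibniz, Derivation.leibniz_pow, smul_eq_mul, map_add, map_neg, pderiv_C, p00, p01, p10, p11,
    nsmul_eq_mul, Nat.cast_ofNat, mul_zero, zero_mul, add_zero, zero_add, mul_one]
  simp only [C_mul, C_n2, C_n3, C_n4, C_n5, C_n6, C_n12, C_n16]
  ring

/-- the dimension count -/
theorem ham_core {P Q : RP} {L : RP →ₗ[ℝ] ℝ} {S : Finset (Fin 2 → ℝ)} {Δ : (Fin 2 → ℝ) → RP}
    (h : Pk P Q L S Δ) {V : Type} [AddCommGroup V] [Module ℝ V] [FiniteDimensional ℝ V] (Θ : V →ₗ[ℝ] RP)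
    (hdim : Module.finrank ℝ V = 8) (hinj : ∀ v, Θ v = 0 → v = 0) (h3 : ∀ v, Dle 3 (Θ v))
    (hneg : ∀ v, L (Θ v * Θ v) ≤ 0) : False := by
  classical
  -- the comparison map
  obtain ⟨Ξ, hΞ⟩ : ∃ Ξ : (V × (Pl ℝ 2 × Pl ℝ 2) × (S → ℝ)) →ₗ[ℝ] Pl ℝ 6, ∀ x,
      (Ξ x).1 = Θ x.1 + E0.kk P Q 2 x.2.1 - ∑ s : S, C (x.2.2 s) * Δ s.1 := by
    have hmem : ∀ x : V × (Pl ℝ 2 × Pl ℝ 2) × (S → ℝ),
        Θ x.1 + E0.kk P Q 2 x.2.1 - ∑ s : S, C (x.2.2 s) * Δ s.1 ∈ Pl ℝ 6 := by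
      intro x
      rw [mem_Pl]
      refine Dle.sub (n := 6) (Dle.add (n := 6) ((h3 _).mono (by norm_num)) ?_) ?_
      · rw [E0.kk_apply]
        exact ((Dle.mul (a := 2) (mem_Pl.1 x.2.1.1.2) h.e0.hP (by omega)).add
          (Dle.mul (a := 2) (mem_Pl.1 x.2.1.2.2) h.e0.hQ (by omega)))
      · refine le_trans (totalDegree_finsetSum _ _) (Finset.sup_le ?_)
        intro s _
        exact (Dle.C (n := 0) _).mul (h.d6 s.1 s.2) (show 0 + 6 ≤ 6 by omega)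
    refine ⟨⟨⟨fun x => ⟨_, hmem x⟩, ?_⟩, ?_⟩, fun x => rfl⟩
    · intro x y
      apply Subtype.ext
      show Θ (x + y).1 + E0.kk P Q 2 (x + y).2.1 - ∑ s : S, C ((x + y).2.2 s) * Δ s.1 =
        (Θ x.1 + E0.kk P Q 2 x.2.1 - ∑ s : S, C (x.2.2 s) * Δ s.1) +
        (Θ y.1 + E0.kk P Q 2 y.2.1 - ∑ s : S, C (y.2.2 s) * Δ s.1)
      simp only [Prod.fst_add, Prod.snd_add, map_add, Pi.add_apply, add_mul, Finset.sum_add_distrib]
      ring
    · intro c x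
      apply Subtype.ext
      show Θ (c • x).1 + E0.kk P Q 2 (c • x).2.1 - ∑ s : S, C ((c • x).2.2 s) * Δ s.1 =
        c • (Θ x.1 + E0.kk P Q 2 x.2.1 - ∑ s : S, C (x.2.2 s) * Δ s.1)
      simp only [Prod.smul_fst, Prod.smul_snd, map_smul, Pi.smul_apply, smul_eq_mul, C_mul, smul_sub, smul_add,
        Finset.smul_sum, smul_eq_C_mul, mul_assoc]
  have hlt : Module.finrank ℝ (Pl ℝ 6) < Module.finrank ℝ (V × (Pl ℝ 2 × Pl ℝ 2) × (S → ℝ)) := by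
    rw [Module.finrank_prod, Module.finrank_prod, Module.finrank_prod, Module.finrank_fintype_fun_eq_card,
      Fintype.card_coe, hdim, h.ss.card]
    have e6 := finrank_Pl (k := ℝ) 6
    have e2 := finrank_Pl (k := ℝ) 2
    omega
  have hker := LinearMap.ker_ne_bot_of_finrank_lt (f := Ξ) hlt
  obtain ⟨x, hx, hx0⟩ := Submodule.exists_mem_ne_zero_of_ne_bot hker
  have hx1 := congrArg Subtype.val (LinearMap.mem_ker.1 hx)
  rw [hΞ] at hx1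
  obtain ⟨v, ab, c⟩ := x
  have hx2 : Θ v + E0.kk P Q 2 ab = ∑ s : S, C (c s) * Δ s.1 := by
    have : Θ v + E0.kk P Q 2 ab - ∑ s : S, C (c s) * Δ s.1 = 0 := hx1
    linear_combination this
  have hkI : E0.kk P Q 2 ab ∈ II P Q := by
    rw [E0.kk_apply]; exact mem_II.2 ⟨_, _, rfl⟩
  have hkS : ∀ s ∈ S, eval s (E0.kk P Q 2 ab) = 0 := fun s hs => II_eval hkI (h.ss.zero s hs).1 (h.ss.zero s hs).2
  have hval : ∀ s : S, eval s.1 (Θ v) = c s * eval s.1 (Jac P Q) := by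
    intro s
    have h1 := congrArg (eval s.1) hx2
    rw [map_add, hkS s.1 s.2, add_zero, map_sum, Finset.sum_eq_single s] at h1
    · rw [h1, map_mul, eval_C, h.diag s.1 s.2]
    · intro t _ hts
      rw [map_mul, h.off t.1 t.2 s.1 s.2 (fun h0 => hts (Subtype.ext h0.symm)), mul_zero]
    · intro h0; exact absurd (Finset.mem_univ _) h0
  have hL : L (Θ v * Θ v) = ∑ s : S, c s ^ 2 * eval s.1 (Jac P Q) := by
    have h1 : Θ v * Θ v = (∑ s : S, C (c s) * (Θ v * Δ s.1)) - Θ v * E0.kk P Q 2 ab := by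
      have h2 : ∑ s : S, C (c s) * (Θ v * Δ s.1) = Θ v * ∑ s : S, C (c s) * Δ s.1 := by
        rw [Finset.mul_sum]
        apply Finset.sum_congr rfl
        intro s _
        ring
      rw [h2, ← hx2]; ring
    rw [h1, map_sub, map_sum, h.rs.ker _ (Ideal.mul_mem_left _ _ hkI), sub_zero]
    apply Finset.sum_congr rfl
    intro s _
    rw [L_C, h.mul s.1 s.2, hval s]; ring
  have hc : ∀ s : S, c s = 0 := by
    have h1 : ∑ s : S, c s ^ 2 * eval s.1 (Jac P Q) = 0 := by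
      apply le_antisymm
      · rw [← hL]; exact hneg v
      · exact Finset.sum_nonneg (fun s _ => mul_nonneg (sq_nonneg _) (h.ss.Jp s.1 s.2).le)
    rw [Finset.sum_eq_zero_iff_of_nonneg (fun s _ => mul_nonneg (sq_nonneg _) (h.ss.Jp s.1 s.2).le)] at h1
    intro s
    have h2 := h1 s (Finset.mem_univ s)
    have h3 := (mul_eq_zero.1 h2).resolve_right (h.ss.Jp s.1 s.2).ne'
    exact pow_eq_zero_iff (by norm_num) |>.1 h3
  have hx3 : Θ v + E0.kk P Q 2 ab = 0 := by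
    rw [hx2]
    apply Finset.sum_eq_zero
    intro s _
    rw [hc s, C_0, zero_mul]
  have hv0 : Θ v = 0 := by
    apply h.e0.eq_zero3 _ (h3 v)
    have : Θ v = -E0.kk P Q 2 ab := by linear_combination hx3
    rw [this]
    exact (Ideal.neg_mem_iff _).2 hkI
  rw [hv0, zero_add, E0.kk_apply] at hx3
  obtain ⟨ha, hb⟩ := h.e0.inj3 2 (by norm_num) _ _ (mem_Pl.1 ab.1.2) (mem_Pl.1 ab.2.2) (by rw [hx3]; exact Dle.zero)
  apply hx0
  have z1 := hinj v hv0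
  have z2 : ab = 0 := Prod.ext (Subtype.ext ha) (Subtype.ext hb)
  have z3 : c = 0 := funext hc
  rw [z1, z2, z3]; rfl

end Run7.h256
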