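import Mathlib
import Pool.Agent.Run7.h256.M7
import Pool.Agent.Run7.h256.V5

set_option autoImplicit false

namespace Run7.h256

open MvPolynomial Topology Metric

/-- two extra cubic forms with nonpositive Gram matrix are impossible -/
theorem ham_two {P Q : RP} {L : RP →ₗ[ℝ] ℝ} {S : Finset (Fin 2 → ℝ)} {Δ : (Fin 2 → ℝ) → RP}
    (h : Pk P Q L S Δ) {G1 G2 : RP} (h1 : Dle 3 G1) (h2 : Dle 3 G2)
    (hneg : ∀ s t : ℝ, s ^ 2 * L (G1 * G1) + 2 * s * t * L (G1 * G2) + t ^ 2 * L (G2 * G2) ≤ 0)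
    (hinj : ∀ B : RP, Dle 2 B → ∀ s t : ℝ, B + C s * G1 + C t * G2 = 0 → s = 0 ∧ t = 0) : False := by
  obtain ⟨Θ, hΘ⟩ : ∃ Θ : (Pl ℝ 2 × ℝ × ℝ) →ₗ[ℝ] RP, ∀ v, Θ v = v.1.1 + C v.2.1 * G1 + C v.2.2 * G2 := by
    refine ⟨⟨⟨fun v => v.1.1 + C v.2.1 * G1 + C v.2.2 * G2, ?_⟩, ?_⟩, fun v => rfl⟩
    · intro x y
      simp only [Prod.fst_add, Prod.snd_add, Submodule.coe_add, C_add]
      ring
    · intro c x
      simp only [Prod.smul_fst, Prod.smul_snd, Submodule.coe_smul, smul_eq_mul, C_mul, smul_eq_C_mul, RingHom.id_apply]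
      ring
  have hB : ∀ v : Pl ℝ 2 × ℝ × ℝ, Dle 2 v.1.1 := fun v => mem_Pl.1 v.1.2
  apply ham_core h Θ
  · rw [Module.finrank_prod, Module.finrank_prod, Module.finrank_self]
    have e2 := finrank_Pl (k := ℝ) 2
    omega
  · intro v hv
    rw [hΘ] at hv
    obtain ⟨hs, ht⟩ := hinj _ (hB v) _ _ hv
    rw [hs, ht, C_0, zero_mul, zero_mul, add_zero, add_zero] at hv
    exact Prod.ext (Subtype.ext hv) (Prod.ext hs ht)
  · intro v
    rw [hΘ]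
    exact (((hB v).mono (by norm_num)).add ((Dle.C (n := 0) _).mul h1 (by omega))).add
      ((Dle.C (n := 0) _).mul h2 (by omega))
  · intro v
    rw [hΘ]
    obtain ⟨B, hBe⟩ : ∃ B, B = v.1.1 := ⟨_, rfl⟩
    obtain ⟨s, hse⟩ : ∃ s, s = v.2.1 := ⟨_, rfl⟩
    obtain ⟨t, hte⟩ : ∃ t, t = v.2.2 := ⟨_, rfl⟩
    rw [← hBe, ← hse, ← hte]
    have hBd : Dle 2 B := hBe ▸ hB v
    have e : (B + C s * G1 + C t * G2) * (B + C s * G1 + C t * G2) = B * B + C (2 * s) * (B * G1) +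
        C (2 * t) * (B * G2) + C (s ^ 2) * (G1 * G1) + C (2 * s * t) * (G1 * G2) + C (t ^ 2) * (G2 * G2) := by
      simp only [C_mul, C_pow, C_n2]
      ring
    rw [e]
    simp only [map_add, L_C]
    rw [h.rs.low _ (hBd.mul hBd (by omega)), h.rs.low _ (hBd.mul h1 (by omega)), h.rs.low _ (hBd.mul h2 (by omega))]
    have := hneg s t
    linarith

section
variable {a4 a3 a2 a1 a0 : ℝ} {L : RP →ₗ[ℝ] ℝ}

lemma Dle_X (i : Fin 2) : Dle 1 (X i : RP) := by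
  unfold Dle
  rw [totalDegree_X]

lemma hf_main (h : LF (Pf a4 a3 a2 a1 a0) (-(X 1 * Kx a4 a3 a2 a1)) L) :
    a4 * L (X 0 ^ 3 * Kx a4 a3 a2 a1) = -1 := by
  have hJ := h.LJ
  rw [Jac_top] at hJ
  have d1 : Dle 2 ((C (12 * a4) * X 0 ^ 2 + C (6 * a3) * X 0 * X 1 + C (2 * a2) * X 1 ^ 2) * C 4 : RP) := by
    refine Dle.mul (a := 2) (b := 0) ?_ (Dle.C _) (by omega)
    refine Dle.add (Dle.add ?_ ?_) ?_
    · exact (Dle.C (n := 0) _).mul (b := 2) ((isHomogeneous_X_pow 0 2).totalDegree_le) (by omega)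
    · exact ((Dle.C (n := 0) _).mul (Dle_X 0) (n := 1) (by omega)).mul (Dle_X 1) (by omega)
    · exact (Dle.C (n := 0) _).mul (b := 2) ((isHomogeneous_X_pow 1 2).totalDegree_le) (by omega)
  have d2 : Dle 2 (C 4 * (C (6 * a3) * X 0 ^ 2 + C (6 * a2) * X 0 * X 1 + C (4 * a1) * X 1 ^ 2) : RP) := by
    refine Dle.mul (a := 0) (b := 2) (Dle.C _) ?_ (by omega)
    refine Dle.add (Dle.add ?_ ?_) ?_
    · exact (Dle.C (n := 0) _).mul (b := 2) ((isHomogeneous_X_pow 0 2).totalDegree_le) (by omega)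
    · exact ((Dle.C (n := 0) _).mul (Dle_X 0) (n := 1) (by omega)).mul (Dle_X 1) (by omega)
    · exact (Dle.C (n := 0) _).mul (b := 2) ((isHomogeneous_X_pow 1 2).totalDegree_le) (by omega)
  rw [map_add, map_sub, h.Lp _ d1, h.Lq _ d2, L_C] at hJ
  linarith

lemma hf_cub (h : LF (Pf a4 a3 a2 a1 a0) (-(X 1 * Kx a4 a3 a2 a1)) L) {A A' : RP} {a : ℝ} (hA' : Dle 2 A')
    (e : A = C a * X 0 ^ 3 + X 1 * A') : L (Kx a4 a3 a2 a1 * A) = a * L (X 0 ^ 3 * Kx a4 a3 a2 a1) := by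
  have e1 : Kx a4 a3 a2 a1 * A = C a * (X 0 ^ 3 * Kx a4 a3 a2 a1) - A' * (-(X 1 * Kx a4 a3 a2 a1)) := by
    rw [e]; ring
  rw [e1, map_sub, h.Lq _ hA', L_C, sub_zero]

/-- quadratic forms have degree two -/
lemma D2_form (a b c : ℝ) : Dle 2 (C a * X 0 ^ 2 + C b * X 0 * X 1 + C c * X 1 ^ 2 : RP) := by
  refine Dle.add (Dle.add ?_ ?_) ?_
  · exact (Dle.C (n := 0) _).mul (b := 2) ((isHomogeneous_X_pow 0 2).totalDegree_le) (by omega)
  · exact ((Dle.C (n := 0) _).mul (Dle_X 0) (n := 1) (by omega)).mul (Dle_X 1) (by omega)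
  · exact (Dle.C (n := 0) _).mul (b := 2) ((isHomogeneous_X_pow 1 2).totalDegree_le) (by omega)

lemma D3_form (a b c d : ℝ) : Dle 3 (C a * X 0 ^ 3 + X 1 * (C b * X 0 ^ 2 + C c * X 0 * X 1 + C d * X 1 ^ 2) : RP) := by
  refine Dle.add ?_ ((Dle_X 1).mul (D2_form b c d) (by omega))
  exact (Dle.C (n := 0) _).mul (b := 3) ((isHomogeneous_X_pow 0 3).totalDegree_le) (by omega)

lemma Kx_form : Kx a4 a3 a2 a1 = C (4 * a4) * X 0 ^ 3 +
    X 1 * (C (3 * a3) * X 0 ^ 2 + C (2 * a2) * X 0 * X 1 + C a1 * X 1 ^ 2) := by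
  unfold Kx; ring

lemma Kx_D3 : Dle 3 (Kx a4 a3 a2 a1) := by rw [Kx_form]; exact D3_form _ _ _ _

lemma hf_sq (h : LF (Pf a4 a3 a2 a1 a0) (-(X 1 * Kx a4 a3 a2 a1)) L) :
    L (Kx a4 a3 a2 a1 * Kx a4 a3 a2 a1) = -4 := by
  rw [hf_cub h (D2_form (3 * a3) (2 * a2) a1) Kx_form]
  have := hf_main h
  linarith

end

/-- a real linear factor -/
theorem ham_A {P Q : RP} {L : RP →ₗ[ℝ] ℝ} {S : Finset (Fin 2 → ℝ)} {Δ : (Fin 2 → ℝ) → RP}
    (h : Pk P Q L S Δ) {a4 a3 a2 a1 a0 : ℝ}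
    (hl : LF (Pf a4 a3 a2 a1 a0) (-(X 1 * Kx a4 a3 a2 a1)) L) {ξ : ℝ}
    (hξ : a4 * ξ ^ 4 + a3 * ξ ^ 3 + a2 * ξ ^ 2 + a1 * ξ + a0 = 0) : False := by
  obtain ⟨β, hβ⟩ : ∃ β, β = a3 + ξ * a4 := ⟨_, rfl⟩
  obtain ⟨γ, hγ⟩ : ∃ γ, γ = a2 + ξ * β := ⟨_, rfl⟩
  obtain ⟨δ, hδ⟩ : ∃ δ, δ = a1 + ξ * γ := ⟨_, rfl⟩
  have e3 : a3 = β - ξ * a4 := by linarith
  have e2 : a2 = γ - ξ * β := by linarith
  have e1 : a1 = δ - ξ * γ := by linarith
  have e0 : a0 = - ξ * δ := by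
    have : a0 = -(a4 * ξ ^ 4 + a3 * ξ ^ 3 + a2 * ξ ^ 2 + a1 * ξ) := by linarith
    rw [this, hδ, hγ, hβ]; ring
  clear hβ hγ hδ hξ
  subst e3 e2 e1 e0
  -- the second cubic form
  obtain ⟨G2, hG2⟩ : ∃ G2 : RP, G2 = C a4 * X 0 ^ 3 + X 1 * (C (2 * β + 3 * ξ * a4) * X 0 ^ 2 +
    C (3 * γ + 2 * ξ * β) * X 0 * X 1 + C (4 * δ + ξ * γ) * X 1 ^ 2) := ⟨_, rfl⟩
  obtain ⟨Cx, hCx⟩ : ∃ Cx : RP, Cx = C (3 * a4) * X 0 ^ 2 + C (2 * β) * X 0 * X 1 + C γ * X 1 ^ 2 := ⟨_, rfl⟩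
  obtain ⟨K1, hK1⟩ : ∃ K1 : RP, K1 = Kx a4 (β - ξ * a4) (γ - ξ * β) (δ - ξ * γ) := ⟨_, rfl⟩
  obtain ⟨p, hp⟩ : ∃ p : RP, p = Pf a4 (β - ξ * a4) (γ - ξ * β) (δ - ξ * γ) (-ξ * δ) := ⟨_, rfl⟩
  have i1 : (X 0 - C ξ * X 1) * G2 = p - C ξ * (-(X 1 * K1)) := by
    rw [hG2, hp, hK1]
    unfold Pf Kx
    simp only [C_mul, C_add, C_sub, C_neg, C_n2, C_n3, C_n4, C_n5]
    ring
  have i2 : G2 = C 4 * K1 - C 5 * ((X 0 - C ξ * X 1) * Cx) := by
    rw [hG2, hCx, hK1]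
    unfold Kx
    simp only [C_mul, C_add, C_sub, C_neg, C_n2, C_n3, C_n4, C_n5]
    ring
  have hsq := hf_sq hl
  have hm := hf_main hl
  have h12 : L (K1 * G2) = -1 := by
    rw [hK1, hf_cub hl (D2_form _ _ _) hG2]
    exact hm
  rw [← hK1] at hsq hl
  rw [← hp] at hl
  have hCd : Dle 2 Cx := by rw [hCx]; exact D2_form _ _ _
  have h22 : L (G2 * G2) = -4 := by
    have e : G2 * G2 = C 4 * (K1 * G2) - C 5 * (Cx * p) + C (5 * ξ) * (Cx * (-(X 1 * K1))) := by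
      have : G2 * G2 = G2 * (C 4 * K1 - C 5 * ((X 0 - C ξ * X 1) * Cx)) := by rw [← i2]
      rw [this, C_mul]
      linear_combination (-C 5 * Cx) * i1
    rw [e, map_add, map_sub, L_C, L_C, L_C, h12, hl.Lp _ hCd, hl.Lq _ hCd]
    ring
  have hd1 : Dle 3 K1 := by rw [hK1]; exact Kx_D3
  have hd2 : Dle 3 G2 := by rw [hG2]; exact D3_form _ _ _ _
  apply ham_two h hd1 hd2
  · intro s t
    rw [hsq, h12, h22]
    nlinarith [sq_nonneg (s + t), sq_nonneg s, sq_nonneg t]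
  · intro B hB s t he
    have q1 : L (K1 * (B + C s * K1 + C t * G2)) = 0 := by rw [he, mul_zero, map_zero]
    have q2 : L (G2 * (B + C s * K1 + C t * G2)) = 0 := by rw [he, mul_zero, map_zero]
    have r1 : K1 * (B + C s * K1 + C t * G2) = K1 * B + C s * (K1 * K1) + C t * (K1 * G2) := by ring
    have r2 : G2 * (B + C s * K1 + C t * G2) = G2 * B + C s * (K1 * G2) + C t * (G2 * G2) := by ring
    rw [r1, map_add, map_add, L_C, L_C, h.rs.low _ (hd1.mul hB (by omega)), hsq, h12] at q1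
    rw [r2, map_add, map_add, L_C, L_C, h.rs.low _ (hd2.mul hB (by omega)), h12, h22] at q2
    constructor <;> linarith

/-- no real linear factor -/
theorem ham_C {P Q : RP} {L : RP →ₗ[ℝ] ℝ} {S : Finset (Fin 2 → ℝ)} {Δ : (Fin 2 → ℝ) → RP}
    (h : Pk P Q L S Δ) {a4 a3 a2 a1 a0 : ℝ}
    (hl : LF (Pf a4 a3 a2 a1 a0) (-(X 1 * Kx a4 a3 a2 a1)) L) {u q v r : ℝ} (hq : 0 < q) (hr : 0 < r)
    (hf : ∀ t : ℝ, a4 * t ^ 4 + a3 * t ^ 3 + a2 * t ^ 2 + a1 * t + a0 =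
      a4 * (((t - u) ^ 2 + q ^ 2) * ((t - v) ^ 2 + r ^ 2))) : False := by
  have hm := hf_main hl
  have ha4 : a4 ≠ 0 := by
    rintro rfl
    rw [zero_mul] at hm
    norm_num at hm
  have f0 := hf 0
  have f1 := hf 1
  have f2 := hf (-1)
  have f3 := hf 2
  have e0 : a0 = a4 * ((u ^ 2 + q ^ 2) * (v ^ 2 + r ^ 2)) := by linear_combination f0
  have e2 : a2 = a4 * ((u ^ 2 + q ^ 2) + (v ^ 2 + r ^ 2) + 4 * u * v) := by
    linear_combination (1 / 2) * f1 + (1 / 2) * f2 - f0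
  have e3 : a3 = a4 * (-2 * u - 2 * v) := by
    linear_combination (1 / 6) * f3 - (1 / 2) * f1 - (1 / 6) * f2 + (1 / 2) * f0
  have e1 : a1 = a4 * (-2 * u * (v ^ 2 + r ^ 2) - 2 * v * (u ^ 2 + q ^ 2)) := by
    linear_combination (-1 / 6) * f3 + f1 - (1 / 3) * f2 - (1 / 2) * f0
  clear f0 f1 f2 f3 hf
  obtain ⟨B1, hB1⟩ : ∃ B1 : RP, B1 = C 1 * X 0 ^ 2 + C (-u - v) * X 0 * X 1 + C (u * v - q * r) * X 1 ^ 2 := ⟨_, rfl⟩
  obtain ⟨B2, hB2⟩ : ∃ B2 : RP, B2 = C 0 * X 0 ^ 2 + C (r + q) * X 0 * X 1 + C (-(r * u) - q * v) * X 1 ^ 2 := ⟨_, rfl⟩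
  have hK : Kf a4 a3 a2 a1 a0 = C a4 * (B1 * B1 + B2 * B2) := by
    rw [hB1, hB2, e0, e1, e2, e3]
    unfold Kf
    simp only [C_mul, C_add, C_sub, C_neg, C_pow, C_n2, C_n4, C_0, C_1]
    ring
  have i1 : C 5 * (X 1 ^ 2 * Kf a4 a3 a2 a1 a0) = X 1 ^ 2 * Pf a4 a3 a2 a1 a0 - X 0 * X 1 * (-(X 1 * Kx a4 a3 a2 a1)) := by
    unfold Kf Pf Kx
    simp only [C_mul, C_n2, C_n3, C_n4, C_n5]
    ring
  have dy2 : Dle 2 (X 1 ^ 2 : RP) := (isHomogeneous_X_pow 1 2).totalDegree_le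
  have dxy : Dle 2 (X 0 * X 1 : RP) := (Dle_X 0).mul (Dle_X 1) (by omega)
  have hz : L (X 1 ^ 2 * Kf a4 a3 a2 a1 a0) = 0 := by
    have := congrArg L i1
    rw [L_C, map_sub, hl.Lp _ dy2, hl.Lq _ dxy] at this
    linarith
  have hsum : L (X 1 * B1 * (X 1 * B1)) + L (X 1 * B2 * (X 1 * B2)) = 0 := by
    rw [hK] at hz
    have e : X 1 ^ 2 * (C a4 * (B1 * B1 + B2 * B2)) = C a4 * (X 1 * B1 * (X 1 * B1) + X 1 * B2 * (X 1 * B2)) := by ring
    rw [e, L_C, map_add] at hz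
    exact (mul_eq_zero.1 hz).resolve_left ha4
  -- the choice of a form
  obtain ⟨B, hBd, hBh, hB0, hBn⟩ : ∃ B : RP, Dle 2 B ∧ (X 1 * B).IsHomogeneous 3 ∧ B ≠ 0 ∧ L (X 1 * B * (X 1 * B)) ≤ 0 := by
    have hom : ∀ a b c : ℝ, (X 1 * (C a * X 0 ^ 2 + C b * X 0 * X 1 + C c * X 1 ^ 2) : RP).IsHomogeneous 3 := by
      intro a b c
      have t1 : (C a * X 0 ^ 2 : RP).IsHomogeneous 2 := by
        simpa using (isHomogeneous_C (Fin 2) a).mul (isHomogeneous_X_pow 0 2)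
      have t2 : (C b * X 0 * X 1 : RP).IsHomogeneous 2 := by
        simpa using ((isHomogeneous_C (Fin 2) b).mul (isHomogeneous_X ℝ (0 : Fin 2))).mul (isHomogeneous_X ℝ 1)
      have t3 : (C c * X 1 ^ 2 : RP).IsHomogeneous 2 := by
        simpa using (isHomogeneous_C (Fin 2) c).mul (isHomogeneous_X_pow 1 2)
      exact (isHomogeneous_X ℝ 1).mul ((t1.add t2).add t3)
    by_cases hc : L (X 1 * B1 * (X 1 * B1)) ≤ 0
    · refine ⟨B1, by rw [hB1]; exact D2_form _ _ _, by rw [hB1]; exact hom _ _ _, ?_, hc⟩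
      intro h0
      have := congrArg (eval ![1, 0]) h0
      rw [hB1] at this
      simp at this
    · refine ⟨B2, by rw [hB2]; exact D2_form _ _ _, by rw [hB2]; exact hom _ _ _, ?_, by linarith⟩
      intro h0
      have t1 := congrArg (eval ![1, 1]) h0
      have t2 := congrArg (eval ![-1, 1]) h0
      rw [hB2] at t1 t2
      simp at t1 t2
      nlinarith
  have h12 : L (Kx a4 a3 a2 a1 * (X 1 * B)) = 0 := by
    have := hf_cub hl (A := X 1 * B) (A' := B) (a := 0) hBd (by rw [C_0]; ring)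
    rw [this, zero_mul]
  have hsq := hf_sq hl
  have hd2 : Dle 3 (X 1 * B) := (Dle_X 1).mul hBd (by omega)
  apply ham_two h (G1 := Kx a4 a3 a2 a1) (G2 := X 1 * B) Kx_D3 hd2
  · intro s t
    rw [hsq, h12]
    nlinarith [sq_nonneg s, sq_nonneg t, mul_nonneg (sq_nonneg t) (neg_nonneg.2 hBn)]
  · intro F hF s t he
    have q1 : L (Kx a4 a3 a2 a1 * (F + C s * Kx a4 a3 a2 a1 + C t * (X 1 * B))) = 0 := by
      rw [he, mul_zero, map_zero]
    have r1 : Kx a4 a3 a2 a1 * (F + C s * Kx a4 a3 a2 a1 + C t * (X 1 * B)) = Kx a4 a3 a2 a1 * F +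
        C s * (Kx a4 a3 a2 a1 * Kx a4 a3 a2 a1) + C t * (Kx a4 a3 a2 a1 * (X 1 * B)) := by ring
    rw [r1, map_add, map_add, L_C, L_C, h.rs.low _ (Kx_D3.mul hF (by omega)), hsq, h12] at q1
    have hs : s = 0 := by linarith
    refine ⟨hs, ?_⟩
    rw [hs, C_0, zero_mul, add_zero] at he
    by_contra ht
    have hh : (C t * (X 1 * B)).IsHomogeneous 3 := by
      simpa using (isHomogeneous_C (Fin 2) t).mul hBh
    have hdl : Dle 2 (C t * (X 1 * B)) := by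
      have : C t * (X 1 * B) = -F := by linear_combination he
      rw [this]
      exact hF.neg
    have h0 := homog_Dle_zero hh hdl (by norm_num)
    rcases mul_eq_zero.1 h0 with h1 | h1
    · exact ht (C_eq_zero.1 h1)
    · rcases mul_eq_zero.1 h1 with h3 | h3
      · exact X_ne_zero 1 h3
      · exact hB0 h3

/-- factorisation of a quartic without real zeros -/
lemma quartic_split {a4 a3 a2 a1 a0 : ℝ} (ha4 : a4 ≠ 0)
    (hno : ∀ t : ℝ, a4 * t ^ 4 + a3 * t ^ 3 + a2 * t ^ 2 + a1 * t + a0 ≠ 0) :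
    ∃ u q v r : ℝ, 0 < q ∧ 0 < r ∧ ∀ t : ℝ, a4 * t ^ 4 + a3 * t ^ 3 + a2 * t ^ 2 + a1 * t + a0 =
      a4 * (((t - u) ^ 2 + q ^ 2) * ((t - v) ^ 2 + r ^ 2)) := by
  obtain ⟨f, hf⟩ : ∃ f : Polynomial ℝ, f = Polynomial.C a4 * Polynomial.X ^ 4 + Polynomial.C a3 * Polynomial.X ^ 3 +
    Polynomial.C a2 * Polynomial.X ^ 2 + Polynomial.C a1 * Polynomial.X + Polynomial.C a0 := ⟨_, rfl⟩
  have hev : ∀ t : ℝ, f.eval t = a4 * t ^ 4 + a3 * t ^ 3 + a2 * t ^ 2 + a1 * t + a0 := by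
    intro t; rw [hf]; simp
  have hdeg : f.natDegree = 4 := by
    rw [hf]; compute_degree!
  have key : ∀ g : Polynomial ℝ, 0 < g.natDegree → (∀ t : ℝ, g.eval t ≠ 0) → ∃ z : ℂ, 0 < |z.im| ∧
      ∃ k : Polynomial ℝ, g = (Polynomial.X ^ 2 - Polynomial.C (2 * z.re) * Polynomial.X + Polynomial.C (‖z‖ ^ 2)) * k := by
    intro g hg hng
    have hg' : (g.map (algebraMap ℝ ℂ)).degree ≠ 0 := by
      rw [Polynomial.degree_map]
      intro h0
      have h1 : g.natDegree = 0 := Polynomial.natDegree_eq_of_degree_eq_some (n := 0) (by rw [h0]; rfl)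
      omega
    obtain ⟨z, hz⟩ := IsAlgClosed.exists_root _ hg'
    have hz' : Polynomial.aeval z g = 0 := by
      rw [Polynomial.aeval_def, ← Polynomial.eval_map]; exact hz
    have him : z.im ≠ 0 := by
      intro h0
      have hzr : z = ((z.re : ℝ) : ℂ) := by
        apply Complex.ext
        · simp
        · simp [h0]
      rw [hzr] at hz'
      have h2 : Polynomial.aeval ((z.re : ℝ) : ℂ) g = ((g.eval z.re : ℝ) : ℂ) := by
        have := Polynomial.aeval_algebraMap_apply ℂ z.re g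
        simpa using this
      rw [h2] at hz'
      exact hng z.re (by exact_mod_cast hz')
    obtain ⟨k, hk⟩ := Polynomial.quadratic_dvd_of_aeval_eq_zero_im_ne_zero g hz' him
    exact ⟨z, abs_pos.2 him, k, hk⟩
  have hqd : ∀ z : ℂ, (Polynomial.X ^ 2 - Polynomial.C (2 * z.re) * Polynomial.X + Polynomial.C (‖z‖ ^ 2) : Polynomial ℝ).natDegree = 2 := by
    intro z
    compute_degree!
  have hqe : ∀ (z : ℂ) (t : ℝ), (Polynomial.X ^ 2 - Polynomial.C (2 * z.re) * Polynomial.X + Polynomial.C (‖z‖ ^ 2) : Polynomial ℝ).eval t =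
      (t - z.re) ^ 2 + |z.im| ^ 2 := by
    intro z t
    rw [sq_abs]
    have : ‖z‖ ^ 2 = z.re ^ 2 + z.im ^ 2 := by
      rw [← Complex.normSq_eq_norm_sq, Complex.normSq_apply]; ring
    simp only [Polynomial.eval_add, Polynomial.eval_sub, Polynomial.eval_mul, Polynomial.eval_C, Polynomial.eval_X,
      Polynomial.eval_pow, this]
    ring
  obtain ⟨z, hz, k, hk⟩ := key f (by omega) (fun t => by rw [hev]; exact hno t)
  have hk0 : k ≠ 0 := by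
    rintro rfl
    rw [mul_zero] at hk
    rw [hk] at hdeg
    simp at hdeg
  have hkd : k.natDegree = 2 := by
    have := congrArg Polynomial.natDegree hk
    rw [Polynomial.natDegree_mul (by intro h0; have := hqd z; rw [h0] at this; simp at this) hk0, hqd, hdeg] at this
    omega
  obtain ⟨w, hw, m, hm⟩ := key k (by omega) (fun t ht => by
    apply hno t
    rw [← hev, hk, Polynomial.eval_mul, ht, mul_zero])
  have hm0 : m ≠ 0 := by
    rintro rfl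
    rw [mul_zero] at hm
    exact hk0 hm
  have hmd : m.natDegree = 0 := by
    have := congrArg Polynomial.natDegree hm
    rw [Polynomial.natDegree_mul (by intro h0; have := hqd w; rw [h0] at this; simp at this) hm0, hqd, hkd] at this
    omega
  obtain ⟨c, hc⟩ : ∃ c, m = Polynomial.C c := ⟨_, Polynomial.eq_C_of_natDegree_eq_zero hmd⟩
  have hall : ∀ t : ℝ, a4 * t ^ 4 + a3 * t ^ 3 + a2 * t ^ 2 + a1 * t + a0 =
      c * (((t - z.re) ^ 2 + |z.im| ^ 2) * ((t - w.re) ^ 2 + |w.im| ^ 2)) := by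
    intro t
    rw [← hev, hk, hm, hc, Polynomial.eval_mul, Polynomial.eval_mul, hqe, hqe, Polynomial.eval_C]
    ring
  have hcc : c = a4 := by
    have t0 := hall 0
    have t1 := hall 1
    have t2 := hall (-1)
    have t3 := hall 2
    have t4 := hall (-2)
    linear_combination (-1 / 24) * t3 + (-1 / 24) * t4 + (1 / 6) * t1 + (1 / 6) * t2 - (1 / 4) * t0
  rw [hcc] at hall
  exact ⟨z.re, |z.im|, w.re, |w.im|, hz, hw, hall⟩

/-- nine extrema of a generic Hamiltonian are impossible -/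
theorem ham_false {H : RP} (h50 : cf 5 0 H = 0) {S : Finset (Fin 2 → ℝ)}
    (he : E0 (pderiv 1 H) (-pderiv 0 H)) (hS : SS (pderiv 1 H) (-pderiv 0 H) S) : False := by
  obtain ⟨L, Δ, hk⟩ := exists_Pk he hS
  have hl := hk.lf
  have hn : hc 4 (-pderiv 0 H) = -hc 4 (pderiv 0 H) := by unfold hc; exact map_neg _ _
  rw [hn, hc4_pd, hc4_pd, top_explicit h50, pd1_top, pd0_top] at hl
  by_cases hr : ∃ ξ : ℝ, cf 4 1 H * ξ ^ 4 + cf 3 2 H * ξ ^ 3 + cf 2 3 H * ξ ^ 2 + cf 1 4 H * ξ + cf 0 5 H = 0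
  · obtain ⟨ξ, hξ⟩ := hr
    exact ham_A hk hl hξ
  · push Not at hr
    have ha4 : cf 4 1 H ≠ 0 := by
      intro h0
      have := hf_main hl
      rw [h0, zero_mul] at this
      norm_num at this
    obtain ⟨u, q, v, r, hq, hr', hf⟩ := quartic_split ha4 hr
    exact ham_C hk hl hq hr' hf

end Run7.h256
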