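import Mathlib
import Pool.Agent.Run7.h256.G3
import Pool.Agent.Run7.h256.M6
import Pool.Agent.Run7.h256.M8

set_option autoImplicit false

namespace Run7.h256

open MvPolynomial Topology Metric

/-- Hamiltonian systems of degree at most four have at most eight centres -/
theorem ham_bound (P Q : RP) (hP : P.totalDegree ≤ 4) (hQ : Q.totalDegree ≤ 4)
    (hdiv : pderiv 0 P + pderiv 1 Q = 0) : {p | IsCenter P Q p}.encard ≤ 8 := by
  by_contra hcon
  rw [not_le] at hcon
  have h9 : (9 : ℕ∞) ≤ {p | IsCenter P Q p}.encard := by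
    have := Order.add_one_le_of_lt hcon
    exact this
  obtain ⟨t, ht, htc⟩ := Set.exists_subset_encard_eq h9
  have hfin : t.Finite := Set.finite_of_encard_eq_coe (k := 9) htc
  rw [hfin.encard_eq_coe_toFinset_card] at htc
  have hcard : hfin.toFinset.card = 9 := by exact_mod_cast htc
  obtain ⟨H, hH, h1, h0⟩ := exists_ham hP hQ hdiv
  have hS : ∀ p ∈ hfin.toFinset, Ext H p := by
    intro p hp
    have hc : IsCenter P Q p := ht (hfin.mem_toFinset.1 hp)
    exact hc.strict h1 h0
  obtain ⟨H', S', hH', h50, hc9, hS'⟩ := normal_top hH hcard hS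
  obtain ⟨H'', S'', _, h50', he, hs⟩ := perturb hH' h50 hc9 hS'
  exact ham_false h50' he hs

/-- planar polynomial systems of degree at most four have at most eight centres -/
theorem stage5 (P Q : RP) (hP : P.totalDegree ≤ 4) (hQ : Q.totalDegree ≤ 4) :
    {p | IsCenter P Q p}.encard ≤ 8 := by
  by_cases hdiv : pderiv 0 P + pderiv 1 Q = 0
  · exact ham_bound P Q hP hQ hdiv
  · exact stage4 P Q hP hQ hdiv

end Run7.h256
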