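import Mathlib

set_option autoImplicit false

namespace Run7.h256

open Topology Metric

/-- a coordinate adapted to a zero of `f` with positive derivative -/
structure Crd (f : ℝ → ℝ) (a ρ : ℝ) (X X' σ : ℝ → ℝ) (N : Set ℝ) : Prop where
  hρ : 0 < ρ
  X0 : X 0 = a
  dX : ∀ s, |s| < ρ → HasDerivAt X (X' s) s
  pX : ∀ s, |s| < ρ → 0 < X' s
  cX : ContinuousOn X' {s | |s| < ρ}
  eq : ∀ s, |s| < ρ → f (X s) * X' s = s
  opN : IsOpen N
  inN : ∀ s, |s| < ρ → X s ∈ N ∧ σ (X s) = s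
  out : ∀ x ∈ N, |σ x| < ρ ∧ X (σ x) = x
  cσ : ContinuousOn σ N

theorem exists_crd {f h : ℝ → ℝ} {a : ℝ} (hd : ∀ x, HasDerivAt (fun x => (x - a) ^ 2 * h x) (f x) x)
    (hh : ContDiff ℝ 1 h) (ha : 0 < h a) : ∃ ρ X X' σ N, Crd f a ρ X X' σ N := by
  obtain ⟨σ, hσ⟩ : ∃ σ : ℝ → ℝ, σ = fun x => (x - a) * Real.sqrt (2 * h x) := ⟨_, rfl⟩
  have hsq : ContDiffAt ℝ 1 (fun x => Real.sqrt (2 * h x)) a := by
    refine ContDiffAt.sqrt ?_ (by positivity)
    exact (contDiff_const.mul hh).contDiffAt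
  have hcd : ContDiffAt ℝ 1 σ a := by
    rw [hσ]
    exact ContDiffAt.mul (contDiff_id.sub contDiff_const).contDiffAt hsq
  have hm : 0 < Real.sqrt (2 * h a) := Real.sqrt_pos.2 (by positivity)
  have hder : HasDerivAt σ (Real.sqrt (2 * h a)) a := by
    have h1 := (((hasDerivAt_id a).sub_const a).mul (hsq.differentiableAt (by norm_num)).hasDerivAt)
    rw [hσ]
    have e : (1 : ℝ) * Real.sqrt (2 * h a) + (id a - a) * deriv (fun x => Real.sqrt (2 * h x)) a =
        Real.sqrt (2 * h a) := by simp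
    rw [e] at h1
    exact h1
  obtain ⟨f', hf'⟩ : ∃ f' : ℝ ≃L[ℝ] ℝ, HasFDerivAt σ (f' : ℝ →L[ℝ] ℝ) a :=
    ⟨_, hder.hasFDerivAt_equiv hm.ne'⟩
  obtain ⟨e, he⟩ : ∃ e, e = hcd.toOpenPartialHomeomorph σ hf' (by norm_num) := ⟨_, rfl⟩
  have hes : ∀ x, e x = σ x := by
    intro x
    rw [he, ContDiffAt.toOpenPartialHomeomorph_coe]
  have hea : a ∈ e.source := by rw [he]; exact hcd.mem_toOpenPartialHomeomorph_source hf' (by norm_num)
  have hσa : σ a = 0 := by rw [hσ]; simp
  have he0 : (0 : ℝ) ∈ e.target := by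
    have := e.map_source hea
    rwa [hes, hσa] at this
  have hX0 : e.symm 0 = a := by
    have := e.left_inv hea
    rwa [hes, hσa] at this
  have hsc : ContDiffAt ℝ 1 e.symm 0 := by
    apply e.contDiffAt_symm (f₀' := f') he0
    · rw [hX0]
      have : (e : ℝ → ℝ) = σ := funext hes
      rw [this]; exact hf'
    · rw [hX0]
      have : (e : ℝ → ℝ) = σ := funext hes
      rw [this]; exact hcd
  have hX' : deriv e.symm 0 * Real.sqrt (2 * h a) = 1 := by
    have h1 : HasDerivAt e.symm (deriv e.symm 0) (σ a) := by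
      rw [hσa]; exact (hsc.differentiableAt (by norm_num)).hasDerivAt
    have h2 := h1.comp a hder
    have h3 : (e.symm ∘ σ) =ᶠ[𝓝 a] id := by
      filter_upwards [e.open_source.mem_nhds hea] with x hx
      show e.symm (σ x) = x
      rw [← hes]; exact e.left_inv hx
    exact (h2.congr_of_eventuallyEq h3.symm).unique (hasDerivAt_id a)
  have hp0 : 0 < deriv e.symm 0 := by
    by_contra hc
    push Not at hc
    nlinarith
  -- a good neighbourhood
  have hev : ∀ᶠ s in 𝓝 (0 : ℝ), ContDiffAt ℝ 1 e.symm s := hsc.eventually (by simp)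
  have hdc : ∀ s, ContDiffAt ℝ 1 e.symm s → ContinuousAt (deriv e.symm) s := by
    intro s hs
    have h1 := hs.continuousAt_fderiv (by norm_num)
    have h2 : deriv e.symm = fun x => fderiv ℝ e.symm x 1 := by
      funext x; exact (fderiv_apply_one_eq_deriv).symm
    rw [h2]
    exact h1.clm_apply continuousAt_const
  have hev2 : ∀ᶠ s in 𝓝 (0 : ℝ), 0 < deriv e.symm s := (hdc 0 hsc).eventually (lt_mem_nhds hp0)
  have hev3 : ∀ᶠ s in 𝓝 (0 : ℝ), s ∈ e.target := e.open_target.mem_nhds he0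
  have hev4 : ∀ᶠ s in 𝓝 (0 : ℝ), 0 < h (e.symm s) := by
    have h1 : ContinuousAt (fun s => h (e.symm s)) 0 := by
      apply ContinuousAt.comp hh.continuous.continuousAt hsc.continuousAt
    have h2 : 0 < h (e.symm 0) := by rw [hX0]; exact ha
    exact h1.eventually (lt_mem_nhds h2)
  obtain ⟨ρ, hρ, hall⟩ := Metric.eventually_nhds_iff.1 (hev.and (hev2.and (hev3.and hev4)))
  have hall' : ∀ s, |s| < ρ → ContDiffAt ℝ 1 e.symm s ∧ 0 < deriv e.symm s ∧ s ∈ e.target ∧ 0 < h (e.symm s) := by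
    intro s hs
    exact hall (by rw [Real.dist_eq, sub_zero]; exact hs)
  have hder' : ∀ s, |s| < ρ → HasDerivAt e.symm (deriv e.symm s) s := fun s hs =>
    ((hall' s hs).1.differentiableAt (by norm_num)).hasDerivAt
  have hopen : IsOpen {s : ℝ | |s| < ρ} := isOpen_lt continuous_abs continuous_const
  refine ⟨ρ, e.symm, deriv e.symm, σ, e.source ∩ e ⁻¹' {s : ℝ | |s| < ρ}, ⟨hρ, hX0, hder', fun s hs => (hall' s hs).2.1,
    fun s hs => (hdc s (hall' s hs).1).continuousWithinAt, ?_, e.isOpen_inter_preimage hopen, ?_, ?_, ?_⟩⟩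
  · intro s hs
    have h1 : HasDerivAt (fun s => (e.symm s - a) ^ 2 * h (e.symm s)) (f (e.symm s) * deriv e.symm s) s :=
      (hd (e.symm s)).comp s (hder' s hs)
    have h2 : HasDerivAt (fun s : ℝ => s ^ 2 / 2) s s :=
      ((hasDerivAt_pow 2 s).div_const 2).congr_deriv (by simp)
    have h3 : (fun s => (e.symm s - a) ^ 2 * h (e.symm s)) =ᶠ[𝓝 s] fun s : ℝ => s ^ 2 / 2 := by
      filter_upwards [hopen.mem_nhds hs] with t ht
      have h4 : σ (e.symm t) = t := by
        rw [← hes]; exact e.right_inv (hall' t ht).2.2.1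
      have h5 : (e.symm t - a) * Real.sqrt (2 * h (e.symm t)) = t := by
        rw [hσ] at h4; exact h4
      have h6 : Real.sqrt (2 * h (e.symm t)) ^ 2 = 2 * h (e.symm t) :=
        Real.sq_sqrt (by have := (hall' t ht).2.2.2; positivity)
      have h7 : t ^ 2 = (e.symm t - a) ^ 2 * (2 * h (e.symm t)) := by
        rw [← h6, ← mul_pow, h5]
      show (e.symm t - a) ^ 2 * h (e.symm t) = t ^ 2 / 2
      rw [h7]; ring
    exact (h1.congr_of_eventuallyEq h3.symm).unique h2
  · intro s hs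
    have h1 : σ (e.symm s) = s := by
      rw [← hes]; exact e.right_inv (hall' s hs).2.2.1
    refine ⟨⟨e.map_target (hall' s hs).2.2.1, ?_⟩, h1⟩
    show |e (e.symm s)| < ρ
    rw [hes, h1]; exact hs
  · intro x hx
    have h1 : |e x| < ρ := hx.2
    rw [hes] at h1
    refine ⟨h1, ?_⟩
    rw [← hes]; exact e.left_inv hx.1
  · have h1 : ContinuousOn e e.source := e.continuousOn
    have h2 : (e : ℝ → ℝ) = σ := funext hes
    rw [h2] at h1
    exact h1.mono Set.inter_subset_left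

end Run7.h256
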