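import Mathlib
import Pool.Agent.Run7.h256.Top
import Pool.Agent.Run7.h256.N1

set_option autoImplicit false

namespace Run7.h256

open MvPolynomial Topology Metric Filter

/-- a positive continuous periodic speed gives a global angle -/
theorem exists_angle {w : ℝ → ℝ} (hw : Continuous w) (hpos : ∀ θ, 0 < w θ)
    (hper : Function.Periodic w (2 * Real.pi)) :
    ∃ θ : ℝ → ℝ, ∃ T : ℝ, 0 < T ∧ (∀ t, HasDerivAt θ (w (θ t))⁻¹ t) ∧ (∀ t, θ (t + T) = θ t + 2 * Real.pi) ∧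
      Function.Surjective θ := by
  obtain ⟨F, hF⟩ : ∃ F : ℝ → ℝ, F = fun θ => ∫ s in (0 : ℝ)..θ, w s := ⟨_, rfl⟩
  have hd : ∀ θ, HasDerivAt F (w θ) θ := by
    intro θ
    rw [hF]
    exact (hw.integral_hasStrictDerivAt 0 θ).hasDerivAt
  have hF0 : F 0 = 0 := by rw [hF]; simp
  have hmono : StrictMono F := strictMono_of_deriv_pos (fun x => by rw [(hd x).deriv]; exact hpos x)
  obtain ⟨c, hc, hcw⟩ : ∃ c : ℝ, 0 < c ∧ ∀ θ, c ≤ w θ := by
    obtain ⟨θm, _, hmin⟩ := isCompact_Icc.exists_isMinOn (s := Set.Icc (0 : ℝ) (2 * Real.pi))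
      ⟨0, by constructor <;> [exact le_rfl; positivity]⟩ hw.continuousOn
    refine ⟨w θm, hpos θm, fun θ => ?_⟩
    obtain ⟨y, hy, hy'⟩ := hper.exists_mem_Ico₀ (by positivity) θ
    rw [hy']
    exact hmin (Set.Ico_subset_Icc_self hy)
  have hmon : Monotone (fun θ => F θ - c * θ) := by
    have hdd : ∀ θ, HasDerivAt (fun θ => F θ - c * θ) (w θ - c * 1) θ := fun θ =>
      (hd θ).sub ((hasDerivAt_id θ).const_mul c)
    apply monotone_of_deriv_nonneg
    · intro θ
      exact (hdd θ).differentiableAt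
    · intro θ
      rw [(hdd θ).deriv]
      have := hcw θ
      linarith
  have hcont : Continuous F := continuous_iff_continuousAt.2 (fun x => (hd x).continuousAt)
  have htop : Tendsto F atTop atTop := by
    apply tendsto_atTop_mono' atTop (f₁ := fun θ => c * θ)
    · filter_upwards [eventually_ge_atTop (0 : ℝ)] with θ hθ
      have := hmon hθ
      simp only [hF0, mul_zero, sub_zero] at this
      linarith
    · exact tendsto_id.const_mul_atTop hc
  have hbot : Tendsto F atBot atBot := by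
    apply tendsto_atBot_mono' atBot (f₁ := fun θ => c * θ)
    · filter_upwards [eventually_le_atBot (0 : ℝ)] with θ hθ
      have := hmon hθ
      simp only [hF0, mul_zero, sub_zero] at this
      linarith
    · exact tendsto_id.const_mul_atBot hc
  have hsurj : Function.Surjective F := hcont.surjective htop hbot
  obtain ⟨e, he⟩ : ∃ e : ℝ ≃o ℝ, ∀ x, e x = F x := ⟨hmono.orderIsoOfSurjective F hsurj, fun x => rfl⟩
  have hFe : ∀ t, F (e.symm t) = t := fun t => by rw [← he]; exact e.apply_symm_apply t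
  have hshift : ∀ θ, F (θ + 2 * Real.pi) = F θ + F (2 * Real.pi) := by
    intro θ
    have hD : ∀ x, HasDerivAt (fun x => F (x + 2 * Real.pi) - F x) (0 : ℝ) x := by
      intro x
      have h1 := ((hd (x + 2 * Real.pi)).comp_add_const x (2 * Real.pi)).sub (hd x)
      rw [hper x, sub_self] at h1
      exact h1
    have hconst := is_const_of_deriv_eq_zero (fun x => (hD x).differentiableAt) (fun x => (hD x).deriv) θ 0
    simp only [zero_add, hF0, sub_zero] at hconst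
    linarith
  refine ⟨e.symm, F (2 * Real.pi), ?_, ?_, ?_, e.symm.surjective⟩
  · rw [← hF0]; exact hmono (by positivity)
  · intro t
    exact HasDerivAt.of_local_left_inverse e.symm.continuous.continuousAt (hd _) (hpos _).ne'
      (Eventually.of_forall hFe)
  · intro t
    apply hmono.injective
    rw [hFe, hshift, hFe]

/-- the energy curve -/
def Ec (σ τ : ℝ → ℝ) (N M : Set ℝ) (r : ℝ) : Set (Fin 2 → ℝ) :=
  {p | p 0 ∈ N ∧ p 1 ∈ M ∧ σ (p 0) ^ 2 + τ (p 1) ^ 2 = r ^ 2}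

section
variable {f g : ℝ → ℝ} {a b ρ₁ ρ₂ : ℝ} {X X' σ Y Y' τ : ℝ → ℝ} {N M : Set ℝ} {P Q : RP}

lemma abs_cos_lt {r ρ : ℝ} (hr : 0 < r) (h : r < ρ) (θ : ℝ) : |r * Real.cos θ| < ρ := by
  rw [abs_mul, abs_of_pos hr]
  have := Real.abs_cos_le_one θ
  nlinarith

lemma abs_sin_lt {r ρ : ℝ} (hr : 0 < r) (h : r < ρ) (θ : ℝ) : |-(r * Real.sin θ)| < ρ := by
  rw [abs_neg, abs_mul, abs_of_pos hr]
  have := Real.abs_sin_le_one θ
  nlinarith

theorem Ec_orbit (hX : Crd f a ρ₁ X X' σ N) (hY : Crd g b ρ₂ Y Y' τ M) (hP : ∀ p, eval p P = g (p 1))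
    (hQ : ∀ p, eval p Q = - f (p 0)) {r : ℝ} (hr : 0 < r) (h1 : r < ρ₁) (h2 : r < ρ₂) :
    IsPeriodicOrbit P Q (Ec σ τ N M r) := by
  have hu := abs_cos_lt hr h1
  have hv := abs_sin_lt hr h2
  have hcx : Continuous (fun θ : ℝ => X' (r * Real.cos θ)) :=
    hX.cX.comp_continuous (by fun_prop) (fun θ => hu θ)
  have hcy : Continuous (fun θ : ℝ => Y' (-(r * Real.sin θ))) :=
    hY.cX.comp_continuous (by fun_prop) (fun θ => hv θ)
  obtain ⟨θ, T, hT, hd, hp, hs⟩ := exists_angle (w := fun θ => X' (r * Real.cos θ) * Y' (-(r * Real.sin θ)))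
    (hcx.mul hcy) (fun θ => mul_pos (hX.pX _ (hu θ)) (hY.pX _ (hv θ))) (by
      intro θ
      simp only [Real.cos_add_two_pi, Real.sin_add_two_pi])
  refine ⟨fun t => ![X (r * Real.cos (θ t)), Y (-(r * Real.sin (θ t)))], T, ?_, hT, ?_, ?_, ?_⟩
  · intro t
    have px := hX.pX _ (hu (θ t))
    have py := hY.pX _ (hv (θ t))
    have ex := hX.eq _ (hu (θ t))
    have ey := hY.eq _ (hv (θ t))
    have dθ := hd t
    constructor
    · have d1 := (hX.dX _ (hu (θ t))).comp t (((Real.hasDerivAt_cos (θ t)).comp t dθ).const_mul r)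
      rw [hP]
      simp only [Matrix.cons_val_zero, Matrix.cons_val_one]
      refine d1.congr_deriv ?_
      have : g (Y (-(r * Real.sin (θ t)))) = -(r * Real.sin (θ t)) / Y' (-(r * Real.sin (θ t))) := by
        rw [eq_div_iff py.ne']; exact ey
      rw [this]
      field_simp
    · have d1 := (hY.dX _ (hv (θ t))).comp t (((Real.hasDerivAt_sin (θ t)).comp t dθ).const_mul r).neg
      rw [hQ]
      simp only [Matrix.cons_val_zero, Matrix.cons_val_one]
      refine d1.congr_deriv ?_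
      have : f (X (r * Real.cos (θ t))) = (r * Real.cos (θ t)) / X' (r * Real.cos (θ t)) := by
        rw [eq_div_iff px.ne']; exact ex
      rw [this]
      field_simp
  · intro t
    simp only [hp, Real.cos_add_two_pi, Real.sin_add_two_pi]
  · obtain ⟨t, ht⟩ := hs (θ 0 + Real.pi)
    refine ⟨t, ?_⟩
    intro he
    have e0 := congrArg (fun p : Fin 2 → ℝ => p 0) he
    have e1 := congrArg (fun p : Fin 2 → ℝ => p 1) he
    simp only [Matrix.cons_val_zero, Matrix.cons_val_one] at e0 e1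
    have c0 := congrArg σ e0
    have c1 := congrArg τ e1
    rw [(hX.inN _ (hu _)).2, (hX.inN _ (hu _)).2, ht, Real.cos_add_pi] at c0
    rw [(hY.inN _ (hv _)).2, (hY.inN _ (hv _)).2, ht, Real.sin_add_pi] at c1
    have z0 : Real.cos (θ 0) = 0 := by
      have : r * Real.cos (θ 0) = 0 := by linarith
      exact (mul_eq_zero.1 this).resolve_left hr.ne'
    have z1 : Real.sin (θ 0) = 0 := by
      have : r * Real.sin (θ 0) = 0 := by linarith
      exact (mul_eq_zero.1 this).resolve_left hr.ne'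
    have := Real.sin_sq_add_cos_sq (θ 0)
    rw [z0, z1] at this
    norm_num at this
  · ext p
    constructor
    · rintro ⟨p0, p1, he⟩
      obtain ⟨z, hz⟩ : ∃ z : ℂ, z = ⟨σ (p 0), -τ (p 1)⟩ := ⟨_, rfl⟩
      have hn : ‖z‖ = r := by
        have h1 : ‖z‖ ^ 2 = r ^ 2 := by
          rw [← Complex.normSq_eq_norm_sq, Complex.normSq_apply, hz]
          simp only
          rw [← he]; ring
        nlinarith [norm_nonneg z, sq_nonneg (‖z‖ - r)]
      have k1 := Complex.norm_mul_cos_arg z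
      have k2 := Complex.norm_mul_sin_arg z
      rw [hn] at k1 k2
      obtain ⟨t, ht⟩ := hs (Complex.arg z)
      refine ⟨t, ?_⟩
      simp only [ht, k1, k2]
      rw [hz]
      simp only [neg_neg]
      rw [(hX.out _ p0).2, (hY.out _ p1).2]
      ext i
      fin_cases i <;> simp
    · rintro ⟨t, rfl⟩
      have i0 := hX.inN _ (hu (θ t))
      have i1 := hY.inN _ (hv (θ t))
      refine ⟨i0.1, i1.1, ?_⟩
      simp only [Matrix.cons_val_zero, Matrix.cons_val_one]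
      rw [i0.2, i1.2]
      have := Real.sin_sq_add_cos_sq (θ t)
      linear_combination r ^ 2 * this

theorem Ec_surrounds (hX : Crd f a ρ₁ X X' σ N) (hY : Crd g b ρ₂ Y Y' τ M) {r : ℝ} (hr : 0 < r) (h1 : r < ρ₁)
    (h2 : r < ρ₂) : Surrounds (Ec σ τ N M r) ![a, b] := by
  have z1 : |(0 : ℝ)| < ρ₁ := by rw [abs_zero]; exact hX.hρ
  have z2 : |(0 : ℝ)| < ρ₂ := by rw [abs_zero]; exact hY.hρ
  have a0 := hX.inN 0 z1
  have b0 := hY.inN 0 z2
  rw [hX.X0] at a0
  rw [hY.X0] at b0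
  obtain ⟨D, hD⟩ : ∃ D : Set (Fin 2 → ℝ), D = {p | p 0 ∈ N ∧ p 1 ∈ M ∧ σ (p 0) ^ 2 + τ (p 1) ^ 2 < r ^ 2} := ⟨_, rfl⟩
  obtain ⟨K, hK⟩ : ∃ K : Set (Fin 2 → ℝ), K = {p | p 0 ∈ N ∧ p 1 ∈ M ∧ σ (p 0) ^ 2 + τ (p 1) ^ 2 ≤ r ^ 2} := ⟨_, rfl⟩
  have hNM : IsOpen {p : Fin 2 → ℝ | p 0 ∈ N ∧ p 1 ∈ M} :=
    (hX.opN.preimage (continuous_apply 0)).inter (hY.opN.preimage (continuous_apply 1))
  have hc : ContinuousOn (fun p : Fin 2 → ℝ => σ (p 0) ^ 2 + τ (p 1) ^ 2) {p : Fin 2 → ℝ | p 0 ∈ N ∧ p 1 ∈ M} := by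
    apply ContinuousOn.add
    · apply ContinuousOn.pow
      exact hX.cσ.comp (continuous_apply 0).continuousOn (fun p hp => hp.1)
    · apply ContinuousOn.pow
      exact hY.cσ.comp (continuous_apply 1).continuousOn (fun p hp => hp.2)
  have hDo : IsOpen D := by
    have := hc.isOpen_inter_preimage hNM (isOpen_Iio (a := r ^ 2))
    rw [hD]
    convert this using 1
    ext p
    simp only [Set.mem_setOf_eq, Set.mem_inter_iff, Set.mem_preimage, Set.mem_Iio]
    tauto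
  have hKc : IsCompact K := by
    have hdisc : IsCompact {p : Fin 2 → ℝ | p 0 ^ 2 + p 1 ^ 2 ≤ r ^ 2} := by
      apply Metric.isCompact_of_isClosed_isBounded
      · exact isClosed_le (by fun_prop) continuous_const
      · apply (isBounded_closedBall (x := (0 : Fin 2 → ℝ)) (r := r)).subset
        intro p hp
        rw [mem_closedBall_zero_iff, pi_norm_le_iff_of_nonneg hr.le]
        have hp' : p 0 ^ 2 + p 1 ^ 2 ≤ r ^ 2 := hp
        intro i
        rw [Real.norm_eq_abs]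
        apply abs_le_of_sq_le_sq _ hr.le
        fin_cases i
        · simp only [Fin.zero_eta, Fin.isValue]
          nlinarith [sq_nonneg (p 1)]
        · simp only [Fin.mk_one, Fin.isValue]
          nlinarith [sq_nonneg (p 0)]
    have himg : K = (fun p : Fin 2 → ℝ => (![X (p 0), Y (p 1)] : Fin 2 → ℝ)) '' {p : Fin 2 → ℝ | p 0 ^ 2 + p 1 ^ 2 ≤ r ^ 2} := by
      rw [hK]
      ext p
      constructor
      · rintro ⟨p0, p1, he⟩
        refine ⟨![σ (p 0), τ (p 1)], ?_, ?_⟩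
        · simpa using he
        · simp only [Matrix.cons_val_zero, Matrix.cons_val_one]
          rw [(hX.out _ p0).2, (hY.out _ p1).2]
          ext i
          fin_cases i <;> simp
      · rintro ⟨q, hq, rfl⟩
        have hq' : q 0 ^ 2 + q 1 ^ 2 ≤ r ^ 2 := hq
        have l0 : |q 0| < ρ₁ := lt_of_le_of_lt (abs_le_of_sq_le_sq (by nlinarith [sq_nonneg (q 1)]) hr.le) h1
        have l1 : |q 1| < ρ₂ := lt_of_le_of_lt (abs_le_of_sq_le_sq (by nlinarith [sq_nonneg (q 0)]) hr.le) h2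
        have i0 := hX.inN _ l0
        have i1 := hY.inN _ l1
        refine ⟨i0.1, i1.1, ?_⟩
        simp only [Matrix.cons_val_zero, Matrix.cons_val_one]
        rw [i0.2, i1.2]; exact hq'
    rw [himg]
    apply hdisc.image_of_continuousOn
    rw [continuousOn_pi]
    intro i
    have c0 : ContinuousOn (fun p : Fin 2 → ℝ => X (p 0)) {p : Fin 2 → ℝ | p 0 ^ 2 + p 1 ^ 2 ≤ r ^ 2} := by
      intro q hq
      have hq' : q 0 ^ 2 + q 1 ^ 2 ≤ r ^ 2 := hq
      have l0 : |q 0| < ρ₁ := lt_of_le_of_lt (abs_le_of_sq_le_sq (by nlinarith [sq_nonneg (q 1)]) hr.le) h1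
      exact (ContinuousAt.comp (f := fun p : Fin 2 → ℝ => p 0) (hX.dX _ l0).continuousAt
        (continuous_apply 0).continuousAt).continuousWithinAt
    have c1 : ContinuousOn (fun p : Fin 2 → ℝ => Y (p 1)) {p : Fin 2 → ℝ | p 0 ^ 2 + p 1 ^ 2 ≤ r ^ 2} := by
      intro q hq
      have hq' : q 0 ^ 2 + q 1 ^ 2 ≤ r ^ 2 := hq
      have l1 : |q 1| < ρ₂ := lt_of_le_of_lt (abs_le_of_sq_le_sq (by nlinarith [sq_nonneg (q 0)]) hr.le) h2
      exact (ContinuousAt.comp (f := fun p : Fin 2 → ℝ => p 1) (hY.dX _ l1).continuousAt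
        (continuous_apply 1).continuousAt).continuousWithinAt
    fin_cases i
    · simpa using c0
    · simpa using c1
  constructor
  · rintro ⟨_, _, he⟩
    simp only [Matrix.cons_val_zero, Matrix.cons_val_one] at he
    rw [a0.2, b0.2] at he
    nlinarith
  · apply hKc.isBounded.subset
    have hpre : IsPreconnected (connectedComponentIn (Ec σ τ N M r)ᶜ ![a, b]) := isPreconnected_connectedComponentIn
    have hpO : (![a, b] : Fin 2 → ℝ) ∈ (Ec σ τ N M r)ᶜ := by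
      rintro ⟨_, _, he⟩
      simp only [Matrix.cons_val_zero, Matrix.cons_val_one] at he
      rw [a0.2, b0.2] at he
      nlinarith
    have hpC := mem_connectedComponentIn hpO
    intro x hx
    by_contra hxK
    have hcov : connectedComponentIn (Ec σ τ N M r)ᶜ ![a, b] ⊆ D ∪ Kᶜ := by
      intro y hy
      have hyO := connectedComponentIn_subset _ _ hy
      by_cases hyK : y ∈ K
      · left
        rw [hK] at hyK
        rw [hD]
        refine ⟨hyK.1, hyK.2.1, lt_of_le_of_ne hyK.2.2 (fun he => hyO ⟨hyK.1, hyK.2.1, he⟩)⟩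
      · right; exact hyK
    obtain ⟨y, hy, hyD, hyK⟩ := hpre D Kᶜ hDo hKc.isClosed.isOpen_compl hcov
      ⟨_, hpC, by
        rw [hD]
        refine ⟨a0.1, b0.1, ?_⟩
        simp only [Matrix.cons_val_zero, Matrix.cons_val_one]
        rw [a0.2, b0.2]
        nlinarith⟩ ⟨x, hx, hxK⟩
    apply hyK
    rw [hD] at hyD
    rw [hK]
    exact ⟨hyD.1, hyD.2.1, hyD.2.2.le⟩

theorem center_sep (hX : Crd f a ρ₁ X X' σ N) (hY : Crd g b ρ₂ Y Y' τ M) (hP : ∀ p, eval p P = g (p 1))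
    (hQ : ∀ p, eval p Q = - f (p 0)) : IsCenter P Q ![a, b] := by
  have z1 : |(0 : ℝ)| < ρ₁ := by rw [abs_zero]; exact hX.hρ
  have z2 : |(0 : ℝ)| < ρ₂ := by rw [abs_zero]; exact hY.hρ
  have a0 := hX.inN 0 z1
  have b0 := hY.inN 0 z2
  have ea := hX.eq 0 z1
  have eb := hY.eq 0 z2
  rw [hX.X0] at a0 ea
  rw [hY.X0] at b0 eb
  have fa : f a = 0 := (mul_eq_zero.1 ea).resolve_right (hX.pX 0 z1).ne'
  have gb : g b = 0 := (mul_eq_zero.1 eb).resolve_right (hY.pX 0 z2).ne'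
  refine ⟨by rw [hP]; exact gb, by rw [hQ]; simp [fa], ?_⟩
  obtain ⟨ρ, hρ⟩ : ∃ ρ, ρ = min ρ₁ ρ₂ := ⟨_, rfl⟩
  have hρ0 : 0 < ρ := by rw [hρ]; exact lt_min hX.hρ hY.hρ
  have hNM : IsOpen {p : Fin 2 → ℝ | p 0 ∈ N ∧ p 1 ∈ M} :=
    (hX.opN.preimage (continuous_apply 0)).inter (hY.opN.preimage (continuous_apply 1))
  have hc : ContinuousOn (fun p : Fin 2 → ℝ => σ (p 0) ^ 2 + τ (p 1) ^ 2) {p : Fin 2 → ℝ | p 0 ∈ N ∧ p 1 ∈ M} := by
    apply ContinuousOn.add
    · apply ContinuousOn.pow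
      exact hX.cσ.comp (continuous_apply 0).continuousOn (fun p hp => hp.1)
    · apply ContinuousOn.pow
      exact hY.cσ.comp (continuous_apply 1).continuousOn (fun p hp => hp.2)
  refine ⟨{p : Fin 2 → ℝ | p 0 ∈ N ∧ p 1 ∈ M} ∩ (fun p : Fin 2 → ℝ => σ (p 0) ^ 2 + τ (p 1) ^ 2) ⁻¹' Set.Iio (ρ ^ 2),
    (hc.isOpen_inter_preimage hNM isOpen_Iio).mem_nhds ?_, ?_⟩
  · refine ⟨⟨a0.1, b0.1⟩, ?_⟩
    show σ _ ^ 2 + τ _ ^ 2 < ρ ^ 2
    simp only [Matrix.cons_val_zero, Matrix.cons_val_one]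
    rw [a0.2, b0.2]
    nlinarith
  · rintro q ⟨⟨q0, q1⟩, hq⟩ hne
    have hq' : σ (q 0) ^ 2 + τ (q 1) ^ 2 < ρ ^ 2 := hq
    obtain ⟨r, hr⟩ : ∃ r, r = Real.sqrt (σ (q 0) ^ 2 + τ (q 1) ^ 2) := ⟨_, rfl⟩
    have hr2 : r ^ 2 = σ (q 0) ^ 2 + τ (q 1) ^ 2 := by rw [hr]; exact Real.sq_sqrt (by positivity)
    have hr0 : 0 ≤ r := by rw [hr]; exact Real.sqrt_nonneg _
    have hrp : 0 < r := by
      apply lt_of_le_of_ne hr0
      intro h0
      rw [← h0] at hr2
      have s0 : σ (q 0) = 0 := by nlinarith [sq_nonneg (σ (q 0)), sq_nonneg (τ (q 1))]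
      have t0 : τ (q 1) = 0 := by nlinarith [sq_nonneg (σ (q 0)), sq_nonneg (τ (q 1))]
      apply hne
      have e0 := (hX.out _ q0).2
      have e1 := (hY.out _ q1).2
      rw [s0, hX.X0] at e0
      rw [t0, hY.X0] at e1
      ext i
      fin_cases i
      · simpa using e0.symm
      · simpa using e1.symm
    have hrρ : r < ρ := by
      rw [← hr2] at hq'
      exact lt_of_pow_lt_pow_left₀ 2 hρ0.le hq'
    have h1 : r < ρ₁ := lt_of_lt_of_le hrρ (by rw [hρ]; exact min_le_left _ _)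
    have h2 : r < ρ₂ := lt_of_lt_of_le hrρ (by rw [hρ]; exact min_le_right _ _)
    exact ⟨Ec σ τ N M r, Ec_orbit hX hY hP hQ hrp h1 h2, ⟨q0, q1, hr2.symm⟩, Ec_surrounds hX hY hrp h1 h2⟩

end

/-- time reversal -/
theorem IsCenter.rev {P Q : RP} {p : Fin 2 → ℝ} (h : IsCenter (-P) (-Q) p) : IsCenter P Q p := by
  obtain ⟨h1, h2, U, hU, hall⟩ := h
  refine ⟨by simpa using h1, by simpa using h2, U, hU, ?_⟩
  intro q hq hne
  obtain ⟨O, ⟨γ, T, hs, hT, hp, ⟨t, ht⟩, hO⟩, hqO, hsur⟩ := hall q hq hne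
  refine ⟨O, ⟨fun t => γ (-t), T, ?_, hT, ?_, ⟨-t, ?_⟩, ?_⟩, hqO, hsur⟩
  · intro s
    have := hs (-s)
    constructor
    · have h3 := this.1.comp s (hasDerivAt_neg s)
      refine h3.congr_deriv ?_
      simp
    · have h3 := this.2.comp s (hasDerivAt_neg s)
      refine h3.congr_deriv ?_
      simp
  · intro s
    have := hp (-(s + T))
    rw [show -(s + T) + T = -s by ring] at this
    exact this.symm
  · show γ (-(-t)) ≠ γ (-0)
    rw [neg_neg, neg_zero]; exact ht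
  · rw [hO]
    ext x
    constructor
    · rintro ⟨s, rfl⟩; exact ⟨-s, by show γ (-(-s)) = γ s; rw [neg_neg]⟩
    · rintro ⟨s, rfl⟩; exact ⟨-s, rfl⟩

end Run7.h256
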