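import Mathlib
import Pool.Agent.Run7.h256.N2

set_option autoImplicit false

namespace Run7.h256

open MvPolynomial Topology Metric Filter

/-- the polynomial `(u^2-1)(u^2-9)` in the variable `i` -/
noncomputable def Fi (i : Fin 2) : RP := X i ^ 4 - C 10 * X i ^ 2 + C 9

lemma Fi_eval (i : Fin 2) (p : Fin 2 → ℝ) : eval p (Fi i) = p i ^ 4 - 10 * p i ^ 2 + 9 := by
  simp [Fi]

lemma Fi_deg (i : Fin 2) : (Fi i).totalDegree = 4 := by
  apply le_antisymm
  · unfold Fi
    refine (totalDegree_add _ _).trans (max_le ((totalDegree_sub _ _).trans (max_le ?_ ?_)) ?_)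
    · exact (isHomogeneous_X_pow i 4).totalDegree_le
    · refine (totalDegree_mul _ _).trans ?_
      rw [totalDegree_C, zero_add]
      exact (isHomogeneous_X_pow i 2).totalDegree_le.trans (by norm_num)
    · rw [totalDegree_C]; norm_num
  · have hc : coeff (Finsupp.single i 4) (Fi i) = 1 := by
      unfold Fi
      rw [coeff_add, coeff_sub, coeff_X_pow, if_pos rfl, coeff_C_mul, coeff_X_pow, if_neg, coeff_C, if_neg]
      · ring
      · intro h
        have := DFunLike.congr_fun h i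
        simp at this
      · intro h
        have := DFunLike.congr_fun h i
        simp at this
    have hm : Finsupp.single i 4 ∈ (Fi i).support := by
      rw [mem_support_iff, hc]; exact one_ne_zero
    have := le_totalDegree hm
    rwa [Finsupp.sum_single_index rfl] at this

/-- the one dimensional data at the four zeros -/
lemma crd_data (ε a : ℝ) (ha : a ^ 4 - 10 * a ^ 2 + 9 = 0) (hpos : 0 < ε * (2 * a ^ 3 - 10 * a)) :
    ∃ ρ X X' σ N, Crd (fun u => ε * (u ^ 4 - 10 * u ^ 2 + 9)) a ρ X X' σ N := by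
  refine exists_crd (h := fun x => ε * (x ^ 3 / 5 + 2 * a / 5 * x ^ 2 + (-10 / 3 + 3 * a ^ 2 / 5) * x +
    (-20 * a / 3 + 4 * a ^ 3 / 5))) ?_ ?_ ?_
  · intro x
    have h1 : HasDerivAt (fun x : ℝ => (x - a) ^ 2) (2 * (x - a)) x := by
      have := ((hasDerivAt_id x).sub_const a).pow 2
      refine this.congr_deriv ?_
      simp
    have h2 : HasDerivAt (fun x : ℝ => ε * (x ^ 3 / 5 + 2 * a / 5 * x ^ 2 + (-10 / 3 + 3 * a ^ 2 / 5) * x +
        (-20 * a / 3 + 4 * a ^ 3 / 5))) (ε * (3 * x ^ 2 / 5 + 2 * a / 5 * (2 * x) + (-10 / 3 + 3 * a ^ 2 / 5) * 1)) x := by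
      refine HasDerivAt.const_mul ε (HasDerivAt.add_const _ (HasDerivAt.add (HasDerivAt.add ?_ ?_) ?_))
      · refine ((hasDerivAt_pow 3 x).div_const 5).congr_deriv ?_
        norm_num
      · refine ((hasDerivAt_pow 2 x).const_mul (2 * a / 5)).congr_deriv ?_
        norm_num
      · exact (hasDerivAt_id x).const_mul _
    refine (h1.mul h2).congr_deriv ?_
    linear_combination (-ε) * ha
  · fun_prop
  · have : ε * (a ^ 3 / 5 + 2 * a / 5 * a ^ 2 + (-10 / 3 + 3 * a ^ 2 / 5) * a + (-20 * a / 3 + 4 * a ^ 3 / 5)) =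
        ε * (2 * a ^ 3 - 10 * a) := by ring
    show 0 < ε * (a ^ 3 / 5 + 2 * a / 5 * a ^ 2 + (-10 / 3 + 3 * a ^ 2 / 5) * a + (-20 * a / 3 + 4 * a ^ 3 / 5))
    rw [this]; exact hpos

/-- centres of the example with positive derivatives -/
lemma ex_pos {a b : ℝ} (ha : a ^ 4 - 10 * a ^ 2 + 9 = 0) (hb : b ^ 4 - 10 * b ^ 2 + 9 = 0)
    (hpa : 0 < 2 * a ^ 3 - 10 * a) (hpb : 0 < 2 * b ^ 3 - 10 * b) : IsCenter (Fi 1) (-Fi 0) ![a, b] := by
  obtain ⟨ρ₁, X, X', σ, N, hX⟩ := crd_data 1 a ha (by linarith)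
  obtain ⟨ρ₂, Y, Y', τ, M, hY⟩ := crd_data 1 b hb (by linarith)
  apply center_sep hX hY
  · intro p; rw [Fi_eval]; ring
  · intro p; rw [map_neg, Fi_eval]; ring

/-- centres of the example with negative derivatives -/
lemma ex_neg {a b : ℝ} (ha : a ^ 4 - 10 * a ^ 2 + 9 = 0) (hb : b ^ 4 - 10 * b ^ 2 + 9 = 0)
    (hpa : 2 * a ^ 3 - 10 * a < 0) (hpb : 2 * b ^ 3 - 10 * b < 0) : IsCenter (Fi 1) (-Fi 0) ![a, b] := by
  obtain ⟨ρ₁, X, X', σ, N, hX⟩ := crd_data (-1) a ha (by linarith)
  obtain ⟨ρ₂, Y, Y', τ, M, hY⟩ := crd_data (-1) b hb (by linarith)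
  apply IsCenter.rev
  apply center_sep hX hY
  · intro p; rw [map_neg, Fi_eval]; ring
  · intro p; rw [map_neg, map_neg, Fi_eval]; ring

/-- the example has at least eight centres -/
theorem ex_eight : (8 : ℕ∞) ≤ {p | IsCenter (Fi 1) (-Fi 0) p}.encard := by
  obtain ⟨s, hs⟩ : ∃ s : Fin 8 → Fin 2 → ℝ, s = ![![-3, -3], ![-3, 1], ![1, -3], ![1, 1], ![-1, -1], ![-1, 3],
    ![3, -1], ![3, 3]] := ⟨_, rfl⟩
  have hinj : Function.Injective s := by
    intro i j hij
    have e0 := congrFun hij 0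
    have e1 := congrFun hij 1
    rw [hs] at e0 e1
    fin_cases i <;> fin_cases j <;> first | rfl | (exfalso; norm_num at e0; done) | (exfalso; norm_num at e1; done)
  have hsub : Set.range s ⊆ {p | IsCenter (Fi 1) (-Fi 0) p} := by
    rintro _ ⟨i, rfl⟩
    rw [hs]
    fin_cases i
    · exact ex_neg (by norm_num) (by norm_num) (by norm_num) (by norm_num)
    · exact ex_neg (by norm_num) (by norm_num) (by norm_num) (by norm_num)
    · exact ex_neg (by norm_num) (by norm_num) (by norm_num) (by norm_num)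
    · exact ex_neg (by norm_num) (by norm_num) (by norm_num) (by norm_num)
    · exact ex_pos (by norm_num) (by norm_num) (by norm_num) (by norm_num)
    · exact ex_pos (by norm_num) (by norm_num) (by norm_num) (by norm_num)
    · exact ex_pos (by norm_num) (by norm_num) (by norm_num) (by norm_num)
    · exact ex_pos (by norm_num) (by norm_num) (by norm_num) (by norm_num)
  refine le_trans ?_ (Set.encard_le_encard hsub)
  rw [← Set.image_univ, hinj.encard_image, Set.encard_univ]
  simp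

/-- the example has finitely many equilibria -/
theorem ex_fin : {p : Fin 2 → ℝ | eval p (Fi 1) = 0 ∧ eval p (-Fi 0) = 0}.Finite := by
  have hz : ∀ u : ℝ, u ^ 4 - 10 * u ^ 2 + 9 = 0 → u ∈ ({-3, -1, 1, 3} : Set ℝ) := by
    intro u hu
    have h1 : (u + 3) * ((u + 1) * ((u - 1) * (u - 3))) = 0 := by linear_combination hu
    rcases mul_eq_zero.1 h1 with h | h
    · left; linarith
    · rcases mul_eq_zero.1 h with h | h
      · right; left; linarith
      · rcases mul_eq_zero.1 h with h | h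
        · right; right; left; linarith
        · right; right; right; show u = 3; linarith
  have hfin : ({-3, -1, 1, 3} : Set ℝ).Finite := Set.toFinite _
  apply (Set.Finite.pi' (ι := Fin 2) (t := fun _ => ({-3, -1, 1, 3} : Set ℝ)) (fun _ => hfin)).subset
  rintro p ⟨h1, h2⟩ i
  rw [Fi_eval] at h1
  rw [map_neg, Fi_eval, neg_eq_zero] at h2
  fin_cases i
  · exact hz _ h2
  · exact hz _ h1

end Run7.h256
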