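import Mathlib
import Pool.Agent.Run7.h256.W1

set_option autoImplicit false

namespace Run7.h256

open MvPolynomial

open E0 (kk kk_apply KK mem_KK KK_II)

variable {k : Type*} [Field k]

/-- coprime top forms of degree `m + 2` -/
structure En (m : ℕ) (P Q : MvPolynomial (Fin 2) k) : Prop where
  hP : Dle (m + 2) P
  hQ : Dle (m + 2) Q
  rel : IsRelPrime (hc (m + 2) P) (hc (m + 2) Q)

namespace En

variable {m : ℕ} {P Q : MvPolynomial (Fin 2) k}

lemma symm (h : En m P Q) : En m Q P := ⟨h.hQ, h.hP, h.rel.symm⟩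

lemma q_ne (h : En m P Q) : hc (m + 2) Q ≠ 0 := by
  intro h0
  have h1 : IsUnit (hc (m + 2) P) := h.rel dvd_rfl (by rw [h0]; exact dvd_zero _)
  have h2 : (hc (m + 2) P) ≠ 0 := h1.ne_zero
  have h3 := (hc_homog (m + 2) P).totalDegree h2
  have h4 := (MvPolynomial.isUnit_iff_totalDegree_of_isReduced.mp h1).2
  omega

lemma p_ne (h : En m P Q) : hc (m + 2) P ≠ 0 := h.symm.q_ne

lemma topsyz (h : En m P Q) {n : ℕ} {a b : MvPolynomial (Fin 2) k} (ha : a.IsHomogeneous n)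
    (he : a * hc (m + 2) P + b * hc (m + 2) Q = 0) :
    ∃ c, a = hc (m + 2) Q * c ∧ b = -(hc (m + 2) P * c) ∧ (c ≠ 0 → (m + 2) + c.totalDegree = n) := by
  obtain ⟨c, h1, h2⟩ := split_prop' h.rel (u := -b) (v := a) (by linear_combination he)
  refine ⟨c, h2, by rw [← h1]; ring, ?_⟩
  intro hc0
  have h3 : a ≠ 0 := by rw [h2]; exact mul_ne_zero h.q_ne hc0
  have h4 := ha.totalDegree h3
  rw [h2, totalDegree_mul_eq h.q_ne hc0, (hc_homog (m + 2) Q).totalDegree h.q_ne] at h4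
  exact h4

lemma subhc_mul {n : ℕ} {u P : MvPolynomial (Fin 2) k} (hu : Dle n u) (hP : Dle (m + 2) P) :
    Dle (n + (m + 1)) ((u - hc n u) * P) := by
  rcases Nat.eq_zero_or_pos n with h0 | h0
  · subst h0
    rw [← hc_zero_eq hu, sub_self, zero_mul]; exact Dle.zero
  · obtain ⟨m, rfl⟩ := Nat.exists_eq_add_of_le' h0
    exact (sub_hcD hu).mul hP (by omega)

lemma top_zero (hP : Dle (m + 2) P) (hQ : Dle (m + 2) Q) {n : ℕ} {u v : MvPolynomial (Fin 2) k} (hu : Dle n u)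
    (hv : Dle n v) (hd : Dle (n + (m + 1)) (u * P + v * Q)) :
    hc n u * hc (m + 2) P + hc n v * hc (m + 2) Q = 0 := by
  apply homog_D0 (n := n + (m + 2)) (m := n + (m + 1))
  · exact ((hc_homog n u).mul (hc_homog (m + 2) P)).add ((hc_homog n v).mul (hc_homog (m + 2) Q))
  · have e : hc n u * hc (m + 2) P + hc n v * hc (m + 2) Q = (u * P + v * Q) - (((u - hc n u) * P +
        hc n u * (P - hc (m + 2) P)) + ((v - hc n v) * Q + hc n v * (Q - hc (m + 2) Q))) := by ring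
    rw [e]
    exact hd.sub (((subhc_mul hu hP).add ((homog_DG (hc_homog n u)).mul (sub_hcD hP) (by omega))).add
      ((subhc_mul hv hQ).add ((homog_DG (hc_homog n v)).mul (sub_hcD hQ) (by omega))))
  · omega

lemma red1 (h : En m P Q) {n : ℕ} {u v : MvPolynomial (Fin 2) k} (hu : Dle (n + 1) u)
    (hv : Dle (n + 1) v) (hd : Dle (n + (m + 2)) (u * P + v * Q)) :
    ∃ u' v', Dle n u' ∧ Dle n v' ∧ u' * P + v' * Q = u * P + v * Q := by
  have h1 := top_zero h.hP h.hQ hu hv (hd.mono (by omega))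
  obtain ⟨c, hc1, hc2, hc3⟩ := h.topsyz (hc_homog _ _) h1
  have hcd : ∀ R : MvPolynomial (Fin 2) k, Dle (m + 1) R → Dle n (c * R) := by
    intro R hR
    by_cases h0 : c = 0
    · rw [h0, zero_mul]; exact Dle.zero
    · have := hc3 h0
      have hc' : Dle c.totalDegree c := le_refl _
      exact hc'.mul hR (by omega)
  refine ⟨u - c * Q, v + c * P, ?_, ?_, by ring⟩
  · have e : u - c * Q = (u - hc (n + 1) u) - c * (Q - hc (m + 2) Q) := by rw [hc1]; ring
    rw [e]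
    exact (sub_hcD hu).sub (hcd _ (sub_hcD h.hQ))
  · have e : v + c * P = (v - hc (n + 1) v) + c * (P - hc (m + 2) P) := by rw [hc2]; ring
    rw [e]
    exact (sub_hcD hv).add (hcd _ (sub_hcD h.hP))

lemma red (h : En m P Q) (n : ℕ) : ∀ d : ℕ, ∀ u v : MvPolynomial (Fin 2) k, Dle (n + d) u →
    Dle (n + d) v → Dle (n + (m + 2)) (u * P + v * Q) →
    ∃ u' v', Dle n u' ∧ Dle n v' ∧ u' * P + v' * Q = u * P + v * Q := by
  intro d
  induction d with
  | zero => intro u v hu hv _; exact ⟨u, v, hu, hv, rfl⟩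
  | succ d ih =>
    intro u v hu hv hd
    obtain ⟨u', v', hu', hv', he⟩ := h.red1 (n := n + d) hu hv (hd.mono (by omega))
    obtain ⟨u'', v'', h1, h2, h3⟩ := ih u' v' hu' hv' (by rw [he]; exact hd)
    exact ⟨u'', v'', h1, h2, h3.trans he⟩

lemma mem_red (h : En m P Q) {n : ℕ} {F : MvPolynomial (Fin 2) k} (hF : F ∈ II P Q) (hd : Dle (n + (m + 2)) F) :
    ∃ u v, Dle n u ∧ Dle n v ∧ u * P + v * Q = F := by
  obtain ⟨u, v, rfl⟩ := mem_II.1 hF
  refine h.red n (u.totalDegree + v.totalDegree) u v ?_ ?_ hd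
  · show u.totalDegree ≤ _; omega
  · show v.totalDegree ≤ _; omega

lemma inj3 (h : En m P Q) (n : ℕ) : n ≤ m + 1 → ∀ u v : MvPolynomial (Fin 2) k, Dle n u → Dle n v →
    Dle (m + 1) (u * P + v * Q) → u = 0 ∧ v = 0 := by
  induction n with
  | zero =>
    intro _ u v hu hv he
    have h1 := top_zero h.hP h.hQ hu hv (he.mono (by omega))
    obtain ⟨c, hc1, hc2, hc3⟩ := h.topsyz (hc_homog _ _) h1
    have hc0 : c = 0 := by
      by_contra h0
      have := hc3 h0
      omega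
    rw [hc0, mul_zero] at hc1
    rw [hc0, mul_zero, neg_zero] at hc2
    rw [hc_zero_eq hu, hc_zero_eq hv]
    exact ⟨hc1, hc2⟩
  | succ n ih =>
    intro hn u v hu hv he
    have h1 := top_zero h.hP h.hQ hu hv (he.mono (by omega))
    obtain ⟨c, hc1, hc2, hc3⟩ := h.topsyz (hc_homog _ _) h1
    have hc0 : c = 0 := by
      by_contra h0
      have := hc3 h0
      omega
    rw [hc0, mul_zero] at hc1
    rw [hc0, mul_zero, neg_zero] at hc2
    have hu' := sub_hcD hu
    have hv' := sub_hcD hv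
    rw [hc1, sub_zero] at hu'
    rw [hc2, sub_zero] at hv'
    exact ih (by omega) u v hu' hv' he

lemma eq_zero3 (h : En m P Q) {F : MvPolynomial (Fin 2) k} (hF : F ∈ II P Q) (hd : Dle (m + 1) F) : F = 0 := by
  obtain ⟨u, v, hu, hv, he⟩ := h.mem_red (n := 0) hF (hd.mono (by norm_num))
  obtain ⟨h1, h2⟩ := h.inj3 0 (by norm_num) u v hu hv (by rw [he]; exact hd)
  rw [← he, h1, h2]; ring

lemma finrank_KK (h : En m P Q) {d : ℕ} (hd : d ≤ m + 1) :
    Module.finrank k (KK P Q d) = (d + 1) * (d + 2) := by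
  have hinj : Function.Injective (kk P Q d) := by
    rw [injective_iff_map_eq_zero]
    rintro ⟨⟨u, hu⟩, ⟨v, hv⟩⟩ he
    have he' : u * P + v * Q = 0 := he
    obtain ⟨h1, h2⟩ := h.inj3 d hd u v (mem_Pl.1 hu) (mem_Pl.1 hv) (by rw [he']; exact Dle.zero)
    subst h1 h2
    rfl
  rw [LinearMap.finrank_range_of_inj hinj, Module.finrank_prod, ← finrank_Pl (k := k) d]
  ring

lemma KK_le (h : En m P Q) (d : ℕ) : KK P Q d ≤ Pl k (d + (m + 2)) := by
  intro F hF
  obtain ⟨u, v, hu, hv, rfl⟩ := mem_KK.1 hF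
  exact mem_Pl.2 ((hu.mul h.hP (by omega)).add (hv.mul h.hQ (by omega)))

lemma inf_eq (h : En m P Q) (d : ℕ) : Pl k (d + (m + 2)) ⊓ KK P Q (d + 1) = KK P Q d := by
  apply le_antisymm
  · rintro F ⟨h1, h2⟩
    obtain ⟨u, v, hu, hv, he⟩ := h.mem_red (KK_II h2) (mem_Pl.1 h1)
    exact mem_KK.2 ⟨u, v, hu, hv, he⟩
  · intro F hF
    refine ⟨h.KK_le d hF, ?_⟩
    obtain ⟨u, v, hu, hv, he⟩ := mem_KK.1 hF
    exact mem_KK.2 ⟨u, v, hu.mono (by omega), hv.mono (by omega), he⟩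

lemma sup_top (h : En m P Q) : Pl k (2 * m + 2) ⊔ KK P Q (m + 1) = Pl k (2 * m + 3) := by
  apply Submodule.eq_of_le_of_finrank_eq
  · apply sup_le
    · intro F hF
      exact mem_Pl.2 ((mem_Pl.1 hF).trans (by omega))
    · have := h.KK_le (m + 1)
      rwa [show m + 1 + (m + 2) = 2 * m + 3 by ring] at this
  · have e1 := Submodule.finrank_sup_add_finrank_inf_eq (Pl k (2 * m + 2)) (KK P Q (m + 1))
    have e2 := h.inf_eq m
    rw [show m + (m + 2) = 2 * m + 2 by ring] at e2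
    rw [e2, h.finrank_KK (by omega), h.finrank_KK (by omega)] at e1
    have e3 := finrank_Pl (k := k) (2 * m + 2)
    have e4 := finrank_Pl (k := k) (2 * m + 3)
    nlinarith

lemma finrank_inf (h : En m P Q) :
    Module.finrank k (Pl k (2 * m + 1) ⊓ KK P Q m : Submodule k (MvPolynomial (Fin 2) k)) = m * (m + 1) := by
  rcases Nat.eq_zero_or_pos m with h0 | h0
  · subst h0
    have : (Pl k (2 * 0 + 1) ⊓ KK P Q 0 : Submodule k (MvPolynomial (Fin 2) k)) = ⊥ := by
      rw [eq_bot_iff]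
      rintro F ⟨h1, h2⟩
      rw [Submodule.mem_bot]
      exact h.eq_zero3 (KK_II h2) (mem_Pl.1 h1)
    rw [this]; simp
  · obtain ⟨j, rfl⟩ := Nat.exists_eq_add_of_le' h0
    have e2 := h.inf_eq j
    rw [show j + (j + 1 + 2) = 2 * (j + 1) + 1 by ring] at e2
    rw [e2, h.finrank_KK (by omega)]

lemma finrank_sup (h : En m P Q) :
    2 * Module.finrank k (Pl k (2 * m + 1) ⊔ KK P Q m : Submodule k (MvPolynomial (Fin 2) k)) + 2 =
      (2 * m + 3) * (2 * m + 4) := by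
  have e1 := Submodule.finrank_sup_add_finrank_inf_eq (Pl k (2 * m + 1)) (KK P Q m)
  rw [h.finrank_inf, h.finrank_KK (by omega)] at e1
  have e3 := finrank_Pl (k := k) (2 * m + 1)
  nlinarith

/-- every polynomial is of degree at most `2 * m + 2` modulo the ideal -/
lemma rep (h : En m P Q) (F : MvPolynomial (Fin 2) k) : ∃ G, Dle (2 * m + 2) G ∧ F - G ∈ II P Q := by
  induction F using MvPolynomial.induction_on with
  | C a => exact ⟨C a, Dle.C a, by rw [sub_self]; exact Ideal.zero_mem _⟩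
  | add p q hp hq =>
    obtain ⟨G1, h1, h2⟩ := hp
    obtain ⟨G2, h3, h4⟩ := hq
    refine ⟨G1 + G2, h1.add h3, ?_⟩
    have e : p + q - (G1 + G2) = (p - G1) + (q - G2) := by ring
    rw [e]; exact Ideal.add_mem _ h2 h4
  | mul_X p i hp =>
    obtain ⟨G, h1, h2⟩ := hp
    have h3 : G * X i ∈ Pl k (2 * m + 2) ⊔ KK P Q (m + 1) := by
      rw [h.sup_top]; exact mem_Pl.2 (h1.mul (Dle.X le_rfl i) (by omega))
    obtain ⟨G', hG', K, hK, he⟩ := Submodule.mem_sup.1 h3
    refine ⟨G', mem_Pl.1 hG', ?_⟩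
    have e : p * X i - G' = X i * (p - G) + K := by linear_combination (-1 : MvPolynomial (Fin 2) k) * he
    rw [e]
    exact Ideal.add_mem _ (Ideal.mul_mem_left _ _ h2) (KK_II hK)

end En

end Run7.h256
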