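import Mathlib
import Pool.Agent.Run7.h256.Q1

set_option autoImplicit false

namespace Run7.h256

open MvPolynomial

open E0 (kk kk_apply KK mem_KK KK_II)

variable {k : Type*} [Field k]

/-- unnormalized residue functional -/
structure Rn (m : ℕ) (P Q : MvPolynomial (Fin 2) k) (L : MvPolynomial (Fin 2) k →ₗ[k] k) : Prop where
  low : ∀ F, Dle (2 * m + 1) F → L F = 0
  ker : ∀ F ∈ II P Q, L F = 0
  ne : L ≠ 0

namespace En

variable {m : ℕ} {P Q : MvPolynomial (Fin 2) k}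

lemma exists_Rn (h : En m P Q) : ∃ L, Rn m P Q L := by
  obtain ⟨J, hJ⟩ : ∃ J : Submodule k (MvPolynomial (Fin 2) k), J = (II P Q).restrictScalars k := ⟨_, rfl⟩
  have hJm : ∀ F, F ∈ J ↔ F ∈ II P Q := by intro F; rw [hJ]; exact Submodule.restrictScalars_mem _ _ _
  have hlt : J ⊔ Pl k (2 * m + 1) < ⊤ := by
    rw [lt_top_iff_ne_top]
    intro htop
    have h1 : Pl k (2 * m + 2) ≤ Pl k (2 * m + 1) ⊔ KK P Q m := by
      intro F hF
      have h2 : F ∈ J ⊔ Pl k (2 * m + 1) := by rw [htop]; exact Submodule.mem_top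
      obtain ⟨i, hi, g, hg, he⟩ := Submodule.mem_sup.1 h2
      have h3 : Dle (m + (m + 2)) i := by
        have : i = F - g := by rw [← he]; ring
        rw [this]
        exact (Dle.sub (mem_Pl.1 hF) ((mem_Pl.1 hg).trans (by omega))).mono (by omega)
      obtain ⟨u, v, hu, hv, he'⟩ := h.mem_red ((hJm i).1 hi) h3
      exact Submodule.mem_sup.2 ⟨g, hg, i, mem_KK.2 ⟨u, v, hu, hv, he'⟩, by rw [← he]; ring⟩
    have h2 := Submodule.finrank_mono h1
    have h3 := finrank_Pl (k := k) (2 * m + 2)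
    have h4 := h.finrank_sup
    nlinarith
  obtain ⟨f, hf0, hf⟩ := Submodule.exists_le_ker_of_lt_top _ hlt
  refine ⟨f, ?_, ?_, hf0⟩
  · intro F hF
    exact hf (Submodule.mem_sup_right (mem_Pl.2 hF))
  · intro F hF
    exact hf (Submodule.mem_sup_left ((hJm F).2 hF))

lemma top6 (h : En m P Q) {L : MvPolynomial (Fin 2) k →ₗ[k] k} (hL : Rn m P Q L) {F : MvPolynomial (Fin 2) k}
    (hF : Dle (2 * m + 2) F) (h0 : L F = 0) : ∃ F', Dle (2 * m + 1) F' ∧ F - F' ∈ II P Q := by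
  obtain ⟨G, hG⟩ : ∃ G, Dle (2 * m + 2) G ∧ L G ≠ 0 := by
    by_contra hcon
    push Not at hcon
    apply hL.ne
    refine LinearMap.ext (fun (F : MvPolynomial (Fin 2) k) => ?_)
    obtain ⟨G, hG, hG'⟩ := h.rep F
    have h1 := hL.ker _ hG'
    rw [map_sub, hcon G hG, sub_zero] at h1
    rw [h1]; rfl
  have h1 : Pl k (2 * m + 1) ⊔ KK P Q m ≤ Pl k (2 * m + 2) ⊓ LinearMap.ker L := by
    apply sup_le
    · intro F hF
      exact ⟨mem_Pl.2 ((mem_Pl.1 hF).trans (by omega)), hL.low F (mem_Pl.1 hF)⟩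
    · intro F hF
      have h9 := h.KK_le m hF
      rw [show m + (m + 2) = 2 * m + 2 by ring] at h9
      exact ⟨h9, hL.ker F (KK_II hF)⟩
  have h2 : Pl k (2 * m + 2) ⊓ LinearMap.ker L < Pl k (2 * m + 2) := by
    refine lt_of_le_of_ne inf_le_left ?_
    intro he
    have h3 : G ∈ Pl k (2 * m + 2) ⊓ LinearMap.ker L := by rw [he]; exact mem_Pl.2 hG.1
    exact hG.2 h3.2
  have h3 := Submodule.finrank_lt_finrank_of_lt h2
  have h4 := finrank_Pl (k := k) (2 * m + 2)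
  have : FiniteDimensional k (Pl k (2 * m + 2) ⊓ LinearMap.ker L : Submodule k (MvPolynomial (Fin 2) k)) :=
    Submodule.finiteDimensional_of_le (inf_le_left (a := Pl k (2 * m + 2)))
  have h5 : Pl k (2 * m + 1) ⊔ KK P Q m = Pl k (2 * m + 2) ⊓ LinearMap.ker L := by
    apply Submodule.eq_of_le_of_finrank_le h1
    have h9 := h.finrank_sup
    nlinarith
  have h6 : F ∈ Pl k (2 * m + 1) ⊔ KK P Q m := by
    rw [h5]; exact ⟨mem_Pl.2 hF, h0⟩
  obtain ⟨g, hg, i, hi, he⟩ := Submodule.mem_sup.1 h6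
  refine ⟨g, mem_Pl.1 hg, ?_⟩
  rw [← he, add_sub_cancel_left]
  exact KK_II hi

lemma socle_low (h : En m P Q) {d : ℕ} (hd : d < m + 1) {F G : MvPolynomial (Fin 2) k} (hF : Dle d F)
    (hG : Dle d G) (h0 : X 0 * F - G ∈ II P Q) : X 0 * F = G := by
  have h1 := h.eq_zero3 h0 ((Dle.mul (Dle.X le_rfl 0) hF (by omega)).sub (hG.mono (by omega)))
  linear_combination h1

lemma socle_zero (h : En m P Q) {F G : MvPolynomial (Fin 2) k} (hF : Dle 0 F)
    (hG : Dle 0 G) (h0 : X 0 * F - G ∈ II P Q) : F = 0 := by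
  have h1 := h.socle_low (by omega) hF hG h0
  by_contra h2
  have h3 : Dle 0 (X 0 * F) := by rw [h1]; exact hG
  unfold Dle at h3
  rw [totalDegree_mul_eq (X_ne_zero 0) h2, totalDegree_X] at h3
  omega

lemma socle_succ (h : En m P Q) {n : ℕ} (hn : n + 1 ≤ 2 * m + 1) {F G0 G1 : MvPolynomial (Fin 2) k}
    (hF : Dle (n + 1) F) (hG0 : Dle (n + 1) G0) (hG1 : Dle (n + 1) G1) (h0 : X 0 * F - G0 ∈ II P Q)
    (h1 : X 1 * F - G1 ∈ II P Q) : ∃ F', Dle n F' ∧ F - F' ∈ II P Q := by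
  by_cases hd : n + 1 < m + 1
  · refine ⟨F, ?_, by rw [sub_self]; exact Ideal.zero_mem _⟩
    have h2 := h.socle_low hd hF hG0 h0
    apply CI16.Dle_of_X_mul
    rw [h2]; exact hG0
  · obtain ⟨j, rfl⟩ : ∃ j, n = j + m := ⟨n - m, by omega⟩
    have key : ∀ i : Fin 2, ∀ G, Dle (j + m + 1) G → X i * F - G ∈ II P Q → ∃ a b : MvPolynomial (Fin 2) k,
        a.IsHomogeneous j ∧ b.IsHomogeneous j ∧ X i * hc (j + m + 1) F = a * hc (m + 2) P + b * hc (m + 2) Q := by
      intro i G hG hGI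
      have d1 : Dle (j + (m + 2)) (X i * F - G) := (Dle.mul (Dle.X le_rfl i) hF (by omega)).sub (hG.mono (by omega))
      obtain ⟨u, v, hu, hv, he⟩ := h.mem_red hGI d1
      refine ⟨hc j u, hc j v, hc_homog _ _, hc_homog _ _, ?_⟩
      rw [← sub_eq_zero]
      apply homog_D0 (n := j + (m + 2)) (m := j + m + 1)
      · have t1 := (isHomogeneous_X k i).mul (hc_homog (j + m + 1) F)
        rw [show 1 + (j + m + 1) = j + (m + 2) by omega] at t1
        exact t1.sub (((hc_homog j u).mul (hc_homog (m + 2) P)).add ((hc_homog j v).mul (hc_homog (m + 2) Q)))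
      · have e : X i * hc (j + m + 1) F - (hc j u * hc (m + 2) P + hc j v * hc (m + 2) Q) =
            -(X i * (F - hc (j + m + 1) F)) + G + (((u - hc j u) * P + hc j u * (P - hc (m + 2) P)) +
              ((v - hc j v) * Q + hc j v * (Q - hc (m + 2) Q))) := by
          linear_combination (-1 : MvPolynomial (Fin 2) k) * he
        rw [e]
        have t2 : Dle (j + m) (F - hc (j + m + 1) F) := sub_hcD (n := j + m) hF
        have t3 : Dle (m + 1) (P - hc (m + 2) P) := sub_hcD (n := m + 1) h.hP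
        have t4 : Dle (m + 1) (Q - hc (m + 2) Q) := sub_hcD (n := m + 1) h.hQ
        have s1 : Dle (j + m + 1) ((u - hc j u) * P) := (subhc_mul hu h.hP).mono (by omega)
        have s2 : Dle (j + m + 1) ((v - hc j v) * Q) := (subhc_mul hv h.hQ).mono (by omega)
        exact (((Dle.X le_rfl i).mul t2 (by omega)).neg.add hG).add
          ((s1.add ((homog_DG (hc_homog j u)).mul t3 (by omega))).add
          (s2.add ((homog_DG (hc_homog j v)).mul t4 (by omega))))
      · omega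
    obtain ⟨a0, b0, ha0, hb0, e0⟩ := key 0 G0 hG0 h0
    obtain ⟨a1, b1, ha1, hb1, e1⟩ := key 1 G1 hG1 h1
    have hh : (X 1 * a0 - X 0 * a1).IsHomogeneous (j + 1) := by
      have t1 := (isHomogeneous_X k (1 : Fin 2)).mul ha0
      have t2 := (isHomogeneous_X k (0 : Fin 2)).mul ha1
      rw [add_comm 1 j] at t1 t2
      exact t1.sub t2
    obtain ⟨c, hc1, hc2, hc3⟩ := h.topsyz (b := X 1 * b0 - X 0 * b1) hh (by
      linear_combination X 0 * e1 - X 1 * e0)
    have hc0 : c = 0 := by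
      by_contra h3
      have := hc3 h3
      omega
    rw [hc0, mul_zero] at hc1
    rw [hc0, mul_zero, neg_zero] at hc2
    obtain ⟨a, ea0, ea1⟩ := split_prop' (relPrime_X01 (k := k)) (u := a0) (v := a1) (by linear_combination -hc1)
    obtain ⟨b, eb0, eb1⟩ := split_prop' (relPrime_X01 (k := k)) (u := b0) (v := b1) (by linear_combination -hc2)
    have hFd : hc (j + m + 1) F = a * hc (m + 2) P + b * hc (m + 2) Q := by
      apply mul_left_cancel₀ (X_ne_zero (R := k) (0 : Fin 2))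
      rw [e0, ea0, eb0]; ring
    have hdeg : ∀ a a0 R : MvPolynomial (Fin 2) k, a0.IsHomogeneous j → a0 = X 0 * a → Dle (m + 1) R →
        Dle (j + m) (a * R) := by
      intro a a0 R h3 h4 hR
      by_cases ha : a = 0
      · rw [ha, zero_mul]; exact Dle.zero
      · have h5 : Dle j a0 := homog_DG h3
        unfold Dle at h5
        rw [h4, totalDegree_mul_eq (X_ne_zero 0) ha, totalDegree_X] at h5
        have h6 : Dle a.totalDegree a := le_refl _
        exact h6.mul hR (by omega)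
    refine ⟨F - (a * P + b * Q), ?_, ?_⟩
    · have e : F - (a * P + b * Q) = (F - hc (j + m + 1) F) - (a * (P - hc (m + 2) P) + b * (Q - hc (m + 2) Q)) := by
        rw [hFd]; ring
      rw [e]
      exact (sub_hcD (n := j + m) hF).sub ((hdeg a a0 _ ha0 ea0 (sub_hcD (n := m + 1) h.hP)).add
        (hdeg b b0 _ hb0 eb0 (sub_hcD (n := m + 1) h.hQ)))
    · have e : F - (F - (a * P + b * Q)) = a * P + b * Q := by ring
      rw [e]
      exact mem_II.2 ⟨a, b, rfl⟩

/-- degree reduction in the annihilator of the functional -/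
lemma lower (h : En m P Q) {L : MvPolynomial (Fin 2) k →ₗ[k] k} (hL : Rn m P Q L) (t : ℕ) : t ≤ 2 * m + 1 →
    ∀ F, Dle (2 * m + 2 - t) F → (∀ G, Dle t G → L (F * G) = 0) →
      ∃ F', Dle (2 * m + 1 - t) F' ∧ F - F' ∈ II P Q := by
  induction t with
  | zero =>
    intro _ F hF hW
    exact h.top6 hL hF (by simpa using hW 1 Dle.one)
  | succ t ih =>
    intro hm F hF hW
    have hX : ∀ i : Fin 2, ∃ G, Dle (2 * m + 1 - t) G ∧ X i * F - G ∈ II P Q := by
      intro i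
      apply ih (by omega)
      · exact (Dle.X le_rfl i).mul hF (by omega)
      · intro G hG
        have e : X i * F * G = F * (X i * G) := by ring
        rw [e]; exact hW _ ((Dle.X le_rfl i).mul hG (by omega))
    obtain ⟨G0, hG0, h0⟩ := hX 0
    obtain ⟨G1, hG1, h1⟩ := hX 1
    obtain ⟨n, hn⟩ : ∃ n, 2 * m + 1 - t = n + 1 := ⟨2 * m - t, by omega⟩
    rw [hn] at hG0 hG1
    have e1 : 2 * m + 2 - (t + 1) = n + 1 := by omega
    have e2 : 2 * m + 1 - (t + 1) = n := by omega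
    rw [e1] at hF
    rw [e2]
    exact h.socle_succ (by omega) hF hG0 hG1 h0 h1

/-- iterated degree reduction -/
lemma lower_all (h : En m P Q) {L : MvPolynomial (Fin 2) k →ₗ[k] k} (hL : Rn m P Q L) {T : ℕ} (hT : T ≤ 2 * m + 1)
    {F : MvPolynomial (Fin 2) k} (hW : ∀ G, Dle T G → L (F * G) = 0) :
    ∃ F', Dle (2 * m + 1 - T) F' ∧ F - F' ∈ II P Q := by
  have hred : ∀ F F' : MvPolynomial (Fin 2) k, F - F' ∈ II P Q → (∀ G, Dle T G → L (F * G) = 0) →
      ∀ G, Dle T G → L (F' * G) = 0 := by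
    intro F F' h1 h2 G hG
    have h3 := hL.ker _ (Ideal.mul_mem_right G _ h1)
    rw [sub_mul, map_sub, h2 G hG, zero_sub, neg_eq_zero] at h3
    exact h3
  have hst : ∀ t : ℕ, t ≤ T + 1 → ∃ F', Dle (2 * m + 2 - t) F' ∧ F - F' ∈ II P Q ∧ ∀ G, Dle T G → L (F' * G) = 0 := by
    intro t
    induction t with
    | zero =>
      intro _
      obtain ⟨F', h1, h2⟩ := h.rep F
      exact ⟨F', h1, h2, hred F F' h2 hW⟩
    | succ t ih =>
      intro hm
      obtain ⟨F', h1, h2, h3⟩ := ih (by omega)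
      obtain ⟨F'', h4, h5⟩ := h.lower hL t (by omega) F' h1 (fun G hG => h3 G (hG.mono (by omega)))
      refine ⟨F'', ?_, ?_, hred F' F'' h5 h3⟩
      · have : 2 * m + 2 - (t + 1) = 2 * m + 1 - t := by omega
        rw [this]; exact h4
      · have e : F - F'' = (F - F') + (F' - F'') := by ring
        rw [e]; exact Ideal.add_mem _ h2 h5
  obtain ⟨F0, h1, h2, _⟩ := hst (T + 1) le_rfl
  refine ⟨F0, ?_, h2⟩
  have : 2 * m + 2 - (T + 1) = 2 * m + 1 - T := by omega
  rwa [this] at h1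

/-- the functional is nondegenerate modulo the ideal -/
theorem nondeg (h : En m P Q) {L : MvPolynomial (Fin 2) k →ₗ[k] k} (hL : Rn m P Q L)
    {F : MvPolynomial (Fin 2) k} (hW : ∀ G, L (F * G) = 0) : F ∈ II P Q := by
  obtain ⟨F0, h1, h2⟩ := h.lower_all hL (T := 2 * m + 1) le_rfl (F := F) (fun G _ => hW G)
  rw [Nat.sub_self] at h1
  have hred : ∀ G, L (F0 * G) = 0 := by
    intro G
    have h3 := hL.ker _ (Ideal.mul_mem_right G _ h2)
    rw [sub_mul, map_sub, hW G, zero_sub, neg_eq_zero] at h3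
    exact h3
  obtain ⟨G0, hG0, h4⟩ := h.lower hL (2 * m + 1) le_rfl (X 0 * F0) ((Dle.X le_rfl 0).mul h1 (by omega)) (by
    intro G _
    have e : X 0 * F0 * G = F0 * (X 0 * G) := by ring
    rw [e]; exact hred _)
  rw [Nat.sub_self] at hG0
  have h5 := h.socle_zero h1 hG0 h4
  rw [h5, sub_zero] at h2
  exact h2

end En

/-- Bezoutians -/
lemma bezn {m : ℕ} {P Q : MvPolynomial (Fin 2) k} (hP : Dle (m + 2) P) (hQ : Dle (m + 2) Q) :
    ∃ A B A₂ B₂ : MvPolynomial (Fin 2) k, ∃ c c₂ : k, Dle (m + 1) A ∧ Dle (m + 1) B ∧ Dle (m + 1) A₂ ∧ Dle (m + 1) B₂ ∧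
      P = X 0 * A + X 1 * B + C c ∧ Q = X 0 * A₂ + X 1 * B₂ + C c₂ ∧
      ∀ w, eval w P = 0 → eval w Q = 0 → ∃ Δ : MvPolynomial (Fin 2) k, Dle (2 * m + 2) Δ ∧
        Dle (2 * m + 1) (Δ - (A * B₂ - B * A₂)) ∧ eval w Δ = eval w (Jac P Q) ∧
        (∀ F, F * Δ - C (eval w F) * Δ ∈ II P Q) := by
  have step : ∀ F A B : MvPolynomial (Fin 2) k, ∀ c : k, Dle (m + 1) A → Dle (m + 1) B → F = X 0 * A + X 1 * B + C c →
      ∀ w : Fin 2 → k, ∃ A' B' : MvPolynomial (Fin 2) k, Dle m A' ∧ Dle m B' ∧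
      F - C (eval w F) = (X 0 - C (w 0)) * (A + A') + (X 1 - C (w 1)) * (B + B') := by
    intro F A B c hA hB hc w
    obtain ⟨A', B', hA', hB', h'⟩ := dec_at m (C (w 0) * A + C (w 1) * B + C c - C (eval w F))
      ((((Dle.C (n := 0) _).mul hA (by omega)).add ((Dle.C (n := 0) _).mul hB (by omega))).add
        (Dle.C _) |>.sub (Dle.C _)) w
    refine ⟨A', B', hA', hB', ?_⟩
    have e0 : eval w (C (w 0) * A + C (w 1) * B + C c - C (eval w F)) = 0 := by
      rw [hc]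
      simp
    rw [e0, C_0, sub_zero] at h'
    have h2 : F - C (eval w F) = X 0 * A + X 1 * B + C c - C (eval w F) := by
      conv_lhs => rw [hc]
      rw [← hc]
    rw [h2]
    linear_combination h'
  obtain ⟨A, B, c, hA, hB, hc⟩ := dec (d := m + 1) hP
  obtain ⟨A₂, B₂, c₂, hA₂, hB₂, hc₂⟩ := dec (d := m + 1) hQ
  refine ⟨A, B, A₂, B₂, c, c₂, hA, hB, hA₂, hB₂, hc, hc₂, ?_⟩
  intro w hwP hwQ
  obtain ⟨A', B', hA', hB', hP'⟩ := step P A B c hA hB hc w
  obtain ⟨A₂', B₂', hA₂', hB₂', hQ'⟩ := step Q A₂ B₂ c₂ hA₂ hB₂ hc₂ w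
  rw [hwP, C_0, sub_zero] at hP'
  rw [hwQ, C_0, sub_zero] at hQ'
  have a1 := hA.add (hA'.mono (show m ≤ m + 1 by omega))
  have a2 := hB.add (hB'.mono (show m ≤ m + 1 by omega))
  have a3 := hA₂.add (hA₂'.mono (show m ≤ m + 1 by omega))
  have a4 := hB₂.add (hB₂'.mono (show m ≤ m + 1 by omega))
  refine ⟨(A + A') * (B₂ + B₂') - (B + B') * (A₂ + A₂'), (a1.mul a4 (by omega)).sub (a2.mul a3 (by omega)),
    ?_, ?_, ?_⟩
  · have e : (A + A') * (B₂ + B₂') - (B + B') * (A₂ + A₂') - (A * B₂ - B * A₂) =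
          A * B₂' + A' * (B₂ + B₂') - (B * A₂' + B' * (A₂ + A₂')) := by ring
    rw [e]
    exact ((hA.mul hB₂' (by omega)).add (hA'.mul a4 (by omega))).sub ((hB.mul hA₂' (by omega)).add (hB'.mul a3 (by omega)))
  · simp only [Jac]
    conv_rhs => rw [hP', hQ']
    simp [pderiv_X]
  · intro F
    have h0 : (X 0 - C (w 0)) * ((A + A') * (B₂ + B₂') - (B + B') * (A₂ + A₂')) ∈ II P Q := by
      refine mem_II.2 ⟨B₂ + B₂', -(B + B'), ?_⟩
      conv_lhs => rw [hP', hQ']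
      ring
    have h1 : (X 1 - C (w 1)) * ((A + A') * (B₂ + B₂') - (B + B') * (A₂ + A₂')) ∈ II P Q := by
      refine mem_II.2 ⟨-(A₂ + A₂'), A + A', ?_⟩
      conv_lhs => rw [hP', hQ']
      ring
    obtain ⟨G0, G1, _, _, hG⟩ := dec_at F.totalDegree F (by show F.totalDegree ≤ _; omega) w
    have e : F * ((A + A') * (B₂ + B₂') - (B + B') * (A₂ + A₂')) -
        C (eval w F) * ((A + A') * (B₂ + B₂') - (B + B') * (A₂ + A₂')) =
        G0 * ((X 0 - C (w 0)) * ((A + A') * (B₂ + B₂') - (B + B') * (A₂ + A₂'))) +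
        G1 * ((X 1 - C (w 1)) * ((A + A') * (B₂ + B₂') - (B + B') * (A₂ + A₂'))) := by
      linear_combination ((A + A') * (B₂ + B₂') - (B + B') * (A₂ + A₂')) * hG
    rw [e]
    exact Ideal.add_mem _ (Ideal.mul_mem_left _ _ h0) (Ideal.mul_mem_left _ _ h1)

end Run7.h256
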