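import Mathlib
import Pool.Agent.Run7.h256.Q2
import Pool.Agent.Run7.h256.W3

set_option autoImplicit false

namespace Run7.h256

open MvPolynomial

open E0 (kk kk_apply KK mem_KK KK_II)

variable {k : Type*} [Field k]

/-- Bezoutians for given decompositions -/
lemma bezg {m : ℕ} {P Q A B A₂ B₂ : MvPolynomial (Fin 2) k} {c c₂ : k} (hP : Dle (m + 2) P) (hQ : Dle (m + 2) Q)
    (hA : Dle (m + 1) A) (hB : Dle (m + 1) B) (hA₂ : Dle (m + 1) A₂) (hB₂ : Dle (m + 1) B₂)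
    (hc : P = X 0 * A + X 1 * B + C c) (hc₂ : Q = X 0 * A₂ + X 1 * B₂ + C c₂) :
      ∀ w, eval w P = 0 → eval w Q = 0 → ∃ Δ : MvPolynomial (Fin 2) k, Dle (2 * m + 2) Δ ∧
        Dle (2 * m + 1) (Δ - (A * B₂ - B * A₂)) ∧ eval w Δ = eval w (Jac P Q) ∧
        (∀ F, F * Δ - C (eval w F) * Δ ∈ II P Q) := by
  have step : ∀ F A B : MvPolynomial (Fin 2) k, ∀ c : k, Dle (m + 1) A → Dle (m + 1) B → F = X 0 * A + X 1 * B + C c →
      ∀ w : Fin 2 → k, ∃ A' B' : MvPolynomial (Fin 2) k, Dle m A' ∧ Dle m B' ∧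
      F - C (eval w F) = (X 0 - C (w 0)) * (A + A') + (X 1 - C (w 1)) * (B + B') := by
    intro F A B c hA hB hc w
    obtain ⟨A', B', hA', hB', h'⟩ := dec_at m (C (w 0) * A + C (w 1) * B + C c - C (eval w F))
      ((((Dle.C (n := 0) _).mul hA (by omega)).add ((Dle.C (n := 0) _).mul hB (by omega))).add
        (Dle.C _) |>.sub (Dle.C _)) w
    refine ⟨A', B', hA', hB', ?_⟩
    have e0 : eval w (C (w 0) * A + C (w 1) * B + C c - C (eval w F)) = 0 := by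
      rw [hc]
      simp
    rw [e0, C_0, sub_zero] at h'
    have h2 : F - C (eval w F) = X 0 * A + X 1 * B + C c - C (eval w F) := by
      conv_lhs => rw [hc]
      rw [← hc]
    rw [h2]
    linear_combination h'
  intro w hwP hwQ
  obtain ⟨A', B', hA', hB', hP'⟩ := step P A B c hA hB hc w
  obtain ⟨A₂', B₂', hA₂', hB₂', hQ'⟩ := step Q A₂ B₂ c₂ hA₂ hB₂ hc₂ w
  rw [hwP, C_0, sub_zero] at hP'
  rw [hwQ, C_0, sub_zero] at hQ'
  have a1 := hA.add (hA'.mono (show m ≤ m + 1 by omega))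
  have a2 := hB.add (hB'.mono (show m ≤ m + 1 by omega))
  have a3 := hA₂.add (hA₂'.mono (show m ≤ m + 1 by omega))
  have a4 := hB₂.add (hB₂'.mono (show m ≤ m + 1 by omega))
  refine ⟨(A + A') * (B₂ + B₂') - (B + B') * (A₂ + A₂'), (a1.mul a4 (by omega)).sub (a2.mul a3 (by omega)),
    ?_, ?_, ?_⟩
  · have e : (A + A') * (B₂ + B₂') - (B + B') * (A₂ + A₂') - (A * B₂ - B * A₂) =
          A * B₂' + A' * (B₂ + B₂') - (B * A₂' + B' * (A₂ + A₂')) := by ring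
    rw [e]
    exact ((hA.mul hB₂' (by omega)).add (hA'.mul a4 (by omega))).sub ((hB.mul hA₂' (by omega)).add (hB'.mul a3 (by omega)))
  · simp only [Jac]
    conv_rhs => rw [hP', hQ']
    simp [pderiv_X]
  · intro F
    have h0 : (X 0 - C (w 0)) * ((A + A') * (B₂ + B₂') - (B + B') * (A₂ + A₂')) ∈ II P Q := by
      refine mem_II.2 ⟨B₂ + B₂', -(B + B'), ?_⟩
      conv_lhs => rw [hP', hQ']
      ring
    have h1 : (X 1 - C (w 1)) * ((A + A') * (B₂ + B₂') - (B + B') * (A₂ + A₂')) ∈ II P Q := by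
      refine mem_II.2 ⟨-(A₂ + A₂'), A + A', ?_⟩
      conv_lhs => rw [hP', hQ']
      ring
    obtain ⟨G0, G1, _, _, hG⟩ := dec_at F.totalDegree F (by show F.totalDegree ≤ _; omega) w
    have e : F * ((A + A') * (B₂ + B₂') - (B + B') * (A₂ + A₂')) -
        C (eval w F) * ((A + A') * (B₂ + B₂') - (B + B') * (A₂ + A₂')) =
        G0 * ((X 0 - C (w 0)) * ((A + A') * (B₂ + B₂') - (B + B') * (A₂ + A₂'))) +
        G1 * ((X 1 - C (w 1)) * ((A + A') * (B₂ + B₂') - (B + B') * (A₂ + A₂'))) := by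
      linear_combination ((A + A') * (B₂ + B₂') - (B + B') * (A₂ + A₂')) * hG
    rw [e]
    exact Ideal.add_mem _ (Ideal.mul_mem_left _ _ h0) (Ideal.mul_mem_left _ _ h1)


lemma npos {k : Type*} [Field k] [CharZero k] (m : ℕ) : ((m + 2 : ℕ) : k) ≠ 0 := by
  exact_mod_cast (by omega : m + 2 ≠ 0)

/-- decomposition adapted to the top form -/
lemma dec_top [CharZero k] {m : ℕ} {P : MvPolynomial (Fin 2) k} (hP : Dle (m + 2) P) :
    ∃ A' B' : MvPolynomial (Fin 2) k, ∃ c : k, Dle m A' ∧ Dle m B' ∧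
      P = X 0 * (C (((m + 2 : ℕ) : k))⁻¹ * pderiv 0 (hc (m + 2) P) + A') +
        X 1 * (C (((m + 2 : ℕ) : k))⁻¹ * pderiv 1 (hc (m + 2) P) + B') + C c := by
  have h1 : Dle (m + 1) (P - hc (m + 2) P) := sub_hcD (n := m + 1) hP
  obtain ⟨A', B', c, hA, hB, he⟩ := dec (d := m) h1
  refine ⟨A', B', c, hA, hB, ?_⟩
  have h2 := eulerk (hc_homog (m + 2) P)
  have h3 : (C (((m + 2 : ℕ) : k))⁻¹ : MvPolynomial (Fin 2) k) * ((m + 2 : ℕ) : MvPolynomial (Fin 2) k) = 1 := by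
    have : ((m + 2 : ℕ) : MvPolynomial (Fin 2) k) = C ((m + 2 : ℕ) : k) := (map_natCast C (m + 2)).symm
    rw [this, ← C_mul, inv_mul_cancel₀ (npos m), C_1]
  linear_combination he - C (((m + 2 : ℕ) : k))⁻¹ * h2 - hc (m + 2) P * h3

/-- the package for a finite set of positive zeros -/
structure Pn (m : ℕ) (P Q : RP) (L : RP →ₗ[ℝ] ℝ) (S : Finset (Fin 2 → ℝ)) (Δ : (Fin 2 → ℝ) → RP) : Prop where
  en : En m P Q
  rn : Rn m P Q L
  LJ : L (Jac (hc (m + 2) P) (hc (m + 2) Q)) = ((m + 2 : ℕ) : ℝ) ^ 2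
  zero : ∀ s ∈ S, eval s P = 0 ∧ eval s Q = 0
  Jp : ∀ s ∈ S, 0 < eval s (Jac P Q)
  dΔ : ∀ s ∈ S, Dle (2 * m + 2) (Δ s)
  mul : ∀ s ∈ S, ∀ F, L (F * Δ s) = eval s F
  diag : ∀ s ∈ S, eval s (Δ s) = eval s (Jac P Q)
  off : ∀ s ∈ S, ∀ s' ∈ S, s' ≠ s → eval s' (Δ s) = 0

theorem exists_Pn {m : ℕ} {P Q : RP} (h : En m P Q) {S : Finset (Fin 2 → ℝ)} (hne : S.Nonempty)
    (hz : ∀ s ∈ S, eval s P = 0 ∧ eval s Q = 0) (hJ : ∀ s ∈ S, 0 < eval s (Jac P Q)) : ∃ L Δ, Pn m P Q L S Δ := by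
  obtain ⟨L0, hL0⟩ := h.exists_Rn
  obtain ⟨A', B', c, hA', hB', eP⟩ := dec_top h.hP
  obtain ⟨A₂', B₂', c₂, hA₂', hB₂', eQ⟩ := dec_top h.hQ
  obtain ⟨ν, hν⟩ : ∃ ν : ℝ, ν = (((m + 2 : ℕ) : ℝ))⁻¹ := ⟨_, rfl⟩
  have hν0 : ν ≠ 0 := by rw [hν]; exact inv_ne_zero (npos m)
  rw [← hν] at eP eQ
  obtain ⟨p0, hp0⟩ : ∃ p0, p0 = pderiv 0 (hc (m + 2) P) := ⟨_, rfl⟩
  obtain ⟨p1, hp1⟩ : ∃ p1, p1 = pderiv 1 (hc (m + 2) P) := ⟨_, rfl⟩
  obtain ⟨q0, hq0⟩ : ∃ q0, q0 = pderiv 0 (hc (m + 2) Q) := ⟨_, rfl⟩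
  obtain ⟨q1, hq1⟩ : ∃ q1, q1 = pderiv 1 (hc (m + 2) Q) := ⟨_, rfl⟩
  rw [← hp0, ← hp1] at eP
  rw [← hq0, ← hq1] at eQ
  have dP : Dle (m + 2) (hc (m + 2) P) := homog_DG (hc_homog (m + 2) P)
  have dQ : Dle (m + 2) (hc (m + 2) Q) := homog_DG (hc_homog (m + 2) Q)
  have dp0 : Dle (m + 1) (C ν * p0) := by rw [hp0]; exact (Dle.C (n := 0) _).mul (Dle.pderiv (n := m + 1) dP 0) (by omega)
  have dp1 : Dle (m + 1) (C ν * p1) := by rw [hp1]; exact (Dle.C (n := 0) _).mul (Dle.pderiv (n := m + 1) dP 1) (by omega)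
  have dq0 : Dle (m + 1) (C ν * q0) := by rw [hq0]; exact (Dle.C (n := 0) _).mul (Dle.pderiv (n := m + 1) dQ 0) (by omega)
  have dq1 : Dle (m + 1) (C ν * q1) := by rw [hq1]; exact (Dle.C (n := 0) _).mul (Dle.pderiv (n := m + 1) dQ 1) (by omega)
  have hb := bezg h.hP h.hQ (dp0.add (hA'.mono (by omega))) (dp1.add (hB'.mono (by omega)))
    (dq0.add (hA₂'.mono (by omega))) (dq1.add (hB₂'.mono (by omega))) eP eQ
  have hW : Dle (2 * m + 1) (((C ν * p0 + A') * (C ν * q1 + B₂') - (C ν * p1 + B') * (C ν * q0 + A₂')) -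
      C (ν ^ 2) * Jac (hc (m + 2) P) (hc (m + 2) Q)) := by
    have e : ((C ν * p0 + A') * (C ν * q1 + B₂') - (C ν * p1 + B') * (C ν * q0 + A₂')) -
      C (ν ^ 2) * Jac (hc (m + 2) P) (hc (m + 2) Q) =
      (C ν * p0) * B₂' + A' * (C ν * q1 + B₂') - ((C ν * p1) * A₂' + B' * (C ν * q0 + A₂')) := by
      unfold Jac
      rw [← hp0, ← hp1, ← hq0, ← hq1, C_pow]
      ring
    rw [e]
    exact ((dp0.mul hB₂' (by omega)).add (hA'.mul (dq1.add (hB₂'.mono (by omega))) (by omega))).sub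
      ((dp1.mul hA₂' (by omega)).add (hB'.mul (dq0.add (hA₂'.mono (by omega))) (by omega)))
  have key : ∀ w, eval w P = 0 → eval w Q = 0 → ∃ Δ : RP, Dle (2 * m + 2) Δ ∧
      L0 Δ = ν ^ 2 * L0 (Jac (hc (m + 2) P) (hc (m + 2) Q)) ∧ eval w Δ = eval w (Jac P Q) ∧
        (∀ F, F * Δ - C (eval w F) * Δ ∈ II P Q) := by
    intro w h1 h2
    obtain ⟨Δ, d1, d2, d3, d4⟩ := hb w h1 h2
    refine ⟨Δ, d1, ?_, d3, d4⟩
    have e1 := hL0.low _ d2
    have e2 := hL0.low _ hW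
    rw [map_sub, sub_eq_zero] at e1 e2
    rw [e1, e2, L_Ck]
  obtain ⟨s0, hs0⟩ := hne
  have hJ0 : L0 (Jac (hc (m + 2) P) (hc (m + 2) Q)) ≠ 0 := by
    intro h0
    obtain ⟨Δ, d1, d2, d3, d4⟩ := key s0 (hz s0 hs0).1 (hz s0 hs0).2
    rw [h0, mul_zero] at d2
    have h8 : Δ ∈ II P Q := by
      apply h.nondeg hL0
      intro G
      have h9 := hL0.ker _ (d4 G)
      rw [map_sub, L_Ck, d2, mul_zero, sub_zero] at h9
      rw [mul_comm]; exact h9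
    have h10 := II_eval h8 (hz s0 hs0).1 (hz s0 hs0).2
    have h11 := hJ s0 hs0
    rw [← d3, h10] at h11
    exact lt_irrefl _ h11
  obtain ⟨κ, hκ⟩ : ∃ κ : ℝ, κ = (ν ^ 2 * L0 (Jac (hc (m + 2) P) (hc (m + 2) Q)))⁻¹ := ⟨_, rfl⟩
  have hκ0 : κ ≠ 0 := by rw [hκ]; exact inv_ne_zero (mul_ne_zero (pow_ne_zero 2 hν0) hJ0)
  have hκ1 : κ * (ν ^ 2 * L0 (Jac (hc (m + 2) P) (hc (m + 2) Q))) = 1 := by
    rw [hκ]; exact inv_mul_cancel₀ (mul_ne_zero (pow_ne_zero 2 hν0) hJ0)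
  have key2 : ∀ s : Fin 2 → ℝ, ∃ Δ : RP, s ∈ S → (Dle (2 * m + 2) Δ ∧
      L0 Δ = ν ^ 2 * L0 (Jac (hc (m + 2) P) (hc (m + 2) Q)) ∧ eval s Δ = eval s (Jac P Q) ∧
        (∀ F, F * Δ - C (eval s F) * Δ ∈ II P Q)) := by
    intro s
    by_cases hs : s ∈ S
    · obtain ⟨Δ, hΔ⟩ := key s (hz s hs).1 (hz s hs).2
      exact ⟨Δ, fun _ => hΔ⟩
    · exact ⟨0, fun h0 => absurd h0 hs⟩
  choose Δ hΔ using key2
  have hR : Rn m P Q (κ • L0) := by
    refine ⟨fun F hF => by rw [LinearMap.smul_apply, hL0.low F hF, smul_zero],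
      fun F hF => by rw [LinearMap.smul_apply, hL0.ker F hF, smul_zero], ?_⟩
    intro h0
    apply hJ0
    have h1 := congrArg (fun f : RP →ₗ[ℝ] ℝ => f (Jac (hc (m + 2) P) (hc (m + 2) Q))) h0
    simp only [LinearMap.smul_apply, smul_eq_mul, LinearMap.zero_apply] at h1
    exact (mul_eq_zero.1 h1).resolve_left hκ0
  refine ⟨κ • L0, Δ, h, hR, ?_, hz, hJ, fun s hs => (hΔ s hs).1, ?_, fun s hs => (hΔ s hs).2.2.1, ?_⟩
  · rw [LinearMap.smul_apply, smul_eq_mul]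
    have h2 : ν * ((m + 2 : ℕ) : ℝ) = 1 := by rw [hν]; exact inv_mul_cancel₀ (npos m)
    have h3 : κ * L0 (Jac (hc (m + 2) P) (hc (m + 2) Q)) * (ν * ((m + 2 : ℕ) : ℝ)) ^ 2 = ((m + 2 : ℕ) : ℝ) ^ 2 := by
      linear_combination (((m + 2 : ℕ) : ℝ) ^ 2) * hκ1
    rw [h2, one_pow, mul_one] at h3
    exact h3
  · intro s hs F
    have h3 := hR.ker _ ((hΔ s hs).2.2.2 F)
    rw [map_sub, L_Ck, sub_eq_zero] at h3
    rw [h3, LinearMap.smul_apply, smul_eq_mul, (hΔ s hs).2.1, hκ1, mul_one]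
  · intro s hs s' hs' hne
    exact delta_other (hΔ s hs).2.2.2 (hz s' hs').1 (hz s' hs').2 hne

/-- the dimension count -/
theorem Pn.core {m : ℕ} {P Q : RP} {L : RP →ₗ[ℝ] ℝ} {S : Finset (Fin 2 → ℝ)} {Δ : (Fin 2 → ℝ) → RP}
    (h : Pn m P Q L S Δ) {V : Type} [AddCommGroup V] [Module ℝ V] [FiniteDimensional ℝ V] (Θ : V →ₗ[ℝ] RP)
    (hinj : ∀ v, Θ v = 0 → v = 0) (h3 : ∀ v, Dle (m + 1) (Θ v))
    (hneg : ∀ v, L (Θ v * Θ v) ≤ 0) : Module.finrank ℝ V + S.card ≤ (m + 2) ^ 2 := by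
  classical
  by_contra hcon
  push Not at hcon
  -- the comparison map
  obtain ⟨Ξ, hΞ⟩ : ∃ Ξ : (V × (Pl ℝ m × Pl ℝ m) × (S → ℝ)) →ₗ[ℝ] Pl ℝ (2 * m + 2), ∀ x,
      (Ξ x).1 = Θ x.1 + kk P Q m x.2.1 - ∑ s : S, C (x.2.2 s) * Δ s.1 := by
    have hmem : ∀ x : V × (Pl ℝ m × Pl ℝ m) × (S → ℝ),
        Θ x.1 + kk P Q m x.2.1 - ∑ s : S, C (x.2.2 s) * Δ s.1 ∈ Pl ℝ (2 * m + 2) := by
      intro x
      rw [mem_Pl]
      refine Dle.sub (n := 2 * m + 2) (Dle.add (n := 2 * m + 2) ((h3 _).mono (by omega)) ?_) ?_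
      · rw [kk_apply]
        exact ((Dle.mul (a := m) (mem_Pl.1 x.2.1.1.2) h.en.hP (by omega)).add
          (Dle.mul (a := m) (mem_Pl.1 x.2.1.2.2) h.en.hQ (by omega)))
      · refine le_trans (totalDegree_finsetSum _ _) (Finset.sup_le ?_)
        intro s _
        exact (Dle.C (n := 0) _).mul (h.dΔ s.1 s.2) (show 0 + (2 * m + 2) ≤ 2 * m + 2 by omega)
    refine ⟨⟨⟨fun x => ⟨_, hmem x⟩, ?_⟩, ?_⟩, fun x => rfl⟩
    · intro x y
      apply Subtype.ext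
      show Θ (x + y).1 + kk P Q m (x + y).2.1 - ∑ s : S, C ((x + y).2.2 s) * Δ s.1 =
        (Θ x.1 + kk P Q m x.2.1 - ∑ s : S, C (x.2.2 s) * Δ s.1) +
        (Θ y.1 + kk P Q m y.2.1 - ∑ s : S, C (y.2.2 s) * Δ s.1)
      simp only [Prod.fst_add, Prod.snd_add, map_add, Pi.add_apply, add_mul, Finset.sum_add_distrib]
      ring
    · intro c x
      apply Subtype.ext
      show Θ (c • x).1 + kk P Q m (c • x).2.1 - ∑ s : S, C ((c • x).2.2 s) * Δ s.1 =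
        c • (Θ x.1 + kk P Q m x.2.1 - ∑ s : S, C (x.2.2 s) * Δ s.1)
      simp only [Prod.smul_fst, Prod.smul_snd, map_smul, Pi.smul_apply, smul_eq_mul, C_mul, smul_sub, smul_add,
        Finset.smul_sum, smul_eq_C_mul, mul_assoc]
  have hlt : Module.finrank ℝ (Pl ℝ (2 * m + 2)) < Module.finrank ℝ (V × (Pl ℝ m × Pl ℝ m) × (S → ℝ)) := by
    rw [Module.finrank_prod, Module.finrank_prod, Module.finrank_prod, Module.finrank_fintype_fun_eq_card,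
      Fintype.card_coe]
    have e6 := finrank_Pl (k := ℝ) (2 * m + 2)
    have e2 := finrank_Pl (k := ℝ) m
    nlinarith
  have hker := LinearMap.ker_ne_bot_of_finrank_lt (f := Ξ) hlt
  obtain ⟨x, hx, hx0⟩ := Submodule.exists_mem_ne_zero_of_ne_bot hker
  have hx1 := congrArg Subtype.val (LinearMap.mem_ker.1 hx)
  rw [hΞ] at hx1
  obtain ⟨v, ab, c⟩ := x
  have hx2 : Θ v + kk P Q m ab = ∑ s : S, C (c s) * Δ s.1 := by
    have : Θ v + kk P Q m ab - ∑ s : S, C (c s) * Δ s.1 = 0 := hx1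
    linear_combination this
  have hkI : kk P Q m ab ∈ II P Q := by
    rw [kk_apply]; exact mem_II.2 ⟨_, _, rfl⟩
  have hkS : ∀ s ∈ S, eval s (kk P Q m ab) = 0 := fun s hs => II_eval hkI (h.zero s hs).1 (h.zero s hs).2
  have hval : ∀ s : S, eval s.1 (Θ v) = c s * eval s.1 (Jac P Q) := by
    intro s
    have h1 := congrArg (eval s.1) hx2
    rw [map_add, hkS s.1 s.2, add_zero, map_sum, Finset.sum_eq_single s] at h1
    · rw [h1, map_mul, eval_C, h.diag s.1 s.2]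
    · intro t _ hts
      rw [map_mul, h.off t.1 t.2 s.1 s.2 (fun h0 => hts (Subtype.ext h0.symm)), mul_zero]
    · intro h0; exact absurd (Finset.mem_univ _) h0
  have hL : L (Θ v * Θ v) = ∑ s : S, c s ^ 2 * eval s.1 (Jac P Q) := by
    have h1 : Θ v * Θ v = (∑ s : S, C (c s) * (Θ v * Δ s.1)) - Θ v * kk P Q m ab := by
      have h2 : ∑ s : S, C (c s) * (Θ v * Δ s.1) = Θ v * ∑ s : S, C (c s) * Δ s.1 := by
        rw [Finset.mul_sum]
        apply Finset.sum_congr rfl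
        intro s _
        ring
      rw [h2, ← hx2]; ring
    rw [h1, map_sub, map_sum, h.rn.ker _ (Ideal.mul_mem_left _ _ hkI), sub_zero]
    apply Finset.sum_congr rfl
    intro s _
    rw [L_Ck, h.mul s.1 s.2, hval s]; ring
  have hc : ∀ s : S, c s = 0 := by
    have h1 : ∑ s : S, c s ^ 2 * eval s.1 (Jac P Q) = 0 := by
      apply le_antisymm
      · rw [← hL]; exact hneg v
      · exact Finset.sum_nonneg (fun s _ => mul_nonneg (sq_nonneg _) (h.Jp s.1 s.2).le)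
    rw [Finset.sum_eq_zero_iff_of_nonneg (fun s _ => mul_nonneg (sq_nonneg _) (h.Jp s.1 s.2).le)] at h1
    intro s
    have h2 := h1 s (Finset.mem_univ s)
    have h3 := (mul_eq_zero.1 h2).resolve_right (h.Jp s.1 s.2).ne'
    exact pow_eq_zero_iff (by norm_num) |>.1 h3
  have hx3 : Θ v + kk P Q m ab = 0 := by
    rw [hx2]
    apply Finset.sum_eq_zero
    intro s _
    rw [hc s, C_0, zero_mul]
  have hv0 : Θ v = 0 := by
    apply h.en.eq_zero3 _ (h3 v)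
    have : Θ v = -kk P Q m ab := by linear_combination hx3
    rw [this]
    exact (Ideal.neg_mem_iff _).2 hkI
  rw [hv0, zero_add, kk_apply] at hx3
  obtain ⟨ha, hb⟩ := h.en.inj3 m (by omega) _ _ (mem_Pl.1 ab.1.2) (mem_Pl.1 ab.2.2) (by rw [hx3]; exact Dle.zero)
  apply hx0
  have z1 := hinj v hv0
  have z2 : ab = 0 := Prod.ext (Subtype.ext ha) (Subtype.ext hb)
  have z3 : c = 0 := funext hc
  rw [z1, z2, z3]; rfl

end Run7.h256
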