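import Mathlib
import Pool.Agent.Run7.h256.Q3

set_option autoImplicit false

namespace Run7.h256

open MvPolynomial ComplexConjugate

open E0 (kk kk_apply KK mem_KK KK_II)

/-- restriction to the line `y = 1` -/
noncomputable def uu : RP →ₐ[ℝ] Polynomial ℝ := aeval ![Polynomial.X, 1]

/-- value at the point `(ξ, 1)` -/
noncomputable def ec (ξ : ℂ) : RP →ₐ[ℝ] ℂ := aeval ![ξ, 1]

/-- complexified restriction -/
noncomputable def uc (F : RP) : Polynomial ℂ := (uu F).map (algebraMap ℝ ℂ)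

lemma uc_eval (F : RP) (ξ : ℂ) : (uc F).eval ξ = ec ξ F := by
  induction F using MvPolynomial.induction_on with
  | C a => simp [uc, ec, uu]
  | add p q hp hq =>
    have : uc (p + q) = uc p + uc q := by unfold uc; rw [map_add, Polynomial.map_add]
    rw [this, Polynomial.eval_add, hp, hq, map_add]
  | mul_X p i hp =>
    have : uc (p * X i) = uc p * uc (X i) := by unfold uc; rw [map_mul, Polynomial.map_mul]
    rw [this, Polynomial.eval_mul, hp, map_mul]
    congr 1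
    fin_cases i <;> simp [uc, ec, uu]

lemma ec_X0 (ξ : ℂ) : ec ξ (X 0) = ξ := by simp [ec]
lemma ec_X1 (ξ : ℂ) : ec ξ (X 1) = 1 := by simp [ec]
lemma ec_C (ξ : ℂ) (a : ℝ) : ec ξ (C a) = (a : ℂ) := by simp [ec]

lemma ec_conj (F : RP) (ξ : ℂ) : ec (conj ξ) F = conj (ec ξ F) := by
  induction F using MvPolynomial.induction_on with
  | C a => simp [ec]
  | add p q hp hq => rw [map_add, map_add, hp, hq, map_add]
  | mul_X p i hp =>
    rw [map_mul, map_mul, hp, map_mul]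
    congr 1
    fin_cases i <;> simp [ec]

lemma uc_deg {d : ℕ} {F : RP} (hF : Dle d F) : (uc F).natDegree ≤ d := by
  refine le_trans (Polynomial.natDegree_map_le) ?_
  have e : uu F = ∑ s ∈ F.support, Polynomial.C (coeff s F) * Polynomial.X ^ (s 0) := by
    conv_lhs => rw [F.as_sum]
    rw [map_sum]
    apply Finset.sum_congr rfl
    intro s _
    unfold uu
    rw [aeval_monomial, Finsupp.prod_fintype _ _ (fun i => pow_zero _), Fin.prod_univ_two]
    simp
  rw [e]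
  apply Polynomial.natDegree_sum_le_of_forall_le
  intro s hs
  refine le_trans (Polynomial.natDegree_C_mul_X_pow_le _ _) ?_
  by_contra hc
  push Not at hc
  rw [mem_support_iff] at hs
  exact hs (Dle_iff.1 hF s (by omega))

/-- data of a form with simple roots -/
structure Rt (m : ℕ) (h : RP) (R : Finset ℂ) : Prop where
  hh : h.IsHomogeneous (m + 3)
  card : R.card = m + 3
  mem : ∀ ξ, ξ ∈ R ↔ ec ξ h = 0
  D0 : ∀ ξ ∈ R, ec ξ (pderiv 0 h) ≠ 0
  sum : ∀ G : Polynomial ℂ, G.natDegree ≤ m + 1 → ∑ ξ ∈ R, G.eval ξ / ec ξ (pderiv 0 h) = 0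

/-- the root functional -/
noncomputable def ell (h : RP) (R : Finset ℂ) (F : RP) : ℂ := ∑ ξ ∈ R, ec ξ F / ec ξ (pderiv 0 h) ^ 2

namespace Rt

variable {m : ℕ} {h : RP} {R : Finset ℂ}

lemma ey (r : Rt m h R) {ξ : ℂ} (hξ : ξ ∈ R) : ec ξ (pderiv 1 h) = -(ξ * ec ξ (pderiv 0 h)) := by
  have h1 := congrArg (ec ξ) (eulerk r.hh)
  rw [map_add, map_mul, map_mul, map_mul, (r.mem ξ).1 hξ, mul_zero, ec_X0, ec_X1] at h1
  linear_combination h1

lemma kx (r : Rt m h R) {A : RP} (hA : Dle m A) : ell h R (A * pderiv 0 h) = 0 := by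
  unfold ell
  rw [← r.sum (uc A) ((uc_deg hA).trans (by omega))]
  apply Finset.sum_congr rfl
  intro ξ hξ
  have := r.D0 ξ hξ
  rw [uc_eval, map_mul]
  field_simp

lemma ky (r : Rt m h R) {A : RP} (hA : Dle m A) : ell h R (A * pderiv 1 h) = 0 := by
  have hd : Dle (m + 1) (-(X 0 * A)) := ((Dle.X le_rfl 0).mul hA (by omega)).neg
  unfold ell
  rw [← r.sum (uc (-(X 0 * A))) (uc_deg hd)]
  apply Finset.sum_congr rfl
  intro ξ hξ
  have := r.D0 ξ hξ
  rw [uc_eval, map_mul, map_neg, map_mul, ec_X0, r.ey hξ]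
  field_simp

lemma pd_homog {n : ℕ} {F : RP} (hF : F.IsHomogeneous (n + 1)) (i : Fin 2) : (pderiv i F).IsHomogeneous n := by
  have := hF.pderiv (i := i)
  simpa using this

lemma kJ (r : Rt m h R) : ell h R (Jac (pderiv 1 h) (-pderiv 0 h)) = -(((m : ℂ) + 2) ^ 2 * ((m : ℂ) + 3)) := by
  unfold ell
  have h1 : ∀ ξ ∈ R, ec ξ (Jac (pderiv 1 h) (-pderiv 0 h)) / ec ξ (pderiv 0 h) ^ 2 = -((m : ℂ) + 2) ^ 2 := by
    intro ξ hξ
    have hD := r.D0 ξ hξ
    have e1 := congrArg (ec ξ) (eulerk (pd_homog r.hh 0))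
    have e2 := congrArg (ec ξ) (eulerk (pd_homog r.hh 1))
    have ecm : pderiv 1 (pderiv 0 h) = pderiv 0 (pderiv 1 h) := pd_comm h
    rw [map_add, map_mul, map_mul, map_mul, ec_X0, ec_X1, map_natCast, ecm] at e1
    rw [map_add, map_mul, map_mul, map_mul, ec_X0, ec_X1, map_natCast, r.ey hξ] at e2
    push_cast at e1 e2
    rw [div_eq_iff (pow_ne_zero 2 hD)]
    unfold Jac
    rw [map_sub, map_mul, map_mul, map_neg, map_neg, map_neg, map_neg, ecm]
    obtain ⟨a, ha⟩ : ∃ a, a = ec ξ (pderiv 0 (pderiv 0 h)) := ⟨_, rfl⟩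
    obtain ⟨b, hb⟩ : ∃ b, b = ec ξ (pderiv 0 (pderiv 1 h)) := ⟨_, rfl⟩
    obtain ⟨c, hc⟩ : ∃ c, c = ec ξ (pderiv 1 (pderiv 1 h)) := ⟨_, rfl⟩
    obtain ⟨D, hDD⟩ : ∃ D, D = ec ξ (pderiv 0 h) := ⟨_, rfl⟩
    rw [← ha, ← hb, ← hDD] at e1
    rw [← hb, ← hc, ← hDD] at e2
    rw [← ha, ← hb, ← hc, ← hDD]
    have eb : b = ((m : ℂ) + 2) * D - ξ * a := by linear_combination e1
    have ecc : c = -(((m : ℂ) + 2) * ξ * D) - ξ * b := by linear_combination e2
    rw [ecc, eb]; ring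
  rw [Finset.sum_congr rfl h1, Finset.sum_const, r.card, nsmul_eq_mul]
  push_cast
  ring

lemma conj_mem (r : Rt m h R) {ξ : ℂ} (hξ : ξ ∈ R) : conj ξ ∈ R := by
  rw [r.mem, ec_conj, (r.mem ξ).1 hξ, map_zero]

end Rt

/-- the residue functional on top forms of a Hamiltonian pair -/
theorem L_ell {m : ℕ} {P Q h : RP} {L : RP →ₗ[ℝ] ℝ} {R : Finset ℂ} (he : En m P Q) (hL : Rn m P Q L)
    (hJ : L (Jac (hc (m + 2) P) (hc (m + 2) Q)) = ((m + 2 : ℕ) : ℝ) ^ 2) (r : Rt m h R)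
    (e1 : hc (m + 2) P = pderiv 1 h) (e2 : hc (m + 2) Q = -pderiv 0 h) {F : RP} (hF : F.IsHomogeneous (2 * m + 2)) :
    ell h R F = -(((m : ℂ) + 3) * (L F : ℂ)) := by
  obtain ⟨t, ht⟩ : ∃ t : ℝ, t = L F / ((m + 2 : ℕ) : ℝ) ^ 2 := ⟨_, rfl⟩
  have hn : ((m + 2 : ℕ) : ℝ) ≠ 0 := npos m
  have hJh : (Jac (hc (m + 2) P) (hc (m + 2) Q)).IsHomogeneous (2 * m + 2) := by
    unfold Jac
    have a := fun i => Rt.pd_homog (n := m + 1) (hc_homog (m + 2) P) i
    have b := fun i => Rt.pd_homog (n := m + 1) (hc_homog (m + 2) Q) i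
    have h1 := (a 0).mul (b 1)
    have h2 := (a 1).mul (b 0)
    rw [show m + 1 + (m + 1) = 2 * m + 2 by ring] at h1 h2
    exact h1.sub h2
  obtain ⟨F1, hF1⟩ : ∃ F1, F1 = F - C t * Jac (hc (m + 2) P) (hc (m + 2) Q) := ⟨_, rfl⟩
  have hF1h : F1.IsHomogeneous (2 * m + 2) := by
    rw [hF1]
    exact hF.sub (hJh.C_mul t)
  have hL1 : L F1 = 0 := by
    rw [hF1, map_sub, L_Ck, hJ, ht]
    field_simp
    ring
  obtain ⟨F', hF', hI⟩ := he.top6 hL (homog_DG hF1h) hL1
  obtain ⟨u, v, hu, hv, huv⟩ := he.mem_red (n := m) hI (by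
    exact ((homog_DG hF1h).sub (hF'.mono (by omega))).mono (by omega))
  have key : F1 = hc m u * hc (m + 2) P + hc m v * hc (m + 2) Q := by
    rw [← sub_eq_zero]
    apply homog_D0 (n := 2 * m + 2) (m := 2 * m + 1)
    · have a1 := (hc_homog m u).mul (hc_homog (m + 2) P)
      have a2 := (hc_homog m v).mul (hc_homog (m + 2) Q)
      rw [show m + (m + 2) = 2 * m + 2 by ring] at a1 a2
      exact hF1h.sub (a1.add a2)
    · have e : F1 - (hc m u * hc (m + 2) P + hc m v * hc (m + 2) Q) = F' +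
          (((u - hc m u) * P + hc m u * (P - hc (m + 2) P)) + ((v - hc m v) * Q + hc m v * (Q - hc (m + 2) Q))) := by
        linear_combination (-1 : RP) * huv
      rw [e]
      have t3 : Dle (m + 1) (P - hc (m + 2) P) := sub_hcD (n := m + 1) he.hP
      have t4 : Dle (m + 1) (Q - hc (m + 2) Q) := sub_hcD (n := m + 1) he.hQ
      have s1 : Dle (2 * m + 1) ((u - hc m u) * P) := (En.subhc_mul hu he.hP).mono (by omega)
      have s2 : Dle (2 * m + 1) ((v - hc m v) * Q) := (En.subhc_mul hv he.hQ).mono (by omega)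
      exact hF'.add ((s1.add ((homog_DG (hc_homog m u)).mul t3 (by omega))).add
        (s2.add ((homog_DG (hc_homog m v)).mul t4 (by omega))))
    · omega
  have hadd : ∀ A B : RP, ell h R (A + B) = ell h R A + ell h R B := by
    intro A B
    unfold ell
    rw [← Finset.sum_add_distrib]
    apply Finset.sum_congr rfl
    intro ξ _
    rw [map_add]; ring
  have hC : ∀ (a : ℝ) (A : RP), ell h R (C a * A) = (a : ℂ) * ell h R A := by
    intro a A
    unfold ell
    rw [Finset.mul_sum]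
    apply Finset.sum_congr rfl
    intro ξ _
    rw [map_mul, ec_C]; ring
  have z : ell h R F1 = 0 := by
    rw [key, e1, e2]
    have : hc m v * -pderiv 0 h = (-hc m v) * pderiv 0 h := by ring
    rw [this, hadd, r.ky (homog_DG (hc_homog m u)), r.kx (homog_DG (hc_homog m v)).neg, add_zero]
  have hFe : F = F1 + C t * Jac (hc (m + 2) P) (hc (m + 2) Q) := by rw [hF1]; ring
  have : ell h R F = (t : ℂ) * (-(((m : ℂ) + 2) ^ 2 * ((m : ℂ) + 3))) := by
    conv_lhs => rw [hFe]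
    rw [hadd, z, zero_add, hC, e1, e2, r.kJ]
  rw [this, ht]
  have hn' : ((m : ℂ) + 2) ≠ 0 := by
    have : (((m + 2 : ℕ) : ℝ) : ℂ) ≠ 0 := by exact_mod_cast hn
    push_cast at this
    exact this
  push_cast
  field_simp

/-- the bound for Hamiltonian top forms with simple roots -/
theorem ham_gen {m : ℕ} {P Q h : RP} {L : RP →ₗ[ℝ] ℝ} {R : Finset ℂ} {S : Finset (Fin 2 → ℝ)}
    {Δ : (Fin 2 → ℝ) → RP} (hp : Pn m P Q L S Δ) (r : Rt m h R)
    (e1 : hc (m + 2) P = pderiv 1 h) (e2 : hc (m + 2) Q = -pderiv 0 h) : 2 * S.card ≤ (m + 2) ^ 2 + 1 := by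
  classical
  obtain ⟨Rp, hRp⟩ : ∃ Rp, Rp = R.filter (fun ξ => 0 < ξ.im) := ⟨_, rfl⟩
  have hcard : 2 * Rp.card ≤ m + 3 := by
    have h1 : Rp ∪ Rp.image conj ⊆ R := by
      intro ξ hξ
      rcases Finset.mem_union.1 hξ with h2 | h2
      · rw [hRp] at h2; exact (Finset.mem_filter.1 h2).1
      · obtain ⟨η, hη, rfl⟩ := Finset.mem_image.1 h2
        rw [hRp] at hη
        exact r.conj_mem (Finset.mem_filter.1 hη).1
    have h2 : Disjoint Rp (Rp.image conj) := by
      rw [Finset.disjoint_left]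
      intro ξ h3 h4
      obtain ⟨η, hη, rfl⟩ := Finset.mem_image.1 h4
      rw [hRp, Finset.mem_filter] at h3 hη
      have h5 := h3.2
      rw [Complex.conj_im] at h5
      linarith [hη.2]
    have h3 := Finset.card_le_card h1
    rw [Finset.card_union_of_disjoint h2, Finset.card_image_of_injective _ (starRingEnd ℂ).injective, r.card] at h3
    omega
  -- the linear conditions
  obtain ⟨Λ, hΛ⟩ : ∃ Λ : Pl ℝ (m + 1) →ₗ[ℝ] (Rp → ℝ), ∀ v ξ,
      Λ v ξ = (ec ξ.1 (hc (m + 1) v.1) / ec ξ.1 (pderiv 0 h)).im := by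
    refine ⟨⟨⟨fun v ξ => (ec ξ.1 (hc (m + 1) v.1) / ec ξ.1 (pderiv 0 h)).im, ?_⟩, ?_⟩, fun v ξ => rfl⟩
    · intro v w
      funext ξ
      show (ec ξ.1 (hc (m + 1) (v.1 + w.1)) / _).im = _
      have : hc (m + 1) (v.1 + w.1) = hc (m + 1) v.1 + hc (m + 1) w.1 := by unfold hc; exact map_add _ _ _
      rw [this, map_add, add_div, Complex.add_im]
      rfl
    · intro c v
      funext ξ
      show (ec ξ.1 (hc (m + 1) (c • v.1)) / _).im = c * _
      have : hc (m + 1) (c • v.1) = c • hc (m + 1) v.1 := by unfold hc; exact map_smul _ _ _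
      rw [this, map_smul, Complex.real_smul, mul_div_assoc, Complex.im_ofReal_mul]
  have hmap : ∀ v : Pl ℝ (m + 1), Λ v = 0 → ∀ ξ ∈ R, (ec ξ (hc (m + 1) v.1) / ec ξ (pderiv 0 h)).im = 0 := by
    intro v hv ξ hξ
    rcases lt_trichotomy 0 ξ.im with h1 | h1 | h1
    · have := congrFun hv ⟨ξ, by rw [hRp]; exact Finset.mem_filter.2 ⟨hξ, h1⟩⟩
      rw [hΛ] at this
      exact this
    · have hc1 : conj ξ = ξ := Complex.conj_eq_iff_im.2 h1.symm
      have h2 := ec_conj (hc (m + 1) v.1) ξ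
      have h3 := ec_conj (pderiv 0 h) ξ
      rw [hc1] at h2 h3
      rw [← Complex.conj_eq_iff_im, map_div₀, ← h2, ← h3]
    · have h4 : conj ξ ∈ R := r.conj_mem hξ
      have h5 := congrFun hv ⟨conj ξ, by
        rw [hRp]
        refine Finset.mem_filter.2 ⟨h4, ?_⟩
        rw [Complex.conj_im]; linarith⟩
      rw [hΛ] at h5
      have h6 : (ec (conj ξ) (hc (m + 1) v.1) / ec (conj ξ) (pderiv 0 h)).im = 0 := h5
      rw [ec_conj, ec_conj, ← map_div₀, Complex.conj_im] at h6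
      linarith
  have hcore := hp.core (V := LinearMap.ker Λ) ((Pl ℝ (m + 1)).subtype ∘ₗ (LinearMap.ker Λ).subtype) ?_ ?_ ?_
  · have h1 := LinearMap.finrank_range_add_finrank_ker Λ
    have h2 : Module.finrank ℝ (LinearMap.range Λ) ≤ Rp.card := by
      have := Submodule.finrank_le (LinearMap.range Λ)
      rwa [Module.finrank_fintype_fun_eq_card, Fintype.card_coe] at this
    have h3 := finrank_Pl (k := ℝ) (m + 1)
    nlinarith
  · intro v hv
    exact Subtype.ext (Subtype.ext hv)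
  · intro v
    exact mem_Pl.1 v.1.2
  · intro v
    show L (v.1.1 * v.1.1) ≤ 0
    have hv := hmap v.1 (LinearMap.mem_ker.1 v.2)
    have hvd : Dle (m + 1) v.1.1 := mem_Pl.1 v.1.2
    obtain ⟨w, hw⟩ : ∃ w, w = hc (m + 1) v.1.1 := ⟨_, rfl⟩
    rw [← hw] at hv
    have hwh : w.IsHomogeneous (m + 1) := by rw [hw]; exact hc_homog _ _
    have hlow : Dle m (v.1.1 - w) := by rw [hw]; exact sub_hcD hvd
    have e3 : L (v.1.1 * v.1.1) = L (w * w) := by
      have h1 : v.1.1 * v.1.1 = w * w + ((v.1.1 - w) * v.1.1 + w * (v.1.1 - w)) := by ring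
      rw [h1, map_add, hp.rn.low _ ((hlow.mul hvd (by omega)).add ((homog_DG hwh).mul hlow (by omega))), add_zero]
    have h4 := L_ell hp.en hp.rn hp.LJ r e1 e2 (F := w * w) (by
      have := hwh.mul hwh
      rwa [show m + 1 + (m + 1) = 2 * m + 2 by ring] at this)
    have h5 : ell h R (w * w) = ((∑ ξ ∈ R, (ec ξ w / ec ξ (pderiv 0 h)).re ^ 2 : ℝ) : ℂ) := by
      unfold ell
      push_cast
      apply Finset.sum_congr rfl
      intro ξ hξ
      have h6 : ec ξ w / ec ξ (pderiv 0 h) = ((ec ξ w / ec ξ (pderiv 0 h)).re : ℂ) := by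
        apply Complex.ext
        · simp
        · rw [hv ξ hξ]; simp
      rw [← h6, map_mul, div_pow]
      ring
    have h7 : (∑ ξ ∈ R, (ec ξ w / ec ξ (pderiv 0 h)).re ^ 2 : ℝ) = -(((m : ℝ) + 3) * L (w * w)) := by
      have := h5.symm.trans h4
      exact_mod_cast this
    have h8 : 0 ≤ (∑ ξ ∈ R, (ec ξ w / ec ξ (pderiv 0 h)).re ^ 2 : ℝ) := Finset.sum_nonneg (fun _ _ => sq_nonneg _)
    rw [e3]
    have h9 : (0 : ℝ) < (m : ℝ) + 3 := by positivity
    by_contra hcon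
    push Not at hcon
    nlinarith [mul_pos h9 hcon]

end Run7.h256
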