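import Mathlib
import Pool.Agent.Run7.h256.W3
import Pool.Agent.Run7.h256.Top

set_option autoImplicit false

namespace Run7.h256.U

open MvPolynomial Topology Metric

lemma unit_of {a : RP} (ha : a ≠ 0) (hd : Dle 0 a) : IsUnit a := by
  have h1 : a = C (coeff 0 a) := (totalDegree_eq_zero_iff_eq_C).1 (Nat.le_zero.1 hd)
  rw [h1]
  apply IsUnit.map
  rw [isUnit_iff_ne_zero]
  intro h0
  rw [h0, C_0] at h1
  exact ha h1

lemma not_unitc {a : RR} (hd : ¬ Dle 0 a) : ¬ IsUnit a := by
  intro h
  apply hd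
  unfold Dle
  rw [(MvPolynomial.isUnit_iff_totalDegree_of_isReduced.mp h).2]

/-- no common complex zero away from the origin implies coprimality -/
lemma rel_of_zeros {a b : RP} (h : ∀ z : Fin 2 → ℂ, z ≠ 0 → ¬ (eval z (cx a) = 0 ∧ eval z (cx b) = 0)) :
    IsRelPrime a b := by
  classical
  intro g h1 h2
  by_contra hg
  by_cases hg0 : g = 0
  · rw [hg0, zero_dvd_iff] at h1 h2
    apply h ![1, 0]
    · intro h0
      have := congrFun h0 0
      simp at this
    · rw [h1, h2, cx_zero, map_zero]; exact ⟨rfl, rfl⟩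
  · have hgd : ¬ Dle 0 g := fun h0 => hg (unit_of hg0 h0)
    have hcg : ¬ IsUnit (cx g) := not_unitc (fun h0 => hgd (Dle_cx_iff.1 h0))
    have hcg0 : cx g ≠ 0 := fun h0 => hg0 (cx_inj (by rw [h0, cx_zero]))
    obtain ⟨f, hf, hfd⟩ := WfDvdMonoid.exists_irreducible_factor hcg hcg0
    obtain ⟨z, hz, hz0⟩ := exists_zero_off hf {0}
    apply h z (fun h0 => hz (by rw [h0]; exact Finset.mem_singleton_self _))
    have key : ∀ F : RP, g ∣ F → eval z (cx F) = 0 := by
      rintro _ ⟨A, rfl⟩
      obtain ⟨B, hB⟩ := hfd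
      rw [cx_mul, hB, map_mul, map_mul, hz0, zero_mul, zero_mul]
    exact ⟨key a h1, key b h2⟩

/-- the derivative of a polynomial function -/
lemma hasFDerivAt_eval (F : RP) (v : Fin 2 → ℝ) :
    HasFDerivAt (fun x : Fin 2 → ℝ => eval x F)
      (eval v (pderiv 0 F) • (ContinuousLinearMap.proj 0 : (Fin 2 → ℝ) →L[ℝ] ℝ) +
        eval v (pderiv 1 F) • (ContinuousLinearMap.proj 1 : (Fin 2 → ℝ) →L[ℝ] ℝ)) v := by
  induction F using MvPolynomial.induction_on with
  | C a =>
    simp only [eval_C, pderiv_C, map_zero, zero_smul, add_zero]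
    exact hasFDerivAt_const a v
  | add p q hp hq =>
    have := hp.add hq
    have e : (fun x : Fin 2 → ℝ => eval x (p + q)) = (fun x => eval x p) + (fun x => eval x q) := by
      ext x; simp
    rw [e]
    refine this.congr_fderiv ?_
    simp only [map_add, add_smul]
    abel
  | mul_X p i hp =>
    have hi : HasFDerivAt (fun x : Fin 2 → ℝ => x i) (ContinuousLinearMap.proj i : (Fin 2 → ℝ) →L[ℝ] ℝ) v :=
      (ContinuousLinearMap.proj i : (Fin 2 → ℝ) →L[ℝ] ℝ).hasFDerivAt
    have := hp.mul hi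
    have e : (fun x : Fin 2 → ℝ => eval x (p * X i)) = (fun x => eval x p) * (fun x => x i) := by
      ext x; simp
    rw [e]
    refine this.congr_fderiv ?_
    ext w
    fin_cases i
    · simp only [Derivation.leibniz, smul_eq_mul, p00, p10, map_add, map_mul, map_one, map_zero, eval_X,
        ContinuousLinearMap.add_apply, ContinuousLinearMap.smul_apply, ContinuousLinearMap.proj_apply, Fin.zero_eta]
      ring
    · simp only [Derivation.leibniz, smul_eq_mul, p01, p11, map_add, map_mul, map_one, map_zero, eval_X,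
        ContinuousLinearMap.add_apply, ContinuousLinearMap.smul_apply, ContinuousLinearMap.proj_apply, Fin.mk_one]
      ring

lemma coeff_pd_hc (k : ℕ) (i : Fin 2) (F : RP) (d : Fin 2 →₀ ℕ) :
    coeff d (pderiv i (hc k F)) = if d 0 + d 1 + 1 = k then coeff d (pderiv i F) else 0 := by
  rw [coeff_pderiv, coeff_hc, coeff_pderiv]
  have e : (d + Finsupp.single i 1 : Fin 2 →₀ ℕ) 0 + (d + Finsupp.single i 1 : Fin 2 →₀ ℕ) 1 = d 0 + d 1 + 1 := by
    fin_cases i
    · simp; ring
    · simp; ring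
  rw [e]
  split_ifs <;> simp


end Run7.h256.U
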