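import Mathlib
import Pool.Agent.Run7.h256.Q4
import Pool.Agent.Run7.h256.W7
import Pool.Agent.Run7.h256.U1

set_option autoImplicit false

namespace Run7.h256

open U
open MvPolynomial ComplexConjugate

lemma uc_mul (F G : RP) : uc (F * G) = uc F * uc G := by unfold uc; rw [map_mul, Polynomial.map_mul]
lemma uc_add (F G : RP) : uc (F + G) = uc F + uc G := by unfold uc; rw [map_add, Polynomial.map_add]

lemma uc_der (F : RP) : Polynomial.derivative (uc F) = uc (pderiv 0 F) := by
  induction F using MvPolynomial.induction_on with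
  | C a => simp [uc, uu]
  | add p q hp hq => rw [uc_add, Polynomial.derivative_add, hp, hq, map_add, uc_add]
  | mul_X p i hp =>
    rw [uc_mul, Polynomial.derivative_mul, hp]
    fin_cases i
    · show uc (pderiv 0 p) * uc (X 0) + uc p * Polynomial.derivative (uc (X 0)) = uc (pderiv 0 (p * X 0))
      have h1 : pderiv 0 (p * X 0) = pderiv 0 p * X 0 + p := by
        rw [Derivation.leibniz, p00, smul_eq_mul, smul_eq_mul]; ring
      have h2 : uc (X 0) = Polynomial.X := by simp [uc, uu]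
      rw [h1, uc_add, uc_mul, h2, Polynomial.derivative_X, mul_one]
    · show uc (pderiv 0 p) * uc (X 1) + uc p * Polynomial.derivative (uc (X 1)) = uc (pderiv 0 (p * X 1))
      have h1 : pderiv 0 (p * X 1) = pderiv 0 p * X 1 := by
        rw [Derivation.leibniz, p01, smul_eq_mul, smul_eq_mul]; ring
      have h2 : uc (X 1) = 1 := by simp [uc, uu]
      rw [h1, uc_mul, h2, Polynomial.derivative_one, mul_zero, add_zero]

/-- the coefficient of the power of `x` -/
lemma uc_coeff {d : ℕ} {F : RP} (hF : F.IsHomogeneous d) : (uc F).coeff d = ((eval ![1, 0] F : ℝ) : ℂ) := by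
  have e : uu F = ∑ s ∈ F.support, Polynomial.C (coeff s F) * Polynomial.X ^ (s 0) := by
    conv_lhs => rw [F.as_sum]
    rw [map_sum]
    apply Finset.sum_congr rfl
    intro s _
    unfold uu
    rw [aeval_monomial, Finsupp.prod_fintype _ _ (fun i => pow_zero _), Fin.prod_univ_two]
    simp
  have e2 : eval ![1, 0] F = ∑ s ∈ F.support, coeff s F * 0 ^ (s 1) := by
    conv_lhs => rw [F.as_sum]
    rw [map_sum]
    apply Finset.sum_congr rfl
    intro s _
    rw [eval_monomial, Finsupp.prod_fintype _ _ (fun i => pow_zero _), Fin.prod_univ_two]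
    simp
  unfold uc
  rw [Polynomial.coeff_map, e, e2, Polynomial.finsetSum_coeff]
  show ((_ : ℝ) : ℂ) = _
  congr 1
  apply Finset.sum_congr rfl
  intro s hs
  rw [Polynomial.coeff_C_mul, Polynomial.coeff_X_pow]
  have h1 : s 0 + s 1 = d := by
    by_contra hne
    rw [mem_support_iff] at hs
    apply hs
    apply hF.coeff_eq_zero
    rw [Finsupp.degree_eq_sum, Fin.sum_univ_two]
    exact hne
  by_cases h2 : s 1 = 0
  · rw [if_pos (by omega), h2, pow_zero]
  · rw [if_neg (by omega), zero_pow h2]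

/-- forms with simple roots -/
theorem exists_Rt {m : ℕ} {h : RP} (hh : h.IsHomogeneous (m + 3)) (h10 : eval ![1, 0] h ≠ 0)
    (hs : ∀ ξ, ec ξ h = 0 → ec ξ (pderiv 0 h) ≠ 0) : ∃ R, Rt m h R := by
  classical
  obtain ⟨f, hf⟩ : ∃ f, f = uc h := ⟨_, rfl⟩
  have hdeg : f.natDegree = m + 3 := by
    apply le_antisymm
    · rw [hf]; exact uc_deg (homog_DG hh)
    · apply Polynomial.le_natDegree_of_ne_zero
      rw [hf, uc_coeff hh]
      exact_mod_cast h10
  have hf0 : f ≠ 0 := by
    rintro rfl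
    simp at hdeg
  have hsep : f.Separable := by
    unfold Polynomial.Separable
    rw [Polynomial.isCoprime_iff_aeval_ne_zero_of_isAlgClosed ℂ ℂ]
    intro ξ
    by_contra hc
    push Not at hc
    rw [Polynomial.coe_aeval_eq_eval, hf, uc_der, uc_eval, uc_eval] at hc
    exact hs ξ hc.1 hc.2
  have hnd := Polynomial.nodup_roots hsep
  have hcr : Multiset.card f.roots = f.natDegree := (Polynomial.splits_iff_card_roots.1 (IsAlgClosed.splits f))
  obtain ⟨R, hR⟩ : ∃ R : Finset ℂ, R.val = f.roots := ⟨⟨f.roots, hnd⟩, rfl⟩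
  have hRc : R.card = m + 3 := by rw [Finset.card_def, hR, hcr, hdeg]
  have hmem : ∀ ξ, ξ ∈ R ↔ ec ξ h = 0 := by
    intro ξ
    rw [← Finset.mem_val, hR, Polynomial.mem_roots hf0, Polynomial.IsRoot.def, hf, uc_eval]
  have hprod : f = Polynomial.C f.leadingCoeff * Lagrange.nodal R id := by
    have h1 := Polynomial.C_leadingCoeff_mul_prod_multiset_X_sub_C hcr
    rw [← hR] at h1
    conv_lhs => rw [← h1]
    rfl
  have hD : ∀ ξ ∈ R, ec ξ (pderiv 0 h) = f.leadingCoeff * ∏ η ∈ R.erase ξ, (id ξ - id η) := by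
    intro ξ hξ
    rw [← uc_eval, ← uc_der, ← hf]
    conv_lhs => rw [hprod]
    rw [Polynomial.derivative_C_mul, Polynomial.eval_C_mul]
    have h2 := Lagrange.eval_nodal_derivative_eval_node_eq (v := (id : ℂ → ℂ)) hξ
    have h2' : Polynomial.eval ξ (Polynomial.derivative (Lagrange.nodal R id)) =
        Polynomial.eval ξ (Lagrange.nodal (R.erase ξ) id) := h2
    rw [h2', Lagrange.eval_nodal]
    rfl
  have hlc : f.leadingCoeff ≠ 0 := Polynomial.leadingCoeff_ne_zero.2 hf0
  refine ⟨R, hh, hRc, hmem, fun ξ hξ => hs ξ ((hmem ξ).1 hξ), ?_⟩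
  intro G hG
  have h1 := Lagrange.coeff_eq_sum (s := R) (v := (id : ℂ → ℂ)) Function.injective_id.injOn (P := G) (by
    rw [hRc]
    refine lt_of_le_of_lt Polynomial.degree_le_natDegree ?_
    exact_mod_cast (by omega : G.natDegree < m + 3))
  rw [hRc] at h1
  have h2 : G.coeff (m + 3 - 1) = 0 := Polynomial.coeff_eq_zero_of_natDegree_lt (by omega)
  rw [h2] at h1
  have h3 : ∑ ξ ∈ R, G.eval ξ / ec ξ (pderiv 0 h) =
      (f.leadingCoeff)⁻¹ * ∑ i ∈ R, Polynomial.eval (id i) G / ∏ j ∈ R.erase i, (id i - id j) := by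
    rw [Finset.mul_sum]
    apply Finset.sum_congr rfl
    intro ξ hξ
    rw [hD ξ hξ, div_mul_eq_div_div, id, div_div, mul_comm f.leadingCoeff, ← div_div, div_eq_mul_inv _ f.leadingCoeff]
    ring
  rw [h3, ← h1, mul_zero]

/-- value at a complex point through the root line -/
lemma eval_cx_line {d : ℕ} {F : RP} (hF : F.IsHomogeneous d) {z : Fin 2 → ℂ} (hz : z 1 ≠ 0) :
    eval z (cx F) = z 1 ^ d * ec (z 0 / z 1) F := by
  have hF' : (cx F).IsHomogeneous d := by unfold cx; exact hF.map _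
  have h1 := eval_homog hF' (z 1) ![z 0 / z 1, 1]
  have e : (fun i => z 1 * (![z 0 / z 1, 1] : Fin 2 → ℂ) i) = z := by
    funext i
    fin_cases i
    · show z 1 * (z 0 / z 1) = z 0
      field_simp
    · show z 1 * 1 = z 1
      ring
  rw [e] at h1
  rw [h1]
  congr 1
  unfold cx ec
  rw [eval_map]
  rfl

/-- coprimality of the top forms -/
theorem En_of_Rt {m : ℕ} {P Q h : RP} {R : Finset ℂ} (hP : Dle (m + 2) P) (hQ : Dle (m + 2) Q) (r : Rt m h R)
    (h10 : eval ![1, 0] h ≠ 0) (e1 : hc (m + 2) P = pderiv 1 h) (e2 : hc (m + 2) Q = -pderiv 0 h) : En m P Q := by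
  refine ⟨hP, hQ, rel_of_zeros ?_⟩
  rintro z hz ⟨h1, h2⟩
  rw [e1] at h1
  rw [e2, cx_neg, map_neg, neg_eq_zero] at h2
  have h3 := congrArg (fun F => eval z (cx F)) (eulerk r.hh)
  simp only [cx_add, cx_mul, map_add, map_mul, cx_X, eval_X, h1, h2, mul_zero, add_zero] at h3
  have h4 : eval z (cx h) = 0 := by
    have h5 : cx (((m + 3 : ℕ) : RP)) = ((m + 3 : ℕ) : RR) := by unfold cx; exact map_natCast _ _
    rw [h5, map_natCast] at h3
    have h6 : ((m + 3 : ℕ) : ℂ) ≠ 0 := by exact_mod_cast (by omega : m + 3 ≠ 0)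
    exact (mul_eq_zero.1 h3.symm).resolve_left h6
  by_cases hz1 : z 1 = 0
  · have hz0 : z 0 ≠ 0 := by
      intro h0
      apply hz
      funext i
      fin_cases i
      · exact h0
      · exact hz1
    have hF' : (cx h).IsHomogeneous (m + 3) := by unfold cx; exact r.hh.map _
    have h7 := eval_homog hF' (z 0) (cp ![1, 0])
    have e : (fun i => z 0 * cp ![1, 0] i) = z := by
      funext i
      fin_cases i
      · show z 0 * ((1 : ℝ) : ℂ) = z 0
        push_cast; ring
      · show z 0 * ((0 : ℝ) : ℂ) = z 1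
        rw [hz1]; push_cast; ring
    rw [e, h4, eval_cx] at h7
    have := (mul_eq_zero.1 h7.symm).resolve_left (pow_ne_zero _ hz0)
    exact h10 (by exact_mod_cast this)
  · rw [eval_cx_line r.hh hz1] at h4
    rw [eval_cx_line (Rt.pd_homog r.hh 0) hz1] at h2
    have h8 := (mul_eq_zero.1 h4).resolve_left (pow_ne_zero _ hz1)
    have h9 := (mul_eq_zero.1 h2).resolve_left (pow_ne_zero _ hz1)
    exact r.D0 _ ((r.mem _).2 h8) h9

end Run7.h256
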