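import Mathlib
import Pool.Agent.Run7.h256.Q5
import Pool.Agent.Run7.h256.U1

set_option autoImplicit false

namespace Run7.h256

open U
open MvPolynomial ComplexConjugate Topology Metric Filter

/-- persistence of nondegenerate zeros -/
theorem persist_zero {P Q A B : RP} {s : Fin 2 → ℝ} (hP : eval s P = 0) (hQ : eval s Q = 0)
    (hJ : eval s (Jac P Q) ≠ 0) {U : Set (Fin 2 → ℝ)} (hU : U ∈ 𝓝 s) :
    ∀ᶠ ε in 𝓝 (0 : ℝ), ∃ z ∈ U, eval z (P + C ε * A) = 0 ∧ eval z (Q + C ε * B) = 0 := by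
  obtain ⟨DP, hDP⟩ : ∃ DP : (Fin 2 → ℝ) →L[ℝ] ℝ, DP = eval s (pderiv 0 P) • (ContinuousLinearMap.proj 0 : (Fin 2 → ℝ) →L[ℝ] ℝ) +
        eval s (pderiv 1 P) • (ContinuousLinearMap.proj 1 : (Fin 2 → ℝ) →L[ℝ] ℝ) := ⟨_, rfl⟩
  obtain ⟨DQ, hDQ⟩ : ∃ DQ : (Fin 2 → ℝ) →L[ℝ] ℝ, DQ = eval s (pderiv 0 Q) • (ContinuousLinearMap.proj 0 : (Fin 2 → ℝ) →L[ℝ] ℝ) +
        eval s (pderiv 1 Q) • (ContinuousLinearMap.proj 1 : (Fin 2 → ℝ) →L[ℝ] ℝ) := ⟨_, rfl⟩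
  have hp : HasFDerivAt (fun x : Fin 2 → ℝ => eval x P) DP s := by rw [hDP]; exact hasFDerivAt_eval P s
  have hq : HasFDerivAt (fun x : Fin 2 → ℝ => eval x Q) DQ s := by rw [hDQ]; exact hasFDerivAt_eval Q s
  have hcd : ∀ F : RP, ContDiff ℝ 1 (fun y : ℝ × (Fin 2 → ℝ) => eval y.2 F) := fun F =>
    (contDiff_eval F).comp contDiff_snd
  obtain ⟨Φ, hΦ⟩ : ∃ Φ : ℝ × (Fin 2 → ℝ) → ℝ × (ℝ × ℝ), Φ = fun y => (y.1, (eval y.2 P + y.1 * eval y.2 A,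
    eval y.2 Q + y.1 * eval y.2 B)) := ⟨_, rfl⟩
  have hcΦ : ContDiff ℝ 1 Φ := by
    rw [hΦ]
    exact contDiff_fst.prodMk (((hcd P).add (contDiff_fst.mul (hcd A))).prodMk ((hcd Q).add (contDiff_fst.mul (hcd B))))
  have hstr := hcΦ.contDiffAt.hasStrictFDerivAt (x := ((0 : ℝ), s)) (by norm_num)
  -- the derivative
  have part : ∀ (F G : RP) (DF : (Fin 2 → ℝ) →L[ℝ] ℝ), HasFDerivAt (fun x : Fin 2 → ℝ => eval x F) DF s →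
      HasFDerivAt (fun y : ℝ × (Fin 2 → ℝ) => eval y.2 F + y.1 * eval y.2 G)
        (DF ∘L (ContinuousLinearMap.snd ℝ ℝ (Fin 2 → ℝ)) + eval s G • (ContinuousLinearMap.fst ℝ ℝ (Fin 2 → ℝ))) (0, s) := by
    intro F G DF hF
    have h1 : HasFDerivAt (fun y : ℝ × (Fin 2 → ℝ) => eval y.2 F) (DF ∘L (ContinuousLinearMap.snd ℝ ℝ (Fin 2 → ℝ))) (0, s) :=
      HasFDerivAt.comp (x := ((0 : ℝ), s)) (g := fun x : Fin 2 → ℝ => eval x F) hF hasFDerivAt_snd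
    have h2 : HasFDerivAt (fun y : ℝ × (Fin 2 → ℝ) => eval y.2 G)
        ((eval s (pderiv 0 G) • (ContinuousLinearMap.proj 0 : (Fin 2 → ℝ) →L[ℝ] ℝ) +
        eval s (pderiv 1 G) • (ContinuousLinearMap.proj 1 : (Fin 2 → ℝ) →L[ℝ] ℝ)) ∘L (ContinuousLinearMap.snd ℝ ℝ (Fin 2 → ℝ))) (0, s) :=
      HasFDerivAt.comp (x := ((0 : ℝ), s)) (g := fun x : Fin 2 → ℝ => eval x G) (hasFDerivAt_eval G s) hasFDerivAt_snd
    have h3 := (hasFDerivAt_fst (𝕜 := ℝ) (p := ((0 : ℝ), s))).mul h2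
    refine (h1.add h3).congr_fderiv ?_
    simp
  have hder : HasFDerivAt Φ ((ContinuousLinearMap.fst ℝ ℝ (Fin 2 → ℝ)).prod
      ((DP ∘L (ContinuousLinearMap.snd ℝ ℝ (Fin 2 → ℝ)) + eval s A • (ContinuousLinearMap.fst ℝ ℝ (Fin 2 → ℝ))).prod
      (DQ ∘L (ContinuousLinearMap.snd ℝ ℝ (Fin 2 → ℝ)) + eval s B • (ContinuousLinearMap.fst ℝ ℝ (Fin 2 → ℝ))))) (0, s) := by
    rw [hΦ]
    exact hasFDerivAt_fst.prodMk ((part P A DP hp).prodMk (part Q B DQ hq))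
  rw [hder.fderiv] at hstr
  have hsurj : ((((ContinuousLinearMap.fst ℝ ℝ (Fin 2 → ℝ)).prod
      ((DP ∘L (ContinuousLinearMap.snd ℝ ℝ (Fin 2 → ℝ)) + eval s A • (ContinuousLinearMap.fst ℝ ℝ (Fin 2 → ℝ))).prod
      (DQ ∘L (ContinuousLinearMap.snd ℝ ℝ (Fin 2 → ℝ)) + eval s B • (ContinuousLinearMap.fst ℝ ℝ (Fin 2 → ℝ)))) :
      ℝ × (Fin 2 → ℝ) →L[ℝ] ℝ × (ℝ × ℝ))) : ℝ × (Fin 2 → ℝ) →ₗ[ℝ] ℝ × (ℝ × ℝ)).range = ⊤ := by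
    rw [LinearMap.range_eq_top]
    rintro ⟨τ, a, b⟩
    obtain ⟨p0, hp0⟩ : ∃ p0, p0 = eval s (pderiv 0 P) := ⟨_, rfl⟩
    obtain ⟨p1, hp1⟩ : ∃ p1, p1 = eval s (pderiv 1 P) := ⟨_, rfl⟩
    obtain ⟨q0, hq0⟩ : ∃ q0, q0 = eval s (pderiv 0 Q) := ⟨_, rfl⟩
    obtain ⟨q1, hq1⟩ : ∃ q1, q1 = eval s (pderiv 1 Q) := ⟨_, rfl⟩
    have hJ' : p0 * q1 - p1 * q0 ≠ 0 := by
      have : eval s (Jac P Q) = p0 * q1 - p1 * q0 := by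
        unfold Jac; rw [map_sub, map_mul, map_mul, hp0, hp1, hq0, hq1]
      rwa [this] at hJ
    obtain ⟨a', ha'⟩ : ∃ a', a' = a - τ * eval s A := ⟨_, rfl⟩
    obtain ⟨b', hb'⟩ : ∃ b', b' = b - τ * eval s B := ⟨_, rfl⟩
    refine ⟨(τ, ![(a' * q1 - b' * p1) / (p0 * q1 - p1 * q0), (b' * p0 - a' * q0) / (p0 * q1 - p1 * q0)]), ?_⟩
    rw [hDP, hDQ, ← hp0, ← hp1, ← hq0, ← hq1]
    have s1 : p0 * ((a' * q1 - b' * p1) / (p0 * q1 - p1 * q0)) + p1 * ((b' * p0 - a' * q0) / (p0 * q1 - p1 * q0)) = a' := by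
      rw [← mul_div_assoc, ← mul_div_assoc, ← add_div, div_eq_iff hJ']; ring
    have s2 : q0 * ((a' * q1 - b' * p1) / (p0 * q1 - p1 * q0)) + q1 * ((b' * p0 - a' * q0) / (p0 * q1 - p1 * q0)) = b' := by
      rw [← mul_div_assoc, ← mul_div_assoc, ← add_div, div_eq_iff hJ']; ring
    ext
    · simp
    · simp
      linear_combination s1 + ha'
    · simp
      linear_combination s2 + hb'
  have hmap := hstr.map_nhds_eq_of_surj hsurj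
  have hΦ0 : Φ (0, s) = (0, (0, 0)) := by
    rw [hΦ]; simp [hP, hQ]
  rw [hΦ0] at hmap
  have h1 : Φ '' (Set.univ ×ˢ U) ∈ 𝓝 ((0 : ℝ), ((0 : ℝ), (0 : ℝ))) := by
    rw [← hmap]
    exact image_mem_map (prod_mem_nhds univ_mem hU)
  have h2 : Tendsto (fun ε : ℝ => (ε, ((0 : ℝ), (0 : ℝ)))) (𝓝 0) (𝓝 ((0 : ℝ), ((0 : ℝ), (0 : ℝ)))) :=
    (Continuous.tendsto (by fun_prop) 0)
  filter_upwards [h2 h1] with ε hε
  obtain ⟨⟨ε', z⟩, ⟨_, hz⟩, he⟩ := hε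
  rw [hΦ] at he
  simp only [Prod.mk.injEq] at he
  obtain ⟨e1, e2, e3⟩ := he
  refine ⟨z, hz, ?_, ?_⟩
  · rw [map_add, map_mul, eval_C, ← e1]; exact e2
  · rw [map_add, map_mul, eval_C, ← e1]; exact e3

end Run7.h256
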