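import Mathlib
import Pool.Agent.Run7.h256.Q6
import Pool.Agent.Run7.h256.U1

set_option autoImplicit false

namespace Run7.h256

open U
open MvPolynomial ComplexConjugate Topology Metric Filter

/-- the perturbing form -/
noncomputable def eF (m : ℕ) : RP := X 0 ^ (m + 3) + X 1 ^ (m + 3)

lemma eF_homog (m : ℕ) : (eF m).IsHomogeneous (m + 3) := by
  unfold eF
  exact (isHomogeneous_X_pow 0 (m + 3)).add (isHomogeneous_X_pow 1 (m + 3))

lemma eF_0 (m : ℕ) : pderiv 0 (eF m) = C ((m : ℝ) + 3) * X 0 ^ (m + 2) := by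
  unfold eF
  rw [map_add, Derivation.leibniz_pow, Derivation.leibniz_pow, p00, p01]
  simp [nsmul_eq_mul]
  exact (map_ofNat C 3).symm

lemma ec_eF (m : ℕ) (ξ : ℂ) : ec ξ (eF m) = ξ ^ (m + 3) + 1 := by
  unfold eF
  rw [map_add, map_pow, map_pow, ec_X0, ec_X1, one_pow]

lemma ec_eF0 (m : ℕ) (ξ : ℂ) : ec ξ (pderiv 0 (eF m)) = ((m : ℂ) + 3) * ξ ^ (m + 2) := by
  rw [eF_0, map_mul, map_pow, ec_X0, ec_C]
  push_cast
  ring

lemma eF_ne (m : ℕ) (ξ : ℂ) (h : ec ξ (eF m) = 0) : ec ξ (pderiv 0 (eF m)) ≠ 0 := by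
  rw [ec_eF] at h
  rw [ec_eF0]
  have h1 : ξ ≠ 0 := by
    rintro rfl
    simp at h
  have h2 : ((m : ℂ) + 3) ≠ 0 := by exact_mod_cast (by omega : m + 3 ≠ 0)
  exact mul_ne_zero h2 (pow_ne_zero _ h1)

/-- only finitely many parameters are bad -/
theorem bad_finite {m : ℕ} {h0 : RP} (hh : h0.IsHomogeneous (m + 3)) :
    {ε : ℝ | ∃ ξ : ℂ, ec ξ h0 + (ε : ℂ) * ec ξ (eF m) = 0 ∧
      ec ξ (pderiv 0 h0) + (ε : ℂ) * ec ξ (pderiv 0 (eF m)) = 0}.Finite := by
  classical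
  obtain ⟨W, hW⟩ : ∃ W : Polynomial ℂ, W = uc h0 * uc (pderiv 0 (eF m)) - uc (pderiv 0 h0) * uc (eF m) := ⟨_, rfl⟩
  by_cases hW0 : W = 0
  · have h1 : uc (eF m) ∣ uc h0 := by
      have hcop : IsCoprime (uc (eF m)) (uc (pderiv 0 (eF m))) := by
        rw [Polynomial.isCoprime_iff_aeval_ne_zero_of_isAlgClosed ℂ ℂ]
        intro ξ
        by_contra hc
        push Not at hc
        rw [Polynomial.coe_aeval_eq_eval, uc_eval, uc_eval] at hc
        exact eF_ne m ξ hc.1 hc.2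
      apply hcop.dvd_of_dvd_mul_right
      refine ⟨uc (pderiv 0 h0), ?_⟩
      rw [hW0] at hW
      linear_combination -hW
    obtain ⟨k, hk⟩ := h1
    have hdegE : (uc (eF m)).natDegree = m + 3 := by
      apply le_antisymm
      · exact uc_deg (homog_DG (eF_homog m))
      · apply Polynomial.le_natDegree_of_ne_zero
        rw [uc_coeff (eF_homog m)]
        simp [eF]
    have hE0 : uc (eF m) ≠ 0 := by
      intro h0
      rw [h0] at hdegE
      simp at hdegE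
    have hkc : ∃ c, k = Polynomial.C c := by
      by_cases hk0 : k = 0
      · exact ⟨0, by rw [hk0, map_zero]⟩
      · have h2 : (uc h0).natDegree ≤ m + 3 := uc_deg (homog_DG hh)
        rw [hk, Polynomial.natDegree_mul hE0 hk0, hdegE] at h2
        exact ⟨_, Polynomial.eq_C_of_natDegree_eq_zero (by omega)⟩
    obtain ⟨c, hc⟩ := hkc
    have hk' : uc h0 = Polynomial.C c * uc (eF m) := by rw [hk, hc]; ring
    have hd' : uc (pderiv 0 h0) = Polynomial.C c * uc (pderiv 0 (eF m)) := by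
      rw [← uc_der, hk', Polynomial.derivative_C_mul, uc_der]
    apply Set.Subsingleton.finite
    have key : ∀ ε : ℝ, (∃ ξ : ℂ, ec ξ h0 + (ε : ℂ) * ec ξ (eF m) = 0 ∧
      ec ξ (pderiv 0 h0) + (ε : ℂ) * ec ξ (pderiv 0 (eF m)) = 0) → c + (ε : ℂ) = 0 := by
      rintro ε ⟨ξ, h2, h3⟩
      rw [← uc_eval h0, hk', Polynomial.eval_C_mul, uc_eval, ← add_mul] at h2
      rw [← uc_eval (pderiv 0 h0), hd', Polynomial.eval_C_mul, uc_eval, ← add_mul] at h3
      by_contra h4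
      exact eF_ne m ξ ((mul_eq_zero.1 h2).resolve_left h4) ((mul_eq_zero.1 h3).resolve_left h4)
    intro a ha b hb
    have h2 := key a ha
    have h3 := key b hb
    have : (a : ℂ) = b := by linear_combination h2 - h3
    exact_mod_cast this
  · have hsub : {ε : ℝ | ∃ ξ : ℂ, ec ξ h0 + (ε : ℂ) * ec ξ (eF m) = 0 ∧
      ec ξ (pderiv 0 h0) + (ε : ℂ) * ec ξ (pderiv 0 (eF m)) = 0} ⊆
        ⋃ ξ ∈ W.roots.toFinset, {ε : ℝ | ec ξ h0 + (ε : ℂ) * ec ξ (eF m) = 0 ∧
      ec ξ (pderiv 0 h0) + (ε : ℂ) * ec ξ (pderiv 0 (eF m)) = 0} := by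
      rintro ε ⟨ξ, h2, h3⟩
      rw [Set.mem_iUnion₂]
      refine ⟨ξ, ?_, h2, h3⟩
      rw [Multiset.mem_toFinset, Polynomial.mem_roots hW0, Polynomial.IsRoot.def, hW, Polynomial.eval_sub,
        Polynomial.eval_mul, Polynomial.eval_mul, uc_eval, uc_eval, uc_eval, uc_eval]
      linear_combination ec ξ (pderiv 0 (eF m)) * h2 - ec ξ (eF m) * h3
    refine Set.Finite.subset (Set.Finite.biUnion (Finset.finite_toSet _) ?_) hsub
    intro ξ _
    apply Set.Subsingleton.finite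
    intro a ha b hb
    have h2 : ((a : ℂ) - b) * ec ξ (eF m) = 0 := by linear_combination ha.1 - hb.1
    have h3 : ((a : ℂ) - b) * ec ξ (pderiv 0 (eF m)) = 0 := by linear_combination ha.2 - hb.2
    by_contra hne
    have h4 : (a : ℂ) - b ≠ 0 := by
      intro h5
      apply hne
      have : (a : ℂ) = b := by linear_combination h5
      exact_mod_cast this
    exact eF_ne m ξ ((mul_eq_zero.1 h2).resolve_left h4) ((mul_eq_zero.1 h3).resolve_left h4)

/-- the potential of the top forms -/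
lemma top_pot {m : ℕ} {P Q : RP} (hK : Dle m (pderiv 0 P + pderiv 1 Q)) : ∃ h0 : RP, h0.IsHomogeneous (m + 3) ∧
    pderiv 1 h0 = hc (m + 2) P ∧ pderiv 0 h0 = -hc (m + 2) Q := by
  have hpq : pderiv 0 (hc (m + 2) P) + pderiv 1 (hc (m + 2) Q) = 0 := by
    ext d
    rw [coeff_add, coeff_pd_hc, coeff_pd_hc, coeff_zero]
    split_ifs with h1
    · have := Dle_iff.1 hK d (by omega)
      rw [coeff_add] at this
      exact this
    · ring
  have e1 := eulerk (hc_homog (m + 2) P)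
  have e2 := eulerk (hc_homog (m + 2) Q)
  obtain ⟨ν, hν⟩ : ∃ ν : ℝ, ν = ((m : ℝ) + 3)⁻¹ := ⟨_, rfl⟩
  have hm3 : ((m : ℝ) + 3) ≠ 0 := by positivity
  have hν1 : (C ν : RP) * ((m : RP) + 3) = 1 := by
    have : ((m : RP) + 3) = C ((m : ℝ) + 3) := by
      rw [C_add, map_natCast]
      congr 1
    rw [this, ← C_mul, hν, inv_mul_cancel₀ hm3, C_1]
  push_cast at e1 e2
  refine ⟨C ν * (X 1 * hc (m + 2) P - X 0 * hc (m + 2) Q), ?_, ?_, ?_⟩
  · have a1 := (isHomogeneous_X ℝ (1 : Fin 2)).mul (hc_homog (m + 2) P)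
    have a2 := (isHomogeneous_X ℝ (0 : Fin 2)).mul (hc_homog (m + 2) Q)
    rw [show 1 + (m + 2) = m + 3 by ring] at a1 a2
    exact (a1.sub a2).C_mul ν
  · simp only [Derivation.leibniz, smul_eq_mul, map_sub, pderiv_C, p10, p11]
    linear_combination (C ν) * e1 + hc (m + 2) P * hν1 - C ν * X 0 * hpq
  · simp only [Derivation.leibniz, smul_eq_mul, map_sub, pderiv_C, p00, p01]
    linear_combination (-C ν) * e2 - hc (m + 2) Q * hν1 + C ν * X 1 * hpq

end Run7.h256
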