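import Mathlib
import Pool.Agent.Run7.h256.Q7
import Pool.Agent.Run7.h256.Top

set_option autoImplicit false

namespace Run7.h256

open MvPolynomial ComplexConjugate Topology Metric Filter

lemma hc_addn (n : ℕ) (F G : RP) : hc n (F + G) = hc n F + hc n G := by unfold hc; exact map_add _ _ _

lemma Jac_pert (P Q A B : RP) (ε : ℝ) : Jac (P + C ε * A) (Q + C ε * B) =
    Jac P Q + C ε * (Jac P B + Jac A Q) + C (ε ^ 2) * Jac A B := by
  unfold Jac
  simp only [map_add, Derivation.leibniz, smul_eq_mul, pderiv_C, C_pow]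
  ring

/-- positivity of the Jacobian persists -/
lemma persist_pos {P Q A B : RP} {s : Fin 2 → ℝ} (hJ : 0 < eval s (Jac P Q)) :
    ∃ U ∈ 𝓝 s, ∀ᶠ ε in 𝓝 (0 : ℝ), ∀ z ∈ U, 0 < eval z (Jac (P + C ε * A) (Q + C ε * B)) := by
  have hc : Continuous (fun y : ℝ × (Fin 2 → ℝ) => eval y.2 (Jac (P + C y.1 * A) (Q + C y.1 * B))) := by
    have ce : ∀ F : RP, Continuous (fun y : ℝ × (Fin 2 → ℝ) => eval y.2 F) := fun F =>
      (contDiff_eval F).continuous.comp continuous_snd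
    have e : (fun y : ℝ × (Fin 2 → ℝ) => eval y.2 (Jac (P + C y.1 * A) (Q + C y.1 * B))) =
        fun y => eval y.2 (Jac P Q) + y.1 * (eval y.2 (Jac P B + Jac A Q)) + y.1 ^ 2 * eval y.2 (Jac A B) := by
      funext y
      rw [Jac_pert, map_add, map_add, map_mul, map_mul, eval_C, eval_C]
    rw [e]
    exact ((ce _).add (continuous_fst.mul (ce _))).add ((continuous_fst.pow 2).mul (ce _))
  have h1 : 0 < eval ((0 : ℝ), s).2 (Jac (P + C ((0 : ℝ), s).1 * A) (Q + C ((0 : ℝ), s).1 * B)) := by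
    simp only [C_0, zero_mul, add_zero]
    exact hJ
  have h2 : ∀ᶠ y in 𝓝 ((0 : ℝ), s), 0 < eval y.2 (Jac (P + C y.1 * A) (Q + C y.1 * B)) :=
    hc.continuousAt.eventually (lt_mem_nhds h1)
  rw [nhds_prod_eq, Filter.eventually_prod_iff] at h2
  obtain ⟨pa, hpa, pb, hpb, hab⟩ := h2
  refine ⟨{z | pb z}, hpb, ?_⟩
  filter_upwards [hpa] with ε hε z hz
  exact hab hε hz

/-- finite sets are avoided by small positive numbers -/
lemma avoid {B : Set ℝ} (hB : B.Finite) : ∀ᶠ ε in 𝓝[>] (0 : ℝ), ε ∉ B := by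
  have h1 : (B \ {0}).Finite := hB.subset Set.diff_subset
  have h2 : ∀ᶠ ε in 𝓝 (0 : ℝ), ε ∉ B \ {0} := h1.isClosed.isOpen_compl.mem_nhds (by simp)
  filter_upwards [h2.filter_mono nhdsWithin_le_nhds, self_mem_nhdsWithin] with ε h3 h4 h5
  exact h3 ⟨h5, (ne_of_gt h4)⟩

/-- the bound on zeros with positive Jacobian when the top forms are divergence free -/
theorem zeros_bound {m : ℕ} {P Q : RP} (hP : Dle (m + 2) P) (hQ : Dle (m + 2) Q)
    (hK : Dle m (pderiv 0 P + pderiv 1 Q)) {S : Finset (Fin 2 → ℝ)}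
    (hz : ∀ s ∈ S, eval s P = 0 ∧ eval s Q = 0) (hJ : ∀ s ∈ S, 0 < eval s (Jac P Q)) :
    2 * S.card ≤ (m + 2) ^ 2 + 1 := by
  classical
  obtain ⟨h0, hh0, e1, e2⟩ := top_pot hK
  obtain ⟨A, hA⟩ : ∃ A, A = pderiv 1 (eF m) := ⟨_, rfl⟩
  obtain ⟨B, hB⟩ : ∃ B, B = -pderiv 0 (eF m) := ⟨_, rfl⟩
  have hAh : A.IsHomogeneous (m + 2) := by rw [hA]; exact Rt.pd_homog (eF_homog m) 1
  have hBh : B.IsHomogeneous (m + 2) := by rw [hB]; exact (Rt.pd_homog (eF_homog m) 0).neg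
  obtain ⟨U, hU, hUd⟩ := (S : Set (Fin 2 → ℝ)).toFinite.t2_separation
  have hex : ∀ s ∈ S, ∀ᶠ ε in 𝓝 (0 : ℝ), ∃ z ∈ U s, (eval z (P + C ε * A) = 0 ∧ eval z (Q + C ε * B) = 0) ∧
      0 < eval z (Jac (P + C ε * A) (Q + C ε * B)) := by
    intro s hs
    obtain ⟨V, hV, hpos⟩ := persist_pos (A := A) (B := B) (hJ s hs)
    have h1 := persist_zero (A := A) (B := B) (hz s hs).1 (hz s hs).2 (hJ s hs).ne'
      (Filter.inter_mem hV ((hU s).2.mem_nhds (hU s).1))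
    filter_upwards [h1, hpos] with ε h2 h3
    obtain ⟨z, ⟨hz1, hz2⟩, h4, h5⟩ := h2
    exact ⟨z, hz2, ⟨h4, h5⟩, h3 z hz1⟩
  have hex' : ∀ᶠ ε in 𝓝 (0 : ℝ), ∀ s ∈ S, ∃ z ∈ U s, (eval z (P + C ε * A) = 0 ∧ eval z (Q + C ε * B) = 0) ∧
      0 < eval z (Jac (P + C ε * A) (Q + C ε * B)) := (Filter.eventually_all_finset S).2 hex
  have hbad := bad_finite hh0
  have hbad2 : {ε : ℝ | eval ![1, 0] (h0 + C ε * eF m) = 0}.Finite := by
    apply Set.Subsingleton.finite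
    intro a ha b hb
    have h1 : eval ![1, 0] (eF m) = 1 := by simp [eF]
    have ha' : eval ![1, 0] (h0 + C a * eF m) = 0 := ha
    have hb' : eval ![1, 0] (h0 + C b * eF m) = 0 := hb
    rw [map_add, map_mul, eval_C, h1] at ha' hb'
    linarith
  obtain ⟨ε, ⟨hε1, hε2⟩, hε3⟩ := (((avoid hbad).and (avoid hbad2)).and
    (hex'.filter_mono nhdsWithin_le_nhds)).exists
  obtain ⟨h, hh⟩ : ∃ h, h = h0 + C ε * eF m := ⟨_, rfl⟩
  have hhh : h.IsHomogeneous (m + 3) := by rw [hh]; exact hh0.add ((eF_homog m).C_mul ε)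
  have h10 : eval ![1, 0] h ≠ 0 := by
    intro h1
    apply hε2
    show eval ![1, 0] (h0 + C ε * eF m) = 0
    rw [← hh]; exact h1
  have hs : ∀ ξ, ec ξ h = 0 → ec ξ (pderiv 0 h) ≠ 0 := by
    intro ξ h1 h2
    apply hε1
    refine ⟨ξ, ?_, ?_⟩
    · rw [hh, map_add, map_mul, ec_C] at h1
      exact h1
    · rw [hh, map_add, Derivation.leibniz, pderiv_C, smul_zero, add_zero, smul_eq_mul, map_add, map_mul, ec_C] at h2
      exact h2
  obtain ⟨R, r⟩ := exists_Rt hhh h10 hs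
  obtain ⟨P', hP'⟩ : ∃ P', P' = P + C ε * A := ⟨_, rfl⟩
  obtain ⟨Q', hQ'⟩ : ∃ Q', Q' = Q + C ε * B := ⟨_, rfl⟩
  rw [← hP', ← hQ'] at hε3
  have dP : Dle (m + 2) P' := by
    rw [hP']; exact hP.add ((Dle.C (n := 0) _).mul (homog_DG hAh) (by omega))
  have dQ : Dle (m + 2) Q' := by
    rw [hQ']; exact hQ.add ((Dle.C (n := 0) _).mul (homog_DG hBh) (by omega))
  have t1 : hc (m + 2) P' = pderiv 1 h := by
    rw [hP', hc_addn, hc_self (hAh.C_mul ε), hh, map_add, e1, Derivation.leibniz, pderiv_C, smul_zero, add_zero,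
      smul_eq_mul, hA]
  have t2 : hc (m + 2) Q' = -pderiv 0 h := by
    rw [hQ', hc_addn, hc_self (hBh.C_mul ε), hh, map_add, e2, Derivation.leibniz, pderiv_C, smul_zero, add_zero,
      smul_eq_mul, hB]
    ring
  have hen : En m P' Q' := En_of_Rt dP dQ r h10 t1 t2
  choose! z hzU hz0 hzJ using hε3
  rcases S.eq_empty_or_nonempty with hS | hS
  · rw [hS]; simp
  · have hinj : Set.InjOn z S := by
      intro s hs' t ht hst
      by_contra hne
      have h1 := hUd hs' ht hne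
      exact (Set.disjoint_left.1 h1) (hzU s hs') (by rw [hst]; exact hzU t ht)
    obtain ⟨L, Δ, hp⟩ := exists_Pn hen (S := S.image z) (hS.image z) (by
      intro y hy
      obtain ⟨s, hs', rfl⟩ := Finset.mem_image.1 hy
      exact hz0 s hs') (by
      intro y hy
      obtain ⟨s, hs', rfl⟩ := Finset.mem_image.1 hy
      exact hzJ s hs')
    have := ham_gen hp r t1 t2
    rwa [Finset.card_image_of_injOn hinj] at this

/-- nondegenerate centres of systems whose divergence has degree at most `n - 2` -/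
theorem centers_bound (n : ℕ) (P Q : RP) (hP : P.totalDegree ≤ n) (hQ : Q.totalDegree ≤ n)
    (hK : (pderiv 0 P + pderiv 1 Q).totalDegree + 2 ≤ n) :
    2 * {p : Fin 2 → ℝ | IsCenter P Q p ∧ eval p (Jac P Q) ≠ 0}.encard ≤ ((n ^ 2 + 1 : ℕ) : ℕ∞) := by
  obtain ⟨m, rfl⟩ : ∃ m, n = m + 2 := ⟨n - 2, by omega⟩
  have hK' : Dle m (pderiv 0 P + pderiv 1 Q) := by unfold Dle; omega
  have hb : ∀ S : Finset (Fin 2 → ℝ), (∀ s ∈ S, IsCenter P Q s ∧ eval s (Jac P Q) ≠ 0) →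
      2 * S.card ≤ (m + 2) ^ 2 + 1 := by
    intro S hS
    apply zeros_bound hP hQ hK'
    · intro s hs
      exact ⟨(hS s hs).1.1, (hS s hs).1.2.1⟩
    · intro s hs
      have h1 := (hS s hs).1
      exact (center_cx h1.1 h1.2.1 (hS s hs).2 h1.smallAt).1
  have hfin : {p : Fin 2 → ℝ | IsCenter P Q p ∧ eval p (Jac P Q) ≠ 0}.Finite := by
    by_contra hinf
    obtain ⟨T, hT, hTc⟩ := Set.Infinite.exists_subset_card_eq hinf ((m + 2) ^ 2 + 1)
    have h2 := hb T (fun s hs => hT hs)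
    have h3 : 0 < (m + 2) ^ 2 + 1 := by positivity
    omega
  rw [hfin.encard_eq_coe_toFinset_card]
  have := hb hfin.toFinset (fun s hs => hfin.mem_toFinset.1 hs)
  exact_mod_cast this

end Run7.h256
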