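import Mathlib
import Pool.Agent.Run7.h256.N2

set_option autoImplicit false

namespace Run7.h256

open Topology Metric Filter

/-- antiderivative of a real polynomial -/
lemma exists_anti (f : Polynomial ℝ) : ∃ G : Polynomial ℝ, Polynomial.derivative G = f := by
  induction f using Polynomial.induction_on' with
  | add p q hp hq =>
    obtain ⟨G1, h1⟩ := hp
    obtain ⟨G2, h2⟩ := hq
    exact ⟨G1 + G2, by rw [Polynomial.derivative_add, h1, h2]⟩
  | monomial n a =>
    refine ⟨Polynomial.monomial (n + 1) (a / ((n : ℝ) + 1)), ?_⟩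
    rw [Polynomial.derivative_monomial]
    have : ((n : ℝ) + 1) ≠ 0 := by positivity
    congr 1
    push_cast
    field_simp

/-- one dimensional data at a simple zero of a polynomial -/
theorem crd_poly (f : Polynomial ℝ) {a : ℝ} (ha : f.eval a = 0) (hp : 0 < (Polynomial.derivative f).eval a) :
    ∃ ρ X X' σ N, Crd (fun u => f.eval u) a ρ X X' σ N := by
  obtain ⟨G, hG⟩ := exists_anti f
  obtain ⟨G1, hG1⟩ : ∃ G1 : Polynomial ℝ, G1 = G - Polynomial.C (G.eval a) := ⟨_, rfl⟩
  have hd1 : Polynomial.derivative G1 = f := by rw [hG1]; simp [hG]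
  have h0 : G1.eval a = 0 := by rw [hG1]; simp
  obtain ⟨k, hk⟩ : Polynomial.X - Polynomial.C a ∣ G1 := Polynomial.dvd_iff_isRoot.2 h0
  have hk1 : Polynomial.derivative G1 = k + (Polynomial.X - Polynomial.C a) * Polynomial.derivative k := by
    rw [hk]; simp [Polynomial.derivative_mul]
  have hk0 : k.eval a = 0 := by
    have h1 := congrArg (Polynomial.eval a) hk1
    rw [hd1, ha] at h1
    simp at h1
    linarith
  obtain ⟨l, hl⟩ : Polynomial.X - Polynomial.C a ∣ k := Polynomial.dvd_iff_isRoot.2 hk0
  have hkd : Polynomial.derivative k = l + (Polynomial.X - Polynomial.C a) * Polynomial.derivative l := by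
    rw [hl]; simp [Polynomial.derivative_mul]
  have hf2 : f = Polynomial.C 2 * (Polynomial.X - Polynomial.C a) * l +
      (Polynomial.X - Polynomial.C a) ^ 2 * Polynomial.derivative l := by
    rw [← hd1, hk1, hkd, hl]
    have : (Polynomial.C 2 : Polynomial ℝ) = 2 := rfl
    rw [this]; ring
  have hla : (Polynomial.derivative f).eval a = 2 * l.eval a := by
    rw [hf2]
    simp [Polynomial.derivative_mul, Polynomial.derivative_pow]
  have hlp : 0 < l.eval a := by rw [hla] at hp; linarith
  refine exists_crd (h := fun x => l.eval x) ?_ ?_ hlp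
  · intro x
    have h1 : HasDerivAt (fun x : ℝ => (x - a) ^ 2) (2 * (x - a)) x := by
      have := ((hasDerivAt_id x).sub_const a).pow 2
      refine this.congr_deriv ?_
      simp
    refine (h1.mul (l.hasDerivAt x)).congr_deriv ?_
    rw [hf2]
    simp
  · simpa [Polynomial.coe_aeval_eq_eval] using l.contDiff_aeval (𝕜 := ℝ) 1

end Run7.h256
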