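import Mathlib
import Pool.Agent.Run7.h256.R1
import Pool.Agent.Run7.h256.Q8

set_option autoImplicit false

namespace Run7.h256

open MvPolynomial Topology Metric Filter

/-- a univariate polynomial in the variable `i` -/
noncomputable def up (i : Fin 2) (f : Polynomial ℝ) : RP := Polynomial.aeval (X i) f

lemma up_monomial (i : Fin 2) (n : ℕ) (a : ℝ) : up i (Polynomial.monomial n a) = C a * X i ^ n := by
  unfold up
  rw [Polynomial.aeval_monomial]
  rfl

lemma up_add (i : Fin 2) (f g : Polynomial ℝ) : up i (f + g) = up i f + up i g := by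
  unfold up; rw [map_add]

lemma up_eval (i : Fin 2) (f : Polynomial ℝ) (p : Fin 2 → ℝ) : eval p (up i f) = f.eval (p i) := by
  induction f using Polynomial.induction_on' with
  | add p q hp hq => rw [up_add, map_add, hp, hq, Polynomial.eval_add]
  | monomial n a => rw [up_monomial, map_mul, eval_C, map_pow, eval_X, Polynomial.eval_monomial]

lemma up_pd (i : Fin 2) (f : Polynomial ℝ) : pderiv i (up i f) = up i (Polynomial.derivative f) := by
  induction f using Polynomial.induction_on' with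
  | add p q hp hq => rw [up_add, map_add, hp, hq, Polynomial.derivative_add, up_add]
  | monomial n a =>
    rw [up_monomial, Polynomial.derivative_monomial, up_monomial, Derivation.leibniz, Derivation.leibniz_pow,
      pderiv_C, pderiv_X_self]
    simp only [smul_eq_mul, mul_one, mul_zero, add_zero, nsmul_eq_mul, C_mul, map_natCast]
    ring

lemma up_pd_ne {i j : Fin 2} (h : i ≠ j) (f : Polynomial ℝ) : pderiv j (up i f) = 0 := by
  induction f using Polynomial.induction_on' with
  | add p q hp hq => rw [up_add, map_add, hp, hq, add_zero]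
  | monomial n a =>
    rw [up_monomial, Derivation.leibniz, Derivation.leibniz_pow, pderiv_C, pderiv_X_of_ne h]
    simp

lemma up_coeff (i : Fin 2) (f : Polynomial ℝ) (k : ℕ) : coeff (Finsupp.single i k) (up i f) = f.coeff k := by
  induction f using Polynomial.induction_on' with
  | add p q hp hq => rw [up_add, coeff_add, hp, hq, Polynomial.coeff_add]
  | monomial n a =>
    rw [up_monomial, coeff_C_mul, coeff_X_pow, Polynomial.coeff_monomial]
    by_cases h : n = k
    · rw [if_pos h, if_pos (by rw [h]), mul_one]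
    · rw [if_neg h, if_neg, mul_zero]
      intro h1
      apply h
      have := DFunLike.congr_fun h1 i
      simpa using this

lemma up_deg (i : Fin 2) (f : Polynomial ℝ) : (up i f).totalDegree = f.natDegree := by
  apply le_antisymm
  · have e : up i f = ∑ k ∈ Finset.range (f.natDegree + 1), C (f.coeff k) * X i ^ k := by
      conv_lhs => rw [f.as_sum_range_C_mul_X_pow]
      unfold up
      rw [map_sum]
      apply Finset.sum_congr rfl
      intro k _
      rw [map_mul, map_pow, Polynomial.aeval_X, Polynomial.aeval_C]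
      rfl
    rw [e]
    refine le_trans (totalDegree_finsetSum _ _) (Finset.sup_le ?_)
    intro k hk
    rw [Finset.mem_range] at hk
    refine (totalDegree_mul _ _).trans ?_
    rw [totalDegree_C, zero_add]
    exact ((isHomogeneous_X_pow i k).totalDegree_le).trans (by omega)
  · by_cases hf : f = 0
    · rw [hf]; simp
    · have hm : Finsupp.single i f.natDegree ∈ (up i f).support := by
        rw [mem_support_iff, up_coeff]
        exact Polynomial.leadingCoeff_ne_zero.2 hf
      have := le_totalDegree hm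
      rwa [Finsupp.sum_single_index rfl] at this

/-- the polynomial with zeros `0, …, n-1` -/
noncomputable def ff (n : ℕ) : Polynomial ℝ := Lagrange.nodal (Finset.range n) (fun k : ℕ => (k : ℝ))

lemma ff_zero {n k : ℕ} (hk : k ∈ Finset.range n) : (ff n).eval (k : ℝ) = 0 :=
  Lagrange.eval_nodal_at_node (v := fun k : ℕ => (k : ℝ)) hk

lemma ff_der {n k : ℕ} (hk : k ∈ Finset.range n) : (Polynomial.derivative (ff n)).eval (k : ℝ) ≠ 0 := by
  have h2 : Polynomial.eval (k : ℝ) (Polynomial.derivative (Lagrange.nodal (Finset.range n) (fun k : ℕ => (k : ℝ)))) =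
      Polynomial.eval (k : ℝ) (Lagrange.nodal ((Finset.range n).erase k) (fun k : ℕ => (k : ℝ))) :=
    Lagrange.eval_nodal_derivative_eval_node_eq (v := fun k : ℕ => (k : ℝ)) hk
  unfold ff
  rw [h2, Lagrange.eval_nodal, Finset.prod_ne_zero_iff]
  intro j hj
  have h3 := (Finset.mem_erase.1 hj).1
  rw [sub_ne_zero]
  intro h4
  exact h3 (by exact_mod_cast h4.symm)

/-- the example -/
theorem ex_center {n i j : ℕ} (hi : i ∈ Finset.range n) (hj : j ∈ Finset.range n)
    (h : (0 < (Polynomial.derivative (ff n)).eval (i : ℝ) ∧ 0 < (Polynomial.derivative (ff n)).eval (j : ℝ)) ∨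
      ((Polynomial.derivative (ff n)).eval (i : ℝ) < 0 ∧ (Polynomial.derivative (ff n)).eval (j : ℝ) < 0)) :
    IsCenter (up 1 (ff n)) (-up 0 (ff n)) ![(i : ℝ), (j : ℝ)] := by
  rcases h with ⟨h1, h2⟩ | ⟨h1, h2⟩
  · obtain ⟨ρ₁, X, X', σ, N, hX⟩ := crd_poly (ff n) (ff_zero hi) h1
    obtain ⟨ρ₂, Y, Y', τ, M, hY⟩ := crd_poly (ff n) (ff_zero hj) h2
    apply center_sep hX hY
    · intro p; rw [up_eval]
    · intro p; rw [map_neg, up_eval]
  · have z1 : (-ff n).eval (i : ℝ) = 0 := by rw [Polynomial.eval_neg, ff_zero hi, neg_zero]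
    have z2 : (-ff n).eval (j : ℝ) = 0 := by rw [Polynomial.eval_neg, ff_zero hj, neg_zero]
    obtain ⟨ρ₁, X, X', σ, N, hX⟩ := crd_poly (-ff n) z1 (by
      rw [Polynomial.derivative_neg, Polynomial.eval_neg]; linarith)
    obtain ⟨ρ₂, Y, Y', τ, M, hY⟩ := crd_poly (-ff n) z2 (by
      rw [Polynomial.derivative_neg, Polynomial.eval_neg]; linarith)
    apply IsCenter.rev
    apply center_sep hX hY
    · intro p; rw [map_neg, up_eval, Polynomial.eval_neg]
    · intro p; rw [map_neg, map_neg, up_eval, Polynomial.eval_neg]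

theorem ex_count (n : ℕ) : (((n ^ 2 + 1) / 2 : ℕ) : ℕ∞) ≤
    {p : Fin 2 → ℝ | IsCenter (up 1 (ff n)) (-up 0 (ff n)) p ∧
      eval p (Jac (up 1 (ff n)) (-up 0 (ff n))) ≠ 0}.encard := by
  classical
  obtain ⟨A, hA⟩ : ∃ A, A = (Finset.range n).filter (fun k : ℕ => 0 < (Polynomial.derivative (ff n)).eval (k : ℝ)) := ⟨_, rfl⟩
  obtain ⟨B, hB⟩ : ∃ B, B = (Finset.range n).filter (fun k : ℕ => (Polynomial.derivative (ff n)).eval (k : ℝ) < 0) := ⟨_, rfl⟩
  have hAB : A.card + B.card = n := by
    have hd : Disjoint A B := by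
      rw [Finset.disjoint_left]
      intro k h1 h2
      rw [hA, Finset.mem_filter] at h1
      rw [hB, Finset.mem_filter] at h2
      linarith [h1.2, h2.2]
    have hu : A ∪ B = Finset.range n := by
      ext k
      rw [Finset.mem_union, hA, hB, Finset.mem_filter, Finset.mem_filter]
      constructor
      · rintro (h1 | h1) <;> exact h1.1
      · intro h1
        rcases lt_or_gt_of_ne (ff_der h1) with h2 | h2
        · right; exact ⟨h1, h2⟩
        · left; exact ⟨h1, h2⟩
    rw [← Finset.card_union_of_disjoint hd, hu, Finset.card_range]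
  obtain ⟨g, hg⟩ : ∃ g : ℕ × ℕ → Fin 2 → ℝ, g = fun x => ![(x.1 : ℝ), (x.2 : ℝ)] := ⟨_, rfl⟩
  have hinj : Function.Injective g := by
    rintro ⟨a, b⟩ ⟨c, d⟩ h
    rw [hg] at h
    have e0 := congrFun h 0
    have e1 := congrFun h 1
    simp only [Matrix.cons_val_zero, Matrix.cons_val_one] at e0 e1
    exact Prod.ext (by exact_mod_cast e0) (by exact_mod_cast e1)
  have hsub : (((A ×ˢ A ∪ B ×ˢ B).image g : Finset (Fin 2 → ℝ)) : Set (Fin 2 → ℝ)) ⊆
      {p : Fin 2 → ℝ | IsCenter (up 1 (ff n)) (-up 0 (ff n)) p ∧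
      eval p (Jac (up 1 (ff n)) (-up 0 (ff n))) ≠ 0} := by
    intro p hp
    rw [Finset.mem_coe, Finset.mem_image] at hp
    obtain ⟨⟨i, j⟩, hij, rfl⟩ := hp
    rw [Finset.mem_union, Finset.mem_product, Finset.mem_product, hA, hB, Finset.mem_filter, Finset.mem_filter,
      Finset.mem_filter, Finset.mem_filter] at hij
    have hij' : i ∈ Finset.range n ∧ j ∈ Finset.range n ∧
      ((0 < (Polynomial.derivative (ff n)).eval (i : ℝ) ∧ 0 < (Polynomial.derivative (ff n)).eval (j : ℝ)) ∨
      ((Polynomial.derivative (ff n)).eval (i : ℝ) < 0 ∧ (Polynomial.derivative (ff n)).eval (j : ℝ) < 0)) := by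
      rcases hij with ⟨h1, h2⟩ | ⟨h1, h2⟩
      · exact ⟨h1.1, h2.1, Or.inl ⟨h1.2, h2.2⟩⟩
      · exact ⟨h1.1, h2.1, Or.inr ⟨h1.2, h2.2⟩⟩
    rw [hg]
    refine ⟨ex_center hij'.1 hij'.2.1 hij'.2.2, ?_⟩
    unfold Jac
    rw [map_neg, map_neg, up_pd_ne (by decide : (1 : Fin 2) ≠ 0), up_pd, up_pd, zero_mul, zero_sub, map_neg, map_mul,
      map_neg, up_eval, up_eval]
    simp only [Matrix.cons_val_zero, Matrix.cons_val_one]
    have h1 := ff_der hij'.1
    have h2 := ff_der hij'.2.1
    intro h3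
    have h4 : Polynomial.eval (j : ℝ) (Polynomial.derivative (ff n)) * Polynomial.eval (i : ℝ) (Polynomial.derivative (ff n)) = 0 := by
      linear_combination h3
    rcases mul_eq_zero.1 h4 with h5 | h5
    · exact h2 h5
    · exact h1 h5
  refine le_trans ?_ (Set.encard_le_encard hsub)
  rw [Set.encard_coe_eq_coe_finsetCard, Finset.card_image_of_injective _ hinj]
  have hdd : Disjoint (A ×ˢ A) (B ×ˢ B) := by
    rw [Finset.disjoint_left]
    rintro ⟨i, j⟩ h1 h2
    rw [Finset.mem_product, hA, Finset.mem_filter] at h1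
    rw [Finset.mem_product, hB, Finset.mem_filter] at h2
    linarith [h1.1.2, h2.1.2]
  rw [Finset.card_union_of_disjoint hdd, Finset.card_product, Finset.card_product]
  have hnum : (n ^ 2 + 1) / 2 ≤ A.card * A.card + B.card * B.card := by
    rw [Nat.div_le_iff_le_mul_add_pred (by norm_num)]
    rw [← hAB]
    zify
    nlinarith [sq_nonneg ((A.card : ℤ) - (B.card : ℤ))]
  exact_mod_cast hnum

theorem ex_fin_n (n : ℕ) : {p : Fin 2 → ℝ | eval p (up 1 (ff n)) = 0 ∧ eval p (-up 0 (ff n)) = 0}.Finite := by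
  have hf0 : ff n ≠ 0 := (Lagrange.nodal_monic).ne_zero
  have hfin : {u : ℝ | (ff n).eval u = 0}.Finite := by
    have : {u : ℝ | (ff n).eval u = 0} = (ff n).rootSet ℝ := by
      ext u
      rw [Polynomial.mem_rootSet]
      simp [hf0]
    rw [this]
    exact Polynomial.rootSet_finite _ _
  apply (Set.Finite.pi' (ι := Fin 2) (t := fun _ => {u : ℝ | (ff n).eval u = 0}) (fun _ => hfin)).subset
  rintro p ⟨h1, h2⟩ i
  rw [up_eval] at h1
  rw [map_neg, up_eval, neg_eq_zero] at h2
  fin_cases i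
  · exact h2
  · exact h1

/-- the exact maximum for systems whose divergence has degree at most `n - 2` -/
theorem max_top_free (n : ℕ) (hn : 2 ≤ n) :
    IsGreatest {k : ℕ∞ | ∃ P Q : RP, max P.totalDegree Q.totalDegree = n ∧
      (pderiv 0 P + pderiv 1 Q).totalDegree + 2 ≤ n ∧ {p : Fin 2 → ℝ | eval p P = 0 ∧ eval p Q = 0}.Finite ∧
      {p : Fin 2 → ℝ | IsCenter P Q p ∧ eval p (Jac P Q) ≠ 0}.encard = k} (((n ^ 2 + 1) / 2 : ℕ) : ℕ∞) := by
  have hub : ∀ P Q : RP, P.totalDegree ≤ n → Q.totalDegree ≤ n → (pderiv 0 P + pderiv 1 Q).totalDegree + 2 ≤ n →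
      {p : Fin 2 → ℝ | IsCenter P Q p ∧ eval p (Jac P Q) ≠ 0}.encard ≤ (((n ^ 2 + 1) / 2 : ℕ) : ℕ∞) := by
    intro P Q hP hQ hK
    have h1 := centers_bound n P Q hP hQ hK
    obtain ⟨E, hE⟩ : ∃ E, E = {p : Fin 2 → ℝ | IsCenter P Q p ∧ eval p (Jac P Q) ≠ 0}.encard := ⟨_, rfl⟩
    rw [← hE] at h1 ⊢
    induction E using ENat.recTopCoe with
    | top => simp at h1
    | coe a =>
      have h2 : 2 * a ≤ n ^ 2 + 1 := by exact_mod_cast h1
      have h3 : a ≤ (n ^ 2 + 1) / 2 := by omega
      exact_mod_cast h3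
  have hdeg : (ff n).natDegree = n := by
    unfold ff
    rw [Lagrange.natDegree_nodal, Finset.card_range]
  have hdiv : pderiv 0 (up 1 (ff n)) + pderiv 1 (-up 0 (ff n)) = 0 := by
    rw [map_neg, up_pd_ne (by decide : (1 : Fin 2) ≠ 0), up_pd_ne (by decide : (0 : Fin 2) ≠ 1)]
    simp
  constructor
  · refine ⟨up 1 (ff n), -up 0 (ff n), ?_, ?_, ex_fin_n n, ?_⟩
    · rw [totalDegree_neg, up_deg, up_deg, hdeg, max_self]
    · rw [hdiv, totalDegree_zero]; omega
    · apply le_antisymm _ (ex_count n)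
      apply hub
      · rw [up_deg, hdeg]
      · rw [totalDegree_neg, up_deg, hdeg]
      · rw [hdiv, totalDegree_zero]; omega
  · rintro k ⟨P, Q, h1, h2, _, rfl⟩
    exact hub P Q (by rw [← h1]; exact le_max_left _ _) (by rw [← h1]; exact le_max_right _ _) h2

end Run7.h256
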