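import Mathlib
import Pool.Agent.Run7.h256.Q4

set_option autoImplicit false

namespace Run7.h256.Bz

open MvPolynomial Topology Filter

/-- deformation of functionals which kill the ideal -/
theorem deform {m : ℕ} {P Q A B : RP} (hP : Dle (m + 2) P) (hQ : Dle (m + 2) Q) (hA : Dle (m + 2) A)
    (hB : Dle (m + 2) B) (hinj : ∀ a b : RP, Dle m a → Dle m b → a * P + b * Q = 0 → a = 0 ∧ b = 0)
    {φ : RP →ₗ[ℝ] ℝ} (hφ : ∀ F ∈ II P Q, φ F = 0) :
    ∃ Ψ : ℝ → (RP →ₗ[ℝ] ℝ), (∀ ε, En m (P + C ε * A) (Q + C ε * B) →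
      ∀ F ∈ II (P + C ε * A) (Q + C ε * B), Ψ ε F = 0) ∧
      ∀ u : RP, Dle (2 * m + 2) u → Tendsto (fun ε => Ψ ε u) (𝓝 0) (𝓝 (φ u)) := by
  classical
  have mk : ∀ F G : RP, Dle (m + 2) F → Dle (m + 2) G → ∃ T : (Pl ℝ m × Pl ℝ m) →ₗ[ℝ] Pl ℝ (2 * m + 2),
      ∀ x, (T x).1 = x.1.1 * F + x.2.1 * G := by
    intro F G hF hG
    refine ⟨⟨⟨fun x => ⟨x.1.1 * F + x.2.1 * G, ?_⟩, ?_⟩, ?_⟩, fun x => rfl⟩
    · rw [mem_Pl]
      exact (Dle.mul (a := m) (mem_Pl.1 x.1.2) hF (by omega)).add (Dle.mul (a := m) (mem_Pl.1 x.2.2) hG (by omega))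
    · intro x y
      apply Subtype.ext
      show (x + y).1.1 * F + (x + y).2.1 * G = (x.1.1 * F + x.2.1 * G) + (y.1.1 * F + y.2.1 * G)
      simp only [Prod.fst_add, Prod.snd_add, Submodule.coe_add]
      ring
    · intro c x
      apply Subtype.ext
      show (c • x).1.1 * F + (c • x).2.1 * G = c • (x.1.1 * F + x.2.1 * G)
      simp only [Prod.smul_fst, Prod.smul_snd, Submodule.coe_smul, smul_add, smul_mul_assoc]
  obtain ⟨T0, hT0⟩ := mk P Q hP hQ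
  obtain ⟨T1, hT1⟩ := mk A B hA hB
  have hker : LinearMap.ker T0 = ⊥ := by
    rw [LinearMap.ker_eq_bot']
    intro x hx
    have h1 := congrArg Subtype.val hx
    rw [hT0] at h1
    obtain ⟨h2, h3⟩ := hinj _ _ (mem_Pl.1 x.1.2) (mem_Pl.1 x.2.2) h1
    exact Prod.ext (Subtype.ext h2) (Subtype.ext h3)
  obtain ⟨π, hπ⟩ := LinearMap.exists_leftInverse_of_injective T0 hker
  obtain ⟨r, hr⟩ : ∃ r, r = Module.finrank ℝ (Pl ℝ m × Pl ℝ m) := ⟨_, rfl⟩
  obtain ⟨b, _⟩ : ∃ b : Module.Basis (Fin (Module.finrank ℝ (Pl ℝ m × Pl ℝ m))) ℝ (Pl ℝ m × Pl ℝ m), True :=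
    ⟨Module.finBasis ℝ _, trivial⟩
  obtain ⟨N, hN⟩ : ∃ N, N = LinearMap.toMatrix b b (π ∘ₗ T1) := ⟨_, rfl⟩
  obtain ⟨φ1, hφ1⟩ : ∃ φ1 : (Pl ℝ m × Pl ℝ m) →ₗ[ℝ] ℝ, φ1 = (φ ∘ₗ (Pl ℝ (2 * m + 2)).subtype) ∘ₗ T1 := ⟨_, rfl⟩
  obtain ⟨ell', hell⟩ : ∃ ell' : ℝ → (Pl ℝ (2 * m + 2) →ₗ[ℝ] ℝ), ell' = fun ε => (1 + ε • N).det • (φ ∘ₗ (Pl ℝ (2 * m + 2)).subtype) -
      ε • (φ1 ∘ₗ (Matrix.toLin b b (1 + ε • N).adjugate) ∘ₗ π) := ⟨_, rfl⟩
  have hval : ∀ (ε : ℝ) (v : Pl ℝ (2 * m + 2)), ell' ε v = (1 + ε • N).det * φ v.1 - ε * φ1 (Matrix.toLin b b (1 + ε • N).adjugate (π v)) := by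
    intro ε v
    rw [hell]
    simp only [LinearMap.sub_apply, LinearMap.smul_apply, LinearMap.comp_apply, Submodule.subtype_apply, smul_eq_mul]
  have hM : ∀ (ε : ℝ) (x : Pl ℝ m × Pl ℝ m), Matrix.toLin b b (1 + ε • N) x = π (T0 x + ε • T1 x) := by
    intro ε x
    have h1 : Matrix.toLin b b (1 + ε • N) = LinearMap.id + ε • (π ∘ₗ T1) := by
      rw [map_add, map_smul, hN, Matrix.toLin_toMatrix, Matrix.toLin_one]
    rw [h1, map_add, map_smul]
    have h2 : π (T0 x) = x := by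
      have := congrArg (fun f => f x) hπ
      simpa using this
    rw [h2]
    simp
  have hkill : ∀ (ε : ℝ) (x : Pl ℝ m × Pl ℝ m), ell' ε (T0 x + ε • T1 x) = 0 := by
    intro ε x
    have h0 : Matrix.toLin b b (1 + ε • N).adjugate (Matrix.toLin b b (1 + ε • N) x) = (1 + ε • N).det • x := by
      rw [← LinearMap.comp_apply, ← Matrix.toLin_mul, Matrix.adjugate_mul, map_smul, Matrix.toLin_one,
        LinearMap.smul_apply, LinearMap.id_apply]
    rw [hval, ← hM, h0]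
    have h1 : φ (T0 x).1 = 0 := by
      rw [hT0]; exact hφ _ (mem_II.2 ⟨_, _, rfl⟩)
    have h2 : φ1 x = φ (T1 x).1 := by rw [hφ1]; rfl
    rw [Submodule.coe_add, Submodule.coe_smul, map_add, h1, zero_add, map_smul,
      map_smul, h2, smul_eq_mul, smul_eq_mul]
    ring
  have hext : ∀ ε : ℝ, ∃ Ψ : RP →ₗ[ℝ] ℝ, (∀ v : Pl ℝ (2 * m + 2), Ψ v.1 = ell' ε v) ∧
      (En m (P + C ε * A) (Q + C ε * B) → ∀ F ∈ II (P + C ε * A) (Q + C ε * B), Ψ F = 0) := by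
    intro ε
    by_cases he : En m (P + C ε * A) (Q + C ε * B)
    · obtain ⟨K, hK⟩ : ∃ K : Submodule ℝ RP, K = (II (P + C ε * A) (Q + C ε * B)).restrictScalars ℝ := ⟨_, rfl⟩
      obtain ⟨f, hf⟩ : ∃ f : Pl ℝ (2 * m + 2) →ₗ[ℝ] (RP ⧸ K), f = K.mkQ ∘ₗ (Pl ℝ (2 * m + 2)).subtype := ⟨_, rfl⟩
      have h1 : ell' ε ∈ (LinearMap.ker f).dualAnnihilator := by
        rw [Submodule.mem_dualAnnihilator]
        intro w hw
        have h2 : w.1 ∈ K := by
          rw [LinearMap.mem_ker, hf, LinearMap.comp_apply, Submodule.mkQ_apply, Submodule.Quotient.mk_eq_zero] at hw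
          exact hw
        rw [hK] at h2
        obtain ⟨u, v, hu, hv, huv⟩ := he.mem_red (n := m) h2 ((mem_Pl.1 w.2).trans (by omega))
        have h3 : w = T0 (⟨u, mem_Pl.2 hu⟩, ⟨v, mem_Pl.2 hv⟩) + ε • T1 (⟨u, mem_Pl.2 hu⟩, ⟨v, mem_Pl.2 hv⟩) := by
          apply Subtype.ext
          rw [Submodule.coe_add, Submodule.coe_smul, hT0, hT1, smul_eq_C_mul]
          show w.1 = (u * P + v * Q) + C ε * (u * A + v * B)
          first
            | linear_combination huv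
            | linear_combination (-1 : RP) * huv
        rw [h3]; exact hkill ε _
      rw [← LinearMap.range_dualMap_eq_dualAnnihilator_ker] at h1
      obtain ⟨ψ, hψ⟩ := h1
      refine ⟨ψ ∘ₗ K.mkQ, ?_, ?_⟩
      · intro v
        rw [← hψ, hf]; rfl
      · intro _ F hF
        have : K.mkQ F = 0 := by
          rw [Submodule.mkQ_apply, Submodule.Quotient.mk_eq_zero, hK]; exact hF
        rw [LinearMap.comp_apply, this, map_zero]
    · obtain ⟨g, hg⟩ := LinearMap.exists_extend (ell' ε)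
      refine ⟨g, ?_, fun h => absurd h he⟩
      intro v
      rw [← hg]; rfl
  choose Ψ hΨ1 hΨ2 using hext
  refine ⟨Ψ, hΨ2, ?_⟩
  intro u hu
  obtain ⟨v, hv⟩ : ∃ v : Pl ℝ (2 * m + 2), v.1 = u := ⟨⟨u, mem_Pl.2 hu⟩, rfl⟩
  have e : (fun ε => Ψ ε u) = fun ε => ell' ε v := by
    funext ε; rw [← hv]; exact hΨ1 ε v
  rw [e]
  have hcM : Continuous (fun ε : ℝ => (1 + ε • N)) := by
    exact continuous_const.add (continuous_id.smul continuous_const)
  have hcont : Continuous (fun ε => ell' ε v) := by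
    have e2 : (fun ε => ell' ε v) = fun ε => (1 + ε • N).det * φ v.1 -
        ε * ∑ j, ((1 + ε • N).adjugate.mulVec (b.repr (π v))) j * φ1 (b j) := by
      funext ε
      rw [hval, Matrix.toLin_apply, map_sum]
      congr 2
      apply Finset.sum_congr rfl
      intro j _
      rw [map_smul, smul_eq_mul]
    rw [e2]
    refine (hcM.matrix_det.mul continuous_const).sub (continuous_id.mul (continuous_finsetSum _ (fun j _ => ?_)))
    exact ((continuous_apply j).comp (hcM.matrix_adjugate.matrix_mulVec continuous_const)).mul continuous_const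
  have h0 : ell' 0 v = φ u := by
    rw [hval, zero_smul, add_zero, Matrix.det_one, one_mul, zero_mul, sub_zero, hv]
  rw [← h0]
  exact hcont.tendsto 0

end Run7.h256.Bz
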