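import Mathlib
import Pool.Agent.Run7.h256.Q4

set_option autoImplicit false

namespace Run7.h256

open MvPolynomial ComplexConjugate

open E0 (kk kk_apply KK mem_KK KK_II)

/-- the dimension count for an abstract positive family -/
theorem core2 {m : ℕ} {P Q : RP} {L : RP →ₗ[ℝ] ℝ} (en : En m P Q) (rn : Rn m P Q L) {ι : Type} [Fintype ι]
    (G : ι → RP) (hG : ∀ x : ι → ℝ, x ≠ 0 → 0 < L ((∑ i, C (x i) * G i) * (∑ i, C (x i) * G i)))
    {V : Type} [AddCommGroup V] [Module ℝ V] [FiniteDimensional ℝ V] (Θ : V →ₗ[ℝ] RP)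
    (hinj : ∀ v, Θ v = 0 → v = 0) (h3 : ∀ v, Dle (m + 1) (Θ v))
    (hneg : ∀ v, L (Θ v * Θ v) ≤ 0) : Module.finrank ℝ V + Fintype.card ι ≤ (m + 2) ^ 2 := by
  classical
  by_contra hcon
  push Not at hcon
  have hrep : ∀ i, ∃ G', Dle (2 * m + 2) G' ∧ G i - G' ∈ II P Q := fun i => en.rep (G i)
  choose G' hG' hGG using hrep
  obtain ⟨Ξ, hΞ⟩ : ∃ Ξ : (V × (Pl ℝ m × Pl ℝ m) × (ι → ℝ)) →ₗ[ℝ] Pl ℝ (2 * m + 2), ∀ x,
      (Ξ x).1 = Θ x.1 + kk P Q m x.2.1 - ∑ s, C (x.2.2 s) * G' s := by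
    have hmem : ∀ x : V × (Pl ℝ m × Pl ℝ m) × (ι → ℝ),
        Θ x.1 + kk P Q m x.2.1 - ∑ s, C (x.2.2 s) * G' s ∈ Pl ℝ (2 * m + 2) := by
      intro x
      rw [mem_Pl]
      refine Dle.sub (n := 2 * m + 2) (Dle.add (n := 2 * m + 2) ((h3 _).mono (by omega)) ?_) ?_
      · rw [kk_apply]
        exact ((Dle.mul (a := m) (mem_Pl.1 x.2.1.1.2) en.hP (by omega)).add
          (Dle.mul (a := m) (mem_Pl.1 x.2.1.2.2) en.hQ (by omega)))
      · refine le_trans (totalDegree_finsetSum _ _) (Finset.sup_le ?_)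
        intro s _
        exact (Dle.C (n := 0) _).mul (hG' s) (show 0 + (2 * m + 2) ≤ 2 * m + 2 by omega)
    refine ⟨⟨⟨fun x => ⟨_, hmem x⟩, ?_⟩, ?_⟩, fun x => rfl⟩
    · intro x y
      apply Subtype.ext
      show Θ (x + y).1 + kk P Q m (x + y).2.1 - ∑ s, C ((x + y).2.2 s) * G' s =
        (Θ x.1 + kk P Q m x.2.1 - ∑ s, C (x.2.2 s) * G' s) +
        (Θ y.1 + kk P Q m y.2.1 - ∑ s, C (y.2.2 s) * G' s)
      simp only [Prod.fst_add, Prod.snd_add, map_add, Pi.add_apply, add_mul, Finset.sum_add_distrib]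
      ring
    · intro c x
      apply Subtype.ext
      show Θ (c • x).1 + kk P Q m (c • x).2.1 - ∑ s, C ((c • x).2.2 s) * G' s =
        c • (Θ x.1 + kk P Q m x.2.1 - ∑ s, C (x.2.2 s) * G' s)
      simp only [Prod.smul_fst, Prod.smul_snd, map_smul, Pi.smul_apply, smul_eq_mul, C_mul, smul_sub, smul_add,
        Finset.smul_sum, smul_eq_C_mul, mul_assoc]
  have hlt : Module.finrank ℝ (Pl ℝ (2 * m + 2)) < Module.finrank ℝ (V × (Pl ℝ m × Pl ℝ m) × (ι → ℝ)) := by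
    rw [Module.finrank_prod, Module.finrank_prod, Module.finrank_prod, Module.finrank_fintype_fun_eq_card]
    have e6 := finrank_Pl (k := ℝ) (2 * m + 2)
    have e2 := finrank_Pl (k := ℝ) m
    nlinarith
  have hker := LinearMap.ker_ne_bot_of_finrank_lt (f := Ξ) hlt
  obtain ⟨x, hx, hx0⟩ := Submodule.exists_mem_ne_zero_of_ne_bot hker
  have hx1 := congrArg Subtype.val (LinearMap.mem_ker.1 hx)
  rw [hΞ] at hx1
  obtain ⟨v, ab, c⟩ := x
  have hx2 : Θ v + kk P Q m ab = ∑ s, C (c s) * G' s := by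
    have : Θ v + kk P Q m ab - ∑ s, C (c s) * G' s = 0 := hx1
    linear_combination this
  have hkI : kk P Q m ab ∈ II P Q := by
    rw [kk_apply]; exact mem_II.2 ⟨_, _, rfl⟩
  have hsum : (∑ s, C (c s) * G s) - Θ v ∈ II P Q := by
    have e : (∑ s, C (c s) * G s) - Θ v = (∑ s, C (c s) * (G s - G' s)) + kk P Q m ab := by
      have : ∑ s, C (c s) * (G s - G' s) = (∑ s, C (c s) * G s) - ∑ s, C (c s) * G' s := by
        rw [← Finset.sum_sub_distrib]
        apply Finset.sum_congr rfl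
        intro s _
        ring
      rw [this]
      linear_combination (-1 : RP) * hx2
    rw [e]
    exact Ideal.add_mem _ (Ideal.sum_mem _ (fun s _ => Ideal.mul_mem_left _ _ (hGG s))) hkI
  have hc : c = 0 := by
    by_contra hc0
    have h1 := hG c hc0
    obtain ⟨W, hW⟩ : ∃ W, W = ∑ s, C (c s) * G s := ⟨_, rfl⟩
    rw [← hW] at h1 hsum
    have e : W * W = Θ v * Θ v + (W - Θ v) * (W + Θ v) := by ring
    rw [e, map_add, rn.ker _ (Ideal.mul_mem_right _ _ hsum), add_zero] at h1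
    exact absurd (hneg v) (not_le.2 h1)
  have hx3 : Θ v + kk P Q m ab = 0 := by
    rw [hx2]
    apply Finset.sum_eq_zero
    intro s _
    rw [hc, Pi.zero_apply, C_0, zero_mul]
  have hv0 : Θ v = 0 := by
    apply en.eq_zero3 _ (h3 v)
    have : Θ v = -kk P Q m ab := by linear_combination hx3
    rw [this]
    exact (Ideal.neg_mem_iff _).2 hkI
  rw [hv0, zero_add, kk_apply] at hx3
  obtain ⟨ha, hb⟩ := en.inj3 m (by omega) _ _ (mem_Pl.1 ab.1.2) (mem_Pl.1 ab.2.2) (by rw [hx3]; exact Dle.zero)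
  apply hx0
  have z1 := hinj v hv0
  have z2 : ab = 0 := Prod.ext (Subtype.ext ha) (Subtype.ext hb)
  rw [z1, z2, hc]; rfl

/-- the bound for Hamiltonian top forms with simple roots -/
theorem ham_gen2 {m : ℕ} {P Q h : RP} {L : RP →ₗ[ℝ] ℝ} {R : Finset ℂ} (en : En m P Q) (rn : Rn m P Q L)
    (LJ : L (Jac (hc (m + 2) P) (hc (m + 2) Q)) = ((m + 2 : ℕ) : ℝ) ^ 2) {ι : Type} [Fintype ι]
    (G : ι → RP) (hG : ∀ x : ι → ℝ, x ≠ 0 → 0 < L ((∑ i, C (x i) * G i) * (∑ i, C (x i) * G i))) (r : Rt m h R)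
    (e1 : hc (m + 2) P = pderiv 1 h) (e2 : hc (m + 2) Q = -pderiv 0 h) : 2 * Fintype.card ι ≤ (m + 2) ^ 2 + 1 := by
  classical
  obtain ⟨Rp, hRp⟩ : ∃ Rp, Rp = R.filter (fun ξ => 0 < ξ.im) := ⟨_, rfl⟩
  have hcard : 2 * Rp.card ≤ m + 3 := by
    have h1 : Rp ∪ Rp.image conj ⊆ R := by
      intro ξ hξ
      rcases Finset.mem_union.1 hξ with h2 | h2
      · rw [hRp] at h2; exact (Finset.mem_filter.1 h2).1
      · obtain ⟨η, hη, rfl⟩ := Finset.mem_image.1 h2
        rw [hRp] at hη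
        exact r.conj_mem (Finset.mem_filter.1 hη).1
    have h2 : Disjoint Rp (Rp.image conj) := by
      rw [Finset.disjoint_left]
      intro ξ h3 h4
      obtain ⟨η, hη, rfl⟩ := Finset.mem_image.1 h4
      rw [hRp, Finset.mem_filter] at h3 hη
      have h5 := h3.2
      rw [Complex.conj_im] at h5
      linarith [hη.2]
    have h3 := Finset.card_le_card h1
    rw [Finset.card_union_of_disjoint h2, Finset.card_image_of_injective _ (starRingEnd ℂ).injective, r.card] at h3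
    omega
  -- the linear conditions
  obtain ⟨Λ, hΛ⟩ : ∃ Λ : Pl ℝ (m + 1) →ₗ[ℝ] (Rp → ℝ), ∀ v ξ,
      Λ v ξ = (ec ξ.1 (hc (m + 1) v.1) / ec ξ.1 (pderiv 0 h)).im := by
    refine ⟨⟨⟨fun v ξ => (ec ξ.1 (hc (m + 1) v.1) / ec ξ.1 (pderiv 0 h)).im, ?_⟩, ?_⟩, fun v ξ => rfl⟩
    · intro v w
      funext ξ
      show (ec ξ.1 (hc (m + 1) (v.1 + w.1)) / _).im = _
      have : hc (m + 1) (v.1 + w.1) = hc (m + 1) v.1 + hc (m + 1) w.1 := by unfold hc; exact map_add _ _ _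
      rw [this, map_add, add_div, Complex.add_im]
      rfl
    · intro c v
      funext ξ
      show (ec ξ.1 (hc (m + 1) (c • v.1)) / _).im = c * _
      have : hc (m + 1) (c • v.1) = c • hc (m + 1) v.1 := by unfold hc; exact map_smul _ _ _
      rw [this, map_smul, Complex.real_smul, mul_div_assoc, Complex.im_ofReal_mul]
  have hmap : ∀ v : Pl ℝ (m + 1), Λ v = 0 → ∀ ξ ∈ R, (ec ξ (hc (m + 1) v.1) / ec ξ (pderiv 0 h)).im = 0 := by
    intro v hv ξ hξ
    rcases lt_trichotomy 0 ξ.im with h1 | h1 | h1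
    · have := congrFun hv ⟨ξ, by rw [hRp]; exact Finset.mem_filter.2 ⟨hξ, h1⟩⟩
      rw [hΛ] at this
      exact this
    · have hc1 : conj ξ = ξ := Complex.conj_eq_iff_im.2 h1.symm
      have h2 := ec_conj (hc (m + 1) v.1) ξ
      have h3 := ec_conj (pderiv 0 h) ξ
      rw [hc1] at h2 h3
      rw [← Complex.conj_eq_iff_im, map_div₀, ← h2, ← h3]
    · have h4 : conj ξ ∈ R := r.conj_mem hξ
      have h5 := congrFun hv ⟨conj ξ, by
        rw [hRp]
        refine Finset.mem_filter.2 ⟨h4, ?_⟩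
        rw [Complex.conj_im]; linarith⟩
      rw [hΛ] at h5
      have h6 : (ec (conj ξ) (hc (m + 1) v.1) / ec (conj ξ) (pderiv 0 h)).im = 0 := h5
      rw [ec_conj, ec_conj, ← map_div₀, Complex.conj_im] at h6
      linarith
  have hcore := core2 en rn G hG (V := LinearMap.ker Λ) ((Pl ℝ (m + 1)).subtype ∘ₗ (LinearMap.ker Λ).subtype) ?_ ?_ ?_
  · have h1 := LinearMap.finrank_range_add_finrank_ker Λ
    have h2 : Module.finrank ℝ (LinearMap.range Λ) ≤ Rp.card := by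
      have := Submodule.finrank_le (LinearMap.range Λ)
      rwa [Module.finrank_fintype_fun_eq_card, Fintype.card_coe] at this
    have h3 := finrank_Pl (k := ℝ) (m + 1)
    nlinarith
  · intro v hv
    exact Subtype.ext (Subtype.ext hv)
  · intro v
    exact mem_Pl.1 v.1.2
  · intro v
    show L (v.1.1 * v.1.1) ≤ 0
    have hv := hmap v.1 (LinearMap.mem_ker.1 v.2)
    have hvd : Dle (m + 1) v.1.1 := mem_Pl.1 v.1.2
    obtain ⟨w, hw⟩ : ∃ w, w = hc (m + 1) v.1.1 := ⟨_, rfl⟩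
    rw [← hw] at hv
    have hwh : w.IsHomogeneous (m + 1) := by rw [hw]; exact hc_homog _ _
    have hlow : Dle m (v.1.1 - w) := by rw [hw]; exact sub_hcD hvd
    have e3 : L (v.1.1 * v.1.1) = L (w * w) := by
      have h1 : v.1.1 * v.1.1 = w * w + ((v.1.1 - w) * v.1.1 + w * (v.1.1 - w)) := by ring
      rw [h1, map_add, rn.low _ ((hlow.mul hvd (by omega)).add ((homog_DG hwh).mul hlow (by omega))), add_zero]
    have h4 := L_ell en rn LJ r e1 e2 (F := w * w) (by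
      have := hwh.mul hwh
      rwa [show m + 1 + (m + 1) = 2 * m + 2 by ring] at this)
    have h5 : ell h R (w * w) = ((∑ ξ ∈ R, (ec ξ w / ec ξ (pderiv 0 h)).re ^ 2 : ℝ) : ℂ) := by
      unfold ell
      push_cast
      apply Finset.sum_congr rfl
      intro ξ hξ
      have h6 : ec ξ w / ec ξ (pderiv 0 h) = ((ec ξ w / ec ξ (pderiv 0 h)).re : ℂ) := by
        apply Complex.ext
        · simp
        · rw [hv ξ hξ]; simp
      rw [← h6, map_mul, div_pow]
      ring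
    have h7 : (∑ ξ ∈ R, (ec ξ w / ec ξ (pderiv 0 h)).re ^ 2 : ℝ) = -(((m : ℝ) + 3) * L (w * w)) := by
      have := h5.symm.trans h4
      exact_mod_cast this
    have h8 : 0 ≤ (∑ ξ ∈ R, (ec ξ w / ec ξ (pderiv 0 h)).re ^ 2 : ℝ) := Finset.sum_nonneg (fun _ _ => sq_nonneg _)
    rw [e3]
    have h9 : (0 : ℝ) < (m : ℝ) + 3 := by positivity
    by_contra hcon
    push Not at hcon
    nlinarith [mul_pos h9 hcon]

end Run7.h256
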