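import Mathlib
import Pool.Agent.Run7.h256.Q4

set_option autoImplicit false

namespace Run7.h256.Bz

open MvPolynomial TensorProduct

/-- the ring of pairs of variables -/
abbrev TT := RP ⊗[ℝ] RP

/-- first copy -/
noncomputable def il (F : RP) : TT := F ⊗ₜ 1
/-- second copy -/
noncomputable def ir (F : RP) : TT := 1 ⊗ₜ F

lemma il_mul (F G : RP) : il (F * G) = il F * il G := by
  unfold il; rw [Algebra.TensorProduct.tmul_mul_tmul, one_mul]
lemma ir_mul (F G : RP) : ir (F * G) = ir F * ir G := by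
  unfold ir; rw [Algebra.TensorProduct.tmul_mul_tmul, one_mul]
lemma il_add (F G : RP) : il (F + G) = il F + il G := by unfold il; rw [TensorProduct.add_tmul]
lemma ir_add (F G : RP) : ir (F + G) = ir F + ir G := by unfold ir; rw [TensorProduct.tmul_add]
lemma il_C (c : ℝ) : il (C c) = ir (C c) := by
  unfold il ir
  have : (C c : RP) = c • (1 : RP) := by rw [smul_eq_C_mul, mul_one]
  rw [this, TensorProduct.smul_tmul]

/-- left contraction -/
noncomputable def cl (φ : RP →ₗ[ℝ] ℝ) : TT →ₗ[ℝ] RP := (TensorProduct.lid ℝ RP).toLinearMap ∘ₗ (TensorProduct.map φ LinearMap.id)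

lemma cl_tmul (φ : RP →ₗ[ℝ] ℝ) (u v : RP) : cl φ (u ⊗ₜ v) = C (φ u) * v := by
  unfold cl
  simp [smul_eq_C_mul]

/-- right contraction -/
noncomputable def cr (φ : RP →ₗ[ℝ] ℝ) : TT →ₗ[ℝ] RP := (TensorProduct.rid ℝ RP).toLinearMap ∘ₗ (TensorProduct.map LinearMap.id φ)

lemma cr_tmul (φ : RP →ₗ[ℝ] ℝ) (u v : RP) : cr φ (u ⊗ₜ v) = C (φ v) * u := by
  unfold cr
  simp [smul_eq_C_mul]

lemma cl_ir (φ : RP →ₗ[ℝ] ℝ) (F : RP) (t : TT) : cl φ (ir F * t) = F * cl φ t := by
  induction t using TensorProduct.induction_on with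
  | zero => simp
  | tmul u v => unfold ir; rw [Algebra.TensorProduct.tmul_mul_tmul, cl_tmul, cl_tmul, one_mul]; ring
  | add a b ha hb => rw [mul_add, map_add, map_add, ha, hb]; ring

lemma cr_il (φ : RP →ₗ[ℝ] ℝ) (F : RP) (t : TT) : cr φ (il F * t) = F * cr φ t := by
  induction t using TensorProduct.induction_on with
  | zero => simp
  | tmul u v => unfold il; rw [Algebra.TensorProduct.tmul_mul_tmul, cr_tmul, cr_tmul, one_mul]; ring
  | add a b ha hb => rw [mul_add, map_add, map_add, ha, hb]; ring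

/-- both contractions commute -/
lemma cl_cr (φ ψ : RP →ₗ[ℝ] ℝ) (t : TT) : ψ (cl φ t) = φ (cr ψ t) := by
  induction t using TensorProduct.induction_on with
  | zero => simp
  | tmul u v =>
    rw [cl_tmul, cr_tmul, ← smul_eq_C_mul, ← smul_eq_C_mul, map_smul, map_smul, smul_eq_mul, smul_eq_mul, mul_comm]
  | add a b ha hb => rw [map_add, map_add, map_add, map_add, ha, hb]

lemma cl_kill {P Q : RP} {φ : RP →ₗ[ℝ] ℝ} (hφ : ∀ F ∈ II P Q, φ F = 0) {F : RP} (hF : F ∈ II P Q) (t : TT) :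
    cl φ (il F * t) = 0 := by
  induction t using TensorProduct.induction_on with
  | zero => simp
  | tmul u v =>
    unfold il
    rw [Algebra.TensorProduct.tmul_mul_tmul, cl_tmul, hφ _ (Ideal.mul_mem_right _ _ hF), C_0, zero_mul]
  | add a b ha hb => rw [mul_add, map_add, ha, hb, add_zero]

lemma cr_kill {P Q : RP} {φ : RP →ₗ[ℝ] ℝ} (hφ : ∀ F ∈ II P Q, φ F = 0) {F : RP} (hF : F ∈ II P Q) (t : TT) :
    cr φ (ir F * t) = 0 := by
  induction t using TensorProduct.induction_on with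
  | zero => simp
  | tmul u v =>
    unfold ir
    rw [Algebra.TensorProduct.tmul_mul_tmul, cr_tmul, hφ _ (Ideal.mul_mem_right _ _ hF), C_0, zero_mul]
  | add a b ha hb => rw [mul_add, map_add, ha, hb, add_zero]

/-- joint degree at most `n` -/
def TD (n : ℕ) (t : TT) : Prop :=
  t ∈ Submodule.span ℝ {s : TT | ∃ u v : RP, ∃ a b : ℕ, Dle a u ∧ Dle b v ∧ a + b ≤ n ∧ s = u ⊗ₜ v}

lemma TD.add {n : ℕ} {s t : TT} (hs : TD n s) (ht : TD n t) : TD n (s + t) := Submodule.add_mem _ hs ht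
lemma TD.sub {n : ℕ} {s t : TT} (hs : TD n s) (ht : TD n t) : TD n (s - t) := Submodule.sub_mem _ hs ht
lemma TD.smul {n : ℕ} {t : TT} (c : ℝ) (ht : TD n t) : TD n (c • t) := Submodule.smul_mem _ c ht
lemma TD.zero {n : ℕ} : TD n 0 := Submodule.zero_mem _

lemma TD.il {n : ℕ} {F : RP} (hF : Dle n F) : TD n (il F) :=
  Submodule.subset_span ⟨F, 1, n, 0, hF, by unfold Dle; rw [totalDegree_one], by omega, rfl⟩
lemma TD.ir {n : ℕ} {F : RP} (hF : Dle n F) : TD n (ir F) :=
  Submodule.subset_span ⟨1, F, 0, n, by unfold Dle; rw [totalDegree_one], hF, by omega, rfl⟩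

lemma TD.mul {a b n : ℕ} {s t : TT} (hs : TD a s) (ht : TD b t) (h : a + b ≤ n) : TD n (s * t) := by
  induction hs using Submodule.span_induction with
  | zero => rw [zero_mul]; exact TD.zero
  | add x y _ _ hx hy => rw [add_mul]; exact hx.add hy
  | smul c x _ hx => rw [smul_mul_assoc]; exact hx.smul c
  | mem x hx =>
    obtain ⟨u, v, a1, a2, h1, h2, h3, rfl⟩ := hx
    induction ht using Submodule.span_induction with
    | zero => rw [mul_zero]; exact TD.zero
    | add x y _ _ hx hy => rw [mul_add]; exact hx.add hy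
    | smul c x _ hx => rw [mul_smul_comm]; exact hx.smul c
    | mem y hy =>
      obtain ⟨u', v', b1, b2, h1', h2', h3', rfl⟩ := hy
      rw [Algebra.TensorProduct.tmul_mul_tmul]
      exact Submodule.subset_span ⟨_, _, a1 + b1, a2 + b2, h1.mul h1' le_rfl, h2.mul h2' le_rfl, by omega, rfl⟩

/-- the two-variable decomposition -/
theorem bdec (d : ℕ) : ∀ F : RP, Dle (d + 1) F → ∃ A B : TT, TD d A ∧ TD d B ∧
    il F - ir F = (il (X 0) - ir (X 0)) * A + (il (X 1) - ir (X 1)) * B := by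
  induction d with
  | zero =>
    intro F hF
    obtain ⟨A', B', c, hA, hB, he⟩ := dec (d := 0) hF
    have ea : A' = C (coeff 0 A') := (totalDegree_eq_zero_iff_eq_C.1 (Nat.le_zero.1 hA))
    have eb : B' = C (coeff 0 B') := (totalDegree_eq_zero_iff_eq_C.1 (Nat.le_zero.1 hB))
    refine ⟨il A', il B', TD.il hA, TD.il hB, ?_⟩
    have h1 : il A' = ir A' := by rw [ea]; exact il_C _
    have h2 : il B' = ir B' := by rw [eb]; exact il_C _
    rw [he, il_add, il_add, ir_add, ir_add, il_mul, il_mul, ir_mul, ir_mul, il_C, h1, h2]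
    ring
  | succ d ih =>
    intro F hF
    obtain ⟨A', B', c, hA, hB, he⟩ := dec (d := d + 1) hF
    obtain ⟨A1, A2, a1, a2, ha⟩ := ih A' hA
    obtain ⟨B1, B2, b1, b2, hb⟩ := ih B' hB
    have x0 : TD 1 (ir (X 0)) := TD.ir (Dle.X le_rfl 0)
    have x1 : TD 1 (ir (X 1)) := TD.ir (Dle.X le_rfl 1)
    refine ⟨il A' + ir (X 0) * A1 + ir (X 1) * B1, il B' + ir (X 0) * A2 + ir (X 1) * B2,
      ((TD.il hA).add (x0.mul a1 (by omega))).add (x1.mul b1 (by omega)),
      ((TD.il hB).add (x0.mul a2 (by omega))).add (x1.mul b2 (by omega)), ?_⟩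
    rw [he, il_add, il_add, ir_add, ir_add, il_mul, il_mul, ir_mul, ir_mul, il_C]
    linear_combination ir (X 0) * ha + ir (X 1) * hb

end Run7.h256.Bz
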