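import Mathlib
import Pool.Agent.Run7.h256.R4

set_option autoImplicit false

namespace Run7.h256.Bz

open MvPolynomial TensorProduct

/-- two-variable decompositions of a pair -/
structure BD (m : ℕ) (P Q : RP) (A1 B1 A2 B2 : TT) : Prop where
  dA1 : TD (m + 1) A1
  dB1 : TD (m + 1) B1
  dA2 : TD (m + 1) A2
  dB2 : TD (m + 1) B2
  eP : il P - ir P = (il (X 0) - ir (X 0)) * A1 + (il (X 1) - ir (X 1)) * B1
  eQ : il Q - ir Q = (il (X 0) - ir (X 0)) * A2 + (il (X 1) - ir (X 1)) * B2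

namespace BD

variable {m : ℕ} {P Q : RP} {A1 B1 A2 B2 : TT}

lemma deg (h : BD m P Q A1 B1 A2 B2) : TD (2 * m + 2) (A1 * B2 - B1 * A2) :=
  (h.dA1.mul h.dB2 (by omega)).sub (h.dB1.mul h.dA2 (by omega))

lemma x0 (h : BD m P Q A1 B1 A2 B2) : (il (X 0) - ir (X 0)) * (A1 * B2 - B1 * A2) =
    (il P - ir P) * B2 - B1 * (il Q - ir Q) := by
  rw [h.eP, h.eQ]; ring

lemma x1 (h : BD m P Q A1 B1 A2 B2) : (il (X 1) - ir (X 1)) * (A1 * B2 - B1 * A2) =
    A1 * (il Q - ir Q) - (il P - ir P) * A2 := by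
  rw [h.eP, h.eQ]; ring

lemma xi (h : BD m P Q A1 B1 A2 B2) (i : Fin 2) : ∃ s t : TT, (il (X i) - ir (X i)) * (A1 * B2 - B1 * A2) =
    (il P - ir P) * s + (il Q - ir Q) * t := by
  fin_cases i
  · exact ⟨B2, -B1, by
      have := h.x0
      show (il (X 0) - ir (X 0)) * (A1 * B2 - B1 * A2) = _
      rw [this]; ring⟩
  · exact ⟨-A2, A1, by
      have := h.x1
      show (il (X 1) - ir (X 1)) * (A1 * B2 - B1 * A2) = _
      rw [this]; ring⟩

lemma PI : P ∈ II P Q := mem_II.2 ⟨1, 0, by ring⟩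
lemma QI : Q ∈ II P Q := mem_II.2 ⟨0, 1, by ring⟩

lemma cl_mem {φ : RP →ₗ[ℝ] ℝ} (hφ : ∀ F ∈ II P Q, φ F = 0) {F : RP} (hF : F ∈ II P Q) (t : TT) :
    cl φ ((il F - ir F) * t) ∈ II P Q := by
  rw [sub_mul, map_sub, cl_kill hφ hF, cl_ir, zero_sub]
  exact (Ideal.neg_mem_iff _).2 (Ideal.mul_mem_right _ _ hF)

lemma cr_mem {φ : RP →ₗ[ℝ] ℝ} (hφ : ∀ F ∈ II P Q, φ F = 0) {F : RP} (hF : F ∈ II P Q) (t : TT) :
    cr φ ((il F - ir F) * t) ∈ II P Q := by
  rw [sub_mul, map_sub, cr_kill hφ hF, cr_il, sub_zero]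
  exact Ideal.mul_mem_right _ _ hF

lemma step_l (h : BD m P Q A1 B1 A2 B2) {φ : RP →ₗ[ℝ] ℝ} (hφ : ∀ F ∈ II P Q, φ F = 0) (i : Fin 2) (w : TT) :
    cl φ (w * ((il (X i) - ir (X i)) * (A1 * B2 - B1 * A2))) ∈ II P Q := by
  obtain ⟨s, t, e⟩ := h.xi i
  rw [e]
  have : w * ((il P - ir P) * s + (il Q - ir Q) * t) = (il P - ir P) * (w * s) + (il Q - ir Q) * (w * t) := by ring
  rw [this, map_add]
  exact Ideal.add_mem _ (cl_mem hφ PI _) (cl_mem hφ QI _)

lemma step_r (h : BD m P Q A1 B1 A2 B2) {φ : RP →ₗ[ℝ] ℝ} (hφ : ∀ F ∈ II P Q, φ F = 0) (i : Fin 2) (w : TT) :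
    cr φ (w * ((il (X i) - ir (X i)) * (A1 * B2 - B1 * A2))) ∈ II P Q := by
  obtain ⟨s, t, e⟩ := h.xi i
  rw [e]
  have : w * ((il P - ir P) * s + (il Q - ir Q) * t) = (il P - ir P) * (w * s) + (il Q - ir Q) * (w * t) := by ring
  rw [this, map_add]
  exact Ideal.add_mem _ (cr_mem hφ PI _) (cr_mem hφ QI _)

/-- reproducing property, left -/
theorem rep_l (h : BD m P Q A1 B1 A2 B2) {φ : RP →ₗ[ℝ] ℝ} (hφ : ∀ F ∈ II P Q, φ F = 0) (F : RP) :
    cl φ (il F * (A1 * B2 - B1 * A2)) - F * cl φ (A1 * B2 - B1 * A2) ∈ II P Q := by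
  induction F using MvPolynomial.induction_on with
  | C a => rw [il_C, cl_ir, sub_self]; exact Ideal.zero_mem _
  | add p q hp hq =>
    rw [il_add, add_mul, map_add]
    have := Ideal.add_mem _ hp hq
    convert this using 1
    ring
  | mul_X p i hp =>
    have e : il (p * X i) * (A1 * B2 - B1 * A2) = il p * ((il (X i) - ir (X i)) * (A1 * B2 - B1 * A2)) +
        ir (X i) * (il p * (A1 * B2 - B1 * A2)) := by rw [il_mul]; ring
    rw [e, map_add, cl_ir]
    have := Ideal.add_mem _ (h.step_l hφ i (il p)) (Ideal.mul_mem_left _ (X i) hp)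
    convert this using 1
    ring

/-- reproducing property, right -/
theorem rep_r (h : BD m P Q A1 B1 A2 B2) {φ : RP →ₗ[ℝ] ℝ} (hφ : ∀ F ∈ II P Q, φ F = 0) (F : RP) :
    F * cr φ (A1 * B2 - B1 * A2) - cr φ (ir F * (A1 * B2 - B1 * A2)) ∈ II P Q := by
  induction F using MvPolynomial.induction_on with
  | C a => rw [← il_C, cr_il, sub_self]; exact Ideal.zero_mem _
  | add p q hp hq =>
    rw [ir_add, add_mul, add_mul, map_add]
    have := Ideal.add_mem _ hp hq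
    convert this using 1
    ring
  | mul_X p i hp =>
    have h1 := h.step_r hφ i (ir p)
    obtain ⟨W, hW⟩ : ∃ W, W = A1 * B2 - B1 * A2 := ⟨_, rfl⟩
    rw [← hW] at hp h1 ⊢
    have e : ir (p * X i) * W = il (X i) * (ir p * W) - ir p * ((il (X i) - ir (X i)) * W) := by rw [ir_mul]; ring
    rw [e, map_sub, cr_il]
    have := Ideal.add_mem _ (Ideal.mul_mem_left _ (X i) hp) h1
    convert this using 1
    ring

end BD

/-- functionals of low degree contract to constants -/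
lemma cl_const {m : ℕ} {L : RP →ₗ[ℝ] ℝ} (hL : ∀ F, Dle (2 * m + 1) F → L F = 0) {t : TT} (ht : TD (2 * m + 2) t) :
    ∃ c : ℝ, cl L t = C c := by
  induction ht using Submodule.span_induction with
  | zero => exact ⟨0, by simp⟩
  | add x y _ _ hx hy =>
    obtain ⟨a, ha⟩ := hx
    obtain ⟨b, hb⟩ := hy
    exact ⟨a + b, by rw [map_add, ha, hb, C_add]⟩
  | smul c x _ hx =>
    obtain ⟨a, ha⟩ := hx
    exact ⟨c * a, by rw [map_smul, ha, smul_eq_C_mul, C_mul]⟩
  | mem x hx =>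
    obtain ⟨u, v, a, b, h1, h2, h3, rfl⟩ := hx
    rw [cl_tmul]
    by_cases ha : a ≤ 2 * m + 1
    · exact ⟨0, by rw [hL u (h1.mono ha), C_0, zero_mul]⟩
    · have hb : b = 0 := by omega
      rw [hb] at h2
      refine ⟨L u * coeff 0 v, ?_⟩
      rw [C_mul, ← totalDegree_eq_zero_iff_eq_C.1 (Nat.le_zero.1 h2)]

/-- evaluation as a linear functional -/
noncomputable def ev (p : Fin 2 → ℝ) : RP →ₗ[ℝ] ℝ := (aeval p : RP →ₐ[ℝ] ℝ).toLinearMap

lemma ev_apply (p : Fin 2 → ℝ) (F : RP) : ev p F = eval p F := by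
  unfold ev; simp [aeval_eq_eval]

lemma cr_ev_mul (p : Fin 2 → ℝ) (s t : TT) : cr (ev p) (s * t) = cr (ev p) s * cr (ev p) t := by
  induction s using TensorProduct.induction_on with
  | zero => simp
  | add a b ha hb => rw [add_mul, map_add, map_add, ha, hb, add_mul]
  | tmul u v =>
    induction t using TensorProduct.induction_on with
    | zero => simp
    | add a b ha hb => rw [mul_add, map_add, map_add, ha, hb, mul_add]
    | tmul u' v' =>
      rw [Algebra.TensorProduct.tmul_mul_tmul, cr_tmul, cr_tmul, cr_tmul, ev_apply, ev_apply, ev_apply, map_mul, C_mul]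
      ring

lemma cr_ev_il (p : Fin 2 → ℝ) (F : RP) : cr (ev p) (il F) = F := by
  unfold il; rw [cr_tmul, ev_apply, map_one, C_1, one_mul]
lemma cr_ev_ir (p : Fin 2 → ℝ) (F : RP) : cr (ev p) (ir F) = C (eval p F) := by
  unfold ir; rw [cr_tmul, ev_apply, mul_one]

lemma cr_ev_deg (p : Fin 2 → ℝ) {n : ℕ} {t : TT} (ht : TD n t) : Dle n (cr (ev p) t) := by
  induction ht using Submodule.span_induction with
  | zero => rw [map_zero]; exact Dle.zero
  | add x y _ _ hx hy => rw [map_add]; exact hx.add hy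
  | smul c x _ hx => rw [map_smul, smul_eq_C_mul]; exact (Dle.C (n := 0) _).mul hx (by omega)
  | mem x hx =>
    obtain ⟨u, v, a, b, h1, h2, h3, rfl⟩ := hx
    rw [cr_tmul]
    exact (Dle.C (n := 0) _).mul h1 (by omega)

end Run7.h256.Bz
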