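import Mathlib
import Pool.Agent.Run7.h256.R5

set_option autoImplicit false

namespace Run7.h256.Bz

open MvPolynomial TensorProduct

/-- separating polynomial -/
lemma interp (Z : Finset (Fin 2 → ℝ)) (p : Fin 2 → ℝ) : ∃ e : RP, eval p e = 1 ∧ ∀ q ∈ Z, q ≠ p → eval q e = 0 := by
  classical
  induction Z using Finset.induction_on with
  | empty => exact ⟨1, by simp, by simp⟩
  | insert a s _ ih =>
    obtain ⟨e, h1, h2⟩ := ih
    by_cases ha : a = p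
    · refine ⟨e, h1, ?_⟩
      intro q hq hne
      rcases Finset.mem_insert.1 hq with h3 | h3
      · exact absurd (h3.trans ha) hne
      · exact h2 q h3 hne
    · obtain ⟨i, hi⟩ : ∃ i, a i ≠ p i := by
        by_contra hc
        push Not at hc
        exact ha (funext hc)
      have hi' : p i - a i ≠ 0 := sub_ne_zero.2 (Ne.symm hi)
      refine ⟨e * (C (p i - a i)⁻¹ * (X i - C (a i))), ?_, ?_⟩
      · rw [map_mul, h1, map_mul, eval_C, map_sub, eval_X, eval_C, inv_mul_cancel₀ hi', one_mul]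
      · intro q hq hne
        rcases Finset.mem_insert.1 hq with h3 | h3
        · rw [map_mul, map_mul, map_sub, eval_X, eval_C, eval_C, h3, sub_self, mul_zero, mul_zero]
        · rw [map_mul, h2 q h3 hne, zero_mul]

namespace BD

variable {m : ℕ} {P Q : RP} {A1 B1 A2 B2 : TT}

lemma at_pt (h : BD m P Q A1 B1 A2 B2) {p : Fin 2 → ℝ} (hP : eval p P = 0) (hQ : eval p Q = 0) :
    P = (X 0 - C (p 0)) * cr (ev p) A1 + (X 1 - C (p 1)) * cr (ev p) B1 ∧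
    Q = (X 0 - C (p 0)) * cr (ev p) A2 + (X 1 - C (p 1)) * cr (ev p) B2 := by
  have h1 := congrArg (cr (ev p)) h.eP
  have h2 := congrArg (cr (ev p)) h.eQ
  rw [map_sub, map_add, cr_ev_mul, cr_ev_mul, map_sub, map_sub, cr_ev_il, cr_ev_ir, cr_ev_il, cr_ev_ir, cr_ev_il,
    cr_ev_ir, eval_X, eval_X, hP, C_0, sub_zero] at h1
  rw [map_sub, map_add, cr_ev_mul, cr_ev_mul, map_sub, map_sub, cr_ev_il, cr_ev_ir, cr_ev_il, cr_ev_ir, cr_ev_il,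
    cr_ev_ir, eval_X, eval_X, hQ, C_0, sub_zero] at h2
  exact ⟨h1, h2⟩

lemma bz_pt (p : Fin 2 → ℝ) : cr (ev p) (A1 * B2 - B1 * A2) =
    cr (ev p) A1 * cr (ev p) B2 - cr (ev p) B1 * cr (ev p) A2 := by
  rw [map_sub, cr_ev_mul, cr_ev_mul]

lemma delta_eval (h : BD m P Q A1 B1 A2 B2) {p : Fin 2 → ℝ} (hP : eval p P = 0) (hQ : eval p Q = 0) :
    eval p (cr (ev p) (A1 * B2 - B1 * A2)) = eval p (Jac P Q) := by
  obtain ⟨h1, h2⟩ := h.at_pt hP hQ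
  rw [bz_pt]
  obtain ⟨a1, ha1⟩ : ∃ a, a = cr (ev p) A1 := ⟨_, rfl⟩
  obtain ⟨b1, hb1⟩ : ∃ a, a = cr (ev p) B1 := ⟨_, rfl⟩
  obtain ⟨a2, ha2⟩ : ∃ a, a = cr (ev p) A2 := ⟨_, rfl⟩
  obtain ⟨b2, hb2⟩ : ∃ a, a = cr (ev p) B2 := ⟨_, rfl⟩
  rw [← ha1, ← hb1] at h1 ⊢
  rw [← ha2, ← hb2] at h2 ⊢
  simp only [Jac]
  rw [h1, h2]
  simp [pderiv_X]

lemma delta_mul (h : BD m P Q A1 B1 A2 B2) {p : Fin 2 → ℝ} (hP : eval p P = 0) (hQ : eval p Q = 0) (F : RP) :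
    F * cr (ev p) (A1 * B2 - B1 * A2) - C (eval p F) * cr (ev p) (A1 * B2 - B1 * A2) ∈ II P Q := by
  have hk : ∀ G ∈ II P Q, ev p G = 0 := fun G hG => by rw [ev_apply]; exact II_eval hG hP hQ
  have h1 := h.rep_r hk F
  rwa [cr_ev_mul p (ir F), cr_ev_ir] at h1

/-- the Bezoutian at a zero is not in the ideal -/
theorem delta_notMem (h : BD m P Q A1 B1 A2 B2) (hrel : IsRelPrime P Q) {p : Fin 2 → ℝ} (hP : eval p P = 0)
    (hQ : eval p Q = 0) : cr (ev p) (A1 * B2 - B1 * A2) ∉ II P Q := by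
  intro hmem
  obtain ⟨h1, h2⟩ := h.at_pt hP hQ
  rw [bz_pt] at hmem
  obtain ⟨a1, ha1⟩ : ∃ a, a = cr (ev p) A1 := ⟨_, rfl⟩
  obtain ⟨b1, hb1⟩ : ∃ a, a = cr (ev p) B1 := ⟨_, rfl⟩
  obtain ⟨a2, ha2⟩ : ∃ a, a = cr (ev p) A2 := ⟨_, rfl⟩
  obtain ⟨b2, hb2⟩ : ∃ a, a = cr (ev p) B2 := ⟨_, rfl⟩
  rw [← ha1, ← hb1] at h1
  rw [← ha2, ← hb2] at h2
  rw [← ha1, ← hb1, ← ha2, ← hb2] at hmem
  obtain ⟨u, v, huv⟩ := mem_II.1 hmem
  obtain ⟨c, hc1, hc2⟩ := split_prop' (u := -((X 0 - C (p 0)) * v + b1)) (v := (X 0 - C (p 0)) * u - b2) hrel (by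
    linear_combination (X 0 - C (p 0)) * huv - b2 * h1 + b1 * h2)
  obtain ⟨d, hd1, hd2⟩ := split_prop' (u := -((X 1 - C (p 1)) * v - a1)) (v := (X 1 - C (p 1)) * u + a2) hrel (by
    linear_combination (X 1 - C (p 1)) * huv + a2 * h1 - a1 * h2)
  have key : P * (1 - (X 0 - C (p 0)) * d + (X 1 - C (p 1)) * c) = 0 := by
    linear_combination h1 + (X 0 - C (p 0)) * hd1 - (X 1 - C (p 1)) * hc1
  rcases mul_eq_zero.1 key with h3 | h3
  · rw [h3] at hrel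
    have hu : IsUnit Q := hrel (dvd_zero Q) dvd_rfl
    obtain ⟨W, hW⟩ := hu.exists_right_inv
    have := congrArg (eval p) hW
    rw [map_mul, hQ, zero_mul, map_one] at this
    exact zero_ne_one this
  · have := congrArg (eval p) h3
    simp at this

/-- dual functionals -/
theorem exists_dual (h : BD m P Q A1 B1 A2 B2) (hrel : IsRelPrime P Q) (Z : Finset (Fin 2 → ℝ))
    (hZ : ∀ z ∈ Z, eval z P = 0 ∧ eval z Q = 0) {p : Fin 2 → ℝ} (hp : p ∈ Z) :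
    ∃ φ : RP →ₗ[ℝ] ℝ, (∀ F ∈ II P Q, φ F = 0) ∧ φ (cr (ev p) (A1 * B2 - B1 * A2)) = 1 ∧
      ∀ q ∈ Z, q ≠ p → φ (cr (ev q) (A1 * B2 - B1 * A2)) = 0 := by
  have hn := h.delta_notMem hrel (hZ p hp).1 (hZ p hp).2
  obtain ⟨K, hK⟩ : ∃ K : Submodule ℝ RP, K = (II P Q).restrictScalars ℝ := ⟨_, rfl⟩
  have hn' : cr (ev p) (A1 * B2 - B1 * A2) ∉ K := by rw [hK]; exact hn
  obtain ⟨θ, hθ1, hθ2⟩ := Submodule.exists_le_ker_of_notMem hn'
  obtain ⟨e, he1, he2⟩ := interp Z p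
  obtain ⟨t, ht⟩ : ∃ t, t = θ (cr (ev p) (A1 * B2 - B1 * A2)) := ⟨_, rfl⟩
  have ht0 : t ≠ 0 := by rw [ht]; exact hθ1
  have hker : ∀ F ∈ II P Q, θ F = 0 := by
    intro F hF
    exact LinearMap.mem_ker.1 (hθ2 (by rw [hK]; exact hF))
  have hval : ∀ q ∈ Z, θ (e * cr (ev q) (A1 * B2 - B1 * A2)) = eval q e * θ (cr (ev q) (A1 * B2 - B1 * A2)) := by
    intro q hq
    have h1 := hker _ (h.delta_mul (hZ q hq).1 (hZ q hq).2 e)
    rw [map_sub, sub_eq_zero, L_Ck] at h1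
    exact h1
  refine ⟨t⁻¹ • (θ ∘ₗ (LinearMap.mulLeft ℝ e)), ?_, ?_, ?_⟩
  · intro F hF
    simp only [LinearMap.smul_apply, LinearMap.comp_apply, LinearMap.mulLeft_apply]
    rw [hker _ (Ideal.mul_mem_left _ _ hF), smul_zero]
  · simp only [LinearMap.smul_apply, LinearMap.comp_apply, LinearMap.mulLeft_apply]
    rw [hval p hp, he1, one_mul, ← ht, smul_eq_mul, inv_mul_cancel₀ ht0]
  · intro q hq hne
    simp only [LinearMap.smul_apply, LinearMap.comp_apply, LinearMap.mulLeft_apply]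
    rw [hval q hq, he2 q hq hne, zero_mul, smul_zero]

end BD

end Run7.h256.Bz
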