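import Mathlib
import Pool.Agent.Run7.h256.R6
import Pool.Agent.Run7.h256.R3

set_option autoImplicit false

namespace Run7.h256.Bz

open MvPolynomial TensorProduct

lemma X01_split {u v : RP} (h : X 0 * u + X 1 * v = 0) : ∃ K : RP, u = X 1 * K ∧ v = -(X 0 * K) := by
  obtain ⟨c, h1, h2⟩ := split_prop' (a := (X 0 : RP)) (b := X 1) (u := -v) (v := u) relPrime_X01 (by
    linear_combination h)
  exact ⟨c, h2, by linear_combination -h1⟩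

lemma Dle_of_X {n : ℕ} {K : RP} (i : Fin 2) (h : Dle (n + 1) (X i * K)) : Dle n K := by
  by_cases hK : K = 0
  · rw [hK]; exact Dle.zero
  · unfold Dle at h ⊢
    rw [totalDegree_mul_of_isDomain (X_ne_zero i) hK, totalDegree_X] at h
    omega

lemma L_C_mul (L : RP →ₗ[ℝ] ℝ) (a : ℝ) (F : RP) : L (C a * F) = a * L F := by
  rw [← smul_eq_C_mul, map_smul, smul_eq_mul]

/-- the top Jacobian and Bezoutians -/
lemma bez_top {m : ℕ} {P Q : RP} {L : RP →ₗ[ℝ] ℝ} (hP : Dle (m + 2) P) (hQ : Dle (m + 2) Q) (hL : Rn m P Q L)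
    {a1 b1 a2 b2 : RP} {c c2 : ℝ} (d1 : Dle (m + 1) a1) (d2 : Dle (m + 1) b1) (d3 : Dle (m + 1) a2)
    (d4 : Dle (m + 1) b2) (eP : P = X 0 * a1 + X 1 * b1 + C c) (eQ : Q = X 0 * a2 + X 1 * b2 + C c2) :
    ((m + 2 : ℕ) : ℝ) ^ 2 * L (a1 * b2 - b1 * a2) = L (Jac (hc (m + 2) P) (hc (m + 2) Q)) := by
  obtain ⟨A', B', c', hA', hB', eP'⟩ := dec_top hP
  obtain ⟨A₂', B₂', c₂', hA₂', hB₂', eQ'⟩ := dec_top hQ
  obtain ⟨ν, hν⟩ : ∃ ν : ℝ, ν = (((m + 2 : ℕ) : ℝ))⁻¹ := ⟨_, rfl⟩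
  have hνn : ν * ((m + 2 : ℕ) : ℝ) = 1 := by rw [hν]; exact inv_mul_cancel₀ (npos m)
  rw [← hν] at eP' eQ'
  obtain ⟨p0, hp0⟩ : ∃ p0, p0 = pderiv 0 (hc (m + 2) P) := ⟨_, rfl⟩
  obtain ⟨p1, hp1⟩ : ∃ p1, p1 = pderiv 1 (hc (m + 2) P) := ⟨_, rfl⟩
  obtain ⟨q0, hq0⟩ : ∃ q0, q0 = pderiv 0 (hc (m + 2) Q) := ⟨_, rfl⟩
  obtain ⟨q1, hq1⟩ : ∃ q1, q1 = pderiv 1 (hc (m + 2) Q) := ⟨_, rfl⟩
  rw [← hp0, ← hp1] at eP'
  rw [← hq0, ← hq1] at eQ'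
  have dP : Dle (m + 2) (hc (m + 2) P) := homog_DG (hc_homog (m + 2) P)
  have dQ : Dle (m + 2) (hc (m + 2) Q) := homog_DG (hc_homog (m + 2) Q)
  have dp0 : Dle (m + 1) (C ν * p0) := by rw [hp0]; exact (Dle.C (n := 0) _).mul (Dle.pderiv (n := m + 1) dP 0) (by omega)
  have dp1 : Dle (m + 1) (C ν * p1) := by rw [hp1]; exact (Dle.C (n := 0) _).mul (Dle.pderiv (n := m + 1) dP 1) (by omega)
  have dq0 : Dle (m + 1) (C ν * q0) := by rw [hq0]; exact (Dle.C (n := 0) _).mul (Dle.pderiv (n := m + 1) dQ 0) (by omega)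
  have dq1 : Dle (m + 1) (C ν * q1) := by rw [hq1]; exact (Dle.C (n := 0) _).mul (Dle.pderiv (n := m + 1) dQ 1) (by omega)
  have hW : Dle (2 * m + 1) (((C ν * p0 + A') * (C ν * q1 + B₂') - (C ν * p1 + B') * (C ν * q0 + A₂')) -
      C (ν ^ 2) * Jac (hc (m + 2) P) (hc (m + 2) Q)) := by
    have e : ((C ν * p0 + A') * (C ν * q1 + B₂') - (C ν * p1 + B') * (C ν * q0 + A₂')) -
      C (ν ^ 2) * Jac (hc (m + 2) P) (hc (m + 2) Q) =
      (C ν * p0) * B₂' + A' * (C ν * q1 + B₂') - ((C ν * p1) * A₂' + B' * (C ν * q0 + A₂')) := by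
      unfold Jac
      rw [← hp0, ← hp1, ← hq0, ← hq1, C_pow]
      ring
    rw [e]
    exact ((dp0.mul hB₂' (by omega)).add (hA'.mul (dq1.add (hB₂'.mono (by omega))) (by omega))).sub
      ((dp1.mul hA₂' (by omega)).add (hB'.mul (dq0.add (hA₂'.mono (by omega))) (by omega)))
  obtain ⟨s1, hs1⟩ : ∃ s, s = C ν * p0 + A' := ⟨_, rfl⟩
  obtain ⟨t1, ht1⟩ : ∃ s, s = C ν * p1 + B' := ⟨_, rfl⟩
  obtain ⟨s2, hs2⟩ : ∃ s, s = C ν * q0 + A₂' := ⟨_, rfl⟩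
  obtain ⟨t2, ht2⟩ : ∃ s, s = C ν * q1 + B₂' := ⟨_, rfl⟩
  have ds1 : Dle (m + 1) s1 := by rw [hs1]; exact dp0.add (hA'.mono (by omega))
  have dt1 : Dle (m + 1) t1 := by rw [ht1]; exact dp1.add (hB'.mono (by omega))
  have ds2 : Dle (m + 1) s2 := by rw [hs2]; exact dq0.add (hA₂'.mono (by omega))
  have dt2 : Dle (m + 1) t2 := by rw [ht2]; exact dq1.add (hB₂'.mono (by omega))
  rw [← hs1, ← ht1] at eP'
  rw [← hs2, ← ht2] at eQ'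
  rw [← hs1, ← ht1, ← hs2, ← ht2] at hW
  have cc : c = c' := by
    have h1 := congrArg (eval 0) (eP.symm.trans eP')
    simpa using h1
  have cc2 : c2 = c₂' := by
    have h1 := congrArg (eval 0) (eQ.symm.trans eQ')
    simpa using h1
  obtain ⟨K1, hK1, hK1'⟩ := X01_split (u := a1 - s1) (v := b1 - t1) (by
    rw [cc] at eP; linear_combination -eP + eP')
  obtain ⟨K2, hK2, hK2'⟩ := X01_split (u := a2 - s2) (v := b2 - t2) (by
    rw [cc2] at eQ; linear_combination -eQ + eQ')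
  have dK1 : Dle m K1 := Dle_of_X 1 (by rw [← hK1]; exact d1.sub ds1)
  have dK2 : Dle m K2 := Dle_of_X 1 (by rw [← hK2]; exact d3.sub ds2)
  have e : a1 * b2 - b1 * a2 = (s1 * t2 - t1 * s2 - C (ν ^ 2) * Jac (hc (m + 2) P) (hc (m + 2) Q)) +
      (K1 * Q - K2 * P) + (C c * K2 - C c2 * K1) + C (ν ^ 2) * Jac (hc (m + 2) P) (hc (m + 2) Q) := by
    have e1 : a1 = s1 + X 1 * K1 := by linear_combination hK1
    have e2 : b1 = t1 - X 0 * K1 := by linear_combination hK1'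
    have e3 : a2 = s2 + X 1 * K2 := by linear_combination hK2
    have e4 : b2 = t2 - X 0 * K2 := by linear_combination hK2'
    rw [e1, e2, e3, e4, eP', eQ', ← cc, ← cc2]
    ring
  have l1 := hL.low _ hW
  have l2 : L (K1 * Q - K2 * P) = 0 := hL.ker _ (mem_II.2 ⟨-K2, K1, by ring⟩)
  have l3 : L (C c * K2 - C c2 * K1) = 0 := by
    apply hL.low
    exact ((Dle.C (n := 0) _).mul dK2 (by omega)).sub ((Dle.C (n := 0) _).mul dK1 (by omega))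
  rw [e, map_add, map_add, map_add, l1, l2, l3, L_C_mul]
  have : ((m + 2 : ℕ) : ℝ) ^ 2 * ν ^ 2 = 1 := by
    have h2 : ((m + 2 : ℕ) : ℝ) ^ 2 * ν ^ 2 = (ν * ((m + 2 : ℕ) : ℝ)) ^ 2 := by ring
    rw [h2, hνn, one_pow]
  linear_combination (L (Jac (hc (m + 2) P) (hc (m + 2) Q))) * this

/-- the normalized functional contracts the Bezoutian to one -/
theorem cl_one {m : ℕ} {P Q : RP} {A1 B1 A2 B2 : TT} (h : BD m P Q A1 B1 A2 B2) {L : RP →ₗ[ℝ] ℝ}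
    (hP : Dle (m + 2) P) (hQ : Dle (m + 2) Q) (hL : Rn m P Q L)
    (LJ : L (Jac (hc (m + 2) P) (hc (m + 2) Q)) = ((m + 2 : ℕ) : ℝ) ^ 2) :
    cl L (A1 * B2 - B1 * A2) = 1 := by
  obtain ⟨c, hc⟩ := cl_const hL.low h.deg
  have h1 : ev 0 (cl L (A1 * B2 - B1 * A2)) = L (cr (ev 0) (A1 * B2 - B1 * A2)) := cl_cr L (ev 0) _
  have eP : P = X 0 * cr (ev 0) A1 + X 1 * cr (ev 0) B1 + C (eval 0 P) := by
    have h2 := congrArg (cr (ev 0)) h.eP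
    rw [map_sub, map_add, cr_ev_mul, cr_ev_mul, map_sub, map_sub, cr_ev_il, cr_ev_ir, cr_ev_il, cr_ev_ir, cr_ev_il,
      cr_ev_ir, eval_X, eval_X, Pi.zero_apply, Pi.zero_apply, C_0, sub_zero, sub_zero] at h2
    linear_combination h2
  have eQ : Q = X 0 * cr (ev 0) A2 + X 1 * cr (ev 0) B2 + C (eval 0 Q) := by
    have h2 := congrArg (cr (ev 0)) h.eQ
    rw [map_sub, map_add, cr_ev_mul, cr_ev_mul, map_sub, map_sub, cr_ev_il, cr_ev_ir, cr_ev_il, cr_ev_ir, cr_ev_il,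
      cr_ev_ir, eval_X, eval_X, Pi.zero_apply, Pi.zero_apply, C_0, sub_zero, sub_zero] at h2
    linear_combination h2
  have h3 := bez_top hP hQ hL (cr_ev_deg 0 h.dA1) (cr_ev_deg 0 h.dB1) (cr_ev_deg 0 h.dA2) (cr_ev_deg 0 h.dB2) eP eQ
  rw [← BD.bz_pt, ← h1, LJ, hc, ev_apply, eval_C] at h3
  have hn : ((m + 2 : ℕ) : ℝ) ^ 2 ≠ 0 := pow_ne_zero 2 (npos m)
  have h4 : c = 1 := by
    have : ((m + 2 : ℕ) : ℝ) ^ 2 * (c - 1) = 0 := by linear_combination h3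
    rcases mul_eq_zero.1 this with h5 | h5
    · exact absurd h5 hn
    · linarith
  rw [hc, h4, C_1]

/-- representation of functionals -/
theorem repr_cr {m : ℕ} {P Q : RP} {A1 B1 A2 B2 : TT} (h : BD m P Q A1 B1 A2 B2) {L : RP →ₗ[ℝ] ℝ}
    (hP : Dle (m + 2) P) (hQ : Dle (m + 2) Q) (hL : Rn m P Q L)
    (LJ : L (Jac (hc (m + 2) P) (hc (m + 2) Q)) = ((m + 2 : ℕ) : ℝ) ^ 2) {φ : RP →ₗ[ℝ] ℝ}
    (hφ : ∀ F ∈ II P Q, φ F = 0) (F : RP) : L (F * cr φ (A1 * B2 - B1 * A2)) = φ F := by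
  have h1 := h.rep_l hL.ker F
  rw [cl_one h hP hQ hL LJ, mul_one] at h1
  have h2 := hφ _ h1
  rw [map_sub, sub_eq_zero, cl_cr, cr_il] at h2
  exact h2

end Run7.h256.Bz
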