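import Mathlib
import Pool.Agent.Run7.h256.R8
import Pool.Agent.Run7.h256.R7
import Pool.Agent.Run7.h256.Q8

set_option autoImplicit false

namespace Run7.h256.Bz

open MvPolynomial TensorProduct Topology Filter

/-- homogeneous forms in the kernel of the functional have zero root sum -/
theorem ell_zero {m : ℕ} {P Q h : RP} {L : RP →ₗ[ℝ] ℝ} {R : Finset ℂ} (he : En m P Q) (hL : Rn m P Q L) (r : Rt m h R)
    (e1 : hc (m + 2) P = pderiv 1 h) (e2 : hc (m + 2) Q = -pderiv 0 h) {F1 : RP} (hF1h : F1.IsHomogeneous (2 * m + 2))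
    (hL1 : L F1 = 0) : ell h R F1 = 0 := by
  obtain ⟨F', hF', hI⟩ := he.top6 hL (homog_DG hF1h) hL1
  obtain ⟨u, v, hu, hv, huv⟩ := he.mem_red (n := m) hI (by
    exact ((homog_DG hF1h).sub (hF'.mono (by omega))).mono (by omega))
  have key : F1 = hc m u * hc (m + 2) P + hc m v * hc (m + 2) Q := by
    rw [← sub_eq_zero]
    apply homog_D0 (n := 2 * m + 2) (m := 2 * m + 1)
    · have a1 := (hc_homog m u).mul (hc_homog (m + 2) P)
      have a2 := (hc_homog m v).mul (hc_homog (m + 2) Q)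
      rw [show m + (m + 2) = 2 * m + 2 by ring] at a1 a2
      exact hF1h.sub (a1.add a2)
    · have e : F1 - (hc m u * hc (m + 2) P + hc m v * hc (m + 2) Q) = F' +
          (((u - hc m u) * P + hc m u * (P - hc (m + 2) P)) + ((v - hc m v) * Q + hc m v * (Q - hc (m + 2) Q))) := by
        linear_combination (-1 : RP) * huv
      rw [e]
      have t3 : Dle (m + 1) (P - hc (m + 2) P) := sub_hcD (n := m + 1) he.hP
      have t4 : Dle (m + 1) (Q - hc (m + 2) Q) := sub_hcD (n := m + 1) he.hQ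
      have s1 : Dle (2 * m + 1) ((u - hc m u) * P) := (En.subhc_mul hu he.hP).mono (by omega)
      have s2 : Dle (2 * m + 1) ((v - hc m v) * Q) := (En.subhc_mul hv he.hQ).mono (by omega)
      exact hF'.add ((s1.add ((homog_DG (hc_homog m u)).mul t3 (by omega))).add
        (s2.add ((homog_DG (hc_homog m v)).mul t4 (by omega))))
    · omega
  have hadd : ∀ A B : RP, ell h R (A + B) = ell h R A + ell h R B := by
    intro A B
    unfold ell
    rw [← Finset.sum_add_distrib]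
    apply Finset.sum_congr rfl
    intro ξ _
    rw [map_add]; ring
  rw [key, e1, e2]
  have : hc m v * -pderiv 0 h = (-hc m v) * pderiv 0 h := by ring
  rw [this, hadd, r.ky (homog_DG (hc_homog m u)), r.kx (homog_DG (hc_homog m v)).neg, add_zero]

/-- normalized functional -/
theorem exists_LJ {m : ℕ} {P Q h : RP} {R : Finset ℂ} (he : En m P Q) (r : Rt m h R)
    (e1 : hc (m + 2) P = pderiv 1 h) (e2 : hc (m + 2) Q = -pderiv 0 h) :
    ∃ L : RP →ₗ[ℝ] ℝ, Rn m P Q L ∧ L (Jac (hc (m + 2) P) (hc (m + 2) Q)) = ((m + 2 : ℕ) : ℝ) ^ 2 := by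
  obtain ⟨L0, hL0⟩ := he.exists_Rn
  obtain ⟨t, ht⟩ : ∃ t, t = L0 (Jac (hc (m + 2) P) (hc (m + 2) Q)) := ⟨_, rfl⟩
  have hJh : (Jac (hc (m + 2) P) (hc (m + 2) Q)).IsHomogeneous (2 * m + 2) := by
    unfold Jac
    have a := fun i => Rt.pd_homog (n := m + 1) (hc_homog (m + 2) P) i
    have b := fun i => Rt.pd_homog (n := m + 1) (hc_homog (m + 2) Q) i
    have h1 := (a 0).mul (b 1)
    have h2 := (a 1).mul (b 0)
    rw [show m + 1 + (m + 1) = 2 * m + 2 by ring] at h1 h2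
    exact h1.sub h2
  have ht0 : t ≠ 0 := by
    intro h0
    have h1 := ell_zero he hL0 r e1 e2 hJh (by rw [← ht, h0])
    rw [e1, e2, r.kJ, neg_eq_zero] at h1
    have h2 : ((m : ℂ) + 2) ≠ 0 := by exact_mod_cast (by omega : m + 2 ≠ 0)
    have h3 : ((m : ℂ) + 3) ≠ 0 := by exact_mod_cast (by omega : m + 3 ≠ 0)
    exact (mul_ne_zero (pow_ne_zero 2 h2) h3) h1
  obtain ⟨κ, hκ⟩ : ∃ κ : ℝ, κ = ((m + 2 : ℕ) : ℝ) ^ 2 / t := ⟨_, rfl⟩
  have hκ0 : κ ≠ 0 := by rw [hκ]; exact div_ne_zero (pow_ne_zero 2 (npos m)) ht0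
  refine ⟨κ • L0, ⟨fun F hF => by rw [LinearMap.smul_apply, hL0.low F hF, smul_zero],
      fun F hF => by rw [LinearMap.smul_apply, hL0.ker F hF, smul_zero], ?_⟩, ?_⟩
  · intro h0
    apply ht0
    have h1 := congrArg (fun f : RP →ₗ[ℝ] ℝ => f (Jac (hc (m + 2) P) (hc (m + 2) Q))) h0
    simp only [LinearMap.smul_apply, smul_eq_mul, LinearMap.zero_apply] at h1
    rw [ht]
    exact (mul_eq_zero.1 h1).resolve_left hκ0
  · rw [LinearMap.smul_apply, smul_eq_mul, ← ht, hκ, div_mul_cancel₀ _ ht0]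

/-- data of a good perturbation -/
structure Gd (m : ℕ) (P Q : RP) : Prop where
  en : En m P Q
  ex : ∃ h : RP, ∃ R : Finset ℂ, Rt m h R ∧ hc (m + 2) P = pderiv 1 h ∧ hc (m + 2) Q = -pderiv 0 h

/-- small perturbations are good -/
theorem good_pert {m : ℕ} {P Q : RP} (hP : Dle (m + 2) P) (hQ : Dle (m + 2) Q)
    (hK : Dle m (pderiv 0 P + pderiv 1 Q)) : ∃ A B : RP, Dle (m + 2) A ∧ Dle (m + 2) B ∧
      ∀ᶠ ε in 𝓝[>] (0 : ℝ), Gd m (P + C ε * A) (Q + C ε * B) := by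
  obtain ⟨h0, hh0, e1, e2⟩ := top_pot hK
  obtain ⟨A, hA⟩ : ∃ A, A = pderiv 1 (eF m) := ⟨_, rfl⟩
  obtain ⟨B, hB⟩ : ∃ B, B = -pderiv 0 (eF m) := ⟨_, rfl⟩
  have hAh : A.IsHomogeneous (m + 2) := by rw [hA]; exact Rt.pd_homog (eF_homog m) 1
  have hBh : B.IsHomogeneous (m + 2) := by rw [hB]; exact (Rt.pd_homog (eF_homog m) 0).neg
  refine ⟨A, B, homog_DG hAh, homog_DG hBh, ?_⟩
  have hbad := bad_finite hh0
  have hbad2 : {ε : ℝ | eval ![1, 0] (h0 + C ε * eF m) = 0}.Finite := by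
    apply Set.Subsingleton.finite
    intro a ha b hb
    have h1 : eval ![1, 0] (eF m) = 1 := by simp [eF]
    have ha' : eval ![1, 0] (h0 + C a * eF m) = 0 := ha
    have hb' : eval ![1, 0] (h0 + C b * eF m) = 0 := hb
    rw [map_add, map_mul, eval_C, h1] at ha' hb'
    linarith
  filter_upwards [avoid hbad, avoid hbad2] with ε hε1 hε2
  obtain ⟨h, hh⟩ : ∃ h, h = h0 + C ε * eF m := ⟨_, rfl⟩
  have hhh : h.IsHomogeneous (m + 3) := by rw [hh]; exact hh0.add ((eF_homog m).C_mul ε)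
  have h10 : eval ![1, 0] h ≠ 0 := by
    intro h1
    apply hε2
    show eval ![1, 0] (h0 + C ε * eF m) = 0
    rw [← hh]; exact h1
  have hs : ∀ ξ, ec ξ h = 0 → ec ξ (pderiv 0 h) ≠ 0 := by
    intro ξ h1 h2
    apply hε1
    refine ⟨ξ, ?_, ?_⟩
    · rw [hh, map_add, map_mul, ec_C] at h1
      exact h1
    · rw [hh, map_add, Derivation.leibniz, pderiv_C, smul_zero, add_zero, smul_eq_mul, map_add, map_mul, ec_C] at h2
      exact h2
  obtain ⟨R, r⟩ := exists_Rt hhh h10 hs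
  obtain ⟨P', hP'⟩ : ∃ P', P' = P + C ε * A := ⟨_, rfl⟩
  obtain ⟨Q', hQ'⟩ : ∃ Q', Q' = Q + C ε * B := ⟨_, rfl⟩
  rw [← hP', ← hQ']
  have dP : Dle (m + 2) P' := by
    rw [hP']; exact hP.add ((Dle.C (n := 0) _).mul (homog_DG hAh) (by omega))
  have dQ : Dle (m + 2) Q' := by
    rw [hQ']; exact hQ.add ((Dle.C (n := 0) _).mul (homog_DG hBh) (by omega))
  have t1 : hc (m + 2) P' = pderiv 1 h := by
    rw [hP', hc_addn, hc_self (hAh.C_mul ε), hh, map_add, e1, Derivation.leibniz, pderiv_C, smul_zero, add_zero,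
      smul_eq_mul, hA]
  have t2 : hc (m + 2) Q' = -pderiv 0 h := by
    rw [hQ', hc_addn, hc_self (hBh.C_mul ε), hh, map_add, e2, Derivation.leibniz, pderiv_C, smul_zero, add_zero,
      smul_eq_mul, hB]
    ring
  exact ⟨En_of_Rt dP dQ r h10 t1 t2, h, R, r, t1, t2⟩

/-- injectivity for coprime pairs of exact degree -/
lemma inj0 {m : ℕ} {P Q : RP} (hrel : IsRelPrime P Q) (hmax : ¬ (Dle m P ∧ Dle m Q)) :
    ∀ a b : RP, Dle m a → Dle m b → a * P + b * Q = 0 → a = 0 ∧ b = 0 := by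
  intro a b ha hb hab
  obtain ⟨c, h1, h2⟩ := split_prop' (u := -b) (v := a) hrel (by linear_combination hab)
  by_cases hc : c = 0
  · rw [hc, mul_zero] at h1 h2
    exact ⟨h2, by linear_combination -h1⟩
  · exfalso
    apply hmax
    have key : ∀ F G : RP, Dle m G → G = F * c → Dle m F := by
      intro F G hG hFG
      by_cases hF : F = 0
      · rw [hF]; exact Dle.zero
      · unfold Dle at hG ⊢
        rw [hFG, totalDegree_mul_of_isDomain hF hc] at hG
        omega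
    exact ⟨key P _ hb.neg h1, key Q _ ha h2⟩

end Run7.h256.Bz
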