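import Mathlib
import Pool.Agent.Run7.h256.R9

set_option autoImplicit false

namespace Run7.h256.Bz

open MvPolynomial TensorProduct Topology Filter

lemma il_C_mul (ε : ℝ) (t : TT) : il (C ε) * t = ε • t := by
  unfold il
  have h1 : (C ε : RP) = ε • (1 : RP) := by rw [smul_eq_C_mul, mul_one]
  rw [h1, ← TensorProduct.smul_tmul', smul_mul_assoc, ← Algebra.TensorProduct.one_def, one_mul]

lemma cr_addφ (φ ψ : RP →ₗ[ℝ] ℝ) (t : TT) : cr (φ + ψ) t = cr φ t + cr ψ t := by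
  induction t using TensorProduct.induction_on with
  | zero => simp
  | tmul u v => rw [cr_tmul, cr_tmul, cr_tmul, LinearMap.add_apply, C_add, add_mul]
  | add a b ha hb => rw [map_add, map_add, map_add, ha, hb]; ring

lemma cr_smulφ (c : ℝ) (φ : RP →ₗ[ℝ] ℝ) (t : TT) : cr (c • φ) t = c • cr φ t := by
  induction t using TensorProduct.induction_on with
  | zero => simp
  | tmul u v => rw [cr_tmul, cr_tmul, LinearMap.smul_apply, smul_eq_mul, C_mul, smul_eq_C_mul, mul_assoc]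
  | add a b ha hb => rw [map_add, map_add, ha, hb, smul_add]

/-- family of Bezoutians -/
structure Pt (m : ℕ) (P Q A B : RP) (t0 t1 t2 : TT) : Prop where
  bd : ∀ ε : ℝ, ∃ A1 B1 A2 B2 : TT, BD m (P + C ε * A) (Q + C ε * B) A1 B1 A2 B2 ∧
    A1 * B2 - B1 * A2 = t0 + ε • t1 + ε ^ 2 • t2
  bd0 : ∃ A1 B1 A2 B2 : TT, BD m P Q A1 B1 A2 B2 ∧ A1 * B2 - B1 * A2 = t0
  d0 : TD (2 * m + 2) t0
  d1 : TD (2 * m + 2) t1
  d2 : TD (2 * m + 2) t2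

theorem exists_Pt {m : ℕ} {P Q A B : RP} (hP : Dle (m + 2) P) (hQ : Dle (m + 2) Q) (hA : Dle (m + 2) A)
    (hB : Dle (m + 2) B) : ∃ t0 t1 t2 : TT, Pt m P Q A B t0 t1 t2 := by
  obtain ⟨A1, B1, a1, b1, eP⟩ := bdec (m + 1) P hP
  obtain ⟨A2, B2, a2, b2, eQ⟩ := bdec (m + 1) Q hQ
  obtain ⟨E1, F1, c1, d1, eA⟩ := bdec (m + 1) A hA
  obtain ⟨E2, F2, c2, d2, eB⟩ := bdec (m + 1) B hB
  refine ⟨A1 * B2 - B1 * A2, A1 * F2 + E1 * B2 - B1 * E2 - F1 * A2, E1 * F2 - F1 * E2, ?_, ⟨A1, B1, A2, B2,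
    ⟨a1, b1, a2, b2, eP, eQ⟩, rfl⟩, (a1.mul b2 (by omega)).sub (b1.mul a2 (by omega)),
    (((a1.mul d2 (by omega)).add (c1.mul b2 (by omega))).sub (b1.mul c2 (by omega))).sub (d1.mul a2 (by omega)),
    (c1.mul d2 (by omega)).sub (d1.mul c2 (by omega))⟩
  intro ε
  refine ⟨A1 + ε • E1, B1 + ε • F1, A2 + ε • E2, B2 + ε • F2, ⟨a1.add (c1.smul ε), b1.add (d1.smul ε),
    a2.add (c2.smul ε), b2.add (d2.smul ε), ?_, ?_⟩, ?_⟩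
  · rw [il_add, ir_add, il_mul, ir_mul, ← il_C, ← il_C_mul, ← il_C_mul]
    linear_combination eP + il (C ε) * eA
  · rw [il_add, ir_add, il_mul, ir_mul, ← il_C, ← il_C_mul, ← il_C_mul]
    linear_combination eQ + il (C ε) * eB
  · have h2 : ∀ t : TT, ε ^ 2 • t = il (C ε) * (il (C ε) * t) := by
      intro t; rw [il_C_mul, il_C_mul, smul_smul, pow_two]
    rw [h2]
    simp only [← il_C_mul]
    ring

lemma tend {n : ℕ} {Ψ1 Ψ2 : ℝ → (RP →ₗ[ℝ] ℝ)} {φ1 φ2 : RP →ₗ[ℝ] ℝ}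
    (h1 : ∀ u : RP, Dle n u → Tendsto (fun ε => Ψ1 ε u) (𝓝 0) (𝓝 (φ1 u)))
    (h2 : ∀ u : RP, Dle n u → Tendsto (fun ε => Ψ2 ε u) (𝓝 0) (𝓝 (φ2 u))) {t : TT} (ht : TD n t) :
    Tendsto (fun ε => Ψ1 ε (cr (Ψ2 ε) t)) (𝓝 0) (𝓝 (φ1 (cr φ2 t))) := by
  induction ht using Submodule.span_induction with
  | zero => simp
  | add x y _ _ hx hy => simp only [map_add]; exact hx.add hy
  | smul c x _ hx => simp only [map_smul, smul_eq_mul]; exact hx.const_mul c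
  | mem x hx =>
    obtain ⟨u, v, a, b, ha, hb, hab, rfl⟩ := hx
    simp only [cr_tmul, L_C_mul]
    exact (h2 v (hb.mono (by omega))).mul (h1 u (ha.mono (by omega)))

lemma tendB {n : ℕ} {Ψ1 Ψ2 : ℝ → (RP →ₗ[ℝ] ℝ)} {φ1 φ2 : RP →ₗ[ℝ] ℝ}
    (h1 : ∀ u : RP, Dle n u → Tendsto (fun ε => Ψ1 ε u) (𝓝 0) (𝓝 (φ1 u)))
    (h2 : ∀ u : RP, Dle n u → Tendsto (fun ε => Ψ2 ε u) (𝓝 0) (𝓝 (φ2 u))) {t0 t1 t2 : TT} (d0 : TD n t0)
    (d1 : TD n t1) (d2 : TD n t2) :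
    Tendsto (fun ε => Ψ1 ε (cr (Ψ2 ε) (t0 + ε • t1 + ε ^ 2 • t2))) (𝓝 0) (𝓝 (φ1 (cr φ2 t0))) := by
  simp only [map_add, map_smul, smul_eq_mul]
  have e : φ1 (cr φ2 t0) = φ1 (cr φ2 t0) + 0 * φ1 (cr φ2 t1) + 0 ^ 2 * φ1 (cr φ2 t2) := by ring
  rw [e]
  exact ((tend h1 h2 d0).add (tendsto_id.mul (tend h1 h2 d1))).add ((tendsto_id.pow 2).mul (tend h1 h2 d2))

/-- representation for good perturbations -/
lemma repr_good {m : ℕ} {P Q A B : RP} {t0 t1 t2 : TT} (hp : Pt m P Q A B t0 t1 t2) {ε : ℝ}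
    {L : RP →ₗ[ℝ] ℝ} (he : En m (P + C ε * A) (Q + C ε * B)) (hL : Rn m (P + C ε * A) (Q + C ε * B) L)
    (LJ : L (Jac (hc (m + 2) (P + C ε * A)) (hc (m + 2) (Q + C ε * B))) = ((m + 2 : ℕ) : ℝ) ^ 2)
    {φ : RP →ₗ[ℝ] ℝ} (hφ : ∀ F ∈ II (P + C ε * A) (Q + C ε * B), φ F = 0) (F : RP) :
    L (F * cr φ (t0 + ε • t1 + ε ^ 2 • t2)) = φ F := by
  obtain ⟨A1, B1, A2, B2, hb, e⟩ := hp.bd ε
  rw [← e]
  exact repr_cr hb he.hP he.hQ hL LJ hφ F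

/-- symmetry of the Bezoutian form -/
theorem sym0 {m : ℕ} {P Q A B : RP} {t0 t1 t2 : TT} (hP : Dle (m + 2) P) (hQ : Dle (m + 2) Q) (hA : Dle (m + 2) A)
    (hB : Dle (m + 2) B) (hp : Pt m P Q A B t0 t1 t2)
    (hg : ∀ᶠ ε in 𝓝[>] (0 : ℝ), Gd m (P + C ε * A) (Q + C ε * B))
    (hinj : ∀ a b : RP, Dle m a → Dle m b → a * P + b * Q = 0 → a = 0 ∧ b = 0)
    {φ ψ : RP →ₗ[ℝ] ℝ} (hφ : ∀ F ∈ II P Q, φ F = 0) (hψ : ∀ F ∈ II P Q, ψ F = 0) :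
    φ (cr ψ t0) = ψ (cr φ t0) := by
  obtain ⟨Φ', k1, l1⟩ := deform hP hQ hA hB hinj hφ
  obtain ⟨Ψ', k2, l2⟩ := deform hP hQ hA hB hinj hψ
  have a1 := (tendB l1 l2 hp.d0 hp.d1 hp.d2).mono_left (nhdsWithin_le_nhds (s := Set.Ioi (0 : ℝ)))
  have a2 := (tendB l2 l1 hp.d0 hp.d1 hp.d2).mono_left (nhdsWithin_le_nhds (s := Set.Ioi (0 : ℝ)))
  refine tendsto_nhds_unique_of_eventuallyEq a1 a2 ?_
  filter_upwards [hg] with ε hε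
  obtain ⟨h, R, r, e1, e2⟩ := hε.ex
  obtain ⟨L, hL, LJ⟩ := exists_LJ hε.en r e1 e2
  have b1 := repr_good hp hε.en hL LJ (k1 ε hε.en) (cr (Ψ' ε) (t0 + ε • t1 + ε ^ 2 • t2))
  have b2 := repr_good hp hε.en hL LJ (k2 ε hε.en) (cr (Φ' ε) (t0 + ε • t1 + ε ^ 2 • t2))
  rw [← b1, ← b2, mul_comm]

end Run7.h256.Bz
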