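import Mathlib
import Pool.Agent.Run7.h256.S1

set_option autoImplicit false

namespace Run7.h256.Bz

open MvPolynomial TensorProduct Topology Filter Metric

/-- positive definite families of functionals bound the dimension -/
theorem pos_bound {m : ℕ} {P Q A B : RP} {t0 t1 t2 : TT} (hP : Dle (m + 2) P) (hQ : Dle (m + 2) Q) (hA : Dle (m + 2) A)
    (hB : Dle (m + 2) B) (hp : Pt m P Q A B t0 t1 t2)
    (hg : ∀ᶠ ε in 𝓝[>] (0 : ℝ), Gd m (P + C ε * A) (Q + C ε * B))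
    (hinj : ∀ a b : RP, Dle m a → Dle m b → a * P + b * Q = 0 → a = 0 ∧ b = 0)
    {ι : Type} [Fintype ι] {Φ : ι → (RP →ₗ[ℝ] ℝ)} (hΦ : ∀ i, ∀ F ∈ II P Q, Φ i F = 0)
    (hpos : ∀ x : ι → ℝ, x ≠ 0 → 0 < ∑ i, ∑ j, x i * x j * Φ i (cr (Φ j) t0)) :
    2 * Fintype.card ι ≤ (m + 2) ^ 2 + 1 := by
  classical
  have hd := fun i => deform hP hQ hA hB hinj (hΦ i)
  choose Ψ k l using hd
  obtain ⟨g, hgdef⟩ : ∃ g : ℝ → ι → ι → ℝ, g = fun ε i j => Ψ i ε (cr (Ψ j ε) (t0 + ε • t1 + ε ^ 2 • t2)) := ⟨_, rfl⟩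
  have hlim : ∀ i j, Tendsto (fun ε => g ε i j) (𝓝 0) (𝓝 (Φ i (cr (Φ j) t0))) := by
    intro i j
    rw [hgdef]
    exact tendB (l i) (l j) hp.d0 hp.d1 hp.d2
  have hsph : ∀ᶠ ε in 𝓝 (0 : ℝ), ∀ x ∈ sphere (0 : ι → ℝ) 1, 0 < ∑ i, ∑ j, x i * x j * g ε i j := by
    apply IsCompact.eventually_forall_of_forall_eventually (isCompact_sphere _ _)
    intro y hy
    have hy0 : y ≠ 0 := by
      rintro rfl
      simp at hy
    have ht : Tendsto (fun z : ℝ × (ι → ℝ) => ∑ i, ∑ j, z.2 i * z.2 j * g z.1 i j) (𝓝 (0, y))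
        (𝓝 (∑ i, ∑ j, y i * y j * Φ i (cr (Φ j) t0))) := by
      apply tendsto_finsetSum
      intro i _
      apply tendsto_finsetSum
      intro j _
      have c1 : Tendsto (fun z : ℝ × (ι → ℝ) => z.2 i) (𝓝 (0, y)) (𝓝 (y i)) :=
        ((continuous_apply i).comp continuous_snd).tendsto _
      have c2 : Tendsto (fun z : ℝ × (ι → ℝ) => z.2 j) (𝓝 (0, y)) (𝓝 (y j)) :=
        ((continuous_apply j).comp continuous_snd).tendsto _
      have c3 : Tendsto (fun z : ℝ × (ι → ℝ) => g z.1 i j) (𝓝 (0, y)) (𝓝 (Φ i (cr (Φ j) t0))) :=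
        (hlim i j).comp (continuous_fst.tendsto (0, y))
      exact (c1.mul c2).mul c3
    exact ht.eventually (lt_mem_nhds (hpos y hy0))
  obtain ⟨ε, hε, hq⟩ := (hg.and (hsph.filter_mono nhdsWithin_le_nhds)).exists
  obtain ⟨h, R, r, e1, e2⟩ := hε.ex
  obtain ⟨L, hL, LJ⟩ := exists_LJ hε.en r e1 e2
  have hall : ∀ x : ι → ℝ, x ≠ 0 → 0 < ∑ i, ∑ j, x i * x j * g ε i j := by
    intro x hx
    have hn : 0 < ‖x‖ := norm_pos_iff.2 hx
    have h1 := hq (‖x‖⁻¹ • x) (by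
      rw [mem_sphere_zero_iff_norm, norm_smul, norm_inv, norm_norm, inv_mul_cancel₀ hn.ne'])
    have h2 : ∑ i, ∑ j, (‖x‖⁻¹ • x) i * (‖x‖⁻¹ • x) j * g ε i j =
        (‖x‖⁻¹) ^ 2 * ∑ i, ∑ j, x i * x j * g ε i j := by
      rw [Finset.mul_sum]
      apply Finset.sum_congr rfl
      intro i _
      rw [Finset.mul_sum]
      apply Finset.sum_congr rfl
      intro j _
      simp only [Pi.smul_apply, smul_eq_mul]
      ring
    rw [h2] at h1
    exact (pos_iff_pos_of_mul_pos h1).1 (by positivity)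
  apply ham_gen2 hε.en hL LJ (G := fun i => cr (Ψ i ε) (t0 + ε • t1 + ε ^ 2 • t2)) ?_ r e1 e2
  intro x hx
  have h1 := hall x hx
  have h2 : L ((∑ i, C (x i) * cr (Ψ i ε) (t0 + ε • t1 + ε ^ 2 • t2)) *
      (∑ i, C (x i) * cr (Ψ i ε) (t0 + ε • t1 + ε ^ 2 • t2))) = ∑ i, ∑ j, x i * x j * g ε i j := by
    rw [Finset.sum_mul_sum, map_sum]
    apply Finset.sum_congr rfl
    intro i _
    rw [map_sum]
    apply Finset.sum_congr rfl
    intro j _
    have h3 := repr_good hp hε.en hL LJ (k i ε hε.en) (cr (Ψ j ε) (t0 + ε • t1 + ε ^ 2 • t2))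
    have h4 : C (x i) * cr (Ψ i ε) (t0 + ε • t1 + ε ^ 2 • t2) * (C (x j) * cr (Ψ j ε) (t0 + ε • t1 + ε ^ 2 • t2)) =
        C (x i * x j) * (cr (Ψ j ε) (t0 + ε • t1 + ε ^ 2 • t2) * cr (Ψ i ε) (t0 + ε • t1 + ε ^ 2 • t2)) := by
      rw [C_mul]; ring
    rw [h4, L_C_mul, h3, hgdef]
  rw [h2]
  exact h1

/-- zeros with positive Jacobian and degenerate zeros -/
theorem count_all {m : ℕ} {P Q : RP} (hP : Dle (m + 2) P) (hQ : Dle (m + 2) Q) (hrel : IsRelPrime P Q)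
    (hmax : ¬ (Dle m P ∧ Dle m Q)) (hK : Dle m (pderiv 0 P + pderiv 1 Q)) {S D : Finset (Fin 2 → ℝ)}
    (hS : ∀ s ∈ S, eval s P = 0 ∧ eval s Q = 0) (hJ : ∀ s ∈ S, 0 < eval s (Jac P Q))
    (hD : ∀ s ∈ D, eval s P = 0 ∧ eval s Q = 0) (hJD : ∀ s ∈ D, eval s (Jac P Q) = 0) :
    2 * (S.card + D.card) ≤ (m + 2) ^ 2 + 1 := by
  classical
  obtain ⟨A, B, hA, hB, hg⟩ := good_pert hP hQ hK
  obtain ⟨t0, t1, t2, hp⟩ := exists_Pt hP hQ hA hB
  have hinj := inj0 hrel hmax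
  obtain ⟨A1, B1, A2, B2, hb, ht0⟩ := hp.bd0
  have hsd : ∀ s ∈ S, ∀ p ∈ D, s ≠ p := by
    intro s hs p hpD h0
    have h1 := hJ s hs
    rw [h0, hJD p hpD] at h1
    exact lt_irrefl _ h1
  have hZ : ∀ z ∈ S ∪ D, eval z P = 0 ∧ eval z Q = 0 := by
    intro z hz
    rcases Finset.mem_union.1 hz with h1 | h1
    · exact hS z h1
    · exact hD z h1
  have hθ : ∀ p : Fin 2 → ℝ, ∃ θ : RP →ₗ[ℝ] ℝ, p ∈ D → ((∀ F ∈ II P Q, θ F = 0) ∧ θ (cr (ev p) t0) = 1 ∧
      ∀ q ∈ S ∪ D, q ≠ p → θ (cr (ev q) t0) = 0) := by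
    intro p
    by_cases hpD : p ∈ D
    · obtain ⟨θ, h1, h2, h3⟩ := hb.exists_dual hrel (S ∪ D) hZ (Finset.mem_union_right _ hpD)
      rw [ht0] at h2
      simp only [ht0] at h3
      exact ⟨θ, fun _ => ⟨h1, h2, h3⟩⟩
    · exact ⟨0, fun h => absurd h hpD⟩
  choose θ hθ using hθ
  have kev : ∀ z ∈ S ∪ D, ∀ F ∈ II P Q, ev z F = 0 := fun z hz F hF => by
    rw [ev_apply]; exact II_eval hF (hZ z hz).1 (hZ z hz).2
  have symm : ∀ {φ ψ : RP →ₗ[ℝ] ℝ}, (∀ F ∈ II P Q, φ F = 0) → (∀ F ∈ II P Q, ψ F = 0) →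
      φ (cr ψ t0) = ψ (cr φ t0) := fun h1 h2 => sym0 hP hQ hA hB hp hg hinj h1 h2
  have dz : ∀ z ∈ S ∪ D, ∀ w ∈ S ∪ D, w ≠ z → ev w (cr (ev z) t0) = 0 := by
    intro z hz w hw hne
    rw [ev_apply]
    apply delta_other (w := z) _ (hZ w hw).1 (hZ w hw).2 hne
    intro F
    have := hb.delta_mul (hZ z hz).1 (hZ z hz).2 F
    rwa [ht0] at this
  have dd : ∀ z ∈ S ∪ D, ev z (cr (ev z) t0) = eval z (Jac P Q) := by
    intro z hz
    rw [ev_apply, ← ht0]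
    exact hb.delta_eval (hZ z hz).1 (hZ z hz).2
  have mS : ∀ s : S, s.1 ∈ S ∪ D := fun s => Finset.mem_union_left _ s.2
  have mD : ∀ s : D, s.1 ∈ S ∪ D := fun s => Finset.mem_union_right _ s.2
  obtain ⟨M, hM⟩ : ∃ M : D → D → ℝ, M = fun p q => θ p.1 (cr (θ q.1) t0) := ⟨_, rfl⟩
  obtain ⟨κ, hκ⟩ : ∃ κ : ℝ, κ = (∑ p, ∑ q, |M p q|) + 1 := ⟨_, rfl⟩
  obtain ⟨Φ, hΦ⟩ : ∃ Φ : (S ⊕ D) → (RP →ₗ[ℝ] ℝ), Φ = Sum.elim (fun s => ev s.1) (fun p => κ • ev p.1 + θ p.1) := ⟨_, rfl⟩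
  have Φl : ∀ s : S, Φ (Sum.inl s) = ev s.1 := fun s => by rw [hΦ]; rfl
  have Φr : ∀ p : D, Φ (Sum.inr p) = κ • ev p.1 + θ p.1 := fun s => by rw [hΦ]; rfl
  have hkill : ∀ i, ∀ F ∈ II P Q, Φ i F = 0 := by
    intro i F hF
    rcases i with s | p
    · rw [Φl]; exact kev s.1 (mS s) F hF
    · rw [Φr, LinearMap.add_apply, LinearMap.smul_apply, kev p.1 (mD p) F hF, (hθ p.1 p.2).1 F hF, smul_zero, add_zero]
  have g11 : ∀ s s' : S, Φ (Sum.inl s) (cr (Φ (Sum.inl s')) t0) = if s = s' then eval s.1 (Jac P Q) else 0 := by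
    intro s s'
    rw [Φl, Φl]
    split_ifs with h1
    · rw [← h1]; exact dd s.1 (mS s)
    · exact dz s'.1 (mS s') s.1 (mS s) (fun h2 => h1 (Subtype.ext h2))
  have g21 : ∀ (p : D) (s : S), Φ (Sum.inr p) (cr (Φ (Sum.inl s)) t0) = 0 := by
    intro p s
    have hne : s.1 ≠ p.1 := hsd s.1 s.2 p.1 p.2
    rw [Φl, Φr, LinearMap.add_apply, LinearMap.smul_apply, dz s.1 (mS s) p.1 (mD p) hne.symm,
      (hθ p.1 p.2).2.2 s.1 (mS s) hne, smul_zero, add_zero]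
  have g12 : ∀ (s : S) (p : D), Φ (Sum.inl s) (cr (Φ (Sum.inr p)) t0) = 0 := by
    intro s p
    rw [symm (hkill _) (hkill _)]
    exact g21 p s
  have g22 : ∀ p q : D, Φ (Sum.inr p) (cr (Φ (Sum.inr q)) t0) = (if p = q then 2 * κ else 0) + M p q := by
    intro p q
    have h1 : ev p.1 (cr (ev q.1) t0) = 0 := by
      by_cases hpq : p = q
      · rw [hpq, dd q.1 (mD q), hJD q.1 q.2]
      · exact dz q.1 (mD q) p.1 (mD p) (fun h2 => hpq (Subtype.ext h2))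
    have h2 : ∀ p q : D, θ p.1 (cr (ev q.1) t0) = if p = q then 1 else 0 := by
      intro p q
      split_ifs with h3
      · rw [h3]; exact (hθ q.1 q.2).2.1
      · exact (hθ p.1 p.2).2.2 q.1 (mD q) (fun h4 => h3 (Subtype.ext h4.symm))
    have h3 : ev p.1 (cr (θ q.1) t0) = if p = q then 1 else 0 := by
      rw [symm (kev p.1 (mD p)) (hθ q.1 q.2).1, h2 q p]
      by_cases h4 : p = q
      · rw [if_pos h4, if_pos h4.symm]
      · rw [if_neg h4, if_neg (fun h5 => h4 h5.symm)]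
    rw [Φr, Φr, cr_addφ, cr_smulφ, LinearMap.add_apply, LinearMap.smul_apply, map_add, map_add, map_smul, map_smul, h1,
      h2 p q, h3, hM]
    simp only [smul_eq_mul]
    split_ifs with h4
    · ring
    · ring
  have hmain := pos_bound hP hQ hA hB hp hg hinj hkill (fun x hx => by
    rw [Fintype.sum_sum_type]
    simp only [Fintype.sum_sum_type, g11, g12, g21, g22, mul_zero, Finset.sum_const_zero, add_zero, zero_add]
    have e1 : ∀ s : S, ∑ s' : S, x (Sum.inl s) * x (Sum.inl s') * (if s = s' then eval s.1 (Jac P Q) else 0) =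
        x (Sum.inl s) ^ 2 * eval s.1 (Jac P Q) := by
      intro s
      rw [Finset.sum_eq_single s]
      · rw [if_pos rfl]; ring
      · intro b _ hb'; rw [if_neg (Ne.symm hb'), mul_zero]
      · intro h0; exact absurd (Finset.mem_univ _) h0
    have e2 : ∀ p : D, ∑ q : D, x (Sum.inr p) * x (Sum.inr q) * ((if p = q then 2 * κ else 0) + M p q) =
        2 * κ * x (Sum.inr p) ^ 2 + ∑ q : D, x (Sum.inr p) * x (Sum.inr q) * M p q := by
      intro p
      have : ∀ q : D, x (Sum.inr p) * x (Sum.inr q) * ((if p = q then 2 * κ else 0) + M p q) =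
          (if p = q then 2 * κ * x (Sum.inr p) ^ 2 else 0) + x (Sum.inr p) * x (Sum.inr q) * M p q := by
        intro q
        split_ifs with h1
        · rw [← h1]; ring
        · ring
      rw [Finset.sum_congr rfl (fun q _ => this q), Finset.sum_add_distrib, Finset.sum_ite_eq, if_pos (Finset.mem_univ _)]
    simp only [e1, e2, Finset.sum_add_distrib]
    obtain ⟨Y, hY⟩ : ∃ Y : ℝ, Y = ∑ p : D, x (Sum.inr p) ^ 2 := ⟨_, rfl⟩
    have hY0 : 0 ≤ Y := by rw [hY]; exact Finset.sum_nonneg (fun _ _ => sq_nonneg _)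
    have hxY : ∀ p q : D, |x (Sum.inr p) * x (Sum.inr q)| ≤ Y := by
      intro p q
      have a1 : x (Sum.inr p) ^ 2 ≤ Y := by
        rw [hY]; exact Finset.single_le_sum (f := fun p : D => x (Sum.inr p) ^ 2) (fun _ _ => sq_nonneg _) (Finset.mem_univ p)
      have a2 : x (Sum.inr q) ^ 2 ≤ Y := by
        rw [hY]; exact Finset.single_le_sum (f := fun p : D => x (Sum.inr p) ^ 2) (fun _ _ => sq_nonneg _) (Finset.mem_univ q)
      rw [abs_le]
      constructor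
      · nlinarith [sq_nonneg (x (Sum.inr p) + x (Sum.inr q))]
      · nlinarith [sq_nonneg (x (Sum.inr p) - x (Sum.inr q))]
    have hMb : -((κ - 1) * Y) ≤ ∑ p : D, ∑ q : D, x (Sum.inr p) * x (Sum.inr q) * M p q := by
      have : (κ - 1) * Y = ∑ p : D, ∑ q : D, |M p q| * Y := by
        rw [hκ, add_sub_cancel_right, Finset.sum_mul]
        apply Finset.sum_congr rfl
        intro p _
        rw [Finset.sum_mul]
      rw [this, ← Finset.sum_neg_distrib]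
      apply Finset.sum_le_sum
      intro p _
      rw [← Finset.sum_neg_distrib]
      apply Finset.sum_le_sum
      intro q _
      have b1 : |x (Sum.inr p) * x (Sum.inr q) * M p q| ≤ |M p q| * Y := by
        rw [abs_mul, mul_comm]
        exact mul_le_mul_of_nonneg_left (hxY p q) (abs_nonneg _)
      exact (abs_le.1 b1).1
    have hκ1 : 1 ≤ κ := by
      rw [hκ]
      have : 0 ≤ ∑ p : D, ∑ q : D, |M p q| := Finset.sum_nonneg (fun _ _ => Finset.sum_nonneg (fun _ _ => abs_nonneg _))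
      linarith
    have hX0 : 0 ≤ ∑ s : S, x (Sum.inl s) ^ 2 * eval s.1 (Jac P Q) :=
      Finset.sum_nonneg (fun s _ => mul_nonneg (sq_nonneg _) (hJ s.1 s.2).le)
    have hsumY : ∑ p : D, 2 * κ * x (Sum.inr p) ^ 2 = 2 * κ * Y := by rw [hY, Finset.mul_sum]
    rw [hsumY]
    by_cases hY' : Y = 0
    · have hr : ∀ p : D, x (Sum.inr p) = 0 := by
        intro p
        rw [hY, Finset.sum_eq_zero_iff_of_nonneg (fun _ _ => sq_nonneg _)] at hY'
        exact pow_eq_zero_iff (by norm_num) |>.1 (hY' p (Finset.mem_univ p))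
      obtain ⟨s, hs⟩ : ∃ s : S, x (Sum.inl s) ≠ 0 := by
        by_contra hcon
        push Not at hcon
        apply hx
        funext i
        rcases i with s | p
        · exact hcon s
        · exact hr p
      have h1 : 0 < ∑ s : S, x (Sum.inl s) ^ 2 * eval s.1 (Jac P Q) := by
        apply Finset.sum_pos' (fun s _ => mul_nonneg (sq_nonneg _) (hJ s.1 s.2).le)
        exact ⟨s, Finset.mem_univ s, mul_pos (by positivity) (hJ s.1 s.2)⟩
      rw [hY'] at hMb ⊢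
      linarith
    · have hYp : 0 < Y := lt_of_le_of_ne hY0 (Ne.symm hY')
      nlinarith)
  rwa [Fintype.card_sum, Fintype.card_coe, Fintype.card_coe] at hmain

end Run7.h256.Bz
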