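import Mathlib
import Pool.Agent.Run7.h256.Cen
import Pool.Agent.Run7.h256.Z1
import Pool.Agent.Run7.h256.Z3
import Pool.Agent.Run7.h256.U1

set_option autoImplicit false

namespace Run7.h256.U

open MvPolynomial

lemma exists_gcdsplitR (a b : RP) : ∃ g a' b' : RP, IsRelPrime a' b' ∧ g * a' = a ∧ g * b' = b := by
  by_cases ha : a = 0
  · by_cases hb : b = 0
    · exact ⟨0, 1, 1, isRelPrime_one_left, by simp [ha], by simp [hb]⟩
    · obtain ⟨b', a', g, h1, h2, h3⟩ := UniqueFactorizationMonoid.exists_reduced_factors b hb a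
      exact ⟨g, a', b', h1.symm, h3, h2⟩
  · obtain ⟨a', b', g, h1, h2, h3⟩ := UniqueFactorizationMonoid.exists_reduced_factors a ha b
    exact ⟨g, a', b', h1, h2, h3⟩

/-- Lyapunov function at a saddle -/
theorem hyp_F {P Q : RP} (hP : eval 0 P = 0) (hQ : eval 0 Q = 0)
    (hneg : eval 0 (pderiv 0 P) * eval 0 (pderiv 1 Q) - eval 0 (pderiv 1 P) * eval 0 (pderiv 0 Q) < 0) :
    ∃ F : RP, ∃ r : ℝ, 0 < r ∧ ∀ v : Fin 2 → ℝ, v ≠ 0 → ‖v‖ < r → 0 < eval v (XF P Q F) := by
  have hP1 := lin_part hP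
  have hQ1 := lin_part hQ
  set m11 := eval 0 (pderiv 0 P)
  set m12 := eval 0 (pderiv 1 P)
  set m21 := eval 0 (pderiv 0 Q)
  set m22 := eval 0 (pderiv 1 Q)
  set u : RP := C m11 * X 0 + C m12 * X 1 with hu
  set v : RP := C m21 * X 0 + C m22 * X 1 with hv
  have ux : pderiv 0 u = C m11 := by
    simp only [hu, map_add, Derivation.leibniz, smul_eq_mul, pderiv_C, p00, p01]; ring
  have uy : pderiv 1 u = C m12 := by
    simp only [hu, map_add, Derivation.leibniz, smul_eq_mul, pderiv_C, p10, p11]; ring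
  have vx : pderiv 0 v = C m21 := by
    simp only [hv, map_add, Derivation.leibniz, smul_eq_mul, pderiv_C, p00, p01]; ring
  have vy : pderiv 1 v = C m22 := by
    simp only [hv, map_add, Derivation.leibniz, smul_eq_mul, pderiv_C, p10, p11]; ring
  have Ou : Og 1 u := ((Og.X 0).mul_left _).add ((Og.X 1).mul_left _)
  have Ov : Og 1 v := ((Og.X 0).mul_left _).add ((Og.X 1).mul_left _)
  -- general quadratic
  have key : ∀ a b c : ℝ, Og 3 (XF P Q (C a * (X 0 * X 0 + X 1 * X 1) + C b * (X 0 * u + X 1 * v) +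
      C c * (u * u + v * v)) - (C (2 * a) * (X 0 * u + X 1 * v) + C b * ((u * u + v * v) +
      C (m11 + m22) * (X 0 * u + X 1 * v) - C (m11 * m22 - m12 * m21) * (X 0 * X 0 + X 1 * X 1)) +
      C (2 * c) * (C (m11 + m22) * (u * u + v * v) - C (m11 * m22 - m12 * m21) * (X 0 * u + X 1 * v)))) := by
    intro a b c
    have h1 : Og 2 (C a * (X 0 * X 0 + X 1 * X 1) + C b * (X 0 * u + X 1 * v) + C c * (u * u + v * v)) := by
      refine Og.add (Og.add ?_ ?_) ?_
      · exact (((Og.X 0).mul (Og.X 0) (by omega)).add ((Og.X 1).mul (Og.X 1) (by omega))).mul_left _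
      · exact (((Og.X 0).mul Ou (by omega)).add ((Og.X 1).mul Ov (by omega))).mul_left _
      · exact ((Ou.mul Ou (by omega)).add (Ov.mul Ov (by omega))).mul_left _
    have h2 := XF_near (n := 1) hP1 hQ1 h1
    convert h2 using 2
    simp only [XF, map_add, Derivation.leibniz, smul_eq_mul, pderiv_C, p00, p01, p10, p11, ux, uy, vx, vy]
    have c2 : (C 2 : RP) = 2 := map_ofNat C 2
    simp only [C_mul, C_add, C_sub, c2, hu, hv]
    ring
  have evu : ∀ w : Fin 2 → ℝ, eval w u = m11 * w 0 + m12 * w 1 := by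
    intro w; simp [hu]
  have evv : ∀ w : Fin 2 → ℝ, eval w v = m21 * w 0 + m22 * w 1 := by
    intro w; simp [hv]
  set J := m11 * m22 - m12 * m21 with hJ
  set D := m11 + m22 with hD
  have h1 := key (-(D / 2)) 1 0
  obtain ⟨r, hr, hr'⟩ := pos_near (n := 2) (δ := -J) (by linarith) (H := u * u + v * v - C J * (X 0 * X 0 + X 1 * X 1))
    (G := XF P Q (C (-(D / 2)) * (X 0 * X 0 + X 1 * X 1) + C 1 * (X 0 * u + X 1 * v) +
      C 0 * (u * u + v * v))) (by
      intro w
      simp only [map_sub, map_add, map_mul, eval_C, eval_X, evu, evv]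
      have := norm_sq_le w
      nlinarith [sq_nonneg (m11 * w 0 + m12 * w 1), sq_nonneg (m21 * w 0 + m22 * w 1)]) (by
      convert h1 using 2
      have e1 : (C (2 * -(D / 2)) : RP) = - C D := by rw [← C_neg]; congr 1; ring
      rw [e1]
      simp only [mul_zero, C_0, zero_mul, add_zero, C_1, one_mul]
      ring)
  exact ⟨_, r, hr, hr'⟩

lemma tau_neg (p : Fin 2 → ℝ) (F : RP) : tau p (tau (-p) F) = F := by
  apply MvPolynomial.funext
  intro v
  rw [eval_tau, eval_tau]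
  congr 1
  congr 1
  ext i; simp

/-- Lyapunov function at a saddle, anywhere -/
lemma hyp_G {P Q : RP} {p : Fin 2 → ℝ} (hP : eval p P = 0) (hQ : eval p Q = 0)
    (hneg : eval p (Jac P Q) < 0) :
    ∃ G : RP, ∃ r : ℝ, 0 < r ∧ ∀ q : Fin 2 → ℝ, q ≠ p → ‖q - p‖ < r → 0 < eval q (XF P Q G) := by
  have hJe : eval 0 (pderiv 0 (tau p P)) * eval 0 (pderiv 1 (tau p Q)) -
      eval 0 (pderiv 1 (tau p P)) * eval 0 (pderiv 0 (tau p Q)) = eval p (Jac P Q) := by
    simp only [tau_pderiv, eval_tau_zero, Jac, map_sub, map_mul]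
  obtain ⟨F, r, hr, hF⟩ := hyp_F (P := tau p P) (Q := tau p Q) (by rw [eval_tau_zero, hP])
    (by rw [eval_tau_zero, hQ]) (by rw [hJe]; exact hneg)
  refine ⟨tau (-p) F, r, hr, ?_⟩
  intro q hq hqr
  have h1 := hF (q - p) (sub_ne_zero.2 hq) hqr
  have h2 : XF (tau p P) (tau p Q) F = tau p (XF P Q (tau (-p) F)) := by
    unfold XF
    rw [map_add, map_mul, map_mul, ← tau_pderiv, ← tau_pderiv, tau_neg]
  rw [h2, eval_tau] at h1
  rwa [sub_add_cancel] at h1

/-- a common factor does not help -/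
lemma no_factor {g P1 Q1 : RP} {p : Fin 2 → ℝ} (h : SurrAt (g * P1) (g * Q1) p) (G : RP) {r : ℝ} (hr : 0 < r)
    (hpos : ∀ q : Fin 2 → ℝ, q ≠ p → ‖q - p‖ < r → 0 < eval q (XF P1 Q1 G)) : False := by
  obtain ⟨γ, T, g1, g2, g3, g4, g5, g6, _⟩ := h r hr
  obtain ⟨t0, h0, _⟩ := exists_max (fun t => g1.chain G t) g2 (fun t => by rw [g3])
  have e : XF (g * P1) (g * Q1) G = g * XF P1 Q1 G := by unfold XF; ring
  rw [e, map_mul] at h0
  rcases mul_eq_zero.1 h0 with h1 | h1
  · exact g1.ne_eq g2 g3 g6 (q := γ t0) (by rw [map_mul, h1, zero_mul]) (by rw [map_mul, h1, zero_mul]) t0 rfl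
  · exact (hpos _ (g4 t0) (g5 t0)).ne' h1


end Run7.h256.U
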