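import Mathlib
import Pool.Agent.Run7.h256.S2
import Pool.Agent.Run7.h256.U2
import Pool.Agent.Run7.h256.R2

set_option autoImplicit false

namespace Run7.h256.Bz

open U
open MvPolynomial Topology Filter Metric

/-- at a point surrounded by small orbits, the reduced field vanishes with nonnegative Jacobian -/
theorem surr_zero {g P1 Q1 : RP} {p : Fin 2 → ℝ} (h : SurrAt (g * P1) (g * Q1) p) :
    (eval p P1 = 0 ∧ eval p Q1 = 0) ∧ 0 ≤ eval p (Jac P1 Q1) := by
  have hz : eval p P1 = 0 ∧ eval p Q1 = 0 := by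
    by_contra hcon
    have hpos : 0 < eval p (C (eval p P1) * P1 + C (eval p Q1) * Q1) := by
      rw [map_add, map_mul, map_mul, eval_C, eval_C]
      by_cases h1 : eval p P1 = 0
      · have h2 : eval p Q1 ≠ 0 := fun h2 => hcon ⟨h1, h2⟩
        rw [h1]
        have : 0 < eval p Q1 * eval p Q1 := mul_self_pos.2 h2
        linarith
      · have : 0 < eval p P1 * eval p P1 := mul_self_pos.2 h1
        have := mul_self_nonneg (eval p Q1)
        linarith
    have hcont : Continuous (fun q : Fin 2 → ℝ => eval q (C (eval p P1) * P1 + C (eval p Q1) * Q1)) :=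
      MvPolynomial.continuous_eval _
    have hev := hcont.continuousAt.eventually (lt_mem_nhds hpos)
    obtain ⟨r, hr0, hball⟩ := Metric.eventually_nhds_iff.1 hev
    apply no_factor h (C (eval p P1) * X 0 + C (eval p Q1) * X 1) hr0
    intro q _ hq
    have e : XF P1 Q1 (C (eval p P1) * X 0 + C (eval p Q1) * X 1) = C (eval p P1) * P1 + C (eval p Q1) * Q1 := by
      simp only [XF, map_add, Derivation.leibniz, smul_eq_mul, pderiv_C, p00, p01, p10, p11]
      ring
    rw [e]
    exact hball (by rw [dist_eq_norm]; exact hq)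
  refine ⟨hz, ?_⟩
  by_contra hneg
  push Not at hneg
  obtain ⟨G, r, hr0, hG⟩ := hyp_G hz.1 hz.2 hneg
  exact no_factor h G hr0 hG

/-- zeros with nonnegative Jacobian -/
theorem count_nonneg {m : ℕ} {P Q : RP} (hP : Dle (m + 2) P) (hQ : Dle (m + 2) Q) (hrel : IsRelPrime P Q)
    (hmax : ¬ (Dle m P ∧ Dle m Q)) (hK : Dle m (pderiv 0 P + pderiv 1 Q)) {S : Finset (Fin 2 → ℝ)}
    (hS : ∀ s ∈ S, (eval s P = 0 ∧ eval s Q = 0) ∧ 0 ≤ eval s (Jac P Q)) : 2 * S.card ≤ (m + 2) ^ 2 + 1 := by
  classical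
  have h := count_all hP hQ hrel hmax hK (S := S.filter (fun s => 0 < eval s (Jac P Q)))
    (D := S.filter (fun s => ¬ 0 < eval s (Jac P Q))) (fun s hs => (hS s (Finset.mem_filter.1 hs).1).1)
    (fun s hs => (Finset.mem_filter.1 hs).2) (fun s hs => (hS s (Finset.mem_filter.1 hs).1).1)
    (fun s hs => le_antisymm (not_lt.1 (Finset.mem_filter.1 hs).2) (hS s (Finset.mem_filter.1 hs).1).2)
  rwa [Finset.card_filter_add_card_filter_not] at h

/-- coprime fields of lower degree -/
theorem count_low {k : ℕ} {P Q : RP} (hP : Dle k P) (hQ : Dle k Q) (hrel : IsRelPrime P Q) {S : Finset (Fin 2 → ℝ)}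
    (hS : ∀ s ∈ S, (eval s P = 0 ∧ eval s Q = 0) ∧ 0 ≤ eval s (Jac P Q)) : 2 * S.card ≤ (k + 1) ^ 2 + 1 := by
  rcases S.eq_empty_or_nonempty with h0 | ⟨p, hp⟩
  · rw [h0]; simp
  · obtain ⟨d, hd⟩ : ∃ d, d = max P.totalDegree Q.totalDegree := ⟨_, rfl⟩
    have hdk : d ≤ k := by rw [hd]; exact max_le hP hQ
    have hPd : Dle d P := by unfold Dle; rw [hd]; exact le_max_left _ _
    have hQd : Dle d Q := by unfold Dle; rw [hd]; exact le_max_right _ _
    rcases Nat.eq_zero_or_pos d with hd0 | hdpos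
    · exfalso
      rw [hd0] at hPd hQd
      have e1 := totalDegree_eq_zero_iff_eq_C.1 (Nat.le_zero.1 hPd)
      have e2 := totalDegree_eq_zero_iff_eq_C.1 (Nat.le_zero.1 hQd)
      obtain ⟨z1, z2⟩ := (hS p hp).1
      rw [e1, eval_C] at z1
      rw [e2, eval_C] at z2
      rw [z1, C_0] at e1
      rw [z2, C_0] at e2
      rw [e1, e2] at hrel
      have := hrel (dvd_refl 0) (dvd_refl 0)
      exact not_isUnit_zero this
    · obtain ⟨m, rfl⟩ : ∃ m, d = m + 1 := ⟨d - 1, by omega⟩
      have h1 := count_nonneg (m := m) (hPd.mono (by omega)) (hQd.mono (by omega)) hrel (by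
        rintro ⟨h1, h2⟩
        have : m + 1 ≤ m := by rw [hd]; exact max_le h1 h2
        omega) ((Dle.pderiv hPd 0).add (Dle.pderiv hQd 1)) hS
      have h2 : (m + 2) ^ 2 ≤ (k + 1) ^ 2 := Nat.pow_le_pow_left (by omega) 2
      omega

/-- all centres of systems whose divergence has degree at most `n - 2` -/
theorem centers_all {n : ℕ} (hn : 2 ≤ n) {P Q : RP} (hP : P.totalDegree ≤ n) (hQ : Q.totalDegree ≤ n)
    (h0 : ¬ (P = 0 ∧ Q = 0)) (hK : (pderiv 0 P + pderiv 1 Q).totalDegree + 2 ≤ n) :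
    {p : Fin 2 → ℝ | IsCenter P Q p}.encard ≤ (((n ^ 2 + 1) / 2 : ℕ) : ℕ∞) := by
  have key : ∀ S : Finset (Fin 2 → ℝ), (∀ s ∈ S, SurrAt P Q s) → 2 * S.card ≤ n ^ 2 + 1 := by
    obtain ⟨m, rfl⟩ : ∃ m, n = m + 2 := ⟨n - 2, by omega⟩
    intro S hS
    by_cases hA : IsRelPrime P Q ∧ ¬ (Dle (m + 1) P ∧ Dle (m + 1) Q)
    · apply count_nonneg (m := m) hP hQ hA.1 (fun h => hA.2 ⟨h.1.mono (by omega), h.2.mono (by omega)⟩) (by
        unfold Dle; omega)
      intro s hs
      apply surr_zero (g := 1)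
      rw [one_mul, one_mul]
      exact hS s hs
    · have hred : ∃ g P1 Q1 : RP, IsRelPrime P1 Q1 ∧ g * P1 = P ∧ g * Q1 = Q ∧ Dle (m + 1) P1 ∧ Dle (m + 1) Q1 := by
        by_cases hrel : IsRelPrime P Q
        · have h4 : Dle (m + 1) P ∧ Dle (m + 1) Q := by
            by_contra hc
            exact hA ⟨hrel, hc⟩
          exact ⟨1, P, Q, hrel, one_mul _, one_mul _, h4.1, h4.2⟩
        · obtain ⟨g, P1, Q1, hr, e1, e2⟩ := exists_gcdsplitR P Q
          have hg0 : g ≠ 0 := by
            rintro rfl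
            rw [zero_mul] at e1 e2
            exact h0 ⟨e1.symm, e2.symm⟩
          have hgd : ¬ Dle 0 g := by
            intro h0
            apply hrel
            obtain ⟨g', hg'⟩ := (unit_of hg0 h0).exists_left_inv
            intro f h1 h2
            apply hr
            · have : P1 = g' * P := by rw [← e1]; linear_combination (-P1) * hg'
              rw [this]; exact Dvd.dvd.mul_left h1 g'
            · have : Q1 = g' * Q := by rw [← e2]; linear_combination (-Q1) * hg'
              rw [this]; exact Dvd.dvd.mul_left h2 g'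
          have hlow : ∀ F G : RP, Dle (m + 2) G → g * F = G → Dle (m + 1) F := by
            intro F G hG hFG
            by_cases hF : F = 0
            · rw [hF]; exact Dle.zero
            · unfold Dle at hG hgd ⊢
              rw [← hFG, totalDegree_mul_of_isDomain hg0 hF] at hG
              omega
          exact ⟨g, P1, Q1, hr, e1, e2, hlow _ _ hP e1, hlow _ _ hQ e2⟩
      obtain ⟨g, P1, Q1, hr, e1, e2, d1, d2⟩ := hred
      apply count_low d1 d2 hr
      intro s hs
      apply surr_zero (g := g)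
      rw [e1, e2]
      exact hS s hs
  have hfin : {p : Fin 2 → ℝ | IsCenter P Q p}.Finite := by
    by_contra hinf
    obtain ⟨T, hT, hTc⟩ := Set.Infinite.exists_subset_card_eq hinf (n ^ 2 + 1)
    have h2 := key T (fun s hs => (hT hs : IsCenter P Q s).surrAt)
    have h3 : 0 < n ^ 2 + 1 := by positivity
    omega
  rw [hfin.encard_eq_coe_toFinset_card]
  have h1 := key hfin.toFinset (fun s hs => ((hfin.mem_toFinset.1 hs : IsCenter P Q s)).surrAt)
  have h2 : hfin.toFinset.card ≤ (n ^ 2 + 1) / 2 := by omega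
  exact_mod_cast h2

/-- the exact maximum over systems whose divergence has degree at most `n - 2` -/
theorem max_all (n : ℕ) (hn : 2 ≤ n) :
    IsGreatest {k : ℕ∞ | ∃ P Q : RP, max P.totalDegree Q.totalDegree = n ∧
      (pderiv 0 P + pderiv 1 Q).totalDegree + 2 ≤ n ∧ {p : Fin 2 → ℝ | eval p P = 0 ∧ eval p Q = 0}.Finite ∧
      {p : Fin 2 → ℝ | IsCenter P Q p}.encard = k} (((n ^ 2 + 1) / 2 : ℕ) : ℕ∞) := by
  have hub : ∀ P Q : RP, max P.totalDegree Q.totalDegree = n → (pderiv 0 P + pderiv 1 Q).totalDegree + 2 ≤ n →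
      {p : Fin 2 → ℝ | IsCenter P Q p}.encard ≤ (((n ^ 2 + 1) / 2 : ℕ) : ℕ∞) := by
    intro P Q hPQ hK
    apply centers_all hn (by rw [← hPQ]; exact le_max_left _ _) (by rw [← hPQ]; exact le_max_right _ _) _ hK
    rintro ⟨h1, h2⟩
    rw [h1, h2, totalDegree_zero, max_self] at hPQ
    omega
  have hdeg : (ff n).natDegree = n := by
    unfold ff
    rw [Lagrange.natDegree_nodal, Finset.card_range]
  have hdiv : pderiv 0 (up 1 (ff n)) + pderiv 1 (-up 0 (ff n)) = 0 := by
    rw [map_neg, up_pd_ne (by decide : (1 : Fin 2) ≠ 0), up_pd_ne (by decide : (0 : Fin 2) ≠ 1)]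
    simp
  have hmax : max (up 1 (ff n)).totalDegree (-up 0 (ff n)).totalDegree = n := by
    rw [totalDegree_neg, up_deg, up_deg, hdeg, max_self]
  have hK : (pderiv 0 (up 1 (ff n)) + pderiv 1 (-up 0 (ff n))).totalDegree + 2 ≤ n := by
    rw [hdiv, totalDegree_zero]; omega
  constructor
  · refine ⟨up 1 (ff n), -up 0 (ff n), hmax, hK, ex_fin_n n, ?_⟩
    apply le_antisymm (hub _ _ hmax hK)
    refine le_trans (ex_count n) (Set.encard_le_encard ?_)
    intro p hp
    exact hp.1
  · rintro k ⟨P, Q, h1, h2, _, rfl⟩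
    exact hub P Q h1 h2

end Run7.h256.Bz
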