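import Mathlib
import Pool.Agent.Run7.h256.Alg4
import Pool.Agent.Run7.h256.Main1
import Pool.Agent.Run7.h256.Top

set_option autoImplicit false

namespace Run7.h256

open MvPolynomial

lemma aeval_eq_cx (z : Fin 2 → ℂ) (F : RP) : aeval z F = eval z (cx F) := by
  rw [cx, eval_map]; rfl

lemma ci_of {P Q : RP} (hP : P.totalDegree ≤ 4) (hQ : Q.totalDegree ≤ 4) {Z : Finset (Fin 2 → ℂ)}
    (hZ : ∀ z : Fin 2 → ℂ, z ∈ Z ↔ aeval z P = 0 ∧ aeval z Q = 0) (hcard : Z.card = 16) :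
    CI16 (cx P) (cx Q) Z := by
  refine ⟨Dle_cx hP, Dle_cx hQ, ?_, hcard⟩
  intro z
  rw [hZ, aeval_eq_cx, aeval_eq_cx]

/-- from too many centres to nine of them -/
lemma nine_subset {P Q : RP} (h : 8 < {p | IsCenter P Q p}.encard) :
    ∃ S : Finset (Fin 2 → ℝ), S.card = 9 ∧ ∀ p ∈ S, IsCenter P Q p := by
  have h9 : (9 : ℕ∞) ≤ {p | IsCenter P Q p}.encard := by
    have := Order.add_one_le_of_lt h
    exact this
  obtain ⟨t, ht, htc⟩ := Set.exists_subset_encard_eq h9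
  have hfin : t.Finite := by
    apply Set.finite_of_encard_eq_coe (k := 9)
    exact htc
  refine ⟨hfin.toFinset, ?_, ?_⟩
  · rw [hfin.encard_eq_coe_toFinset_card] at htc
    exact_mod_cast htc
  · intro p hp
    exact ht (hfin.mem_toFinset.1 hp)

theorem stage1 (P Q : RP) (hP : P.totalDegree ≤ 4) (hQ : Q.totalDegree ≤ 4) (Z : Finset (Fin 2 → ℂ))
    (hZ : ∀ z : Fin 2 → ℂ, z ∈ Z ↔ aeval z P = 0 ∧ aeval z Q = 0) (hcard : Z.card = 16)
    (hdiv : ∀ W ⊆ Z, (∀ z ∈ W, aeval z (pderiv 0 P + pderiv 1 Q) = 0) → W.card ≤ 9) :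
    {p | IsCenter P Q p}.encard ≤ 8 := by
  classical
  by_contra hcon
  rw [not_le] at hcon
  obtain ⟨S, hS, hc⟩ := nine_subset hcon
  have hci := ci_of hP hQ hZ hcard
  obtain ⟨h1, h2, h3, h4⟩ := nine_of_centers hci hS (fun p hp => ⟨(hc p hp).1, (hc p hp).2.1, (hc p hp).smallAt⟩)
  refine ND.contradiction ⟨h1, h2, ?_⟩ h3 h4
  intro t ht h0
  have hW := hdiv (insert t (S.map ⟨cp, cp_inj⟩)) (by
      intro z hz
      rcases Finset.mem_insert.1 hz with rfl | hz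
      · exact (Finset.mem_sdiff.1 ht).1
      · exact h1.sub hz) (by
      intro z hz
      rw [aeval_eq_cx, ← cx_Dv]
      rcases Finset.mem_insert.1 hz with rfl | hz
      · exact h0
      · exact h2 z hz)
  rw [Finset.card_insert_of_notMem (Finset.mem_sdiff.1 ht).2, h1.card] at hW
  omega

end Run7.h256
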