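import Mathlib
import Pool.Agent.Run7.h256.Main2
import Pool.Agent.Run7.h256.TG

set_option autoImplicit false

namespace Run7.h256

open MvPolynomial

theorem stage2 (P Q : RP) (hP : P.totalDegree ≤ 4) (hQ : Q.totalDegree ≤ 4) (Z : Finset (Fin 2 → ℂ))
    (hZ : ∀ z : Fin 2 → ℂ, z ∈ Z ↔ aeval z P = 0 ∧ aeval z Q = 0) (hcard : Z.card = 16)
    (hdiv : pderiv 0 P + pderiv 1 Q ≠ 0) :
    {p | IsCenter P Q p}.encard ≤ 8 := by
  by_contra hcon
  rw [not_le] at hcon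
  obtain ⟨S, hS, hc⟩ := nine_subset hcon
  have hci := ci_of hP hQ hZ hcard
  obtain ⟨h1, h2, h3, h4⟩ := nine_of_centers hci hS (fun p hp => ⟨(hc p hp).1, (hc p hp).2.1, (hc p hp).smallAt⟩)
  have hcfg : Cfg P Q Z S := by
    refine ⟨h1, ?_, ?_, ?_, hdiv⟩
    · intro p hp
      have h5 := h2 (cp p) (Finset.mem_map.2 ⟨p, hp, rfl⟩)
      rw [cx_Dv, eval_cx] at h5
      exact_mod_cast h5
    · intro p hp
      obtain ⟨r, hr, hr'⟩ := h1.pos (cp p) (Finset.mem_map.2 ⟨p, hp, rfl⟩)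
      rw [cx_Jac, eval_cx] at hr'
      have : eval p (Jac P Q) = r := by exact_mod_cast hr'
      rw [this]; exact hr
    · intro p hp
      exact h3 (cp p) (Finset.mem_map.2 ⟨p, hp, rfl⟩)
  exact hcfg.false h4

end Run7.h256
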